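import Pool.Agent.Lib.MP_813db1_ag.HS.Stmt

/-! Matrix algebra. -/

namespace Pool.Agent.Lib.MP_813db1_ag.HS

open Complex Matrix
open scoped ComplexOrder MatrixOrder

namespace Mat

variable {ι : Type} [Fintype ι] [DecidableEq ι]

theorem fac {A : Mat ι} (hA : A.PosSemidef) : ∃ S : Mat ι, A = Sᴴ * S :=
  CStarAlgebra.nonneg_iff_eq_star_mul_self.1 hA.nonneg

theorem sim {H B : Mat ι} (hH : H.PosDef) (hB : B.PosSemidef) : ∃ (T : Mat ι) (d : ι → ℝ),
    IsUnit T.det ∧ (∀ i, 0 ≤ d i) ∧ H = Tᴴ * T ∧ B = Tᴴ * diagonal (fun i => (d i : ℂ)) * T := by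
  obtain ⟨S, rfl⟩ := fac hH.posSemidef
  have hS : IsUnit S.det := by
    have := (isUnit_iff_isUnit_det _).1 hH.isUnit
    rw [det_mul] at this
    exact isUnit_of_mul_isUnit_right this
  have hS' : IsUnit Sᴴ.det := by rw [det_conjTranspose]; exact hS.star
  have h' := hB.conjTranspose_mul_mul_same S⁻¹
  obtain ⟨U, d, hU, hd, e⟩ : ∃ (U : Mat ι) (d : ι → ℝ), U * Uᴴ = 1 ∧ (∀ i, 0 ≤ d i) ∧
      S⁻¹ᴴ * B * S⁻¹ = U * diagonal (fun i => (d i : ℂ)) * Uᴴ :=
    ⟨h'.1.eigenvectorUnitary, h'.1.eigenvalues, Unitary.coe_mul_star_self _, h'.eigenvalues_nonneg,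
      h'.1.spectral_theorem⟩
  refine ⟨Uᴴ * S, d, ?_, hd, ?_, ?_⟩
  · rw [det_mul]
    exact (isUnit_det_of_left_inverse hU).mul hS
  · rw [conjTranspose_mul, conjTranspose_conjTranspose, mul_assoc, ← mul_assoc U, hU, one_mul]
  · rw [conjTranspose_mul, conjTranspose_conjTranspose]
    calc B = Sᴴ * (S⁻¹ᴴ * B * S⁻¹) * S := by
          rw [conjTranspose_nonsing_inv, ← mul_assoc, ← mul_assoc, mul_nonsing_inv _ hS', one_mul,
            nonsing_inv_mul_cancel_right _ _ hS]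
      _ = _ := by rw [e]; simp only [mul_assoc]

theorem trm_conj {P Q : Mat ι} (hP : IsUnit P.det) (hQ : IsUnit Q.det) (H B : Mat ι) :
    trm (P * H * Q) (P * B * Q) = trm H B := by
  rw [trm, trm, Matrix.mul_inv_rev, Matrix.mul_inv_rev, mul_assoc (P * B),
    mul_nonsing_inv_cancel_left _ _ hQ, ← mul_assoc, trace_mul_cycle, ← mul_assoc,
    nonsing_inv_mul _ hP, one_mul]

theorem trm_diag {T : Mat ι} (hT : IsUnit T.det) (d : ι → ℝ) :
    trm (Tᴴ * T) (Tᴴ * diagonal (fun i => (d i : ℂ)) * T) = ∑ i, d i := by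
  have hT' : IsUnit Tᴴ.det := by rw [det_conjTranspose]; exact hT.star
  conv_lhs => rw [← mul_one Tᴴ, mul_assoc Tᴴ 1 (diagonal _), one_mul (diagonal _)]
  rw [trm_conj hT' hT, trm, inv_one, mul_one, trace_diagonal, ← ofReal_sum, ofReal_re]

theorem trm_nonneg {H B : Mat ι} (hH : H.PosDef) (hB : B.PosSemidef) : 0 ≤ trm H B := by
  obtain ⟨T, d, hT, hd, rfl, rfl⟩ := sim hH hB
  rw [trm_diag hT]
  exact Finset.sum_nonneg fun i _ => hd i

theorem le_trm {H B : Mat ι} (hH : H.PosDef) (hB : B.PosSemidef) :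
    ((trm H B : ℂ) • H - B).PosSemidef := by
  obtain ⟨T, d, hT, hd, rfl, rfl⟩ := sim hH hB
  rw [trm_diag hT]
  have h : (diagonal fun i => (((∑ j, d j) - d i : ℝ) : ℂ)).PosSemidef :=
    PosSemidef.diagonal fun i => zero_le_real.2
      (sub_nonneg.2 (Finset.single_le_sum (fun j _ => hd j) (Finset.mem_univ i)))
  convert h.conjTranspose_mul_mul_same T using 1
  have : (diagonal fun i => (((∑ j, d j) - d i : ℝ) : ℂ)) =
      ((∑ j, d j : ℝ) : ℂ) • (1 : Mat ι) - diagonal fun i => (d i : ℂ) := by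
    rw [← diagonal_one, ← diagonal_smul, diagonal_sub]
    congr 1
    funext i
    simp
  rw [this, mul_sub, sub_mul, Matrix.mul_smul, Matrix.smul_mul, mul_one]

theorem sq' {H B : Mat ι} (hH : H.PosDef) (hB : B.PosSemidef) :
    trm H B ^ 2 ≤ Fintype.card ι * trm H (B * H⁻¹ * B) ∧ trm H (B * H⁻¹ * B) ≤ trm H B ^ 2 := by
  obtain ⟨T, d, hT, hd, rfl, rfl⟩ := sim hH hB
  have hT' : IsUnit Tᴴ.det := by rw [det_conjTranspose]; exact hT.star
  have e : Tᴴ * diagonal (fun i => (d i : ℂ)) * T * (Tᴴ * T)⁻¹ *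
      (Tᴴ * diagonal (fun i => (d i : ℂ)) * T) =
      Tᴴ * diagonal (fun i => ((d i ^ 2 : ℝ) : ℂ)) * T := by
    rw [Matrix.mul_inv_rev, mul_assoc _ T, mul_nonsing_inv_cancel_left _ _ hT, mul_assoc,
      mul_assoc Tᴴ _ T, nonsing_inv_mul_cancel_left _ _ hT', ← mul_assoc, mul_assoc Tᴴ,
      diagonal_mul_diagonal]
    simp only [pow_two, ofReal_mul]
  rw [e, trm_diag hT, trm_diag hT]
  exact ⟨sq_sum_le_card_mul_sum_sq, Finset.sum_sq_le_sq_sum_of_nonneg fun i _ => hd i⟩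

omit [DecidableEq ι] in
theorem ip_eq (H : Mat ι) (a b : V ι) : ipV H a b = a ⬝ᵥ H *ᵥ star b := by
  simp only [ipV, dotProduct, mulVec, Finset.mul_sum, Pi.star_apply]
  exact Finset.sum_congr rfl fun i _ => Finset.sum_congr rfl fun j _ => by ring

omit [DecidableEq ι] in
theorem nv_eq (H : Mat ι) (v : V ι) : nV H (star v) = (star v ⬝ᵥ H *ᵥ v).re := by
  rw [nV, ip_eq, star_star]

omit [DecidableEq ι] in
theorem nv_mono {H : Mat ι} (hH : H.PosSemidef) (v : V ι) : 0 ≤ nV H v := by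
  rw [← star_star v, nv_eq]
  exact hH.re_dotProduct_nonneg _

omit [DecidableEq ι] in
theorem pd {H : Mat ι} (hH : H.IsHermitian) (h : ∀ v : V ι, v ≠ 0 → 0 < nV H v) : H.PosDef :=
  PosDef.of_dotProduct_mulVec_pos hH fun x hx => Complex.pos_iff.2
    ⟨nv_eq H x ▸ h _ (star_ne_zero.2 hx), (hH.im_star_dotProduct_mulVec_self x).symm⟩

omit [DecidableEq ι] in
theorem nv_lin (t : ℝ) (G B : Mat ι) (v : V ι) :
    nV ((t : ℂ) • G + B) v = t * nV G v + nV B v ∧ nV ((t : ℂ) • G - B) v = t * nV G v - nV B v := by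
  simp only [nV, ip_eq, add_mulVec, sub_mulVec, smul_mulVec, dotProduct_add, dotProduct_sub,
    dotProduct_smul, smul_eq_mul, add_re, sub_re, re_ofReal_mul, and_self]

omit [DecidableEq ι] in
theorem nv_le {L : ℝ} {B : Mat ι} (h : Bd L B) (v : V ι) :
    |nV B v| ≤ Fintype.card ι ^ 2 * |L| * ‖v‖ ^ 2 := by
  refine (abs_re_le_norm _).trans ((norm_sum_le _ _).trans ?_)
  have : ∀ i j, ‖B i j * v i * star (v j)‖ ≤ |L| * ‖v‖ ^ 2 := fun i j => by
    rw [norm_mul, norm_mul, norm_star, mul_assoc, pow_two]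
    have h1 := (h i j).trans (le_abs_self L)
    have h2 := norm_le_pi_norm v i
    have h3 := norm_le_pi_norm v j
    gcongr
  refine (Finset.sum_le_sum fun i _ => (norm_sum_le _ _).trans
    (Finset.sum_le_sum fun j _ => this i j)).trans (le_of_eq ?_)
  simp only [Finset.sum_const, Finset.card_univ, nsmul_eq_mul]
  ring

theorem nv_one (v : V ι) : ‖v‖ ^ 2 ≤ nV 1 v := by
  have e : nV 1 v = ∑ i, ‖v i‖ ^ 2 := by
    rw [nV, ip_eq, one_mulVec, dotProduct, re_sum]
    refine Finset.sum_congr rfl fun i _ => ?_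
    rw [Pi.star_apply, star_def, mul_conj, ofReal_re, normSq_eq_norm_sq]
  rw [e, ← Real.le_sqrt (norm_nonneg _) (by positivity)]
  refine (pi_norm_le_iff_of_nonneg (Real.sqrt_nonneg _)).2 fun i => Real.le_sqrt_of_sq_le ?_
  exact Finset.single_le_sum (f := fun i => ‖v i‖ ^ 2) (fun j _ => by positivity)
    (Finset.mem_univ i)

theorem nv (ι : Type) [Fintype ι] [DecidableEq ι] (L : ℝ) : ∃ c > 0, ∀ H : Mat ι, H.PosDef →
    Bd L H → Bd L H⁻¹ → ∀ v : V ι, c * ‖v‖ ^ 2 ≤ nV H v ∧ c * nV H v ≤ ‖v‖ ^ 2 := by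
  have hK : 0 < Fintype.card ι ^ 2 * |L| + Fintype.card ι * |L| + 1 := by positivity
  refine ⟨_, inv_pos.2 hK, fun H hH h1 h2 v => ?_⟩
  have a1 := nv_mono hH.posSemidef v
  have a2 := nv_mono (le_trm hH PosSemidef.one) v
  have a3 : trm H 1 ≤ Fintype.card ι * |L| := by
    rw [trm, one_mul, trace, re_sum]
    refine (Finset.sum_le_sum fun i _ => (re_le_norm _).trans
      ((h2 i i).trans (le_abs_self L))).trans (le_of_eq ?_)
    simp
  have a4 := (le_abs_self _).trans (nv_le h1 v)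
  have a5 := nv_one v
  have a6 := mul_le_mul_of_nonneg_right a3 a1
  rw [(nv_lin _ _ _ _).2] at a2
  rw [inv_mul_le_iff₀ hK, inv_mul_le_iff₀ hK]
  have a7 : 0 ≤ Fintype.card ι ^ 2 * |L| * nV H v := by positivity
  have a8 : 0 ≤ (Fintype.card ι * |L| + 1) * ‖v‖ ^ 2 := by positivity
  constructor <;> nlinarith

theorem ent {A : Mat ι} (hA : A.PosSemidef) (i j : ι) : 2 * ‖A i j‖ ≤ (A i i).re + (A j j).re := by
  obtain ⟨S, rfl⟩ := fac hA
  have e : ∀ i, ((Sᴴ * S) i i).re = ∑ k, ‖S k i‖ ^ 2 := fun i => by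
    rw [mul_apply, re_sum]
    refine Finset.sum_congr rfl fun k _ => ?_
    rw [conjTranspose_apply, star_def, mul_comm, mul_conj, ofReal_re, normSq_eq_norm_sq]
  rw [e, e, mul_apply, ← Finset.sum_add_distrib]
  refine (mul_le_mul_of_nonneg_left (norm_sum_le _ _) zero_le_two).trans ?_
  rw [Finset.mul_sum]
  refine Finset.sum_le_sum fun k _ => ?_
  rw [norm_mul, conjTranspose_apply, norm_star, ← mul_assoc]
  exact two_mul_le_add_sq _ _

theorem bd_le {L : ℝ} {G A : Mat ι} (hG : G.PosDef) (hA : A.PosSemidef) (h1 : Bd L G)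
    (h2 : trm G A ≤ L) : Bd (L * L) A := fun i j => by
  have k : ∀ i, (A i i).re ≤ L * L := fun i => by
    have a1 := (Complex.nonneg_iff.1 ((le_trm hG hA).diag_nonneg (i := i))).1
    have a2 := (Complex.nonneg_iff.1 (hG.posSemidef.diag_nonneg (i := i))).1
    have a3 := (re_le_norm _).trans (h1 i i)
    rw [Matrix.sub_apply, Matrix.smul_apply, smul_eq_mul, sub_re, re_ofReal_mul] at a1
    have a4 := mul_le_mul h2 a3 a2 (a2.trans a3)
    linarith
  linarith [ent hA i j, k i, k j]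

theorem adj (ι : Type) [Fintype ι] [DecidableEq ι] (K L : ℝ) : ∃ C, K ≤ C ∧ ∀ A : Mat ι, Bd K A →
    ‖A.det⁻¹‖ ≤ L → Bd C A⁻¹ := by
  refine ⟨max K (L * ((Fintype.card ι).factorial • max K 1 ^ Fintype.card ι)), le_max_left _ _,
    fun A h1 h2 i j => le_max_of_le_right ?_⟩
  rw [Matrix.inv_def, Ring.inverse_eq_inv', Matrix.smul_apply, smul_eq_mul, norm_mul, adjugate_apply]
  refine mul_le_mul h2 (det_le (abv := NormedField.toAbsoluteValue ℂ) fun k l => ?_) (norm_nonneg _)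
    ((norm_nonneg _).trans h2)
  change ‖(_ : ℂ)‖ ≤ _
  rw [updateRow_apply]
  split_ifs
  · rw [Pi.single_apply]
    split_ifs
    · simp
    · simp
  · exact le_max_of_le_left (h1 k l)

theorem det' {H : Mat ι} (hH : H.PosDef) : 0 < H.det.re ∧ H.det = (H.det.re : ℂ) :=
  have := Complex.pos_iff.1 hH.det_pos
  ⟨this.1, Complex.ext rfl this.2.symm⟩

theorem norm_det {H : Mat ι} (hH : H.PosDef) : ‖H.det‖ = H.det.re := by
  rw [(det' hH).2, norm_real, Real.norm_of_nonneg (det' hH).1.le, ofReal_re]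

omit [Fintype ι] [DecidableEq ι] in
theorem map_ct (J : Mat ι) : (J.map star)ᴴ = Jᵀ := by
  ext i j
  simp

theorem det_star (J : Mat ι) : (J.map star).det = star J.det := by
  rw [← det_conjTranspose, ← det_transpose]
  rfl

end Mat

open Mat in
theorem mat : MatS where
  trm_nonneg _ _ _ _ _ := trm_nonneg
  le_trm _ _ _ _ _ := le_trm
  sq _ _ _ _ _ := sq'
  det _ _ _ _ := det'
  real _ _ _ H B hH hB := by
    refine ⟨(conj_eq_iff_re.1 ?_).symm, (conj_eq_iff_re.1 ?_).symm⟩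
    · rw [← star_def, ← trace_conjTranspose, conjTranspose_mul, hH.inv.eq, hB.eq, trace_mul_comm]
    · rw [← star_def, ← det_conjTranspose, hB.eq]
  ell ι _ _ L := by
    obtain ⟨C, hC, k⟩ := adj ι (L * L) L
    refine ⟨C, fun G H hG hH _ h2 h3 h4 => ?_⟩
    have uG := (isUnit_iff_isUnit_det _).1 hG.isUnit
    have uH := (isUnit_iff_isUnit_det _).1 hH.isUnit
    have a := bd_le hG.inv hH.inv.posSemidef h2
      (by rwa [trm, nonsing_inv_nonsing_inv _ uG, trace_mul_comm])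
    refine ⟨?_, fun i j => (a i j).trans hC⟩
    have := k _ a (by rwa [det_nonsing_inv, Ring.inverse_eq_inv', inv_inv, norm_det hH])
    rwa [nonsing_inv_nonsing_inv _ uH] at this
  ell' ι _ _ L hL := by
    obtain ⟨C, hC, k⟩ := adj ι (L * L) L
    refine ⟨C, fun G H hG hH h1 _ h3 h4 => ?_⟩
    have a := bd_le hG hH.posSemidef h1 h3
    refine ⟨fun i j => (a i j).trans hC, k _ a ?_⟩
    rw [norm_inv, norm_det hH]
    exact inv_le_of_inv_le₀ hL h4
  nv := nv
  nv_mono _ _ _ _ v h := nv_mono h v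
  pd _ _ _ _ := pd
  dom ι _ _ L := by
    obtain ⟨c, hc, k⟩ := nv ι L
    refine ⟨(((Fintype.card ι ^ 2 * |L| + 1) / c : ℝ) : ℂ), fun G B hG hB h1 h2 h3 => ?_⟩
    have hs : ((((Fintype.card ι ^ 2 * |L| + 1) / c : ℝ) : ℂ) • G).IsHermitian :=
      (hG.posSemidef.smul (zero_le_real.2 (by positivity))).1
    have key : ∀ v : V ι, v ≠ 0 → |nV B v| < (Fintype.card ι ^ 2 * |L| + 1) / c * nV G v := by
      intro v hv
      have a1 := mul_le_mul_of_nonneg_left (k G hG h1 h2 v).1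
        (show 0 ≤ (Fintype.card ι ^ 2 * |L| + 1) / c by positivity)
      have a2 := nv_le h3 v
      have a3 : 0 < ‖v‖ ^ 2 := pow_pos (norm_pos_iff.2 hv) 2
      rw [← mul_assoc, div_mul_cancel₀ _ hc.ne'] at a1
      nlinarith
    refine ⟨pd (hs.add hB) fun v hv => ?_, pd (hs.sub hB) fun v hv => ?_⟩
    · rw [(nv_lin _ _ _ _).1]
      linarith [(abs_lt.1 (key v hv)).1]
    · rw [(nv_lin _ _ _ _).2]
      linarith [(abs_lt.1 (key v hv)).2]
  pull_pd ι _ _ J H hJ := by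
    have u1 : IsUnit Jᵀ.det := by rw [det_transpose]; exact hJ.isUnit
    have u2 : IsUnit (J.map star).det := by rw [det_star]; exact hJ.isUnit.star
    refine ⟨fun h => ?_, fun h => ?_, fun h => ?_, ?_, ?_, fun B => trm_conj u1 u2 H B,
      fun v w => ?_⟩
    · rw [pull, ← map_ct]
      exact h.conjTranspose_mul_mul_same
        (mulVec_injective_iff_isUnit.2 ((isUnit_iff_isUnit_det _).2 u2))
    · rw [pull, ← map_ct]
      exact h.conjTranspose_mul_mul_same _
    · rw [pull, ← map_ct]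
      exact isHermitian_conjTranspose_mul_mul _ h
    · rw [pull, det_mul, det_mul, det_transpose, det_star, mul_right_comm, star_def, mul_conj,
        normSq_eq_norm_sq]
    · rw [pull, Matrix.mul_inv_rev, Matrix.mul_inv_rev, mul_assoc]
    · have e : J.map star *ᵥ star w = star (J *ᵥ w) := by
        funext i
        simp [mulVec, dotProduct]
      rw [ip_eq, ip_eq, pull, ← mulVec_mulVec, ← mulVec_mulVec, e, dotProduct_mulVec,
        vecMul_transpose]

end Pool.Agent.Lib.MP_813db1_ag.HS
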