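import Pool.Agent.Lib.MP_813db1_ag.HS.Defs

/-! Calculus of the Wirtinger derivatives. -/

namespace Pool.Agent.Lib.MP_813db1_ag.HS

open MeasureTheory Complex Matrix Filter Topology Set Metric
open scoped ContDiff ComplexOrder

noncomputable section

set_option linter.unusedSectionVars false

variable {ι : Type} [Fintype ι] [DecidableEq ι] {f g : V ι → ℂ} {z : V ι} {k : ι}

/-! ### linearity and products -/

theorem dz_congr (h : f =ᶠ[𝓝 z] g) (k : ι) : dz f k z = dz g k z := by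
  rw [dz, dz, h.fderiv_eq]

theorem dzb_congr (h : f =ᶠ[𝓝 z] g) (k : ι) : dzb f k z = dzb g k z := by
  rw [dzb, dzb, h.fderiv_eq]

theorem dz_eventuallyEq (h : f =ᶠ[𝓝 z] g) (k : ι) : dz f k =ᶠ[𝓝 z] dz g k :=
  h.eventuallyEq_nhds.mono fun _ e => dz_congr e k

theorem dzb_eventuallyEq (h : f =ᶠ[𝓝 z] g) (k : ι) : dzb f k =ᶠ[𝓝 z] dzb g k :=
  h.eventuallyEq_nhds.mono fun _ e => dzb_congr e k

theorem levi_congr (h : f =ᶠ[𝓝 z] g) : levi f z = levi g z :=
  Matrix.ext fun i j => dz_congr (dzb_eventuallyEq h j) i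

theorem dz_add (hf : DifferentiableAt ℝ f z) (hg : DifferentiableAt ℝ g z) (k : ι) :
    dz (fun w => f w + g w) k z = dz f k z + dz g k z := by
  simp only [dz, fderiv_fun_add hf hg, _root_.add_apply]; ring

theorem dzb_add (hf : DifferentiableAt ℝ f z) (hg : DifferentiableAt ℝ g z) (k : ι) :
    dzb (fun w => f w + g w) k z = dzb f k z + dzb g k z := by
  simp only [dzb, fderiv_fun_add hf hg, _root_.add_apply]; ring

theorem dz_sub (hf : DifferentiableAt ℝ f z) (hg : DifferentiableAt ℝ g z) (k : ι) :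
    dz (fun w => f w - g w) k z = dz f k z - dz g k z := by
  simp only [dz, fderiv_fun_sub hf hg, _root_.sub_apply]; ring

theorem dzb_sub (hf : DifferentiableAt ℝ f z) (hg : DifferentiableAt ℝ g z) (k : ι) :
    dzb (fun w => f w - g w) k z = dzb f k z - dzb g k z := by
  simp only [dzb, fderiv_fun_sub hf hg, _root_.sub_apply]; ring

theorem dz_neg (f : V ι → ℂ) (k : ι) (z : V ι) : dz (fun w => -f w) k z = -dz f k z := by
  simp only [dz, fderiv_fun_neg, _root_.neg_apply]; ring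

theorem dzb_neg (f : V ι → ℂ) (k : ι) (z : V ι) : dzb (fun w => -f w) k z = -dzb f k z := by
  simp only [dzb, fderiv_fun_neg, _root_.neg_apply]; ring

theorem dz_const (c : ℂ) (k : ι) (z : V ι) : dz (fun _ => c) k z = 0 := by simp [dz]

theorem dzb_const (c : ℂ) (k : ι) (z : V ι) : dzb (fun _ => c) k z = 0 := by simp [dzb]

theorem dz_mul (hf : DifferentiableAt ℝ f z) (hg : DifferentiableAt ℝ g z) (k : ι) :
    dz (fun w => f w * g w) k z = dz f k z * g z + f z * dz g k z := by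
  simp only [dz, fderiv_fun_mul hf hg, _root_.add_apply,
    _root_.smul_apply, smul_eq_mul]; ring

theorem dzb_mul (hf : DifferentiableAt ℝ f z) (hg : DifferentiableAt ℝ g z) (k : ι) :
    dzb (fun w => f w * g w) k z = dzb f k z * g z + f z * dzb g k z := by
  simp only [dzb, fderiv_fun_mul hf hg, _root_.add_apply,
    _root_.smul_apply, smul_eq_mul]; ring

theorem dz_cmul (c : ℂ) (hf : DifferentiableAt ℝ f z) (k : ι) :
    dz (fun w => c * f w) k z = c * dz f k z := by
  rw [dz_mul (differentiableAt_const c) hf, dz_const, zero_mul, zero_add]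

theorem dzb_cmul (c : ℂ) (hf : DifferentiableAt ℝ f z) (k : ι) :
    dzb (fun w => c * f w) k z = c * dzb f k z := by
  rw [dzb_mul (differentiableAt_const c) hf, dzb_const, zero_mul, zero_add]

theorem dz_sum {κ : Type} (s : Finset κ) {F : κ → V ι → ℂ}
    (h : ∀ a ∈ s, DifferentiableAt ℝ (F a) z) (k : ι) :
    dz (fun w => ∑ a ∈ s, F a w) k z = ∑ a ∈ s, dz (F a) k z := by
  simp only [dz, fderiv_fun_sum h, _root_.sum_apply, Finset.mul_sum,
    ← Finset.sum_sub_distrib, Finset.sum_div]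

theorem dzb_sum {κ : Type} (s : Finset κ) {F : κ → V ι → ℂ}
    (h : ∀ a ∈ s, DifferentiableAt ℝ (F a) z) (k : ι) :
    dzb (fun w => ∑ a ∈ s, F a w) k z = ∑ a ∈ s, dzb (F a) k z := by
  simp only [dzb, fderiv_fun_sum h, _root_.sum_apply, Finset.mul_sum,
    ← Finset.sum_add_distrib, Finset.sum_div]

/-! ### conjugation -/

theorem star_I : star I = -I := conj_I

theorem fderiv_star_apply (f : V ι → ℂ) (z v : V ι) :
    fderiv ℝ (fun w => star (f w)) z v = star (fderiv ℝ f z v) := by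
  rw [fderiv_star]; rfl

theorem dz_star (f : V ι → ℂ) (k : ι) (z : V ι) :
    dz (fun w => star (f w)) k z = star (dzb f k z) := by
  simp only [dz, dzb, fderiv_star_apply, star_div₀, star_add, star_mul', star_ofNat, star_I]; ring

theorem dzb_star (f : V ι → ℂ) (k : ι) (z : V ι) :
    dzb (fun w => star (f w)) k z = star (dz f k z) := by
  simp only [dz, dzb, fderiv_star_apply, star_div₀, star_sub, star_mul', star_ofNat, star_I]; ring

theorem dzb_real (h : ∀ᶠ w in 𝓝 z, star (f w) = f w) (k : ι) : dzb f k z = star (dz f k z) := by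
  rw [← dzb_star]; exact dzb_congr (h.mono fun _ e => e.symm) k

theorem dzb_ofReal (u : V ι → ℝ) (k : ι) (z : V ι) :
    dzb (fun w => (u w : ℂ)) k z = star (dz (fun w => (u w : ℂ)) k z) :=
  dzb_real (Eventually.of_forall fun _ => conj_ofReal _) k

/-! ### the real differential -/

theorem clm_single (L : V ι →L[ℝ] ℂ) (k : ι) (c : ℂ) :
    L (Pi.single k c) = c.re * L (Pi.single k 1) + c.im * L (Pi.single k I) := by
  have : (Pi.single k c : V ι) = 
      c.re • (Pi.single k 1 : V ι) + c.im • (Pi.single k I : V ι) := by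
    rw [← Pi.single_smul', ← Pi.single_smul', ← Pi.single_add]
    simp
  rw [this, map_add, map_smul, map_smul]; rfl

theorem fderiv_single (f : V ι → ℂ) (z : V ι) (k : ι) (c : ℂ) :
    fderiv ℝ f z (Pi.single k c) = dz f k z * c + dzb f k z * star c := by
  rw [clm_single, dz, dzb]
  conv_rhs => rw [← re_add_im c]
  simp only [star_add, star_mul', RCLike.star_def, conj_I, conj_ofReal]
  linear_combination (c.im * fderiv ℝ f z (Pi.single k I)) * I_mul_I

theorem fderiv_eq_dz (f : V ι → ℂ) (z v : V ι) :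
    fderiv ℝ f z v = ∑ k, (dz f k z * v k + dzb f k z * star (v k)) := by
  conv_lhs => rw [← Finset.univ_sum_single v, map_sum]
  exact Finset.sum_congr rfl fun k _ => fderiv_single f z k _

theorem fderiv_hol {F : Type} [NormedAddCommGroup F] [NormedSpace ℂ F] {φ : V ι → F}
    (h : DifferentiableAt ℂ φ z) (v : V ι) : fderiv ℝ φ z v = fderiv ℂ φ z v := by
  rw [h.fderiv_restrictScalars ℝ]; rfl

omit [Fintype ι] in
theorem single_I (k : ι) : (Pi.single k I : V ι) = I • Pi.single k 1 := by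
  rw [← Pi.single_smul', smul_eq_mul, mul_one]

theorem dz_hol (h : DifferentiableAt ℂ f z) (k : ι) :
    dz f k z = fderiv ℂ f z (Pi.single k 1) := by
  rw [dz, fderiv_hol h, fderiv_hol h, single_I, map_smul, smul_eq_mul]
  linear_combination (-fderiv ℂ f z (Pi.single k 1) / 2) * I_mul_I

theorem dzb_hol (h : DifferentiableAt ℂ f z) (k : ι) : dzb f k z = 0 := by
  rw [dzb, fderiv_hol h, fderiv_hol h, single_I, map_smul, smul_eq_mul]
  linear_combination (fderiv ℂ f z (Pi.single k 1) / 2) * I_mul_I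

theorem differentiableAt_of_dzb (h : DifferentiableAt ℝ f z) (h0 : ∀ k, dzb f k z = 0) :
    DifferentiableAt ℂ f z := by
  refine (differentiableAt_iff_restrictScalars ℝ h).2
    ⟨∑ k, dz f k z • ContinuousLinearMap.proj k, ?_⟩
  ext1 v
  simp [fderiv_eq_dz, h0]

theorem dz_coord (i k : ι) (z : V ι) : dz (fun w => w i) k z = if i = k then 1 else 0 := by
  rw [dz_hol (differentiableAt_apply i z), (hasFDerivAt_apply i z).fderiv,
    ContinuousLinearMap.proj_apply, Pi.single_apply]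

theorem dzb_coord (i k : ι) (z : V ι) : dzb (fun w => w i) k z = 0 :=
  dzb_hol (differentiableAt_apply i z) k

/-! ### holomorphic changes of variables -/

theorem jac_eq_dz {τ : V ι → V ι} (h : DifferentiableAt ℂ τ z) (p i : ι) :
    jac τ z p i = dz (fun w => τ w p) i z := by
  rw [dz_hol (differentiableAt_pi.1 h p), fderiv_apply h]; rfl

theorem fderiv_comp_single {τ : V ι → V ι} (hf : DifferentiableAt ℝ f (τ z))
    (h : DifferentiableAt ℂ τ z) (i : ι) (c : ℂ) : fderiv ℝ (f ∘ τ) z (Pi.single i c) =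
      (∑ p, jac τ z p i * dz f p (τ z)) * c +
        (∑ p, star (jac τ z p i) * dzb f p (τ z)) * star c := by
  have e : (Pi.single i c : V ι) = c • Pi.single i 1 := by
    rw [← Pi.single_smul', smul_eq_mul, mul_one]
  rw [fderiv_comp z hf (h.restrictScalars ℝ), ContinuousLinearMap.comp_apply, fderiv_hol h, e,
    map_smul, fderiv_eq_dz, Finset.sum_mul, Finset.sum_mul, ← Finset.sum_add_distrib]
  refine Finset.sum_congr rfl fun p _ => ?_
  simp only [jac, of_apply, Pi.smul_apply, smul_eq_mul, star_mul']; ring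

theorem dz_comp {τ : V ι → V ι} (hf : DifferentiableAt ℝ f (τ z)) (h : DifferentiableAt ℂ τ z)
    (i : ι) : dz (f ∘ τ) i z = ∑ p, jac τ z p i * dz f p (τ z) := by
  rw [dz, fderiv_comp_single hf h, fderiv_comp_single hf h, star_one, star_I]
  linear_combination ((∑ p, star (jac τ z p i) * dzb f p (τ z)) -
    ∑ p, jac τ z p i * dz f p (τ z)) / 2 * I_mul_I

theorem dzb_comp {τ : V ι → V ι} (hf : DifferentiableAt ℝ f (τ z)) (h : DifferentiableAt ℂ τ z)
    (i : ι) : dzb (f ∘ τ) i z = ∑ p, star (jac τ z p i) * dzb f p (τ z) := by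
  rw [dzb, fderiv_comp_single hf h, fderiv_comp_single hf h, star_one, star_I]
  linear_combination ((∑ p, jac τ z p i * dz f p (τ z)) -
    ∑ p, star (jac τ z p i) * dzb f p (τ z)) / 2 * I_mul_I

theorem jac_mulVec (τ : V ι → V ι) (z v : V ι) : jac τ z *ᵥ v = fderiv ℂ τ z v := by
  ext p
  conv_rhs => rw [← Finset.univ_sum_single v, map_sum, Finset.sum_apply]
  refine Finset.sum_congr rfl fun i _ => ?_
  rw [show (Pi.single i (v i) : V ι) = v i • Pi.single i 1 by
    rw [← Pi.single_smul', smul_eq_mul, mul_one], map_smul, mul_comm]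
  rfl

theorem jac_comp {σ τ : V ι → V ι} (hσ : DifferentiableAt ℂ σ (τ z)) (h : DifferentiableAt ℂ τ z) :
    jac (σ ∘ τ) z = jac σ (τ z) * jac τ z := by
  ext p i
  rw [jac, of_apply, fderiv_comp z hσ h, ContinuousLinearMap.comp_apply, ← jac_mulVec]
  rfl

theorem jac_id (z : V ι) : jac (id : V ι → V ι) z = 1 := by
  ext p i
  simp [jac, Pi.single_apply, one_apply]

theorem jac_congr {σ τ : V ι → V ι} (h : σ =ᶠ[𝓝 z] τ) : jac σ z = jac τ z := by
  rw [jac, jac, h.fderiv_eq]

theorem analyticAt_jac {τ : V ι → V ι} (h : AnalyticAt ℂ τ z) (p i : ι) :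
    AnalyticAt ℂ (fun w => jac τ w p i) z :=
  (((ContinuousLinearMap.proj p : V ι →L[ℂ] ℂ).comp
    (ContinuousLinearMap.apply ℂ (V ι) (Pi.single i 1 : V ι))).analyticAt (fderiv ℂ τ z)).comp
    h.fderiv

/-! ### regularity -/

theorem contDiffAt_fderiv_apply {m n : WithTop ℕ∞} (h : ContDiffAt ℝ n f z) (hm : m + 1 ≤ n)
    (v : V ι) : ContDiffAt ℝ m (fun w => fderiv ℝ f w v) z :=
  (h.fderiv_right hm).clm_apply contDiffAt_const

theorem contDiffAt_dz {m n : WithTop ℕ∞} (h : ContDiffAt ℝ n f z) (hm : m + 1 ≤ n) (k : ι) :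
    ContDiffAt ℝ m (dz f k) z :=
  ((contDiffAt_fderiv_apply h hm _).sub
    (contDiffAt_const.mul (contDiffAt_fderiv_apply h hm _))).div_const 2

theorem contDiffAt_dzb {m n : WithTop ℕ∞} (h : ContDiffAt ℝ n f z) (hm : m + 1 ≤ n) (k : ι) :
    ContDiffAt ℝ m (dzb f k) z :=
  ((contDiffAt_fderiv_apply h hm _).add
    (contDiffAt_const.mul (contDiffAt_fderiv_apply h hm _))).div_const 2

theorem contDiffAt_dz_top (h : ContDiffAt ℝ ∞ f z) (k : ι) : ContDiffAt ℝ ∞ (dz f k) z :=
  contDiffAt_dz h (by simp) k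

theorem contDiffAt_dzb_top (h : ContDiffAt ℝ ∞ f z) (k : ι) : ContDiffAt ℝ ∞ (dzb f k) z :=
  contDiffAt_dzb h (by simp) k

theorem differentiableAt_dz (h : ContDiffAt ℝ 2 f z) (k : ι) : DifferentiableAt ℝ (dz f k) z :=
  (contDiffAt_dz (m := 1) h le_rfl k).differentiableAt one_ne_zero

theorem differentiableAt_dzb (h : ContDiffAt ℝ 2 f z) (k : ι) : DifferentiableAt ℝ (dzb f k) z :=
  (contDiffAt_dzb (m := 1) h le_rfl k).differentiableAt one_ne_zero

theorem eventually_diff (h : ContDiffAt ℝ 2 f z) : ∀ᶠ w in 𝓝 z, DifferentiableAt ℝ f w :=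
  (h.eventually (by simp)).mono fun _ e => e.differentiableAt two_ne_zero

theorem fderiv_fderiv_apply (h : ContDiffAt ℝ 2 f z) (v u : V ι) :
    fderiv ℝ (fun w => fderiv ℝ f w v) z u = fderiv ℝ (fderiv ℝ f) z u v := by
  rw [fderiv_clm_apply ((h.fderiv_right (m := 1) le_rfl).differentiableAt one_ne_zero)
    (differentiableAt_const v)]
  simp

theorem fderiv_dz (h : ContDiffAt ℝ 2 f z) (k : ι) (u : V ι) : fderiv ℝ (dz f k) z u =
    (fderiv ℝ (fderiv ℝ f) z u (Pi.single k 1) -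
      I * fderiv ℝ (fderiv ℝ f) z u (Pi.single k I)) / 2 := by
  have d := fun v => (contDiffAt_fderiv_apply (m := 1) h le_rfl v).differentiableAt one_ne_zero
  have e := (((d (Pi.single k 1)).hasFDerivAt.sub
    ((d (Pi.single k I)).hasFDerivAt.const_mul I)).mul_const (2 : ℂ)⁻¹).fderiv
  rw [← fderiv_fderiv_apply h, ← fderiv_fderiv_apply h]
  refine (DFunLike.congr_fun e u).trans ?_
  simp only [_root_.smul_apply, _root_.sub_apply, smul_eq_mul]; ring

theorem fderiv_dzb (h : ContDiffAt ℝ 2 f z) (k : ι) (u : V ι) : fderiv ℝ (dzb f k) z u =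
    (fderiv ℝ (fderiv ℝ f) z u (Pi.single k 1) +
      I * fderiv ℝ (fderiv ℝ f) z u (Pi.single k I)) / 2 := by
  have d := fun v => (contDiffAt_fderiv_apply (m := 1) h le_rfl v).differentiableAt one_ne_zero
  have e := (((d (Pi.single k 1)).hasFDerivAt.add
    ((d (Pi.single k I)).hasFDerivAt.const_mul I)).mul_const (2 : ℂ)⁻¹).fderiv
  rw [← fderiv_fderiv_apply h, ← fderiv_fderiv_apply h]
  refine (DFunLike.congr_fun e u).trans ?_
  simp only [_root_.smul_apply, _root_.add_apply, smul_eq_mul]; ring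

theorem fderiv_symm (h : ContDiffAt ℝ 2 f z) (u v : V ι) :
    fderiv ℝ (fderiv ℝ f) z u v = fderiv ℝ (fderiv ℝ f) z v u :=
  (h.isSymmSndFDerivAt (by simp)).eq u v

theorem dz_dzb_comm (h : ContDiffAt ℝ 2 f z) (i j : ι) :
    dz (dzb f j) i z = dzb (dz f i) j z := by
  rw [dz, dzb, fderiv_dz h, fderiv_dz h, fderiv_dzb h, fderiv_dzb h,
    fderiv_symm h (Pi.single i 1) (Pi.single j 1), fderiv_symm h (Pi.single i 1) (Pi.single j I),
    fderiv_symm h (Pi.single i I) (Pi.single j 1), fderiv_symm h (Pi.single i I) (Pi.single j I)]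
  ring

theorem dz_dz_comm (h : ContDiffAt ℝ 2 f z) (i j : ι) : dz (dz f j) i z = dz (dz f i) j z := by
  rw [dz, dz, fderiv_dz h, fderiv_dz h, fderiv_dz h, fderiv_dz h,
    fderiv_symm h (Pi.single i 1) (Pi.single j 1), fderiv_symm h (Pi.single i 1) (Pi.single j I),
    fderiv_symm h (Pi.single i I) (Pi.single j 1), fderiv_symm h (Pi.single i I) (Pi.single j I)]
  ring

theorem dzb_dzb_comm (h : ContDiffAt ℝ 2 f z) (i j : ι) :
    dzb (dzb f j) i z = dzb (dzb f i) j z := by
  rw [dzb, dzb, fderiv_dzb h, fderiv_dzb h, fderiv_dzb h, fderiv_dzb h,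
    fderiv_symm h (Pi.single i 1) (Pi.single j 1), fderiv_symm h (Pi.single i 1) (Pi.single j I),
    fderiv_symm h (Pi.single i I) (Pi.single j 1), fderiv_symm h (Pi.single i I) (Pi.single j I)]
  ring

theorem levi_comp {τ : V ι → V ι} (hf : ContDiffAt ℝ 2 f (τ z)) (h : AnalyticAt ℂ τ z) :
    levi (f ∘ τ) z = pull (jac τ z) (levi f (τ z)) := by
  ext i j
  have e : dzb (f ∘ τ) j =ᶠ[𝓝 z] fun w => ∑ p, star (jac τ w p j) * (dzb f p ∘ τ) w := by
    filter_upwards [h.continuousAt.eventually (eventually_diff hf), h.eventually_analyticAt]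
      with w h1 h2 using dzb_comp h1 h2.differentiableAt j
  have d1 := fun p => (analyticAt_jac h p j).differentiableAt
  have d2 := fun p => (differentiableAt_dzb hf p).comp z (h.differentiableAt.restrictScalars ℝ)
  rw [levi, of_apply, dz_congr e, dz_sum _ fun p _ => ((d1 p).restrictScalars ℝ).star.fun_mul (d2 p),
    pull, mul_apply]
  refine Finset.sum_congr rfl fun p _ => ?_
  rw [dz_mul ((d1 p).restrictScalars ℝ).star (d2 p), dz_star, dzb_hol (d1 p), star_zero, zero_mul,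
    zero_add, dz_comp (differentiableAt_dzb hf p) h.differentiableAt, mul_comm, mul_apply]
  rfl

/-! ### real functions -/

theorem fderiv_real_comp {Φ : ℝ → ℝ} {Φ' : ℝ} {u : V ι → ℝ} (hΦ : HasDerivAt Φ Φ' (u z))
    (hu : DifferentiableAt ℝ u z) (v : V ι) : fderiv ℝ (fun w => (Φ (u w) : ℂ)) z v =
      Φ' * fderiv ℝ (fun w => (u w : ℂ)) z v := by
  have e1 := (ofRealCLM.hasFDerivAt.comp z (hΦ.comp_hasFDerivAt z hu.hasFDerivAt)).fderiv
  have e2 := (ofRealCLM.hasFDerivAt.comp z hu.hasFDerivAt).fderiv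
  refine (DFunLike.congr_fun e1 v).trans (Eq.trans ?_
    (congrArg ((Φ' : ℂ) * ·) (DFunLike.congr_fun e2 v).symm))
  simp

theorem dz_real_comp {Φ : ℝ → ℝ} {Φ' : ℝ} {u : V ι → ℝ} (hΦ : HasDerivAt Φ Φ' (u z))
    (hu : DifferentiableAt ℝ u z) (k : ι) :
    dz (fun w => (Φ (u w) : ℂ)) k z = Φ' * dz (fun w => (u w : ℂ)) k z := by
  rw [dz, dz, fderiv_real_comp hΦ hu, fderiv_real_comp hΦ hu]; ring

theorem dzb_real_comp {Φ : ℝ → ℝ} {Φ' : ℝ} {u : V ι → ℝ} (hΦ : HasDerivAt Φ Φ' (u z))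
    (hu : DifferentiableAt ℝ u z) (k : ι) :
    dzb (fun w => (Φ (u w) : ℂ)) k z = Φ' * dzb (fun w => (u w : ℂ)) k z := by
  rw [dzb, dzb, fderiv_real_comp hΦ hu, fderiv_real_comp hΦ hu]; ring

theorem dz_hol_comp {Φ : ℂ → ℂ} {Φ' : ℂ} (hΦ : HasDerivAt Φ Φ' (f z))
    (hf : DifferentiableAt ℝ f z) (k : ι) : dz (fun w => Φ (f w)) k z = Φ' * dz f k z := by
  have e := ((hΦ.hasFDerivAt.restrictScalars ℝ).comp z hf.hasFDerivAt).fderiv
  rw [dz, dz, show (fun w => Φ (f w)) = Φ ∘ f from rfl, e]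
  simp; ring

theorem dzb_hol_comp {Φ : ℂ → ℂ} {Φ' : ℂ} (hΦ : HasDerivAt Φ Φ' (f z))
    (hf : DifferentiableAt ℝ f z) (k : ι) : dzb (fun w => Φ (f w)) k z = Φ' * dzb f k z := by
  have e := ((hΦ.hasFDerivAt.restrictScalars ℝ).comp z hf.hasFDerivAt).fderiv
  rw [dzb, dzb, show (fun w => Φ (f w)) = Φ ∘ f from rfl, e]
  simp; ring

end

end Pool.Agent.Lib.MP_813db1_ag.HS
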