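import Pool.Agent.Lib.MP_813db1_ag.HS.Stmt2
import Pool.Agent.Lib.MP_813db1_ag.HS.Calc

/-! Covariance of the differential operators under a change of charts. -/

namespace Pool.Agent.Lib.MP_813db1_ag.HS.RepB

open MeasureTheory Complex Matrix Filter Topology Set Metric
open scoped ContDiff ComplexOrder

set_option linter.unusedSectionVars false

variable {ι : Type} [Fintype ι] [DecidableEq ι]

/-! ### matrices -/

theorem det_bar (J : Mat ι) : (J.map star).det = star J.det :=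
  ((starRingEnd ℂ).map_det J).symm

theorem det_pull (J H : Mat ι) : (pull J H).det = ((‖J.det‖ ^ 2 : ℝ) : ℂ) * H.det := by
  rw [pull, det_mul, det_mul, det_transpose, det_bar, ofReal_pow, ← mul_conj']
  simp only [RCLike.star_def]
  ring

theorem inv_pull (J H : Mat ι) : (pull J H)⁻¹ = (J.map star)⁻¹ * H⁻¹ * (Jᵀ)⁻¹ := by
  rw [pull, Matrix.mul_inv_rev, Matrix.mul_inv_rev, Matrix.mul_assoc]

theorem unit_bar {J : Mat ι} (h : J.det ≠ 0) : IsUnit (J.map star).det := by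
  rw [det_bar]
  exact (star_ne_zero.2 h).isUnit

theorem unit_tr {J : Mat ι} (h : J.det ≠ 0) : IsUnit Jᵀ.det := by
  rw [det_transpose]
  exact h.isUnit

theorem vec_pull {J : Mat ι} (h : J.det ≠ 0) (H : Mat ι) (b : V ι) :
    J *ᵥ ((b ᵥ* J.map star) ᵥ* (pull J H)⁻¹) = b ᵥ* H⁻¹ := by
  rw [← vecMul_transpose, vecMul_vecMul, vecMul_vecMul, inv_pull, Matrix.mul_assoc _ _ Jᵀ,
    nonsing_inv_mul _ (unit_tr h), Matrix.mul_one, mul_nonsing_inv_cancel_left _ _ (unit_bar h)]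

theorem sum_eq (K : Mat ι) (a b : V ι) : ∑ i, ∑ j, K j i * a i * b j = a ⬝ᵥ (b ᵥ* K) := by
  simp only [dotProduct, vecMul, Finset.mul_sum]
  exact Finset.sum_congr rfl fun i _ => Finset.sum_congr rfl fun j _ => by ring

theorem sum_pull {J : Mat ι} (h : J.det ≠ 0) (H : Mat ι) (a b : V ι) :
    ∑ i, ∑ j, (pull J H)⁻¹ j i * (a ᵥ* J) i * (b ᵥ* J.map star) j =
      ∑ i, ∑ j, H⁻¹ j i * a i * b j := by
  rw [sum_eq, sum_eq, ← dotProduct_mulVec, vec_pull h]

theorem trace_pull {J : Mat ι} (h : J.det ≠ 0) (H B : Mat ι) :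
    trace (pull J B * (pull J H)⁻¹) = trace (B * H⁻¹) := by
  rw [inv_pull, pull, ← Matrix.mul_assoc, trace_mul_comm]
  simp only [Matrix.mul_assoc, nonsing_inv_mul_cancel_left _ _ (unit_tr h),
    mul_nonsing_inv_cancel_left _ _ (unit_bar h)]

theorem pull_neg (J B : Mat ι) : pull J (-B) = -pull J B := by
  simp [pull]

theorem pull_pull (A J H : Mat ι) : pull A (pull J H) = pull (J * A) H := by
  rw [pull, pull, pull, transpose_mul,
    show (J * A).map star = J.map star * A.map star from Matrix.map_mul (f := starRingEnd ℂ)]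
  simp only [Matrix.mul_assoc]

theorem pull_smul (c : ℂ) (A H : Mat ι) : pull (c • A) H = ((‖c‖ ^ 2 : ℝ) : ℂ) • pull A H := by
  rw [pull, pull, show (c • A).map star = star c • A.map star by
    ext i j
    simp, transpose_smul, ofReal_pow, ← mul_conj']
  simp only [Matrix.smul_mul, Matrix.mul_smul, smul_smul, RCLike.star_def, mul_comm]

theorem nD_eq (H : V ι → Mat ι) (U : V ι → V ι) (z : V ι) : nD H U z =
    (trace ((pull (Matrix.of fun i k => dzb (fun w => U w i) k z) (H z))ᵀ * (H z)⁻¹)).re := by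
  rw [nD, trace_mul_comm]
  congr 1
  simp only [trace, diag, pull, Matrix.mul_apply, transpose_apply, map_apply, of_apply,
    Finset.mul_sum, Finset.sum_mul]
  refine Finset.sum_congr rfl fun k _ => Finset.sum_congr rfl fun l _ => ?_
  rw [Finset.sum_comm]
  exact Finset.sum_congr rfl fun i _ => Finset.sum_congr rfl fun j _ => by ring

theorem tr_pull (J B : Mat ι) : (pull (J.map star) B)ᵀ = pull J Bᵀ := by
  rw [pull, pull, transpose_mul, transpose_mul, transpose_transpose, Matrix.mul_assoc]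
  congr 2
  ext i j
  simp

/-! ### local calculus -/

variable {z : V ι}

theorem sm_det {𝕜 : Type} [NontriviallyNormedField 𝕜] [NormedAlgebra 𝕜 ℂ] [NormedSpace 𝕜 (V ι)]
    {n : WithTop ℕ∞} {G : V ι → Mat ι} (h : ∀ i j, ContDiffAt 𝕜 n (fun w => G w i j) z) :
    ContDiffAt 𝕜 n (fun w => (G w).det) z := by
  simp only [Matrix.det_apply']
  exact ContDiffAt.sum fun σ _ => contDiffAt_const.mul (contDiffAt_prod fun i _ => h _ _)

theorem sm_inv {n : WithTop ℕ∞} {G : V ι → Mat ι}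
    (h : ∀ i j, ContDiffAt ℝ n (fun w => G w i j) z) (hd : (G z).det ≠ 0) (i j : ι) :
    ContDiffAt ℝ n (fun w => (G w)⁻¹ i j) z := by
  have h2 : ContDiffAt ℝ n (fun w => ((G w).updateRow j (Pi.single i 1)).det) z := by
    refine sm_det fun p q => ?_
    by_cases e : p = j
    · subst e
      simp only [updateRow_self]
      exact contDiffAt_const
    · simp only [updateRow_ne e]
      exact h p q
  have := ((sm_det h).inv hd).mul h2
  refine this.congr_of_eventuallyEq (Eventually.of_forall fun w => ?_)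
  simp only [Matrix.inv_def, Matrix.smul_apply, adjugate_apply, Ring.inverse_eq_inv', smul_eq_mul,
    Pi.inv_apply]

theorem pos_det {H : Mat ι} (h : H.PosDef) : 0 < H.det.re := (Complex.lt_def.1 h.det_pos).1

theorem sm_lg {n : WithTop ℕ∞} {G : V ι → Mat ι} (h : ∀ i j, ContDiffAt ℝ n (fun w => G w i j) z)
    (hd : (G z).det.re ≠ 0) : ContDiffAt ℝ n (lg G) z :=
  ofRealCLM.contDiff.contDiffAt.comp z
    ((reCLM.contDiff.contDiffAt.comp z (sm_det h)).log hd)

theorem an_det {φ : V ι → V ι} (h : AnalyticAt ℂ φ z) :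
    AnalyticAt ℂ (fun w => (jac φ w).det) z :=
  (sm_det (n := ⊤) fun p i => (analyticAt_jac h p i).contDiffAt).analyticAt

theorem an_sm {F : Type} [NormedAddCommGroup F] [NormedSpace ℂ F] [CompleteSpace F]
    {n : WithTop ℕ∞} {φ : V ι → F} (h : AnalyticAt ℂ φ z) : ContDiffAt ℝ n φ z :=
  h.contDiffAt.restrict_scalars ℝ

theorem an_dz {D : V ι → ℂ} (h : AnalyticAt ℂ D z) (k : ι) : AnalyticAt ℂ (dz D k) z :=
  (((ContinuousLinearMap.apply ℂ ℂ (Pi.single k 1 : V ι)).analyticAt (fderiv ℂ D z)).comp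
    h.fderiv).congr (h.eventually_analyticAt.mono fun _ e => (dz_hol e.differentiableAt k).symm)

/-- the logarithm of the squared modulus. -/
noncomputable def lm (D : V ι → ℂ) (w : V ι) : ℂ := (Real.log (‖D w‖ ^ 2) : ℂ)

theorem sm_sq {D : V ι → ℂ} {n : WithTop ℕ∞} (h : AnalyticAt ℂ D z) :
    ContDiffAt ℝ n (fun w => ‖D w‖ ^ 2) z := (an_sm h).norm_sq ℂ

theorem sm_lm {D : V ι → ℂ} {n : WithTop ℕ∞} (h : AnalyticAt ℂ D z) (h0 : D z ≠ 0) :
    ContDiffAt ℝ n (lm D) z :=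
  ofRealCLM.contDiff.contDiffAt.comp z ((sm_sq h).log (by simpa using h0))

theorem dz_lm {D : V ι → ℂ} (h : AnalyticAt ℂ D z) (h0 : D z ≠ 0) (k : ι) :
    dz (lm D) k z = dz D k z / D z := by
  have d : DifferentiableAt ℝ D z := (an_sm (n := 1) h).differentiableAt one_ne_zero
  have e : (fun w => ((‖D w‖ ^ 2 : ℝ) : ℂ)) = fun w => D w * star (D w) := funext fun w => by
    rw [ofReal_pow, ← mul_conj']
    rfl
  have := dz_real_comp (u := fun w => ‖D w‖ ^ 2)
    (Real.hasDerivAt_log (by simpa using h0 : ‖D z‖ ^ 2 ≠ 0))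
    ((sm_sq (n := 1) h).differentiableAt one_ne_zero) k
  rw [e, dz_mul d d.star, dz_star, dzb_hol h.differentiableAt, ofReal_inv, congrFun e z] at this
  refine this.trans ?_
  have : star (D z) ≠ 0 := star_ne_zero.2 h0
  rw [star_zero]
  field_simp
  ring

theorem levi_lm {D : V ι → ℂ} (h : AnalyticAt ℂ D z) (h0 : D z ≠ 0) : levi (lm D) z = 0 := by
  ext i j
  have e : dzb (lm D) j =ᶠ[𝓝 z] fun w => star (dz D j w / D w) := by
    filter_upwards [h.eventually_analyticAt, h.continuousAt.eventually_ne h0] with w k1 k2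
    rw [← dz_lm k1 k2]
    exact dzb_ofReal _ j w
  rw [levi, of_apply, dz_congr e, dz_star, dzb_hol ((an_dz h j).fun_div h h0).differentiableAt]
  simp

theorem levi_add {f g : V ι → ℂ} (hf : ContDiffAt ℝ 2 f z) (hg : ContDiffAt ℝ 2 g z) :
    levi (fun w => f w + g w) z = levi f z + levi g z := by
  ext i j
  have e : dzb (fun w => f w + g w) j =ᶠ[𝓝 z] fun w => dzb f j w + dzb g j w := by
    filter_upwards [eventually_diff hf, eventually_diff hg] with w k1 k2 using dzb_add k1 k2 j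
  rw [levi, of_apply, dz_congr e, dz_add (differentiableAt_dzb hf j) (differentiableAt_dzb hg j)]
  rfl

theorem dzb_hmul {D f : V ι → ℂ} (h : AnalyticAt ℂ D z) (hf : DifferentiableAt ℝ f z) (k : ι) :
    dzb (fun w => D w * f w) k z = D z * dzb f k z := by
  rw [dzb_mul ((an_sm (n := 1) h).differentiableAt one_ne_zero) hf, dzb_hol h.differentiableAt,
    zero_mul, zero_add]

theorem levi_hmul {D f : V ι → ℂ} (h : AnalyticAt ℂ D z) (hf : ContDiffAt ℝ 2 f z) (i j : ι) :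
    levi (fun w => D w * f w) z i j = dz D i z * dzb f j z + D z * levi f z i j := by
  have e : dzb (fun w => D w * f w) j =ᶠ[𝓝 z] fun w => D w * dzb f j w := by
    filter_upwards [h.eventually_analyticAt, eventually_diff hf] with w k1 k2
      using dzb_hmul k1 k2 j
  rw [levi, of_apply, dz_congr e, dz_mul ((an_sm (n := 1) h).differentiableAt one_ne_zero)
    (differentiableAt_dzb hf j)]
  rfl

theorem dz_pow {D : V ι → ℂ} (h : AnalyticAt ℂ D z) (h0 : D z ≠ 0) (a : ℕ) (k : ι) :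
    dz (fun w => D w ^ a) k z = a * D z ^ a * (dz D k z / D z) := by
  rw [dz_hol_comp (hasDerivAt_pow a (D z)) ((an_sm (n := 1) h).differentiableAt one_ne_zero)]
  rcases a with _ | a
  · simp
  · rw [Nat.add_sub_cancel, pow_succ]
    field_simp

theorem dz_vec {f : V ι → ℂ} {φ : V ι → V ι} (hf : DifferentiableAt ℝ f (φ z))
    (h : AnalyticAt ℂ φ z) (i : ι) :
    dz (f ∘ φ) i z = ((fun p => dz f p (φ z)) ᵥ* jac φ z) i := by
  rw [dz_comp hf h.differentiableAt]
  exact Finset.sum_congr rfl fun p _ => mul_comm _ _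

theorem dzb_vec {f : V ι → ℂ} {φ : V ι → V ι} (hf : DifferentiableAt ℝ f (φ z))
    (h : AnalyticAt ℂ φ z) (i : ι) :
    dzb (f ∘ φ) i z = ((fun p => dzb f p (φ z)) ᵥ* (jac φ z).map star) i := by
  rw [dzb_comp hf h.differentiableAt]
  exact Finset.sum_congr rfl fun p _ => mul_comm _ _

/-! ### local transformation rules -/

section Loc

variable {φ : V ι → V ι} {H H' : V ι → Mat ι} {F F' : V ι → ℂ} {a : ℕ}

theorem lg_loc (h : AnalyticAt ℂ φ z) (h0 : (jac φ z).det ≠ 0)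
    (hs : ∀ i j, ContDiffAt ℝ 2 (fun w => H' w i j) (φ z)) (hp : (H' (φ z)).det.re ≠ 0)
    (e : ∀ᶠ w in 𝓝 z, H w = pull (jac φ w) (H' (φ w))) :
    lg H =ᶠ[𝓝 z] fun w => lm (fun w => (jac φ w).det) w + (lg H' ∘ φ) w := by
  have c : ContinuousAt (fun w => (H' w).det.re) (φ z) :=
    continuous_re.continuousAt.comp (sm_det hs).continuousAt
  filter_upwards [e, (an_det h).continuousAt.eventually_ne h0,
    h.continuousAt.eventually (c.eventually_ne hp)] with w k1 k2 k3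
  rw [lg, k1, det_pull, re_ofReal_mul, Real.log_mul (by simpa using k2) k3, ofReal_add]
  rfl

theorem ric_loc (h : AnalyticAt ℂ φ z) (h0 : (jac φ z).det ≠ 0)
    (hs : ∀ i j, ContDiffAt ℝ 2 (fun w => H' w i j) (φ z)) (hp : (H' (φ z)).det.re ≠ 0)
    (e : ∀ᶠ w in 𝓝 z, H w = pull (jac φ w) (H' (φ w))) :
    ric H z = pull (jac φ z) (ric H' (φ z)) := by
  change -levi (lg H) z = pull _ (-levi (lg H') _)
  rw [levi_congr (lg_loc h h0 hs hp e), levi_add (sm_lm (an_det h) h0)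
    ((sm_lg hs hp).comp z (an_sm h)), levi_lm (an_det h) h0, zero_add,
    levi_comp (sm_lg hs hp) h, pull_neg]

theorem dzb_loc (h : AnalyticAt ℂ φ z) (hF : DifferentiableAt ℝ F' (φ z))
    (e : ∀ᶠ w in 𝓝 z, F w = (jac φ w).det ^ a * F' (φ w)) (j : ι) :
    dzb F j z = (jac φ z).det ^ a * ((fun p => dzb F' p (φ z)) ᵥ* (jac φ z).map star) j := by
  rw [dzb_congr e, ← dzb_vec hF h]
  exact dzb_hmul ((an_det h).fun_pow a)
    (hF.comp z ((an_sm (n := 1) h).differentiableAt one_ne_zero)) j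

theorem shp_loc (h : AnalyticAt ℂ φ z) (h0 : (jac φ z).det ≠ 0) (hF : DifferentiableAt ℝ F' (φ z))
    (e : ∀ᶠ w in 𝓝 z, F w = (jac φ w).det ^ a * F' (φ w))
    (e' : H z = pull (jac φ z) (H' (φ z))) :
    jac φ z *ᵥ shp H F z = (jac φ z).det ^ a • shp H' F' (φ z) := by
  have k : ∀ (H : V ι → Mat ι) F z, shp H F z = (fun p => dzb F p z) ᵥ* (H z)⁻¹ := fun H F z =>
    funext fun i => Finset.sum_congr rfl fun j _ => mul_comm _ _
  rw [k, k, ← vec_pull h0 (H' (φ z)), e', show (fun p => dzb F p z) = (jac φ z).det ^ a •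
    ((fun p => dzb F' p (φ z)) ᵥ* (jac φ z).map star) from funext (dzb_loc h hF e), smul_vecMul,
    mulVec_smul]

theorem box_loc (h : AnalyticAt ℂ φ z) (h0 : (jac φ z).det ≠ 0)
    (hs : ∀ i j, ContDiffAt ℝ 2 (fun w => H' w i j) (φ z)) (hp : (H' (φ z)).det.re ≠ 0)
    (hF : ContDiffAt ℝ 2 F' (φ z)) (e : ∀ᶠ w in 𝓝 z, F w = (jac φ w).det ^ a * F' (φ w))
    (e' : ∀ᶠ w in 𝓝 z, H w = pull (jac φ w) (H' (φ w))) :
    boxL a H F z = (jac φ z).det ^ a * boxL a H' F' (φ z) := by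
  have d := hF.differentiableAt two_ne_zero
  have l := (sm_lg hs hp).differentiableAt two_ne_zero
  have e1 : ∀ i, dz (lg H) i z = dz (fun w => (jac φ w).det) i z / (jac φ z).det +
      ((fun p => dz (lg H') p (φ z)) ᵥ* jac φ z) i := fun i => by
    rw [dz_congr (lg_loc h h0 hs hp e'), dz_add ((sm_lm (n := 1) (an_det h) h0).differentiableAt
      one_ne_zero) (l.comp z ((an_sm (n := 1) h).differentiableAt one_ne_zero)),
      dz_lm (an_det h) h0, dz_vec l h]
  have e2 : ∀ i j, levi F z i j = a * (jac φ z).det ^ a *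
      (dz (fun w => (jac φ w).det) i z / (jac φ z).det) *
        ((fun p => dzb F' p (φ z)) ᵥ* (jac φ z).map star) j +
      (jac φ z).det ^ a * pull (jac φ z) (levi F' (φ z)) i j := fun i j => by
    rw [levi_congr e, ← levi_comp hF h, ← dzb_vec d h, ← dz_pow (an_det h) h0]
    exact levi_hmul ((an_det h).fun_pow a) (hF.comp z (an_sm h)) i j
  rw [boxL, boxL, lapL, lapL, ← trace_pull h0 (H' (φ z)),
    ← sum_pull h0 _ (fun p => dz (lg H') p (φ z)) fun p => dzb F' p (φ z), e'.self_of_nhds]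
  simp only [trace, diag, Matrix.mul_apply, e1, e2, dzb_loc h d e, Finset.mul_sum, mul_sub,
    ← Finset.sum_sub_distrib]
  exact Finset.sum_congr rfl fun i _ => Finset.sum_congr rfl fun j _ => by ring

theorem shp_diff (hs : ∀ i j, ContDiffAt ℝ 1 (fun w => H w i j) z) (hp : (H z).det ≠ 0)
    (hF : ContDiffAt ℝ 2 F z) (i : ι) : DifferentiableAt ℝ (fun w => shp H F w i) z :=
  DifferentiableAt.fun_sum fun j _ =>
    ((sm_inv hs hp j i).differentiableAt one_ne_zero).mul (differentiableAt_dzb hF j)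

theorem nD_loc {U U' : V ι → V ι} {D : V ι → ℂ} (h : AnalyticAt ℂ φ z) (h0 : (jac φ z).det ≠ 0)
    (hD : AnalyticAt ℂ D z) (hU : ∀ i, DifferentiableAt ℝ (fun w => U w i) z)
    (hU' : ∀ i, DifferentiableAt ℝ (fun w => U' w i) (φ z))
    (e : ∀ᶠ w in 𝓝 z, jac φ w *ᵥ U w = D w • U' (φ w)) (e' : H z = pull (jac φ z) (H' (φ z))) :
    nD H U z = ‖D z‖ ^ 2 * nD H' U' (φ z) := by
  have k : jac φ z * (Matrix.of fun i k => dzb (fun w => U w i) k z) =
      D z • ((Matrix.of fun i k => dzb (fun w => U' w i) k (φ z)) * (jac φ z).map star) := by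
    ext p k
    have := dzb_congr (f := fun w => ∑ i, jac φ w p i * U w i)
      (g := fun w => D w * ((fun w => U' w p) ∘ φ) w) (e.mono fun w q => congrFun q p) k
    rw [dzb_sum _ fun i _ => ((an_sm (n := 1) (analyticAt_jac h p i)).differentiableAt
      one_ne_zero).fun_mul (hU i), dzb_hmul hD ((hU' p).comp z
        ((an_sm (n := 1) h).differentiableAt one_ne_zero)), dzb_vec (hU' p) h] at this
    simp only [fun i => dzb_hmul (analyticAt_jac h p i) (hU i) k] at this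
    exact this
  rw [nD_eq, nD_eq, e', pull_pull, k, pull_smul, ← pull_pull, transpose_smul, tr_pull,
    Matrix.smul_mul, trace_smul, trace_pull h0, smul_eq_mul, re_ofReal_mul]

end Loc

/-! ### charts -/

variable {X : Type} [TopologicalSpace X] {M : Atl ι X}

section Two

variable {e e' : Ch ι X} {x : X}

theorem ev (hx : x ∈ e.source) (hx' : x ∈ e'.source) :
    ∀ᶠ w in 𝓝 (e x), w ∈ e.target ∧ e.symm w ∈ e'.source :=
  (e.open_target.eventually_mem (e.map_source hx)).and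
    ((e.continuousAt_symm (e.map_source hx)).eventually
      (e'.open_source.eventually_mem (by rwa [e.left_inv hx])))

theorem tr_pt (hx : x ∈ e.source) : (e' ∘ e.symm) (e x) = e' x := congrArg e' (e.left_inv hx)

theorem fn_ev (u : X → ℝ) (hx : x ∈ e.source) (hx' : x ∈ e'.source) :
    fn u e =ᶠ[𝓝 (e x)] fn u e' ∘ (e' ∘ e.symm) :=
  (ev hx hx').mono fun w k => by simp only [fn, Function.comp, e'.left_inv k.2]

theorem rep_ev (ha : RepA' M) (a : ℕ) (σ : X → ℂ) (he : e ∈ M.A) (he' : e' ∈ M.A)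
    (hx : x ∈ e.source) (hx' : x ∈ e'.source) : ∀ᶠ w in 𝓝 (e x), M.rep a σ e w =
      (jac (e' ∘ e.symm) w).det ^ a * M.rep a σ e' ((e' ∘ e.symm) w) :=
  (ev hx hx').mono fun w k => by
    have := ha.rep_tr a σ e he e' he' _ (e.map_target k.1) k.2
    rwa [tj, e.right_inv k.1] at this

theorem repF_ev (ha : RepA' M) (B : X → Mat ι) (he : e ∈ M.A) (he' : e' ∈ M.A)
    (hx : x ∈ e.source) (hx' : x ∈ e'.source) : ∀ᶠ w in 𝓝 (e x), M.repF B e w =
      pull (jac (e' ∘ e.symm) w) (M.repF B e' ((e' ∘ e.symm) w)) :=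
  (ev hx hx').mono fun w k => by
    have := ha.repF_tr B e he e' he' _ (e.map_target k.1) k.2
    rwa [tj, e.right_inv k.1] at this

theorem fn_sm {n : WithTop ℕ∞} {u : X → ℝ} (he : e ∈ M.A) (he' : e' ∈ M.A) (hx : x ∈ e.source)
    (hx' : x ∈ e'.source) (h : ContDiffAt ℝ n (fn u e) (e x)) : ContDiffAt ℝ n (fn u e') (e' x) :=
  (ContDiffAt.comp _ (by rwa [tr_pt hx'])
    (an_sm (M.hol e' he' e he x hx' hx))).congr_of_eventuallyEq (fn_ev u hx' hx)

theorem fn_diff {u : X → ℝ} (he : e ∈ M.A) (he' : e' ∈ M.A) (hx : x ∈ e.source)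
    (hx' : x ∈ e'.source) (h : DifferentiableAt ℝ (fn u e) (e x)) :
    DifferentiableAt ℝ (fn u e') (e' x) :=
  (DifferentiableAt.comp _ (by rwa [tr_pt hx']) ((an_sm (n := 1)
    (M.hol e' he' e he x hx' hx)).differentiableAt one_ne_zero)).congr_of_eventuallyEq
    (fn_ev u hx' hx)

theorem rep_sm (ha : RepA' M) {n : WithTop ℕ∞} {a : ℕ} {σ : X → ℂ} (he : e ∈ M.A) (he' : e' ∈ M.A)
    (hx : x ∈ e.source) (hx' : x ∈ e'.source) (h : ContDiffAt ℝ n (M.rep a σ e) (e x)) :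
    ContDiffAt ℝ n (M.rep a σ e') (e' x) :=
  ((an_sm ((an_det (M.hol e' he' e he x hx' hx)).fun_pow a)).mul
    (ContDiffAt.comp (g := M.rep a σ e) _ (by rwa [tr_pt hx'])
      (an_sm (M.hol e' he' e he x hx' hx)))).congr_of_eventuallyEq
    (rep_ev ha a σ he' he hx' hx)

theorem rep_diff (ha : RepA' M) {a : ℕ} {σ : X → ℂ} (he : e ∈ M.A) (he' : e' ∈ M.A)
    (hx : x ∈ e.source) (hx' : x ∈ e'.source) (h : DifferentiableAt ℝ (M.rep a σ e) (e x)) :
    DifferentiableAt ℝ (M.rep a σ e') (e' x) :=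
  (((an_sm (n := 1) ((an_det (M.hol e' he' e he x hx' hx)).fun_pow a)).differentiableAt
    one_ne_zero).fun_mul (DifferentiableAt.comp (g := M.rep a σ e) _ (by rwa [tr_pt hx'])
      ((an_sm (n := 1) (M.hol e' he' e he x hx' hx)).differentiableAt one_ne_zero))).congr_of_eventuallyEq
    (rep_ev ha a σ he' he hx' hx)

theorem rep_pt (a : ℕ) (σ : X → ℂ) (hx : x ∈ e.source) :
    M.rep a σ e (e x) = (tj e (M.ch x) x).det ^ a * σ x := by rw [Atl.rep, e.left_inv hx]

theorem repF_pt (B : X → Mat ι) (hx : x ∈ e.source) :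
    M.repF B e (e x) = pull (tj e (M.ch x) x) (B x) := by rw [Atl.repF, e.left_inv hx]

theorem k_sm {h : X → Mat ι} (hh : M.IsK h) (he : e ∈ M.A) (hx : x ∈ e.source) (n : ℕ) (i j : ι) :
    ContDiffAt ℝ n (fun w => M.repF h e w i j) (e x) :=
  ((hh e he).1.1 _ (e.map_source hx) i j).of_le (by exact_mod_cast le_top)

theorem k_det {h : X → Mat ι} (hh : M.IsK h) (he : e ∈ M.A) (hx : x ∈ e.source) :
    (M.repF h e (e x)).det.re ≠ 0 := (pos_det ((hh e he).2 _ (e.map_source hx))).ne'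

end Two

theorem ddc_rep (_ha : RepA' M) : ∀ u, ∀ e ∈ M.A, ∀ x ∈ e.source, ContDiffAt ℝ 2 (fn u e) (e x) →
    M.repF (M.ddc u) e (e x) = levi (fn u e) (e x) := fun u e he x hx h => by
  rw [repF_pt _ hx, levi_congr (fn_ev u hx (M.mem x)), levi_comp (by
    rw [tr_pt hx]
    exact fn_sm he (M.ch_mem x) hx (M.mem x) h) (M.hol e he _ (M.ch_mem x) x hx (M.mem x)),
    tr_pt hx]
  rfl

theorem ric_rep (ha : RepA' M) : ∀ B, M.IsK B → ∀ e ∈ M.A, ∀ z ∈ e.target,
    M.repF (M.ricF B) e z = ric (M.repF B e) z := fun B hB e he z hz => by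
  obtain ⟨x, hx, rfl⟩ : ∃ x ∈ e.source, e x = z := ⟨_, e.map_target hz, e.right_inv hz⟩
  rw [repF_pt _ hx, ric_loc (M.hol e he _ (M.ch_mem x) x hx (M.mem x))
    (ha.tj_det e he _ (M.ch_mem x) x hx (M.mem x))
    (by rw [tr_pt hx]; exact k_sm hB (M.ch_mem x) (M.mem x) 2)
    (by rw [tr_pt hx]; exact k_det hB (M.ch_mem x) (M.mem x))
    (repF_ev ha B he (M.ch_mem x) hx (M.mem x)), tr_pt hx]
  rfl

theorem dfn_rep (_ha : RepA' M) : ∀ u, ∀ e ∈ M.A, ∀ x ∈ e.source,
    DifferentiableAt ℝ (fn u e) (e x) →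
    (fun i => dz (fn u e) i (e x)) = M.dfn u x ᵥ* tj e (M.ch x) x := fun u e he x hx h => by
  funext i
  rw [dz_congr (fn_ev u hx (M.mem x)), dz_vec (by
    rw [tr_pt hx]
    exact fn_diff he (M.ch_mem x) hx (M.mem x) h) (M.hol e he _ (M.ch_mem x) x hx (M.mem x)),
    tr_pt hx]
  rfl

theorem grad_rep (ha : RepA' M) : ∀ h u v, ∀ e ∈ M.A, ∀ x ∈ e.source,
    DifferentiableAt ℝ (fn u e) (e x) → DifferentiableAt ℝ (fn v e) (e x) →
    grL (M.repF h e (e x)) (fun i => dz (fn u e) i (e x)) (fun i => dz (fn v e) i (e x)) =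
      grL (h x) (M.dfn u x) (M.dfn v x) := fun h u v e he x hx hu hv => by
  rw [dfn_rep ha u e he x hx hu, dfn_rep ha v e he x hx hv, repF_pt _ hx, grL, grL]
  refine Eq.trans ?_ (sum_pull (ha.tj_det e he _ (M.ch_mem x) x hx (M.mem x)) (h x) (M.dfn u x)
    (star (M.dfn v x)))
  simp only [vecMul, dotProduct, star_sum, star_mul', map_apply, Pi.star_apply]

theorem lap_rep (ha : RepA' M) : ∀ h u, ∀ e ∈ M.A, ∀ x ∈ e.source,
    ContDiffAt ℝ 2 (fn u e) (e x) → (lapL (M.repF h e) (fn u e) (e x)).re = M.lap h u x :=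
  fun h u e he x hx hu => by
    rw [lapL, ← ddc_rep ha u e he x hx hu]
    exact ha.trm_rep h _ e he x hx

theorem box_rep (ha : RepA' M) : ∀ a h σ, M.IsK h → ∀ e ∈ M.A, ∀ x ∈ e.source,
    ContDiffAt ℝ 2 (M.rep a σ e) (e x) →
    M.rep a (M.box a h σ) e (e x) = boxL a (M.repF h e) (M.rep a σ e) (e x) :=
  fun a h σ hh e he x hx hs => by
    rw [rep_pt _ _ hx, box_loc (M.hol e he _ (M.ch_mem x) x hx (M.mem x))
      (ha.tj_det e he _ (M.ch_mem x) x hx (M.mem x))
      (by rw [tr_pt hx]; exact k_sm hh (M.ch_mem x) (M.mem x) 2)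
      (by rw [tr_pt hx]; exact k_det hh (M.ch_mem x) (M.mem x))
      (by rw [tr_pt hx]; exact rep_sm ha he (M.ch_mem x) hx (M.mem x) hs)
      (rep_ev ha a σ he (M.ch_mem x) hx (M.mem x)) (repF_ev ha h he (M.ch_mem x) hx (M.mem x)),
      tr_pt hx]
    rfl

theorem shp_two (ha : RepA' M) (a : ℕ) (h : X → Mat ι) (σ : X → ℂ) {e e' : Ch ι X} {x : X}
    (he : e ∈ M.A) (he' : e' ∈ M.A) (hx : x ∈ e.source) (hx' : x ∈ e'.source)
    (hs : DifferentiableAt ℝ (M.rep a σ e) (e x)) :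
    tj e e' x *ᵥ shp (M.repF h e) (M.rep a σ e) (e x) =
      (tj e e' x).det ^ a • shp (M.repF h e') (M.rep a σ e') (e' x) := by
  rw [← tr_pt (e' := e') hx]
  exact shp_loc (M.hol e he e' he' x hx hx') (ha.tj_det e he e' he' x hx hx')
    (by rw [tr_pt hx]; exact rep_diff ha he he' hx hx' hs) (rep_ev ha a σ he he' hx hx')
    (repF_ev ha h he he' hx hx').self_of_nhds

theorem shp_rep (ha : RepA' M) : ∀ a h σ, ∀ e ∈ M.A, ∀ x ∈ e.source,
    DifferentiableAt ℝ (M.rep a σ e) (e x) →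
    tj e (M.ch x) x *ᵥ shp (M.repF h e) (M.rep a σ e) (e x) =
      (tj e (M.ch x) x).det ^ a • M.shpX a h σ x :=
  fun a h σ _ he x hx hs => shp_two ha a h σ he (M.ch_mem x) hx (M.mem x) hs

theorem nD_rep (ha : RepA' M) : ∀ a h σ, M.IsK h → ∀ e ∈ M.A, ∀ x ∈ e.source,
    ContDiffAt ℝ 2 (M.rep a σ e) (e x) →
    nD (M.repF h e) (shp (M.repF h e) (M.rep a σ e)) (e x) =
      (‖(tj e (M.ch x) x).det‖ ^ 2) ^ a * M.nDX a h σ x := fun a h σ hh e he x hx hs => by
  have k := M.hol e he _ (M.ch_mem x) x hx (M.mem x)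
  have n0 : ∀ c : ℂ, c.re ≠ 0 → c ≠ 0 := fun c q r => q (by rw [r, zero_re])
  rw [nD_loc (U' := shp (M.repF h (M.ch x)) (M.rep a σ (M.ch x))) k
    (ha.tj_det e he _ (M.ch_mem x) x hx (M.mem x)) ((an_det k).fun_pow a)
    (shp_diff (k_sm hh he hx 1) (n0 _ (k_det hh he hx)) hs)
    (by
      rw [tr_pt hx]
      exact shp_diff (k_sm hh (M.ch_mem x) (M.mem x) 1) (n0 _ (k_det hh (M.ch_mem x) (M.mem x)))
        (rep_sm ha he (M.ch_mem x) hx (M.mem x) hs))
    (by
      filter_upwards [ev hx (M.mem x), eventually_diff hs] with w q d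
      have := shp_two ha a h σ he (M.ch_mem x) (e.map_target q.1) q.2 (by rwa [e.right_inv q.1])
      rwa [tj, e.right_inv q.1] at this)
    (repF_ev ha h he (M.ch_mem x) hx (M.mem x)).self_of_nhds, tr_pt hx, norm_pow, ← pow_mul,
    ← pow_mul, mul_comm a]
  rfl

end Pool.Agent.Lib.MP_813db1_ag.HS.RepB
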