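import Pool.Agent.Lib.MP_813db1_ag.HS.Calc2

/-! A sub-mean value inequality, and a connectedness argument. -/

namespace Pool.Agent.Lib.MP_813db1_ag.HS.Weight

open MeasureTheory Complex Matrix Filter Topology Set Metric
open scoped ContDiff ComplexOrder

noncomputable section

set_option linter.unusedSectionVars false

variable {ι : Type} [Fintype ι] [DecidableEq ι]

/-- the squared Euclidean norm. -/
def nq (w : V ι) : ℝ := ∑ i, normSq (w i)

/-- the bump. -/
def bt (R : ℝ) (w : V ι) : ℝ := expNegInvGlue (R ^ 2 - nq w)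

/-- minus its radial derivative. -/
def rh (R : ℝ) (w : V ι) : ℝ := deriv expNegInvGlue (R ^ 2 - nq w)

theorem nq_eq : (fun w : V ι => (nq w : ℂ)) = fun w => ∑ i, w i * star (w i) := by
  ext w
  simp [nq, mul_conj]

theorem cd_coord (i : ι) : ContDiff ℝ 1 fun w : V ι => w i := contDiff_apply ℝ ℂ i

theorem cd_nq : ContDiff ℝ 1 (nq : V ι → ℝ) := by
  refine contDiff_iff_contDiffAt.2 fun z => contDiffAt_ofReal.1 ?_
  rw [nq_eq]
  exact ContDiffAt.sum fun i _ => (cd_coord i).contDiffAt.mul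
    (conjCLE.contDiff.contDiffAt.comp z (cd_coord i).contDiffAt)

theorem dz_nq (k : ι) (z : V ι) : dz (fun w : V ι => (nq w : ℂ)) k z = star (z k) := by
  have d := fun i : ι => ((cd_coord i).differentiable one_ne_zero) z
  rw [nq_eq, dz_sum _ fun i _ => (d i).fun_mul (d i).star]
  simp only [fun i => dz_mul (d i) (d i).star k, dz_star, dz_coord, dzb_coord]
  simp

theorem deriv_glue (x : ℝ) : deriv expNegInvGlue x = x⁻¹ ^ 2 * expNegInvGlue x := by
  simpa using (expNegInvGlue.hasDerivAt_polynomial_eval_inv_mul 1 x).deriv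

theorem cd_bt (R : ℝ) : ContDiff ℝ 1 (bt R : V ι → ℝ) :=
  expNegInvGlue.contDiff.comp (contDiff_const.sub cd_nq)

theorem cont_rh (R : ℝ) : Continuous (rh R : V ι → ℝ) :=
  ((expNegInvGlue.contDiff (n := 1)).continuous_deriv le_rfl).comp
    (continuous_const.sub cd_nq.continuous)

theorem bt_nonneg (R : ℝ) (w : V ι) : 0 ≤ bt R w := expNegInvGlue.nonneg _

theorem rh_nonneg (R : ℝ) (w : V ι) : 0 ≤ rh R w := by
  rw [rh, deriv_glue]
  exact mul_nonneg (sq_nonneg _) (expNegInvGlue.nonneg _)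

theorem rh_pos {R : ℝ} {w : V ι} (h : nq w < R ^ 2) : 0 < rh R w := by
  have := sub_pos.2 h
  rw [rh, deriv_glue]
  exact mul_pos (by positivity) (expNegInvGlue.pos_of_pos this)

theorem bt_zero {R : ℝ} (hR : 0 ≤ R) {w : V ι} (h : w ∉ closedBall (0 : V ι) R) : bt R w = 0 := by
  refine expNegInvGlue.zero_of_nonpos (sub_nonpos.2 ?_)
  rw [mem_closedBall_zero_iff, pi_norm_le_iff_of_nonneg hR] at h
  push Not at h
  obtain ⟨i, hi⟩ := h
  refine le_trans ?_ (Finset.single_le_sum (f := fun i => normSq (w i))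
    (fun i _ => normSq_nonneg _) (Finset.mem_univ i))
  rw [normSq_eq_norm_sq]
  exact pow_le_pow_left₀ hR hi.le 2

theorem hd_bt (R : ℝ) (t : ℝ) : HasDerivAt (fun t => expNegInvGlue (R ^ 2 - t))
    (-deriv expNegInvGlue (R ^ 2 - t)) t := by
  have := (((expNegInvGlue.contDiff (n := 1)).differentiable one_ne_zero)
    (R ^ 2 - t)).hasDerivAt.comp t ((hasDerivAt_id t).const_sub (R ^ 2))
  rw [mul_neg_one] at this
  exact this

theorem dz_bt (R : ℝ) (k : ι) (z : V ι) :
    dz (fun w : V ι => (bt R w : ℂ)) k z = -rh R z * star (z k) := by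
  have := dz_real_comp (hd_bt R (nq z)) (cd_nq.differentiable one_ne_zero z) k
  rw [dz_nq, ofReal_neg] at this
  exact this

theorem dzb_bt (R : ℝ) (k : ι) (z : V ι) :
    dzb (fun w : V ι => (bt R w : ℂ)) k z = -rh R z * z k := by
  rw [dzb_ofReal, dz_bt]
  simp

theorem cut {R : ℝ} (hR : 0 ≤ R) {P : V ι → ℂ}
    (h : ∀ w ∈ closedBall (0 : V ι) R, ContDiffAt ℝ 1 P w) :
    ContDiff ℝ 1 (fun w => (bt R w : ℂ) * P w) ∧ HasCompactSupport (fun w => (bt R w : ℂ) * P w) ∧
      ∀ w ∉ closedBall (0 : V ι) R, (fun w => (bt R w : ℂ) * P w) =ᶠ[𝓝 w] fun _ => 0 := by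
  have h0 : ∀ w ∉ closedBall (0 : V ι) R, (bt R w : ℂ) * P w = 0 := fun w hw => by
    simp [bt_zero hR hw]
  have h1 : ∀ w ∉ closedBall (0 : V ι) R, (fun w => (bt R w : ℂ) * P w) =ᶠ[𝓝 w] fun _ => 0 :=
    fun w hw => eventually_of_mem (isClosed_closedBall.isOpen_compl.mem_nhds hw) h0
  refine ⟨contDiff_iff_contDiffAt.2 fun w => ?_,
    HasCompactSupport.intro (isCompact_closedBall 0 R) h0, h1⟩
  by_cases hw : w ∈ closedBall (0 : V ι) R
  · exact (contDiffAt_ofReal.2 (cd_bt R).contDiffAt).mul (h w hw)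
  · exact contDiffAt_const.congr_of_eventuallyEq (h1 w hw)

theorem int_dz {f : V ι → ℂ} (hf : ContDiff ℝ 1 f) (hc : HasCompactSupport f) (k : ι) :
    Integrable (dz f k) ∧ Integrable (dzb f k) :=
  ⟨((integrable_fderiv hf hc _).sub ((integrable_fderiv hf hc _).const_mul I)).div_const 2,
    ((integrable_fderiv hf hc _).add ((integrable_fderiv hf hc _).const_mul I)).div_const 2⟩

/-- integration by parts. -/
theorem ibp {R C : ℝ} (hR : 0 ≤ R) {u : V ι → ℝ}
    (hu : ∀ w ∈ closedBall (0 : V ι) R, ContDiffAt ℝ 2 u w)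
    (hC : ∀ w ∈ closedBall (0 : V ι) R, -C ≤ (trace (levi (fun w => (u w : ℂ)) w)).re) :
    -(2 * C * ∫ w in closedBall (0 : V ι) R, bt R w) ≤
      ∫ w in closedBall (0 : V ι) R, rh R w * fderiv ℝ u w w := by
  set G : V ι → ℂ := fun w => (u w : ℂ)
  have hG : ∀ w ∈ closedBall (0 : V ι) R, ContDiffAt ℝ 2 G w := fun w hw =>
    contDiffAt_ofReal.2 (hu w hw)
  have hK := isCompact_closedBall (0 : V ι) R
  have p := fun k => cut hR fun w hw => contDiffAt_dzb (m := 1) (hG w hw) (by norm_num) k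
  have q := fun k => cut hR fun w hw => contDiffAt_dz (m := 1) (hG w hw) (by norm_num) k
  set H : V ι → ℂ := fun w => ∑ k, (dz (fun w => (bt R w : ℂ) * dzb G k w) k w +
    dzb (fun w => (bt R w : ℂ) * dz G k w) k w) with hH
  have i1 := fun k => (int_dz (p k).1 (p k).2.1 k).1
  have i2 := fun k => (int_dz (q k).1 (q k).2.1 k).2
  have iH : Integrable H := integrable_finsetSum _ fun k _ => (i1 k).add (i2 k)
  have e0 : ∫ w in closedBall (0 : V ι) R, (H w).re = 0 := by
    rw [setIntegral_eq_integral_of_forall_compl_eq_zero fun w hw => by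
      simp [hH, fun k => dz_congr ((p k).2.2 w hw) k, fun k => dzb_congr ((q k).2.2 w hw) k,
        dz_const, dzb_const]]
    have : ∫ w, H w = 0 := by
      refine (integral_finsetSum _ fun k _ => (i1 k).add (i2 k)).trans
        (Finset.sum_eq_zero fun k _ => (integral_add (i1 k) (i2 k)).trans ?_)
      rw [integral_dz_eq_zero (p k).1 (p k).2.1, integral_dzb_eq_zero (q k).1 (q k).2.1, add_zero]
    have h2 := integral_re iH
    rw [this] at h2
    simpa using h2
  have e1 : ∀ w ∈ closedBall (0 : V ι) R, (H w).re =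
      2 * bt R w * (trace (levi G w)).re - rh R w * fderiv ℝ u w w := by
    intro w hw
    have d0 : DifferentiableAt ℝ (fun w => (bt R w : ℂ)) w :=
      differentiableAt_ofReal.2 ((cd_bt R).differentiable one_ne_zero w)
    have e2 : fderiv ℝ G w w = (fderiv ℝ u w w : ℝ) := DFunLike.congr_fun
      (ofRealCLM.hasFDerivAt.comp w ((hu w hw).differentiableAt (by simp)).hasFDerivAt).fderiv w
    have e3 : H w = 2 * bt R w * trace (levi G w) - rh R w * fderiv ℝ G w w := by
      rw [hH, fderiv_eq_dz, trace, Finset.mul_sum, Finset.mul_sum, ← Finset.sum_sub_distrib]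
      refine Finset.sum_congr rfl fun k _ => ?_
      rw [dz_mul d0 (differentiableAt_dzb (hG w hw) k), dzb_mul d0 (differentiableAt_dz (hG w hw) k),
        dz_bt, dzb_bt, ← dz_dzb_comm (hG w hw), diag_apply, levi_apply]
      ring
    rw [e3, e2]
    simp
  have iB := (cd_bt (ι := ι) R).continuous.continuousOn.integrableOn_compact (μ := volume) hK
  have iD : IntegrableOn (fun w => rh R w * fderiv ℝ u w w) (closedBall (0 : V ι) R) := by
    refine ContinuousOn.integrableOn_compact hK ((cont_rh R).continuousOn.mul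
      (ContinuousOn.clm_apply (fun w hw => ?_) continuousOn_id))
    exact ((hu w hw).fderiv_right (m := 0) (by norm_num)).continuousAt.continuousWithinAt
  have j1 : IntegrableOn (fun w => -(2 * C * bt R w)) (closedBall (0 : V ι) R) :=
    (iB.const_mul (2 * C)).neg
  have j2 : IntegrableOn (fun w => (H w).re) (closedBall (0 : V ι) R) := iH.re.integrableOn
  have := setIntegral_mono_on (f := fun w => -(2 * C * bt R w) - (H w).re)
    (j1.sub j2) iD measurableSet_closedBall fun w hw => by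
      rw [e1 w hw]
      nlinarith [mul_le_mul_of_nonneg_left (hC w hw) (bt_nonneg R w)]
  rwa [integral_sub j1 j2, e0, sub_zero, integral_neg, integral_const_mul] at this

theorem tr_scale {G : V ι → ℂ} (y w : V ι) (r : ℝ) (hG : ContDiffAt ℝ 2 G (y + r • w)) :
    trace (levi (fun w => G (y + r • w)) w) = (r ^ 2 : ℝ) * trace (levi G (y + r • w)) := by
  have e : (fun w : V ι => y + r • w) = fun w => y + (r : ℂ) • w := rfl
  have h1 : HasFDerivAt (fun w : V ι => y + (r : ℂ) • w)
      ((r : ℂ) • ContinuousLinearMap.id ℂ (V ι)) w :=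
    ((hasFDerivAt_id w).const_smul (r : ℂ)).const_add y
  have h2 : jac (fun w : V ι => y + r • w) w = (r : ℂ) • (1 : Mat ι) := by
    ext p i
    rw [e, jac, h1.fderiv]
    simp [Pi.single_apply, one_apply]
  have h3 : AnalyticAt ℂ (fun w : V ι => y + r • w) w := by
    rw [e]
    exact analyticAt_const.add ((analyticAt_id (𝕜 := ℂ) (z := w)).const_smul (c := (r : ℂ)))
  refine (congrArg trace (levi_comp (τ := fun w : V ι => y + r • w) hG h3)).trans ?_
  have h4 : ((r : ℂ) • (1 : Mat ι)).map star = (r : ℂ) • (1 : Mat ι) := by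
    ext p i
    by_cases h : p = i <;> simp [h]
  rw [h2, pull, h4]
  simp [sq, mul_assoc]

/-- the sub-mean value inequality. -/
theorem submean {R C : ℝ} (hR : 0 ≤ R) (h0 : 0 ≤ C) {u : V ι → ℝ} {y : V ι} (hy : ‖y‖ ≤ R)
    (hu : ∀ w ∈ closedBall (0 : V ι) (2 * R), ContDiffAt ℝ 2 u w)
    (hC : ∀ w ∈ closedBall (0 : V ι) (2 * R), -C ≤ (trace (levi (fun w => (u w : ℂ)) w)).re) :
    -(2 * C * ∫ w in closedBall (0 : V ι) R, bt R w) ≤
      ∫ w in closedBall (0 : V ι) R, rh R w * (u (y + w) - u y) := by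
  have hK := isCompact_closedBall (0 : V ι) R
  have hm : ∀ r ∈ uIcc (0 : ℝ) 1, ∀ w ∈ closedBall (0 : V ι) R,
      y + r • w ∈ closedBall (0 : V ι) (2 * R) := fun r hr w hw => by
    rw [uIcc_of_le zero_le_one] at hr
    rw [mem_closedBall_zero_iff] at hw ⊢
    refine (norm_add_le _ _).trans ?_
    rw [norm_smul, Real.norm_of_nonneg hr.1]
    nlinarith [hr.1, hr.2, norm_nonneg w]
  have hd : ∀ w ∈ closedBall (0 : V ι) (2 * R), HasFDerivAt u (fderiv ℝ u w) w := fun w hw =>
    ((hu w hw).differentiableAt (by simp)).hasFDerivAt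
  have hD : ContinuousOn (fderiv ℝ u) (closedBall (0 : V ι) (2 * R)) := fun w hw =>
    ((hu w hw).fderiv_right (m := 0) (by norm_num)).continuousAt.continuousWithinAt
  have c1 : ContinuousOn (Function.uncurry fun (r : ℝ) (w : V ι) =>
      rh R w * fderiv ℝ u (y + r • w) w) (uIcc 0 1 ×ˢ closedBall (0 : V ι) R) :=
    ((cont_rh R).comp continuous_snd).continuousOn.mul
      ((hD.comp (f := fun p : ℝ × V ι => y + p.1 • p.2) (by fun_prop)
        fun p hp => hm _ hp.1 _ hp.2).clm_apply continuousOn_snd)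
  have i1 : Integrable (Function.uncurry fun (r : ℝ) (w : V ι) =>
      rh R w * fderiv ℝ u (y + r • w) w)
      ((volume.restrict (uIoc 0 1)).prod (volume.restrict (closedBall (0 : V ι) R))) := by
    rw [Measure.prod_restrict]
    exact (c1.integrableOn_compact (isCompact_uIcc.prod hK)).mono_set
      (prod_mono uIoc_subset_uIcc le_rfl)
  have e1 : ∀ w ∈ closedBall (0 : V ι) R, rh R w * (u (y + w) - u y) =
      ∫ r in (0 : ℝ)..1, rh R w * fderiv ℝ u (y + r • w) w := by
    intro w hw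
    rw [intervalIntegral.integral_eq_sub_of_hasDerivAt (f := fun r : ℝ => rh R w * u (y + r • w))
      (f' := fun r : ℝ => rh R w * fderiv ℝ u (y + r • w) w) (fun r hr => ?_) (c1.comp (Continuous.prodMk_left w).continuousOn
        fun r hr => ⟨hr, hw⟩).intervalIntegrable]
    · simp [mul_sub]
    · have := (hd _ (hm r hr w hw)).comp_hasDerivAt r
        (((hasDerivAt_id r).smul_const w).const_add y)
      rw [one_smul] at this
      exact this.const_mul _
  rw [setIntegral_congr_fun measurableSet_closedBall e1, ← intervalIntegral_integral_swap i1]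
  refine le_trans (by simp) (intervalIntegral.integral_mono_on_of_le_Ioo zero_le_one
    (intervalIntegrable_const (c := -(2 * C * ∫ w in closedBall (0 : V ι) R, bt R w)))
    (intervalIntegrable_iff.2 i1.integral_prod_left) fun r hr => ?_)
  have hr' : r ∈ uIcc (0 : ℝ) 1 := by rw [uIcc_of_le zero_le_one]; exact Ioo_subset_Icc_self hr
  have := ibp (C := r * C) hR (u := fun w => u (y + r • w))
    (fun w hw => (hu _ (hm r hr' w hw)).comp w (by fun_prop)) fun w hw => by
      rw [tr_scale (G := fun w => (u w : ℂ)) y w r (contDiffAt_ofReal.2 (hu _ (hm r hr' w hw))),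
        re_ofReal_mul]
      nlinarith [mul_le_mul_of_nonneg_left (hC _ (hm r hr' w hw)) (sq_nonneg r),
        mul_nonneg (mul_nonneg hr.1.le h0) (sub_pos.2 hr.2).le]
  rw [setIntegral_congr_fun measurableSet_closedBall
    (f := fun w => rh R w * fderiv ℝ (fun w => u (y + r • w)) w w)
    (g := fun w => r * (rh R w * fderiv ℝ u (y + r • w) w)) fun w hw => by
      have := (hd _ (hm r hr' w hw)).comp w (((hasFDerivAt_id w).const_smul r).const_add y)
      have h2 : fderiv ℝ (fun w => u (y + r • w)) w w = r * fderiv ℝ u (y + r • w) w := by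
        refine (DFunLike.congr_fun this.fderiv w).trans ?_
        simp
      simp only [h2]
      ring, integral_const_mul] at this
  exact le_of_mul_le_mul_left (by linarith) hr.1

/-- the local estimate. -/
theorem loc {R C : ℝ} (hR : 0 < R) (h0 : 0 ≤ C) : ∃ s > 0, s ≤ R ∧ ∃ K ≥ (0 : ℝ),
    ∀ (u : V ι → ℝ) (m : ℝ), (∀ w, u w ≤ m) →
    (∀ w ∈ closedBall (0 : V ι) (2 * R), ContDiffAt ℝ 2 u w) →
    (∀ w ∈ closedBall (0 : V ι) (2 * R), -C ≤ (trace (levi (fun w => (u w : ℂ)) w)).re) →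
    ∀ y ∈ ball (0 : V ι) s, ∫ z in ball (0 : V ι) s, (m - u z) ≤ K * (m - u y + 1) := by
  have hK := isCompact_closedBall (0 : V ι) R
  obtain ⟨t, ht, h1⟩ := nhds_basis_closedBall.mem_iff.1 (inter_mem
    ((isOpen_lt (cd_nq (ι := ι)).continuous continuous_const).mem_nhds
      (show nq (0 : V ι) < R ^ 2 by simp [nq, hR])) (closedBall_mem_nhds (0 : V ι) hR))
  obtain ⟨w0, hw0, h2⟩ := (isCompact_closedBall (0 : V ι) t).exists_isMinOn
    (nonempty_closedBall.2 ht.le) (cont_rh R).continuousOn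
  have hc := rh_pos (h1 hw0).1
  set A := ∫ w in closedBall (0 : V ι) R, rh R w
  set B := 2 * C * ∫ w in closedBall (0 : V ι) R, bt R w
  have hA : 0 ≤ A := integral_nonneg fun w => rh_nonneg R w
  have hB : 0 ≤ B := mul_nonneg (by positivity) (integral_nonneg fun w => bt_nonneg R w)
  refine ⟨min (t / 2) R, by positivity, min_le_right _ _, (A + B) / rh R w0, by positivity,
    fun u m hm hu hC y hy => ?_⟩
  have hy1 : ‖y‖ < t / 2 := (mem_ball_zero_iff.1 hy).trans_le (min_le_left _ _)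
  have hy2 : ‖y‖ ≤ R := (mem_ball_zero_iff.1 hy).le.trans (min_le_right _ _)
  have h3 := submean hR.le h0 hy2 hu hC
  have c1 : ContinuousOn (fun w => u (y + w)) (closedBall (0 : V ι) R) := fun w hw =>
    ((hu _ (by
      rw [mem_closedBall_zero_iff] at hw ⊢
      linarith [norm_add_le y w])).continuousAt.comp (f := fun w => y + w)
        (by fun_prop)).continuousWithinAt
  have i0 := (cont_rh (ι := ι) R).continuousOn.integrableOn_compact (μ := volume) hK
  have i1 : IntegrableOn (fun w => rh R w * (u (y + w) - u y)) (closedBall (0 : V ι) R) :=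
    ((cont_rh R).continuousOn.mul (c1.sub continuousOn_const)).integrableOn_compact hK
  have i2 : IntegrableOn (fun w => rh R w * (m - u (y + w))) (closedBall (0 : V ι) R) :=
    ((cont_rh R).continuousOn.mul (continuousOn_const.sub c1)).integrableOn_compact hK
  have i3 : IntegrableOn (fun w => rh R w0 * (m - u (y + w))) (closedBall (0 : V ι) R) :=
    (continuousOn_const.mul (continuousOn_const.sub c1)).integrableOn_compact hK
  have h4 : ∫ w in closedBall (0 : V ι) R, rh R w * (m - u (y + w)) = A * (m - u y) -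
      ∫ w in closedBall (0 : V ι) R, rh R w * (u (y + w) - u y) := by
    rw [← integral_mul_const, ← integral_sub (i0.mul_const _) i1]
    congr 1
    ext w
    ring
  have h5 : ∀ w ∈ (fun w => y + w) ⁻¹' ball (0 : V ι) (min (t / 2) R),
      w ∈ closedBall (0 : V ι) t := fun w hw => by
    have := (mem_ball_zero_iff.1 hw).trans_le (min_le_left _ _)
    have h6 := norm_sub_le (y + w) y
    rw [add_sub_cancel_left] at h6
    rw [mem_closedBall_zero_iff]
    linarith
  have h6 : (fun w => y + w) ⁻¹' ball (0 : V ι) (min (t / 2) R) ⊆ closedBall 0 R :=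
    fun w hw => (h1 (h5 w hw)).2
  have h7 := (measurePreserving_add_left volume y).setIntegral_preimage_emb
    (MeasurableEquiv.addLeft y).measurableEmbedding (fun z => rh R w0 * (m - u z))
    (ball (0 : V ι) (min (t / 2) R))
  have h8 := setIntegral_mono_on (i3.mono_set h6) (i2.mono_set h6)
    (measurableSet_ball.preimage (by fun_prop)) fun w hw =>
      mul_le_mul_of_nonneg_right (h2 (h5 w hw)) (sub_nonneg.2 (hm _))
  have h9 := setIntegral_mono_set i2 (Eventually.of_forall fun w =>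
    mul_nonneg (rh_nonneg R w) (sub_nonneg.2 (hm _))) h6.eventuallyLE
  rw [h7, integral_const_mul] at h8
  rw [div_mul_eq_mul_div, le_div_iff₀' hc]
  nlinarith [mul_nonneg hB (sub_nonneg.2 (hm y))]

/-- the connectedness argument. -/
theorem glob {X : Type} [TopologicalSpace X] [CompactSpace X] [ConnectedSpace X]
    [MeasurableSpace X] [BorelSpace X] (μ : Measure X) [IsFiniteMeasure μ] [μ.IsOpenPosMeasure]
    (S : Set (X → ℝ)) (hc : ∀ f ∈ S, Integrable f μ) (h0 : ∀ f ∈ S, ∀ x, 0 ≤ f x)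
    (hl : ∀ x, ∃ N, IsOpen N ∧ x ∈ N ∧ ∃ K ≥ (0 : ℝ), ∀ f ∈ S, ∀ y ∈ N,
      ∫ z in N, f z ∂μ ≤ K * (f y + 1)) :
    ∃ B, ∀ f ∈ S, ∀ x, f x = 0 → ∫ z, f z ∂μ ≤ B := by
  have mono : ∀ f ∈ S, ∀ s t : Set X, s ⊆ t → ∫ z in s, f z ∂μ ≤ ∫ z in t, f z ∂μ :=
    fun f hf s t h => setIntegral_mono_set (hc f hf).integrableOn
      (Eventually.of_forall (h0 f hf)) h.eventuallyLE
  have key := isCompact_univ.induction_on
    (p := fun A : Set X => ∃ B, ∀ f ∈ S, ∀ x ∈ A, f x = 0 → ∫ z, f z ∂μ ≤ B)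
    ⟨0, fun _ _ _ h => h.elim⟩ (fun s t h ⟨B, hB⟩ => ⟨B, fun f hf x hx => hB f hf x (h hx)⟩)
    (fun s t ⟨B, hB⟩ ⟨B', hB'⟩ => ⟨max B B', fun f hf x hx e => hx.elim
      (fun hx => (hB f hf x hx e).trans (le_max_left _ _))
      fun hx => (hB' f hf x hx e).trans (le_max_right _ _)⟩) fun a _ => ?_
  · obtain ⟨B, hB⟩ := key
    exact ⟨B, fun f hf x => hB f hf x (mem_univ x)⟩
  obtain ⟨A, hA, haA, Ka, -, hKa⟩ := hl a
  refine ⟨A, mem_nhdsWithin_of_mem_nhds (hA.mem_nhds haA), ?_⟩
  let U : Set X := {x | ∃ N, IsOpen N ∧ x ∈ N ∧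
    ∃ B, ∀ f ∈ S, ∀ x ∈ A, f x = 0 → ∫ z in N, f z ∂μ ≤ B}
  have hU : IsClopen U := by
    refine ⟨isClosed_of_closure_subset fun x hx => ?_, isOpen_iff_forall_mem_open.2
      fun x ⟨N, h1, h2, h3⟩ => ⟨N, fun y hy => ⟨N, h1, hy, h3⟩, h1, h2⟩⟩
    obtain ⟨N, h1, h2, K, h3, h4⟩ := hl x
    obtain ⟨p, hp, N', h5, h6, B, h7⟩ := mem_closure_iff.1 hx N h1 h2
    refine ⟨N, h1, h2, K * ((μ.real (N ∩ N'))⁻¹ * B + 1), fun f hf x0 hx0 e => ?_⟩
    obtain ⟨y, hy, h8⟩ := exists_le_setAverage ((h1.inter h5).measure_ne_zero μ ⟨p, hp, h6⟩)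
      (measure_ne_top μ _) (hc f hf).integrableOn
    rw [setAverage_eq, smul_eq_mul] at h8
    refine (h4 f hf y hy.1).trans (mul_le_mul_of_nonneg_left (add_le_add_left (h8.trans
      (mul_le_mul_of_nonneg_left ((mono f hf _ _ inter_subset_right).trans (h7 f hf x0 hx0 e))
        (by positivity))) 1) h3)
  have hU' := hU.eq_univ ⟨a, A, hA, haA, Ka, fun f hf x hx e => by simpa [e] using hKa f hf x hx⟩
  have := isCompact_univ.induction_on
    (p := fun T : Set X => ∃ B, ∀ f ∈ S, ∀ x ∈ A, f x = 0 → ∫ z in T, f z ∂μ ≤ B)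
    ⟨0, fun _ _ _ _ _ => by simp⟩
    (fun s t h ⟨B, hB⟩ => ⟨B, fun f hf x hx e => (mono f hf s t h).trans (hB f hf x hx e)⟩)
    (fun s t ⟨B, hB⟩ ⟨B', hB'⟩ => ⟨B + B', fun f hf x hx e => by
      have i := (hc f hf).integrableOn (s := s)
      have i' := (hc f hf).integrableOn (s := t)
      refine (integral_mono_measure (Measure.restrict_union_le s t)
        (Eventually.of_forall (h0 f hf)) (Integrable.add_measure i i')).trans ?_
      rw [integral_add_measure i i']
      exact add_le_add (hB f hf x hx e) (hB' f hf x hx e)⟩)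
    fun x _ => by
      obtain ⟨N, h1, h2, h3⟩ : x ∈ U := hU' ▸ mem_univ x
      exact ⟨N, mem_nhdsWithin_of_mem_nhds (h1.mem_nhds h2), h3⟩
  simpa using this

end

end Pool.Agent.Lib.MP_813db1_ag.HS.Weight
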