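import Pool.Agent.Lib.MP_813db1_ag.HS.Calc

/-! Calculus of the Wirtinger derivatives: Levi forms, norms, matrices, integrals. -/

namespace Pool.Agent.Lib.MP_813db1_ag.HS

open MeasureTheory Complex Matrix Filter Topology Set Metric
open scoped ContDiff ComplexOrder

noncomputable section

set_option linter.unusedSectionVars false

variable {ι : Type} [Fintype ι] [DecidableEq ι] {f g : V ι → ℂ} {z : V ι} {G H : V ι → Mat ι}

/-! ### Levi forms -/

theorem levi_apply (f : V ι → ℂ) (z : V ι) (i j : ι) : levi f z i j = dz (dzb f j) i z := rfl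

theorem levi_add (hf : ContDiffAt ℝ 2 f z) (hg : ContDiffAt ℝ 2 g z) :
    levi (fun w => f w + g w) z = levi f z + levi g z := by
  ext i j
  have e : dzb (fun w => f w + g w) j =ᶠ[𝓝 z] fun w => dzb f j w + dzb g j w := by
    filter_upwards [eventually_diff hf, eventually_diff hg] with w h1 h2 using dzb_add h1 h2 j
  exact (dz_congr e i).trans (dz_add (differentiableAt_dzb hf j) (differentiableAt_dzb hg j) i)

theorem levi_sub (hf : ContDiffAt ℝ 2 f z) (hg : ContDiffAt ℝ 2 g z) :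
    levi (fun w => f w - g w) z = levi f z - levi g z := by
  ext i j
  have e : dzb (fun w => f w - g w) j =ᶠ[𝓝 z] fun w => dzb f j w - dzb g j w := by
    filter_upwards [eventually_diff hf, eventually_diff hg] with w h1 h2 using dzb_sub h1 h2 j
  exact (dz_congr e i).trans (dz_sub (differentiableAt_dzb hf j) (differentiableAt_dzb hg j) i)

theorem levi_neg (f : V ι → ℂ) (z : V ι) : levi (fun w => -f w) z = -levi f z := by
  ext i j
  rw [levi_apply, show dzb (fun w => -f w) j = fun w => -dzb f j w from funext (dzb_neg f j),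
    dz_neg]
  rfl

theorem levi_const (c : ℂ) (z : V ι) : levi (fun _ => c) z = 0 := by
  ext i j
  rw [levi_apply, show dzb (fun _ : V ι => c) j = fun _ => 0 from funext (dzb_const c j), dz_const]
  rfl

theorem levi_cmul (c : ℂ) (hf : ContDiffAt ℝ 2 f z) :
    levi (fun w => c * f w) z = c • levi f z := by
  ext i j
  have e : dzb (fun w => c * f w) j =ᶠ[𝓝 z] fun w => c * dzb f j w :=
    (eventually_diff hf).mono fun w h => dzb_cmul c h j
  exact (dz_congr e i).trans (dz_cmul c (differentiableAt_dzb hf j) i)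

theorem levi_sum {κ : Type} (s : Finset κ) {F : κ → V ι → ℂ}
    (h : ∀ a ∈ s, ContDiffAt ℝ 2 (F a) z) :
    levi (fun w => ∑ a ∈ s, F a w) z = ∑ a ∈ s, levi (F a) z := by
  ext i j
  have e : dzb (fun w => ∑ a ∈ s, F a w) j =ᶠ[𝓝 z] fun w => ∑ a ∈ s, dzb (F a) j w :=
    ((Finset.eventually_all s).2 fun a ha => eventually_diff (h a ha)).mono fun w hw =>
      dzb_sum s hw j
  rw [levi_apply, dz_congr e, dz_sum s fun a ha => differentiableAt_dzb (h a ha) j,
    Matrix.sum_apply]
  rfl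

theorem levi_mul (hf : ContDiffAt ℝ 2 f z) (hg : ContDiffAt ℝ 2 g z) (i j : ι) :
    levi (fun w => f w * g w) z i j = levi f z i j * g z + dzb f j z * dz g i z +
      dz f i z * dzb g j z + f z * levi g z i j := by
  have e : dzb (fun w => f w * g w) j =ᶠ[𝓝 z] fun w => dzb f j w * g w + f w * dzb g j w := by
    filter_upwards [eventually_diff hf, eventually_diff hg] with w h1 h2 using dzb_mul h1 h2 j
  have d1 := hf.differentiableAt two_ne_zero
  have d2 := hg.differentiableAt two_ne_zero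
  have d3 := differentiableAt_dzb hf j
  have d4 := differentiableAt_dzb hg j
  rw [levi_apply, dz_congr e, dz_add (d3.fun_mul d2) (d1.fun_mul d4), dz_mul d3 d2, dz_mul d1 d4,
    levi_apply, levi_apply]
  ring

theorem levi_star (hf : ContDiffAt ℝ 2 f z) : levi (fun w => star (f w)) z = (levi f z)ᴴ := by
  ext i j
  rw [levi_apply, show dzb (fun w => star (f w)) j = fun w => star (dz f j w) from
    funext (dzb_star f j), dz_star, conjTranspose_apply, levi_apply, dz_dzb_comm hf]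

theorem levi_herm (hf : ContDiffAt ℝ 2 f z) (h : ∀ᶠ w in 𝓝 z, star (f w) = f w) :
    (levi f z).IsHermitian := (levi_star hf).symm.trans (levi_congr h)

theorem levi_herm_ofReal {u : V ι → ℝ} (hu : ContDiffAt ℝ 2 (fun w => (u w : ℂ)) z) :
    (levi (fun w => (u w : ℂ)) z).IsHermitian :=
  levi_herm hu (Eventually.of_forall fun _ => conj_ofReal _)

theorem levi_hol (h : ∀ᶠ w in 𝓝 z, DifferentiableAt ℂ f w) : levi f z = 0 := by
  ext i j
  exact (dz_congr (h.mono fun w e => dzb_hol e j) i).trans (dz_const 0 i z)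

theorem contDiffAt_ofReal {n : WithTop ℕ∞} {u : V ι → ℝ} :
    ContDiffAt ℝ n (fun w => (u w : ℂ)) z ↔ ContDiffAt ℝ n u z :=
  ⟨fun h => reCLM.contDiff.contDiffAt.comp z h, fun h => ofRealCLM.contDiff.contDiffAt.comp z h⟩

theorem differentiableAt_ofReal {u : V ι → ℝ} :
    DifferentiableAt ℝ (fun w => (u w : ℂ)) z ↔ DifferentiableAt ℝ u z :=
  ⟨fun h => reCLM.differentiableAt.comp z h, fun h => ofRealCLM.differentiableAt.comp z h⟩

theorem levi_real_comp {Φ Φ₁ : ℝ → ℝ} {Φ₂ : ℝ} {u : V ι → ℝ}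
    (h₁ : ∀ᶠ t in 𝓝 (u z), HasDerivAt Φ (Φ₁ t) t) (h₂ : HasDerivAt Φ₁ Φ₂ (u z))
    (hu : ContDiffAt ℝ 2 u z) (i j : ι) : levi (fun w => (Φ (u w) : ℂ)) z i j =
      Φ₁ (u z) * levi (fun w => (u w : ℂ)) z i j +
        Φ₂ * (dz (fun w => (u w : ℂ)) i z * dzb (fun w => (u w : ℂ)) j z) := by
  have hu' := contDiffAt_ofReal.2 hu
  have d := hu.differentiableAt two_ne_zero
  have e : dzb (fun w => (Φ (u w) : ℂ)) j =ᶠ[𝓝 z]
      fun w => (Φ₁ (u w) : ℂ) * dzb (fun w => (u w : ℂ)) j w := by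
    filter_upwards [hu.continuousAt.eventually h₁, eventually_diff hu'] with w h1 h2
      using dzb_real_comp h1 (differentiableAt_ofReal.1 h2) j
  have d1 : DifferentiableAt ℝ (fun w => (Φ₁ (u w) : ℂ)) z :=
    differentiableAt_ofReal.2 (h₂.differentiableAt.comp z d)
  rw [levi_apply, dz_congr e, dz_mul d1 (differentiableAt_dzb hu' j), levi_apply,
    dz_real_comp h₂ d]
  ring

theorem contDiffAt_levi {m n : WithTop ℕ∞} (h : ContDiffAt ℝ n f z) (hm : m + 1 + 1 ≤ n)
    (i j : ι) : ContDiffAt ℝ m (fun w => levi f w i j) z :=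
  contDiffAt_dz (contDiffAt_dzb h hm j) le_rfl i

theorem contDiffAt_levi_top (h : ContDiffAt ℝ ∞ f z) (i j : ι) :
    ContDiffAt ℝ ∞ (fun w => levi f w i j) z := contDiffAt_dz_top (contDiffAt_dzb_top h j) i

/-! ### norms -/

theorem norm_clm_single {F : Type} [NormedAddCommGroup F] [NormedSpace ℝ F] (L : V ι →L[ℝ] F)
    (k : ι) {c : ℂ} (h : ‖c‖ = 1) : ‖L (Pi.single k c)‖ ≤ ‖L‖ := by
  simpa [Pi.norm_single, h] using L.le_opNorm (Pi.single k c)

theorem norm_half {a b c : ℂ} {N : ℝ} (ha : ‖a‖ ≤ N) (hb : ‖b‖ ≤ N) (hc : ‖c‖ = 1) :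
    ‖(a + c * b) / 2‖ ≤ N := by
  have := norm_add_le a (c * b)
  rw [norm_mul, hc] at this
  rw [norm_div, Complex.norm_two]
  linarith

theorem norm_half' {a b : ℂ} {N : ℝ} (ha : ‖a‖ ≤ N) (hb : ‖b‖ ≤ N) : ‖(a - I * b) / 2‖ ≤ N := by
  rw [sub_eq_add_neg, ← neg_mul]
  exact norm_half ha hb (by simp)

theorem norm_dz_le (f : V ι → ℂ) (k : ι) (z : V ι) : ‖dz f k z‖ ≤ ‖fderiv ℝ f z‖ :=
  norm_half' (norm_clm_single _ k norm_one) (norm_clm_single _ k norm_I)

theorem norm_dzb_le (f : V ι → ℂ) (k : ι) (z : V ι) : ‖dzb f k z‖ ≤ ‖fderiv ℝ f z‖ :=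
  norm_half (norm_clm_single _ k norm_one) (norm_clm_single _ k norm_I) norm_I

theorem norm_dz_sub_le (f g : V ι → ℂ) (k : ι) (z w : V ι) :
    ‖dz f k z - dz g k w‖ ≤ ‖fderiv ℝ f z - fderiv ℝ g w‖ := by
  refine le_trans (le_of_eq (congrArg _ ?_))
    (norm_half' (norm_clm_single _ k norm_one) (norm_clm_single _ k norm_I))
  simp only [dz, _root_.sub_apply]; ring

theorem norm_dzb_sub_le (f g : V ι → ℂ) (k : ι) (z w : V ι) :
    ‖dzb f k z - dzb g k w‖ ≤ ‖fderiv ℝ f z - fderiv ℝ g w‖ := by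
  refine le_trans (le_of_eq (congrArg _ ?_))
    (norm_half (norm_clm_single _ k norm_one) (norm_clm_single _ k norm_I) norm_I)
  simp only [dzb, _root_.sub_apply]; ring

/-- the Levi form of a bilinear map. -/
def lvB (B : V ι →L[ℝ] V ι →L[ℝ] ℂ) (i j : ι) : ℂ :=
  ((B (Pi.single i 1) (Pi.single j 1) + I * B (Pi.single i 1) (Pi.single j I)) / 2 -
    I * ((B (Pi.single i I) (Pi.single j 1) + I * B (Pi.single i I) (Pi.single j I)) / 2)) / 2

theorem levi_eq_lvB (h : ContDiffAt ℝ 2 f z) (i j : ι) :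
    levi f z i j = lvB (fderiv ℝ (fderiv ℝ f) z) i j := by
  rw [levi_apply, dz, fderiv_dzb h, fderiv_dzb h, lvB]

theorem norm_lvB_le (B : V ι →L[ℝ] V ι →L[ℝ] ℂ) (i j : ι) : ‖lvB B i j‖ ≤ ‖B‖ := by
  have key : ∀ a b : ℂ, ‖a‖ = 1 → ‖b‖ = 1 → ‖B (Pi.single i a) (Pi.single j b)‖ ≤ ‖B‖ :=
    fun a b ha hb => (norm_clm_single _ j hb).trans (norm_clm_single B i ha)
  exact norm_half' (norm_half (key _ _ norm_one norm_one) (key _ _ norm_one norm_I) norm_I)
    (norm_half (key _ _ norm_I norm_one) (key _ _ norm_I norm_I) norm_I)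

theorem lvB_sub (A B : V ι →L[ℝ] V ι →L[ℝ] ℂ) (i j : ι) :
    lvB (A - B) i j = lvB A i j - lvB B i j := by
  simp only [lvB, _root_.sub_apply]; ring

theorem norm_levi_le (h : ContDiffAt ℝ 2 f z) (i j : ι) :
    ‖levi f z i j‖ ≤ ‖fderiv ℝ (fderiv ℝ f) z‖ := by
  rw [levi_eq_lvB h]; exact norm_lvB_le _ i j

theorem norm_levi_sub_le {w : V ι} (hf : ContDiffAt ℝ 2 f z) (hg : ContDiffAt ℝ 2 g w) (i j : ι) :
    ‖levi f z i j - levi g w i j‖ ≤ ‖fderiv ℝ (fderiv ℝ f) z - fderiv ℝ (fderiv ℝ g) w‖ := by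
  rw [levi_eq_lvB hf, levi_eq_lvB hg, ← lvB_sub]; exact norm_lvB_le _ i j

theorem norm_fderiv_le (f : V ι → ℂ) (z : V ι) :
    ‖fderiv ℝ f z‖ ≤ ∑ k, (‖dz f k z‖ + ‖dzb f k z‖) := by
  refine ContinuousLinearMap.opNorm_le_bound _ (by positivity) fun v => ?_
  rw [fderiv_eq_dz, Finset.sum_mul]
  refine norm_sum_le_of_le _ fun k _ => (norm_add_le _ _).trans ?_
  rw [norm_mul, norm_mul, norm_star, ← add_mul]
  exact mul_le_mul_of_nonneg_left (norm_le_pi_norm v k) (by positivity)

/-! ### integrals -/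

theorem integral_fderiv_eq_zero (hf : ContDiff ℝ 1 f) (hc : HasCompactSupport f) (v : V ι) :
    ∫ z, fderiv ℝ f z v = 0 := by
  have h1 : Integrable fun z => fderiv ℝ f z v :=
    ((hf.continuous_fderiv one_ne_zero).clm_apply continuous_const).integrable_of_hasCompactSupport
      (hc.fderiv_apply ℝ v)
  simpa using integral_mul_fderiv_eq_neg_fderiv_mul_of_integrable (μ := volume) (v := v)
    (f := fun _ : V ι => (1 : ℂ)) (g := f) (by simp) (by simpa using h1)
    (by simpa using hf.continuous.integrable_of_hasCompactSupport hc) (fun _ _ => by fun_prop)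
    fun x _ => hf.differentiable one_ne_zero x

theorem integrable_fderiv (hf : ContDiff ℝ 1 f) (hc : HasCompactSupport f) (v : V ι) :
    Integrable fun z => fderiv ℝ f z v :=
  ((hf.continuous_fderiv one_ne_zero).clm_apply continuous_const).integrable_of_hasCompactSupport
    (hc.fderiv_apply ℝ v)

theorem integral_dz_eq_zero (hf : ContDiff ℝ 1 f) (hc : HasCompactSupport f) (k : ι) :
    ∫ z, dz f k z = 0 := by
  simp only [dz]
  rw [integral_div, integral_sub (integrable_fderiv hf hc _)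
    ((integrable_fderiv hf hc _).const_mul I), integral_const_mul, integral_fderiv_eq_zero hf hc,
    integral_fderiv_eq_zero hf hc]
  simp

theorem integral_dzb_eq_zero (hf : ContDiff ℝ 1 f) (hc : HasCompactSupport f) (k : ι) :
    ∫ z, dzb f k z = 0 := by
  simp only [dzb]
  rw [integral_div, integral_add (integrable_fderiv hf hc _)
    ((integrable_fderiv hf hc _).const_mul I), integral_const_mul, integral_fderiv_eq_zero hf hc,
    integral_fderiv_eq_zero hf hc]
  simp

/-! ### matrices -/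

theorem dM_apply (G : V ι → Mat ι) (k : ι) (z : V ι) (i j : ι) :
    dM G k z i j = dz (fun w => G w i j) k z := rfl

theorem dMb_apply (G : V ι → Mat ι) (k : ι) (z : V ι) (i j : ι) :
    dMb G k z i j = dzb (fun w => G w i j) k z := rfl

theorem dM_congr (h : G =ᶠ[𝓝 z] H) (k : ι) : dM G k z = dM H k z :=
  Matrix.ext fun i j => dz_congr (h.mono fun _ e => congrFun₂ e i j) k

theorem dMb_congr (h : G =ᶠ[𝓝 z] H) (k : ι) : dMb G k z = dMb H k z :=
  Matrix.ext fun i j => dzb_congr (h.mono fun _ e => congrFun₂ e i j) k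

theorem dM_const (A : Mat ι) (k : ι) (z : V ι) : dM (fun _ => A) k z = 0 :=
  Matrix.ext fun i j => dz_const (A i j) k z

theorem dMb_const (A : Mat ι) (k : ι) (z : V ι) : dMb (fun _ => A) k z = 0 :=
  Matrix.ext fun i j => dzb_const (A i j) k z

theorem dM_neg (G : V ι → Mat ι) (k : ι) (z : V ι) : dM (fun w => -G w) k z = -dM G k z :=
  Matrix.ext fun i j => dz_neg (fun w => G w i j) k z

theorem dMb_neg (G : V ι → Mat ι) (k : ι) (z : V ι) : dMb (fun w => -G w) k z = -dMb G k z :=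
  Matrix.ext fun i j => dzb_neg (fun w => G w i j) k z

theorem dM_conjT (G : V ι → Mat ι) (k : ι) (z : V ι) :
    dM (fun w => (G w)ᴴ) k z = (dMb G k z)ᴴ :=
  Matrix.ext fun i j => dz_star (fun w => G w j i) k z

theorem dMb_conjT (G : V ι → Mat ι) (k : ι) (z : V ι) :
    dMb (fun w => (G w)ᴴ) k z = (dM G k z)ᴴ :=
  Matrix.ext fun i j => dzb_star (fun w => G w j i) k z

theorem dMb_eq_conjT (h : ∀ᶠ w in 𝓝 z, (G w).IsHermitian) (k : ι) : dMb G k z = (dM G k z)ᴴ :=
  (dMb_congr (h.mono fun _ e => e.symm) k).trans (dMb_conjT G k z)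

/-- entrywise differentiable matrix functions. -/
def DfM (G : V ι → Mat ι) (z : V ι) : Prop := ∀ i j, DifferentiableAt ℝ (fun w => G w i j) z

/-- entrywise `C^n` matrix functions. -/
def CdM (n : WithTop ℕ∞) (G : V ι → Mat ι) (z : V ι) : Prop :=
  ∀ i j, ContDiffAt ℝ n (fun w => G w i j) z

theorem dM_add (hG : DfM G z) (hH : DfM H z) (k : ι) :
    dM (fun w => G w + H w) k z = dM G k z + dM H k z :=
  Matrix.ext fun i j => dz_add (hG i j) (hH i j) k

theorem dMb_add (hG : DfM G z) (hH : DfM H z) (k : ι) :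
    dMb (fun w => G w + H w) k z = dMb G k z + dMb H k z :=
  Matrix.ext fun i j => dzb_add (hG i j) (hH i j) k

theorem dM_sub (hG : DfM G z) (hH : DfM H z) (k : ι) :
    dM (fun w => G w - H w) k z = dM G k z - dM H k z :=
  Matrix.ext fun i j => dz_sub (hG i j) (hH i j) k

theorem dMb_sub (hG : DfM G z) (hH : DfM H z) (k : ι) :
    dMb (fun w => G w - H w) k z = dMb G k z - dMb H k z :=
  Matrix.ext fun i j => dzb_sub (hG i j) (hH i j) k

theorem dM_smul (hf : DifferentiableAt ℝ f z) (hG : DfM G z) (k : ι) :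
    dM (fun w => f w • G w) k z = dz f k z • G z + f z • dM G k z :=
  Matrix.ext fun i j => dz_mul hf (hG i j) k

theorem dMb_smul (hf : DifferentiableAt ℝ f z) (hG : DfM G z) (k : ι) :
    dMb (fun w => f w • G w) k z = dzb f k z • G z + f z • dMb G k z :=
  Matrix.ext fun i j => dzb_mul hf (hG i j) k

theorem dM_csmul (c : ℂ) (hG : DfM G z) (k : ι) : dM (fun w => c • G w) k z = c • dM G k z :=
  Matrix.ext fun i j => dz_cmul c (hG i j) k

theorem dMb_csmul (c : ℂ) (hG : DfM G z) (k : ι) : dMb (fun w => c • G w) k z = c • dMb G k z :=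
  Matrix.ext fun i j => dzb_cmul c (hG i j) k

theorem dM_mul (hG : DfM G z) (hH : DfM H z) (k : ι) :
    dM (fun w => G w * H w) k z = dM G k z * H z + G z * dM H k z := by
  ext i j
  simp only [dM_apply, mul_apply, Matrix.add_apply, ← Finset.sum_add_distrib]
  rw [dz_sum _ fun a _ => (hG i a).fun_mul (hH a j)]
  exact Finset.sum_congr rfl fun a _ => dz_mul (hG i a) (hH a j) k

theorem dMb_mul (hG : DfM G z) (hH : DfM H z) (k : ι) :
    dMb (fun w => G w * H w) k z = dMb G k z * H z + G z * dMb H k z := by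
  ext i j
  simp only [dMb_apply, mul_apply, Matrix.add_apply, ← Finset.sum_add_distrib]
  rw [dzb_sum _ fun a _ => (hG i a).fun_mul (hH a j)]
  exact Finset.sum_congr rfl fun a _ => dzb_mul (hG i a) (hH a j) k

theorem dz_trace (hG : DfM G z) (k : ι) : dz (fun w => trace (G w)) k z = trace (dM G k z) :=
  dz_sum _ (fun a _ => hG a a) k

theorem dzb_trace (hG : DfM G z) (k : ι) : dzb (fun w => trace (G w)) k z = trace (dMb G k z) :=
  dzb_sum _ (fun a _ => hG a a) k

namespace DfM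

theorem const (A : Mat ι) : DfM (fun _ => A) z := fun _ _ => differentiableAt_const _

theorem add (hG : DfM G z) (hH : DfM H z) : DfM (fun w => G w + H w) z :=
  fun i j => (hG i j).fun_add (hH i j)

theorem sub (hG : DfM G z) (hH : DfM H z) : DfM (fun w => G w - H w) z :=
  fun i j => (hG i j).fun_sub (hH i j)

theorem neg (hG : DfM G z) : DfM (fun w => -G w) z := fun i j => (hG i j).fun_neg

theorem smul (hf : DifferentiableAt ℝ f z) (hG : DfM G z) : DfM (fun w => f w • G w) z :=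
  fun i j => hf.fun_mul (hG i j)

theorem mul (hG : DfM G z) (hH : DfM H z) : DfM (fun w => G w * H w) z :=
  fun i j => DifferentiableAt.fun_sum fun a _ => (hG i a).fun_mul (hH a j)

theorem conjT (hG : DfM G z) : DfM (fun w => (G w)ᴴ) z := fun i j => (hG j i).star

theorem tr (hG : DfM G z) : DifferentiableAt ℝ (fun w => trace (G w)) z :=
  DifferentiableAt.fun_sum fun a _ => hG a a

theorem det (hG : DfM G z) : DifferentiableAt ℝ (fun w => (G w).det) z := by
  simp only [det_apply']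
  exact DifferentiableAt.fun_sum fun σ _ =>
    (HasFDerivAt.finsetProd fun i _ => (hG (σ i) i).hasFDerivAt).differentiableAt.const_mul _

theorem adjugate (hG : DfM G z) : DfM (fun w => (G w).adjugate) z := fun i j => by
  simp only [adjugate_apply]
  refine DfM.det fun a b => ?_
  by_cases e : a = j <;> simp only [updateRow_apply, e, if_true, if_false]
  exacts [differentiableAt_const _, hG a b]

theorem inv (hG : DfM G z) (h : (G z).det ≠ 0) : DfM (fun w => (G w)⁻¹) z := fun i j => by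
  simp only [Matrix.inv_def, Ring.inverse_eq_inv', Matrix.smul_apply, smul_eq_mul]
  exact (hG.det.fun_inv h).fun_mul (hG.adjugate i j)

end DfM

namespace CdM

variable {n : WithTop ℕ∞}

theorem df (hG : CdM n G z) (hn : n ≠ 0) : DfM G z := fun i j => (hG i j).differentiableAt hn

theorem of_le {m : WithTop ℕ∞} (hG : CdM n G z) (h : m ≤ n) : CdM m G z :=
  fun i j => (hG i j).of_le h

theorem eventually_df (hG : CdM 2 G z) : ∀ᶠ w in 𝓝 z, DfM G w :=
  eventually_all.2 fun i => eventually_all.2 fun j => eventually_diff (hG i j)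

theorem const (A : Mat ι) : CdM n (fun _ => A) z := fun _ _ => contDiffAt_const

theorem add (hG : CdM n G z) (hH : CdM n H z) : CdM n (fun w => G w + H w) z :=
  fun i j => (hG i j).add (hH i j)

theorem sub (hG : CdM n G z) (hH : CdM n H z) : CdM n (fun w => G w - H w) z :=
  fun i j => (hG i j).sub (hH i j)

theorem neg (hG : CdM n G z) : CdM n (fun w => -G w) z := fun i j => (hG i j).neg

theorem smul (hf : ContDiffAt ℝ n f z) (hG : CdM n G z) : CdM n (fun w => f w • G w) z :=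
  fun i j => hf.mul (hG i j)

theorem mul (hG : CdM n G z) (hH : CdM n H z) : CdM n (fun w => G w * H w) z :=
  fun i j => ContDiffAt.sum fun a _ => (hG i a).mul (hH a j)

theorem transpose (hG : CdM n G z) : CdM n (fun w => (G w)ᵀ) z := fun i j => hG j i

theorem mapStar (hG : CdM n G z) : CdM n (fun w => (G w).map star) z :=
  fun i j => conjCLE.contDiff.contDiffAt.comp z (hG i j)

theorem conjT (hG : CdM n G z) : CdM n (fun w => (G w)ᴴ) z := fun i j => hG.mapStar j i

theorem pull (hG : CdM n G z) (hH : CdM n H z) : CdM n (fun w => pull (G w) (H w)) z :=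
  (hG.transpose.mul hH).mul hG.mapStar

theorem tr (hG : CdM n G z) : ContDiffAt ℝ n (fun w => trace (G w)) z :=
  ContDiffAt.sum fun a _ => hG a a

theorem det (hG : CdM n G z) : ContDiffAt ℝ n (fun w => (G w).det) z := by
  simp only [det_apply']
  exact ContDiffAt.sum fun σ _ => contDiffAt_const.mul (contDiffAt_prod fun i _ => hG (σ i) i)

theorem adjugate (hG : CdM n G z) : CdM n (fun w => (G w).adjugate) z := fun i j => by
  simp only [adjugate_apply]
  refine CdM.det fun a b => ?_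
  by_cases e : a = j <;> simp only [updateRow_apply, e, if_true, if_false]
  exacts [contDiffAt_const, hG a b]

theorem inv (hG : CdM n G z) (h : (G z).det ≠ 0) : CdM n (fun w => (G w)⁻¹) z := fun i j => by
  simp only [Matrix.inv_def, Ring.inverse_eq_inv', Matrix.smul_apply, smul_eq_mul]
  exact (hG.det.inv h).mul (hG.adjugate i j)

theorem dM {m : WithTop ℕ∞} (hG : CdM n G z) (hm : m + 1 ≤ n) (k : ι) : CdM m (dM G k) z :=
  fun i j => contDiffAt_dz (hG i j) hm k

theorem dMb {m : WithTop ℕ∞} (hG : CdM n G z) (hm : m + 1 ≤ n) (k : ι) : CdM m (dMb G k) z :=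
  fun i j => contDiffAt_dzb (hG i j) hm k

theorem lg (hG : CdM n G z) (h : (G z).det.re ≠ 0) : ContDiffAt ℝ n (lg G) z :=
  contDiffAt_ofReal.2 ((reCLM.contDiff.contDiffAt.comp z hG.det).log h)

end CdM

theorem cdM_jac {n : WithTop ℕ∞} {τ : V ι → V ι} (h : AnalyticAt ℂ τ z) : CdM n (jac τ) z :=
  fun p i => (analyticAt_jac h p i).contDiffAt.restrict_scalars ℝ

namespace SmM

variable {U : Set (V ι)}

theorem cd (hG : SmM G U) (hz : z ∈ U) : CdM ∞ G z := hG z hz

theorem cd2 (hG : SmM G U) (hz : z ∈ U) : CdM 2 G z := (hG.cd hz).of_le (by norm_cast)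

theorem df (hG : SmM G U) (hz : z ∈ U) : DfM G z := (hG.cd hz).df (by simp)

theorem mono {U' : Set (V ι)} (hG : SmM G U) (h : U' ⊆ U) : SmM G U' := fun z hz => hG z (h hz)

theorem const (A : Mat ι) : SmM (fun _ => A) U := fun _ _ => CdM.const A

theorem add (hG : SmM G U) (hH : SmM H U) : SmM (fun w => G w + H w) U :=
  fun _ hz => (hG.cd hz).add (hH.cd hz)

theorem sub (hG : SmM G U) (hH : SmM H U) : SmM (fun w => G w - H w) U :=
  fun _ hz => (hG.cd hz).sub (hH.cd hz)

theorem neg (hG : SmM G U) : SmM (fun w => -G w) U := fun _ hz => (hG.cd hz).neg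

theorem smul (hf : ∀ z ∈ U, ContDiffAt ℝ ∞ f z) (hG : SmM G U) : SmM (fun w => f w • G w) U :=
  fun z hz => CdM.smul (hf z hz) (hG.cd hz)

theorem mul (hG : SmM G U) (hH : SmM H U) : SmM (fun w => G w * H w) U :=
  fun _ hz => (hG.cd hz).mul (hH.cd hz)

theorem conjT (hG : SmM G U) : SmM (fun w => (G w)ᴴ) U := fun _ hz => (hG.cd hz).conjT

theorem adjugate (hG : SmM G U) : SmM (fun w => (G w).adjugate) U :=
  fun _ hz => (hG.cd hz).adjugate

theorem inv (hG : SmM G U) (h : ∀ z ∈ U, (G z).det ≠ 0) : SmM (fun w => (G w)⁻¹) U :=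
  fun z hz => (hG.cd hz).inv (h z hz)

theorem dM (hG : SmM G U) (k : ι) : SmM (dM G k) U := fun _ hz => (hG.cd hz).dM (by simp) k

theorem dMb (hG : SmM G U) (k : ι) : SmM (dMb G k) U := fun _ hz => (hG.cd hz).dMb (by simp) k

theorem det (hG : SmM G U) (hz : z ∈ U) : ContDiffAt ℝ ∞ (fun w => (G w).det) z := (hG.cd hz).det

theorem tr (hG : SmM G U) (hz : z ∈ U) : ContDiffAt ℝ ∞ (fun w => trace (G w)) z := (hG.cd hz).tr

theorem levi (hf : ∀ z ∈ U, ContDiffAt ℝ ∞ f z) : SmM (levi f) U :=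
  fun z hz => contDiffAt_levi_top (hf z hz)

end SmM

theorem eventually_mul_inv (hG : DfM G z) (h : (G z).det ≠ 0) :
    (fun w => G w * (G w)⁻¹) =ᶠ[𝓝 z] fun _ => 1 :=
  (hG.det.continuousAt.eventually_ne h).mono fun _ e => mul_nonsing_inv _ e.isUnit

theorem inv_of_deriv {A B C : Mat ι} (h : A.det ≠ 0) (e : B * A⁻¹ + A * C = 0) :
    C = -(A⁻¹ * B * A⁻¹) := by
  rw [Matrix.mul_assoc, eq_neg_of_add_eq_zero_left e, Matrix.mul_neg, neg_neg,
    nonsing_inv_mul_cancel_left _ _ h.isUnit]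

theorem dM_inv (hG : DfM G z) (h : (G z).det ≠ 0) (k : ι) :
    dM (fun w => (G w)⁻¹) k z = -((G z)⁻¹ * dM G k z * (G z)⁻¹) :=
  inv_of_deriv h ((dM_mul hG (hG.inv h) k).symm.trans
    ((dM_congr (eventually_mul_inv hG h) k).trans (dM_const 1 k z)))

theorem dMb_inv (hG : DfM G z) (h : (G z).det ≠ 0) (k : ι) :
    dMb (fun w => (G w)⁻¹) k z = -((G z)⁻¹ * dMb G k z * (G z)⁻¹) :=
  inv_of_deriv h ((dMb_mul hG (hG.inv h) k).symm.trans
    ((dMb_congr (eventually_mul_inv hG h) k).trans (dMb_const 1 k z)))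

theorem fderiv_det (hG : DfM G z) (v : V ι) : fderiv ℝ (fun w => (G w).det) z v =
    trace (adjugate (G z) * Matrix.of fun i j => fderiv ℝ (fun w => G w i j) z v) := by
  have e := (HasFDerivAt.fun_sum (u := Finset.univ) fun (σ : Equiv.Perm ι) _ =>
    (HasFDerivAt.finsetProd (u := Finset.univ) fun i _ => (hG (σ i) i).hasFDerivAt).const_mul
      ((Equiv.Perm.sign σ : ℤ) : ℂ)).fderiv
  have e2 : ∀ i, (adjugate (G z) * Matrix.of fun i j => fderiv ℝ (fun w => G w i j) z v) i i =
      ∑ σ : Equiv.Perm ι, ((Equiv.Perm.sign σ : ℤ) : ℂ) *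
        ((∏ j ∈ Finset.univ.erase i, G z (σ j) j) * fderiv ℝ (fun w => G w (σ i) i) z v) := by
    intro i
    have := congrFun (cramer_eq_adjugate_mulVec (G z) fun r => fderiv ℝ (fun w => G w r i) z v) i
    rw [cramer_apply, det_apply'] at this
    refine this.symm.trans (Finset.sum_congr rfl fun σ _ => ?_)
    rw [← Finset.prod_erase_mul _ _ (Finset.mem_univ i), updateCol_self,
      Finset.prod_congr rfl fun j hj => updateCol_ne (Finset.ne_of_mem_erase hj)]
  simp only [det_apply', trace, diag, e2]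
  rw [e, Finset.sum_comm]
  simp only [_root_.sum_apply, _root_.smul_apply, smul_eq_mul, Finset.mul_sum]

theorem dz_det (hG : DfM G z) (k : ι) :
    dz (fun w => (G w).det) k z = trace (adjugate (G z) * dM G k z) := by
  rw [dz, fderiv_det hG, fderiv_det hG]
  simp only [trace, diag, mul_apply, dM_apply, dz, of_apply, Finset.mul_sum,
    ← Finset.sum_sub_distrib, Finset.sum_div]
  exact Finset.sum_congr rfl fun i _ => Finset.sum_congr rfl fun j _ => by ring

theorem dzb_det (hG : DfM G z) (k : ι) :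
    dzb (fun w => (G w).det) k z = trace (adjugate (G z) * dMb G k z) := by
  rw [dzb, fderiv_det hG, fderiv_det hG]
  simp only [trace, diag, mul_apply, dMb_apply, dzb, of_apply, Finset.mul_sum,
    ← Finset.sum_add_distrib, Finset.sum_div]
  exact Finset.sum_congr rfl fun i _ => Finset.sum_congr rfl fun j _ => by ring

theorem det_re_herm {A : Mat ι} (h : A.IsHermitian) : (A.det.re : ℂ) = A.det :=
  conj_eq_iff_re.1 ((det_conjTranspose A).symm.trans (congrArg _ h))

theorem fderiv_lg (hG : DfM G z) (h : ∀ᶠ w in 𝓝 z, (G w).IsHermitian) (h0 : (G z).det ≠ 0)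
    (v : V ι) : fderiv ℝ (lg G) z v = (G z).det⁻¹ * fderiv ℝ (fun w => (G w).det) z v := by
  have e := det_re_herm h.self_of_nhds
  have e1 : (fun w => ((G w).det.re : ℂ)) =ᶠ[𝓝 z] fun w => (G w).det :=
    h.mono fun _ e => det_re_herm e
  rw [← e1.fderiv_eq, ← e, ← ofReal_inv]
  exact fderiv_real_comp (u := fun w => (G w).det.re)
    (Real.hasDerivAt_log fun e' => h0 (by rw [← e, e', ofReal_zero]))
    (reCLM.differentiableAt.comp z hG.det) v

theorem dz_lg (hG : DfM G z) (h : ∀ᶠ w in 𝓝 z, (G w).IsHermitian) (h0 : (G z).det ≠ 0) (k : ι) :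
    dz (lg G) k z = trace (dM G k z * (G z)⁻¹) := by
  rw [trace_mul_comm, Matrix.inv_def, Ring.inverse_eq_inv', Matrix.smul_mul, trace_smul, ← dz_det hG, dz,
    dz, fderiv_lg hG h h0, fderiv_lg hG h h0, smul_eq_mul]
  ring

theorem dzb_lg (hG : DfM G z) (h : ∀ᶠ w in 𝓝 z, (G w).IsHermitian) (h0 : (G z).det ≠ 0) (k : ι) :
    dzb (lg G) k z = trace (dMb G k z * (G z)⁻¹) := by
  rw [trace_mul_comm, Matrix.inv_def, Ring.inverse_eq_inv', Matrix.smul_mul, trace_smul, ← dzb_det hG, dzb,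
    dzb, fderiv_lg hG h h0, fderiv_lg hG h h0, smul_eq_mul]
  ring

theorem dM_dMb_comm (hG : CdM 2 G z) (k l : ι) : dM (dMb G l) k z = dMb (dM G k) l z :=
  Matrix.ext fun i j => dz_dzb_comm (hG i j) k l

theorem dM_dM_comm (hG : CdM 2 G z) (k l : ι) : dM (dM G l) k z = dM (dM G k) l z :=
  Matrix.ext fun i j => dz_dz_comm (hG i j) k l

theorem dMb_dMb_comm (hG : CdM 2 G z) (k l : ι) : dMb (dMb G l) k z = dMb (dMb G k) l z :=
  Matrix.ext fun i j => dzb_dzb_comm (hG i j) k l

end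

end Pool.Agent.Lib.MP_813db1_ag.HS
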