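import Pool.Agent.Lib.MP_813db1_ag.HS.AY0
import Pool.Agent.Lib.MP_813db1_ag.HS.Calc2
import Pool.Agent.Lib.MP_813db1_ag.HS.Mat

/-! The a priori estimates along an affine path of background forms. -/

namespace Pool.Agent.Lib.MP_813db1_ag.HS

open MeasureTheory Complex Matrix Filter Topology Set Metric
open scoped ContDiff ComplexOrder

namespace Apr

variable {ι : Type} [Fintype ι] [DecidableEq ι]

theorem tr_nonneg {P Q : Mat ι} (hP : P.PosSemidef) (hQ : Q.PosSemidef) :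
    0 ≤ (trace (P * Q)).re := by
  obtain ⟨S, rfl⟩ := Mat.fac hP
  rw [Matrix.mul_assoc, trace_mul_comm]
  exact (Complex.nonneg_iff.1 (hQ.mul_mul_conjTranspose_same S).trace_nonneg).1

theorem trm_mid {H P G : Mat ι} (hH : H.PosDef) (hP : P.PosSemidef) (hG : G.PosSemidef) :
    0 ≤ trm H (P * H⁻¹ * G) := by
  have h := hG.mul_mul_conjTranspose_same H⁻¹
  rw [hH.inv.isHermitian.eq] at h
  have := tr_nonneg hP h
  rwa [← Matrix.mul_assoc, ← Matrix.mul_assoc] at this

theorem trm_add (H A B : Mat ι) : trm H (A + B) = trm H A + trm H B := by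
  simp [trm, add_mul]

theorem trm_sub (H A B : Mat ι) : trm H (A - B) = trm H A - trm H B := by
  simp [trm, sub_mul]

theorem trm_smul (H A : Mat ι) (c : ℝ) : trm H ((c : ℂ) • A) = c * trm H A := by
  simp [trm]

theorem trm_neg (H B : Mat ι) : trm H (-B) = -trm H B := by
  simp [trm]

theorem det_le_trm {G H : Mat ι} (hG : G.PosDef) (hH : H.PosSemidef) :
    H.det.re / G.det.re ≤ trm G H ^ Fintype.card ι := by
  have h0 := (Mat.det' hG).1
  rw [div_le_iff₀ h0]
  obtain ⟨T, d, hT, hd, rfl, rfl⟩ := Mat.sim hG hH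
  have e : (Tᴴ * diagonal (fun i => (d i : ℂ)) * T).det = ((∏ i, d i : ℝ) : ℂ) * (Tᴴ * T).det := by
    rw [det_mul, det_mul, det_mul, det_diagonal, Complex.ofReal_prod]
    ring
  rw [Mat.trm_diag hT, e, re_ofReal_mul]
  refine mul_le_mul_of_nonneg_right ?_ h0.le
  rw [← Finset.card_univ, ← Finset.prod_const]
  exact Finset.prod_le_prod (fun i _ => hd i) fun i _ =>
    Finset.single_le_sum (fun j _ => hd j) (Finset.mem_univ i)

omit [Fintype ι] [DecidableEq ι] in
theorem bd_mono {L L' : ℝ} {A : Mat ι} (h : Bd L A) (hL : L ≤ L') : Bd L' A :=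
  fun i j => (h i j).trans hL

omit [Fintype ι] [DecidableEq ι] in
theorem bd_path {L s : ℝ} {A B : Mat ι} (hA : Bd L A) (hB : Bd L B) (hs : s ∈ Icc (0 : ℝ) 1) :
    Bd (2 * L) (A + (s : ℂ) • B) := fun i j => by
  rw [Matrix.add_apply, Matrix.smul_apply, smul_eq_mul]
  refine (norm_add_le _ _).trans ?_
  rw [norm_mul, norm_real, Real.norm_of_nonneg hs.1]
  have := mul_le_of_le_one_left (norm_nonneg (B i j)) hs.2
  linarith [hA i j, hB i j]

omit [DecidableEq ι] in
theorem ev_bd {f : V ι → ℂ} {K : Set (V ι)} (hK : IsCompact K)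
    (hf : ∀ z ∈ K, ContDiffAt ℝ ∞ f z) : ∀ᶠ L in atTop, ∀ z ∈ K, ‖f z‖ ≤ L := by
  obtain ⟨B, hB⟩ := hK.exists_bound_of_continuousOn (f := f)
    fun z hz => (hf z hz).continuousAt.continuousWithinAt
  filter_upwards [eventually_ge_atTop B] with L hL z hz using (hB z hz).trans hL

omit [DecidableEq ι] in
theorem ev_bdM {G : V ι → Mat ι} {K : Set (V ι)} (hK : IsCompact K) (hG : SmM G K) :
    ∀ᶠ L in atTop, ∀ z ∈ K, Bd L (G z) := by
  have h : ∀ᶠ L in atTop, ∀ i j, ∀ z ∈ K, ‖G z i j‖ ≤ L :=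
    eventually_all.2 fun i => eventually_all.2 fun j => ev_bd hK fun z hz => hG z hz i j
  filter_upwards [h] with L hL z hz i j using hL i j z hz

theorem ev_bd1 {G : V ι → Mat ι} {K : Set (V ι)} (hK : IsCompact K) (hG : SmM G K) :
    ∀ᶠ L in atTop, ∀ z ∈ K, Bd L (G z) ∧ ∀ k, Bd L (dM G k z) ∧ Bd L (dMb G k z) := by
  have h : ∀ᶠ L in atTop, ∀ k, (∀ z ∈ K, Bd L (dM G k z)) ∧ ∀ z ∈ K, Bd L (dMb G k z) :=
    eventually_all.2 fun k => (ev_bdM hK (hG.dM k)).and (ev_bdM hK (hG.dMb k))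
  filter_upwards [h, ev_bdM hK hG] with L h1 h2 z hz using
    ⟨h2 z hz, fun k => ⟨(h1 k).1 z hz, (h1 k).2 z hz⟩⟩

variable {X : Type} [TopologicalSpace X] {M : Atl ι X}

omit [DecidableEq ι] in
theorem ck_le {u : X → ℝ} (h : M.Ck ∞ u) (k : ℕ) : M.Ck k u :=
  fun e he z hz => (h e he z hz).of_le (by exact_mod_cast le_top)

/-- the Ricci form of a solution. -/
theorem ric_sol (B : RepB' M) {g α : X → Mat ι} {u : X → ℝ} (hg : M.IsK g) (hs : M.GSol g α u)
    (x : X) : M.ricF (fun y => α y + M.ddc u y) x = α x + M.ricF g x - (α x + M.ddc u x) := by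
  rw [B.ric_rat _ g hs.2.1 hg x]
  have : (fun y => Real.log (rat (fun y => α y + M.ddc u y) g y)) = u := by
    funext y
    rw [hs.2.2, Real.log_exp]
  rw [this]
  abel

/-- the Schwarz lemma. -/
theorem schwarz [CompactSpace X] (A : RepA' M) (B : RepB' M) (C : RepC' M) (hm : MatS)
    {g h β : X → Mat ι} {ε : ℝ} (hg : M.IsK g) (hs : M.SemiNeg g) (hh : M.IsK h) (hε : 0 < ε)
    (hric : ∀ x, M.ricF h x = β x - h x) (hβ : ∀ x, (β x - (ε : ℂ) • g x).PosSemidef) (x : X) :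
    trm (h x) (g x) ≤ Fintype.card ι / ε := by
  have hS : M.Ck ∞ fun y => trm (h y) (g y) := A.ck_trm h g hh fun e he => (hg e he).1.1
  have hcont : Continuous fun y => trm (h y) (g y) := A.cont _ (ck_le hS 0)
  obtain ⟨x0, -, hx0⟩ := isCompact_univ.exists_isMaxOn ⟨x, mem_univ x⟩ hcont.continuousOn
  have hmax : ∀ y, trm (h y) (g y) ≤ trm (h x0) (g x0) := fun y => hx0 (mem_univ y)
  have hp : (h x0).PosDef := ((A.isK_iff h).1 hh).2 x0
  have gp : (g x0).PosDef := ((A.isK_iff g).1 hg).2 x0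
  have h1 := hm.trm_nonneg ι _ _ hp (B.max _ x0 (ck_le hS 2) hmax)
  rw [trm_neg] at h1
  obtain ⟨h2, h3⟩ := C.cl g h hg hh x0
  have h4 := C.rq_nonpos g hg hs x0 _ hp.inv.posSemidef
  have hu' : IsUnit (h x0).det := (Matrix.isUnit_iff_isUnit_det _).1 hp.isUnit
  have h5 : M.ricF h x0 * (h x0)⁻¹ * g x0 = (β x0 - (ε : ℂ) • g x0) * (h x0)⁻¹ * g x0 +
      ((ε : ℂ) • (g x0 * (h x0)⁻¹ * g x0) - g x0) := by
    rw [hric x0, sub_mul, sub_mul, sub_mul, sub_mul, Matrix.mul_nonsing_inv _ hu', Matrix.one_mul,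
      Matrix.smul_mul, Matrix.smul_mul]
    abel
  rw [h5, trm_add, trm_sub, trm_smul, Atl.lap] at h2
  have h5' := trm_mid hp (hβ x0) gp.posSemidef
  have h6 := (hm.sq ι _ _ hp gp.posSemidef).1
  have h7 := hm.trm_nonneg ι _ _ hp gp.posSemidef
  have hn : (0 : ℝ) ≤ Fintype.card ι := Nat.cast_nonneg _
  refine (hmax x).trans ((le_div_iff₀' hε).2 ?_)
  rcases h7.eq_or_lt with h0 | h0
  · rw [← h0, mul_zero]
    exact hn
  · have h9 : ε * trm (h x0) (g x0 * (h x0)⁻¹ * g x0) ≤ trm (h x0) (g x0) := by linarith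
    have h10 := mul_le_mul_of_nonneg_left h9 hn
    have h11 := mul_le_mul_of_nonneg_left h6 hε.le
    refine le_of_mul_le_mul_right ?_ h0
    nlinarith

/-- the upper bound for the potential. -/
theorem upper [CompactSpace X] (A : RepA' M) (B : RepB' M) (hm : MatS) {g α : X → Mat ι}
    {u : X → ℝ} {T : ℝ} (hg : M.IsK g) (hs : M.GSol g α u) (hT : ∀ x, trm (g x) (α x) ≤ T)
    (x : X) : Real.exp (u x) ≤ T ^ Fintype.card ι := by
  obtain ⟨x0, -, hx0⟩ := isCompact_univ.exists_isMaxOn ⟨x, mem_univ x⟩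
    (A.cont _ (ck_le hs.1 0)).continuousOn
  have hmax : ∀ y, u y ≤ u x0 := fun y => hx0 (mem_univ y)
  have hp : (α x0 + M.ddc u x0).PosDef := ((A.isK_iff _).1 hs.2.1).2 x0
  have gp : (g x0).PosDef := ((A.isK_iff g).1 hg).2 x0
  have h1 := hm.trm_nonneg ι _ _ gp (B.max _ x0 (ck_le hs.1 2) hmax)
  have h2 := hm.trm_nonneg ι _ _ gp hp.posSemidef
  have h3 := det_le_trm gp hp.posSemidef
  refine (Real.exp_le_exp.2 (hmax x)).trans ?_
  rw [← hs.2.2 x0]
  refine h3.trans (pow_le_pow_left₀ h2 ?_ _)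
  rw [trm_neg] at h1
  rw [trm_add]
  linarith [hT x0]

theorem trm_bd [CompactSpace X] (A : RepA' M) {g α : X → Mat ι} (hg : M.IsK g) (hα : M.ClF α) :
    ∃ T, ∀ x, |trm (g x) (α x)| ≤ T := by
  obtain ⟨T, hT⟩ := isCompact_univ.exists_bound_of_continuousOn
    (A.cont _ (ck_le (A.ck_trm g α hg fun e he => (hα e he).1) 0)).continuousOn
  exact ⟨T, fun x => hT x (mem_univ x)⟩

end Apr

open Apr

theorem apr (hA : RepA) (hB : RepB) (hC : RepC) (hm : MatS) (h3 : C3S) : AprS := by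
  intro ι X _ _ _ _ M C g α γ ε hg hs hα hγ hε hpos
  have A := hA _ _ M
  have B := hB _ _ M
  obtain ⟨T1, hT1⟩ := trm_bd A hg hα
  obtain ⟨T2, hT2⟩ := trm_bd A hg hγ
  have sub3 : ∀ b, closedBall (0 : V ι) (3 * C.r b) ⊆ (C.e b).target := fun b =>
    (closedBall_subset_closedBall (by linarith [C.pos b])).trans (C.sub b)
  have sub4 : ∀ b, ball (0 : V ι) (4 * C.r b) ⊆ (C.e b).target := fun b =>
    ball_subset_closedBall.trans (C.sub b)
  have hρ : M.ClF fun x => α x + M.ricF g x := A.clF_add _ _ hα (B.ric_cl g hg)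
  have ev : ∀ᶠ L in atTop, ∀ b, (∀ z ∈ closedBall (0 : V ι) (3 * C.r b),
      Bd L (M.repF g (C.e b) z)) ∧ (∀ z ∈ closedBall (0 : V ι) (3 * C.r b),
      Bd L (M.repF g (C.e b) z)⁻¹) ∧ (∀ z ∈ closedBall (0 : V ι) (3 * C.r b),
      ‖(M.repF g (C.e b) z).det‖ ≤ L) ∧ (∀ z ∈ closedBall (0 : V ι) (3 * C.r b),
      Bd L (M.repF (fun x => α x + M.ricF g x) (C.e b) z) ∧ ∀ k,
        Bd L (dM (M.repF (fun x => α x + M.ricF g x) (C.e b)) k z) ∧
        Bd L (dMb (M.repF (fun x => α x + M.ricF g x) (C.e b)) k z)) ∧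
      ∀ z ∈ closedBall (0 : V ι) (3 * C.r b), Bd L (M.repF γ (C.e b) z) ∧ ∀ k,
        Bd L (dM (M.repF γ (C.e b)) k z) ∧ Bd L (dMb (M.repF γ (C.e b)) k z) :=
    eventually_all.2 fun b => by
      have k := isCompact_closedBall (0 : V ι) (3 * C.r b)
      have sg := (hg _ (C.mem b)).1.1.mono (sub3 b)
      exact (ev_bdM k sg).and ((ev_bdM k (sg.inv fun z hz =>
        ((hg _ (C.mem b)).2 z (sub3 b hz)).det_pos.ne')).and ((ev_bd k fun z hz => sg.det hz).and
        ((ev_bd1 k ((hρ _ (C.mem b)).1.mono (sub3 b))).and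
          (ev_bd1 k ((hγ _ (C.mem b)).1.mono (sub3 b))))))
  obtain ⟨L, hL⟩ := ev.exists
  set D : ℝ := (T1 + T2) ^ Fintype.card ι with hD
  obtain ⟨C1, hC1⟩ := hm.ell ι (max (max L (Fintype.card ι / ε)) (D * L))
  choose Cb hCb using fun b => h3 ι (C.r b) (max C1 (2 * L)) (C.pos b)
  refine ⟨∑ b, |Cb b|, fun s hs01 u hu b => ?_⟩
  set h : X → Mat ι := fun x => α x + (s : ℂ) • γ x + M.ddc u x with hdef
  have hh : M.IsK h := hu.2.1
  have hric : ∀ x, M.ricF h x = α x + M.ricF g x + (s : ℂ) • γ x - h x := fun x => by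
    rw [hdef, ric_sol B hg hu x]
    simp only
    abel
  have h1 := schwarz A B (hC _ _ M) hm (β := fun x => α x + M.ricF g x + (s : ℂ) • γ x) hg hs hh hε
    hric fun x => by
      rw [add_right_comm]
      exact hpos s hs01 x
  have h2 := upper A B hm (T := T1 + T2) hg hu fun x => by
    rw [trm_add, trm_smul]
    have a1 := (le_abs_self _).trans (hT1 x)
    have a2 : s * trm (g x) (γ x) ≤ T2 := by
      refine (le_abs_self _).trans ?_
      rw [abs_mul, abs_of_nonneg hs01.1]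
      exact (mul_le_of_le_one_left (abs_nonneg _) hs01.2).trans (hT2 x)
    linarith
  obtain ⟨l1, l2, l3, l4, l5⟩ := hL b
  have he := C.mem b
  have sρ := (hρ _ he).1
  have sγ := (hγ _ he).1
  have key := hCb b (M.repF h (C.e b))
    (fun z => M.repF (fun x => α x + M.ricF g x) (C.e b) z + (s : ℂ) • M.repF γ (C.e b) z)
    ⟨⟨(hh _ he).1.1.mono (sub4 b), fun z hz => (hh _ he).1.2.1 z (sub4 b hz),
      fun z hz => (hh _ he).1.2.2 z (sub4 b hz)⟩, fun z hz => (hh _ he).2 z (sub4 b hz)⟩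
    ((sρ.add (sγ.smul fun _ _ => contDiffAt_const)).mono (sub4 b))
    (fun w hw => by
      rw [← B.ric_rep h hh _ he w (sub4 b hw), show M.ricF h = _ from funext hric, repF_sub,
        repF_add, repF_smul])
    (fun z hz => by
      have hz' := sub3 b hz
      have hx := (C.e b).map_target hz'
      have gp := (hg _ he).2 z hz'
      have hp := (hh _ he).2 z hz'
      have t1 := A.trm_rep h g _ he _ hx
      have t2 := A.rat_rep h g _ he _ hx
      rw [(C.e b).right_inv hz'] at t1 t2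
      have g0 := (hm.det ι _ gp).1
      have t3 : (M.repF h (C.e b) z).det.re ≤ D * L := by
        rw [hu.2.2, div_eq_iff g0.ne'] at t2
        rw [t2]
        exact mul_le_mul (h2 _) ((re_le_norm _).trans (l3 z hz)) g0.le
          ((Real.exp_pos _).le.trans (h2 ((C.e b).symm z)))
      obtain ⟨b1, b2⟩ := hC1 _ _ gp hp
        (bd_mono (l1 z hz) (le_max_of_le_left (le_max_left _ _)))
        (bd_mono (l2 z hz) (le_max_of_le_left (le_max_left _ _)))
        (t1 ▸ (h1 _).trans (le_max_of_le_left (le_max_right _ _))) (le_max_of_le_right t3)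
      refine ⟨bd_mono b1 (le_max_left _ _), bd_mono b2 (le_max_left _ _),
        bd_mono (bd_path (l4 z hz).1 (l5 z hz).1 hs01) (le_max_right _ _), fun k => ?_⟩
      have d1 := sρ.df hz'
      have d2 := sγ.df hz'
      have d3 : DfM (fun w => (s : ℂ) • M.repF γ (C.e b) w) z :=
        DfM.smul (differentiableAt_const _) d2
      rw [dM_add d1 d3, dMb_add d1 d3, dM_csmul _ d2, dMb_csmul _ d2]
      exact ⟨bd_mono (bd_path ((l4 z hz).2 k).1 ((l5 z hz).2 k).1 hs01) (le_max_right _ _),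
        bd_mono (bd_path ((l4 z hz).2 k).2 ((l5 z hz).2 k).2 hs01) (le_max_right _ _)⟩)
  have hle : Cb b ≤ ∑ b, |Cb b| := (le_abs_self _).trans
    (Finset.single_le_sum (f := fun b => |Cb b|) (fun _ _ => abs_nonneg _) (Finset.mem_univ b))
  refine ⟨fun i j => (key.1 i j).mono hle, fun i j => (key.2 i j).mono hle, fun i => ?_⟩
  refine (Hol.const (0 : ℂ) ?_).congr fun z _ => by simp
  rw [norm_zero]
  exact Finset.sum_nonneg fun _ _ => abs_nonneg _

end Pool.Agent.Lib.MP_813db1_ag.HS
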