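import Pool.Agent.Lib.MP_813db1_ag.HS.Stmt

/-! The interior third order estimate. -/

set_option autoImplicit false

namespace Pool.Agent.Lib.MP_813db1_ag.HS

open Complex Matrix Filter Topology Set Metric
open scoped ContDiff ComplexOrder MatrixOrder

namespace C3

variable {ι : Type} [Fintype ι] [DecidableEq ι]

theorem dz_congr {f g : V ι → ℂ} {z : V ι} (h : f =ᶠ[𝓝 z] g) (k : ι) : dz f k z = dz g k z := by
  rw [dz, dz, h.fderiv_eq]

theorem dz_add {f g : V ι → ℂ} {z : V ι} (hf : DifferentiableAt ℝ f z)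
    (hg : DifferentiableAt ℝ g z) (k : ι) :
    dz (fun w => f w + g w) k z = dz f k z + dz g k z := by
  simp only [dz, fderiv_fun_add hf hg, _root_.add_apply]
  ring

theorem dzb_add {f g : V ι → ℂ} {z : V ι} (hf : DifferentiableAt ℝ f z)
    (hg : DifferentiableAt ℝ g z) (k : ι) :
    dzb (fun w => f w + g w) k z = dzb f k z + dzb g k z := by
  simp only [dzb, fderiv_fun_add hf hg, _root_.add_apply]
  ring

theorem dz_mul {f g : V ι → ℂ} {z : V ι} (hf : DifferentiableAt ℝ f z)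
    (hg : DifferentiableAt ℝ g z) (k : ι) :
    dz (fun w => f w * g w) k z = f z * dz g k z + g z * dz f k z := by
  simp only [dz, fderiv_fun_mul hf hg, _root_.add_apply,
    _root_.smul_apply, smul_eq_mul]
  ring

theorem dzb_mul {f g : V ι → ℂ} {z : V ι} (hf : DifferentiableAt ℝ f z)
    (hg : DifferentiableAt ℝ g z) (k : ι) :
    dzb (fun w => f w * g w) k z = f z * dzb g k z + g z * dzb f k z := by
  simp only [dzb, fderiv_fun_mul hf hg, _root_.add_apply,
    _root_.smul_apply, smul_eq_mul]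
  ring

theorem dzb_star {f g : V ι → ℂ} {z : V ι} (h : f =ᶠ[𝓝 z] fun w => star (g w)) (k : ι) :
    dzb f k z = star (dz g k z) := by
  rw [dzb, dz, h.fderiv_eq, fderiv_star]
  simp

theorem cd_fd {f : V ι → ℂ} {z : V ι} (hf : ContDiffAt ℝ ∞ f z) (v : V ι) :
    ContDiffAt ℝ ∞ (fun w => fderiv ℝ f w v) z :=
  (hf.fderiv_right (m := ∞) le_rfl).clm_apply contDiffAt_const

theorem cd_dz {f : V ι → ℂ} {z : V ι} (hf : ContDiffAt ℝ ∞ f z) (k : ι) :
    ContDiffAt ℝ ∞ (dz f k) z :=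
  ((cd_fd hf _).sub (contDiffAt_const.mul (cd_fd hf _))).div_const 2

theorem cd_dzb {f : V ι → ℂ} {z : V ι} (hf : ContDiffAt ℝ ∞ f z) (k : ι) :
    ContDiffAt ℝ ∞ (dzb f k) z :=
  ((cd_fd hf _).add (contDiffAt_const.mul (cd_fd hf _))).div_const 2

omit [DecidableEq ι] in
theorem df {f : V ι → ℂ} {z : V ι} (hf : ContDiffAt ℝ ∞ f z) : DifferentiableAt ℝ f z :=
  hf.differentiableAt (by simp)

omit [DecidableEq ι] in
theorem edf {f : V ι → ℂ} {z : V ι} (hf : ContDiffAt ℝ ∞ f z) :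
    ∀ᶠ w in 𝓝 z, DifferentiableAt ℝ f w :=
  ((hf.of_le (m := 1) (by simp)).eventually (by simp)).mono fun _ h => h.differentiableAt one_ne_zero

theorem levi_add {f g : V ι → ℂ} {z : V ι} (hf : ContDiffAt ℝ ∞ f z) (hg : ContDiffAt ℝ ∞ g z) :
    levi (fun w => f w + g w) z = levi f z + levi g z := by
  ext i j
  rw [Matrix.add_apply, levi, levi, levi, of_apply, of_apply, of_apply,
    ← dz_add (df (cd_dzb hf j)) (df (cd_dzb hg j))]
  exact dz_congr (((edf hf).and (edf hg)).mono fun w h => dzb_add h.1 h.2 j) i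

theorem levi_mul {f g : V ι → ℂ} {z : V ι} (hf : ContDiffAt ℝ ∞ f z) (hg : ContDiffAt ℝ ∞ g z)
    (i j : ι) : levi (fun w => f w * g w) z i j = f z * levi g z i j + g z * levi f z i j +
      (dz f i z * dzb g j z + dz g i z * dzb f j z) := by
  rw [levi, levi, levi, of_apply, of_apply, of_apply,
    dz_congr (g := fun w => f w * dzb g j w + g w * dzb f j w)
      (((edf hf).and (edf hg)).mono fun w h => dzb_mul h.1 h.2 j) i,
    dz_add ((df hf).fun_mul (df (cd_dzb hg j))) ((df hg).fun_mul (df (cd_dzb hf j))),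
    dz_mul (df hf) (df (cd_dzb hg j)), dz_mul (df hg) (df (cd_dzb hf j))]
  ring

theorem lap_mul (H : V ι → Mat ι) {f g : V ι → ℝ} {z : V ι}
    (hf : ContDiffAt ℝ ∞ (fun w => (f w : ℂ)) z) (hg : ContDiffAt ℝ ∞ (fun w => (g w : ℂ)) z) :
    (lapL H (fun w => (f w : ℂ) * g w) z).re = f z * (lapL H (fun w => (g w : ℂ)) z).re +
      g z * (lapL H (fun w => (f w : ℂ)) z).re +
      (grL (H z) (fun i => dz (fun w => (f w : ℂ)) i z) (fun i => dz (fun w => (g w : ℂ)) i z) +
      grL (H z) (fun i => dz (fun w => (g w : ℂ)) i z) (fun i => dz (fun w => (f w : ℂ)) i z)).re := by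
  have e : ∀ (u : V ι → ℝ) j, dzb (fun w => (u w : ℂ)) j z = star (dz (fun w => (u w : ℂ)) j z) :=
    fun u j => dzb_star (Eventually.of_forall fun w => (conj_ofReal _).symm) j
  rw [← re_ofReal_mul, ← re_ofReal_mul, ← add_re, ← add_re]
  congr 1
  simp only [lapL, grL, trace, diag_apply, mul_apply, levi_mul hf hg, e, Finset.mul_sum,
    ← Finset.sum_add_distrib]
  exact Finset.sum_congr rfl fun i _ => Finset.sum_congr rfl fun j _ => by ring

theorem norm_fd {f : V ι → ℂ} {z : V ι} {D : ℝ} (hD : 0 ≤ D) (h : ∀ k, ‖dz f k z‖ ≤ D)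
    (h' : ∀ k, ‖dzb f k z‖ ≤ D) : ‖fderiv ℝ f z‖ ≤ Fintype.card ι * (2 * D) := by
  refine ContinuousLinearMap.opNorm_le_bound _ (by positivity) fun v => ?_
  have e : v = ∑ k, ((v k).re • (Pi.single k 1 : V ι) + (v k).im • (Pi.single k I : V ι)) := by
    ext j
    simp [Finset.sum_apply, Pi.single_apply, Finset.sum_add_distrib]
  have e' : fderiv ℝ f z v = ∑ k, (dz f k z * v k + dzb f k z * star (v k)) := by
    conv_lhs => rw [e]
    rw [map_sum]
    refine Finset.sum_congr rfl fun k _ => ?_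
    rw [map_add, map_smul, map_smul, dz, dzb]
    conv_rhs => rw [← re_add_im (v k)]
    simp only [real_smul, star_add, star_mul, RCLike.star_def, conj_ofReal, conj_I]
    linear_combination ((v k).im * fderiv ℝ f z (Pi.single k I)) * I_mul_I
  rw [e', mul_assoc, ← nsmul_eq_mul, ← Finset.card_univ, ← Finset.sum_const]
  refine (norm_sum_le _ _).trans (Finset.sum_le_sum fun k _ => (norm_add_le _ _).trans ?_)
  rw [norm_mul, norm_mul, norm_star]
  have := norm_le_pi_norm v k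
  have := mul_le_mul (h k) this (norm_nonneg _) hD
  have := mul_le_mul (h' k) (norm_le_pi_norm v k) (norm_nonneg _) hD
  linarith

omit [DecidableEq ι] in
theorem bd_mul {a b : ℝ} {A B : Mat ι} (hA : Bd a A) (hB : Bd b B) :
    Bd (Fintype.card ι * (a * b)) (A * B) := fun i j => by
  rw [mul_apply, ← nsmul_eq_mul, ← Finset.card_univ, ← Finset.sum_const]
  refine (norm_sum_le _ _).trans (Finset.sum_le_sum fun k _ => ?_)
  rw [norm_mul]
  exact mul_le_mul (hA _ _) (hB _ _) (norm_nonneg _) ((norm_nonneg _).trans (hA i k))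

omit [DecidableEq ι] in
theorem bd_tr {a : ℝ} {A : Mat ι} (hA : Bd a A) : |(trace A).re| ≤ Fintype.card ι * a := by
  rw [← nsmul_eq_mul, ← Finset.card_univ, ← Finset.sum_const]
  exact (abs_re_le_norm _).trans ((norm_sum_le _ _).trans (Finset.sum_le_sum fun k _ => hA k k))

theorem gr_le {L K : ℝ} {H : Mat ι} {a : V ι} (hH : Bd L H⁻¹) (ha : ∀ i, ‖a i‖ ≤ K) :
    (grL H a a).re ≤ Fintype.card ι * (Fintype.card ι * (L * K * K)) := by
  rw [← nsmul_eq_mul, ← nsmul_eq_mul, ← Finset.card_univ, ← Finset.sum_const]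
  refine (re_le_norm _).trans ((norm_sum_le _ _).trans (Finset.sum_le_sum fun i _ => ?_))
  rw [← Finset.sum_const]
  refine (norm_sum_le _ _).trans (Finset.sum_le_sum fun j _ => ?_)
  have l0 := (norm_nonneg _).trans (hH i j)
  have k0 := (norm_nonneg _).trans (ha i)
  rw [norm_mul, norm_mul, norm_star]
  exact mul_le_mul (mul_le_mul (hH _ _) (ha _) (norm_nonneg _) l0) (ha _) (norm_nonneg _)
    (mul_nonneg l0 k0)

theorem gr_sq (hm : MatS) {H : Mat ι} (hH : H.PosDef) (a b : V ι) (s t : ℝ) :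
    0 ≤ s ^ 2 * (grL H a a).re + s * t * (grL H b a + grL H a b).re + t ^ 2 * (grL H b b).re := by
  have := hm.nv_mono ι (H⁻¹)ᵀ (fun i => s * a i + t * b i) hH.inv.posSemidef.transpose
  refine this.trans_eq ?_
  rw [← re_ofReal_mul, ← re_ofReal_mul, ← re_ofReal_mul, ← add_re, ← add_re, nV]
  congr 1
  simp only [ipV, grL, transpose_apply, star_add, star_mul, RCLike.star_def, conj_ofReal,
    mul_add, Finset.mul_sum, ← Finset.sum_add_distrib]
  refine Finset.sum_congr rfl fun i _ => Finset.sum_congr rfl fun j _ => ?_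
  push_cast
  ring

theorem q_nonneg (hm : MatS) {H B : Mat ι} (hH : H.PosDef) (hB : B.PosSemidef) (A : ι → Mat ι) :
    0 ≤ (∑ k, ∑ l, H⁻¹ l k * trace (A k * B * (A l)ᴴ * H⁻¹)).re := by
  obtain ⟨P, hP⟩ : ∃ P : Mat ι, H⁻¹ = Pᴴ * P :=
    CStarAlgebra.nonneg_iff_eq_star_mul_self.1 hH.inv.posSemidef.nonneg
  have h := Finset.sum_nonneg (s := Finset.univ) fun m _ => hm.trm_nonneg ι H _ hH
    (hB.mul_mul_conjTranspose_same (∑ k, P m k • A k))
  refine h.trans_eq ?_
  simp only [trm]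
  rw [← re_sum]
  congr 1
  have e : ∀ l k, H⁻¹ l k = ∑ m, star (P m l) * P m k := fun l k => by rw [hP, mul_apply]; rfl
  simp only [e, conjTranspose_sum, conjTranspose_smul, Finset.sum_mul, Finset.mul_sum, trace_sum,
    smul_mul_assoc, mul_smul_comm, trace_smul, smul_eq_mul]
  rw [Finset.sum_comm]
  conv_rhs => rw [Finset.sum_comm]
  refine Finset.sum_congr rfl fun l _ => ?_
  rw [Finset.sum_comm]
  exact Finset.sum_congr rfl fun k _ => Finset.sum_congr rfl fun m _ => by ring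

theorem gr_smul (H : Mat ι) (a b : V ι) (s : ℝ) :
    (grL H (fun i => s * b i) a + grL H a fun i => s * b i).re = s * (grL H b a + grL H a b).re := by
  rw [← re_ofReal_mul]
  congr 1
  simp only [grL, star_mul, RCLike.star_def, conj_ofReal, mul_add, Finset.mul_sum,
    ← Finset.sum_add_distrib]
  exact Finset.sum_congr rfl fun i _ => Finset.sum_congr rfl fun j _ => by ring

theorem dMb_eq {H : V ι → Mat ι} {U : Set (V ι)} (hU : IsOpen U) (hH : KOn H U) {z : V ι}
    (hz : z ∈ U) (l : ι) : dMb H l z = (dM H l z)ᴴ := by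
  ext i j
  exact dzb_star (f := fun w => H w i j) (g := fun w => H w j i)
    (Filter.mem_of_superset (hU.mem_nhds hz) fun w hw => ((hH.1.2.1 w hw).apply i j).symm) l

theorem cal_le (hm : MatS) {H : V ι → Mat ι} {U : Set (V ι)} (hU : IsOpen U) (hH : KOn H U)
    {z : V ι} (hz : z ∈ U) {E : ℝ} (hE : ((E : ℂ) • (1 : Mat ι) - H z).PosSemidef) :
    cal H z ≤ E * clT (fun _ => 1) H z := by
  have hp := hH.2 z hz
  have h := q_nonneg hm hp (hE.mul_mul_conjTranspose_same (H z)⁻¹) fun k => dM H k z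
  have e : (H z)⁻¹ * ((E : ℂ) • (1 : Mat ι) - H z) * (H z)⁻¹ᴴ =
      (E : ℂ) • ((H z)⁻¹ * (H z)⁻¹ᴴ) - (H z)⁻¹ := by
    rw [Matrix.mul_sub, Matrix.sub_mul, nonsing_inv_mul _ ((isUnit_iff_isUnit_det _).1 hp.isUnit),
      Matrix.one_mul, Matrix.mul_smul, Matrix.mul_one, Matrix.smul_mul, hp.inv.isHermitian.eq]
  have g0 : ∀ k, gam (fun _ => (1 : Mat ι)) k z = 0 := fun k => by
    have : dM (fun _ => (1 : Mat ι)) k z = 0 := by
      ext i j
      simp [dM, dz]
    rw [gam, this, Matrix.zero_mul]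
  rw [← sub_nonneg]
  refine h.trans_eq ?_
  rw [cal, clT, ← re_ofReal_mul, ← sub_re]
  congr 1
  simp only [e, g0, dMb_eq hU hH hz, Finset.mul_sum, ← Finset.sum_sub_distrib]
  refine Finset.sum_congr rfl fun k _ => Finset.sum_congr rfl fun l _ => ?_
  simp only [gam, zero_sub, conjTranspose_neg, conjTranspose_mul, Matrix.mul_one, Matrix.neg_mul,
    Matrix.mul_neg, neg_neg, Matrix.mul_sub, Matrix.sub_mul, Matrix.mul_smul, Matrix.smul_mul,
    trace_sub, trace_smul, smul_eq_mul, Matrix.mul_assoc]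
  ring

theorem dom (hm : MatS) {L : ℝ} (hL : 0 ≤ L) : ∃ E : ℝ, ∀ H : Mat ι, H.PosDef → Bd L H →
    ((E : ℂ) • (1 : Mat ι) - H).PosSemidef := by
  obtain ⟨E, hE⟩ := hm.dom ι (L + 1)
  have o1 : Bd (L + 1) (1 : Mat ι) := fun i j => by
    rw [one_apply]
    split_ifs <;> simp <;> linarith
  refine ⟨E.re, fun H hp hb => ?_⟩
  have h := (hE 1 H PosDef.one hp.isHermitian o1 (by rwa [inv_one])
    fun i j => (hb i j).trans (by linarith)).2.posSemidef
  have e := h.isHermitian.eq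
  rw [conjTranspose_sub, hp.isHermitian.eq, sub_left_inj, conjTranspose_smul,
    conjTranspose_one] at e
  rwa [re_eq_add_conj, div_eq_inv_mul, mul_smul, add_smul, ← RCLike.star_def, e, ← two_smul ℂ,
    inv_smul_smul₀ two_ne_zero]

theorem core (h : CalS) (hl : CLS) (hm : MatS) (hx : MaxS) {r L : ℝ} (hr : 0 < r) (hL : 0 ≤ L) :
    ∃ D ≥ 0, ∀ (H ρ : V ι → Mat ι), KOn H (ball 0 (4 * r)) → SmM ρ (ball 0 (4 * r)) →
    (∀ w ∈ ball (0 : V ι) (4 * r), ric H w = ρ w - H w) →
    (∀ z ∈ closedBall (0 : V ι) (3 * r), Bd L (H z) ∧ Bd L (H z)⁻¹ ∧ Bd L (ρ z) ∧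
      ∀ k, Bd L (dM ρ k z) ∧ Bd L (dMb ρ k z)) →
    ∀ z ∈ ball (0 : V ι) (2 * r), ∀ k i j, ‖dM H k z i j‖ ≤ D := by
  obtain ⟨C, C0, hC⟩ := h ι L
  obtain ⟨E, hE⟩ := dom (ι := ι) hm hL
  let χ : ContDiffBump (0 : V ι) := ⟨2 * r, 3 * r, by positivity, by linarith⟩
  have sχ : ∀ z, ContDiffAt ℝ ∞ (fun w => (χ w : ℂ)) z := fun z =>
    (ofRealCLM.contDiff.comp χ.contDiff).contDiffAt
  have sη : ∀ z, ContDiffAt ℝ ∞ (fun w => ((χ w * χ w : ℝ) : ℂ)) z := fun z =>
    (ofRealCLM.contDiff.comp (χ.contDiff.mul χ.contDiff)).contDiffAt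
  obtain ⟨K, hK⟩ := (isCompact_closedBall (0 : V ι) (3 * r)).exists_bound_of_continuousOn
    (f := fun z => ((fun i => dz (fun w => (χ w : ℂ)) i z,
      fun i j => levi (fun w => ((χ w * χ w : ℝ) : ℂ)) z i j) : V ι × (ι → ι → ℂ)))
    (fun z _ => ((continuousAt_pi.2 fun i => (cd_dz (sχ z) i).continuousAt).prodMk
      (continuousAt_pi.2 fun i => continuousAt_pi.2 fun j =>
        (cd_dz (cd_dzb (sη z) j) i).continuousAt)).continuousWithinAt)
  have K0 : 0 ≤ K := (norm_nonneg _).trans (hK 0 (mem_closedBall_self (by positivity)))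
  obtain ⟨n, hn⟩ : ∃ n : ℝ, n = Fintype.card ι := ⟨_, rfl⟩
  have n0 : 0 ≤ n := hn ▸ Nat.cast_nonneg _
  obtain ⟨G, hG⟩ : ∃ G, G = n * (n * (L * K * K)) := ⟨_, rfl⟩
  obtain ⟨Q, hQ⟩ : ∃ Q, Q = n * (n * (K * L)) := ⟨_, rfl⟩
  obtain ⟨R, hR⟩ : ∃ R, R = n * (n * (n * ((L + L) * L) * L)) := ⟨_, rfl⟩
  have G0 : 0 ≤ G := by rw [hG]; positivity
  have Q0 : 0 ≤ Q := by rw [hQ]; positivity
  have R0 : 0 ≤ R := by rw [hR]; positivity
  obtain ⟨B, hB⟩ : ∃ B, B = (C + Q + 4 * G * C + 1) * |E| := ⟨_, rfl⟩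
  have B0 : 0 ≤ B := by rw [hB]; positivity
  refine ⟨√(C * (C + 4 * G + B * R + B * (n * L))), Real.sqrt_nonneg _,
    fun H ρ hH hρ he hb z hz k i j => ?_⟩
  have sub : closedBall (0 : V ι) (3 * r) ⊆ ball 0 (4 * r) := closedBall_subset_ball (by linarith)
  have k1 : KOn (fun _ => (1 : Mat ι)) (ball 0 (4 * r)) :=
    ⟨⟨fun _ _ _ _ => contDiffAt_const, fun _ _ => isHermitian_one, fun _ _ _ _ _ => by simp [dz]⟩,
      fun _ _ => PosDef.one⟩
  have ca := fun w hw => hC H ρ _ isOpen_ball hH hρ he w (sub hw) (hb w hw).1 (hb w hw).2.1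
    (hb w hw).2.2.1 (hb w hw).2.2.2
  have cl := fun w hw => hl ι _ H _ isOpen_ball k1 hH w (sub hw)
  have sφ : ∀ w ∈ closedBall (0 : V ι) (3 * r),
      ContDiffAt ℝ ∞ (fun w => χ w * χ w * cal H w + B * trm (H w) 1) w := fun w hw =>
    ((χ.contDiff.mul χ.contDiff).contDiffAt.mul (ca w hw).1).add (contDiffAt_const.mul (cl w hw).1)
  obtain ⟨y, hy, my⟩ := (isCompact_closedBall (0 : V ι) (3 * r)).exists_isMaxOn
    ⟨0, mem_closedBall_self (by positivity)⟩ fun w hw => (sφ w hw).continuousAt.continuousWithinAt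
  have hp := hH.2 y (sub hy)
  have t1 : trm (H y) 1 ≤ n * L := by
    rw [trm, Matrix.one_mul, hn]
    exact (le_abs_self _).trans (bd_tr (hb y hy).2.1)
  have x0 : 0 ≤ χ y * χ y := mul_self_nonneg _
  have x1 : χ y * χ y ≤ 1 := mul_le_one₀ χ.le_one χ.nonneg χ.le_one
  obtain ⟨sS, S0, -, Y, Y0, hY, hg⟩ := ca y hy
  obtain ⟨sT, eT, T0, -⟩ := cl y hy
  have key : χ y * χ y * cal H y ≤ C + 4 * G + B * R := by
    by_cases hχ : χ y = 0
    · rw [hχ, zero_mul, zero_mul]
      positivity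
    have hy' : y ∈ ball (0 : V ι) (3 * r) := χ.support_eq ▸ Function.mem_support.2 hχ
    have m1 := hm.trm_nonneg ι _ _ hp (hx.loc ι _ y ((sφ y hy).of_le (WithTop.coe_le_coe.2 (le_top (a := (2 : ℕ∞)))))
      (my.isLocalMax (Filter.mem_of_superset (isOpen_ball.mem_nhds hy') ball_subset_closedBall)))
    have sS' : ContDiffAt ℝ ∞ (fun w => (cal H w : ℂ)) y := ofRealCLM.contDiff.contDiffAt.comp y sS
    have sT' : ContDiffAt ℝ ∞ (fun w => (trm (H w) 1 : ℂ)) y :=
      ofRealCLM.contDiff.contDiffAt.comp y sT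
    have l1 := lap_mul H (sη y) sS'
    have l2 := lap_mul H (f := fun _ => B) contDiffAt_const sT'
    have z1 : lapL H (fun _ => (B : ℂ)) y = 0 := by
      have : levi (fun _ : V ι => (B : ℂ)) y = 0 := by
        ext i j
        have : dzb (fun _ : V ι => (B : ℂ)) j = fun _ => 0 := by
          ext w
          simp [dzb]
        simp [levi, this, dz]
      rw [lapL, this, Matrix.zero_mul, trace_zero]
    have z2 : ∀ i, dz (fun _ : V ι => (B : ℂ)) i y = 0 := fun i => by simp [dz]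
    simp only [z1, z2, grL, mul_zero, zero_mul, star_zero, Finset.sum_const_zero, add_zero,
      zero_re] at l2
    have z3 : ∀ i, dz (fun w => ((χ w * χ w : ℝ) : ℂ)) i y =
        (2 * χ y : ℝ) * dz (fun w => (χ w : ℂ)) i y := fun i => by
      simp only [ofReal_mul]
      rw [dz_mul (df (sχ y)) (df (sχ y))]
      push_cast
      ring
    simp only [z3, gr_smul] at l1
    have z4 : rq (fun _ => (1 : Mat ι)) y (H y)⁻¹ = 0 := by
      have : ∀ i j l, dzb (fun _ : V ι => (1 : Mat ι) i j) l = fun _ => 0 := fun i j l => by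
        ext w
        simp [dzb]
      simp [rq, curv, this, dz]
    have m2 : (lapL H (fun w => ((χ w * χ w : ℝ) : ℂ) * cal H w) y).re +
        (lapL H (fun w => (B : ℂ) * trm (H w) 1) y).re ≤ 0 := by
      simp only [ofReal_add, ofReal_mul _ (cal H _), ofReal_mul B] at m1
      rw [levi_add ((sη y).mul sS') (contDiffAt_const.mul sT'), trm, Matrix.neg_mul, trace_neg,
        neg_re, Matrix.add_mul, trace_add, add_re] at m1
      exact neg_nonneg.1 m1
    have b1 := gr_le (hb y hy).2.1 (a := fun i => dz (fun w => (χ w : ℂ)) i y) fun i =>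
      (norm_le_pi_norm _ i).trans ((norm_fst_le _).trans (hK y hy))
    have b2 := bd_tr (bd_mul (A := levi (fun w => ((χ w * χ w : ℝ) : ℂ)) y) (fun i j =>
      (norm_le_pi_norm _ j).trans ((norm_le_pi_norm _ i).trans ((norm_snd_le _).trans (hK y hy))))
      (hb y hy).2.1)
    have b3 := bd_tr (bd_mul (bd_mul (A := ric H y) (a := L + L) (fun i j => by
      rw [he y (sub hy)]
      exact (norm_sub_le _ _).trans (add_le_add ((hb y hy).2.2.1 i j) ((hb y hy).1 i j)))
      (hb y hy).2.1) (hb y hy).2.1)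
    rw [← hn, ← hG] at b1
    rw [← hn, ← hQ] at b2
    rw [← hn, ← hR] at b3
    have b4 := (cal_le hm isOpen_ball hH (sub hy) (hE _ hp (hb y hy).1)).trans
      (mul_le_mul_of_nonneg_right (le_abs_self E) T0)
    have b5 := gr_sq hm hp (fun i => dz (fun w => (cal H w : ℂ)) i y)
      (fun i => dz (fun w => (χ w : ℂ)) i y) (χ y) (2 * (C * cal H y + 1))
    rw [z4, Matrix.mul_one, trm] at eT
    rw [l1, l2, eT] at m2
    change |(lapL H _ y).re| ≤ Q at b2
    generalize (lapL H (fun w => ((χ w * χ w : ℝ) : ℂ)) y).re = a1 at *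
    generalize (lapL H (fun w => (cal H w : ℂ)) y).re = a2 at *
    generalize (trace (ric H y * (H y)⁻¹ * (H y)⁻¹)).re = a3 at *
    generalize (grL (H y) (fun i => dz (fun w => (χ w : ℂ)) i y)
      (fun i => dz (fun w => (cal H w : ℂ)) i y) + _).re = a4 at *
    generalize (grL (H y) (fun i => dz (fun w => (χ w : ℂ)) i y) _).re = a5 at *
    generalize (grL (H y) (fun i => dz (fun w => (cal H w : ℂ)) i y) _).re = a6 at *
    generalize clT (fun _ => 1) H y = T at *
    generalize cal H y = S at *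
    generalize χ y = x at *
    have p0 : 0 < C * S + 1 := by positivity
    have p1 : -(x * x * Y) - 4 * (C * S + 1) * G ≤ 2 * x * a4 := by
      refine le_of_mul_le_mul_left ?_ p0
      have := mul_le_mul_of_nonneg_left hg x0
      have := mul_nonneg x0 Y0
      have := mul_le_mul_of_nonneg_left b1 (sq_nonneg (2 * (C * S + 1)))
      nlinarith
    have p2 := mul_le_mul_of_nonneg_left hY x0
    have p3 := mul_le_mul_of_nonneg_right x1 (show 0 ≤ C * (S + 1) by positivity)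
    have p4 := mul_le_mul_of_nonneg_left (neg_le_of_abs_le b2) S0
    have p5 := mul_le_mul_of_nonneg_left (neg_le_of_abs_le b3) B0
    have p6 := mul_le_mul_of_nonneg_left b4 (show 0 ≤ C + Q + 4 * G * C + 1 by positivity)
    have p7 := mul_le_mul_of_nonneg_right x1 S0
    rw [← mul_assoc, ← hB] at p6
    nlinarith
  have hz' : z ∈ closedBall (0 : V ι) (3 * r) :=
    ball_subset_closedBall (ball_subset_ball (by linarith) hz)
  have m : χ z * χ z * cal H z + B * trm (H z) 1 ≤ χ y * χ y * cal H y + B * trm (H y) 1 := my hz'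
  rw [χ.one_of_mem_closedBall (ball_subset_closedBall hz)] at m
  have := mul_nonneg B0 (hm.trm_nonneg ι _ _ (hH.2 z (sub hz')) PosSemidef.one)
  have := mul_le_mul_of_nonneg_left t1 B0
  exact Real.le_sqrt_of_sq_le (((ca z hz').2.2.1 k i j).trans
    (mul_le_mul_of_nonneg_left (by linarith) C0))

end C3

theorem c3 (h : CalS) (hl : CLS) (hm : MatS) (hx : MaxS) : C3S := by
  intro ι _ _ r L hr
  obtain ⟨D, D0, hD⟩ := C3.core (ι := ι) h hl hm hx hr (abs_nonneg L)
  obtain ⟨M, hM⟩ : ∃ M, M = Fintype.card ι * (2 * D) * √(4 * r) := ⟨_, rfl⟩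
  have M0 : 0 ≤ M := by rw [hM]; positivity
  have N0 : 0 ≤ Fintype.card ι * (Fintype.card ι * (|L| * M) * |L|) := by positivity
  have L0 := abs_nonneg L
  refine ⟨|L| + M + Fintype.card ι * (Fintype.card ι * (|L| * M) * |L|), fun H ρ hH hρ he hb => ?_⟩
  have ab : ∀ {A : Mat ι}, Bd L A → Bd |L| A := fun h i j => (h i j).trans (le_abs_self L)
  have d := hD H ρ hH hρ he fun z hz => ⟨ab (hb z hz).1, ab (hb z hz).2.1, ab (hb z hz).2.2.1,
    fun k => ⟨ab ((hb z hz).2.2.2 k).1, ab ((hb z hz).2.2.2 k).2⟩⟩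
  have s3 : ball (0 : V ι) (2 * r) ⊆ closedBall 0 (3 * r) := fun z hz =>
    ball_subset_closedBall (ball_subset_ball (by linarith) hz)
  have s4 : ball (0 : V ι) (2 * r) ⊆ ball 0 (4 * r) := ball_subset_ball (by linarith)
  have lip : ∀ z ∈ ball (0 : V ι) (2 * r), ∀ w ∈ ball (0 : V ι) (2 * r),
      Bd (M * √‖z - w‖) (H z - H w) := fun z hz w hw i j => by
    have h1 := (convex_ball (0 : V ι) (2 * r)).norm_image_sub_le_of_norm_fderiv_le (𝕜 := ℝ)
      (f := fun x => H x i j) (fun x hx => C3.df (hH.1.1 x (s4 hx) i j))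
      (fun x hx => C3.norm_fd D0 (fun k => d x hx k i j) fun k => by
        have e : dzb (fun x => H x i j) k x = star (dM H k x j i) :=
          congrFun (congrFun (C3.dMb_eq isOpen_ball hH (s4 hx) k) i) j
        rw [e, norm_star]
        exact d x hx k j i) hw hz
    refine h1.trans ?_
    have h2 : ‖z - w‖ ≤ 4 * r := by
      have := norm_sub_le z w
      have := mem_ball_zero_iff.1 hz
      have := mem_ball_zero_iff.1 hw
      linarith
    rw [hM, mul_assoc _ √(4 * r)]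
    refine mul_le_mul_of_nonneg_left ?_ (by positivity)
    conv_lhs => rw [← Real.mul_self_sqrt (norm_nonneg (z - w))]
    exact mul_le_mul_of_nonneg_right (Real.sqrt_le_sqrt h2) (Real.sqrt_nonneg _)
  refine ⟨fun i j => ⟨fun z hz => (ab (hb z (s3 hz)).1 i j).trans (by linarith), fun z hz w hw =>
    (lip z hz w hw i j).trans (mul_le_mul_of_nonneg_right (by linarith) (Real.sqrt_nonneg _))⟩,
    fun i j => ⟨fun z hz => (ab (hb z (s3 hz)).2.1 i j).trans (by linarith), fun z hz w hw => ?_⟩⟩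
  have e : (H z)⁻¹ - (H w)⁻¹ = (H z)⁻¹ * (H w - H z) * (H w)⁻¹ := by
    rw [Matrix.mul_sub, Matrix.sub_mul, Matrix.mul_assoc,
      mul_nonsing_inv _ ((isUnit_iff_isUnit_det _).1 (hH.2 w (s4 hw)).isUnit),
      nonsing_inv_mul _ ((isUnit_iff_isUnit_det _).1 (hH.2 z (s4 hz)).isUnit), Matrix.mul_one,
      Matrix.one_mul]
  have := C3.bd_mul (C3.bd_mul (ab (hb z (s3 hz)).2.1) (lip w hw z hz)) (ab (hb w (s3 hw)).2.1) i j
  rw [← e, norm_sub_rev w z] at this
  refine this.trans ?_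
  have := mul_nonneg (add_nonneg L0 M0) (Real.sqrt_nonneg ‖z - w‖)
  nlinarith

end Pool.Agent.Lib.MP_813db1_ag.HS
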