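import Pool.Agent.Lib.MP_813db1_ag.HS.Stmt
import Pool.Agent.Lib.MP_813db1_ag.HS.Calc

/-! The Chern-Lu formula. -/

namespace Pool.Agent.Lib.MP_813db1_ag.HS

open Complex Matrix Filter Topology Set
open scoped ContDiff ComplexOrder

namespace CL

set_option linter.unusedSectionVars false

variable {ι : Type} [Fintype ι] [DecidableEq ι]

/-- the sesquilinear form on matrices. -/
noncomputable def ip (G H X Y : Mat ι) : ℂ := trace (X * G * Yᴴ * H⁻¹)

lemma ip_star {G H : Mat ι} (hG : G.IsHermitian) (hH : H.IsHermitian) (X Y : Mat ι) :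
    star (ip G H X Y) = ip G H Y X := by
  unfold ip
  rw [← trace_conjTranspose]
  simp only [conjTranspose_mul, conjTranspose_conjTranspose, hG.eq, hH.inv.eq]
  rw [trace_mul_comm]
  simp only [Matrix.mul_assoc]

lemma ip_self (hm : MatS) {G H : Mat ι} (hG : G.PosSemidef) (hH : H.PosDef) (X : Mat ι) :
    0 ≤ ip G H X X := by
  have h1 := hG.mul_mul_conjTranspose_same X
  unfold ip
  rw [(hm.real ι H _ hH.isHermitian h1.isHermitian).1]
  exact_mod_cast hm.trm_nonneg ι H _ hH h1

lemma gram (hm : MatS) {G H : Mat ι} (hG : G.PosSemidef) (hH : H.PosDef) {κ : Type} [Fintype κ]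
    (X : κ → Mat ι) : (Matrix.of fun k l => ip G H (X k) (X l)).PosSemidef := by
  refine PosSemidef.of_dotProduct_mulVec_nonneg ?_ fun x => ?_
  · ext k l
    simp only [conjTranspose_apply, of_apply]
    exact ip_star hG.isHermitian hH.isHermitian _ _
  · have h := ip_self hm hG hH (∑ k, star (x k) • X k)
    have e : ip G H (∑ k, star (x k) • X k) (∑ k, star (x k) • X k) =
        star x ⬝ᵥ (Matrix.of fun k l => ip G H (X k) (X l)) *ᵥ x := by
      unfold ip
      simp only [conjTranspose_sum, conjTranspose_smul, star_star, Matrix.sum_mul,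
        Matrix.smul_mul, Matrix.mul_smul, trace_sum, trace_smul, smul_eq_mul, dotProduct, mulVec,
        of_apply, Pi.star_apply, Finset.mul_sum]
      rw [Finset.sum_comm]
      refine Finset.sum_congr rfl fun k _ => Finset.sum_congr rfl fun l _ => by ring
    rwa [e] at h

lemma cs (hm : MatS) {G H : Mat ι} (hG : G.PosSemidef) (hH : H.PosDef) (X Y : Mat ι) :
    ‖ip G H X Y‖ ^ 2 ≤ (ip G H X X).re * (ip G H Y Y).re := by
  have h := (gram hm hG hH ![X, Y]).det_nonneg
  rw [det_fin_two] at h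
  simp only [of_apply, cons_val_zero, cons_val_one] at h
  rw [← ip_star hG.isHermitian hH.isHermitian X Y] at h
  have h1 := (Complex.nonneg_iff.mp (ip_self hm hG hH X)).2
  have h2 := (Complex.nonneg_iff.mp h).1
  have h3 : ip G H X Y * star (ip G H X Y) = ((‖ip G H X Y‖ ^ 2 : ℝ) : ℂ) := by
    rw [Complex.star_def, Complex.mul_conj, Complex.normSq_eq_norm_sq]
  rw [h3, Complex.sub_re, Complex.mul_re, ← h1, Complex.ofReal_re] at h2
  linarith

lemma trm_sub (H A B : Mat ι) : trm H (A - B) = trm H A - trm H B := by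
  simp [trm, Matrix.sub_mul, trace_sub]

lemma trm_smul (H A : Mat ι) (t : ℝ) : trm H ((t : ℂ) • A) = t * trm H A := by
  simp [trm, trace_smul]

lemma trm_of (H : Mat ι) (f : ι → ι → ℂ) :
    trm H (Matrix.of f) = (∑ k, ∑ l, H⁻¹ l k * f k l).re := by
  unfold trm
  congr 1
  simp only [trace, diag_apply, mul_apply, of_apply]
  exact Finset.sum_congr rfl fun k _ => Finset.sum_congr rfl fun l _ => mul_comm _ _

lemma ip_one (G H : Mat ι) : (ip G H 1 1).re = trm H G := by
  simp [ip, trm]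

lemma grad (hm : MatS) {G H : Mat ι} (hG : G.PosSemidef) (hH : H.PosDef) (A : ι → Mat ι) :
    (grL H (fun i => ip G H (A i) 1) (fun i => ip G H (A i) 1)).re ≤
      trm H G * trm H (Matrix.of fun k l => ip G H (A k) (A l)) := by
  have hM := gram hm hG hH A
  have hp : (((trm H G : ℝ) : ℂ) • (Matrix.of fun k l => ip G H (A k) (A l)) -
      Matrix.of fun k l => ip G H (A k) 1 * star (ip G H (A l) 1)).PosSemidef := by
    refine PosSemidef.of_dotProduct_mulVec_nonneg ?_ fun x => ?_
    · ext k l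
      simp only [conjTranspose_apply, of_apply, Matrix.sub_apply, Matrix.smul_apply, smul_eq_mul, star_sub,
        star_mul', star_star, ip_star hG.isHermitian hH.isHermitian (A l) (A k)]
      rw [mul_comm (star (ip G H (A l) 1))]
      simp
    · set Y : Mat ι := ∑ k, star (x k) • A k with hY
      have e1 : ip G H Y Y = star x ⬝ᵥ (Matrix.of fun k l => ip G H (A k) (A l)) *ᵥ x := by
        unfold ip
        simp only [hY, conjTranspose_sum, conjTranspose_smul, star_star, Matrix.sum_mul,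
          Matrix.smul_mul, Matrix.mul_smul, trace_sum, trace_smul, smul_eq_mul,
          dotProduct, mulVec, of_apply, Pi.star_apply, Finset.mul_sum]
        rw [Finset.sum_comm]
        refine Finset.sum_congr rfl fun k _ => Finset.sum_congr rfl fun l _ => by ring
      have e2 : ip G H Y 1 = ∑ k, star (x k) * ip G H (A k) 1 := by
        unfold ip
        simp only [hY, Matrix.sum_mul, Matrix.smul_mul, trace_sum, trace_smul, smul_eq_mul]
      have e3 : star x ⬝ᵥ (Matrix.of fun k l => ip G H (A k) 1 * star (ip G H (A l) 1)) *ᵥ x =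
          ip G H Y 1 * star (ip G H Y 1) := by
        rw [e2]
        simp only [dotProduct, mulVec, of_apply, Pi.star_apply, Finset.mul_sum, star_sum,
          star_mul', star_star, Finset.sum_mul]
        rw [Finset.sum_comm]
        refine Finset.sum_congr rfl fun k _ => Finset.sum_congr rfl fun l _ => by ring
      have h := cs hm hG hH Y 1
      rw [ip_one] at h
      have h1 := (Complex.nonneg_iff.mp (ip_self hm hG hH Y)).2
      rw [sub_mulVec, dotProduct_sub, smul_mulVec, dotProduct_smul, ← e1, e3, Complex.star_def,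
        Complex.mul_conj, Complex.normSq_eq_norm_sq, Complex.nonneg_iff]
      constructor
      · simp only [smul_eq_mul, Complex.sub_re, Complex.mul_re, Complex.ofReal_re,
          Complex.ofReal_im]
        nlinarith
      · simp only [smul_eq_mul, Complex.sub_im, Complex.mul_im, Complex.ofReal_re,
          Complex.ofReal_im, ← h1]
        ring
  have h := hm.trm_nonneg ι H _ hH hp
  rw [trm_sub, trm_smul, trm_of H fun k l => ip G H (A k) 1 * star (ip G H (A l) 1)] at h
  have e : grL H (fun i => ip G H (A i) 1) (fun i => ip G H (A i) 1) =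
      ∑ k, ∑ l, H⁻¹ l k * (ip G H (A k) 1 * star (ip G H (A l) 1)) := by
    unfold grL
    simp only [mul_assoc]
  rw [e]
  linarith

lemma diag_le {A B : Mat ι} {t : ℝ} (h : ((t : ℂ) • A - B).PosSemidef) (i : ι) :
    (B i i).re ≤ t * (A i i).re := by
  have := (Complex.nonneg_iff.mp (h.diag_nonneg (i := i))).1
  simp only [Matrix.sub_apply, Matrix.smul_apply, smul_eq_mul, Complex.sub_re, Complex.mul_re,
    Complex.ofReal_re, Complex.ofReal_im] at this
  linarith

lemma entry (hm : MatS) {G H : Mat ι} (hG : G.PosDef) (hH : H.PosDef) {L : ℝ} (hL : Bd L G)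
    (A : ι → Mat ι) (k i j : ι) :
    ‖(G * H⁻¹ * A k * G) i j‖ ^ 2 ≤
      |L| ^ 3 * trm G H * trm H G * trm H (Matrix.of fun k l => ip G H (A k) (A l)) := by
  have hM := gram hm hG.posSemidef hH A
  have hd : ∀ a, (G a a).re ≤ |L| := fun a =>
    (Complex.re_le_norm _).trans ((hL a a).trans (le_abs_self L))
  have hd0 : ∀ a, 0 ≤ (G a a).re := fun a =>
    (Complex.nonneg_iff.mp (hG.posSemidef.diag_nonneg (i := a))).1
  have hGu : IsUnit G.det := (Matrix.isUnit_iff_isUnit_det G).mp hG.isUnit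
  set c := trm H (Matrix.of fun k l => ip G H (A k) (A l)) with hc
  have c0 : 0 ≤ c := hm.trm_nonneg ι H _ hH hM
  have s0 : 0 ≤ trm G H := hm.trm_nonneg ι G H hG hH.posSemidef
  have t0 : 0 ≤ trm H G := hm.trm_nonneg ι H G hH hG.posSemidef
  have h1 : (ip G H (A k) (A k)).re ≤ c * (H k k).re := diag_le (hm.le_trm ι H _ hH hM) k
  have h2 : (H k k).re ≤ trm G H * (G k k).re := diag_le (hm.le_trm ι G H hG hH.posSemidef) k
  have hP : (G * H⁻¹ * G).PosSemidef := by
    have := hH.inv.posSemidef.mul_mul_conjTranspose_same G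
    rwa [hG.isHermitian.eq] at this
  have h3 : ((G * H⁻¹ * G) i i).re ≤ trm H G * (G i i).re := by
    have := diag_le (hm.le_trm ι G _ hG hP) i
    have e : trm G (G * H⁻¹ * G) = trm H G := by
      unfold trm
      rw [Matrix.mul_assoc, Matrix.mul_nonsing_inv G hGu, Matrix.mul_one]
    rwa [e] at this
  set Y : Mat ι := G * single i j 1 with hY
  have hYH : Yᴴ = single j i 1 * G := by
    rw [hY, conjTranspose_mul, hG.isHermitian.eq, conjTranspose_single, star_one]
  have e1 : ip G H (A k) Y = (G * H⁻¹ * A k * G) i j := by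
    unfold ip
    rw [hYH]
    have : A k * G * (single j i 1 * G) * H⁻¹ = A k * G * single j i 1 * (G * H⁻¹) := by
      simp only [Matrix.mul_assoc]
    rw [this, trace_mul_comm]
    have : G * H⁻¹ * (A k * G * single j i 1) = G * H⁻¹ * A k * G * single j i 1 := by
      simp only [Matrix.mul_assoc]
    rw [this, trace_mul_single]
    simp
  have e2 : ip G H Y Y = G j j * (G * H⁻¹ * G) i i := by
    unfold ip
    rw [hYH, hY]
    have : G * single i j 1 * G * (single j i 1 * G) * H⁻¹ =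
        G * (single i j 1 * G * single j i 1) * (G * H⁻¹) := by
      simp only [Matrix.mul_assoc]
    rw [this, single_mul_mul_single, trace_mul_comm]
    have : G * H⁻¹ * (G * single i i (1 * G j j * 1)) =
        G * H⁻¹ * G * single i i (1 * G j j * 1) := by
      simp only [Matrix.mul_assoc]
    rw [this, trace_mul_single]
    simp [mul_comm]
  have h4 : (ip G H Y Y).re = (G j j).re * ((G * H⁻¹ * G) i i).re := by
    rw [e2, Complex.mul_re, ← (Complex.nonneg_iff.mp (hG.posSemidef.diag_nonneg (i := j))).2]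
    ring
  have h := cs hm hG.posSemidef hH (A k) Y
  rw [e1, h4] at h
  have p0 : 0 ≤ ((G * H⁻¹ * G) i i).re := (Complex.nonneg_iff.mp (hP.diag_nonneg (i := i))).1
  have a1 : (ip G H (A k) (A k)).re ≤ c * (trm G H * |L|) :=
    h1.trans (mul_le_mul_of_nonneg_left (h2.trans (mul_le_mul_of_nonneg_left (hd k) s0)) c0)
  have a2 : (G j j).re * ((G * H⁻¹ * G) i i).re ≤ |L| * (trm H G * |L|) :=
    mul_le_mul (hd j) (h3.trans (mul_le_mul_of_nonneg_left (hd i) t0)) p0 (abs_nonneg L)
  calc _ ≤ _ := h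
    _ ≤ c * (trm G H * |L|) * (|L| * (trm H G * |L|)) :=
      mul_le_mul a1 a2 (mul_nonneg (hd0 j) p0) (by positivity)
    _ = _ := by ring

/-! matrix calculus -/

/-- smooth entries at a point. -/
def Sm (G : V ι → Mat ι) (z : V ι) : Prop := ∀ i j, ContDiffAt ℝ ∞ (fun w => G w i j) z

variable {G H : V ι → Mat ι} {z : V ι}

lemma Sm.d (h : Sm G z) (i j : ι) : DifferentiableAt ℝ (fun w => G w i j) z :=
  (h i j).differentiableAt (by simp)

lemma Sm.mul (h : Sm G z) (h' : Sm H z) : Sm (fun w => G w * H w) z := fun i j => by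
  simp only [mul_apply]
  exact ContDiffAt.sum fun a _ => (h i a).mul (h' a j)

lemma Sm.sub (h : Sm G z) (h' : Sm H z) : Sm (fun w => G w - H w) z := fun i j =>
  (h i j).sub (h' i j)

lemma Sm.det (h : Sm G z) : ContDiffAt ℝ ∞ (fun w => (G w).det) z := by
  simp only [det_apply']
  exact ContDiffAt.sum fun σ _ => contDiffAt_const.mul (contDiffAt_prod fun a _ => h _ _)

lemma Sm.inv (h : Sm G z) (h0 : (G z).det ≠ 0) : Sm (fun w => (G w)⁻¹) z := fun i j => by
  have e0 : (fun w => (G w)⁻¹ i j) =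
      fun w => (G w).det⁻¹ * ((G w).updateRow j (Pi.single i 1)).det := by
    funext w
    rw [Matrix.inv_def, Matrix.smul_apply, smul_eq_mul, Ring.inverse_eq_inv', adjugate_apply]
  rw [e0]
  refine (h.det.inv h0).mul (Sm.det fun a b => ?_)
  by_cases e : a = j
  · simp only [e, updateRow_self]
    exact contDiffAt_const
  · simp only [updateRow_ne e]
    exact h a b

lemma Sm.dM (h : Sm G z) (k : ι) : Sm (dM G k) z := fun i j => contDiffAt_dz_top (h i j) k

lemma Sm.gam (h : Sm G z) (h0 : (G z).det ≠ 0) (k : ι) : Sm (gam G k) z :=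
  (h.dM k).mul (h.inv h0)

lemma Sm.trace (h : Sm G z) : ContDiffAt ℝ ∞ (fun w => trace (G w)) z :=
  ContDiffAt.sum fun a _ => h a a

lemma dM_mul (h : Sm G z) (h' : Sm H z) (k : ι) :
    dM (fun w => G w * H w) k z = dM G k z * H z + G z * dM H k z := by
  ext i j
  simp only [dM, of_apply, mul_apply, Matrix.add_apply]
  rw [dz_sum _ fun a _ => (h.d i a).fun_mul (h'.d a j), ← Finset.sum_add_distrib]
  exact Finset.sum_congr rfl fun a _ => dz_mul (h.d i a) (h'.d a j) k

lemma dMb_mul (h : Sm G z) (h' : Sm H z) (k : ι) :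
    dMb (fun w => G w * H w) k z = dMb G k z * H z + G z * dMb H k z := by
  ext i j
  simp only [dMb, of_apply, mul_apply, Matrix.add_apply]
  rw [dzb_sum _ fun a _ => (h.d i a).fun_mul (h'.d a j), ← Finset.sum_add_distrib]
  exact Finset.sum_congr rfl fun a _ => dzb_mul (h.d i a) (h'.d a j) k

lemma dMb_sub (h : Sm G z) (h' : Sm H z) (k : ι) :
    dMb (fun w => G w - H w) k z = dMb G k z - dMb H k z := by
  ext i j
  exact dzb_sub (h.d i j) (h'.d i j) k

lemma dz_trace (h : Sm G z) (k : ι) : dz (fun w => trace (G w)) k z = trace (dM G k z) :=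
  dz_sum _ (fun a _ => h.d a a) k

lemma dzb_trace (h : Sm G z) (k : ι) : dzb (fun w => trace (G w)) k z = trace (dMb G k z) :=
  dzb_sum _ (fun a _ => h.d a a) k

lemma ev_inv (h : Sm G z) (h0 : (G z).det ≠ 0) : ∀ᶠ w in 𝓝 z, G w * (G w)⁻¹ = 1 :=
  (h.det.continuousAt.eventually_ne h0).mono fun _ e => mul_nonsing_inv _ (Ne.isUnit e)

lemma dM_inv (h : Sm G z) (h0 : (G z).det ≠ 0) (k : ι) :
    dM (fun w => (G w)⁻¹) k z = -((G z)⁻¹ * gam G k z) := by
  have e := dM_mul h (h.inv h0) k
  have e0 : dM (fun w => G w * (G w)⁻¹) k z = 0 := by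
    ext i j
    rw [dM, of_apply, dz_congr (g := fun _ => (1 : Mat ι) i j)
      ((ev_inv h h0).mono fun w e => by simp only [e]), dz_const, Matrix.zero_apply]
  rw [e0] at e
  have e2 := congrArg (fun X => (G z)⁻¹ * X) e
  simp only [Matrix.mul_add, Matrix.mul_zero] at e2
  rw [← Matrix.mul_assoc (G z)⁻¹ (G z), nonsing_inv_mul _ (Ne.isUnit h0), Matrix.one_mul] at e2
  exact (neg_eq_of_add_eq_zero_right e2.symm).symm

lemma dMb_inv (h : Sm G z) (h0 : (G z).det ≠ 0) (k : ι) :
    dMb (fun w => (G w)⁻¹) k z = -((G z)⁻¹ * (dMb G k z * (G z)⁻¹)) := by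
  have e := dMb_mul h (h.inv h0) k
  have e0 : dMb (fun w => G w * (G w)⁻¹) k z = 0 := by
    ext i j
    rw [dMb, of_apply, dzb_congr (g := fun _ => (1 : Mat ι) i j)
      ((ev_inv h h0).mono fun w e => by simp only [e]), dzb_const, Matrix.zero_apply]
  rw [e0] at e
  have e2 := congrArg (fun X => (G z)⁻¹ * X) e
  simp only [Matrix.mul_add, Matrix.mul_zero] at e2
  rw [← Matrix.mul_assoc (G z)⁻¹ (G z), nonsing_inv_mul _ (Ne.isUnit h0), Matrix.one_mul] at e2
  exact (neg_eq_of_add_eq_zero_right e2.symm).symm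

lemma dMb_herm (h : ∀ᶠ w in 𝓝 z, (G w).IsHermitian) (k : ι) : dMb G k z = (dM G k z)ᴴ := by
  ext i j
  rw [conjTranspose_apply, dMb, dM, of_apply, of_apply, ← dzb_star]
  exact dzb_congr (h.mono fun w e => (e.apply i j).symm) k

variable {U : Set (V ι)}

lemma det_ne (h : KOn G U) (hz : z ∈ U) : (G z).det ≠ 0 :=
  ((Matrix.isUnit_iff_isUnit_det _).mp (h.2 z hz).isUnit).ne_zero

lemma dM_eq (h : KOn G U) (hz : z ∈ U) (k : ι) : dM G k z = gam G k z * G z := by
  rw [gam, Matrix.mul_assoc, nonsing_inv_mul _ (det_ne h hz).isUnit, Matrix.mul_one]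

lemma dMb_eq (hU : IsOpen U) (h : KOn G U) (hz : z ∈ U) (k : ι) :
    dMb G k z = G z * (gam G k z)ᴴ := by
  rw [dMb_herm ((hU.eventually_mem hz).mono fun w e => h.1.2.1 w e), dM_eq h hz,
    conjTranspose_mul, (h.1.2.1 z hz).eq]

lemma dM_P (hG : KOn G U) (hH : KOn H U) (hz : z ∈ U) (k : ι) :
    dM (fun w => G w * (H w)⁻¹) k z =
      gam G k z * (G z * (H z)⁻¹) - G z * (H z)⁻¹ * gam H k z := by
  rw [dM_mul (hG.1.1 z hz) (Sm.inv (hH.1.1 z hz) (det_ne hH hz)),
    dM_inv (hH.1.1 z hz) (det_ne hH hz), dM_eq hG hz]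
  simp only [Matrix.mul_assoc, Matrix.mul_neg, sub_eq_add_neg]

lemma dMb_P (hU : IsOpen U) (hG : KOn G U) (hH : KOn H U) (hz : z ∈ U) (k : ι) :
    dMb (fun w => G w * (H w)⁻¹) k z = G z * (gam G k z - gam H k z)ᴴ * (H z)⁻¹ := by
  rw [dMb_mul (hG.1.1 z hz) (Sm.inv (hH.1.1 z hz) (det_ne hH hz)),
    dMb_inv (hH.1.1 z hz) (det_ne hH hz), dMb_eq hU hG hz, dMb_eq hU hH hz, conjTranspose_sub,
    Matrix.mul_assoc (H z), ← Matrix.mul_assoc (H z)⁻¹ (H z),
    nonsing_inv_mul _ (det_ne hH hz).isUnit, Matrix.one_mul]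
  simp only [Matrix.mul_assoc, Matrix.mul_neg, sub_eq_add_neg, Matrix.mul_add, Matrix.add_mul,
    Matrix.neg_mul]

lemma dz_tr (hG : KOn G U) (hH : KOn H U) (hz : z ∈ U) (k : ι) :
    dz (fun w => trace (G w * (H w)⁻¹)) k z =
      trace ((gam G k z - gam H k z) * (G z * (H z)⁻¹)) := by
  rw [dz_trace (Sm.mul (hG.1.1 z hz) (Sm.inv (hH.1.1 z hz) (det_ne hH hz))), dM_P hG hH hz,
    Matrix.sub_mul, trace_sub, trace_sub, trace_mul_comm _ (gam H k z)]

lemma levi_tr (hc : CurvS) (hU : IsOpen U) (hG : KOn G U) (hH : KOn H U) (hz : z ∈ U) (k l : ι) :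
    levi (fun w => trace (G w * (H w)⁻¹)) z k l =
      ip (G z) (H z) (gam G k z - gam H k z) (gam G l z - gam H l z) +
        trace ((Matrix.of fun i j => curv H z i j k l) * ((H z)⁻¹ * G z * (H z)⁻¹)) -
        trace ((Matrix.of fun i j => curv G z i j k l) * (H z)⁻¹) := by
  have hP : Sm (fun w => G w * (H w)⁻¹) z :=
    Sm.mul (hG.1.1 z hz) (Sm.inv (hH.1.1 z hz) (det_ne hH hz))
  have h1 : Sm (gam G k) z := Sm.gam (hG.1.1 z hz) (det_ne hG hz) k
  have h2 : Sm (gam H k) z := Sm.gam (hH.1.1 z hz) (det_ne hH hz) k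
  rw [levi, of_apply, dz_dzb_comm (hP.trace.of_le (WithTop.coe_le_coe.mpr le_top : ((2 : ℕ∞) : WithTop ℕ∞) ≤ ∞)),
    dzb_congr (g := fun w => trace ((gam G k w - gam H k w) * (G w * (H w)⁻¹)))
      ((hU.eventually_mem hz).mono fun w e => dz_tr hG hH e k),
    dzb_trace ((h1.sub h2).mul hP), dMb_mul (h1.sub h2) hP, dMb_sub h1 h2, dMb_P hU hG hH hz,
    hc.dbar_gam ι G U hU hG.1.1 (fun w e => det_ne hG e) z hz,
    hc.dbar_gam ι H U hU hH.1.1 (fun w e => det_ne hH e) z hz, ip]
  simp only [Matrix.sub_mul, Matrix.neg_mul, Matrix.mul_assoc, trace_add, trace_sub, trace_neg]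
  rw [← Matrix.mul_assoc (G z)⁻¹ (G z), nonsing_inv_mul _ (det_ne hG hz).isUnit, Matrix.one_mul]
  ring

lemma clT_eq (G H : V ι → Mat ι) (z : V ι) : clT G H z = trm (H z) (Matrix.of fun k l =>
    ip (G z) (H z) (gam G k z - gam H k z) (gam G l z - gam H l z)) := by
  rw [trm_of]
  rfl

end CL

open CL in
theorem cl (hc : CurvS) (hm : MatS) : CLS := by
  intro ι _ _ G H U hU hG hH z hz
  have hP : Sm (fun w => G w * (H w)⁻¹) z :=
    Sm.mul (hG.1.1 z hz) (Sm.inv (hH.1.1 z hz) (det_ne hH hz))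
  have ev : (fun w => (trm (H w) (G w) : ℂ)) =ᶠ[𝓝 z] fun w => trace (G w * (H w)⁻¹) :=
    (hU.eventually_mem hz).mono fun w e =>
      (hm.real ι (H w) (G w) (hH.1.2.1 w e) (hG.1.2.1 w e)).1.symm
  have hGp := hG.2 z hz
  have hHp := hH.2 z hz
  refine ⟨Complex.reCLM.contDiff.contDiffAt.comp z hP.trace, ?_, ?_, ?_⟩
  · have e1 : ∑ k, ∑ l, (H z)⁻¹ l k *
        trace ((Matrix.of fun i j => curv H z i j k l) * ((H z)⁻¹ * G z * (H z)⁻¹)) =
        trace (ric H z * (H z)⁻¹ * G z * (H z)⁻¹) := by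
      have : ric H z * (H z)⁻¹ * G z * (H z)⁻¹ = ric H z * ((H z)⁻¹ * G z * (H z)⁻¹) := by
        simp only [Matrix.mul_assoc]
      rw [this]
      generalize (H z)⁻¹ * G z * (H z)⁻¹ = N
      simp only [trace, diag_apply, mul_apply, of_apply, hc.ric_eq ι H U hU hH z hz,
        Finset.mul_sum, Finset.sum_mul]
      rw [Finset.sum_congr rfl fun k _ => Finset.sum_comm, Finset.sum_comm]
      refine Finset.sum_congr rfl fun i _ => ?_
      rw [Finset.sum_congr rfl fun k _ => Finset.sum_comm, Finset.sum_comm]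
      refine Finset.sum_congr rfl fun j _ => Finset.sum_congr rfl fun k _ =>
        Finset.sum_congr rfl fun l _ => ?_
      rw [(hc.sym ι H U hU hH z hz i j k l).1, (hc.sym ι H U hU hH z hz k j i l).2.1]
      ring
    have e2 : ∑ k, ∑ l, (H z)⁻¹ l k *
        trace ((Matrix.of fun i j => curv G z i j k l) * (H z)⁻¹) =
        ∑ i, ∑ j, ∑ k, ∑ l, (H z)⁻¹ j i * (H z)⁻¹ l k * curv G z i j k l := by
      simp only [trace, diag_apply, mul_apply, of_apply, Finset.mul_sum]
      rw [Finset.sum_congr rfl fun k _ => Finset.sum_comm, Finset.sum_comm]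
      refine Finset.sum_congr rfl fun i _ => ?_
      rw [Finset.sum_congr rfl fun k _ => Finset.sum_comm, Finset.sum_comm]
      refine Finset.sum_congr rfl fun j _ => Finset.sum_congr rfl fun k _ =>
        Finset.sum_congr rfl fun l _ => by ring
    have e3 : lapL H (fun w => (trm (H w) (G w) : ℂ)) z =
        ∑ k, ∑ l, (H z)⁻¹ l k * levi (fun w => trace (G w * (H w)⁻¹)) z k l := by
      rw [lapL, levi_congr ev]
      simp only [trace, diag_apply, mul_apply]
      exact Finset.sum_congr rfl fun k _ => Finset.sum_congr rfl fun l _ => mul_comm _ _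
    rw [e3]
    simp only [levi_tr hc hU hG hH hz, mul_add, mul_sub, Finset.sum_add_distrib,
      Finset.sum_sub_distrib]
    rw [e1, e2, Complex.sub_re, Complex.add_re]
    rfl
  · rw [clT_eq]
    exact hm.trm_nonneg ι _ _ hHp (gram hm hGp.posSemidef hHp _)
  · have e : (fun i => dz (fun w => (trm (H w) (G w) : ℂ)) i z) =
        fun i => ip (G z) (H z) (gam G i z - gam H i z) 1 := by
      funext i
      rw [dz_congr ev, dz_tr hG hH hz, ip, conjTranspose_one, Matrix.mul_one, Matrix.mul_assoc]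
    rw [e, clT_eq]
    exact grad hm hGp.posSemidef hHp _

open CL in
theorem cl2 (hm : MatS) : CL2S := by
  intro ι _ _ L
  refine ⟨|L| ^ 3, by positivity, fun G H U hU hG hH z hz hL _ k i j => ?_⟩
  have hP : Sm (fun w => G w * (H w)⁻¹) z :=
    Sm.mul (hG.1.1 z hz) (Sm.inv (hH.1.1 z hz) (det_ne hH hz))
  have e : dM (fun w => G w * (H w)⁻¹ * G w) k z - gam G k z * (G z * (H z)⁻¹ * G z) =
      G z * (H z)⁻¹ * (gam G k z - gam H k z) * G z := by
    rw [dM_mul hP (hG.1.1 z hz), dM_P hG hH hz, dM_eq hG hz]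
    simp only [Matrix.mul_assoc, Matrix.sub_mul, Matrix.mul_sub]
    abel
  rw [e, clT_eq]
  exact entry hm (hG.2 z hz) (hH.2 z hz) hL (fun k => gam G k z - gam H k z) k i j

end Pool.Agent.Lib.MP_813db1_ag.HS
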