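import Mathlib

/-! The algebra of the Calabi computation in a commutative ring with derivations. -/

namespace Pool.Agent.Lib.MP_813db1_ag.HS.Cal

open Matrix

variable {R : Type} [CommRing R] {ι : Type} [Fintype ι]

/-- the product rule. -/
def Lb (D : R →+ R) : Prop := ∀ a b, D (a * b) = D a * b + a * D b

/-- the entrywise derivation. -/
def dm (D : R →+ R) : Matrix ι ι R →+ Matrix ι ι R := D.mapMatrix

omit [Fintype ι] in
theorem dm_apply (D : R →+ R) (A : Matrix ι ι R) (i j : ι) : dm D A i j = D (A i j) := rfl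

theorem dm_mul {D : R →+ R} (h : Lb D) (A B : Matrix ι ι R) :
    dm D (A * B) = dm D A * B + A * dm D B := by
  ext i j
  simp only [dm_apply, Matrix.mul_apply, Matrix.add_apply, map_sum, h _ _, Finset.sum_add_distrib]

omit [Fintype ι] in
theorem dm_smul {D : R →+ R} (h : Lb D) (a : R) (A : Matrix ι ι R) :
    dm D (a • A) = D a • A + a • dm D A := by
  ext i j
  simp only [dm_apply, Matrix.smul_apply, Matrix.add_apply, smul_eq_mul, h _ _]

theorem dm_trace (D : R →+ R) (A : Matrix ι ι R) : D (trace A) = trace (dm D A) := by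
  simp only [trace, diag_apply, map_sum, dm_apply]

theorem Lb.one {D : R →+ R} (h : Lb D) : D 1 = 0 := by
  have := h 1 1
  simpa using this

omit [Fintype ι] in
theorem dm_one [DecidableEq ι] {D : R →+ R} (h : Lb D) : dm D (1 : Matrix ι ι R) = 0 := by
  ext i j
  rw [dm_apply, Matrix.one_apply]
  split_ifs
  · exact h.one
  · exact map_zero D

/-- the action of a matrix on tensors. -/
def act (T : ι → Matrix ι ι R) : Matrix ι ι R →ₗ[R] (ι → Matrix ι ι R) where
  toFun A := fun m => T m * A - A * T m - ∑ k, A m k • T k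
  map_add' A B := by
    funext m
    simp only [Matrix.mul_add, Matrix.add_mul, Matrix.add_apply, add_smul, Finset.sum_add_distrib,
      Pi.add_apply]
    abel
  map_smul' a A := by
    funext m
    simp only [Matrix.mul_smul, Matrix.smul_mul, Matrix.smul_apply, smul_eq_mul, mul_smul,
      RingHom.id_apply, Pi.smul_apply, smul_sub, Finset.smul_sum]

theorem act_apply (T : ι → Matrix ι ι R) (A : Matrix ι ι R) (m : ι) :
    act T A m = T m * A - A * T m - ∑ k, A m k • T k := rfl

/-- the derivation on tensors. -/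
def dT (D : R →+ R) (T : ι → Matrix ι ι R) : ι → Matrix ι ι R := fun k => dm D (T k)

/-- the covariant derivative. -/
def nab (D : R →+ R) (G : Matrix ι ι R) (T : ι → Matrix ι ι R) : ι → Matrix ι ι R :=
  dT D T + act T G

theorem dT_nab {D E : R →+ R} (h : Lb E) (c : ∀ a, E (D a) = D (E a)) (G : Matrix ι ι R)
    (T : ι → Matrix ι ι R) : dT E (nab D G T) = nab D G (dT E T) + act T (dm E G) := by
  funext m
  have e : dm E (dm D (T m)) = dm D (dm E (T m)) := by
    ext i j
    simp only [dm_apply, c]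
  simp only [dT, nab, Pi.add_apply, act_apply, map_add, map_sub, map_sum, dm_mul h, dm_smul h, e,
    dm_apply, Finset.sum_add_distrib]
  abel

variable [StarRing R]

/-- the product of two tensors. -/
def ip (H K : Matrix ι ι R) (T' : ι → Matrix ι ι R) : (ι → Matrix ι ι R) →ₗ[R] R where
  toFun T := ∑ k, ∑ l, K l k * trace (T k * H * (T' l)ᴴ * K)
  map_add' A B := by
    simp only [Pi.add_apply, Matrix.add_mul, trace_add, mul_add, Finset.sum_add_distrib]
  map_smul' a A := by
    simp only [Pi.smul_apply, Matrix.smul_mul, trace_smul, smul_eq_mul, RingHom.id_apply,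
      Finset.mul_sum, mul_left_comm]

theorem ip_apply (H K : Matrix ι ι R) (T T' : ι → Matrix ι ι R) :
    ip H K T' T = ∑ k, ∑ l, K l k * trace (T k * H * (T' l)ᴴ * K) := rfl

theorem ip_star {H K : Matrix ι ι R} (hH : Hᴴ = H) (hK : Kᴴ = K) (T T' : ι → Matrix ι ι R) :
    star (ip H K T' T) = ip H K T T' := by
  rw [ip_apply, ip_apply, star_sum, Finset.sum_comm]
  refine Finset.sum_congr rfl fun k _ => ?_
  rw [star_sum]
  refine Finset.sum_congr rfl fun l _ => ?_
  rw [star_mul', ← trace_conjTranspose, ← conjTranspose_apply, hK]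
  simp only [conjTranspose_mul, hK, hH, conjTranspose_conjTranspose]
  rw [trace_mul_comm]
  simp only [Matrix.mul_assoc]

omit [Fintype ι] in
theorem dm_star {D E : R →+ R} (h : ∀ a, D (star a) = star (E a)) (A : Matrix ι ι R) :
    dm D Aᴴ = (dm E A)ᴴ := by
  ext i j
  simp only [dm_apply, conjTranspose_apply, h]

theorem ip_der {D E : R →+ R} (h : Lb D) (hs : ∀ a, D (star a) = star (E a))
    {H K G : Matrix ι ι R} (h1 : dm D H = G * H) (h2 : dm D K = -(K * G))
    (T T' : ι → Matrix ι ι R) :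
    D (ip H K T' T) = ip H K T' (nab D G T) + ip H K (dT E T') T := by
  have e1 : ∑ k, ∑ l, D (K l k) * trace (T k * H * (T' l)ᴴ * K) =
      -∑ k, ∑ l, K l k * ∑ m, G k m * trace (T m * H * (T' l)ᴴ * K) := by
    simp only [← dm_apply, h2, Matrix.neg_apply, Matrix.mul_apply, neg_mul, Finset.sum_neg_distrib,
      Finset.sum_mul, Finset.mul_sum, neg_inj]
    rw [Finset.sum_comm]
    conv_rhs => rw [Finset.sum_comm]
    refine Finset.sum_congr rfl fun l _ => ?_
    rw [Finset.sum_comm]
    simp only [mul_assoc]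
  have e2 : ∀ k l, trace (T k * H * (T' l)ᴴ * K * G) = trace (G * T k * H * (T' l)ᴴ * K) := by
    intro k l
    rw [trace_mul_comm]
    simp only [Matrix.mul_assoc]
  have e3 : ∀ k l, D (trace (T k * H * (T' l)ᴴ * K)) =
      trace ((dm D (T k) + (T k * G - G * T k)) * H * (T' l)ᴴ * K) +
        trace (T k * H * (dm E (T' l))ᴴ * K) := by
    intro k l
    rw [dm_trace, dm_mul h, dm_mul h, dm_mul h, h1, h2, dm_star hs]
    simp only [add_mul, sub_mul, trace_add, trace_sub, mul_neg, trace_neg, ← mul_assoc, e2]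
    ring
  have e4 : ∀ k l, trace (nab D G T k * H * (T' l)ᴴ * K) =
      trace ((dm D (T k) + (T k * G - G * T k)) * H * (T' l)ᴴ * K) -
        ∑ m, G k m * trace (T m * H * (T' l)ᴴ * K) := by
    intro k l
    rw [nab, Pi.add_apply, act_apply, ← add_sub_assoc, sub_mul, sub_mul, sub_mul, trace_sub]
    simp only [Finset.sum_mul, Matrix.smul_mul, trace_sum, trace_smul, smul_eq_mul, dT]
  simp only [ip_apply, map_sum, h _ _, e3, e4, mul_add, mul_sub, Finset.sum_add_distrib,
    Finset.sum_sub_distrib, e1, dT]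
  ring

theorem ip_der' {D E : R →+ R} (h : Lb D) (hs : ∀ a, D (star a) = star (E a))
    {H K G : Matrix ι ι R} (hH : Hᴴ = H) (hK : Kᴴ = K) (h1 : dm D H = G * H)
    (h2 : dm D K = -(K * G)) (T T' : ι → Matrix ι ι R) :
    E (ip H K T' T) = ip H K T' (dT E T) + ip H K (nab D G T') T := by
  rw [← star_star (E _), ← hs, ip_star hH hK, ip_der h hs h1 h2, star_add, ip_star hH hK,
    ip_star hH hK, add_comm]

theorem ip_right {H K : Matrix ι ι R} (hH : Hᴴ = H) (hK : Kᴴ = K) (T : ι → Matrix ι ι R)
    (X : ι → ι → ι → Matrix ι ι R) :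
    ∑ p, ∑ q, K q p * ip H K (X q p) T = ip H K (∑ p, ∑ q, K q p • X p q) T := by
  rw [← ip_star hH hK (∑ p, ∑ q, K q p • X p q), Finset.sum_comm]
  simp only [map_sum, map_smul, star_sum, smul_eq_mul, star_mul', ip_star hH hK]
  refine Finset.sum_congr rfl fun p _ => Finset.sum_congr rfl fun q _ => ?_
  rw [← conjTranspose_apply, hK]

theorem ip_add_right {H K : Matrix ι ι R} (T A B : ι → Matrix ι ι R) :
    ip H K (A + B) T = ip H K A T + ip H K B T := by
  simp only [ip_apply, Pi.add_apply, conjTranspose_add, Matrix.add_mul, trace_add,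
    mul_add, Finset.sum_add_distrib]

theorem ip_map {S : Type} [CommRing S] [StarRing S] (φ : R →+* S)
    (hφ : ∀ a, φ (star a) = star (φ a)) (H K : Matrix ι ι R) (T T' : ι → Matrix ι ι R) :
    φ (ip H K T' T) = ip (H.map φ) (K.map φ) (fun k => (T' k).map φ) fun k => (T k).map φ := by
  simp only [ip_apply, map_sum, map_mul, trace, diag_apply, Matrix.mul_apply, conjTranspose_apply,
    hφ, map_apply]

omit [StarRing R] in
theorem act_map {S : Type} [CommRing S] (φ : R →+* S) (T : ι → Matrix ι ι R) (A : Matrix ι ι R) :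
    (fun k => (act T A k).map φ) = act (fun k => (T k).map φ) (A.map φ) := by
  ext k i j
  simp only [act_apply, map_apply, Matrix.sub_apply, Matrix.mul_apply, Matrix.sum_apply,
    Matrix.smul_apply, smul_eq_mul, map_sub, map_sum, map_mul]

variable [DecidableEq ι]

/-- a Kaehler metric in a ring with derivations. -/
structure Dat (D E : ι → R →+ R) (H K ρ : Matrix ι ι R) (G : ι → Matrix ι ι R) : Prop where
  lbD : ∀ k, Lb (D k)
  lbE : ∀ k, Lb (E k)
  st : ∀ k a, D k (star a) = star (E k a)
  de : ∀ k l a, E l (D k a) = D k (E l a)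
  dd : ∀ k l a, D l (D k a) = D k (D l a)
  hk : H * K = 1
  he : Hᴴ = H
  ga : ∀ k, G k = dm (D k) H * K
  cl : ∀ i j k, D k (H i j) = D i (H k j)
  ri : ∑ p, ∑ q, K q p • dm (E q) (G p) = 1 - ρ * K

namespace Dat

variable {D E : ι → R →+ R} {H K ρ : Matrix ι ι R} {G : ι → Matrix ι ι R}
  (h : Dat D E H K ρ G)
include h

theorem kh : K * H = 1 := mul_eq_one_comm.1 h.hk

theorem ke : Kᴴ = K := by
  have := congrArg conjTranspose h.hk
  rw [conjTranspose_mul, h.he, conjTranspose_one] at this
  rw [← Matrix.mul_one Kᴴ, ← h.hk, ← Matrix.mul_assoc, this, Matrix.one_mul]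

theorem dH (k : ι) : dm (D k) H = G k * H := by
  rw [h.ga, Matrix.mul_assoc, h.kh, Matrix.mul_one]

theorem dK (k : ι) : dm (D k) K = -(K * G k) := by
  have := congrArg (fun A => K * dm (D k) A) h.hk
  simp only [dm_mul (h.lbD k), dm_one (h.lbD k), Matrix.mul_zero, Matrix.mul_add] at this
  rw [← Matrix.mul_assoc K H, h.kh, Matrix.one_mul, ← h.ga] at this
  exact eq_neg_of_add_eq_zero_right this

theorem sym (p k m : ι) : G p k m = G k p m := by
  simp only [h.ga, Matrix.mul_apply, dm_apply, h.cl k _ p]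

theorem flat (k l : ι) : dm (D k) (G l) + G l * G k = dm (D l) (G k) + G k * G l := by
  have e : dm (D k) (dm (D l) H) = dm (D l) (dm (D k) H) := by
    ext i j
    simp only [dm_apply, h.dd l k]
  have e1 : ∀ k l, dm (D k) (G l) + G l * G k = dm (D k) (dm (D l) H) * K := fun k l => by
    conv_lhs => rw [h.ga l, dm_mul (h.lbD k), h.dK, Matrix.mul_neg, Matrix.mul_assoc]
    abel
  rw [e1, e1, e]

theorem bianchi (k p q : ι) :
    dm (D p) (dm (E q) (G k)) + dm (E q) (G k) * G p - G p * dm (E q) (G k) =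
      dm (D k) (dm (E q) (G p)) + dm (E q) (G p) * G k - G k * dm (E q) (G p) := by
  have e : ∀ k A, dm (E q) (dm (D k) A) = dm (D k) (dm (E q) A : Matrix ι ι R) := fun k A => by
    ext i j
    simp only [dm_apply, h.de]
  have := congrArg (dm (E q)) (h.flat p k)
  simp only [map_add, dm_mul (h.lbE q), e] at this
  linear_combination (norm := abel_nf) this

theorem wk : ∑ p, ∑ q, K q p • nab (D p) (G p) (dT (E q) G) =
    fun k => (G k * ρ - dm (D k) ρ) * K := by
  funext k
  have e1 : dm (D k) (1 - ρ * K) + (1 - ρ * K) * G k - G k * (1 - ρ * K) =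
      (G k * ρ - dm (D k) ρ) * K := by
    rw [map_sub, dm_one (h.lbD k), dm_mul (h.lbD k), h.dK]
    noncomm_ring
  have e2 : ∑ p, ∑ q, D k (K q p) • dm (E q) (G p) =
      -∑ p, ∑ q, K q p • ∑ m, G p k m • dm (E q) (G m) := by
    simp only [← dm_apply, h.dK, Matrix.neg_apply, Matrix.mul_apply, neg_smul,
      Finset.sum_neg_distrib, Finset.sum_smul, Finset.smul_sum, neg_inj, h.sym _ k, smul_smul]
    rw [Finset.sum_comm]
    conv_rhs => rw [Finset.sum_comm]
    refine Finset.sum_congr rfl fun l _ => ?_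
    rw [Finset.sum_comm]
  have e3 : ∀ p q, nab (D p) (G p) (dT (E q) G) k = dm (D k) (dm (E q) (G p)) +
      dm (E q) (G p) * G k - G k * dm (E q) (G p) - ∑ m, G p k m • dm (E q) (G m) := fun p q => by
    rw [← h.bianchi]
    simp only [nab, dT, Pi.add_apply, act_apply]
    abel
  rw [← e1, ← h.ri]
  simp only [Finset.sum_apply, Pi.smul_apply, e3, map_sum, dm_smul (h.lbD k),
    Finset.sum_add_distrib, e2, smul_sub, smul_add, Finset.sum_sub_distrib, Finset.sum_mul,
    Finset.mul_sum, Matrix.smul_mul, Matrix.mul_smul]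
  abel

theorem zeroth : ip H K G G = ∑ k, ∑ l, K l k * trace (dm (D k) H * K * dm (E l) H * K) := by
  have e : ∀ l, H * (G l)ᴴ = dm (E l) H := fun l => by
    have := dm_star (h.st l) H
    rw [h.he, h.dH] at this
    rw [← conjTranspose_conjTranspose (dm (E l) H), ← this, conjTranspose_mul, h.he]
  simp only [ip_apply, ← h.ga, ← e, Matrix.mul_assoc (G _) H]

theorem first (i : ι) :
    D i (ip H K G G) = ip H K G (nab (D i) (G i) G) + ip H K (dT (E i) G) G :=
  ip_der (h.lbD i) (h.st i) (h.dH i) (h.dK i) G G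

theorem second : ∑ p, ∑ q, D p (E q (ip H K G G)) * K q p =
    ip H K G (fun k => (G k * ρ - dm (D k) ρ) * K) +
      ip H K (fun k => (G k * ρ - dm (D k) ρ) * K) G + ip H K (act G (1 - ρ * K)) G +
      ∑ p, ∑ q, K q p * ip H K (dT (E p) G) (dT (E q) G) +
      ∑ p, ∑ q, K q p * ip H K (nab (D q) (G q) G) (nab (D p) (G p) G) := by
  have e : ∀ p q, D p (E q (ip H K G G)) * K q p =
      K q p * ip H K G (nab (D p) (G p) (dT (E q) G)) +
      K q p * ip H K (nab (D q) (G q) (dT (E p) G)) G +
      K q p * ip H K (act G (dm (E p) (G q))) G +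
      K q p * ip H K (dT (E p) G) (dT (E q) G) +
      K q p * ip H K (nab (D q) (G q) G) (nab (D p) (G p) G) := fun p q => by
    rw [ip_der' (h.lbD q) (h.st q) h.he h.ke (h.dH q) (h.dK q), map_add,
      ip_der (h.lbD p) (h.st p) (h.dH p) (h.dK p), ip_der (h.lbD p) (h.st p) (h.dH p) (h.dK p),
      dT_nab (h.lbE p) (h.de q p), ip_add_right]
    ring
  simp only [e, Finset.sum_add_distrib]
  rw [ip_right h.he h.ke G fun q p => nab (D q) (G q) (dT (E p) G),
    ip_right h.he h.ke G fun q p => act G (dm (E p) (G q)), h.wk, ← h.wk, ← h.ri]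
  simp only [map_sum, map_smul, smul_eq_mul]

end Dat

end Pool.Agent.Lib.MP_813db1_ag.HS.Cal
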