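import Pool.Agent.Lib.MP_813db1_ag.HS.Defs
import Pool.Agent.Lib.MP_813db1_ag.HS.Cal_Alg

/-! The ring of smooth germs with its Wirtinger derivations. -/

namespace Pool.Agent.Lib.MP_813db1_ag.HS.Cal

open Matrix Filter Topology
open scoped ContDiff

noncomputable section

variable {ι : Type} [Fintype ι]

/-- smooth germs. -/
def Sm (z : V ι) : Subring (Germ (𝓝 z) ℂ) where
  carrier := {g | ∃ f : V ι → ℂ, ContDiffAt ℝ ∞ f z ∧ g = (f : Germ (𝓝 z) ℂ)}
  mul_mem' := by
    rintro _ _ ⟨f, hf, rfl⟩ ⟨g, hg, rfl⟩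
    exact ⟨f * g, hf.mul hg, rfl⟩
  one_mem' := ⟨1, contDiffAt_const, rfl⟩
  add_mem' := by
    rintro _ _ ⟨f, hf, rfl⟩ ⟨g, hg, rfl⟩
    exact ⟨f + g, hf.add hg, rfl⟩
  zero_mem' := ⟨0, contDiffAt_const, rfl⟩
  neg_mem' := by
    rintro _ ⟨f, hf, rfl⟩
    exact ⟨-f, hf.neg, rfl⟩

variable {z : V ι}

/-- `f` represents the germ `g`. -/
def Rep (g : Sm z) (f : V ι → ℂ) : Prop := g.1 = (f : Germ (𝓝 z) ℂ)

theorem rep_ex (g : Sm z) : ∃ f, Rep g f := g.2.imp fun _ h => h.2

theorem rep_of {f : V ι → ℂ} (h : ContDiffAt ℝ ∞ f z) : ∃ g : Sm z, Rep g f :=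
  ⟨⟨f, f, h, rfl⟩, rfl⟩

variable {g g' : Sm z} {f f' : V ι → ℂ}

theorem Rep.eq (h : Rep g f) (h' : Rep g f') : f =ᶠ[𝓝 z] f' := Germ.coe_eq.1 (h.symm.trans h')

theorem Rep.sm (h : Rep g f) : ContDiffAt ℝ ∞ f z := by
  obtain ⟨f0, h0, e⟩ := g.2
  exact h0.congr_of_eventuallyEq (h.eq e)

theorem Rep.congr (h : Rep g f) (e : f =ᶠ[𝓝 z] f') : Rep g f' := h.trans (Germ.coe_eq.2 e)

theorem Rep.ext (h : Rep g f) (h' : Rep g' f') (e : f =ᶠ[𝓝 z] f') : g = g' :=
  Subtype.ext ((h.congr e).trans h'.symm)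

theorem Rep.add (h : Rep g f) (h' : Rep g' f') : Rep (g + g') fun w => f w + f' w :=
  congrArg₂ (· + ·) h h'

theorem Rep.sub (h : Rep g f) (h' : Rep g' f') : Rep (g - g') fun w => f w - f' w :=
  congrArg₂ (· - ·) h h'

theorem Rep.mul (h : Rep g f) (h' : Rep g' f') : Rep (g * g') fun w => f w * f' w :=
  congrArg₂ (· * ·) h h'

theorem rep_zero : Rep (0 : Sm z) fun _ => 0 := rfl

theorem rep_one : Rep (1 : Sm z) fun _ => 1 := rfl

theorem rep_sum {κ : Type} (s : Finset κ) {a : κ → Sm z} {b : κ → V ι → ℂ}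
    (h : ∀ k, Rep (a k) (b k)) : Rep (∑ k ∈ s, a k) fun w => ∑ k ∈ s, b k w := by
  classical
  induction s using Finset.induction_on with
  | empty => simpa using rep_zero
  | insert k s hk ih =>
    simp only [Finset.sum_insert hk]
    exact (h k).add ih

/-- constants. -/
def cst (z : V ι) (c : ℂ) : Sm z := ⟨(fun _ => c : V ι → ℂ), _, contDiffAt_const, rfl⟩

theorem rep_cst (c : ℂ) : Rep (cst z c) fun _ => c := rfl

theorem sm_star (h : ContDiffAt ℝ ∞ f z) : ContDiffAt ℝ ∞ (fun w => star (f w)) z :=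
  Complex.conjCLE.contDiff.contDiffAt.comp z h

instance : Star (Sm z) := ⟨fun g => ⟨g.1.map star, by
  obtain ⟨f, h, e⟩ := g.2
  exact ⟨_, sm_star h, by rw [e]; rfl⟩⟩⟩

theorem Rep.star (h : Rep g f) : Rep (star g) fun w => star (f w) :=
  congrArg (Germ.map Star.star) h

instance : StarRing (Sm z) where
  star_involutive g := by
    obtain ⟨f, h⟩ := rep_ex g
    exact h.star.star.ext h (Eventually.of_forall fun w => star_star _)
  star_mul g g' := by
    obtain ⟨f, h⟩ := rep_ex g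
    obtain ⟨f', h'⟩ := rep_ex g'
    exact (h.mul h').star.ext (h'.star.mul h.star) (Eventually.of_forall fun w => star_mul _ _)
  star_add g g' := by
    obtain ⟨f, h⟩ := rep_ex g
    obtain ⟨f', h'⟩ := rep_ex g'
    exact (h.add h').star.ext (h.star.add h'.star) (Eventually.of_forall fun w => star_add _ _)

/-- the value of a germ. -/
def ev (z : V ι) : Sm z →+* ℂ := Germ.valueRingHom.comp (Sm z).subtype

theorem Rep.ev (h : Rep g f) : ev z g = f z := congrArg Germ.value h

theorem ev_star (g : Sm z) : ev z (star g) = star (ev z g) := by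
  obtain ⟨f, h⟩ := rep_ex g
  rw [h.ev, h.star.ev]

theorem sm_del (h : ContDiffAt ℝ ∞ f z) (v : V ι) :
    ContDiffAt ℝ ∞ (fun w => fderiv ℝ f w v) z :=
  (h.fderiv_right (m := ∞) le_rfl).clm_apply contDiffAt_const

/-- the derivative in the direction `v`. -/
def del0 (v : V ι) (g : Sm z) : Sm z :=
  ⟨Germ.map' (fun (f : V ι → ℂ) w => fderiv ℝ f w v)
    (fun _ _ e => (EventuallyEq.fderiv (𝕜 := ℝ) e).mono fun _ h => congrArg (· v) h) g.1, by
    obtain ⟨f, h, e⟩ := g.2
    exact ⟨_, sm_del h v, by rw [e]; rfl⟩⟩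

theorem Rep.del0 (h : Rep g f) (v : V ι) : Rep (del0 v g) fun w => fderiv ℝ f w v := by
  rw [Rep] at h ⊢
  simp only [Cal.del0, h, Germ.map'_coe]

theorem Rep.two (h : Rep g f) : ∀ᶠ w in 𝓝 z, ContDiffAt ℝ 2 f w :=
  (h.sm.of_le (WithTop.coe_le_coe.2 le_top)).eventually (by simp)

theorem Rep.dif (h : Rep g f) : ∀ᶠ w in 𝓝 z, DifferentiableAt ℝ f w :=
  h.two.mono fun _ a => a.differentiableAt (by simp)

/-- the derivative in the direction `v` as an additive map. -/
def del (v : V ι) : Sm z →+ Sm z := AddMonoidHom.mk' (del0 v) fun g g' => by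
  obtain ⟨f, h⟩ := rep_ex g
  obtain ⟨f', h'⟩ := rep_ex g'
  refine ((h.add h').del0 v).ext ((h.del0 v).add (h'.del0 v)) ?_
  filter_upwards [h.dif, h'.dif] with w a b
  rw [fderiv_fun_add a b]
  rfl

theorem Rep.del (h : Rep g f) (v : V ι) : Rep (del v g) fun w => fderiv ℝ f w v := h.del0 v

theorem lb_del (v : V ι) : Lb (del v : Sm z →+ Sm z) := fun g g' => by
  obtain ⟨f, h⟩ := rep_ex g
  obtain ⟨f', h'⟩ := rep_ex g'
  refine ((h.mul h').del v).ext (((h.del v).mul h').add (h.mul (h'.del v))) ?_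
  filter_upwards [h.dif, h'.dif] with w a b
  rw [fderiv_fun_mul a b]
  simp only [_root_.add_apply, _root_.smul_apply, smul_eq_mul]
  ring

theorem del_cst (v : V ι) (c : ℂ) : del v (cst z c) = 0 :=
  ((rep_cst c).del v).ext rep_zero (Eventually.of_forall fun w => by simp)

theorem del_cmul (v : V ι) (c : ℂ) (g : Sm z) : del v (cst z c * g) = cst z c * del v g := by
  rw [lb_del, del_cst, zero_mul, zero_add]

theorem del_comm (u v : V ι) (g : Sm z) : del u (del v g) = del v (del u g) := by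
  obtain ⟨f, h⟩ := rep_ex g
  refine ((h.del v).del u).ext ((h.del u).del v) ?_
  filter_upwards [h.two] with w a
  have d : DifferentiableAt ℝ (fderiv ℝ f) w :=
    (a.fderiv_right (m := 1) le_rfl).differentiableAt (by simp)
  have e : ∀ u v : V ι, fderiv ℝ (fun w => fderiv ℝ f w v) w u = fderiv ℝ (fderiv ℝ f) w u v :=
    fun u v => by
      rw [fderiv_clm_apply d (differentiableAt_const v)]
      simp
  rw [e, e]
  exact a.isSymmSndFDerivAt (by simp) u v

theorem del_star (v : V ι) (g : Sm z) : del v (star g) = star (del v g) := by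
  obtain ⟨f, h⟩ := rep_ex g
  refine (h.star.del v).ext (h.del v).star ?_
  filter_upwards [h.dif] with w a
  exact congrArg (· v) (Complex.conjCLE.hasFDerivAt.comp w a.hasFDerivAt).fderiv

variable [DecidableEq ι]

/-- the Wirtinger derivatives. -/
def dd (c : ℂ) (k : ι) : Sm z →+ Sm z := AddMonoidHom.mk'
  (fun g => cst z (1 / 2) * (del (Pi.single k 1) g + cst z c * del (Pi.single k Complex.I) g))
  fun g g' => by
    simp only [map_add]
    ring

theorem dd_apply (c : ℂ) (k : ι) (g : Sm z) : dd c k g =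
    cst z (1 / 2) * (del (Pi.single k 1) g + cst z c * del (Pi.single k Complex.I) g) := rfl

theorem lb_dd (c : ℂ) (k : ι) : Lb (dd c k : Sm z →+ Sm z) := fun g g' => by
  simp only [dd_apply, lb_del _ g g']
  ring

theorem dd_comm (c c' : ℂ) (k l : ι) (g : Sm z) : dd c k (dd c' l g) = dd c' l (dd c k g) := by
  simp only [dd_apply, del_cmul, map_add]
  rw [del_comm (Pi.single k 1), del_comm (Pi.single k 1), del_comm (Pi.single k Complex.I),
    del_comm (Pi.single k Complex.I)]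
  ring

theorem dd_star (k : ι) (g : Sm z) : dd (-Complex.I) k (star g) = star (dd Complex.I k g) := by
  have e : ∀ c, star (cst z c) = cst z (star c) := fun c => (rep_cst c).star.ext (rep_cst _) .rfl
  simp only [dd_apply, star_mul', star_add, del_star, e]
  simp

theorem Rep.dz (h : Rep g f) (k : ι) : Rep (dd (-Complex.I) k g) (dz f k) :=
  ((rep_cst _).mul ((h.del _).add ((rep_cst _).mul (h.del _)))).congr
    (Eventually.of_forall fun w => by simp only [HS.dz]; ring)

theorem Rep.dzb (h : Rep g f) (k : ι) : Rep (dd Complex.I k g) (dzb f k) :=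
  ((rep_cst _).mul ((h.del _).add ((rep_cst _).mul (h.del _)))).congr
    (Eventually.of_forall fun w => by simp only [HS.dzb]; ring)

/-- `F` represents the matrix of germs `A`. -/
def RepM (A : Matrix ι ι (Sm z)) (F : V ι → Mat ι) : Prop := ∀ i j, Rep (A i j) fun w => F w i j

variable {A A' : Matrix ι ι (Sm z)} {F F' : V ι → Mat ι}

omit [DecidableEq ι] in
theorem repM_of (h : ∀ i j, ContDiffAt ℝ ∞ (fun w => F w i j) z) :
    ∃ A : Matrix ι ι (Sm z), RepM A F := by
  choose A hA using fun i j => rep_of (h i j)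
  exact ⟨Matrix.of A, hA⟩

omit [DecidableEq ι] in
theorem RepM.ext (h : RepM A F) (h' : RepM A' F') (e : ∀ᶠ w in 𝓝 z, F w = F' w) : A = A' :=
  Matrix.ext fun i j => (h i j).ext (h' i j) (e.mono fun _ a => congrFun (congrFun a i) j)

omit [DecidableEq ι] in
theorem RepM.ev (h : RepM A F) : A.map (ev z) = F z := Matrix.ext fun i j => (h i j).ev

omit [DecidableEq ι] in
theorem RepM.mul (h : RepM A F) (h' : RepM A' F') : RepM (A * A') fun w => F w * F' w :=
  fun i j => rep_sum _ fun k => (h i k).mul (h' k j)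

omit [DecidableEq ι] in
theorem RepM.sub (h : RepM A F) (h' : RepM A' F') : RepM (A - A') fun w => F w - F' w :=
  fun i j => (h i j).sub (h' i j)

omit [DecidableEq ι] in
theorem RepM.ct (h : RepM A F) : RepM Aᴴ fun w => (F w)ᴴ := fun i j => (h j i).star

omit [DecidableEq ι] in
theorem RepM.trace (h : RepM A F) : Rep (trace A) fun w => trace (F w) :=
  rep_sum _ fun i => h i i

theorem repM_one : RepM (1 : Matrix ι ι (Sm z)) fun _ => 1 := fun i j => by
  simp only [Matrix.one_apply]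
  split_ifs
  exacts [rep_one, rep_zero]

theorem RepM.dM (h : RepM A F) (k : ι) : RepM (dm (dd (-Complex.I) k) A) (dM F k) :=
  fun i j => (h i j).dz k

theorem RepM.dMb (h : RepM A F) (k : ι) : RepM (dm (dd Complex.I k) A) (dMb F k) :=
  fun i j => (h i j).dzb k

theorem sm_det (h : ∀ i j, ContDiffAt ℝ ∞ (fun w => F w i j) z) :
    ContDiffAt ℝ ∞ (fun w => (F w).det) z := by
  simp only [Matrix.det_apply']
  exact ContDiffAt.sum fun σ _ => contDiffAt_const.mul (contDiffAt_prod fun i _ => h _ _)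

theorem sm_inv (h : ∀ i j, ContDiffAt ℝ ∞ (fun w => F w i j) z) (h0 : (F z).det ≠ 0) (i j : ι) :
    ContDiffAt ℝ ∞ (fun w => (F w)⁻¹ i j) z := by
  simp only [Matrix.inv_def, Ring.inverse_eq_inv', Matrix.smul_apply, smul_eq_mul, adjugate_apply]
  refine ((sm_det h).inv h0).mul (sm_det fun a b => ?_)
  simp only [updateRow_apply]
  split_ifs
  exacts [contDiffAt_const, h a b]

end

end Pool.Agent.Lib.MP_813db1_ag.HS.Cal
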