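import Pool.Agent.Lib.MP_813db1_ag.HS.Cal_Est
import Pool.Agent.Lib.MP_813db1_ag.HS.Cal_Germ

/-! The Calabi computation. -/

namespace Pool.Agent.Lib.MP_813db1_ag.HS

open Matrix Filter Topology
open scoped ContDiff ComplexOrder

namespace Cal

variable {ι : Type} [Fintype ι] [DecidableEq ι]

theorem ric_sum (hc : CurvS) {H : V ι → Mat ι} {U : Set (V ι)} (hU : IsOpen U) (hH : KOn H U)
    {w : V ι} (hw : w ∈ U) :
    ∑ p, ∑ q, (H w)⁻¹ q p • dMb (gam H p) q w = -ric H w * (H w)⁻¹ := by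
  have d : ∀ w ∈ U, (H w).det ≠ 0 := fun w hw =>
    ((isUnit_iff_isUnit_det _).1 (hH.2 w hw).isUnit).ne_zero
  have e : ric H w = ∑ p, ∑ q, (H w)⁻¹ q p • Matrix.of fun i j => curv H w i j p q := by
    ext i j
    rw [hc.ric_eq ι H U hU hH w hw]
    simp only [Matrix.sum_apply, Matrix.smul_apply, Matrix.of_apply, smul_eq_mul]
    refine Finset.sum_congr rfl fun p _ => Finset.sum_congr rfl fun q _ => ?_
    rw [(hc.sym ι H U hU hH w hw i j p q).1, (hc.sym ι H U hU hH w hw p j i q).2.1]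
  simp only [hc.dbar_gam ι H U hU hH.1.1 d w hw, e, neg_mul, Finset.sum_mul, Matrix.smul_mul,
    smul_neg, Finset.sum_neg_distrib]

theorem dat (hc : CurvS) {H ρ : V ι → Mat ι} {U : Set (V ι)} (hU : IsOpen U) (hH : KOn H U)
    (hr : ∀ w ∈ U, ric H w = ρ w - H w) {z : V ι} (hz : z ∈ U) {A K P : Matrix ι ι (Sm z)}
    (a : RepM A H) (k : RepM K fun w => (H w)⁻¹) (p : RepM P ρ) :
    Dat (dd (-Complex.I)) (dd Complex.I) A K P fun i => dm (dd (-Complex.I) i) A * K := by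
  have n : ∀ᶠ w in 𝓝 z, w ∈ U := hU.mem_nhds hz
  have u : ∀ w ∈ U, IsUnit (H w).det := fun w hw =>
    (isUnit_iff_isUnit_det _).1 (hH.2 w hw).isUnit
  refine ⟨lb_dd _, lb_dd _, dd_star, fun _ _ _ => dd_comm .., fun _ _ _ => dd_comm ..,
    (a.mul k).ext repM_one (n.mono fun w hw => mul_nonsing_inv _ (u w hw)),
    a.ct.ext a (n.mono fun w hw => hH.1.2.1 w hw), fun _ => rfl,
    fun i j l => ((a i j).dz l).ext ((a l j).dz i) (n.mono fun w hw => hH.1.2.2 w hw i j l), ?_⟩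
  have r : RepM (∑ p, ∑ q, K q p • dm (dd Complex.I q) (dm (dd (-Complex.I) p) A * K))
      fun w => ∑ p, ∑ q, (H w)⁻¹ q p • dMb (gam H p) q w := fun i j => by
    simp only [Matrix.sum_apply, Matrix.smul_apply, smul_eq_mul]
    exact rep_sum _ fun p => rep_sum _ fun q => (k q p).mul ((((a.dM p).mul k).dMb q) i j)
  refine r.ext (repM_one.sub (p.mul k)) (n.mono fun w hw => ?_)
  rw [ric_sum hc hU hH hw, hr w hw, neg_sub, sub_mul, mul_nonsing_inv _ (u w hw)]

end Cal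

open Cal in
theorem calS (hc : CurvS) (hm : MatS) : CalS := by
  intro ι _ _ L
  obtain ⟨C, C0, hC⟩ := est hm ι (max L 0) (le_max_right _ _)
  refine ⟨C, C0, fun H ρ U hU hH hρ hr z hz b1 b2 b3 b4 => ?_⟩
  have mo : ∀ {B : Mat ι}, Bd L B → Bd (max L 0) B := fun h i j => (h i j).trans (le_max_left _ _)
  have u : IsUnit (H z).det := (isUnit_iff_isUnit_det _).1 (hH.2 z hz).isUnit
  obtain ⟨A, a⟩ := repM_of (hH.1.1 z hz)
  obtain ⟨K, k⟩ := repM_of (F := fun w => (H w)⁻¹) (sm_inv (hH.1.1 z hz) u.ne_zero)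
  obtain ⟨P, p⟩ := repM_of (hρ z hz)
  have d := dat hc hU hH hr hz a k p
  obtain ⟨G, hG⟩ : ∃ G, G = fun i => dm (dd (-Complex.I) i) A * K := ⟨_, rfl⟩
  have g : ∀ i, RepM (G i) (gam H i) := fun i => hG ▸ (a.dM i).mul k
  rw [← hG] at d
  have r0 : Rep (ip A K G G) fun w => ∑ i, ∑ l, (H w)⁻¹ l i *
      trace (dM H i w * (H w)⁻¹ * dMb H l w * (H w)⁻¹) := by
    rw [d.zeroth]
    exact rep_sum _ fun i => rep_sum _ fun l =>
      (k l i).mul ((((a.dM i).mul k).mul (a.dMb l)).mul k).trace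
  have r : Rep (ip A K G G) fun w => (cal H w : ℂ) := by
    have := r0.star
    rw [ip_star d.he d.ke] at this
    exact r0.congr ((this.eq r0).mono fun w hw => (Complex.conj_eq_iff_re.1 hw).symm)
  have eg : (fun i => (G i).map (ev z)) = fun i => gam H i z := funext fun i => (g i).ev
  have m : ∀ T T' : ι → Matrix ι ι (Sm z), ev z (ip A K T' T) =
      ip (H z) (H z)⁻¹ (fun i => (T' i).map (ev z)) fun i => (T i).map (ev z) := fun T T' => by
    rw [ip_map _ ev_star, a.ev, k.ev]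
  have e0 : (ip (H z) (H z)⁻¹ (fun i => gam H i z) fun i => gam H i z).re = cal H z := by
    rw [← eg, ← m, r.ev, Complex.ofReal_re]
  obtain ⟨h1, h2, Y, Y0, h3, h4⟩ := hC (H z) (ρ z) (fun i => gam H i z) (fun i => dM ρ i z)
    (fun i l => (nab (dd (-Complex.I) i) (G i) G l).map (ev z))
    (fun i l => (dT (dd Complex.I i) G l).map (ev z)) ⟨hH.2 z hz, mo b1, mo b2⟩ (mo b3)
    fun i => mo (b4 i).1
  rw [e0] at h1 h2 h3 h4
  refine ⟨Complex.reCLM.contDiff.contDiffAt.comp z r0.sm, h1, fun l i j => ?_, Y, Y0, ?_, ?_⟩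
  · have := h2 l i j
    rwa [gam, nonsing_inv_mul_cancel_right _ _ u] at this
  · have e1 : lapL H (fun w => (cal H w : ℂ)) z =
        ev z (∑ i, ∑ j, dd (-Complex.I) i (dd Complex.I j (ip A K G G)) * K j i) := by
      simp only [map_sum, map_mul, ((r.dzb _).dz _).ev, (k _ _).ev, lapL, trace, diag_apply,
        Matrix.mul_apply, levi, Matrix.of_apply]
    have e2 : (fun i => ((G i * P - dm (dd (-Complex.I) i) P) * K).map (ev z)) =
        fun i => (gam H i z * ρ z - dM ρ i z) * (H z)⁻¹ :=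
      funext fun i => ((((g i).mul p).sub (p.dM i)).mul k).ev
    rw [e1, d.second]
    simp only [map_add, map_sum, map_mul, m, (k _ _).ev, act_map, eg, e2,
      (repM_one.sub (p.mul k)).ev]
    exact h3
  · have e1 : (fun i => dz (fun w => (cal H w : ℂ)) i z) = fun i =>
        ip (H z) (H z)⁻¹ (fun i => gam H i z)
          (fun l => (nab (dd (-Complex.I) i) (G i) G l).map (ev z)) +
        ip (H z) (H z)⁻¹ (fun l => (dT (dd Complex.I i) G l).map (ev z)) fun i => gam H i z :=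
      funext fun i => by rw [← (r.dz i).ev, d.first, map_add, m, m, eg]
    rw [e1]
    exact h4

end Pool.Agent.Lib.MP_813db1_ag.HS
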