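import Pool.Agent.Lib.MP_813db1_ag.HS.Stmt

/-! Limits and interpolation in the Hoelder classes. -/

namespace Pool.Agent.Lib.MP_813db1_ag.HS

open MeasureTheory Complex Matrix Filter Topology Set Metric
open scoped ContDiff ComplexOrder ENNReal

namespace Cau

variable {ι : Type} [Fintype ι] {W : Type} [NormedAddCommGroup W]

theorem hol_congr {M : ℝ} {f g : V ι → W} {U : Set (V ι)} (h : Hol M f U)
    (e : ∀ z ∈ U, g z = f z) : Hol M g U :=
  ⟨fun z hz => by rw [e z hz]; exact h.1 z hz,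
    fun z hz w hw => by rw [e z hz, e w hw]; exact h.2 z hz w hw⟩

theorem hol_lim {κ : Type} {l : Filter κ} [l.NeBot] {M : ℝ} {f : κ → V ι → W} {g : V ι → W}
    {U : Set (V ι)} (h : ∀ᶠ k in l, Hol M (f k) U)
    (e : ∀ z ∈ U, Tendsto (fun k => f k z) l (𝓝 (g z))) : Hol M g U :=
  ⟨fun z hz => le_of_tendsto (e z hz).norm (h.mono fun _ hk => hk.1 z hz),
    fun z hz w hw => le_of_tendsto ((e z hz).sub (e w hw)).norm
      (h.mono fun _ hk => hk.2 z hz w hw)⟩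

theorem hol_cont {M : ℝ} {f : V ι → W} {U : Set (V ι)} (h : Hol M f U) : ContinuousOn f U := by
  intro z hz
  rw [ContinuousWithinAt, tendsto_iff_norm_sub_tendsto_zero]
  have i : Tendsto (fun w : V ι => M * √‖w - z‖) (𝓝[U] z) (𝓝 0) := by
    have : Continuous fun w : V ι => M * √‖w - z‖ := by fun_prop
    have := (this.tendsto z).mono_left (nhdsWithin_le_nhds (s := U))
    simpa using this
  exact squeeze_zero' (Eventually.of_forall fun _ => norm_nonneg _)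
    (eventually_mem_nhdsWithin.mono fun w hw => h.2 w hw z hz) i

theorem hol_sub {U : Set (V ι)} {F : ℕ → V ι → W} {G : V ι → W} {M : ℝ} {k : ℕ}
    (h : ∀ j, k ≤ j → Hol M (fun z => F j z - F k z) U) (e : TendstoUniformlyOn F G atTop U) :
    Hol M (fun z => G z - F k z) U :=
  hol_lim ((eventually_ge_atTop k).mono h) fun _ hz => (e.tendsto_at hz).sub_const _

omit [Fintype ι] in
/-- uniform limits of Cauchy sequences. -/
theorem exists_lim [CompleteSpace W] {U : Set (V ι)} {F : ℕ → V ι → W} {ε : ℕ → ℝ}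
    (hε : Tendsto ε atTop (𝓝 0)) (h : ∀ k j, k ≤ j → ∀ z ∈ U, ‖F j z - F k z‖ ≤ ε k) :
    ∃ G, TendstoUniformlyOn F G atTop U := by
  have hc : UniformCauchySeqOn F atTop U := by
    rw [Metric.uniformCauchySeqOn_iff]
    intro δ hδ
    obtain ⟨N, hN⟩ := (hε.eventually (gt_mem_nhds (half_pos hδ))).exists
    refine ⟨N, fun m hm n hn z hz => ?_⟩
    have i1 := h N m hm z hz
    have i2 := h N n hn z hz
    rw [← dist_eq_norm] at i1 i2
    linarith [dist_triangle_right (F m z) (F n z) (F N z)]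
  have hp : ∀ z, ∃ y, z ∈ U → Tendsto (fun k => F k z) atTop (𝓝 y) := fun z => by
    by_cases hz : z ∈ U
    · obtain ⟨y, hy⟩ := cauchySeq_tendsto_of_complete (hc.cauchySeq hz)
      exact ⟨y, fun _ => hy⟩
    · exact ⟨0, fun h => absurd h hz⟩
  choose G hG using hp
  exact ⟨G, hc.tendstoUniformlyOn_of_tendsto hG⟩

/-- equicontinuity. -/
theorem unif {κ : Type} {l : Filter κ} [l.NeBot] {M : ℝ} {f : κ → V ι → W} {g : V ι → W}
    {U K : Set (V ι)} (h : ∀ k, Hol M (f k) U)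
    (e : ∀ z ∈ U, Tendsto (fun k => f k z) l (𝓝 (g z))) (hK : IsCompact K) (hU : K ⊆ U)
    {δ : ℝ} (hδ : 0 < δ) : ∀ᶠ k in l, ∀ z ∈ K, ‖f k z - g z‖ < δ := by
  have hg := hol_lim (Eventually.of_forall h) e
  have i : Tendsto (fun s : ℝ => |M| * √s) (𝓝 0) (𝓝 0) := by
    have : Continuous fun s : ℝ => |M| * √s := by fun_prop
    simpa using this.tendsto 0
  obtain ⟨ρ, hρ, h1⟩ := Metric.eventually_nhds_iff.1
    (i.eventually (gt_mem_nhds (show 0 < δ / 3 by linarith)))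
  obtain ⟨t, ht, hf, hc⟩ := finite_cover_balls_of_compact hK hρ
  have h2 : ∀ᶠ k in l, ∀ x ∈ t, ‖f k x - g x‖ < δ / 3 :=
    (eventually_all_finite hf).2 fun x hx =>
      (tendsto_iff_norm_sub_tendsto_zero.1 (e x (hU (ht hx)))).eventually
        (gt_mem_nhds (by linarith))
  refine h2.mono fun k hk z hz => ?_
  obtain ⟨x, hx, hzx⟩ := mem_iUnion₂.1 (hc hz)
  have h3 : M * √‖z - x‖ < δ / 3 :=
    (mul_le_mul_of_nonneg_right (le_abs_self M) (Real.sqrt_nonneg _)).trans_lt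
      (h1 (by rwa [dist_zero_right, norm_norm, ← dist_eq_norm]))
  have h4 := (h k).2 z (hU hz) x (hU (ht hx))
  have h5 := hg.2 z (hU hz) x (hU (ht hx))
  have h6 := hk x hx
  have h7 : f k z - g z = (f k z - f k x) + (f k x - g x) - (g z - g x) := by abel
  rw [h7]
  linarith [norm_sub_le ((f k z - f k x) + (f k x - g x)) (g z - g x),
    norm_add_le (f k z - f k x) (f k x - g x)]

theorem d1 {f : V ι → ℂ} {z : V ι} (h : ContDiffAt ℝ 2 f z) : DifferentiableAt ℝ f z :=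
  h.differentiableAt (by norm_num)

theorem d2 {f : V ι → ℂ} {z : V ι} (h : ContDiffAt ℝ 2 f z) :
    DifferentiableAt ℝ (fderiv ℝ f) z :=
  (h.fderiv_right (m := 1) (by norm_num)).differentiableAt (by norm_num)

theorem fd_sub {f g : V ι → ℂ} {U : Set (V ι)} (hU : IsOpen U)
    (hf : ∀ z ∈ U, ContDiffAt ℝ 2 f z) (hg : ∀ z ∈ U, ContDiffAt ℝ 2 g z) :
    (∀ z ∈ U, fderiv ℝ (fun z => f z - g z) z = fderiv ℝ f z - fderiv ℝ g z) ∧
    ∀ z ∈ U, fderiv ℝ (fderiv ℝ fun z => f z - g z) z =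
      fderiv ℝ (fderiv ℝ f) z - fderiv ℝ (fderiv ℝ g) z := by
  have h1 : ∀ z ∈ U, fderiv ℝ (fun z => f z - g z) z = fderiv ℝ f z - fderiv ℝ g z :=
    fun z hz => fderiv_fun_sub (d1 (hf z hz)) (d1 (hg z hz))
  refine ⟨h1, fun z hz => ?_⟩
  rw [← fderiv_fun_sub (d2 (hf z hz)) (d2 (hg z hz))]
  exact Filter.EventuallyEq.fderiv_eq (eventually_of_mem (hU.mem_nhds hz) h1)

theorem lim (U : Set (V ι)) (F : ℕ → V ι → ℂ) (G : V ι → ℂ) (ε : ℕ → ℝ) (hU : IsOpen U)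
    (hε : Tendsto ε atTop (𝓝 0)) (hF : ∀ k, ∀ z ∈ U, ContDiffAt ℝ 2 (F k) z)
    (h : ∀ k j, k ≤ j → Hol2 (ε k) (fun z => F j z - F k z) U)
    (e : ∀ z ∈ U, Tendsto (fun k => F k z) atTop (𝓝 (G z))) :
    (∀ z ∈ U, ContDiffAt ℝ 2 G z) ∧ ∀ k, Hol2 (ε k) (fun z => G z - F k z) U := by
  have h1 : ∀ k j, k ≤ j → Hol (ε k) (fun z => fderiv ℝ (F j) z - fderiv ℝ (F k) z) U :=
    fun k j hj => hol_congr (h k j hj).2.2.1 fun z hz => ((fd_sub hU (hF j) (hF k)).1 z hz).symm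
  have h2 : ∀ k j, k ≤ j →
      Hol (ε k) (fun z => fderiv ℝ (fderiv ℝ (F j)) z - fderiv ℝ (fderiv ℝ (F k)) z) U :=
    fun k j hj => hol_congr (h k j hj).2.2.2 fun z hz => ((fd_sub hU (hF j) (hF k)).2 z hz).symm
  obtain ⟨G1, e1⟩ := exists_lim (F := fun k => fderiv ℝ (F k)) hε fun k j hj => (h1 k j hj).1
  obtain ⟨G2, e2⟩ := exists_lim (F := fun k => fderiv ℝ (fderiv ℝ (F k))) hε
    fun k j hj => (h2 k j hj).1
  have a1 : ∀ z ∈ U, HasFDerivAt G (G1 z) z := fun z hz =>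
    hasFDerivAt_of_tendstoUniformlyOn hU e1 (fun k w hw => (d1 (hF k w hw)).hasFDerivAt) e hz
  have a2 : ∀ z ∈ U, HasFDerivAt G1 (G2 z) z := fun z hz =>
    hasFDerivAt_of_tendstoUniformlyOn hU e2 (fun k w hw => (d2 (hF k w hw)).hasFDerivAt)
      (fun w hw => e1.tendsto_at hw) hz
  have a3 : ContinuousOn G2 U := e2.continuousOn (Eventually.frequently
    (Eventually.of_forall fun k z hz => (((hF k z hz).fderiv_right (m := 1)
      (by norm_num)).continuousAt_fderiv (by norm_num)).continuousWithinAt))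
  have hG : ∀ z ∈ U, ContDiffAt ℝ 2 G z := fun z hz =>
    (contDiffAt_succ_iff_hasFDerivAt (n := 1)).2 ⟨G1, ⟨U, hU.mem_nhds hz, a1⟩,
      contDiffAt_one_iff.2 ⟨G2, U, hU.mem_nhds hz, a3, a2⟩⟩
  have b1 : ∀ z ∈ U, fderiv ℝ G z = G1 z := fun z hz => (a1 z hz).fderiv
  have b2 : ∀ z ∈ U, fderiv ℝ (fderiv ℝ G) z = G2 z := fun z hz =>
    (Filter.EventuallyEq.fderiv_eq (eventually_of_mem (hU.mem_nhds hz) b1)).trans (a2 z hz).fderiv
  refine ⟨hG, fun k => ⟨fun z hz => (hG z hz).sub (hF k z hz), ?_, ?_, ?_⟩⟩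
  · exact hol_lim ((eventually_ge_atTop k).mono fun j hj => (h k j hj).2.1)
      fun z hz => (e z hz).sub_const _
  · refine hol_congr (hol_sub (h1 k) e1) fun z hz => ?_
    rw [(fd_sub hU hG (hF k)).1 z hz, b1 z hz]
  · refine hol_congr (hol_sub (h2 k) e2) fun z hz => ?_
    rw [(fd_sub hU hG (hF k)).2 z hz, b2 z hz]

theorem ultra (U : Set (V ι)) (F : ℕ → V ι → ℂ) (G : V ι → ℂ) (B : ℝ) (𝒰 : Ultrafilter ℕ)
    (hU : IsOpen U) (h : ∀ k, Hol2 B (F k) U)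
    (e : ∀ z ∈ U, Tendsto (fun k => F k z) 𝒰 (𝓝 (G z))) :
    (∀ z ∈ U, ContDiffAt ℝ 1 G z) ∧ ∀ K, IsCompact K → K ⊆ U → ∀ δ > 0, ∀ᶠ k in 𝒰, ∀ z ∈ K,
      ‖F k z - G z‖ ≤ δ ∧ ‖fderiv ℝ (F k) z - fderiv ℝ G z‖ ≤ δ := by
  have hp : ∀ z, ∃ y, z ∈ U → Tendsto (fun k => fderiv ℝ (F k) z) 𝒰 (𝓝 y) := fun z => by
    by_cases hz : z ∈ U
    · obtain ⟨y, -, hy⟩ := (isCompact_closedBall (0 : V ι →L[ℝ] ℂ) B).ultrafilter_le_nhds'
        (𝒰.map fun k => fderiv ℝ (F k) z) (Ultrafilter.mem_map.2 (univ_mem' fun k =>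
          mem_closedBall_zero_iff.2 ((h k).2.2.1.1 z hz)))
      exact ⟨y, fun _ => hy⟩
    · exact ⟨0, fun h => absurd h hz⟩
  choose G1 e1 using hp
  have u1 := fun K hK hKU δ hδ => unif (K := K) (δ := δ) (fun k => (h k).2.2.1) e1 hK hKU hδ
  have a1 : ∀ z ∈ U, HasFDerivAt G (G1 z) z := fun z hz =>
    hasFDerivAt_of_tendstoLocallyUniformlyOn (l := (𝒰 : Filter ℕ)) hU
      ((tendstoLocallyUniformlyOn_iff_forall_isCompact hU).2 fun K hKU hK =>
        Metric.tendstoUniformlyOn_iff.2 fun δ hδ => (u1 K hK hKU δ hδ).mono fun k hk w hw => by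
          rw [dist_comm, dist_eq_norm]; exact hk w hw)
      (fun k w hw => (d1 ((h k).1 w hw)).hasFDerivAt) e hz
  refine ⟨fun z hz => contDiffAt_one_iff.2 ⟨G1, U, hU.mem_nhds hz,
    hol_cont (hol_lim (Eventually.of_forall fun k => (h k).2.2.1) e1), a1⟩,
    fun K hK hKU δ hδ => ?_⟩
  filter_upwards [u1 K hK hKU δ hδ, unif (fun k => (h k).2.1) e hK hKU hδ] with k k1 k2 z hz
  rw [(a1 z (hKU hz)).fderiv]
  exact ⟨(k2 z hz).le, (k1 z hz).le⟩

theorem sup_le {R η : ℝ} (hR : 0 < R) (hη : 0 < η) : ∃ C ≥ 0, ∀ (f : V ι → ℂ) (M P : ℝ), 0 ≤ P →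
    Hol M f (ball 0 R) → ∫ z in ball (0 : V ι) R, ‖f z‖ ^ 2 ≤ P ^ 2 →
    ∀ z ∈ ball (0 : V ι) R, ‖f z‖ ≤ η * M + C * P := by
  obtain ⟨ρ, hρ, h1, h2⟩ : ∃ ρ > 0, ρ ≤ R ∧ 2 * ρ ≤ η ^ 2 :=
    ⟨min R (η ^ 2 / 2), by positivity, min_le_left _ _, by linarith [min_le_right R (η ^ 2 / 2)]⟩
  have hv : 0 < (volume : Measure (V ι)).real (ball 0 ρ) :=
    ENNReal.toReal_pos (measure_ball_pos _ _ hρ).ne' measure_ball_lt_top.ne
  set v := (volume : Measure (V ι)).real (ball 0 ρ) with hv'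
  refine ⟨1 / √v, by positivity, fun f M P hP hf hI z hz => ?_⟩
  have hM : 0 ≤ M := (norm_nonneg _).trans (hf.1 z hz)
  rw [mem_ball_zero_iff] at hz
  have hq : 0 ≤ 1 - ρ / R := by rw [sub_nonneg, div_le_one hR]; exact h1
  have hsub : ball ((1 - ρ / R) • z) ρ ⊆ ball 0 R := by
    refine ball_subset_ball' ?_
    rw [dist_zero_right, norm_smul, Real.norm_of_nonneg hq]
    have : (1 - ρ / R) * R = R - ρ := by field_simp
    nlinarith
  have hzc : ‖z - (1 - ρ / R) • z‖ ≤ ρ := by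
    have : z - (1 - ρ / R) • z = (ρ / R) • z := by rw [sub_smul, one_smul, sub_sub_cancel]
    rw [this, norm_smul, Real.norm_of_nonneg (by positivity), div_mul_eq_mul_div, div_le_iff₀ hR]
    nlinarith
  have hint : IntegrableOn (fun w => ‖f w‖ ^ 2) (ball (0 : V ι) R) := by
    refine IntegrableOn.of_bound measure_ball_lt_top
      (((hol_cont hf).norm.pow 2).aestronglyMeasurable measurableSet_ball) (M ^ 2) ?_
    refine (ae_restrict_mem measurableSet_ball).mono fun w hw => ?_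
    rw [Real.norm_of_nonneg (by positivity)]
    exact pow_le_pow_left₀ (norm_nonneg _) (hf.1 w hw) 2
  by_contra hc
  have ha : 1 / √v * P < ‖f z‖ - η * M := by linarith [not_le.1 hc]
  have ha0 : 0 ≤ 1 / √v * P := by positivity
  have hlow : ∀ w ∈ ball ((1 - ρ / R) • z) ρ, (‖f z‖ - η * M) ^ 2 ≤ ‖f w‖ ^ 2 := fun w hw => by
    refine pow_le_pow_left₀ (by linarith) ?_ 2
    have i1 := hf.2 z (mem_ball_zero_iff.2 hz) w (hsub hw)
    have i2 : ‖z - w‖ ≤ η ^ 2 := by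
      rw [mem_ball', dist_eq_norm] at hw
      linarith [norm_sub_le_norm_sub_add_norm_sub z ((1 - ρ / R) • z) w]
    have i3 : √‖z - w‖ ≤ η := Real.sqrt_le_iff.2 ⟨hη.le, i2⟩
    have i4 := mul_le_mul_of_nonneg_left i3 hM
    linarith [norm_sub_norm_le (f z) (f w)]
  have i5 := setIntegral_ge_of_const_le_real measurableSet_ball measure_ball_lt_top.ne hlow
    (hint.mono_set hsub)
  rw [Measure.addHaar_real_ball_center, ← hv'] at i5
  have i6 := setIntegral_mono_set hint (Eventually.of_forall fun w => by positivity)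
    hsub.eventuallyLE
  have i7 : (1 / √v * P) ^ 2 < (‖f z‖ - η * M) ^ 2 := pow_lt_pow_left₀ ha ha0 two_ne_zero
  rw [mul_pow, div_pow, Real.sq_sqrt hv.le, one_pow, div_mul_eq_mul_div, one_mul,
    div_lt_iff₀ hv] at i7
  linarith

theorem interp (R δ : ℝ) (hR : 0 < R) (hδ : 0 < δ) : ∃ C ≥ 0,
    ∀ (f : V ι → ℂ) (M P : ℝ), 0 ≤ P → Hol2 M f (ball 0 R) →
    ∫ z in ball (0 : V ι) R, ‖f z‖ ^ 2 ≤ P ^ 2 → Hol (δ * M + C * P) f (ball 0 R) := by
  obtain ⟨η, hη, h1, h2⟩ : ∃ η > 0, η ≤ δ ∧ 2 * η ≤ δ ^ 2 :=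
    ⟨min δ (δ ^ 2 / 2), by positivity, min_le_left _ _, by linarith [min_le_right δ (δ ^ 2 / 2)]⟩
  obtain ⟨C, hC, h⟩ := sup_le (ι := ι) hR hη
  refine ⟨C + C / δ, by positivity, fun f M P hP hf hI => ?_⟩
  have hs := h f M P hP hf.2.1 hI
  have hM : 0 ≤ M := (norm_nonneg _).trans (hf.2.1.1 0 (mem_ball_self hR))
  have hD : 0 ≤ C / δ * P := by positivity
  refine ⟨fun z hz => ?_, fun z hz w hw => ?_⟩
  · have := mul_le_mul_of_nonneg_right h1 hM
    linarith [hs z hz, add_mul C (C / δ) P]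
  · have i1 : ‖f z - f w‖ ≤ M * ‖z - w‖ := (convex_ball 0 R).norm_image_sub_le_of_norm_fderiv_le
      (fun x hx => d1 (hf.1 x hx)) hf.2.2.1.1 hw hz
    have i2 : ‖f z - f w‖ ≤ 2 * (η * M + C * P) := by
      linarith [norm_sub_le (f z) (f w), hs z hz, hs w hw]
    have i3 : 2 * (η * M + C * P) * M ≤ (δ * M + (C + C / δ) * P) ^ 2 := by
      have e : C = δ * (C / δ) := by field_simp
      have j1 := mul_le_mul_of_nonneg_right h2 (sq_nonneg M)
      have j2 : 0 ≤ δ * M * (C * P) := by positivity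
      have j3 : C * P * M = δ * M * (C / δ * P) := by field_simp
      nlinarith [sq_nonneg ((C + C / δ) * P)]
    refine abs_le_of_sq_le_sq' ?_ (by positivity) |>.2
    rw [mul_pow, Real.sq_sqrt (norm_nonneg _), sq]
    calc ‖f z - f w‖ * ‖f z - f w‖ ≤ 2 * (η * M + C * P) * (M * ‖z - w‖) :=
          mul_le_mul i2 i1 (norm_nonneg _) (by positivity)
      _ = 2 * (η * M + C * P) * M * ‖z - w‖ := by ring
      _ ≤ _ := mul_le_mul_of_nonneg_right i3 (norm_nonneg _)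

end Cau

theorem cau : CauS :=
  ⟨fun _ _ _ => Cau.lim, fun _ _ _ => Cau.ultra, fun _ _ _ => Cau.interp⟩

end Pool.Agent.Lib.MP_813db1_ag.HS
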