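import Pool.Agent.Lib.MP_813db1_ag.HS.Stmt

/-! Calculus of the Hoelder classes. -/

namespace Pool.Agent.Lib.MP_813db1_ag.HS

open Complex Matrix Filter Topology Set Metric
open scoped ContDiff

noncomputable section

variable {ι : Type} [Fintype ι] [DecidableEq ι]

section Zero

variable {W W' W'' : Type} [NormedAddCommGroup W] [NormedAddCommGroup W'] [NormedAddCommGroup W'']
  {t M N L : ℝ} {f g : V ι → W} {U U' : Set (V ι)}

omit [DecidableEq ι]

theorem hol_iff : Hol M f U ↔ HolT 1 M f U := by simp [Hol, HolT]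

theorem HolT.nonneg (h : HolT t M f U) (ht : 0 ≤ t) {z : V ι} (hz : z ∈ U) : 0 ≤ M :=
  (mul_nonneg ht (norm_nonneg _)).trans (h.1 z hz)

theorem Hol.nonneg (h : Hol M f U) {z : V ι} (hz : z ∈ U) : 0 ≤ M :=
  (norm_nonneg _).trans (h.1 z hz)

theorem HolT.mono (h : HolT t M f U) (hM : M ≤ N) : HolT t N f U :=
  ⟨fun z hz => (h.1 z hz).trans hM, fun z hz w hw =>
    (h.2 z hz w hw).trans (mul_le_mul_of_nonneg_right hM (Real.sqrt_nonneg _))⟩

theorem Hol.mono (h : Hol M f U) (hM : M ≤ N) : Hol N f U := hol_iff.2 ((hol_iff.1 h).mono hM)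

theorem HolT.subset (h : HolT t M f U) (hU : U' ⊆ U) : HolT t M f U' :=
  ⟨fun z hz => h.1 z (hU hz), fun z hz w hw => h.2 z (hU hz) w (hU hw)⟩

theorem Hol.subset (h : Hol M f U) (hU : U' ⊆ U) : Hol M f U' :=
  hol_iff.2 ((hol_iff.1 h).subset hU)

theorem HolT.congr (h : HolT t M f U) (e : ∀ z ∈ U, g z = f z) : HolT t M g U :=
  ⟨fun z hz => e z hz ▸ h.1 z hz, fun z hz w hw => e z hz ▸ e w hw ▸ h.2 z hz w hw⟩

theorem Hol.congr (h : Hol M f U) (e : ∀ z ∈ U, g z = f z) : Hol M g U :=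
  hol_iff.2 ((hol_iff.1 h).congr e)

theorem HolT.zero (hM : 0 ≤ M) : HolT t M (fun _ : V ι => (0 : W)) U :=
  ⟨fun _ _ => by simpa using hM, fun _ _ _ _ => by
    simpa using mul_nonneg hM (Real.sqrt_nonneg _)⟩

theorem Hol.const (c : W) (hM : ‖c‖ ≤ M) : Hol M (fun _ : V ι => c) U :=
  ⟨fun _ _ => hM, fun _ _ _ _ => by
    simpa using mul_nonneg ((norm_nonneg c).trans hM) (Real.sqrt_nonneg _)⟩

theorem HolT.add (ht : 0 ≤ t) (h : HolT t M f U) (h' : HolT t N g U) :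
    HolT t (M + N) (fun z => f z + g z) U := by
  refine ⟨fun z hz => ?_, fun z hz w hw => ?_⟩
  · have := mul_le_mul_of_nonneg_left (norm_add_le (f z) (g z)) ht
    linarith [h.1 z hz, h'.1 z hz]
  · have e : f z + g z - (f w + g w) = (f z - f w) + (g z - g w) := by abel
    have := norm_add_le (f z - f w) (g z - g w)
    rw [e]
    linarith [h.2 z hz w hw, h'.2 z hz w hw]

theorem HolT.neg (h : HolT t M f U) : HolT t M (fun z => -f z) U :=
  ⟨fun z hz => by simpa using h.1 z hz, fun z hz w hw => by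
    have e : -f z - -f w = -(f z - f w) := by abel
    rw [e, norm_neg]
    exact h.2 z hz w hw⟩

theorem HolT.sub (ht : 0 ≤ t) (h : HolT t M f U) (h' : HolT t N g U) :
    HolT t (M + N) (fun z => f z - g z) U :=
  (h.add ht h'.neg).congr fun _ _ => sub_eq_add_neg _ _

theorem Hol.add (h : Hol M f U) (h' : Hol N g U) : Hol (M + N) (fun z => f z + g z) U :=
  hol_iff.2 ((hol_iff.1 h).add zero_le_one (hol_iff.1 h'))

theorem Hol.neg (h : Hol M f U) : Hol M (fun z => -f z) U := hol_iff.2 (hol_iff.1 h).neg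

theorem Hol.sub (h : Hol M f U) (h' : Hol N g U) : Hol (M + N) (fun z => f z - g z) U :=
  hol_iff.2 ((hol_iff.1 h).sub zero_le_one (hol_iff.1 h'))

theorem HolT.sum {κ : Type} (S : Finset κ) {F : κ → V ι → W} {B : κ → ℝ} (ht : 0 ≤ t)
    (h : ∀ j ∈ S, HolT t (B j) (F j) U) : HolT t (∑ j ∈ S, B j) (fun z => ∑ j ∈ S, F j z) U := by
  classical
  induction S using Finset.induction_on with
  | empty => simpa using HolT.zero le_rfl
  | insert a S ha ih =>
    simp only [Finset.sum_insert ha]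
    exact (h a (Finset.mem_insert_self _ _)).add ht
      (ih fun j hj => h j (Finset.mem_insert_of_mem hj))

theorem Hol.sum {κ : Type} (S : Finset κ) {F : κ → V ι → W} {B : κ → ℝ}
    (h : ∀ j ∈ S, Hol (B j) (F j) U) : Hol (∑ j ∈ S, B j) (fun z => ∑ j ∈ S, F j z) U :=
  hol_iff.2 (HolT.sum S zero_le_one fun j hj => hol_iff.1 (h j hj))

theorem HolT.hol (ht : 1 ≤ t) (h : HolT t M f U) : Hol M f U :=
  ⟨fun z hz => (le_mul_of_one_le_left (norm_nonneg _) ht).trans (h.1 z hz), h.2⟩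

theorem Hol.holT (ht : 1 ≤ t) (h : Hol M f U) : HolT t (t * M) f U :=
  ⟨fun z hz => mul_le_mul_of_nonneg_left (h.1 z hz) (by linarith), fun z hz w hw =>
    (h.2 z hz w hw).trans (mul_le_mul_of_nonneg_right
      (le_mul_of_one_le_left (h.nonneg hz) ht) (Real.sqrt_nonneg _))⟩

theorem HolT.of_forall (h : ∀ ε > 0, HolT t (M + ε) f U) : HolT t M f U := by
  refine ⟨fun z hz => le_of_forall_pos_le_add fun ε hε => (h ε hε).1 z hz, fun z hz w hw => ?_⟩
  refine le_of_forall_pos_le_add fun ε hε => ?_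
  have hs := Real.sqrt_nonneg ‖z - w‖
  have h1 := (h (ε / (√‖z - w‖ + 1)) (by positivity)).2 z hz w hw
  have h2 : ε / (√‖z - w‖ + 1) * √‖z - w‖ ≤ ε := by
    rw [div_mul_eq_mul_div, div_le_iff₀ (by positivity)]
    nlinarith
  nlinarith

theorem Hol.of_forall (h : ∀ ε > 0, Hol (M + ε) f U) : Hol M f U :=
  hol_iff.2 (HolT.of_forall fun ε hε => hol_iff.1 (h ε hε))

/-- a Lipschitz map applied to the values. -/
theorem HolT.map (ht : 0 ≤ t) (h : HolT t M f U) {Φ : W → W'} {c : ℝ} (hc : 0 ≤ c)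
    (h0 : ∀ a, ‖Φ a‖ ≤ c * ‖a‖) (h1 : ∀ a b, ‖Φ a - Φ b‖ ≤ c * ‖a - b‖) :
    HolT t (c * M) (fun z => Φ (f z)) U := by
  refine ⟨fun z hz => ?_, fun z hz w hw => ?_⟩
  · have a1 := mul_le_mul_of_nonneg_left (h0 (f z)) ht
    have a2 := mul_le_mul_of_nonneg_left (h.1 z hz) hc
    nlinarith
  · have a2 := mul_le_mul_of_nonneg_left (h.2 z hz w hw) hc
    have a1 := h1 (f z) (f w)
    nlinarith

theorem Hol.of_lip (h0 : ∀ z ∈ U, ‖f z‖ ≤ M) (h1 : ∀ z ∈ U, ∀ w ∈ U, ‖f z - f w‖ ≤ M * ‖z - w‖) :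
    Hol (2 * M) f U := by
  refine ⟨fun z hz => ?_, fun z hz w hw => ?_⟩
  · linarith [h0 z hz, norm_nonneg (f z)]
  · have hM : 0 ≤ M := (norm_nonneg _).trans (h0 z hz)
    have hs := Real.sqrt_nonneg ‖z - w‖
    have hq := Real.mul_self_sqrt (norm_nonneg (z - w))
    rcases le_total (√‖z - w‖) 1 with h | h
    · have : ‖z - w‖ ≤ √‖z - w‖ := by nlinarith
      have := mul_le_mul_of_nonneg_left this hM
      nlinarith [h1 z hz w hw, mul_nonneg hM hs]
    · have := norm_sub_le (f z) (f w)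
      nlinarith [h0 z hz, h0 w hw]

theorem HolT.comp {τ : V ι → V ι} {Λ : ℝ} (ht : 0 ≤ t) (h : HolT t M f U') (hΛ : 1 ≤ Λ)
    (hm : MapsTo τ U U') (hl : ∀ z ∈ U, ∀ w ∈ U, ‖τ z - τ w‖ ≤ Λ * ‖z - w‖) :
    HolT t (Λ * M) (fun z => f (τ z)) U := by
  refine ⟨fun z hz => (h.1 _ (hm hz)).trans (le_mul_of_one_le_left (h.nonneg ht (hm hz)) hΛ),
    fun z hz w hw => (h.2 _ (hm hz) _ (hm hw)).trans ?_⟩
  have hM := h.nonneg ht (hm hz)
  have h1 : √‖τ z - τ w‖ ≤ Λ * √‖z - w‖ := by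
    refine Real.sqrt_le_iff.2 ⟨by positivity, (hl z hz w hw).trans ?_⟩
    rw [mul_pow, Real.sq_sqrt (norm_nonneg _)]
    exact mul_le_mul_of_nonneg_right (by nlinarith) (norm_nonneg _)
  nlinarith

theorem Hol.comp {τ : V ι → V ι} {Λ : ℝ} (h : Hol M f U') (hΛ : 1 ≤ Λ)
    (hm : MapsTo τ U U') (hl : ∀ z ∈ U, ∀ w ∈ U, ‖τ z - τ w‖ ≤ Λ * ‖z - w‖) :
    Hol (Λ * M) (fun z => f (τ z)) U :=
  hol_iff.2 ((hol_iff.1 h).comp zero_le_one hΛ hm hl)

variable [NormedSpace ℝ W] [NormedSpace ℝ W'] [NormedSpace ℝ W'']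

theorem HolT.clm (ht : 0 ≤ t) (h : HolT t M f U) (A : W →L[ℝ] W') {c : ℝ} (hc : ‖A‖ ≤ c) :
    HolT t (c * M) (fun z => A (f z)) U :=
  h.map ht ((norm_nonneg A).trans hc) (fun a => A.le_of_opNorm_le hc a) fun a b => by
    rw [← map_sub]
    exact A.le_of_opNorm_le hc _

theorem Hol.clm (h : Hol M f U) (A : W →L[ℝ] W') {c : ℝ} (hc : ‖A‖ ≤ c) :
    Hol (c * M) (fun z => A (f z)) U :=
  hol_iff.2 ((hol_iff.1 h).clm zero_le_one A hc)

/-- the product rule, where the first factor vanishes off `U`. -/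
theorem HolT.bilin' {k : V ι → W'} (ht : 1 ≤ t) (B : W' →L[ℝ] W →L[ℝ] W'') (hB : ‖B‖ ≤ 1)
    (hk : Hol L k U') (hM : 0 ≤ M) (h : HolT t M f U) (h0 : ∀ z ∈ U', z ∉ U → k z = 0) :
    HolT t (2 * L * M) (fun z => B (k z) (f z)) U' := by
  have hb : ∀ a b, ‖B a b‖ ≤ ‖a‖ * ‖b‖ := fun a b =>
    (B.le_opNorm₂ a b).trans (by
      rw [mul_assoc]
      exact mul_le_of_le_one_left (by positivity) hB)
  have one : ∀ z ∈ U', ∀ w ∈ U', z ∈ U → w ∉ U →
      ‖B (k z) (f z) - B (k w) (f w)‖ ≤ 2 * L * M * √‖z - w‖ := by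
    intro z hz w hw hz' hw'
    have a1 := hk.2 z hz w hw
    rw [h0 w hw hw', sub_zero] at a1
    have a2 := (h.hol ht).1 z hz'
    have a3 := mul_le_mul a1 a2 (norm_nonneg _) ((norm_nonneg _).trans a1)
    have a4 := mul_nonneg ((norm_nonneg _).trans a1) hM
    rw [h0 w hw hw', map_zero, _root_.zero_apply, sub_zero]
    nlinarith [hb (k z) (f z)]
  refine ⟨fun z hz => ?_, fun z hz w hw => ?_⟩
  · have hL := hk.nonneg hz
    by_cases hz' : z ∈ U
    · have a1 := mul_le_mul_of_nonneg_left (hb (k z) (f z)) (zero_le_one.trans ht)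
      have a2 := mul_le_mul (hk.1 z hz) (h.1 z hz') (by positivity) hL
      nlinarith [mul_nonneg hL hM]
    · simp only [h0 z hz hz', map_zero, _root_.zero_apply, norm_zero, mul_zero]
      positivity
  · have hL := hk.nonneg hz
    by_cases hz' : z ∈ U <;> by_cases hw' : w ∈ U
    · have e : B (k z) (f z) - B (k w) (f w) = B (k z - k w) (f z) + B (k w) (f z - f w) := by
        simp
      have a1 := mul_le_mul (hk.2 z hz w hw) ((h.hol ht).1 z hz') (norm_nonneg _)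
        (mul_nonneg hL (Real.sqrt_nonneg _))
      have a2 := mul_le_mul (hk.1 w hw) (h.2 z hz' w hw') (norm_nonneg _) hL
      have a3 := norm_add_le (B (k z - k w) (f z)) (B (k w) (f z - f w))
      rw [e]
      nlinarith [hb (k z - k w) (f z), hb (k w) (f z - f w)]
    · exact one z hz w hw hz' hw'
    · rw [norm_sub_rev, norm_sub_rev z w]
      exact one w hw z hz hw' hz'
    · simp only [h0 z hz hz', h0 w hw hw', map_zero, _root_.zero_apply, sub_zero,
        norm_zero]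
      positivity

theorem HolT.bilin {k : V ι → W'} (ht : 1 ≤ t) (B : W' →L[ℝ] W →L[ℝ] W'') (hB : ‖B‖ ≤ 1)
    (hk : Hol L k U) (h : HolT t M f U) : HolT t (2 * L * M) (fun z => B (k z) (f z)) U := by
  rcases U.eq_empty_or_nonempty with rfl | ⟨z, hz⟩
  · exact ⟨fun _ h => h.elim, fun _ h => h.elim⟩
  · exact h.bilin' ht B hB hk (h.nonneg (zero_le_one.trans ht) hz) fun z hz hz' => absurd hz hz'

theorem Hol.bilin {k : V ι → W'} (B : W' →L[ℝ] W →L[ℝ] W'') (hB : ‖B‖ ≤ 1)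
    (hk : Hol L k U) (h : Hol M f U) : Hol (2 * L * M) (fun z => B (k z) (f z)) U :=
  hol_iff.2 ((hol_iff.1 h).bilin le_rfl B hB hk)

theorem HolT.mul {k f : V ι → ℂ} (ht : 1 ≤ t) (hk : Hol L k U) (h : HolT t M f U) :
    HolT t (2 * L * M) (fun z => k z * f z) U :=
  h.bilin ht (ContinuousLinearMap.mul ℝ ℂ) (ContinuousLinearMap.opNorm_mul_le ℝ ℂ) hk

theorem HolT.mul' {k f : V ι → ℂ} (ht : 1 ≤ t) (hk : Hol L k U') (hM : 0 ≤ M) (h : HolT t M f U)
    (h0 : ∀ z ∈ U', z ∉ U → k z = 0) : HolT t (2 * L * M) (fun z => k z * f z) U' :=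
  h.bilin' ht (ContinuousLinearMap.mul ℝ ℂ) (ContinuousLinearMap.opNorm_mul_le ℝ ℂ) hk hM h0

theorem Hol.mul {k f : V ι → ℂ} (hk : Hol L k U) (h : Hol M f U) :
    Hol (2 * L * M) (fun z => k z * f z) U :=
  hol_iff.2 ((hol_iff.1 h).mul le_rfl hk)

theorem HolT.const_mul {f : V ι → ℂ} (ht : 0 ≤ t) (h : HolT t M f U) (c : ℂ) :
    HolT t (‖c‖ * M) (fun z => c * f z) U :=
  h.map ht (norm_nonneg c) (fun a => (norm_mul c a).le) fun a b => by
    rw [← mul_sub, norm_mul]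

theorem Hol.const_mul {f : V ι → ℂ} (h : Hol M f U) (c : ℂ) :
    Hol (‖c‖ * M) (fun z => c * f z) U :=
  hol_iff.2 ((hol_iff.1 h).const_mul zero_le_one c)

/-- a `C¹` function on a compact convex set is bounded and Lipschitz. -/
theorem lip_of_c1 {K : Set (V ι)} (hK : IsCompact K) (hc : Convex ℝ K)
    (hf : ∀ z ∈ K, ContDiffAt ℝ 1 f z) :
    ∃ M ≥ (1 : ℝ), (∀ z ∈ K, ‖f z‖ ≤ M) ∧ ∀ z ∈ K, ∀ w ∈ K, ‖f z - f w‖ ≤ M * ‖z - w‖ := by
  obtain ⟨A, hA⟩ := hK.exists_bound_of_continuousOn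
    (f := f) fun z hz => (hf z hz).continuousAt.continuousWithinAt
  obtain ⟨B, hB⟩ := hK.exists_bound_of_continuousOn (f := fderiv ℝ f) fun z hz =>
    ((hf z hz).fderiv_right (m := 0) (by norm_num)).continuousAt.continuousWithinAt
  refine ⟨max 1 (max A B), le_max_left _ _,
    fun z hz => (hA z hz).trans ((le_max_left _ _).trans (le_max_right _ _)), fun z hz w hw => ?_⟩
  exact hc.norm_image_sub_le_of_norm_fderiv_le
    (fun x hx => (hf x hx).differentiableAt one_ne_zero)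
    (fun x hx => (hB x hx).trans ((le_max_right _ _).trans (le_max_right _ _))) hw hz

theorem hol_of_c1 {K : Set (V ι)} (hK : IsCompact K) (hc : Convex ℝ K)
    (hf : ∀ z ∈ K, ContDiffAt ℝ 1 f z) : ∃ M ≥ (1 : ℝ), Hol M f K := by
  obtain ⟨M, h1, h2, h3⟩ := lip_of_c1 hK hc hf
  exact ⟨2 * M, by linarith, Hol.of_lip h2 h3⟩

/-- a smooth function with compact support is Hoelder on the whole space. -/
theorem hol_of_supp (hf : ContDiff ℝ 1 f) (hs : HasCompactSupport f) :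
    ∃ M ≥ (1 : ℝ), Hol M f univ := by
  obtain ⟨A, hA⟩ := hf.continuous.bounded_above_of_compact_support hs
  obtain ⟨B, hB⟩ := hf.lipschitzWith_of_hasCompactSupport hs one_ne_zero
  refine ⟨2 * max 1 (max A B), by linarith [le_max_left 1 (max A (B : ℝ))],
    Hol.of_lip (fun z _ => (hA z).trans ((le_max_left _ _).trans (le_max_right _ _)))
      fun z _ w _ => ?_⟩
  have := hB.dist_le_mul z w
  rw [dist_eq_norm, dist_eq_norm] at this
  exact this.trans (mul_le_mul_of_nonneg_right ((le_max_right _ _).trans (le_max_right _ _))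
    (norm_nonneg _))

end Zero

end

end Pool.Agent.Lib.MP_813db1_ag.HS
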