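import Pool.Agent.Lib.MP_813db1_ag.HS.Stmt2
import Pool.Agent.Lib.MP_813db1_ag.HS.Calc2
import Pool.Agent.Lib.MP_813db1_ag.HS.HolC

/-! Finite covers, partitions of unity, Hoelder bounds of smooth objects, the maximal atlas. -/

namespace Pool.Agent.Lib.MP_813db1_ag.HS

open MeasureTheory Complex Matrix Filter Topology Set Metric
open scoped ContDiff ComplexOrder Manifold

theorem covS : CovS := by
  intro ι X _ _ _ _ M P h
  choose e he hP hx h0 using h
  have h1 : ∀ x, ∃ r > 0, closedBall (0 : V ι) (4 * r) ⊆ (e x).target := fun x => by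
    obtain ⟨r, hr, hs⟩ := nhds_basis_closedBall.mem_iff.1
      ((e x).open_target.mem_nhds (h0 x ▸ (e x).map_source (hx x)))
    exact ⟨r / 4, by linarith, by rwa [mul_div_cancel₀ r four_ne_zero]⟩
  choose r hr hs using h1
  obtain ⟨t, ht⟩ := CompactSpace.elim_nhds_subcover
    (fun x => (e x).source ∩ e x ⁻¹' ball 0 (r x)) fun x =>
      ((e x).isOpen_inter_preimage isOpen_ball).mem_nhds
        ⟨hx x, by rw [mem_preimage, h0]; exact mem_ball_self (hr x)⟩
  refine ⟨⟨t.card, fun a => e (t.equivFin.symm a), fun a => r (t.equivFin.symm a),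
    fun a => he _, fun a => hr _, fun a => hs _, fun x => ?_⟩, fun a => hP _⟩
  obtain ⟨y, hy, h2, h3⟩ := mem_iUnion₂.1 (ht.ge (mem_univ x))
  refine ⟨t.equivFin ⟨y, hy⟩, ?_⟩
  rw [Equiv.symm_apply_apply]
  exact ⟨h2, mem_ball_zero_iff.1 h3⟩

namespace CovJ

variable {ι X : Type} [Fintype ι] [DecidableEq ι] [TopologicalSpace X]

theorem bump [T2Space X] {M : Atl ι X} (ha : RepA' M) {O : Set X} (hO : IsOpen O) {x : X}
    (hx : x ∈ O) : ∃ (χ : X → ℝ) (K : Set X), M.Ck ∞ χ ∧ (∀ y, 0 ≤ χ y) ∧ 0 < χ x ∧ IsClosed K ∧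
      K ⊆ O ∧ ∀ y ∉ K, χ y = 0 := by
  classical
  obtain ⟨e, he, hx1, -⟩ := ha.center x
  obtain ⟨r, hr, hs⟩ := nhds_basis_closedBall.mem_iff.1
    ((e.isOpen_inter_preimage_symm hO).mem_nhds
      (show e x ∈ _ from ⟨e.map_source hx1, by rwa [mem_preimage, e.left_inv hx1]⟩))
  let b : ContDiffBump (e x) := ⟨r / 2, r, by linarith, by linarith⟩
  have hK : IsClosed (e.symm '' closedBall (e x) r) :=
    ((isCompact_closedBall _ _).image_of_continuousOn
      (e.continuousOn_symm.mono fun z hz => (hs hz).1)).isClosed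
  have h0 : ∀ y ∉ e.symm '' closedBall (e x) r, e.source.indicator (fun y => b (e y)) y = 0 := by
    intro y hy
    by_cases h : y ∈ e.source
    · rw [indicator_of_mem h]
      refine b.zero_of_le_dist (not_lt.1 fun c => hy ⟨e y, le_of_lt c, e.left_inv h⟩)
    · exact indicator_of_notMem h _
  refine ⟨e.source.indicator fun y => b (e y), _, ha.ck_loc ⊤ _ fun y => ?_,
    fun y => indicator_nonneg (fun _ _ => b.nonneg) y, ?_, hK, ?_, h0⟩
  · by_cases h : y ∈ e.source
    · refine ⟨e, he, h, (contDiffAt_ofReal.2 (b.contDiff (n := ⊤)).contDiffAt).congr_of_eventuallyEq ?_⟩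
      filter_upwards [e.open_target.mem_nhds (e.map_source h)] with z hz
      rw [fn, indicator_of_mem (e.map_target hz), e.right_inv hz]
    · refine ⟨M.ch y, M.ch_mem y, M.mem y, (contDiffAt_const (c := 0)).congr_of_eventuallyEq ?_⟩
      have h1 : y ∉ e.symm '' closedBall (e x) r := by
        rintro ⟨z, hz, rfl⟩
        exact h (e.map_target (hs hz).1)
      have h2 := (M.ch y).continuousAt_symm ((M.ch y).map_source (M.mem y))
      rw [ContinuousAt, (M.ch y).left_inv (M.mem y)] at h2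
      filter_upwards [h2 (hK.isOpen_compl.mem_nhds h1)] with z hz
      rw [fn, h0 _ hz, ofReal_zero]
  · rw [indicator_of_mem hx1]
    exact b.pos_of_mem_ball (mem_ball_self hr)
  · rintro _ ⟨z, hz, rfl⟩
    exact (hs hz).2

theorem unif {κ : Type} [Finite κ] {P : κ → ℝ → Prop} (hm : ∀ k L L', L ≤ L' → P k L → P k L')
    (h : ∀ k, ∃ L, P k L) : ∃ L ≥ (0 : ℝ), ∀ k, P k L := by
  choose L hL using h
  obtain ⟨B, hB⟩ := (finite_range L).bddAbove
  exact ⟨max 0 B, le_max_left _ _, fun k =>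
    hm k _ _ ((hB (mem_range_self k)).trans (le_max_right _ _)) (hL k)⟩

omit [DecidableEq ι] in
theorem hol_ball {W : Type} [NormedAddCommGroup W] [NormedSpace ℝ W] {f : V ι → W} {r : ℝ}
    {U : Set (V ι)} (hr : 0 < r) (hU : closedBall 0 (4 * r) ⊆ U)
    (hf : ∀ z ∈ U, ContDiffAt ℝ 1 f z) : ∃ L, Hol L f (ball 0 (2 * r)) := by
  obtain ⟨L, -, h⟩ := hol_of_c1 (isCompact_closedBall 0 (4 * r)) (convex_closedBall _ _)
    fun z hz => hf z (hU hz)
  exact ⟨L, h.subset (ball_subset_closedBall.trans (closedBall_subset_closedBall (by linarith)))⟩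

omit [DecidableEq ι] in
theorem hol_cont {f : V ι → ℂ} {L : ℝ} {U : Set (V ι)} (h : Hol L f U) : ContinuousOn f U := by
  intro z hz
  rw [ContinuousWithinAt, tendsto_iff_norm_sub_tendsto_zero]
  refine squeeze_zero' (Eventually.of_forall fun _ => norm_nonneg _)
    (eventually_mem_nhdsWithin.mono fun w hw => h.2 w hw z hz) (tendsto_nhdsWithin_of_tendsto_nhds ?_)
  have : Continuous fun w : V ι => L * √‖w - z‖ := by fun_prop
  simpa using this.tendsto z

omit [DecidableEq ι] in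
theorem atl_an [ChartedSpace (ι → ℂ) X] [IsManifold 𝓘(ℂ, ι → ℂ) ω X] {e e' : Ch ι X}
    (he : e ∈ atlas (ι → ℂ) X) (he' : e' ∈ atlas (ι → ℂ) X) {x : X} (hx : x ∈ e.source)
    (hx' : x ∈ e'.source) : AnalyticAt ℂ (e' ∘ e.symm) (e x) := by
  have h := ((contDiffGroupoid ω 𝓘(ℂ, ι → ℂ)).compatible he he').1
  have h1 : ContDiffOn ℂ ω (e' ∘ e.symm) (e.symm ≫ₕ e').source := by
    simpa [contDiffPregroupoid] using h
  refine (h1.contDiffAt ((e.symm ≫ₕ e').open_source.mem_nhds ?_)).analyticAt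
  simpa [hx] using hx'

end CovJ

open CovJ

theorem pou (ha : RepA) (_hb : RepB) : PouS := by
  classical
  intro ι X _ _ _ _ _ M κ _ O hO hc
  choose a hx using hc
  choose χ K h1 h2 h3 h4 h5 h6 using fun x => bump (ha _ _ M) (hO (a x)) (hx x)
  obtain ⟨t, ht⟩ := CompactSpace.elim_nhds_subcover (fun x => {y | 0 < χ x y}) fun x =>
    (isOpen_lt continuous_const ((ha _ _ M).cont _ fun e he z hz =>
      (h1 x e he z hz).of_le bot_le)).mem_nhds (h3 x)
  have hS : ∀ y, 0 < ∑ x ∈ t, χ x y := fun y => by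
    obtain ⟨x, hx, h⟩ := mem_iUnion₂.1 (ht.ge (mem_univ y))
    exact Finset.sum_pos' (fun x _ => h2 x y) ⟨x, hx, h⟩
  refine ⟨fun k y => (∑ x ∈ t with a x = k, χ x y) / ∑ x ∈ t, χ x y,
    fun k => ⟨fun e he z hz => ?_, fun y =>
      div_nonneg (Finset.sum_nonneg fun x _ => h2 x y) (hS y).le, ?_⟩, fun y => ?_⟩
  · have h7 : ∀ x, ContDiffAt ℝ ∞ (fun w => χ x (e.symm w)) z := fun x =>
      contDiffAt_ofReal.1 (h1 x e he z hz)
    exact contDiffAt_ofReal.2 ((ContDiffAt.sum fun x _ => h7 x).div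
      (ContDiffAt.sum fun x _ => h7 x) (hS _).ne')
  · refine (closure_minimal (t := ⋃ x ∈ t.filter (a · = k), K x) (fun y hy => ?_)
      (isClosed_biUnion_finset fun x _ => h4 x)).trans
      (iUnion₂_subset fun x hx => (Finset.mem_filter.1 hx).2 ▸ h5 x)
    by_contra h
    exact hy (div_eq_zero_iff.2 (Or.inl
      (Finset.sum_eq_zero fun x hx => h6 x y fun c => h (mem_biUnion hx c))))
  · rw [← Finset.sum_div, Finset.sum_fiberwise t a fun x => χ x y, div_self (hS y).ne']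

theorem smo (ha : RepA) (_hc : CurvS) (hm : MatS) : SmoS := by
  intro ι X _ _ _ M C m
  refine ⟨fun h hh => ?_, fun σ hσ => ?_, fun σ B h => ⟨(ha _ _ M).ckS_loc 2 m σ fun x => ?_,
    fun a => (h a).2.1⟩, fun σ B h => (ha _ _ M).ckS_loc 0 m σ fun x => ?_⟩
  · have h1 : ∀ a, ∀ z ∈ (C.e a).target, CdM ∞ (M.repF h (C.e a)) z := fun a z hz =>
      (hh _ (C.mem a)).1.1 z hz
    have h2 : ∀ a, ∀ z ∈ (C.e a).target, 0 < (M.repF h (C.e a) z).det.re := fun a z hz =>
      (hm.det _ _ ((hh _ (C.mem a)).2 z hz)).1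
    obtain ⟨L1, -, l1⟩ := unif (P := fun (k : Fin C.n × ι × ι) L =>
        Hol L (fun w => M.repF h (C.e k.1) w k.2.1 k.2.2) (ball 0 (2 * C.r k.1)))
      (fun _ _ _ e h => Hol.mono h e) fun k => hol_ball (C.pos k.1) (C.sub k.1)
        fun z hz => ((h1 k.1 z hz).of_le (m := 1) (by simp)) k.2.1 k.2.2
    obtain ⟨L2, -, l2⟩ := unif (P := fun (k : Fin C.n × ι × ι) L =>
        Hol L (fun w => (M.repF h (C.e k.1) w)⁻¹ k.2.1 k.2.2) (ball 0 (2 * C.r k.1)))
      (fun _ _ _ e h => Hol.mono h e) fun k => hol_ball (C.pos k.1) (C.sub k.1)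
        fun z hz => ((h1 k.1 z hz).of_le (m := 1) (by simp)).inv
          (fun e => by simpa [e] using h2 k.1 z hz) k.2.1 k.2.2
    obtain ⟨L3, -, l3⟩ := unif (P := fun (k : Fin C.n × ι) L =>
        Hol L (fun z => (m : ℂ) * dz (lg (M.repF h (C.e k.1))) k.2 z) (ball 0 (2 * C.r k.1)))
      (fun _ _ _ e h => Hol.mono h e) fun k => hol_ball (C.pos k.1) (C.sub k.1)
        fun z hz => contDiffAt_const.mul
          ((contDiffAt_dz_top ((h1 k.1 z hz).lg (h2 k.1 z hz).ne') k.2).of_le (by simp))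
    exact ⟨max L1 (max L2 L3), fun a => ⟨fun i j => (l1 (a, i, j)).mono (le_max_left _ _),
      fun i j => (l2 (a, i, j)).mono ((le_max_left _ _).trans (le_max_right _ _)),
      fun i => (l3 (a, i)).mono ((le_max_right _ _).trans (le_max_right _ _))⟩⟩
  · refine unif (fun _ _ _ e h => ⟨h.1, h.2.1.mono e, h.2.2.1.mono e, h.2.2.2.mono e⟩) fun a => ?_
    have h1 := hσ _ (C.mem a)
    obtain ⟨L1, l1⟩ := hol_ball (C.pos a) (C.sub a) fun z hz => (h1 z hz).of_le (by simp)
    obtain ⟨L2, l2⟩ := hol_ball (C.pos a) (C.sub a) fun z hz =>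
      ((h1 z hz).fderiv_right (m := ∞) (by simp)).of_le (by simp)
    obtain ⟨L3, l3⟩ := hol_ball (C.pos a) (C.sub a) fun z hz =>
      (((h1 z hz).fderiv_right (m := ∞) (by simp)).fderiv_right (m := ∞) (by simp)).of_le (by simp)
    refine ⟨max L1 (max L2 L3), fun z hz => (h1 z (C.sub a ?_)).of_le
      (WithTop.coe_le_coe.2 (le_top : (2 : ℕ∞) ≤ ⊤)),
      l1.mono (le_max_left _ _), l2.mono ((le_max_left _ _).trans (le_max_right _ _)),
      l3.mono ((le_max_right _ _).trans (le_max_right _ _))⟩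
    exact closedBall_subset_closedBall (by linarith [C.pos a]) (ball_subset_closedBall hz)
  · obtain ⟨a, h1, h2⟩ := C.cover x
    exact ⟨_, C.mem a, h1, (h a).1 _ (mem_ball_zero_iff.2 (by linarith [C.pos a]))⟩
  · obtain ⟨a, h1, h2⟩ := C.cover x
    exact ⟨_, C.mem a, h1, contDiffAt_zero.2 ⟨_, isOpen_ball.mem_nhds
      (mem_ball_zero_iff.2 (by linarith [C.pos a])), hol_cont (h a)⟩⟩

theorem maxAtl (ha : RepA) : MaxAtlS := by
  intro ι X _ _ _ _ _ K
  have h0 : atlas (ι → ℂ) X ⊆ {e : Ch ι X | ∀ x ∈ e.source,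
      AnalyticAt ℂ (e ∘ (chartAt (ι → ℂ) x).symm) (chartAt (ι → ℂ) x x) ∧
      AnalyticAt ℂ (chartAt (ι → ℂ) x ∘ e.symm) (e x)} := fun e he x hx =>
    ⟨atl_an (chart_mem_atlas _ x) he (mem_chart_source _ x) hx,
      atl_an he (chart_mem_atlas _ x) hx (mem_chart_source _ x)⟩
  let M : Atl ι X := ⟨_, chartAt (ι → ℂ), fun x => h0 (chart_mem_atlas _ x), mem_chart_source _,
    fun e he e' he' x hx hx' => by
      have h1 := (he' x hx').1
      rw [show chartAt (ι → ℂ) x x = (chartAt (ι → ℂ) x ∘ e.symm) (e x) by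
        rw [Function.comp_apply, e.left_inv hx]] at h1
      refine (h1.comp (he x hx).2).congr ?_
      have h2 := e.continuousAt_symm (e.map_source hx)
      rw [ContinuousAt, e.left_inv hx] at h2
      filter_upwards [h2 (chart_source_mem_nhds (ι → ℂ) x)] with z hz
      simp only [Function.comp_apply]
      rw [(chartAt (ι → ℂ) x).left_inv hz], fun e he => he⟩
  have h1 : ∀ e ∈ atlas (ι → ℂ) X, ∀ z ∈ e.target,
      M.repF (fun x => K.g (chartAt (ι → ℂ) x) (chartAt (ι → ℂ) x x)) e z = K.g e z := by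
    intro e he z hz
    have h2 := K.trans e he _ (chart_mem_atlas _ (e.symm z)) _ (e.map_target hz)
      (mem_chart_source _ _)
    rw [← show K.g e (e (e.symm z)) = K.g e z by rw [e.right_inv hz], h2]
    rfl
  refine ⟨M, _, h0, fun _ => rfl, ((ha _ _ M).isK_iff _).2 ⟨(ha _ _ M).clF_loc _ fun x => ?_,
    fun x => K.pos _ (chart_mem_atlas _ x) _ (mem_chart_target _ x)⟩, h1⟩
  have he := chart_mem_atlas (ι → ℂ) x
  have hz := mem_chart_target (ι → ℂ) x
  have hn := (chartAt (ι → ℂ) x).open_target.mem_nhds hz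
  have h3 : ∀ i j, (fun w => M.repF (fun x => K.g (chartAt (ι → ℂ) x) (chartAt (ι → ℂ) x x))
      (chartAt (ι → ℂ) x) w i j) =ᶠ[𝓝 (chartAt (ι → ℂ) x x)]
      fun w => K.g (chartAt (ι → ℂ) x) w i j := fun i j => by
    filter_upwards [hn] with w hw
    rw [h1 _ he w hw]
  refine ⟨_, h0 he, mem_chart_source _ x, ?_, ?_, ?_⟩
  · rintro _ rfl i j
    exact ((K.smooth _ he i j).contDiffAt hn).congr_of_eventuallyEq (h3 i j)
  · rintro _ rfl
    rw [h1 _ he _ hz]
    exact (K.pos _ he _ hz).isHermitian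
  · rintro _ rfl i j k
    rw [dz_congr (h3 i j), dz_congr (h3 k j)]
    exact K.closed _ he _ hz i j k

end Pool.Agent.Lib.MP_813db1_ag.HS
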