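import Pool.Agent.Lib.MP_813db1_ag.HS.Stmt

/-! Local identities of Kaehler geometry. -/

namespace Pool.Agent.Lib.MP_813db1_ag.HS

open MeasureTheory Complex Matrix Filter Topology Set Metric
open scoped ContDiff ComplexOrder

noncomputable section

namespace Curv

variable {ι : Type} [Fintype ι] [DecidableEq ι]

/-- a complex combination of two real directions. -/
structure Dir (ι : Type) where
  a : ℂ
  u : V ι
  b : ℂ
  v : V ι

/-- the derivative in a complex direction. -/
def D (p : Dir ι) (f : V ι → ℂ) (z : V ι) : ℂ := p.a * fderiv ℝ f z p.u + p.b * fderiv ℝ f z p.v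

/-- the entrywise derivative in a complex direction. -/
def DM (p : Dir ι) (G : V ι → Mat ι) (z : V ι) : Mat ι :=
  Matrix.of fun i j => D p (fun w => G w i j) z

/-- the direction of `dz`. -/
def pz (k : ι) : Dir ι := ⟨1 / 2, Pi.single k 1, -I / 2, Pi.single k I⟩

/-- the direction of `dzb`. -/
def pb (k : ι) : Dir ι := ⟨1 / 2, Pi.single k 1, I / 2, Pi.single k I⟩

theorem dz_eq (f : V ι → ℂ) (k : ι) : dz f k = D (pz k) f := by
  funext z
  simp only [dz, D, pz]
  ring

theorem dzb_eq (f : V ι → ℂ) (k : ι) : dzb f k = D (pb k) f := by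
  funext z
  simp only [dzb, D, pb]
  ring

theorem dM_eq (G : V ι → Mat ι) (k : ι) : dM G k = DM (pz k) G := by
  funext z
  simp only [dM, DM, dz_eq]

theorem dMb_eq (G : V ι → Mat ι) (k : ι) : dMb G k = DM (pb k) G := by
  funext z
  simp only [dMb, DM, dzb_eq]

omit [DecidableEq ι] in
theorem D_congr (p : Dir ι) {f g : V ι → ℂ} {z : V ι} (h : f =ᶠ[𝓝 z] g) : D p f z = D p g z := by
  simp only [D, h.fderiv_eq]

omit [DecidableEq ι] in
theorem D_const (p : Dir ι) (c : ℂ) (z : V ι) : D p (fun _ => c) z = 0 := by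
  simp [D]

omit [DecidableEq ι] in
theorem D_neg (p : Dir ι) (f : V ι → ℂ) (z : V ι) : D p (fun w => -f w) z = -D p f z := by
  simp only [D, fderiv_fun_neg, _root_.neg_apply]
  ring

omit [DecidableEq ι] in
theorem D_mul (p : Dir ι) {f g : V ι → ℂ} {z : V ι} (hf : DifferentiableAt ℝ f z)
    (hg : DifferentiableAt ℝ g z) :
    D p (fun w => f w * g w) z = D p f z * g z + f z * D p g z := by
  simp only [D, fderiv_fun_mul hf hg, _root_.add_apply,
    _root_.smul_apply, smul_eq_mul]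
  ring

omit [DecidableEq ι] in
theorem D_sum (p : Dir ι) {κ : Type} (S : Finset κ) {f : κ → V ι → ℂ} {z : V ι}
    (hf : ∀ i ∈ S, DifferentiableAt ℝ (f i) z) :
    D p (fun w => ∑ i ∈ S, f i w) z = ∑ i ∈ S, D p (f i) z := by
  simp only [D, fderiv_fun_sum hf, _root_.sum_apply, Finset.mul_sum,
    Finset.sum_add_distrib]

omit [DecidableEq ι] in
theorem D_prod (p : Dir ι) {κ : Type} [DecidableEq κ] (S : Finset κ) {f : κ → V ι → ℂ} {z : V ι}
    (hf : ∀ i ∈ S, DifferentiableAt ℝ (f i) z) :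
    D p (fun w => ∏ i ∈ S, f i w) z = ∑ i ∈ S, (∏ j ∈ S.erase i, f j z) * D p (f i) z := by
  have h := (HasFDerivAt.finsetProd (u := S) (g := f) (g' := fun i => fderiv ℝ (f i) z)
    fun i hi => (hf i hi).hasFDerivAt).fderiv
  simp only [D, h, _root_.sum_apply, _root_.smul_apply, smul_eq_mul,
    Finset.mul_sum, ← Finset.sum_add_distrib]
  exact Finset.sum_congr rfl fun i _ => by ring

omit [DecidableEq ι] in
theorem D_exp (p : Dir ι) {f : V ι → ℂ} {z : V ι} (hf : DifferentiableAt ℝ f z) :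
    D p (fun w => cexp (f w)) z = cexp (f z) * D p f z := by
  simp only [D, hf.hasFDerivAt.cexp.fderiv, _root_.smul_apply, smul_eq_mul]
  ring

omit [DecidableEq ι] in
theorem fderiv_star (f : V ι → ℂ) (z v : V ι) :
    fderiv ℝ (fun w => star (f w)) z v = star (fderiv ℝ f z v) := by
  have h := (conjCLE : ℂ ≃L[ℝ] ℂ).comp_fderiv (f := f) (x := z)
  have e : (fun w => star (f w)) = (conjCLE : ℂ ≃L[ℝ] ℂ) ∘ f := rfl
  rw [e, h]
  rfl

theorem star_pz (f : V ι → ℂ) (k : ι) (z : V ι) :
    star (D (pz k) f z) = D (pb k) (fun w => star (f w)) z := by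
  simp only [D, pz, pb, fderiv_star, star_add, star_mul', star_div₀, star_neg]
  simp

theorem star_pb (f : V ι → ℂ) (k : ι) (z : V ι) :
    star (D (pb k) f z) = D (pz k) (fun w => star (f w)) z := by
  simp only [D, pz, pb, fderiv_star, star_add, star_mul', star_div₀]
  simp

omit [DecidableEq ι] in
theorem cd_fd {f : V ι → ℂ} {z : V ι} (hf : ContDiffAt ℝ ∞ f z) (v : V ι) :
    ContDiffAt ℝ ∞ (fun w => fderiv ℝ f w v) z :=
  (hf.fderiv_right (m := ∞) (by simp)).clm_apply contDiffAt_const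

omit [DecidableEq ι] in
theorem cd_D (p : Dir ι) {f : V ι → ℂ} {z : V ι} (hf : ContDiffAt ℝ ∞ f z) :
    ContDiffAt ℝ ∞ (D p f) z :=
  (contDiffAt_const.mul (cd_fd hf _)).add (contDiffAt_const.mul (cd_fd hf _))

omit [DecidableEq ι] in
theorem df {f : V ι → ℂ} {z : V ι} (hf : ContDiffAt ℝ ∞ f z) : DifferentiableAt ℝ f z :=
  hf.differentiableAt (by simp)

omit [DecidableEq ι] in
theorem fd_fd {f : V ι → ℂ} {z : V ι} (hf : ContDiffAt ℝ ∞ f z) (u v : V ι) :
    fderiv ℝ (fun w => fderiv ℝ f w u) z v = fderiv ℝ (fderiv ℝ f) z v u := by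
  have h : DifferentiableAt ℝ (fderiv ℝ f) z :=
    (hf.fderiv_right (m := ∞) (by simp)).differentiableAt (by simp)
  rw [fderiv_clm_apply h (differentiableAt_const u)]
  simp

omit [DecidableEq ι] in
theorem fd_D (p : Dir ι) {f : V ι → ℂ} {z : V ι} (hf : ContDiffAt ℝ ∞ f z) (v : V ι) :
    fderiv ℝ (D p f) z v =
      p.a * fderiv ℝ (fderiv ℝ f) z v p.u + p.b * fderiv ℝ (fderiv ℝ f) z v p.v := by
  have h := (((df (cd_fd hf p.u)).hasFDerivAt.const_mul p.a).add
    ((df (cd_fd hf p.v)).hasFDerivAt.const_mul p.b)).fderiv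
  have e : D p f = (fun w => p.a * fderiv ℝ f w p.u) + fun w => p.b * fderiv ℝ f w p.v := rfl
  rw [e, h]
  simp only [_root_.add_apply, _root_.smul_apply, smul_eq_mul, fd_fd hf]

omit [DecidableEq ι] in
theorem D_comm (p q : Dir ι) {f : V ι → ℂ} {z : V ι} (hf : ContDiffAt ℝ ∞ f z) :
    D p (D q f) z = D q (D p f) z := by
  have s : IsSymmSndFDerivAt ℝ f z :=
    (hf.of_le (show ((2 : ℕ∞) : WithTop ℕ∞) ≤ ∞ from
      WithTop.coe_le_coe.2 le_top)).isSymmSndFDerivAt (by simp)
  have e : ∀ p q : Dir ι, D p (D q f) z =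
      p.a * fderiv ℝ (D q f) z p.u + p.b * fderiv ℝ (D q f) z p.v := fun _ _ => rfl
  rw [e, e, fd_D q hf, fd_D q hf, fd_D p hf, fd_D p hf, s p.u q.u, s p.u q.v, s p.v q.u, s p.v q.v]
  ring

/-- smooth entries. -/
def Sm (G : V ι → Mat ι) (z : V ι) : Prop := ∀ i j, ContDiffAt ℝ ∞ (fun w => G w i j) z

theorem cd_det {G : V ι → Mat ι} {z : V ι} (h : Sm G z) :
    ContDiffAt ℝ ∞ (fun w => (G w).det) z := by
  simp only [det_apply']
  exact ContDiffAt.sum fun σ _ => contDiffAt_const.mul (contDiffAt_prod fun i _ => h _ _)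

theorem Sm.row {G : V ι → Mat ι} {z : V ι} (h : Sm G z) (i : ι) (c : V ι) :
    Sm (fun w => (G w).updateRow i c) z := fun a b => by
  by_cases e : a = i
  · simp only [updateRow_apply, if_pos e]
    exact contDiffAt_const
  · simp only [updateRow_apply, if_neg e]
    exact h a b

theorem Sm.inv {G : V ι → Mat ι} {z : V ι} (h : Sm G z) (h0 : (G z).det ≠ 0) :
    Sm (fun w => (G w)⁻¹) z := fun i j => by
  simp only [Matrix.inv_def, Matrix.smul_apply, adjugate_apply, smul_eq_mul, Ring.inverse_eq_inv']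
  exact ((cd_det h).inv h0).mul (cd_det (h.row _ _))

omit [DecidableEq ι] in
theorem Sm.mul {G H : V ι → Mat ι} {z : V ι} (h : Sm G z) (h' : Sm H z) :
    Sm (fun w => G w * H w) z := fun i j => by
  simp only [Matrix.mul_apply]
  exact ContDiffAt.sum fun _ _ => (h _ _).mul (h' _ _)

omit [DecidableEq ι] in
theorem Sm.dm {G : V ι → Mat ι} {z : V ι} (h : Sm G z) (p : Dir ι) : Sm (DM p G) z :=
  fun i j => cd_D p (h i j)

omit [DecidableEq ι] in
theorem DM_mul (p : Dir ι) {G H : V ι → Mat ι} {z : V ι} (h : Sm G z) (h' : Sm H z) :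
    DM p (fun w => G w * H w) z = DM p G z * H z + G z * DM p H z := by
  ext i j
  simp only [DM, Matrix.mul_apply, Matrix.add_apply, of_apply]
  rw [D_sum p _ fun a _ => df ((h i a).mul (h' a j)), ← Finset.sum_add_distrib]
  exact Finset.sum_congr rfl fun a _ => D_mul p (df (h i a)) (df (h' a j))

theorem DM_inv (p : Dir ι) {G : V ι → Mat ι} {z : V ι} (h : Sm G z) (h0 : (G z).det ≠ 0) :
    DM p (fun w => (G w)⁻¹) z = -((G z)⁻¹ * DM p G z * (G z)⁻¹) := by
  have e : DM p (fun w => G w * (G w)⁻¹) z = 0 := by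
    ext i j
    have : (fun w => (G w * (G w)⁻¹) i j) =ᶠ[𝓝 z] fun _ => (1 : Mat ι) i j :=
      ((cd_det h).continuousAt.eventually_ne h0).mono fun w hw => by
        simp only [Matrix.mul_nonsing_inv _ (Ne.isUnit hw)]
    simp only [DM, of_apply, D_congr p this, D_const, Matrix.zero_apply]
  rw [DM_mul p h (h.inv h0)] at e
  have e' := congrArg ((G z)⁻¹ * ·) e
  simp only [Matrix.mul_add, Matrix.mul_zero, Matrix.nonsing_inv_mul_cancel_left _ _ (Ne.isUnit h0),
    ← Matrix.mul_assoc] at e'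
  exact eq_neg_of_add_eq_zero_right e'

omit [DecidableEq ι] in
theorem DM_comm (p q : Dir ι) {G : V ι → Mat ι} {z : V ι} (h : Sm G z) :
    DM p (DM q G) z = DM q (DM p G) z := by
  ext i j
  exact D_comm p q (h i j)

omit [DecidableEq ι] in
theorem D_trace (p : Dir ι) {G : V ι → Mat ι} {z : V ι} (h : Sm G z) :
    D p (fun w => trace (G w)) z = trace (DM p G z) := by
  simp only [trace, diag]
  exact D_sum p _ fun i _ => df (h i i)

theorem D_det (p : Dir ι) {G : V ι → Mat ι} {z : V ι} (h : Sm G z) :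
    D p (fun w => (G w).det) z = ∑ i, ((G z).updateRow i (DM p G z i)).det := by
  simp only [det_apply']
  rw [D_sum p _ fun σ _ => df (contDiffAt_const.mul (contDiffAt_prod fun i _ => h _ _)),
    Finset.sum_comm]
  refine Finset.sum_congr rfl fun σ _ => ?_
  rw [D_mul p (differentiableAt_const _) (df (contDiffAt_prod fun i _ => h _ _)), D_const, zero_mul,
    zero_add, D_prod p _ fun i _ => df (h _ _), ← Finset.mul_sum]
  congr 1
  refine Fintype.sum_equiv σ _ _ fun i => ?_
  rw [← Finset.prod_erase_mul _ _ (Finset.mem_univ i), updateRow_self]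
  congr 1
  exact Finset.prod_congr rfl fun j hj => by
    rw [updateRow_ne fun e => Finset.ne_of_mem_erase hj (σ.injective e)]

theorem det_row (A : Mat ι) (i : ι) (c : V ι) :
    (A.updateRow i c).det = ∑ j, c j * A.adjugate j i := by
  rw [← cramer_transpose_apply, cramer_eq_adjugate_mulVec, ← adjugate_transpose]
  simp only [mulVec, dotProduct, transpose_apply, mul_comm]

theorem D_det' (p : Dir ι) {G : V ι → Mat ι} {z : V ι} (h : Sm G z) (h0 : (G z).det ≠ 0) :
    D p (fun w => (G w).det) z = (G z).det * trace (DM p G z * (G z)⁻¹) := by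
  rw [D_det p h, Matrix.inv_def, Matrix.mul_smul, trace_smul, smul_eq_mul, Ring.inverse_eq_inv',
    mul_inv_cancel_left₀ h0]
  simp only [det_row, trace, diag, Matrix.mul_apply]

theorem div_adj {B : V ι → Mat ι} {z : V ι} (h : Sm B z)
    (hc : ∀ i j k, dz (fun w => B w i j) k z = dz (fun w => B w k j) i z) (j : ι) :
    ∑ i, dz (fun w => (B w).adjugate j i) i z = 0 := by
  let T : ι → ι → ℂ := fun i p => if p = i then 0 else
    (((B z).updateRow i (Pi.single j 1)).updateRow p (DM (pz i) B z p)).det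
  have e : ∀ i, dz (fun w => (B w).adjugate j i) i z = ∑ p, T i p := fun i => by
    simp only [adjugate_apply, dz_eq]
    rw [D_det _ (h.row _ _)]
    refine Finset.sum_congr rfl fun p _ => ?_
    by_cases c : p = i
    · simp only [T, if_pos c]
      refine det_eq_zero_of_row_eq_zero p fun b => ?_
      simp only [updateRow_self, DM, of_apply, c, D_const]
    · simp only [T, if_neg c]
      congr 2
      funext b
      simp only [DM, of_apply, updateRow_apply, if_neg c]
  have a : ∀ i p, T i p = -T p i := fun i p => by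
    by_cases c : p = i
    · simp [T, c]
    have r : DM (pz p) B z i = DM (pz i) B z p := funext fun b => by
      simpa only [DM, of_apply, dz_eq] using hc i b p
    simp only [T, if_neg c, if_neg (Ne.symm c), r]
    have s := det_permute (Equiv.swap i p)
      (((B z).updateRow p (Pi.single j 1)).updateRow i (DM (pz i) B z p))
    rw [Equiv.Perm.sign_swap (Ne.symm c)] at s
    simp only [Units.val_neg, Units.val_one, Int.cast_neg, Int.cast_one, neg_mul, one_mul] at s
    rw [← s]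
    congr 1
    ext x y
    by_cases c1 : x = p
    · simp [c1]
    by_cases c2 : x = i
    · simp [c2, updateRow_apply, c, Ne.symm c]
    · simp [Equiv.swap_apply_of_ne_of_ne c2 c1, updateRow_apply, c1, c2]
  have t : ∑ i, ∑ p, T i p = -∑ i, ∑ p, T i p := by
    conv_lhs => rw [Finset.sum_comm]
    simp only [← Finset.sum_neg_distrib]
    exact Finset.sum_congr rfl fun i _ => Finset.sum_congr rfl fun p _ => a p i
  simp only [e]
  linear_combination (1 / 2 : ℂ) * t

theorem det_exp {A : Mat ι} (h : A.PosDef) : cexp (Real.log A.det.re : ℝ) = A.det := by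
  have h1 := Complex.lt_def.1 h.det_pos
  rw [← ofReal_exp, Real.exp_log (by simpa using h1.1)]
  exact Complex.ext rfl (by simpa using h1.2)

theorem cd_lg {G : V ι → Mat ι} {z : V ι} (h : Sm G z) (h0 : (G z).PosDef) :
    ContDiffAt ℝ ∞ (fun w => Real.log (G w).det.re) z :=
  (reCLM.contDiff.contDiffAt.comp z (cd_det h)).log
    (by simpa using (Complex.lt_def.1 h0.det_pos).1.ne')

theorem cd_of {u : V ι → ℝ} {z : V ι} (h : ContDiffAt ℝ ∞ u z) :
    ContDiffAt ℝ ∞ (fun w => (u w : ℂ)) z :=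
  ofRealCLM.contDiff.contDiffAt.comp z h

theorem D_lg (p : Dir ι) {G : V ι → Mat ι} {U : Set (V ι)} (hU : IsOpen U) (h : SmM G U)
    (h0 : ∀ z ∈ U, (G z).PosDef) {z : V ι} (hz : z ∈ U) :
    D p (lg G) z = trace (DM p G z * (G z)⁻¹) := by
  have n := (h0 z hz).det_pos.ne'
  have e : (fun w => cexp (lg G w)) =ᶠ[𝓝 z] fun w => (G w).det :=
    Filter.eventually_of_mem (hU.mem_nhds hz) fun w hw => det_exp (h0 w hw)
  have a := D_exp p (f := lg G) (df (cd_of (cd_lg (h z hz) (h0 z hz))))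
  rw [D_congr p e, D_det' p (h z hz) n, show cexp (lg G z) = _ from e.self_of_nhds] at a
  exact (mul_left_cancel₀ n a).symm

/-- the curvature matrices. -/
theorem curv_eq (G : V ι → Mat ι) (z : V ι) (k l : ι) :
    (Matrix.of fun i j => curv G z i j k l) =
      -DM (pz k) (DM (pb l) G) z + DM (pz k) G z * (G z)⁻¹ * DM (pb l) G z := by
  ext i j
  simp only [curv, dz_eq, dzb_eq, of_apply, Matrix.add_apply, Matrix.neg_apply, Matrix.mul_apply,
    DM, Finset.sum_mul]
  congr 1
  exact Finset.sum_congr rfl fun _ _ => Finset.sum_congr rfl fun _ _ => by ring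

theorem sym1 {G : V ι → Mat ι} {U : Set (V ι)} (hU : IsOpen U) (h : ClOn G U) {z : V ι}
    (hz : z ∈ U) (i j k l : ι) : curv G z i j k l = curv G z k j i l := by
  have e : D (pz k) (fun w => G w i j) =ᶠ[𝓝 z] D (pz i) (fun w => G w k j) :=
    Filter.eventually_of_mem (hU.mem_nhds hz) fun w hw => by
      simpa only [dz_eq] using h.2.2 w hw i j k
  simp only [curv, h.2.2 z hz i _ k]
  simp only [dz_eq, dzb_eq]
  rw [D_comm _ _ (h.1 z hz i j), D_congr _ e, D_comm _ _ (h.1 z hz k j)]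

theorem sym3 {G : V ι → Mat ι} {U : Set (V ι)} (hU : IsOpen U) (h : ClOn G U) {z : V ι}
    (hz : z ∈ U) (i j k l : ι) : star (curv G z i j k l) = curv G z j i l k := by
  have e : ∀ a b, ∀ w ∈ U, (fun w => star (G w a b)) =ᶠ[𝓝 w] fun w => G w b a := fun a b w hw =>
    Filter.eventually_of_mem (hU.mem_nhds hw) fun x hx => (h.2.1 x hx).apply b a
  have e' : (fun w => star (D (pb l) (fun w => G w i j) w)) =ᶠ[𝓝 z] D (pz l) fun w => G w j i :=
    Filter.eventually_of_mem (hU.mem_nhds hz) fun w hw =>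
      (star_pb _ _ _).trans (D_congr _ (e i j w hw))
  simp only [curv, dz_eq, dzb_eq, star_add, star_neg, star_sum, star_mul']
  rw [star_pz, D_congr _ e', D_comm _ _ (h.1 z hz j i), Finset.sum_comm]
  congr 1
  refine Finset.sum_congr rfl fun p _ => Finset.sum_congr rfl fun q _ => ?_
  rw [star_pz, star_pb, D_congr _ (e _ _ z hz), D_congr _ (e _ _ z hz), (h.2.1 z hz).inv.apply]
  ring

theorem levi_cl {u : V ι → ℝ} {U : Set (V ι)}
    (h : ∀ z ∈ U, ContDiffAt ℝ ∞ u z) : ClOn (levi fun w => (u w : ℂ)) U := by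
  refine ⟨fun z hz i j => ?_, fun z hz => ?_, fun z hz i j k => ?_⟩
  · simp only [levi, of_apply, dz_eq, dzb_eq]
    exact cd_D _ (cd_D _ (cd_of (h z hz)))
  · ext i j
    simp only [levi, conjTranspose_apply, of_apply, dz_eq, dzb_eq, star_pz, star_pb]
    simp only [star_def, conj_ofReal]
    exact D_comm _ _ (cd_of (h z hz))
  · simp only [levi, of_apply, dz_eq, dzb_eq]
    exact D_comm _ _ (cd_D _ (cd_of (h z hz)))

theorem cl_neg {G : V ι → Mat ι} {U : Set (V ι)} (h : ClOn G U) : ClOn (fun z => -G z) U :=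
  ⟨fun z hz i j => (h.1 z hz i j).neg, fun z hz => (h.2.1 z hz).neg, fun z hz i j k => by
    simp only [Matrix.neg_apply, dz_eq, D_neg]
    simpa only [dz_eq, neg_inj] using h.2.2 z hz i j k⟩

theorem gam_eq (G : V ι → Mat ι) (k : ι) : gam G k = fun w => DM (pz k) G w * (G w)⁻¹ := by
  funext w
  rw [gam, dM_eq]

theorem curvS : CurvS where
  sym ι _ _ G U hU h z hz i j k l := ⟨sym1 hU h.1 hz i j k l, by
    rw [← sym3 hU h.1 hz j i l k, sym1 hU h.1 hz j i l k, sym3 hU h.1 hz], sym3 hU h.1 hz i j k l⟩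
  ric_eq ι _ _ G U hU h z hz k l := by
    have s : Sm G z := h.1.1 z hz
    have n := (h.2 z hz).det_pos.ne'
    have e : D (pb l) (lg G) =ᶠ[𝓝 z] fun w => trace (DM (pb l) G w * (G w)⁻¹) :=
      Filter.eventually_of_mem (hU.mem_nhds hz) fun w hw => D_lg _ hU h.1.1 h.2 hw
    have a : ric G z k l = -D (pz k) (D (pb l) (lg G)) z := by
      rw [← dzb_eq, ← dz_eq]
      rfl
    have b : ∑ i, ∑ j, (G z)⁻¹ j i * curv G z i j k l =
        trace ((Matrix.of fun i j => curv G z i j k l) * (G z)⁻¹) := by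
      simp only [trace, diag, Matrix.mul_apply, of_apply, mul_comm]
    rw [a, b, curv_eq, D_congr _ e, D_trace _ ((s.dm _).mul (s.inv n)), DM_mul _ (s.dm _) (s.inv n),
      DM_inv _ s n]
    simp only [Matrix.add_mul, Matrix.neg_mul, Matrix.mul_neg, trace_add, trace_neg, neg_add,
      neg_neg, Matrix.mul_assoc]
    congr 1
    rw [← Matrix.mul_assoc, trace_mul_comm]
    simp only [Matrix.mul_assoc]
  dbar_gam ι _ _ G U hU h h0 z hz k l := by
    have s : Sm G z := h z hz
    rw [curv_eq, dMb_eq, gam_eq, DM_mul _ (s.dm _) (s.inv (h0 z hz)), DM_inv _ s (h0 z hz),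
      DM_comm _ _ s]
    simp only [neg_add, neg_neg, Matrix.add_mul, Matrix.neg_mul, Matrix.mul_neg, Matrix.mul_assoc]
  flat ι _ _ G U hU h h0 z hz k l := by
    have s : Sm G z := h z hz
    rw [dM_eq, dM_eq, gam_eq, gam_eq, DM_mul _ (s.dm _) (s.inv (h0 z hz)),
      DM_mul _ (s.dm _) (s.inv (h0 z hz)), DM_inv _ s (h0 z hz), DM_inv _ s (h0 z hz),
      DM_comm (pz k) _ s]
    simp only [Matrix.mul_neg, Matrix.mul_assoc]
    abel
  dlg ι _ _ G U hU h h0 z hz := by
    refine ⟨cd_of (cd_lg (h z hz) (h0 z hz)), fun v => ?_, fun k => ?_⟩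
    · simpa only [D, DM, one_mul, zero_mul, add_zero] using D_lg ⟨1, v, 0, v⟩ hU h h0 hz
    · rw [dz_eq, D_lg _ hU h h0 hz, gam_eq]
  div ι _ _ G U hU h z hz j := by
    have s : Sm G z := h.1.1 z hz
    have a : ∀ i, dz (fun w => (G w)⁻¹ j i) i z = -((G z)⁻¹ * DM (pz i) G z * (G z)⁻¹) j i :=
      fun i => by
        rw [← Matrix.neg_apply, ← DM_inv _ s (h.2 z hz).det_pos.ne', dz_eq]
        rfl
    have c : ∀ i p q, DM (pz i) G z p q = DM (pz p) G z i q := fun i p q => by
      simpa only [DM, of_apply, dz_eq] using h.1.2.2 z hz p q i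
    simp only [a, dz_eq (lg G), D_lg _ hU h.1.1 h.2 hz, Finset.sum_neg_distrib, neg_inj,
      Matrix.mul_assoc]
    simp only [trace, diag, Matrix.mul_apply, Finset.mul_sum]
    rw [Finset.sum_comm]
    exact Finset.sum_congr rfl fun p _ => Finset.sum_congr rfl fun i _ =>
      Finset.sum_congr rfl fun q _ => by rw [c i p q]
  levi_cl ι _ _ u U hU h := levi_cl h
  ric_cl ι _ _ G U hU h h0 := cl_neg (levi_cl fun z hz => cd_lg (h z hz) (h0 z hz))
  adj ι _ _ B U hU h z hz j := div_adj (h.1 z hz) (h.2.2 z hz) j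

end Curv

theorem curvS (_hm : MatS) : CurvS := Curv.curvS

end

end Pool.Agent.Lib.MP_813db1_ag.HS
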