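import Pool.Agent.Lib.MP_813db1_ag.HS.Stmt2
import Pool.Agent.Lib.MP_813db1_ag.HS.Calc2
import Pool.Agent.Lib.MP_813db1_ag.HS.Curv

/-! The divergence theorem. -/

namespace Pool.Agent.Lib.MP_813db1_ag.HS

open MeasureTheory Complex Matrix Filter Topology Set Metric
open scoped ContDiff ComplexOrder

noncomputable section

namespace Div

variable {ι : Type} [Fintype ι] [DecidableEq ι]

/-- the divergence in a chart. -/
def dv (W : V ι → V ι) (z : V ι) : ℂ := ∑ i, dz (fun w => W w i) i z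

theorem dv_congr {W W' : V ι → V ι} {z : V ι} (h : W =ᶠ[𝓝 z] W') : dv W z = dv W' z :=
  Finset.sum_congr rfl fun i _ => dz_congr (h.mono fun _ e => congrFun e i) i

theorem dv_zero (z : V ι) : dv (fun _ => 0) z = 0 :=
  Finset.sum_eq_zero fun i _ => dz_const 0 i z

theorem piola {φ : V ι → V ι} {z : V ι} (h : AnalyticAt ℂ φ z) (p : ι) :
    ∑ i, dz (fun w => (jac φ w).adjugate i p) i z = 0 := by
  have e : ∀ j i, (fun w => jac φ w j i) =ᶠ[𝓝 z] dz (fun w => φ w j) i := fun j i =>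
    h.eventually_analyticAt.mono fun w hw => jac_eq_dz hw.differentiableAt j i
  have := Curv.div_adj (B := fun w => (jac φ w)ᵀ) (z := z)
    (fun i j => cdM_jac (n := ∞) h j i) (fun i j k => by
      simp only [transpose_apply]
      rw [dz_congr (e j i), dz_congr (e j k)]
      exact dz_dz_comm ((contDiffAt_pi.1 (h.contDiffAt.restrict_scalars ℝ)) j) k i) p
  simpa only [← adjugate_transpose, transpose_apply] using this

theorem dv_tr {φ W W' : V ι → V ι} {z : V ι} (h : AnalyticAt ℂ φ z) (h0 : (jac φ z).det ≠ 0)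
    (hW : DifferentiableAt ℝ W' (φ z))
    (e : ∀ᶠ w in 𝓝 z, jac φ w *ᵥ W w = ((‖(jac φ w).det‖ ^ 2 : ℝ) : ℂ) • W' (φ w)) :
    dv W z = ((‖(jac φ z).det‖ ^ 2 : ℝ) : ℂ) * dv W' (φ z) := by
  have hJ : DfM (jac φ) z := (cdM_jac (n := 1) h).df one_ne_zero
  have n : ∀ c : ℂ, ((‖c‖ ^ 2 : ℝ) : ℂ) = star c * c := fun c => by
    rw [← Complex.normSq_eq_norm_sq, Complex.normSq_eq_conj_mul_self]; rfl
  have e1 : W =ᶠ[𝓝 z] fun w i => star (jac φ w).det *
      ∑ p, (jac φ w).adjugate i p * ((fun y => W' y p) ∘ φ) w := by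
    filter_upwards [e, hJ.det.continuousAt.eventually_ne h0] with w hw hd
    have := congrArg (fun v => (jac φ w).adjugate *ᵥ v) hw
    simp only [mulVec_mulVec, adjugate_mul, smul_mulVec, one_mulVec, mulVec_smul, n] at this
    funext i
    have := congrFun this i
    simp only [Pi.smul_apply, smul_eq_mul] at this
    refine mul_left_cancel₀ hd (this.trans ?_)
    simp only [mulVec, dotProduct, Function.comp]
    ring
  have dW : ∀ p, DifferentiableAt ℝ (fun y => W' y p) (φ z) := differentiableAt_pi.1 hW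
  have dC : ∀ p, DifferentiableAt ℝ ((fun y => W' y p) ∘ φ) z := fun p =>
    (dW p).comp z (h.differentiableAt.restrictScalars ℝ)
  have hd : DifferentiableAt ℂ (fun w => (jac φ w).det) z := by
    simp only [det_apply']
    exact DifferentiableAt.fun_sum fun σ _ => (HasFDerivAt.finsetProd fun i _ =>
      (analyticAt_jac h (σ i) i).differentiableAt.hasFDerivAt).differentiableAt.const_mul _
  have e2 : ∀ i, dz (fun w => star (jac φ w).det *
      ∑ p, (jac φ w).adjugate i p * ((fun y => W' y p) ∘ φ) w) i z =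
      star (jac φ z).det * ∑ p, (dz (fun w => (jac φ w).adjugate i p) i z * W' (φ z) p +
        ∑ q, jac φ z q i * (jac φ z).adjugate i p * dz (fun y => W' y p) q (φ z)) := fun i => by
    rw [dz_mul hJ.det.star
      (DifferentiableAt.fun_sum fun p _ => (hJ.adjugate i p).fun_mul (dC p)),
      dz_star, dzb_hol hd, star_zero, zero_mul, zero_add,
      dz_sum _ fun p _ => (hJ.adjugate i p).fun_mul (dC p)]
    refine congrArg _ (Finset.sum_congr rfl fun p _ => ?_)
    rw [dz_mul (hJ.adjugate i p) (dC p), dz_comp (dW p) h.differentiableAt, Finset.mul_sum]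
    exact congrArg₂ _ rfl (Finset.sum_congr rfl fun q _ => by ring)
  rw [dv_congr e1, dv, n, mul_assoc]
  simp only [e2]
  rw [← Finset.mul_sum, Finset.sum_comm, dv, Finset.mul_sum _ _ (jac φ z).det]
  refine congrArg _ (Finset.sum_congr rfl fun p _ => ?_)
  rw [Finset.sum_add_distrib, ← Finset.sum_mul, piola h, zero_mul, zero_add, Finset.sum_comm]
  have e3 : ∀ q, ∑ i, jac φ z q i * (jac φ z).adjugate i p * dz (fun y => W' y p) q (φ z) =
      if q = p then (jac φ z).det * dz (fun y => W' y p) q (φ z) else 0 := fun q => by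
    rw [← Finset.sum_mul, ← Matrix.mul_apply, mul_adjugate, Matrix.smul_apply, one_apply]
    split_ifs <;> simp
  simp only [e3, Finset.sum_ite_eq', Finset.mem_univ, if_true]

/-- the integral of the divergence of a field that vanishes off a compact set. -/
theorem int_dv {W : V ι → V ι} {O K : Set (V ι)} (hO : IsOpen O) (hK : IsCompact K) (hs : K ⊆ O)
    (hW : ∀ z ∈ O, ContDiffAt ℝ 1 W z) (h0 : ∀ z ∈ O, z ∉ K → W z = 0) :
    ∫ z in O, dv W z = 0 := by
  have z0 : ∀ z ∉ K, O.indicator W z = 0 := fun z hz => by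
    by_cases h : z ∈ O
    · rw [indicator_of_mem h, h0 z h hz]
    · exact indicator_of_notMem h _
  have e0 : ∀ z ∉ K, O.indicator W =ᶠ[𝓝 z] fun _ => 0 := fun z hz =>
    mem_of_superset (hK.isClosed.isOpen_compl.mem_nhds hz) z0
  have e1 : ∀ z ∈ O, O.indicator W =ᶠ[𝓝 z] W := fun z hz =>
    mem_of_superset (hO.mem_nhds hz) fun w hw => indicator_of_mem hw _
  have hc : ContDiff ℝ 1 (O.indicator W) := contDiff_iff_contDiffAt.2 fun z => by
    by_cases h : z ∈ O
    · exact (hW z h).congr_of_eventuallyEq (e1 z h)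
    · exact contDiffAt_const.congr_of_eventuallyEq (e0 z fun k => h (hs k))
  have hi : ∀ i, ContDiff ℝ 1 fun w => O.indicator W w i := contDiff_pi.1 hc
  have hk : ∀ i, HasCompactSupport fun w => O.indicator W w i := fun i =>
    HasCompactSupport.intro hK fun z hz => congrFun (z0 z hz) i
  rw [setIntegral_congr_fun hO.measurableSet fun z hz => (dv_congr (e1 z hz)).symm,
    setIntegral_eq_integral_of_forall_compl_eq_zero fun z hz =>
      (dv_congr (e0 z fun k => hz (hs k))).trans (dv_zero z)]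
  have ig : ∀ i, Integrable (dz (fun w => O.indicator W w i) i) := fun i =>
    ((integrable_fderiv (hi i) (hk i) _).sub
      ((integrable_fderiv (hi i) (hk i) _).const_mul I)).div_const 2
  unfold dv
  rw [integral_finsetSum _ fun i _ => ig i]
  exact Finset.sum_eq_zero fun i _ => integral_dz_eq_zero (hi i) (hk i) i

variable {X : Type} [TopologicalSpace X] {M : Atl ι X} {g : X → Mat ι} {S : Set (Ch ι X)}
  {O : Ch ι X → Set (V ι)}

theorem exists_d (ha : RepA' M) (hm : MatS) (hg : M.IsK g) (hS : S ⊆ M.A)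
    (hO : ∀ e ∈ S, IsOpen (O e) ∧ O e ⊆ e.target) (hc : ∀ x, ∃ e ∈ S, x ∈ e.source ∧ e x ∈ O e)
    (W : Ch ι X → V ι → V ι) (hW : ∀ e ∈ S, ∀ z ∈ O e, ContDiffAt ℝ 1 (W e) z)
    (ht : ∀ e ∈ S, ∀ e' ∈ S, ∀ x ∈ e.source, x ∈ e'.source → e x ∈ O e → e' x ∈ O e' →
      tj e e' x *ᵥ W e (e x) = ((‖(tj e e' x).det‖ ^ 2 : ℝ) : ℂ) • W e' (e' x)) :
    ∃ d : X → ℂ, Continuous d ∧ ∀ e ∈ S, ∀ x ∈ e.source, e x ∈ O e →
      dv (W e) (e x) = ((M.repF g e (e x)).det.re : ℂ) * d x := by
  choose c c1 c2 c3 using hc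
  have pos : ∀ e ∈ S, ∀ z ∈ O e, ((M.repF g e z).det.re : ℂ) ≠ 0 := fun e he z hz =>
    ofReal_ne_zero.2 (hm.det ι _ ((hg e (hS he)).2 z ((hO e he).2 hz))).1.ne'
  have key : ∀ e ∈ S, ∀ x ∈ e.source, e x ∈ O e → dv (W e) (e x) =
      ((M.repF g e (e x)).det.re : ℂ) *
        (dv (W (c x)) (c x x) / ((M.repF g (c x) (c x x)).det.re : ℂ)) := by
    intro e he x hx ho
    have hd := ha.tj_det e (hS he) _ (hS (c1 x)) x hx (c2 x)
    have e0 : (c x ∘ e.symm) (e x) = c x x := by rw [Function.comp, e.left_inv hx]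
    have an := M.hol e (hS he) _ (hS (c1 x)) x hx (c2 x)
    have i1 := dv_tr (W := W e) (W' := W (c x)) an hd
      (e0 ▸ (hW _ (c1 x) _ (c3 x)).differentiableAt one_ne_zero) (by
        have n1 : ∀ᶠ w in 𝓝 (e x), e.symm w ∈ (c x).source :=
          (e.continuousAt_symm (e.map_source hx)).eventually_mem
            ((c x).open_source.mem_nhds (by rw [e.left_inv hx]; exact c2 x))
        have n2 : ∀ᶠ w in 𝓝 (e x), (c x ∘ e.symm) w ∈ O (c x) :=
          an.continuousAt.eventually_mem ((hO _ (c1 x)).1.mem_nhds (e0 ▸ c3 x))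
        filter_upwards [n1, n2, (hO e he).1.mem_nhds ho] with w w1 w2 w3
        have w4 := (hO e he).2 w3
        have := ht e he _ (c1 x) (e.symm w) (e.map_target w4) w1 (by rwa [e.right_inv w4]) w2
        rwa [tj, e.right_inv w4] at this)
    rw [i1, e0, ha.repF_tr g e (hS he) _ (hS (c1 x)) x hx (c2 x), (hm.pull_pd ι _ _ hd).2.2.2.1,
      re_ofReal_mul, ofReal_mul, mul_assoc, mul_div_cancel₀ _ (pos _ (c1 x) _ (c3 x))]
    rfl
  refine ⟨_, continuous_iff_continuousAt.2 fun x => ?_, key⟩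
  have ce := (c x).continuousAt (c2 x)
  have d1 : ContinuousAt (dv (W (c x))) (c x x) := by
    unfold dv
    exact tendsto_finsetSum _ fun i _ => (contDiffAt_dz (m := 0)
      (contDiffAt_pi.1 (hW _ (c1 x) _ (c3 x)) i) (by simp) i).continuousAt
  have d2 : ContinuousAt (fun z => ((M.repF g (c x) z).det.re : ℂ)) (c x x) :=
    continuous_ofReal.continuousAt.comp (continuous_re.continuousAt.comp
      ((hg _ (hS (c1 x))).1.1.det ((hO _ (c1 x)).2 (c3 x))).continuousAt)
  refine ((d1.div d2 (pos _ (c1 x) _ (c3 x))).comp ce).congr ?_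
  filter_upwards [(c x).open_source.mem_nhds (c2 x),
    ce.eventually_mem ((hO _ (c1 x)).1.mem_nhds (c3 x))] with y y1 y2
  simp only [Function.comp, Pi.div_apply]
  rw [key _ (c1 x) y y1 y2, mul_div_cancel_left₀ _ (pos _ (c1 x) _ y2)]

end Div

open HS.Div in
theorem divS (ha : RepA) (hv : VolS) (hp : PouS) (hm : MatS) : DivS := by
  intro ι X _ _ _ _ _ _ _ M g μ S O W hg hμ hS hO hc hW ht
  have ha := ha ι X M
  have hv := (hv ι X M g hg).2 μ hμ
  obtain ⟨d, d1, d2⟩ := exists_d ha hm hg hS hO hc W hW ht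
  refine ⟨d, d1, ?_, d2⟩
  have pos : ∀ e ∈ S, ∀ z ∈ O e, ((M.repF g e z).det.re : ℂ) ≠ 0 := fun e he z hz =>
    ofReal_ne_zero.2 (hm.det ι _ ((hg e (hS he)).2 z ((hO e he).2 hz))).1.ne'
  have hc' := hc
  choose c c1 c2 c3 using hc'
  have op : ∀ x, IsOpen ((c x).source ∩ c x ⁻¹' O (c x)) := fun x =>
    (c x).isOpen_inter_preimage (hO _ (c1 x)).1
  obtain ⟨t, htc⟩ := isCompact_univ.elim_finite_subcover _ op fun x _ =>
    mem_iUnion.2 ⟨x, c2 x, c3 x⟩
  obtain ⟨χ, x1, x2⟩ := hp ι X M t (fun a => (c a).source ∩ c a ⁻¹' O (c a)) (fun a => op a)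
    fun x => by
      obtain ⟨a, a1, a2⟩ := mem_iUnion₂.1 (htc (mem_univ x))
      exact ⟨⟨a, a1⟩, a2⟩
  have cw : ∀ a, ∀ e ∈ S, ∀ z ∈ O e, ContDiffAt ℝ 1 (fun w => fn (χ a) e w • W e w) z :=
    fun a e he z hz => (((x1 a).1 e (hS he) z ((hO e he).2 hz)).of_le (by norm_cast)).smul
      (hW e he z hz)
  choose D D1 D2 using fun a => exists_d ha hm hg hS hO hc (fun e w => fn (χ a) e w • W e w)
    (cw a) fun e he e' he' x hx hx' ho ho' => by
      rw [mulVec_smul, ht e he e' he' x hx hx' ho ho', smul_comm, fn, fn, e.left_inv hx,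
        e'.left_inv hx']
  have sum : d = fun x => ∑ a, D a x := funext fun x => by
    refine mul_left_cancel₀ (pos _ (c1 x) _ (c3 x)) ?_
    rw [← d2 _ (c1 x) x (c2 x) (c3 x), Finset.mul_sum,
      ← Finset.sum_congr rfl fun a _ => D2 a _ (c1 x) x (c2 x) (c3 x)]
    unfold dv
    rw [Finset.sum_comm]
    refine Finset.sum_congr rfl fun i _ => ?_
    rw [← dz_sum _ fun a _ =>
      (contDiffAt_pi.1 (cw a _ (c1 x) _ (c3 x)) i).differentiableAt one_ne_zero]
    congr 1
    funext w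
    simp only [Pi.smul_apply, smul_eq_mul, ← Finset.sum_mul, fn, ← ofReal_sum, x2, ofReal_one,
      one_mul]
  have := hv.fin
  rw [sum, integral_finsetSum _ fun a _ =>
    (D1 a).integrable_of_hasCompactSupport (HasCompactSupport.of_compactSpace _)]
  refine Finset.sum_eq_zero fun a _ => ?_
  have z0 : ∀ x ∉ (c a).source ∩ c a ⁻¹' O (c a), D a x = 0 := fun x hx => by
    refine (mul_eq_zero.1 ((D2 a _ (c1 x) x (c2 x) (c3 x)).symm.trans
      ((dv_congr ?_).trans (dv_zero _)))).resolve_left (pos _ (c1 x) _ (c3 x))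
    have n1 : ∀ᶠ w in 𝓝 (c x x), (c x).symm w ∈ (tsupport (χ a))ᶜ :=
      ((c x).continuousAt_symm ((c x).map_source (c2 x))).eventually_mem
        ((isClosed_tsupport _).isOpen_compl.mem_nhds (by
          rw [(c x).left_inv (c2 x)]; exact fun k => hx ((x1 a).2.2 k)))
    filter_upwards [n1] with w hw
    rw [fn, image_eq_zero_of_notMem_tsupport hw, ofReal_zero, zero_smul]
  have hOa := hO _ (c1 a)
  rw [← setIntegral_eq_integral_of_forall_compl_eq_zero z0,
    hv.int _ (hS (c1 a)) _ hOa.1.measurableSet hOa.2,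
    setIntegral_congr_fun (g := dv fun w => fn (χ a) (c a) w • W (c a) w) hOa.1.measurableSet
      fun z hz => by
        have := D2 a _ (c1 a) _ ((c a).map_target (hOa.2 hz))
          (by rwa [(c a).right_inv (hOa.2 hz)])
        rw [(c a).right_inv (hOa.2 hz)] at this
        exact this.symm]
  refine int_dv (K := c a '' tsupport (χ a)) hOa.1
    ((isClosed_tsupport _).isCompact.image_of_continuousOn
      ((c a).continuousOn.mono fun x k => ((x1 a).2.2 k).1)) ?_ (cw a _ (c1 a)) fun z hz hk => ?_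
  · rintro _ ⟨x, k, rfl⟩
    exact ((x1 a).2.2 k).2
  · rw [fn, image_eq_zero_of_notMem_tsupport fun k => hk ⟨_, k, (c a).right_inv (hOa.2 hz)⟩,
      ofReal_zero, zero_smul]

end

end Pool.Agent.Lib.MP_813db1_ag.HS
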