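import Pool.Agent.Lib.MP_813db1_ag.HS.Dq_1

/-! The difference quotient step. -/

namespace Pool.Agent.Lib.MP_813db1_ag.HS

open MeasureTheory Complex Matrix Filter Topology Set Metric
open scoped ContDiff ComplexOrder

namespace Dq

variable {ι : Type} [Fintype ι] [DecidableEq ι]

/-- the complex Hessian of a real bilinear form. -/
noncomputable def TT (B : V ι →L[ℝ] V ι →L[ℝ] ℂ) : Mat ι := Matrix.of fun i j =>
  ((B (Pi.single i 1) (Pi.single j 1) + I * B (Pi.single i 1) (Pi.single j I)) / 2 -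
    I * ((B (Pi.single i I) (Pi.single j 1) + I * B (Pi.single i I) (Pi.single j I)) / 2)) / 2

omit [DecidableEq ι] in
theorem d2 {f : V ι → ℂ} {z : V ι} (h : ContDiffAt ℝ 2 f z) :
    HasFDerivAt (fderiv ℝ f) (fderiv ℝ (fderiv ℝ f) z) z :=
  ((h.fderiv_right (m := 1) (by norm_num)).differentiableAt (by simp)).hasFDerivAt

omit [DecidableEq ι] in
theorem d2a {f : V ι → ℂ} {z : V ι} (h : ContDiffAt ℝ 2 f z) (b : V ι) :
    HasFDerivAt (fun w => fderiv ℝ f w b) ((fderiv ℝ (fderiv ℝ f) z).flip b) z := by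
  simpa using (d2 h).clm_apply (hasFDerivAt_const b z)

theorem levi_eq {f : V ι → ℂ} {z : V ι} (h : ContDiffAt ℝ 2 f z) :
    levi f z = TT (fderiv ℝ (fderiv ℝ f) z) := by
  ext i j
  have h1 := (((d2a h (Pi.single j 1)).add ((d2a h (Pi.single j I)).const_mul I)).mul_const
    (2 : ℂ)⁻¹).fderiv
  have e : dzb f j = fun w => ((fun w => fderiv ℝ f w (Pi.single j 1)) +
      fun w => I * fderiv ℝ f w (Pi.single j I)) w * (2 : ℂ)⁻¹ := by
    funext w; simp [dzb, div_eq_mul_inv]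
  simp only [levi, TT, of_apply, dz, e, h1]
  simp
  ring

theorem levi_mul {f g : V ι → ℂ} {z : V ι} (hf : ContDiffAt ℝ 2 f z) (hg : ContDiffAt ℝ 2 g z)
    (i j : ι) : levi (fun w => f w * g w) z i j = f z * levi g z i j +
      (dz f i z * dzb g j z + dzb f j z * dz g i z + levi f z i j * g z) := by
  have e : fderiv ℝ (fun w => f w * g w) =ᶠ[𝓝 z]
      fun w => f w • fderiv ℝ g w + g w • fderiv ℝ f w := by
    filter_upwards [hf.eventually (by simp), hg.eventually (by simp)] with w h1 h2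
    exact fderiv_fun_mul (h1.differentiableAt (by simp)) (h2.differentiableAt (by simp))
  have h1 := (((hf.differentiableAt (by simp)).hasFDerivAt.smul (d2 hg)).add
    ((hg.differentiableAt (by simp)).hasFDerivAt.smul (d2 hf))).fderiv
  have h2 := e.fderiv_eq.trans h1
  rw [levi_eq (hf.mul hg), levi_eq hf, levi_eq hg, h2]
  simp [TT, dz, dzb]
  ring

theorem sm_dz {f : V ι → ℂ} (h : ContDiff ℝ ∞ f) (k : ι) :
    ContDiff ℝ ∞ (dz f k) ∧ ContDiff ℝ ∞ (dzb f k) := by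
  have h1 : ∀ b, ContDiff ℝ ∞ fun w => fderiv ℝ f w b := fun b =>
    (h.fderiv_right (m := ∞) (by simp)).clm_apply contDiff_const
  exact ⟨((h1 _).sub (contDiff_const.mul (h1 _))).div_const _,
    ((h1 _).add (contDiff_const.mul (h1 _))).div_const _⟩

theorem z_dz {f : V ι → ℂ} {K : Set (V ι)} (hK : IsClosed K) (h : ∀ z, z ∉ K → f z = 0) (k : ι) :
    (∀ z, z ∉ K → dz f k z = 0) ∧ ∀ z, z ∉ K → dzb f k z = 0 := by
  have h1 : ∀ z, z ∉ K → fderiv ℝ f z = 0 := fun z hz => by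
    have : f =ᶠ[𝓝 z] fun _ => 0 := by
      filter_upwards [hK.isOpen_compl.mem_nhds hz] with w hw using h w hw
    rw [this.fderiv_eq]; simp
  exact ⟨fun z hz => by simp [dz, h1 z hz], fun z hz => by simp [dzb, h1 z hz]⟩

theorem uh_dz {κ : Type} {u : κ → V ι → ℂ} {B : Set (V ι)} (h : UH (fun k => fderiv ℝ (u k)) B)
    (i : ι) : UH (fun k => dz (u k) i) B ∧ UH (fun k => dzb (u k) i) B := by
  have h1 : ∀ b, UH (fun k z => fderiv ℝ (u k) z b) B := fun b =>
    h.clm (ContinuousLinearMap.apply ℝ ℂ b)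
  exact ⟨(((h1 (Pi.single i 1)).sub ((UH.const I B).mul (h1 (Pi.single i I)))).mul
      (UH.const 2⁻¹ B)).congr fun _ _ _ => by simp [dz, div_eq_mul_inv],
    (((h1 (Pi.single i 1)).add ((UH.const I B).mul (h1 (Pi.single i I)))).mul
      (UH.const 2⁻¹ B)).congr fun _ _ _ => by simp [dzb, div_eq_mul_inv]⟩

omit [DecidableEq ι] in
theorem d2_scale {w : V ι → ℂ} (h : ∀ z, ContDiffAt ℝ 2 w z) (c : ℝ) (y : V ι) :
    fderiv ℝ (fderiv ℝ fun y => w (c • y)) y = (c ^ 2) • fderiv ℝ (fderiv ℝ w) (c • y) := by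
  have e : (fderiv ℝ fun y => w (c • y)) = fun y => c • fderiv ℝ w (c • y) :=
    funext fun y => fderiv_comp_smul c
  have h1 : DifferentiableAt ℝ (fun y => fderiv ℝ w (c • y)) y :=
    (d2 (h _)).differentiableAt.comp y (differentiableAt_id.const_smul c)
  rw [e, fderiv_fun_const_smul h1, fderiv_comp_smul, smul_smul, sq]

omit [DecidableEq ι] in
theorem exists_bd (A : Mat ι) : ∃ L, 1 ≤ L ∧ Bd L A :=
  ⟨1 + ∑ i, ∑ j, ‖A i j‖, le_add_of_nonneg_right (by positivity), fun i j => by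
    have h1 : ‖A i j‖ ≤ ∑ j, ‖A i j‖ :=
      Finset.single_le_sum (f := fun j => ‖A i j‖) (fun _ _ => norm_nonneg _) (Finset.mem_univ j)
    have h2 : ∑ j, ‖A i j‖ ≤ ∑ i, ∑ j, ‖A i j‖ :=
      Finset.single_le_sum (f := fun i => ∑ j, ‖A i j‖) (fun _ _ => by positivity)
        (Finset.mem_univ i)
    linarith⟩

theorem ns {W : Type} [NormedAddCommGroup W] [NormedSpace ℝ W] (c : ℝ) (x y : W) :
    ‖c • x‖ = ‖c‖ * ‖x‖ ∧ ‖c • x - c • y‖ = ‖c‖ * ‖x - y‖ :=
  ⟨norm_smul _ _, by rw [← smul_sub, norm_smul]⟩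

theorem two_le : (2 : WithTop ℕ∞) ≤ ∞ := WithTop.coe_le_coe.2 le_top

theorem scaled (hp : PertS) {A0 : Mat ι} (h0 : A0.PosDef) : ∃ η > 0, ∀ N, 0 ≤ N → ∃ q : ℂ,
    ∀ M, 0 ≤ M → ∃ N', ∀ (A : V ι → Mat ι) (w : V ι → ℂ) (B : ℝ),
    (∀ z, (A z).PosSemidef ∧ Bd η (A z - A0)) → (∀ i j z y, ‖A z i j - A y i j‖ ≤ N * √‖z - y‖) →
    (∀ z, ContDiffAt ℝ 2 w z) → (∀ z, ‖w z‖ ≤ B) →
    Hol M (fun z => q * w z - trace (levi w z * A z)) univ →
    Hol N' (fderiv ℝ (fderiv ℝ w)) univ := by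
  obtain ⟨L1, hL1, b1⟩ := exists_bd A0
  obtain ⟨L2, hL2, b2⟩ := exists_bd A0⁻¹
  obtain ⟨η, hη, C, t, ht, hp⟩ := hp ι (L1 + L2)
  refine ⟨η, hη, fun N hN => ?_⟩
  obtain ⟨s, s0, s1, sN⟩ : ∃ s : ℝ, 0 < s ∧ s ≤ 1 ∧ N * s ≤ 1 :=
    ⟨(N + 1)⁻¹, by positivity, inv_le_one_of_one_le₀ (by linarith), by
      rw [← div_eq_mul_inv, div_le_one (by positivity)]; linarith⟩
  have sq : ∀ (c : ℝ) (z y : V ι), 0 ≤ c → √‖c ^ 2 • z - c ^ 2 • y‖ = c * √‖z - y‖ :=
    fun c z y hc => by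
      rw [← smul_sub, norm_smul, Real.norm_of_nonneg (sq_nonneg _), Real.sqrt_mul (sq_nonneg _),
        Real.sqrt_sq hc]
  refine ⟨(t : ℂ) ^ 4 / (s : ℂ) ^ 4, fun M hM => ⟨|C| * (t * M) / s ^ 5, ?_⟩⟩
  intro A w B hA hA' hw hB hf
  have sC : (s : ℂ) ≠ 0 := by exact_mod_cast s0.ne'
  have s4 : ‖(s : ℂ) ^ 4‖ ≤ 1 := by
    rw [norm_pow, Complex.norm_real, Real.norm_of_nonneg s0.le]; exact pow_le_one₀ s0.le s1
  have hw' : ∀ y, ContDiffAt ℝ 2 (fun y => w (s ^ 2 • y)) y := fun y =>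
    (hw _).comp y (contDiffAt_id.const_smul _)
  have H := (hp A0 (fun y => A (s ^ 2 • y)) h0 (fun i j => by linarith [b1 i j])
    (fun i j => by linarith [b2 i j]) (fun y => hA _) (fun i j z y => ?_) t le_rfl
    (fun y => (s : ℂ) ^ 4 * ((t : ℂ) ^ 4 / (s : ℂ) ^ 4 * w (s ^ 2 • y) -
      trace (levi w (s ^ 2 • y) * A (s ^ 2 • y)))) (t * M) ⟨fun y _ => ?_, fun z _ y _ => ?_⟩).2
    (fun y => w (s ^ 2 • y)) B hw' (fun y => hB _) fun y => ?_
  · have H := H.2.2.2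
    have e : ∀ z, fderiv ℝ (fderiv ℝ w) z =
        (s ^ 4)⁻¹ • fderiv ℝ (fderiv ℝ fun y => w (s ^ 2 • y)) (s⁻¹ ^ 2 • z) := fun z => by
      rw [d2_scale hw, smul_smul, smul_smul, ← mul_pow, mul_inv_cancel₀ s0.ne', one_pow, one_smul,
        ← pow_mul, inv_mul_cancel₀ (by positivity), one_smul]
    have hC : C * (t * M) ≤ |C| * (t * M) :=
      mul_le_mul_of_nonneg_right (le_abs_self C) (by positivity)
    have hs : ‖(s ^ 4)⁻¹‖ = (s ^ 4)⁻¹ := Real.norm_of_nonneg (by positivity)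
    refine ⟨fun z _ => ?_, fun z _ y _ => ?_⟩
    · rw [e]
      refine (ns (W := V ι →L[ℝ] V ι →L[ℝ] ℂ) _ _ 0).1.trans_le ?_
      rw [hs, le_div_iff₀ (by positivity)]
      have h1 := H.1 (s⁻¹ ^ 2 • z) trivial
      have h2 := norm_nonneg (fderiv ℝ (fderiv ℝ fun y => w (s ^ 2 • y)) (s⁻¹ ^ 2 • z))
      generalize ‖fderiv ℝ (fderiv ℝ fun y => w (s ^ 2 • y)) (s⁻¹ ^ 2 • z)‖ = x at h1 h2
      rw [show (s ^ 4)⁻¹ * x * s ^ 5 = s * x by field_simp]
      nlinarith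
    · rw [e z, e y]
      refine (ns (W := V ι →L[ℝ] V ι →L[ℝ] ℂ) _ _ _).2.trans_le ?_
      rw [hs]
      have h1 := H.2 (s⁻¹ ^ 2 • z) trivial (s⁻¹ ^ 2 • y) trivial
      rw [sq _ _ _ (by positivity)] at h1
      refine (mul_le_mul_of_nonneg_left (h1.trans (mul_le_mul_of_nonneg_right hC
        (by positivity))) (by positivity)).trans (le_of_eq ?_)
      field_simp
  · refine (hA' i j _ _).trans ?_
    rw [sq _ _ _ s0.le, ← mul_assoc]
    exact mul_le_mul_of_nonneg_right (by linarith) (Real.sqrt_nonneg _)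
  · rw [norm_mul]
    refine mul_le_mul_of_nonneg_left ?_ (by linarith)
    exact (mul_le_of_le_one_left (norm_nonneg _) s4).trans (hf.1 _ trivial)
  · rw [← mul_sub, norm_mul]
    refine (mul_le_of_le_one_left (norm_nonneg _) s4).trans ((hf.2 _ trivial _ trivial).trans ?_)
    rw [sq _ _ _ s0.le, ← mul_assoc]
    exact mul_le_mul_of_nonneg_right (by nlinarith) (Real.sqrt_nonneg _)
  · have e : levi (fun y => w (s ^ 2 • y)) y = (s : ℂ) ^ 4 • levi w (s ^ 2 • y) := by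
      rw [levi_eq (hw' y), levi_eq (hw _), d2_scale hw]
      ext i j
      simp [TT]
      ring
    rw [e, smul_mul_assoc, trace_smul, smul_eq_mul]
    field_simp

theorem bump (z0 : V ι) {a b : ℝ} (ha : 0 < a) (hab : a < b) : ∃ χ : V ι → ℝ,
    ContDiff ℝ ∞ (fun z => (χ z : ℂ)) ∧ (∀ z, 0 ≤ χ z ∧ χ z ≤ 1) ∧
    (∀ z ∈ closedBall z0 a, χ z = 1) ∧ ∀ z, z ∉ closedBall z0 b → (χ z : ℂ) = 0 := by
  let f : ContDiffBump z0 := ⟨a, b, ha, hab⟩
  refine ⟨f, ofRealCLM.contDiff.comp f.contDiff, fun _ => ⟨f.nonneg, f.le_one⟩,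
    fun z hz => f.one_of_mem_closedBall hz, fun z hz => ?_⟩
  rw [f.zero_of_le_dist (le_of_lt (not_le.1 hz)), ofReal_zero]

theorem est (hp : PertS) {A0 : Mat ι} (h0 : A0.PosDef) : ∃ δ > 0, ∀ (z0 : V ι) (R : ℝ), 0 < R →
    ∀ (u : ℕ → V ι → ℂ) (A : ℕ → V ι → Mat ι),
    (∀ k, ∀ z ∈ ball z0 R, ContDiffAt ℝ 2 (u k) z) → UH u (ball z0 R) →
    UH (fun k => fderiv ℝ (u k)) (ball z0 R) →
    (∀ k, ∀ z ∈ ball z0 R, (A k z).IsHermitian ∧ Bd δ (A k z - A0)) →
    (∀ i j, UH (fun k z => A k z i j) (ball z0 R)) →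
    UH (fun k z => trace (levi (u k) z * A k z)) (ball z0 R) →
    UH (fun k => fderiv ℝ (fderiv ℝ (u k))) (ball z0 (R / 4)) := by
  obtain ⟨η, hη, hs⟩ := scaled hp h0
  obtain ⟨δ, hδ, hpsd⟩ := psd_near h0
  refine ⟨min η δ, lt_min hη hδ, fun z0 R hR u A hu h1 h2 hA h3 h4 => ?_⟩
  obtain ⟨χ, c1, -, c3, c4⟩ := bump z0 (a := R / 4) (b := R / 2) (by positivity) (by linarith)
  obtain ⟨ψ, p1, p2, p3, p4⟩ := bump z0 (a := R / 2) (b := 3 * R / 4) (by positivity) (by linarith)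
  have s1 : closedBall z0 (R / 2) ⊆ ball z0 R := closedBall_subset_ball (by linarith)
  have s2 : closedBall z0 (3 * R / 4) ⊆ ball z0 R := closedBall_subset_ball (by linarith)
  have cut : ∀ {g : V ι → ℂ} {r : ℝ} {G : ℕ → V ι → ℂ}, closedBall z0 r ⊆ ball z0 R →
      ContDiff ℝ ∞ g → (∀ z, z ∉ closedBall z0 r → g z = 0) → UH G (ball z0 R) →
      UH (fun k z => g z * G k z) univ := fun s hg hz hG =>
    (UH.smooth hg (isCompact_closedBall _ _) hz).ext (fun _ z _ h => hz z fun h' => h (s h')) hG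
  let A' : ℕ → V ι → Mat ι := fun k z => A0 + (ψ z : ℂ) • (A k z - A0)
  let w : ℕ → V ι → ℂ := fun k z => χ z * u k z
  have hA' : ∀ i j, UH (fun k z => A' k z i j) univ := fun i j =>
    ((UH.const (A0 i j) univ).add (cut s2 p1 p4 ((h3 i j).sub (UH.const (A0 i j) _)))).congr
      fun _ _ _ => by simp [A']
  obtain ⟨N, N0, hN⟩ : ∃ N, 0 ≤ N ∧ ∀ i j k, Hol N (fun z => A' k z i j) univ := by
    choose M M0 hM using hA'
    obtain ⟨L, hL, hb⟩ := exists_bd (Matrix.of fun i j => (M i j : ℂ))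
    exact ⟨L, by linarith, fun i j k => hol_mono (hM i j k)
      (by simpa [abs_of_nonneg (M0 i j)] using hb i j) subset_rfl⟩
  obtain ⟨q, hs⟩ := hs N N0
  have wz : ∀ k z, z ∉ closedBall z0 (R / 2) → w k z = 0 := fun k z hz => by simp [w, c4 z hz]
  have hw : ∀ k z, ContDiffAt ℝ 2 (w k) z := fun k z => by
    by_cases hz : z ∈ ball z0 R
    · exact (c1.contDiffAt.of_le two_le).mul (hu k z hz)
    · refine (contDiffAt_const (c := (0 : ℂ))).congr_of_eventuallyEq ?_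
      filter_upwards [isClosed_closedBall.isOpen_compl.mem_nhds fun h => hz (s1 h)] with y hy
        using wz k y hy
  have zd := fun i => z_dz isClosed_closedBall c4 i
  have zl := fun i j => (z_dz isClosed_closedBall (zd j).2 i).1
  have hf : UH (fun k z => q * w k z - trace (levi (w k) z * A' k z)) univ := by
    refine (((UH.const q univ).mul (cut s1 c1 c4 h1)).sub ((cut s1 c1 c4 h4).add
      (UH.sum Finset.univ fun i => UH.sum Finset.univ fun j =>
        (((cut s1 (sm_dz c1 i).1 (zd i).1 (uh_dz h2 j).2).add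
          (cut s1 (sm_dz c1 j).2 (zd j).2 (uh_dz h2 i).1)).add
          (cut s1 (sm_dz (sm_dz c1 j).2 i).1 (zl i j) h1)).mul (hA' j i)))).congr fun k z _ => ?_
    congr 1
    by_cases hz : z ∈ closedBall z0 (R / 2)
    · have e : A' k z = A k z := by simp [A', p3 z hz]
      simp only [e, trace, diag_apply, mul_apply, Finset.mul_sum, ← Finset.sum_add_distrib]
      refine Finset.sum_congr rfl fun i _ => Finset.sum_congr rfl fun j _ => ?_
      rw [levi_mul (c1.contDiffAt.of_le two_le) (hu k z (s1 hz))]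
      simp only [levi, of_apply]
      ring
    · have e : levi (w k) z = 0 := by
        ext i j
        exact (z_dz isClosed_closedBall (z_dz isClosed_closedBall (wz k) j).2 i).1 z hz
      simp [e, c4 z hz, fun i => (zd i).1 z hz, fun i => (zd i).2 z hz, fun i j => zl i j z hz]
  obtain ⟨M, M0, hM⟩ := hf
  obtain ⟨N', hs⟩ := hs M M0
  obtain ⟨B, -, hB⟩ := cut s1 c1 c4 h1
  have hb : ∀ k z, (A' k z).IsHermitian ∧ Bd (min η δ) (A' k z - A0) := fun k z => by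
    by_cases hz : z ∈ ball z0 R
    · refine ⟨h0.1.add ?_, fun i j => ?_⟩
      · have := (hA k z hz).1.sub h0.1
        rw [IsHermitian, conjTranspose_smul, this.eq]
        simp
      · simp only [A', add_sub_cancel_left, Matrix.smul_apply, smul_eq_mul, norm_mul, norm_real]
        refine (mul_le_of_le_one_left (norm_nonneg _) ?_).trans ((hA k z hz).2 i j)
        rw [Real.norm_of_nonneg (p2 z).1]; exact (p2 z).2
    · have e : A' k z = A0 := by
        simp only [A', p4 z fun h => hz (s2 h), zero_smul, add_zero]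
      rw [e, sub_self]
      exact ⟨h0.1, fun i j => (norm_zero (E := ℂ)).trans_le (le_min hη.le hδ.le)⟩
  refine (UH.of fun k => hs (A' k) (w k) B (fun z => ⟨hpsd _ (hb k z).1 fun i j =>
    ((hb k z).2 i j).trans (min_le_right _ _), fun i j => ((hb k z).2 i j).trans (min_le_left _ _)⟩)
    (fun i j z y => (hN i j k).2 z trivial y trivial) (hw k) (fun z => (hB k).1 z trivial)
    (hM k)).mono (subset_univ _) |>.congr fun k z hz => ?_
  refine (EventuallyEq.fderiv ?_).fderiv_eq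
  filter_upwards [isOpen_ball.mem_nhds hz] with y hy
  simp [w, c3 y (ball_subset_closedBall hy)]

end Dq

open Dq in
theorem dq_step (hp : PertS) (hk : HkS) : DqS := by
  intro ι _ _ U v z0 e A0 hU hz0 h0 hv h
  obtain ⟨δ, hδ, hest⟩ := est hp h0
  obtain ⟨r0, hr0, M0, v2, -, v1, v0⟩ := (hk.two ι v U hU).1 hv z0 hz0
  obtain ⟨r, hr, τ0, hτ0, M, h⟩ := h δ hδ
  obtain ⟨τ1, t0, t1, t2⟩ : ∃ τ1 : ℝ, 0 < τ1 ∧ τ1 < τ0 ∧ τ1 * ‖e‖ ≤ r0 / 2 := by
    refine ⟨min (τ0 / 2) (r0 / 2 / (‖e‖ + 1)), by positivity,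
      (min_le_left _ _).trans_lt (by linarith), ?_⟩
    refine (mul_le_mul_of_nonneg_right (min_le_right _ _) (norm_nonneg _)).trans ?_
    rw [div_mul_eq_mul_div, div_le_iff₀ (by positivity)]
    nlinarith
  let τ : ℕ → ℝ := fun k => τ1 * (1 / ((k : ℝ) + 1))
  have τp : ∀ k, 0 < τ k := fun k => by positivity
  have τl : ∀ k, τ k ≤ τ1 := fun k => mul_le_of_le_one_right t0.le (by
    rw [div_le_one (by positivity)]; linarith [Nat.cast_nonneg (α := ℝ) k])
  have τe : ∀ k, ‖τ k • e‖ ≤ r0 / 2 := fun k => by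
    rw [norm_smul, Real.norm_of_nonneg (τp k).le]
    exact (mul_le_mul_of_nonneg_right (τl k) (norm_nonneg _)).trans t2
  have τt : Tendsto τ atTop (𝓝[≠] 0) := tendsto_nhdsWithin_iff.2
    ⟨by simpa only [mul_zero] using tendsto_one_div_add_atTop_nhds_zero_nat.const_mul τ1,
      Eventually.of_forall fun k => (τp k).ne'⟩
  choose A hA1 hA2 hA3 using fun k => h (τ k) (τp k).ne'
    (by rw [abs_of_pos (τp k)]; linarith [τl k])
  have e2 : r0 = 2 * (r0 / 2) := by ring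
  have eu : ∀ k, dq v e (τ k) = fun z => (τ k)⁻¹ • (v (z + τ k • e) - v z) := fun k => by
    funext z; simp [dq, div_eq_inv_mul]
  have mem : ∀ k, ∀ z ∈ ball z0 (r0 / 2), z ∈ ball z0 r0 ∧ z + τ k • e ∈ ball z0 r0 :=
    fun k z hz => ⟨ball_subset_ball (by linarith) hz, by
      rw [mem_ball, dist_eq_norm] at hz ⊢
      rw [add_sub_right_comm]
      linarith [norm_add_le (z - z0) (τ k • e), τe k]⟩
  have u2 : ∀ k, ∀ z ∈ ball z0 (r0 / 2), ContDiffAt ℝ 2 (dq v e (τ k)) z := fun k z hz => by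
    rw [eu]
    exact (((v2 _ (mem k z hz).2).comp z (contDiffAt_id.add contDiffAt_const)).sub
      (v2 _ (mem k z hz).1)).const_smul _
  have u0 : UH (fun k => dq v e (τ k)) (ball z0 (r0 / 2)) := UH.of fun k => by
    rw [eu]
    exact dq_hol (fun z hz => (v2 z (e2 ▸ hz)).differentiableAt (by simp)) (e2 ▸ v1) (τp k).ne' (τe k)
  have u1 : UH (fun k => fderiv ℝ (dq v e (τ k))) (ball z0 (r0 / 2)) :=
    (UH.of fun k => dq_hol (g := fderiv ℝ v) (fun z hz => (d2 (v2 z (e2 ▸ hz))).differentiableAt)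
      (e2 ▸ v0) (τp k).ne' (τe k)).congr fun k z hz => by
      rw [eu]
      exact ((((hasFDerivAt_comp_add_right _).2 ((v2 _ (mem k z hz).2).differentiableAt
        (by simp)).hasFDerivAt).sub ((v2 _ (mem k z hz).1).differentiableAt
        (by simp)).hasFDerivAt).const_smul (τ k)⁻¹).fderiv
  set R := min r (r0 / 2)
  have R0 : 0 < R := by positivity
  have s1 : ball z0 R ⊆ ball z0 r := ball_subset_ball (min_le_left _ _)
  have s2 : ball z0 R ⊆ ball z0 (r0 / 2) := ball_subset_ball (min_le_right _ _)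
  have s3 : ball z0 (R / 4) ⊆ ball z0 (r0 / 2) := (ball_subset_ball (by linarith)).trans s2
  obtain ⟨N2, -, hN2⟩ := hest z0 R R0 (fun k => dq v e (τ k)) A (fun k z hz => u2 k z (s2 hz))
    (u0.mono s2) (u1.mono s2) (fun k z hz => hA1 k z (s1 hz))
    (fun i j => (UH.of fun k => hA2 k i j).mono s1) ((UH.of hA3).mono s1)
  obtain ⟨N1, -, hN1⟩ := u1.mono s3
  have lim : ∀ z ∈ ball z0 (R / 4), Tendsto (fun k => dq v e (τ k) z) (hyperfilter ℕ)
      (𝓝 (fderiv ℝ v z e)) := fun z hz => by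
    have h1 : HasDerivAt (fun s : ℝ => z + s • e) e 0 := by
      simpa using ((hasDerivAt_id (0 : ℝ)).smul_const e).const_add z
    have h2 : HasFDerivAt v (fderiv ℝ v z) (z + (0 : ℝ) • e) := by
      simpa using ((v2 _ (mem 0 z (s3 hz)).1).differentiableAt (by simp)).hasFDerivAt
    have := ((h2.comp_hasDerivAt (0 : ℝ) h1).tendsto_slope_zero.comp τt).mono_left
      Nat.hyperfilter_le_atTop
    refine this.congr fun k => ?_
    simp [eu]
  obtain ⟨g1, -⟩ := closure _ (fun k z hz => (u2 k z (s3 hz)).differentiableAt (by simp)) hN1 lim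
  obtain ⟨g2, g3⟩ := closure _ (fun k z hz => (d2 (u2 k z (s3 hz))).differentiableAt) hN2
    fun z hz => (g1 z hz).2
  have der : ∀ a, ∀ z ∈ ball z0 (R / 4), HasFDerivAt
      (fun w => fderiv ℝ (fun z => fderiv ℝ v z e) w a)
      ((fderiv ℝ (fderiv ℝ fun z => fderiv ℝ v z e) z).flip a) z := fun a z hz => by
    simpa using (g2 z hz).1.hasFDerivAt.clm_apply (hasFDerivAt_const a z)
  refine ⟨R / 4, by positivity, fun z hz => (g1 z hz).1, fun a =>
    ⟨fun z hz => (der a z hz).differentiableAt, fun b z hz => ?_⟩⟩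
  obtain ⟨ρ, hρ, s4⟩ := Metric.isOpen_iff.1 isOpen_ball z hz
  obtain ⟨N, -, hN⟩ := ((((UH.of fun _ : Unit => g3).clm (ContinuousLinearMap.apply ℝ _ b)).clm
    (ContinuousLinearMap.apply ℝ ℂ a)).congr (G := fun _ z => fderiv ℝ
      (fun w => fderiv ℝ (fun z => fderiv ℝ v z e) w a) z b)
      fun _ y hy => by rw [(der a y hy).fderiv]; rfl).mono s4
  exact ⟨ρ, hρ, N, hN ()⟩

end Pool.Agent.Lib.MP_813db1_ag.HS
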