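import Pool.Agent.Lib.MP_813db1_ag.HS.AY0

/-! Extension by zero of a function with compact support in a chart. -/

namespace Pool.Agent.Lib.MP_813db1_ag.HS

open Complex Matrix Filter Topology Set Metric
open scoped ContDiff ComplexOrder

namespace Ext

variable {ι : Type} [Fintype ι]

/-- local bounds are uniform on a compact set. -/
theorem unif {K : Set (V ι)} (hK : IsCompact K) (Q : Set (V ι) → ℝ → Prop)
    (hQ : ∀ U U' c c', Q U c → U' ⊆ U → c ≤ c' → Q U' c')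
    (h : ∀ z ∈ K, ∃ ρ > 0, ∃ c, Q (ball z ρ) c) :
    ∃ δ > 0, ∃ c ≥ (0 : ℝ), ∀ z ∈ K, Q (ball z δ) c := by
  refine hK.induction_on (p := fun s => ∃ δ > 0, ∃ c ≥ (0 : ℝ), ∀ z ∈ s, Q (ball z δ) c)
    ⟨1, one_pos, 0, le_rfl, fun _ h => h.elim⟩ ?_ ?_ ?_
  · rintro s t hst ⟨δ, h1, c, h2, h3⟩
    exact ⟨δ, h1, c, h2, fun z hz => h3 z (hst hz)⟩
  · rintro s t ⟨δ, h1, c, h2, h3⟩ ⟨δ', h1', c', -, h3'⟩
    refine ⟨min δ δ', lt_min h1 h1', max c c', le_max_of_le_left h2, fun z hz => hz.elim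
      (fun hz => hQ _ _ _ _ (h3 z hz) (ball_subset_ball (min_le_left _ _)) (le_max_left _ _))
      fun hz => hQ _ _ _ _ (h3' z hz) (ball_subset_ball (min_le_right _ _)) (le_max_right _ _)⟩
  · intro x hx
    obtain ⟨ρ, h1, c, h2⟩ := h x hx
    exact ⟨ball x (ρ / 2), mem_nhdsWithin_of_mem_nhds (ball_mem_nhds x (half_pos h1)), ρ / 2,
      half_pos h1, max c 0, le_max_right _ _, fun z hz =>
        hQ _ _ _ _ h2 (ball_half_subset z hz) (le_max_left _ _)⟩

/-- from bounds on the balls of a fixed radius to a global bound. -/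
theorem glueT {W : Type} [NormedAddCommGroup W] {f : V ι → W} {U : Set (V ι)} {t B δ : ℝ}
    (ht : 1 ≤ t) (hδ : 0 < δ) (h : ∀ z ∈ U, HolT t B f (ball z δ)) :
    HolT t ((1 + 2 / √δ) * B) f U := by
  have hs : 0 < √δ := Real.sqrt_pos.2 hδ
  have h0 : ∀ z ∈ U, 0 ≤ B := fun z hz => (h z hz).nonneg (by linarith) (mem_ball_self hδ)
  have h1 : ∀ z ∈ U, B ≤ (1 + 2 / √δ) * B := fun z hz =>
    le_mul_of_one_le_left (h0 z hz) (le_add_of_nonneg_right (by positivity))
  refine ⟨fun z hz => ((h z hz).1 z (mem_ball_self hδ)).trans (h1 z hz), fun z hz w hw => ?_⟩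
  rcases lt_or_ge ‖z - w‖ δ with hl | hl
  · exact ((h z hz).mono (h1 z hz)).2 z (mem_ball_self hδ) w (mem_ball_iff_norm'.2 hl)
  · have a1 := ((h z hz).hol ht).1 z (mem_ball_self hδ)
    have a2 := ((h w hw).hol ht).1 w (mem_ball_self hδ)
    have a3 : 1 ≤ √‖z - w‖ / √δ := (one_le_div hs).2 (Real.sqrt_le_sqrt hl)
    have a4 := mul_nonneg (h0 z hz) (Real.sqrt_nonneg ‖z - w‖)
    have a5 := mul_le_mul_of_nonneg_left a3 (h0 z hz)
    calc ‖f z - f w‖ ≤ ‖f z‖ + ‖f w‖ := norm_sub_le _ _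
      _ ≤ B * √‖z - w‖ + 2 * (B * (√‖z - w‖ / √δ)) := by linarith
      _ = _ := by ring

theorem glue2 {f : V ι → ℂ} {U : Set (V ι)} {B δ : ℝ} (hδ : 0 < δ)
    (h : ∀ z ∈ U, Hol2 B f (ball z δ)) : Hol2 ((1 + 2 / √δ) * B) f U :=
  ⟨fun z hz => (h z hz).1 z (mem_ball_self hδ),
    hol_iff.2 (glueT le_rfl hδ fun z hz => hol_iff.1 (h z hz).2.1),
    hol_iff.2 (glueT le_rfl hδ fun z hz => hol_iff.1 (h z hz).2.2.1),
    hol_iff.2 (glueT le_rfl hδ fun z hz => hol_iff.1 (h z hz).2.2.2)⟩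

variable [DecidableEq ι] {X : Type} [TopologicalSpace X] {M : Atl ι X} {m : ℕ} {e e' : Ch ι X}

theorem rep_ext (A : RepA' M) (he : e ∈ M.A) (he' : e' ∈ M.A) (g : V ι → ℂ) {z : V ι}
    (hz : z ∈ e'.target) (hy : e'.symm z ∈ e.source) :
    M.rep m (M.ext m e g) e' z = (tj e' e (e'.symm z)).det ^ m * g (e (e'.symm z)) := by
  rw [Atl.rep, Atl.ext, if_pos hy,
    A.tj_mul e' he' _ (M.ch_mem _) e he _ (e'.map_target hz) (M.mem _) hy, det_mul]
  ring

theorem ext_zero {K : Set (V ι)} {g : V ι → ℂ} (hg : ∀ z ∉ K, g z = 0) {y : X}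
    (hy : y ∉ e.symm '' K) : M.ext m e g y = 0 := by
  rw [Atl.ext]
  split_ifs with h
  · rw [hg _ fun hk => hy ⟨_, hk, e.left_inv h⟩, mul_zero]
  · rfl

/-- the bounds on the set `U` of the chart `e'` with the constant `c`. -/
def Q (M : Atl ι X) (m : ℕ) (e e' : Ch ι X) (K U : Set (V ι)) (c : ℝ) : Prop :=
  ∀ g : V ι → ℂ, (∀ z ∉ K, g z = 0) →
    (∀ t ≥ (1 : ℝ), ∀ B, HolT t B g univ → HolT t (c * B) (M.rep m (M.ext m e g) e') U) ∧
    ∀ B, Hol2 B g univ → Hol2 (c * B) (M.rep m (M.ext m e g) e') U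

theorem Q.mono {K U U' : Set (V ι)} {c c' : ℝ} (h : Q M m e e' K U c) (hU : U' ⊆ U)
    (hc : c ≤ c') : Q M m e e' K U' c' := fun g hg =>
  ⟨fun t ht B hB => (((h g hg).1 t ht B hB).subset hU).mono
      (mul_le_mul_of_nonneg_right hc (hB.nonneg (by linarith) (mem_univ 0))),
    fun B hB => (((h g hg).2 B hB).subset hU).mono
      (mul_le_mul_of_nonneg_right hc (hB.nonneg (mem_univ 0)))⟩

theorem loc (A : RepA' M) (he : e ∈ M.A) (he' : e' ∈ M.A) {K : Set (V ι)} (hK : K ⊆ e.target)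
    (hc : IsClosed (e.symm '' K)) {z0 : V ι} (hz : z0 ∈ e'.target) :
    ∃ ρ > 0, ∃ c, Q M m e e' K (ball z0 ρ) c := by
  have hx := e'.map_target hz
  have ct : Tendsto e'.symm (𝓝 z0) (𝓝 (e'.symm z0)) := e'.continuousAt_symm hz
  by_cases h : e'.symm z0 ∈ e.source
  · have h1 : ContDiffAt ℝ 3 (e ∘ e'.symm) z0 := by
      have := M.hol e' he' e he _ hx h
      rw [e'.right_inv hz] at this
      exact this.contDiffAt.restrict_scalars ℝ
    have h2 : ContDiffAt ℝ 3 (fun z => (tj e' e (e'.symm z)).det ^ m) z0 := by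
      refine ContDiffAt.pow ?_ m
      simp only [det_apply']
      refine ContDiffAt.sum fun σ _ => contDiffAt_const.mul (contDiffAt_prod fun i _ => ?_)
      have := A.tj_an e' he' e he _ hx h (σ i) i
      rw [e'.right_inv hz] at this
      exact this.contDiffAt.restrict_scalars ℝ
    obtain ⟨ρ, hρ, hb⟩ := nhds_basis_closedBall.eventually_iff.1
      (((h1.eventually (by simp)).and (h2.eventually (by simp))).and
        ((ct.eventually (e.open_source.mem_nhds h)).and (e'.open_target.mem_nhds hz)))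
    obtain ⟨C1, c1, l1, k1⟩ := hol2_comp (isCompact_closedBall z0 ρ) (convex_closedBall z0 ρ)
      fun z hz => (hb hz).1.1
    obtain ⟨C2, c2, k2⟩ := hol2_of_c3 (isCompact_closedBall z0 ρ) (convex_closedBall z0 ρ)
      fun z hz => (hb hz).1.2
    have hr : ∀ g, ∀ z ∈ ball z0 ρ, M.rep m (M.ext m e g) e' z =
        (tj e' e (e'.symm z)).det ^ m * g ((e ∘ e'.symm) z) := fun g z hz =>
      rep_ext A he he' g (hb (ball_subset_closedBall hz)).2.2 (hb (ball_subset_closedBall hz)).2.1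
    refine ⟨ρ, hρ, 8 * C2 * C1, fun g _ => ⟨fun t ht B hB => ?_, fun B hB => ?_⟩⟩
    · have h0 : 0 ≤ B := hB.nonneg (by linarith) (mem_univ 0)
      refine (((((hB.comp (by linarith) c1 (mapsTo_univ _ _) l1).mul ht k2.2.1)).subset
        ball_subset_closedBall).congr (hr g)).mono ?_
      have : 0 ≤ C2 * (C1 * B) := by positivity
      linarith
    · exact (((k2.mul (k1 g B hB)).subset ball_subset_closedBall).congr isOpen_ball (hr g)).mono
        (le_of_eq (by ring))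
  · have h1 : e'.symm z0 ∈ (e.symm '' K)ᶜ := by
      rintro ⟨k, hk, h'⟩
      exact h (h' ▸ e.map_target (hK hk))
    obtain ⟨ρ, hρ, hb⟩ :=
      Metric.eventually_nhds_iff_ball.1 (ct.eventually (hc.isOpen_compl.mem_nhds h1))
    have hr : ∀ g : V ι → ℂ, (∀ z ∉ K, g z = 0) → ∀ z ∈ ball z0 ρ,
        M.rep m (M.ext m e g) e' z = 0 := fun g hg z hz => by
      rw [Atl.rep, ext_zero hg (hb z hz), mul_zero]
    exact ⟨ρ, hρ, 0, fun g hg => ⟨fun t _ B _ => (HolT.zero (by simp)).congr (hr g hg),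
      fun B _ => (Hol2.const 0 (by simp)).congr isOpen_ball (hr g hg)⟩⟩

end Ext

open Ext in
theorem extS (hA : RepA) : ExtAS := by
  intro ι X _ _ _ _ M C m e he K hK hKe
  have A := hA _ _ M
  have hc : IsClosed (e.symm '' K) :=
    (hK.image_of_continuousOn (e.continuousOn_symm.mono hKe)).isClosed
  have h1 : ∀ b, ∃ c, Q M m e (C.e b) K (ball 0 (2 * C.r b)) c := fun b => by
    obtain ⟨δ, hδ, c, -, h⟩ := unif (isCompact_closedBall (0 : V ι) (2 * C.r b))
      (Q M m e (C.e b) K) (fun _ _ _ _ => Q.mono) fun z hz => loc A he (C.mem b) hKe hc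
        (C.sub b (closedBall_subset_closedBall (by linarith [C.pos b]) hz))
    refine ⟨(1 + 2 / √δ) * c, fun g hg => ⟨fun t ht B hB => ?_, fun B hB => ?_⟩⟩
    · rw [mul_assoc]
      exact glueT ht hδ fun z hz => (h z (ball_subset_closedBall hz) g hg).1 t ht B hB
    · rw [mul_assoc]
      exact glue2 hδ fun z hz => (h z (ball_subset_closedBall hz) g hg).2 B hB
  choose c hc' using h1
  obtain ⟨c0, h0⟩ := Finite.exists_le c
  have h2 : ∀ b, Q M m e (C.e b) K (ball 0 (2 * C.r b)) (max c0 0) := fun b =>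
    (hc' b).mono Subset.rfl ((h0 b).trans (le_max_left _ _))
  refine ⟨max c0 0, le_max_right _ _, fun g hg => ⟨fun x hx => ?_, fun x hx => ?_,
    fun t ht B hB b => (h2 b g hg).1 t ht B hB, fun B hB b => (h2 b g hg).2 B hB⟩⟩
  · filter_upwards [e.open_target.mem_nhds (e.map_source hx)] with z hz
    rw [rep_ext A he he g hz (e.map_target hz), A.tj_self e he _ (e.map_target hz), det_one,
      one_pow, one_mul, e.right_inv hz]
  · have h3 : x ∈ (e.symm '' K)ᶜ := by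
      rintro ⟨k, hk, rfl⟩
      exact hx (e.map_target (hKe hk)) (by rwa [e.right_inv (hKe hk)])
    filter_upwards [hc.isOpen_compl.mem_nhds h3] with y hy using ext_zero hg hy

end Pool.Agent.Lib.MP_813db1_ag.HS
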