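import Pool.Agent.Lib.MP_813db1_ag.HS.Green_A

/-! Green's formulas and the invariance of the volume of a class. -/

namespace Pool.Agent.Lib.MP_813db1_ag.HS

open MeasureTheory Complex Matrix Filter Topology Set Metric
open scoped ContDiff ComplexOrder

namespace Green

variable {ι X : Type} [Fintype ι] [DecidableEq ι] [TopologicalSpace X] {M : Atl ι X}

omit [DecidableEq ι] in
theorem cont_of_chart {Y : Type} [TopologicalSpace Y] {f : X → Y} (F : Ch ι X → V ι → Y)
    (h1 : ∀ e ∈ M.A, ∀ x ∈ e.source, F e (e x) = f x)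
    (h2 : ∀ e ∈ M.A, ∀ z ∈ e.target, ContinuousAt (F e) z) : Continuous f := by
  refine continuous_iff_continuousAt.2 fun x => ?_
  have h3 := (h2 _ (M.ch_mem x) _ ((M.ch x).map_source (M.mem x))).comp
    ((M.ch x).continuousAt (M.mem x))
  refine h3.congr ?_
  filter_upwards [(M.ch x).open_source.mem_nhds (M.mem x)] with y hy using h1 _ (M.ch_mem x) y hy

theorem repF_eq (B : X → Mat ι) {e : Ch ι X} {x : X} (hx : x ∈ e.source) :
    M.repF B e (e x) = pull (tj e (M.ch x) x) (B x) := by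
  rw [Atl.repF, e.left_inv hx]

theorem rep_eq (a : ℕ) (σ : X → ℂ) {e : Ch ι X} {x : X} (hx : x ∈ e.source) :
    M.rep a σ e (e x) = (tj e (M.ch x) x).det ^ a * σ x := by
  rw [Atl.rep, e.left_inv hx]

theorem rep_zero (u : X → ℝ) (e : Ch ι X) : M.rep 0 (fun y => (u y : ℂ)) e = fn u e := by
  funext z
  simp [Atl.rep, fn]

theorem tj_ne (ha : RepA' M) {e : Ch ι X} (he : e ∈ M.A) {x : X} (hx : x ∈ e.source) :
    (tj e (M.ch x) x).det ≠ 0 := ha.tj_det e he _ (M.ch_mem x) x hx (M.mem x)

theorem det_rep (ha : RepA' M) (hm : MatS) (B : X → Mat ι) {e : Ch ι X} (he : e ∈ M.A) {x : X}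
    (hx : x ∈ e.source) :
    (M.repF B e (e x)).det.re = ‖(tj e (M.ch x) x).det‖ ^ 2 * (B x).det.re := by
  rw [repF_eq B hx, (hm.pull_pd ι _ (B x) (tj_ne ha he hx)).2.2.2.1, re_ofReal_mul]

theorem pd (ha : RepA' M) {h : X → Mat ι} (hh : M.IsK h) (x : X) : (h x).PosDef :=
  ((ha.isK_iff h).1 hh).2 x

/-- the weight in a chart. -/
noncomputable def wtL (a : ℕ) (G H : V ι → Mat ι) (z : V ι) : ℝ :=
  (H z).det.re / (G z).det.re / (H z).det.re ^ a

theorem wtL_rep (ha : RepA' M) (hm : MatS) (a : ℕ) (g h : X → Mat ι) {e : Ch ι X} (he : e ∈ M.A)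
    {x : X} (hx : x ∈ e.source) : (‖(tj e (M.ch x) x).det‖ ^ 2) ^ a *
      wtL a (M.repF g e) (M.repF h e) (e x) = wt a g h x := by
  have h0 : (‖(tj e (M.ch x) x).det‖ ^ 2) ^ a ≠ 0 :=
    pow_ne_zero _ (pow_ne_zero _ (norm_ne_zero_iff.2 (tj_ne ha he hx)))
  rw [wtL, ha.rat_rep h g e he x hx, det_rep ha hm h he hx, wt, mul_pow, mul_div_assoc',
    mul_div_mul_left _ _ h0]

theorem wtL_rep' (ha : RepA' M) (hm : MatS) (a : ℕ) (g h : X → Mat ι) {e : Ch ι X} (he : e ∈ M.A)
    {x : X} (hx : x ∈ e.source) : (tj e (M.ch x) x).det ^ a * star ((tj e (M.ch x) x).det ^ a) *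
      (wtL a (M.repF g e) (M.repF h e) (e x) : ℂ) = wt a g h x := by
  rw [← wtL_rep ha hm a g h he hx, ofReal_mul, ofReal_pow, nsq, mul_pow, star_pow]

theorem cont_wtL (a : ℕ) {G H : V ι → Mat ι} {U : Set (V ι)} (hG : KOn G U) (hH : KOn H U)
    {z : V ι} (hz : z ∈ U) : ContinuousAt (wtL a G H) z := by
  have h1 := continuous_re.continuousAt.comp (hG.1.1.det hz).continuousAt
  have h2 := continuous_re.continuousAt.comp (hH.1.1.det hz).continuousAt
  exact (h2.div h1 (det_pos (hG.2 z hz)).ne').div (h2.pow a)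
    (pow_ne_zero _ (det_pos (hH.2 z hz)).ne')

section Cont

variable (ha : RepA' M) (hb : RepB' M) (hm : MatS) {g h : X → Mat ι} (hg : M.IsK g) (hh : M.IsK h)
  {a : ℕ} {σ τ : X → ℂ}

include ha hm hg hh

theorem cont0 (hσ : M.CkS 0 a σ) (hτ : M.CkS 0 a τ) :
    Continuous fun x => σ x * star (τ x) * (wt a g h x : ℂ) := by
  refine cont_of_chart (M := M) (fun e z => M.rep a σ e z * star (M.rep a τ e z) *
    (wtL a (M.repF g e) (M.repF h e) z : ℂ)) (fun e he x hx => ?_) fun e he z hz => ?_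
  · rw [rep_eq a σ hx, rep_eq a τ hx, ← wtL_rep' ha hm a g h he hx, star_mul']
    ring
  · exact ((hσ e he z hz).continuousAt.mul (hτ e he z hz).continuousAt.star).mul
      (continuous_ofReal.continuousAt.comp (cont_wtL a (hg e he) (hh e he) hz))

include hb

theorem cont1 (hσ : M.CkS 1 a σ) (hτ : M.CkS 1 a τ) {B : X → Mat ι} (hB : M.SmF B) :
    Continuous fun x => ipV (B x) (M.shpX a h σ x) (M.shpX a h τ x) * (wt a g h x : ℂ) := by
  refine cont_of_chart (M := M) (fun e z => ipV (M.repF B e z) (shp (M.repF h e) (M.rep a σ e) z)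
    (shp (M.repF h e) (M.rep a τ e) z) * (wtL a (M.repF g e) (M.repF h e) z : ℂ))
    (fun e he x hx => ?_) fun e he z hz => ?_
  · rw [repF_eq B hx, (hm.pull_pd ι _ (B x) (tj_ne ha he hx)).2.2.2.2.2.2,
      hb.shp_rep a h σ e he x hx ((hσ e he _ (e.map_source hx)).differentiableAt one_ne_zero),
      hb.shp_rep a h τ e he x hx ((hτ e he _ (e.map_source hx)).differentiableAt one_ne_zero),
      ipV_smul, ← wtL_rep' ha hm a g h he hx]
    ring
  · have h0 : CdM 0 (M.repF h e) z := ((hh e he).1.1.cd hz).of_le zero_le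
    have h1 := det_ne ((hh e he).2 z hz)
    exact (cd_ipV (((hB e he).cd hz).of_le zero_le)
      (cd_shp h0 h1 (hσ e he z hz) (by norm_num))
      (cd_shp h0 h1 (hτ e he z hz) (by norm_num))).continuousAt.mul
      (continuous_ofReal.continuousAt.comp (cont_wtL a (hg e he) (hh e he) hz))

theorem cont2 (hσ : M.CkS 2 a σ) : Continuous fun x => M.nDX a h σ x * wt a g h x := by
  refine cont_of_chart (M := M) (fun e z => nD (M.repF h e) (shp (M.repF h e) (M.rep a σ e)) z *
    wtL a (M.repF g e) (M.repF h e) z) (fun e he x hx => ?_) fun e he z hz => ?_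
  · rw [hb.nD_rep a h σ hh e he x hx (hσ e he _ (e.map_source hx)), ← wtL_rep ha hm a g h he hx]
    ring
  · have h0 : CdM 1 (M.repF h e) z := ((hh e he).1.1.cd hz).of_le (by norm_cast)
    have h1 := det_ne ((hh e he).2 z hz)
    exact (cont_nD (h0.of_le zero_le) h1 (cd_shp h0 h1 (hσ e he z hz) le_rfl)).mul
      (cont_wtL a (hg e he) (hh e he) hz)

omit ha hm hg in
theorem box_ck (hσ : M.CkS 2 a σ) : M.CkS 0 a (M.box a h σ) := fun e he z hz => by
  refine (cd_boxL a (((hh e he).1.1.cd hz).of_le (by norm_cast)) ((hh e he).2 z hz)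
    (hσ e he z hz)).congr_of_eventuallyEq ?_
  filter_upwards [e.open_target.mem_nhds hz] with w hw
  have := hb.box_rep a h σ hh e he _ (e.map_target hw)
  rw [e.right_inv hw] at this
  exact this (hσ e he w hw)

end Cont

variable [T2Space X] [CompactSpace X] [MeasurableSpace X] [BorelSpace X] {g h : X → Mat ι}
  {μ : Measure X}

theorem div_zero (ha : RepA' M) (hd : DivS) (hg : M.IsK g) (hμ : M.IsVol g μ)
    (W : Ch ι X → V ι → V ι) (w : X → V ι) (f : X → ℂ)
    (h1 : ∀ e ∈ M.A, ∀ z ∈ e.target, ∀ i, ContDiffAt ℝ 1 (fun y => W e y i) z)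
    (h2 : ∀ e ∈ M.A, ∀ x ∈ e.source, tj e (M.ch x) x *ᵥ W e (e x) =
      ((‖(tj e (M.ch x) x).det‖ ^ 2 : ℝ) : ℂ) • w x)
    (h3 : ∀ x, ∑ i, dz (fun y => W (M.ch x) y i) i (M.ch x x) = ((g x).det.re : ℂ) * f x) :
    ∫ x, f x ∂μ = 0 := by
  obtain ⟨d, -, h0, hd'⟩ := hd ι X M g μ M.A (fun e => e.target) W hg hμ subset_rfl
    (fun e _ => ⟨e.open_target, subset_rfl⟩)
    (fun x => ⟨_, M.ch_mem x, M.mem x, (M.ch x).map_source (M.mem x)⟩)
    (fun e he z hz => contDiffAt_pi.2 (h1 e he z hz)) (fun e he e' he' x hx hx' _ _ => by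
      have e1 := h2 e he x hx
      have e2 := h2 e' he' x hx'
      rw [ha.tj_mul e he e' he' _ (M.ch_mem x) x hx hx' (M.mem x), ← mulVec_mulVec, det_mul,
        norm_mul, mul_pow, ofReal_mul, mul_comm, mul_smul, ← e2, ← mulVec_smul] at e1
      exact mulVec_injective_iff_isUnit.2
        ((isUnit_iff_isUnit_det _).2 (tj_ne ha he' hx').isUnit) e1)
  rw [← h0]
  refine integral_congr_ae (Eventually.of_forall fun x => ?_)
  have e1 := hd' _ (M.ch_mem x) x (M.mem x) ((M.ch x).map_source (M.mem x))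
  rw [h3, ha.repF_self] at e1
  exact mul_left_cancel₀ (ofReal_ne_zero.2 (det_pos (pd ha hg x)).ne') e1

theorem sec_zero (ha : RepA' M) (hb : RepB' M) (hd : DivS) (hc : CurvS) (hm : MatS)
    (hg : M.IsK g) (hh : M.IsK h) (hμ : M.IsVol g μ) {a : ℕ} {σ τ : X → ℂ} (hσ : M.CkS 2 a σ)
    (hτ : M.CkS 1 a τ) : ∫ x, (M.box a h σ x * star (τ x) * (wt a g h x : ℂ) +
      ipV (h x) (M.shpX a h σ x) (M.shpX a h τ x) * (wt a g h x : ℂ)) ∂μ = 0 := by
  refine div_zero ha hd hg hμ (fun e z => (ex a (M.repF h e) z * star (M.rep a τ e z)) •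
    shp (M.repF h e) (M.rep a σ e) z) (fun x => ((((h x).det.re / (h x).det.re ^ a : ℝ) : ℂ) *
      star (τ x)) • M.shpX a h σ x) _ (fun e he z hz i => ?_) (fun e he x hx => ?_) fun x => ?_
  · have h0 : CdM 1 (M.repF h e) z := ((hh e he).1.1.cd hz).of_le (by norm_cast)
    have h1 := (hh e he).2 z hz
    exact ((cd_ex a h0 (det_pos h1).ne').mul (cd_star (hτ e he z hz))).mul
      (cd_shp h0 (det_ne h1) (hσ e he z hz) le_rfl i)
  · have hz := e.map_source hx
    have h1 := tj_ne ha he hx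
    have h2 : star (tj e (M.ch x) x).det ≠ 0 := star_ne_zero.2 h1
    have h3 : ((h x).det.re : ℂ) ≠ 0 := ofReal_ne_zero.2 (det_pos (pd ha hh x)).ne'
    rw [mulVec_smul, hb.shp_rep a h σ e he x hx ((hσ e he _ hz).differentiableAt two_ne_zero),
      ex_eq a (det_pos ((hh e he).2 _ hz)), det_rep ha hm h he hx, rep_eq a τ hx, smul_smul,
      smul_smul, ofReal_div, ofReal_pow, ofReal_mul, nsq, star_mul', star_pow, ofReal_div,
      ofReal_pow, mul_pow, mul_pow]
    congr 1
    field_simp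
  · have he := M.ch_mem x
    have hz := (M.ch x).map_source (M.mem x)
    have h3 : ((g x).det.re : ℂ) ≠ 0 := ofReal_ne_zero.2 (det_pos (pd ha hg x)).ne'
    rw [div_sec hc a (M.ch x).open_target (hh _ he) hz (hσ _ he _ hz) (hτ _ he _ hz),
      ex_eq a (det_pos ((hh _ he).2 _ hz)), ha.repF_self, ha.rep_self]
    simp only [Atl.box, Atl.shpX, wt, rat, ofReal_div]
    field_simp

omit [T2Space X] in
theorem intg [IsFiniteMeasure μ] {f : X → ℂ} (hf : Continuous f) : Integrable f μ :=
  hf.integrable_of_hasCompactSupport (HasCompactSupport.of_compactSpace f)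

end Green

open Green

theorem green (ha : RepA) (hb : RepB) (hd : DivS) (hc : CurvS) (hm : MatS) (hv : VolS) :
    GreenS where
  real := by
    intro ι X _ _ _ _ _ _ _ M g h μ u v hg hh hμ hu hv'
    have ha := ha ι X M
    have hb := hb ι X M
    have := ((hv ι X M g hg).2 μ hμ).fin
    have hσ : M.CkS 2 0 fun y => (u y : ℂ) := fun e he z hz => by
      rw [rep_zero]; exact hu e he z hz
    have hτ : M.CkS 1 0 fun y => (v y : ℂ) := fun e he z hz => by
      rw [rep_zero]; exact hv' e he z hz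
    have hu1 : M.Ck 1 u := fun e he z hz => (hu e he z hz).of_le one_le_two
    refine ⟨cont_of_chart (M := M) (fun e z => (lapL (M.repF h e) (fn u e) z).re)
      (fun e he x hx => hb.lap_rep h u e he x hx (hu e he _ (e.map_source hx)))
      fun e he z hz => continuous_re.continuousAt.comp (cd_lapL (((hh e he).1.1.cd hz).of_le
        zero_le) (det_ne ((hh e he).2 z hz)) (hu e he z hz)).continuousAt,
      cont_of_chart (M := M) (fun e z => (grL (M.repF h e z) (fun i => dz (fn u e) i z)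
        fun i => dz (fn v e) i z).re) (fun e he x hx => congrArg re (hb.grad_rep h u v e he x hx
          ((hu1 e he _ (e.map_source hx)).differentiableAt one_ne_zero)
          ((hv' e he _ (e.map_source hx)).differentiableAt one_ne_zero)))
      fun e he z hz => continuous_re.continuousAt.comp (cd_grL (((hh e he).1.1.cd hz).of_le
        zero_le) (det_ne ((hh e he).2 z hz)) (hu1 e he z hz) (hv' e he z hz)).continuousAt, ?_⟩
    have h0 := congrArg re (sec_zero ha hb hd hc hm hg hh hμ hσ hτ)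
    have hi := intg (μ := μ) ((cont0 ha hm hg hh (box_ck hb hh hσ)
      fun e he z hz => (hτ e he z hz).of_le zero_le).add (cont1 ha hb hm hg hh
        (fun e he z hz => (hσ e he z hz).of_le one_le_two) hτ fun e he => (hh e he).1.1))
    refine (integral_congr_ae (Eventually.of_forall fun x => ?_)).trans
      ((reCLM.integral_comp_comm hi).trans h0)
    have hp := pd ha hh x
    have e1 : ipV (h x) (M.shpX 0 h (fun y => (u y : ℂ)) x) (M.shpX 0 h (fun y => (v y : ℂ)) x) =
        ∑ i, (∑ j, (h x)⁻¹ j i * star (M.dfn u x j)) * M.dfn v x i := by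
      have := ipV_shp (H := M.repF h (M.ch x)) (T := fn v (M.ch x)) (z := M.ch x x)
        (by rw [ha.repF_self]; exact hp.1) (by rw [ha.repF_self]; exact hp.det_pos.ne')
        (shp (M.repF h (M.ch x)) (fn u (M.ch x)) (M.ch x x))
      rw [ha.repF_self] at this
      rw [Atl.shpX, Atl.shpX, rep_zero, rep_zero, this]
      refine Finset.sum_congr rfl fun i _ => ?_
      have e2 : ∀ (f : X → ℝ) k, dzb (fn f (M.ch x)) k (M.ch x x) = star (M.dfn f x k) :=
        fun f k => dzb_ofReal (fun z => f ((M.ch x).symm z)) k _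
      simp only [shp, ha.repF_self, e2, star_star]
    have e3 := (congrArg re e1).trans (grL_re hp.1 _ _)
    simp only [reCLM_apply, Pi.add_apply, add_re, re_mul_ofReal, e3,
      hb.box_zero h u x hu hp.1, wt, pow_zero, div_one, Atl.grad, RCLike.star_def, conj_ofReal,
      ofReal_re]
    ring
  sec := by
    intro ι X _ _ _ _ _ _ _ M g h μ a σ τ hg hh hμ hσ hτ
    have ha := ha ι X M
    have hb := hb ι X M
    have := ((hv ι X M g hg).2 μ hμ).fin
    refine ⟨box_ck hb hh hσ, eq_neg_of_add_eq_zero_left ?_⟩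
    rw [Atl.ip0, Atl.ip1, ← integral_add (intg (cont0 ha hm hg hh (box_ck hb hh hσ)
      fun e he z hz => (hτ e he z hz).of_le zero_le)) (intg (cont1 ha hb hm hg hh
        (fun e he z hz => (hσ e he z hz).of_le one_le_two) hτ fun e he => (hh e he).1.1))]
    exact sec_zero ha hb hd hc hm hg hh hμ hσ hτ
  cont := by
    intro ι X _ _ _ M g h a σ τ hg hh
    have ha := ha ι X M
    have hb := hb ι X M
    exact ⟨cont0 ha hm hg hh, fun hσ hτ _ hB => cont1 ha hb hm hg hh hσ hτ hB,
      cont2 ha hb hm hg hh, fun x => div_pos (div_pos (det_pos (pd ha hh x))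
        (det_pos (pd ha hg x))) (pow_pos (det_pos (pd ha hh x)) a)⟩

theorem inv (ha : RepA) (hb : RepB) (hd : DivS) (hc : CurvS) (hv : VolS) : InvS := by
  intro ι X _ _ _ _ _ _ _ M g B μ u hg hμ hB hu
  have ha := ha ι X M
  have hb := hb ι X M
  have := ((hv ι X M g hg).2 μ hμ).fin
  have hcl : ∀ t : ℝ, M.ClF fun x => B x + (t : ℂ) • M.ddc u x := fun t =>
    ha.clF_add _ _ hB (ha.clF_smul t _ (hb.ddc_cl u hu))
  let p : X → Polynomial ℂ := fun x => Polynomial.C ((g x).det.re : ℂ)⁻¹ * pen (B x) (M.ddc u x)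
  have hp : ∀ (t : ℝ) x, (p x).eval (t : ℂ) =
      (rat (fun x => B x + (t : ℂ) • M.ddc u x) g x : ℂ) := fun t x => by
    simp only [p, Polynomial.eval_mul, Polynomial.eval_C, pen_eval, rat, ofReal_div,
      det_re_herm (ha.herm _ (hcl t) x)]
    ring
  have key := poly_const μ p (Fintype.card ι) (fun x => (Polynomial.natDegree_C_mul_le _ _).trans
    (Polynomial.natDegree_det_X_add_C_le _ _)) (fun t => by
      simp only [hp]
      refine intg (continuous_ofReal.comp (ha.cont _ fun e he z hz => ?_))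
      exact (ha.ck_rat _ g (fun e he => (hcl t e he).1) hg e he z hz).of_le zero_le) fun t => by
    refine div_zero ha hd hg hμ
      (fun e z => (M.repF (fun x => B x + (t : ℂ) • M.ddc u x) e z).adjugateᵀ *ᵥ
        fun j => dzb (fn u e) j z) (fun x => (B x + (t : ℂ) • M.ddc u x).adjugateᵀ *ᵥ
        star (M.dfn u x)) _ (fun e he z hz i => ?_) (fun e he x hx => ?_) fun x => ?_
    · exact ContDiffAt.sum fun j _ => ((((hcl t e he).1.cd hz).adjugate j i).mul
        (contDiffAt_dzb_top (hu e he z hz) j)).of_le (by norm_cast)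
    · have e1 := hb.dfn_rep u e he x hx ((hu e he _ (e.map_source hx)).differentiableAt (by simp))
      have e2 : (fun j => dzb (fn u e) j (e x)) =
          star (M.dfn u x) ᵥ* (tj e (M.ch x) x).map star := by
        funext j
        rw [show dzb (fn u e) j (e x) = star (dz (fn u e) j (e x)) from
          dzb_ofReal (fun z => u (e.symm z)) j _, congrFun e1 j]
        simp [vecMul, dotProduct]
      rw [repF_eq _ hx, e2, adj_pull]
    · have he := M.ch_mem x
      have hz := (M.ch x).map_source (M.mem x)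
      have h3 : ((g x).det.re : ℂ) ≠ 0 := ofReal_ne_zero.2 (det_pos (pd ha hg x)).ne'
      rw [div_adj hc (M.ch x).open_target (hcl t _ he) hz ((hu _ he _ hz).of_le (by norm_cast)),
        ha.repF_self]
      simp only [p, Polynomial.derivative_C_mul, Polynomial.eval_mul, Polynomial.eval_C, pen_deriv,
        mul_inv_cancel_left₀ h3]
      rfl
  have h1 := hp 1
  have h0 := hp 0
  simp only [ofReal_one, one_smul, ofReal_zero, zero_smul, add_zero] at h1 h0
  simp only [h1, h0, integral_complex_ofReal] at key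
  exact ofReal_injective key

end Pool.Agent.Lib.MP_813db1_ag.HS
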