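import Pool.Agent.Lib.MP_813db1_ag.HS.Stmt
import Pool.Agent.Lib.MP_caab05_ag.GB.Osg

/-! The Gaussian semigroup, through its holomorphic extension. -/

namespace Pool.Agent.Lib.MP_813db1_ag.HS

open MeasureTheory Complex Matrix Filter Topology Set Metric
open Pool.Agent.Lib.MP_caab05_ag.GB
open scoped ContDiff ComplexOrder

noncomputable section

namespace Heat

variable {ι : Type} [Fintype ι]

lemma gauss {c : ℝ} (hc : 0 < c) (K D : ℝ) :
    Integrable fun w : V ι => Real.exp (-c * ‖w‖ ^ 2 + K * ‖w‖ + D) := by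
  obtain ⟨r, hr⟩ : ∃ r : ℝ, (Module.finrank ℝ (V ι) : ℝ) < r := ⟨_, lt_add_one _⟩
  have r0 : 0 ≤ r := (Nat.cast_nonneg _).trans hr.le
  refine ((integrable_one_add_norm hr).const_mul (Real.exp (D + (K + r) ^ 2 / (4 * c)))).mono'
    (Continuous.aestronglyMeasurable (by fun_prop)) (ae_of_all _ fun w => ?_)
  have h0 := norm_nonneg w
  rw [Real.norm_of_nonneg (Real.exp_pos _).le, Real.rpow_def_of_pos (by linarith),
    ← Real.exp_add, Real.exp_le_exp]
  have h1 : Real.log (1 + ‖w‖) ≤ ‖w‖ := by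
    have := Real.log_le_sub_one_of_pos (show 0 < 1 + ‖w‖ by linarith)
    linarith
  have h2 : (K + r) * ‖w‖ - c * ‖w‖ ^ 2 ≤ (K + r) ^ 2 / (4 * c) := by
    rw [le_div_iff₀ (by positivity)]
    nlinarith [sq_nonneg (K + r - 2 * c * ‖w‖)]
  nlinarith [mul_le_mul_of_nonneg_left h1 r0]

/-- the space of complex parameters. -/
abbrev X (ι : Type) : Type := ℂ × V ι × V ι

/-- holomorphic kernels that are locally dominated. -/
structure Good (K : X ι → V ι → ℂ) : Prop where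
  diff : ∀ y, Differentiable ℂ fun x => K x y
  cont : Continuous fun p : V ι × X ι => K p.2 p.1
  dom : ∀ x0 : X ι, 0 < x0.1.re → ∃ r > 0, ∃ b : V ι → ℝ, Integrable b ∧
    ∀ x ∈ ball x0 r, ∀ y, ‖K x y‖ ≤ b y

variable {K K' : X ι → V ι → ℂ} {x : X ι}

lemma Good.meas (h : Good K) (x : X ι) : AEStronglyMeasurable (K x) :=
  (h.cont.comp (continuous_id.prodMk continuous_const)).aestronglyMeasurable

lemma Good.int (h : Good K) (hx : 0 < x.1.re) : Integrable (K x) := by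
  obtain ⟨r, hr, b, hb, e⟩ := h.dom x hx
  exact hb.mono' (h.meas x) (ae_of_all _ (e x (mem_ball_self hr)))

lemma Good.has (h : Good K) (hx : 0 < x.1.re) :
    Integrable (fun y => fderiv ℂ (fun x => K x y) x) ∧
      HasFDerivAt (fun x => ∫ y, K x y) (∫ y, fderiv ℂ (fun x => K x y) x) x := by
  obtain ⟨r, hr, b, hb, e⟩ := h.dom x hx
  refine hasFDerivAt_integral_of_dominated_loc_of_lip' (bound := fun y => 2 * b y / r)
    (ball_mem_nhds x hr) (fun x _ => h.meas x) (h.int hx) ?_ (ae_of_all _ fun y z hz => ?_)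
    ((hb.const_mul 2).div_const r) (ae_of_all _ fun y => (h.diff y x).hasFDerivAt)
  · have : BorelSpace (V ι × V ι) := Prod.borelSpace
    have : BorelSpace (X ι) := Prod.borelSpace
    exact ((measurable_fderiv_with_param ℂ (f := fun y x => K x y) h.cont).comp
      (measurable_id.prodMk measurable_const)).aestronglyMeasurable
  · rw [← dist_eq_norm, ← dist_eq_norm]
    refine Complex.dist_le_div_mul_dist_of_mapsTo_ball (f := fun x => K x y)
      (h.diff y).differentiableOn (fun w hw => ?_) hz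
    rw [mem_closedBall_iff_norm]
    linarith [norm_sub_le (K w y) (K x y), e w hw y, e x (mem_ball_self hr) y]

lemma Good.der (h : Good K) (v : X ι)
    (hd : ∀ x y, HasDerivAt (fun t : ℂ => K (x + t • v) y) (K' x y) 0)
    (h1 : ∀ y, Differentiable ℂ fun x => K' x y)
    (h2 : Continuous fun p : V ι × X ι => K' p.2 p.1) :
    Good K' ∧ ∀ x : X ι, 0 < x.1.re → fderiv ℂ (fun x => ∫ y, K x y) x v = ∫ y, K' x y := by
  have e : ∀ x y, fderiv ℂ (fun x => K x y) x v = K' x y := fun x y =>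
    ((h.diff y x).hasFDerivAt.hasLineDerivAt v).unique (hd x y)
  refine ⟨⟨h1, h2, fun x hx => ?_⟩, fun x hx => ?_⟩
  · obtain ⟨r, hr, b, hb, e'⟩ := h.dom x hx
    refine ⟨r / 2, half_pos hr, fun y => 2 * b y / (r / 2) * ‖v‖,
      ((hb.const_mul 2).div_const _).mul_const _, fun z hz y => ?_⟩
    rw [← e]
    refine (ContinuousLinearMap.le_opNorm _ _).trans (mul_le_mul_of_nonneg_right ?_ (norm_nonneg _))
    refine OsgAux.cauchy (half_pos hr) (h.diff y).differentiableOn fun w hw => e' w ?_ y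
    simpa using OsgAux.ball_sub hz hw
  · rw [(h.has hx).2.fderiv, ContinuousLinearMap.integral_apply (h.has hx).1]
    simp only [e]

lemma Good.an (h : Good K) (hx : 0 < x.1.re) : AnalyticAt ℂ (fun x => ∫ y, K x y) x :=
  osg _ _ _ {x : X ι | 0 < x.1.re} (isOpen_lt continuous_const (by fun_prop))
    (fun _ hy => (h.has hy).2.differentiableAt.differentiableWithinAt) x hx

/-- the real slice. -/
def J : V ι →L[ℝ] V ι × V ι := (ContinuousLinearMap.id ℝ _).prod (starL' ℝ : V ι ≃L[ℝ] V ι)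

omit [Fintype ι] in
lemma J_apply (z : V ι) : J z = (z, star z) := rfl

lemma step {F : Type} [NormedAddCommGroup F] [NormedSpace ℂ F] [CompleteSpace F]
    {H : V ι × V ι → F} (hH : Differentiable ℂ H) : ∃ H1 : V ι × V ι → V ι →L[ℝ] F,
      Differentiable ℂ H1 ∧ (∀ z, HasFDerivAt (fun z => H (J z)) (H1 (J z)) z) ∧
      ∀ c r a K, 0 < r → (∀ y ∈ ball c (a + r), ‖H y‖ ≤ K) → ∀ y ∈ ball c a, ‖H1 y‖ ≤ 2 * K / r := by
  have hb : ∀ A : (V ι × V ι) →L[ℂ] F, ‖(A.restrictScalars ℝ).comp J‖ ≤ 1 * ‖A‖ := fun A => by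
    refine ContinuousLinearMap.opNorm_le_bound _ (by positivity) fun v => ?_
    refine (A.le_opNorm (J v)).trans (le_of_eq ?_)
    rw [J_apply, Prod.norm_mk, norm_star, max_self, one_mul]
  let Ψ : ((V ι × V ι) →L[ℂ] F) →L[ℂ] V ι →L[ℝ] F := LinearMap.mkContinuous
    ⟨⟨fun A => (A.restrictScalars ℝ).comp J, fun _ _ => rfl⟩, fun _ _ => rfl⟩ 1 hb
  refine ⟨fun y => Ψ (fderiv ℂ H y), Ψ.differentiable.comp (differentiableOn_univ.1
    (OsgAux.diff_fderiv isOpen_univ hH.differentiableOn)), fun z =>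
    ((hH (J z)).hasFDerivAt.restrictScalars ℝ).comp z J.hasFDerivAt, fun c r a K hr h y hy => ?_⟩
  refine (hb _).trans ?_
  rw [one_mul]
  exact OsgAux.cauchy hr hH.differentiableOn fun w hw => h w (OsgAux.ball_sub hy hw)

lemma est {p : V ι → ℂ} {H : V ι × V ι → ℂ} (hH : Differentiable ℂ H) {k : ℂ}
    (e : ∀ z, p z = k + H (J z)) {z : V ι} {r K : ℝ} (hr : 0 < r)
    (hb : ∀ y ∈ ball (J z) (r + r + r + r), ‖H y‖ ≤ K) :
    ‖fderiv ℝ p z‖ ≤ 2 * K / r ∧ ‖fderiv ℝ (fderiv ℝ p) z‖ ≤ 2 * (2 * K / r) / r ∧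
      ∃ D : V ι →L[ℝ] V ι →L[ℝ] V ι →L[ℝ] ℂ, HasFDerivAt (fderiv ℝ (fderiv ℝ p)) D z ∧
        ∀ v, ‖D v‖ ≤ 2 * (2 * (2 * K / r) / r) / r * ‖v‖ := by
  obtain ⟨H1, d1, e1, b1⟩ := step hH
  obtain ⟨H2, d2, e2, b2⟩ := step d1
  obtain ⟨H3, -, e3, b3⟩ := step d2
  have f1 : fderiv ℝ p = fun z => H1 (J z) := funext fun z => by
    rw [funext e]
    exact ((e1 z).const_add k).fderiv
  have f2 : fderiv ℝ (fderiv ℝ p) = fun z => H2 (J z) := f1 ▸ funext fun z => (e2 z).fderiv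
  have c1 := b1 _ _ _ _ hr hb
  have c2 := b2 _ _ _ _ hr c1
  have c3 := b3 _ _ _ _ hr c2
  rw [f2, f1]
  exact ⟨c1 _ (mem_ball_self (by positivity)), c2 _ (mem_ball_self (by positivity)), _, e3 z,
    (H3 (J z)).le_of_opNorm_le (c3 _ (mem_ball_self hr))⟩

lemma lip {F : Type} [NormedAddCommGroup F] [NormedSpace ℝ F] {p : V ι → F} {C : ℝ} (hC : 0 ≤ C)
    (h : ∀ z, ∃ D : V ι →L[ℝ] F, HasFDerivAt p D z ∧ ∀ v, ‖D v‖ ≤ C * ‖v‖) (z w : V ι) :
    ‖p z - p w‖ ≤ C * ‖z - w‖ := by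
  choose D h1 h2 using h
  exact convex_univ.norm_image_sub_le_of_norm_hasFDerivWithin_le
    (fun x _ => (h1 x).hasFDerivWithinAt)
    (fun x _ => ContinuousLinearMap.opNorm_le_bound _ hC (h2 x)) trivial trivial

variable [DecidableEq ι]

lemma slice {G : X ι → ℂ} {u : ℂ} {z : V ι} (κ : ℂ) (h : DifferentiableAt ℂ G (u, z, star z))
    (i : ι) :
    dz (fun w => κ * G (u, w, star w)) i z = κ * fderiv ℂ G (u, z, star z) (0, Pi.single i 1, 0) ∧
    dzb (fun w => κ * G (u, w, star w)) i z =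
      κ * fderiv ℂ G (u, z, star z) (0, 0, Pi.single i 1) := by
  have h1 : HasFDerivAt (fun w : V ι => (u, w, star w)) ((0 : V ι →L[ℝ] ℂ).prod J) z :=
    (hasFDerivAt_const u z).prodMk J.hasFDerivAt
  have h2 := ((h.hasFDerivAt.restrictScalars ℝ).comp z h1).const_mul κ
  have h3 : ∀ v, fderiv ℝ (fun w => κ * G (u, w, star w)) z v =
      κ * fderiv ℂ G (u, z, star z) (0, v, star v) := fun v => by
    rw [show fderiv ℝ (fun w => κ * G (u, w, star w)) z = _ from h2.fderiv]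
    rfl
  have e1 : ((0, Pi.single i 1, star (Pi.single i 1 : V ι)) : X ι) =
      (0, Pi.single i 1, 0) + (0, 0, Pi.single i 1) := by simp
  have e2 : ((0, Pi.single i I, star (Pi.single i I : V ι)) : X ι) =
      I • ((0, Pi.single i 1, 0) : X ι) - I • ((0, 0, Pi.single i 1) : X ι) := by
    simp [← Pi.single_smul, Pi.single_neg]
  rw [dz, dzb, h3, h3, e1, e2, map_add, map_sub, map_smul, map_smul, smul_eq_mul, smul_eq_mul]
  constructor
  · linear_combination (-κ / 2 * (fderiv ℂ G (u, z, star z) (0, Pi.single i 1, 0) -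
      fderiv ℂ G (u, z, star z) (0, 0, Pi.single i 1))) * I_mul_I
  · linear_combination (κ / 2 * (fderiv ℂ G (u, z, star z) (0, Pi.single i 1, 0) -
      fderiv ℂ G (u, z, star z) (0, 0, Pi.single i 1))) * I_mul_I

omit [DecidableEq ι]

/-- the Gaussian kernel. -/
def ker (Q : V ι →L[ℂ] V ι →L[ℂ] ℂ) (g : V ι → ℂ) (x : X ι) (y : V ι) : ℂ :=
  g y * cexp (-x.1 * Q (x.2.1 - y) (x.2.2 - star y))

/-- uniformly elliptic forms. -/
structure Ell (Q : V ι →L[ℂ] V ι →L[ℂ] ℂ) (c N : ℝ) : Prop where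
  cp : 0 < c
  np : 0 ≤ N
  bd : ∀ a b, ‖Q a b‖ ≤ N * ‖a‖ * ‖b‖
  im : ∀ w, (Q w (star w)).im = 0
  lo : ∀ w, c * ‖w‖ ^ 2 ≤ (Q w (star w)).re
  up : ∀ w, c * (Q w (star w)).re ≤ ‖w‖ ^ 2

variable {Q : V ι →L[ℂ] V ι →L[ℂ] ℂ} {c N B : ℝ} {g : V ι → ℂ}

lemma Ell.exp_bd (h : Ell Q c N) {u : ℂ} {a b : V ι} {δ R S : ℝ} (hδ : 0 ≤ δ) (hu : δ ≤ u.re)
    (hS : ‖u‖ ≤ S) (ha : ‖a‖ ≤ R) (hb : ‖b‖ ≤ R) (y : V ι) :
    ‖cexp (-u * Q (a - y) (b - star y))‖ ≤
      Real.exp (-(δ * c) * ‖y‖ ^ 2 + 2 * S * N * R * ‖y‖ + S * N * R ^ 2) := by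
  rw [Complex.norm_exp, Real.exp_le_exp]
  have e : -u * Q (a - y) (b - star y) =
      -(u * Q y (star y)) + u * Q a (star y) + u * Q y b + -u * Q a b := by
    simp only [map_sub, _root_.sub_apply]
    ring
  have hN := h.np
  have hR : 0 ≤ R := (norm_nonneg _).trans ha
  have hS0 : 0 ≤ S := (norm_nonneg _).trans hS
  have k : ∀ (v : ℂ) (p q : V ι) (s t : ℝ), ‖v‖ ≤ S → ‖p‖ ≤ s → ‖q‖ ≤ t →
      (v * Q p q).re ≤ S * (N * s * t) := fun v p q s t h1 h2 h3 => by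
    have := (norm_nonneg _).trans h2
    refine (Complex.re_le_norm _).trans ?_
    rw [norm_mul]
    exact mul_le_mul h1 ((h.bd p q).trans (by gcongr)) (norm_nonneg _) hS0
  have h1 := k u a (star y) _ _ hS ha (norm_star y).le
  have h2 := k u y b _ _ hS le_rfl hb
  have h3 := k (-u) a b _ _ (by rwa [norm_neg]) ha hb
  have h4 : δ * (c * ‖y‖ ^ 2) ≤ (u * Q y (star y)).re := by
    rw [mul_re, h.im, mul_zero, sub_zero]
    have := h.cp
    exact mul_le_mul hu (h.lo y) (by positivity) (hδ.trans hu)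
  rw [e, add_re, add_re, add_re, neg_re]
  linarith

lemma Ell.good (h : Ell Q c N) (hg : Continuous g) (hB : ∀ y, ‖g y‖ ≤ B) : Good (ker Q g) := by
  refine ⟨fun y => by unfold ker; fun_prop, by unfold ker; fun_prop, fun x hx => ?_⟩
  refine ⟨x.1.re / 2, half_pos hx, _, (gauss (mul_pos (half_pos hx) h.cp)
    (2 * (‖x‖ + x.1.re / 2) * N * (‖x‖ + x.1.re / 2))
    ((‖x‖ + x.1.re / 2) * N * (‖x‖ + x.1.re / 2) ^ 2)).const_mul B, fun z hz y => ?_⟩
  have h1 : ‖z‖ ≤ ‖x‖ + x.1.re / 2 := (norm_le_of_mem_closedBall (ball_subset_closedBall hz))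
  have h2 : |(z.1 - x.1).re| < x.1.re / 2 :=
    (Complex.abs_re_le_norm _).trans_lt ((norm_fst_le (z - x)).trans_lt (mem_ball_iff_norm.1 hz))
  rw [ker, norm_mul]
  refine mul_le_mul (hB y) (h.exp_bd (half_pos hx).le ?_ ((norm_fst_le z).trans h1)
    (((norm_fst_le z.2).trans (norm_snd_le z)).trans h1)
    (((norm_snd_le z.2).trans (norm_snd_le z)).trans h1) y) (norm_nonneg _)
    ((norm_nonneg _).trans (hB y))
  rw [sub_re] at h2
  linarith [(abs_lt.1 h2).1]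

lemma line (a v y : V ι) : HasDerivAt (fun t : ℂ => a + t • v - y) v 0 := by
  simpa using (((hasDerivAt_id (0 : ℂ)).smul_const v).const_add a).sub_const y

lemma ker_der (Q : V ι →L[ℂ] V ι →L[ℂ] ℂ) (g : V ι → ℂ) (v x : X ι) (y : V ι) :
    HasDerivAt (fun t : ℂ => ker Q g (x + t • v) y)
      (ker Q g x y * (-v.1 * Q (x.2.1 - y) (x.2.2 - star y) -
        x.1 * (Q v.2.1 (x.2.2 - star y) + Q (x.2.1 - y) v.2.2))) 0 := by
  have h1 : HasDerivAt (fun t : ℂ => -(x.1 + t * v.1)) (-v.1) 0 :=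
    (((hasDerivAt_id (0 : ℂ)).mul_const v.1).const_add x.1).neg.congr_deriv (by rw [one_mul])
  have h2 := (Q.hasFDerivAt.comp_hasDerivAt (0 : ℂ) (line x.2.1 v.2.1 y)).clm_apply
    (line x.2.2 v.2.2 (star y))
  refine ((h1.mul h2).cexp.const_mul (g y)).congr_deriv ?_
  simp only [ker, Function.comp_apply, Pi.mul_apply, zero_smul, zero_mul, add_zero]
  ring

/-- the second derivative of the kernel. -/
def ker2 (Q : V ι →L[ℂ] V ι →L[ℂ] ℂ) (g : V ι → ℂ) (α β : V ι) (x : X ι) (y : V ι) : ℂ :=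
  ker Q g x y * (x.1 ^ 2 * (Q α (x.2.2 - star y) * Q (x.2.1 - y) β) - x.1 * Q α β)

lemma ders (h : Good (ker Q g)) :
    (Good (fun x y => ker Q g x y * -Q (x.2.1 - y) (x.2.2 - star y)) ∧ ∀ x : X ι, 0 < x.1.re →
      fderiv ℂ (fun x => ∫ y, ker Q g x y) x (1, 0, 0) =
        ∫ y, ker Q g x y * -Q (x.2.1 - y) (x.2.2 - star y)) ∧
    ∀ β, ∃ G : X ι → ℂ, (∀ x : X ι, 0 < x.1.re → DifferentiableAt ℂ G x ∧
      fderiv ℂ (fun x => ∫ y, ker Q g x y) x (0, 0, β) = G x) ∧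
      ∀ α, Good (ker2 Q g α β) ∧ ∀ x : X ι, 0 < x.1.re →
        fderiv ℂ G x (0, α, 0) = ∫ y, ker2 Q g α β x y := by
  have hd := h.diff
  have hc := h.cont
  refine ⟨h.der _ (fun x y => (ker_der Q g _ x y).congr_deriv (by simp)) (fun y => by
    have := hd y
    fun_prop) (by fun_prop), fun β => ?_⟩
  obtain ⟨h1, h2⟩ := h.der (K' := fun x y => ker Q g x y * (-x.1 * Q (x.2.1 - y) β)) (0, 0, β)
    (fun x y => (ker_der Q g _ x y).congr_deriv (by simp)) (fun y => by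
      have := hd y
      fun_prop) (by fun_prop)
  refine ⟨_, fun x hx => ⟨(h1.has hx).2.differentiableAt, h2 x hx⟩, fun α =>
    h1.der _ (fun x y => ?_) (fun y => by
      have := hd y
      unfold ker2
      fun_prop) (by unfold ker2; fun_prop)⟩
  have h3 := ((Q.hasFDerivAt.comp_hasDerivAt (0 : ℂ) (line x.2.1 α y)).clm_apply
    (hasDerivAt_const (0 : ℂ) β)).const_mul (-x.1)
  refine HasDerivAt.congr_deriv (HasDerivAt.congr_of_eventuallyEq
    ((ker_der Q g (0, α, 0) x y).mul h3) (Eventually.of_forall fun t => by simp)) ?_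
  simp [ker2]
  ring

lemma scale (Q : V ι →L[ℂ] V ι →L[ℂ] ℂ) (g : V ι → ℂ) {r : ℝ} (hr : 0 < r) (z a b : V ι) :
    (((r ^ 2 : ℝ) : ℂ)⁻¹) ^ Fintype.card ι *
      ∫ y, ker Q g (((r ^ 2 : ℝ) : ℂ)⁻¹, z + r • a, star z + r • b) y =
      ∫ w, g (z + r • w) * cexp (-1 * Q (a - w) (b - star w)) := by
  have r0 : (r : ℂ) ≠ 0 := by exact_mod_cast hr.ne'
  have h1 := Measure.integral_comp_smul_of_nonneg volume
    (fun y => ker Q g (((r ^ 2 : ℝ) : ℂ)⁻¹, z + r • a, star z + r • b) (z + y)) r (hR := hr.le)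
  rw [integral_add_left_eq_self
    (fun y => ker Q g (((r ^ 2 : ℝ) : ℂ)⁻¹, z + r • a, star z + r • b) y) z] at h1
  have h2 : Module.finrank ℝ (V ι) = 2 * Fintype.card ι := by
    simp [Module.finrank_pi_fintype, mul_comm]
  rw [h2, Complex.real_smul] at h1
  refine Eq.trans ?_ (h1.symm.trans (integral_congr_ae (ae_of_all _ fun w => ?_)))
  · push_cast
    rw [pow_mul, inv_pow]
  · have e1 : z + r • a - (z + r • w) = (r : ℂ) • (a - w) := by
      rw [Complex.coe_smul, smul_sub]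
      abel
    have e2 : star z + r • b - star (z + r • w) = (r : ℂ) • (b - star w) := by
      rw [Complex.coe_smul, smul_sub, star_add, star_smul, star_trivial r]
      abel
    simp only [ker, e1, e2, map_smul, _root_.smul_apply, smul_eq_mul]
    congr 2
    push_cast
    field_simp

/-- the Gaussian weight. -/
def wt (Q : V ι →L[ℂ] V ι →L[ℂ] ℂ) (w : V ι) : ℝ := Real.exp (-(Q w (star w)).re)

/-- the holomorphic extension of the semigroup. -/
def ext (Q : V ι →L[ℂ] V ι →L[ℂ] ℂ) (g : V ι → ℂ) (s : ℝ) (y : V ι × V ι) : ℂ :=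
  ((∫ w, wt Q w : ℝ) : ℂ)⁻¹ * ((s : ℂ)⁻¹) ^ Fintype.card ι * ∫ w, ker Q g ((s : ℂ)⁻¹, y) w

lemma wt_cont (Q : V ι →L[ℂ] V ι →L[ℂ] ℂ) : Continuous (wt Q) := by
  unfold wt
  fun_prop

lemma Ell.wt_int (h : Ell Q c N) : Integrable (wt Q) := by
  refine (gauss h.cp 0 0).mono' (wt_cont Q).aestronglyMeasurable (ae_of_all _ fun w => ?_)
  rw [wt, Real.norm_of_nonneg (Real.exp_pos _).le, Real.exp_le_exp]
  linarith [h.lo w]

lemma Ell.mass (h : Ell Q c N) : 0 < ∫ w : V ι, Real.exp (-c⁻¹ * ‖w‖ ^ 2 + 0 * ‖w‖ + 0) ∧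
    ∫ w : V ι, Real.exp (-c⁻¹ * ‖w‖ ^ 2 + 0 * ‖w‖ + 0) ≤ ∫ w, wt Q w := by
  have hi := gauss (ι := ι) (inv_pos.2 h.cp) 0 0
  refine ⟨integral_exp_pos hi, integral_mono hi h.wt_int fun w => Real.exp_le_exp.2 ?_⟩
  have := (le_inv_mul_iff₀ h.cp).2 (h.up w)
  linarith

lemma Ell.rep (h : Ell Q c N) (g : V ι → ℂ) {r : ℝ} (hr : 0 < r) (z : V ι) :
    ext Q g (r ^ 2) (J z) = ((∫ w, wt Q w : ℝ) : ℂ)⁻¹ * ∫ w, g (z + r • w) * wt Q w := by
  have := scale Q g hr z 0 0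
  rw [smul_zero, add_zero, add_zero] at this
  rw [ext, mul_assoc, J_apply, this]
  congr 2
  funext w
  rw [wt, Complex.ofReal_exp]
  congr 2
  simp only [zero_sub, map_neg, _root_.neg_apply, neg_neg, neg_mul, one_mul]
  exact Complex.ext (by simp) (by simp [h.im])

lemma Ell.avg (h : Ell Q c N) {φ : V ι → ℂ} {K : ℝ} (hK : ∀ w, ‖φ w‖ ≤ K) :
    ‖((∫ w, wt Q w : ℝ) : ℂ)⁻¹ * ∫ w, φ w * wt Q w‖ ≤ K := by
  have m0 := h.mass.1.trans_le h.mass.2
  rw [norm_mul, norm_inv, Complex.norm_real, Real.norm_of_nonneg m0.le, inv_mul_le_iff₀ m0,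
    ← integral_mul_const]
  refine norm_integral_le_of_norm_le (h.wt_int.mul_const K) (ae_of_all _ fun w => ?_)
  rw [norm_mul, Complex.norm_real, wt, Real.norm_of_nonneg (Real.exp_pos _).le, mul_comm]
  exact mul_le_mul_of_nonneg_left (hK w) (Real.exp_pos _).le

lemma Ell.int (h : Ell Q c N) (hg : Continuous g) (hB : ∀ y, ‖g y‖ ≤ B) (r : ℝ) (z : V ι) :
    Integrable fun w => g (z + r • w) * wt Q w :=
  h.wt_int.ofReal.bdd_mul (c := B) (Continuous.aestronglyMeasurable (by fun_prop))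
    (ae_of_all _ fun _ => hB _)

lemma Ell.sub (h : Ell Q c N) (hg : Continuous g) (hB : ∀ y, ‖g y‖ ≤ B) {r : ℝ} (hr : 0 < r)
    (z : V ι) (k : ℂ) :
    ext Q g (r ^ 2) (J z) = k + ext Q (fun y => g y - k) (r ^ 2) (J z) := by
  have m0 : ((∫ w, wt Q w : ℝ) : ℂ) ≠ 0 := by exact_mod_cast (h.mass.1.trans_le h.mass.2).ne'
  have hw : Integrable fun w => (wt Q w : ℂ) := h.wt_int.ofReal
  rw [h.rep _ hr, h.rep _ hr]
  simp only [sub_mul]
  rw [integral_sub (h.int hg hB r z) (hw.const_mul k), integral_const_mul,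
    integral_complex_ofReal]
  field_simp
  ring

omit [Fintype ι] in
lemma re_pos {s : ℝ} (hs : 0 < s) (y : V ι × V ι) : 0 < (((s : ℂ)⁻¹, y) : X ι).1.re := by
  rw [← Complex.ofReal_inv, Complex.ofReal_re]
  exact inv_pos.2 hs

lemma ext_diff (h : Good (ker Q g)) {s : ℝ} (hs : 0 < s) : Differentiable ℂ (ext Q g s) :=
  fun y => ((h.has (re_pos hs y)).2.differentiableAt.comp y
    ((differentiableAt_const _).prodMk differentiableAt_id)).const_mul _

lemma ext_smooth (h : Good (ker Q g)) :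
    ContDiffOn ℝ ∞ (fun q : ℝ × V ι => ext Q g q.1 (J q.2)) (Ioi 0 ×ˢ univ) := by
  intro q hq
  have h1 : ContDiffAt ℝ ∞ (fun q : ℝ × V ι => (q.1 : ℂ)⁻¹) q :=
    (ofRealCLM.contDiff.comp contDiff_fst).contDiffAt.inv
      (Complex.ofReal_ne_zero.2 (ne_of_gt hq.1))
  exact ((contDiffAt_const.mul (h1.pow _)).mul
    (((h.an (re_pos hq.1 (J q.2))).contDiffAt.restrict_scalars ℝ).comp q
      (h1.prodMk (J.contDiff.comp contDiff_snd).contDiffAt))).contDiffWithinAt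

/-- the constant. -/
def cst (ι : Type) [Fintype ι] (c N : ℝ) : ℝ :=
  (∫ w : V ι, Real.exp (-c⁻¹ * ‖w‖ ^ 2 + 0 * ‖w‖ + 0))⁻¹ *
    ∫ w : V ι, √‖w‖ * Real.exp (-(1 * c) * ‖w‖ ^ 2 + 2 * 1 * N * 4 * ‖w‖ + 1 * N * 4 ^ 2)

lemma Ell.ext_bd (h : Ell Q c N) {M t : ℝ} (ht : 0 < t) {z : V ι}
    (hM : ∀ w, ‖g w‖ ≤ M * √‖w - z‖) {y : V ι × V ι}
    (hy : y ∈ ball (J z) (t ^ 2 + t ^ 2 + t ^ 2 + t ^ 2)) :
    ‖ext Q g ((t ^ 2) ^ 2) y‖ ≤ cst ι c N * M * t := by
  have hr : 0 < t ^ 2 := by positivity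
  have k : ∀ p q : V ι, ‖p - q‖ < t ^ 2 + t ^ 2 + t ^ 2 + t ^ 2 →
      ∃ a : V ι, ‖a‖ ≤ 4 ∧ p = q + t ^ 2 • a := fun p q e => ⟨(t ^ 2)⁻¹ • (p - q), by
    rw [norm_smul, norm_inv, Real.norm_of_nonneg hr.le, inv_mul_le_iff₀ hr]
    linarith, by rw [smul_inv_smul₀ hr.ne', add_sub_cancel]⟩
  obtain ⟨y1, y2⟩ := y
  obtain ⟨a, ha, rfl⟩ := k y1 z ((norm_fst_le (_ - J z)).trans_lt (mem_ball_iff_norm.1 hy))
  obtain ⟨b, hb, rfl⟩ := k y2 (star z) ((norm_snd_le (_ - J z)).trans_lt (mem_ball_iff_norm.1 hy))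
  have hi : Integrable fun w : V ι =>
      √‖w‖ * Real.exp (-(1 * c) * ‖w‖ ^ 2 + 2 * 1 * N * 4 * ‖w‖ + 1 * N * 4 ^ 2) := by
    refine (gauss h.cp (8 * N + 1) (16 * N)).mono' (Continuous.aestronglyMeasurable (by fun_prop))
      (ae_of_all _ fun w => ?_)
    have h1 : √‖w‖ ≤ Real.exp ‖w‖ := by
      refine le_trans (Real.sqrt_le_iff.2 ⟨by positivity, ?_⟩) (Real.add_one_le_exp _)
      nlinarith [norm_nonneg w]
    rw [Real.norm_of_nonneg (by positivity)]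
    refine (mul_le_mul_of_nonneg_right h1 (Real.exp_pos _).le).trans (le_of_eq ?_)
    rw [← Real.exp_add]
    congr 1
    ring
  have h2 := norm_integral_le_of_norm_le (μ := volume)
    (f := fun w => g (z + t ^ 2 • w) * cexp (-1 * Q (a - w) (b - star w)))
    (hi.const_mul (M * t)) (ae_of_all _ fun w => by
      have h3 := hM (z + t ^ 2 • w)
      rw [add_sub_cancel_left, norm_smul, Real.norm_of_nonneg hr.le, Real.sqrt_mul hr.le,
        Real.sqrt_sq ht.le, ← mul_assoc] at h3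
      rw [norm_mul, ← mul_assoc]
      exact mul_le_mul h3 (h.exp_bd zero_le_one (by simp) (by simp) ha hb w) (norm_nonneg _)
        ((norm_nonneg _).trans h3))
  rw [integral_const_mul] at h2
  rw [ext, mul_assoc, scale Q g hr, norm_mul, norm_inv, Complex.norm_real,
    Real.norm_of_nonneg (h.mass.1.le.trans h.mass.2), cst, mul_assoc, mul_assoc,
    mul_comm _ (M * t)]
  exact mul_le_mul (inv_anti₀ h.mass.1 h.mass.2) h2 (norm_nonneg _) (inv_pos.2 h.mass.1).le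

lemma eqn [DecidableEq ι] (h : Good (ker Q g)) {A : Mat ι}
    (h1 : ∑ i, ∑ j, Q (Pi.single i 1) (Pi.single j 1) * A j i = Fintype.card ι)
    (h2 : ∀ a b, ∑ i, ∑ j, Q (Pi.single i 1) b * Q a (Pi.single j 1) * A j i = Q a b)
    {s : ℝ} (hs : 0 < s) (z : V ι) :
    HasDerivAt (fun s => ext Q g s (J z)) (trace (levi (fun w => ext Q g s (J w)) z * A)) s := by
  obtain ⟨⟨u1, u2⟩, hd⟩ := ders h
  have s0 : (s : ℂ) ≠ 0 := by exact_mod_cast hs.ne'
  have hx := fun w : V ι => re_pos hs (w, star w)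
  generalize hm : ((∫ w, wt Q w : ℝ) : ℂ)⁻¹ = m
  have hl : ∀ i j, levi (fun w => ext Q g s (J w)) z i j = m * ((s : ℂ)⁻¹) ^ Fintype.card ι *
      ∫ y, ker2 Q g (Pi.single i 1) (Pi.single j 1) ((s : ℂ)⁻¹, z, star z) y := fun i j => by
    obtain ⟨G, g1, g2⟩ := hd (Pi.single j 1)
    have e : dzb (fun w => ext Q g s (J w)) j =
        fun w => m * ((s : ℂ)⁻¹) ^ Fintype.card ι * G ((s : ℂ)⁻¹, w, star w) := funext fun w => by
      rw [← (g1 _ (hx w)).2, ← hm]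
      exact (slice _ (h.has (hx w)).2.differentiableAt j).2
    rw [levi, of_apply, e, (slice _ (g1 _ (hx z)).1 i).1, (g2 _).2 _ (hx z)]
  have hi : ∀ i j, Integrable fun y =>
      ker2 Q g (Pi.single i 1) (Pi.single j 1) ((s : ℂ)⁻¹, z, star z) y * A j i := fun i j => by
    obtain ⟨G, -, g2⟩ := hd (Pi.single j 1)
    exact ((g2 _).1.int (hx z)).mul_const _
  have ht : trace (levi (fun w => ext Q g s (J w)) z * A) = m * ((s : ℂ)⁻¹) ^ Fintype.card ι *
      (-((s : ℂ)⁻¹) ^ 2 * (∫ y, ker Q g ((s : ℂ)⁻¹, z, star z) y * -Q (z - y) (star z - star y)) -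
        (s : ℂ)⁻¹ * Fintype.card ι * ∫ y, ker Q g ((s : ℂ)⁻¹, z, star z) y) := by
    simp only [trace, diag_apply, Matrix.mul_apply, hl, mul_assoc, ← Finset.mul_sum]
    congr 2
    simp only [← integral_mul_const]
    rw [← integral_const_mul, ← mul_assoc, ← integral_const_mul,
      ← integral_sub ((u1.int (hx z)).const_mul _) ((h.int (hx z)).const_mul _),
      Finset.sum_congr rfl fun i _ => (integral_finsetSum _ fun j _ => hi i j).symm,
      ← integral_finsetSum _ fun i _ => integrable_finsetSum _ fun j _ => hi i j]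
    congr 1
    funext y
    rw [← h1, ← h2 (z - y)]
    simp only [ker2, Finset.mul_sum, Finset.sum_mul, ← Finset.sum_neg_distrib,
      ← Finset.sum_sub_distrib]
    exact Finset.sum_congr rfl fun i _ => Finset.sum_congr rfl fun j _ => by ring
  have d1 : HasDerivAt (fun u : ℂ => ∫ y, ker Q g (u, z, star z) y) _ (s : ℂ)⁻¹ :=
    HasFDerivAt.comp_hasDerivAt (l := fun x => ∫ y, ker Q g x y) (f := fun u => (u, z, star z))
      (s : ℂ)⁻¹ (h.has (hx z)).2.differentiableAt.hasFDerivAt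
      ((hasDerivAt_id _).prodMk (hasDerivAt_const _ (z, star z)))
  have d2 := ((((hasDerivAt_pow (Fintype.card ι) _).const_mul m).mul d1).comp (s : ℂ)
    (hasDerivAt_inv s0)).comp_ofReal
  refine HasDerivAt.congr_deriv (hm ▸ d2) ?_
  rw [ht, show ((1, 0) : X ι) = (1, 0, 0) from rfl, u2 _ (hx z), hm]
  generalize Fintype.card ι = n
  cases n with
  | zero =>
    simp only [← inv_pow]
    push_cast
    ring
  | succ n =>
    simp only [Nat.add_sub_cancel, ← inv_pow]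
    ring

lemma main [DecidableEq ι] (h : Ell Q c N) {A : Mat ι}
    (h1 : ∑ i, ∑ j, Q (Pi.single i 1) (Pi.single j 1) * A j i = Fintype.card ι)
    (h2 : ∀ a b, ∑ i, ∑ j, Q (Pi.single i 1) b * Q a (Pi.single j 1) * A j i = Q a b)
    {M : ℝ} (hB : ∀ z, ‖g z‖ ≤ B) (hM : ∀ z w, ‖g z - g w‖ ≤ M * √‖z - w‖) :
    ∃ P : ℝ → V ι → ℂ, ContDiffOn ℝ ∞ (fun q : ℝ × V ι => P q.1 q.2) (Ioi 0 ×ˢ univ) ∧
    ∀ s > 0, ∀ z, HasDerivAt (fun s' => P s' z) (trace (levi (P s) z * A)) s ∧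
      ‖P s z - g z‖ ≤ 8 * cst ι c N * M * s ^ (1 / 4 : ℝ) ∧ ‖P s z‖ ≤ B ∧
      (∀ w, ‖P s z - P s w‖ ≤ M * √‖z - w‖) ∧
      ‖fderiv ℝ (P s) z‖ ≤ 8 * cst ι c N * M * s ^ (-1 / 4 : ℝ) ∧
      ‖fderiv ℝ (fderiv ℝ (P s)) z‖ ≤ 8 * cst ι c N * M * s ^ (-3 / 4 : ℝ) ∧
      ∀ w, ‖fderiv ℝ (fderiv ℝ (P s)) z - fderiv ℝ (fderiv ℝ (P s)) w‖ ≤
        8 * cst ι c N * M * s ^ (-5 / 4 : ℝ) * ‖z - w‖ := by
  have hg : Continuous g := continuous_iff_continuousAt.2 fun w =>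
    tendsto_iff_norm_sub_tendsto_zero.2 (squeeze_zero (fun _ => norm_nonneg _) (fun z => hM z w)
      (Continuous.tendsto' (by fun_prop) w 0 (by simp)))
  refine ⟨fun s z => ext Q g s (J z), ext_smooth (h.good hg hB), fun s hs z => ?_⟩
  have hp : ∀ k : ℕ, s ^ (-k / 4 : ℝ) = ((s ^ (1 / 4 : ℝ)) ^ k)⁻¹ := fun k => by
    rw [← Real.rpow_natCast, ← Real.rpow_mul hs.le, ← Real.rpow_neg hs.le]
    congr 1
    ring
  have ht : 0 < s ^ (1 / 4 : ℝ) := Real.rpow_pos_of_pos hs _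
  have e4 : s = ((s ^ (1 / 4 : ℝ)) ^ 2) ^ 2 := by
    rw [← pow_mul, ← Real.rpow_natCast, ← Real.rpow_mul hs.le]
    norm_num
  have p1 := hp 1
  have p3 := hp 3
  have p5 := hp 5
  push_cast at p1 p3 p5
  refine ⟨eqn (h.good hg hB) h1 h2 hs z, ?_⟩
  rw [p1, p3, p5]
  clear hp p1 p3 p5
  beta_reduce
  generalize s ^ (1 / 4 : ℝ) = t at ht e4
  subst e4
  have hr : 0 < t ^ 2 := by positivity
  have hb := fun z y => h.ext_bd (g := fun y => g y - g z) (y := y) ht (fun w => hM w z)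
  have he := fun z => est (ext_diff (h.good (hg.sub continuous_const) fun y =>
    (norm_sub_le _ _).trans (add_le_add (hB y) (hB z))) hs) (fun w => h.sub hg hB hr w (g z)) hr
    (hb z)
  have h0 := hb z _ (mem_ball_self (by positivity))
  have K0 : 0 ≤ cst ι c N * M := nonneg_of_mul_nonneg_left ((norm_nonneg _).trans h0) ht
  rw [mul_assoc 8]
  generalize cst ι c N * M = K at *
  refine ⟨?_, ?_, fun w => ?_, (he z).1.trans ?_, (he z).2.1.trans ?_, fun w => ?_⟩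
  · rw [h.sub hg hB hr z (g z), add_sub_cancel_left]
    nlinarith [mul_nonneg K0 ht.le]
  · rw [h.rep _ hr]
    exact h.avg fun _ => hB _
  · rw [h.rep _ hr, h.rep _ hr, ← mul_sub, ← integral_sub (h.int hg hB _ _) (h.int hg hB _ _)]
    simp only [← sub_mul]
    exact h.avg fun v => (hM _ _).trans_eq (by rw [add_sub_add_right_eq_sub])
  · rw [show 2 * (K * t) / t ^ 2 = 2 * K * (t ^ 1)⁻¹ by field_simp]
    gcongr
    norm_num
  · rw [show 2 * (2 * (K * t) / t ^ 2) / t ^ 2 = 4 * K * (t ^ 3)⁻¹ by field_simp; ring]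
    gcongr
    norm_num
  · rw [show 8 * K * (t ^ 5)⁻¹ = 2 * (2 * (2 * (K * t) / t ^ 2) / t ^ 2) / t ^ 2 by
      field_simp; ring]
    exact lip (F := V ι →L[ℝ] V ι →L[ℝ] ℂ) (C := 2 * (2 * (2 * (K * t) / t ^ 2) / t ^ 2) / t ^ 2)
      (by positivity) (fun z => (he z).2.2) z w

end Heat

theorem heat (hm : MatS) : HeatS := by
  intro ι _ _ L
  obtain ⟨c, hc, hv⟩ := hm.nv ι L
  refine ⟨8 * Heat.cst ι c (Fintype.card ι * Fintype.card ι * |L|), fun A hA b1 b2 f M B hB hM => ?_⟩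
  have hu : IsUnit A.det := (Matrix.isUnit_iff_isUnit_det A).1 hA.isUnit
  have hb : ∀ a b : V ι, ‖Matrix.toLinearMap₂' ℂ A⁻¹ a b‖ ≤
      Fintype.card ι * Fintype.card ι * |L| * ‖a‖ * ‖b‖ := fun a b => by
    rw [Matrix.toLinearMap₂'_apply]
    refine (norm_sum_le_of_le _ fun i _ => norm_sum_le_of_le _ fun j _ =>
      (?_ : _ ≤ |L| * ‖a‖ * ‖b‖)).trans (le_of_eq ?_)
    · rw [norm_smul, norm_smul]
      have := (b2 i j).trans (le_abs_self L)
      calc _ ≤ ‖a‖ * (‖b‖ * |L|) := by gcongr <;> apply norm_le_pi_norm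
        _ = _ := by ring
    · simp only [Finset.sum_const, Finset.card_univ, nsmul_eq_mul]
      ring
  have hq : ∀ a b, (Matrix.toLinearMap₂' ℂ A⁻¹).mkContinuous₂ _ hb a b = a ⬝ᵥ A⁻¹ *ᵥ b :=
    fun a b => Matrix.toLinearMap₂'_apply' _ _ _
  have hn : ∀ w : V ι, w ⬝ᵥ A⁻¹ *ᵥ star w = ipV A⁻¹ w w := fun w => by
    simp only [ipV, dotProduct, mulVec, Finset.mul_sum, Pi.star_apply]
    exact Finset.sum_congr rfl fun i _ => Finset.sum_congr rfl fun j _ => by ring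
  have hv' := hv A⁻¹ hA.inv b2 (by rwa [nonsing_inv_nonsing_inv _ hu])
  refine Heat.main (Q := (Matrix.toLinearMap₂' ℂ A⁻¹).mkContinuous₂ _ hb)
    ⟨hc, by positivity, hb, fun w => ?_, fun w => ?_, fun w => ?_⟩ ?_ (fun a b => ?_) hB hM
  · have := hA.inv.posSemidef.dotProduct_mulVec_nonneg (star w)
    rw [star_star] at this
    rw [hq]
    exact (Complex.nonneg_iff.1 this).2.symm
  · rw [hq, hn]
    exact (hv' w).1
  · rw [hq, hn]
    exact (hv' w).2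
  · have := congrArg trace (nonsing_inv_mul A hu)
    rw [trace_one] at this
    rw [← this]
    simp [hq, trace, Matrix.mul_apply]
  · have : (a ᵥ* A⁻¹) ⬝ᵥ A *ᵥ (A⁻¹ *ᵥ b) = a ⬝ᵥ A⁻¹ *ᵥ b := by
      rw [mulVec_mulVec, mul_nonsing_inv A hu, one_mulVec, dotProduct_mulVec]
    simp only [hq]
    rw [← this, Finset.sum_comm]
    simp only [single_one_dotProduct, dotProduct_mulVec a, dotProduct_single_one]
    rw [dotProduct]
    refine Finset.sum_congr rfl fun j _ => ?_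
    rw [mulVec, dotProduct, Finset.mul_sum]
    exact Finset.sum_congr rfl fun i _ => by ring

end

end Pool.Agent.Lib.MP_813db1_ag.HS
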