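import Pool.Agent.Lib.MP_813db1_ag.HS.Stmt

/-! The calculus of the local classes `C^{k,1/2}`. -/

namespace Pool.Agent.Lib.MP_813db1_ag.HS

open MeasureTheory Complex Matrix Filter Topology Set Metric
open scoped ContDiff ComplexOrder

namespace HkA

variable {ι : Type} [Fintype ι]

section Zero

variable {W W' : Type} [NormedAddCommGroup W] [NormedAddCommGroup W']

/-- locally Hoelder at a point. -/
def H0 (f : V ι → W) (z : V ι) : Prop := ∃ M, 0 ≤ M ∧ ∃ s ∈ 𝓝 z, Hol M f s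

theorem hol_mono {M M' : ℝ} {f : V ι → W} {s t : Set (V ι)} (h : Hol M f s) (hM : M ≤ M')
    (ht : t ⊆ s) : Hol M' f t :=
  ⟨fun z hz => (h.1 z (ht hz)).trans hM, fun z hz w hw => (h.2 z (ht hz) w (ht hw)).trans
    (mul_le_mul_of_nonneg_right hM (Real.sqrt_nonneg _))⟩

theorem h0_iff {f : V ι → W} {z : V ι} : H0 f z ↔ ∃ r > 0, ∃ M, Hol M f (ball z r) := by
  constructor
  · rintro ⟨M, -, s, hs, h⟩
    obtain ⟨r, hr, hsub⟩ := Metric.mem_nhds_iff.1 hs
    exact ⟨r, hr, M, hol_mono h le_rfl hsub⟩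
  · rintro ⟨r, hr, M, h⟩
    exact ⟨M, (norm_nonneg _).trans (h.1 z (mem_ball_self hr)), _, ball_mem_nhds z hr, h⟩

theorem H0.of_hol {f : V ι → W} {z : V ι} {M : ℝ} {s : Set (V ι)} (hs : s ∈ 𝓝 z)
    (h : Hol M f s) : H0 f z :=
  ⟨M, (norm_nonneg _).trans (h.1 z (mem_of_mem_nhds hs)), s, hs, h⟩

theorem H0.congr {f g : V ι → W} {z : V ι} (h : H0 f z) (e : f =ᶠ[𝓝 z] g) : H0 g z := by
  obtain ⟨M, hM, s, hs, h⟩ := h
  refine ⟨M, hM, s ∩ {w | f w = g w}, inter_mem hs e, fun w hw => ?_, fun w hw u hu => ?_⟩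
  · rw [← (hw.2 : f w = g w)]; exact h.1 w hw.1
  · rw [← (hw.2 : f w = g w), ← (hu.2 : f u = g u)]; exact h.2 w hw.1 u hu.1

theorem hol_continuousOn {M : ℝ} {f : V ι → W} {s : Set (V ι)} (h : Hol M f s) :
    ContinuousOn f s := by
  intro z hz
  rw [ContinuousWithinAt, tendsto_iff_norm_sub_tendsto_zero]
  have h1 : Tendsto (fun w : V ι => M * √‖w - z‖) (𝓝[s] z) (𝓝 0) := by
    have : Continuous (fun w : V ι => M * √‖w - z‖) := by fun_prop
    have h2 := this.tendsto z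
    simp only [sub_self, norm_zero, Real.sqrt_zero, mul_zero] at h2
    exact h2.mono_left nhdsWithin_le_nhds
  refine squeeze_zero' (Eventually.of_forall fun _ => norm_nonneg _) ?_ h1
  filter_upwards [self_mem_nhdsWithin] with w hw using h.2 w hw z hz

theorem H0.continuousAt {f : V ι → W} {z : V ι} (h : H0 f z) : ContinuousAt f z := by
  obtain ⟨M, -, s, hs, h⟩ := h
  exact (hol_continuousOn h).continuousAt hs

theorem H0.lip {f : V ι → W} {z : V ι} (h : H0 f z) {Φ : W → W'} {K : NNReal} {t : Set W}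
    (ht : t ∈ 𝓝 (f z)) (hΦ : LipschitzOnWith K Φ t) : H0 (fun w => Φ (f w)) z := by
  have hc := h.continuousAt
  obtain ⟨M, hM, s, hs, h⟩ := h
  have hz : z ∈ s := mem_of_mem_nhds hs
  have hzt : f z ∈ t := mem_of_mem_nhds ht
  refine H0.of_hol (M := ‖Φ (f z)‖ + K * (2 * M)) (inter_mem hs (hc ht))
    ⟨fun w hw => ?_, fun w hw u hu => ?_⟩
  · have h1 := hΦ.dist_le_mul _ hw.2 _ hzt
    rw [dist_eq_norm, dist_eq_norm] at h1
    have h2 : ‖f w - f z‖ ≤ 2 * M := by
      have := norm_sub_le (f w) (f z)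
      linarith [h.1 w hw.1, h.1 z hz]
    have h3 := norm_le_norm_add_norm_sub' (Φ (f w)) (Φ (f z))
    have h4 : (K : ℝ) * ‖f w - f z‖ ≤ K * (2 * M) := mul_le_mul_of_nonneg_left h2 K.2
    linarith
  · have h1 := hΦ.dist_le_mul _ hw.2 _ hu.2
    rw [dist_eq_norm, dist_eq_norm] at h1
    have h2 := h.2 w hw.1 u hu.1
    have h4 : (K : ℝ) * ‖f w - f u‖ ≤ K * (M * √‖w - u‖) := mul_le_mul_of_nonneg_left h2 K.2
    have h5 : 0 ≤ √‖w - u‖ := Real.sqrt_nonneg _
    have h6 : 0 ≤ (K : ℝ) * M := mul_nonneg K.2 hM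
    have h7 := norm_nonneg (Φ (f z))
    nlinarith [mul_nonneg h6 h5, mul_nonneg h7 h5]

theorem h0_id (z : V ι) : H0 (fun w : V ι => w) z := by
  refine H0.of_hol (M := ‖z‖ + 1) (ball_mem_nhds z (by norm_num : (0 : ℝ) < 1 / 2))
    ⟨fun w hw => ?_, fun w hw u hu => ?_⟩
  · have h3 := norm_le_norm_add_norm_sub' w z
    rw [mem_ball_iff_norm] at hw
    linarith
  · have h1 : ‖w - u‖ ≤ 1 := by
      have := dist_triangle_right w u z
      rw [mem_ball] at hw hu
      rw [← dist_eq_norm]; linarith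
    have h2 : ‖w - u‖ ≤ √‖w - u‖ := by
      rw [Real.le_sqrt (norm_nonneg _) (norm_nonneg _)]
      nlinarith [norm_nonneg (w - u)]
    nlinarith [norm_nonneg z, Real.sqrt_nonneg ‖w - u‖]

theorem H0.prod {f : V ι → W} {g : V ι → W'} {z : V ι} (hf : H0 f z) (hg : H0 g z) :
    H0 (fun w => (f w, g w)) z := by
  obtain ⟨M, hM, s, hs, h⟩ := hf
  obtain ⟨M', hM', s', hs', h'⟩ := hg
  have h1 := hol_mono h (le_max_left M M') (inter_subset_left (t := s'))
  have h2 := hol_mono h' (le_max_right M M') (inter_subset_right (s := s))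
  refine H0.of_hol (M := max M M') (inter_mem hs hs') ⟨fun w hw => ?_, fun w hw u hu => ?_⟩
  · rw [Prod.norm_def]; exact max_le (h1.1 w hw) (h2.1 w hw)
  · rw [Prod.norm_def]; exact max_le (h1.2 w hw u hu) (h2.2 w hw u hu)

variable [NormedSpace ℝ W] [NormedSpace ℝ W']

theorem H0.comp {f : V ι → W} {z : V ι} (h : H0 f z) {Φ : W → W'} (hΦ : ContDiffAt ℝ 1 Φ (f z)) :
    H0 (fun w => Φ (f w)) z := by
  obtain ⟨K, t, ht, hK⟩ := hΦ.exists_lipschitzOnWith
  exact h.lip ht hK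

theorem h0_of_c1 {f : V ι → W} {z : V ι} (h : ContDiffAt ℝ 1 f z) : H0 f z :=
  (h0_id z).comp h

theorem h0_clm {E : Type} [NormedAddCommGroup E] [NormedSpace ℝ E] [FiniteDimensional ℝ E]
    {g : V ι → E →L[ℝ] W} {z : V ι} (h : ∀ v, H0 (fun w => g w v) z) : H0 g z := by
  let b := Module.finBasis ℝ E
  obtain ⟨C, hC, hb⟩ := b.exists_opNorm_le (F := W)
  choose M hM s hs hH using fun i => h (b i)
  have hS : 0 ≤ ∑ i, M i := Finset.sum_nonneg fun i _ => hM i
  have hle : ∀ i, M i ≤ ∑ i, M i := fun i =>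
    Finset.single_le_sum (fun j _ => hM j) (Finset.mem_univ i)
  have hH' : ∀ i, Hol (∑ i, M i) (fun w => g w (b i)) (⋂ i, s i) := fun i =>
    hol_mono (hH i) (hle i) (iInter_subset _ i)
  refine H0.of_hol (M := C * ∑ i, M i) (iInter_mem.2 hs) ⟨fun w hw => ?_, fun w hw u hu => ?_⟩
  · exact hb hS fun i => (hH' i).1 w hw
  · rw [mul_assoc]
    exact hb (mul_nonneg hS (Real.sqrt_nonneg _)) fun i => (hH' i).2 w hw u hu

theorem H0.app {E : Type} [NormedAddCommGroup E] [NormedSpace ℝ E]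
    {g : V ι → E →L[ℝ] W} {z : V ι} (h : H0 g z) (v : E) : H0 (fun w => g w v) z :=
  h.comp (Φ := fun L : E →L[ℝ] W => L v) (contDiffAt_id.clm_apply contDiffAt_const)

end Zero

theorem hk0 {f : V ι → ℂ} {U : Set (V ι)} : Hk 0 f U ↔ ∀ z ∈ U, H0 f z :=
  ⟨fun h z hz => h0_iff.2 (h z hz), fun h z hz => h0_iff.1 (h z hz)⟩

theorem hkS {k : ℕ} {f : V ι → ℂ} {U : Set (V ι)} : Hk (k + 1) f U ↔
    (∀ z ∈ U, DifferentiableAt ℝ f z) ∧ ∀ v, Hk k (fun z => fderiv ℝ f z v) U := Iff.rfl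

theorem subset {k : ℕ} {f : V ι → ℂ} {U U' : Set (V ι)} (hU : U' ⊆ U) (h : Hk k f U) :
    Hk k f U' := by
  induction k generalizing f with
  | zero => exact fun z hz => h z (hU hz)
  | succ k ih => exact ⟨fun z hz => h.1 z (hU hz), fun v => ih (h.2 v)⟩

theorem loc {k : ℕ} {f : V ι → ℂ} {U : Set (V ι)} (h : ∀ z ∈ U, ∃ U', z ∈ U' ∧ Hk k f U') :
    Hk k f U := by
  induction k generalizing f with
  | zero =>
    intro z hz
    obtain ⟨U', hz', h'⟩ := h z hz
    exact h' z hz'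
  | succ k ih =>
    refine ⟨fun z hz => ?_, fun v => ih fun z hz => ?_⟩
    · obtain ⟨U', hz', h'⟩ := h z hz
      exact h'.1 z hz'
    · obtain ⟨U', hz', h'⟩ := h z hz
      exact ⟨U', hz', h'.2 v⟩

theorem ev_eq {W : Type} {f g : V ι → W} {U : Set (V ι)} (hU : IsOpen U) (e : ∀ z ∈ U, f z = g z)
    {z : V ι} (hz : z ∈ U) : f =ᶠ[𝓝 z] g := by
  filter_upwards [hU.mem_nhds hz] with w hw using e w hw

theorem congr {k : ℕ} {f g : V ι → ℂ} {U : Set (V ι)} (hU : IsOpen U) (e : ∀ z ∈ U, f z = g z)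
    (h : Hk k f U) : Hk k g U := by
  induction k generalizing f g with
  | zero => exact hk0.2 fun z hz => (hk0.1 h z hz).congr (ev_eq hU e hz)
  | succ k ih =>
    refine ⟨fun z hz => (h.1 z hz).congr_of_eventuallyEq (ev_eq hU e hz).symm, fun v =>
      ih (fun z hz => ?_) (h.2 v)⟩
    rw [(ev_eq hU e hz).fderiv_eq]

theorem cdiffOn {k : ℕ} {f : V ι → ℂ} {U : Set (V ι)} (hU : IsOpen U) (h : Hk k f U) :
    ContDiffOn ℝ k f U := by
  induction k generalizing f with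
  | zero =>
    simp only [CharP.cast_eq_zero, contDiffOn_zero]
    exact fun z hz => (hk0.1 h z hz).continuousAt.continuousWithinAt
  | succ k ih =>
    rw [Nat.cast_succ, contDiffOn_succ_iff_fderiv_of_isOpen hU]
    refine ⟨fun z hz => (h.1 z hz).differentiableWithinAt, fun h' => absurd h' (by simp), ?_⟩
    exact contDiffOn_clm_apply.2 fun v => ih (h.2 v)

theorem cdiff {k : ℕ} {f : V ι → ℂ} {U : Set (V ι)} (hU : IsOpen U) (h : Hk k f U) {z : V ι}
    (hz : z ∈ U) : ContDiffAt ℝ k f z := (cdiffOn hU h).contDiffAt (hU.mem_nhds hz)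

theorem mono {k : ℕ} {f : V ι → ℂ} {U : Set (V ι)} (hU : IsOpen U) (h : Hk (k + 1) f U) :
    Hk k f U := by
  induction k generalizing f with
  | zero => exact hk0.2 fun z hz => h0_of_c1 (by simpa using cdiff hU h hz)
  | succ k ih => exact ⟨h.1, fun v => ih (h.2 v)⟩

theorem add {k : ℕ} {f g : V ι → ℂ} {U : Set (V ι)} (hU : IsOpen U) (hf : Hk k f U)
    (hg : Hk k g U) : Hk k (fun z => f z + g z) U := by
  induction k generalizing f g with
  | zero =>
    exact hk0.2 fun z hz => ((hk0.1 hf z hz).prod (hk0.1 hg z hz)).comp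
      (Φ := fun p : ℂ × ℂ => p.1 + p.2) (by fun_prop)
  | succ k ih =>
    refine ⟨fun z hz => (hf.1 z hz).add (hg.1 z hz), fun v =>
      congr hU (fun z hz => ?_) (ih (hf.2 v) (hg.2 v))⟩
    rw [fderiv_fun_add (hf.1 z hz) (hg.1 z hz)]
    rfl

theorem mul {k : ℕ} {f g : V ι → ℂ} {U : Set (V ι)} (hU : IsOpen U) (hf : Hk k f U)
    (hg : Hk k g U) : Hk k (fun z => f z * g z) U := by
  induction k generalizing f g with
  | zero =>
    exact hk0.2 fun z hz => ((hk0.1 hf z hz).prod (hk0.1 hg z hz)).comp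
      (Φ := fun p : ℂ × ℂ => p.1 * p.2) (by fun_prop)
  | succ k ih =>
    refine ⟨fun z hz => (hf.1 z hz).mul (hg.1 z hz), fun v =>
      congr hU (fun z hz => ?_) (add hU (ih (mono hU hf) (hg.2 v)) (ih (mono hU hg) (hf.2 v)))⟩
    rw [fderiv_fun_mul (hf.1 z hz) (hg.1 z hz)]
    simp

theorem of_smooth {k : ℕ} {f : V ι → ℂ} {U : Set (V ι)}
    (h : ∀ z ∈ U, ContDiffAt ℝ ∞ f z) : Hk k f U := by
  induction k generalizing f with
  | zero => exact hk0.2 fun z hz => h0_of_c1 ((h z hz).of_le (by simp))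
  | succ k ih =>
    exact ⟨fun z hz => (h z hz).differentiableAt (by simp), fun v => ih fun z hz =>
      ((h z hz).fderiv_right (m := ∞) (by simp)).clm_apply contDiffAt_const⟩

theorem const {k : ℕ} (c : ℂ) {U : Set (V ι)} : Hk k (fun _ => c) U :=
  of_smooth fun _ _ => contDiffAt_const

theorem sum {κ : Type} (S : Finset κ) {k : ℕ} {f : κ → V ι → ℂ} {U : Set (V ι)} (hU : IsOpen U)
    (h : ∀ j ∈ S, Hk k (f j) U) : Hk k (fun z => ∑ j ∈ S, f j z) U := by
  classical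
  induction S using Finset.induction_on with
  | empty => simpa using const 0
  | insert a S ha ih =>
    simp only [Finset.sum_insert ha]
    exact add hU (h a (Finset.mem_insert_self _ _)) (ih fun j hj => h j (Finset.mem_insert_of_mem hj))

theorem prod {κ : Type} (S : Finset κ) {k : ℕ} {f : κ → V ι → ℂ} {U : Set (V ι)} (hU : IsOpen U)
    (h : ∀ j ∈ S, Hk k (f j) U) : Hk k (fun z => ∏ j ∈ S, f j z) U := by
  classical
  induction S using Finset.induction_on with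
  | empty => simpa using const 1
  | insert a S ha ih =>
    simp only [Finset.prod_insert ha]
    exact mul hU (h a (Finset.mem_insert_self _ _)) (ih fun j hj => h j (Finset.mem_insert_of_mem hj))

theorem clm_split (L : ℂ →L[ℝ] ℂ) (c : ℂ) : L c = (c.re : ℂ) * L 1 + (c.im : ℂ) * L I := by
  have h : c = c.re • (1 : ℂ) + c.im • I := by
    simp [Complex.re_add_im]
  conv_lhs => rw [h]
  rw [map_add, map_smul, map_smul]
  simp

theorem comp {k : ℕ} {f : V ι → ℂ} {Φ : ℂ → ℂ} {U : Set (V ι)} (hU : IsOpen U)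
    (hΦ : ∀ z ∈ U, ContDiffAt ℝ ∞ Φ (f z)) (h : Hk k f U) : Hk k (fun z => Φ (f z)) U := by
  induction k generalizing f Φ with
  | zero => exact hk0.2 fun z hz => (hk0.1 h z hz).comp ((hΦ z hz).of_le (by simp))
  | succ k ih =>
    have hd : ∀ z ∈ U, DifferentiableAt ℝ Φ (f z) := fun z hz =>
      (hΦ z hz).differentiableAt (by simp)
    refine ⟨fun z hz => (hd z hz).comp z (h.1 z hz), fun v => ?_⟩
    have hD : ∀ c : ℂ, Hk k (fun z => fderiv ℝ Φ (f z) c) U := fun c =>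
      ih (Φ := fun u => fderiv ℝ Φ u c) (fun z hz =>
        ((hΦ z hz).fderiv_right (m := ∞) (by simp)).clm_apply contDiffAt_const) (mono hU h)
    have hre : Hk k (fun z => (((fderiv ℝ f z v).re : ℝ) : ℂ)) U :=
      ih (Φ := fun u => ((u.re : ℝ) : ℂ)) (fun z _ =>
        (ofRealCLM.comp reCLM).contDiff.contDiffAt) (h.2 v)
    have him : Hk k (fun z => (((fderiv ℝ f z v).im : ℝ) : ℂ)) U :=
      ih (Φ := fun u => ((u.im : ℝ) : ℂ)) (fun z _ =>
        (ofRealCLM.comp imCLM).contDiff.contDiffAt) (h.2 v)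
    refine congr hU (fun z hz => ?_) (add hU (mul hU hre (hD 1)) (mul hU him (hD I)))
    have e := ((hd z hz).hasFDerivAt.comp z (h.1 z hz).hasFDerivAt).fderiv
    have e' : fderiv ℝ (fun z => Φ (f z)) z = (fderiv ℝ Φ (f z)).comp (fderiv ℝ f z) := e
    rw [e', ContinuousLinearMap.comp_apply, clm_split (fderiv ℝ Φ (f z)) (fderiv ℝ f z v)]

theorem fd2 {f : V ι → ℂ} {z : V ι} (h : ContDiffAt ℝ 2 f z) (v w : V ι) :
    fderiv ℝ (fun u => fderiv ℝ f u v) z w = fderiv ℝ (fderiv ℝ f) z w v := by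
  have h1 : DifferentiableAt ℝ (fderiv ℝ f) z :=
    (h.fderiv_right (m := 1) (by norm_num)).differentiableAt (by simp)
  rw [fderiv_clm_apply h1 (differentiableAt_const v)]
  simp

theorem two {f : V ι → ℂ} {U : Set (V ι)} (hU : IsOpen U) :
    Hk 2 f U ↔ ∀ z ∈ U, ∃ r > 0, ∃ M, Hol2 M f (ball z r) := by
  constructor
  · intro h z hz
    have hc : ∀ u ∈ U, ContDiffAt ℝ 2 f u := fun u hu => by simpa using cdiff hU h hu
    have h0 : H0 f z := h0_of_c1 ((hc z hz).of_le (by norm_num))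
    have h1 : H0 (fderiv ℝ f) z := h0_of_c1 ((hc z hz).fderiv_right (m := 1) (by norm_num))
    have h2 : H0 (fderiv ℝ (fderiv ℝ f)) z := h0_clm fun w => h0_clm fun v =>
      (hk0.1 ((h.2 v).2 w) z hz).congr (ev_eq hU (fun u hu => fd2 (hc u hu) v w) hz)
    obtain ⟨M0, -, s0, hs0, g0⟩ := h0
    obtain ⟨M1, -, s1, hs1, g1⟩ := h1
    obtain ⟨M2, -, s2, hs2, g2⟩ := h2
    obtain ⟨r, hr, hsub⟩ := Metric.mem_nhds_iff.1
      (inter_mem (hU.mem_nhds hz) (inter_mem hs0 (inter_mem hs1 hs2)))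
    refine ⟨r, hr, max M0 (max M1 M2), fun u hu => hc u (hsub hu).1,
      hol_mono g0 (le_max_left _ _) fun u hu => (hsub hu).2.1,
      hol_mono g1 ((le_max_left _ _).trans (le_max_right _ _)) fun u hu => (hsub hu).2.2.1,
      hol_mono g2 ((le_max_right _ _).trans (le_max_right _ _)) fun u hu => (hsub hu).2.2.2⟩
  · intro h
    have hc : ∀ u ∈ U, ContDiffAt ℝ 2 f u := fun u hu => by
      obtain ⟨r, hr, M, g⟩ := h u hu
      exact g.1 u (mem_ball_self hr)
    refine ⟨fun z hz => (hc z hz).differentiableAt (by simp), fun v => ⟨fun z hz => ?_, fun w =>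
      hk0.2 fun z hz => ?_⟩⟩
    · exact (((hc z hz).fderiv_right (m := 1) (by norm_num)).clm_apply
        contDiffAt_const).differentiableAt (by simp)
    · obtain ⟨r, hr, M, g⟩ := h z hz
      exact (((H0.of_hol (ball_mem_nhds z hr) g.2.2.2).app w).app v).congr
        (ev_eq hU (fun u hu => (fd2 (hc u hu) v w).symm) hz)

variable [DecidableEq ι]

theorem hdz {k : ℕ} {f : V ι → ℂ} {U : Set (V ι)} (i : ι) (hU : IsOpen U) (h : Hk (k + 1) f U) :
    Hk k (dz f i) U ∧ Hk k (dzb f i) U := by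
  constructor
  · refine congr hU (fun z _ => ?_) (add hU (mul hU (const (1 / 2)) (h.2 (Pi.single i 1)))
      (mul hU (const (-I / 2)) (h.2 (Pi.single i I))))
    rw [dz]; ring
  · refine congr hU (fun z _ => ?_) (add hU (mul hU (const (1 / 2)) (h.2 (Pi.single i 1)))
      (mul hU (const (I / 2)) (h.2 (Pi.single i I))))
    rw [dzb]; ring

theorem det {σ : Type} [Fintype σ] [DecidableEq σ] {k : ℕ} {G : V ι → Mat σ} {U : Set (V ι)}
    (hU : IsOpen U) (h : ∀ i j, Hk k (fun z => G z i j) U) : Hk k (fun z => (G z).det) U := by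
  simp only [Matrix.det_apply']
  exact sum _ hU fun s _ => mul hU (const _) (prod _ hU fun i _ => h _ _)

theorem inv {σ : Type} [Fintype σ] [DecidableEq σ] {k : ℕ} {G : V ι → Mat σ} {U : Set (V ι)}
    (hU : IsOpen U) (h : ∀ i j, Hk k (fun z => G z i j) U) (hd : ∀ z ∈ U, (G z).det ≠ 0)
    (i j : σ) : Hk k (fun z => (G z)⁻¹ i j) U := by
  have h1 : Hk k (fun z => ((G z).det)⁻¹) U :=
    comp (Φ := fun c => c⁻¹) hU (fun z hz => contDiffAt_inv ℝ (hd z hz)) (det hU h)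
  have h2 : Hk k (fun z => ((G z).updateRow j (Pi.single i 1)).det) U := by
    refine det hU fun p q => ?_
    simp only [Matrix.updateRow_apply]
    by_cases hp : p = j
    · simp only [hp, if_true]; exact const _
    · simp only [hp, if_false]; exact h p q
  refine congr hU (fun z _ => ?_) (mul hU h1 h2)
  rw [Matrix.inv_def, Matrix.smul_apply, adjugate_apply, Ring.inverse_eq_inv', smul_eq_mul]

end HkA

theorem hk : HkS where
  mono := fun _ _ _ _ _ _ hU h => HkA.mono hU h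
  loc := fun _ _ _ _ _ _ h => HkA.loc h
  subset := fun _ _ _ _ _ _ _ hU h => HkA.subset hU h
  congr := fun _ _ _ _ _ _ _ hU e h => HkA.congr hU e h
  add := fun _ _ _ _ _ _ _ hU hf hg => HkA.add hU hf hg
  mul := fun _ _ _ _ _ _ _ hU hf hg => HkA.mul hU hf hg
  sum := fun _ _ _ _ S _ _ _ hU h => HkA.sum S hU h
  of_smooth := fun _ _ _ _ _ _ _ h => HkA.of_smooth h
  comp := fun _ _ _ _ _ _ _ hU hΦ h => HkA.comp hU hΦ h
  smooth := fun _ _ _ _ _ hU h _ hz => contDiffAt_infty.2 fun k => HkA.cdiff hU (h k) hz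
  cdiff := fun _ _ _ _ _ _ hU h _ hz => HkA.cdiff hU h hz
  two := fun _ _ _ _ _ hU => HkA.two hU
  dz := fun _ _ _ _ _ _ i hU h => HkA.hdz i hU h
  inv := fun _ _ _ _ _ _ hU h => ⟨HkA.det hU h, fun hd i j => HkA.inv hU h hd i j⟩

end Pool.Agent.Lib.MP_813db1_ag.HS
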