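import Pool.Agent.Lib.MP_813db1_ag.HS.AY0

/-! Comparison of the `L²` norms with the Hoelder norms, and dissipativity of `box`. -/

namespace Pool.Agent.Lib.MP_813db1_ag.HS

open MeasureTheory Complex Matrix Filter Topology Set Metric
open scoped ContDiff ComplexOrder

namespace L2

variable {ι X : Type} [Fintype ι] [DecidableEq ι] [TopologicalSpace X] {M : Atl ι X}

theorem det_bd (ι : Type) [Fintype ι] [DecidableEq ι] (L : ℝ) :
    ∃ D ≥ (1 : ℝ), ∀ A : Mat ι, Bd L A → ‖A.det‖ ≤ D :=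
  ⟨max 1 ((Fintype.card ι).factorial • L ^ Fintype.card ι), le_max_left _ _, fun _ hA =>
    (Matrix.det_le (abv := NormedField.toAbsoluteValue ℂ) hA).trans (le_max_right _ _)⟩

theorem det_two (hm : MatS) {L D : ℝ} (hD : ∀ A : Mat ι, Bd L A → ‖A.det‖ ≤ D) {H : Mat ι}
    (hH : H.PosDef) (h1 : Bd L H) (h2 : Bd L H⁻¹) :
    0 < H.det.re ∧ H.det.re ≤ D ∧ H.det.re⁻¹ ≤ D := by
  obtain ⟨p, e⟩ := hm.det ι H hH
  have a1 := hD _ h1
  have a2 := hD _ h2
  rw [Matrix.det_nonsing_inv, Ring.inverse_eq_inv', norm_inv] at a2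
  rw [e, Complex.norm_real, Real.norm_eq_abs, abs_of_pos p] at a1 a2
  exact ⟨p, a1, a2⟩

theorem sq_eq (s : ℂ) (w : ℝ) : s * star s * (w : ℂ) = ((‖s‖ ^ 2 * w : ℝ) : ℂ) := by
  rw [Complex.star_def, Complex.mul_conj, Complex.normSq_eq_norm_sq]
  push_cast
  rfl

theorem ip0_re [MeasurableSpace X] (μ : Measure X) (a : ℕ) (g h : X → Mat ι) (σ : X → ℂ) :
    (M.ip0 μ a g h σ σ).re = ∫ x, ‖σ x‖ ^ 2 * wt a g h x ∂μ := by
  simp only [Atl.ip0, sq_eq]
  rw [integral_complex_ofReal, ofReal_re]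

theorem pw (hA : RepA' M) (hm : MatS) (a : ℕ) (g h : X → Mat ι) (σ : X → ℂ) {e : Ch ι X}
    (he : e ∈ M.A) {x : X} (hx : x ∈ e.source) : ‖σ x‖ ^ 2 * wt a g h x =
      ‖M.rep a σ e (e x)‖ ^ 2 * ((M.repF h e (e x)).det.re / (M.repF g e (e x)).det.re /
        (M.repF h e (e x)).det.re ^ a) := by
  have hJ := hA.tj_det e he _ (M.ch_mem x) x hx (M.mem x)
  have hn : (‖(tj e (M.ch x) x).det‖ ^ 2) ^ a ≠ 0 :=
    pow_ne_zero _ (pow_ne_zero _ (norm_ne_zero_iff.2 hJ))
  rw [hA.rat_rep h g e he x hx, rep_at σ hx, repF_at h hx, (hm.pull_pd ι _ (h x) hJ).2.2.2.1,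
    re_ofReal_mul, wt, norm_mul, norm_pow, mul_pow, mul_pow, ← pow_mul, mul_comm a 2, pow_mul,
    mul_comm ((‖(tj e (M.ch x) x).det‖ ^ 2) ^ a) (‖σ x‖ ^ 2), mul_assoc,
    ← mul_div_assoc ((‖(tj e (M.ch x) x).det‖ ^ 2) ^ a), mul_div_mul_left _ _ hn]

theorem det_cont {g : X → Mat ι} (hg : M.IsK g) {e : Ch ι X} (he : e ∈ M.A) :
    ContinuousOn (fun z => (M.repF g e z).det.re) e.target := fun z hz => by
  have h1 : ContinuousAt (M.repF g e) z :=
    continuousAt_pi.2 fun i => continuousAt_pi.2 fun j =>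
      ((hg e he).1.1 z hz i j).continuousAt
  exact (continuous_re.continuousAt.comp
    ((continuous_id.matrix_det).continuousAt.comp h1)).continuousWithinAt

omit [DecidableEq ι] in
theorem cb_sub (C : Cov M) (b : Fin C.n) : closedBall (0 : V ι) (2 * C.r b) ⊆ (C.e b).target :=
  (closedBall_subset_closedBall (by linarith [C.pos b])).trans (C.sub b)

theorem inv_bd (hm : MatS) {g : X → Mat ι} (hg : M.IsK g) (C : Cov M) : ∃ K ≥ (0 : ℝ), ∀ b,
    ∀ z ∈ ball (0 : V ι) (2 * C.r b), ((M.repF g (C.e b) z).det.re)⁻¹ ≤ K := by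
  have h1 : ∀ b, ∃ m > (0 : ℝ), ∀ z ∈ closedBall (0 : V ι) (2 * C.r b),
      m ≤ (M.repF g (C.e b) z).det.re := fun b =>
    (isCompact_closedBall _ _).exists_forall_le' ((det_cont hg (C.mem b)).mono (cb_sub C b))
      fun z hz => (hm.det ι _ ((hg _ (C.mem b)).2 z (cb_sub C b hz))).1
  choose m h2 h3 using h1
  refine ⟨∑ b, (m b)⁻¹, Finset.sum_nonneg fun b _ => (inv_pos.2 (h2 b)).le, fun b z hz => ?_⟩
  exact (inv_anti₀ (h2 b) (h3 b z (ball_subset_closedBall hz))).trans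
    (Finset.single_le_sum (f := fun b => (m b)⁻¹) (fun b _ => (inv_pos.2 (h2 b)).le)
      (Finset.mem_univ b))

theorem cont_sq (hg : GreenS) {g h : X → Mat ι} {a : ℕ} {σ : X → ℂ} (h1 : M.IsK g) (h2 : M.IsK h)
    (h3 : M.CkS 0 a σ) : Continuous fun x => ‖σ x‖ ^ 2 * wt a g h x := by
  have := continuous_re.comp ((hg.cont ι X M g h a σ σ h1 h2).1 h3 h3)
  simpa only [Function.comp_def, sq_eq, ofReal_re] using this

theorem ckS_le {k l : WithTop ℕ∞} {a : ℕ} {σ : X → ℂ} (h : M.CkS k a σ) (hl : l ≤ k) :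
    M.CkS l a σ := fun e he z hz => (h e he z hz).of_le hl

theorem sq_le (η : ℝ) (v b : ℂ) :
    η ^ 2 * ‖v‖ ^ 2 - 2 * η * (b * star v).re ≤ ‖(η : ℂ) * v - b‖ ^ 2 := by
  rw [← Complex.normSq_eq_norm_sq, ← Complex.normSq_eq_norm_sq, Complex.normSq_apply,
    Complex.normSq_apply]
  simp only [Complex.star_def, mul_re, mul_im, sub_re, sub_im, ofReal_re, ofReal_im, conj_re,
    conj_im]
  nlinarith [mul_self_nonneg b.re, mul_self_nonneg b.im]

variable [T2Space X] [CompactSpace X] [MeasurableSpace X] [BorelSpace X]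

omit [T2Space X] in
theorem integ {W : Type} [NormedAddCommGroup W] [SecondCountableTopology W] {μ : Measure X}
    [IsFiniteMeasure μ] {f : X → W} (hf : Continuous f) : Integrable f μ :=
  hf.integrable_of_hasCompactSupport (HasCompactSupport.of_compactSpace f)

theorem diss (hm : MatS) (hg : GreenS) {g h : X → Mat ι} {μ : Measure X} [IsFiniteMeasure μ]
    {a : ℕ} {η : ℝ} {v : X → ℂ} (h1 : M.IsK g) (h2 : M.IsK h) (h3 : M.IsVol g μ)
    (h4 : ∀ x, (h x).PosDef) (hη : 0 ≤ η) (hv : M.CkS 2 a v) :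
    η ^ 2 * (M.ip0 μ a g h v v).re ≤ (M.ip0 μ a g h (fun x => (η : ℂ) * v x - M.box a h v x)
      (fun x => (η : ℂ) * v x - M.box a h v x)).re := by
  have v1 : M.CkS 1 a v := ckS_le hv (by norm_num)
  have v0 : M.CkS 0 a v := ckS_le hv (by norm_num)
  obtain ⟨b0, gr⟩ := hg.sec ι X M g h μ a v v h1 h2 h3 hv v1
  have f0 : M.CkS 0 a fun x => (η : ℂ) * v x - M.box a h v x := fun e he z hz =>
    rep_sub (M := M) e ▸ (ckS_cmul (η : ℂ) v0 e he z hz).sub (b0 e he z hz)
  have hw := (hg.cont ι X M g h a v v h1 h2).2.2.2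
  have i1 : Integrable (fun x => ‖v x‖ ^ 2 * wt a g h x) μ := integ (cont_sq hg h1 h2 v0)
  have i2 : Integrable (fun x => M.box a h v x * star (v x) * (wt a g h x : ℂ)) μ :=
    integ ((hg.cont ι X M g h a _ v h1 h2).1 b0 v0)
  have i3 : Integrable (fun x => ipV (h x) (M.shpX a h v x) (M.shpX a h v x) *
      (wt a g h x : ℂ)) μ :=
    integ ((hg.cont ι X M g h a v v h1 h2).2.1 v1 v1 h fun e he => (h2 e he).1.1)
  have i2' : Integrable (fun x => (M.box a h v x * star (v x) * (wt a g h x : ℂ)).re) μ := i2.re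
  have p1 : 0 ≤ (M.ip1 μ a g h v v).re := by
    have e : (M.ip1 μ a g h v v).re = _ := (integral_re i3).symm
    rw [e]
    refine integral_nonneg fun x => ?_
    change 0 ≤ (ipV (h x) (M.shpX a h v x) (M.shpX a h v x) * (wt a g h x : ℂ)).re
    rw [re_mul_ofReal]
    exact mul_nonneg (hm.nv_mono ι _ _ (h4 x).posSemidef) (hw x).le
  have p2 : ∫ x, (M.box a h v x * star (v x) * (wt a g h x : ℂ)).re ∂μ =
      -(M.ip1 μ a g h v v).re := by
    rw [← neg_re, ← gr]
    exact integral_re i2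
  have p3 := integral_mono ((i1.const_mul (η ^ 2)).sub (i2'.const_mul (2 * η)))
    (integ (μ := μ) (cont_sq hg h1 h2 f0)) fun x => by
      have := mul_le_mul_of_nonneg_right (sq_le η (v x) (M.box a h v x)) (hw x).le
      simp only [Pi.sub_apply, re_mul_ofReal]
      linarith
  rw [ip0_re, ip0_re]
  refine le_trans ?_ p3
  rw [integral_sub' (i1.const_mul (η ^ 2)) (i2'.const_mul (2 * η)), integral_const_mul,
    integral_const_mul, p2]
  nlinarith [mul_nonneg hη p1]

end L2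

open L2 in
theorem l2S (hA : RepA) (hm : MatS) (hv : VolS) (hg : GreenS) : L2S := by
  intro ι X _ _ _ _ _ _ _ M g μ C a L h1 h3
  have hA' := hA ι X M
  have hV := (hv ι X M g h1).2 μ h3
  have := hV.fin
  obtain ⟨D, D1, hD⟩ := det_bd ι L
  obtain ⟨K, K0, hK⟩ := inv_bd hm h1 C
  have D0 : 0 < D := one_pos.trans_le D1
  have E1 : 0 ≤ D * K * D ^ a * μ.real univ := by positivity
  have E2 : 0 ≤ D * D ^ a := by positivity
  set c := 1 + D * K * D ^ a * μ.real univ + D * D ^ a with hc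
  have c1 : D * K * D ^ a * μ.real univ ≤ c ^ 2 := by nlinarith
  have c2 : D * D ^ a ≤ c ^ 2 := by nlinarith
  refine ⟨c, by positivity, fun h h2 hE => ?_⟩
  have hw := (hg.cont ι X M g h a 0 0 h1 h2).2.2.2
  have hd : ∀ b, ∀ z ∈ ball (0 : V ι) (2 * C.r b), 0 < (M.repF h (C.e b) z).det.re ∧
      (M.repF h (C.e b) z).det.re ≤ D ∧ ((M.repF h (C.e b) z).det.re)⁻¹ ≤ D := fun b z hz =>
    det_two hm hD ((h2 _ (C.mem b)).2 z (C.ball_sub2 b hz)) (fun i j => ((hE b).1 i j).1 z hz)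
      fun i j => ((hE b).2.1 i j).1 z hz
  have hG : ∀ b, ∀ z ∈ ball (0 : V ι) (2 * C.r b), 0 < (M.repF g (C.e b) z).det.re :=
    fun b z hz => (hm.det ι _ ((h1 _ (C.mem b)).2 z (C.ball_sub2 b hz))).1
  refine ⟨fun f B hf => ?_, fun v P _ v0 hP b => ?_,
    fun η v hη v2 => diss hm hg h1 h2 h3 ((hA'.isK_iff h).1 h2).2 hη v2⟩
  · have k : ∀ x, ‖‖f x‖ ^ 2 * wt a g h x‖ ≤ B ^ 2 * (D * K * D ^ a) := fun x => by
      obtain ⟨b, x1, x2⟩ := C.cover2 x
      obtain ⟨d0, d1, d2⟩ := hd b _ x2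
      have g0 := hG b _ x2
      rw [Real.norm_of_nonneg (mul_nonneg (sq_nonneg _) (hw x).le),
        pw hA' hm a g h f (C.mem b) x1, div_eq_mul_inv, div_eq_mul_inv, ← inv_pow]
      have b1 := pow_le_pow_left₀ (norm_nonneg _) ((hf b).1 _ x2) 2
      have b2 := hK b _ x2
      gcongr
    rw [ip0_re]
    refine (le_abs_self _).trans
      ((norm_integral_le_of_norm_le_const (Eventually.of_forall k)).trans ?_)
    rw [mul_pow, mul_assoc, mul_comm]
    exact mul_le_mul_of_nonneg_right c1 (sq_nonneg _)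
  · have n0 := cont_sq hg h1 h2 v0
    have i1 : IntegrableOn (fun z => (M.repF g (C.e b) z).det.re *
        (‖v ((C.e b).symm z)‖ ^ 2 * wt a g h ((C.e b).symm z))) (ball 0 (2 * C.r b)) :=
      ((((det_cont h1 (C.mem b)).mul (n0.comp_continuousOn (C.e b).continuousOn_symm)).mono
        (cb_sub C b)).integrableOn_compact (isCompact_closedBall _ _)).mono_set
        ball_subset_closedBall
    have k1 := integral_mono_of_nonneg (f := fun z => ‖M.rep a v (C.e b) z‖ ^ 2)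
      (Eventually.of_forall fun _ => sq_nonneg _) (i1.const_mul (D * D ^ a))
      ((ae_restrict_iff' measurableSet_ball).2 (Eventually.of_forall fun z hz => by
        obtain ⟨d0, d1, d2⟩ := hd b z hz
        have g0 := hG b z hz
        have zt := C.ball_sub2 b hz
        have e := pw hA' hm a g h v (C.mem b) ((C.e b).map_target zt)
        rw [(C.e b).right_inv zt] at e
        dsimp only
        rw [e]
        have b1 : (M.repF h (C.e b) z).det.re ^ a ≤ D ^ a := pow_le_pow_left₀ d0.le d1 a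
        have b2 : ((M.repF h (C.e b) z).det.re)⁻¹ * (M.repF h (C.e b) z).det.re ^ a ≤ D * D ^ a := by
          gcongr
        calc ‖M.rep a v (C.e b) z‖ ^ 2 = (((M.repF h (C.e b) z).det.re)⁻¹ *
              (M.repF h (C.e b) z).det.re ^ a) * ((M.repF g (C.e b) z).det.re *
              (‖M.rep a v (C.e b) z‖ ^ 2 * ((M.repF h (C.e b) z).det.re /
                (M.repF g (C.e b) z).det.re / (M.repF h (C.e b) z).det.re ^ a))) := by
              field_simp
          _ ≤ _ := mul_le_mul_of_nonneg_right b2 (by positivity)))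
    refine k1.trans ?_
    rw [integral_const_mul, ← hV.intR _ (C.mem b) _ measurableSet_ball (C.ball_sub2 b)
      fun x => ‖v x‖ ^ 2 * wt a g h x, mul_pow]
    rw [ip0_re] at hP
    have k2 := (setIntegral_le_integral (s := (C.e b).source ∩ C.e b ⁻¹' ball 0 (2 * C.r b))
      (integ (μ := μ) n0) (Eventually.of_forall fun x =>
        mul_nonneg (sq_nonneg _) (hw x).le)).trans hP
    exact (mul_le_mul_of_nonneg_left k2 E2).trans (mul_le_mul_of_nonneg_right c2 (sq_nonneg _))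

end Pool.Agent.Lib.MP_813db1_ag.HS
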