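import Pool.Agent.Lib.MP_813db1_ag.HS.AY0

/-! Solvability of the linear equation for one large parameter. -/

namespace Pool.Agent.Lib.MP_813db1_ag.HS

open Complex Matrix Filter Topology Set Metric
open scoped ContDiff ComplexOrder

namespace LinE

variable {ι X : Type} [Fintype ι] [DecidableEq ι] [TopologicalSpace X] {M : Atl ι X}

theorem det_inv (hA : RepA' M) {e : Ch ι X} (he : e ∈ M.A) {x : X} (hx : x ∈ e.source) (a : ℕ) :
    (tj (M.ch x) e x).det ^ a * (tj e (M.ch x) x).det ^ a = 1 := by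
  rw [← mul_pow, mul_comm, ← det_mul,
    ← hA.tj_mul _ (M.ch_mem x) e he _ (M.ch_mem x) x (M.mem x) hx (M.mem x),
    hA.tj_self _ (M.ch_mem x) x (M.mem x), det_one, one_pow]

theorem ext_pos {e : Ch ι X} {x : X} (hx : x ∈ e.source) (a : ℕ) (g : V ι → ℂ) :
    M.ext a e g x = (tj (M.ch x) e x).det ^ a * g (e x) := if_pos hx

theorem ext_neg {e : Ch ι X} {x : X} (hx : x ∉ e.source) (a : ℕ) (g : V ι → ℂ) :
    M.ext a e g x = 0 := if_neg hx

/-- the local identity, extended by zero. -/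
theorem box_ext (hA : RepA' M) (hB : RepB' M) {a : ℕ} {h : X → Mat ι} (hh : M.IsK h) {e : Ch ι X}
    (he : e ∈ M.A) {w g E : V ι → ℂ} {c : ℂ} (hw : ∀ z, ContDiffAt ℝ 2 w z)
    (h1 : ∀ x ∈ e.source, M.rep a (M.ext a e w) e =ᶠ[𝓝 (e x)] w)
    (h2 : ∀ x ∉ e.source, ∀ᶠ y in 𝓝 x, M.ext a e w y = 0)
    (h3 : ∀ z, c * w z - boxL a (M.repF h e) w z = g z - E z) (x : X) :
    c * M.ext a e w x - M.box a h (M.ext a e w) x = M.ext a e g x - M.ext a e E x := by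
  by_cases hx : x ∈ e.source
  · have k := hB.box_rep a h (M.ext a e w) hh e he x hx ((hw _).congr_of_eventuallyEq (h1 x hx))
    rw [rep_at _ hx, boxL_congr (h1 x hx)] at k
    have k2 : M.box a h (M.ext a e w) x =
        (tj (M.ch x) e x).det ^ a * boxL a (M.repF h e) w (e x) := by
      rw [← k, ← mul_assoc, det_inv hA he hx, one_mul]
    rw [k2, ext_pos hx, ext_pos hx, ext_pos hx]
    linear_combination (tj (M.ch x) e x).det ^ a * h3 (e x)
  · rw [box_congr (τ := fun _ => 0) (h2 x hx), box_zero', ext_neg hx, ext_neg hx, ext_neg hx]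
    simp

omit [DecidableEq ι] in
theorem hol_inv {B : ℝ} {f : V ι → ℂ} {U : Set (V ι)} (h : Hol B f U) (h1 : ∀ z ∈ U, 1 ≤ ‖f z‖) :
    Hol (max B 1) (fun z => (f z)⁻¹) U := by
  refine ⟨fun z hz => ?_, fun z hz w hw => ?_⟩
  · rw [norm_inv]
    exact (inv_le_one_of_one_le₀ (h1 z hz)).trans (le_max_right _ _)
  · have hz0 : f z ≠ 0 := norm_pos_iff.1 (by linarith [h1 z hz])
    have hw0 : f w ≠ 0 := norm_pos_iff.1 (by linarith [h1 w hw])
    have e : (f z)⁻¹ - (f w)⁻¹ = -(f z - f w) * ((f z)⁻¹ * (f w)⁻¹) := by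
      field_simp
      ring
    rw [e, norm_mul, norm_neg, norm_mul, norm_inv, norm_inv]
    have a1 := inv_le_one_of_one_le₀ (h1 z hz)
    have a2 := inv_le_one_of_one_le₀ (h1 w hw)
    have a3 : ‖f z‖⁻¹ * ‖f w‖⁻¹ ≤ 1 := mul_le_one₀ a1 (by positivity) a2
    refine (mul_le_of_le_one_right (norm_nonneg _) a3).trans ((h.2 z hz w hw).trans ?_)
    exact mul_le_mul_of_nonneg_right (le_max_left _ _) (Real.sqrt_nonneg _)

/-- decomposition of a section into pieces with small support. -/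
theorem part [T2Space X] (hA : RepA' M) (he : ExtAS) (C : Cov M) {ρ0 : ℝ} (h0 : 0 < ρ0) :
    ∃ (T : Finset (Σ _ : Fin C.n, V ι)) (ρ : Fin C.n → ℝ) (c : (Σ _ : Fin C.n, V ι) → ℝ),
      (∀ b, 0 < ρ b ∧ ρ b ≤ ρ0) ∧ (∀ p ∈ T, closedBall p.2 (ρ p.1) ⊆ ball 0 (2 * C.r p.1)) ∧
      (∀ p, 0 ≤ c p) ∧ ∀ (a : ℕ) (t B : ℝ) (f : X → ℂ), 1 ≤ t → 0 ≤ B → C.SHT a t B f →
        ∃ F : (Σ _ : Fin C.n, V ι) → V ι → ℂ, (∀ p ∈ T, HolT t (c p * B) (F p) univ) ∧
          (∀ p, ∀ z ∉ closedBall p.2 (ρ p.1 / 2), F p z = 0) ∧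
          ∀ x, ∑ p ∈ T, M.ext a (C.e p.1) (F p) x = f x := by
  let ρ : Fin C.n → ℝ := fun b => min ρ0 (C.r b / 2)
  have hρ : ∀ b, 0 < ρ b := fun b => lt_min h0 (half_pos (C.pos b))
  have hc : ∀ b, ∃ s ⊆ closedBall (0 : V ι) (C.r b), s.Finite ∧
      closedBall (0 : V ι) (C.r b) ⊆ ⋃ x ∈ s, ball x (ρ b / 4) := fun b =>
    finite_cover_balls_of_compact (isCompact_closedBall _ _) (by linarith [hρ b])
  choose s s1 s2 s3 using hc
  let T : Finset (Σ _ : Fin C.n, V ι) := Finset.univ.sigma fun b => (s2 b).toFinset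
  have hT : ∀ p ∈ T, closedBall p.2 (ρ p.1) ⊆ ball 0 (2 * C.r p.1) := by
    intro p hp
    have h1 : p.2 ∈ s p.1 := by simpa [T] using hp
    have h2 := mem_closedBall.1 (s1 _ h1)
    have h3 : ρ p.1 ≤ C.r p.1 / 2 := min_le_right _ _
    exact closedBall_subset_ball' (by linarith [C.pos p.1])
  let β : ∀ p : Σ _ : Fin C.n, V ι, ContDiffBump p.2 := fun p =>
    ⟨ρ p.1 / 4, ρ p.1 / 2, by linarith [hρ p.1], by linarith [hρ p.1]⟩
  let φ : (Σ _ : Fin C.n, V ι) → V ι → ℂ := fun p z => ((β p z : ℝ) : ℂ)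
  have φ0 : ∀ p, ∀ z ∉ closedBall p.2 (ρ p.1 / 2), φ p z = 0 := by
    intro p z hz
    have : β p z = 0 := (β p).zero_of_le_dist (le_of_lt (not_le.1 fun h => hz (mem_closedBall.2 h)))
    simp [φ, this]
  have φ1 : ∀ p, ∀ z ∉ closedBall p.2 (ρ p.1), φ p z = 0 := fun p z hz =>
    φ0 p z fun h => hz (closedBall_subset_closedBall (by linarith [hρ p.1]) h)
  have hL : ∀ p, ∃ L ≥ (1 : ℝ), Hol L (φ p) univ := fun p =>
    hol_of_supp (ofRealCLM.contDiff.comp (β p).contDiff)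
      ((β p).hasCompactSupport.comp_left (g := fun r : ℝ => (r : ℂ)) ofReal_zero)
  choose L L1 L2 using hL
  let S : X → ℂ := fun x => ∑ p ∈ T, M.ext 0 (C.e p.1) (φ p) x
  have hS : ∃ B, C.SH 0 B S := by
    have : ∀ p ∈ T, ∃ D, C.SHT 0 1 D (M.ext 0 (C.e p.1) (φ p)) := by
      intro p hp
      obtain ⟨K0, -, hK⟩ := he ι X M C 0 (C.e p.1) (C.mem _) _ (isCompact_closedBall p.2 (ρ p.1))
        ((hT p hp).trans (C.ball_sub2 _))
      exact ⟨_, (hK (φ p) (φ1 p)).2.2.1 1 le_rfl _ (hol_iff.1 (L2 p))⟩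
    choose! D hD using this
    exact ⟨_, Cov.sh_iff.2 (Cov.SHT.sum T zero_le_one hD)⟩
  obtain ⟨BS, hS⟩ := hS
  have S1 : ∀ x, 1 ≤ ‖S x‖ := by
    intro x
    obtain ⟨b, x1, x2⟩ := C.cover x
    obtain ⟨z, z1, z2⟩ := mem_iUnion₂.1 (s3 b (mem_closedBall_zero_iff.2 x2.le))
    have hp : (⟨b, z⟩ : Σ _ : Fin C.n, V ι) ∈ T := by simpa [T] using z1
    refine le_trans ?_ (re_le_norm _)
    rw [re_sum]
    refine le_trans ?_ (Finset.single_le_sum (fun p _ => ?_) hp)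
    · have : β ⟨b, z⟩ (C.e b x) = 1 := (β ⟨b, z⟩).one_of_mem_closedBall (ball_subset_closedBall z2)
      rw [ext_pos x1]
      simp [φ, this]
    · by_cases hx : x ∈ (C.e p.1).source
      · rw [ext_pos hx]
        simpa [φ] using (β p).nonneg
      · rw [ext_neg hx]
        simp
  have hI : ∀ b, Hol (max BS 1) (fun z => (S ((C.e b).symm z))⁻¹) (ball 0 (2 * C.r b)) :=
    fun b => hol_inv (rep_fun (M := M) S (C.e b) ▸ hS b) fun z _ => S1 _
  refine ⟨T, ρ, fun p => 4 * L p * max BS 1, fun b => ⟨hρ b, min_le_left _ _⟩, hT, fun p => ?_,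
    fun a t B f ht hB hf => ⟨fun p z => φ p z * ((S ((C.e p.1).symm z))⁻¹ *
      M.rep a f (C.e p.1) z), fun p hp => ?_, fun p z hz => by simp only [φ0 p z hz, zero_mul],
      fun x => ?_⟩⟩
  · have := L1 p
    positivity
  · refine (((hf p.1).mul ht (hI p.1)).mul' ht (L2 p) (by positivity)
      fun z _ hz => φ1 p z fun h => hz (hT p hp h)).mono (le_of_eq (by ring))
  · have hx : S x ≠ 0 := norm_pos_iff.1 (by linarith [S1 x])
    have : ∀ p ∈ T, M.ext a (C.e p.1) (fun z => φ p z * ((S ((C.e p.1).symm z))⁻¹ *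
        M.rep a f (C.e p.1) z)) x = M.ext 0 (C.e p.1) (φ p) x * ((S x)⁻¹ * f x) := by
      intro p _
      by_cases hp : x ∈ (C.e p.1).source
      · rw [ext_pos hp, ext_pos hp, (C.e p.1).left_inv hp, rep_at _ hp]
        linear_combination φ p (C.e p.1 x) * ((S x)⁻¹ * f x) * det_inv hA (C.mem p.1) hp a
      · rw [ext_neg hp, ext_neg hp, zero_mul]
    rw [Finset.sum_congr rfl this, ← Finset.sum_mul]
    exact mul_inv_cancel_left₀ hx _

/-- the global parametrix. -/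
theorem par [T2Space X] (hA : RepA' M) (hB : RepB' M) (he : ExtAS) (hl : LocS) (C : Cov M) (a : ℕ)
    (L : ℝ) : ∃ t0 ≥ (1 : ℝ), ∃ D ≥ (0 : ℝ), ∀ h, M.IsK h → C.Ell a L h → ∀ t ≥ t0, ∀ f B, 0 ≤ B →
      C.SHT a t B f → ∃ w E, C.SH2 a (D * B) w ∧ C.SHT a t (D * B / t ^ 2) E ∧
        ∀ x, (t : ℂ) ^ 4 * w x - M.box a h w x = f x - E x := by
  obtain ⟨ρ0, h0, t0, ht0, hl⟩ := hl ι L
  obtain ⟨T, ρ, c, hρ, hT, hc, hp⟩ := part hA he C h0
  have h1 := fun p : Σ _ : Fin C.n, V ι => hl p.2 (ρ p.1) (hρ _).1 (hρ _).2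
  choose C1 C0 h1 using h1
  have h2 := fun (p : Σ _ : Fin C.n, V ι) (hp : p ∈ T) =>
    he ι X M C a (C.e p.1) (C.mem _) _ (isCompact_closedBall p.2 (ρ p.1))
      ((hT p hp).trans (C.ball_sub2 _))
  choose! K0 K1 h2 using h2
  refine ⟨t0, ht0, ∑ p ∈ T, K0 p * (C1 p * c p),
    Finset.sum_nonneg fun p hp => mul_nonneg (K1 p hp) (mul_nonneg (C0 p) (hc p)),
    fun h hh hE t ht f B hB0 hf => ?_⟩
  have t1 : 1 ≤ t := ht0.trans ht
  obtain ⟨F, F1, F2, F3⟩ := hp a t B f t1 hB0 hf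
  have h3 := fun (p : Σ _ : Fin C.n, V ι) (hp : p ∈ T) =>
    h1 p a (M.repF h (C.e p.1)) _ (hT p hp)
      (fun z hz => (hh _ (C.mem p.1)).2 z (C.ball_sub2 _ hz)) (hE p.1).1 (hE p.1).2.1 (hE p.1).2.2
      t ht (F p) _ (F1 p hp) (F2 p)
  choose! w E w1 E1 w0 hw using h3
  have k1 : ∀ p ∈ T, C.SH2 a (K0 p * (C1 p * (c p * B))) (M.ext a (C.e p.1) (w p)) :=
    fun p hp => (h2 p hp (w p) fun z hz => (w0 p hp z hz).1).2.2.2 _ (w1 p hp)
  have k2 : ∀ p ∈ T, C.SHT a t (K0 p * (C1 p * (c p * B) / t ^ 2)) (M.ext a (C.e p.1) (E p)) :=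
    fun p hp => (h2 p hp (E p) fun z hz => (w0 p hp z hz).2).2.2.1 t t1 _ (E1 p hp)
  refine ⟨fun x => ∑ p ∈ T, M.ext a (C.e p.1) (w p) x, fun x => ∑ p ∈ T, M.ext a (C.e p.1) (E p) x,
    (Cov.SH2.sum T k1).mono (le_of_eq ?_), (Cov.SHT.sum T (by linarith) k2).mono (le_of_eq ?_),
    fun x => ?_⟩
  · rw [Finset.sum_mul]
    exact Finset.sum_congr rfl fun p _ => by ring
  · rw [Finset.sum_mul, Finset.sum_div]
    exact Finset.sum_congr rfl fun p _ => by ring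
  · rw [(box_sum T fun p hp => (k1 p hp).ckS hA).2, ← F3, Finset.mul_sum, ← Finset.sum_sub_distrib,
      ← Finset.sum_sub_distrib]
    refine Finset.sum_congr rfl fun p hp => ?_
    have k := h2 p hp (w p) fun z hz => (w0 p hp z hz).1
    exact box_ext hA hB hh (C.mem _) (fun z => (w1 p hp).1 z trivial) k.1
      (fun y hy => k.2.1 y fun h => absurd h hy) (hw p hp) x

end LinE

theorem linE (hA : RepA) (hB : RepB) (hi : IterS) (he : ExtAS) (hl : LocS) : LinES := by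
  intro ι X _ _ _ _ M C a L
  have hA := hA ι X M
  have hB := hB ι X M
  obtain ⟨t0, ht0, D, hD, hp⟩ := LinE.par hA hB he hl C a L
  obtain ⟨t, ht, htD⟩ : ∃ t ≥ t0, 2 * D ≤ t := ⟨max t0 (2 * D), le_max_left _ _, le_max_right _ _⟩
  have t1 : 1 ≤ t := ht0.trans ht
  refine ⟨t ^ 4, one_le_pow₀ t1, 2 * D * t, by positivity, fun h hh hE f B hB0 hf => ?_⟩
  obtain ⟨v, v1, v2⟩ := hi ι X M C a (fun v x => f x - ((t : ℂ) ^ 4 * v x - M.box a h v x)) t D
    (t * B) t1 hD (by positivity) ((hf.sht t1).congr fun x => by simp [box_zero'])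
    (fun v B' h0 _ hv hΦ => by
      obtain ⟨w, E, w1, E1, hw⟩ := hp h hh hE t ht _ B' h0 hΦ
      refine ⟨w, w1, (E1.mono ?_).congr fun x => ?_⟩
      · rw [div_le_div_iff₀ (by positivity) two_pos]
        have : 2 * D ≤ t ^ 2 := by nlinarith
        nlinarith
      · rw [box_add (hv.ckS hA) (w1.ckS hA)]
        linear_combination -hw x)
    (fun v x hv ε hε => by
      obtain ⟨c1, c10, h1⟩ := Cov.SH.bound hA C a x
      obtain ⟨c2, c20, h2⟩ := box_bound hA hB hh C a x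
      refine ⟨ε / (t ^ 4 * c1 + c2 + 1), by positivity, fun v' hv' hd => ?_⟩
      have e : f x - ((t : ℂ) ^ 4 * v x - M.box a h v x) -
          (f x - ((t : ℂ) ^ 4 * v' x - M.box a h v' x)) =
          M.box a h (fun y => v y - v' y) x - (t : ℂ) ^ 4 * (v x - v' x) := by
        rw [box_sub (hv.ckS hA) (hv'.ckS hA)]
        ring
      have a1 := h1 _ _ hd.sh
      have a2 := h2 _ _ hd
      have a3 : 0 < ε / (t ^ 4 * c1 + c2 + 1) := by positivity
      have a4 : (t ^ 4 * c1 + c2 + 1) * (ε / (t ^ 4 * c1 + c2 + 1)) = ε := by field_simp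
      have a5 := mul_le_mul_of_nonneg_left a1 (by positivity : 0 ≤ t ^ 4)
      change ‖_ - _‖ ≤ ε
      rw [e]
      refine (norm_sub_le _ _).trans ?_
      rw [norm_mul, norm_pow, Complex.norm_real, Real.norm_of_nonneg (by linarith)]
      nlinarith)
  refine ⟨v, v1.mono (le_of_eq (by ring)), fun x => ?_⟩
  push_cast
  exact (sub_eq_zero.1 (v2 x)).symm

end Pool.Agent.Lib.MP_813db1_ag.HS
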