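import Pool.Agent.Lib.MP_813db1_ag.HS.AY0
import Pool.Agent.Lib.MP_813db1_ag.HS.Calc2

/-! The local parametrix. -/

namespace Pool.Agent.Lib.MP_813db1_ag.HS

open Complex Matrix Filter Topology Set Metric
open scoped ContDiff ComplexOrder

namespace Loc

variable {ι : Type} [Fintype ι]

/-- the radial retraction onto a closed ball. -/
theorem retract (z0 : V ι) {ρ : ℝ} (hρ : 0 < ρ) : ∃ π : V ι → V ι,
    (∀ z, π z ∈ closedBall z0 ρ) ∧ (∀ z ∈ closedBall z0 ρ, π z = z) ∧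
    ∀ z w, ‖π z - π w‖ ≤ 2 * ‖z - w‖ := by
  have hm : ∀ u : V ι, 0 < max ρ ‖u‖ := fun u => hρ.trans_le (le_max_left _ _)
  have h1 : ∀ u : V ι, ρ / max ρ ‖u‖ ≤ 1 := fun u => (div_le_one (hm u)).2 (le_max_left _ _)
  have h2 : ∀ u : V ι, ‖u‖ / max ρ ‖u‖ ≤ 1 := fun u => (div_le_one (hm u)).2 (le_max_right _ _)
  have h0 : ∀ u : V ι, 0 ≤ ρ / max ρ ‖u‖ := fun u => (div_pos hρ (hm u)).le
  refine ⟨fun z => z0 + (ρ / max ρ ‖z - z0‖) • (z - z0), fun z => ?_, fun z hz => ?_,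
    fun z w => ?_⟩
  · rw [mem_closedBall_iff_norm, add_sub_cancel_left, norm_smul, Real.norm_of_nonneg (h0 _),
      div_mul_eq_mul_div, mul_div_assoc]
    exact mul_le_of_le_one_right hρ.le (h2 _)
  · rw [mem_closedBall_iff_norm] at hz
    simp only [max_eq_left hz, div_self hρ.ne', one_smul, add_sub_cancel]
  · have e0 : z - w = (z - z0) - (w - z0) := by abel
    rw [e0]
    dsimp only
    generalize z - z0 = u
    generalize w - z0 = v
    have e : z0 + (ρ / max ρ ‖u‖) • u - (z0 + (ρ / max ρ ‖v‖) • v) =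
        (ρ / max ρ ‖u‖) • (u - v) + (ρ / max ρ ‖u‖ - ρ / max ρ ‖v‖) • v := by
      rw [smul_sub, sub_smul]
      abel
    have a1 : ‖(ρ / max ρ ‖u‖) • (u - v)‖ ≤ ‖u - v‖ := by
      rw [norm_smul, Real.norm_of_nonneg (h0 _)]
      exact mul_le_of_le_one_left (norm_nonneg _) (h1 _)
    have a3 : |max ρ ‖v‖ - max ρ ‖u‖| ≤ ‖u - v‖ := by
      rw [max_comm ρ, max_comm ρ, norm_sub_rev]
      exact (abs_max_sub_max_le_abs _ _ _).trans (abs_norm_sub_norm_le _ _)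
    have a2 : ‖(ρ / max ρ ‖u‖ - ρ / max ρ ‖v‖) • v‖ ≤ ‖u - v‖ := by
      have e1 : ρ / max ρ ‖u‖ - ρ / max ρ ‖v‖ =
          (max ρ ‖v‖ - max ρ ‖u‖) * (ρ / max ρ ‖u‖) / max ρ ‖v‖ := by
        have := (hm u).ne'
        have := (hm v).ne'
        field_simp
      rw [norm_smul, e1, Real.norm_eq_abs, abs_div, abs_mul, abs_of_nonneg (h0 _),
        abs_of_pos (hm v), div_mul_eq_mul_div, mul_div_assoc]
      exact (mul_le_of_le_one_right (mul_nonneg (abs_nonneg _) (h0 _)) (h2 _)).trans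
        ((mul_le_of_le_one_right (abs_nonneg _) (h1 _)).trans a3)
    rw [e]
    linarith [norm_add_le ((ρ / max ρ ‖u‖) • (u - v)) ((ρ / max ρ ‖u‖ - ρ / max ρ ‖v‖) • v)]

/-- the cutoff function. -/
theorem cutoff (z0 : V ι) {ρ : ℝ} (hρ : 0 < ρ) : ∃ (ψ : V ι → ℂ) (p : ℝ), 1 ≤ p ∧
    Hol2 p ψ univ ∧ (∀ z ∈ closedBall z0 (ρ / 2), ψ z = 1) ∧
    ∀ z ∉ closedBall z0 ρ, ψ =ᶠ[𝓝 z] fun _ => 0 := by
  let b : ContDiffBump z0 := ⟨ρ / 2, ρ, by linarith, by linarith⟩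
  obtain ⟨p, hp, h⟩ := hol2_of_supp (f := fun z => ((b z : ℝ) : ℂ))
    (ofRealCLM.contDiff.comp b.contDiff) (b.hasCompactSupport.comp_left ofReal_zero)
  refine ⟨_, p, hp, h, fun z hz => ?_, fun z hz => ?_⟩
  · simp only [b.one_of_mem_closedBall hz, ofReal_one]
  · filter_upwards [isClosed_closedBall.isOpen_compl.mem_nhds hz] with w hw
    have : b w = 0 := b.zero_of_le_dist (not_le.1 (fun h => hw (mem_closedBall.2 h))).le
    simp only [this, ofReal_zero]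

end Loc

theorem locS (hp : PertS) : LocS := by
  intro ι _ _ L
  have hL1 : (1 : ℝ) ≤ max L 1 := le_max_right _ _
  have hLL : L ≤ max L 1 := le_max_left _ _
  generalize max L 1 = L1 at hL1 hLL
  obtain ⟨η, hη, C0, t0, ht0, hP⟩ := hp ι (2 * L1)
  refine ⟨(η / L1) ^ 2, by positivity, t0, ht0, fun z0 ρ hρ hρ0 => ?_⟩
  obtain ⟨π, hπ1, hπ2, hπ3⟩ := Loc.retract z0 hρ
  obtain ⟨ψ, p, hp1, hψ, hψ1, hψ0⟩ := Loc.cutoff z0 hρ
  obtain ⟨K, hK⟩ : ∃ K, K = 2 * p * (2 * L1) + 2 * (2 * (2 * L1) * (2 * L1)) * p := ⟨_, rfl⟩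
  have hK0 : 0 ≤ K := by rw [hK]; positivity
  obtain ⟨N, hN⟩ : ∃ N : ℝ, N = ∑ _i : ι, ∑ _j : ι, (2 * K + 2 * K + 2 * K) := ⟨_, rfl⟩
  have hN0 : 0 ≤ N := by rw [hN]; positivity
  refine ⟨(8 * p + N) * |C0|, by positivity,
    fun a H U hU hpos hH hHi hb t ht f B hf hf0 => ?_⟩
  have ht1 : 1 ≤ t := ht0.trans ht
  have ht' : 0 ≤ t := zero_le_one.trans ht1
  have hz0 : z0 ∈ U := hU (mem_closedBall_self hρ.le)
  have hm : MapsTo π univ U := fun z _ => hU (hπ1 z)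
  have hA : ∀ i j, Hol (2 * L1) (fun z => (H (π z))⁻¹ i j) univ := fun i j =>
    ((hHi i j).mono hLL).comp (τ := π) one_le_two hm fun z _ w _ => hπ3 z w
  have hβ : ∀ i, Hol (2 * L1) (fun z => (a : ℂ) * dz (lg H) i (π z)) univ := fun i =>
    ((hb i).mono hLL).comp (τ := π) one_le_two hm fun z _ w _ => hπ3 z w
  obtain ⟨⟨v, hv, hve⟩, -⟩ := hP (H z0)⁻¹ (fun z => (H (π z))⁻¹) (hpos z0 hz0).inv
    (fun i j => ((hHi i j).1 z0 hz0).trans (by linarith))
    (fun i j => by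
      rw [nonsing_inv_nonsing_inv _ ((isUnit_iff_isUnit_det _).1 (hpos z0 hz0).isUnit)]
      exact ((hH i j).1 z0 hz0).trans (by linarith))
    (fun z => ⟨(hpos _ (hm (mem_univ z))).inv.posSemidef, fun i j => by
      have h1 := ((hHi i j).mono hLL).2 _ (hm (mem_univ z)) z0 hz0
      have h2 : √‖π z - z0‖ ≤ η / L1 := by
        refine Real.sqrt_le_iff.2 ⟨by positivity, ?_⟩
        exact (mem_closedBall_iff_norm.1 (hπ1 z)).trans hρ0
      rw [Matrix.sub_apply]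
      refine h1.trans ?_
      rwa [le_div_iff₀' (by linarith)] at h2⟩)
    (fun i j z w => (hA i j).2 z (mem_univ z) w (mem_univ w)) t ht f B hf
  have hB : 0 ≤ B := hf.nonneg ht' (mem_univ 0)
  have hM : 0 ≤ C0 * B := hv.2.2.2.nonneg ht' (mem_univ 0)
  have hMB : C0 * B ≤ |C0| * B := mul_le_mul_of_nonneg_right (le_abs_self C0) hB
  have v0 : HolT t (C0 * B / t ^ 2) v univ := hv.2.1.mono
    (div_le_div_of_nonneg_left hM (by positivity) (pow_le_pow_right₀ ht1 (by norm_num)))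
  have k1 : ∀ i j, Hol K (fun z => levi ψ z i j * (H (π z))⁻¹ j i -
      (H (π z))⁻¹ j i * ((a : ℂ) * dz (lg H) i (π z)) * dzb ψ j z) univ := fun i j =>
    hK ▸ ((hψ.levi i j).mul (hA j i)).sub (((hA j i).mul (hβ i)).mul (hψ.dzb j))
  have k2 : ∀ i j, Hol K (fun z => dzb ψ j z * (H (π z))⁻¹ j i) univ := fun i j =>
    ((hψ.dzb j).mul (hA j i)).mono (by
      rw [hK]
      exact le_add_of_nonneg_right (by positivity))
  have k3 : ∀ i j, Hol K (fun z => dz ψ i z * (H (π z))⁻¹ j i -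
      (H (π z))⁻¹ j i * ((a : ℂ) * dz (lg H) i (π z)) * ψ z) univ := fun i j =>
    hK ▸ ((hψ.dz i).mul (hA j i)).sub (((hA j i).mul (hβ i)).mul hψ.2.1)
  have hE := HolT.sum Finset.univ ht' fun i _ => HolT.sum Finset.univ ht' fun j _ =>
    ((v0.mul ht1 (k1 i j)).add ht' ((hv.2.2.1.dz ht' i).mul ht1 (k2 i j))).add ht'
      ((hv.2.2.1.dzb ht' j).mul ht1 (k3 i j))
  have hz : ∀ z ∉ closedBall z0 ρ, ψ z = 0 ∧ levi ψ z = 0 ∧ (∀ i, dz ψ i z = 0) ∧
      ∀ i, dzb ψ i z = 0 := fun z hz =>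
    ⟨(hψ0 z hz).eq_of_nhds, by rw [levi_congr (hψ0 z hz), levi_const],
      fun i => by rw [dz_congr (hψ0 z hz), dz_const], fun i => by
        rw [dzb_congr (hψ0 z hz), dzb_const]⟩
  refine ⟨fun z => ψ z * v z, _, (hψ.mul (hv.hol2 ht1 hM)).mono ?_, hE.mono ?_,
    fun z hz' => ?_, fun z => ?_⟩
  · have := mul_nonneg hN0 (mul_nonneg (abs_nonneg C0) hB)
    have := mul_le_mul_of_nonneg_left hMB (by positivity : 0 ≤ 8 * p)
    nlinarith
  · have e : ∑ _i : ι, ∑ _j : ι, (2 * K * (C0 * B / t ^ 2) + 2 * K * (C0 * B / t ^ 2) +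
        2 * K * (C0 * B / t ^ 2)) = N * (C0 * B) / t ^ 2 := by
      rw [hN, mul_div_assoc _ (C0 * B)]
      simp only [Finset.sum_mul, add_mul]
    rw [e]
    refine div_le_div_of_nonneg_right ?_ (by positivity)
    have := mul_nonneg (by positivity : 0 ≤ 8 * p) (mul_nonneg (abs_nonneg C0) hB)
    have := mul_le_mul_of_nonneg_left hMB hN0
    nlinarith
  · obtain ⟨a0, a1, a2, a3⟩ := hz z hz'
    simp [a0, a1, a2, a3]
  · have hfψ : f z = ψ z * f z := by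
      by_cases h : z ∈ closedBall z0 (ρ / 2)
      · rw [hψ1 z h, one_mul]
      · rw [hf0 z h, mul_zero]
    by_cases h : z ∈ closedBall z0 ρ
    · have c1 := hψ.1 z (mem_univ z)
      have c2 := hv.1 z (mem_univ z)
      have hve' := hve z
      rw [hfψ, ← hve']
      simp only [hπ2 z h, boxL, lapL, trace, diag, Matrix.mul_apply, levi_mul c1 c2,
        dzb_mul (c1.differentiableAt two_ne_zero) (c2.differentiableAt two_ne_zero), mul_sub,
        Finset.mul_sum]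
      rw [sub_sub, ← Finset.sum_sub_distrib, ← Finset.sum_add_distrib, mul_left_comm]
      congr 1
      refine Finset.sum_congr rfl fun i _ => ?_
      rw [← Finset.sum_sub_distrib, ← Finset.sum_add_distrib]
      exact Finset.sum_congr rfl fun j _ => by ring
    · obtain ⟨a0, a1, a2, a3⟩ := hz z h
      have e : (fun z => ψ z * v z) =ᶠ[𝓝 z] fun _ => 0 := by
        filter_upwards [hψ0 z h] with w hw
        rw [hw, zero_mul]
      rw [boxL_congr e, boxL_zero, hfψ]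
      simp [a0, a1, a2, a3]

end Pool.Agent.Lib.MP_813db1_ag.HS
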