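import Pool.Agent.Lib.MP_813db1_ag.HS.Stmt

/-! The maximum principle: the complex Hessian at a local maximum, and uniqueness of bounded
solutions. -/

namespace Pool.Agent.Lib.MP_813db1_ag.HS

open Complex Matrix Filter Topology Set Metric
open scoped ContDiff ComplexOrder

namespace Max

noncomputable section

variable {ι : Type} [Fintype ι] [DecidableEq ι]

/-- the second derivative. -/
abbrev D2 {E : Type} [NormedAddCommGroup E] [NormedSpace ℝ E] (f : V ι → E) (z : V ι) :
    V ι →L[ℝ] V ι →L[ℝ] E := fderiv ℝ (fderiv ℝ f) z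

/-- the Hermitian matrix of a real bilinear form. -/
def Lv (B : V ι →L[ℝ] V ι →L[ℝ] ℝ) : Mat ι := Matrix.of fun i j =>
  ((B (Pi.single i 1) (Pi.single j 1) : ℂ) + (B (Pi.single i I) (Pi.single j I) : ℂ) +
    I * ((B (Pi.single i 1) (Pi.single j I) : ℂ) - (B (Pi.single i I) (Pi.single j 1) : ℂ))) / 4

omit [DecidableEq ι] in
theorem hasD2 {E : Type} [NormedAddCommGroup E] [NormedSpace ℝ E] {f : V ι → E} {z : V ι}
    (h : ContDiffAt ℝ 2 f z) : HasFDerivAt (fderiv ℝ f) (D2 f z) z :=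
  ((h.fderiv_right (m := 1) (by norm_num)).differentiableAt (by norm_num)).hasFDerivAt

omit [DecidableEq ι] in
theorem evDiff {E : Type} [NormedAddCommGroup E] [NormedSpace ℝ E] {f : V ι → E} {z : V ι}
    (h : ContDiffAt ℝ 2 f z) : ∀ᶠ w in 𝓝 z, DifferentiableAt ℝ f w :=
  (h.eventually (by simp)).mono fun _ hw => hw.differentiableAt (by norm_num)

omit [DecidableEq ι] in
theorem D2_comp {E E' : Type} [NormedAddCommGroup E] [NormedSpace ℝ E] [NormedAddCommGroup E']
    [NormedSpace ℝ E'] (l : E →L[ℝ] E') {f : V ι → E} {z : V ι} (h : ContDiffAt ℝ 2 f z)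
    (u v : V ι) : D2 (fun w => l (f w)) z u v = l (D2 f z u v) := by
  have e : fderiv ℝ (fun w => l (f w)) =ᶠ[𝓝 z]
      fun w => ContinuousLinearMap.compL ℝ (V ι) E E' l (fderiv ℝ f w) :=
    (evDiff h).mono fun w hw => (l.hasFDerivAt.comp w hw.hasFDerivAt).fderiv
  have h2 := ((ContinuousLinearMap.compL ℝ (V ι) E E' l).hasFDerivAt.comp z (hasD2 h)).fderiv
  unfold D2
  rw [e.fderiv_eq]
  erw [h2]
  rfl

theorem levi_eq {F : V ι → ℂ} {z : V ι} (h : ContDiffAt ℝ 2 F z) (i j : ι) :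
    levi F z i j = (D2 F z (Pi.single i 1) (Pi.single j 1) + D2 F z (Pi.single i I) (Pi.single j I) +
      I * (D2 F z (Pi.single i 1) (Pi.single j I) - D2 F z (Pi.single i I) (Pi.single j 1))) / 4 := by
  have a := fun v : V ι => (ContinuousLinearMap.apply ℝ ℂ v).hasFDerivAt.comp z (hasD2 h)
  have b := (((a (Pi.single j 1)).add ((a (Pi.single j I)).const_mul I)).mul_const (2⁻¹ : ℂ)).fderiv
  have e : dzb F j = fun x => (((ContinuousLinearMap.apply ℝ ℂ (Pi.single j 1 : V ι)) ∘ fderiv ℝ F) +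
      fun y => I * ((ContinuousLinearMap.apply ℝ ℂ (Pi.single j I : V ι)) ∘ fderiv ℝ F) y) x * 2⁻¹ := by
    funext x; rfl
  show dz (dzb F j) i z = _
  unfold dz
  rw [e, b]
  simp
  ring_nf
  rw [I_sq]
  ring

theorem levi_real {f : V ι → ℝ} {z : V ι} (h : ContDiffAt ℝ 2 f z) :
    levi (fun w => (f w : ℂ)) z = Lv (D2 f z) := by
  ext i j
  have hc : ContDiffAt ℝ 2 (fun w => ofRealCLM (f w)) z := ofRealCLM.contDiff.contDiffAt.comp z h
  have := levi_eq hc i j
  rw [D2_comp ofRealCLM h, D2_comp ofRealCLM h, D2_comp ofRealCLM h, D2_comp ofRealCLM h] at this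
  exact this

theorem levi_cplx {F : V ι → ℂ} {z : V ι} (h : ContDiffAt ℝ 2 F z) :
    levi F z = Lv (D2 (fun w => (F w).re) z) + I • Lv (D2 (fun w => (F w).im) z) := by
  ext i j
  have h1 := D2_comp reCLM h
  have h2 := D2_comp imCLM h
  simp only [reCLM_apply, imCLM_apply] at h1 h2
  rw [levi_eq h]
  simp only [Lv, Matrix.add_apply, Matrix.smul_apply, Matrix.of_apply, h1, h2, smul_eq_mul]
  apply Complex.ext <;> simp <;> ring

omit [Fintype ι] in
theorem Lv_herm {B : V ι →L[ℝ] V ι →L[ℝ] ℝ} (hB : ∀ u v, B u v = B v u) : (Lv B).IsHermitian := by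
  ext i j
  simp only [Lv, conjTranspose_apply, Matrix.of_apply]
  rw [hB (Pi.single j 1) (Pi.single i 1), hB (Pi.single j I) (Pi.single i I),
    hB (Pi.single j 1) (Pi.single i I), hB (Pi.single j I) (Pi.single i 1)]
  apply Complex.ext <;> simp

theorem expand (a b : ι → ℝ) (B : V ι →L[ℝ] V ι →L[ℝ] ℝ) :
    B (∑ i, (a i • (Pi.single i 1 : V ι) + b i • (Pi.single i I : V ι)))
      (∑ i, (a i • (Pi.single i 1 : V ι) + b i • (Pi.single i I : V ι))) =
    ∑ i, ∑ j, (a i * a j * B (Pi.single i 1) (Pi.single j 1) +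
      a i * b j * B (Pi.single i 1) (Pi.single j I) + b i * a j * B (Pi.single i I) (Pi.single j 1) +
      b i * b j * B (Pi.single i I) (Pi.single j I)) := by
  rw [map_sum, Finset.sum_comm]
  refine Finset.sum_congr rfl fun j _ => ?_
  rw [map_sum, _root_.sum_apply]
  refine Finset.sum_congr rfl fun i _ => ?_
  simp
  ring

theorem Lv_psd {B : V ι →L[ℝ] V ι →L[ℝ] ℝ} (hB : ∀ u v, B u v = B v u) (h : ∀ u, B u u ≤ 0) :
    (-Lv B).PosSemidef := by
  have hH := (Lv_herm hB).neg
  refine posSemidef_iff_dotProduct_mulVec.2 ⟨hH, fun x => ?_⟩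
  have h1 := h (∑ i, ((x i).re • (Pi.single i 1 : V ι) + (-(x i).im) • (Pi.single i I : V ι)))
  have h2 := h (∑ i, ((x i).im • (Pi.single i 1 : V ι) + (x i).re • (Pi.single i I : V ι)))
  rw [expand] at h1 h2
  refine Complex.nonneg_iff.2 ⟨?_, (hH.im_star_dotProduct_mulVec_self x).symm⟩
  have h3 := add_nonpos h1 h2
  rw [← Finset.sum_add_distrib] at h3
  simp only [← Finset.sum_add_distrib] at h3
  have e : (star x ⬝ᵥ (-Lv B) *ᵥ x).re = -(1 / 4) * ∑ i, ∑ j,
      ((x i).re * (x j).re * B (Pi.single i 1) (Pi.single j 1) +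
        (x i).re * -(x j).im * B (Pi.single i 1) (Pi.single j I) +
        -(x i).im * (x j).re * B (Pi.single i I) (Pi.single j 1) +
        -(x i).im * -(x j).im * B (Pi.single i I) (Pi.single j I) +
      ((x i).im * (x j).im * B (Pi.single i 1) (Pi.single j 1) +
        (x i).im * (x j).re * B (Pi.single i 1) (Pi.single j I) +
        (x i).re * (x j).im * B (Pi.single i I) (Pi.single j 1) +
        (x i).re * (x j).re * B (Pi.single i I) (Pi.single j I))) := by
    simp only [dotProduct, mulVec, Finset.mul_sum, re_sum]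
    refine Finset.sum_congr rfl fun i _ => Finset.sum_congr rfl fun j _ => ?_
    simp [Lv]
    ring
  rw [e]
  linarith

omit [DecidableEq ι] in
theorem D2_nonpos {f : V ι → ℝ} {z : V ι} (h : ContDiffAt ℝ 2 f z) (hm : IsLocalMax f z)
    (u : V ι) : D2 f z u u ≤ 0 := by
  have hl : ∀ s : ℝ, HasDerivAt (fun s : ℝ => z + s • u) u s := fun s => by
    simpa using ((hasDerivAt_id s).smul_const u).const_add z
  have hc : ContinuousAt (fun s : ℝ => z + s • u) 0 := (hl 0).continuousAt
  have h0 : z + (0 : ℝ) • u = z := by simp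
  have ht : Tendsto (fun s : ℝ => z + s • u) (𝓝 0) (𝓝 z) := by
    have := hc.tendsto
    rwa [h0] at this
  have e1 : deriv (fun s : ℝ => f (z + s • u)) =ᶠ[𝓝 0] fun s => fderiv ℝ f (z + s • u) u :=
    (ht.eventually (evDiff h)).mono fun s hs => (hs.hasFDerivAt.comp_hasDerivAt s (hl s)).deriv
  have e2 : deriv (deriv fun s : ℝ => f (z + s • u)) 0 = D2 f z u u := by
    rw [e1.deriv_eq]
    have a : HasFDerivAt (fderiv ℝ f) (D2 f z) (z + (0 : ℝ) • u) := by rw [h0]; exact hasD2 h
    exact ((ContinuousLinearMap.apply ℝ ℝ u).hasFDerivAt.comp_hasDerivAt 0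
      (a.comp_hasDerivAt 0 (hl 0))).deriv
  have hm' : IsLocalMax (fun s : ℝ => f (z + s • u)) 0 := by
    have : IsLocalMax f (z + (0 : ℝ) • u) := by rw [h0]; exact hm
    exact IsLocalMax.comp_continuous (g := fun s : ℝ => z + s • u) this hc
  by_contra hp
  have hcf : ContinuousAt (fun s : ℝ => f (z + s • u)) 0 :=
    ContinuousAt.comp (g := f) (by rw [h0]; exact h.continuousAt) hc
  have hn := isLocalMin_of_deriv_deriv_pos (by rw [e2]; exact not_le.1 hp) hm'.deriv_eq_zero hcf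
  have e3 : (fun s : ℝ => f (z + s • u)) =ᶠ[𝓝 0] fun _ => f (z + (0 : ℝ) • u) :=
    (hm'.and hn).mono fun s hs => le_antisymm hs.1 hs.2
  have e4 := e3.deriv.deriv_eq
  rw [e2] at e4
  simp at e4
  exact hp e4.le

omit [DecidableEq ι] in
theorem D2_symm {f : V ι → ℝ} {z : V ι} (h : ContDiffAt ℝ 2 f z) (u v : V ι) :
    D2 f z u v = D2 f z v u := h.isSymmSndFDerivAt (by simp) u v

open scoped MatrixOrder in
theorem trace_nonneg {P A : Mat ι} (hP : P.PosSemidef) (hA : A.PosSemidef) :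
    0 ≤ (trace (P * A)).re := by
  obtain ⟨B, rfl⟩ := CStarAlgebra.nonneg_iff_eq_star_mul_self.mp hA.nonneg
  have := (hP.mul_mul_conjTranspose_same B).trace_nonneg
  rw [← Matrix.mul_assoc, trace_mul_comm, ← Matrix.mul_assoc]
  exact (Complex.nonneg_iff.1 this).1

omit [DecidableEq ι] in
theorem trace_im {P A : Mat ι} (hP : P.IsHermitian) (hA : A.IsHermitian) :
    (trace (P * A)).im = 0 := by
  have : star (trace (P * A)) = trace (P * A) := by
    rw [← trace_conjTranspose, conjTranspose_mul, hP.eq, hA.eq, trace_mul_comm]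
  exact Complex.conj_eq_iff_im.1 this

/-- the Euclidean form. -/
def bq : V ι →L[ℝ] V ι →L[ℝ] ℝ :=
  ∑ i, (innerSL ℝ (E := ℂ)).bilinearComp (ContinuousLinearMap.proj i) (ContinuousLinearMap.proj i)

/-- its symmetrisation. -/
def bs : V ι →L[ℝ] V ι →L[ℝ] ℝ := bq + (bq : V ι →L[ℝ] V ι →L[ℝ] ℝ).flip

omit [DecidableEq ι] in
theorem bq_ge (z : V ι) : 0 ≤ bq z z ∧ ‖z‖ ^ 2 ≤ bq z z := by
  have e : bq z z = ∑ i, ‖z i‖ ^ 2 := by
    simp only [bq, _root_.sum_apply]
    refine Finset.sum_congr rfl fun i _ => ?_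
    exact real_inner_self_eq_norm_sq (z i)
  have h0 : 0 ≤ bq z z := e ▸ Finset.sum_nonneg fun _ _ => sq_nonneg _
  refine ⟨h0, ?_⟩
  rw [← Real.le_sqrt (norm_nonneg _) h0]
  refine (pi_norm_le_iff_of_nonneg (Real.sqrt_nonneg _)).2 fun i => ?_
  rw [Real.le_sqrt (norm_nonneg _) h0, e]
  exact Finset.single_le_sum (f := fun i => ‖z i‖ ^ 2) (fun _ _ => sq_nonneg _) (Finset.mem_univ i)

omit [DecidableEq ι] in
theorem bq_deriv (z : V ι) : HasFDerivAt (fun w : V ι => bq w w) (bs z) z := by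
  refine (bq.hasFDerivAt_of_bilinear (hasFDerivAt_id z) (hasFDerivAt_id z)).congr_fderiv ?_
  ext v
  simp [bs]

theorem uniR {A : V ι → Mat ι} {L lam B : ℝ} {u : V ι → ℝ} (hl : 0 < lam)
    (hA : ∀ z, (A z).PosSemidef ∧ Bd L (A z)) (hu : ∀ z, ContDiffAt ℝ 2 u z)
    (hB : ∀ z, |u z| ≤ B) (he : ∀ z, lam * u z ≤ (trace (Lv (D2 u z) * A z)).re) (z : V ι) :
    u z ≤ 0 := by
  set M : Mat ι := Lv bs with hM
  set C : ℝ := ∑ i, ∑ j, ‖M i j‖ * L
  have hC : ∀ w, (trace (M * A w)).re ≤ C := fun w => by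
    refine (re_le_norm _).trans ?_
    simp only [trace, diag, mul_apply]
    refine (norm_sum_le _ _).trans (Finset.sum_le_sum fun i _ => (norm_sum_le _ _).trans
      (Finset.sum_le_sum fun j _ => ?_))
    rw [norm_mul]
    exact mul_le_mul_of_nonneg_left ((hA w).2 j i) (norm_nonneg _)
  have hq : ContDiff ℝ 2 fun w : V ι => bq w w :=
    (bq (ι := ι)).contDiff.clm_apply contDiff_id
  have key : ∀ δ > (0 : ℝ), u z ≤ δ * (bq z z + C / lam) := by
    intro δ hδ
    have hw : ∀ w, ContDiffAt ℝ 2 (fun w => u w - δ * bq w w) w := fun w =>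
      (hu w).sub (contDiffAt_const.mul hq.contDiffAt)
    have hcont : Continuous fun w => u w - δ * bq w w :=
      continuous_iff_continuousAt.2 fun w => (hw w).continuousAt
    obtain ⟨x, hx⟩ := hcont.exists_forall_ge' 0 (by
      have := (tendsto_norm_cocompact_atTop (E := V ι)).eventually_ge_atTop (max 1 (2 * B / δ))
      refine this.mono fun w h => ?_
      have h1 := (le_max_left _ _).trans h
      have h2 := (div_le_iff₀ hδ).1 ((le_max_right _ _).trans h)
      have h3 := (bq_ge w).2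
      have h4 := abs_le.1 (hB w)
      have h5 := abs_le.1 (hB 0)
      have h6 : ‖w‖ ≤ bq w w := by nlinarith
      have h7 := mul_le_mul_of_nonneg_left h6 hδ.le
      simp only [map_zero, mul_zero, sub_zero]
      linarith)
    have hmax : IsLocalMax (fun w => u w - δ * bq w w) x := Eventually.of_forall hx
    have hP := Lv_psd (D2_symm (hw x)) (D2_nonpos (hw x) hmax)
    have e1 : fderiv ℝ (fun w => u w - δ * bq w w) =
        fun w => fderiv ℝ u w - δ • bs w := by
      funext w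
      exact (((hu w).differentiableAt (by norm_num)).hasFDerivAt.sub
        ((bq_deriv w).const_mul δ)).fderiv
    have e2 : D2 (fun w => u w - δ * bq w w) x = D2 u x - δ • bs := by
      unfold D2
      rw [e1]
      exact ((hasD2 (hu x)).sub ((bs (ι := ι)).hasFDerivAt.const_smul δ)).fderiv
    have e3 : -Lv (D2 u x - δ • bs) = (δ : ℂ) • M - Lv (D2 u x) := by
      ext i j
      simp only [hM, Lv, Matrix.neg_apply, Matrix.sub_apply, Matrix.smul_apply, Matrix.of_apply,
        _root_.sub_apply, _root_.smul_apply, smul_eq_mul]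
      push_cast
      ring
    rw [e2, e3] at hP
    have h1 := trace_nonneg hP (hA x).1
    rw [Matrix.sub_mul, trace_sub, Matrix.smul_mul, trace_smul, sub_re, smul_eq_mul,
      re_ofReal_mul] at h1
    have h2 := he x
    have h3 := mul_le_mul_of_nonneg_left (hC x) hδ.le
    have h4 : u x ≤ δ * (C / lam) := by
      rw [← mul_div_assoc, le_div_iff₀ hl]; linarith
    have h5 := hx z
    have h6 := mul_nonneg hδ.le (bq_ge x).1
    linarith
  by_contra hp
  have hp' := not_le.1 hp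
  set K := bq z z + C / lam
  have h1 := key (u z / (2 * (|K| + 1))) (by positivity)
  have h2 : u z / (2 * (|K| + 1)) * K ≤ u z / (2 * (|K| + 1)) * (|K| + 1) :=
    mul_le_mul_of_nonneg_left (by linarith [le_abs_self K]) (by positivity)
  have h3 : u z / (2 * (|K| + 1)) * (|K| + 1) = u z / 2 := by field_simp
  linarith

theorem uniC {A : V ι → Mat ι} {L lam B : ℝ} {v : V ι → ℂ} (hl : 0 < lam)
    (hA : ∀ z, (A z).PosSemidef ∧ Bd L (A z)) (hv : ∀ z, ContDiffAt ℝ 2 v z)
    (hB : ∀ z, ‖v z‖ ≤ B) (he : ∀ z, (lam : ℂ) * v z = trace (levi v z * A z)) (z : V ι) :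
    (v z).re ≤ 0 ∧ (v z).im ≤ 0 := by
  have h1 : ∀ z, ContDiffAt ℝ 2 (fun w => (v w).re) z := fun z =>
    reCLM.contDiff.contDiffAt.comp z (hv z)
  have h2 : ∀ z, ContDiffAt ℝ 2 (fun w => (v w).im) z := fun z =>
    imCLM.contDiff.contDiffAt.comp z (hv z)
  have e : ∀ z, (lam : ℂ) * v z = trace (Lv (D2 (fun w => (v w).re) z) * A z) +
      I * trace (Lv (D2 (fun w => (v w).im) z) * A z) := fun z => by
    rw [he, levi_cplx (hv z), Matrix.add_mul, trace_add, Matrix.smul_mul, trace_smul, smul_eq_mul]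
  refine ⟨uniR hl hA h1 (fun z => (abs_re_le_norm _).trans (hB z)) (fun z => ?_) z,
    uniR hl hA h2 (fun z => (abs_im_le_norm _).trans (hB z)) (fun z => ?_) z⟩
  · have := congrArg re (e z)
    simp [trace_im (Lv_herm (D2_symm (h2 z))) (hA z).1.1] at this
    exact this.le
  · have := congrArg im (e z)
    simp [trace_im (Lv_herm (D2_symm (h1 z))) (hA z).1.1] at this
    exact this.le

theorem levi_neg {v : V ι → ℂ} {z : V ι} (hv : ContDiffAt ℝ 2 v z) :
    levi (fun w => -v w) z = -levi v z := by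
  ext i j
  have h := D2_comp (-ContinuousLinearMap.id ℝ ℂ) hv
  simp only [_root_.neg_apply, ContinuousLinearMap.id_apply] at h
  rw [levi_eq hv.neg, Matrix.neg_apply, levi_eq hv, h, h, h, h]
  ring

end

end Max

theorem maxS : MaxS where
  loc _ _ _ _ _ h hm := by
    rw [Max.levi_real h]
    exact Max.Lv_psd (Max.D2_symm h) (Max.D2_nonpos h hm)
  uni _ _ _ A L lam B v hl hA hv hB he z := by
    have h1 := Max.uniC hl hA hv hB he z
    have h2 := Max.uniC (v := fun w => -v w) hl hA (fun z => (hv z).neg)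
      (fun z => by rw [norm_neg]; exact hB z)
      (fun z => by rw [Max.levi_neg (hv z), Matrix.neg_mul, trace_neg, ← he, mul_neg]) z
    simp only [neg_re, neg_im, neg_nonpos] at h2
    exact Complex.ext (le_antisymm h1.1 h2.1) (le_antisymm h1.2 h2.2)

end Pool.Agent.Lib.MP_813db1_ag.HS
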