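import Pool.Agent.Lib.MP_813db1_ag.HS.Stmt2
import Pool.Agent.Lib.MP_813db1_ag.HS.Calc2

/-! Uniform bounds for the densities and the cut off functions. -/

namespace Pool.Agent.Lib.MP_813db1_ag.HS

open MeasureTheory Complex Matrix Filter Topology Set Metric
open scoped ContDiff ComplexOrder

namespace Den

set_option linter.unusedSectionVars false

variable {ι X : Type} [Fintype ι] [DecidableEq ι]

theorem psd_low (hm : MatS) {G R : Mat ι} {T : ℝ} (hG : G.PosDef) (hR : R.IsHermitian)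
    (hT : trm G (R * G⁻¹ * R) ≤ T) : ((((1 + T) / 2 : ℝ) : ℂ) • G + R).PosSemidef := by
  have u : IsUnit G.det := (isUnit_iff_isUnit_det G).1 hG.isUnit
  have h1 := hG.inv.posSemidef.conjTranspose_mul_mul_same R
  rw [hR.eq] at h1
  have h2 := hm.le_trm ι G _ hG h1
  have h3 := hG.inv.posSemidef.conjTranspose_mul_mul_same (G + R)
  rw [conjTranspose_add, hG.1.eq, hR.eq, Matrix.add_mul, Matrix.add_mul, mul_nonsing_inv _ u,
    Matrix.one_mul, Matrix.mul_add, nonsing_inv_mul_cancel_right _ _ u] at h3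
  have h4 := hG.posSemidef.smul (zero_le_real.2 (sub_nonneg.2 hT))
  have h5 := ((h2.add h3).add h4).smul (zero_le_real.2 (show (0 : ℝ) ≤ 1 / 2 by norm_num))
  convert h5 using 1
  ext i j
  simp only [Matrix.add_apply, Matrix.sub_apply, Matrix.smul_apply, smul_eq_mul]
  push_cast
  ring

theorem trm_hm {G : Mat ι} (hG : G.PosDef) (R D : Mat ι) (ε : ℝ) :
    trm G ((ε : ℂ) • G - R + D) = ε * Fintype.card ι - trm G R + trm G D := by
  have u : IsUnit G.det := (isUnit_iff_isUnit_det G).1 hG.isUnit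
  simp [trm, Matrix.add_mul, Matrix.sub_mul, mul_nonsing_inv _ u]

theorem grL_smul (H : Mat ι) (a b : V ι) (c : ℝ) :
    (grL H a ((c : ℂ) • b)).re = c * (grL H a b).re ∧
      (grL H ((c : ℂ) • a) b).re = c * (grL H a b).re := by
  constructor <;>
  · rw [← re_ofReal_mul]
    congr 1
    simp only [grL, Finset.mul_sum, Pi.smul_apply, smul_eq_mul, star_mul', star_def, conj_ofReal]
    exact Finset.sum_congr rfl fun i _ => Finset.sum_congr rfl fun j _ => by ring

theorem dbd : ∃ K : ℝ, 0 ≤ K ∧ ∀ t, deriv Real.smoothTransition t ≤ K := by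
  obtain ⟨C, hC⟩ := (isCompact_Icc (a := (0 : ℝ)) (b := 1)).exists_bound_of_continuousOn
    ((Real.smoothTransition.contDiff (n := 1)).continuous_deriv le_rfl).continuousOn
  refine ⟨|C|, abs_nonneg C, fun t => ?_⟩
  rcases lt_or_ge t 0 with h | h
  · have e : Real.smoothTransition =ᶠ[𝓝 t] fun _ => 0 :=
      (gt_mem_nhds h).mono fun s hs => Real.smoothTransition.zero_of_nonpos hs.le
    rw [e.deriv_eq, deriv_const]
    exact abs_nonneg C
  rcases lt_or_ge 1 t with h' | h'
  · have e : Real.smoothTransition =ᶠ[𝓝 t] fun _ => 1 :=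
      (lt_mem_nhds h').mono fun s hs => Real.smoothTransition.one_of_one_le hs.le
    rw [e.deriv_eq, deriv_const]
    exact abs_nonneg C
  exact (le_abs_self _).trans ((hC t ⟨h, h'⟩).trans (le_abs_self C))

variable [TopologicalSpace X] {M : Atl ι X}

theorem ck_le {k l : WithTop ℕ∞} {u : X → ℝ} (h : M.Ck k u) (hl : l ≤ k) : M.Ck l u :=
  fun e he z hz => (h e he z hz).of_le hl

theorem cont (ha : RepA' M) {u : X → ℝ} (h : M.Ck ∞ u) : Continuous u :=
  ha.cont u (ck_le h bot_le)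

theorem grad_comp (hb : RepB' M) (g : X → Mat ι) {u : X → ℝ} (hu : M.Ck ∞ u) {Φ : ℝ → ℝ}
    (hΦ : Differentiable ℝ Φ) (x : X) :
    M.grad g u (fun y => Φ (u y)) x = deriv Φ (u x) * M.grad g u u x ∧
      M.grad g (fun y => Φ (u y)) (fun y => Φ (u y)) x =
        deriv Φ (u x) * M.grad g u (fun y => Φ (u y)) x := by
  have e := hb.dfn_comp u Φ x (ck_le hu (by simp)) (hΦ _)
  refine ⟨?_, ?_⟩
  · rw [Atl.grad, e, (grL_smul _ _ _ _).1, Atl.grad]
  · rw [Atl.grad, Atl.grad, ← (grL_smul _ _ _ _).2, ← e]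

variable [T2Space X] [CompactSpace X] [MeasurableSpace X] [BorelSpace X] {μ : Measure X}

theorem intg [IsFiniteMeasure μ] {f : X → ℝ} (hf : Continuous f) : Integrable f μ :=
  hf.integrable_of_hasCompactSupport (HasCompactSupport.of_compactSpace f)

theorem green1 (ha : RepA' M) (hg : GreenS) {g : X → Mat ι} (hK : M.IsK g) (hV : M.IsVol g μ)
    {u v : X → ℝ} (hu : M.Ck ∞ u) (hv : M.Ck ∞ v) :
    Continuous (M.lap g u) ∧ Continuous (M.grad g u v) ∧
      ∫ x, (v x * M.lap g u x + M.grad g u v x) ∂μ = 0 := by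
  obtain ⟨h1, h2, h3⟩ := hg.real ι X M g g μ u v hK hK hV (ck_le hu (by norm_cast)) (ck_le hv (by simp))
  refine ⟨h1, h2, ?_⟩
  rw [← h3]
  refine integral_congr_ae (.of_forall fun x => ?_)
  have := (pos_iff.1 (((ha.isK_iff g).1 hK).2 x).det_pos).1
  simp only [rat, div_self this.ne', mul_one]

theorem expb [IsFiniteMeasure μ] {w : X → ℝ} {B s : ℝ} (hw : Continuous w)
    (hp : 0 < μ.real univ) (h1 : ∫ x, Real.exp (w x) ∂μ = 1) (hs : ∀ x, w x ≤ s)
    (hB : ∫ x, (s - w x) ∂μ ≤ B) :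
    Real.exp s ≤ Real.exp (B / μ.real univ) / μ.real univ ∧
      ∫ x, |w x| ∂μ ≤ (Real.exp (B / μ.real univ) / μ.real univ + μ.real univ) * μ.real univ + B := by
  set m := μ.real univ with hm
  set c := B / m with hc
  have i1 : Integrable (fun x => s - w x) μ := intg (by fun_prop)
  have i2 : Integrable (fun x => Real.exp (w x)) μ := intg (by fun_prop)
  have a1 : ∫ x, Real.exp (s - c) * (1 + c - (s - w x)) ∂μ ≤ 1 := by
    rw [← h1]
    refine integral_mono (intg (by fun_prop)) i2 fun x => ?_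
    have : Real.exp (w x) = Real.exp (s - c) * Real.exp (c - (s - w x)) := by
      rw [← Real.exp_add]
      congr 1
      ring
    simp only [this]
    exact mul_le_mul_of_nonneg_left (by linarith [Real.add_one_le_exp (c - (s - w x))])
      (Real.exp_pos _).le
  rw [integral_const_mul, integral_sub (integrable_const _) i1, integral_const, smul_eq_mul,
    ← hm] at a1
  have e : m * (1 + c) = m + B := by
    rw [hc]
    field_simp
  have a2 : Real.exp s ≤ Real.exp c / m := by
    rw [le_div_iff₀ hp, ← div_le_one (Real.exp_pos c), mul_div_right_comm, ← Real.exp_sub]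
    exact (mul_le_mul_of_nonneg_left (by linarith) (Real.exp_pos _).le).trans a1
  have a3 : 1 ≤ m * Real.exp s := by
    rw [← h1, ← smul_eq_mul, hm, ← integral_const]
    exact integral_mono i2 (integrable_const _) fun x => Real.exp_le_exp.2 (hs x)
  have a4 : Real.exp (-s) ≤ m := by
    rw [Real.exp_neg, inv_eq_one_div, div_le_iff₀ (Real.exp_pos s)]
    exact a3
  have a5 : |s| ≤ Real.exp c / m + m := by
    have := Real.add_one_le_exp s
    have := Real.add_one_le_exp (-s)
    have := Real.exp_pos s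
    rw [abs_le]
    constructor <;> linarith
  refine ⟨a2, ?_⟩
  calc ∫ x, |w x| ∂μ ≤ ∫ x, (|s| + (s - w x)) ∂μ := by
        refine integral_mono (intg (by fun_prop)) ((integrable_const _).add i1) fun x => ?_
        have := hs x
        have := le_abs_self s
        have := neg_abs_le s
        simp only [abs_le]
        constructor <;> linarith
    _ = m * |s| + ∫ x, (s - w x) ∂μ := by
        rw [integral_add (integrable_const _) i1, integral_const, smul_eq_mul]
    _ ≤ _ := by nlinarith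

theorem wle [IsFiniteMeasure μ] {χ d q : X → ℝ} {E : ℝ} (hχ : Continuous χ) (hd : Continuous d)
    (hq : Continuous q) (h0 : ∀ x, 0 ≤ χ x) (h1 : ∀ x, χ x ≤ E * d x) (hq0 : ∀ x, 0 ≤ q x) :
    0 ≤ ∫ x, χ x * q x ∂μ ∧ ∫ x, χ x * q x ∂μ ≤ E * ∫ x, q x * d x ∂μ := by
  refine ⟨integral_nonneg fun x => mul_nonneg (h0 x) (hq0 x), ?_⟩
  rw [← integral_const_mul]
  refine integral_mono (intg (by fun_prop)) (intg (by fun_prop)) fun x => ?_
  have := mul_le_mul_of_nonneg_right (h1 x) (hq0 x)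
  simp only
  linarith

theorem step [IsFiniteMeasure μ] (ha : RepA' M) (hb : RepB' M) (hg : GreenS) {g : X → Mat ι}
    (hK : M.IsK g) (hV : M.IsVol g μ) {K A B c : ℝ} (hK0 : 0 ≤ K)
    (hKd : ∀ t, deriv Real.smoothTransition t ≤ K) (hA : 0 < A) (hB : 0 ≤ B) {u : X → ℝ}
    (hu : M.Ck ∞ u) (h1 : ∫ x, |u x - c| ∂μ ≤ B) (h2 : ∀ x, -B ≤ M.lap g u x) :
    ∃ χ : X → ℝ, M.Ck ∞ χ ∧
      (∀ x, (0 ≤ χ x ∧ χ x ≤ 1) ∧ χ x ≤ Real.exp (2 * A) * Real.exp (u x - c)) ∧
      ∫ x, (1 - χ x) ∂μ ≤ B * (1 / A) ∧ 0 ≤ ∫ x, M.grad g χ χ x ∂μ ∧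
      ∫ x, M.grad g χ χ x ∂μ ≤ K * (B * μ.real univ) * (1 / A) := by
  have pd := ((ha.isK_iff g).1 hK).2
  let Φ : ℝ → ℝ := fun t => Real.smoothTransition ((t - c) / A + 2)
  have hΦ : ContDiff ℝ ∞ Φ := Real.smoothTransition.contDiff.comp (by fun_prop)
  have hd : ∀ t, 0 ≤ deriv Φ t ∧ deriv Φ t ≤ K * (1 / A) := fun t => by
    have e : HasDerivAt Φ (deriv Real.smoothTransition ((t - c) / A + 2) * (1 / A)) t :=
      ((Real.smoothTransition.contDiff (n := 1)).differentiable one_ne_zero _).hasDerivAt.comp t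
        ((((hasDerivAt_id t).sub_const c).div_const A).add_const 2)
    rw [e.deriv]
    exact ⟨mul_nonneg Real.smoothTransition.monotone.deriv_nonneg (by positivity),
      mul_le_mul_of_nonneg_right (hKd _) (by positivity)⟩
  have hχ : M.Ck ∞ fun x => Φ (u x) := hb.ck_comp ⊤ u Φ hu fun _ => hΦ.contDiffAt
  have cu := cont ha hu
  have cχ := cont ha hχ
  have b0 : ∀ x, 0 ≤ Φ (u x) := fun x => Real.smoothTransition.nonneg _
  have b1 : ∀ x, Φ (u x) ≤ 1 := fun x => Real.smoothTransition.le_one _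
  have gc := grad_comp hb g hu (hΦ.differentiable (by simp))
  obtain ⟨c1, c2, i0⟩ := green1 ha hg hK hV hu hχ
  refine ⟨fun x => Φ (u x), hχ, fun x => ⟨⟨b0 x, b1 x⟩, ?_⟩, ?_,
    integral_nonneg fun x => hb.grad_nonneg g _ x (pd x), ?_⟩
  · rcases le_or_gt ((u x - c) / A + 2) 0 with h | h
    · exact (Real.smoothTransition.zero_of_nonpos h).trans_le (by positivity)
    · rw [← Real.exp_add]
      refine (b1 x).trans (Real.one_le_exp ?_)
      have : -2 < (u x - c) / A := by linarith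
      rw [lt_div_iff₀ hA] at this
      linarith
  · refine le_trans ?_ (mul_le_mul_of_nonneg_right h1 (by positivity))
    rw [← integral_mul_const]
    refine integral_mono (intg (by fun_prop)) (intg (by fun_prop)) fun x => ?_
    simp only
    rcases le_or_gt 1 ((u x - c) / A + 2) with h | h
    · rw [show Φ (u x) = 1 from Real.smoothTransition.one_of_one_le h, sub_self]
      positivity
    · have h' : (u x - c) / A < -1 := by linarith
      rw [div_lt_iff₀ hA] at h'
      rw [mul_one_div, le_div_iff₀ hA]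
      have := neg_le_abs (u x - c)
      nlinarith [b0 x]
  · rw [integral_add (intg (by fun_prop)) (intg c2)] at i0
    have a1 : ∫ _ : X, -B ∂μ ≤ ∫ x, Φ (u x) * M.lap g u x ∂μ := by
      refine integral_mono (integrable_const _) (intg (by fun_prop)) fun x => ?_
      have := mul_le_mul_of_nonneg_left (h2 x) (b0 x)
      have := mul_le_mul_of_nonneg_left (b1 x) hB
      simp only
      linarith
    rw [integral_const, smul_eq_mul] at a1
    calc ∫ x, M.grad g (fun x => Φ (u x)) (fun x => Φ (u x)) x ∂μ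
        ≤ ∫ x, K * (1 / A) * M.grad g u (fun x => Φ (u x)) x ∂μ := by
          refine integral_mono (intg (green1 ha hg hK hV hχ hχ).2.1) (intg (by fun_prop))
            fun x => ?_
          simp only [(gc x).2]
          refine mul_le_mul_of_nonneg_right (hd _).2 ?_
          rw [(gc x).1]
          exact mul_nonneg (hd _).1 (hb.grad_nonneg g u x (pd x))
      _ ≤ K * (1 / A) * (B * μ.real univ) := by
          rw [integral_const_mul]
          exact mul_le_mul_of_nonneg_left (by linarith) (by positivity)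
      _ = _ := by ring

theorem den_eq {g : X → Mat ι} {ε : ℝ} (h : 0 < M.vol μ g ε) (u : X → ℝ) (x : X) :
    M.den μ g ε u x = Real.exp (u x - Real.log (M.vol μ g ε)) := by
  rw [Real.exp_sub, Real.exp_log h, Atl.den]

end Den

open Den

theorem den (ha : RepA) (hb : RepB) (hv : VolS) (hw : WeightS) (hg : GreenS) (hm : MatS) :
    DenS := by
  intro ι X _ _ _ _ _ _ _ _ M g μ u m hK hV F
  have ha := ha ι X M
  have hb := hb ι X M
  have hv := (hv ι X M g hK).2 μ hV
  have := hv.fin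
  have := hv.pos
  have pd := ((ha.isK_iff g).1 hK).2
  have hR := hb.ric_cl g hK
  have hp : 0 < μ.real univ :=
    ENNReal.toReal_pos (isOpen_univ.measure_ne_zero μ univ_nonempty) (measure_ne_top μ _)
  have sm : M.SmF fun x => M.ricF g x * (g x)⁻¹ * M.ricF g x := fun e he z hz i j => by
    refine ((((hR e he).1.mul ((hK e he).1.1.inv fun w hw => ((hK e he).2 w hw).det_pos.ne')).mul
      (hR e he).1) z hz i j).congr_of_eventuallyEq ?_
    filter_upwards [e.open_target.mem_nhds hz] with w hw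
    rw [ha.repF_mul _ _ _ e he w hw]
  have cR := cont ha (ha.ck_trm g _ hK fun e he => (hR e he).1)
  obtain ⟨T, hT⟩ := isCompact_univ.exists_bound_of_continuousOn
    (cont ha (ha.ck_trm g _ hK sm)).continuousOn
  obtain ⟨S, hS⟩ := isCompact_univ.exists_bound_of_continuousOn cR.continuousOn
  obtain ⟨B, hB⟩ := hw ι X M g μ ((1 + T) / 2 + 1) hK hV
  set n : ℝ := (Fintype.card ι : ℝ) with hn
  have n0 : 0 ≤ n := Nat.cast_nonneg _
  set B1 := Real.exp (B / μ.real univ) / μ.real univ with hB1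
  set B2 := (B1 + μ.real univ) * μ.real univ + B with hB2
  refine ⟨|B1| + |B2| + |(n + S) * μ.real univ| + |n + S|, by positivity, fun ε hε => ?_⟩
  obtain ⟨hu, hH, -⟩ := F.sol ε hε
  have pH := ((ha.isK_iff _).1 hH).2
  have cu := cont ha hu
  obtain ⟨x0, -, hx0⟩ := isCompact_univ.exists_isMaxOn univ_nonempty cu.continuousOn
  have hx : ∀ x, u ε x ≤ u ε x0 := fun x => hx0 (mem_univ x)
  have k1 := hB (u ε) hu (fun x => by
    have := ((pH x).posSemidef.add ((pd x).posSemidef.smul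
      (zero_le_real.2 (sub_nonneg.2 hε.2)))).add
      (psd_low hm (pd x) (ha.herm _ hR x) ((le_abs_self _).trans (hT x (mem_univ x))))
    convert this using 1
    ext i j
    simp only [Atl.hm, Matrix.add_apply, Matrix.sub_apply, Matrix.smul_apply, smul_eq_mul]
    push_cast
    ring) x0 hx
  have de := den_eq (F.vpos ε hε) (u ε)
  obtain ⟨k2, k3⟩ := expb (μ := μ) (w := fun x => u ε x - Real.log (M.vol μ g ε)) (B := B)
    (s := u ε x0 - Real.log (M.vol μ g ε)) (by fun_prop) hp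
    (by simpa only [de] using F.one ε hε) (fun x => by linarith [hx x])
    (by simpa only [sub_sub_sub_cancel_right] using k1)
  have tr : ∀ x, trm (g x) (M.hm g ε (u ε) x) =
      ε * n - trm (g x) (M.ricF g x) + M.lap g (u ε) x := fun x => trm_hm (pd x) _ _ ε
  have hS' : ∀ x, |trm (g x) (M.ricF g x)| ≤ S := fun x => hS x (mem_univ x)
  have en : ε * n ≤ n := mul_le_of_le_one_left n0 hε.2
  obtain ⟨c1, -, i0⟩ := green1 ha hg hK hV hu (v := fun _ => 1) fun e he z hz => contDiffAt_const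
  have i1 : ∫ x, M.lap g (u ε) x ∂μ = 0 := by
    rw [← i0]
    refine integral_congr_ae (.of_forall fun x => ?_)
    have := (grad_comp hb g hu (differentiable_const (1 : ℝ)) x).1
    simp only [this, deriv_const', zero_mul, one_mul, add_zero]
  have p1 := abs_nonneg B1
  have p2 := abs_nonneg B2
  have p3 := abs_nonneg ((n + S) * μ.real univ)
  have p4 := abs_nonneg (n + S)
  refine ⟨fun x => ?_, ?_, ?_, fun x => ?_⟩
  · have : M.den μ g ε (u ε) x ≤ B1 := by
      rw [de]
      exact (Real.exp_le_exp.2 (by linarith [hx x])).trans k2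
    linarith [le_abs_self B1]
  · simp only [de, Real.log_exp]
    linarith [le_abs_self B2]
  · have : ∫ x, trm (g x) (M.hm g ε (u ε) x) ∂μ ≤ ∫ x, (n + S + M.lap g (u ε) x) ∂μ := by
      simp only [tr]
      refine integral_mono (intg (by fun_prop)) (intg (by fun_prop)) fun x => ?_
      have := (abs_le.1 (hS' x)).1
      simp only
      linarith
    rw [integral_add (integrable_const _) (intg c1), i1, integral_const, smul_eq_mul,
      mul_comm] at this
    linarith [le_abs_self ((n + S) * μ.real univ)]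
  · have := hm.trm_nonneg ι _ _ (pd x) (pH x).posSemidef
    rw [tr] at this
    linarith [le_abs_self (n + S), (abs_le.1 (hS' x)).1]

theorem cut (ha : RepA) (hb : RepB) (hc : RepC) (hv : VolS) (hg : GreenS) (hd : DenS) :
    CutS := by
  intro ι X _ _ _ _ _ _ _ _ M g μ u m hK hV hN F
  have ha := ha ι X M
  have hb := hb ι X M
  have hc := hc ι X M
  have := ((hv ι X M g hK).2 μ hV).fin
  obtain ⟨B, hB, hD⟩ := hd ι X M g μ u m hK hV F
  obtain ⟨K, hK0, hKd⟩ := dbd
  have key : ∀ j : ℕ, ∃ ε ∈ Ioc (0 : ℝ) 1, ∃ χ : X → ℝ, ε ≤ 1 / ((j : ℝ) + 1) ∧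
      (M.Ck ∞ χ ∧ ∀ x, 0 ≤ χ x ∧ χ x ≤ 1) ∧ ∫ x, (1 - χ x) ∂μ ≤ B * (1 / ((j : ℝ) + 1)) ∧
      (0 ≤ ∫ x, M.grad g χ χ x ∂μ ∧
        ∫ x, M.grad g χ χ x ∂μ ≤ K * (B * μ.real univ) * (1 / ((j : ℝ) + 1))) ∧
      (0 ≤ ∫ x, χ x * (ε * M.clX g (M.hm g ε (u ε)) x) ∂μ ∧
        ∫ x, χ x * (ε * M.clX g (M.hm g ε (u ε)) x) ∂μ ≤ 1 / ((j : ℝ) + 1)) ∧
      (0 ≤ -∫ x, χ x * (ε * M.rqX g x (M.hm g ε (u ε) x)⁻¹) ∂μ ∧
        -∫ x, χ x * (ε * M.rqX g x (M.hm g ε (u ε) x)⁻¹) ∂μ ≤ 1 / ((j : ℝ) + 1)) := by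
    intro j
    set A : ℝ := (j : ℝ) + 1 with hA
    have A0 : 0 < A := by positivity
    set E := Real.exp (2 * A) with hE
    have E0 : 0 < E := Real.exp_pos _
    have δ0 : 0 < 1 / A / E := by positivity
    obtain ⟨ε, ⟨⟨hε, h1⟩, h2⟩, h3⟩ := ((((eventually_mem_set.2 (Ioc_mem_nhdsGT (zero_lt_one' ℝ))).and
      (eventually_mem_set.2 (Ioc_mem_nhdsGT (one_div_pos.2 A0)))).and
      (F.cl.eventually (gt_mem_nhds δ0))).and
      (F.rq.eventually (lt_mem_nhds (neg_lt_zero.2 δ0)))).exists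
    obtain ⟨hu, hH, -⟩ := F.sol ε hε
    have de := den_eq (F.vpos ε hε) (u ε)
    obtain ⟨-, d2, -, d4⟩ := hD ε hε
    simp only [de, Real.log_exp] at d2 h2 h3
    obtain ⟨χ, k1, k2, k3, k4, k5⟩ := step ha hb hg hK hV hK0 hKd A0 hB hu d2 d4
    have cu := cont ha hu
    have cχ := cont ha k1
    have c1 := cont ha (hc.ck g _ hK hH).1
    have c2 := cont ha (hc.ck g _ hK hH).2
    have cd : Continuous fun x => Real.exp (u ε x - Real.log (M.vol μ g ε)) := by fun_prop
    obtain ⟨w1, w2⟩ := wle (μ := μ) cχ cd (q := fun x => ε * M.clX g (M.hm g ε (u ε)) x)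
      (by fun_prop) (fun x => (k2 x).1.1) (fun x => (k2 x).2)
      fun x => mul_nonneg hε.1.le (hc.cl g _ hK hH x).2
    obtain ⟨w3, w4⟩ := wle (μ := μ) cχ cd (q := fun x => -(ε * M.rqX g x (M.hm g ε (u ε) x)⁻¹))
      (by fun_prop) (fun x => (k2 x).1.1) (fun x => (k2 x).2)
      fun x => neg_nonneg.2 (mul_nonpos_of_nonneg_of_nonpos hε.1.le
        (hc.rq_nonpos g hK hN x _ (((ha.isK_iff _).1 hH).2 x).inv.posSemidef))
    simp only [mul_neg, neg_mul, integral_neg] at w3 w4
    have e : E * (1 / A / E) = 1 / A := by field_simp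
    refine ⟨ε, hε, χ, h1.2, ⟨k1, fun x => (k2 x).1⟩, k3, ⟨k4, k5⟩, ⟨w1, w2.trans ?_⟩, w3,
      w4.trans ?_⟩
    · rw [← e]
      exact mul_le_mul_of_nonneg_left h2.le E0.le
    · rw [← e, ← mul_neg]
      exact mul_le_mul_of_nonneg_left (neg_le.1 h3.le) E0.le
  choose ε hε χ k1 k2 k3 k4 k5 k6 using key
  have t := tendsto_one_div_add_atTop_nhds_zero_nat (𝕜 := ℝ)
  refine ⟨ε, χ, hε, squeeze_zero (fun j => (hε j).1.le) k1 t, k2,
    squeeze_zero (fun j => integral_nonneg fun x => sub_nonneg.2 ((k2 j).2 x).2) k3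
      (by simpa only [mul_zero] using t.const_mul B),
    squeeze_zero (fun j => (k4 j).1) (fun j => (k4 j).2)
      (by simpa only [mul_zero] using t.const_mul (K * (B * μ.real univ))),
    squeeze_zero (fun j => (k5 j).1) (fun j => (k5 j).2) t, ?_⟩
  simpa only [neg_neg, neg_zero] using
    (squeeze_zero (fun j => (k6 j).1) (fun j => (k6 j).2) t).neg

end Pool.Agent.Lib.MP_813db1_ag.HS
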