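import Pool.Agent.Lib.MP_813db1_ag.HS.StmtAY
import Pool.Agent.Lib.MP_813db1_ag.HS.Den

/-! The continuity method: existence of the twisted Kaehler-Einstein metrics. -/

namespace Pool.Agent.Lib.MP_813db1_ag.HS

open MeasureTheory Complex Matrix Filter Topology Set Metric
open scoped ContDiff ComplexOrder

theorem Nef.low {ι X : Type} [Fintype ι] [DecidableEq ι] [TopologicalSpace X] [CompactSpace X]
    {M : Atl ι X} (hA : RepA' M) (hm : MatS) {g R : X → Mat ι} (hK : M.IsK g) (hR : M.ClF R) :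
    ∃ c : ℝ, 0 ≤ c ∧ ∀ x, ((c : ℂ) • g x + R x).PosSemidef := by
  have sm : M.SmF fun x => R x * (g x)⁻¹ * R x := fun e he z hz i j => by
    refine ((((hR e he).1.mul ((hK e he).1.1.inv fun w hw => ((hK e he).2 w hw).det_pos.ne')).mul
      (hR e he).1) z hz i j).congr_of_eventuallyEq ?_
    filter_upwards [e.open_target.mem_nhds hz] with w hw
    rw [hA.repF_mul _ _ _ e he w hw]
  obtain ⟨T, hT⟩ := isCompact_univ.exists_bound_of_continuousOn
    (Den.cont hA (hA.ck_trm g _ hK sm)).continuousOn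
  exact ⟨(1 + |T|) / 2, by positivity, fun x => Den.psd_low hm (((hA.isK_iff g).1 hK).2 x)
    (hA.herm _ hR x) (((le_abs_self _).trans (hT x (mem_univ x))).trans (le_abs_self T))⟩

theorem nef (hA : RepA) (hB : RepB) (hm : MatS) (hc : CovS) (ha : AprS) (ho : OpenS) : NefS := by
  intro ι X _ _ _ _ _ _ _ M g hK hN ε hε
  have hA := hA ι X M
  have hB := hB ι X M
  obtain ⟨cg, pd⟩ := (hA.isK_iff g).1 hK
  have hR := hB.ric_cl g hK
  obtain ⟨C, -⟩ := hc ι X M (fun _ => True) fun x => by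
    obtain ⟨e, he, h⟩ := hA.center x
    exact ⟨e, he, trivial, h⟩
  obtain ⟨c, c0, hc⟩ := Nef.low hA hm hK hR
  have c1 : 0 < c + 1 := by linarith
  let α : X → Mat ι := fun x => ((c + 1 : ℝ) : ℂ) • g x
  let γ : X → Mat ι := fun x => ((ε - (c + 1) : ℝ) : ℂ) • g x + ((-1 : ℝ) : ℂ) • M.ricF g x
  have hα : M.ClF α := hA.clF_smul _ g cg
  have hγ : M.ClF γ := hA.clF_add _ _ (hA.clF_smul _ g cg) (hA.clF_smul _ _ hR)
  obtain ⟨L, hL⟩ := ha ι X M C g α γ ε hK hN hα hγ hε.1 fun s hs x => by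
    have := ((hc x).add ((pd x).posSemidef.smul (zero_le_real.2 (sub_nonneg.2 hε.2)))).smul
      (zero_le_real.2 (sub_nonneg.2 hs.2))
    convert this using 1
    ext i j
    simp only [α, γ, Matrix.add_apply, Matrix.sub_apply, Matrix.smul_apply, smul_eq_mul]
    push_cast
    ring
  obtain ⟨δ, δ0, hδ⟩ := ho ι X M C g γ L hK hγ
  have key : ∀ k : ℕ, ∀ s ∈ Icc (0 : ℝ) 1, s ≤ k * δ →
      ∃ u, M.GSol g (fun x => α x + (s : ℂ) • γ x) u := by
    intro k
    induction k with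
    | zero =>
      intro s hs h0
      obtain rfl : s = 0 := le_antisymm (by simpa using h0) hs.1
      refine ⟨fun _ => Fintype.card ι * Real.log (c + 1), fun e he z hz => contDiffAt_const, ?_⟩
      simp only [hB.ddc_const, ofReal_zero, zero_smul, add_zero]
      refine ⟨(hA.isK_iff α).2 ⟨hα, fun x => (pd x).smul (zero_lt_real.2 c1)⟩, fun x => ?_⟩
      rw [Real.exp_nat_mul, Real.exp_log c1, rat, det_smul, ← ofReal_pow, re_ofReal_mul,
        mul_div_assoc, div_self (pos_iff.1 (pd x).det_pos).1.ne', mul_one]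
    | succ k ih =>
      intro s hs h1
      have m : max 0 (s - δ) ∈ Icc (0 : ℝ) 1 :=
        ⟨le_max_left _ _, max_le zero_le_one (by linarith [hs.2])⟩
      push_cast at h1
      obtain ⟨u, hu⟩ := ih _ m (max_le (by positivity) (by linarith))
      obtain ⟨u', hu'⟩ := hδ _ u (hA.clF_add _ _ hα (hA.clF_smul _ _ hγ)) hu (hL _ m u hu)
        (s - max 0 (s - δ)) (abs_le.2 ⟨by linarith [max_le hs.1 (sub_le_self s δ0.le)],
          by linarith [le_max_right 0 (s - δ)]⟩)
      refine ⟨u', ?_⟩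
      convert hu' using 2 with x
      rw [add_assoc, ← add_smul, ← ofReal_add, add_sub_cancel]
  obtain ⟨k, hk⟩ := exists_nat_ge (1 / δ)
  obtain ⟨u, hu⟩ := key k 1 ⟨zero_le_one, le_rfl⟩ ((div_le_iff₀ δ0).1 hk)
  have e : (fun x => α x + ((1 : ℝ) : ℂ) • γ x + M.ddc u x) = M.hm g ε u := by
    ext x i j
    simp only [α, γ, Atl.hm, Matrix.add_apply, Matrix.sub_apply, Matrix.smul_apply, smul_eq_mul]
    push_cast
    ring
  exact ⟨u, hu.1, e ▸ hu.2.1, e ▸ hu.2.2⟩

end Pool.Agent.Lib.MP_813db1_ag.HS
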