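import Pool.Agent.Lib.MP_813db1_ag.HS.Stmt

/-! The nonlinear remainder of `log det` is a contraction in the Hoelder norm. -/

namespace Pool.Agent.Lib.MP_813db1_ag.HS

open MeasureTheory Complex Matrix Filter Topology Set Metric
open scoped ContDiff ComplexOrder

namespace Nl

lemma dd {E : Type} [NormedAddCommGroup E] [NormedSpace ℝ E] {Φ : E → ℝ}
    (h : ContDiffAt ℝ 2 Φ 0) (h0 : fderiv ℝ Φ 0 = 0) : ∃ δ > 0, ∃ K ≥ 0, ∀ ρ ≤ δ,
    ∀ (m : ℝ) (X X' Y Y' : E), ‖X‖ ≤ ρ → ‖X'‖ ≤ ρ → ‖Y‖ ≤ ρ → ‖Y'‖ ≤ ρ → ‖X - Y‖ ≤ m →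
    ‖X' - Y'‖ ≤ m → ‖Φ X - Φ X' - (Φ Y - Φ Y')‖ ≤
      K * m * ‖X - X'‖ + K * ρ * ‖X - X' - (Y - Y')‖ := by
  obtain ⟨K, t, ht, hK⟩ := (h.fderiv_right (m := 1) (by norm_num)).exists_lipschitzOnWith
  obtain ⟨δ, hδ, hs⟩ := Metric.nhds_basis_closedBall.mem_iff.1
    (inter_mem ht (h.eventually (by simp)))
  refine ⟨δ, hδ, K, K.2, fun ρ hρ m X X' Y Y' hX hX' hY hY' h1 h2 => ?_⟩
  have cv : ∀ {a : ℝ} {P Q : E} {s : ℝ}, ‖P‖ ≤ a → ‖Q‖ ≤ a → s ∈ Icc (0 : ℝ) 1 →
      ‖P + s • (Q - P)‖ ≤ a := fun a b c => mem_closedBall_zero_iff.1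
    ((convex_closedBall 0 _).add_smul_sub_mem (mem_closedBall_zero_iff.2 a)
      (mem_closedBall_zero_iff.2 b) c)
  have mem : ∀ {P : E}, ‖P‖ ≤ ρ → P ∈ t ∧ ContDiffAt ℝ 2 Φ P := fun a =>
    hs (mem_closedBall_zero_iff.2 (a.trans hρ))
  have lip : ∀ {P Q : E}, ‖P‖ ≤ ρ → ‖Q‖ ≤ ρ → ‖fderiv ℝ Φ P - fderiv ℝ Φ Q‖ ≤ K * ‖P - Q‖ :=
    fun a b => hK.norm_sub_le (mem a).1 (mem b).1
  have der : ∀ {P Q : E} {s : ℝ}, ‖P‖ ≤ ρ → ‖Q‖ ≤ ρ → s ∈ Icc (0 : ℝ) 1 →
      HasDerivAt (fun s : ℝ => Φ (P + s • (Q - P))) (fderiv ℝ Φ (P + s • (Q - P)) (Q - P)) s :=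
    fun {P Q s} a b c => by
      have := ((hasDerivAt_id s).smul_const (Q - P)).const_add P
      rw [one_smul] at this
      exact ((mem (cv a b c)).2.differentiableAt (by simp)).hasFDerivAt.comp_hasDerivAt s this
  have key := norm_image_sub_le_of_norm_deriv_le_segment_01'
    (f := fun s : ℝ => Φ (X' + s • (X - X')) - Φ (Y' + s • (Y - Y')))
    (C := K * m * ‖X - X'‖ + K * ρ * ‖X - X' - (Y - Y')‖)
    (fun s c => ((der hX' hX c).sub (der hY' hY c)).hasDerivWithinAt) fun s c => by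
      have c' := Ico_subset_Icc_self c
      have a1 := lip (cv hX' hX c') (cv hY' hY c')
      have a2 := lip (cv hY' hY c') (show ‖(0 : E)‖ ≤ ρ from norm_zero.le.trans
        ((norm_nonneg _).trans hX))
      have a3 := cv h2 h1 c'
      rw [show X' - Y' + s • (X - Y - (X' - Y')) = X' + s • (X - X') - (Y' + s • (Y - Y')) by
        module] at a3
      rw [h0, sub_zero, sub_zero] at a2
      generalize fderiv ℝ Φ (X' + s • (X - X')) = A at *
      generalize fderiv ℝ Φ (Y' + s • (Y - Y')) = B at *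
      rw [show A (X - X') - B (Y - Y') = (A - B) (X - X') + B (X - X' - (Y - Y')) by
        simp only [ContinuousLinearMap.sub_apply, map_sub]; ring]
      refine (norm_add_le _ _).trans (add_le_add ((A - B).le_of_opNorm_le ?_ _)
        (B.le_of_opNorm_le ?_ _))
      · exact a1.trans (mul_le_mul_of_nonneg_left a3 K.2)
      · exact a2.trans (mul_le_mul_of_nonneg_left (cv hY' hY c') K.2)
  simp only [one_smul, zero_smul, add_zero, add_sub_cancel] at key
  rwa [sub_sub_sub_comm] at key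

variable {ι : Type} [Fintype ι] [DecidableEq ι]

/-- the remainder at the identity. -/
noncomputable def phi (X : ι → ι → ℂ) : ℝ :=
  Real.log (1 + Matrix.of X).det.re - (trace (Matrix.of X)).re

lemma phi_smooth : ContDiffAt ℝ 2 (phi (ι := ι)) 0 := by
  have h1 : ContDiff ℝ 2 fun X : ι → ι → ℂ => (1 + Matrix.of X).det := by
    simp only [det_apply', Matrix.add_apply, Matrix.of_apply]
    fun_prop
  have h2 : ContDiff ℝ 2 fun X : ι → ι → ℂ => trace (Matrix.of X) := by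
    simp only [trace, diag, Matrix.of_apply]
    fun_prop
  refine ContDiffAt.sub (ContDiffAt.log (reCLM.contDiff.comp h1).contDiffAt ?_)
    (reCLM.contDiff.comp h2).contDiffAt
  simp [show Matrix.of (0 : ι → ι → ℂ) = 0 from rfl]

lemma phi_zero : fderiv ℝ (phi (ι := ι)) 0 = 0 := by
  ext1 X
  have h1 : HasDerivAt (fun s : ℝ => phi (0 + s • X)) (fderiv ℝ phi (0 + (0 : ℝ) • X) X) 0 := by
    have := ((hasDerivAt_id (0 : ℝ)).smul_const X).const_add 0
    rw [one_smul] at this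
    have d : DifferentiableAt ℝ phi (0 + (0 : ℝ) • X) := by
      simpa using (phi_smooth (ι := ι)).differentiableAt (by simp)
    exact d.hasFDerivAt.comp_hasDerivAt (0 : ℝ) this
  obtain ⟨q, hq⟩ : ∃ q : Polynomial ℂ, ∀ r : ℂ, det (1 + r • Matrix.of X) =
      1 + trace (Matrix.of X) * r + q.eval r * r ^ 2 := ⟨_, fun r => det_one_add_smul r _⟩
  have h2 : HasDerivAt (fun r : ℂ => 1 + trace (Matrix.of X) * r + q.eval r * r ^ 2)
      (trace (Matrix.of X)) ((0 : ℝ) : ℂ) := by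
    have := (((hasDerivAt_id (0 : ℂ)).const_mul (trace (Matrix.of X))).const_add 1).add
      ((q.hasDerivAt 0).mul (hasDerivAt_pow 2 (0 : ℂ)))
    exact this.congr_deriv (by simp)
  have h3 := (h2.real_of_complex.log (by simp)).sub
    ((hasDerivAt_id (0 : ℝ)).mul_const (trace (Matrix.of X)).re)
  have h4 : (fun s : ℝ => phi (0 + s • X)) = fun s : ℝ =>
      Real.log (1 + trace (Matrix.of X) * s + q.eval (s : ℂ) * (s : ℂ) ^ 2).re -
        s * (trace (Matrix.of X)).re := by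
    funext s
    have : Matrix.of (0 + s • X) = (s : ℂ) • Matrix.of X := by
      ext i j
      simp
    rw [phi, this, hq, trace_smul, smul_eq_mul, re_ofReal_mul]
  rw [h4, zero_smul, add_zero] at h1
  rw [h1.unique h3]
  simp

lemma nl_eq (hm : MatS) {H B : Mat ι} (h : H.PosDef) (h' : (H + B).PosDef) :
    nl H B = phi (B * H⁻¹) := by
  obtain ⟨a, b⟩ := hm.det ι H h
  have e : H + B = (1 + B * H⁻¹) * H := by
    rw [add_mul, one_mul, Matrix.nonsing_inv_mul_cancel_right _ _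
      ((Matrix.isUnit_iff_isUnit_det _).1 h.isUnit)]
  have e' : (H + B).det.re = (1 + B * H⁻¹).det.re * H.det.re := by
    rw [e, det_mul, b, re_mul_ofReal, ofReal_re]
  have c := (hm.det ι _ h').1
  rw [e'] at c
  rw [nl, e', Real.log_mul (left_ne_zero_of_mul c.ne') a.ne', add_sub_cancel_right]
  rfl

omit [DecidableEq ι] in
lemma mono {a b : ℝ} {A : V ι → Mat ι} {U : Set (V ι)} (h : HolM a A U) (e : a ≤ b) :
    HolM b A U := fun i j => ⟨fun z hz => ((h i j).1 z hz).trans e, fun z hz w hw =>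
  ((h i j).2 z hz w hw).trans (mul_le_mul_of_nonneg_right e (Real.sqrt_nonneg _))⟩

omit [DecidableEq ι] in
lemma mul {a b : ℝ} {A B : V ι → Mat ι} {U : Set (V ι)} (ha : 0 ≤ a) (hb : 0 ≤ b)
    (h : HolM a A U) (h' : HolM b B U) :
    Hol (W := ι → ι → ℂ) (2 * Fintype.card ι * b * a) (fun z => A z * B z) U := by
  have sm : ∀ (f : ι → ℂ) (c : ℝ), (∀ k, ‖f k‖ ≤ c) → ‖∑ k, f k‖ ≤ Fintype.card ι * c :=
    fun f c e => (norm_sum_le _ _).trans (by
      simpa using Finset.sum_le_card_nsmul Finset.univ _ c fun k _ => e k)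
  have pi : ∀ (X : ι → ι → ℂ) (c : ℝ), 0 ≤ c → (∀ i j, ‖X i j‖ ≤ c) → ‖X‖ ≤ c := fun X c hc e =>
    (pi_norm_le_iff_of_nonneg hc).2 fun i => (pi_norm_le_iff_of_nonneg hc).2 (e i)
  refine ⟨fun z hz => pi _ _ (by positivity) fun i j => ?_,
    fun z hz w hw => pi _ _ (by positivity) fun i j => ?_⟩
  · refine (sm _ (a * b) fun k => ?_).trans ?_
    · exact norm_mul_le_of_le ((h i k).1 z hz) ((h' k j).1 z hz)
    · have : 0 ≤ (Fintype.card ι : ℝ) * (a * b) := by positivity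
      linarith
  · show ‖∑ k, A z i k * B z k j - ∑ k, A w i k * B w k j‖ ≤ _
    rw [← Finset.sum_sub_distrib]
    refine (sm _ (a * √‖z - w‖ * b + a * (b * √‖z - w‖)) fun k => ?_).trans (le_of_eq (by ring))
    rw [show A z i k * B z k j - A w i k * B w k j =
      (A z i k - A w i k) * B z k j + A w i k * (B z k j - B w k j) by ring]
    exact norm_add_le_of_le (norm_mul_le_of_le ((h i k).2 z hz w hw) ((h' k j).1 z hz))
      (norm_mul_le_of_le ((h i k).1 w hw) ((h' k j).2 z hz w hw))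

lemma pd (hm : MatS) (L : ℝ) : ∃ r > 0, ∀ H B : Mat ι, H.PosDef → B.IsHermitian → Bd L H →
    Bd L H⁻¹ → Bd r B → (H + B).PosDef := by
  obtain ⟨c, hc, h⟩ := hm.nv ι L
  refine ⟨c / (Fintype.card ι * Fintype.card ι + 1), by positivity, fun H B a b d e f => ?_⟩
  refine hm.pd ι _ (a.isHermitian.add b) fun v hv => ?_
  have h1 : nV (H + B) v = nV H v + nV B v := by
    simp only [nV, ipV, Matrix.add_apply, add_mul, Finset.sum_add_distrib, add_re]
  have h2 : ‖ipV B v v‖ ≤ Fintype.card ι * (Fintype.card ι *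
      (c / (Fintype.card ι * Fintype.card ι + 1) * ‖v‖ * ‖v‖)) := by
    refine (norm_sum_le _ _).trans ?_
    refine (Finset.sum_le_card_nsmul _ _ _ fun i _ => (norm_sum_le _ _).trans
      (Finset.sum_le_card_nsmul _ _ (c / (Fintype.card ι * Fintype.card ι + 1) * ‖v‖ * ‖v‖)
        fun j _ => ?_)).trans (by simp)
    exact norm_mul_le_of_le (norm_mul_le_of_le (f i j) (norm_le_pi_norm v i))
      ((norm_star _).trans_le (norm_le_pi_norm v j))
  have h3 := (abs_le.1 ((abs_re_le_norm _).trans h2)).1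
  have h4 := (h H a d e v).1
  have h5 : 0 < c / (Fintype.card ι * Fintype.card ι + 1) * ‖v‖ ^ 2 := by
    have := norm_pos_iff.2 hv
    positivity
  have h6 : c * ‖v‖ ^ 2 - Fintype.card ι * (Fintype.card ι *
      (c / (Fintype.card ι * Fintype.card ι + 1) * ‖v‖ * ‖v‖)) =
      c / (Fintype.card ι * Fintype.card ι + 1) * ‖v‖ ^ 2 := by
    field_simp
    ring
  rw [h1]
  show 0 < nV H v + (ipV B v v).re
  linarith

end Nl

theorem nlS (hm : MatS) : NlS := by
  intro ι _ _ L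
  obtain ⟨δ, hδ, K, hK, hd⟩ := Nl.dd (Nl.phi_smooth (ι := ι)) Nl.phi_zero
  obtain ⟨r1, hr1, hp⟩ := Nl.pd (ι := ι) hm L
  obtain ⟨N, hN⟩ : ∃ N : ℝ, N = 2 * Fintype.card ι * |L| := ⟨_, rfl⟩
  have N0 : 0 ≤ N := by
    rw [hN]
    positivity
  refine ⟨min r1 (δ / (N + 1)), lt_min hr1 (by positivity), 3 * K * N ^ 2, by positivity,
    fun U H B B' r d hr h hH hI hB hB' hD r0 d0 => ?_⟩
  have pd : ∀ {A : V ι → Mat ι}, HolM r A U → ∀ z ∈ U, (A z).IsHermitian → (H z + A z).PosDef :=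
    fun a z hz b => hp _ _ (h z hz).1 b (fun i j => (hH i j).1 z hz) (fun i j => (hI i j).1 z hz)
      fun i j => ((a i j).1 z hz).trans (hr.trans (min_le_left _ _))
  have hI' := Nl.mono hI (le_abs_self L)
  have m1 := Nl.mul r0 (abs_nonneg L) hB hI'
  have m2 := Nl.mul r0 (abs_nonneg L) hB' hI'
  have m3 := Nl.mul d0 (abs_nonneg L) hD hI'
  simp only [← hN, Matrix.sub_mul] at m1 m2 m3
  have hρ : N * r ≤ δ := by
    have := (le_div_iff₀ (by positivity)).1 (hr.trans (min_le_right _ _))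
    linarith
  have e : ∀ z ∈ U, nl (H z) (B z) - nl (H z) (B' z) =
      Nl.phi (B z * (H z)⁻¹) - Nl.phi (B' z * (H z)⁻¹) := fun z hz => by
    rw [Nl.nl_eq hm (h z hz).1 (pd hB z hz (h z hz).2.1),
      Nl.nl_eq hm (h z hz).1 (pd hB' z hz (h z hz).2.2)]
  refine ⟨fun z hz => pd hB z hz (h z hz).2.1, fun z hz => ?_, fun z hz w hw => ?_⟩
  · have a := hd _ hρ (N * r) _ _ 0 0 (m1.1 z hz) (m2.1 z hz) (by simp; positivity)
      (by simp; positivity) (by simpa using m1.1 z hz) (by simpa using m2.1 z hz)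
    simp only [sub_self, sub_zero] at a
    have b := mul_le_mul_of_nonneg_left (m3.1 z hz) (show 0 ≤ K * (N * r) by positivity)
    have c : 0 ≤ K * (N * r) * (N * d) := by positivity
    show ‖nl (H z) (B z) - nl (H z) (B' z)‖ ≤ _
    rw [e z hz]
    exact a.trans ((add_le_add b b).trans (by linarith))
  · have a := hd _ hρ _ _ _ _ _ (m1.1 z hz) (m2.1 z hz) (m1.1 w hw) (m2.1 w hw)
      (m1.2 z hz w hw) (m2.2 z hz w hw)
    have b := mul_le_mul_of_nonneg_left (m3.1 z hz)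
      (show 0 ≤ K * (N * r * √‖z - w‖) by positivity)
    have b' := mul_le_mul_of_nonneg_left (m3.2 z hz w hw) (show 0 ≤ K * (N * r) by positivity)
    have c : 0 ≤ K * (N * r) * (N * d * √‖z - w‖) := by positivity
    show ‖nl (H z) (B z) - nl (H z) (B' z) - (nl (H w) (B w) - nl (H w) (B' w))‖ ≤ _
    rw [e z hz, e w hw]
    exact a.trans ((add_le_add b b').trans (by linarith))

end Pool.Agent.Lib.MP_813db1_ag.HS
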