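import Pool.Agent.Lib.MP_813db1_ag.HS.AY0

/-! Uniform openness in the continuity method. -/

namespace Pool.Agent.Lib.MP_813db1_ag.HS

open MeasureTheory Complex Matrix Filter Topology Set Metric
open scoped ContDiff ComplexOrder

namespace Open

variable {ι X : Type} [Fintype ι] [DecidableEq ι] [TopologicalSpace X] {M : Atl ι X}

theorem two_le : (2 : WithTop ℕ∞) ≤ ∞ := WithTop.coe_le_coe.2 (le_top (a := (2 : ℕ∞)))

theorem one_le : (1 : WithTop ℕ∞) ≤ ∞ := by exact_mod_cast le_top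

/-- a smooth form is Hoelder on the balls of a cover. -/
theorem shm (C : Cov M) {γ : X → Mat ι} (hγ : M.ClF γ) : ∃ Γ ≥ (1 : ℝ), C.SHM Γ γ := by
  have k : ∀ p : Fin C.n × ι × ι, ∃ D ≥ (1 : ℝ),
      Hol D (fun z => M.repF γ (C.e p.1) z p.2.1 p.2.2) (closedBall 0 (4 * C.r p.1)) := fun p =>
    hol_of_c1 (isCompact_closedBall _ _) (convex_closedBall _ _) fun z hz =>
      ((hγ _ (C.mem p.1)).1 z (C.sub p.1 hz) _ _).of_le one_le
  choose D h1 h2 using k
  have s0 : 0 ≤ ∑ p, D p := Finset.sum_nonneg fun p _ => zero_le_one.trans (h1 p)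
  refine ⟨1 + ∑ p, D p, by linarith, fun a i j => ((h2 (a, i, j)).subset ?_).mono ?_⟩
  · exact (ball_subset_ball (by linarith [C.pos a])).trans ball_subset_closedBall
  · have := Finset.single_le_sum (f := D) (fun p _ => zero_le_one.trans (h1 p))
      (Finset.mem_univ (a, i, j))
    linarith

theorem logdet (hm : MatS) {G : V ι → Mat ι} {U : Set (V ι)} (hG : KOn G U) {z : V ι}
    (hz : z ∈ U) : ContDiffAt ℝ ∞ (fun w => Real.log (G w).det.re) z := by
  have d : ContDiffAt ℝ ∞ (fun w => (G w).det) z := by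
    simp only [det_apply']
    exact ContDiffAt.sum fun σ _ =>
      contDiffAt_const.mul (contDiffAt_prod fun i _ => hG.1.1 z hz (σ i) i)
  exact (reCLM.contDiff.contDiffAt.comp z d).log (hm.det ι _ (hG.2 z hz)).1.ne'

/-- a solution in the Hoelder class is smooth. -/
theorem smooth (A : RepA' M) (B : RepB' M) (hm : MatS) (hk : HkS) (hn : RegNS) (C : Cov M)
    {h γ : X → Mat ι} {v : X → ℝ} {D : ℝ} (hh : M.IsK h) (hγ : M.ClF γ)
    (h2 : C.SH2 0 D fun x => (v x : ℂ)) (h3 : ∀ x, (h x + γ x + M.ddc v x).PosDef ∧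
      Real.log (rat (fun y => h y + γ y + M.ddc v y) h x) = v x) : M.Ck ∞ v := by
  refine A.ck_loc ⊤ v fun x => ?_
  obtain ⟨b, hx, hb⟩ := C.cover2 x
  have he := C.mem b
  have sub := C.ball_sub2 b
  have cl := A.clF_add h γ ((A.isK_iff h).1 hh).1 hγ _ he
  have k2 : Hol2 D (fn v (C.e b)) (ball 0 (2 * C.r b)) := rep_real (M := M) v (C.e b) ▸ h2 b
  refine ⟨C.e b, he, hx, ofRealCLM.contDiff.contDiffAt.comp _ (hn ι _
    (M.repF (fun x => h x + γ x) (C.e b)) (fun z => v ((C.e b).symm z))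
    (fun z => Real.log (M.repF h (C.e b) z).det.re) isOpen_ball (fun z hz => cl.1 z (sub hz))
    (fun z hz => cl.2.1 z (sub hz)) (fun z hz => logdet hm (hh _ he) (sub hz))
    ((hk.two ι _ _ isOpen_ball).2 fun z hz => ?_) (fun z hz => ?_) _ hb)⟩
  · obtain ⟨r, hr, hr'⟩ := Metric.isOpen_iff.1 isOpen_ball z hz
    exact ⟨r, hr, D, k2.subset hr'⟩
  · obtain ⟨y, hy, rfl⟩ : ∃ y ∈ (C.e b).source, C.e b y = z :=
      ⟨_, (C.e b).map_target (sub hz), (C.e b).right_inv (sub hz)⟩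
    have e : M.repF (fun x => h x + γ x) (C.e b) (C.e b y) +
        levi (fun w => (v ((C.e b).symm w) : ℂ)) (C.e b y) =
        M.repF (fun x => h x + γ x + M.ddc v x) (C.e b) (C.e b y) := by
      rw [repF_add (fun x => h x + γ x)]
      exact congrArg _ (B.ddc_rep v _ he y hy (k2.1 _ hz)).symm
    have pd : (M.repF (fun x => h x + γ x + M.ddc v x) (C.e b) (C.e b y)).PosDef := by
      rw [repF_at _ hy]
      exact (hm.pull_pd ι _ _ (A.tj_det _ he _ (M.ch_mem y) y hy (M.mem y))).1 (h3 y).1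
    rw [e]
    refine ⟨pd, ?_⟩
    have q := (h3 y).2
    rw [← A.rat_rep _ h _ he y hy, Real.log_div (hm.det ι _ pd).1.ne'
      (hm.det ι _ ((hh _ he).2 _ (sub hz))).1.ne'] at q
    simp only [(C.e b).left_inv hy]
    linarith

end Open

theorem openS (hA : RepA) (hB : RepB) (hm : MatS) (hk : HkS) (hn : RegNS) (hv : VolS) (h2 : Lin2S)
    (hs : StepS) : OpenS := by
  intro ι X _ _ _ _ _ _ _ M C g γ L hg hγ
  have A := hA ι X M
  have B := hB ι X M
  obtain ⟨μ, hμ⟩ := (hv ι X M g hg).1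
  obtain ⟨C2, hC2, H2⟩ := h2 ι X M g μ C 0 L hg hμ
  obtain ⟨δ, hδ, hS⟩ := hs ι X M C L (C2 * (1 + C2)) (by positivity)
  obtain ⟨Γ, hΓ, hΓ'⟩ := Open.shm C hγ
  have hΓ0 : 0 < Γ := by linarith
  refine ⟨δ / Γ, by positivity, fun α u hα hu hE s hs' => ?_⟩
  have hh : M.IsK fun x => α x + M.ddc u x := hu.2.1
  obtain ⟨h1, h3⟩ := H2 _ hh hE
  obtain ⟨p1, p2, p3⟩ := h3 1 ⟨one_pos, le_rfl⟩
  have cl : M.ClF fun x => (s : ℂ) • γ x := A.clF_smul s γ hγ
  obtain ⟨v, D, hv2, hv3⟩ := hS _ (fun x => (s : ℂ) • γ x) hh hE (A.herm _ cl)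
    (fun a i j => by
      rw [repF_smul]
      refine ((hΓ' a i j).const_mul s).mono ?_
      rw [Complex.norm_real, Real.norm_eq_abs]
      exact (le_div_iff₀ hΓ0).1 hs')
    (fun f D hD hf => by
      obtain ⟨w, D', hw, e, -⟩ := p3 f D hf
      have e' : (fun x => ((1 : ℝ) : ℂ) * w x - M.box 0 (fun x => α x + M.ddc u x) w x) = f :=
        funext e
      have q := p2 w D' hw
      rw [e', one_pow, one_mul] at q
      refine ⟨w, (p1 w D D' (C2 * D) (by positivity) hw (e'.symm ▸ hf)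
        (q.trans (h1 f D hf))).mono (le_of_eq (by ring)), fun x => ?_⟩
      simpa using e x)
  have sm := Open.smooth A B hm hk hn C hh cl hv2 hv3
  have e : (fun x => α x + (s : ℂ) • γ x + M.ddc (fun y => u y + v y) x) =
      fun x => α x + M.ddc u x + (s : ℂ) • γ x + M.ddc v x := funext fun x => by
    have := B.ddc_add u v (fun e he z hz => (hu.1 e he z hz).of_le Open.two_le)
      (fun e he z hz => (sm e he z hz).of_le Open.two_le) 1 x
    simp only [one_mul, ofReal_one, one_smul] at this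
    rw [this]
    abel
  refine ⟨fun y => u y + v y, (B.ck_add ⊤ u v hu.1 sm).1, ?_, fun x => ?_⟩
  · rw [e, A.isK_iff]
    exact ⟨A.clF_add _ _ (A.clF_add _ _ ((A.isK_iff _).1 hh).1 cl) (B.ddc_cl v sm),
      fun x => (hv3 x).1⟩
  · have d1 := (hm.det ι _ (((A.isK_iff _).1 hh).2 x)).1
    have d2 := (hm.det ι _ (hv3 x).1).1
    rw [e, Real.exp_add, ← hu.2.2 x, ← (hv3 x).2]
    simp only [rat]
    rw [Real.exp_log (div_pos d2 d1)]
    field_simp

end Pool.Agent.Lib.MP_813db1_ag.HS
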