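import Pool.Agent.Lib.MP_813db1_ag.HS.Stmt

/-! The resolvent of a small Hoelder perturbation of a constant coefficient operator. -/

set_option autoImplicit false
set_option linter.unusedSectionVars false

namespace Pool.Agent.Lib.MP_813db1_ag.HS

open Complex Matrix Filter Topology Set
open scoped ComplexOrder

namespace Pert

variable {ι : Type} [Fintype ι] [DecidableEq ι]

/-- the complex Hessian as a function of the real Hessian. -/
noncomputable def lv (D : V ι →L[ℝ] V ι →L[ℝ] ℂ) : Mat ι := Matrix.of fun i j =>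
  ((D (Pi.single i 1) (Pi.single j 1) + I * D (Pi.single i 1) (Pi.single j I)) / 2 -
    I * ((D (Pi.single i I) (Pi.single j 1) + I * D (Pi.single i I) (Pi.single j I)) / 2)) / 2

theorem diff2 {v : V ι → ℂ} {z : V ι} (h : ContDiffAt ℝ 2 v z) :
    DifferentiableAt ℝ (fderiv ℝ v) z :=
  (h.fderiv_right (m := 1) (by norm_num)).differentiableAt (by norm_num)

theorem levi_eq {v : V ι → ℂ} {z : V ι} (h : ContDiffAt ℝ 2 v z) :
    levi v z = lv (fderiv ℝ (fderiv ℝ v) z) := by
  have hd := (diff2 h).hasFDerivAt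
  ext i j
  have h1 := fun c : V ι => (ContinuousLinearMap.apply ℝ ℂ c).hasFDerivAt.comp z hd
  have h2 := ((h1 (Pi.single j 1)).add ((h1 (Pi.single j I)).const_mul I)).mul_const (2 : ℂ)⁻¹
  have e : fderiv ℝ (dzb v j) z = _ := h2.fderiv
  simp only [levi, lv, of_apply, dz, e]
  simp
  ring

theorem lv_sub (D E : V ι →L[ℝ] V ι →L[ℝ] ℂ) : lv (D - E) = lv D - lv E := by
  ext i j
  simp [lv]
  ring

theorem lv_bd (D : V ι →L[ℝ] V ι →L[ℝ] ℂ) : Bd ‖D‖ (lv D) := by
  intro i j
  have h : ∀ a b : ℂ, ‖a‖ = 1 → ‖b‖ = 1 → ‖D (Pi.single i a) (Pi.single j b)‖ ≤ ‖D‖ := by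
    intro a b ha hb
    have := D.le_opNorm₂ (Pi.single i a) (Pi.single j b)
    rwa [Pi.norm_single, Pi.norm_single, ha, hb, mul_one, mul_one] at this
  have h2 : ∀ a : ℂ, ‖a‖ = 1 →
      ‖(D (Pi.single i a) (Pi.single j 1) + I * D (Pi.single i a) (Pi.single j I)) / 2‖ ≤ ‖D‖ := by
    intro a ha
    have := norm_add_le (D (Pi.single i a) (Pi.single j 1)) (I * D (Pi.single i a) (Pi.single j I))
    rw [norm_mul, norm_I, one_mul] at this
    rw [norm_div, Complex.norm_two]
    linarith [h a 1 ha norm_one, h a I ha norm_I]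
  simp only [lv, of_apply]
  rw [norm_div, Complex.norm_two]
  refine (div_le_div_of_nonneg_right (norm_sub_le _ _) zero_le_two).trans ?_
  rw [norm_mul, norm_I, one_mul]
  linarith [h2 1 norm_one, h2 I norm_I]

theorem tr_bd {a b : ℝ} {A B : Mat ι} (hA : Bd a A) (hB : Bd b B) :
    ‖trace (A * B)‖ ≤ (Fintype.card ι : ℝ) ^ 2 * (a * b) := by
  simp only [trace, diag, mul_apply]
  refine (norm_sum_le _ _).trans ((Finset.sum_le_card_nsmul _ _ (Fintype.card ι * (a * b))
    fun i _ => (norm_sum_le _ _).trans ((Finset.sum_le_card_nsmul _ _ (a * b) fun j _ => ?_).trans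
      (by simp))).trans (by simp [sq, mul_assoc]))
  rw [norm_mul]
  exact mul_le_mul (hA i j) (hB j i) (norm_nonneg _) ((norm_nonneg _).trans (hA i j))

theorem levi_sub {v w : V ι → ℂ} (hv : ∀ z, ContDiffAt ℝ 2 v z) (hw : ∀ z, ContDiffAt ℝ 2 w z)
    (z : V ι) : levi (fun x => v x - w x) z = levi v z - levi w z := by
  have e : fderiv ℝ (fun x => v x - w x) = fun x => fderiv ℝ v x - fderiv ℝ w x := funext fun x =>
    fderiv_fun_sub ((hv x).differentiableAt (by norm_num)) ((hw x).differentiableAt (by norm_num))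
  rw [levi_eq ((hv z).sub (hw z)), e, fderiv_fun_sub (diff2 (hv z)) (diff2 (hw z)), lv_sub,
    levi_eq (hv z), levi_eq (hw z)]

/-- bounded functions of class `C²`. -/
def Bc (v : V ι → ℂ) : Prop := (∀ z, ContDiffAt ℝ 2 v z) ∧ ∃ B, ∀ z, ‖v z‖ ≤ B

theorem Bc.sub {v w : V ι → ℂ} (hv : Bc v) (hw : Bc w) : Bc fun x => v x - w x := by
  obtain ⟨h1, B, h2⟩ := hv
  obtain ⟨h3, B', h4⟩ := hw
  exact ⟨fun z => (h1 z).sub (h3 z), B + B', fun z => (norm_sub_le _ _).trans (add_le_add (h2 z) (h4 z))⟩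

theorem bc {t M : ℝ} {v : V ι → ℂ} (ht : 0 < t) (h : Hol2T t M v univ) : Bc v :=
  ⟨fun z => h.1 z trivial, M / t ^ 4 / t, fun z => by
    rw [le_div_iff₀' ht]; exact h.2.1.1 z trivial⟩

theorem uniq (hm : MaxS) {A : V ι → Mat ι} {L t : ℝ} (ht : 0 < t)
    (hA : ∀ z, (A z).PosSemidef ∧ Bd L (A z)) {v w : V ι → ℂ} (hv : Bc v) (hw : Bc w)
    (e : ∀ z, (t : ℂ) ^ 4 * v z - trace (levi v z * A z) =
      (t : ℂ) ^ 4 * w z - trace (levi w z * A z)) : v = w := by
  obtain ⟨h1, B, h2⟩ := hv.sub hw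
  funext z
  refine sub_eq_zero.1 (hm.uni ι A L (t ^ 4) B _ (by positivity) hA h1 h2 (fun z => ?_) z)
  rw [levi_sub hv.1 hw.1, Matrix.sub_mul, trace_sub]
  push_cast
  linear_combination e z

theorem holT_nonneg {W : Type} [NormedAddCommGroup W] {t M : ℝ} {f : V ι → W} (ht : 0 < t)
    (h : HolT t M f univ) : 0 ≤ M := (by positivity : 0 ≤ t * ‖f 0‖).trans (h.1 0 trivial)

theorem holT_mono {t M N : ℝ} {f : V ι → ℂ} (h : HolT t M f univ) (hN : M ≤ N) :
    HolT t N f univ :=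
  ⟨fun z hz => (h.1 z hz).trans hN, fun z hz w hw => (h.2 z hz w hw).trans (by gcongr)⟩

theorem holT_tr {t N η L : ℝ} {v : V ι → ℂ} {B : V ι → Mat ι} (ht : 0 < t) (hL : 0 ≤ L)
    (h : Hol2T t N v univ) (hB : ∀ z, Bd η (B z)) (hη : 0 ≤ η)
    (hH : ∀ i j z w, ‖B z i j - B w i j‖ ≤ L * √‖z - w‖) :
    HolT t ((Fintype.card ι : ℝ) ^ 2 * ((η + L / t) * N)) (fun z => trace (levi v z * B z)) univ := by
  have hN := holT_nonneg ht h.2.2.2
  obtain ⟨h1, -, -, h2, h3⟩ := h
  refine ⟨fun z hz => ?_, fun z hz w hw => ?_⟩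
  · have := tr_bd (lv_bd (fderiv ℝ (fderiv ℝ v) z)) (hB z)
    rw [← levi_eq (h1 z hz)] at this
    calc _ ≤ t * ((Fintype.card ι : ℝ) ^ 2 * (‖fderiv ℝ (fderiv ℝ v) z‖ * η)) := by gcongr
      _ = (Fintype.card ι : ℝ) ^ 2 * (η * (t * ‖fderiv ℝ (fderiv ℝ v) z‖)) := by ring
      _ ≤ _ := by
        gcongr
        · exact le_add_of_nonneg_right (by positivity)
        · exact h2 z hz
  · have a := tr_bd (lv_bd (fderiv ℝ (fderiv ℝ v) z - fderiv ℝ (fderiv ℝ v) w)) (hB z)
    have b := tr_bd (B := B z - B w) (lv_bd (fderiv ℝ (fderiv ℝ v) w)) fun i j => hH i j z w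
    have c : ‖fderiv ℝ (fderiv ℝ v) w‖ ≤ N / t := by rw [le_div_iff₀' ht]; exact h2 w hw
    rw [lv_sub, ← levi_eq (h1 z hz), ← levi_eq (h1 w hw)] at a
    rw [← levi_eq (h1 w hw)] at b
    calc _ = ‖trace ((levi v z - levi v w) * B z) + trace (levi v w * (B z - B w))‖ := by
          simp only [Matrix.sub_mul, Matrix.mul_sub, trace_sub, sub_add_sub_cancel]
      _ ≤ (Fintype.card ι : ℝ) ^ 2 * (N * √‖z - w‖ * η) +
          (Fintype.card ι : ℝ) ^ 2 * (N / t * (L * √‖z - w‖)) := by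
          refine (norm_add_le _ _).trans (add_le_add (a.trans ?_) (b.trans ?_))
          · gcongr; exact h3 z hz w hw
          · gcongr
      _ = _ := by ring

theorem holT_tsum {t M : ℝ} {f : ℕ → V ι → ℂ} (ht : 0 < t)
    (h : ∀ k, HolT t (M * (1 / 2) ^ k) (f k) univ) :
    (∀ z, Summable fun k => f k z) ∧ HolT t (M * 2) (fun z => ∑' k, f k z) univ := by
  have g : ∀ c : ℝ, HasSum (fun k : ℕ => M * (1 / 2) ^ k * c) (M * 2 * c) := fun c =>
    (hasSum_geometric_two.mul_left M).mul_right c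
  have b : ∀ z k, ‖f k z‖ ≤ M * (1 / 2) ^ k * t⁻¹ := fun z k => by
    rw [← div_eq_mul_inv, le_div_iff₀' ht]; exact (h k).1 z trivial
  have s : ∀ z, Summable fun k => f k z := fun z => .of_norm_bounded (g _).summable (b z)
  refine ⟨s, fun z _ => ?_, fun z _ w _ => ?_⟩
  · rw [← le_div_iff₀' ht, div_eq_mul_inv]
    exact tsum_of_norm_bounded (g _) (b z)
  · rw [← (s z).tsum_sub (s w)]
    exact tsum_of_norm_bounded (g _) fun k => (h k).2 z trivial w trivial

/-- the Neumann series of a contraction. -/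
theorem neumann {t M : ℝ} (ht : 0 < t) (S : (V ι → ℂ) → V ι → ℂ)
    (h1 : ∀ g N, HolT t N g univ → HolT t (N * (1 / 2)) (S g) univ)
    (h2 : ∀ g g' g'' N N' N'', HolT t N g univ → HolT t N' g' univ → HolT t N'' g'' univ →
      (∀ z, g z - g' z = g'' z) → ∀ z, S g z - S g' z = S g'' z)
    {f : V ι → ℂ} (hf : HolT t M f univ) :
    ∃ F, HolT t (M * 2) F univ ∧ ∀ z, F z = f z + S F z := by
  have a : ∀ k, HolT t (M * (1 / 2) ^ k) (S^[k] f) univ := by
    intro k
    induction k with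
    | zero => simpa using hf
    | succ k ih => rw [Function.iterate_succ_apply', pow_succ, ← mul_assoc]; exact h1 _ _ ih
  have b := fun n => holT_tsum (f := fun k => S^[k + n] f) (M := M * (1 / 2) ^ n) ht fun k => by
    rw [mul_assoc, ← pow_add, add_comm n]; exact a _
  set g : ℕ → V ι → ℂ := fun n z => ∑' k, S^[k + n] f z with hg
  have c : ∀ n z, g n z - S^[n] f z = g (n + 1) z := fun n z => by
    simp only [hg]
    rw [((b n).1 z).tsum_eq_zero_add, zero_add, add_sub_cancel_left]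
    simp only [add_assoc, add_comm 1 n]
  have d : ∀ z n, S (g n) z - g (n + 1) z = S (g 0) z - g 1 z := by
    intro z n
    induction n with
    | zero => rfl
    | succ n ih =>
      have := h2 _ _ _ _ _ _ (b n).2 (a n) (b (n + 1)).2 (c n) z
      rw [← ih, ← this, ← c (n + 1), Function.iterate_succ_apply']
      ring
  refine ⟨g 0, holT_mono (b 0).2 (by simp), fun z => ?_⟩
  have e : S (g 0) z - g 1 z = 0 := by
    have l := ((tendsto_pow_atTop_nhds_zero_of_lt_one (r := (1 / 2 : ℝ)) (by norm_num)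
      (by norm_num)).const_mul (M * 2))
    rw [mul_zero] at l
    have : t * ‖S (g 0) z - g 1 z‖ ≤ 0 := ge_of_tendsto' l fun n => by
      have i1 := (h1 _ _ (b n).2).1 z trivial
      have i2 := (b (n + 1)).2.1 z trivial
      have i3 := mul_le_mul_of_nonneg_left (norm_sub_le (S (g n) z) (g (n + 1) z)) ht.le
      rw [← d z n]
      rw [pow_succ] at i2
      linarith
    exact norm_le_zero_iff.1 (nonpos_of_mul_nonpos_right this ht |> fun h => h)
  have := c 0 z
  simp only [Function.iterate_zero, id, zero_add] at this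
  linear_combination this - e

end Pert

open Pert in
theorem pert (h : ResS) (hm : MaxS) : PertS := by
  intro ι _ _ L
  obtain ⟨C, hC⟩ := h ι L
  set κ : ℝ := (Fintype.card ι : ℝ) ^ 2 * |C| + 1 with hκ
  have κ0 : 0 < κ := by positivity
  refine ⟨1 / (4 * κ), by positivity, C * 2, 1 + 4 * κ * |L|,
    le_add_of_nonneg_right (by positivity), fun A0 A p0 b0 b1 hA hH t ht f M hf => ?_⟩
  have t1 : 1 ≤ t := le_trans (le_add_of_nonneg_right (by positivity)) ht
  have t0 : 0 < t := by linarith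
  have u0 := fun v w => uniq hm (A := fun _ => A0) (v := v) (w := w) t0
    fun _ => ⟨p0.posSemidef, b0⟩
  have : ∀ g : V ι → ℂ, ∃ v, ∀ N, HolT t N g univ →
      Hol2T t (C * N) v univ ∧ ∀ z, (t : ℂ) ^ 4 * v z - trace (levi v z * A0) = g z := by
    intro g
    by_cases hg : ∃ N, HolT t N g univ
    · obtain ⟨N, hN⟩ := hg
      obtain ⟨v, v1, v2⟩ := hC A0 p0 b0 b1 t t1 g N hN
      refine ⟨v, fun N' hN' => ⟨?_, v2⟩⟩
      obtain ⟨w, w1, w2⟩ := hC A0 p0 b0 b1 t t1 g N' hN'
      rwa [u0 v w (bc t0 v1) (bc t0 w1) fun z => (v2 z).trans (w2 z).symm]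
    · exact ⟨0, fun N hN => absurd ⟨N, hN⟩ hg⟩
  choose R hR using this
  obtain ⟨F, F1, F2⟩ := neumann t0 (fun g z => trace (levi (R g) z * (A z - A0)))
    (fun g N hN => by
      have N0 := holT_nonneg t0 hN
      refine holT_mono (holT_tr t0 (abs_nonneg L) (hR g N hN).1 (fun z => (hA z).2)
        (by positivity) fun i j z w => ?_) ?_
      · rw [Matrix.sub_apply, Matrix.sub_apply, sub_sub_sub_cancel_right]
        exact (hH i j z w).trans (by gcongr; exact le_abs_self L)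
      · have i : |L| / t ≤ 1 / (4 * κ) := by
          rw [div_le_div_iff₀ t0 (by positivity)]; linarith
        calc _ ≤ (Fintype.card ι : ℝ) ^ 2 * ((1 / (4 * κ) + 1 / (4 * κ)) * (|C| * N)) := by
              have := holT_nonneg t0 (hR g N hN).1.2.2.2
              gcongr
              exact le_abs_self C
          _ = (κ - 1) / κ * (N * (1 / 2)) := by rw [hκ]; field_simp; ring
          _ ≤ _ := mul_le_of_le_one_left (by positivity) ((div_le_one κ0).2 (by linarith)))
    (fun g g' g'' N N' N'' a a' a'' e z => by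
      have b := bc t0 (hR _ _ a).1
      have b' := bc t0 (hR _ _ a').1
      rw [← u0 _ _ (b.sub b') (bc t0 (hR _ _ a'').1) fun z => ?_, levi_sub b.1 b'.1,
        Matrix.sub_mul, trace_sub]
      rw [levi_sub b.1 b'.1, Matrix.sub_mul, trace_sub, (hR _ _ a'').2, ← e, ← (hR _ _ a).2,
        ← (hR _ _ a').2]
      ring) hf
  obtain ⟨v1, v2⟩ := hR F _ F1
  rw [mul_comm M, ← mul_assoc] at v1
  have v3 : ∀ z, (t : ℂ) ^ 4 * R F z - trace (levi (R F) z * A z) = f z := fun z => by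
    have := F2 z
    rw [Matrix.mul_sub, trace_sub] at this
    linear_combination v2 z + this
  refine ⟨⟨_, v1, v3⟩, fun v B w1 w2 w3 => ?_⟩
  rwa [uniq hm (L := 1 / (4 * κ) + L) t0 (fun z => ⟨(hA z).1, fun i j => ?_⟩) ⟨w1, B, w2⟩ (bc t0 v1)
    fun z => (w3 z).trans (v3 z).symm]
  have := norm_add_le ((A z - A0) i j) (A0 i j)
  rw [Matrix.sub_apply, sub_add_cancel] at this
  exact this.trans (add_le_add ((hA z).2 i j) (b0 i j))

end Pool.Agent.Lib.MP_813db1_ag.HS
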