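import Pool.Agent.Lib.MP_813db1_ag.HS.HolC

/-! Higher regularity for linear elliptic equations. -/

namespace Pool.Agent.Lib.MP_813db1_ag.HS

open Complex Matrix Filter Topology Set Metric
open scoped ContDiff ComplexOrder

noncomputable section

namespace RegL

variable {ι : Type} [Fintype ι] [DecidableEq ι]

/-! Hoelder bounds which are uniform in a small parameter -/

section Unif

omit [DecidableEq ι]

/-- Hoelder bounds near `z0`, uniform for small nonzero values of the parameter. -/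
def UH (F : ℝ → V ι → ℂ) (z0 : V ι) : Prop :=
  ∃ M, ∀ᶠ r in 𝓝[>] (0 : ℝ), ∀ τ : ℝ, τ ≠ 0 → |τ| < r → Hol M (F τ) (ball z0 r)

variable {F G : ℝ → V ι → ℂ} {z0 : V ι}

theorem UH.of_ex {r M : ℝ} (hr : 0 < r)
    (h : ∀ τ : ℝ, τ ≠ 0 → |τ| < r → Hol M (F τ) (ball z0 r)) : UH F z0 := by
  refine ⟨M, ?_⟩
  filter_upwards [Ioo_mem_nhdsGT hr] with ρ hρ τ h0 h1
  exact (h τ h0 (h1.trans hρ.2)).subset (ball_subset_ball hρ.2.le)

theorem UH.sub (h : UH F z0) (h' : UH G z0) : UH (fun τ z => F τ z - G τ z) z0 := by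
  obtain ⟨M, hM⟩ := h
  obtain ⟨N, hN⟩ := h'
  refine ⟨M + N, ?_⟩
  filter_upwards [hM, hN] with ρ h1 h2 τ h0 hτ
  exact (h1 τ h0 hτ).sub (h2 τ h0 hτ)

theorem UH.mul (h : UH F z0) (h' : UH G z0) : UH (fun τ z => F τ z * G τ z) z0 := by
  obtain ⟨M, hM⟩ := h
  obtain ⟨N, hN⟩ := h'
  refine ⟨2 * M * N, ?_⟩
  filter_upwards [hM, hN] with ρ h1 h2 τ h0 hτ
  exact (h1 τ h0 hτ).mul (h2 τ h0 hτ)

theorem UH.sum {κ : Type} [Fintype κ] {F : κ → ℝ → V ι → ℂ} (h : ∀ j, UH (F j) z0) :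
    UH (fun τ z => ∑ j, F j τ z) z0 := by
  choose M hM using h
  refine ⟨∑ j, M j, ?_⟩
  filter_upwards [eventually_all.2 hM] with ρ h1 τ h0 hτ
  exact Hol.sum Finset.univ fun j _ => h1 j τ h0 hτ

theorem shift_mem (z0 e : V ι) {r : ℝ} (hr : 0 < r) : ∃ ρ > 0, ρ ≤ r ∧ ∀ τ : ℝ, |τ| < ρ →
    ∀ z ∈ ball z0 ρ, z + τ • e ∈ ball z0 r := by
  have he := norm_nonneg e
  have hp : 0 < 1 + ‖e‖ := by linarith
  have hρ : 0 < r / (1 + ‖e‖) := div_pos hr hp
  have hm : r / (1 + ‖e‖) * (1 + ‖e‖) = r := div_mul_cancel₀ r hp.ne'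
  refine ⟨r / (1 + ‖e‖), hρ, by nlinarith [mul_nonneg hρ.le he], fun τ hτ z hz => ?_⟩
  rw [mem_ball_iff_norm] at hz ⊢
  have e1 : z + τ • e - z0 = (z - z0) + τ • e := by abel
  have e2 : ‖τ • e‖ ≤ r / (1 + ‖e‖) * ‖e‖ := by
    rw [norm_smul, Real.norm_eq_abs]
    exact mul_le_mul_of_nonneg_right hτ.le he
  rw [e1]
  linarith [norm_add_le (z - z0) (τ • e)]

theorem UH.shift {g : V ι → ℂ} {r M : ℝ} (e : V ι) (hr : 0 < r) (h : Hol M g (ball z0 r)) :
    UH (fun τ z => g (z + τ • e)) z0 := by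
  obtain ⟨ρ, hρ, -, hm⟩ := shift_mem z0 e hr
  refine UH.of_ex (M := 1 * M) hρ fun τ _ hτ => ?_
  exact h.comp (τ := fun z => z + τ • e) le_rfl (fun z hz => hm τ hτ z hz) fun z _ w _ => by
    simp

theorem hasDerivAt_line {g : V ι → ℂ} (z e : V ι) (s : ℝ)
    (h : DifferentiableAt ℝ g (z + s • e)) :
    HasDerivAt (fun s : ℝ => g (z + s • e)) (fderiv ℝ g (z + s • e) e) s := by
  have h1 : HasDerivAt (fun s : ℝ => z + s • e) e s := by
    simpa using ((hasDerivAt_id s).smul_const e).const_add z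
  exact h.hasFDerivAt.comp_hasDerivAt s h1

theorem norm_quot_le {φ φ' : ℝ → ℂ} {ρ τ C : ℝ} (h0 : τ ≠ 0) (hτ : |τ| < ρ)
    (hd : ∀ s, |s| < ρ → HasDerivAt φ (φ' s) s) (hb : ∀ s, |s| < ρ → ‖φ' s‖ ≤ C) :
    ‖(φ τ - φ 0) / τ‖ ≤ C := by
  have hs : ∀ s : ℝ, s ∈ ball (0 : ℝ) ρ ↔ |s| < ρ := fun s => by simp
  have := (convex_ball (0 : ℝ) ρ).norm_image_sub_le_of_norm_hasDerivWithin_le
    (fun s h => (hd s ((hs s).1 h)).hasDerivWithinAt) (fun s h => hb s ((hs s).1 h))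
    ((hs 0).2 (by simpa using (abs_nonneg τ).trans_lt hτ)) ((hs τ).2 hτ)
  rw [norm_div, Complex.norm_real, div_le_iff₀ (norm_pos_iff.2 h0)]
  simpa using this

theorem UH.quot {g : V ι → ℂ} {r M : ℝ} (e : V ι) (hr : 0 < r)
    (hd : ∀ z ∈ ball z0 r, DifferentiableAt ℝ g z)
    (h : Hol M (fun z => fderiv ℝ g z e) (ball z0 r)) : UH (fun τ => dq g e τ) z0 := by
  obtain ⟨ρ, hρ, -, hm⟩ := shift_mem z0 e hr
  refine UH.of_ex (M := M) hρ fun τ h0 hτ => ⟨fun z hz => ?_, fun z hz w hw => ?_⟩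
  · have := norm_quot_le (φ := fun s : ℝ => g (z + s • e)) h0 hτ
      (fun s hs => hasDerivAt_line z e s (hd _ (hm s hs z hz))) fun s hs => h.1 _ (hm s hs z hz)
    simpa [dq] using this
  · have := norm_quot_le (φ := fun s : ℝ => g (z + s • e) - g (w + s • e))
      (C := M * √‖z - w‖) h0 hτ
      (fun s hs => (hasDerivAt_line z e s (hd _ (hm s hs z hz))).sub
        (hasDerivAt_line w e s (hd _ (hm s hs w hw)))) fun s hs => by
          simpa using h.2 _ (hm s hs z hz) _ (hm s hs w hw)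
    have e1 : dq g e τ z - dq g e τ w = (g (z + τ • e) - g (w + τ • e) -
        (g (z + (0 : ℝ) • e) - g (w + (0 : ℝ) • e))) / τ := by
      simp only [dq, zero_smul, add_zero]
      ring
    rw [e1]
    exact this

theorem UH.of_hk0 {g : V ι → ℂ} {U : Set (V ι)} (e : V ι) (hz : z0 ∈ U) (h : Hk 0 g U) :
    UH (fun τ z => g (z + τ • e)) z0 := by
  obtain ⟨r, hr, M, hM⟩ := h z0 hz
  exact UH.shift e hr hM

theorem UH.of_hk1 {g : V ι → ℂ} {U : Set (V ι)} (e : V ι) (hU : IsOpen U) (hz : z0 ∈ U)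
    (h : Hk 1 g U) : UH (fun τ => dq g e τ) z0 := by
  obtain ⟨r, hr, M, hM⟩ := h.2 e z0 hz
  obtain ⟨ρ, hρ, hs⟩ := Metric.isOpen_iff.1 hU z0 hz
  exact UH.quot e (lt_min hr hρ) (fun z hz => h.1 z (hs (ball_subset_ball (min_le_right _ _) hz)))
    (hM.subset (ball_subset_ball (min_le_left _ _)))

/-! derivatives of difference quotients -/

theorem fderiv_dq {g : V ι → ℂ} {z : V ι} (e : V ι) (τ : ℝ) (h0 : DifferentiableAt ℝ g z)
    (h1 : DifferentiableAt ℝ g (z + τ • e)) (a : V ι) :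
    fderiv ℝ (dq g e τ) z a = (fderiv ℝ g (z + τ • e) a - fderiv ℝ g z a) / τ := by
  have h2 : HasFDerivAt (fun w => g (w + τ • e)) (fderiv ℝ g (z + τ • e)) z := by
    have := h1.hasFDerivAt.comp z ((hasFDerivAt_id z).add_const (τ • e))
    rw [ContinuousLinearMap.comp_id] at this
    exact this
  have h3 := (h2.sub h0.hasFDerivAt).mul_const ((τ : ℂ)⁻¹)
  have e1 : dq g e τ = fun w => (g (w + τ • e) - g w) * (τ : ℂ)⁻¹ := by
    funext w
    rw [dq, div_eq_mul_inv]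
  rw [e1]
  refine (congrArg (fun L : V ι →L[ℝ] ℂ => L a) h3.fderiv).trans ?_
  simp only [_root_.smul_apply, _root_.sub_apply, smul_eq_mul]
  ring

theorem fderiv_fderiv_apply {g : V ι → ℂ} {z : V ι} (h : ContDiffAt ℝ 2 g z) (a : V ι) :
    HasFDerivAt (fun w => fderiv ℝ g w a) ((fderiv ℝ (fderiv ℝ g) z).flip a) z := by
  have h1 : DifferentiableAt ℝ (fderiv ℝ g) z :=
    (h.fderiv_right (m := 1) (by norm_num)).differentiableAt one_ne_zero
  simpa using h1.hasFDerivAt.clm_apply (hasFDerivAt_const a z)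

theorem fderiv_comm {g : V ι → ℂ} {z : V ι} (h : ContDiffAt ℝ 2 g z) (a b : V ι) (c : ℂ)
    (e : V ι) : fderiv ℝ (fun w => (fderiv ℝ g w a + c * fderiv ℝ g w b) / 2) z e =
      (fderiv ℝ (fun w => fderiv ℝ g w e) z a + c * fderiv ℝ (fun w => fderiv ℝ g w e) z b) / 2 := by
  have hs := h.isSymmSndFDerivAt (by simp)
  have h3 := ((fderiv_fderiv_apply h a).add ((fderiv_fderiv_apply h b).const_mul c)).mul_const
    ((2 : ℂ)⁻¹)
  have e1 : (fun w => (fderiv ℝ g w a + c * fderiv ℝ g w b) / 2) =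
      fun w => (fderiv ℝ g w a + c * fderiv ℝ g w b) * (2 : ℂ)⁻¹ := by
    funext w
    rw [div_eq_mul_inv]
  rw [e1, (fderiv_fderiv_apply h e).fderiv]
  refine (congrArg (fun L : V ι →L[ℝ] ℂ => L e) h3.fderiv).trans ?_
  simp only [_root_.smul_apply, _root_.add_apply, smul_eq_mul,
    ContinuousLinearMap.flip_apply]
  rw [hs.eq e a, hs.eq e b]
  ring

end Unif

omit [Fintype ι] in
theorem dz_congr' {f g : V ι → ℂ} {z : V ι} (h : f =ᶠ[𝓝 z] g) (k : ι) :
    dz f k z = dz g k z := by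
  simp only [dz, h.fderiv_eq]

theorem dz_dq {g : V ι → ℂ} {z : V ι} (e : V ι) (τ : ℝ) (h0 : DifferentiableAt ℝ g z)
    (h1 : DifferentiableAt ℝ g (z + τ • e)) (k : ι) :
    dz (dq g e τ) k z = dq (dz g k) e τ z := by
  simp only [dz, fderiv_dq e τ h0 h1]
  simp only [dq, dz]
  ring

theorem dzb_dq {g : V ι → ℂ} {z : V ι} (e : V ι) (τ : ℝ) (h0 : DifferentiableAt ℝ g z)
    (h1 : DifferentiableAt ℝ g (z + τ • e)) (k : ι) :
    dzb (dq g e τ) k z = dq (dzb g k) e τ z := by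
  simp only [dzb, fderiv_dq e τ h0 h1]
  simp only [dq, dzb]
  ring

theorem dz_fderiv {g : V ι → ℂ} {z : V ι} (h : ContDiffAt ℝ 2 g z) (k : ι) (e : V ι) :
    dz (fun w => fderiv ℝ g w e) k z = fderiv ℝ (dz g k) z e := by
  have e1 : dz g k = fun w => (fderiv ℝ g w (Pi.single k 1) +
      (-I) * fderiv ℝ g w (Pi.single k I)) / 2 := by
    funext w
    rw [dz]
    ring
  rw [e1, fderiv_comm h, dz]
  ring

theorem dzb_fderiv {g : V ι → ℂ} {z : V ι} (h : ContDiffAt ℝ 2 g z) (k : ι) (e : V ι) :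
    dzb (fun w => fderiv ℝ g w e) k z = fderiv ℝ (dzb g k) z e := by
  have e1 : dzb g k = fun w => (fderiv ℝ g w (Pi.single k 1) +
      I * fderiv ℝ g w (Pi.single k I)) / 2 := rfl
  rw [e1, fderiv_comm h, dzb]

omit [DecidableEq ι] in
theorem trace_eq (B A : Mat ι) : trace (B * A) = ∑ i, ∑ j, B i j * A j i := by
  simp [Matrix.trace, Matrix.mul_apply]

variable {U : Set (V ι)} {A : V ι → Mat ι} {v f : V ι → ℂ}

theorem levi_dq (hk : HkS) (hU : IsOpen U) (hv : Hk 2 v U) (e : V ι) (τ : ℝ) {z : V ι}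
    (h0 : z ∈ U) (h1 : z + τ • e ∈ U) (i j : ι) :
    levi (dq v e τ) z i j = (levi v (z + τ • e) i j - levi v z i j) / τ := by
  have hb : Hk 1 (dzb v j) U := (hk.dz ι 1 v U j hU hv).2
  have hc : ContinuousAt (fun w : V ι => w + τ • e) z := by fun_prop
  have he : dzb (dq v e τ) j =ᶠ[𝓝 z] dq (dzb v j) e τ := by
    filter_upwards [hU.mem_nhds h0, hc (hU.mem_nhds h1)] with w hw hw'
    exact dzb_dq e τ (hv.1 w hw) (hv.1 _ hw') j
  simp only [levi, Matrix.of_apply]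
  rw [dz_congr' he, dz_dq e τ (hb.1 z h0) (hb.1 _ h1)]
  rfl

theorem hk_levi (hk : HkS) (hU : IsOpen U) {k : ℕ} (hv : Hk (k + 2) v U) (i j : ι) :
    Hk k (fun z => levi v z i j) U :=
  (hk.dz ι k (dzb v j) U i hU (hk.dz ι (k + 1) v U j hU hv).2).1

theorem levi_fderiv (hk : HkS) (hU : IsOpen U) (hv : Hk 3 v U) (e : V ι) {z : V ι} (h0 : z ∈ U)
    (i j : ι) : levi (fun w => fderiv ℝ v w e) z i j = fderiv ℝ (fun w => levi v w i j) z e := by
  have hb : Hk 2 (dzb v j) U := (hk.dz ι 2 v U j hU hv).2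
  have he : dzb (fun w => fderiv ℝ v w e) j =ᶠ[𝓝 z] fun w => fderiv ℝ (dzb v j) w e := by
    filter_upwards [hU.mem_nhds h0] with w hw
    exact dzb_fderiv (hk.cdiff ι 2 v U hU (hk.mono ι 2 v U hU hv) w hw) j e
  simp only [levi, Matrix.of_apply]
  rw [dz_congr' he, dz_fderiv (hk.cdiff ι 2 _ U hU hb z h0)]

theorem mono_le (hk : HkS) (hU : IsOpen U) {g : V ι → ℂ} {k l : ℕ} (hl : k ≤ l) (h : Hk l g U) :
    Hk k g U := by
  induction hl with
  | refl => exact h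
  | step _ ih => exact ih (hk.mono ι _ g U hU h)

/-- one derivative is gained by difference quotients. -/
theorem three (hd : DqS) (hk : HkS) (hU : IsOpen U) (hp : ∀ z ∈ U, (A z).PosDef)
    (hA : ∀ i j, Hk 1 (fun z => A z i j) U) (hf : Hk 1 f U) (hv : Hk 2 v U)
    (he : ∀ z ∈ U, trace (levi v z * A z) = f z) : Hk 3 v U := by
  refine ⟨hv.1, fun e => hk.loc ι 2 _ U fun z0 hz0 => ?_⟩
  suffices h : ∃ r > 0, Hk 2 (fun z => fderiv ℝ v z e) (ball z0 r) by
    obtain ⟨r, hr, h⟩ := h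
    exact ⟨ball z0 r, mem_ball_self hr, h⟩
  refine hd ι U v z0 e (A z0) hU hz0 (hp z0 hz0) hv fun ω' hω => ?_
  obtain ⟨M, hM⟩ : UH (fun τ z => dq f e τ z - ∑ i, ∑ j, levi v (z + τ • e) i j *
      dq (fun w => A w j i) e τ z) z0 :=
    (UH.of_hk1 e hU hz0 hf).sub (UH.sum fun i => UH.sum fun j =>
      (UH.of_hk0 (g := fun z => levi v z i j) e hz0 (hk_levi hk hU hv i j)).mul
        (UH.of_hk1 e hU hz0 (hA j i)))
  have hA0 : ∀ p : ι × ι, UH (fun _ z => A z p.1 p.2) z0 := fun p => by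
    simpa using UH.of_hk0 (g := fun z => A z p.1 p.2) 0 hz0 (hk.mono ι 0 _ U hU (hA p.1 p.2))
  choose N hN using hA0
  obtain ⟨r0, hr0, hs⟩ := Metric.isOpen_iff.1 hU z0 hz0
  obtain ⟨ρ, hρ, hρr, hm⟩ := shift_mem z0 e hr0
  have hc : ∀ᶠ z in 𝓝 z0, ∀ p : ι × ι, dist (A z p.1 p.2) (A z0 p.1 p.2) < ω' :=
    eventually_all.2 fun p =>
      Metric.tendsto_nhds.1 ((hA p.1 p.2).1 z0 hz0).continuousAt ω' hω
  obtain ⟨r1, hr1, hc1⟩ := Metric.eventually_nhds_iff_ball.1 hc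
  obtain ⟨r, ⟨⟨h1, h2⟩, h3⟩, h4⟩ := ((((hM.and (eventually_all.2 hN)).and
    (Ioo_mem_nhdsGT hρ)).and (Ioo_mem_nhdsGT hr1))).exists
  have hNle : ∀ p, N p ≤ ∑ q, |N q| := fun p =>
    (le_abs_self _).trans (Finset.single_le_sum (fun q _ => abs_nonneg (N q)) (Finset.mem_univ p))
  have hin : ∀ z ∈ ball z0 r, z ∈ U := fun z hz => hs (ball_subset_ball (h3.2.le.trans hρr) hz)
  refine ⟨r, h3.1, r, h3.1, max M (∑ q, |N q|), fun τ hτ0 hτ => ⟨A, fun z hz =>
    ⟨(hp z (hin z hz)).isHermitian, fun i j => ?_⟩, fun i j => ?_, ?_⟩⟩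
  · have := hc1 z (ball_subset_ball h4.2.le hz) (i, j)
    rw [dist_eq_norm] at this
    exact this.le
  · exact (h2 (i, j) τ hτ0 hτ).mono ((hNle _).trans (le_max_right _ _))
  · refine ((h1 τ hτ0 hτ).mono (le_max_left _ _)).congr fun z hz => ?_
    have hz1 : z + τ • e ∈ U := hs (hm τ (hτ.trans h3.2) z (ball_subset_ball h3.2.le hz))
    simp only [dq, ← he z (hin z hz), ← he _ hz1, trace_eq, levi_dq hk hU hv e τ (hin z hz) hz1]
    rw [← Finset.sum_sub_distrib, Finset.sum_div, ← Finset.sum_sub_distrib]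
    refine Finset.sum_congr rfl fun i _ => ?_
    rw [← Finset.sum_sub_distrib, Finset.sum_div, ← Finset.sum_sub_distrib]
    refine Finset.sum_congr rfl fun j _ => ?_
    ring

/-- the differentiated equation. -/
theorem deriv_eq (hk : HkS) (hU : IsOpen U) (hA : ∀ i j, Hk 1 (fun z => A z i j) U)
    (hv : Hk 3 v U) (he : ∀ z ∈ U, trace (levi v z * A z) = f z) (e : V ι) {z : V ι}
    (hz : z ∈ U) : trace (levi (fun w => fderiv ℝ v w e) z * A z) = fderiv ℝ f z e +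
      ∑ i, ∑ j, (-1) * (levi v z i j * fderiv ℝ (fun w => A w j i) z e) := by
  have hl : ∀ i j, DifferentiableAt ℝ (fun w => levi v w i j) z := fun i j =>
    (hk_levi hk hU (k := 1) hv i j).1 z hz
  have h1 : HasFDerivAt (fun w => ∑ i, ∑ j, levi v w i j * A w j i)
      (∑ i, ∑ j, (levi v z i j • fderiv ℝ (fun w => A w j i) z +
        A z j i • fderiv ℝ (fun w => levi v w i j) z)) z :=
    HasFDerivAt.fun_sum fun i _ => HasFDerivAt.fun_sum fun j _ =>
      (hl i j).hasFDerivAt.mul ((hA j i).1 z hz).hasFDerivAt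
  have h2 : f =ᶠ[𝓝 z] fun w => ∑ i, ∑ j, levi v w i j * A w j i := by
    filter_upwards [hU.mem_nhds hz] with w hw
    rw [← he w hw, trace_eq]
  rw [h2.fderiv_eq, h1.fderiv, trace_eq]
  simp only [_root_.sum_apply, _root_.add_apply,
    _root_.smul_apply, smul_eq_mul, levi_fderiv hk hU hv e hz]
  rw [← Finset.sum_add_distrib]
  refine Finset.sum_congr rfl fun i _ => ?_
  rw [← Finset.sum_add_distrib]
  refine Finset.sum_congr rfl fun j _ => ?_
  ring

theorem hk_const (hk : HkS) (hU : IsOpen U) (k : ℕ) (c : ℂ) : Hk k (fun _ : V ι => c) U :=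
  hk.of_smooth ι k _ U hU fun _ _ => contDiffAt_const

end RegL

open RegL

theorem regL (hd : DqS) (hk : HkS) : RegLS := by
  intro ι _ _ U k A v f hU hp
  induction k generalizing v f with
  | zero => exact fun _ _ hv _ => hv
  | succ k ih =>
    intro hA hf hv he
    have hAk : ∀ i j, Hk k (fun z => A z i j) U := fun i j => hk.mono ι k _ U hU (hA i j)
    have hA1 : ∀ i j, Hk 1 (fun z => A z i j) U := fun i j =>
      mono_le hk hU (Nat.succ_le_succ (Nat.zero_le k)) (hA i j)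
    have h3 : Hk 3 v U :=
      three hd hk hU hp hA1 (mono_le hk hU (Nat.succ_le_succ (Nat.zero_le k)) hf) hv he
    have hvk : Hk (k + 2) v U := ih v f hAk (hk.mono ι k f U hU hf) hv he
    refine ⟨hv.1, fun e => ih _ _ hAk ?_ (h3.2 e) fun z hz => deriv_eq hk hU hA1 h3 he e hz⟩
    exact hk.add ι k _ _ U hU (hf.2 e) (hk.sum ι ι _ k _ U hU fun i _ => hk.sum ι ι _ k _ U hU
      fun j _ => hk.mul ι k _ _ U hU (hk_const hk hU k _)
        (hk.mul ι k _ _ U hU (hk_levi hk hU hvk i j) ((hA j i).2 e)))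

theorem regB (hd : DqS) (hk : HkS) (hc : CurvS) : RegBS := by
  intro ι _ _ U a c H v f hU hH hf hv he
  have hi : ∀ k i j, Hk k (fun z => (H z)⁻¹ i j) U := fun k =>
    (hk.inv ι k H U hU fun i j => hk.of_smooth ι k _ U hU fun z hz => hH.1.1 z hz i j).2
      fun z hz => (hH.2 z hz).det_pos.ne'
  have hl : ∀ k i, Hk k (dz (lg H) i) U := fun k i =>
    (hk.dz ι k _ U i hU (hk.of_smooth ι (k + 1) _ U hU fun z hz =>
      (hc.dlg ι H U hU hH.1.1 hH.2 z hz).1)).1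
  have hall : ∀ k, Hk (k + 2) v U := fun k => by
    induction k with
    | zero => exact hv
    | succ k ih =>
      refine regL hd hk ι U (k + 1) (fun z => (H z)⁻¹) v (fun z => (c * v z + (-1) * f z) +
        a * ∑ i, ∑ j, (H z)⁻¹ j i * dz (lg H) i z * dzb v j z) hU (fun z hz => (hH.2 z hz).inv)
        (hi (k + 1)) ?_ hv fun z hz => ?_
      · exact hk.add ι _ _ _ U hU (hk.add ι _ _ _ U hU
          (hk.mul ι _ _ _ U hU (hk_const hk hU _ _) (hk.mono ι _ v U hU ih))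
          (hk.mul ι _ _ _ U hU (hk_const hk hU _ _) (hk.of_smooth ι _ f U hU hf)))
          (hk.mul ι _ _ _ U hU (hk_const hk hU _ _) (hk.sum ι ι _ _ _ U hU fun i _ =>
            hk.sum ι ι _ _ _ U hU fun j _ => hk.mul ι _ _ _ U hU
              (hk.mul ι _ _ _ U hU (hi _ j i) (hl _ i)) (hk.dz ι _ v U j hU ih).2))
      · rw [← he z hz]
        simp only [boxL, lapL]
        ring
  exact hk.smooth ι v U hU fun k => mono_le hk hU (Nat.le_add_right k 2) (hall k)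

end

end Pool.Agent.Lib.MP_813db1_ag.HS
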