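import Pool.Agent.Lib.MP_813db1_ag.HS.HolC

/-! Regularity for the complex Monge-Ampere equation. -/

namespace Pool.Agent.Lib.MP_813db1_ag.HS

open Complex Matrix Filter Topology Set Metric
open scoped ContDiff ComplexOrder

noncomputable section

namespace RegN

variable {ι : Type} [Fintype ι] [DecidableEq ι]

theorem cd_det {E : Type} [NormedAddCommGroup E] [NormedSpace ℝ E] {N : E → Mat ι}
    (h : ∀ i j, ContDiff ℝ 1 fun p => N p i j) : ContDiff ℝ 1 fun p => (N p).det := by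
  simp only [det_apply']
  exact ContDiff.sum fun σ _ => contDiff_const.mul (contDiff_prod fun i _ => h _ _)

theorem det_row (A : Mat ι) (i : ι) (b : ι → ℂ) :
    (A.updateRow i b).det = ∑ j, b j * A.adjugate j i := by
  rw [← cramer_transpose_apply, cramer_eq_adjugate_mulVec, ← adjugate_transpose]
  simp [mulVec, dotProduct, mul_comm]

/-- a polynomial divided difference of the determinant. -/
theorem tel : ∃ T : (ι → ι → ℂ) × (ι → ι → ℂ) → Mat ι, (∀ i j, ContDiff ℝ 1 fun p => T p i j) ∧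
    (∀ X Y : Mat ι, Y.det - X.det = trace ((Y - X) * T (X, Y))) ∧
    ∀ X : Mat ι, T (X, X) = X.adjugate := by
  letI : LinearOrder ι := LinearOrder.lift' (Fintype.equivFin ι) (Fintype.equivFin ι).injective
  refine ⟨fun p => Matrix.of fun j i =>
    (Matrix.of fun a b => if a < i then p.2 a b else p.1 a b).adjugate j i, fun j i => ?_,
    fun X Y => ?_, fun X => ?_⟩
  · simp only [of_apply, adjugate_apply]
    refine cd_det fun a b => ?_
    simp only [updateRow_apply, of_apply]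
    split_ifs
    · exact contDiff_const
    · fun_prop
    · fun_prop
  · have h := (detRowAlternating (n := ι) (R := ℂ)).toMultilinearMap.map_sub_map_piecewise Y X
      Finset.univ
    have e : ∀ d, @Finset.piecewise ι (fun _ => ι → ℂ) Finset.univ X Y d = X :=
      fun d => Finset.piecewise_univ X Y
    rw [e] at h
    refine h.trans ?_
    rw [trace]
    refine Finset.sum_congr rfl fun i _ => ?_
    simp only [diag_apply, mul_apply, of_apply]
    rw [← det_row]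
    change Matrix.det _ = _
    congr 1
    ext a b
    by_cases hab : a = i
    · subst hab
      simp
    · simp only [updateRow_apply, hab, Ne.symm hab, if_false, of_apply, Finset.mem_univ,
        forall_true_left]
      split_ifs <;> rfl
  · ext j i
    simp only [of_apply, ite_self]
    rfl

/-- the Hermitian version. -/
theorem telH : ∃ T : (ι → ι → ℂ) × (ι → ι → ℂ) → Mat ι, (∀ i j, ContDiff ℝ 1 fun p => T p i j) ∧
    (∀ p, (T p).IsHermitian) ∧ (∀ X Y : Mat ι, X.IsHermitian → Y.IsHermitian →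
      Y.det - X.det = trace ((Y - X) * T (X, Y))) ∧
    ∀ X : Mat ι, X.IsHermitian → T (X, X) = X.adjugate := by
  obtain ⟨T, h1, h2, h3⟩ := tel (ι := ι)
  refine ⟨fun p => (1 / 2 : ℂ) • (T p + (T p)ᴴ), fun i j => ?_, fun p => ?_, fun X Y hX hY => ?_,
    fun X hX => ?_⟩
  · simp only [Matrix.smul_apply, Matrix.add_apply, conjTranspose_apply, smul_eq_mul]
    exact contDiff_const.mul ((h1 i j).add (conjCLE.contDiff.comp (h1 j i)))
  · simp [IsHermitian, add_comm]
  · have e : trace ((Y - X) * (T (X, Y))ᴴ) = Y.det - X.det := by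
      have : (Y - X) * (T (X, Y))ᴴ = (T (X, Y) * (Y - X))ᴴ := by
        rw [conjTranspose_mul, (hY.sub hX).eq]
      rw [this, trace_conjTranspose, trace_mul_comm, ← h2, star_sub, ← det_conjTranspose,
        ← det_conjTranspose, hX.eq, hY.eq]
    rw [Matrix.mul_smul, Matrix.mul_add, trace_smul, trace_add, e, ← h2, smul_eq_mul]
    ring
  · beta_reduce
    rw [h3, adjugate_conjTranspose, hX.eq, ← two_smul ℂ, smul_smul]
    simp

/-- the Jacobi formula. -/
theorem jacobi {N : V ι → Mat ι} {z : V ι} (h : ∀ i j, DifferentiableAt ℝ (fun w => N w i j) z)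
    (e : V ι) : fderiv ℝ (fun w => (N w).det) z e =
      ∑ i, ∑ j, fderiv ℝ (fun w => N w i j) z e * (N z).adjugate j i := by
  obtain ⟨T, h1, h2, h3⟩ := tel (ι := ι)
  have hT : ∀ i j, DifferentiableAt ℝ (fun w => T (N z, N w) i j) z := fun i j =>
    ((h1 i j).differentiable one_ne_zero _).comp z ((differentiableAt_const _).prodMk
      (differentiableAt_pi.2 fun a => differentiableAt_pi.2 fun b => h a b))
  have e1 : (fun w => (N w).det) =
      fun w => (∑ i, ∑ j, (N w i j - N z i j) * T (N z, N w) j i) + (N z).det := by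
    funext w
    have := h2 (N z) (N w)
    simp only [trace, diag_apply, mul_apply, Matrix.sub_apply] at this
    rw [← this]
    ring
  have e2 := (HasFDerivAt.fun_sum (u := Finset.univ) fun i _ =>
    HasFDerivAt.fun_sum (u := Finset.univ) fun j _ =>
      ((h i j).hasFDerivAt.sub_const (N z i j)).fun_mul (hT j i).hasFDerivAt).add_const (N z).det
  rw [e1, e2.fderiv]
  simp [h3, mul_comm]

/-! ### uniform Hoelder bounds for families -/

section UH

variable {W W' : Type} [NormedAddCommGroup W] [NormedAddCommGroup W'] {z0 : V ι}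

omit [DecidableEq ι]

/-- Hoelder bounds near `z0`, uniform for small nonzero values of the parameter. -/
def UH (z0 : V ι) (F : ℝ → V ι → W) : Prop :=
  ∃ M, ∀ᶠ ρ in 𝓝[>] (0 : ℝ), ∀ τ : ℝ, τ ≠ 0 → |τ| < ρ → Hol M (F τ) (ball z0 ρ)

theorem ev_ball {Q : ℝ → V ι → Prop} (h : ∀ᶠ q : ℝ × V ι in 𝓝 (0, z0), Q q.1 q.2) :
    ∀ᶠ ρ in 𝓝[>] (0 : ℝ), ∀ τ : ℝ, |τ| < ρ → ∀ z ∈ ball z0 ρ, Q τ z := by
  obtain ⟨ε, hε, h⟩ := Metric.eventually_nhds_iff.1 h
  filter_upwards [Ioo_mem_nhdsGT hε] with ρ hρ τ hτ z hz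
  refine h (y := (τ, z)) ?_
  rw [Prod.dist_eq, Real.dist_eq, sub_zero]
  exact max_lt (hτ.trans hρ.2) ((mem_ball.1 hz).trans hρ.2)

theorem ev_small (e : V ι) {R : ℝ} (hR : 0 < R) : ∀ᶠ ρ in 𝓝[>] (0 : ℝ), ρ + ρ * ‖e‖ < R := by
  have : Tendsto (fun ρ : ℝ => ρ + ρ * ‖e‖) (𝓝 0) (𝓝 (0 + 0 * ‖e‖)) :=
    (by fun_prop : Continuous fun ρ : ℝ => ρ + ρ * ‖e‖).tendsto 0
  rw [zero_mul, add_zero] at this
  exact (this.eventually (gt_mem_nhds hR)).filter_mono nhdsWithin_le_nhds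

theorem mem_shift {e z : V ι} {R ρ s : ℝ} (h : ρ + ρ * ‖e‖ < R) (hs : |s| < ρ)
    (hz : z ∈ ball z0 ρ) : z + s • e ∈ ball z0 R := by
  rw [mem_ball, dist_eq_norm] at hz ⊢
  have h1 := norm_add_le (z - z0) (s • e)
  rw [norm_smul, Real.norm_eq_abs] at h1
  have h2 := mul_le_mul_of_nonneg_right hs.le (norm_nonneg e)
  rw [add_sub_right_comm]
  linarith

theorem UH.all {κ : Type} [Finite κ] {F : κ → ℝ → V ι → W} (h : ∀ a, UH z0 (F a)) :
    ∃ M ≥ 0, ∀ᶠ ρ in 𝓝[>] (0 : ℝ), ∀ τ : ℝ, τ ≠ 0 → |τ| < ρ → ∀ a, Hol M (F a τ) (ball z0 ρ) := by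
  choose M hM using h
  obtain ⟨B, hB⟩ := (Set.finite_range M).bddAbove
  refine ⟨max B 0, le_max_right _ _, ?_⟩
  filter_upwards [eventually_all.2 hM] with ρ h τ h1 h2 a
  exact (h a τ h1 h2).mono ((hB ⟨a, rfl⟩).trans (le_max_left _ _))

theorem UH.pi {κ : Type} [Fintype κ] {F : ℝ → V ι → κ → W} (h : ∀ a, UH z0 fun τ z => F τ z a) :
    UH z0 F := by
  obtain ⟨M, h0, hM⟩ := UH.all h
  refine ⟨M, ?_⟩
  filter_upwards [hM] with ρ h τ h1 h2
  exact ⟨fun z hz => (pi_norm_le_iff_of_nonneg h0).2 fun a => (h τ h1 h2 a).1 z hz,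
    fun z hz w hw => (pi_norm_le_iff_of_nonneg (by positivity)).2 fun a =>
      (h τ h1 h2 a).2 z hz w hw⟩

theorem UH.prod {F : ℝ → V ι → W} {G : ℝ → V ι → W'} (h : UH z0 F) (h' : UH z0 G) :
    UH z0 fun τ z => (F τ z, G τ z) := by
  obtain ⟨M, hM⟩ := h
  obtain ⟨N, hN⟩ := h'
  refine ⟨max M N, ?_⟩
  filter_upwards [hM, hN] with ρ h h' τ h1 h2
  have a := (h τ h1 h2).mono (le_max_left M N)
  have b := (h' τ h1 h2).mono (le_max_right M N)
  exact ⟨fun z hz => norm_prod_le_iff.2 ⟨a.1 z hz, b.1 z hz⟩,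
    fun z hz w hw => norm_prod_le_iff.2 ⟨a.2 z hz w hw, b.2 z hz w hw⟩⟩

theorem UH.sub {F G : ℝ → V ι → W} (h : UH z0 F) (h' : UH z0 G) :
    UH z0 fun τ z => F τ z - G τ z := by
  obtain ⟨M, hM⟩ := h
  obtain ⟨N, hN⟩ := h'
  exact ⟨M + N, by
    filter_upwards [hM, hN] with ρ h h' τ h1 h2 using (h τ h1 h2).sub (h' τ h1 h2)⟩

theorem UH.mul {F G : ℝ → V ι → ℂ} (h : UH z0 F) (h' : UH z0 G) :
    UH z0 fun τ z => F τ z * G τ z := by
  obtain ⟨M, hM⟩ := h
  obtain ⟨N, hN⟩ := h'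
  exact ⟨2 * M * N, by
    filter_upwards [hM, hN] with ρ h h' τ h1 h2 using (h τ h1 h2).mul (h' τ h1 h2)⟩

theorem UH.sum {κ : Type} [Fintype κ] {F : κ → ℝ → V ι → W} (h : ∀ a, UH z0 (F a)) :
    UH z0 fun τ z => ∑ a, F a τ z := by
  obtain ⟨M, -, hM⟩ := UH.all h
  exact ⟨∑ _a : κ, M, by
    filter_upwards [hM] with ρ h τ h1 h2 using Hol.sum Finset.univ fun a _ => h τ h1 h2 a⟩

theorem UH.shift {f : V ι → W} {R M : ℝ} (hR : 0 < R) (h : Hol M f (ball z0 R)) (e : V ι) :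
    UH z0 fun τ z => f (z + τ • e) := by
  refine ⟨M, ?_⟩
  filter_upwards [ev_small e hR] with ρ hρ τ _ h2
  refine ⟨fun z hz => h.1 _ (mem_shift hρ h2 hz), fun z hz w hw => ?_⟩
  have := h.2 _ (mem_shift hρ h2 hz) _ (mem_shift hρ h2 hw)
  rwa [add_sub_add_right_eq_sub] at this

theorem UH.comp [NormedSpace ℝ W] {P : ℝ → V ι → W} {p0 : W} {Φ : W → ℂ} (h : UH z0 P)
    (hP : Tendsto (fun q : ℝ × V ι => P q.1 q.2) (𝓝 (0, z0)) (𝓝 p0)) (hΦ : ContDiff ℝ 1 Φ) :
    UH z0 fun τ z => Φ (P τ z) := by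
  obtain ⟨M, hM⟩ := h
  obtain ⟨K, t, ht, hK⟩ := (hΦ.contDiffAt (x := p0)).exists_lipschitzOnWith
  have h1 : ∀ᶠ p in 𝓝 p0, ‖Φ p‖ < ‖Φ p0‖ + 1 :=
    hΦ.continuous.norm.continuousAt.eventually (gt_mem_nhds (lt_add_one _))
  refine ⟨max (‖Φ p0‖ + 1) (K * M), ?_⟩
  filter_upwards [hM, ev_ball (Q := fun τ z => P τ z ∈ t ∧ ‖Φ (P τ z)‖ < ‖Φ p0‖ + 1)
    (hP.eventually ((show ∀ᶠ p in 𝓝 p0, p ∈ t from ht).and h1))] with ρ a b τ h1 h2
  refine ⟨fun z hz => (b τ h2 z hz).2.le.trans (le_max_left _ _), fun z hz w hw => ?_⟩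
  have c := hK.dist_le_mul _ (b τ h2 z hz).1 _ (b τ h2 w hw).1
  rw [dist_eq_norm, dist_eq_norm] at c
  have d := mul_le_mul_of_nonneg_left ((a τ h1 h2).2 z hz w hw) K.2
  refine c.trans (d.trans ?_)
  rw [← mul_assoc]
  exact mul_le_mul_of_nonneg_right (le_max_right _ _) (Real.sqrt_nonneg _)

theorem mv {g g' : ℝ → ℂ} {τ C : ℝ} (hτ : τ ≠ 0)
    (h : ∀ s, |s| ≤ |τ| → HasDerivAt g (g' s) s ∧ ‖g' s‖ ≤ C) : ‖(g τ - g 0) / τ‖ ≤ C := by
  have := (convex_closedBall (0 : ℝ) |τ|).norm_image_sub_le_of_norm_hasDerivWithin_le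
    (f := g) (f' := g') (C := C) (x := 0) (y := τ)
    (fun s hs => (h s (by simpa using hs)).1.hasDerivWithinAt)
    (fun s hs => (h s (by simpa using hs)).2) (by simp) (by simp)
  rw [norm_div, div_le_iff₀ (by simpa using hτ)]
  simpa using this

theorem UH.dq {f : V ι → ℂ} {R M : ℝ} (hR : 0 < R) (h : Hol2 M f (ball z0 R)) (e : V ι) :
    UH z0 (dq f e) := by
  refine ⟨M * ‖e‖, ?_⟩
  filter_upwards [ev_small e hR] with ρ hρ τ h1 h2
  have key : ∀ z ∈ ball z0 ρ, ∀ s : ℝ, |s| ≤ |τ| →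
      HasDerivAt (fun s : ℝ => f (z + s • e)) (fderiv ℝ f (z + s • e) e) s := by
    intro z hz s hs
    have a := ((h.1 _ (mem_shift hρ (hs.trans_lt h2) hz)).differentiableAt two_ne_zero).hasFDerivAt
    have b : HasDerivAt (fun s : ℝ => z + s • e) e s := by
      simpa using ((hasDerivAt_id s).smul_const e).const_add z
    exact a.comp_hasDerivAt s b
  refine ⟨fun z hz => ?_, fun z hz w hw => ?_⟩
  · have := mv (C := M * ‖e‖) h1 fun s hs => ⟨key z hz s hs,
      (fderiv ℝ f _).le_of_opNorm_le (h.2.2.1.1 _ (mem_shift hρ (hs.trans_lt h2) hz)) e⟩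
    simpa [HS.dq] using this
  · have := mv (C := M * √‖z - w‖ * ‖e‖) h1 fun s hs => ⟨(key z hz s hs).fun_sub (key w hw s hs), by
      have c := h.2.2.1.2 _ (mem_shift hρ (hs.trans_lt h2) hz) _ (mem_shift hρ (hs.trans_lt h2) hw)
      rw [add_sub_add_right_eq_sub] at c
      exact (fderiv ℝ f _ - fderiv ℝ f _).le_of_opNorm_le c e⟩
    simp only [zero_smul, add_zero] at this
    rw [mul_right_comm]
    refine le_of_eq_of_le (congrArg _ ?_) this
    simp only [HS.dq]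
    ring

end UH

/-! ### derivatives of difference quotients and commutation -/

section Comm

variable {f : V ι → ℂ} {z e : V ι} {τ : ℝ}

omit [DecidableEq ι] in
theorem fd_dq (h0 : DifferentiableAt ℝ f z) (h1 : DifferentiableAt ℝ f (z + τ • e)) (a : V ι) :
    fderiv ℝ (dq f e τ) z a = (fderiv ℝ f (z + τ • e) a - fderiv ℝ f z a) / τ := by
  have h := (((hasFDerivAt_comp_add_right (τ • e)).2 h1.hasFDerivAt).fun_sub
    h0.hasFDerivAt).mul_const ((τ : ℂ)⁻¹)
  have e1 : dq f e τ = fun y => (f (y + τ • e) - f y) * (τ : ℂ)⁻¹ := by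
    funext y
    rw [dq, div_eq_mul_inv]
  rw [e1, h.fderiv]
  simp [div_eq_mul_inv, mul_comm]

theorem diff_dzb (h : ContDiffAt ℝ 2 f z) (j : ι) : DifferentiableAt ℝ (dzb f j) z := by
  have h1 : DifferentiableAt ℝ (fderiv ℝ f) z :=
    (h.fderiv_right (m := 1) (by norm_num)).differentiableAt one_ne_zero
  unfold dzb
  fun_prop

theorem levi_dq {U : Set (V ι)} (hU : IsOpen U) (h : ∀ z ∈ U, ContDiffAt ℝ 2 f z) (h0 : z ∈ U)
    (h1 : z + τ • e ∈ U) (i j : ι) :
    levi (dq f e τ) z i j = (levi f (z + τ • e) i j - levi f z i j) / τ := by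
  have e1 : dzb (dq f e τ) j =ᶠ[𝓝 z] dq (dzb f j) e τ := by
    have c : ContinuousAt (fun w : V ι => w + τ • e) z := by fun_prop
    filter_upwards [hU.mem_nhds h0, c.eventually (hU.mem_nhds h1)] with w a b
    have a' := (h w a).differentiableAt two_ne_zero
    have b' := (h _ b).differentiableAt two_ne_zero
    rw [dzb, fd_dq a' b', fd_dq a' b', dq, dzb, dzb]
    ring
  have a' := diff_dzb (h z h0) j
  have b' := diff_dzb (h _ h1) j
  simp only [levi, of_apply, dz]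
  rw [e1.fderiv_eq, fd_dq a' b', fd_dq a' b']
  ring

omit [DecidableEq ι] in
theorem comm (h : ContDiffAt ℝ 2 f z) (a b : V ι) :
    fderiv ℝ (fun w => fderiv ℝ f w a) z b = fderiv ℝ (fun w => fderiv ℝ f w b) z a := by
  have h1 : DifferentiableAt ℝ (fderiv ℝ f) z :=
    (h.fderiv_right (m := 1) (by norm_num)).differentiableAt one_ne_zero
  rw [fderiv_clm_apply h1 (differentiableAt_const _), fderiv_clm_apply h1 (differentiableAt_const _)]
  simpa using h.isSymmSndFDerivAt (by simp) b a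

omit [DecidableEq ι] in
theorem fd_lin (h : ContDiffAt ℝ 2 f z) (a b : V ι) (c : ℂ) :
    fderiv ℝ (fun w => (fderiv ℝ f w a + c * fderiv ℝ f w b) / 2) z e =
      (fderiv ℝ (fun w => fderiv ℝ f w e) z a + c * fderiv ℝ (fun w => fderiv ℝ f w e) z b) / 2 := by
  have h1 : DifferentiableAt ℝ (fderiv ℝ f) z :=
    (h.fderiv_right (m := 1) (by norm_num)).differentiableAt one_ne_zero
  have ha : DifferentiableAt ℝ (fun w => fderiv ℝ f w a) z := by fun_prop
  have hb : DifferentiableAt ℝ (fun w => fderiv ℝ f w b) z := by fun_prop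
  have := (ha.hasFDerivAt.fun_add (hb.hasFDerivAt.const_mul c)).mul_const (2 : ℂ)⁻¹
  simp only [div_eq_mul_inv]
  rw [this.fderiv, comm h e a, comm h e b]
  simp [mul_comm, mul_add]

theorem levi_fd {U : Set (V ι)} (hU : IsOpen U) (h : ∀ z ∈ U, ContDiffAt ℝ 2 f z)
    (h' : ∀ j, ContDiffAt ℝ 2 (dzb f j) z) (h0 : z ∈ U) (i j : ι) :
    fderiv ℝ (fun w => levi f w i j) z e = levi (fun w => fderiv ℝ f w e) z i j := by
  have e1 : dzb (fun w => fderiv ℝ f w e) j =ᶠ[𝓝 z] fun w => fderiv ℝ (dzb f j) w e := by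
    filter_upwards [hU.mem_nhds h0] with w a
    exact (fd_lin (h w a) _ _ I).symm
  have := fd_lin (e := e) (h' j) (Pi.single i 1) (Pi.single i I) (-I)
  simp only [levi, of_apply, dz]
  rw [e1.fderiv_eq]
  simpa only [neg_mul, ← sub_eq_add_neg] using this

end Comm

theorem hk_le (hk : HkS) {f : V ι → ℂ} {U : Set (V ι)} (hU : IsOpen U) (k : ℕ) :
    ∀ m, Hk (k + m) f U → Hk k f U
  | 0, h => h
  | m + 1, h => hk_le hk hU k m (hk.mono ι _ f U hU h)

theorem hk_levi (hk : HkS) {f : V ι → ℂ} {U : Set (V ι)} (hU : IsOpen U) {k : ℕ}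
    (h : Hk (k + 2) f U) (i j : ι) : Hk k (fun z => levi f z i j) U :=
  (hk.dz ι k _ U i hU (hk.dz ι (k + 1) f U j hU h).2).1

/-- the first step. -/
theorem first (hd : DqS) (hk : HkS) {U : Set (V ι)} {G : V ι → Mat ι} {v E : V ι → ℂ}
    (hU : IsOpen U) (hG : SmM G U) (hv : Hk 2 v U) (hE : Hk 2 E U)
    (hH : ∀ z ∈ U, (G z + levi v z).PosDef ∧ (G z + levi v z).det = E z) : Hk 3 v U := by
  refine ⟨hv.1, fun e => hk.loc ι 2 _ U fun z0 hz0 => ?_⟩
  obtain ⟨T, t1, t2, t3, t4⟩ := telH (ι := ι)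
  set H : V ι → Mat ι := fun z => G z + levi v z with hHd
  have hG' : ∀ k i j, Hk k (fun z => G z i j) U := fun k i j =>
    hk.of_smooth ι k _ U hU fun z hz => hG z hz i j
  have h0 : ∀ i j, Hk 0 (fun z => H z i j) U := fun i j =>
    hk.add ι 0 _ _ U hU (hG' 0 i j) (hk_levi hk hU hv i j)
  have hA0 : (H z0).adjugate.PosDef := by
    have p := (hH z0 hz0).1
    have : (H z0).adjugate = (H z0).det • (H z0)⁻¹ := by
      rw [Matrix.inv_def, smul_smul, Ring.inverse_eq_inv', mul_inv_cancel₀ p.det_pos.ne', one_smul]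
    rw [this]
    exact p.inv.smul p.det_pos
  have hs : ∀ e : V ι, UH z0 fun τ z => fun i j => H (z + τ • e) i j := fun e =>
    UH.pi fun i => UH.pi fun j => by
      obtain ⟨r, hr, M, hM⟩ := h0 i j z0 hz0
      exact UH.shift hr hM e
  have sh : ∀ e : V ι, Tendsto (fun q : ℝ × V ι => q.2 + q.1 • e) (𝓝 (0, z0)) (𝓝 z0) := fun e => by
    simpa using (by fun_prop : Continuous fun q : ℝ × V ι => q.2 + q.1 • e).tendsto (0, z0)
  have hc : ∀ e : V ι, Tendsto (fun q : ℝ × V ι => fun i j => H (q.2 + q.1 • e) i j) (𝓝 (0, z0))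
      (𝓝 fun i j => H z0 i j) := fun e => tendsto_pi_nhds.2 fun i => tendsto_pi_nhds.2 fun j =>
    (hk.cdiff ι 0 _ U hU (h0 i j) z0 hz0).continuousAt.tendsto.comp (sh e)
  have hP := (hs 0).prod (hs e)
  have hP' := (hc 0).prodMk_nhds (hc e)
  simp only [smul_zero, add_zero] at hP hP'
  have hA : ∀ i j, UH z0 fun τ z => T (H z, H (z + τ • e)) i j := fun i j => hP.comp hP' (t1 i j)
  have hq : ∀ f : V ι → ℂ, Hk 2 f U → UH z0 (dq f e) := fun f hf => by
    obtain ⟨r, hr, M, hM⟩ := (hk.two ι f U hU).1 hf z0 hz0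
    exact UH.dq hr hM e
  obtain ⟨M, -, hM⟩ := UH.all (κ := ι × ι) fun a => hA a.1 a.2
  obtain ⟨N, hN⟩ := (hq E hE).sub (UH.sum fun i => UH.sum fun j => (hq _ (hG' 2 i j)).mul (hA j i))
  obtain ⟨r, hr, h⟩ := hd ι U v z0 e _ hU hz0 hA0 hv fun o ho => by
    have c1 : ∀ i j, ∀ᶠ q : ℝ × V ι in 𝓝 (0, z0),
        ‖(T (H q.2, H (q.2 + q.1 • e)) - (H z0).adjugate) i j‖ ≤ o := fun i j => by
      have := ((t1 i j).continuous.tendsto _).comp hP'
      rw [← t4 _ (hH z0 hz0).1.isHermitian]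
      filter_upwards [Metric.tendsto_nhds.1 this o ho] with q hq
      rw [dist_eq_norm] at hq
      exact hq.le
    have c2 : ∀ᶠ q : ℝ × V ι in 𝓝 (0, z0), q.2 ∈ U ∧ q.2 + q.1 • e ∈ U :=
      (continuous_snd.continuousAt.eventually (hU.mem_nhds hz0)).and
        ((sh e).eventually (hU.mem_nhds hz0))
    obtain ⟨ρ, ⟨⟨⟨a1, a2⟩, a3⟩, a4⟩, a5⟩ := ((((hM.and hN).and
      (ev_ball (Q := fun τ z => ∀ i j, ‖(T (H z, H (z + τ • e)) - (H z0).adjugate) i j‖ ≤ o)
        (eventually_all.2 fun i => eventually_all.2 fun j => c1 i j))).and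
      (ev_ball (Q := fun τ z => z ∈ U ∧ z + τ • e ∈ U) c2)).and self_mem_nhdsWithin).exists
    refine ⟨ρ, a5, ρ, a5, max M N, fun τ h1 h2 => ⟨fun z => T (H z, H (z + τ • e)),
      fun z hz => ⟨t2 _, a3 τ h2 z hz⟩, fun i j => (a1 τ h1 h2 (i, j)).mono (le_max_left _ _),
      ((a2 τ h1 h2).mono (le_max_right _ _)).congr fun z hz => ?_⟩⟩
    obtain ⟨b0, b1⟩ := a4 τ h2 z hz
    have k := t3 _ _ (hH z b0).1.isHermitian (hH _ b1).1.isHermitian
    rw [(hH z b0).2, (hH _ b1).2] at k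
    have hτ : (τ : ℂ) ≠ 0 := ofReal_ne_zero.2 h1
    simp only [trace, diag_apply, mul_apply, dq, k, Matrix.sub_apply, Matrix.add_apply,
      levi_dq hU (hk.cdiff ι 2 v U hU hv) b0 b1, Finset.sum_div, ← Finset.sum_sub_distrib]
    refine Finset.sum_congr rfl fun i _ => Finset.sum_congr rfl fun j _ => ?_
    simp only [hHd]
    ring
  exact ⟨_, mem_ball_self hr, h⟩

end RegN

/-- solutions of the complex Monge-Ampere equation are smooth. -/
theorem regN (hd : DqS) (hl : RegLS) (hk : HkS) (hm : MatS) : RegNS := by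
  intro ι _ _ U G u F hU hG _ hF hv hH
  set v : V ι → ℂ := fun w => (u w : ℂ) with hvd
  have hF' : ∀ k, Hk k (fun z => (F z : ℂ)) U := fun k =>
    hk.of_smooth ι k _ U hU fun z hz => ofRealCLM.contDiff.contDiffAt.comp z (hF z hz)
  have hG' : ∀ k i j, Hk k (fun z => G z i j) U := fun k i j =>
    hk.of_smooth ι k _ U hU fun z hz => hG z hz i j
  have hdet : ∀ z ∈ U, (G z + levi v z).det = cexp (v z + F z) := fun z hz => by
    obtain ⟨a, b⟩ := hm.det ι _ (hH z hz).1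
    rw [b, ← Real.exp_log a, (hH z hz).2]
    simp [hvd]
  have step : ∀ k, Hk (k + 3) v U := by
    intro k
    induction k with
    | zero =>
      exact RegN.first hd hk hU hG hv (hk.comp ι 2 _ cexp U hU
        (fun z _ => Complex.contDiff_exp.contDiffAt) (hk.add ι 2 _ _ U hU hv (hF' 2)))
        fun z hz => ⟨(hH z hz).1, hdet z hz⟩
    | succ k ih =>
      refine ⟨hv.1, fun e => ?_⟩
      have h1 : ∀ i j, Hk (k + 1) (fun z => (G z + levi v z) i j) U := fun i j =>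
        hk.add ι _ _ _ U hU (hG' _ i j) (RegN.hk_levi hk hU ih i j)
      have h2 := (hk.inv ι (k + 1) _ U hU h1).2 fun z hz => (hH z hz).1.det_pos.ne'
      have h3 : Hk (k + 2) (fun z => fderiv ℝ v z e) U := ih.2 e
      refine hl ι U (k + 1) (fun z => (G z + levi v z)⁻¹) _ (fun z => fderiv ℝ v z e +
        fderiv ℝ (fun z => (F z : ℂ)) z e + ∑ i, ∑ j, -1 * fderiv ℝ (fun z => G z i j) z e *
          (G z + levi v z)⁻¹ j i) hU (fun z hz => (hH z hz).1.inv) h2
        (hk.add ι _ _ _ U hU (hk.add ι _ _ _ U hU (hk.mono ι _ _ U hU h3) ((hF' (k + 2)).2 e))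
          (hk.sum ι ι _ _ _ U hU fun i _ => hk.sum ι ι _ _ _ U hU fun j _ =>
            hk.mul ι _ _ _ U hU (hk.mul ι _ _ _ U hU
              (hk.of_smooth ι _ _ U hU fun _ _ => contDiffAt_const) ((hG' (k + 2) i j).2 e))
              (h2 j i)))
        (RegN.hk_le hk hU 2 k (by rwa [add_comm])) fun z hz => ?_
      have j1 := RegN.jacobi (fun i j => (h1 i j).1 z hz) e
      have e1 : (fun w => (G w + levi v w).det) =ᶠ[𝓝 z] fun w => cexp (v w + F w) := by
        filter_upwards [hU.mem_nhds hz] with w hw using hdet w hw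
      have d1 := ((hv.1 z hz).hasFDerivAt.fun_add ((hF' 1).1 z hz).hasFDerivAt).cexp
      have hne := (hH z hz).1.det_pos.ne'
      have adj : (G z + levi v z).adjugate = (G z + levi v z).det • (G z + levi v z)⁻¹ := by
        rw [Matrix.inv_def, smul_smul, Ring.inverse_eq_inv', mul_inv_cancel₀ hne, one_smul]
      have d2 : ∀ i j, fderiv ℝ (fun w => (G w + levi v w) i j) z e =
          fderiv ℝ (fun w => G w i j) z e + levi (fun w => fderiv ℝ v w e) z i j := fun i j => by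
        have h3' : Hk 3 v U := RegN.hk_le hk hU 3 k (by rwa [add_comm])
        rw [← RegN.levi_fd hU (hk.cdiff ι 2 v U hU hv)
          (fun j => hk.cdiff ι 2 _ U hU (hk.dz ι 2 v U j hU h3').2 z hz) hz]
        have := (((hG' 1 i j).1 z hz).hasFDerivAt.fun_add
          ((RegN.hk_levi hk hU (k := 1) h3' i j).1 z hz).hasFDerivAt).fderiv
        simp only [Matrix.add_apply]
        rw [this]
        rfl
      rw [e1.fderiv_eq, d1.fderiv, ← hdet z hz, adj] at j1
      simp only [d2, Matrix.smul_apply, smul_eq_mul, _root_.smul_apply, _root_.add_apply] at j1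
      have j2 : fderiv ℝ v z e + fderiv ℝ (fun z => (F z : ℂ)) z e = ∑ i, ∑ j,
          (fderiv ℝ (fun w => G w i j) z e + levi (fun w => fderiv ℝ v w e) z i j) *
            (G z + levi v z)⁻¹ j i := by
        refine mul_left_cancel₀ hne (j1.trans ?_)
        simp only [Finset.mul_sum]
        exact Finset.sum_congr rfl fun i _ => Finset.sum_congr rfl fun j _ => by ring
      simp only [j2, trace, diag_apply, mul_apply, ← Finset.sum_add_distrib]
      exact Finset.sum_congr rfl fun i _ => Finset.sum_congr rfl fun j _ => by ring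
  intro z hz
  exact reCLM.contDiff.contDiffAt.comp z
    (hk.smooth ι v U hU (fun k => RegN.hk_le hk hU k 3 (step k)) z hz)

end

end Pool.Agent.Lib.MP_813db1_ag.HS
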