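import Pool.Agent.Lib.MP_813db1_ag.HS.RepA1
import Pool.Agent.Lib.MP_813db1_ag.HS.Calc2

/-! Change of charts: regularity is a local property. -/

namespace Pool.Agent.Lib.MP_813db1_ag.HS

open MeasureTheory Complex Matrix Filter Topology Set Metric
open scoped ContDiff ComplexOrder

namespace RepA

variable {ι : Type} [Fintype ι] [DecidableEq ι]

omit [DecidableEq ι] in
theorem pull_add (J B B' : Mat ι) : pull J (B + B') = pull J B + pull J B' := by
  simp only [pull, Matrix.mul_add, Matrix.add_mul]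

omit [DecidableEq ι] in
theorem pull_smul (c : ℂ) (J B : Mat ι) : pull J (c • B) = c • pull J B := by
  simp only [pull, Matrix.mul_smul, Matrix.smul_mul]

omit [DecidableEq ι] in
theorem pull_herm (J : Mat ι) {B : Mat ι} (h : B.IsHermitian) : (pull J B).IsHermitian := by
  have e : Jᵀ = (J.map star)ᴴ := by
    ext i j
    simp
  rw [pull, e]
  exact isHermitian_conjTranspose_mul_mul _ h

theorem analyticAt_det {φ : V ι → V ι} {z : V ι} (h : AnalyticAt ℂ φ z) :
    AnalyticAt ℂ (fun w => (jac φ w).det) z := by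
  simp only [det_apply']
  exact Finset.analyticAt_fun_sum _ fun σ _ =>
    analyticAt_const.mul (Finset.analyticAt_fun_prod _ fun i _ => analyticAt_jac h (σ i) i)

omit [DecidableEq ι] in
theorem cd_an {n : WithTop ℕ∞} {F : Type} [NormedAddCommGroup F] [NormedSpace ℂ F]
    [CompleteSpace F] {φ : V ι → F} {z : V ι} (h : AnalyticAt ℂ φ z) : ContDiffAt ℝ n φ z :=
  h.contDiffAt.restrict_scalars ℝ

theorem cdM_pull {n : WithTop ℕ∞} {φ : V ι → V ι} {G : V ι → Mat ι} {z : V ι}
    (h : AnalyticAt ℂ φ z) (hG : CdM n G (φ z)) : CdM n (fun w => pull (jac φ w) (G (φ w))) z :=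
  (cdM_jac h).pull fun i j => (hG i j).comp z (cd_an h)

/-- the pull back of a closed form is closed. -/
theorem pull_closed {φ : V ι → V ι} {G : V ι → Mat ι} {z : V ι} (h : AnalyticAt ℂ φ z)
    (hG : DfM G (φ z))
    (hc : ∀ i j k, dz (fun w => G w i j) k (φ z) = dz (fun w => G w k j) i (φ z)) (i j k : ι) :
    dz (fun w => pull (jac φ w) (G (φ w)) i j) k z =
      dz (fun w => pull (jac φ w) (G (φ w)) k j) i z := by
  have hJ : CdM 1 (jac φ) z := cdM_jac h
  have hφ : DfM (fun w => G (φ w)) z := fun p q =>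
    (hG p q).comp z ((cd_an (n := 1) h).differentiableAt one_ne_zero)
  have d1 : DfM (fun w => (jac φ w)ᵀ) z := hJ.transpose.df one_ne_zero
  have e0 : ∀ k, dM (fun w => (jac φ w).map star) k z = 0 := fun k => Matrix.ext fun p q => by
    change dz (fun w => star (jac φ w p q)) k z = 0
    rw [dz_star, dzb_hol (analyticAt_jac h p q).differentiableAt, star_zero]
  have e1 : ∀ i k p, dM (fun w => (jac φ w)ᵀ) k z i p = dz (dz (fun w => φ w p) i) k z :=
    fun i k p => dz_congr (h.eventually_analyticAt.mono fun w hw =>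
      jac_eq_dz hw.differentiableAt p i) k
  have e2 : ∀ k p q, dM (fun w => G (φ w)) k z p q =
      ∑ r, jac φ z r k * dz (fun w => G w p q) r (φ z) :=
    fun k p q => dz_comp (hG p q) h.differentiableAt k
  have e3 : ∀ q, (dM (fun w => (jac φ w)ᵀ) k z * G (φ z) +
      (jac φ z)ᵀ * dM (fun w => G (φ w)) k z) i q =
      (dM (fun w => (jac φ w)ᵀ) i z * G (φ z) + (jac φ z)ᵀ * dM (fun w => G (φ w)) i z) k q := by
    intro q
    simp only [Matrix.add_apply, mul_apply, e1, e2, transpose_apply, Finset.mul_sum]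
    congr 1
    · exact Finset.sum_congr rfl fun p _ => by
        rw [dz_dz_comm (contDiffAt_pi.1 (cd_an h) p) k i]
    · rw [Finset.sum_comm]
      exact Finset.sum_congr rfl fun p _ => Finset.sum_congr rfl fun r _ => by
        rw [hc r q p]
        ring
  change dM (fun w => (jac φ w)ᵀ * G (φ w) * (jac φ w).map star) k z i j =
    dM (fun w => (jac φ w)ᵀ * G (φ w) * (jac φ w).map star) i z k j
  rw [dM_mul (d1.mul hφ) (hJ.mapStar.df one_ne_zero), dM_mul (d1.mul hφ) (hJ.mapStar.df one_ne_zero),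
    e0, e0, Matrix.mul_zero, add_zero, add_zero, dM_mul d1 hφ, dM_mul d1 hφ, mul_apply, mul_apply]
  exact Finset.sum_congr rfl fun q _ => by rw [e3 q]

variable {X : Type} [TopologicalSpace X] (M : Atl ι X)

omit [Fintype ι] [DecidableEq ι] in
theorem fn_ev (u : X → ℝ) {e e' : Ch ι X} {x : X} (hx : x ∈ e.source) (hx' : x ∈ e'.source) :
    fn u e =ᶠ[𝓝 (e x)] fn u e' ∘ (e' ∘ e.symm) :=
  (ev_src hx hx').mono fun w h => by
    simp only [fn, Function.comp_apply, e'.left_inv h.2]

theorem rep_ev (m : ℕ) (σ : X → ℂ) {e e' : Ch ι X} (he : e ∈ M.A) (he' : e' ∈ M.A) {x : X}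
    (hx : x ∈ e.source) (hx' : x ∈ e'.source) : M.rep m σ e =ᶠ[𝓝 (e x)]
      fun w => (jac (e' ∘ e.symm) w).det ^ m * M.rep m σ e' ((e' ∘ e.symm) w) :=
  (ev_src hx hx').mono fun w h => by
    have h1 := rep_tr M m σ e he e' he' _ (e.map_target h.1) h.2
    rwa [tj, e.right_inv h.1] at h1

theorem repF_ev (B : X → Mat ι) {e e' : Ch ι X} (he : e ∈ M.A) (he' : e' ∈ M.A) {x : X}
    (hx : x ∈ e.source) (hx' : x ∈ e'.source) : M.repF B e =ᶠ[𝓝 (e x)]
      fun w => pull (jac (e' ∘ e.symm) w) (M.repF B e' ((e' ∘ e.symm) w)) :=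
  (ev_src hx hx').mono fun w h => by
    have h1 := repF_tr M B e he e' he' _ (e.map_target h.1) h.2
    rwa [tj, e.right_inv h.1] at h1

omit [Fintype ι] [DecidableEq ι] in
theorem tgt {e : Ch ι X} {P : V ι → Prop} (h : ∀ x ∈ e.source, P (e x)) : ∀ z ∈ e.target, P z :=
  fun _ hz => e.right_inv hz ▸ h _ (e.map_target hz)

omit [DecidableEq ι] in
theorem ck_loc (k : WithTop ℕ∞) (u : X → ℝ)
    (h : ∀ x, ∃ e ∈ M.A, x ∈ e.source ∧ ContDiffAt ℝ k (fn u e) (e x)) : M.Ck k u := by
  refine fun e he => tgt fun x hx => ?_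
  obtain ⟨e', he', hx', h1⟩ := h x
  rw [← tr_apply e' hx] at h1
  exact (h1.comp _ (cd_an (M.hol e he e' he' x hx hx'))).congr_of_eventuallyEq (fn_ev u hx hx')

theorem ckS_loc (k : WithTop ℕ∞) (m : ℕ) (σ : X → ℂ)
    (h : ∀ x, ∃ e ∈ M.A, x ∈ e.source ∧ ContDiffAt ℝ k (M.rep m σ e) (e x)) : M.CkS k m σ := by
  refine fun e he => tgt fun x hx => ?_
  obtain ⟨e', he', hx', h1⟩ := h x
  rw [← tr_apply e' hx] at h1
  have ha := M.hol e he e' he' x hx hx'
  exact (((cd_an (analyticAt_det ha)).pow m).mul (h1.comp _ (cd_an ha))).congr_of_eventuallyEq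
    (rep_ev M m σ he he' hx hx')

theorem holS_loc (m : ℕ) (σ : X → ℂ)
    (h : ∀ x, ∃ e ∈ M.A, x ∈ e.source ∧ DifferentiableAt ℂ (M.rep m σ e) (e x)) :
    M.HolS m σ := by
  refine fun e he z hz => DifferentiableAt.differentiableWithinAt (tgt (fun x hx => ?_) z hz)
  obtain ⟨e', he', hx', h1⟩ := h x
  rw [← tr_apply e' hx] at h1
  have ha := M.hol e he e' he' x hx hx'
  exact (((analyticAt_det ha).differentiableAt.fun_pow m).fun_mul
    (h1.comp _ ha.differentiableAt)).congr_of_eventuallyEq (rep_ev M m σ he he' hx hx')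

theorem cdM_tr {n : WithTop ℕ∞} {B : X → Mat ι} {e e' : Ch ι X} (he : e ∈ M.A) (he' : e' ∈ M.A)
    {x : X} (hx : x ∈ e.source) (hx' : x ∈ e'.source) (h : CdM n (M.repF B e') (e' x)) :
    CdM n (M.repF B e) (e x) := by
  rw [← tr_apply e' hx] at h
  exact fun i j => (cdM_pull (M.hol e he e' he' x hx hx') h i j).congr_of_eventuallyEq
    ((repF_ev M B he he' hx hx').mono fun _ h => congrFun₂ h i j)

theorem smF_loc (B : X → Mat ι) (h : ∀ x, ∃ e ∈ M.A, x ∈ e.source ∧ SmM (M.repF B e) {e x}) :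
    M.SmF B := by
  refine fun e he => tgt fun x hx => ?_
  obtain ⟨e', he', hx', h1⟩ := h x
  exact cdM_tr M he he' hx hx' (h1 _ rfl)

theorem clF_loc (B : X → Mat ι) (h : ∀ x, ∃ e ∈ M.A, x ∈ e.source ∧ ClOn (M.repF B e) {e x}) :
    M.ClF B := by
  refine fun e he => ⟨smF_loc M B (fun x => (h x).imp fun _ h => ⟨h.1, h.2.1, h.2.2.1⟩) e he,
    tgt fun x hx => ?_, tgt fun x hx i j k => ?_⟩
  · obtain ⟨e', he', hx', h1⟩ := h x
    rw [repF_tr M B e he e' he' x hx hx']
    exact pull_herm _ (h1.2.1 _ rfl)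
  · obtain ⟨e', he', hx', h1⟩ := h x
    rw [← tr_apply e' hx] at h1
    have ev := fun i j => (repF_ev M B he he' hx hx').mono fun _ h => congrFun₂ h i j
    rw [dz_congr (ev i j), dz_congr (ev k j)]
    exact pull_closed (M.hol e he e' he' x hx hx') (h1.1.df rfl) (h1.2.2 _ rfl) i j k

theorem isK_iff (hm : MatS) (B : X → Mat ι) : M.IsK B ↔ M.ClF B ∧ ∀ x, (B x).PosDef :=
  ⟨fun h => ⟨fun e he => (h e he).1, fun x => repF_self M B x ▸
      (h _ (M.ch_mem x)).2 _ ((M.ch x).map_source (M.mem x))⟩,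
    fun h e he => ⟨h.1 e he, fun _ hz => (hm.pull_pd ι _ _
      (tj_det M e he _ (M.ch_mem _) _ (e.map_target hz) (M.mem _))).1 (h.2 _)⟩⟩

theorem repF_add (B B' : X → Mat ι) (e : Ch ι X) :
    M.repF (fun x => B x + B' x) e = fun z => M.repF B e z + M.repF B' e z :=
  funext fun _ => pull_add _ _ _

theorem repF_smul (c : ℂ) (B : X → Mat ι) (e : Ch ι X) :
    M.repF (fun x => c • B x) e = fun z => c • M.repF B e z :=
  funext fun _ => pull_smul _ _ _

theorem clF_add (B B' : X → Mat ι) (h : M.ClF B) (h' : M.ClF B') :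
    M.ClF fun x => B x + B' x := by
  intro e he
  obtain ⟨a1, a2, a3⟩ := h e he
  obtain ⟨b1, b2, b3⟩ := h' e he
  rw [repF_add]
  refine ⟨a1.add b1, fun z hz => (a2 z hz).add (b2 z hz), fun z hz i j k => ?_⟩
  simp only [Matrix.add_apply]
  rw [dz_add (a1.df hz i j) (b1.df hz i j), dz_add (a1.df hz k j) (b1.df hz k j), a3 z hz, b3 z hz]

theorem clF_smul (c : ℝ) (B : X → Mat ι) (h : M.ClF B) : M.ClF fun x => (c : ℂ) • B x := by
  intro e he
  obtain ⟨a1, a2, a3⟩ := h e he
  rw [repF_smul]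
  refine ⟨SmM.smul (fun _ _ => contDiffAt_const) a1,
    fun z hz => (a2 z hz).smul (conj_ofReal c), fun z hz i j k => ?_⟩
  simp only [Matrix.smul_apply, smul_eq_mul]
  rw [dz_cmul _ (a1.df hz i j), dz_cmul _ (a1.df hz k j), a3 z hz]

theorem ck_trm (h B : X → Mat ι) (hh : M.IsK h) (hB : M.SmF B) :
    M.Ck ∞ fun x => trm (h x) (B x) := by
  intro e he z hz
  have h1 := (((hB e he).cd hz).mul (((hh e he).1.1.cd hz).inv ((hh e he).2 z hz).det_pos.ne')).tr
  refine (contDiffAt_ofReal.2 (reCLM.contDiff.contDiffAt.comp z h1)).congr_of_eventuallyEq ?_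
  filter_upwards [e.open_target.mem_nhds hz] with w hw
  have h2 := trm_rep M h B e he _ (e.map_target hw)
  rw [e.right_inv hw] at h2
  exact congrArg ofReal h2.symm

theorem ck_rat (hm : MatS) (B g : X → Mat ι) (hB : M.SmF B) (hg : M.IsK g) :
    M.Ck ∞ (rat B g) := by
  intro e he z hz
  have h1 := (reCLM.contDiff.contDiffAt.comp z ((hB e he).det hz)).div
    (reCLM.contDiff.contDiffAt.comp z ((hg e he).1.1.det hz)) (hm.det ι _ ((hg e he).2 z hz)).1.ne'
  refine (contDiffAt_ofReal.2 h1).congr_of_eventuallyEq ?_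
  filter_upwards [e.open_target.mem_nhds hz] with w hw
  have h2 := rat_rep M B g e he _ (e.map_target hw)
  rw [e.right_inv hw] at h2
  exact congrArg ofReal h2.symm

end RepA

theorem repA (hm : MatS) : RepA := fun _ _ _ _ _ M =>
  { tj_self := RepA.tj_self M
    tj_mul := RepA.tj_mul M
    tj_det := RepA.tj_det M
    tj_an := RepA.tj_an M
    rep_self := RepA.rep_self M
    repF_self := RepA.repF_self M
    rep_tr := RepA.rep_tr M
    repF_tr := RepA.repF_tr M
    ck_loc := fun k => RepA.ck_loc M k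
    ckS_loc := fun k => RepA.ckS_loc M k
    holS_loc := RepA.holS_loc M
    smF_loc := RepA.smF_loc M
    clF_loc := RepA.clF_loc M
    isK_iff := RepA.isK_iff M hm
    herm := RepA.herm M
    clF_add := RepA.clF_add M
    clF_smul := RepA.clF_smul M
    glue_sec := RepA.glue_sec M
    glue_form := RepA.glue_form M
    repF_mul := RepA.repF_mul M
    trm_rep := RepA.trm_rep M
    trace_rep := RepA.trace_rep M
    rat_rep := RepA.rat_rep M
    cont := RepA.cont M
    ck_trm := RepA.ck_trm M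
    ck_rat := RepA.ck_rat M hm
    center := RepA.center M
    newChart := RepA.newChart M }

end Pool.Agent.Lib.MP_813db1_ag.HS
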