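import Pool.Agent.Lib.MP_813db1_ag.HS.Stmt2
import Pool.Agent.Lib.MP_813db1_ag.HS.Calc2

/-! Calculus of the differential operators on the manifold. -/

namespace Pool.Agent.Lib.MP_813db1_ag.HS

open Complex Matrix Filter Topology Set
open scoped ContDiff ComplexOrder

namespace RepB2

variable {ι X : Type} [Fintype ι] [DecidableEq ι] [TopologicalSpace X] {M : Atl ι X}

theorem clOn_congr {G H : V ι → Mat ι} {U : Set (V ι)} (hU : IsOpen U) (e : ∀ z ∈ U, G z = H z)
    (h : ClOn H U) : ClOn G U := by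
  have e' : ∀ z ∈ U, ∀ i j, (fun w => G w i j) =ᶠ[𝓝 z] fun w => H w i j := fun z hz i j =>
    mem_of_superset (hU.mem_nhds hz) fun w hw => congrFun₂ (e w hw) i j
  refine ⟨fun z hz i j => (h.1 z hz i j).congr_of_eventuallyEq (e' z hz i j),
    fun z hz => e z hz ▸ h.2.1 z hz, fun z hz i j k => ?_⟩
  rw [dz_congr (e' z hz i j), dz_congr (e' z hz k j)]
  exact h.2.2 z hz i j k

omit [DecidableEq ι] in
theorem ch_mem (M : Atl ι X) (x : X) : M.ch x x ∈ (M.ch x).target := (M.ch x).map_source (M.mem x)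

omit [DecidableEq ι] in
theorem ch_inv (M : Atl ι X) (x : X) : (M.ch x).symm (M.ch x x) = x := (M.ch x).left_inv (M.mem x)

omit [DecidableEq ι] in
theorem ck_at {k : WithTop ℕ∞} {u : X → ℝ} (h : M.Ck k u) (x : X) :
    ContDiffAt ℝ k (fn u (M.ch x)) (M.ch x x) := h _ (M.ch_mem x) _ (ch_mem M x)

theorem ddc_cl (hc : CurvS) (h1 : ∀ u, ∀ e ∈ M.A, ∀ x ∈ e.source, ContDiffAt ℝ 2 (fn u e) (e x) →
      M.repF (M.ddc u) e (e x) = levi (fn u e) (e x)) (u : X → ℝ) (hu : M.Ck ∞ u) :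
    M.ClF (M.ddc u) := fun e he =>
  clOn_congr e.open_target (fun z hz => by
      have := h1 u e he _ (e.map_target hz)
      rw [e.right_inv hz] at this
      exact this ((hu e he z hz).of_le (by norm_cast)))
    (hc.levi_cl ι (fun z => u (e.symm z)) _ e.open_target fun z hz =>
      contDiffAt_ofReal.1 (hu e he z hz))

theorem ric_cl (hc : CurvS) (h1 : ∀ B, M.IsK B → ∀ e ∈ M.A, ∀ z ∈ e.target,
      M.repF (M.ricF B) e z = ric (M.repF B e) z) (B : X → Mat ι) (hB : M.IsK B) :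
    M.ClF (M.ricF B) := fun e he =>
  clOn_congr e.open_target (h1 B hB e he)
    (hc.ric_cl ι _ _ e.open_target (hB e he).1.1 (hB e he).2)

theorem ric_rat (ha : RepA' M) (hm : MatS) (h g : X → Mat ι) (hh : M.IsK h) (hg : M.IsK g) (x : X) :
    M.ricF h x = M.ricF g x - M.ddc (fun y => Real.log (rat h g y)) x := by
  have he := M.ch_mem x
  have p : ∀ {B : X → Mat ι}, M.IsK B → ∀ z ∈ (M.ch x).target,
      (M.repF B (M.ch x) z).det.re ≠ 0 := fun hB z hz => (hm.det ι _ ((hB _ he).2 z hz)).1.ne'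
  have s : ∀ {B : X → Mat ι}, M.IsK B → ContDiffAt ℝ 2 (lg (M.repF B (M.ch x))) (M.ch x x) :=
    fun hB => ((hB _ he).1.1.cd2 (ch_mem M x)).lg (p hB _ (ch_mem M x))
  have e : fn (fun y => Real.log (rat h g y)) (M.ch x) =ᶠ[𝓝 (M.ch x x)]
      fun w => lg (M.repF h (M.ch x)) w - lg (M.repF g (M.ch x)) w := by
    filter_upwards [(M.ch x).open_target.mem_nhds (ch_mem M x)] with z hz
    have := ha.rat_rep h g _ he _ ((M.ch x).map_target hz)
    rw [(M.ch x).right_inv hz] at this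
    rw [fn, ← this, Real.log_div (p hh z hz) (p hg z hz), ofReal_sub]
    rfl
  rw [Atl.ddc, levi_congr e, levi_sub (s hh) (s hg)]
  show -levi (lg _) _ = -levi (lg _) _ - _
  abel

theorem ddc_add (u v : X → ℝ) (hu : M.Ck 2 u) (hv : M.Ck 2 v) (c : ℝ) (x : X) :
    M.ddc (fun y => u y + c * v y) x = M.ddc u x + (c : ℂ) • M.ddc v x := by
  have e : fn (fun y => u y + c * v y) (M.ch x) =
      fun w => fn u (M.ch x) w + c * fn v (M.ch x) w := by
    funext w
    simp [fn]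
  rw [Atl.ddc, e, levi_add (ck_at hu x) (contDiffAt_const.mul (ck_at hv x)),
    levi_cmul _ (ck_at hv x)]
  rfl

theorem ddc_const (c : ℝ) (x : X) : M.ddc (fun _ => c) x = 0 := levi_const (c : ℂ) _

theorem ck_comp (k : ℕ∞) (u : X → ℝ) (Φ : ℝ → ℝ) (hu : M.Ck k u)
    (hΦ : ∀ x, ContDiffAt ℝ k Φ (u x)) : M.Ck k fun x => Φ (u x) := fun e he z hz =>
  contDiffAt_ofReal.2 (ContDiffAt.comp (f := fun w => u (e.symm w)) z (hΦ _)
    (contDiffAt_ofReal.1 (hu e he z hz)))

theorem ck_add (k : ℕ∞) (u v : X → ℝ) (hu : M.Ck k u) (hv : M.Ck k v) :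
    M.Ck k (fun x => u x + v x) ∧ M.Ck k fun x => u x * v x :=
  ⟨fun e he z hz => contDiffAt_ofReal.2
      ((contDiffAt_ofReal.1 (hu e he z hz)).add (contDiffAt_ofReal.1 (hv e he z hz))),
    fun e he z hz => contDiffAt_ofReal.2
      ((contDiffAt_ofReal.1 (hu e he z hz)).mul (contDiffAt_ofReal.1 (hv e he z hz)))⟩

theorem ck_grad (h1 : ∀ h u v, ∀ e ∈ M.A, ∀ x ∈ e.source, DifferentiableAt ℝ (fn u e) (e x) →
      DifferentiableAt ℝ (fn v e) (e x) → grL (M.repF h e (e x)) (fun i => dz (fn u e) i (e x))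
        (fun i => dz (fn v e) i (e x)) = grL (h x) (M.dfn u x) (M.dfn v x))
    (h : X → Mat ι) (u v : X → ℝ) (hh : M.IsK h) (hu : M.Ck ∞ u) (hv : M.Ck ∞ v) :
    M.Ck ∞ (M.grad h u v) := by
  intro e he z hz
  have e1 : (fun w => M.grad h u v (e.symm w)) =ᶠ[𝓝 z] fun w =>
      (grL (M.repF h e w) (fun i => dz (fn u e) i w) fun i => dz (fn v e) i w).re := by
    filter_upwards [e.open_target.mem_nhds hz] with w hw
    have := h1 h u v e he _ (e.map_target hw)
    rw [e.right_inv hw] at this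
    rw [this ((hu e he w hw).differentiableAt (by simp)) ((hv e he w hw).differentiableAt (by simp))]
    rfl
  refine contDiffAt_ofReal.2 (ContDiffAt.congr_of_eventuallyEq ?_ e1)
  have hi := ((hh e he).1.1.cd hz).inv ((hh e he).2 z hz).det_pos.ne'
  refine reCLM.contDiff.contDiffAt.comp z
    (ContDiffAt.sum fun i _ => ContDiffAt.sum fun j _ => ?_)
  exact ((hi j i).mul (contDiffAt_dz_top (hu e he z hz) i)).mul
    (conjCLE.contDiff.contDiffAt.comp z (contDiffAt_dz_top (hv e he z hz) j))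

theorem dfn_comp (u : X → ℝ) (Φ : ℝ → ℝ) (x : X) (hu : M.Ck 1 u)
    (hΦ : DifferentiableAt ℝ Φ (u x)) :
    M.dfn (fun y => Φ (u y)) x = ((deriv Φ (u x) : ℝ) : ℂ) • M.dfn u x := by
  funext i
  exact dz_real_comp (u := fun w => u ((M.ch x).symm w))
    (by simpa only [ch_inv] using hΦ.hasDerivAt)
    (differentiableAt_ofReal.1 ((ck_at hu x).differentiableAt one_ne_zero)) i

theorem lap_comp (h : X → Mat ι) (u : X → ℝ) (Φ : ℝ → ℝ) (x : X) (hu : M.Ck 2 u)
    (hΦ : ContDiffAt ℝ 2 Φ (u x)) : M.lap h (fun y => Φ (u y)) x =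
      deriv Φ (u x) * M.lap h u x + deriv (deriv Φ) (u x) * M.grad h u u x := by
  have h1 : ∀ᶠ t in 𝓝 (u x), HasDerivAt Φ (deriv Φ t) t :=
    (hΦ.eventually (by simp)).mono fun _ e => (e.differentiableAt two_ne_zero).hasDerivAt
  have h2 : HasDerivAt (deriv Φ) (deriv (deriv Φ) (u x)) (u x) :=
    ((hΦ.derivWithin (m := 1) le_rfl).differentiableAt one_ne_zero).hasDerivAt
  have e : ∀ i j, M.ddc (fun y => Φ (u y)) x i j = deriv Φ (u x) * M.ddc u x i j +
      deriv (deriv Φ) (u x) * (M.dfn u x i * star (M.dfn u x j)) := fun i j => by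
    have := levi_real_comp (u := fun w => u ((M.ch x).symm w)) (z := M.ch x x)
      (by simpa only [ch_inv] using h1) (by simpa only [ch_inv] using h2)
      (contDiffAt_ofReal.1 (ck_at hu x)) i j
    simp only [ch_inv, dzb_ofReal] at this
    exact this
  have e2 : trace (M.ddc (fun y => Φ (u y)) x * (h x)⁻¹) =
      deriv Φ (u x) * trace (M.ddc u x * (h x)⁻¹) +
        deriv (deriv Φ) (u x) * grL (h x) (M.dfn u x) (M.dfn u x) := by
    simp only [trace, diag, mul_apply, e, grL, Finset.mul_sum, ← Finset.sum_add_distrib]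
    exact Finset.sum_congr rfl fun i _ => Finset.sum_congr rfl fun j _ => by ring
  simp only [Atl.lap, trm, Atl.grad, e2, add_re, re_ofReal_mul]

theorem grad_nonneg (h : X → Mat ι) (u : X → ℝ) (x : X) (hh : (h x).PosDef) :
    0 ≤ M.grad h u u x := by
  have h1 := hh.inv.posSemidef.dotProduct_mulVec_nonneg (M.dfn u x)
  have e : grL (h x) (M.dfn u x) (M.dfn u x) = star (M.dfn u x) ⬝ᵥ (h x)⁻¹ *ᵥ M.dfn u x := by
    rw [grL, Finset.sum_comm]
    simp only [dotProduct, mulVec, Finset.mul_sum, Pi.star_apply]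
    exact Finset.sum_congr rfl fun i _ => Finset.sum_congr rfl fun j _ => by ring
  rw [Atl.grad, e]
  exact (Complex.nonneg_iff.1 h1).1

theorem max (hx : MaxS) (u : X → ℝ) (x : X) (hu : M.Ck 2 u) (h : ∀ y, u y ≤ u x) :
    (-M.ddc u x).PosSemidef :=
  hx.loc ι (fun w => u ((M.ch x).symm w)) _ (contDiffAt_ofReal.1 (ck_at hu x))
    (Eventually.of_forall fun w => by simpa only [ch_inv] using h _)

theorem box_zero (ha : RepA' M) (hm : MatS) (h : X → Mat ι) (u : X → ℝ) (x : X) (hu : M.Ck 2 u)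
    (hh : (h x).IsHermitian) : M.box 0 h (fun y => (u y : ℂ)) x = (M.lap h u x : ℂ) := by
  have e : M.rep 0 (fun y => (u y : ℂ)) (M.ch x) = fn u (M.ch x) := by
    funext w
    simp [Atl.rep, fn]
  rw [Atl.box, boxL, e, Nat.cast_zero, zero_mul, sub_zero, lapL, ha.repF_self]
  exact (hm.real ι _ _ hh (levi_herm_ofReal (ck_at hu x))).1

end RepB2

end Pool.Agent.Lib.MP_813db1_ag.HS
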