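import Pool.Agent.Lib.MP_813db1_ag.HS.RepB1
import Pool.Agent.Lib.MP_813db1_ag.HS.RepB2

/-! Covariance and calculus of the differential operators: assembly. -/

namespace Pool.Agent.Lib.MP_813db1_ag.HS

theorem repB (ha : RepA) (hc : CurvS) (hm : MatS) (hx : MaxS) : RepB := fun _ _ _ _ _ M =>
  have h := ha _ _ M
  { ddc_rep := RepB.ddc_rep h
    ric_rep := RepB.ric_rep h
    dfn_rep := RepB.dfn_rep h
    grad_rep := RepB.grad_rep h
    lap_rep := RepB.lap_rep h
    box_rep := RepB.box_rep h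
    shp_rep := RepB.shp_rep h
    nD_rep := RepB.nD_rep h
    ddc_cl := RepB2.ddc_cl hc (RepB.ddc_rep h)
    ric_cl := RepB2.ric_cl hc (RepB.ric_rep h)
    ric_rat := RepB2.ric_rat h hm
    ddc_add := RepB2.ddc_add
    ddc_const := RepB2.ddc_const
    ck_comp := RepB2.ck_comp
    ck_add := RepB2.ck_add
    ck_lap := fun g u v hg hu hv =>
      ⟨h.ck_trm g (M.ddc u) hg fun e he => (RepB2.ddc_cl hc (RepB.ddc_rep h) u hu e he).1,
        RepB2.ck_grad (RepB.grad_rep h) g u v hg hu hv⟩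
    dfn_comp := RepB2.dfn_comp
    lap_comp := RepB2.lap_comp
    grad_nonneg := RepB2.grad_nonneg
    max := RepB2.max hx
    box_zero := RepB2.box_zero h hm }

end Pool.Agent.Lib.MP_813db1_ag.HS
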