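import Pool.Agent.Lib.MP_813db1_ag.HS.Stmt2
import Pool.Agent.Lib.MP_813db1_ag.HS.Calc2

/-! Covariance of the curvature tensor and of the Chern-Lu term under holomorphic changes of
coordinates. -/

namespace Pool.Agent.Lib.MP_813db1_ag.HS

open Complex Matrix Filter Topology Set
open scoped ContDiff ComplexOrder

noncomputable section

namespace RepC

variable {ι : Type} [Fintype ι] [DecidableEq ι]

/-- the curvature as a matrix valued form. -/
def Rm (G : V ι → Mat ι) (z : V ι) (k l : ι) : Mat ι :=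
  -dM (dMb G l) k z + dM G k z * (G z)⁻¹ * dMb G l z

theorem curv_eq (G : V ι → Mat ι) (z : V ι) (i j k l : ι) : curv G z i j k l = Rm G z k l i j := by
  simp only [curv, Rm, Matrix.add_apply, Matrix.neg_apply, mul_apply, Finset.sum_mul, dM_apply,
    dMb_apply]
  congr 1
  exact Finset.sum_congr rfl fun p _ => Finset.sum_congr rfl fun q _ => by ring

variable {G H A P Q : V ι → Mat ι} {z : V ι} {φ : V ι → V ι}

theorem Rm_congr (h : G =ᶠ[𝓝 z] H) (k l : ι) : Rm G z k l = Rm H z k l := by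
  rw [Rm, Rm, dM_congr h, dMb_congr h, h.self_of_nhds,
    dM_congr (h.eventuallyEq_nhds.mono fun _ e => dMb_congr e l)]

theorem two_ne : (2 : WithTop ℕ∞) ≠ 0 := two_ne_zero

theorem Rm_left (hP : CdM 2 P z) (hA : CdM 2 A z) (h0 : (P z).det ≠ 0) (h1 : (A z).det ≠ 0)
    (k l : ι) (hb : ∀ᶠ w in 𝓝 z, dMb P l w = 0) :
    Rm (fun w => P w * A w) z k l = P z * Rm A z k l := by
  have e : dMb (fun w => P w * A w) l =ᶠ[𝓝 z] fun w => P w * dMb A l w := by
    filter_upwards [hP.eventually_df, hA.eventually_df, hb] with w h1 h2 h3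
    rw [dMb_mul h1 h2, h3, Matrix.zero_mul, zero_add]
  rw [Rm, Rm, dM_congr e, e.self_of_nhds,
    dM_mul (hP.df two_ne) ((hA.dMb (m := 1) le_rfl l).df one_ne_zero),
    dM_mul (hP.df two_ne) (hA.df two_ne), Matrix.mul_inv_rev]
  simp only [Matrix.add_mul, Matrix.mul_add, Matrix.mul_neg, Matrix.mul_assoc,
    nonsing_inv_mul_cancel_left _ _ h0.isUnit, mul_nonsing_inv_cancel_left _ _ h1.isUnit]
  abel

theorem Rm_right (hA : CdM 2 A z) (hQ : CdM 2 Q z) (h0 : (Q z).det ≠ 0) (h1 : (A z).det ≠ 0)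
    (k l : ι) (hb : ∀ᶠ w in 𝓝 z, dM Q k w = 0) :
    Rm (fun w => A w * Q w) z k l = Rm A z k l * Q z := by
  have e : dMb (fun w => A w * Q w) l =ᶠ[𝓝 z] fun w => dMb A l w * Q w + A w * dMb Q l w := by
    filter_upwards [hA.eventually_df, hQ.eventually_df] with w h1 h2 using dMb_mul h1 h2 l
  have a1 := (hA.dMb (m := 1) le_rfl l).df one_ne_zero
  have q1 := (hQ.dMb (m := 1) le_rfl l).df one_ne_zero
  have e2 : dM (dMb Q l) k z = 0 := by
    rw [dM_dMb_comm hQ, dMb_congr (H := fun _ => 0) hb, dMb_const]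
  rw [Rm, Rm, dM_congr e, e.self_of_nhds,
    dM_add (a1.mul (hQ.df two_ne)) ((hA.df two_ne).mul q1), dM_mul a1 (hQ.df two_ne),
    dM_mul (hA.df two_ne) q1, dM_mul (hA.df two_ne) (hQ.df two_ne), e2, hb.self_of_nhds,
    Matrix.mul_inv_rev]
  simp only [Matrix.add_mul, Matrix.mul_add, Matrix.neg_mul, Matrix.mul_assoc, Matrix.mul_zero,
    add_zero, nonsing_inv_mul_cancel_left _ _ h1.isUnit, mul_nonsing_inv_cancel_left _ _ h0.isUnit]
  abel

theorem dM_comp (hG : DfM G (φ z)) (h : DifferentiableAt ℂ φ z) (k : ι) :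
    dM (fun w => G (φ w)) k z = ∑ r, jac φ z r k • dM G r (φ z) := by
  ext i j
  rw [Matrix.sum_apply]
  exact dz_comp (hG i j) h k

theorem dMb_comp (hG : DfM G (φ z)) (h : DifferentiableAt ℂ φ z) (k : ι) :
    dMb (fun w => G (φ w)) k z = ∑ r, star (jac φ z r k) • dMb G r (φ z) := by
  ext i j
  rw [Matrix.sum_apply]
  exact dzb_comp (hG i j) h k

theorem Rm_comp (hG : CdM 2 G (φ z)) (h : AnalyticAt ℂ φ z) (k l : ι) :
    Rm (fun w => G (φ w)) z k l =
      ∑ s, ∑ r, (jac φ z r k * star (jac φ z s l)) • Rm G (φ z) r s := by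
  have e : dM (dMb (fun w => G (φ w)) l) k z =
      ∑ s, ∑ r, (jac φ z r k * star (jac φ z s l)) • dM (dMb G s) r (φ z) := by
    ext i j
    have := congrFun₂ (levi_comp (hG i j) h) k l
    refine this.trans ?_
    simp only [pull, mul_apply, Matrix.sum_apply, Finset.sum_mul, transpose_apply, map_apply,
      Matrix.smul_apply, smul_eq_mul]
    refine Finset.sum_congr rfl fun s _ => Finset.sum_congr rfl fun r _ => ?_
    rw [mul_right_comm]
    rfl
  rw [Rm, e, dM_comp (hG.df two_ne) h.differentiableAt, dMb_comp (hG.df two_ne) h.differentiableAt]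
  simp only [Rm, smul_add, smul_neg, Finset.sum_add_distrib, Finset.sum_neg_distrib,
    Matrix.sum_mul, Matrix.mul_sum, Matrix.smul_mul, Matrix.mul_smul, Finset.smul_sum, smul_smul,
    mul_comm]

theorem cd_comp {n : WithTop ℕ∞} (hG : CdM n G (φ z)) (h : AnalyticAt ℂ φ z) :
    CdM n (fun w => G (φ w)) z :=
  fun i j => (hG i j).comp z (h.contDiffAt.restrict_scalars ℝ)

theorem dMb_jacT (h : AnalyticAt ℂ φ z) (l : ι) : dMb (fun w => (jac φ w)ᵀ) l z = 0 :=
  Matrix.ext fun i j => dzb_hol (analyticAt_jac h j i).differentiableAt l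

theorem dM_jacS (h : AnalyticAt ℂ φ z) (k : ι) : dM (fun w => (jac φ w).map star) k z = 0 :=
  Matrix.ext fun i j => (dz_star (fun w => jac φ w i j) k z).trans (by
    rw [dzb_hol (analyticAt_jac h i j).differentiableAt, star_zero]; rfl)

theorem det_star {J : Mat ι} (h : J.det ≠ 0) : (J.map star).det ≠ 0 := by
  rw [show J.map star = Jᵀᴴ from rfl, det_conjTranspose, det_transpose]
  exact star_ne_zero.2 h

theorem det_tr {J : Mat ι} (h : J.det ≠ 0) : Jᵀ.det ≠ 0 := by rwa [det_transpose]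

theorem Rm_pull {G' : V ι → Mat ι} (hG : CdM 2 G' (φ z)) (h1 : (G' (φ z)).det ≠ 0)
    (h : AnalyticAt ℂ φ z) (hJ : (jac φ z).det ≠ 0)
    (he : ∀ᶠ w in 𝓝 z, G w = pull (jac φ w) (G' (φ w))) (k l : ι) :
    Rm G z k l = pull (jac φ z)
      (∑ s, ∑ r, (jac φ z r k * star (jac φ z s l)) • Rm G' (φ z) r s) := by
  have j2 : CdM 2 (jac φ) z := cdM_jac h
  rw [Rm_congr he, ← Rm_comp hG h, pull, ← Rm_left j2.transpose (cd_comp hG h) (det_tr hJ) h1 k l
    (h.eventually_analyticAt.mono fun _ e => dMb_jacT e l)]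
  refine Rm_right (j2.transpose.mul (cd_comp hG h)) j2.mapStar (det_star hJ) ?_ k l
    (h.eventually_analyticAt.mono fun _ e => dM_jacS e k)
  rw [det_mul]
  exact mul_ne_zero (det_tr hJ) h1

theorem sum_swap4 (f : ι → ι → ι → ι → ℂ) :
    ∑ q, ∑ p, ∑ s, ∑ r, f p q r s = ∑ p, ∑ q, ∑ r, ∑ s, f p q r s := by
  rw [Finset.sum_comm]
  exact Finset.sum_congr rfl fun p _ => Finset.sum_congr rfl fun q _ => Finset.sum_comm

theorem sum_comm8 (f : ι → ι → ι → ι → ι → ι → ι → ι → ℂ) :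
    ∑ i, ∑ j, ∑ k, ∑ l, ∑ p, ∑ q, ∑ r, ∑ s, f i j k l p q r s =
      ∑ p, ∑ q, ∑ r, ∑ s, ∑ i, ∑ j, ∑ k, ∑ l, f i j k l p q r s := by
  simpa only [Fintype.sum_prod_type] using
    Finset.sum_comm (s := Finset.univ) (t := Finset.univ)
      (f := fun (a b : ι × ι × ι × ι) => f a.1 a.2.1 a.2.2.1 a.2.2.2 b.1 b.2.1 b.2.2.1 b.2.2.2)

theorem sum_comm4 (f : ι → ι → ι → ι → ℂ) :
    ∑ k, ∑ l, ∑ r, ∑ s, f k l r s = ∑ r, ∑ s, ∑ k, ∑ l, f k l r s := by
  simpa only [Fintype.sum_prod_type] using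
    Finset.sum_comm (s := Finset.univ) (t := Finset.univ)
      (f := fun (a b : ι × ι) => f a.1 a.2 b.1 b.2)

theorem push_apply (J η : Mat ι) (q p : ι) :
    (J.map star * η * Jᵀ) q p = ∑ i, ∑ j, η j i * J p i * star (J q j) := by
  simp only [mul_apply, Finset.sum_mul, map_apply, transpose_apply]
  exact Finset.sum_congr rfl fun i _ => Finset.sum_congr rfl fun j _ => by ring

theorem rq_of_curv {G' : V ι → Mat ι} {z' : V ι} {J : Mat ι}
    (h : ∀ i j k l, curv G z i j k l = ∑ p, ∑ q, ∑ r, ∑ s, curv G' z' p q r s * J p i *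
      star (J q j) * J r k * star (J s l)) (η : Mat ι) :
    rq G z η = rq G' z' (J.map star * η * Jᵀ) := by
  rw [rq, rq]
  congr 1
  simp only [h, push_apply, Finset.mul_sum]
  rw [sum_comm8]
  refine Finset.sum_congr rfl fun p _ => Finset.sum_congr rfl fun q _ =>
    Finset.sum_congr rfl fun r _ => Finset.sum_congr rfl fun s _ => ?_
  rw [sum_comm4]
  simp only [Finset.sum_mul]
  exact Finset.sum_congr rfl fun k _ => Finset.sum_congr rfl fun l _ =>
    Finset.sum_congr rfl fun i _ => Finset.sum_congr rfl fun j _ => by ring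

theorem hsc_eq (G : V ι → Mat ι) (z v : V ι) : hsc G z v = rq G z (vecMulVec (star v) v) := by
  rw [hsc, rq]
  congr 1
  simp only [vecMulVec_apply, Pi.star_apply]
  exact Finset.sum_congr rfl fun i _ => Finset.sum_congr rfl fun j _ =>
    Finset.sum_congr rfl fun k _ => Finset.sum_congr rfl fun l _ => by ring

theorem push_vec (J : Mat ι) (v : V ι) :
    J.map star * vecMulVec (star v) v * Jᵀ = vecMulVec (star (J *ᵥ v)) (J *ᵥ v) := by
  ext q p
  simp only [push_apply, vecMulVec_apply, Pi.star_apply, mulVec, dotProduct, star_sum, star_mul',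
    Finset.sum_mul, Finset.mul_sum]
  exact Finset.sum_congr rfl fun i _ => Finset.sum_congr rfl fun j _ => by ring

theorem inv_pull (J B : Mat ι) : (pull J B)⁻¹ = (J.map star)⁻¹ * (B⁻¹ * (Jᵀ)⁻¹) := by
  rw [pull, Matrix.mul_inv_rev, Matrix.mul_inv_rev]

theorem push_inv {J : Mat ι} (hJ : J.det ≠ 0) (B : Mat ι) :
    J.map star * (pull J B)⁻¹ * Jᵀ = B⁻¹ := by
  rw [inv_pull, mul_nonsing_inv_cancel_left _ _ (det_star hJ).isUnit,
    nonsing_inv_mul_cancel_right _ _ (det_tr hJ).isUnit]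

theorem gam_pull {G' : V ι → Mat ι} (hG : CdM 2 G' (φ z)) (h1 : (G' (φ z)).det ≠ 0)
    (h : AnalyticAt ℂ φ z) (hJ : (jac φ z).det ≠ 0)
    (he : ∀ᶠ w in 𝓝 z, G w = pull (jac φ w) (G' (φ w))) (k : ι) :
    gam G k z = (dM (fun w => (jac φ w)ᵀ) k z +
      (jac φ z)ᵀ * ∑ r, jac φ z r k • gam G' r (φ z)) * ((jac φ z)ᵀ)⁻¹ := by
  have j2 : CdM 2 (jac φ) z := cdM_jac h
  have e := dM_mul ((j2.transpose.mul (cd_comp hG h)).df two_ne) (j2.mapStar.df two_ne) k
  rw [dM_jacS h, Matrix.mul_zero, add_zero,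
    dM_mul (j2.transpose.df two_ne) ((cd_comp hG h).df two_ne),
    dM_comp (hG.df two_ne) h.differentiableAt] at e
  rw [gam, dM_congr he, he.self_of_nhds, inv_pull]
  refine (congrArg (· * _) e).trans ?_
  simp only [gam, Matrix.add_mul, Matrix.mul_assoc, Matrix.sum_mul, Matrix.smul_mul,
    mul_nonsing_inv_cancel_left _ _ (det_star hJ).isUnit, mul_nonsing_inv_cancel_left _ _ h1.isUnit]

theorem clT_pull {G' H' : V ι → Mat ι} (hG : CdM 2 G' (φ z)) (g1 : (G' (φ z)).det ≠ 0)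
    (hH : CdM 2 H' (φ z)) (h1 : (H' (φ z)).det ≠ 0) (h : AnalyticAt ℂ φ z)
    (hJ : (jac φ z).det ≠ 0) (ge : ∀ᶠ w in 𝓝 z, G w = pull (jac φ w) (G' (φ w)))
    (he : ∀ᶠ w in 𝓝 z, H w = pull (jac φ w) (H' (φ w))) : clT G H z = clT G' H' (φ z) := by
  set J := jac φ z with hJdef
  have d : ∀ k, gam G k z - gam H k z =
      Jᵀ * (∑ r, J r k • (gam G' r (φ z) - gam H' r (φ z))) * (Jᵀ)⁻¹ := by
    intro k
    rw [gam_pull hG g1 h hJ ge, gam_pull hH h1 h hJ he, ← Matrix.sub_mul, add_sub_add_left_eq_sub,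
      ← Matrix.mul_sub, ← Finset.sum_sub_distrib]
    simp only [smul_sub, hJdef]
  have t : ∀ k l, trace ((gam G k z - gam H k z) * G z * (gam G l z - gam H l z)ᴴ * (H z)⁻¹) =
      ∑ r, ∑ s, J r k * star (J s l) * trace ((gam G' r (φ z) - gam H' r (φ z)) * G' (φ z) *
        (gam G' s (φ z) - gam H' s (φ z))ᴴ * (H' (φ z))⁻¹) := by
    intro k l
    rw [d, d, ge.self_of_nhds, he.self_of_nhds, inv_pull, pull, conjTranspose_mul,
      conjTranspose_mul, conjTranspose_nonsing_inv, show Jᵀᴴ = J.map star from rfl, ← hJdef]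
    simp only [Matrix.mul_assoc, mul_nonsing_inv_cancel_left _ _ (det_star hJ).isUnit,
      nonsing_inv_mul_cancel_left _ _ (det_tr hJ).isUnit]
    rw [trace_mul_comm]
    simp only [nonsing_inv_mul _ (det_tr hJ).isUnit, Matrix.mul_one,
      conjTranspose_sum, conjTranspose_smul, Matrix.sum_mul, Matrix.smul_mul,
      Matrix.mul_smul, trace_sum, trace_smul, smul_eq_mul, Finset.mul_sum, mul_assoc]
    rw [Finset.sum_comm]
    exact Finset.sum_congr rfl fun r _ => Finset.sum_congr rfl fun s _ => by ring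
  rw [clT, clT]
  congr 1
  simp only [t, Finset.mul_sum]
  rw [sum_comm4]
  refine Finset.sum_congr rfl fun r _ => Finset.sum_congr rfl fun s _ => ?_
  rw [← push_inv hJ (H' (φ z)), ← he.self_of_nhds, push_apply]
  simp only [Finset.sum_mul]
  exact Finset.sum_congr rfl fun k _ => Finset.sum_congr rfl fun l _ => by ring

theorem cd_re {f : V ι → ℂ} (h : ContDiffAt ℝ ∞ f z) :
    ContDiffAt ℝ ∞ (fun w => ((f w).re : ℂ)) z :=
  ofRealCLM.contDiff.contDiffAt.comp z (reCLM.contDiff.contDiffAt.comp z h)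

theorem cd_gam (hG : CdM ∞ G z) (g1 : (G z).det ≠ 0) (k : ι) : CdM ∞ (gam G k) z :=
  (hG.dM (by simp) k).mul (hG.inv g1)

theorem cd_clT (hG : CdM ∞ G z) (g1 : (G z).det ≠ 0) (hH : CdM ∞ H z) (h1 : (H z).det ≠ 0) :
    ContDiffAt ℝ ∞ (fun w => (clT G H w : ℂ)) z :=
  cd_re (ContDiffAt.sum fun k _ => ContDiffAt.sum fun l _ => (hH.inv h1 l k).mul
    (((((cd_gam hG g1 k).sub (cd_gam hH h1 k)).mul hG).mul
      ((cd_gam hG g1 l).sub (cd_gam hH h1 l)).conjT).mul (hH.inv h1)).tr)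

theorem cd_curv (hG : CdM ∞ G z) (g1 : (G z).det ≠ 0) (i j k l : ι) :
    ContDiffAt ℝ ∞ (fun w => curv G w i j k l) z := by
  simp only [curv_eq]
  exact (((hG.dMb (m := ∞) (by simp) l).dM (m := ∞) (by simp) k).neg.add
    (((hG.dM (m := ∞) (by simp) k).mul (hG.inv g1)).mul (hG.dMb (m := ∞) (by simp) l))) i j

theorem cd_rq (hG : CdM ∞ G z) (g1 : (G z).det ≠ 0) (hH : CdM ∞ H z) :
    ContDiffAt ℝ ∞ (fun w => (rq G w (H w) : ℂ)) z :=
  cd_re (ContDiffAt.sum fun i _ => ContDiffAt.sum fun j _ => ContDiffAt.sum fun k _ =>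
    ContDiffAt.sum fun l _ => ((hH j i).mul (hH l k)).mul (cd_curv hG g1 i j k l))

variable {X : Type} [TopologicalSpace X] {M : Atl ι X}

theorem ev_tr (ha : RepA' M) (B : X → Mat ι) {e e' : Ch ι X} (he : e ∈ M.A) (he' : e' ∈ M.A)
    {x : X} (hx : x ∈ e.source) (hx' : x ∈ e'.source) : ∀ᶠ w in 𝓝 (e x), M.repF B e w =
      pull (jac (e' ∘ e.symm) w) (M.repF B e' ((e' ∘ e.symm) w)) := by
  have h1 : ∀ᶠ w in 𝓝 (e x), e.symm w ∈ e'.source :=
    (e.continuousAt_symm (e.map_source hx)).eventually_mem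
      (e'.open_source.mem_nhds (by rwa [e.left_inv hx]))
  filter_upwards [h1, e.open_target.mem_nhds (e.map_source hx)] with w h2 h3
  have := ha.repF_tr B e he e' he' _ (e.map_target h3) h2
  rwa [tj, e.right_inv h3] at this

theorem pd_det {B : Mat ι} (h : B.PosDef) : B.det ≠ 0 := h.det_pos.ne'

end RepC

open RepC

theorem curvT : CurvTS := by
  intro ι _ _ G G' φ z U' _ hz hG h1 h hJ he i j k l
  rw [curv_eq, Rm_pull (hG.cd2 hz) (h1 _ hz) h hJ he, ← sum_swap4]
  simp only [pull, mul_apply, Matrix.sum_apply, Matrix.smul_apply, smul_eq_mul, curv_eq,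
    transpose_apply, map_apply]
  simp only [Finset.sum_mul, Finset.mul_sum]
  exact Finset.sum_congr rfl fun q _ => Finset.sum_congr rfl fun p _ =>
    Finset.sum_congr rfl fun s _ => Finset.sum_congr rfl fun r _ => by ring

theorem repC (ht : CurvTS) (ha : RepA) (_hb : RepB) (hc : CurvS) (hl : CLS) (hr : RoyS)
    (_hm : MatS) : RepC := by
  intro ι X _ _ _ M
  have ha := ha ι X M
  have pt : ∀ (e e' : Ch ι X), ∀ x ∈ e.source, (e' ∘ e.symm) (e x) = e' x := fun e e' x hx => by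
    rw [Function.comp_apply, e.left_inv hx]
  have tg : ∀ x, M.ch x x ∈ (M.ch x).target := fun x => (M.ch x).map_source (M.mem x)
  have rq_rep : ∀ g, M.IsK g → ∀ e ∈ M.A, ∀ x ∈ e.source, ∀ η, rq (M.repF g e) (e x) η =
      M.rqX g x ((tj e (M.ch x) x).map star * η * (tj e (M.ch x) x)ᵀ) := by
    intro g hg e he x hx η
    have hK := hg _ (M.ch_mem x)
    have := ht ι (M.repF g e) (M.repF g (M.ch x)) (M.ch x ∘ e.symm) (e x) (M.ch x).target
      (M.ch x).open_target (by rw [pt e _ x hx]; exact tg x) hK.1.1 (fun w hw => pd_det (hK.2 w hw))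
      (M.hol e he _ (M.ch_mem x) x hx (M.mem x)) (ha.tj_det e he _ (M.ch_mem x) x hx (M.mem x))
      (ev_tr ha g he (M.ch_mem x) hx (M.mem x))
    rw [pt e _ x hx] at this
    exact rq_of_curv this η
  have cl_rep : ∀ g h, M.IsK g → M.IsK h → ∀ e ∈ M.A, ∀ x ∈ e.source,
      clT (M.repF g e) (M.repF h e) (e x) = M.clX g h x := by
    intro g h hg hh e he x hx
    have hK := hg _ (M.ch_mem x)
    have hK' := hh _ (M.ch_mem x)
    have hz : (M.ch x ∘ e.symm) (e x) ∈ (M.ch x).target := by rw [pt e _ x hx]; exact tg x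
    rw [clT_pull (hK.1.1.cd2 hz) (pd_det (hK.2 _ hz)) (hK'.1.1.cd2 hz) (pd_det (hK'.2 _ hz))
      (M.hol e he _ (M.ch_mem x) x hx (M.mem x)) (ha.tj_det e he _ (M.ch_mem x) x hx (M.mem x))
      (ev_tr ha g he (M.ch_mem x) hx (M.mem x)) (ev_tr ha h he (M.ch_mem x) hx (M.mem x)),
      pt e _ x hx]
    rfl
  refine ⟨fun g hg h0 e he z hz v => ?_, rq_rep, cl_rep, fun g h hg hh x => ?_,
    fun g h hg hh => ⟨fun e he z hz => ?_, fun e he z hz => ?_⟩, fun g hg hs x η hη => ?_⟩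
  · have := rq_rep g hg e he _ (e.map_target hz) (vecMulVec (star v) v)
    rw [e.right_inv hz, push_vec, Atl.rqX, ← hsc_eq, ← hsc_eq] at this
    rw [this]
    exact h0 _ _
  · obtain ⟨-, h2, h3, -⟩ := hl ι _ _ _ (M.ch x).open_target (hg _ (M.ch_mem x))
      (hh _ (M.ch_mem x)) _ (tg x)
    refine ⟨?_, h3⟩
    have e : fn (fun y => trm (h y) (g y)) (M.ch x) =ᶠ[𝓝 (M.ch x x)] fun w =>
        (trm (M.repF h (M.ch x) w) (M.repF g (M.ch x) w) : ℂ) := by
      filter_upwards [(M.ch x).open_target.mem_nhds (tg x)] with w hw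
      have := ha.trm_rep h g _ (M.ch_mem x) _ ((M.ch x).map_target hw)
      rw [(M.ch x).right_inv hw] at this
      rw [this, fn]
    rw [lapL, ← levi_congr e, ha.repF_self, ha.repF_self] at h2
    exact h2
  · refine (cd_clT ((hg e he).1.1.cd hz) (pd_det ((hg e he).2 z hz)) ((hh e he).1.1.cd hz)
      (pd_det ((hh e he).2 z hz))).congr_of_eventuallyEq ?_
    filter_upwards [e.open_target.mem_nhds hz] with w hw
    rw [fn, ← cl_rep g h hg hh e he _ (e.map_target hw), e.right_inv hw]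
  · refine (cd_rq ((hg e he).1.1.cd hz) (pd_det ((hg e he).2 z hz))
      (((hh e he).1.1.cd hz).inv (pd_det ((hh e he).2 z hz)))).congr_of_eventuallyEq ?_
    filter_upwards [e.open_target.mem_nhds hz] with w hw
    have := rq_rep g hg e he _ (e.map_target hw) (M.repF h e w)⁻¹
    rw [e.right_inv hw] at this
    rw [fn, this, Atl.repF,
      push_inv (ha.tj_det e he _ (M.ch_mem _) _ (e.map_target hw) (M.mem _))]
  · have hs' := hc.sym ι _ _ (M.ch x).open_target (hg _ (M.ch_mem x)) _ (tg x)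
    exact (hr ι _ η (fun i j k l => (hs' i j k l).1) (fun i j k l => (hs' i j k l).2.1)
      (fun i j k l => (hs' i j k l).2.2) (hs _ (M.ch_mem x) _ (tg x)) hη).1

end

end Pool.Agent.Lib.MP_813db1_ag.HS
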