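import Pool.Agent.Lib.MP_813db1_ag.HS.Stmt

/-! The resolvent of a constant coefficient operator: Schauder estimates from the heat flow. -/

namespace Pool.Agent.Lib.MP_813db1_ag.HS

open MeasureTheory Matrix Filter Topology Set Metric
open scoped ContDiff ComplexOrder

noncomputable section

namespace Res

section gen

variable {E W : Type} [NormedAddCommGroup E] [NormedSpace ℝ E] [NormedAddCommGroup W]
  [NormedSpace ℝ W]

/-- the Laplace transform. -/
def lap (l : ℝ) (F : ℝ → W) : W := ∫ s in Ioi (0 : ℝ), Real.exp (-(l * s)) • F s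

theorem wint {l a : ℝ} (hl : 0 < l) (ha : 0 < a) (K : ℝ) :
    IntegrableOn (fun s : ℝ => K * (s ^ (a - 1) * Real.exp (-(l * s)))) (Ioi 0) := by
  have := integrableOn_rpow_mul_exp_neg_mul_rpow (p := 1) (s := a - 1) (b := l) (by linarith)
    one_pos hl
  simp only [Real.rpow_one, neg_mul] at this
  exact Integrable.const_mul this K

theorem wle {l a K s : ℝ} {x : W} (h : ‖x‖ ≤ K * s ^ (a - 1)) :
    ‖Real.exp (-(l * s)) • x‖ ≤ K * (s ^ (a - 1) * Real.exp (-(l * s))) := by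
  rw [norm_smul, Real.norm_of_nonneg (Real.exp_pos _).le, ← mul_assoc, mul_comm]
  exact mul_le_mul_of_nonneg_right h (Real.exp_pos _).le

theorem wmeas (l : ℝ) {F : ℝ → W} (hc : ContinuousOn F (Ioi 0)) :
    AEStronglyMeasurable (fun s => Real.exp (-(l * s)) • F s) (volume.restrict (Ioi (0 : ℝ))) :=
  ContinuousOn.aestronglyMeasurable (ContinuousOn.smul (by fun_prop) hc) measurableSet_Ioi

theorem lap_int {l a K : ℝ} (hl : 0 < l) (ha : 0 < a) {F : ℝ → W} (hc : ContinuousOn F (Ioi 0))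
    (hb : ∀ s > 0, ‖F s‖ ≤ K * s ^ (a - 1)) :
    IntegrableOn (fun s => Real.exp (-(l * s)) • F s) (Ioi 0) :=
  Integrable.mono' (wint hl ha K) (wmeas l hc)
    ((ae_restrict_mem measurableSet_Ioi).mono fun s hs => wle (hb s hs))

theorem lap_norm {l a K : ℝ} (hl : 0 < l) (ha : 0 < a) {F : ℝ → W}
    (hb : ∀ s > 0, ‖F s‖ ≤ K * s ^ (a - 1)) : ‖lap l F‖ ≤ K * ((1 / l) ^ a * Real.Gamma a) := by
  rw [← Real.integral_rpow_mul_exp_neg_mul_Ioi ha hl, ← integral_const_mul]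
  exact norm_integral_le_of_norm_le (wint hl ha K)
    ((ae_restrict_mem measurableSet_Ioi).mono fun s hs => wle (hb s hs))

theorem lap_norm1 {l K : ℝ} (hl : 0 < l) {F : ℝ → W} (hb : ∀ s > 0, ‖F s‖ ≤ K) :
    ‖lap l F‖ ≤ K / l := by
  have := lap_norm (a := 1) (K := K) (F := F) hl one_pos fun s hs => by simpa using hb s hs
  rwa [Real.rpow_one, Real.Gamma_one, mul_one, mul_one_div] at this

theorem lap_sub {l : ℝ} {F G : ℝ → W}
    (hF : IntegrableOn (fun s => Real.exp (-(l * s)) • F s) (Ioi 0))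
    (hG : IntegrableOn (fun s => Real.exp (-(l * s)) • G s) (Ioi 0)) :
    lap l F - lap l G = lap l fun s => F s - G s := by
  simp only [lap, smul_sub]
  exact (integral_sub hF hG).symm

/-- the splitting of the integral. -/
theorem lap_split {l K ρ : ℝ} (hl : 0 < l) (hρ : 0 < ρ) {F : ℝ → W}
    (hF : IntegrableOn (fun s => Real.exp (-(l * s)) • F s) (Ioi 0))
    (h1 : ∀ s > 0, ‖F s‖ ≤ 2 * K * s ^ (-3 / 4 : ℝ))
    (h2 : ∀ s > 0, ‖F s‖ ≤ K * s ^ (-5 / 4 : ℝ) * ρ ^ 2) : ‖lap l F‖ ≤ 12 * K * ρ := by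
  have h4 : 0 < ρ ^ 4 := by positivity
  have hs : ∀ s > 0, ‖Real.exp (-(l * s)) • F s‖ ≤ ‖F s‖ := fun s hs => by
    rw [norm_smul, Real.norm_of_nonneg (Real.exp_pos _).le]
    exact mul_le_of_le_one_left (norm_nonneg _)
      (Real.exp_le_one_iff.2 (neg_nonpos.2 (mul_pos hl hs).le))
  have q1 : (ρ ^ 4) ^ (-3 / 4 + 1 : ℝ) = ρ := by
    rw [← Real.rpow_natCast, ← Real.rpow_mul hρ.le]
    norm_num
  have q2 : (ρ ^ 4) ^ (-5 / 4 + 1 : ℝ) = ρ⁻¹ := by
    rw [← Real.rpow_natCast, ← Real.rpow_mul hρ.le, ← Real.rpow_neg_one]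
    norm_num
  have a1 : ‖∫ s in Ioc 0 (ρ ^ 4), Real.exp (-(l * s)) • F s‖ ≤ 8 * K * ρ := by
    have i1 : IntegrableOn (fun s : ℝ => 2 * K * s ^ (-3 / 4 : ℝ)) (Ioc 0 (ρ ^ 4)) :=
      Integrable.const_mul (intervalIntegral.intervalIntegrable_rpow' (by norm_num)).1 _
    refine (norm_integral_le_of_norm_le i1 ((ae_restrict_mem measurableSet_Ioc).mono
      fun s h => (hs s h.1).trans (h1 s h.1))).trans (le_of_eq ?_)
    rw [integral_const_mul, ← intervalIntegral.integral_of_le h4.le,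
      integral_rpow (Or.inl (by norm_num)), q1, Real.zero_rpow (by norm_num)]
    ring
  have a2 : ‖∫ s in Ioi (ρ ^ 4), Real.exp (-(l * s)) • F s‖ ≤ 4 * K * ρ := by
    have i1 : IntegrableOn (fun s : ℝ => K * s ^ (-5 / 4 : ℝ) * ρ ^ 2) (Ioi (ρ ^ 4)) :=
      Integrable.mul_const (Integrable.const_mul
        (integrableOn_Ioi_rpow_of_lt (by norm_num) h4) _) _
    refine (norm_integral_le_of_norm_le i1 ((ae_restrict_mem measurableSet_Ioi).mono
      fun s h => (hs s (h4.trans h)).trans (h2 s (h4.trans h)))).trans (le_of_eq ?_)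
    rw [integral_mul_const, integral_const_mul, integral_Ioi_rpow_of_lt (by norm_num) h4, q2]
    field_simp
    ring
  rw [lap, ← Ioc_union_Ioi_eq_Ioi h4.le, setIntegral_union Ioc_disjoint_Ioi_same measurableSet_Ioi
    (hF.mono_set Ioc_subset_Ioi_self) (hF.mono_set (Ioi_subset_Ioi h4.le))]
  refine (norm_add_le _ _).trans ?_
  linarith

omit [NormedSpace ℝ E] in
theorem lap_hol {l K : ℝ} (hl : 0 < l) {D : ℝ → E → W}
    (hD : ∀ z, IntegrableOn (fun s => Real.exp (-(l * s)) • D s z) (Ioi 0))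
    (h1 : ∀ s > 0, ∀ z, ‖D s z‖ ≤ K * s ^ (-3 / 4 : ℝ))
    (h2 : ∀ s > 0, ∀ z w, ‖D s z - D s w‖ ≤ K * s ^ (-5 / 4 : ℝ) * ‖z - w‖) (z w : E) :
    ‖(lap l fun s => D s z) - lap l fun s => D s w‖ ≤ 12 * K * √‖z - w‖ := by
  rcases eq_or_ne z w with rfl | hzw
  · simp
  have r0 : 0 < ‖z - w‖ := norm_pos_iff.2 (sub_ne_zero.2 hzw)
  rw [lap_sub (hD z) (hD w)]
  refine lap_split hl (Real.sqrt_pos.2 r0) ?_ (fun s s0 => ?_) fun s s0 => ?_
  · simp only [smul_sub]
    exact (hD z).sub (hD w)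
  · refine (norm_sub_le _ _).trans ?_
    linarith [h1 s s0 z, h1 s s0 w]
  · rw [Real.sq_sqrt r0.le]
    exact h2 s s0 z w

theorem lap_map {W' : Type} [NormedAddCommGroup W'] [NormedSpace ℝ W'] [CompleteSpace W]
    [CompleteSpace W'] {l : ℝ} (T : W →L[ℝ] W') {F : ℝ → W}
    (hF : IntegrableOn (fun s => Real.exp (-(l * s)) • F s) (Ioi 0)) :
    IntegrableOn (fun s => Real.exp (-(l * s)) • T (F s)) (Ioi 0) ∧
      T (lap l F) = lap l fun s => T (F s) := by
  simp only [lap, ← map_smul]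
  exact ⟨T.integrable_comp hF, (T.integral_comp_comm hF).symm⟩

/-- jointly smooth families. -/
def Sm (F : ℝ → E → W) : Prop := ContDiffOn ℝ ∞ (fun q : ℝ × E => F q.1 q.2) (Ioi 0 ×ˢ univ)

theorem Sm.at {F : ℝ → E → W} (h : Sm F) {s : ℝ} (hs : 0 < s) (z : E) :
    ContDiffAt ℝ ∞ (fun q : ℝ × E => F q.1 q.2) (s, z) :=
  h.contDiffAt ((isOpen_Ioi.prod isOpen_univ).mem_nhds ⟨hs, trivial⟩)

theorem Sm.fderiv {F : ℝ → E → W} (h : Sm F) : Sm fun s z => fderiv ℝ (F s) z := by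
  rintro ⟨s, z⟩ ⟨hs, -⟩
  refine (ContDiffAt.fderiv (n := ∞) (f := fun q : ℝ × E => F q.1) (g := fun q => q.2) ?_
    contDiffAt_snd (le_of_eq rfl)).contDiffWithinAt
  exact ContDiffAt.comp (f := fun p : (ℝ × E) × E => (p.1.1, p.2)) ((s, z), z) (h.at hs z)
    (by fun_prop)

theorem Sm.cont {F : ℝ → E → W} (h : Sm F) (z : E) : ContinuousOn (fun s => F s z) (Ioi 0) :=
  fun s hs => (ContinuousAt.comp (f := fun s : ℝ => (s, z)) (h.at hs z).continuousAt
    (by fun_prop)).continuousWithinAt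

theorem Sm.diff {F : ℝ → E → W} (h : Sm F) {s : ℝ} (hs : 0 < s) (z : E) :
    DifferentiableAt ℝ (F s) z :=
  DifferentiableAt.comp (f := fun z : E => (s, z)) z ((h.at hs z).differentiableAt (by simp))
    (by fun_prop)

theorem lap_fderiv {l a a' K K' : ℝ} (hl : 0 < l) (ha : 0 < a) (ha' : 0 < a') {F : ℝ → E → W}
    (h : Sm F) (hb : ∀ s > 0, ∀ z, ‖F s z‖ ≤ K * s ^ (a - 1))
    (hb' : ∀ s > 0, ∀ z, ‖fderiv ℝ (F s) z‖ ≤ K' * s ^ (a' - 1)) (z : E) :
    HasFDerivAt (fun z => lap l fun s => F s z) (lap l fun s => fderiv ℝ (F s) z) z :=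
  hasFDerivAt_integral_of_dominated_of_fderiv_le (s := univ)
    (F' := fun z s => Real.exp (-(l * s)) • fderiv ℝ (F s) z) univ_mem
    (Eventually.of_forall fun z => wmeas l (h.cont z))
    (lap_int hl ha (h.cont z) fun s hs => hb s hs z) (wmeas l (h.fderiv.cont z))
    ((ae_restrict_mem measurableSet_Ioi).mono fun s hs z _ => wle (hb' s hs z)) (wint hl ha' K')
    ((ae_restrict_mem measurableSet_Ioi).mono fun _ hs z _ =>
      (h.diff hs z).hasFDerivAt.const_smul _)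

/-- the Laplace transform of a derivative. -/
theorem lap_deriv [CompleteSpace W] {l B K : ℝ} (hl : 0 < l) {F G : ℝ → W} {x : W}
    (hF : IntegrableOn (fun s => Real.exp (-(l * s)) • F s) (Ioi 0))
    (hG : IntegrableOn (fun s => Real.exp (-(l * s)) • G s) (Ioi 0))
    (hd : ∀ s > 0, HasDerivAt F (G s) s) (hB : ∀ s > 0, ‖F s‖ ≤ B)
    (h0 : ∀ s > 0, ‖F s - x‖ ≤ K * s ^ (1 / 4 : ℝ)) : l • lap l F - lap l G = x := by
  classical
  set g : ℝ → W := fun s => if 0 < s then Real.exp (-(l * s)) • F s else x with hg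
  have g0 : g 0 = x := if_neg (lt_irrefl _)
  have gp : ∀ s > 0, g =ᶠ[𝓝 s] fun s => Real.exp (-(l * s)) • F s := fun s hs =>
    (eventually_gt_nhds hs).mono fun u hu => if_pos hu
  have t0 : Tendsto F (𝓝[>] 0) (𝓝 x) := by
    rw [tendsto_iff_norm_sub_tendsto_zero]
    refine squeeze_zero' (Eventually.of_forall fun _ => norm_nonneg _)
      (eventually_mem_nhdsWithin.mono h0) ?_
    have : ContinuousAt (fun s : ℝ => K * s ^ (1 / 4 : ℝ)) 0 :=
      continuousAt_const.mul (Real.continuousAt_rpow_const 0 _ (Or.inr (by norm_num)))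
    have := this.tendsto
    rw [Real.zero_rpow (by norm_num), mul_zero] at this
    exact this.mono_left nhdsWithin_le_nhds
  have hc : ContinuousWithinAt g (Ici 0) 0 := by
    rw [← continuousWithinAt_Ioi_iff_Ici, ContinuousWithinAt, g0]
    have e1 : Tendsto (fun s : ℝ => Real.exp (-(l * s))) (𝓝[>] 0) (𝓝 1) := by
      have : ContinuousAt (fun s : ℝ => Real.exp (-(l * s))) 0 := by fun_prop
      simpa using this.tendsto.mono_left nhdsWithin_le_nhds
    have := e1.smul t0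
    rw [one_smul] at this
    exact this.congr' (eventually_mem_nhdsWithin.mono fun s hs => (if_pos hs).symm)
  have ht : Tendsto g atTop (𝓝 0) := by
    rw [tendsto_zero_iff_norm_tendsto_zero]
    refine squeeze_zero' (g := fun s => Real.exp (-(l * s)) * B)
      (Eventually.of_forall fun _ => norm_nonneg _) ((eventually_gt_atTop 0).mono fun s hs => ?_) ?_
    · rw [show g s = _ from if_pos hs, norm_smul, Real.norm_of_nonneg (Real.exp_pos _).le]
      exact mul_le_mul_of_nonneg_left (hB s hs) (Real.exp_pos _).le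
    · have := (Real.tendsto_exp_neg_atTop_nhds_zero.comp
        (tendsto_id.const_mul_atTop hl)).mul_const B
      rwa [zero_mul] at this
  have key := integral_Ioi_of_hasDerivAt_of_tendsto (f := g) (a := 0)
    (f' := fun s => Real.exp (-(l * s)) • G s - l • Real.exp (-(l * s)) • F s) hc
    (fun s hs => by
      refine HasDerivAt.congr_of_eventuallyEq ?_ (gp s hs)
      have e1 : HasDerivAt (fun s : ℝ => Real.exp (-(l * s))) (Real.exp (-(l * s)) * -l) s := by
        simpa using ((hasDerivAt_id s).const_mul l).neg.exp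
      refine (e1.smul (hd s hs)).congr_deriv ?_
      rw [smul_smul, sub_eq_add_neg, ← neg_smul]
      congr 2
      ring)
    (hG.sub (hF.smul l)) ht
  have hF' : IntegrableOn (fun s => l • Real.exp (-(l * s)) • F s) (Ioi 0) := hF.smul l
  rw [integral_sub hG hF', g0, zero_sub] at key
  have e2 : ∫ s in Ioi (0 : ℝ), l • Real.exp (-(l * s)) • F s = l • lap l F := integral_smul _ _
  rw [← neg_sub, ← e2]
  exact neg_eq_iff_eq_neg.2 key

omit [NormedSpace ℝ E] [NormedSpace ℝ W] in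
theorem cont_of_hol {D : E → W} {K : ℝ} (h : ∀ z w, ‖D z - D w‖ ≤ K * √‖z - w‖) :
    Continuous D := by
  refine continuous_iff_continuousAt.2 fun w => ?_
  rw [ContinuousAt, tendsto_iff_norm_sub_tendsto_zero]
  refine squeeze_zero (fun _ => norm_nonneg _) (fun z => h z w) ?_
  have : Continuous fun z => K * √‖z - w‖ := by fun_prop
  simpa using this.tendsto w

theorem interp {x a b c r : ℝ} (hx : 0 ≤ x) (hc : 0 ≤ c) (hr : 0 ≤ r) (h1 : x ≤ a)
    (h2 : x ≤ b * r) (h : a * b ≤ c ^ 2) : x ≤ c * √r := by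
  refine le_of_sq_le_sq ?_ (by positivity)
  rw [mul_pow, Real.sq_sqrt hr]
  calc x ^ 2 ≤ a * (b * r) := by rw [sq]; exact mul_le_mul h1 h2 hx (hx.trans h1)
    _ = a * b * r := by ring
    _ ≤ c ^ 2 * r := mul_le_mul_of_nonneg_right h hr

end gen

variable {ι : Type} [Fintype ι] [DecidableEq ι]

/-- evaluation of a bilinear map. -/
def ap (u w : V ι) : (V ι →L[ℝ] V ι →L[ℝ] ℂ) →L[ℝ] ℂ :=
  (ContinuousLinearMap.apply ℝ ℂ w).comp (ContinuousLinearMap.apply ℝ (V ι →L[ℝ] ℂ) u)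

/-- the operator as a functional of the second derivative. -/
def op (A : Mat ι) : (V ι →L[ℝ] V ι →L[ℝ] ℂ) →L[ℝ] ℂ :=
  ∑ i, ∑ j, (A j i / 4) • (ap (Pi.single i 1) (Pi.single j 1) +
    Complex.I • ap (Pi.single i 1) (Pi.single j Complex.I) +
    (-Complex.I) • ap (Pi.single i Complex.I) (Pi.single j 1) +
    ap (Pi.single i Complex.I) (Pi.single j Complex.I))

theorem op_eq (A : Mat ι) {g : V ι → ℂ} {z : V ι} (h : DifferentiableAt ℝ (fderiv ℝ g) z) :
    trace (levi g z * A) = op A (fderiv ℝ (fderiv ℝ g) z) := by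
  have e : ∀ j u, fderiv ℝ (dzb g j) z u = (fderiv ℝ (fderiv ℝ g) z u (Pi.single j 1) +
      Complex.I * fderiv ℝ (fderiv ℝ g) z u (Pi.single j Complex.I)) / 2 := by
    intro j u
    have h1 := fun w => ((ContinuousLinearMap.apply ℝ ℂ w).hasFDerivAt.comp z h.hasFDerivAt)
    have h2 : HasFDerivAt (dzb g j) _ z :=
      ((h1 (Pi.single j 1)).add ((h1 (Pi.single j Complex.I)).const_mul Complex.I)).mul_const 2⁻¹
    rw [h2.fderiv]
    simp
    ring
  simp only [trace, diag, Matrix.mul_apply, levi, of_apply, dz, e, op, ap,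
    _root_.sum_apply, _root_.smul_apply, _root_.add_apply, ContinuousLinearMap.comp_apply,
    ContinuousLinearMap.apply_apply, smul_eq_mul]
  refine Finset.sum_congr rfl fun i _ => Finset.sum_congr rfl fun j _ => ?_
  linear_combination (-(A j i) / 4 *
    fderiv ℝ (fderiv ℝ g) z (Pi.single i Complex.I) (Pi.single j Complex.I)) * Complex.I_sq

theorem pw {t : ℝ} (ht : 0 < t) (k : ℕ) : (1 / t ^ 4) ^ ((k : ℝ) / 4) = 1 / t ^ k := by
  rw [← _root_.one_div_pow, ← Real.rpow_natCast, ← Real.rpow_mul (by positivity),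
    ← _root_.one_div_pow,
    ← Real.rpow_natCast]
  congr 1
  push_cast
  ring

end Res

open Res in
theorem res (h : HeatS) : ResS := by
  intro ι _ _ L
  obtain ⟨C, hC⟩ := h ι L
  set G : ℝ := Real.Gamma (3 / 4) + Real.Gamma (1 / 4) with hG
  have g3 : 0 < Real.Gamma (3 / 4) := Real.Gamma_pos_of_pos (by norm_num)
  have g1 : 0 < Real.Gamma (1 / 4) := Real.Gamma_pos_of_pos (by norm_num)
  have G0 : 0 < G := add_pos g3 g1
  refine ⟨1 + |C| * (12 + 2 * G), fun A hA h1 h2 t ht f M hf => ?_⟩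
  have t0 : 0 < t := one_pos.trans_le ht
  have M0 : 0 ≤ M := (mul_nonneg t0.le (norm_nonneg _)).trans (hf.1 0 trivial)
  obtain ⟨P, hP, hs⟩ := hC A hA h1 h2 f M (M / t)
    (fun z => by rw [le_div_iff₀ t0, mul_comm]; exact hf.1 z trivial)
    fun z w => hf.2 z trivial w trivial
  replace hP : Sm P := hP
  set K := C * M with hK
  have K0 : 0 ≤ K := by
    have := (norm_nonneg _).trans (hs 1 one_pos 0).2.2.2.2.1
    rwa [Real.one_rpow, mul_one] at this
  have KM : K ≤ |C| * M := mul_le_mul_of_nonneg_right (le_abs_self C) M0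
  set N := (1 + |C| * (12 + 2 * G)) * M with hN
  have CM : 0 ≤ |C| * M := by positivity
  have n1 : M ≤ N := by
    have : 0 ≤ |C| * M * (12 + 2 * G) := by positivity
    rw [hN]; linarith
  have n2 : 12 * K ≤ N := by
    have : 0 ≤ |C| * M * G := by positivity
    rw [hN]; linarith
  have n3 : 2 * K * G ≤ N := by
    have : K * G ≤ |C| * M * G := mul_le_mul_of_nonneg_right KM G0.le
    rw [hN]; linarith
  have l0 : 0 < t ^ 4 := by positivity
  have b0 : ∀ s > 0, ∀ z, ‖P s z‖ ≤ M / t * s ^ (1 - 1 : ℝ) := fun s s0 z => by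
    simpa using (hs s s0 z).2.2.1
  have b1 : ∀ s > 0, ∀ z, ‖fderiv ℝ (P s) z‖ ≤ K * s ^ (3 / 4 - 1 : ℝ) := fun s s0 z => by
    rw [show (3 / 4 - 1 : ℝ) = -1 / 4 by norm_num]
    exact (hs s s0 z).2.2.2.2.1
  have b2 : ∀ s > 0, ∀ z, ‖fderiv ℝ (fderiv ℝ (P s)) z‖ ≤ K * s ^ (1 / 4 - 1 : ℝ) :=
    fun s s0 z => by
      rw [show (1 / 4 - 1 : ℝ) = -3 / 4 by norm_num]
      exact (hs s s0 z).2.2.2.2.2.1
  have a3 : (0 : ℝ) < 3 / 4 := by norm_num
  have a1 : (0 : ℝ) < 1 / 4 := by norm_num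
  have i0 := fun z => lap_int l0 one_pos (hP.cont z) fun s s0 => b0 s s0 z
  have i2 := fun z => lap_int l0 a1 (hP.fderiv.fderiv.cont z) fun s s0 => b2 s s0 z
  have d1 := lap_fderiv l0 one_pos a3 hP b0 b1
  have d2 := lap_fderiv l0 a3 a1 hP.fderiv b1 b2
  set v : V ι → ℂ := fun z => lap (t ^ 4) fun s => P s z with hv
  have e1 : fderiv ℝ v = fun z => lap (t ^ 4) fun s => fderiv ℝ (P s) z :=
    funext fun z => (d1 z).fderiv
  rw [← e1] at d2
  have e2 : ∀ z, fderiv ℝ (fderiv ℝ v) z = lap (t ^ 4) fun s => fderiv ℝ (fderiv ℝ (P s)) z :=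
    fun z => (d2 z).fderiv
  have s1 : ∀ z, ‖fderiv ℝ v z‖ ≤ K * G / t ^ 3 := fun z => by
    rw [e1]
    refine (lap_norm l0 a3 fun s s0 => b1 s s0 z).trans ?_
    have := pw t0 3
    rw [Nat.cast_ofNat] at this
    rw [this, mul_div_assoc, one_div_mul_eq_div]
    gcongr
    rw [hG]; linarith
  have s2 : ∀ z, ‖fderiv ℝ (fderiv ℝ v) z‖ ≤ K * G / t := fun z => by
    rw [e2]
    refine (lap_norm l0 a1 fun s s0 => b2 s s0 z).trans ?_
    have := pw t0 1
    rw [Nat.cast_one, pow_one] at this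
    rw [this, mul_div_assoc, one_div_mul_eq_div]
    gcongr
    rw [hG]; linarith
  have s3 : ∀ z w, ‖fderiv ℝ (fderiv ℝ v) z - fderiv ℝ (fderiv ℝ v) w‖ ≤ 12 * K * √‖z - w‖ := by
    intro z w
    rw [e2, e2]
    exact lap_hol l0 i2 (fun s s0 z => (hs s s0 z).2.2.2.2.2.1)
      (fun s s0 z w => (hs s s0 z).2.2.2.2.2.2 w) z w
  have KG : 0 ≤ K * G := mul_nonneg K0 G0.le
  refine ⟨v, ⟨fun z _ => ContDiff.contDiffAt ?_, ⟨fun z _ => ?_, fun z _ w _ => ?_⟩,
    ⟨fun z _ => ?_, fun z _ w _ => ?_⟩, fun z _ => ?_, fun z _ w _ => ?_⟩, fun z => ?_⟩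
  · rw [show (2 : WithTop ℕ∞) = 1 + 1 from rfl, contDiff_succ_iff_fderiv]
    refine ⟨fun z => (d1 z).differentiableAt, by simp, ?_⟩
    rw [contDiff_one_iff_fderiv]
    exact ⟨fun z => (d2 z).differentiableAt, cont_of_hol s3⟩
  · have : ‖v z‖ ≤ M / t / t ^ 4 := lap_norm1 l0 fun s s0 => (hs s s0 z).2.2.1
    calc t * ‖v z‖ ≤ t * (M / t / t ^ 4) := mul_le_mul_of_nonneg_left this t0.le
      _ = M / t ^ 4 := by field_simp
      _ ≤ N / t ^ 4 := by gcongr
  · have : ‖v z - v w‖ ≤ M * √‖z - w‖ / t ^ 4 := by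
      rw [hv]
      simp only
      rw [lap_sub (i0 z) (i0 w)]
      exact lap_norm1 l0 fun s s0 => (hs s s0 z).2.2.2.1 w
    refine this.trans ?_
    rw [mul_div_right_comm]
    gcongr
  · calc t * ‖fderiv ℝ v z‖ ≤ t * (K * G / t ^ 3) := mul_le_mul_of_nonneg_left (s1 z) t0.le
      _ = K * G / t ^ 2 := by field_simp
      _ ≤ N / t ^ 2 := by gcongr; linarith
  · have u1 : ‖fderiv ℝ v z - fderiv ℝ v w‖ ≤ 2 * (K * G / t ^ 3) :=
      (norm_sub_le _ _).trans (by linarith [s1 z, s1 w])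
    have u2 : ‖fderiv ℝ v z - fderiv ℝ v w‖ ≤ K * G / t * ‖z - w‖ :=
      convex_univ.norm_image_sub_le_of_norm_fderiv_le (fun x _ => (d2 x).differentiableAt)
        (fun x _ => s2 x) trivial trivial
    refine (interp (c := 2 * K * G / t ^ 2) (norm_nonneg _) (by positivity) (norm_nonneg _) u1 u2
      ?_).trans (by gcongr)
    have : 0 ≤ (K * G / t ^ 2) ^ 2 := sq_nonneg _
    calc 2 * (K * G / t ^ 3) * (K * G / t) = 2 * (K * G / t ^ 2) ^ 2 := by field_simp
      _ ≤ 4 * (K * G / t ^ 2) ^ 2 := by linarith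
      _ = _ := by ring
  · calc t * ‖fderiv ℝ (fderiv ℝ v) z‖ ≤ t * (K * G / t) := mul_le_mul_of_nonneg_left (s2 z) t0.le
      _ = K * G := by field_simp
      _ ≤ N := by linarith
  · exact (s3 z w).trans (by gcongr)
  · obtain ⟨i3, e3⟩ := lap_map (op A) (i2 z)
    have := lap_deriv l0 (i0 z) i3
      (fun s s0 => by rw [← op_eq A (hP.fderiv.diff s0 z)]; exact (hs s s0 z).1)
      (fun s s0 => (hs s s0 z).2.2.1) fun s s0 => (hs s s0 z).2.1
    rw [op_eq A (d2 z).differentiableAt, e2, ← this, Complex.real_smul, Complex.ofReal_pow]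
    exact congrArg _ e3

end

end Pool.Agent.Lib.MP_813db1_ag.HS
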