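import Pool.Agent.Lib.MP_813db1_ag.HS.Stmt

/-! Royden's lemma and its equality case. -/

namespace Pool.Agent.Lib.MP_813db1_ag.HS

open Complex Matrix
open scoped ComplexOrder

namespace Roy

variable {ι : Type} [Fintype ι]

/-- the quadrilinear form of a tensor. -/
noncomputable def Q (R : ι → ι → ι → ι → ℂ) (x y z w : V ι) : ℂ :=
  ∑ i, ∑ j, ∑ k, ∑ l, R i j k l * x i * star (y j) * z k * star (w l)

variable (R : ι → ι → ι → ι → ℂ)

theorem add1 (x x' y z w : V ι) : Q R (x + x') y z w = Q R x y z w + Q R x' y z w := by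
  simp only [Q, ← Finset.sum_add_distrib, Pi.add_apply]
  refine Finset.sum_congr rfl fun i _ => Finset.sum_congr rfl fun j _ =>
    Finset.sum_congr rfl fun k _ => Finset.sum_congr rfl fun l _ => by ring

theorem add2 (x y y' z w : V ι) : Q R x (y + y') z w = Q R x y z w + Q R x y' z w := by
  simp only [Q, ← Finset.sum_add_distrib, Pi.add_apply, star_add]
  refine Finset.sum_congr rfl fun i _ => Finset.sum_congr rfl fun j _ =>
    Finset.sum_congr rfl fun k _ => Finset.sum_congr rfl fun l _ => by ring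

theorem add3 (x y z z' w : V ι) : Q R x y (z + z') w = Q R x y z w + Q R x y z' w := by
  simp only [Q, ← Finset.sum_add_distrib, Pi.add_apply]
  refine Finset.sum_congr rfl fun i _ => Finset.sum_congr rfl fun j _ =>
    Finset.sum_congr rfl fun k _ => Finset.sum_congr rfl fun l _ => by ring

theorem add4 (x y z w w' : V ι) : Q R x y z (w + w') = Q R x y z w + Q R x y z w' := by
  simp only [Q, ← Finset.sum_add_distrib, Pi.add_apply, star_add]
  refine Finset.sum_congr rfl fun i _ => Finset.sum_congr rfl fun j _ =>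
    Finset.sum_congr rfl fun k _ => Finset.sum_congr rfl fun l _ => by ring

theorem smul1 (c : ℂ) (x y z w : V ι) : Q R (c • x) y z w = c * Q R x y z w := by
  simp only [Q, Finset.mul_sum, Pi.smul_apply, smul_eq_mul]
  refine Finset.sum_congr rfl fun i _ => Finset.sum_congr rfl fun j _ =>
    Finset.sum_congr rfl fun k _ => Finset.sum_congr rfl fun l _ => by ring

theorem smul2 (c : ℂ) (x y z w : V ι) : Q R x (c • y) z w = star c * Q R x y z w := by
  simp only [Q, Finset.mul_sum, Pi.smul_apply, smul_eq_mul, star_mul']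
  refine Finset.sum_congr rfl fun i _ => Finset.sum_congr rfl fun j _ =>
    Finset.sum_congr rfl fun k _ => Finset.sum_congr rfl fun l _ => by ring

theorem smul3 (c : ℂ) (x y z w : V ι) : Q R x y (c • z) w = c * Q R x y z w := by
  simp only [Q, Finset.mul_sum, Pi.smul_apply, smul_eq_mul]
  refine Finset.sum_congr rfl fun i _ => Finset.sum_congr rfl fun j _ =>
    Finset.sum_congr rfl fun k _ => Finset.sum_congr rfl fun l _ => by ring

theorem smul4 (c : ℂ) (x y z w : V ι) : Q R x y z (c • w) = star c * Q R x y z w := by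
  simp only [Q, Finset.mul_sum, Pi.smul_apply, smul_eq_mul, star_mul']
  refine Finset.sum_congr rfl fun i _ => Finset.sum_congr rfl fun j _ =>
    Finset.sum_congr rfl fun k _ => Finset.sum_congr rfl fun l _ => by ring

theorem zero1 (y z w : V ι) : Q R 0 y z w = 0 := by simp [Q]

theorem sw12 (f : ι → ι → ι → ι → ℂ) :
    ∑ i, ∑ j, ∑ k, ∑ l, f i j k l = ∑ j, ∑ i, ∑ k, ∑ l, f i j k l := Finset.sum_comm

theorem sw23 (f : ι → ι → ι → ι → ℂ) :
    ∑ i, ∑ j, ∑ k, ∑ l, f i j k l = ∑ i, ∑ k, ∑ j, ∑ l, f i j k l :=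
  Finset.sum_congr rfl fun _ _ => Finset.sum_comm

theorem sw34 (f : ι → ι → ι → ι → ℂ) :
    ∑ i, ∑ j, ∑ k, ∑ l, f i j k l = ∑ i, ∑ j, ∑ l, ∑ k, f i j k l :=
  Finset.sum_congr rfl fun _ _ => Finset.sum_congr rfl fun _ _ => Finset.sum_comm

theorem sw13 (f : ι → ι → ι → ι → ℂ) :
    ∑ i, ∑ j, ∑ k, ∑ l, f i j k l = ∑ k, ∑ j, ∑ i, ∑ l, f i j k l := by
  rw [sw12 f, sw23 fun j i k l => f i j k l, sw12 fun j k i l => f i j k l]

theorem sw24 (f : ι → ι → ι → ι → ℂ) :
    ∑ i, ∑ j, ∑ k, ∑ l, f i j k l = ∑ i, ∑ l, ∑ k, ∑ j, f i j k l := by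
  rw [sw23 f, sw34 fun i k j l => f i j k l, sw23 fun i k l j => f i j k l]

variable {R}

theorem sy13 (h : ∀ i j k l, R i j k l = R k j i l) (x y z w : V ι) :
    Q R x y z w = Q R z y x w := by
  unfold Q
  rw [sw13]
  refine Finset.sum_congr rfl fun i _ => Finset.sum_congr rfl fun j _ =>
    Finset.sum_congr rfl fun k _ => Finset.sum_congr rfl fun l _ => by rw [h k j i l]; ring

theorem sy24 (h : ∀ i j k l, R i j k l = R i l k j) (x y z w : V ι) :
    Q R x y z w = Q R x w z y := by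
  unfold Q
  rw [sw24]
  refine Finset.sum_congr rfl fun i _ => Finset.sum_congr rfl fun j _ =>
    Finset.sum_congr rfl fun k _ => Finset.sum_congr rfl fun l _ => by rw [h i l k j]; ring

theorem sy_star (h : ∀ i j k l, star (R i j k l) = R j i l k) (x : V ι) :
    star (Q R x x x x) = Q R x x x x := by
  unfold Q
  simp only [star_sum, star_mul', star_star]
  rw [sw12, sw34]
  refine Finset.sum_congr rfl fun i _ => Finset.sum_congr rfl fun j _ =>
    Finset.sum_congr rfl fun k _ => Finset.sum_congr rfl fun l _ => by rw [h j i l k]; ring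

theorem avg4 (h1 : ∀ i j k l, R i j k l = R k j i l) (h2 : ∀ i j k l, R i j k l = R i l k j)
    (x y : V ι) :
    Q R (x + (1 : ℂ) • y) (x + (1 : ℂ) • y) (x + (1 : ℂ) • y) (x + (1 : ℂ) • y) +
    Q R (x + (-1 : ℂ) • y) (x + (-1 : ℂ) • y) (x + (-1 : ℂ) • y) (x + (-1 : ℂ) • y) +
    Q R (x + I • y) (x + I • y) (x + I • y) (x + I • y) +
    Q R (x + (-I) • y) (x + (-I) • y) (x + (-I) • y) (x + (-I) • y) =
      4 * (Q R x x x x + Q R y y y y + 4 * Q R x x y y) := by
  have e1 : Q R x y y x = Q R x x y y := sy24 h2 _ _ _ _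
  have e2 : Q R y x x y = Q R x x y y := sy13 h1 _ _ _ _
  have e3 : Q R y y x x = Q R x x y y := by rw [sy13 h1, e1]
  simp only [add1, add2, add3, add4, smul1, smul2, smul3, smul4, e1, e2, e3, star_neg, star_one,
    star_def, conj_I]
  have hI : I ^ 2 = -1 := I_sq
  have h4 : I ^ 4 = 1 := I_pow_four
  linear_combination (2 * Q R y y y y) * h4 +
    (2 * Q R x y x y + 2 * Q R y x y x - 8 * Q R x x y y) * hI

theorem avg2 (x y z w : V ι) :
    Q R (x + (1 : ℂ) • y) (x + (1 : ℂ) • y) z w + Q R (x + (-1 : ℂ) • y) (x + (-1 : ℂ) • y) z w +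
    Q R (x + I • y) (x + I • y) z w + Q R (x + (-I) • y) (x + (-I) • y) z w =
      4 * (Q R x x z w + Q R y y z w) := by
  simp only [add1, add2, smul1, smul2, star_neg, star_one, star_def, conj_I]
  have hI : I ^ 2 = -1 := I_sq
  linear_combination (-2 * Q R y y z w) * hI

/-- the average of the quartic form over all phases. -/
noncomputable def T {σ : Type} (R : ι → ι → ι → ι → ℂ) (ξ : σ → V ι) (s : Finset σ) (x : V ι) :
    ℂ :=
  Q R x x x x + 4 * ∑ a ∈ s, Q R x x (ξ a) (ξ a) +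
    2 * ∑ a ∈ s, ∑ b ∈ s, Q R (ξ a) (ξ a) (ξ b) (ξ b) - ∑ a ∈ s, Q R (ξ a) (ξ a) (ξ a) (ξ a)

theorem T_le {σ : Type} (h1 : ∀ i j k l, R i j k l = R k j i l)
    (h2 : ∀ i j k l, R i j k l = R i l k j) (hn : ∀ v, (Q R v v v v).re ≤ 0) (ξ : σ → V ι)
    (s : Finset σ) : ∀ x, (T R ξ s x).re ≤ 0 := by
  classical
  induction s using Finset.induction_on with
  | empty => intro x; simpa [T] using hn x
  | insert c s hc ih =>
    intro x
    have key : 4 * T R ξ (insert c s) x = T R ξ s (x + (1 : ℂ) • ξ c) +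
        T R ξ s (x + (-1 : ℂ) • ξ c) + T R ξ s (x + I • ξ c) + T R ξ s (x + (-I) • ξ c) := by
      have a4 := avg4 h1 h2 x (ξ c)
      have a2 : ∑ a ∈ s, Q R (x + (1 : ℂ) • ξ c) (x + (1 : ℂ) • ξ c) (ξ a) (ξ a) +
          ∑ a ∈ s, Q R (x + (-1 : ℂ) • ξ c) (x + (-1 : ℂ) • ξ c) (ξ a) (ξ a) +
          ∑ a ∈ s, Q R (x + I • ξ c) (x + I • ξ c) (ξ a) (ξ a) +
          ∑ a ∈ s, Q R (x + (-I) • ξ c) (x + (-I) • ξ c) (ξ a) (ξ a) =
          4 * (∑ a ∈ s, Q R x x (ξ a) (ξ a) + ∑ a ∈ s, Q R (ξ c) (ξ c) (ξ a) (ξ a)) := by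
        simp only [← Finset.sum_add_distrib, Finset.mul_sum]
        exact Finset.sum_congr rfl fun a _ => avg2 _ _ _ _
      have a3 : ∑ a ∈ s, Q R (ξ a) (ξ a) (ξ c) (ξ c) = ∑ a ∈ s, Q R (ξ c) (ξ c) (ξ a) (ξ a) :=
        Finset.sum_congr rfl fun a _ => by rw [sy13 h1, sy24 h2]
      simp only [T, Finset.sum_insert hc, Finset.sum_add_distrib]
      rw [a3]
      linear_combination (-1 : ℂ) * a4 - 4 * a2
    have hr := congrArg Complex.re key
    simp only [add_re, mul_re, re_ofNat, im_ofNat, zero_mul, sub_zero] at hr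
    have := ih (x + (1 : ℂ) • ξ c)
    have := ih (x + (-1 : ℂ) • ξ c)
    have := ih (x + I • ξ c)
    have := ih (x + (-I) • ξ c)
    linarith

theorem fam_le {σ : Type} [Fintype σ] (h1 : ∀ i j k l, R i j k l = R k j i l)
    (h2 : ∀ i j k l, R i j k l = R i l k j) (hn : ∀ v, (Q R v v v v).re ≤ 0) (ξ : σ → V ι) :
    2 * (∑ a, ∑ b, Q R (ξ a) (ξ a) (ξ b) (ξ b)).re ≤ ∑ a, (Q R (ξ a) (ξ a) (ξ a) (ξ a)).re := by
  have h := T_le h1 h2 hn ξ Finset.univ 0
  simp only [T, zero1, Finset.sum_const_zero, mul_zero, add_zero, zero_add, sub_re, mul_re,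
    re_ofNat, im_ofNat, zero_mul, sub_zero] at h
  rw [re_sum (f := fun a => Q R (ξ a) (ξ a) (ξ a) (ξ a))] at h
  linarith

theorem contr {σ : Type} [Fintype σ] (ξ : σ → V ι) (η : Mat ι)
    (h : ∀ j i, η j i = ∑ a, star (ξ a j) * ξ a i) :
    ∑ i, ∑ j, ∑ k, ∑ l, η j i * η l k * R i j k l = ∑ a, ∑ b, Q R (ξ a) (ξ a) (ξ b) (ξ b) := by
  have e : ∀ i j k l, η j i * η l k * R i j k l =
      ∑ a, ∑ b, R i j k l * ξ a i * star (ξ a j) * ξ b k * star (ξ b l) := by
    intro i j k l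
    rw [h j i, h l k, Finset.sum_mul_sum, Finset.sum_mul]
    refine Finset.sum_congr rfl fun a _ => ?_
    rw [Finset.sum_mul]
    exact Finset.sum_congr rfl fun b _ => by ring
  have sw : ∀ f : ι → σ → σ → ℂ, ∑ i, ∑ a, ∑ b, f i a b = ∑ a, ∑ b, ∑ i, f i a b := fun f => by
    rw [Finset.sum_comm]
    exact Finset.sum_congr rfl fun a _ => Finset.sum_comm
  simp only [e, Q]
  rw [← sw]
  refine Finset.sum_congr rfl fun i _ => ?_
  rw [← sw]
  refine Finset.sum_congr rfl fun j _ => ?_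
  rw [← sw]
  refine Finset.sum_congr rfl fun k _ => ?_
  rw [← sw]

theorem polar (h1 : ∀ i j k l, R i j k l = R k j i l) (h2 : ∀ i j k l, R i j k l = R i l k j)
    (E : Submodule ℂ (V ι)) (h0 : ∀ v ∈ E, Q R v v v v = 0) :
    ∀ x ∈ E, ∀ y ∈ E, ∀ z ∈ E, ∀ w ∈ E, Q R x y z w = 0 := by
  have hI : I ^ 2 = -1 := I_sq
  have m : ∀ x ∈ E, ∀ y ∈ E, ∀ c : ℂ, x + c • y ∈ E := fun x hx y hy c =>
    E.add_mem hx (E.smul_mem c hy)
  have s1 : ∀ x ∈ E, ∀ y ∈ E, Q R x x y y = 0 := by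
    intro x hx y hy
    have a := avg4 h1 h2 x y
    rw [h0 _ (m x hx y hy _), h0 _ (m x hx y hy _), h0 _ (m x hx y hy _), h0 _ (m x hx y hy _),
      h0 x hx, h0 y hy] at a
    linear_combination (-1 / 16 : ℂ) * a
  have s2 : ∀ x ∈ E, ∀ y ∈ E, ∀ z ∈ E, Q R x y z z = 0 := by
    intro x hx y hy z hz
    have a := s1 _ (m x hx y hy 1) z hz
    have b := s1 _ (m x hx y hy I) z hz
    simp only [add1, add2, smul1, smul2, star_one, star_def, conj_I, s1 x hx z hz,
      s1 y hy z hz] at a b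
    linear_combination (1 / 2 : ℂ) * a + (I / 2) * b + (Q R x y z z / 2 - Q R y x z z / 2) * hI
  intro x hx y hy z hz w hw
  have a := s2 x hx y hy _ (m z hz w hw 1)
  have b := s2 x hx y hy _ (m z hz w hw I)
  simp only [add3, add4, smul3, smul4, star_one, star_def, conj_I, s2 x hx y hy z hz,
    s2 x hx y hy w hw] at a b
  linear_combination (1 / 2 : ℂ) * a + (I / 2) * b + (Q R x y z w / 2 - Q R x y w z / 2) * hI

omit [Fintype ι] in
/-- every combination of a family is, up to a positive factor, a member of a family with the same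
Gram form. -/
theorem member {σ : Type} [Fintype σ] (ξ : σ → V ι) (u : σ → ℂ) :
    ∃ (c : ℝ) (ζ : Option σ → V ι), 0 < c ∧ ζ none = (c : ℂ) • ∑ a, u a • ξ a ∧
      ∀ j i, ∑ a, star (ζ a j) * ζ a i = ∑ a, star (ξ a j) * ξ a i := by
  set N : ℝ := ∑ a, normSq (u a) with hN
  have N0 : 0 ≤ N := Finset.sum_nonneg fun a _ => normSq_nonneg _
  set t : ℝ := 1 / (N + 1) with ht
  have t0 : 0 < t := by positivity
  have tN : t * N < 1 := by
    rw [ht, one_div, inv_mul_lt_iff₀ (by positivity)]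
    linarith
  have k0 : 0 < 2 * t - t ^ 2 * N := by nlinarith
  set v : V ι := ∑ a, u a • ξ a with hv
  have hvi : ∀ i, v i = ∑ a, u a * ξ a i := fun i => by simp [hv, Finset.sum_apply]
  have hvs : ∀ i, star (v i) = ∑ a, star (u a) * star (ξ a i) := fun i => by
    rw [hvi, star_sum]
    exact Finset.sum_congr rfl fun a _ => star_mul' _ _
  have hNc : (N : ℂ) = ∑ a, u a * star (u a) := by
    rw [hN, ofReal_sum]
    exact Finset.sum_congr rfl fun a _ => (mul_conj _).symm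
  refine ⟨√(2 * t - t ^ 2 * N), fun o => o.elim (((√(2 * t - t ^ 2 * N) : ℝ) : ℂ) • v)
    fun a => ξ a + (-(t : ℂ) * star (u a)) • v, Real.sqrt_pos.2 k0, rfl, fun j i => ?_⟩
  have hc : (((√(2 * t - t ^ 2 * N) : ℝ) : ℂ)) ^ 2 = 2 * t - t ^ 2 * N := by
    rw [← ofReal_pow, Real.sq_sqrt k0.le]
    push_cast
    ring
  have e : ∀ a, star ((ξ a + (-(t : ℂ) * star (u a)) • v) j) * (ξ a + (-(t : ℂ) * star (u a)) • v) i
      = star (ξ a j) * ξ a i - t * v i * (star (u a) * star (ξ a j)) -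
        t * star (v j) * (u a * ξ a i) + t ^ 2 * star (v j) * v i * (u a * star (u a)) := by
    intro a
    simp only [Pi.add_apply, Pi.smul_apply, smul_eq_mul, star_add, star_mul', star_neg,
      star_def, conj_ofReal, conj_conj]
    ring
  rw [Fintype.sum_option]
  simp only [Option.elim, e, Finset.sum_add_distrib, Finset.sum_sub_distrib, ← Finset.mul_sum]
  rw [← hvs, ← hvi, ← hNc]
  simp only [Pi.smul_apply, smul_eq_mul, star_mul', star_def, conj_ofReal]
  linear_combination ((starRingEnd ℂ) (v j) * v i) * hc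

end Roy

open Roy in
theorem roy : RoyS := by
  intro ι _ _ R η h1 h2 h3 hn hη
  have hn' : ∀ v, (Q R v v v v).re ≤ 0 := hn
  obtain ⟨B, hB⟩ : ∃ B : Mat ι, η = Bᴴ * B := by
    open scoped MatrixOrder in
    exact CStarAlgebra.nonneg_iff_eq_star_mul_self.mp hη.nonneg
  have hξ : ∀ j i, η j i = ∑ a, star (B a j) * B a i := fun j i => by
    rw [hB, Matrix.mul_apply]
    rfl
  refine ⟨?_, fun h0 a b c d => ?_⟩
  · rw [contr (fun a => B a) η hξ]
    have h := fam_le h1 h2 hn' fun a => B a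
    have h' : ∑ a, (Q R (B a) (B a) (B a) (B a)).re ≤ 0 := Finset.sum_nonpos fun a _ => hn' _
    linarith
  · have hz : ∀ v ∈ Submodule.span ℂ (Set.range fun a => B a), Q R v v v v = 0 := by
      intro v hv
      obtain ⟨u, rfl⟩ := (Submodule.mem_span_range_iff_exists_fun ℂ).1 hv
      obtain ⟨c, ζ, c0, hc, hg⟩ := member (fun a => B a) u
      have h := fam_le h1 h2 hn' ζ
      rw [← contr ζ η fun j i => by rw [hg, hξ], h0, Fintype.sum_option] at h
      have h' : ∑ a, (Q R (ζ (some a)) (ζ (some a)) (ζ (some a)) (ζ (some a))).re ≤ 0 :=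
        Finset.sum_nonpos fun a _ => hn' _
      have hr : (Q R (ζ none) (ζ none) (ζ none) (ζ none)).re = 0 :=
        le_antisymm (hn' _) (by linarith)
      have hi : (Q R (ζ none) (ζ none) (ζ none) (ζ none)).im = 0 :=
        conj_eq_iff_im.1 (sy_star h3 _)
      have hq : Q R (ζ none) (ζ none) (ζ none) (ζ none) = 0 := Complex.ext hr hi
      rw [hc, smul1, smul2, smul3, smul4] at hq
      have c1 : (c : ℂ) ≠ 0 := ofReal_ne_zero.2 c0.ne'
      simpa [c1] using hq
    have hm : ∀ a : V ι, a ᵥ* η ∈ Submodule.span ℂ (Set.range fun a => B a) := by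
      intro a
      refine (Submodule.mem_span_range_iff_exists_fun ℂ).2 ⟨a ᵥ* Bᴴ, ?_⟩
      rw [hB, ← Matrix.vecMul_vecMul, Matrix.vecMul_eq_sum (a ᵥ* Bᴴ) B]
    exact polar h1 h2 _ hz _ (hm a) _ (hm b) _ (hm c) _ (hm d)

end Pool.Agent.Lib.MP_813db1_ag.HS
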