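import Pool.Agent.Lib.MP_813db1_ag.HS.AY0
import Pool.Agent.Lib.MP_813db1_ag.HS.Calc2

/-! One step of the continuity method in the Hoelder class. -/

namespace Pool.Agent.Lib.MP_813db1_ag.HS

open Complex Matrix Filter Topology Set Metric
open scoped ContDiff ComplexOrder

noncomputable section

namespace Step

variable {ι X : Type} [Fintype ι] [DecidableEq ι] [TopologicalSpace X]

theorem pull_inv {J : Mat ι} (hJ : J.det ≠ 0) (A : Mat ι) : pull J⁻¹ (pull J A) = A := by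
  have e : J * J⁻¹ = 1 := mul_nonsing_inv _ hJ.isUnit
  have e1 : J⁻¹ᵀ * Jᵀ = 1 := by rw [← transpose_mul, e, transpose_one]
  have e2 : J.map star * J⁻¹.map star = 1 := by
    rw [show J.map star = Jᵀᴴ from rfl, show J⁻¹.map star = J⁻¹ᵀᴴ from rfl, ← conjTranspose_mul,
      e1, conjTranspose_one]
  simp only [pull, ← Matrix.mul_assoc, e1, Matrix.one_mul]
  rw [Matrix.mul_assoc, e2, Matrix.mul_one]

theorem pd_of_pull (hm : MatS) {J A : Mat ι} (hJ : J.det ≠ 0) (h : (pull J A).PosDef) :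
    A.PosDef := by
  rw [← pull_inv hJ A]
  refine (hm.pull_pd ι J⁻¹ _ ?_).1 h
  rw [det_nonsing_inv, Ring.inverse_eq_inv']
  exact inv_ne_zero hJ

theorem nl_pull (hm : MatS) {J H B : Mat ι} (hJ : J.det ≠ 0) (h1 : H.PosDef)
    (h2 : (H + B).PosDef) : nl (pull J H) (pull J B) = nl H B := by
  have e : pull J H + pull J B = pull J (H + B) := by
    simp only [pull, Matrix.mul_add, Matrix.add_mul]
  have c : ‖J.det‖ ^ 2 ≠ 0 := pow_ne_zero _ (norm_ne_zero_iff.2 hJ)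
  rw [nl, nl, e, (hm.pull_pd ι J _ hJ).2.2.2.1, (hm.pull_pd ι J _ hJ).2.2.2.1,
    (hm.pull_pd ι J _ hJ).2.2.2.2.2.1, re_ofReal_mul, re_ofReal_mul,
    Real.log_mul c (hm.det ι _ h1).1.ne', Real.log_mul c (hm.det ι _ h2).1.ne']
  ring

variable {M : Atl ι X} {C : Cov M} {h γ : X → Mat ι} {L : ℝ}

theorem src (C : Cov M) {b : Fin C.n} {z : V ι} (hz : z ∈ ball (0 : V ι) (2 * C.r b)) :
    (C.e b).symm z ∈ (C.e b).source := (C.e b).map_target (C.ball_sub2 b hz)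

theorem jdet (hA : RepA' M) {b : Fin C.n} {z : V ι} (hz : z ∈ ball (0 : V ι) (2 * C.r b)) :
    (tj (C.e b) (M.ch ((C.e b).symm z)) ((C.e b).symm z)).det ≠ 0 :=
  hA.tj_det _ (C.mem b) _ (M.ch_mem _) _ (src C hz) (M.mem _)

/-- the nonlinear estimate on the manifold. -/
theorem key (hA : RepA' M) (hm : MatS) {r0 Cn : ℝ}
    (hn : ∀ (U : Set (V ι)) (H B B' : V ι → Mat ι) (r d : ℝ), r ≤ r0 → (∀ z ∈ U, (H z).PosDef ∧
      (B z).IsHermitian ∧ (B' z).IsHermitian) → HolM L H U → HolM L (fun z => (H z)⁻¹) U →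
      HolM r B U → HolM r B' U → HolM d (fun z => B z - B' z) U → 0 ≤ r → 0 ≤ d →
      (∀ z ∈ U, (H z + B z).PosDef) ∧
        Hol (Cn * r * d) (fun z => nl (H z) (B z) - nl (H z) (B' z)) U)
    (hh : M.IsK h) (hE : C.Ell 0 L h) {r : ℝ} (hr : r ≤ r0) (hr0 : 0 ≤ r) :
    (∀ B : X → Mat ι, (∀ x, (B x).IsHermitian) → C.SHM r B → ∀ x, (h x + B x).PosDef) ∧
    ∀ (B B' : X → Mat ι) (d : ℝ), (∀ x, (B x).IsHermitian) → (∀ x, (B' x).IsHermitian) →
      C.SHM r B → C.SHM r B' → C.SHM d (fun x => B x - B' x) → 0 ≤ d →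
      C.SH 0 (Cn * r * d) fun x => ((nl (h x) (B x) - nl (h x) (B' x) : ℝ) : ℂ) := by
  have loc : ∀ (B B' : X → Mat ι) (d : ℝ), (∀ x, (B x).IsHermitian) → (∀ x, (B' x).IsHermitian) →
      C.SHM r B → C.SHM r B' → C.SHM d (fun x => B x - B' x) → 0 ≤ d → ∀ b,
      (∀ z ∈ ball (0 : V ι) (2 * C.r b), (M.repF h (C.e b) z + M.repF B (C.e b) z).PosDef) ∧
        Hol (Cn * r * d) (fun z => nl (M.repF h (C.e b) z) (M.repF B (C.e b) z) -
          nl (M.repF h (C.e b) z) (M.repF B' (C.e b) z)) (ball 0 (2 * C.r b)) :=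
    fun B B' d h1 h2 h3 h4 h5 hd b => hn _ _ _ _ r d hr
      (fun z hz => ⟨(hh _ (C.mem b)).2 z (C.ball_sub2 b hz),
        (hm.pull_pd ι _ _ (jdet hA hz)).2.2.1 (h1 _), (hm.pull_pd ι _ _ (jdet hA hz)).2.2.1 (h2 _)⟩)
      (hE b).1 (hE b).2.1 (h3 b) (h4 b) (repF_sub (M := M) B B' _ ▸ h5 b) hr0 hd
  have pd : ∀ B : X → Mat ι, (∀ x, (B x).IsHermitian) → C.SHM r B → ∀ x, (h x + B x).PosDef := by
    intro B h1 h2 x
    obtain ⟨b, hx, hz⟩ := C.cover2 x
    have := (loc B B 0 h1 h1 h2 h2 (fun b i j => (Hol.const (0 : ℂ) (by simp)).congr fun z _ => by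
      simp [Atl.repF, pull]) le_rfl b).1 _ hz
    rw [← congrFun (repF_add h B _), repF_at _ hx] at this
    exact pd_of_pull hm (hA.tj_det _ (C.mem b) _ (M.ch_mem _) _ hx (M.mem _)) this
  refine ⟨pd, fun B B' d h1 h2 h3 h4 h5 hd b => ?_⟩
  have := (loc B B' d h1 h2 h3 h4 h5 hd b).2.clm ofRealCLM ofRealCLM_norm.le
  rw [one_mul] at this
  rw [rep_fun]
  refine this.congr fun z hz => ?_
  have hp := ((hA.isK_iff h).1 hh).2
  rw [ofRealCLM_apply, Atl.repF, Atl.repF, Atl.repF, nl_pull hm (jdet hA hz) (hp _) (pd B h1 h3 _),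
    nl_pull hm (jdet hA hz) (hp _) (pd B' h2 h4 _)]

theorem shm_ddc (hB : RepB' M) {v : X → ℂ} {s : ℝ} (hv : C.SH2 0 s v) :
    C.SHM s (M.ddc fun y => (v y).re) := by
  intro b i j
  have h1 := hv.re b
  rw [rep_real] at h1
  refine (h1.levi i j).congr fun z hz => ?_
  have e := (C.e b).right_inv (C.ball_sub2 b hz)
  have := hB.ddc_rep (fun y => (v y).re) _ (C.mem b) _ (src C hz) (by rw [e]; exact h1.1 z hz)
  rw [e] at this
  rw [this]

theorem shm_add {P Q : X → Mat ι} {s s' : ℝ} (h1 : C.SHM s P) (h2 : C.SHM s' Q) :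
    C.SHM (s + s') fun x => P x + Q x := fun b i j => by
  rw [repF_add]
  exact (h1 b i j).add (h2 b i j)

theorem herm_ddc {u : X → ℝ} (hu : M.Ck 2 u) (x : X) : (M.ddc u x).IsHermitian :=
  levi_herm (hu _ (M.ch_mem x) _ ((M.ch x).map_source (M.mem x)))
    (Eventually.of_forall fun _ => conj_ofReal _)

theorem sh_trm (hA : RepA' M) (hE : C.Ell 0 L h) {δ : ℝ} (hδ : 0 ≤ δ) (hγ : C.SHM δ γ) :
    C.SH 0 (2 * Fintype.card ι ^ 2 * |L| * δ) fun x => (trm (h x) (γ x) : ℂ) := by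
  intro b
  have h1 := (Hol.sum Finset.univ fun i _ => Hol.sum Finset.univ fun j _ =>
    (hγ b i j).mul (((hE b).2.1 j i).mono (le_abs_self L))).clm (ofRealCLM.comp reCLM)
      (c := 1) (ContinuousLinearMap.opNorm_le_bound _ zero_le_one fun w => by
        simpa using Complex.abs_re_le_norm w)
  rw [rep_fun]
  refine (h1.mono (le_of_eq ?_)).congr fun z hz => ?_
  · simp only [Finset.sum_const, Finset.card_univ, nsmul_eq_mul]
    ring
  · have := hA.trm_rep h γ _ (C.mem b) _ (src C hz)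
    rw [(C.e b).right_inv (C.ball_sub2 b hz)] at this
    rw [← this]
    rfl

theorem re_box (hA : RepA' M) (hB : RepB' M) (hh : M.IsK h) {v : X → ℂ} {s : ℝ}
    (hv : C.SH2 0 s v) (x : X) : (M.box 0 h v x).re = M.lap h (fun y => (v y).re) x := by
  have h1 := hv.re
  have h2 : C.SH2 0 _ fun y => ((v y).im : ℂ) := (hv.cmul (-I)).re.congr fun y => by simp
  have hh' := (((hA.isK_iff h).1 hh).2 x).isHermitian
  have e : v = fun y => ((v y).re : ℂ) + I * ((v y).im : ℂ) := funext fun y => by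
    rw [mul_comm, re_add_im]
  conv_lhs => rw [e]
  rw [box_add (h1.ckS hA) (ckS_cmul I (h2.ckS hA)), box_cmul I (h2.ckS hA),
    hB.box_zero h _ x (h1.ck hA) hh', hB.box_zero h _ x (h2.ck hA) hh']
  simp

end Step

open Step in
theorem stepS (hA : RepA) (hB : RepB) (hm : MatS) (hn : NlS) (hi : IterS) : StepS := by
  intro ι X _ _ _ M C L K hK
  have hA := hA ι X M
  have hB := hB ι X M
  obtain ⟨r0, hr0, Cn, hCn, hn⟩ := hn ι L
  obtain ⟨c1, hc1, ec1⟩ : ∃ c1 : ℝ, 0 ≤ c1 ∧ c1 = 2 * Fintype.card ι ^ 2 * |L| :=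
    ⟨_, by positivity, rfl⟩
  obtain ⟨δ, hδ, δa, δb, δc⟩ : ∃ δ > (0 : ℝ), (3 * K * (c1 + 1) + 1) * δ ≤ r0 ∧
      Cn * (3 * K * (c1 + 1) + 1) * δ ≤ 1 ∧ Cn * (3 * K * (c1 + 1) + 1) * K * δ ≤ 1 / 2 := by
    have t0 : ∀ a b : ℝ, 0 < b → ∀ᶠ τ in 𝓝[>] (0 : ℝ), a * τ < b := fun a b hb =>
      nhdsWithin_le_nhds ((by fun_prop : ContinuousAt (fun τ : ℝ => a * τ) 0).eventually_lt
        continuousAt_const (by simpa using hb))
    obtain ⟨τ, a0, a1, a2, a3⟩ := (eventually_mem_nhdsWithin.and ((t0 _ _ hr0).and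
      ((t0 _ _ one_pos).and (t0 _ _ one_half_pos)))).exists
    exact ⟨τ, a0, a1.le, a2.le, a3.le⟩
  refine ⟨δ, hδ, fun h γ hh hE hγ hs sol => ?_⟩
  obtain ⟨B0, eB0⟩ : ∃ B0, B0 = (c1 + 1) * δ := ⟨_, rfl⟩
  obtain ⟨r, er⟩ : ∃ r, r = δ + 3 * K * B0 := ⟨_, rfl⟩
  have hB0 : 0 ≤ B0 := by rw [eB0]; positivity
  have hKB := mul_nonneg hK hB0
  have hr : 0 ≤ r := by rw [er]; positivity
  have er' : r = (3 * K * (c1 + 1) + 1) * δ := by rw [er, eB0]; ring
  have l23 : 2 * K * B0 ≤ 3 * K * B0 := by linarith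
  obtain ⟨pd, est⟩ := key hA hm hn hh hE (er' ▸ δa : r ≤ r0) hr
  set Bf : (X → ℂ) → X → Mat ι := fun v x => γ x + M.ddc (fun y => (v y).re) x with eBf
  have bh : ∀ {v s}, C.SH2 0 s v → ∀ x, (Bf v x).IsHermitian := fun hv x =>
    (hγ x).add (herm_ddc (hv.re.ck hA) x)
  have bs : ∀ {v}, C.SH2 0 (3 * K * B0) v → C.SHM r (Bf v) := fun hv =>
    er ▸ shm_add hs (shm_ddc hB hv)
  have df : ∀ {v w d}, C.SH2 0 (3 * K * B0) v → C.SH2 0 (3 * K * B0) (fun y => v y + w y) →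
      C.SH2 0 d w → 0 ≤ d → C.SH 0 (Cn * r * d) fun x =>
        ((nl (h x) (Bf (fun y => v y + w y) x) - nl (h x) (Bf v x) : ℝ) : ℂ) := by
    intro v w d h1 h2 h3 hd
    refine est _ _ d (bh h2) (bh h1) (bs h2) (bs h1) ?_ hd
    have e : (fun x => Bf (fun y => v y + w y) x - Bf v x) = M.ddc fun y => (w y).re := by
      funext x
      have := hB.ddc_add _ _ (h1.re.ck hA) (h3.re.ck hA) 1 x
      simp only [one_mul, ofReal_one, one_smul] at this
      simp only [eBf, add_re, this]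
      abel
    rw [e]
    exact shm_ddc hB h3
  refine (hi ι X M C 0 (fun v x => v x - M.box 0 h v x -
    ((trm (h x) (γ x) : ℂ) + (nl (h x) (Bf v x) : ℂ))) 1 K B0 le_rfl hK hB0 ?_ ?_ ?_).elim ?_
  · have h1 := est γ (fun _ => 0) δ hγ (fun _ => isHermitian_zero)
      (fun b i j => (hs b i j).mono (by linarith))
      (fun b i j => (Hol.const (0 : ℂ) (by simpa using hr)).congr fun z _ => by
        simp [Atl.repF, pull]) (by simpa only [sub_zero] using hs) hδ.le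
    refine Cov.sh_iff.1 ((((sh_trm hA hE hδ.le hs).add h1).neg.mono ?_).congr fun x => ?_)
    · rw [← ec1, eB0, er']
      nlinarith
    · simp [eBf, box_zero', hB.ddc_const, nl, trm]
  · intro v B b0 b1 hv hΦ
    obtain ⟨w, hw, hw'⟩ := sol _ B b0 (Cov.sh_iff.2 hΦ).neg
    have h1 := df (hv.mono l23) ((hv.add hw).mono
      (by linarith [mul_le_mul_of_nonneg_left b1 hK])) hw (mul_nonneg hK b0)
    refine ⟨w, hw, Cov.sh_iff.1 ((h1.neg.mono ?_).congr fun x => ?_)⟩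
    · rw [er']
      nlinarith [mul_le_mul_of_nonneg_right δc b0]
    · rw [box_add (hv.ckS hA) (hw.ckS hA), ofReal_sub]
      linear_combination hw' x
  · intro v x hv ε hε
    obtain ⟨ca, ha, ha'⟩ := Cov.SH.bound hA C 0 x
    obtain ⟨cb, hb, hb'⟩ := box_bound hA hB hh C 0 x
    have hc : 0 < ca + cb + ca * (Cn * r) + 1 := by positivity
    refine ⟨ε / (ca + cb + ca * (Cn * r) + 1), by positivity, fun v' hv' hd => ?_⟩
    set d := ε / (ca + cb + ca * (Cn * r) + 1) with ed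
    have d0 : 0 < d := by positivity
    have e : (fun y => v' y + (v y - v' y)) = v := funext fun y => by ring
    have h1 := ha' _ _ hd.sh
    have h2 := hb' _ _ hd
    have h3 := ha' _ _ (df (hv'.mono l23) (e.symm ▸ hv.mono l23) hd d0.le)
    rw [box_sub (hv.ckS hA) (hv'.ckS hA)] at h2
    rw [e] at h3
    have h4 : ε = (ca + cb + ca * (Cn * r) + 1) * d := by rw [ed]; field_simp
    calc _ = ‖(v x - v' x) - (M.box 0 h v x - M.box 0 h v' x) -
          ((nl (h x) (Bf v x) - nl (h x) (Bf v' x) : ℝ) : ℂ)‖ := by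
          congr 1; push_cast; ring
      _ ≤ ca * d + cb * d + ca * (Cn * r * d) :=
          (norm_sub_le _ _).trans (add_le_add ((norm_sub_le _ _).trans (add_le_add h1 h2)) h3)
      _ ≤ ε := by rw [h4]; nlinarith
  · rintro v ⟨hv, h0⟩
    refine ⟨fun y => (v y).re, _, hv.re, fun x => ?_⟩
    have p := pd _ (bh hv) (bs (hv.mono l23)) x
    have hp := ((hA.isK_iff h).1 hh).2 x
    have e := congrArg re (h0 x)
    simp only [sub_re, add_re, ofReal_re, zero_re, re_box hA hB hh hv, Atl.lap, nl, eBf, trm,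
      Matrix.add_mul, trace_add] at e
    simp only [rat, add_assoc]
    refine ⟨p, ?_⟩
    rw [Real.log_div (hm.det ι _ p).1.ne' (hm.det ι _ hp).1.ne']
    linarith

end

end Pool.Agent.Lib.MP_813db1_ag.HS
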