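import Pool.Agent.Lib.MP_813db1_ag.HS.Stmt2

/-! The volume measure of a Kaehler form. -/

set_option autoImplicit false

namespace Pool.Agent.Lib.MP_813db1_ag.HS

open MeasureTheory Complex Matrix Filter Topology Set Metric
open scoped ContDiff ComplexOrder ENNReal

namespace Vol

variable {ι X : Type} [Fintype ι] [TopologicalSpace X] [MeasurableSpace X] [BorelSpace X]

theorem emb (e : Ch ι X) : MeasurableEmbedding fun z : e.target => e.symm z :=
  e.symm.isOpenEmbedding_restrict.measurableEmbedding

theorem aem (e : Ch ι X) (m : Measure (V ι)) : AEMeasurable e.symm (m.restrict e.target) :=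
  e.continuousOn_symm.aemeasurable e.open_target.measurableSet

theorem map_eq (e : Ch ι X) (m : Measure (V ι)) : (m.restrict e.target).map e.symm =
    (m.comap Subtype.val).map fun z : e.target => e.symm z := by
  have h := aem e m
  rw [← map_comap_subtype_coe e.open_target.measurableSet] at h ⊢
  exact h.map_map_of_aemeasurable measurable_subtype_coe.aemeasurable

theorem ms_img (e : Ch ι X) {S : Set (V ι)} (hS : MeasurableSet S) :
    MeasurableSet (e.source ∩ e ⁻¹' S) := by
  convert (emb e).measurableSet_image.2 (measurable_subtype_coe hS) using 1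
  ext x
  constructor
  · rintro ⟨h, h'⟩
    exact ⟨⟨e x, e.map_source h⟩, h', e.left_inv h⟩
  · rintro ⟨z, h, rfl⟩
    exact ⟨e.map_target z.2, by rw [mem_preimage, e.right_inv z.2]; exact h⟩

theorem ms_pre (e : Ch ι X) {B : Set X} (hB : MeasurableSet B) :
    MeasurableSet (e.symm ⁻¹' B ∩ e.target) := by
  convert e.open_target.measurableSet.subtype_image ((emb e).measurable hB) using 1
  ext z
  exact ⟨fun h => ⟨⟨z, h.2⟩, h.1, rfl⟩, by rintro ⟨w, h, rfl⟩; exact ⟨h, w.2⟩⟩

/-- the measure with density `d` in the chart `e`. -/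
noncomputable def nu (e : Ch ι X) (d : V ι → ℝ≥0∞) : Measure X :=
  ((volume.restrict e.target).withDensity d).map e.symm

theorem nu_eq (e : Ch ι X) (d : V ι → ℝ≥0∞) :
    nu e d = ((volume.withDensity d).restrict e.target).map e.symm := by
  rw [nu, restrict_withDensity e.open_target.measurableSet]

theorem nu_apply (e : Ch ι X) (d : V ι → ℝ≥0∞) {B : Set X} (hB : MeasurableSet B) :
    nu e d B = ∫⁻ z in e.symm ⁻¹' B ∩ e.target, d z := by
  rw [nu_eq, Measure.map_apply_of_aemeasurable (aem e _) hB,
    Measure.restrict_apply' e.open_target.measurableSet, withDensity_apply']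

theorem nu_restrict (e : Ch ι X) (d : V ι → ℝ≥0∞) {S : Set (V ι)} (hS : MeasurableSet S)
    (h : S ⊆ e.target) : (nu e d).restrict (e.source ∩ e ⁻¹' S) =
      (((volume.restrict S).withDensity d).restrict e.target).map e.symm := by
  rw [nu_eq, Measure.restrict_map_of_aemeasurable (aem e _) (ms_img e hS), ← restrict_withDensity hS,
    Measure.restrict_restrict' e.open_target.measurableSet, Measure.restrict_restrict' hS]
  congr 2
  ext z
  exact ⟨fun k => ⟨k.2, by have := k.1.2; rwa [mem_preimage, e.right_inv k.2] at this⟩,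
    fun k => ⟨⟨e.map_target k.1, by rw [mem_preimage, e.right_inv k.1]; exact k.2⟩, k.1⟩⟩

theorem rs (d : V ι → ℝ≥0∞) {S T : Set (V ι)} (hS : MeasurableSet S) (h : S ⊆ T) :
    ((volume.restrict S).withDensity d).restrict T = (volume.restrict S).withDensity d := by
  rw [← restrict_withDensity hS, Measure.restrict_restrict' hS, inter_eq_right.2 h]

theorem nu_lint (e : Ch ι X) {d : V ι → ℝ} (hd : ContinuousOn d e.target) {S : Set (V ι)}
    (hS : MeasurableSet S) (h : S ⊆ e.target) (f : X → ℝ≥0∞) :
    ∫⁻ x in e.source ∩ e ⁻¹' S, f x ∂nu e (fun z => ENNReal.ofReal (d z)) =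
      ∫⁻ z in S, ENNReal.ofReal (d z) * f (e.symm z) := by
  rw [nu_restrict e _ hS h, map_eq, (emb e).lintegral_map,
    lintegral_subtype_comap e.open_target.measurableSet fun z => f (e.symm z), rs _ hS h,
    lintegral_withDensity_eq_lintegral_mul_non_measurable₀ _
      ((hd.mono h).aemeasurable hS).ennreal_ofReal
      (Eventually.of_forall fun _ => ENNReal.ofReal_lt_top)]
  rfl

theorem nu_int {E : Type} [NormedAddCommGroup E] [NormedSpace ℝ E] (e : Ch ι X) {d : V ι → ℝ}
    (hd : ContinuousOn d e.target) (h0 : ∀ z ∈ e.target, 0 < d z) {S : Set (V ι)}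
    (hS : MeasurableSet S) (h : S ⊆ e.target) (f : X → E) :
    ∫ x in e.source ∩ e ⁻¹' S, f x ∂nu e (fun z => ENNReal.ofReal (d z)) =
      ∫ z in S, d z • f (e.symm z) := by
  rw [nu_restrict e _ hS h, map_eq, (emb e).integral_map,
    integral_subtype_comap e.open_target.measurableSet fun z => f (e.symm z), rs _ hS h,
    integral_withDensity_eq_integral_toReal_smul₀ ((hd.mono h).aemeasurable hS).ennreal_ofReal
      (Eventually.of_forall fun _ => ENNReal.ofReal_lt_top)]
  exact setIntegral_congr_fun hS fun z hz => by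
    simp only [ENNReal.toReal_ofReal (h0 z (h hz)).le]

variable [DecidableEq ι]

theorem det_real (φ : V ι → V ι) (z : V ι) :
    ((fderiv ℂ φ z).restrictScalars ℝ).det = ‖(jac φ z).det‖ ^ 2 := by
  have : jac φ z = LinearMap.toMatrix' (fderiv ℂ φ z).toLinearMap := by
    ext p i
    simp [jac]
  rw [this, LinearMap.det_toMatrix', ← Complex.normSq_eq_norm_sq, ← Algebra.norm_complex_apply,
    ← LinearMap.det_restrictScalars]
  rfl

theorem compat (ha : RepA) (hm : MatS) (M : Atl ι X) (g : X → Mat ι) {e e' : Ch ι X}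
    (he : e ∈ M.A) (he' : e' ∈ M.A) :
    (nu e' fun z => ENNReal.ofReal (M.repF g e' z).det.re).restrict e.source =
      (nu e fun z => ENNReal.ofReal (M.repF g e z).det.re).restrict e'.source := by
  ext B hB
  have m := hB.inter e.open_source.measurableSet
  have m' := hB.inter e'.open_source.measurableSet
  rw [Measure.restrict_apply hB, Measure.restrict_apply hB, nu_apply _ _ m, nu_apply _ _ m']
  have i : e'.symm ⁻¹' (B ∩ e.source) ∩ e'.target =
      (e' ∘ e.symm) '' (e.symm ⁻¹' (B ∩ e'.source) ∩ e.target) := by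
    ext w
    constructor
    · rintro ⟨⟨h1, h2⟩, h3⟩
      refine ⟨e (e'.symm w), ⟨?_, e.map_source h2⟩, ?_⟩
      · rw [mem_preimage, e.left_inv h2]
        exact ⟨h1, e'.map_target h3⟩
      · rw [Function.comp_apply, e.left_inv h2, e'.right_inv h3]
    · rintro ⟨z, ⟨⟨h1, h2⟩, h3⟩, rfl⟩
      refine ⟨?_, e'.map_source h2⟩
      rw [mem_preimage, Function.comp_apply, e'.left_inv h2]
      exact ⟨h1, e.map_target h3⟩
  rw [i, lintegral_image_eq_lintegral_abs_det_fderiv_mul volume (ms_pre e m') (f := e' ∘ e.symm)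
    (f' := fun z => (fderiv ℂ (e' ∘ e.symm) z).restrictScalars ℝ) (fun z hz => ?_)
    (fun z hz w hw k => e.symm.injOn hz.2 hw.2 (e'.injOn hz.1.2 hw.1.2 k))]
  · refine setLIntegral_congr_fun (ms_pre e m') fun z hz => ?_
    have h1 := e.map_target hz.2
    have h2 := (ha ι X M).repF_tr g e he e' he' _ h1 hz.1.2
    have h3 := (hm.pull_pd ι _ (M.repF g e' (e' (e.symm z)))
      ((ha ι X M).tj_det e he e' he' _ h1 hz.1.2)).2.2.2.1
    rw [← h2, tj, e.right_inv hz.2] at h3
    simp only [det_real, h3, re_ofReal_mul]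
    rw [abs_of_nonneg (sq_nonneg _), ENNReal.ofReal_mul (sq_nonneg _)]
    rfl
  · have := M.hol e he e' he' _ (e.map_target hz.2) hz.1.2
    rw [e.right_inv hz.2] at this
    exact (this.differentiableAt.hasFDerivAt.restrictScalars ℝ).hasFDerivWithinAt

end Vol

theorem volS (ha : RepA) (hm : MatS) : VolS := by
  intro ι X _ _ _ _ _ _ _ M g hg
  classical
  obtain ⟨t, ht⟩ := CompactSpace.elim_nhds_subcover (fun x => (M.ch x).source)
    fun x => (M.ch x).open_source.mem_nhds (M.mem x)
  have cd : ∀ e ∈ M.A, ContinuousOn (fun z => (M.repF g e z).det.re) e.target :=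
    fun e he z hz => (continuous_re.continuousAt.comp
      ((continuous_id.matrix_det).continuousAt.comp (f := M.repF g e) (continuousAt_pi.2 fun i =>
        continuousAt_pi.2 fun j => ((hg e he).1.1 z hz i j).continuousAt))).continuousWithinAt
  have pd : ∀ e ∈ M.A, ∀ z ∈ e.target, 0 < (M.repF g e z).det.re := fun e he z hz =>
    (hm.det ι _ ((hg e he).2 z hz)).1
  refine ⟨?_, fun μ hμ => ?_⟩
  · have key : ∀ s : Finset X, ∃ μ : Measure X, ∀ e ∈ M.A, μ.restrict e.source =
        (Vol.nu e fun z => ENNReal.ofReal (M.repF g e z).det.re).restrict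
          (⋃ x ∈ s, (M.ch x).source) := by
      intro s
      induction s using Finset.induction_on with
      | empty => exact ⟨0, fun e _ => by simp⟩
      | insert a s _ ih =>
        obtain ⟨μ, h⟩ := ih
        have mU : MeasurableSet (⋃ x ∈ s, (M.ch x).source) :=
          (isOpen_biUnion fun x _ => (M.ch x).open_source).measurableSet
        refine ⟨μ + (Vol.nu (M.ch a) fun z =>
          ENNReal.ofReal (M.repF g (M.ch a) z).det.re).restrict (⋃ x ∈ s, (M.ch x).source)ᶜ,
          fun e he => ?_⟩
        rw [Measure.restrict_add, h e he, Measure.restrict_comm e.open_source.measurableSet,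
          Vol.compat ha hm M g he (M.ch_mem a), Measure.restrict_restrict mU.compl,
          ← Measure.restrict_union (disjoint_compl_right.mono_right inter_subset_left)
            (mU.compl.inter (M.ch a).open_source.measurableSet), Finset.set_biUnion_insert,
          union_inter_distrib_left, union_compl_self, univ_inter, union_comm]
    obtain ⟨μ, h⟩ := key t
    exact ⟨μ, fun e he => by rw [h e he, ht, top_eq_univ, Measure.restrict_univ]; rfl⟩
  have rr : ∀ e ∈ M.A, ∀ S : Set (V ι), μ.restrict (e.source ∩ e ⁻¹' S) =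
      (Vol.nu e fun z => ENNReal.ofReal (M.repF g e z).det.re).restrict (e.source ∩ e ⁻¹' S) :=
    fun e he S => by
      rw [← Measure.restrict_restrict_of_subset inter_subset_left, hμ e he]
      rfl
  have ap : ∀ e ∈ M.A, ∀ S : Set (V ι), MeasurableSet S → S ⊆ e.target →
      μ (e.source ∩ e ⁻¹' S) = ∫⁻ z in S, ENNReal.ofReal (M.repF g e z).det.re := by
    intro e he S hS h
    rw [← setLIntegral_one, rr e he, Vol.nu_lint e (cd e he) hS h]
    simp only [mul_one]
  refine ⟨?_, ⟨fun U hU ⟨x, hx⟩ h0 => ?_⟩,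
    fun e he S hS h f => by rw [rr e he, Vol.nu_lint e (cd e he) hS h],
    fun e he S hS h f => by rw [rr e he, Vol.nu_int e (cd e he) (pd e he) hS h]; rfl,
    fun e he S hS h f => by rw [rr e he, Vol.nu_int e (cd e he) (pd e he) hS h]; rfl,
    fun μ' h => (Measure.ext_iff_of_biUnion_eq_univ t.countable_toSet ht).2 fun x _ => h x⟩
  · have : IsLocallyFiniteMeasure μ := ⟨fun x => by
      obtain ⟨K, k1, k2, k3⟩ := local_compact_nhds
        ((M.ch x).open_target.mem_nhds ((M.ch x).map_source (M.mem x)))
      refine ⟨(M.ch x).source ∩ M.ch x ⁻¹' K, inter_mem ((M.ch x).open_source.mem_nhds (M.mem x))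
        ((M.ch x).continuousAt (M.mem x) k1), ?_⟩
      rw [ap _ (M.ch_mem x) K k3.measurableSet k2]
      exact (((cd _ (M.ch_mem x)).mono k2).integrableOn_compact k3).lintegral_lt_top⟩
    infer_instance
  · have o := (M.ch x).isOpen_inter_preimage_symm hU
    have h1 : μ ((M.ch x).source ∩ M.ch x ⁻¹' ((M.ch x).target ∩ (M.ch x).symm ⁻¹' U)) = 0 :=
      measure_mono_null (fun y hy => by
        have := hy.2.2
        rwa [mem_preimage, (M.ch x).left_inv hy.1] at this) h0
    rw [ap _ (M.ch_mem x) _ o.measurableSet inter_subset_left, lintegral_eq_zero_iff'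
      (((cd _ (M.ch_mem x)).mono inter_subset_left).aemeasurable o.measurableSet).ennreal_ofReal] at h1
    have h2 := (h1.and (ae_restrict_mem o.measurableSet)).mono fun z hz =>
      (ENNReal.ofReal_pos.2 (pd _ (M.ch_mem x) z hz.2.1)).ne' hz.1
    rw [eventually_false_iff_eq_bot, ae_eq_bot, Measure.restrict_eq_zero] at h2
    exact o.measure_ne_zero volume ⟨M.ch x x, (M.ch x).map_source (M.mem x), by
      rwa [mem_preimage, (M.ch x).left_inv (M.mem x)]⟩ h2

end Pool.Agent.Lib.MP_813db1_ag.HS
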