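import Pool.Agent.Lib.MP_813db1_ag.HS.Mat
import Pool.Agent.Lib.MP_813db1_ag.HS.Max
import Pool.Agent.Lib.MP_813db1_ag.HS.Heat
import Pool.Agent.Lib.MP_813db1_ag.HS.Res
import Pool.Agent.Lib.MP_813db1_ag.HS.Pert
import Pool.Agent.Lib.MP_813db1_ag.HS.Cau
import Pool.Agent.Lib.MP_813db1_ag.HS.Hk
import Pool.Agent.Lib.MP_813db1_ag.HS.Dq
import Pool.Agent.Lib.MP_813db1_ag.HS.RegL
import Pool.Agent.Lib.MP_813db1_ag.HS.RegN
import Pool.Agent.Lib.MP_813db1_ag.HS.Nl
import Pool.Agent.Lib.MP_813db1_ag.HS.Curv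
import Pool.Agent.Lib.MP_813db1_ag.HS.CL
import Pool.Agent.Lib.MP_813db1_ag.HS.Cal
import Pool.Agent.Lib.MP_813db1_ag.HS.C3
import Pool.Agent.Lib.MP_813db1_ag.HS.Roy
import Pool.Agent.Lib.MP_813db1_ag.HS.RepA
import Pool.Agent.Lib.MP_813db1_ag.HS.RepB
import Pool.Agent.Lib.MP_813db1_ag.HS.RepC
import Pool.Agent.Lib.MP_813db1_ag.HS.Cov
import Pool.Agent.Lib.MP_813db1_ag.HS.Vol
import Pool.Agent.Lib.MP_813db1_ag.HS.Div
import Pool.Agent.Lib.MP_813db1_ag.HS.Green
import Pool.Agent.Lib.MP_813db1_ag.HS.Iter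
import Pool.Agent.Lib.MP_813db1_ag.HS.Ext
import Pool.Agent.Lib.MP_813db1_ag.HS.Loc
import Pool.Agent.Lib.MP_813db1_ag.HS.LinE
import Pool.Agent.Lib.MP_813db1_ag.HS.L2
import Pool.Agent.Lib.MP_813db1_ag.HS.Lin2
import Pool.Agent.Lib.MP_813db1_ag.HS.Apr
import Pool.Agent.Lib.MP_813db1_ag.HS.Step
import Pool.Agent.Lib.MP_813db1_ag.HS.Open
import Pool.Agent.Lib.MP_813db1_ag.HS.Nef

/-! The linear theory and the twisted Kaehler-Einstein metrics, without hypotheses. -/

namespace Pool.Agent.Lib.MP_813db1_ag.HS.AY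

theorem curvS' : CurvS := curvS mat

theorem pertS : PertS := pert (res (heat mat)) maxS

theorem dqS : DqS := dq_step pertS hk

theorem repA' : RepA := repA mat

theorem repB' : RepB := repB repA' curvS' mat maxS

theorem clS : CLS := cl curvS' mat

theorem repC' : RepC := repC curvT repA' repB' curvS' clS roy mat

theorem volS' : VolS := volS repA' mat

theorem divS' : DivS := divS repA' volS' (pou repA' repB') mat

theorem greenS : GreenS := green repA' repB' divS' curvS' mat volS'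

theorem iterS : IterS := iter repA' cau

theorem lin2S : Lin2S :=
  lin2 repA' repB' cau hk (regB dqS hk curvS') iterS
    (linE repA' repB' iterS (extS repA') (locS pertS)) (l2S repA' mat volS' greenS)

theorem nefS : NefS :=
  nef repA' repB' mat covS (apr repA' repB' repC' mat (c3 (calS curvS' mat) clS mat maxS))
    (openS repA' repB' mat hk (regN dqS (regL dqS hk) hk mat) volS' lin2S
      (stepS repA' repB' mat (nlS mat) iterS))

end Pool.Agent.Lib.MP_813db1_ag.HS.AY
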