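import Pool.Agent.Lib.MP_813db1_ag.HS.Green
import Pool.Agent.Lib.MP_813db1_ag.HS.RepB1

/-! The Bochner-Kodaira identity. -/

namespace Pool.Agent.Lib.MP_813db1_ag.HS

open MeasureTheory Complex Matrix Filter Topology Set Metric
open scoped ContDiff ComplexOrder

namespace BK

open Green

variable {ι : Type} [Fintype ι] [DecidableEq ι] {H : V ι → Mat ι} {F : V ι → ℂ} {z : V ι}
  {O : Set (V ι)}

/-- the matrix of the antiholomorphic derivatives of a vector field. -/
noncomputable def dm (U : V ι → V ι) (z : V ι) : Mat ι :=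
  Matrix.of fun i k => dzb (fun w => U w i) k z

/-- the second vector field. -/
noncomputable def vf (a : ℕ) (H : V ι → Mat ι) (F : V ι → ℂ) (w : V ι) : V ι :=
  ex a H w • (dm (shp H F) w *ᵥ star (shp H F w))

theorem box_eq (hc : CurvS) (b : ℕ) (hO : IsOpen O) (hH : KOn H O) (hz : z ∈ O)
    (hF : ContDiffAt ℝ 2 F z) : boxL (b + 1) H F z =
      ∑ i, (dz (fun w => shp H F w i) i z - b * (dz (lg H) i z * shp H F z i)) := by
  have e2 : ∑ i, dz (lg H) i z * shp H F z i =
      ∑ i, ∑ j, (H z)⁻¹ j i * dz (lg H) i z * dzb F j z := by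
    simp only [shp, Finset.mul_sum]
    exact Finset.sum_congr rfl fun i _ => Finset.sum_congr rfl fun j _ => by ring
  rw [Finset.sum_sub_distrib, ← Finset.mul_sum, div_shp hc hO hH hz hF, e2, boxL]
  push_cast
  ring

theorem cd_box (a : ℕ) (hH : CdM ∞ H z) (h : (H z).PosDef) (hF : ContDiffAt ℝ ∞ F z) :
    ContDiffAt ℝ ∞ (boxL a H F) z :=
  (CdM.tr (CdM.mul (fun i j => contDiffAt_levi_top hF i j) (hH.inv (det_ne h)))).sub
    (contDiffAt_const.mul (ContDiffAt.sum fun i _ => ContDiffAt.sum fun j _ =>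
      ((hH.inv (det_ne h) j i).mul (contDiffAt_dz_top (hH.lg (det_pos h).ne') i)).mul
        (contDiffAt_dzb_top hF j)))

theorem cd_U (hH : KOn H O) (hF : ∀ w ∈ O, ContDiffAt ℝ ∞ F w) (hz : z ∈ O) (i : ι) :
    ContDiffAt ℝ 2 (fun w => shp H F w i) z :=
  cd_shp (hH.1.1.cd2 hz) (det_ne (hH.2 z hz)) (hF z hz) (by norm_cast) i

theorem cd_lg (hH : KOn H O) (hz : z ∈ O) : ContDiffAt ℝ 2 (lg H) z :=
  (hH.1.1.cd2 hz).lg (det_pos (hH.2 z hz)).ne'

theorem dzb_box (hc : CurvS) (b : ℕ) (hO : IsOpen O) (hH : KOn H O)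
    (hF : ∀ w ∈ O, ContDiffAt ℝ ∞ F w) (hz : z ∈ O) (i : ι) : dzb (boxL (b + 1) H F) i z =
      ∑ j, (dz (dzb (fun w => shp H F w j) i) j z - b * (levi (lg H) z j i * shp H F z j +
        dz (lg H) j z * dzb (fun w => shp H F w j) i z)) := by
  have e : boxL (b + 1) H F =ᶠ[𝓝 z] fun y =>
      ∑ j, (dz (fun w => shp H F w j) j y - b * (dz (lg H) j y * shp H F y j)) := by
    filter_upwards [hO.mem_nhds hz] with y hy
      using box_eq hc b hO hH hy ((hF y hy).of_le (by norm_cast))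
  have d1 := fun j => differentiableAt_dz (cd_U hH hF hz j) j
  have d2 := fun j => differentiableAt_dz (cd_lg hH hz) j
  have d3 := fun j => (cd_U hH hF hz j).differentiableAt two_ne_zero
  rw [dzb_congr e, dzb_sum _ fun j _ => (d1 j).fun_sub (((d2 j).fun_mul (d3 j)).const_mul _)]
  refine Finset.sum_congr rfl fun j _ => ?_
  rw [dzb_sub (d1 j) (((d2 j).fun_mul (d3 j)).const_mul _), dzb_cmul _ ((d2 j).fun_mul (d3 j)),
    dzb_mul (d2 j) (d3 j), ← dz_dzb_comm (cd_U hH hF hz j), ← dz_dzb_comm (cd_lg hH hz)]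
  rfl

theorem sym (hO : IsOpen O) (hH : KOn H O) (hF : ∀ w ∈ O, ContDiffAt ℝ ∞ F w) (hz : z ∈ O) :
    ((dm (shp H F) z)ᵀ * H z)ᵀ = (dm (shp H F) z)ᵀ * H z := by
  have d1 := fun j => (cd_U hH hF hz j).differentiableAt two_ne_zero
  have d2 := hH.1.1.df hz
  have e1 : ∀ l, (fun w => ∑ i, shp H F w i * H w i l) =ᶠ[𝓝 z] dzb F l := fun l => by
    filter_upwards [hO.mem_nhds hz] with y hy
    have k : shp H F y = (fun p => dzb F p y) ᵥ* (H y)⁻¹ :=
      funext fun i => Finset.sum_congr rfl fun j _ => mul_comm _ _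
    have := congrFun (vecMul_vecMul (fun p => dzb F p y) (H y)⁻¹ (H y)) l
    rw [nonsing_inv_mul _ (det_ne (hH.2 y hy)).isUnit, vecMul_one, ← k] at this
    exact this
  have e2 : ∀ i l k, dzb (fun w => H w i l) k z = star (dz (fun w => H w l i) k z) :=
    fun i l k => by
      rw [← dzb_star]
      refine dzb_congr ?_ k
      filter_upwards [hO.mem_nhds hz] with y hy using ((hH.1.2.1 y hy).apply i l).symm
  have e3 : ∀ k l, ((dm (shp H F) z)ᵀ * H z) k l =
      dzb (dzb F l) k z - ∑ i, shp H F z i * star (dz (fun w => H w l i) k z) := fun k l => by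
    rw [← dzb_congr (e1 l), dzb_sum _ fun i _ => (d1 i).fun_mul (d2 i l)]
    simp only [fun i => dzb_mul (d1 i) (d2 i l) k, e2, Finset.sum_add_distrib, add_sub_cancel_right]
    rfl
  ext k l
  rw [transpose_apply, e3, e3, dzb_dzb_comm ((hF z hz).of_le (by norm_cast))]
  simp only [hH.1.2.2 z hz k]

theorem nD_val (hO : IsOpen O) (hH : KOn H O) (hF : ∀ w ∈ O, ContDiffAt ℝ ∞ F w) (hz : z ∈ O) :
    (nD H (shp H F) z : ℂ) = ∑ j, ∑ i, star (dm (shp H F) z i j) * dm (shp H F) z j i := by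
  have e : trace ((pull (dm (shp H F) z) (H z))ᵀ * (H z)⁻¹) =
      ∑ j, ∑ i, star (dm (shp H F) z i j) * dm (shp H F) z j i := by
    rw [pull, transpose_mul, sym hO hH hF hz, Matrix.mul_assoc,
      mul_nonsing_inv_cancel_right _ _ (det_ne (hH.2 z hz)).isUnit]
    rfl
  rw [RepB.nD_eq]
  change ((trace ((pull (dm (shp H F) z) (H z))ᵀ * (H z)⁻¹)).re : ℂ) = _
  rw [e]
  refine conj_eq_iff_re.1 ?_
  simp only [map_sum]
  rw [Finset.sum_comm]
  exact Finset.sum_congr rfl fun i _ => Finset.sum_congr rfl fun j _ => by simp [mul_comm]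

theorem cd_vf (a : ℕ) (hH : KOn H O) (hF : ∀ w ∈ O, ContDiffAt ℝ ∞ F w) (hz : z ∈ O) (j : ι) :
    ContDiffAt ℝ 1 (fun w => vf a H F w j) z :=
  (cd_ex a ((hH.1.1.cd hz).of_le (by norm_cast)) (det_pos (hH.2 z hz)).ne').mul
    (ContDiffAt.sum fun i _ => (contDiffAt_dzb (cd_U hH hF hz j) le_rfl i).mul
      (cd_star ((cd_U hH hF hz i).of_le one_le_two)))

theorem div_vf (hc : CurvS) (b : ℕ) (hO : IsOpen O) (hH : KOn H O)
    (hF : ∀ w ∈ O, ContDiffAt ℝ ∞ F w) (hz : z ∈ O) :
    ∑ j, dz (fun w => vf (b + 1) H F w j) j z = ex (b + 1) H z * (nD H (shp H F) z +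
      star (ipV (H z) (shp H F z) (shp H (boxL (b + 1) H F) z)) +
      b * ipV (levi (lg H) z) (shp H F z) (shp H F z)) := by
  have hp := hH.2 z hz
  have d1 := (cd_lg hH hz).differentiableAt two_ne_zero
  have d2 := (cd_ex (b + 1) (hH.1.1.cd2 hz) (det_pos hp).ne').differentiableAt two_ne_zero
  have d3 := fun i => ((cd_U hH hF hz i).differentiableAt two_ne_zero).star
  have d4 := fun j i => differentiableAt_dzb (cd_U hH hF hz j) i
  have e : ∀ j, dz (fun w => vf (b + 1) H F w j) j z = ex (b + 1) H z *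
      ∑ i, (star (dm (shp H F) z i j) * dm (shp H F) z j i + star (shp H F z i) *
        (dz (dzb (fun w => shp H F w j) i) j z - b * (dz (lg H) j z * dm (shp H F) z j i))) :=
    fun j => by
      have k := dz_mul d2 (DifferentiableAt.fun_sum fun i (_ : i ∈ Finset.univ) =>
        (d4 j i).fun_mul (d3 i)) j
      rw [dz_sum _ fun i _ => (d4 j i).fun_mul (d3 i), dz_ex _ d1] at k
      refine k.trans ?_
      simp only [fun i => dz_mul (d4 j i) (d3 i) j, dz_star, Finset.mul_sum,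
        ← Finset.sum_add_distrib, dm, of_apply]
      refine Finset.sum_congr rfl fun i _ => ?_
      push_cast
      ring
  simp only [e, ← Finset.mul_sum]
  congr 1
  rw [nD_val hO hH hF hz, ipV_shp hp.1 (det_ne hp), star_sum, ipV]
  simp only [star_mul', star_star, dzb_box hc b hO hH hF hz, Finset.mul_sum]
  rw [Finset.sum_comm (f := fun i j => star (shp H F z i) * _)]
  simp only [← Finset.sum_add_distrib, dm, of_apply]
  exact Finset.sum_congr rfl fun j _ => Finset.sum_congr rfl fun i _ => by ring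

theorem dm_loc {φ : V ι → V ι} {U U' : V ι → V ι} {D : V ι → ℂ} (h : AnalyticAt ℂ φ z)
    (hD : AnalyticAt ℂ D z) (hU : ∀ i, DifferentiableAt ℝ (fun w => U w i) z)
    (hU' : ∀ i, DifferentiableAt ℝ (fun w => U' w i) (φ z))
    (e : ∀ᶠ w in 𝓝 z, jac φ w *ᵥ U w = D w • U' (φ w)) :
    jac φ z *ᵥ (dm U z *ᵥ star (U z)) = (D z * star (D z)) • (dm U' (φ z) *ᵥ star (U' (φ z))) := by
  have k : jac φ z * dm U z = D z • (dm U' (φ z) * (jac φ z).map star) := by
    ext p k
    have := dzb_congr (f := fun w => ∑ i, jac φ w p i * U w i)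
      (g := fun w => D w * ((fun w => U' w p) ∘ φ) w) (e.mono fun w q => congrFun q p) k
    rw [dzb_sum _ fun i _ => ((RepB.an_sm (n := 1) (analyticAt_jac h p i)).differentiableAt
      one_ne_zero).fun_mul (hU i), RepB.dzb_hmul hD ((hU' p).comp z
        ((RepB.an_sm (n := 1) h).differentiableAt one_ne_zero)), RepB.dzb_vec (hU' p) h] at this
    simp only [fun i => RepB.dzb_hmul (analyticAt_jac h p i) (hU i) k] at this
    exact this
  have k2 : (jac φ z).map star *ᵥ star (U z) = star (D z) • star (U' (φ z)) := by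
    rw [← star_smul, ← e.self_of_nhds]
    funext p
    simp [mulVec, dotProduct]
  rw [mulVec_mulVec, k, smul_mulVec, ← mulVec_mulVec, k2, mulVec_smul, smul_smul]

variable {X : Type} [TopologicalSpace X] {M : Atl ι X} {g h : X → Mat ι} {σ : X → ℂ}

theorem box_ev (hb : RepB' M) (hh : M.IsK h) {a : ℕ} (hσ : M.CkS ∞ a σ) {e : Ch ι X}
    (he : e ∈ M.A) (hz : z ∈ e.target) :
    M.rep a (M.box a h σ) e =ᶠ[𝓝 z] boxL a (M.repF h e) (M.rep a σ e) := by
  filter_upwards [e.open_target.mem_nhds hz] with w hw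
  have := hb.box_rep a h σ hh e he _ (e.map_target hw)
  rw [e.right_inv hw] at this
  exact this ((hσ e he w hw).of_le (by norm_cast))

theorem box_ck (hb : RepB' M) (hh : M.IsK h) {a : ℕ} (hσ : M.CkS ∞ a σ) :
    M.CkS 1 a (M.box a h σ) := fun e he z hz =>
  ((cd_box a ((hh e he).1.1.cd hz) ((hh e he).2 z hz) (hσ e he z hz)).of_le
    (by norm_cast)).congr_of_eventuallyEq (box_ev hb hh hσ he hz)

theorem vf_rep (ha : RepA' M) (hm : MatS) (hh : M.IsK h) {a : ℕ} (hσ : M.CkS ∞ a σ) {e : Ch ι X}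
    (he : e ∈ M.A) {x : X} (hx : x ∈ e.source) :
    tj e (M.ch x) x *ᵥ vf a (M.repF h e) (M.rep a σ e) (e x) =
      ((‖(tj e (M.ch x) x).det‖ ^ 2 : ℝ) : ℂ) •
        vf a (M.repF h (M.ch x)) (M.rep a σ (M.ch x)) (M.ch x x) := by
  have k := M.hol e he _ (M.ch_mem x) x hx (M.mem x)
  have hz := e.map_source hx
  have hz' := (M.ch x).map_source (M.mem x)
  have h1 := tj_ne ha he hx
  have h2 : star (tj e (M.ch x) x).det ≠ 0 := star_ne_zero.2 h1
  have h3 : ((h x).det.re : ℂ) ≠ 0 := ofReal_ne_zero.2 (det_pos (pd ha hh x)).ne'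
  have q := dm_loc (U := shp (M.repF h e) (M.rep a σ e))
    (U' := shp (M.repF h (M.ch x)) (M.rep a σ (M.ch x))) k ((RepB.an_det k).fun_pow a)
    (fun i => (cd_U (hh e he) (hσ e he) hz i).differentiableAt two_ne_zero)
    (fun i => by
      rw [RepB.tr_pt hx]
      exact (cd_U (hh _ (M.ch_mem x)) (hσ _ (M.ch_mem x)) hz' i).differentiableAt two_ne_zero)
    (by
      filter_upwards [RepB.ev hx (M.mem x)] with w q
      have := RepB.shp_two ha a h σ he (M.ch_mem x) (e.map_target q.1) q.2 (by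
        rw [e.right_inv q.1]
        exact (hσ e he w q.1).differentiableAt (by simp))
      rwa [tj, e.right_inv q.1] at this)
  rw [RepB.tr_pt hx] at q
  rw [vf, vf, mulVec_smul]
  refine (congrArg _ q).trans ?_
  change _ • ((tj e (M.ch x) x).det ^ a * star ((tj e (M.ch x) x).det ^ a)) • _ = _
  rw [ex_eq a (det_pos ((hh e he).2 _ hz)), ex_eq a (det_pos ((hh _ (M.ch_mem x)).2 _ hz')),
    det_rep ha hm h he hx, ha.repF_self, smul_smul, smul_smul, ofReal_div, ofReal_pow, ofReal_mul,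
    nsq, star_pow, ofReal_div, ofReal_pow, mul_pow, mul_pow]
  congr 1
  field_simp

end BK

open Green in
theorem bk (ha : RepA) (hb : RepB) (hd : DivS) (hc : CurvS) (hm : MatS) (hv : VolS)
    (hG : GreenS) : BKS := by
  intro ι X _ _ _ _ _ _ _ M g h μ b σ hg hh hμ hσ
  have ha := ha ι X M
  have hb := hb ι X M
  have := ((hv ι X M g hg).2 μ hμ).fin
  have h2 : M.CkS 2 (b + 1) σ := fun e he z hz => (hσ e he z hz).of_le (by norm_cast)
  have h1 : M.CkS 1 (b + 1) σ := fun e he z hz => (hσ e he z hz).of_le (by norm_cast)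
  have hτ := BK.box_ck hb hh hσ
  have hR : M.SmF fun x => -M.ricF h x := fun e he => by
    simpa only [ofReal_neg, ofReal_one, neg_smul, one_smul]
      using (ha.clF_smul (-1) _ (hb.ric_cl h hh) e he).1
  have i1 := intg (μ := μ) (continuous_ofReal.comp (cont2 ha hb hm hg hh h2))
  have c2 := cont1 ha hb hm hg hh h1 hτ fun e he => (hh e he).1.1
  have i2 := intg (μ := μ) c2.star
  have i3 := intg (μ := μ) (cont1 ha hb hm hg hh h1 h1 hR)
  have key := div_zero ha hd hg hμ
    (fun e => BK.vf (b + 1) (M.repF h e) (M.rep (b + 1) σ e))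
    (fun x => BK.vf (b + 1) (M.repF h (M.ch x)) (M.rep (b + 1) σ (M.ch x)) (M.ch x x))
    (fun x => ((M.nDX (b + 1) h σ x * wt (b + 1) g h x : ℝ) : ℂ) +
      star (ipV (h x) (M.shpX (b + 1) h σ x) (M.shpX (b + 1) h (M.box (b + 1) h σ) x) *
        (wt (b + 1) g h x : ℂ)) +
      b * (ipV (-M.ricF h x) (M.shpX (b + 1) h σ x) (M.shpX (b + 1) h σ x) *
        (wt (b + 1) g h x : ℂ)))
    (fun e he z hz i => BK.cd_vf _ (hh e he) (hσ e he) hz i)
    (fun e he x hx => BK.vf_rep ha hm hh hσ he hx) fun x => by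
      have he := M.ch_mem x
      have hz := (M.ch x).map_source (M.mem x)
      have h3 : ((g x).det.re : ℂ) ≠ 0 := ofReal_ne_zero.2 (det_pos (pd ha hg x)).ne'
      have e1 : M.shpX (b + 1) h (M.box (b + 1) h σ) x = shp (M.repF h (M.ch x))
          (boxL (b + 1) (M.repF h (M.ch x)) (M.rep (b + 1) σ (M.ch x))) (M.ch x x) := by
        funext i
        simp only [Atl.shpX, shp, dzb_congr (BK.box_ev hb hh hσ he hz)]
      have e2 : -M.ricF h x = levi (lg (M.repF h (M.ch x))) (M.ch x x) := neg_neg _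
      rw [BK.div_vf hc b (M.ch x).open_target (hh _ he) (hσ _ he) hz,
        ex_eq _ (det_pos ((hh _ he).2 _ hz)), ha.repF_self, e1, e2, star_mul', RCLike.star_def,
        conj_ofReal]
      simp only [Atl.nDX, Atl.shpX, wt, rat, ofReal_div, ofReal_mul]
      field_simp
  have k := congrArg re ((congrArg₂ (· + ·) (integral_add i1 i2) (integral_const_mul _ _)).symm.trans
    ((integral_add (i1.add i2) (i3.const_mul (b : ℂ))).symm.trans key))
  have e1 := reCLM.integral_comp_comm i3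
  simp only [reCLM_apply, re_mul_ofReal] at e1
  rw [(hG.sec ι X M g h μ (b + 1) σ _ hg hh hμ h2 hτ).2, neg_re, Atl.ip1]
  simp only [nV, e1]
  simp only [Function.comp, RCLike.star_def, integral_conj, integral_complex_ofReal, add_re,
    ofReal_re, conj_re, zero_re, ← ofReal_natCast, re_ofReal_mul] at k
  linarith

end Pool.Agent.Lib.MP_813db1_ag.HS
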