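import Pool.Agent.Lib.MP_813db1_ag.HS.AY0
import Pool.Agent.Lib.MP_813db1_ag.HS.Calc2

/-! Assembly of part F. -/

namespace Pool.Agent.Lib.MP_813db1_ag.HS

open MeasureTheory Complex Matrix Filter Topology Set Metric
open scoped ContDiff ComplexOrder

namespace Sec

section Loc

variable {ι : Type} [Fintype ι] [DecidableEq ι]

theorem dz_tr (f : V ι → ℂ) (w : V ι) (k : ι) :
    dz (fun y => f (y + w)) k = fun z => dz f k (z + w) :=
  funext fun z => by simp only [dz, fderiv_comp_add_right]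

theorem dzb_tr (f : V ι → ℂ) (w : V ι) (k : ι) :
    dzb (fun y => f (y + w)) k = fun z => dzb f k (z + w) :=
  funext fun z => by simp only [dzb, fderiv_comp_add_right]

theorem boxL_tr (a : ℕ) (H : V ι → Mat ι) (F : V ι → ℂ) (z w : V ι) :
    boxL a (fun y => H (y + w)) (fun y => F (y + w)) z = boxL a H F (z + w) := by
  have e : lg (fun y => H (y + w)) = fun y => lg H (y + w) := rfl
  have e2 : levi (fun y => F (y + w)) z = levi F (z + w) := by
    ext i j
    simp only [levi_apply, dzb_tr, dz_tr (dzb F j)]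
  simp only [boxL, lapL, e, e2, dz_tr (lg H), dzb_tr]

theorem boxL_cg {a : ℕ} {H H' : V ι → Mat ι} {F F' : V ι → ℂ} {z : V ι} (hH : H =ᶠ[𝓝 z] H')
    (hF : F =ᶠ[𝓝 z] F') : boxL a H F z = boxL a H' F' z := by
  have e : lg H =ᶠ[𝓝 z] lg H' := hH.mono fun w hw => by simp only [lg, hw]
  simp only [boxL, lapL, levi_congr hF, dzb_congr hF, dz_congr e, hH.eq_of_nhds]

theorem cd_boxL {a : ℕ} {H : V ι → Mat ι} {F : V ι → ℂ} {z : V ι} (hH : CdM ∞ H z)
    (h0 : (H z).det.re ≠ 0) (hF : ContDiffAt ℝ ∞ F z) : ContDiffAt ℝ ∞ (boxL a H F) z := by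
  have h1 : (H z).det ≠ 0 := fun e => h0 (by rw [e]; rfl)
  have hl : CdM ∞ (levi F) z := fun i j => contDiffAt_levi_top hF i j
  refine ((hl.mul (hH.inv h1)).tr).sub (contDiffAt_const.mul ?_)
  refine ContDiffAt.sum fun i _ => ContDiffAt.sum fun j _ => ?_
  exact ((hH.inv h1 j i).mul (contDiffAt_dz_top (hH.lg h0) i)).mul (contDiffAt_dzb_top hF j)

theorem fd_zero {s : Finset ι} {G : V ι → ℂ} {z : V ι} (hG : DifferentiableAt ℝ G z)
    (h : ∀ᶠ y in 𝓝 z, yp s y = yp s z → G y = G z) {i : ι} (hi : i ∈ s) (c : ℂ) :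
    fderiv ℝ G z (Pi.single i c) = 0 := by
  rw [← hG.lineDeriv_eq_fderiv, lineDeriv]
  have ht : Tendsto (fun t : ℝ => z + t • (Pi.single i c : V ι)) (𝓝 0) (𝓝 z) := by
    have : Continuous fun t : ℝ => z + t • (Pi.single i c : V ι) := by fun_prop
    simpa using this.tendsto 0
  have e : (fun t : ℝ => G (z + t • (Pi.single i c : V ι))) =ᶠ[𝓝 0] fun _ => G z := by
    filter_upwards [ht.eventually h] with t ht'
    refine ht' (funext fun j => ?_)
    have : (j : ι) ≠ i := fun e => j.2 (e ▸ hi)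
    simp [yp, Pi.single_eq_of_ne this]
  rw [e.deriv_eq, deriv_const]

omit [DecidableEq ι] in
theorem ipV_st {H : Mat ι} (hH : H.IsHermitian) (a b : V ι) : star (ipV H a b) = ipV H b a := by
  simp only [ipV, star_sum, star_mul', star_star]
  rw [Finset.sum_comm]
  refine Finset.sum_congr rfl fun i _ => Finset.sum_congr rfl fun j _ => ?_
  rw [hH.apply i j]
  ring

omit [DecidableEq ι] in
theorem ipV_add (H : Mat ι) (a a' b : V ι) : ipV H (a + a') b = ipV H a b + ipV H a' b := by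
  simp only [ipV, Pi.add_apply, mul_add, add_mul, Finset.sum_add_distrib]

omit [DecidableEq ι] in
theorem ipV_smul (H : Mat ι) (c : ℂ) (a b : V ι) : ipV H (c • a) b = c * ipV H a b := by
  simp only [ipV, Pi.smul_apply, smul_eq_mul, Finset.mul_sum]
  exact Finset.sum_congr rfl fun i _ => Finset.sum_congr rfl fun j _ => by ring

end Loc

theorem exists_form {X S : Type} [TopologicalSpace X] [CompactSpace X] [MeasurableSpace X]
    [BorelSpace X] [AddCommGroup S] [Module ℂ S] (μ : Measure X) [IsFiniteMeasure μ]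
    (Φ : S → S → X → ℂ) (hc : ∀ f g, Continuous (Φ f g))
    (ha : ∀ f f' g x, Φ (f + f') g x = Φ f g x + Φ f' g x)
    (hs : ∀ (c : ℂ) f g x, Φ (c • f) g x = c * Φ f g x) (hst : ∀ f g x, star (Φ f g x) = Φ g f x)
    (hp : ∀ f x, 0 ≤ (Φ f f x).re) : ∃ p : S →ₗ[ℂ] S →ₗ⋆[ℂ] ℂ, (∀ f g, p f g = ∫ x, Φ f g x ∂μ) ∧
      (∀ f g, star (p f g) = p g f) ∧ ∀ f, 0 ≤ (p f f).re := by
  have hi : ∀ f g, Integrable (Φ f g) μ := fun f g =>
    (hc f g).integrable_of_hasCompactSupport (HasCompactSupport.of_compactSpace _)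
  have h1 : ∀ f f' g, ∫ x, Φ (f + f') g x ∂μ = ∫ x, Φ f g x ∂μ + ∫ x, Φ f' g x ∂μ := fun f f' g => by
    simp only [ha]
    exact integral_add (hi _ _) (hi _ _)
  have h2 : ∀ (c : ℂ) f g, ∫ x, Φ (c • f) g x ∂μ = c * ∫ x, Φ f g x ∂μ := fun c f g => by
    simp only [hs]
    exact integral_const_mul _ _
  have h3 : ∀ f g, star (∫ x, Φ f g x ∂μ) = ∫ x, Φ g f x ∂μ := fun f g => by
    simp only [← hst f g]
    exact (integral_conj).symm
  refine ⟨LinearMap.mk₂'ₛₗ (RingHom.id ℂ) (starRingEnd ℂ) (fun f g => ∫ x, Φ f g x ∂μ) h1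
    (fun c f g => h2 c f g) (fun f g g' => ?_) (fun c f g => ?_), fun f g => rfl, h3, fun f => ?_⟩
  · rw [← h3, h1, star_add, h3, h3]
  · rw [← h3, h2, star_mul', h3]
    rfl
  · change 0 ≤ (∫ x, Φ f f x ∂μ).re
    rw [← RCLike.re_eq_complex_re, ← integral_re (hi f f)]
    exact integral_nonneg fun x => hp f x

variable {ι X : Type} [Fintype ι] [DecidableEq ι] [TopologicalSpace X] {M : Atl ι X}

omit [DecidableEq ι] in
theorem b4 (C : Cov M) (k : Fin C.n) {z : V ι} (hz : z ∈ ball (0 : V ι) (4 * C.r k)) :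
    z ∈ (C.e k).target := C.sub k (ball_subset_closedBall hz)

theorem ck_le {k : WithTop ℕ∞} {a : ℕ} {σ : X → ℂ} (h : M.CkS ∞ a σ) (hk : k ≤ ∞) : M.CkS k a σ :=
  fun e he z hz => (h e he z hz).of_le hk

/-- smooth basic sections. -/
def SB (C : Cov M) (s : Finset ι) (a : ℕ) : Submodule ℂ (X → ℂ) where
  carrier := {σ | M.CkS ∞ a σ ∧ C.BasL s (M.rep a σ)}
  add_mem' := by
    rintro σ τ ⟨h1, h2⟩ ⟨h3, h4⟩
    refine ⟨ckS_add h1 h3, fun k z hz i hi c => ?_⟩
    have e : M.rep a (σ + τ) (C.e k) = fun z => M.rep a σ (C.e k) z + M.rep a τ (C.e k) z :=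
      rep_add _
    rw [e, fderiv_fun_add ((h1 _ (C.mem k) z (b4 C k hz)).differentiableAt (by simp))
      ((h3 _ (C.mem k) z (b4 C k hz)).differentiableAt (by simp)),
      _root_.add_apply, h2 k z hz i hi c, h4 k z hz i hi c, add_zero]
  zero_mem' := by
    have e : ∀ e, M.rep a (0 : X → ℂ) e = fun _ => 0 := fun e => rep_zero e
    refine ⟨fun e' _ z _ => ?_, fun k z _ i _ c => ?_⟩
    · rw [e]
      exact contDiffAt_const
    · rw [e]
      simp
  smul_mem' := by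
    rintro d σ ⟨h1, h2⟩
    refine ⟨ckS_cmul d h1, fun k z hz i hi c => ?_⟩
    have e : M.rep a (d • σ) (C.e k) = fun z => d * M.rep a σ (C.e k) z := rep_cmul d _
    rw [e, fderiv_const_mul ((h1 _ (C.mem k) z (b4 C k hz)).differentiableAt (by simp)),
      _root_.smul_apply, h2 k z hz i hi c, smul_zero]

theorem box_ev (hb : RepB' M) {a : ℕ} {h : X → Mat ι} {σ : X → ℂ} (hh : M.IsK h)
    (hσ : M.CkS ∞ a σ) {e : Ch ι X} (he : e ∈ M.A) {z : V ι} (hz : z ∈ e.target) :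
    M.rep a (M.box a h σ) e =ᶠ[𝓝 z] boxL a (M.repF h e) (M.rep a σ e) := by
  filter_upwards [e.open_target.mem_nhds hz] with w hw
  have := hb.box_rep a h σ hh e he _ (e.map_target hw)
    (by rw [e.right_inv hw]; exact (hσ e he w hw).of_le (by norm_cast))
  rwa [e.right_inv hw] at this

theorem box_mem (hm : MatS) (hr : RowsS) (hb : RepB' M) {C : Cov M} {s : Finset ι} {a : ℕ} {c : ℝ}
    {h : X → Mat ι} (hh : M.IsK h) (hR : Rows' C s c h) {σ : X → ℂ} (hσ : σ ∈ SB C s a) :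
    M.box a h σ ∈ SB C s a := by
  have hcd : ∀ e ∈ M.A, ∀ z ∈ e.target, ContDiffAt ℝ ∞ (boxL a (M.repF h e) (M.rep a σ e)) z :=
    fun e he z hz => cd_boxL ((hh e he).1.1.cd hz) (hm.det _ _ ((hh e he).2 z hz)).1.ne'
      (hσ.1 e he z hz)
  refine ⟨fun e he z hz => (hcd e he z hz).congr_of_eventuallyEq (box_ev hb hh hσ.1 he hz),
    fun k z hz i hi d => ?_⟩
  rw [(box_ev hb hh hσ.1 (C.mem k) (b4 C k hz)).fderiv_eq]
  refine fd_zero ((hcd _ (C.mem k) z (b4 C k hz)).differentiableAt (by simp)) ?_ hi d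
  filter_upwards [isOpen_ball.mem_nhds hz] with y hy hyz
  have hF := hr.const ι s (4 * C.r k) (M.rep a σ (C.e k)) fun w hw =>
    ⟨(hσ.1 _ (C.mem k) w (b4 C k hw)).differentiableAt (by simp), hσ.2 k w hw⟩
  have hH := fun p q => hr.const ι s (4 * C.r k) (fun w => M.repF h (C.e k) w p q) fun w hw =>
    ⟨((hh _ (C.mem k)).1.1 w (b4 C k hw) p q).differentiableAt (by simp), hR.bas p q k w hw⟩
  have ht : Tendsto (fun w => w + (y - z)) (𝓝 z) (𝓝 y) := by
    have : Continuous fun w : V ι => w + (y - z) := by fun_prop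
    simpa using this.tendsto z
  have hyp : ∀ w, yp s (w + (y - z)) = yp s w := fun w => funext fun j => by
    have := congrFun hyz j
    simp only [yp] at this
    simp [yp, this]
  have e : y = z + (y - z) := by abel
  rw [e, ← boxL_tr]
  refine boxL_cg ?_ ?_
  · filter_upwards [isOpen_ball.mem_nhds hz, ht.eventually (isOpen_ball.mem_nhds hy)] with w h1 h2
    ext p q
    rw [hH p q _ h2, hH p q _ h1, hyp]
  · filter_upwards [isOpen_ball.mem_nhds hz, ht.eventually (isOpen_ball.mem_nhds hy)] with w h1 h2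
    rw [hF _ h2, hF _ h1, hyp]

theorem shp_add {a : ℕ} {h : X → Mat ι} {σ τ : X → ℂ} (hσ : M.CkS ∞ a σ) (hτ : M.CkS ∞ a τ) (x : X) :
    M.shpX a h (σ + τ) x = M.shpX a h σ x + M.shpX a h τ x := by
  have e : M.rep a (σ + τ) (M.ch x) = fun z => M.rep a σ (M.ch x) z + M.rep a τ (M.ch x) z :=
    rep_add _
  funext i
  simp only [Atl.shpX, shp, e, dzb_add ((ckS_at hσ x).differentiableAt (by simp))
    ((ckS_at hτ x).differentiableAt (by simp)), mul_add, Finset.sum_add_distrib, Pi.add_apply]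

theorem shp_smul {a : ℕ} {h : X → Mat ι} {σ : X → ℂ} (d : ℂ) (hσ : M.CkS ∞ a σ) (x : X) :
    M.shpX a h (d • σ) x = d • M.shpX a h σ x := by
  have e : M.rep a (d • σ) (M.ch x) = fun z => d * M.rep a σ (M.ch x) z := rep_cmul d _
  funext i
  simp only [Atl.shpX, shp, e, dzb_cmul d ((ckS_at hσ x).differentiableAt (by simp)),
    Pi.smul_apply, smul_eq_mul, Finset.mul_sum]
  exact Finset.sum_congr rfl fun j _ => by ring

theorem coe_comb {C : Cov M} {s : Finset ι} {a Q : ℕ} (c : Fin Q → ℂ) (f : Fin Q → SB C s a) :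
    ((∑ j, c j • f j : SB C s a) : X → ℂ) = fun x => ∑ j, c j * (f j : X → ℂ) x := by
  funext x
  simp [Finset.sum_apply]

/-- the count for a fixed power. -/
theorem fixed [T2Space X] [CompactSpace X] [MeasurableSpace X] [BorelSpace X] (hm : MatS)
    (hr : RowsS) (ha : RepA) (hb : RepB) (hv : VolS) (hgr : GreenS) (hs : SmoS) (hl : Lin2S)
    (hbas : BasicS) (hcomp : CompS) (he : EndAbsS) {g h : X → Mat ι} {μ : Measure X} {C : Cov M}
    {s : Finset ι} {c θ : ℝ} {a Q N1 : ℕ} (hg : M.IsK g) (hh : M.IsK h) (hμ : M.IsVol g μ)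
    (hC : C.Prod g s) (hR : Rows' C s c h) (hθ : 0 < θ) {f0 : Fin Q → X → ℂ}
    (h1 : ∀ j, M.CkS ∞ a (f0 j) ∧ C.BasL s (M.rep a (f0 j)))
    (h2 : ∀ i j, M.ip0 μ a g h (f0 i) (f0 j) = if i = j then 1 else 0)
    (h3 : ∀ d : Fin Q → ℂ, (M.ip1 μ a g h (fun x => ∑ j, d j * f0 j x)
      fun x => ∑ j, d j * f0 j x).re ≤ θ / 4 * ∑ j, ‖d j‖ ^ 2)
    (h4 : ∀ (Q' : ℕ) (f : Fin Q' → X → ℂ), (∀ j, M.CkS ∞ a (f j) ∧ C.BasL s (M.rep a (f j))) →
      (∀ i j, M.ip1 μ a g h (f i) (f j) = if i = j then 1 else 0) →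
      (∀ d : Fin Q' → ℂ, (M.ip0 μ a g h (M.box a h fun x => ∑ j, d j * f j x)
        (M.box a h fun x => ∑ j, d j * f j x)).re ≤ θ * ∑ j, ‖d j‖ ^ 2) → Q' ≤ N1) :
    ∃ σ : Fin (Q - N1) → X → ℂ, (∀ j, M.HolS a (σ j)) ∧ LinearIndependent ℂ σ := by
  have := ((hv ι X M g hg).2 μ hμ).fin
  have hA := ha ι X M
  have hB := hb ι X M
  have hpd := ((hA.isK_iff h).1 hh).2
  have hw : ∀ x, 0 < wt a g h x := (hgr.cont ι X M g h a 0 0 hg hh).2.2.2
  obtain ⟨p0, e0, s0, n0⟩ := exists_form (S := SB C s a) μ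
    (fun f f' x => (f : X → ℂ) x * star ((f' : X → ℂ) x) * (wt a g h x : ℂ))
    (fun f f' => (hgr.cont ι X M g h a f f' hg hh).1 (ck_le f.2.1 (by simp)) (ck_le f'.2.1 (by simp)))
    (fun f f' f'' x => by simp only [Submodule.coe_add, Pi.add_apply]; ring)
    (fun d f f' x => by simp only [Submodule.coe_smul, Pi.smul_apply, smul_eq_mul]; ring)
    (fun f f' x => by
      rw [star_mul', star_mul', star_star, Complex.star_def, Complex.conj_ofReal]; ring)
    (fun f x => by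
      rw [Complex.star_def, Complex.mul_conj, ← Complex.ofReal_mul, Complex.ofReal_re]
      exact mul_nonneg (Complex.normSq_nonneg _) (hw x).le)
  obtain ⟨p1, e1, s1, n1⟩ := exists_form (S := SB C s a) μ
    (fun f f' x => ipV (h x) (M.shpX a h f x) (M.shpX a h f' x) * (wt a g h x : ℂ))
    (fun f f' => (hgr.cont ι X M g h a f f' hg hh).2.1 (ck_le f.2.1 (by simp))
      (ck_le f'.2.1 (by simp)) h fun e he => (hh e he).1.1)
    (fun f f' f'' x => by
      simp only [Submodule.coe_add, shp_add f.2.1 f'.2.1, ipV_add]; ring)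
    (fun d f f' x => by simp only [Submodule.coe_smul, shp_smul d f.2.1, ipV_smul]; ring)
    (fun f f' x => by
      rw [star_mul', ipV_st (hpd x).1, Complex.star_def, Complex.conj_ofReal])
    (fun f x => by
      rw [Complex.re_mul_ofReal]
      exact mul_nonneg (hm.nv_mono _ _ _ (hpd x).posSemidef) (hw x).le)
  have e0' : ∀ f f' : SB C s a, p0 f f' = M.ip0 μ a g h f f' := e0
  have e1' : ∀ f f' : SB C s a, p1 f f' = M.ip1 μ a g h f f' := e1
  let B : SB C s a →ₗ[ℂ] SB C s a :=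
    { toFun := fun f => ⟨M.box a h f, box_mem hm hr hB hh hR f.2⟩
      map_add' := fun f f' => Subtype.ext (funext fun x =>
        box_add (ck_le f.2.1 (by norm_cast)) (ck_le f'.2.1 (by norm_cast)) x)
      map_smul' := fun d f => Subtype.ext (funext fun x =>
        box_cmul d (ck_le f.2.1 (by norm_cast)) x) }
  have eB : ∀ f : SB C s a, ((B f : SB C s a) : X → ℂ) = M.box a h f := fun _ => rfl
  let Ho : Submodule ℂ (SB C s a) :=
    { carrier := {f | M.HolS a f}
      add_mem' := fun {f f'} hf hf' e he => by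
        have e' : M.rep a ((f + f' : SB C s a) : X → ℂ) e =
            fun z => M.rep a f e z + M.rep a f' e z := rep_add _
        rw [e']
        exact (hf e he).add (hf' e he)
      zero_mem' := fun e _ => by
        have e' : M.rep a ((0 : SB C s a) : X → ℂ) e = fun _ => 0 := rep_zero e
        rw [e']
        exact differentiableOn_const _
      smul_mem' := fun d f hf e he => by
        have e' : M.rep a ((d • f : SB C s a) : X → ℂ) e = fun z => d * M.rep a f e z :=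
          rep_cmul d _
        rw [e']
        exact (hf e he).const_mul d }
  obtain ⟨hs1, hs2, hs3, -⟩ := hs ι X M C a
  obtain ⟨L, hL⟩ := hs1 h hh
  obtain ⟨C2, -, hC2⟩ := hl ι X M g μ C a L hg hμ
  have hl2 := (hC2 h hh hL).2
  choose B0 hB0 hB0' using fun j => hs2 (f0 j) (h1 j).1
  let F0 : Fin Q → SB C s a := fun j => ⟨f0 j, h1 j⟩
  obtain ⟨σ, hσ1, hσ2⟩ := he (SB C s a) p0 p1 B Ho Q N1 θ F0 hθ s0 s1 n0 n1
    (fun f f' => by
      rw [e0', e1', eB]
      exact (hgr.sec ι X M g h μ a f f' hg hh hμ (ck_le f.2.1 (by norm_cast))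
        (ck_le f'.2.1 (by simp))).2)
    (fun η hη j => by
      obtain ⟨v, -, -, hv2, hv3⟩ := (hl2 η hη).2.2 (f0 j) (B0 j) (hs3 _ _ (hB0' j)).2
      refine ⟨⟨v, hv3 (h1 j).1, hbas ι X M g h μ C s c η a v hg hh hμ hC hR hη.1 (hv3 (h1 j).1) ?_⟩,
        Subtype.ext (funext hv2)⟩
      rw [funext hv2]
      exact (h1 j).2)
    (fun Q' f hf1 hf2 => h4 Q' (fun j => f j) (fun j => (f j).2) (fun i j => by rw [← e1', hf1])
      fun d => by rw [← coe_comb, ← eB, ← e0']; exact hf2 d)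
    (fun i j => by rw [e0']; exact h2 i j)
    (fun d => by rw [e1', coe_comb]; exact h3 d)
    (fun η v d hη hd hv1 hv2 hv3 => by
      have hd1 : ∀ k j, ‖d k j‖ ≤ 1 := fun k j => by
        have := Finset.single_le_sum (f := fun j => ‖d k j‖ ^ 2) (fun j _ => sq_nonneg _)
          (Finset.mem_univ j)
        rw [hd k] at this
        nlinarith [norm_nonneg (d k j)]
      have hbd : ∀ k, C.SH2 a (C2 * (∑ j, 8 * B0 j + 2)) (v k) := fun k => by
        obtain ⟨B', -, hB'⟩ := hs2 (v k) (v k).2.1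
        refine (hl2 (η k) (hη k)).1 (v k) _ B' 2 (by norm_num) hB' ?_ (by
          rw [← e0']; linarith [hv2 k])
        have e2 : ∀ x, (η k : ℂ) * (v k : X → ℂ) x - M.box a h (v k) x =
            ∑ j, ((η k : ℂ) * d k j) * f0 j x := fun x => by
          have := congrFun (congrArg Subtype.val (hv1 k)) x
          rw [Submodule.coe_smul, coe_comb] at this
          simp only [mul_assoc, ← Finset.mul_sum]
          exact this
        refine Cov.SH.congr (Cov.SH2.sh (Cov.SH2.sum Finset.univ fun j _ => ?_)) e2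
        refine ((hB0' j).cmul _).mono ?_
        rw [norm_mul, Complex.norm_real, Real.norm_of_nonneg (hη k).1.le]
        have := mul_le_one₀ (hη k).2 (norm_nonneg _) (hd1 k j)
        nlinarith [hB0 j]
      obtain ⟨σ', 𝒰, q1, q2, q3, q4⟩ := hcomp ι X M g h μ C a _ (fun k => v k) hg hh hμ hbd
        (by simpa only [← e1'] using hv3)
      have q5 : C.BasL s (M.rep a σ') := fun k z hz i hi d' => by
        refine tendsto_nhds_unique (q3 _ (C.mem k) z (b4 C k hz) _) ?_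
        simp only [fun n => (v n).2.2 k z hz i hi d']
        exact tendsto_const_nhds
      refine ⟨⟨σ', q2, q5⟩, q1, fun δ hδ => ?_⟩
      obtain ⟨k, hk⟩ := (q4.eventually (gt_mem_nhds hδ)).exists
      exact ⟨k, by rw [e0']; exact hk⟩)
  exact ⟨fun j => σ j, hσ1, hσ2.map' (SB C s a).subtype (Submodule.ker_subtype _)⟩

end Sec

theorem sec (hm : MatS) (hr : RowsS) (ha : RepA) (hb : RepB) (hv : VolS) (hgr : GreenS)
    (hs : SmoS) (hl : Lin2S) (hu : UBasS) (hbas : BasicS) (hcomp : CompS) (he : EndAbsS)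
    (ht : TubeXS) (hpk : PeakXS) (hcnt : CntXS) : SecS := by
  intro ι X _ _ _ _ _ _ _ _ M g μ u C s hg hμ hsemi hfam hC
  obtain ⟨a0, N, y1, δ, B, W, Yc, mu, hT⟩ := ht ι X M g μ u C s hg hμ hsemi hfam hC
  obtain ⟨c0, hc0, hp⟩ := hpk ι X M g μ u C s a0 N y1 δ B W Yc mu hg hμ hsemi hfam hC hT
  have hc := hcnt ι X M g μ u C s hg hμ hsemi hfam hC (c0 / 2) (by positivity)
  obtain ⟨ε, ⟨hp', hc'⟩, hε⟩ := ((hp.and hc).and (Ioc_mem_nhdsGT one_pos)).exists
  have hsol := hfam.sol ε hε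
  have hR := (hu ι X M g C s ε (u ε) hg hC hε.1 hsol).2.1
  have hN := hT.Npos
  refine ⟨N, hN, c0 / 2 * (1 / 2) ^ (Fintype.card ι - s.card), by positivity, ?_⟩
  have hge : ∀ a : ℕ, a - 1 ≤ N * a - 1 := fun a =>
    Nat.sub_le_sub_right (Nat.le_mul_of_pos_left a hN) 1
  have htd : Tendsto (fun a : ℕ => N * a - 1) atTop atTop :=
    tendsto_atTop_mono hge (tendsto_sub_atTop_nat 1)
  filter_upwards [htd.eventually hp', htd.eventually hc', eventually_ge_atTop 2] with a k1 k2 ha2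
  have hga := hge a
  have e : N * a - 1 + 1 = N * a := by omega
  generalize N * a - 1 = b at k1 k2 e hga
  obtain ⟨Q, f, hQ, f1, f2, f3⟩ := k1 (e ▸ dvd_mul_right N a)
  have hb0 : (0 : ℝ) < b := by exact_mod_cast (by omega : 0 < b)
  obtain ⟨σ, hσ1, hσ2⟩ := Sec.fixed hm hr ha hb hv hgr hs hl hbas hcomp he (θ := b / 4)
    (N1 := ⌊c0 / 2 * (b : ℝ) ^ (Fintype.card ι - s.card)⌋₊) hg hsol.2.1 hμ hC hR (by positivity)
    f1 f2 (fun d => by have := f3 d; rwa [show (b : ℝ) / 16 = b / 4 / 4 by ring] at this)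
    fun Q' f' k3 k4 k5 => Nat.le_floor (k2 Q' f' k3 k4 k5)
  refine ⟨_, σ, ?_, e ▸ hσ1, hσ2⟩
  have hab : (1 / 2 : ℝ) * a ≤ b := by
    have : (a : ℝ) ≤ 2 * b := by exact_mod_cast (by omega : a ≤ 2 * b)
    linarith
  have k6 := pow_le_pow_left₀ (by positivity) hab (Fintype.card ι - s.card)
  have k7 := Nat.floor_le (a := c0 / 2 * (b : ℝ) ^ (Fintype.card ι - s.card)) (by positivity)
  have k8 : (Q : ℝ) - (⌊c0 / 2 * (b : ℝ) ^ (Fintype.card ι - s.card)⌋₊ : ℕ) ≤
      ((Q - ⌊c0 / 2 * (b : ℝ) ^ (Fintype.card ι - s.card)⌋₊ : ℕ) : ℝ) := by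
    rw [sub_le_iff_le_add]
    exact_mod_cast le_tsub_add
  rw [mul_pow] at k6
  nlinarith

end Pool.Agent.Lib.MP_813db1_ag.HS
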