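import Pool.Agent.Lib.MP_813db1_ag.HS.Stmt

/-! Statements of the global steps of the proof. -/

namespace Pool.Agent.Lib.MP_813db1_ag.HS

open MeasureTheory Complex Matrix Filter Topology Set Metric
open scoped ContDiff ComplexOrder ENNReal Manifold

/-! ### the atlas -/

/-- change of charts. -/
structure RepA' {ι X : Type} [Fintype ι] [DecidableEq ι] [TopologicalSpace X] (M : Atl ι X) :
    Prop where
  tj_self : ∀ e ∈ M.A, ∀ x ∈ e.source, tj e e x = 1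
  tj_mul : ∀ e ∈ M.A, ∀ e' ∈ M.A, ∀ e'' ∈ M.A, ∀ x ∈ e.source, x ∈ e'.source → x ∈ e''.source →
    tj e e'' x = tj e' e'' x * tj e e' x
  tj_det : ∀ e ∈ M.A, ∀ e' ∈ M.A, ∀ x ∈ e.source, x ∈ e'.source → (tj e e' x).det ≠ 0
  tj_an : ∀ e ∈ M.A, ∀ e' ∈ M.A, ∀ x ∈ e.source, x ∈ e'.source → ∀ p i,
    AnalyticAt ℂ (fun z => tj e e' (e.symm z) p i) (e x)
  rep_self : ∀ m σ x, M.rep m σ (M.ch x) (M.ch x x) = σ x
  repF_self : ∀ B x, M.repF B (M.ch x) (M.ch x x) = B x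
  rep_tr : ∀ m σ, ∀ e ∈ M.A, ∀ e' ∈ M.A, ∀ x ∈ e.source, x ∈ e'.source →
    M.rep m σ e (e x) = (tj e e' x).det ^ m * M.rep m σ e' (e' x)
  repF_tr : ∀ B, ∀ e ∈ M.A, ∀ e' ∈ M.A, ∀ x ∈ e.source, x ∈ e'.source →
    M.repF B e (e x) = pull (tj e e' x) (M.repF B e' (e' x))
  ck_loc : ∀ (k : ℕ∞) u, (∀ x, ∃ e ∈ M.A, x ∈ e.source ∧ ContDiffAt ℝ k (fn u e) (e x)) → M.Ck k u
  ckS_loc : ∀ (k : ℕ∞) m σ, (∀ x, ∃ e ∈ M.A, x ∈ e.source ∧ ContDiffAt ℝ k (M.rep m σ e) (e x)) →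
    M.CkS k m σ
  holS_loc : ∀ m σ, (∀ x, ∃ e ∈ M.A, x ∈ e.source ∧ DifferentiableAt ℂ (M.rep m σ e) (e x)) →
    M.HolS m σ
  smF_loc : ∀ B, (∀ x, ∃ e ∈ M.A, x ∈ e.source ∧ SmM (M.repF B e) {e x}) → M.SmF B
  clF_loc : ∀ B, (∀ x, ∃ e ∈ M.A, x ∈ e.source ∧ ClOn (M.repF B e) {e x}) → M.ClF B
  isK_iff : ∀ B, M.IsK B ↔ M.ClF B ∧ ∀ x, (B x).PosDef
  herm : ∀ B, M.ClF B → ∀ x, (B x).IsHermitian
  clF_add : ∀ B B', M.ClF B → M.ClF B' → M.ClF fun x => B x + B' x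
  clF_smul : ∀ (c : ℝ) B, M.ClF B → M.ClF fun x => (c : ℂ) • B x
  glue_sec : ∀ m (F : Ch ι X → V ι → ℂ) (S : Set (Ch ι X)), S ⊆ M.A → (∀ x, ∃ e ∈ S, x ∈ e.source) →
    (∀ e ∈ S, ∀ e' ∈ S, ∀ x ∈ e.source, x ∈ e'.source → F e (e x) = (tj e e' x).det ^ m * F e' (e' x)) →
    ∃ σ, ∀ e ∈ S, ∀ z ∈ e.target, M.rep m σ e z = F e z
  glue_form : ∀ (F : Ch ι X → V ι → Mat ι),
    (∀ e ∈ M.A, ∀ e' ∈ M.A, ∀ x ∈ e.source, x ∈ e'.source →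
      F e (e x) = pull (tj e e' x) (F e' (e' x))) →
    ∃ B, ∀ e ∈ M.A, ∀ z ∈ e.target, M.repF B e z = F e z
  repF_mul : ∀ B H B', ∀ e ∈ M.A, ∀ z ∈ e.target,
    M.repF (fun x => B x * (H x)⁻¹ * B' x) e z = M.repF B e z * (M.repF H e z)⁻¹ * M.repF B' e z
  trm_rep : ∀ h B, ∀ e ∈ M.A, ∀ x ∈ e.source,
    trm (M.repF h e (e x)) (M.repF B e (e x)) = trm (h x) (B x)
  trace_rep : ∀ h B, ∀ e ∈ M.A, ∀ x ∈ e.source,
    trace (M.repF B e (e x) * (M.repF h e (e x))⁻¹) = trace (B x * (h x)⁻¹)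
  rat_rep : ∀ h g, ∀ e ∈ M.A, ∀ x ∈ e.source,
    (M.repF h e (e x)).det.re / (M.repF g e (e x)).det.re = rat h g x
  cont : ∀ u, M.Ck 0 u → Continuous u
  ck_trm : ∀ h B, M.IsK h → M.SmF B → M.Ck ∞ fun x => trm (h x) (B x)
  ck_rat : ∀ B g, M.SmF B → M.IsK g → M.Ck ∞ (rat B g)
  center : ∀ x, ∃ e ∈ M.A, x ∈ e.source ∧ e x = 0
  newChart : ∀ e ∈ M.A, ∀ x ∈ e.source, ∀ (Θ : V ι → V ι) (O : Set (V ι)), AnalyticAt ℂ Θ 0 →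
    Θ 0 = e x → (jac Θ 0).det ≠ 0 → O ∈ 𝓝 (0 : V ι) → ∃ e' ∈ M.A, x ∈ e'.source ∧ e' x = 0 ∧
      e'.target ⊆ O ∧ e'.source ⊆ e.source ∧ ∀ w ∈ e'.target, e (e'.symm w) = Θ w ∧
        tj e' e (e'.symm w) = jac Θ w

def RepA : Prop := ∀ (ι X : Type) [Fintype ι] [DecidableEq ι] [TopologicalSpace X] (M : Atl ι X),
  RepA' M

/-- covariance of the differential operators. -/
structure RepB' {ι X : Type} [Fintype ι] [DecidableEq ι] [TopologicalSpace X] (M : Atl ι X) :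
    Prop where
  ddc_rep : ∀ u, ∀ e ∈ M.A, ∀ x ∈ e.source, ContDiffAt ℝ 2 (fn u e) (e x) →
    M.repF (M.ddc u) e (e x) = levi (fn u e) (e x)
  ric_rep : ∀ B, M.IsK B → ∀ e ∈ M.A, ∀ z ∈ e.target, M.repF (M.ricF B) e z = ric (M.repF B e) z
  dfn_rep : ∀ u, ∀ e ∈ M.A, ∀ x ∈ e.source, DifferentiableAt ℝ (fn u e) (e x) →
    (fun i => dz (fn u e) i (e x)) = M.dfn u x ᵥ* tj e (M.ch x) x
  grad_rep : ∀ h u v, ∀ e ∈ M.A, ∀ x ∈ e.source, DifferentiableAt ℝ (fn u e) (e x) →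
    DifferentiableAt ℝ (fn v e) (e x) → grL (M.repF h e (e x)) (fun i => dz (fn u e) i (e x))
      (fun i => dz (fn v e) i (e x)) = grL (h x) (M.dfn u x) (M.dfn v x)
  lap_rep : ∀ h u, ∀ e ∈ M.A, ∀ x ∈ e.source, ContDiffAt ℝ 2 (fn u e) (e x) →
    (lapL (M.repF h e) (fn u e) (e x)).re = M.lap h u x
  box_rep : ∀ a h σ, M.IsK h → ∀ e ∈ M.A, ∀ x ∈ e.source, ContDiffAt ℝ 2 (M.rep a σ e) (e x) →
    M.rep a (M.box a h σ) e (e x) = boxL a (M.repF h e) (M.rep a σ e) (e x)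
  shp_rep : ∀ a h σ, ∀ e ∈ M.A, ∀ x ∈ e.source, DifferentiableAt ℝ (M.rep a σ e) (e x) →
    tj e (M.ch x) x *ᵥ shp (M.repF h e) (M.rep a σ e) (e x) =
      (tj e (M.ch x) x).det ^ a • M.shpX a h σ x
  nD_rep : ∀ a h σ, M.IsK h → ∀ e ∈ M.A, ∀ x ∈ e.source, ContDiffAt ℝ 2 (M.rep a σ e) (e x) →
    nD (M.repF h e) (shp (M.repF h e) (M.rep a σ e)) (e x) =
      (‖(tj e (M.ch x) x).det‖ ^ 2) ^ a * M.nDX a h σ x
  ddc_cl : ∀ u, M.Ck ∞ u → M.ClF (M.ddc u)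
  ric_cl : ∀ B, M.IsK B → M.ClF (M.ricF B)
  ric_rat : ∀ h g, M.IsK h → M.IsK g → ∀ x,
    M.ricF h x = M.ricF g x - M.ddc (fun y => Real.log (rat h g y)) x
  ddc_add : ∀ u v, M.Ck 2 u → M.Ck 2 v → ∀ (c : ℝ) x,
    M.ddc (fun y => u y + c * v y) x = M.ddc u x + (c : ℂ) • M.ddc v x
  ddc_const : ∀ (c : ℝ) x, M.ddc (fun _ => c) x = 0
  ck_comp : ∀ (k : ℕ∞) u (Φ : ℝ → ℝ), M.Ck k u → (∀ x, ContDiffAt ℝ k Φ (u x)) →
    M.Ck k fun x => Φ (u x)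
  ck_add : ∀ (k : ℕ∞) u v, M.Ck k u → M.Ck k v → M.Ck k (fun x => u x + v x) ∧
    M.Ck k fun x => u x * v x
  ck_lap : ∀ h u v, M.IsK h → M.Ck ∞ u → M.Ck ∞ v → M.Ck ∞ (M.lap h u) ∧ M.Ck ∞ (M.grad h u v)
  dfn_comp : ∀ u (Φ : ℝ → ℝ) x, M.Ck 1 u → DifferentiableAt ℝ Φ (u x) →
    M.dfn (fun y => Φ (u y)) x = ((deriv Φ (u x) : ℝ) : ℂ) • M.dfn u x
  lap_comp : ∀ h u (Φ : ℝ → ℝ) x, M.Ck 2 u → ContDiffAt ℝ 2 Φ (u x) →
    M.lap h (fun y => Φ (u y)) x =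
      deriv Φ (u x) * M.lap h u x + deriv (deriv Φ) (u x) * M.grad h u u x
  grad_nonneg : ∀ h u x, (h x).PosDef → 0 ≤ M.grad h u u x
  max : ∀ u x, M.Ck 2 u → (∀ y, u y ≤ u x) → (-M.ddc u x).PosSemidef
  box_zero : ∀ h u x, M.Ck 2 u → (h x).IsHermitian →
    M.box 0 h (fun y => (u y : ℂ)) x = (M.lap h u x : ℂ)

def RepB : Prop := ∀ (ι X : Type) [Fintype ι] [DecidableEq ι] [TopologicalSpace X] (M : Atl ι X),
  RepB' M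

/-- covariance of the curvature: local form. -/
def CurvTS : Prop := ∀ (ι : Type) [Fintype ι] [DecidableEq ι] (G G' : V ι → Mat ι) (φ : V ι → V ι)
  (z : V ι) (U' : Set (V ι)), IsOpen U' → φ z ∈ U' → SmM G' U' → (∀ w ∈ U', (G' w).det ≠ 0) →
  AnalyticAt ℂ φ z → (jac φ z).det ≠ 0 → (∀ᶠ w in 𝓝 z, G w = pull (jac φ w) (G' (φ w))) →
  ∀ i j k l, curv G z i j k l = ∑ p, ∑ q, ∑ r, ∑ s, curv G' (φ z) p q r s * jac φ z p i *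
    star (jac φ z q j) * jac φ z r k * star (jac φ z s l)

structure RepC' {ι X : Type} [Fintype ι] [DecidableEq ι] [TopologicalSpace X] (M : Atl ι X) :
    Prop where
  semi : ∀ g, M.IsK g → (∀ x v, hsc (M.repF g (M.ch x)) (M.ch x x) v ≤ 0) → M.SemiNeg g
  rq_rep : ∀ g, M.IsK g → ∀ e ∈ M.A, ∀ x ∈ e.source, ∀ η, rq (M.repF g e) (e x) η =
    M.rqX g x ((tj e (M.ch x) x).map star * η * (tj e (M.ch x) x)ᵀ)
  cl_rep : ∀ g h, M.IsK g → M.IsK h → ∀ e ∈ M.A, ∀ x ∈ e.source,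
    clT (M.repF g e) (M.repF h e) (e x) = M.clX g h x
  cl : ∀ g h, M.IsK g → M.IsK h → ∀ x, M.lap h (fun y => trm (h y) (g y)) x =
    M.clX g h x + trm (h x) (M.ricF h x * (h x)⁻¹ * g x) - M.rqX g x (h x)⁻¹ ∧ 0 ≤ M.clX g h x
  ck : ∀ g h, M.IsK g → M.IsK h → M.Ck ∞ (M.clX g h) ∧ M.Ck ∞ fun x => M.rqX g x (h x)⁻¹
  rq_nonpos : ∀ g, M.IsK g → M.SemiNeg g → ∀ x η, η.PosSemidef → M.rqX g x η ≤ 0

def RepC : Prop := ∀ (ι X : Type) [Fintype ι] [DecidableEq ι] [TopologicalSpace X] (M : Atl ι X),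
  RepC' M

def CovS : Prop := ∀ (ι X : Type) [Fintype ι] [DecidableEq ι] [TopologicalSpace X] [CompactSpace X]
  (M : Atl ι X) (P : Ch ι X → Prop), (∀ x, ∃ e ∈ M.A, P e ∧ x ∈ e.source ∧ e x = 0) →
  ∃ C : Cov M, ∀ a, P (C.e a)

/-- partitions of unity. -/
def PouS : Prop := ∀ (ι X : Type) [Fintype ι] [DecidableEq ι] [TopologicalSpace X] [T2Space X]
  [CompactSpace X] (M : Atl ι X) (κ : Type) [Fintype κ] (O : κ → Set X), (∀ a, IsOpen (O a)) →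
  (∀ x, ∃ a, x ∈ O a) → ∃ χ : κ → X → ℝ, (∀ a, M.Ck ∞ (χ a) ∧ (∀ x, 0 ≤ χ a x) ∧
    tsupport (χ a) ⊆ O a) ∧ ∀ x, ∑ a, χ a x = 1

/-! ### integration -/

structure VolA' {ι X : Type} [Fintype ι] [DecidableEq ι] [TopologicalSpace X] [MeasurableSpace X]
    (M : Atl ι X) (g : X → Mat ι) (μ : Measure X) : Prop where
  fin : IsFiniteMeasure μ
  pos : μ.IsOpenPosMeasure
  lint : ∀ e ∈ M.A, ∀ S : Set (V ι), MeasurableSet S → S ⊆ e.target → ∀ f : X → ℝ≥0∞,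
    ∫⁻ x in e.source ∩ e ⁻¹' S, f x ∂μ =
      ∫⁻ z in S, ENNReal.ofReal (M.repF g e z).det.re * f (e.symm z)
  int : ∀ e ∈ M.A, ∀ S : Set (V ι), MeasurableSet S → S ⊆ e.target → ∀ f : X → ℂ,
    ∫ x in e.source ∩ e ⁻¹' S, f x ∂μ = ∫ z in S, ((M.repF g e z).det.re : ℂ) * f (e.symm z)
  intR : ∀ e ∈ M.A, ∀ S : Set (V ι), MeasurableSet S → S ⊆ e.target → ∀ f : X → ℝ,
    ∫ x in e.source ∩ e ⁻¹' S, f x ∂μ = ∫ z in S, (M.repF g e z).det.re * f (e.symm z)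
  uniq : ∀ μ' : Measure X, (∀ x, μ'.restrict (M.ch x).source = μ.restrict (M.ch x).source) → μ' = μ

def VolS : Prop := ∀ (ι X : Type) [Fintype ι] [DecidableEq ι] [TopologicalSpace X] [T2Space X]
  [CompactSpace X] [MeasurableSpace X] [BorelSpace X] (M : Atl ι X) (g : X → Mat ι), M.IsK g →
  (∃ μ, M.IsVol g μ) ∧ ∀ μ, M.IsVol g μ → VolA' M g μ

/-- the divergence theorem. -/
def DivS : Prop := ∀ (ι X : Type) [Fintype ι] [DecidableEq ι] [TopologicalSpace X] [T2Space X]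
  [CompactSpace X] [MeasurableSpace X] [BorelSpace X] (M : Atl ι X) (g : X → Mat ι)
  (μ : Measure X) (S : Set (Ch ι X)) (O : Ch ι X → Set (V ι)) (W : Ch ι X → V ι → V ι),
  M.IsK g → M.IsVol g μ → S ⊆ M.A → (∀ e ∈ S, IsOpen (O e) ∧ O e ⊆ e.target) →
  (∀ x, ∃ e ∈ S, x ∈ e.source ∧ e x ∈ O e) → (∀ e ∈ S, ∀ z ∈ O e, ContDiffAt ℝ 1 (W e) z) →
  (∀ e ∈ S, ∀ e' ∈ S, ∀ x ∈ e.source, x ∈ e'.source → e x ∈ O e → e' x ∈ O e' →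
    tj e e' x *ᵥ W e (e x) = ((‖(tj e e' x).det‖ ^ 2 : ℝ) : ℂ) • W e' (e' x)) →
  ∃ d : X → ℂ, Continuous d ∧ ∫ x, d x ∂μ = 0 ∧ ∀ e ∈ S, ∀ x ∈ e.source, e x ∈ O e →
    ∑ i, dz (fun w => W e w i) i (e x) = ((M.repF g e (e x)).det.re : ℂ) * d x

structure GreenS : Prop where
  real : ∀ (ι X : Type) [Fintype ι] [DecidableEq ι] [TopologicalSpace X] [T2Space X]
    [CompactSpace X] [MeasurableSpace X] [BorelSpace X] (M : Atl ι X) (g h : X → Mat ι)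
    (μ : Measure X) (u v : X → ℝ), M.IsK g → M.IsK h → M.IsVol g μ → M.Ck 2 u → M.Ck 1 v →
    Continuous (M.lap h u) ∧ Continuous (M.grad h u v) ∧
    ∫ x, (v x * M.lap h u x + M.grad h u v x) * rat h g x ∂μ = 0
  sec : ∀ (ι X : Type) [Fintype ι] [DecidableEq ι] [TopologicalSpace X] [T2Space X]
    [CompactSpace X] [MeasurableSpace X] [BorelSpace X] (M : Atl ι X) (g h : X → Mat ι)
    (μ : Measure X) (a : ℕ) (σ τ : X → ℂ), M.IsK g → M.IsK h → M.IsVol g μ → M.CkS 2 a σ →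
    M.CkS 1 a τ → M.CkS 0 a (M.box a h σ) ∧
    M.ip0 μ a g h (M.box a h σ) τ = -M.ip1 μ a g h σ τ
  cont : ∀ (ι X : Type) [Fintype ι] [DecidableEq ι] [TopologicalSpace X] (M : Atl ι X)
    (g h : X → Mat ι) (a : ℕ) (σ τ : X → ℂ), M.IsK g → M.IsK h →
    (M.CkS 0 a σ → M.CkS 0 a τ → Continuous fun x => σ x * star (τ x) * (wt a g h x : ℂ)) ∧
    (M.CkS 1 a σ → M.CkS 1 a τ → ∀ B, M.SmF B →
      Continuous fun x => ipV (B x) (M.shpX a h σ x) (M.shpX a h τ x) * (wt a g h x : ℂ)) ∧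
    (M.CkS 2 a σ → Continuous fun x => M.nDX a h σ x * wt a g h x) ∧ ∀ x, 0 < wt a g h x

/-- the volume of a class. -/
def InvS : Prop := ∀ (ι X : Type) [Fintype ι] [DecidableEq ι] [TopologicalSpace X] [T2Space X]
  [CompactSpace X] [MeasurableSpace X] [BorelSpace X] (M : Atl ι X) (g B : X → Mat ι)
  (μ : Measure X) (u : X → ℝ), M.IsK g → M.IsVol g μ → M.ClF B → M.Ck ∞ u →
  ∫ x, rat (fun y => B y + M.ddc u y) g x ∂μ = ∫ x, rat B g x ∂μ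

/-! ### the linear theory and the twisted Kaehler-Einstein metrics -/

def LinS : Prop := ∀ (ι X : Type) [Fintype ι] [DecidableEq ι] [TopologicalSpace X] [T2Space X]
  [CompactSpace X] (M : Atl ι X) (C : Cov M) (a : ℕ) (L : ℝ), ∃ lam ≥ (1 : ℝ), ∃ C1 ≥ (0 : ℝ),
  ∀ h, M.IsK h → C.Ell a L h →
    (∀ f B, C.SH a B f → ∃ v, C.SH2 a (C1 * B) v ∧ ∀ x, (lam : ℂ) * v x - M.box a h v x = f x) ∧
    ∀ v B B', C.SH2 a B' v → C.SH a B (fun x => (lam : ℂ) * v x - M.box a h v x) →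
      C.SH2 a (C1 * B) v

def Lin2S : Prop := ∀ (ι X : Type) [Fintype ι] [DecidableEq ι] [TopologicalSpace X] [T2Space X]
  [CompactSpace X] [MeasurableSpace X] [BorelSpace X] (M : Atl ι X) (g : X → Mat ι)
  (μ : Measure X) (C : Cov M) (a : ℕ) (L : ℝ), M.IsK g → M.IsVol g μ → ∃ C2 ≥ (0 : ℝ),
  ∀ h, M.IsK h → C.Ell a L h → (∀ f B, C.SH a B f → (M.ip0 μ a g h f f).re ≤ (C2 * B) ^ 2) ∧
    ∀ η ∈ Ioc (0 : ℝ) 1,
    (∀ v B B' P, 0 ≤ P → C.SH2 a B' v → C.SH a B (fun x => (η : ℂ) * v x - M.box a h v x) →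
      (M.ip0 μ a g h v v).re ≤ P ^ 2 → C.SH2 a (C2 * (B + P)) v) ∧
    (∀ v B', C.SH2 a B' v → η ^ 2 * (M.ip0 μ a g h v v).re ≤
      (M.ip0 μ a g h (fun x => (η : ℂ) * v x - M.box a h v x)
        (fun x => (η : ℂ) * v x - M.box a h v x)).re) ∧
    ∀ f B, C.SH a B f → ∃ v B', C.SH2 a B' v ∧ (∀ x, (η : ℂ) * v x - M.box a h v x = f x) ∧
      (M.CkS ∞ a f → M.CkS ∞ a v)

/-- smooth objects satisfy the Hoelder bounds on a cover. -/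
def SmoS : Prop := ∀ (ι X : Type) [Fintype ι] [DecidableEq ι] [TopologicalSpace X] (M : Atl ι X)
  (C : Cov M) (a : ℕ), (∀ h, M.IsK h → ∃ L, C.Ell a L h) ∧
    (∀ σ, M.CkS ∞ a σ → ∃ B ≥ (0 : ℝ), C.SH2 a B σ) ∧ (∀ σ B, C.SH2 a B σ → M.CkS 2 a σ ∧ C.SH a B σ) ∧
    ∀ σ B, C.SH a B σ → M.CkS 0 a σ

def NefS : Prop := ∀ (ι X : Type) [Fintype ι] [DecidableEq ι] [TopologicalSpace X] [T2Space X]
  [CompactSpace X] [MeasurableSpace X] [BorelSpace X] (M : Atl ι X) (g : X → Mat ι), M.IsK g →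
  M.SemiNeg g → ∀ ε ∈ Ioc (0 : ℝ) 1, ∃ u, M.Sol g ε u

/-! ### the parallel projector -/

/-- the Schwarz lemma. -/
def SchwS : Prop := ∀ (ι X : Type) [Fintype ι] [DecidableEq ι] [TopologicalSpace X]
  [CompactSpace X] (M : Atl ι X) (g : X → Mat ι) (ε : ℝ) (u : X → ℝ), M.IsK g → M.SemiNeg g →
  0 < ε → M.Sol g ε u → ∀ x, M.ricF (M.hm g ε u) x = (ε : ℂ) • g x - M.hm g ε u x ∧
    ε * trm (M.hm g ε u x) (g x) ≤ Fintype.card ι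

/-- the volume polynomial. -/
def VolPS : Prop := ∀ (ι X : Type) [Fintype ι] [DecidableEq ι] [TopologicalSpace X] [T2Space X]
  [CompactSpace X] [Nonempty X] [MeasurableSpace X] [BorelSpace X] (M : Atl ι X) (g : X → Mat ι)
  (μ : Measure X), M.IsK g → M.IsVol g μ → ∃ p : Polynomial ℝ, (∀ s, p.eval s = M.vol μ g s) ∧
    (∀ k, p.coeff k = ∫ x, (((g x)⁻¹ * M.ricF g x).charpoly.coeff k).re ∂μ) ∧
    p.natTrailingDegree ≤ Fintype.card ι ∧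
    ((∀ ε ∈ Ioc (0 : ℝ) 1, ∃ u, M.Sol g ε u) → ∀ s > 0, 0 < p.eval s)

/-- what the intersection numbers say about the family of twisted metrics. -/
structure Fam {ι X : Type} [Fintype ι] [DecidableEq ι] [TopologicalSpace X] [MeasurableSpace X]
    (M : Atl ι X) (g : X → Mat ι) (μ : Measure X) (u : ℝ → X → ℝ) (m : ℕ) : Prop where
  sol : ∀ ε ∈ Ioc (0 : ℝ) 1, M.Sol g ε (u ε)
  le : m ≤ Fintype.card ι
  vpos : ∀ ε ∈ Ioc (0 : ℝ) 1, 0 < M.vol μ g ε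
  one : ∀ ε ∈ Ioc (0 : ℝ) 1, ∫ x, M.den μ g ε (u ε) x ∂μ = 1
  ord : ∃ v > 0, Tendsto (fun ε => M.vol μ g ε / ε ^ m) (𝓝[>] 0) (𝓝 v)
  tr : Tendsto (fun ε => ∫ x, ε * trm (M.hm g ε (u ε) x) (g x) * M.den μ g ε (u ε) x ∂μ)
    (𝓝[>] 0) (𝓝 m)
  cl : Tendsto (fun ε => ∫ x, ε * M.clX g (M.hm g ε (u ε)) x * M.den μ g ε (u ε) x ∂μ)
    (𝓝[>] 0) (𝓝 0)
  rq : Tendsto (fun ε => ∫ x, ε * M.rqX g x (M.hm g ε (u ε) x)⁻¹ * M.den μ g ε (u ε) x ∂μ)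
    (𝓝[>] 0) (𝓝 0)
  det : ∀ t : ℝ, 0 ≤ t → Tendsto (fun ε => ∫ x,
    (1 + ((t * ε : ℝ) : ℂ) • (g x * (M.hm g ε (u ε) x)⁻¹)).det.re * M.den μ g ε (u ε) x ∂μ)
    (𝓝[>] 0) (𝓝 ((1 + t) ^ m))

def IntS : Prop := ∀ (ι X : Type) [Fintype ι] [DecidableEq ι] [TopologicalSpace X] [T2Space X]
  [CompactSpace X] [MeasurableSpace X] [BorelSpace X] (M : Atl ι X) (g : X → Mat ι)
  (μ : Measure X) (u : ℝ → X → ℝ) (p : Polynomial ℝ), M.IsK g → M.IsVol g μ → M.SemiNeg g →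
  (∀ ε ∈ Ioc (0 : ℝ) 1, M.Sol g ε (u ε)) → (∀ s, p.eval s = M.vol μ g s) →
  (∀ s > 0, 0 < p.eval s) → p.natTrailingDegree ≤ Fintype.card ι →
  Fam M g μ u p.natTrailingDegree

/-- compactness of quasi-plurisubharmonic functions. -/
def WeightS : Prop := ∀ (ι X : Type) [Fintype ι] [DecidableEq ι] [TopologicalSpace X] [T2Space X]
  [CompactSpace X] [ConnectedSpace X] [MeasurableSpace X] [BorelSpace X] (M : Atl ι X)
  (g : X → Mat ι) (μ : Measure X) (L : ℝ), M.IsK g → M.IsVol g μ → ∃ B, ∀ ψ, M.Ck ∞ ψ →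
  (∀ x, ((L : ℂ) • g x + M.ddc ψ x).PosSemidef) → ∀ x0, (∀ x, ψ x ≤ ψ x0) →
  ∫ x, (ψ x0 - ψ x) ∂μ ≤ B

/-- uniform bounds for the densities. -/
def DenS : Prop := ∀ (ι X : Type) [Fintype ι] [DecidableEq ι] [TopologicalSpace X] [T2Space X]
  [CompactSpace X] [ConnectedSpace X] [MeasurableSpace X] [BorelSpace X] (M : Atl ι X)
  (g : X → Mat ι) (μ : Measure X) (u : ℝ → X → ℝ) (m : ℕ), M.IsK g → M.IsVol g μ →
  Fam M g μ u m → ∃ B ≥ (0 : ℝ), ∀ ε ∈ Ioc (0 : ℝ) 1, (∀ x, M.den μ g ε (u ε) x ≤ B) ∧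
    ∫ x, |Real.log (M.den μ g ε (u ε) x)| ∂μ ≤ B ∧
    ∫ x, trm (g x) (M.hm g ε (u ε) x) ∂μ ≤ B ∧ ∀ x, -B ≤ M.lap g (u ε) x

/-- cut off of the forms `ε g h⁻¹ g`. -/
def CutS : Prop := ∀ (ι X : Type) [Fintype ι] [DecidableEq ι] [TopologicalSpace X] [T2Space X]
  [CompactSpace X] [ConnectedSpace X] [MeasurableSpace X] [BorelSpace X] (M : Atl ι X)
  (g : X → Mat ι) (μ : Measure X) (u : ℝ → X → ℝ) (m : ℕ), M.IsK g → M.IsVol g μ →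
  M.SemiNeg g → Fam M g μ u m → ∃ (ε : ℕ → ℝ) (χ : ℕ → X → ℝ), (∀ j, ε j ∈ Ioc (0 : ℝ) 1) ∧
    Tendsto ε atTop (𝓝 0) ∧ (∀ j, M.Ck ∞ (χ j) ∧ ∀ x, 0 ≤ χ j x ∧ χ j x ≤ 1) ∧
    Tendsto (fun j => ∫ x, (1 - χ j x) ∂μ) atTop (𝓝 0) ∧
    Tendsto (fun j => ∫ x, M.grad g (χ j) (χ j) x ∂μ) atTop (𝓝 0) ∧
    Tendsto (fun j => ∫ x, χ j x * (ε j * M.clX g (M.hm g (ε j) (u (ε j))) x) ∂μ) atTop (𝓝 0) ∧
    Tendsto (fun j => ∫ x, χ j x * (ε j * M.rqX g x (M.hm g (ε j) (u (ε j)) x)⁻¹) ∂μ) atTop (𝓝 0)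

/-- the limit of the cut off forms is parallel. -/
def Par1S : Prop := ∀ (ι X : Type) [Fintype ι] [DecidableEq ι] [TopologicalSpace X] [T2Space X]
  [CompactSpace X] [MeasurableSpace X] [BorelSpace X] (M : Atl ι X) (g : X → Mat ι)
  (μ : Measure X) (h : ℕ → X → Mat ι) (ε : ℕ → ℝ) (χ : ℕ → X → ℝ) (B : ℝ) (𝒰 : Ultrafilter ℕ),
  M.IsK g → M.IsVol g μ → (∀ j, M.IsK (h j) ∧ 0 < ε j ∧ (∀ x, ε j * trm (h j x) (g x) ≤ B) ∧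
    ∫ x, trm (g x) (h j x) ∂μ ≤ B ∧ M.Ck ∞ (χ j) ∧ ∀ x, 0 ≤ χ j x ∧ χ j x ≤ 1) →
  Tendsto (fun j => ∫ x, (1 - χ j x) ∂μ) 𝒰 (𝓝 0) →
  Tendsto (fun j => ∫ x, M.grad g (χ j) (χ j) x ∂μ) 𝒰 (𝓝 0) →
  Tendsto (fun j => ∫ x, χ j x * (ε j * M.clX g (h j) x) ∂μ) 𝒰 (𝓝 0) →
  ∃ p, M.SmF p ∧ (∀ x, (p x).PosSemidef) ∧
    (∀ e ∈ M.A, ∀ z ∈ e.target, ∀ k, dM (M.repF p e) k z = gam (M.repF g e) k z * M.repF p e z) ∧
    ∀ e ∈ M.A, ∀ K, IsCompact K → K ⊆ e.target → ∀ i k, Tendsto (fun j => ∫ z in K,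
      ‖(M.repF (fun x => (ε j : ℂ) • (g x * (h j x)⁻¹ * g x)) e z - M.repF p e z) i k‖) 𝒰 (𝓝 0)

def ParS : Prop := ∀ (ι X : Type) [Fintype ι] [DecidableEq ι] [TopologicalSpace X] [T2Space X]
  [CompactSpace X] [ConnectedSpace X] [MeasurableSpace X] [BorelSpace X] (M : Atl ι X)
  (g : X → Mat ι) (μ : Measure X) (u : ℝ → X → ℝ) (m : ℕ), M.IsK g → M.IsVol g μ →
  M.SemiNeg g → Fam M g μ u m → ∃ p, M.Par g p m

def PCovS : Prop := ∀ (ι X : Type) [Fintype ι] [DecidableEq ι] [TopologicalSpace X]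
  [CompactSpace X] (M : Atl ι X) (g p : X → Mat ι) (m : ℕ), M.IsK g → M.SemiNeg g →
  M.Par g p m → m ≤ Fintype.card ι → ∃ (s : Finset ι) (C : Cov M), s.card = m ∧ C.Prod g s

/-! ### product structure -/

/-- Kaehler forms whose flat rows are constant. -/
structure Rows' {ι X : Type} [Fintype ι] [DecidableEq ι] [TopologicalSpace X] {M : Atl ι X}
    (C : Cov M) (s : Finset ι) (c : ℝ) (B : X → Mat ι) : Prop where
  bas : ∀ i j, C.BasL s fun e z => M.repF B e z i j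
  kon : ∀ a, KOn (C.trv s B a) (ball 0 (4 * C.r a))
  ent : ∀ a, ∀ z ∈ ball (0 : V ι) (4 * C.r a), Rows s c (M.repF B (C.e a) z) ∧
    Rows s (c : ℂ)⁻¹ (M.repF B (C.e a) z)⁻¹ ∧ Blk s (M.repF B (C.e a) z) ∧
    Blk s (M.repF B (C.e a) z)⁻¹ ∧
    (M.repF B (C.e a) z).submatrix Subtype.val Subtype.val = C.trv s B a (yp s z) ∧
    (M.repF B (C.e a) z)⁻¹.submatrix Subtype.val Subtype.val = (C.trv s B a (yp s z))⁻¹ ∧
    (M.repF B (C.e a) z).det = (c : ℂ) ^ s.card * (C.trv s B a (yp s z)).det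

structure RowsS : Prop where
  rows : ∀ (ι X : Type) [Fintype ι] [DecidableEq ι] [TopologicalSpace X] (M : Atl ι X) (C : Cov M)
    (s : Finset ι) (c : ℝ) (B : X → Mat ι), M.IsK B → 0 < c →
    (∀ a, ∀ z ∈ ball (0 : V ι) (4 * C.r a), Rows s c (M.repF B (C.e a) z)) → Rows' C s c B
  const : ∀ (ι : Type) [Fintype ι] [DecidableEq ι] (s : Finset ι) (R : ℝ) (F : V ι → ℂ),
    (∀ z ∈ ball (0 : V ι) R, DifferentiableAt ℝ F z ∧ ∀ i ∈ s, ∀ c : ℂ,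
      fderiv ℝ F z (Pi.single i c) = 0) → ∀ z ∈ ball (0 : V ι) R, F z = F (glue s 0 (yp s z))
  der : ∀ (ι : Type) [Fintype ι] [DecidableEq ι] (s : Finset ι) (f : V {i // i ∉ s} → ℂ) (z : V ι),
    (DifferentiableAt ℝ f (yp s z) → ∀ i, dz (fun w => f (yp s w)) i z =
        (if h : i ∈ s then 0 else dz f ⟨i, h⟩ (yp s z)) ∧
      dzb (fun w => f (yp s w)) i z = if h : i ∈ s then 0 else dzb f ⟨i, h⟩ (yp s z)) ∧
    (ContDiffAt ℝ 2 f (yp s z) → Rows s 0 (levi (fun w => f (yp s w)) z) ∧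
      Blk s (levi (fun w => f (yp s w)) z) ∧
      (levi (fun w => f (yp s w)) z).submatrix Subtype.val Subtype.val = levi f (yp s z))
  norm : ∀ (ι : Type) [Fintype ι] [DecidableEq ι] (s : Finset ι) (R : ℝ), 0 < R →
    (∀ z y, ‖glue s z y‖ < R ↔ ‖z‖ < R ∧ ‖y‖ < R) ∧ ∀ f : V {i // i ∉ s} → ℝ≥0∞, Measurable f →
      ∫⁻ w in ball (0 : V ι) R, f (yp s w) =
        volume (ball (0 : V {i // i ∈ s}) R) * ∫⁻ y in ball (0 : V {i // i ∉ s}) R, f y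
  tr : ∀ (ι : Type) [Fintype ι] [DecidableEq ι] (s : Finset ι) (H G : Mat ι) (c d : ℂ), c ≠ 0 →
    H.det ≠ 0 → Rows s c H → Blk s H → Rows s d G → Blk s G → trace (G * H⁻¹) = s.card * (d / c) +
      trace ((G.submatrix Subtype.val Subtype.val : Mat {i // i ∉ s}) *
        (H.submatrix Subtype.val Subtype.val)⁻¹)

/-- the potentials are basic. -/
def UBasS : Prop := ∀ (ι X : Type) [Fintype ι] [DecidableEq ι] [TopologicalSpace X]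
  [CompactSpace X] (M : Atl ι X) (g : X → Mat ι) (C : Cov M) (s : Finset ι) (ε : ℝ) (u : X → ℝ),
  M.IsK g → C.Prod g s → 0 < ε → M.Sol g ε u → C.BasL s (fn u) ∧ Rows' C s ε (M.hm g ε u) ∧
    ∀ a, ∀ y ∈ ball (0 : V {i // i ∉ s}) (4 * C.r a),
      C.trv s (M.hm g ε u) a y = (ε : ℂ) • C.trv s g a y - ric (C.trv s g a) y +
        levi (fun w => (u ((C.e a).symm (glue s 0 w)) : ℂ)) y ∧
      ric (C.trv s (M.hm g ε u) a) y = (ε : ℂ) • C.trv s g a y - C.trv s (M.hm g ε u) a y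

/-- a tube of compact leaves with a trivialisation of the powers `N ∣ a` of the canonical
bundle: `W` is the tube, `Yc` its transversal coordinate and `mu a` the section `(dz dy)^a`. -/
structure TubeX {ι X : Type} [Fintype ι] [DecidableEq ι] [TopologicalSpace X] [MeasurableSpace X]
    {M : Atl ι X} (C : Cov M) (g : X → Mat ι) (s : Finset ι) (μ : Measure X) (a0 : Fin C.n) (N : ℕ)
    (y1 : V {i // i ∉ s}) (δ B : ℝ) (W : Set X) (Yc : X → V {i // i ∉ s}) (mu : ℕ → X → ℂ) :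
    Prop where
  Npos : 0 < N
  δpos : 0 < δ
  sub : ball y1 δ ⊆ ball 0 (C.r a0)
  opn : IsOpen W
  maps : ∀ x ∈ W, Yc x ∈ ball y1 δ
  loc : ∀ b, ∀ x ∈ W, x ∈ (C.e b).source → ‖C.e b x‖ < C.r b →
    ∃ φ : V {i // i ∉ s} → V {i // i ∉ s}, AnalyticAt ℂ φ (yp s (C.e b x)) ∧
      (∀ᶠ w in 𝓝 (yp s (C.e b x)), C.trv s g b w = pull (jac φ w) (C.trv s g a0 (φ w)) ∧
        ∀ u : X → ℝ, M.Ck 1 u → C.BasL s (fn u) →
          u ((C.e a0).symm (glue s 0 (φ w))) = u ((C.e b).symm (glue s 0 w))) ∧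
      (∀ᶠ x' in 𝓝 x, Yc x' = φ (yp s (C.e b x'))) ∧
      ∀ a, N ∣ a → ∃ u : ℂ, ‖u‖ = 1 ∧ ∀ᶠ x' in 𝓝 x,
        M.rep a (mu a) (C.e b) (C.e b x') = u * (jac φ (yp s (C.e b x'))).det ^ a
  cpt : ∀ K, IsCompact K → K ⊆ ball y1 δ → IsClosed {x | x ∈ W ∧ Yc x ∈ K}
  box : ∀ z y, ‖z‖ < C.r a0 → y ∈ ball y1 δ →
    (C.e a0).symm (glue s z y) ∈ W ∧ Yc ((C.e a0).symm (glue s z y)) = y
  meas : ∀ f : V {i // i ∉ s} → ℝ≥0∞, Measurable f →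
    ∫⁻ x in W, f (Yc x) ∂μ ≤ ENNReal.ofReal B * ∫⁻ y in ball y1 δ, f y

/-- part E: the leaves are compact and the holonomy is finite. -/
def TubeXS : Prop := ∀ (ι X : Type) [Fintype ι] [DecidableEq ι] [TopologicalSpace X] [T2Space X]
  [CompactSpace X] [ConnectedSpace X] [MeasurableSpace X] [BorelSpace X] (M : Atl ι X)
  (g : X → Mat ι) (μ : Measure X) (u : ℝ → X → ℝ) (C : Cov M) (s : Finset ι), M.IsK g →
  M.IsVol g μ → M.SemiNeg g → Fam M g μ u s.card → C.Prod g s →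
  ∃ a0 N y1 δ B W Yc mu, TubeX C g s μ a0 N y1 δ B W Yc mu

/-! ### sections -/

/-- the Bochner-Kodaira identity. -/
def BKS : Prop := ∀ (ι X : Type) [Fintype ι] [DecidableEq ι] [TopologicalSpace X] [T2Space X]
  [CompactSpace X] [MeasurableSpace X] [BorelSpace X] (M : Atl ι X) (g h : X → Mat ι)
  (μ : Measure X) (b : ℕ) (σ : X → ℂ), M.IsK g → M.IsK h → M.IsVol g μ → M.CkS ∞ (b + 1) σ →
  (M.ip0 μ (b + 1) g h (M.box (b + 1) h σ) (M.box (b + 1) h σ)).re =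
    ∫ x, M.nDX (b + 1) h σ x * wt (b + 1) g h x ∂μ +
      b * ∫ x, nV (-M.ricF h x) (M.shpX (b + 1) h σ x) * wt (b + 1) g h x ∂μ

/-- solutions with basic data are basic. -/
def BasicS : Prop := ∀ (ι X : Type) [Fintype ι] [DecidableEq ι] [TopologicalSpace X] [T2Space X]
  [CompactSpace X] [MeasurableSpace X] [BorelSpace X] (M : Atl ι X) (g h : X → Mat ι)
  (μ : Measure X) (C : Cov M) (s : Finset ι) (c η : ℝ) (a : ℕ) (σ : X → ℂ), M.IsK g → M.IsK h →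
  M.IsVol g μ → C.Prod g s → Rows' C s c h → 0 < η → M.CkS ∞ a σ →
  C.BasL s (M.rep a fun x => (η : ℂ) * σ x - M.box a h σ x) → C.BasL s (M.rep a σ)

/-- the upper bound for the number of low energy sections. -/
def CntXS : Prop := ∀ (ι X : Type) [Fintype ι] [DecidableEq ι] [TopologicalSpace X] [T2Space X]
  [CompactSpace X] [MeasurableSpace X] [BorelSpace X] (M : Atl ι X) (g : X → Mat ι)
  (μ : Measure X) (u : ℝ → X → ℝ) (C : Cov M) (s : Finset ι), M.IsK g → M.IsVol g μ →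
  M.SemiNeg g → Fam M g μ u s.card → C.Prod g s → ∀ κ > 0, ∀ᶠ ε in 𝓝[>] (0 : ℝ),
  ∀ᶠ b : ℕ in atTop, ∀ (Q : ℕ) (f : Fin Q → X → ℂ),
    (∀ j, M.CkS ∞ (b + 1) (f j) ∧ C.BasL s (M.rep (b + 1) (f j))) →
    (∀ i j, M.ip1 μ (b + 1) g (M.hm g ε (u ε)) (f i) (f j) = if i = j then 1 else 0) →
    (∀ c : Fin Q → ℂ, (M.ip0 μ (b + 1) g (M.hm g ε (u ε))
      (M.box (b + 1) (M.hm g ε (u ε)) fun x => ∑ j, c j * f j x)
      (M.box (b + 1) (M.hm g ε (u ε)) fun x => ∑ j, c j * f j x)).re ≤ b / 4 * ∑ j, ‖c j‖ ^ 2) →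
    (Q : ℝ) ≤ κ * (b : ℝ) ^ (Fintype.card ι - s.card)

/-- many peak sections. -/
def PeakXS : Prop := ∀ (ι X : Type) [Fintype ι] [DecidableEq ι] [TopologicalSpace X] [T2Space X]
  [CompactSpace X] [ConnectedSpace X] [MeasurableSpace X] [BorelSpace X] (M : Atl ι X)
  (g : X → Mat ι) (μ : Measure X) (u : ℝ → X → ℝ) (C : Cov M) (s : Finset ι) (a0 : Fin C.n) (N : ℕ)
  (y1 : V {i // i ∉ s}) (δ B : ℝ) (W : Set X) (Yc : X → V {i // i ∉ s}) (mu : ℕ → X → ℂ),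
  M.IsK g → M.IsVol g μ → M.SemiNeg g → Fam M g μ u s.card → C.Prod g s →
  TubeX C g s μ a0 N y1 δ B W Yc mu → ∃ c0 > 0, ∀ᶠ ε in 𝓝[>] (0 : ℝ), ∀ᶠ b : ℕ in atTop,
    N ∣ b + 1 → ∃ (Q : ℕ) (f : Fin Q → X → ℂ), c0 * (b : ℝ) ^ (Fintype.card ι - s.card) ≤ Q ∧
      (∀ j, M.CkS ∞ (b + 1) (f j) ∧ C.BasL s (M.rep (b + 1) (f j))) ∧
      (∀ i j, M.ip0 μ (b + 1) g (M.hm g ε (u ε)) (f i) (f j) = if i = j then 1 else 0) ∧
      ∀ c : Fin Q → ℂ, (M.ip1 μ (b + 1) g (M.hm g ε (u ε)) (fun x => ∑ j, c j * f j x)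
        fun x => ∑ j, c j * f j x).re ≤ b / 16 * ∑ j, ‖c j‖ ^ 2

/-- limits of almost holomorphic sections. -/
def CompS : Prop := ∀ (ι X : Type) [Fintype ι] [DecidableEq ι] [TopologicalSpace X] [T2Space X]
  [CompactSpace X] [MeasurableSpace X] [BorelSpace X] (M : Atl ι X) (g h : X → Mat ι)
  (μ : Measure X) (C : Cov M) (a : ℕ) (B : ℝ) (σ : ℕ → X → ℂ), M.IsK g → M.IsK h → M.IsVol g μ →
  (∀ k, C.SH2 a B (σ k)) → Tendsto (fun k => (M.ip1 μ a g h (σ k) (σ k)).re) atTop (𝓝 0) →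
  ∃ (σ' : X → ℂ) (𝒰 : Ultrafilter ℕ), M.HolS a σ' ∧ M.CkS ∞ a σ' ∧
    (∀ e ∈ M.A, ∀ z ∈ e.target, ∀ v,
      Tendsto (fun k => fderiv ℝ (M.rep a (σ k) e) z v) 𝒰 (𝓝 (fderiv ℝ (M.rep a σ' e) z v))) ∧
    Tendsto (fun k => (M.ip0 μ a g h (fun x => σ k x - σ' x) fun x => σ k x - σ' x).re) 𝒰 (𝓝 0)

/-- part F: the sections. -/
def SecS : Prop := ∀ (ι X : Type) [Fintype ι] [DecidableEq ι] [TopologicalSpace X] [T2Space X]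
  [CompactSpace X] [ConnectedSpace X] [MeasurableSpace X] [BorelSpace X] (M : Atl ι X)
  (g : X → Mat ι) (μ : Measure X) (u : ℝ → X → ℝ) (C : Cov M) (s : Finset ι), M.IsK g →
  M.IsVol g μ → M.SemiNeg g → Fam M g μ u s.card → C.Prod g s →
  ∃ N : ℕ, 0 < N ∧ ∃ c : ℝ, 0 < c ∧ ∀ᶠ a : ℕ in atTop, ∃ (Q : ℕ) (σ : Fin Q → X → ℂ),
    c * (a : ℝ) ^ (Fintype.card ι - s.card) ≤ Q ∧ (∀ j, M.HolS (N * a) (σ j)) ∧
    LinearIndependent ℂ σ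

/-- the passage from the atlas of the statement to the maximal atlas. -/
def MaxAtlS : Prop := ∀ (ι X : Type) [Fintype ι] [DecidableEq ι] [TopologicalSpace X]
  [ChartedSpace (ι → ℂ) X] [IsManifold 𝓘(ℂ, ι → ℂ) ω X] (K : Kahler ι X),
  ∃ (M : Atl ι X) (g : X → Mat ι), atlas (ι → ℂ) X ⊆ M.A ∧ (∀ x, M.ch x = chartAt (ι → ℂ) x) ∧
    M.IsK g ∧ ∀ e ∈ atlas (ι → ℂ) X, ∀ z ∈ e.target, M.repF g e z = K.g e z

/-- the theorem. -/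
def MainS : Prop := ∀ (ι X : Type) [Fintype ι] [DecidableEq ι] [TopologicalSpace X] [T2Space X]
  [CompactSpace X] [ConnectedSpace X] [MeasurableSpace X] [BorelSpace X] [ChartedSpace (ι → ℂ) X]
  [IsManifold 𝓘(ℂ, ι → ℂ) ω X] (K : Kahler ι X), K.SemiNeg →
  ∃ N : ℕ, 0 < N ∧ ∃ c : ℝ, 0 < c ∧ ∀ᶠ a : ℕ in atTop, ∃ (Q : ℕ)
    (s : Fin Q → OpenPartialHomeomorph X (ι → ℂ) → (ι → ℂ) → ℂ),
    c * (a : ℝ) ^ K.numDim ≤ Q ∧ (∀ j, IsPluri (N * a) (s j)) ∧ Indep s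

end Pool.Agent.Lib.MP_813db1_ag.HS
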