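import Pool.Agent.Lib.MP_813db1_ag.HS.HolC

/-! Calculus of the second order Hoelder classes. -/

namespace Pool.Agent.Lib.MP_813db1_ag.HS

open Complex Matrix Filter Topology Set Metric
open scoped ContDiff

noncomputable section

variable {ι : Type} [Fintype ι] [DecidableEq ι]

/-- `dz` as a functional of the differential. -/
def dzL (k : ι) : (V ι →L[ℝ] ℂ) →L[ℝ] ℂ :=
  (1 / 2 : ℂ) • (ContinuousLinearMap.apply ℝ ℂ (Pi.single k 1 : V ι) -
    I • ContinuousLinearMap.apply ℝ ℂ (Pi.single k I : V ι))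

/-- `dzb` as a functional of the differential. -/
def dzbL (k : ι) : (V ι →L[ℝ] ℂ) →L[ℝ] ℂ :=
  (1 / 2 : ℂ) • (ContinuousLinearMap.apply ℝ ℂ (Pi.single k 1 : V ι) +
    I • ContinuousLinearMap.apply ℝ ℂ (Pi.single k I : V ι))

/-- `levi` as a functional of the second differential. -/
def leviL (i j : ι) : (V ι →L[ℝ] V ι →L[ℝ] ℂ) →L[ℝ] ℂ :=
  (dzL i).comp (ContinuousLinearMap.compL ℝ (V ι) (V ι →L[ℝ] ℂ) ℂ (dzbL j))

theorem dzL_apply (k : ι) (A : V ι →L[ℝ] ℂ) :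
    dzL k A = (A (Pi.single k 1) - I * A (Pi.single k I)) / 2 := by
  simp [dzL]
  ring

theorem dzbL_apply (k : ι) (A : V ι →L[ℝ] ℂ) :
    dzbL k A = (A (Pi.single k 1) + I * A (Pi.single k I)) / 2 := by
  simp [dzbL]
  ring

theorem dz_eq (f : V ι → ℂ) (k : ι) (z : V ι) : dz f k z = dzL k (fderiv ℝ f z) :=
  (dzL_apply _ _).symm

theorem dzb_eq (f : V ι → ℂ) (k : ι) (z : V ι) : dzb f k z = dzbL k (fderiv ℝ f z) :=
  (dzbL_apply _ _).symm

theorem single_bd (k : ι) (A : V ι →L[ℝ] ℂ) {c : ℂ} (hc : ‖c‖ = 1) : ‖A (Pi.single k c)‖ ≤ ‖A‖ := by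
  simpa [Pi.norm_single, hc] using A.le_opNorm (Pi.single k c)

theorem norm_dzL (k : ι) : ‖dzL k‖ ≤ 1 := by
  refine ContinuousLinearMap.opNorm_le_bound _ zero_le_one fun A => ?_
  have h := norm_sub_le (A (Pi.single k 1)) (I * A (Pi.single k I))
  rw [norm_mul, Complex.norm_I, one_mul] at h
  rw [dzL_apply, norm_div, Complex.norm_two]
  linarith [single_bd k A norm_one, single_bd k A Complex.norm_I]

theorem norm_dzbL (k : ι) : ‖dzbL k‖ ≤ 1 := by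
  refine ContinuousLinearMap.opNorm_le_bound _ zero_le_one fun A => ?_
  have h := norm_add_le (A (Pi.single k 1)) (I * A (Pi.single k I))
  rw [norm_mul, Complex.norm_I, one_mul] at h
  rw [dzbL_apply, norm_div, Complex.norm_two]
  linarith [single_bd k A norm_one, single_bd k A Complex.norm_I]

theorem leviL_apply (i j : ι) (Q : V ι →L[ℝ] V ι →L[ℝ] ℂ) :
    leviL i j Q = dzL i ((dzbL j).comp Q) := rfl

theorem norm_leviL (i j : ι) (Q : V ι →L[ℝ] V ι →L[ℝ] ℂ) : ‖leviL i j Q‖ ≤ 1 * ‖Q‖ := by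
  rw [leviL_apply]
  refine ((dzL i).le_of_opNorm_le (norm_dzL i) _).trans ?_
  have := ((dzbL j).opNorm_comp_le Q).trans
    (mul_le_mul_of_nonneg_right (norm_dzbL j) (norm_nonneg Q))
  linarith

omit [DecidableEq ι] in
theorem c2_fderiv {W : Type} [NormedAddCommGroup W] [NormedSpace ℝ W] {f : V ι → W} {z : V ι}
    (h : ContDiffAt ℝ 2 f z) : ContDiffAt ℝ 1 (fderiv ℝ f) z :=
  h.fderiv_right (m := 1) (by norm_num)

theorem levi_eq {f : V ι → ℂ} {z : V ι} (h : ContDiffAt ℝ 2 f z) (i j : ι) :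
    levi f z i j = leviL i j (fderiv ℝ (fderiv ℝ f) z) := by
  have e : dzb f j = fun w => dzbL j (fderiv ℝ f w) := funext fun w => dzb_eq f j w
  have d := ((dzbL j).hasFDerivAt.comp z
    ((c2_fderiv h).differentiableAt one_ne_zero).hasFDerivAt).fderiv
  change dz (dzb f j) i z = _
  rw [dz_eq, e, leviL_apply, ← d]
  rfl

variable {t M N L : ℝ} {U U' : Set (V ι)}

theorem HolT.dz {f : V ι → ℂ} (ht : 0 ≤ t) (h : HolT t M (fderiv ℝ f) U) (i : ι) :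
    HolT t M (dz f i) U := by
  simpa using (h.clm ht (dzL i) (norm_dzL i)).congr fun z _ => dz_eq f i z

theorem HolT.dzb {f : V ι → ℂ} (ht : 0 ≤ t) (h : HolT t M (fderiv ℝ f) U) (i : ι) :
    HolT t M (dzb f i) U := by
  simpa using (h.clm ht (dzbL i) (norm_dzbL i)).congr fun z _ => dzb_eq f i z

theorem HolT.levi {f : V ι → ℂ} (ht : 0 ≤ t) (hf : ∀ z ∈ U, ContDiffAt ℝ 2 f z)
    (h : HolT t M (fderiv ℝ (fderiv ℝ f)) U) (i j : ι) : HolT t M (fun z => levi f z i j) U := by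
  simpa using (h.map (Φ := leviL i j) ht zero_le_one (norm_leviL i j) fun a b => by
    rw [← map_sub]
    exact norm_leviL i j _).congr fun z hz => levi_eq (hf z hz) i j

theorem Hol2.levi {f : V ι → ℂ} (h : Hol2 M f U) : HolM M (levi f) U := fun i j =>
  hol_iff.2 ((hol_iff.1 h.2.2.2).levi zero_le_one h.1 i j)

theorem Hol2.dz {f : V ι → ℂ} (h : Hol2 M f U) (i : ι) : Hol M (dz f i) U :=
  hol_iff.2 ((hol_iff.1 h.2.2.1).dz zero_le_one i)

theorem Hol2.dzb {f : V ι → ℂ} (h : Hol2 M f U) (i : ι) : Hol M (dzb f i) U :=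
  hol_iff.2 ((hol_iff.1 h.2.2.1).dzb zero_le_one i)

omit [DecidableEq ι]

section One

variable {W W' W'' : Type} [NormedAddCommGroup W] [NormedAddCommGroup W'] [NormedAddCommGroup W'']
  [NormedSpace ℝ W] [NormedSpace ℝ W'] [NormedSpace ℝ W'']

/-- first order Hoelder bound. -/
def Hol1 (M : ℝ) (f : V ι → W) (U : Set (V ι)) : Prop :=
  (∀ z ∈ U, DifferentiableAt ℝ f z) ∧ Hol M f U ∧ Hol M (fderiv ℝ f) U

theorem Hol1.add {f g : V ι → W} (h : Hol1 M f U) (h' : Hol1 N g U) :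
    Hol1 (M + N) (fun z => f z + g z) U :=
  ⟨fun z hz => (h.1 z hz).add (h'.1 z hz), h.2.1.add h'.2.1,
    (h.2.2.add h'.2.2).congr fun z hz => fderiv_fun_add (h.1 z hz) (h'.1 z hz)⟩

theorem Hol1.bilin {f : V ι → W} {k : V ι → W'} (B : W' →L[ℝ] W →L[ℝ] W'') (hB : ‖B‖ ≤ 1)
    (hk : Hol1 L k U) (h : Hol1 M f U) : Hol1 (4 * L * M) (fun z => B (k z) (f z)) U := by
  have d : ∀ z ∈ U, HasFDerivAt (fun z => B (k z) (f z))
      (B.precompR (V ι) (k z) (fderiv ℝ f z) + B.precompL (V ι) (fderiv ℝ k z) (f z)) z :=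
    fun z hz => B.hasFDerivAt_of_bilinear (hk.1 z hz).hasFDerivAt (h.1 z hz).hasFDerivAt
  rcases U.eq_empty_or_nonempty with rfl | ⟨z, hz⟩
  · exact ⟨fun _ h => h.elim, ⟨fun _ h => h.elim, fun _ h => h.elim⟩, fun _ h => h.elim,
      fun _ h => h.elim⟩
  have hLM := mul_nonneg (hk.2.1.nonneg hz) (h.2.1.nonneg hz)
  refine ⟨fun z hz => (d z hz).differentiableAt, (Hol.bilin B hB hk.2.1 h.2.1).mono (by nlinarith),
    (((Hol.bilin _ ((B.norm_precompR_le (V ι)).trans hB) hk.2.1 h.2.2).add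
      (Hol.bilin _ ((B.norm_precompL_le (V ι)).trans hB) hk.2.2 h.2.1)).congr
        fun z hz => (d z hz).fderiv).mono (by nlinarith)⟩

theorem Hol1.comp {f : V ι → W} {τ : V ι → V ι} {Λ : ℝ} (h : Hol1 M f U') (hΛ : 1 ≤ Λ)
    (hm : MapsTo τ U U') (hl : ∀ z ∈ U, ∀ w ∈ U, ‖τ z - τ w‖ ≤ Λ * ‖z - w‖)
    (hd : ∀ z ∈ U, DifferentiableAt ℝ τ z) (hτ : Hol Λ (fderiv ℝ τ) U) :
    Hol1 (2 * (Λ * M) * Λ) (fun z => f (τ z)) U := by
  have d : ∀ z ∈ U, HasFDerivAt (fun z => f (τ z)) ((fderiv ℝ f (τ z)).comp (fderiv ℝ τ z)) z :=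
    fun z hz => (h.1 _ (hm hz)).hasFDerivAt.comp z (hd z hz).hasFDerivAt
  rcases U.eq_empty_or_nonempty with rfl | ⟨z, hz⟩
  · exact ⟨fun _ h => h.elim, ⟨fun _ h => h.elim, fun _ h => h.elim⟩, fun _ h => h.elim,
      fun _ h => h.elim⟩
  have hM := mul_nonneg (zero_le_one.trans hΛ) (h.2.1.nonneg (hm hz))
  exact ⟨fun z hz => (d z hz).differentiableAt, (h.2.1.comp hΛ hm hl).mono (by nlinarith),
    (Hol.bilin (ContinuousLinearMap.compL ℝ (V ι) (V ι) W) (ContinuousLinearMap.norm_compL_le _ _ _ _)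
      (h.2.2.comp hΛ hm hl) hτ).congr fun z hz => (d z hz).fderiv⟩

theorem hol1_of_c2 {f : V ι → W} {K : Set (V ι)} (hK : IsCompact K) (hc : Convex ℝ K)
    (hf : ∀ z ∈ K, ContDiffAt ℝ 2 f z) : ∃ M ≥ (1 : ℝ), Hol1 M f K := by
  obtain ⟨A, a1, a2⟩ := hol_of_c1 hK hc fun z hz => (hf z hz).of_le (by norm_num)
  obtain ⟨B, -, b2⟩ := hol_of_c1 hK hc fun z hz => c2_fderiv (hf z hz)
  exact ⟨max A B, a1.trans (le_max_left _ _), fun z hz => (hf z hz).differentiableAt two_ne_zero,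
    a2.mono (le_max_left _ _), b2.mono (le_max_right _ _)⟩

theorem c2_ev {f : V ι → W} {z : V ι} (h : ContDiffAt ℝ 2 f z) :
    ∀ᶠ w in 𝓝 z, DifferentiableAt ℝ f w :=
  (h.eventually (by simp)).mono fun _ hw => hw.differentiableAt two_ne_zero

end One

variable {f g k : V ι → ℂ}

theorem Hol2.hol1 (h : Hol2 M f U) : Hol1 M f U :=
  ⟨fun z hz => (h.1 z hz).differentiableAt two_ne_zero, h.2.1, h.2.2.1⟩

theorem Hol2.hol1' (h : Hol2 M f U) : Hol1 M (fderiv ℝ f) U :=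
  ⟨fun z hz => (c2_fderiv (h.1 z hz)).differentiableAt one_ne_zero, h.2.2.1, h.2.2.2⟩

theorem hol2_of {F : V ι → V ι →L[ℝ] ℂ} (h1 : ∀ z ∈ U, ContDiffAt ℝ 2 f z) (h2 : Hol M f U)
    (h3 : Hol1 M F U) (e : ∀ z ∈ U, fderiv ℝ f =ᶠ[𝓝 z] F) : Hol2 M f U :=
  ⟨h1, h2, h3.2.1.congr fun z hz => (e z hz).eq_of_nhds,
    h3.2.2.congr fun z hz => (e z hz).fderiv_eq⟩

theorem Hol2.nonneg (h : Hol2 M f U) {z : V ι} (hz : z ∈ U) : 0 ≤ M := h.2.1.nonneg hz

theorem Hol2.mono (h : Hol2 M f U) (hM : M ≤ N) : Hol2 N f U :=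
  ⟨h.1, h.2.1.mono hM, h.2.2.1.mono hM, h.2.2.2.mono hM⟩

theorem Hol2.subset (h : Hol2 M f U) (hU : U' ⊆ U) : Hol2 M f U' :=
  ⟨fun z hz => h.1 z (hU hz), h.2.1.subset hU, h.2.2.1.subset hU, h.2.2.2.subset hU⟩

theorem Hol2.congr' (h : Hol2 M f U) (e : ∀ z ∈ U, g =ᶠ[𝓝 z] f) : Hol2 M g U :=
  hol2_of (fun z hz => (h.1 z hz).congr_of_eventuallyEq (e z hz))
    (h.2.1.congr fun z hz => (e z hz).eq_of_nhds) h.hol1' fun z hz => (e z hz).fderiv

theorem Hol2.congr (hU : IsOpen U) (h : Hol2 M f U) (e : ∀ z ∈ U, g z = f z) : Hol2 M g U :=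
  h.congr' fun _ hz => eventually_of_mem (hU.mem_nhds hz) e

theorem Hol2.of_forall (h : ∀ ε > 0, Hol2 (M + ε) f U) : Hol2 M f U :=
  ⟨(h 1 one_pos).1, Hol.of_forall fun ε hε => (h ε hε).2.1,
    Hol.of_forall fun ε hε => (h ε hε).2.2.1, Hol.of_forall fun ε hε => (h ε hε).2.2.2⟩

theorem Hol2.const (c : ℂ) (hM : ‖c‖ ≤ M) : Hol2 M (fun _ : V ι => c) U := by
  have h0 := (norm_nonneg c).trans hM
  have e : fderiv ℝ (fun _ : V ι => c) = fun _ => 0 := funext fun _ => by simp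
  have e' : fderiv ℝ (fun _ : V ι => (0 : V ι →L[ℝ] ℂ)) = fun _ => 0 := funext fun _ => by simp
  refine ⟨fun _ _ => contDiffAt_const, Hol.const c hM, ?_, ?_⟩
  · rw [e]
    exact Hol.const 0 (by simpa using h0)
  · rw [e, e']
    exact Hol.const 0 (ContinuousLinearMap.opNorm_zero.le.trans h0)

theorem Hol2.add (h : Hol2 M f U) (h' : Hol2 N g U) : Hol2 (M + N) (fun z => f z + g z) U :=
  hol2_of (fun z hz => (h.1 z hz).add (h'.1 z hz)) (h.2.1.add h'.2.1) (h.hol1'.add h'.hol1')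
    fun z hz => by
      filter_upwards [c2_ev (h.1 z hz), c2_ev (h'.1 z hz)] with w a b using fderiv_fun_add a b

theorem Hol2.mul (hk : Hol2 L k U) (h : Hol2 M f U) : Hol2 (8 * L * M) (fun z => k z * f z) U := by
  rcases U.eq_empty_or_nonempty with rfl | ⟨z, hz⟩
  · exact ⟨fun _ h => h.elim, ⟨fun _ h => h.elim, fun _ h => h.elim⟩,
      ⟨fun _ h => h.elim, fun _ h => h.elim⟩, fun _ h => h.elim, fun _ h => h.elim⟩
  have hLM := mul_nonneg (hk.nonneg hz) (h.nonneg hz)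
  have hB := ContinuousLinearMap.opNorm_mul_le ℝ ℂ
  have h3 := (Hol1.bilin _ (((ContinuousLinearMap.mul ℝ ℂ).norm_precompR_le (V ι)).trans hB)
    hk.hol1 h.hol1').add (Hol1.bilin _
      (((ContinuousLinearMap.mul ℝ ℂ).norm_precompL_le (V ι)).trans hB) hk.hol1' h.hol1)
  have e : 4 * L * M + 4 * L * M = 8 * L * M := by ring
  rw [e] at h3
  refine hol2_of (fun z hz => (hk.1 z hz).mul (h.1 z hz)) ((hk.2.1.mul h.2.1).mono (by nlinarith))
    h3 fun z hz => ?_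
  filter_upwards [c2_ev (hk.1 z hz), c2_ev (h.1 z hz)] with w a b
  exact ((ContinuousLinearMap.mul ℝ ℂ).hasFDerivAt_of_bilinear a.hasFDerivAt b.hasFDerivAt).fderiv

theorem Hol2.neg (h : Hol2 M f U) : Hol2 M (fun z => -f z) U := by
  have e : fderiv ℝ (fun z => -f z) = fun z => -fderiv ℝ f z := funext fun _ => fderiv_fun_neg
  have e' : fderiv ℝ (fun z => -fderiv ℝ f z) = fun z => -fderiv ℝ (fderiv ℝ f) z :=
    funext fun _ => fderiv_fun_neg
  refine ⟨fun z hz => (h.1 z hz).neg, h.2.1.neg, ?_, ?_⟩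
  · rw [e]
    exact h.2.2.1.neg
  · rw [e, e']
    exact h.2.2.2.neg

theorem Hol2.sub (h : Hol2 M f U) (h' : Hol2 N g U) : Hol2 (M + N) (fun z => f z - g z) U := by
  simpa only [sub_eq_add_neg] using h.add h'.neg

theorem Hol2.const_mul (h : Hol2 M f U) (c : ℂ) : Hol2 (8 * ‖c‖ * M) (fun z => c * f z) U :=
  (Hol2.const c le_rfl).mul h

theorem Hol2.sum {κ : Type} (S : Finset κ) {F : κ → V ι → ℂ} {B : κ → ℝ}
    (h : ∀ j ∈ S, Hol2 (B j) (F j) U) : Hol2 (∑ j ∈ S, B j) (fun z => ∑ j ∈ S, F j z) U := by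
  classical
  induction S using Finset.induction_on with
  | empty => simpa using Hol2.const (U := U) (M := 0) 0 (by simp)
  | insert a S ha ih =>
    simp only [Finset.sum_insert ha]
    exact (h a (Finset.mem_insert_self _ _)).add (ih fun j hj => h j (Finset.mem_insert_of_mem hj))

theorem Hol2T.hol2 (ht : 1 ≤ t) (hM : 0 ≤ M) (h : Hol2T t M f U) : Hol2 M f U :=
  ⟨h.1, (h.2.1.hol ht).mono (div_le_self hM (one_le_pow₀ ht)),
    (h.2.2.1.hol ht).mono (div_le_self hM (one_le_pow₀ ht)), h.2.2.2.hol ht⟩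

theorem hol2_of_c3 {K : Set (V ι)} (hK : IsCompact K) (hc : Convex ℝ K)
    (hf : ∀ z ∈ K, ContDiffAt ℝ 3 f z) : ∃ M ≥ (1 : ℝ), Hol2 M f K := by
  obtain ⟨A, a1, a2⟩ := hol_of_c1 hK hc fun z hz => (hf z hz).of_le (by norm_num)
  obtain ⟨B, -, -, b2, b3⟩ := hol1_of_c2 hK hc fun z hz =>
    (hf z hz).fderiv_right (m := 2) (by norm_num)
  exact ⟨max A B, a1.trans (le_max_left _ _), fun z hz => (hf z hz).of_le (by norm_num),
    a2.mono (le_max_left _ _), b2.mono (le_max_right _ _), b3.mono (le_max_right _ _)⟩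

theorem hol2_of_supp (hf : ContDiff ℝ 3 f) (hs : HasCompactSupport f) :
    ∃ M ≥ (1 : ℝ), Hol2 M f univ := by
  have h1 : ContDiff ℝ 2 (fderiv ℝ f) := hf.fderiv_right (m := 2) (by norm_num)
  obtain ⟨A, a1, a2⟩ := hol_of_supp (hf.of_le (by norm_num)) hs
  obtain ⟨B, -, b2⟩ := hol_of_supp (h1.of_le (by norm_num)) (hs.fderiv ℝ)
  obtain ⟨C, -, c2⟩ := hol_of_supp (h1.fderiv_right (m := 1) (by norm_num)) ((hs.fderiv ℝ).fderiv ℝ)
  exact ⟨max A (max B C), a1.trans (le_max_left _ _),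
    fun z _ => (hf.of_le (by norm_num)).contDiffAt, a2.mono (le_max_left _ _),
    b2.mono ((le_max_left _ _).trans (le_max_right _ _)),
    c2.mono ((le_max_right _ _).trans (le_max_right _ _))⟩

/-- composition with a smooth map. -/
theorem hol2_comp {τ : V ι → V ι} {K : Set (V ι)} (hK : IsCompact K) (hc : Convex ℝ K)
    (hτ : ∀ z ∈ K, ContDiffAt ℝ 3 τ z) : ∃ C ≥ (1 : ℝ),
      (∀ z ∈ K, ∀ w ∈ K, ‖τ z - τ w‖ ≤ C * ‖z - w‖) ∧
      ∀ (g : V ι → ℂ) (M : ℝ), Hol2 M g univ → Hol2 (C * M) (fun z => g (τ z)) K := by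
  obtain ⟨A, a1, -, a3⟩ := lip_of_c1 hK hc fun z hz => (hτ z hz).of_le (by norm_num)
  obtain ⟨B, b1, b2⟩ := hol1_of_c2 hK hc fun z hz => (hτ z hz).fderiv_right (m := 2) (by norm_num)
  set Λ := max A B
  have hA : A ≤ Λ := le_max_left _ _
  have hB : B ≤ Λ := le_max_right _ _
  have hΛ : 1 ≤ Λ := a1.trans hA
  have hl : ∀ z ∈ K, ∀ w ∈ K, ‖τ z - τ w‖ ≤ Λ * ‖z - w‖ := fun z hz w hw =>
    (a3 z hz w hw).trans (mul_le_mul_of_nonneg_right hA (norm_nonneg _))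
  have hC : Λ ≤ 8 * Λ * Λ * B := by nlinarith [mul_nonneg (sub_nonneg.2 hΛ) (sub_nonneg.2 b1)]
  refine ⟨8 * Λ * Λ * B, hΛ.trans hC, fun z hz w hw =>
    (hl z hz w hw).trans (mul_le_mul_of_nonneg_right hC (norm_nonneg _)), fun g M hg => ?_⟩
  have hM := hg.nonneg (mem_univ 0)
  have h2 : ∀ z ∈ K, ContDiffAt ℝ 2 τ z := fun z hz => (hτ z hz).of_le (by norm_num)
  have h3 := Hol1.bilin (ContinuousLinearMap.compL ℝ (V ι) (V ι) ℂ)
    (ContinuousLinearMap.norm_compL_le _ _ _ _)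
    (hg.hol1'.comp hΛ (mapsTo_univ _ _) hl (fun z hz => (h2 z hz).differentiableAt two_ne_zero)
      (b2.2.1.mono hB)) b2
  have e : 4 * (2 * (Λ * M) * Λ) * B = 8 * Λ * Λ * B * M := by ring
  rw [e] at h3
  refine hol2_of (fun z hz => (hg.1 _ (mem_univ _)).comp z (h2 z hz))
    ((hg.2.1.comp hΛ (mapsTo_univ _ _) hl).mono (mul_le_mul_of_nonneg_right hC hM)) h3
    fun z hz => ?_
  filter_upwards [c2_ev (h2 z hz)] with w a
  exact (((hg.1 _ (mem_univ _)).differentiableAt two_ne_zero).hasFDerivAt.comp w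
    a.hasFDerivAt).fderiv

end

end Pool.Agent.Lib.MP_813db1_ag.HS
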