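import Pool.Agent.Lib.MP_813db1_ag.HS.Stmt2
import Pool.Agent.Lib.MP_813db1_ag.HS.HolD

/-! Statements for the linear theory on the manifold and for the continuity method. -/

namespace Pool.Agent.Lib.MP_813db1_ag.HS

open MeasureTheory Complex Matrix Filter Topology Set Metric
open scoped ContDiff ComplexOrder

noncomputable section

variable {ι X : Type} [Fintype ι] [DecidableEq ι] [TopologicalSpace X]

/-- weighted Hoelder bound for a section. -/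
def Cov.SHT {M : Atl ι X} (C : Cov M) (m : ℕ) (t B : ℝ) (σ : X → ℂ) : Prop :=
  ∀ a, HolT t B (M.rep m σ (C.e a)) (ball 0 (2 * C.r a))

/-- entrywise Hoelder bound for a form. -/
def Cov.SHM {M : Atl ι X} (C : Cov M) (B : ℝ) (γ : X → Mat ι) : Prop :=
  ∀ a, HolM B (M.repF γ (C.e a)) (ball 0 (2 * C.r a))

open Classical in
/-- the section with coefficient `g` in the chart `e`, extended by zero. -/
def Atl.ext (M : Atl ι X) (m : ℕ) (e : Ch ι X) (g : V ι → ℂ) (x : X) : ℂ :=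
  if x ∈ e.source then (tj (M.ch x) e x).det ^ m * g (e x) else 0

/-- solutions of the Monge-Ampere equation with background form `α`. -/
def Atl.GSol (M : Atl ι X) (g α : X → Mat ι) (u : X → ℝ) : Prop :=
  M.Ck ∞ u ∧ M.IsK (fun x => α x + M.ddc u x) ∧
    ∀ x, rat (fun y => α y + M.ddc u y) g x = Real.exp (u x)

end

/-- successive approximation. -/
def IterS : Prop := ∀ (ι X : Type) [Fintype ι] [DecidableEq ι] [TopologicalSpace X] (M : Atl ι X)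
  (C : Cov M) (a : ℕ) (Φ : (X → ℂ) → X → ℂ) (t K B0 : ℝ), 1 ≤ t → 0 ≤ K → 0 ≤ B0 →
  C.SHT a t B0 (Φ fun _ => 0) →
  (∀ v B, 0 ≤ B → B ≤ B0 → C.SH2 a (2 * K * B0) v → C.SHT a t B (Φ v) →
    ∃ w, C.SH2 a (K * B) w ∧ C.SHT a t (B / 2) (Φ fun x => v x + w x)) →
  (∀ v x, C.SH2 a (2 * K * B0) v → ∀ ε > 0, ∃ δ > 0, ∀ v', C.SH2 a (2 * K * B0) v' →
    C.SH2 a δ (fun y => v y - v' y) → ‖Φ v x - Φ v' x‖ ≤ ε) →
  ∃ v, C.SH2 a (2 * K * B0) v ∧ ∀ x, Φ v x = 0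

/-- extension by zero of a function with compact support in a chart. -/
def ExtAS : Prop := ∀ (ι X : Type) [Fintype ι] [DecidableEq ι] [TopologicalSpace X] [T2Space X]
  (M : Atl ι X) (C : Cov M) (m : ℕ), ∀ e ∈ M.A, ∀ K : Set (V ι), IsCompact K → K ⊆ e.target →
  ∃ K0 ≥ (0 : ℝ), ∀ g : V ι → ℂ, (∀ z ∉ K, g z = 0) →
    (∀ x ∈ e.source, M.rep m (M.ext m e g) e =ᶠ[𝓝 (e x)] g) ∧
    (∀ x, (x ∈ e.source → e x ∉ K) → ∀ᶠ y in 𝓝 x, M.ext m e g y = 0) ∧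
    (∀ t ≥ (1 : ℝ), ∀ B, HolT t B g univ → C.SHT m t (K0 * B) (M.ext m e g)) ∧
    ∀ B, Hol2 B g univ → C.SH2 m (K0 * B) (M.ext m e g)

/-- the local parametrix. -/
def LocS : Prop := ∀ (ι : Type) [Fintype ι] [DecidableEq ι] (L : ℝ), ∃ ρ0 > (0 : ℝ),
  ∃ t0 ≥ (1 : ℝ), ∀ (z0 : V ι) (ρ : ℝ), 0 < ρ → ρ ≤ ρ0 → ∃ C ≥ (0 : ℝ),
  ∀ (a : ℕ) (H : V ι → Mat ι) (U : Set (V ι)), closedBall z0 ρ ⊆ U → (∀ z ∈ U, (H z).PosDef) →
  HolM L H U → HolM L (fun z => (H z)⁻¹) U → (∀ i, Hol L (fun z => (a : ℂ) * dz (lg H) i z) U) →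
  ∀ t ≥ t0, ∀ (f : V ι → ℂ) (B : ℝ), HolT t B f univ → (∀ z ∉ closedBall z0 (ρ / 2), f z = 0) →
  ∃ w E : V ι → ℂ, Hol2 (C * B) w univ ∧ HolT t (C * B / t ^ 2) E univ ∧
    (∀ z ∉ closedBall z0 ρ, w z = 0 ∧ E z = 0) ∧
    ∀ z, (t : ℂ) ^ 4 * w z - boxL a H w z = f z - E z

/-- solvability for one large parameter. -/
def LinES : Prop := ∀ (ι X : Type) [Fintype ι] [DecidableEq ι] [TopologicalSpace X] [T2Space X]
  (M : Atl ι X) (C : Cov M) (a : ℕ) (L : ℝ), ∃ lam ≥ (1 : ℝ), ∃ C1 ≥ (0 : ℝ),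
  ∀ h, M.IsK h → C.Ell a L h → ∀ f B, 0 ≤ B → C.SH a B f →
    ∃ v, C.SH2 a (C1 * B) v ∧ ∀ x, (lam : ℂ) * v x - M.box a h v x = f x

/-- comparison of the norms, and dissipativity. -/
def L2S : Prop := ∀ (ι X : Type) [Fintype ι] [DecidableEq ι] [TopologicalSpace X] [T2Space X]
  [CompactSpace X] [MeasurableSpace X] [BorelSpace X] (M : Atl ι X) (g : X → Mat ι)
  (μ : Measure X) (C : Cov M) (a : ℕ) (L : ℝ), M.IsK g → M.IsVol g μ → ∃ c ≥ (0 : ℝ),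
  ∀ h, M.IsK h → C.Ell a L h → (∀ f B, C.SH a B f → (M.ip0 μ a g h f f).re ≤ (c * B) ^ 2) ∧
    (∀ v P, 0 ≤ P → M.CkS 0 a v → (M.ip0 μ a g h v v).re ≤ P ^ 2 → ∀ b,
      ∫ z in ball (0 : V ι) (2 * C.r b), ‖M.rep a v (C.e b) z‖ ^ 2 ≤ (c * P) ^ 2) ∧
    ∀ (η : ℝ) v, 0 ≤ η → M.CkS 2 a v → η ^ 2 * (M.ip0 μ a g h v v).re ≤
      (M.ip0 μ a g h (fun x => (η : ℂ) * v x - M.box a h v x)
        (fun x => (η : ℂ) * v x - M.box a h v x)).re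

/-- the a priori estimates along an affine path of background forms. -/
def AprS : Prop := ∀ (ι X : Type) [Fintype ι] [DecidableEq ι] [TopologicalSpace X]
  [CompactSpace X] (M : Atl ι X) (C : Cov M) (g α γ : X → Mat ι) (ε : ℝ), M.IsK g → M.SemiNeg g →
  M.ClF α → M.ClF γ → 0 < ε →
  (∀ s ∈ Icc (0 : ℝ) 1, ∀ x, (α x + (s : ℂ) • γ x + M.ricF g x - (ε : ℂ) • g x).PosSemidef) →
  ∃ L, ∀ s ∈ Icc (0 : ℝ) 1, ∀ u, M.GSol g (fun x => α x + (s : ℂ) • γ x) u →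
    C.Ell 0 L fun x => α x + (s : ℂ) • γ x + M.ddc u x

/-- a step of the continuity method, in the Hoelder class. -/
def StepS : Prop := ∀ (ι X : Type) [Fintype ι] [DecidableEq ι] [TopologicalSpace X]
  (M : Atl ι X) (C : Cov M) (L K : ℝ), 0 ≤ K → ∃ δ > (0 : ℝ), ∀ h γ : X → Mat ι, M.IsK h →
  C.Ell 0 L h → (∀ x, (γ x).IsHermitian) → C.SHM δ γ →
  (∀ f B, 0 ≤ B → C.SH 0 B f → ∃ v, C.SH2 0 (K * B) v ∧ ∀ x, v x - M.box 0 h v x = f x) →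
  ∃ (v : X → ℝ) (B : ℝ), C.SH2 0 B (fun x => (v x : ℂ)) ∧
    ∀ x, (h x + γ x + M.ddc v x).PosDef ∧
      Real.log (rat (fun y => h y + γ y + M.ddc v y) h x) = v x

/-- uniform openness. -/
def OpenS : Prop := ∀ (ι X : Type) [Fintype ι] [DecidableEq ι] [TopologicalSpace X] [T2Space X]
  [CompactSpace X] [MeasurableSpace X] [BorelSpace X] (M : Atl ι X) (C : Cov M)
  (g γ : X → Mat ι) (L : ℝ), M.IsK g → M.ClF γ → ∃ δ > (0 : ℝ), ∀ α u, M.ClF α → M.GSol g α u →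
  C.Ell 0 L (fun x => α x + M.ddc u x) → ∀ s : ℝ, |s| ≤ δ →
  ∃ u', M.GSol g (fun x => α x + (s : ℂ) • γ x) u'

end Pool.Agent.Lib.MP_813db1_ag.HS
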