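import Pool.Agent.Lib.MP_813db1_ag.HS.Stmt2

/-! Assembly of the global steps. -/

namespace Pool.Agent.Lib.MP_813db1_ag.HS

open MeasureTheory Complex Matrix Filter Topology Set Metric
open scoped ContDiff ComplexOrder ENNReal Manifold

namespace Main

variable {ι : Type} [Fintype ι] [DecidableEq ι]

theorem dz_cg {f g : V ι → ℂ} {z : V ι} (h : f =ᶠ[𝓝 z] g) (k : ι) : dz f k z = dz g k z := by
  simp only [dz, h.fderiv_eq]

theorem dzb_cg {f g : V ι → ℂ} {z : V ι} (h : f =ᶠ[𝓝 z] g) (k : ι) : dzb f k z = dzb g k z := by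
  simp only [dzb, h.fderiv_eq]

theorem dzb_ev {f g : V ι → ℂ} {z : V ι} (h : f =ᶠ[𝓝 z] g) (k : ι) : dzb f k =ᶠ[𝓝 z] dzb g k :=
  h.eventuallyEq_nhds.mono fun _ hw => dzb_cg hw k

theorem curv_cg {G G' : V ι → Mat ι} {z : V ι} (h : G =ᶠ[𝓝 z] G') (i j k l : ι) :
    curv G z i j k l = curv G' z i j k l := by
  have he : ∀ p q, (fun w => G w p q) =ᶠ[𝓝 z] fun w => G' w p q := fun p q =>
    h.mono fun w hw => by simp only [hw]
  simp only [curv, h.eq_of_nhds, dz_cg (dzb_ev (he _ _) _), dz_cg (he _ _), dzb_cg (he _ _)]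

theorem ric_cg {G G' : V ι → Mat ι} {z : V ι} (h : G =ᶠ[𝓝 z] G') : ric G z = ric G' z := by
  have he : (fun w => (Real.log (G w).det.re : ℂ)) =ᶠ[𝓝 z] fun w => (Real.log (G' w).det.re : ℂ) :=
    h.mono fun w hw => by simp only [hw]
  simp only [ric, levi, dz_cg (dzb_ev he _)]

end Main

open Main in
theorem main (hmax : MaxAtlS) (ha : RepA) (hc : RepC) (hv : VolS) (hn : NefS) (hp : VolPS)
    (hi : IntS) (hpar : ParS) (hpc : PCovS) (hs : SecS) : MainS := by
  intro ι X _ _ _ _ _ _ _ _ _ _ K hK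
  obtain ⟨M, g, hA, hch, hg, hrep⟩ := hmax ι X K
  have hev : ∀ x, M.repF g (M.ch x) =ᶠ[𝓝 (M.ch x x)] K.g (chartAt (ι → ℂ) x) := by
    intro x
    rw [hch x]
    filter_upwards [(chartAt (ι → ℂ) x).open_target.mem_nhds (mem_chart_target _ x)] with w hw
    exact hrep _ (chart_mem_atlas _ x) w hw
  have hsemi : M.SemiNeg g := by
    refine (hc ι X M).semi g hg fun x v => ?_
    have h := hK _ (chart_mem_atlas (ι → ℂ) x) _ (mem_chart_target _ x) v
    simp only [hsc, curv_cg (hev x)] at h ⊢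
    rw [hch x]
    exact h
  obtain ⟨⟨μ, hμ⟩, hV⟩ := hv ι X M g hg
  have hsol := hn ι X M g hg hsemi
  obtain ⟨p, hp1, hp2, hp3, hp4⟩ := hp ι X M g μ hg hμ
  have hpos := hp4 hsol
  choose! u hu using hsol
  have hfam := hi ι X M g μ u p hg hμ hsemi hu hp1 hpos hp3
  obtain ⟨q, hq⟩ := hpar ι X M g μ u _ hg hμ hsemi hfam
  obtain ⟨s, C, hsc', hC⟩ := hpc ι X M g q _ hg hsemi hq hp3
  rw [← hsc'] at hfam
  obtain ⟨N, hN, c, hc0, hev'⟩ := hs ι X M g μ u C s hg hμ hsemi hfam hC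
  have hnd : K.numDim ≤ Fintype.card ι - s.card := by
    refine csSup_le' ?_
    rintro k ⟨hk, μ', hμ', hne⟩
    have hμeq : μ' = μ := by
      refine (hV μ hμ).uniq μ' fun x => ?_
      rw [hμ _ (M.ch_mem x), hch x, hμ' _ (chart_mem_atlas _ x)]
      congr 1
      refine withDensity_congr_ae ?_
      filter_upwards [ae_restrict_mem (chartAt (ι → ℂ) x).open_target.measurableSet] with w hw
      rw [hrep _ (chart_mem_atlas _ x) w hw]
    have hmix : ∀ x, K.mixed k x =
        (((g x)⁻¹ * M.ricF g x).charpoly.coeff (Fintype.card ι - k)).re := by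
      intro x
      have h1 : g x = K.g (chartAt (ι → ℂ) x) (chartAt (ι → ℂ) x x) := by
        rw [← (ha ι X M).repF_self g x, (hev x).eq_of_nhds, hch x]
      have h2 : M.ricF g x = ric (K.g (chartAt (ι → ℂ) x)) (chartAt (ι → ℂ) x x) := by
        rw [Atl.ricF, ric_cg (hev x), hch x]
      rw [h1, h2]
      rfl
    simp only [hmix, hμeq, ← hp2] at hne
    have := Polynomial.natTrailingDegree_le_of_ne_zero hne
    omega
  refine ⟨N, hN, c, hc0, ?_⟩
  filter_upwards [hev', eventually_ge_atTop 1] with a ⟨Q, σ, hQ, hσ, hli⟩ ha1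
  refine ⟨Q, fun j e z => M.rep (N * a) (σ j) e z, ?_, fun j => ⟨fun e he => hσ j e (hA he), ?_⟩, ?_⟩
  · refine le_trans (mul_le_mul_of_nonneg_left ?_ hc0.le) hQ
    exact pow_le_pow_right₀ (by exact_mod_cast ha1) hnd
  · intro e he e' he' x hx hx'
    exact (ha ι X M).rep_tr _ _ e (hA he) e' (hA he') x hx hx'
  · intro d hd
    funext j
    refine Fintype.linearIndependent_iff.1 hli d ?_ j
    funext x
    have h := hd _ (chart_mem_atlas (ι → ℂ) x) _ (mem_chart_target _ x)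
    simp only [← hch x, (ha ι X M).rep_self] at h
    simpa using h

end Pool.Agent.Lib.MP_813db1_ag.HS
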