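import Pool.Agent.Lib.MP_813db1_ag.HS.Top

/-! Internal definitions: local calculus, Hoelder classes, maximal atlases, developing data. -/

namespace Pool.Agent.Lib.MP_813db1_ag.HS

open MeasureTheory Complex Matrix Filter Topology Set Metric
open scoped ContDiff ComplexOrder

noncomputable section

/-- the model space. -/
abbrev V (ι : Type) : Type := ι → ℂ

/-- square matrices. -/
abbrev Mat (ι : Type) : Type := Matrix ι ι ℂ

variable {ι : Type} [Fintype ι] [DecidableEq ι]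

/-! ### local calculus -/

/-- entrywise `dz`. -/
def dM (G : V ι → Mat ι) (k : ι) (z : V ι) : Mat ι :=
  Matrix.of fun i j => dz (fun w => G w i j) k z

/-- entrywise `dzb`. -/
def dMb (G : V ι → Mat ι) (k : ι) (z : V ι) : Mat ι :=
  Matrix.of fun i j => dzb (fun w => G w i j) k z

/-- Christoffel matrices. -/
def gam (G : V ι → Mat ι) (k : ι) (z : V ι) : Mat ι := dM G k z * (G z)⁻¹

/-- pull back of a form by a matrix. -/
def pull (J B : Mat ι) : Mat ι := Jᵀ * B * J.map star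

/-- smooth matrix functions. -/
def SmM (G : V ι → Mat ι) (U : Set (V ι)) : Prop :=
  ∀ z ∈ U, ∀ i j, ContDiffAt ℝ ∞ (fun w => G w i j) z

/-- closed real forms. -/
def ClOn (G : V ι → Mat ι) (U : Set (V ι)) : Prop :=
  SmM G U ∧ (∀ z ∈ U, (G z).IsHermitian) ∧
    ∀ z ∈ U, ∀ i j k, dz (fun w => G w i j) k z = dz (fun w => G w k j) i z

/-- Kaehler forms. -/
def KOn (G : V ι → Mat ι) (U : Set (V ι)) : Prop := ClOn G U ∧ ∀ z ∈ U, (G z).PosDef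

/-- the trace of `B` with respect to `H`. -/
def trm (H B : Mat ι) : ℝ := (trace (B * H⁻¹)).re

/-- the Laplacian. -/
def lapL (H : V ι → Mat ι) (f : V ι → ℂ) (z : V ι) : ℂ := trace (levi f z * (H z)⁻¹)

/-- the inner product of two covectors. -/
def grL (H : Mat ι) (a b : V ι) : ℂ := ∑ i, ∑ j, H⁻¹ j i * a i * star (b j)

/-- the inner product of two vectors. -/
def ipV (H : Mat ι) (a b : V ι) : ℂ := ∑ i, ∑ j, H i j * a i * star (b j)

/-- the squared norm of a vector. -/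
def nV (H : Mat ι) (a : V ι) : ℝ := (ipV H a a).re

/-- `log det`. -/
def lg (H : V ι → Mat ι) (w : V ι) : ℂ := (Real.log (H w).det.re : ℂ)

/-- minus the `dbar` Laplacian on the `a`-th power of the canonical bundle. -/
def boxL (a : ℕ) (H : V ι → Mat ι) (F : V ι → ℂ) (z : V ι) : ℂ :=
  lapL H F z - a * ∑ i, ∑ j, (H z)⁻¹ j i * dz (lg H) i z * dzb F j z

/-- the vector dual to `dbar F`. -/
def shp (H : V ι → Mat ι) (F : V ι → ℂ) (z : V ι) : V ι :=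
  fun i => ∑ j, (H z)⁻¹ j i * dzb F j z

/-- the squared norm of `dbar U`. -/
def nD (H : V ι → Mat ι) (U : V ι → V ι) (z : V ι) : ℝ :=
  (∑ k, ∑ l, ∑ i, ∑ j, (H z)⁻¹ k l * H z i j * dzb (fun w => U w i) k z *
    star (dzb (fun w => U w j) l z)).re

/-- the gradient term of the Chern-Lu formula. -/
def clT (G H : V ι → Mat ι) (z : V ι) : ℝ :=
  (∑ k, ∑ l, (H z)⁻¹ l k *
    trace ((gam G k z - gam H k z) * G z * (gam G l z - gam H l z)ᴴ * (H z)⁻¹)).re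

/-- the curvature contracted twice with `η`. -/
def rq (G : V ι → Mat ι) (z : V ι) (η : Mat ι) : ℝ :=
  (∑ i, ∑ j, ∑ k, ∑ l, η j i * η l k * curv G z i j k l).re

/-- the Calabi quantity for the flat background. -/
def cal (H : V ι → Mat ι) (z : V ι) : ℝ :=
  (∑ k, ∑ l, (H z)⁻¹ l k * trace (dM H k z * (H z)⁻¹ * dMb H l z * (H z)⁻¹)).re

/-- entrywise bound. -/
def Bd {σ : Type} (L : ℝ) (A : Matrix σ σ ℂ) : Prop := ∀ i j, ‖A i j‖ ≤ L

/-! ### Hoelder classes (exponent one half) -/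

section Hoelder

variable {W : Type} [NormedAddCommGroup W]

/-- weighted Hoelder bound. -/
def HolT (t M : ℝ) (f : V ι → W) (U : Set (V ι)) : Prop :=
  (∀ z ∈ U, t * ‖f z‖ ≤ M) ∧ ∀ z ∈ U, ∀ w ∈ U, ‖f z - f w‖ ≤ M * √‖z - w‖

/-- Hoelder bound. -/
def Hol (M : ℝ) (f : V ι → W) (U : Set (V ι)) : Prop :=
  (∀ z ∈ U, ‖f z‖ ≤ M) ∧ ∀ z ∈ U, ∀ w ∈ U, ‖f z - f w‖ ≤ M * √‖z - w‖

end Hoelder

/-- Hoelder bound up to second derivatives. -/
def Hol2 (M : ℝ) (f : V ι → ℂ) (U : Set (V ι)) : Prop :=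
  (∀ z ∈ U, ContDiffAt ℝ 2 f z) ∧ Hol M f U ∧ Hol M (fderiv ℝ f) U ∧
    Hol M (fderiv ℝ (fderiv ℝ f)) U

/-- weighted Hoelder bound up to second derivatives. -/
def Hol2T (t M : ℝ) (f : V ι → ℂ) (U : Set (V ι)) : Prop :=
  (∀ z ∈ U, ContDiffAt ℝ 2 f z) ∧ HolT t (M / t ^ 4) f U ∧ HolT t (M / t ^ 2) (fderiv ℝ f) U ∧
    HolT t M (fderiv ℝ (fderiv ℝ f)) U

/-- entrywise Hoelder bound. -/
def HolM (M : ℝ) (G : V ι → Mat ι) (U : Set (V ι)) : Prop := ∀ i j, Hol M (fun z => G z i j) U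

/-- the local class `C^{k,1/2}`. -/
def Hk : ℕ → (V ι → ℂ) → Set (V ι) → Prop
  | 0, f, U => ∀ z ∈ U, ∃ r > 0, ∃ M, Hol M f (ball z r)
  | k + 1, f, U => (∀ z ∈ U, DifferentiableAt ℝ f z) ∧ ∀ v, Hk k (fun z => fderiv ℝ f z v) U

/-- difference quotient. -/
def dq (f : V ι → ℂ) (v : V ι) (τ : ℝ) (z : V ι) : ℂ := (f (z + τ • v) - f z) / τ

/-- the nonlinear remainder of `log det`. -/
def nl (H B : Mat ι) : ℝ := Real.log (H + B).det.re - Real.log H.det.re - trm H B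

/-! ### maximal atlases -/

/-- charts. -/
abbrev Ch (ι X : Type) [TopologicalSpace X] : Type := OpenPartialHomeomorph X (ι → ℂ)

/-- a maximal holomorphic atlas with a preferred chart at each point. -/
structure Atl (ι X : Type) [Fintype ι] [TopologicalSpace X] where
  A : Set (Ch ι X)
  ch : X → Ch ι X
  ch_mem : ∀ x, ch x ∈ A
  mem : ∀ x, x ∈ (ch x).source
  hol : ∀ e ∈ A, ∀ e' ∈ A, ∀ x ∈ e.source, x ∈ e'.source → AnalyticAt ℂ (e' ∘ e.symm) (e x)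
  max : ∀ e : Ch ι X, (∀ x ∈ e.source, AnalyticAt ℂ (e ∘ (ch x).symm) (ch x x) ∧
    AnalyticAt ℂ (ch x ∘ e.symm) (e x)) → e ∈ A

variable {X : Type} [TopologicalSpace X]

/-- the Jacobian of the change of charts. -/
def tj (e e' : Ch ι X) (x : X) : Mat ι := jac (e' ∘ e.symm) (e x)

/-- a real function read in a chart. -/
def fn (u : X → ℝ) (e : Ch ι X) (z : V ι) : ℂ := (u (e.symm z) : ℂ)

/-- the ratio of two volume forms. -/
def rat (h g : X → Mat ι) (x : X) : ℝ := (h x).det.re / (g x).det.re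

/-- the weight of the `L²` products on the `a`-th power of the canonical bundle. -/
def wt (a : ℕ) (g h : X → Mat ι) (x : X) : ℝ := rat h g x / (h x).det.re ^ a

namespace Atl

variable (M : Atl ι X)

/-- a section of the `m`-th power of the canonical bundle (values in the preferred charts),
read in the chart `e`. -/
def rep (m : ℕ) (σ : X → ℂ) (e : Ch ι X) (z : V ι) : ℂ :=
  (tj e (M.ch (e.symm z)) (e.symm z)).det ^ m * σ (e.symm z)

/-- a form (values in the preferred charts), read in the chart `e`. -/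
def repF (B : X → Mat ι) (e : Ch ι X) (z : V ι) : Mat ι :=
  pull (tj e (M.ch (e.symm z)) (e.symm z)) (B (e.symm z))

/-- functions of class `C^k`. -/
def Ck (k : WithTop ℕ∞) (u : X → ℝ) : Prop :=
  ∀ e ∈ M.A, ∀ z ∈ e.target, ContDiffAt ℝ k (fn u e) z

/-- sections of class `C^k`. -/
def CkS (k : WithTop ℕ∞) (m : ℕ) (σ : X → ℂ) : Prop :=
  ∀ e ∈ M.A, ∀ z ∈ e.target, ContDiffAt ℝ k (M.rep m σ e) z

/-- holomorphic sections. -/
def HolS (m : ℕ) (σ : X → ℂ) : Prop := ∀ e ∈ M.A, DifferentiableOn ℂ (M.rep m σ e) e.target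

/-- smooth forms. -/
def SmF (B : X → Mat ι) : Prop := ∀ e ∈ M.A, SmM (M.repF B e) e.target

/-- closed real forms. -/
def ClF (B : X → Mat ι) : Prop := ∀ e ∈ M.A, ClOn (M.repF B e) e.target

/-- Kaehler forms. -/
def IsK (B : X → Mat ι) : Prop := ∀ e ∈ M.A, KOn (M.repF B e) e.target

/-- the Levi form. -/
def ddc (u : X → ℝ) (x : X) : Mat ι := levi (fn u (M.ch x)) (M.ch x x)

/-- the Ricci form. -/
def ricF (B : X → Mat ι) (x : X) : Mat ι := ric (M.repF B (M.ch x)) (M.ch x x)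

/-- the Laplacian. -/
def lap (h : X → Mat ι) (u : X → ℝ) (x : X) : ℝ := trm (h x) (M.ddc u x)

/-- the differential. -/
def dfn (u : X → ℝ) (x : X) : V ι := fun i => dz (fn u (M.ch x)) i (M.ch x x)

/-- the inner product of gradients. -/
def grad (h : X → Mat ι) (u v : X → ℝ) (x : X) : ℝ := (grL (h x) (M.dfn u x) (M.dfn v x)).re

/-- the operator `boxL` on sections. -/
def box (a : ℕ) (h : X → Mat ι) (σ : X → ℂ) (x : X) : ℂ :=
  boxL a (M.repF h (M.ch x)) (M.rep a σ (M.ch x)) (M.ch x x)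

/-- the vector dual to `dbar σ`. -/
def shpX (a : ℕ) (h : X → Mat ι) (σ : X → ℂ) (x : X) : V ι :=
  shp (M.repF h (M.ch x)) (M.rep a σ (M.ch x)) (M.ch x x)

/-- the squared norm of `dbar` of `shpX`. -/
def nDX (a : ℕ) (h : X → Mat ι) (σ : X → ℂ) (x : X) : ℝ :=
  nD (M.repF h (M.ch x)) (shp (M.repF h (M.ch x)) (M.rep a σ (M.ch x))) (M.ch x x)

/-- the gradient term of the Chern-Lu formula. -/
def clX (g h : X → Mat ι) (x : X) : ℝ := clT (M.repF g (M.ch x)) (M.repF h (M.ch x)) (M.ch x x)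

/-- the curvature contracted twice with `η`. -/
def rqX (g : X → Mat ι) (x : X) (η : Mat ι) : ℝ := rq (M.repF g (M.ch x)) (M.ch x x) η

/-- holomorphic sectional curvature nowhere positive. -/
def SemiNeg (g : X → Mat ι) : Prop := ∀ e ∈ M.A, ∀ z ∈ e.target, ∀ v, hsc (M.repF g e) z v ≤ 0

/-- the twisted metric. -/
def hm (g : X → Mat ι) (ε : ℝ) (u : X → ℝ) (x : X) : Mat ι :=
  (ε : ℂ) • g x - M.ricF g x + M.ddc u x

/-- twisted Kaehler-Einstein potentials. -/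
def Sol (g : X → Mat ι) (ε : ℝ) (u : X → ℝ) : Prop :=
  M.Ck ∞ u ∧ M.IsK (M.hm g ε u) ∧ ∀ x, rat (M.hm g ε u) g x = Real.exp (u x)

/-- a parallel flat projector of rank `m`. -/
def Par (g p : X → Mat ι) (m : ℕ) : Prop :=
  M.SmF p ∧ (∀ x, (p x).IsHermitian ∧ p x * (g x)⁻¹ * p x = p x ∧ trace (p x * (g x)⁻¹) = m ∧
    M.rqX g x ((g x)⁻¹ * p x * (g x)⁻¹) = 0) ∧
  ∀ e ∈ M.A, ∀ z ∈ e.target, ∀ k, dM (M.repF p e) k z = gam (M.repF g e) k z * M.repF p e z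

variable [MeasurableSpace X]

/-- the volume measure of `g`. -/
def IsVol (g : X → Mat ι) (μ : Measure X) : Prop :=
  ∀ e ∈ M.A, μ.restrict e.source = Measure.map e.symm
    ((volume.restrict e.target).withDensity fun z => ENNReal.ofReal (M.repF g e z).det.re)

/-- the `L²` product of sections. -/
def ip0 (_M : Atl ι X) (μ : Measure X) (a : ℕ) (g h : X → Mat ι) (σ τ : X → ℂ) : ℂ :=
  ∫ x, σ x * star (τ x) * wt a g h x ∂μ

/-- the `L²` product of `dbar` of sections. -/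
def ip1 (μ : Measure X) (a : ℕ) (g h : X → Mat ι) (σ τ : X → ℂ) : ℂ :=
  ∫ x, ipV (h x) (M.shpX a h σ x) (M.shpX a h τ x) * wt a g h x ∂μ

/-- the volume of the class of `s g - Ric g`. -/
def vol (μ : Measure X) (g : X → Mat ι) (s : ℝ) : ℝ :=
  ∫ x, rat (fun y => (s : ℂ) • g y - M.ricF g y) g x ∂μ

/-- the normalised density of the twisted metric. -/
def den (μ : Measure X) (g : X → Mat ι) (ε : ℝ) (u : X → ℝ) (x : X) : ℝ :=
  Real.exp (u x) / M.vol μ g ε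

end Atl

/-- a finite cover by coordinate balls. -/
structure Cov (M : Atl ι X) where
  n : ℕ
  e : Fin n → Ch ι X
  r : Fin n → ℝ
  mem : ∀ a, e a ∈ M.A
  pos : ∀ a, 0 < r a
  sub : ∀ a, closedBall 0 (4 * r a) ⊆ (e a).target
  cover : ∀ x, ∃ a, x ∈ (e a).source ∧ ‖e a x‖ < r a

/-- the flat part of a point. -/
def zp (s : Finset ι) (w : V ι) : V {i // i ∈ s} := fun i => w i.1

/-- the transversal part of a point. -/
def yp (s : Finset ι) (w : V ι) : V {i // i ∉ s} := fun i => w i.1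

/-- the point with given parts. -/
def glue (s : Finset ι) (z : V {i // i ∈ s}) (y : V {i // i ∉ s}) : V ι :=
  fun i => if h : i ∈ s then z ⟨i, h⟩ else y ⟨i, h⟩

/-- the coordinate projector. -/
def ind (s : Finset ι) : Mat ι := Matrix.diagonal fun i => if i ∈ s then 1 else 0

/-- block diagonal matrices. -/
def Blk (s : Finset ι) (J : Mat ι) : Prop := ∀ p i, (p ∈ s ↔ i ∉ s) → J p i = 0

/-- the rows in `s` are those of `c` times the identity. -/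
def Rows (s : Finset ι) (c : ℂ) (B : Mat ι) : Prop :=
  ∀ i ∈ s, ∀ j, B i j = if i = j then c else 0

namespace Cov

variable {M : Atl ι X} (C : Cov M)

/-- Hoelder bound for a section. -/
def SH (m : ℕ) (B : ℝ) (σ : X → ℂ) : Prop :=
  ∀ a, Hol B (M.rep m σ (C.e a)) (ball 0 (2 * C.r a))

/-- second order Hoelder bound for a section. -/
def SH2 (m : ℕ) (B : ℝ) (σ : X → ℂ) : Prop :=
  ∀ a, Hol2 B (M.rep m σ (C.e a)) (ball 0 (2 * C.r a))

/-- uniform ellipticity and Hoelder bounds for the coefficients of `box m h`. -/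
def Ell (m : ℕ) (L : ℝ) (h : X → Mat ι) : Prop :=
  ∀ a, HolM L (M.repF h (C.e a)) (ball 0 (2 * C.r a)) ∧
    HolM L (fun z => (M.repF h (C.e a) z)⁻¹) (ball 0 (2 * C.r a)) ∧
    ∀ i, Hol L (fun z => (m : ℂ) * dz (lg (M.repF h (C.e a))) i z) (ball 0 (2 * C.r a))

/-- a cover by product charts. -/
def Prod (g : X → Mat ι) (s : Finset ι) : Prop :=
  (∀ a, ∀ z ∈ (C.e a).target, Rows s 1 (M.repF g (C.e a) z)) ∧
    ∀ a b, ∀ x ∈ (C.e a).source, x ∈ (C.e b).source → Blk s (tj (C.e a) (C.e b) x)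

/-- chartwise functions that do not depend on the flat coordinates. -/
def BasL (s : Finset ι) (F : Ch ι X → V ι → ℂ) : Prop :=
  ∀ a, ∀ z ∈ ball (0 : V ι) (4 * C.r a), ∀ i ∈ s, ∀ c : ℂ,
    fderiv ℝ (F (C.e a)) z (Pi.single i c) = 0

/-- the transversal block of a form. -/
def trv (s : Finset ι) (B : X → Mat ι) (a : Fin C.n) (y : V {i // i ∉ s}) : Mat {i // i ∉ s} :=
  (M.repF B (C.e a) (glue s 0 y)).submatrix Subtype.val Subtype.val

end Cov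

/-! ### developing data -/

/-- the group `Γ` of affine isometries of the flat factor acting on the transversal `Y`, which is
described by charts `c k` of finitely many types. -/
structure YD (σ τ : Type) [Fintype σ] [DecidableEq σ] [Fintype τ] [DecidableEq τ] (n : ℕ)
    (r : Fin n → ℝ) (G : Fin n → V τ → Mat τ) where
  Γ : Type
  Y : Type
  κ : Type
  [grp : Group Γ]
  [actY : MulAction Γ Y]
  [actK : MulAction Γ κ]
  A : Γ →* Matrix.unitaryGroup σ ℂ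
  t : Γ → V σ
  ty : κ → Fin n
  U : κ → Matrix.unitaryGroup σ ℂ
  b : κ → V σ
  c : κ → V τ → Y
  k0 : κ
  rpos : ∀ a, 0 < r a
  kon : ∀ a, KOn (G a) (ball 0 (4 * r a))
  t_mul : ∀ γ δ, t (γ * δ) = t γ + (A γ : Mat σ) *ᵥ t δ
  faith : ∀ γ, A γ = 1 → t γ = 0 → γ = 1
  ty_smul : ∀ (γ : Γ) k, ty (γ • k) = ty k
  U_smul : ∀ (γ : Γ) k, U (γ • k) = A γ * U k
  b_smul : ∀ (γ : Γ) k, b (γ • k) = t γ + (A γ : Mat σ) *ᵥ b k
  c_smul : ∀ (γ : Γ) k y, c (γ • k) y = γ • c k y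
  onto : ∀ a, ∃ k, ty k = a
  trans : ∀ k l, ty k = ty l → ∃ γ : Γ, l = γ • k
  cov : ∀ w q, ∃ k z y, ‖z‖ < r (ty k) ∧ ‖y‖ < r (ty k) ∧ (U k : Mat σ) *ᵥ z + b k = w ∧ c k y = q
  disc : ∀ k l z z' y y', ty k = ty l → ‖z‖ < 3 * r (ty k) → ‖z'‖ < 3 * r (ty k) →
    ‖y‖ < 3 * r (ty k) → ‖y'‖ < 3 * r (ty k) →
    (U k : Mat σ) *ᵥ z + b k = (U l : Mat σ) *ᵥ z' + b l → c k y = c l y' → k = l
  inj : ∀ k y y', ‖y‖ < 3 * r (ty k) → ‖y'‖ < 3 * r (ty k) → c k y = c k y' → y = y'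
  rel : ∀ k l y y', ‖y‖ < 3 * r (ty k) → ‖y'‖ < 3 * r (ty l) → c k y = c l y' →
    ∃ φ : V τ → V τ, AnalyticAt ℂ φ y ∧ φ y = y' ∧
      ∀ᶠ w in 𝓝 y, c l (φ w) = c k w ∧ G (ty k) w = pull (jac φ w) (G (ty l) (φ w))
  clos : ∀ k l y y', ‖y‖ < 3 * r (ty k) → ‖y'‖ < 3 * r (ty l) →
    (∀ δ > 0, ∃ w w', ‖w - y‖ < δ ∧ ‖w' - y'‖ < δ ∧ c k w = c l w') → c k y = c l y'
  conn : ∀ P : κ → Prop, P k0 → (∀ k l y y', ‖y‖ < 3 * r (ty k) → ‖y'‖ < 3 * r (ty l) →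
    c k y = c l y' → P k → P l) → ∀ k, P k

attribute [instance] YD.grp YD.actY YD.actK

namespace YD

variable {σ τ : Type} [Fintype σ] [DecidableEq σ] [Fintype τ] [DecidableEq τ] {n : ℕ}
  {r : Fin n → ℝ} {G : Fin n → V τ → Mat τ} (D : YD σ τ n r G)

/-- `γ` moves the points of `S` by at most `η` in the chart `k`. -/
def Dsp (k : D.κ) (S : Set (V τ)) (η : ℝ) (γ : D.Γ) : Prop :=
  ∀ y ∈ S, ∃ y', ‖y' - y‖ ≤ η ∧ γ • D.c k y = D.c k y'

/-- displacement on the base ball. -/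
def Dsp0 (η : ℝ) (γ : D.Γ) : Prop := D.Dsp D.k0 (ball 0 (r (D.ty D.k0))) η γ

/-- small elements act trivially on `Y`. -/
def Dsc : Prop :=
  ∃ η > 0, ∀ γ : D.Γ, Bd η ((D.A γ : Mat σ) - 1) → D.Dsp0 η γ → ∀ q : D.Y, γ • q = q

/-- a holomorphic Killing field on `Y` tangent to the closure of `Γ`. -/
structure KF (ξ : D.κ → V τ → V τ) : Prop where
  an : ∀ k, AnalyticOnNhd ℂ (ξ k) (ball 0 (3 * r (D.ty k)))
  compat : ∀ k l y (φ : V τ → V τ), ‖y‖ < 3 * r (D.ty k) → ‖φ y‖ < 3 * r (D.ty l) →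
    AnalyticAt ℂ φ y → (∀ᶠ w in 𝓝 y, D.c l (φ w) = D.c k w) → fderiv ℂ φ y (ξ k y) = ξ l (φ y)
  kil : ∀ k y, ‖y‖ < 3 * r (D.ty k) → ∀ p q, fderiv ℝ (fun w => G (D.ty k) w p q) y (ξ k y) +
    ((jac (ξ k) y)ᵀ * G (D.ty k) y + G (D.ty k) y * (jac (ξ k) y).map star) p q = 0
  fix : ∀ u : Fin n → V τ → ℝ, (∀ a y, ‖y‖ < 3 * r a → DifferentiableAt ℝ (u a) y) →
    (∀ k l y y', ‖y‖ < 3 * r (D.ty k) → ‖y'‖ < 3 * r (D.ty l) → D.c k y = D.c l y' →
      u (D.ty k) y = u (D.ty l) y') →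
    ∀ k y, ‖y‖ < 3 * r (D.ty k) → fderiv ℝ (u (D.ty k)) y (ξ k y) = 0

/-- `ξ` is a limit of rescaled displacements of elements with small rotation part. -/
def Lim (ξ : D.κ → V τ → V τ) : Prop :=
  ∃ (γ : ℕ → D.Γ) (d : ℕ → ℝ) (𝒰 : Ultrafilter ℕ), (∀ j, 0 < d j) ∧ Tendsto d 𝒰 (𝓝 0) ∧
    (∀ η > 0, ∀ᶠ j in 𝒰, Bd η ((D.A (γ j) : Mat σ) - 1)) ∧
    ∀ k (ϑ : ℝ), ϑ < 3 → ∀ η > 0, ∀ᶠ j in 𝒰, ∀ y, ‖y‖ ≤ ϑ * r (D.ty k) →
      ∃ y', γ j • D.c k y = D.c k y' ∧ ‖y' - y - (d j) • ξ k y‖ ≤ η * d j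

/-- an abelian algebra of Killing fields normalised by `Γ`. -/
structure Kill (q : ℕ) (ξ : Fin q → D.κ → V τ → V τ) : Prop where
  kf : ∀ j, D.KF (ξ j)
  comm : ∀ i j k y, ‖y‖ < 3 * r (D.ty k) →
    fderiv ℂ (ξ j k) y (ξ i k y) = fderiv ℂ (ξ i k) y (ξ j k y)
  jet : ∀ (c : Fin q → ℝ) k y, ‖y‖ < 3 * r (D.ty k) → ∑ j, c j • ξ j k y = 0 →
    ∑ j, c j • fderiv ℂ (ξ j k) y = 0 → c = 0
  inv : ∀ γ : D.Γ, ∃ P : Matrix (Fin q) (Fin q) ℝ, P.det ≠ 0 ∧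
    ∀ j k y, ‖y‖ < 3 * r (D.ty k) → ξ j (γ • k) y = ∑ i, P j i • ξ i k y

end YD

/-- the developing data describe the product cover `C`. -/
structure Link {M : Atl ι X} (C : Cov M) (s : Finset ι) {G : Fin C.n → V {i // i ∉ s} → Mat {i // i ∉ s}}
    (D : YD {i // i ∈ s} {i // i ∉ s} C.n C.r G) (pr : V {i // i ∈ s} → D.Y → X) : Prop where
  pr_eq : ∀ k z y, ‖z‖ < 3 * C.r (D.ty k) → ‖y‖ < 3 * C.r (D.ty k) →
    pr ((D.U k : Mat _) *ᵥ z + D.b k) (D.c k y) = (C.e (D.ty k)).symm (glue s z y)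
  link : ∀ k b, ∀ x ∈ (C.e (D.ty k)).source, ‖C.e (D.ty k) x‖ < 3 * C.r (D.ty k) →
    x ∈ (C.e b).source → ‖C.e b x‖ < 3 * C.r b → ∃ l, D.ty l = b ∧ ∀ᶠ x' in 𝓝 x,
      (D.U k : Mat _) *ᵥ zp s (C.e (D.ty k) x') + D.b k = (D.U l : Mat _) *ᵥ zp s (C.e b x') + D.b l ∧
      D.c k (yp s (C.e (D.ty k) x')) = D.c l (yp s (C.e b x'))

/-- a tube of compact leaves with a trivialisation of the powers `N ∣ a` of the canonical
bundle: `W` is the tube, `Yc` its transversal coordinate and `mu a` the section `(dz dy)^a`. -/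
structure Tube [MeasurableSpace X] {M : Atl ι X} (C : Cov M) (s : Finset ι) (μ : Measure X)
    {G : Fin C.n → V {i // i ∉ s} → Mat {i // i ∉ s}}
    (D : YD {i // i ∈ s} {i // i ∉ s} C.n C.r G) (N : ℕ) (y1 : V {i // i ∉ s}) (δ B : ℝ)
    (W : Set X) (Yc : X → V {i // i ∉ s}) (mu : ℕ → X → ℂ) : Prop where
  Npos : 0 < N
  δpos : 0 < δ
  sub : ball y1 δ ⊆ ball 0 (C.r (D.ty D.k0))
  opn : IsOpen W
  maps : ∀ x ∈ W, Yc x ∈ ball y1 δ
  loc : ∀ b, ∀ x ∈ W, x ∈ (C.e b).source → ‖C.e b x‖ < 2 * C.r b →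
    ∃ (φ : V {i // i ∉ s} → V {i // i ∉ s}) (k : D.κ), D.ty k = b ∧
      AnalyticAt ℂ φ (yp s (C.e b x)) ∧
      (∀ᶠ w in 𝓝 (yp s (C.e b x)), D.c D.k0 (φ w) = D.c k w) ∧
      (∀ᶠ x' in 𝓝 x, Yc x' = φ (yp s (C.e b x'))) ∧
      ∀ a, N ∣ a → ∃ u : ℂ, ‖u‖ = 1 ∧ ∀ᶠ x' in 𝓝 x,
        M.rep a (mu a) (C.e b) (C.e b x') = u * (jac φ (yp s (C.e b x'))).det ^ a
  cpt : ∀ K, IsCompact K → K ⊆ ball y1 δ → IsClosed {x | x ∈ W ∧ Yc x ∈ K}
  box : ∀ z y, ‖z‖ < C.r (D.ty D.k0) → y ∈ ball y1 δ →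
    (C.e (D.ty D.k0)).symm (glue s z y) ∈ W ∧ Yc ((C.e (D.ty D.k0)).symm (glue s z y)) = y
  meas : ∀ f : V {i // i ∉ s} → ENNReal, Measurable f →
    ∫⁻ x in W, f (Yc x) ∂μ ≤ ENNReal.ofReal B * ∫⁻ y in ball y1 δ, f y

end

end Pool.Agent.Lib.MP_813db1_ag.HS
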