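import Pool.Agent.Lib.MP_813db1_ag.HS.CntX_A

/-! The count of low energy basic sections. -/

namespace Pool.Agent.Lib.MP_813db1_ag.HS

open MeasureTheory Complex Matrix Filter Topology Set Metric
open scoped ContDiff ComplexOrder ENNReal

namespace CntX

/-- the conclusion of `CountS`. -/
def CB (τ : Type) [Fintype τ] [DecidableEq τ] (L κ C : ℝ) : Prop :=
  ∀ (D O K : Set (V τ)) (H : V τ → Mat τ) (ψ : V τ → ℝ), IsOpen D → IsOpen O → IsCompact K →
  K ⊆ O → O ⊆ D → SmM H D → (∀ y ∈ D, (H y).PosDef ∧ ContDiffAt ℝ ∞ ψ y ∧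
    ((L : ℂ) • H y - levi (fun w => (ψ w : ℂ)) y).PosSemidef ∧
    ((L : ℂ) • H y + levi (fun w => (ψ w : ℂ)) y).PosSemidef) →
  ∀ᶠ b : ℕ in atTop, ∀ (M : ℕ) (U : Fin M → V τ → V τ), (∀ j, ContDiffOn ℝ 2 (U j) D) →
    (∀ c : Fin M → ℂ, ∫⁻ y in D, ENNReal.ofReal (nV (H y) (∑ j, c j • U j y) *
      Real.exp (-b * ψ y)) ≤ ENNReal.ofReal (∑ j, ‖c j‖ ^ 2)) →
    ∑ j, ∫⁻ y in K, ENNReal.ofReal (nV (H y) (U j y) * Real.exp (-b * ψ y)) ≤
      ENNReal.ofReal (C * (b : ℝ) ^ Fintype.card τ) * (∫⁻ y in O, ENNReal.ofReal (H y).det.re) +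
      ENNReal.ofReal κ * ∑ j, ∫⁻ y in D, ENNReal.ofReal ((nV (H y) (U j y) + nD H (U j) y / b) *
        Real.exp (-b * ψ y))

variable {ι X : Type} [Fintype ι] [DecidableEq ι] [TopologicalSpace X] {M : Atl ι X}
  {g h : X → Mat ι} {C : Cov M} {s : Finset ι} {ε : ℝ}
  [T2Space X] [CompactSpace X] [MeasurableSpace X] [BorelSpace X] {μ : Measure X}

theorem yp_mem {R : ℝ} {z : V ι} (hz : z ∈ ball (0 : V ι) R) :
    yp s z ∈ ball (0 : V {i // i ∉ s}) R :=
  mem_ball_zero_iff.2 (lt_of_le_of_lt ((pi_norm_le_iff_of_nonneg (norm_nonneg _)).2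
    fun i => norm_le_pi_norm _ i.1) (mem_ball_zero_iff.1 hz))

/-- the set where the transversal trace is large. -/
def KK (C : Cov M) (s : Finset ι) (ε : ℝ) (g h : X → Mat ι) (k : Fin C.n) : Set (V {i // i ∉ s}) :=
  closedBall 0 (C.r k) ∩ (fun y => ε * trm (C.trv s h k y) (C.trv s g k y)) ⁻¹' Ici (1 / 2)

/-- its neighbourhood. -/
def OO (C : Cov M) (s : Finset ι) (ε : ℝ) (g h : X → Mat ι) (k : Fin C.n) : Set (V {i // i ∉ s}) :=
  ball 0 (2 * C.r k) ∩ (fun y => ε * trm (C.trv s h k y) (C.trv s g k y)) ⁻¹' Ioi (1 / 4)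

/-- the box over a subset of the transversal. -/
def box (C : Cov M) (s : Finset ι) (k : Fin C.n) (S : Set (V {i // i ∉ s})) : Set X :=
  (C.e k).source ∩ C.e k ⁻¹' (ball 0 (2 * C.r k) ∩ yp s ⁻¹' S)

omit [T2Space X] in
theorem low0 [IsFiniteMeasure μ] {E G D t : X → ℝ} {n b : ℝ} (cE : Continuous E) (cG : Continuous G)
    (cD : Continuous D) (ct : Continuous t) (hb : 0 < b) (e0 : ∀ x, 0 ≤ E x) (d0 : ∀ x, 0 ≤ D x)
    (hn : ∀ x, t x ≤ n) (hn0 : 0 ≤ n) (hp : ∀ x, ε * G x ≤ t x * E x) (h2 : ∫ x, E x ∂μ = 1)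
    (h3 : ∫ x, D x ∂μ + b * ∫ x, (E x - ε * G x) ∂μ ≤ b / 4) :
    ∫⁻ x, ENNReal.ofReal (E x + D x / b) ∂μ ≤ ENNReal.ofReal (n + 1) ∧
    ENNReal.ofReal (1 / (4 * (n + 1))) ≤ ∫⁻ x in {x | 1 / 2 ≤ t x}, ENNReal.ofReal (E x) ∂μ := by
  have iE : Integrable E μ := intg cE
  have iG : Integrable (fun x => ε * G x) μ := (intg cG).const_mul ε
  have iD : Integrable D μ := intg cD
  have mA : MeasurableSet {x | 1 / 2 ≤ t x} := (isClosed_le continuous_const ct).measurableSet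
  rw [integral_sub iE iG, h2] at h3
  have D0 : 0 ≤ ∫ x, D x ∂μ := integral_nonneg d0
  have k1 : ∫ x, ε * G x ∂μ ≤ n := by
    refine (integral_mono iG (iE.const_mul n) fun x =>
      (hp x).trans (mul_le_mul_of_nonneg_right (hn x) (e0 x))).trans ?_
    rw [integral_const_mul, h2, mul_one]
  have k2 : ∫ x, ε * G x ∂μ ≤ 1 / 2 + n * ∫ x in {x | 1 / 2 ≤ t x}, E x ∂μ := by
    refine (integral_mono iG ((iE.const_mul (1 / 2)).add ((iE.indicator mA).const_mul n)) fun x =>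
      (hp x).trans ?_).trans ?_
    · by_cases hx : 1 / 2 ≤ t x
      · simp only [Pi.add_apply, indicator_of_mem (show x ∈ {x | 1 / 2 ≤ t x} from hx)]
        nlinarith [hn x, e0 x]
      · simp only [Pi.add_apply, indicator_of_notMem (show x ∉ {x | 1 / 2 ≤ t x} from hx)]
        nlinarith [not_le.1 hx, e0 x]
    · rw [integral_add' (iE.const_mul (1 / 2)) ((iE.indicator mA).const_mul n), integral_const_mul,
        integral_const_mul, h2, integral_indicator mA, mul_one]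
  have A0 : 0 ≤ ∫ x in {x | 1 / 2 ≤ t x}, E x ∂μ := integral_nonneg e0
  refine ⟨?_, ?_⟩
  · rw [← ofReal_integral_eq_lintegral_ofReal (f := fun x => E x + D x / b) (iE.add (iD.div_const b))
      (ae_of_all _ fun x => add_nonneg (e0 x) (div_nonneg (d0 x) hb.le))]
    refine ENNReal.ofReal_le_ofReal ?_
    rw [integral_add iE (iD.div_const b), integral_div, h2, add_comm]
    refine add_le_add_left ((div_le_iff₀ hb).2 ?_) _
    nlinarith
  · rw [← ofReal_integral_eq_lintegral_ofReal iE.integrableOn (ae_of_all _ e0)]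
    refine ENNReal.ofReal_le_ofReal ((div_le_iff₀ (by positivity)).2 ?_)
    have k3 : 3 / 4 ≤ ∫ x, ε * G x ∂μ := by
      refine le_of_mul_le_mul_left ?_ hb
      linarith
    nlinarith

omit [T2Space X] in
theorem low (hM : MatS) (ha : RepA' M) (hG : GreenS) [IsFiniteMeasure μ] (hg : M.IsK g)
    (hh : M.IsK h) {b : ℕ} (hb : 0 < b) {σ : X → ℂ} {t : X → ℝ} {n : ℝ} (h1 : M.CkS ∞ (b + 1) σ)
    (ht : Continuous t) (hn : ∀ x, t x ≤ n) (hn0 : 0 ≤ n)
    (hp : ∀ x, ε * (nV (g x) (M.shpX (b + 1) h σ x) * wt (b + 1) g h x) ≤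
      t x * (nV (h x) (M.shpX (b + 1) h σ x) * wt (b + 1) g h x))
    (hric : ∀ x, M.ricF h x = (ε : ℂ) • g x - h x)
    (h2 : ∫ x, nV (h x) (M.shpX (b + 1) h σ x) * wt (b + 1) g h x ∂μ = 1)
    (h3 : ∫ x, M.nDX (b + 1) h σ x * wt (b + 1) g h x ∂μ +
      b * ∫ x, nV (-M.ricF h x) (M.shpX (b + 1) h σ x) * wt (b + 1) g h x ∂μ ≤ b / 4) :
    ∫⁻ x, ENNReal.ofReal (nV (h x) (M.shpX (b + 1) h σ x) * wt (b + 1) g h x +
      M.nDX (b + 1) h σ x * wt (b + 1) g h x / b) ∂μ ≤ ENNReal.ofReal (n + 1) ∧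
    ENNReal.ofReal (1 / (4 * (n + 1))) ≤ ∫⁻ x in {x | 1 / 2 ≤ t x},
      ENNReal.ofReal (nV (h x) (M.shpX (b + 1) h σ x) * wt (b + 1) g h x) ∂μ := by
  have ce := cont_e hG hg hh h1 hh
  have cg := cont_e hG hg hh h1 hg
  obtain ⟨-, -, cd, hw⟩ := hG.cont ι X M g h (b + 1) σ σ hg hh
  replace cd := cd fun e he z hz => (h1 e he z hz).of_le FG.two_le
  have e0 : ∀ x, 0 ≤ nV (h x) (M.shpX (b + 1) h σ x) * wt (b + 1) g h x := fun x =>
    mul_nonneg (FG.nV_nonneg (Green.pd ha hh x).posSemidef _) (hw x).le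
  have d0 : ∀ x, 0 ≤ M.nDX (b + 1) h σ x * wt (b + 1) g h x := fun x =>
    mul_nonneg (FG.nV_dbar hM ((hh _ (M.ch_mem x)).2 _ ((M.ch x).map_source (M.mem x))) _ 0).2
      (hw x).le
  have er : ∀ x, nV (-M.ricF h x) (M.shpX (b + 1) h σ x) * wt (b + 1) g h x =
      nV (h x) (M.shpX (b + 1) h σ x) * wt (b + 1) g h x -
        ε * (nV (g x) (M.shpX (b + 1) h σ x) * wt (b + 1) g h x) := fun x => by
    have e := FG.nV_lin 1 (-ε) (h x) (g x) (M.shpX (b + 1) h σ x)
    rw [ofReal_one, one_smul, ofReal_neg, neg_smul, ← sub_eq_add_neg] at e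
    rw [hric, neg_sub, e]
    ring
  simp only [er] at h3
  exact low0 ce cg cd ht (by exact_mod_cast hb) e0 d0 hn hn0 hp h2 h3

omit [T2Space X] [CompactSpace X] [MeasurableSpace X] [BorelSpace X] in
theorem sets (Rg : Rows' C s 1 g) (Rh : Rows' C s ε h) (k : Fin C.n) :
    IsCompact (KK C s ε g h k) ∧ IsOpen (OO C s ε g h k) ∧ KK C s ε g h k ⊆ OO C s ε g h k ∧
      OO C s ε g h k ⊆ ball 0 (2 * C.r k) := by
  have hr := C.pos k
  have c : ContinuousOn (fun y => ε * trm (C.trv s h k y) (C.trv s g k y)) (ball 0 (4 * C.r k)) :=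
    continuousOn_const.mul (cont_trm (Rh.kon k) (Rg.kon k))
  refine ⟨(isCompact_closedBall _ _).of_isClosed_subset
    ((c.mono (closedBall_subset_ball (by linarith))).preimage_isClosed_of_isClosed isClosed_closedBall
      isClosed_Ici) inter_subset_left,
    (c.mono (ball_subset_ball (by linarith))).isOpen_inter_preimage isOpen_ball isOpen_Ioi,
    fun y hy => ⟨closedBall_subset_ball (by linarith) hy.1, ?_⟩, inter_subset_left⟩
  have := hy.2
  simp only [mem_preimage, mem_Ici, mem_Ioi] at this ⊢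
  linarith

theorem boxl (hd : DictS) (hg : M.IsK g) (hμ : M.IsVol g μ) (k : Fin C.n)
    {S : Set (V {i // i ∉ s})} (hS : MeasurableSet S) (hS' : S ⊆ ball 0 (2 * C.r k)) {Φ : X → ℝ}
    {φ : V {i // i ∉ s} → ℝ} (hφ : ContinuousOn φ S)
    (e : ∀ z ∈ ball (0 : V ι) (4 * C.r k),
      (M.repF g (C.e k) z).det.re * Φ ((C.e k).symm z) = φ (yp s z)) :
    ∫⁻ x in box C s k S, ENNReal.ofReal (Φ x) ∂μ = ∫⁻ y in S,
      ENNReal.ofReal ((volume (ball (0 : V {i // i ∈ s}) (2 * C.r k))).toReal * φ y) := by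
  have hr := C.pos k
  rw [box, hd.box ι X M g μ C s k (2 * C.r k) S Φ φ hg hμ (by linarith) (by linarith) hS hS' hφ
    fun z hz _ => e z (ball_subset_ball (by linarith) hz),
    ← lintegral_const_mul' _ _ measure_ball_lt_top.ne]
  simp only [ENNReal.ofReal_mul ENNReal.toReal_nonneg, ENNReal.ofReal_toReal measure_ball_lt_top.ne]

theorem Ib (hM : MatS) (ha : RepA' M) (hr : RowsS) (hd : DictS) [IsFiniteMeasure μ] (hg : M.IsK g)
    (hh : M.IsK h) (hμ : M.IsVol g μ) (hε : 0 < ε) (Rg : Rows' C s 1 g) (Rh : Rows' C s ε h)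
    (k : Fin C.n) : ∫⁻ y in OO C s ε g h k, ENNReal.ofReal (C.trv s h k y).det.re ≤
      ENNReal.ofReal (4 / (volume (ball (0 : V {i // i ∈ s}) (2 * C.r k))).toReal *
        ((∫ x, (ε * trm (h x) (g x) - s.card) * rat h g x ∂μ) / ε ^ s.card)) := by
  obtain ⟨-, o1, -, o2⟩ := sets Rg Rh k
  have hr0 := C.pos k
  have o3 : OO C s ε g h k ⊆ ball 0 (4 * C.r k) := o2.trans (ball_subset_ball (by linarith))
  have hv : 0 < (volume (ball (0 : V {i // i ∈ s}) (2 * C.r k))).toReal :=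
    ENNReal.toReal_pos (measure_ball_pos _ _ (by linarith)).ne' measure_ball_lt_top.ne
  have cΦ : Continuous fun x => (ε * trm (h x) (g x) - s.card) * rat h g x :=
    ((continuous_const.mul (ha.cont _ fun e he z hz => (ha.ck_trm h g hh (fun e he => (hg e he).1.1)
      e he z hz).of_le (by simp))).sub continuous_const).mul
      (ha.cont _ fun e he z hz => (ha.ck_rat h g (fun e he => (hh e he).1.1) hg e he z hz).of_le
        (by simp))
  have Φ0 : ∀ x, 0 ≤ (ε * trm (h x) (g x) - s.card) * rat h g x := fun x =>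
    mul_nonneg (t_nonneg hM ha hr hh hε Rg Rh x)
      (div_pos (FG.det_pos (Green.pd ha hh x)) (FG.det_pos (Green.pd ha hg x))).le
  have e := boxl (μ := μ) hd hg hμ k o1.measurableSet o2
    (Φ := fun x => (ε * trm (h x) (g x) - s.card) * rat h g x)
    (φ := fun y => ε * trm (C.trv s h k y) (C.trv s g k y) * (ε ^ s.card * (C.trv s h k y).det.re))
    (((continuousOn_const.mul (cont_trm (Rh.kon k) (Rg.kon k))).mul
      (continuousOn_const.mul (FG.cont_det (Rh.kon k).1.1))).mono o3) fun z hz => by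
      have ht := tgt C k hz
      have e1 := ha.rat_rep h g _ (C.mem k) _ ((C.e k).map_target ht)
      rw [(C.e k).right_inv ht] at e1
      have e2 := congrArg re (Rh.ent k z hz).2.2.2.2.2.2
      rw [← ofReal_pow, re_ofReal_mul] at e2
      have := FG.det_pos ((hg _ (C.mem k)).2 z ht)
      rw [t_eq ha hr hh hε Rg Rh k hz, ← e1, ← e2]
      field_simp
  have i1 : ∫⁻ x in box C s k (OO C s ε g h k),
      ENNReal.ofReal ((ε * trm (h x) (g x) - s.card) * rat h g x) ∂μ ≤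
      ENNReal.ofReal (∫ x, (ε * trm (h x) (g x) - s.card) * rat h g x ∂μ) := by
    rw [ofReal_integral_eq_lintegral_ofReal (intg cΦ) (ae_of_all _ Φ0)]
    exact setLIntegral_le_lintegral _ _
  rw [e] at i1
  rw [show ∀ a b c : ℝ, 4 / a * (b / c) = 4 / a / c * b from fun _ _ _ => by ring,
    ENNReal.ofReal_mul (by positivity)]
  refine le_trans ?_ (mul_le_mul_right i1 _)
  rw [← lintegral_const_mul' _ _ ENNReal.ofReal_ne_top]
  refine setLIntegral_mono' o1.measurableSet fun y hy => ?_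
  rw [← ENNReal.ofReal_mul (by positivity)]
  refine ENNReal.ofReal_le_ofReal ?_
  have p1 := FG.det_pos ((Rh.kon k).2 y (o3 hy))
  have p2 : 1 / 4 < ε * trm (C.trv s h k y) (C.trv s g k y) := hy.2
  field_simp
  nlinarith

theorem chart (hM : MatS) (ha : RepA' M) (hr : RowsS) (hd : DictS) (hg : M.IsK g) (hh : M.IsK h)
    (hμ : M.IsVol g μ) (hε : 0 < ε) (Rg : Rows' C s 1 g) (Rh : Rows' C s ε h) (k : Fin C.n)
    {n κ Cc I : ℝ} (hn0 : 0 ≤ n) (hκ : 0 ≤ κ) (hC0 : 0 ≤ Cc) (hI0 : 0 ≤ I)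
    (hC : CB {i // i ∉ s} (n + 1) κ Cc)
    (hn : ∀ x, ε * trm (h x) (g x) - s.card ≤ n)
    (hric : ∀ y ∈ ball (0 : V {i // i ∉ s}) (4 * C.r k),
      ric (C.trv s h k) y = (ε : ℂ) • C.trv s g k y - C.trv s h k y)
    (hI : ∫⁻ y in OO C s ε g h k, ENNReal.ofReal (C.trv s h k y).det.re ≤ ENNReal.ofReal I) :
    ∀ᶠ b : ℕ in atTop, ∀ (Q : ℕ) (f : Fin Q → X → ℂ),
      (∀ j, M.CkS ∞ (b + 1) (f j) ∧ C.BasL s (M.rep (b + 1) (f j))) →
      (∀ c : Fin Q → ℂ, ∫⁻ x, ENNReal.ofReal (nV (h x) (M.shpX (b + 1) h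
        (fun x => ∑ j, c j * f j x) x) * wt (b + 1) g h x) ∂μ ≤ ENNReal.ofReal (∑ j, ‖c j‖ ^ 2)) →
      (∀ j, ∫⁻ x, ENNReal.ofReal (nV (h x) (M.shpX (b + 1) h (f j) x) * wt (b + 1) g h x +
        M.nDX (b + 1) h (f j) x * wt (b + 1) g h x / b) ∂μ ≤ ENNReal.ofReal (n + 1)) →
      ∑ j, ∫⁻ x in box C s k (KK C s ε g h k),
        ENNReal.ofReal (nV (h x) (M.shpX (b + 1) h (f j) x) * wt (b + 1) g h x) ∂μ ≤
        ENNReal.ofReal (Cc * (b : ℝ) ^ Fintype.card {i // i ∉ s} * I + κ * (Q * (n + 1))) := by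
  obtain ⟨o0, o1, o4, o2⟩ := sets Rg Rh k
  have hr0 := C.pos k
  have o3 : ball (0 : V {i // i ∉ s}) (2 * C.r k) ⊆ ball 0 (4 * C.r k) :=
    ball_subset_ball (by linarith)
  have hK := Rh.kon k
  have hT : ∀ y ∈ ball (0 : V {i // i ∉ s}) (4 * C.r k),
      ε * trm (C.trv s h k y) (C.trv s g k y) ≤ n := fun y hy => by
    have hz : glue s 0 y ∈ ball (0 : V ι) (4 * C.r k) := mem_ball_zero_iff.2
      (((hr.norm ι s _ (by linarith)).1 0 y).2 ⟨by simpa using hr0, mem_ball_zero_iff.1 hy⟩)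
    have e := t_eq ha hr hh hε Rg Rh k hz
    rw [show yp s (glue s 0 y) = y from funext fun i => dif_neg i.2] at e
    exact e ▸ hn _
  have key := hC (ball 0 (2 * C.r k)) _ _ (C.trv s h k) (fun y => Real.log (C.trv s h k y).det.re)
    isOpen_ball o1 o0 o4 o2 (hK.1.1.mono o3) fun y hy => by
      have p1 := hK.2 y (o3 hy)
      have p2 := ((Rg.kon k).2 y (o3 hy)).posSemidef
      have e : levi (fun w => (Real.log (C.trv s h k w).det.re : ℂ)) y =
          C.trv s h k y - (ε : ℂ) • C.trv s g k y := by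
        rw [← neg_sub, ← hric y (o3 hy), ric, neg_neg]
      refine ⟨p1, contDiffAt_ofReal.1 ((hK.1.1.cd (o3 hy)).lg (FG.det_pos p1).ne'), ?_, ?_⟩
      · convert (p1.posSemidef.smul (a := (n : ℂ)) (by exact_mod_cast hn0)).add
          (p2.smul (a := (ε : ℂ)) (by exact_mod_cast hε.le)) using 1
        rw [e]
        push_cast
        module
      · convert psd hM (T := n + 2) p1 p2 hε.le (by linarith [hT y (o3 hy)]) using 1
        rw [e]
        push_cast
        module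
  filter_upwards [key] with b hb Q f h1 h2 h3
  set v := (volume (ball (0 : V {i // i ∈ s}) (2 * C.r k))).toReal with hv
  set l : ℝ := √(v * ε⁻¹ ^ (s.card * b)) with hl
  have l2 : ‖(l : ℂ)‖ ^ 2 = v * ε⁻¹ ^ (s.card * b) := by
    rw [norm_real, Real.norm_eq_abs, sq_abs, hl, Real.sq_sqrt (by positivity)]
  have bs := fun j => hd.bas ι X M C s (b + 1) (f j) k (h1 j).1 (h1 j).2
  have sm : ∀ {F : V {i // i ∉ s} → ℂ}, (∀ y ∈ ball (0 : V {i // i ∉ s}) (4 * C.r k),
      ContDiffAt ℝ ∞ F y) → ∀ y ∈ ball (0 : V {i // i ∉ s}) (4 * C.r k), ∀ i,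
      ContDiffAt ℝ ∞ (fun w => shp (C.trv s h k) F w i) y := fun hF y hy i =>
    Green.cd_shp (hK.1.1.cd hy) (hK.2 y hy).det_pos.ne' (hF y hy) le_rfl i
  have cw : ContinuousOn (fun y => twt ε s.card b (C.trv s h k y)) (ball 0 (4 * C.r k)) :=
    continuousOn_const.mul (Real.continuous_exp.comp_continuousOn (continuousOn_const.mul
      ((FG.cont_det hK.1.1).log fun y hy => (FG.det_pos (hK.2 y hy)).ne')))
  have cn : ∀ {F : V {i // i ∉ s} → ℂ}, (∀ y ∈ ball (0 : V {i // i ∉ s}) (4 * C.r k),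
      ContDiffAt ℝ ∞ F y) → ContinuousOn (fun y => nV (C.trv s h k y) (shp (C.trv s h k) F y))
      (ball 0 (4 * C.r k)) := fun hF y hy =>
    (continuous_re.continuousAt.comp (Green.cd_ipV ((hK.1.1.cd hy).of_le (by simp))
      (fun i => (sm hF y hy i).of_le (by simp))
      fun i => (sm hF y hy i).of_le (by simp)).continuousAt).continuousWithinAt
  have E1 : ∀ (σ : X → ℂ) (F : V {i // i ∉ s} → ℂ) (S : Set (V {i // i ∉ s})), MeasurableSet S →
      S ⊆ ball 0 (2 * C.r k) → (∀ y ∈ ball (0 : V {i // i ∉ s}) (4 * C.r k), ContDiffAt ℝ ∞ F y) →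
      (∀ z ∈ ball (0 : V ι) (4 * C.r k), ∀ᶠ w in 𝓝 z, M.rep (b + 1) σ (C.e k) w = F (yp s w)) →
      ∫⁻ x in box C s k S, ENNReal.ofReal (nV (h x) (M.shpX (b + 1) h σ x) * wt (b + 1) g h x) ∂μ =
      ∫⁻ y in S, ENNReal.ofReal (nV (C.trv s h k y) ((l : ℂ) • shp (C.trv s h k) F y) *
        Real.exp (-b * Real.log (C.trv s h k y).det.re)) := fun σ F S s1 s2 s3 s4 => by
    rw [boxl hd hg hμ k s1 s2 (φ := fun y => nV (C.trv s h k y) (shp (C.trv s h k) F y) *
      twt ε s.card b (C.trv s h k y)) (((cn s3).mul cw).mono (s2.trans o3)) fun z hz => by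
      have q := (hd.pt ι X M g h C s ε b σ F k z hg hh hε Rh hz (s3 _ (yp_mem hz)) (s4 z hz)).2.1 h
      rwa [(Rh.ent k _ hz).2.2.2.2.1] at q]
    refine lintegral_congr fun y => congrArg _ ?_
    rw [FG.nV_smul, l2, twt]
    ring
  refine le_trans (le_of_eq ?_) ((hb Q (fun j y => (l : ℂ) • shp (C.trv s h k)
    (C.tS s (b + 1) (f j) k) y) (fun j y hy => ?_) fun c => ?_).trans ?_)
  · exact Finset.sum_congr rfl fun j _ => E1 _ _ _ o0.measurableSet (o4.trans o2) (bs j).1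
      fun z hz => ((bs j).2 z hz).2
  · exact (contDiffAt_pi.2 fun i => contDiffAt_const.mul
      ((sm (bs j).1 y (o3 hy) i).of_le FG.two_le)).contDiffWithinAt
  · refine le_trans (le_of_eq ?_) ((setLIntegral_le_lintegral (box C s k (ball 0 (2 * C.r k))) _).trans
      (h2 c))
    rw [E1 _ (fun y => ∑ j, c j * C.tS s (b + 1) (f j) k y) _ measurableSet_ball le_rfl
      (fun y hy => ContDiffAt.sum fun j _ => contDiffAt_const.mul ((bs j).1 y hy)) fun z hz => by
        filter_upwards [eventually_all.2 fun j => ((bs j).2 z hz).2] with w hw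
        simp only [← hw, Atl.rep, Finset.mul_sum, mul_left_comm]]
    refine setLIntegral_congr_fun measurableSet_ball fun y hy => ?_
    simp only [shp_sum c fun j => ((bs j).1 y (o3 hy)).differentiableAt (by simp), Finset.smul_sum,
      smul_comm (l : ℂ)]
  · have q : ∀ j, ∫⁻ y in ball (0 : V {i // i ∉ s}) (2 * C.r k), ENNReal.ofReal
        ((nV (C.trv s h k y) ((l : ℂ) • shp (C.trv s h k) (C.tS s (b + 1) (f j) k) y) +
          nD (C.trv s h k) (fun y => (l : ℂ) • shp (C.trv s h k) (C.tS s (b + 1) (f j) k) y) y / b) *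
          Real.exp (-b * Real.log (C.trv s h k y).det.re)) ≤ ENNReal.ofReal (n + 1) := fun j => by
      refine le_trans (le_of_eq ?_)
        ((setLIntegral_le_lintegral (box C s k (ball 0 (2 * C.r k))) _).trans (h3 j))
      rw [boxl hd hg hμ k measurableSet_ball le_rfl (φ := fun y =>
        nV (C.trv s h k y) (shp (C.trv s h k) (C.tS s (b + 1) (f j) k) y) *
          twt ε s.card b (C.trv s h k y) + nD (C.trv s h k) (shp (C.trv s h k)
          (C.tS s (b + 1) (f j) k)) y * twt ε s.card b (C.trv s h k y) / b)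
        ((((cn (bs j).1).mul cw).add (((ContinuousOn.mul (fun y hy => (Green.cont_nD
          ((hK.1.1.cd hy).of_le (by simp)) (hK.2 y hy).det_pos.ne' fun i =>
          (sm (bs j).1 y hy i).of_le (by exact_mod_cast le_top)).continuousWithinAt) cw)).div_const
          _)).mono o3) fun z hz => by
        obtain ⟨-, q1, q2⟩ := hd.pt ι X M g h C s ε b (f j) _ k z hg hh hε Rh hz
          ((bs j).1 _ (yp_mem hz)) ((bs j).2 z hz).2
        have q3 := q1 h
        rw [(Rh.ent k _ hz).2.2.2.2.1] at q3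
        rw [← q2, ← q3]
        ring]
      refine setLIntegral_congr_fun measurableSet_ball fun y hy => congrArg _ ?_
      rw [FG.nV_smul, nD_smul _ fun i => (sm (bs j).1 y (o3 hy) i).differentiableAt (by simp), l2,
        twt]
      ring
    rw [ENNReal.ofReal_add (by positivity) (by positivity), ENNReal.ofReal_mul (q := I)
      (by positivity), ENNReal.ofReal_mul hκ]
    refine add_le_add (mul_le_mul_right hI _) (mul_le_mul_right ?_ _)
    refine (Finset.sum_le_sum fun j _ => q j).trans (le_of_eq ?_)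
    rw [Finset.sum_const, Finset.card_univ, Fintype.card_fin, nsmul_eq_mul,
      ENNReal.ofReal_mul (Nat.cast_nonneg _), ENNReal.ofReal_natCast]

omit [T2Space X] in
theorem lim (ha : RepA' M) [IsFiniteMeasure μ] {u : ℝ → X → ℝ} {m : ℕ} (hg : M.IsK g)
    (hF : Fam M g μ u m) : Tendsto (fun ε => (∫ x, (ε * trm (M.hm g ε (u ε) x) (g x) - m) *
      rat (M.hm g ε (u ε)) g x ∂μ) / ε ^ m) (𝓝[>] 0) (𝓝 0) := by
  obtain ⟨v, -, hv⟩ := hF.ord
  have h1 := hv.mul (hF.tr.sub_const (m : ℝ))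
  rw [sub_self, mul_zero] at h1
  refine h1.congr' ?_
  filter_upwards [Ioc_mem_nhdsGT (zero_lt_one' ℝ)] with ε hε
  obtain ⟨s1, s2, s3⟩ := hF.sol ε hε
  have c1 : Continuous fun x => M.den μ g ε (u ε) x := (Real.continuous_exp.comp
    (ha.cont _ fun e he z hz => (s1 e he z hz).of_le (by simp))).div_const _
  have c2 : Continuous fun x => ε * trm (M.hm g ε (u ε) x) (g x) :=
    continuous_const.mul (ha.cont _ fun e he z hz => (ha.ck_trm _ g s2 (fun e he => (hg e he).1.1)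
      e he z hz).of_le (by simp))
  have e : ∀ x, (ε * trm (M.hm g ε (u ε) x) (g x) - m) * rat (M.hm g ε (u ε)) g x =
      M.vol μ g ε * (ε * trm (M.hm g ε (u ε) x) (g x) * M.den μ g ε (u ε) x -
        m * M.den μ g ε (u ε) x) := fun x => by
    have := hF.vpos ε hε
    rw [s3, Atl.den]
    field_simp
  simp only [e]
  have c3 : Continuous fun x => ε * trm (M.hm g ε (u ε) x) (g x) * M.den μ g ε (u ε) x := c2.mul c1
  rw [integral_const_mul, integral_sub (intg c3) ((intg c1).const_mul _),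
    integral_const_mul, hF.one ε hε]
  ring

end CntX

open CntX in
theorem cntX (hM : MatS) (ha : RepA) (hv : VolS) (hG : GreenS) (hr : RowsS) (hu : UBasS)
    (hs : SchwS) (hb : BKS) (hd : DictS) (hc : CountS) : CntXS := by
  intro ι X _ _ _ _ _ _ _ M g μ u C s hg hμ hsn hF hP κ hκ
  have ha' := ha ι X M
  have := ((hv ι X M g hg).2 μ hμ).fin
  set n : ℝ := (Fintype.card ι : ℝ) with hn
  have hn0 : 0 ≤ n := Nat.cast_nonneg _
  set κ' : ℝ := 1 / (8 * (n + 1) ^ 2 * (C.n + 1)) with hκ'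
  have hκ0 : 0 < κ' := by positivity
  obtain ⟨Cc, hC0, hC⟩ := hc {i // i ∉ s} (n + 1) κ' hκ0
  have Rg : Rows' C s 1 g := hr.rows ι X M C s 1 g hg one_pos fun a z hz => by
    simpa using hP.1 a z (tgt C a hz)
  set A : ℝ := ∑ k, 4 / (volume (ball (0 : V {i // i ∈ s}) (2 * C.r k))).toReal with hA
  have l1 := (lim ha' hg hF).const_mul (8 * (n + 1) * Cc * A)
  rw [mul_zero] at l1
  filter_upwards [Ioc_mem_nhdsGT (zero_lt_one' ℝ), l1.eventually (gt_mem_nhds hκ)] with ε hε hJ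
  have hS := hF.sol ε hε
  have hh := hS.2.1
  obtain ⟨-, Rh, u3⟩ := hu ι X M g C s ε (u ε) hg hP hε.1 hS
  have sw := hs ι X M g ε (u ε) hg hsn hε.1 hS
  generalize M.hm g ε (u ε) = h at *
  have t0 := t_nonneg hM ha' hr hh hε.1 Rg Rh
  have tn : ∀ x, ε * trm (h x) (g x) - s.card ≤ n := fun x => by
    linarith [(sw x).2, (Nat.cast_nonneg s.card : (0 : ℝ) ≤ s.card)]
  have ct : Continuous fun x => ε * trm (h x) (g x) - s.card :=
    (continuous_const.mul (ha'.cont _ fun e he z hz => (ha'.ck_trm h g hh (fun e he => (hg e he).1.1)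
      e he z hz).of_le (by simp))).sub continuous_const
  set J := (∫ x, (ε * trm (h x) (g x) - s.card) * rat h g x ∂μ) / ε ^ s.card with hJ'
  have J0 : 0 ≤ J := div_nonneg (integral_nonneg fun x => mul_nonneg (t0 x)
    (div_pos (FG.det_pos (Green.pd ha' hh x)) (FG.det_pos (Green.pd ha' hg x))).le)
    (pow_pos hε.1 _).le
  filter_upwards [eventually_all.2 fun k => chart hM ha' hr hd hg hh hμ hε.1 Rg Rh k hn0 hκ0.le hC0
    (by positivity) hC tn (fun y hy => (u3 k y hy).2) (Ib hM ha' hr hd hg hh hμ hε.1 Rg Rh k),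
    eventually_gt_atTop 0] with b hb' hb0 Q f h1 h2 h3
  have es := e_sum hG hg hh (fun j => (h1 j).1) h2
  have one : ∀ j, (fun x => ∑ i, (Pi.single j 1 : Fin Q → ℂ) i * f i x) = f j := fun j =>
    funext fun x => by simp [Pi.single_apply]
  have nrm : ∀ j, ∑ i, ‖(Pi.single j 1 : Fin Q → ℂ) i‖ ^ 2 = 1 := fun j => by
    simp [Pi.single_apply, apply_ite]
  have lo := fun j => low (μ := μ) hM ha' hG hg hh hb0 (h1 j).1 ct tn hn0
    (ptw hM ha' hr hd hg hh hε.1 Rg Rh (h1 j).1 (h1 j).2) (fun x => (sw x).1)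
    (by simpa only [one, nrm] using es (Pi.single j 1))
    (by simpa only [one, nrm, mul_one, hb ι X M g h μ b (f j) hg hh hμ (h1 j).1] using
      h3 (Pi.single j 1))
  have cs : ∀ c : Fin Q → ℂ, M.CkS ∞ (b + 1) fun x => ∑ j, c j * f j x := fun c e he z hz => by
    have q : M.rep (b + 1) (fun x => ∑ j, c j * f j x) e = fun w => ∑ j, c j * M.rep (b + 1) (f j) e w :=
      funext fun w => by simp only [Atl.rep, Finset.mul_sum, mul_left_comm]
    rw [q]
    exact ContDiffAt.sum fun j _ => contDiffAt_const.mul ((h1 j).1 e he z hz)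
  have up := fun k => hb' k Q f h1 (fun c => by
    rw [← ofReal_integral_eq_lintegral_ofReal (intg (cont_e hG hg hh (cs c) hh)) (ae_of_all _ fun x =>
      mul_nonneg (FG.nV_nonneg (Green.pd ha' hh x).posSemidef _)
        ((hG.cont ι X M g h (b + 1) (fun _ => 0) (fun _ => 0) hg hh).2.2.2 x).le), es c])
    fun j => (lo j).1
  have sub : {x | 1 / 2 ≤ ε * trm (h x) (g x) - s.card} ⊆ ⋃ k, box C s k (KK C s ε g h k) := by
    intro x hx
    obtain ⟨k, x1, x2⟩ := C.cover x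
    have hr0 := C.pos k
    have e := t_eq ha' hr hh hε.1 Rg Rh k (z := C.e k x) (mem_ball_zero_iff.2 (by linarith))
    rw [(C.e k).left_inv x1] at e
    exact mem_iUnion.2 ⟨k, x1, mem_ball_zero_iff.2 (by linarith),
      ball_subset_closedBall (yp_mem (mem_ball_zero_iff.2 x2)), by
        simpa only [mem_preimage, mem_Ici, ← e, mem_ofPred_eq] using hx⟩
  have fin : ENNReal.ofReal (Q * (1 / (4 * (n + 1)))) ≤ ENNReal.ofReal (∑ k : Fin C.n,
      (Cc * (b : ℝ) ^ Fintype.card {i // i ∉ s} *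
        (4 / (volume (ball (0 : V {i // i ∈ s}) (2 * C.r k))).toReal * J) + κ' * (Q * (n + 1)))) := by
    rw [ENNReal.ofReal_sum_of_nonneg fun k _ => by positivity]
    refine le_trans ?_ (Finset.sum_le_sum fun k _ => up k)
    rw [Finset.sum_comm, ENNReal.ofReal_mul (Nat.cast_nonneg _), ENNReal.ofReal_natCast]
    refine le_trans (le_of_eq ?_) (Finset.sum_le_sum fun j _ => (lo j).2.trans
      ((lintegral_mono_set sub).trans ((lintegral_iUnion_le _ _).trans_eq (tsum_fintype _))))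
    rw [Finset.sum_const, Finset.card_univ, Fintype.card_fin, nsmul_eq_mul]
  rw [ENNReal.ofReal_le_ofReal_iff (Finset.sum_nonneg fun k _ => by positivity),
    Finset.sum_add_distrib, ← Finset.mul_sum, ← Finset.sum_mul, ← hA, Finset.sum_const,
    Finset.card_univ, Fintype.card_fin, nsmul_eq_mul, Fintype.card_subtype_compl,
    Fintype.card_coe] at fin
  have p1 : (C.n : ℝ) * (κ' * (Q * (n + 1))) ≤ Q * (1 / (8 * (n + 1))) := by
    rw [hκ']
    have : (0 : ℝ) ≤ Q := Nat.cast_nonneg _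
    field_simp
    nlinarith
  have p2 : (Q : ℝ) * (1 / (8 * (n + 1))) ≤ Cc * (b : ℝ) ^ (Fintype.card ι - s.card) * (A * J) := by
    have : (Q : ℝ) * (1 / (4 * (n + 1))) = 2 * (Q * (1 / (8 * (n + 1)))) := by
      field_simp
      ring
    linarith
  rw [mul_one_div, div_le_iff₀ (by positivity)] at p2
  have p3 := mul_le_mul_of_nonneg_right hJ.le (by positivity : 0 ≤ (b : ℝ) ^ (Fintype.card ι - s.card))
  linarith

end Pool.Agent.Lib.MP_813db1_ag.HS
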