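import Pool.Agent.Lib.MP_813db1_ag.HS.FMv

/-! The count of low energy vector fields. -/

namespace Pool.Agent.Lib.MP_813db1_ag.HS

open MeasureTheory Complex Matrix Filter Topology Set Metric
open scoped ContDiff ComplexOrder

namespace FG

set_option linter.unusedSectionVars false

variable {τ : Type} [Fintype τ] [DecidableEq τ]

theorem enorm_sq (z : ℂ) : ‖z‖ₑ ^ 2 = ENNReal.ofReal (‖z‖ ^ 2) := by
  rw [ENNReal.ofReal_pow (norm_nonneg _), ofReal_norm]

theorem sum_lint {α κ : Type} [MeasurableSpace α] (μ : Measure α) (s : Finset κ)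
    (f : κ → α → ENNReal) : ∑ j ∈ s, ∫⁻ x, f j x ∂μ ≤ ∫⁻ x, ∑ j ∈ s, f j x ∂μ := by
  classical
  induction s using Finset.induction_on with
  | empty => simp
  | insert a s ha ih =>
    simp only [Finset.sum_insert ha]
    exact (add_le_add le_rfl ih).trans (le_lintegral_add _ _)

theorem shift {D E : Set (V τ)} (hD : MeasurableSet D) (hE : MeasurableSet E) {x : V τ}
    (h : ∀ v ∈ E, x + v ∈ D) (F : V τ → ENNReal) : ∫⁻ v in E, F (x + v) ≤ ∫⁻ y in D, F y := by
  rw [← lintegral_indicator hD, ← lintegral_indicator hE, ← lintegral_add_left_eq_self (D.indicator F) x]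
  refine lintegral_mono fun v => ?_
  by_cases hv : v ∈ E
  · simp [hv, h v hv]
  · simp [hv]

theorem swap3 {k : V τ × V τ → ENNReal} (hk : Measurable k) :
    Measurable (fun x : V τ => ∫⁻ r in Ioc (0 : ℝ) 1, ∫⁻ v, k (x + r • v, v)) ∧
    ∫⁻ x, ∫⁻ r in Ioc (0 : ℝ) 1, ∫⁻ v, k (x + r • v, v) = ∫⁻ y, ∫⁻ v, k (y, v) := by
  have h1 : Measurable fun p : (V τ × ℝ) × V τ => k (p.1.1 + p.1.2 • p.2, p.2) :=
    hk.comp (by fun_prop)
  have h2 := h1.lintegral_prod_right' (ν := volume)
  refine ⟨h2.lintegral_prod_right', ?_⟩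
  rw [lintegral_lintegral_swap (f := fun (x : V τ) (r : ℝ) => ∫⁻ v, k (x + r • v, v))
    h2.aemeasurable]
  have : ∀ r : ℝ, ∫⁻ x, ∫⁻ v, k (x + r • v, v) = ∫⁻ y, ∫⁻ v, k (y, v) := by
    intro r
    rw [lintegral_lintegral_swap (f := fun x v : V τ => k (x + r • v, v))
      (hk.comp (by fun_prop)).aemeasurable,
      lintegral_lintegral_swap (f := fun y v : V τ => k (y, v)) hk.aemeasurable]
    exact lintegral_congr fun v => lintegral_add_right_eq_self (fun y => k (y, v)) (r • v)
  simp [this]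

theorem cont_nD {D : Set (V τ)} (hD : IsOpen D) {H : V τ → Mat τ} (hH : SmM H D)
    (hp : ∀ y ∈ D, (H y).PosDef) {U : V τ → V τ} (hU : ContDiffOn ℝ 2 U D) :
    ContinuousOn (nD H U) D := by
  have h1 : ∀ i k, ContinuousOn (dzb (fun w => U w i) k) D := by
    intro i k
    have := (contDiffOn_pi.1 hU i).continuousOn_fderiv_of_isOpen hD (by norm_num)
    unfold dzb
    fun_prop
  have h2 : ∀ k l, ContinuousOn (fun y => (H y)⁻¹ k l) D := by
    intro k l y hy
    have a1 : ContinuousAt H y := continuousAt_pi.2 fun i => continuousAt_pi.2 fun j =>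
      (hH y hy i j).continuousAt
    have a2 := continuousAt_matrix_inv (H y)
      (NormedRing.inverse_continuousAt (Units.mk0 _ (hp y hy).det_pos.ne'))
    exact (continuousAt_pi.1 (continuousAt_pi.1 (a2.comp a1) k) l).continuousWithinAt
  have h3 : ∀ i j, ContinuousOn (fun y => H y i j) D := fun i j y hy =>
    (hH y hy i j).continuousAt.continuousWithinAt
  refine continuous_re.comp_continuousOn (continuousOn_finsetSum _ fun k _ =>
    continuousOn_finsetSum _ fun l _ => continuousOn_finsetSum _ fun i _ =>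
    continuousOn_finsetSum _ fun j _ => (((h2 k l).mul (h3 i j)).mul (h1 i k)).mul (h1 j l).star)

/-- the estimate at one point. -/
theorem pt (hM : MatS) {D E : Set (V τ)} (hD : IsOpen D) {H : V τ → Mat τ} {ψ : V τ → ℝ} {x : V τ}
    {S : Mat τ} (hS : ∀ a, nV (H x) a = ∑ i, ‖(S *ᵥ a) i‖ ^ 2) (hE : IsCompact E)
    (h0 : (0 : V τ) ∈ E) (h1 : ∀ c : ℂ, ‖c‖ ≤ 1 → ∀ v ∈ E, c • v ∈ E) {q : V τ → ℂ}
    (hq : ContDiff ℂ ∞ q) {b Λ σ : ℝ} (q0 : 2 * (q 0).re = ψ x) (hED : ∀ v ∈ E, x + v ∈ D)
    (hw : ∀ v ∈ E, b * (ψ (x + v) - 2 * (q v).re) ≤ Λ)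
    (hc : ∀ v ∈ E, ∀ a, nV (H x) a ≤ 2 * nV (H (x + v)) a ∧ nV (H (x + v)) a ≤ 2 * nV (H x) a)
    (hs : ∀ v ∈ E, nV (H x) v ≤ σ) (hp : ∀ y ∈ D, (H y).PosDef) {M : ℕ} {U : Fin M → V τ → V τ}
    (hU : ∀ j, ContDiffOn ℝ 2 (U j) D)
    (hB : ∀ c : Fin M → ℂ, ∫⁻ y in D, ENNReal.ofReal (nV (H y) (∑ j, c j • U j y) *
      Real.exp (-b * ψ y)) ≤ ENNReal.ofReal (∑ j, ‖c j‖ ^ 2)) :
    volume E ^ 2 * ∑ j, ENNReal.ofReal (nV (H x) (U j x) * Real.exp (-b * ψ x)) ≤
      volume E * (ENNReal.ofReal (Fintype.card τ * (4 * Real.exp Λ)) +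
        ∑ j, ENNReal.ofReal (Fintype.card τ * (32 * σ * Real.exp Λ)) * ∫⁻ r in Ioc (0 : ℝ) 1,
          ∫⁻ v in E, ENNReal.ofReal (nD H (U j) (x + r • v) * Real.exp (-b * ψ (x + r • v)))) := by
  have hm := hE.measurableSet
  have mt := hE.measure_lt_top (μ := volume)
  have s0 : 0 ≤ σ := (nV_nonneg (by simpa using (hp _ (hED 0 h0)).posSemidef) 0).trans (hs 0 h0)
  let e : V τ → ℂ := fun v => exp (-b * q v)
  have he : ContDiff ℂ ∞ e := by fun_prop
  have ne : ∀ v, ‖e v‖ ^ 2 = Real.exp (-b * (2 * (q v).re)) := fun v => by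
    rw [norm_exp, sq, ← Real.exp_add]; simp; ring
  have ne' : ∀ v ∈ E, ‖e v‖ ^ 2 ≤ Real.exp Λ * Real.exp (-b * ψ (x + v)) := fun v hv => by
    rw [ne, ← Real.exp_add]; exact Real.exp_le_exp.2 (by linarith [hw v hv])
  have le1 : ∀ a i, ‖(S *ᵥ a) i‖ ^ 2 ≤ nV (H x) a := fun a i => by
    rw [hS]
    exact Finset.single_le_sum (f := fun i => ‖(S *ᵥ a) i‖ ^ 2) (fun _ _ => sq_nonneg _)
      (Finset.mem_univ i)
  let g : τ → Fin M → V τ → ℂ := fun i j v => (∑ l, S i l * U j (x + v) l) * e v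
  have hUl : ∀ j l, ∀ v ∈ E, ContDiffAt ℝ 1 (fun w => U j w l) (x + v) := fun j l v hv =>
    ((contDiffOn_pi.1 (hU j) l).contDiffAt (hD.mem_nhds (hED v hv))).of_le (by norm_num)
  have hg : ∀ i j, ∀ v ∈ E, ContDiffAt ℝ 1 (g i j) v := fun i j v hv =>
    (ContDiffAt.sum fun l _ => contDiffAt_const.mul ((hUl j l v hv).comp v
      (contDiffAt_const.add contDiffAt_id))).mul
      ((he.restrict_scalars ℝ).contDiffAt.of_le (by exact_mod_cast le_top))
  have gc : ∀ i j, ContinuousOn (g i j) E := fun i j v hv =>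
    (hg i j v hv).continuousAt.continuousWithinAt
  have bes : ∀ i, ∑ j, ‖∫ v in E, g i j v‖ₑ ^ 2 ≤ volume E * ENNReal.ofReal (2 * Real.exp Λ) := by
    intro i
    set A : ℝ := ∑ j, ‖∫ v in E, g i j v‖ ^ 2 with hA
    have A0 : 0 ≤ A := Finset.sum_nonneg fun _ _ => sq_nonneg _
    let c : Fin M → ℂ := fun j => star (∫ v in E, g i j v)
    have e1 : ∫ v in E, ∑ j, c j * g i j v = A := by
      rw [integral_finsetSum _ fun j _ => ((gc i j).integrableOn_compact hE).const_mul _, hA]
      push_cast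
      refine Finset.sum_congr rfl fun j _ => ?_
      rw [integral_const_mul, mul_comm]
      exact mul_conj' _
    have e2 := cs' (volume.restrict E) (f := fun v => ∑ j, c j * g i j v)
      ((continuousOn_finsetSum _ fun j _ => continuousOn_const.mul (gc i j)).aestronglyMeasurable hm)
    have e3 : ∫⁻ v in E, ‖∑ j, c j * g i j v‖ₑ ^ 2 ≤
        ENNReal.ofReal (2 * Real.exp Λ) * ENNReal.ofReal A := by
      have := hB c
      simp only [c, norm_star] at this
      refine le_trans ?_ (mul_le_mul_right ((shift hD.measurableSet hm hED _).trans this) _)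
      rw [← lintegral_const_mul' _ _ ENNReal.ofReal_ne_top]
      refine setLIntegral_mono' hm fun v hv => ?_
      rw [enorm_sq, ← ENNReal.ofReal_mul (by positivity)]
      refine ENNReal.ofReal_le_ofReal ?_
      have a1 : ∑ j, c j * g i j v = (S *ᵥ ∑ j, c j • U j (x + v)) i * e v := by
        simp only [g, mulVec, dotProduct, Finset.sum_apply, Pi.smul_apply, smul_eq_mul,
          Finset.mul_sum, Finset.sum_mul]
        rw [Finset.sum_comm]
        exact Finset.sum_congr rfl fun _ _ => Finset.sum_congr rfl fun _ _ => by ring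
      rw [a1, norm_mul, mul_pow]
      refine (mul_le_mul ((le1 _ i).trans (hc v hv _).1) (ne' v hv) (sq_nonneg _) ?_).trans
        (le_of_eq (by ring))
      exact mul_nonneg two_pos.le (nV_nonneg (hp _ (hED v hv)).posSemidef _)
    rw [e1, Measure.restrict_apply_univ, enorm_sq, norm_real, Real.norm_of_nonneg A0,
      ENNReal.ofReal_pow A0] at e2
    simp only [enorm_sq]
    rw [← ENNReal.ofReal_sum_of_nonneg fun _ _ => sq_nonneg _, ← hA]
    rcases eq_or_ne (ENNReal.ofReal A) 0 with h | h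
    · rw [h]; exact zero_le
    · have := e2.trans (mul_le_mul_right e3 _)
      rw [sq, ← mul_assoc] at this
      exact (ENNReal.mul_le_mul_iff_left h ENNReal.ofReal_ne_top).1 this
  have err : ∀ i j, ‖(∫ v in E, g i j v) - (volume E).toReal • g i j 0‖ₑ ^ 2 ≤
      volume E * (ENNReal.ofReal (16 * σ * Real.exp Λ) * ∫⁻ r in Ioc (0 : ℝ) 1, ∫⁻ v in E,
        ENNReal.ofReal (nD H (U j) (x + r • v) * Real.exp (-b * ψ (x + r • v)))) := by
    intro i j
    refine (mv hE h1 (hg i j)).trans (mul_le_mul_right ?_ _)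
    rw [← lintegral_const_mul' _ _ ENNReal.ofReal_ne_top]
    refine setLIntegral_mono' measurableSet_Ioc fun r hr => ?_
    rw [← lintegral_const_mul' _ _ ENNReal.ofReal_ne_top]
    refine setLIntegral_mono' hm fun v hv => ?_
    have hw' : r • v ∈ E := h1 r (by rw [norm_real, Real.norm_of_nonneg hr.1.le]; exact hr.2) v hv
    generalize r • v = w at hw'
    rw [enorm_sq, ← ENNReal.ofReal_mul (by positivity)]
    refine ENNReal.ofReal_le_ofReal ?_
    have d1 := (HasFDerivAt.fun_sum (u := Finset.univ) fun l _ =>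
      ((((hUl j l w hw').differentiableAt (by simp)).hasFDerivAt.comp w
        ((hasFDerivAt_id w).const_add x)).const_mul (S i l))).mul
      (((he.differentiable (by simp)) w).hasFDerivAt.restrictScalars ℝ)
    have d2 : fderiv ℝ (g i j) w v + I * fderiv ℝ (g i j) w (I • v) =
        2 * e w * (S *ᵥ fun l => ∑ k, star (v k) * dzb (fun u => U j u l) k (x + w)) i := by
      erw [d1.fderiv]
      have := fun l => dbar_eq (fun u => U j u l) (x + w) v
      simp only [_root_.add_apply, _root_.smul_apply, _root_.sum_apply, smul_eq_mul,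
        ContinuousLinearMap.coe_restrictScalars', map_smul, ContinuousLinearMap.comp_id, mulVec,
        dotProduct, Function.comp_apply]
      have a : ∑ l, S i l * fderiv ℝ (fun u => U j u l) (x + w) v +
          I * ∑ l, S i l * fderiv ℝ (fun u => U j u l) (x + w) (I • v) =
          2 * ∑ l, S i l * ∑ k, star (v k) * dzb (fun u => U j u l) k (x + w) := by
        rw [Finset.mul_sum, Finset.mul_sum, ← Finset.sum_add_distrib]
        exact Finset.sum_congr rfl fun l _ => by linear_combination S i l * this l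
      linear_combination e w * a + (∑ l, S i l * U j (x + w) l) * fderiv ℂ e w v * I_mul_I
    obtain ⟨n1, n2⟩ := nV_dbar hM (hp _ (hED w hw')) (U j) v
    have n3 := (le1 _ i).trans ((hc w hw' _).1.trans (mul_le_mul_of_nonneg_left (n1.trans
      (mul_le_mul_of_nonneg_right ((hc w hw' v).2.trans
        (mul_le_mul_of_nonneg_left (hs v hv) two_pos.le)) n2)) two_pos.le))
    rw [d2, norm_mul, norm_mul, mul_pow, mul_pow, norm_ofNat, mul_assoc]
    refine (mul_le_mul_of_nonneg_left (mul_le_mul (ne' w hw') n3 (sq_nonneg _) (by positivity))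
      (by positivity)).trans (le_of_eq (by ring))
  have tri : ∀ i j, volume E ^ 2 * ENNReal.ofReal (‖(S *ᵥ U j x) i‖ ^ 2 * Real.exp (-b * ψ x)) ≤
      2 * ‖∫ v in E, g i j v‖ₑ ^ 2 +
        2 * ‖(∫ v in E, g i j v) - (volume E).toReal • g i j 0‖ₑ ^ 2 := by
    intro i j
    have a1 : ‖(volume E).toReal • g i j 0‖ ^ 2 =
        (volume E).toReal ^ 2 * (‖(S *ᵥ U j x) i‖ ^ 2 * Real.exp (-b * ψ x)) := by
      rw [norm_smul, mul_pow, Real.norm_of_nonneg ENNReal.toReal_nonneg, norm_mul, mul_pow, ne, q0,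
        add_zero]
      rfl
    conv_lhs => rw [← ENNReal.ofReal_toReal mt.ne, ← ENNReal.ofReal_pow ENNReal.toReal_nonneg,
      ← ENNReal.ofReal_mul (sq_nonneg _), ← a1]
    rw [enorm_sq, enorm_sq, ← ENNReal.ofReal_ofNat 2, ← ENNReal.ofReal_mul two_pos.le,
      ← ENNReal.ofReal_mul two_pos.le, ← ENNReal.ofReal_add (by positivity) (by positivity)]
    refine ENNReal.ofReal_le_ofReal ?_
    generalize (volume E).toReal • g i j 0 = u
    generalize ∫ v in E, g i j v = a
    have := norm_sub_le a (a - u)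
    rw [sub_sub_cancel] at this
    nlinarith [norm_nonneg u, norm_nonneg a, norm_nonneg (a - u), sq_nonneg (‖a‖ - ‖a - u‖)]
  calc _ = ∑ i, ∑ j, volume E ^ 2 *
        ENNReal.ofReal (‖(S *ᵥ U j x) i‖ ^ 2 * Real.exp (-b * ψ x)) := by
        rw [Finset.sum_comm, Finset.mul_sum]
        refine Finset.sum_congr rfl fun j _ => ?_
        rw [hS, Finset.sum_mul, ENNReal.ofReal_sum_of_nonneg fun _ _ => by positivity,
          Finset.mul_sum]
    _ ≤ ∑ _i : τ, (2 * (volume E * ENNReal.ofReal (2 * Real.exp Λ)) + ∑ j, 2 *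
        (volume E * (ENNReal.ofReal (16 * σ * Real.exp Λ) * ∫⁻ r in Ioc (0 : ℝ) 1, ∫⁻ v in E,
        ENNReal.ofReal (nD H (U j) (x + r • v) * Real.exp (-b * ψ (x + r • v)))))) := by
        refine Finset.sum_le_sum fun i _ => (Finset.sum_le_sum fun j _ => tri i j).trans ?_
        rw [Finset.sum_add_distrib, ← Finset.mul_sum]
        exact add_le_add (mul_le_mul_right (bes i) _)
          (Finset.sum_le_sum fun j _ => mul_le_mul_right (err i j) _)
    _ = _ := by
        rw [show 4 * Real.exp Λ = 2 * (2 * Real.exp Λ) by ring,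
          show 32 * σ * Real.exp Λ = 2 * (16 * σ * Real.exp Λ) by ring]
        simp only [ENNReal.ofReal_mul (Nat.cast_nonneg _), ENNReal.ofReal_mul two_pos.le,
          ENNReal.ofReal_natCast, ENNReal.ofReal_ofNat, Finset.sum_const, Finset.card_univ,
          nsmul_eq_mul, mul_add, Finset.mul_sum]
        congr 1
        · ring
        · exact Finset.sum_congr rfl fun j _ => by ring

end FG

open FG in
theorem count (hM : MatS) : CountS := by
  classical
  intro τ _ _ L κ hκ
  set n : ℝ := (Fintype.card τ : ℝ) with hn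
  have n0 : 0 ≤ n := Nat.cast_nonneg _
  set Λ : ℝ := (|L| + 1) * n
  set Q : ℝ := 64 * n ^ 2 * (2 * n) ^ Fintype.card τ * Real.exp Λ with hQ
  have Q0 : 0 ≤ Q := by positivity
  set t : ℝ := min 1 (κ / (Q + 1))
  have t0 : 0 < t := by positivity
  have t1 : t ≤ 1 := min_le_left _ _
  have t2 : Q * t ≤ κ := by
    have : t * (Q + 1) ≤ κ := (le_div_iff₀ (by positivity)).1 (min_le_right _ _)
    nlinarith
  obtain ⟨c0, c00, hc0⟩ : ∃ c0 > 0, volume (ball (0 : V τ) 1) = ENNReal.ofReal c0 :=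
    ⟨_, ENNReal.toReal_pos (measure_ball_pos _ _ one_pos).ne' measure_ball_lt_top.ne,
      (ENNReal.ofReal_toReal measure_ball_lt_top.ne).symm⟩
  refine ⟨n * (4 * Real.exp Λ) / (t ^ Fintype.card τ * c0), by positivity,
    fun D O K H ψ hD hO hK hKO hOD hH hψ => ?_⟩
  have hp : ∀ y ∈ D, (H y).PosDef := fun y hy => (hψ y hy).1
  obtain ⟨δ1, d1, c, c1, K', hK', hK'D, m1, m2, m3⟩ := near hD hK (hKO.trans hOD) hH hp
  obtain ⟨δ2, d2, hq⟩ := gauge hD hK (hKO.trans hOD) (fun y hy => (hψ y hy).2.1) c1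
  set δ := min δ1 δ2
  have d0 : 0 < δ := lt_min d1 d2
  filter_upwards [eventually_gt_atTop 0, (tendsto_natCast_atTop_atTop (R := ℝ)).eventually_ge_atTop
    (n / (c * δ ^ 2))] with b hb0 hb M U hU hB
  have b0 : (0 : ℝ) < b := by exact_mod_cast hb0
  set σ : ℝ := n * (t / b) with hσ
  have σ0 : 0 ≤ σ := by positivity
  have σ1 : σ ≤ c * δ ^ 2 := by
    rw [div_le_iff₀ (by positivity)] at hb
    rw [hσ, ← mul_div_assoc, div_le_iff₀ b0]
    nlinarith
  let Φ : Fin M → V τ → ℝ := fun j y => nD H (U j) y * Real.exp (-b * ψ y)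
  have Φ0 : ∀ j, ∀ y ∈ D, 0 ≤ Φ j y := fun j y hy =>
    mul_nonneg (nV_dbar hM (hp y hy) (U j) 0).2 (Real.exp_pos _).le
  let Z : Set (V τ × V τ) := K' ×ˢ univ ∩ (fun p => nV (H p.1) p.2) ⁻¹' Iic (2 * σ)
  have hZ : IsClosed Z := ((cont_nV hH).mono (prod_mono hK'D le_rfl)).preimage_isClosed_of_isClosed
    (hK'.isClosed.prod isClosed_univ) isClosed_Iic
  let k : Fin M → V τ × V τ → ENNReal := fun j =>
    Z.indicator fun p => ENNReal.ofReal ((H p.1).det.re * Φ j p.1)
  have hk : ∀ j, Measurable (k j) := by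
    intro j
    have a1 : ContinuousOn ψ D := fun y hy => (hψ y hy).2.1.continuousAt.continuousWithinAt
    have a2 : ContinuousOn (fun y => (H y).det.re * Φ j y) D := (cont_det hH).mul
      ((cont_nD hD hH hp (hU j)).mul (by fun_prop))
    have a3 := ContinuousOn.measurable_piecewise (g := 0)
      (ENNReal.continuous_ofReal.comp_continuousOn (a2.comp continuousOn_fst
        fun p (hp : p ∈ Z) => hK'D hp.1.1)) continuousOn_const hZ.measurableSet
    rwa [piecewise_eq_indicator] at a3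
  set P : ℝ := (t / b) ^ Fintype.card τ with hP
  have P0 : 0 < P := by positivity
  have key : ∀ x ∈ K, ∑ j, ENNReal.ofReal (nV (H x) (U j x) * Real.exp (-b * ψ x)) ≤
      ENNReal.ofReal (n * (4 * Real.exp Λ) / (P * c0)) * ENNReal.ofReal (H x).det.re +
      ∑ j, ENNReal.ofReal (n * (32 * σ * Real.exp Λ) * (2 / (P * c0))) *
        ∫⁻ r in Ioc (0 : ℝ) 1, ∫⁻ v, k j (x + r • v, v) := by
    intro x hx
    have hx' : x ∈ K' := by simpa using m1 x hx 0 (by simpa using d1.le)
    have px := hp x (hK'D hx')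
    have dx := det_pos px
    obtain ⟨S, hS, vS⟩ := frame px
    obtain ⟨q, q1, q2, q3⟩ := hq x hx
    set E := {v : V τ | ‖S *ᵥ v‖ ≤ √(t / b)}
    have vE : volume E = ENNReal.ofReal (P * c0 / (H x).det.re) := by
      rw [vS _ (Real.sqrt_nonneg _), hc0, pow_mul, Real.sq_sqrt (by positivity),
        ← ENNReal.ofReal_mul (by positivity), div_mul_eq_mul_div]
    have hs : ∀ v ∈ E, nV (H x) v ≤ σ := fun v hv => by
      rw [hS]
      refine (Finset.sum_le_card_nsmul _ _ (t / b) fun i _ => ?_).trans (le_of_eq (by simp [hσ, hn]))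
      rw [← Real.sq_sqrt (show 0 ≤ t / b by positivity)]
      exact pow_le_pow_left₀ (norm_nonneg _) ((norm_le_pi_norm _ i).trans hv) 2
    have hδ : ∀ v ∈ E, ‖v‖ ≤ δ := fun v hv =>
      (pow_le_pow_iff_left₀ (norm_nonneg _) d0.le two_ne_zero).1
        (le_of_mul_le_mul_left ((m2 x hx' v).trans ((hs v hv).trans σ1)) c1)
    have hE : IsCompact E := (isCompact_closedBall (0 : V τ) δ).of_isClosed_subset
      (isClosed_le (by fun_prop) continuous_const) fun v hv => mem_closedBall_zero_iff.2 (hδ v hv)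
    have h1 : ∀ c : ℂ, ‖c‖ ≤ 1 → ∀ v ∈ E, c • v ∈ E := fun a ha v hv => by
      show ‖S *ᵥ (a • v)‖ ≤ _
      rw [mulVec_smul, norm_smul]
      exact (mul_le_of_le_one_left (norm_nonneg _) ha).trans hv
    have hE' : ∀ v ∈ E, x + v ∈ K' := fun v hv => m1 x hx v ((hδ v hv).trans (min_le_left _ _))
    have cmp := fun v (hv : v ∈ E) => And.intro
      (m3 x hx' _ (hE' v hv) (by simpa using (hδ v hv).trans (min_le_left _ _)))
      (m3 _ (hE' v hv) x hx' (by simpa using (hδ v hv).trans (min_le_left _ _)))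
    have hw : ∀ v ∈ E, b * (ψ (x + v) - 2 * (q v).re) ≤ Λ := by
      intro v hv
      have a1 := (abs_le.1 (q3 v ((hδ v hv).trans (min_le_right _ _)))).2
      have a2 := nV_nonneg (hψ x (hK'D hx')).2.2.1 v
      have a3 := nV_lin L (-1) (H x) (levi (fun w => (ψ w : ℂ)) x) v
      rw [ofReal_neg, ofReal_one, neg_smul, one_smul, ← sub_eq_add_neg] at a3
      have a4 := mul_le_mul (le_abs_self L) (hs v hv) (nV_nonneg px.posSemidef v) (abs_nonneg L)
      have a5 := (m2 x hx' v).trans (hs v hv)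
      have a6 : b * ((|L| + 1) * σ) = Λ * t := by rw [hσ]; field_simp; rfl
      have a7 : Λ * t ≤ Λ := mul_le_of_le_one_right (by positivity) t1
      refine le_trans (mul_le_mul_of_nonneg_left ?_ b0.le) (a6.le.trans a7)
      linarith
    have main := pt hM hD hS hE (by simpa [E] using Real.sqrt_nonneg (t / b)) h1 q1 q2 (fun v hv => hK'D (hE' v hv)) hw
      (fun v hv a => ⟨(cmp v hv).1.1 a, (cmp v hv).2.1 a⟩) hs hp hU hB
    have m0 : volume E ≠ 0 := by rw [vE]; exact (ENNReal.ofReal_pos.2 (by positivity)).ne'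
    rw [sq, mul_assoc, ENNReal.mul_le_mul_iff_right m0 hE.measure_lt_top.ne] at main
    rw [← ENNReal.mul_le_mul_iff_right m0 hE.measure_lt_top.ne]
    refine main.trans ?_
    rw [mul_add, Finset.mul_sum]
    refine add_le_add (le_of_eq ?_) (Finset.sum_le_sum fun j _ => ?_)
    · rw [vE, ← ENNReal.ofReal_mul (by positivity), ← ENNReal.ofReal_mul (by positivity)]
      congr 1
      field_simp
      rfl
    · rw [vE, ← mul_assoc (ENNReal.ofReal _), ← ENNReal.ofReal_mul (by positivity), show P * c0 / (H x).det.re *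
        (n * (32 * σ * Real.exp Λ) * (2 / (P * c0))) = n * (32 * σ * Real.exp Λ) *
        (2 / (H x).det.re) by field_simp, ENNReal.ofReal_mul (p := n * _) (by positivity),
        mul_assoc (ENNReal.ofReal _)]
      refine mul_le_mul' le_rfl ?_
      rw [← lintegral_const_mul' _ _ ENNReal.ofReal_ne_top]
      refine setLIntegral_mono' measurableSet_Ioc fun r hr => ?_
      rw [← lintegral_const_mul' _ _ ENNReal.ofReal_ne_top]
      refine le_trans (setLIntegral_mono' hE.measurableSet fun v hv => ?_)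
        (setLIntegral_le_lintegral E _)
      have hw' : r • v ∈ E := h1 r (by rw [norm_real, Real.norm_of_nonneg hr.1.le]; exact hr.2) v hv
      have hz : (x + r • v, v) ∈ Z := ⟨⟨hE' _ hw', trivial⟩,
        ((cmp _ hw').2.1 v).trans (mul_le_mul_of_nonneg_left (hs v hv) two_pos.le)⟩
      simp only [k, indicator_of_mem hz]
      rw [← ENNReal.ofReal_mul (by positivity)]
      refine ENNReal.ofReal_le_ofReal ?_
      rw [← mul_assoc]
      refine le_mul_of_one_le_left (Φ0 j _ (hK'D (hE' _ hw'))) ?_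
      rw [div_mul_eq_mul_div, le_div_iff₀ dx, one_mul]
      exact (cmp _ hw').1.2
  have fib : ∀ j y, ∫⁻ v, k j (y, v) ≤ D.indicator (fun y =>
      ENNReal.ofReal ((2 * σ) ^ Fintype.card τ * c0) * ENNReal.ofReal (Φ j y)) y := by
    intro j y
    by_cases hy : y ∈ K'
    · obtain ⟨S, hS, vS⟩ := frame (hp y (hK'D hy))
      have dy := det_pos (hp y (hK'D hy))
      have := Φ0 j y (hK'D hy)
      have mE : MeasurableSet {v : V τ | ‖S *ᵥ v‖ ≤ √(2 * σ)} :=
        (isClosed_le (by fun_prop) continuous_const).measurableSet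
      calc _ ≤ ∫⁻ v, {v : V τ | ‖S *ᵥ v‖ ≤ √(2 * σ)}.indicator
            (fun _ => ENNReal.ofReal ((H y).det.re * Φ j y)) v := lintegral_mono fun v => ?_
        _ = _ := by
          rw [lintegral_indicator_const mE, vS _ (Real.sqrt_nonneg _), hc0, pow_mul,
            Real.sq_sqrt (by positivity), indicator_of_mem (hK'D hy),
            ← ENNReal.ofReal_mul (by positivity), ← ENNReal.ofReal_mul (by positivity),
            ← ENNReal.ofReal_mul (by positivity)]
          congr 1
          field_simp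
      by_cases hz : (y, v) ∈ Z
      · have hv : v ∈ {v : V τ | ‖S *ᵥ v‖ ≤ √(2 * σ)} := by
          refine (pi_norm_le_iff_of_nonneg (Real.sqrt_nonneg _)).2 fun i => Real.le_sqrt_of_sq_le ?_
          refine le_trans ?_ (show nV (H y) v ≤ 2 * σ from hz.2)
          rw [hS]
          exact Finset.single_le_sum (f := fun i => ‖(S *ᵥ v) i‖ ^ 2) (fun _ _ => sq_nonneg _)
            (Finset.mem_univ i)
        simp only [k, indicator_of_mem hz, indicator_of_mem hv, le_refl]
      · simp only [k, indicator_of_notMem hz, zero_le]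
    · have : ∀ v, k j (y, v) = 0 := fun v => indicator_of_notMem (fun h => hy h.1.1) _
      simp [this]
  refine (sum_lint _ _ _).trans ((setLIntegral_mono' hK.measurableSet key).trans ?_)
  rw [lintegral_add_right _ (Finset.measurable_sum _ fun j _ => (swap3 (hk j)).1.const_mul _),
    lintegral_const_mul' _ _ ENNReal.ofReal_ne_top,
    lintegral_finsetSum _ fun j _ => (swap3 (hk j)).1.const_mul _, Finset.mul_sum]
  refine add_le_add (mul_le_mul' (le_of_eq ?_) (lintegral_mono_set hKO))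
    (Finset.sum_le_sum fun j _ => ?_)
  · congr 1
    rw [hP, div_pow]
    field_simp
  · rw [lintegral_const_mul' _ _ ENNReal.ofReal_ne_top]
    refine (mul_le_mul_right ((setLIntegral_le_lintegral _ _).trans ((swap3 (hk j)).2.le.trans
      (lintegral_mono (fib j)))) _).trans ?_
    rw [lintegral_indicator hD.measurableSet, ← lintegral_const_mul' _ _ ENNReal.ofReal_ne_top,
      ← lintegral_const_mul' _ _ ENNReal.ofReal_ne_top]
    refine setLIntegral_mono' hD.measurableSet fun y hy => ?_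
    rw [← ENNReal.ofReal_mul (by positivity), ← ENNReal.ofReal_mul (by positivity),
      ← ENNReal.ofReal_mul hκ.le]
    refine ENNReal.ofReal_le_ofReal ?_
    have e : n * (32 * σ * Real.exp Λ) * (2 / (P * c0)) *
        ((2 * σ) ^ Fintype.card τ * c0 * Φ j y) = Q * t * (Φ j y / b) := by
      rw [hQ, hσ, ← mul_assoc 2 n, mul_pow (2 * n), ← hP]
      field_simp
      ring
    rw [e]
    refine mul_le_mul t2 ?_ (div_nonneg (Φ0 j y hy) b0.le) hκ.le
    rw [add_mul, div_mul_eq_mul_div]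
    exact le_add_of_nonneg_left
      (mul_nonneg (nV_nonneg (hp y hy).posSemidef _) (Real.exp_pos _).le)

end Pool.Agent.Lib.MP_813db1_ag.HS
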