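import Pool.Agent.Lib.MP_813db1_ag.HS.Stmt

/-! The abstract low energy count. -/

namespace Pool.Agent.Lib.MP_813db1_ag.HS

open Complex Filter Topology Set

namespace EndAbs

variable {S : Type} [AddCommGroup S] [Module ℂ S]

lemma sc_re (p : S →ₗ[ℂ] S →ₗ⋆[ℂ] ℂ) (t : ℝ) (f : S) :
    (p ((t : ℂ) • f) ((t : ℂ) • f)).re = t ^ 2 * (p f f).re := by
  simp only [map_smul, LinearMap.map_smulₛₗ, LinearMap.smul_apply, smul_eq_mul, conj_ofReal]
  simp [sq, mul_assoc]

lemma pl_re (p : S →ₗ[ℂ] S →ₗ⋆[ℂ] ℂ) (h : ∀ f g, star (p f g) = p g f) (f g : S) :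
    (p (f + g) (f + g)).re = (p f f).re + 2 * (p f g).re + (p g g).re := by
  have e : (p g f).re = (p f g).re := by rw [← h f g]; simp
  simp only [map_add, LinearMap.add_apply, Complex.add_re, e]
  ring

lemma cs (p : S →ₗ[ℂ] S →ₗ⋆[ℂ] ℂ) (h : ∀ f g, star (p f g) = p g f) (h0 : ∀ f, 0 ≤ (p f f).re)
    (f g : S) : (p f g).re ^ 2 ≤ (p f f).re * (p g g).re := by
  have := discrim_le_zero (a := (p g g).re) (b := 2 * (p f g).re) (c := (p f f).re) fun t => by
    have e := h0 (f + (t : ℂ) • g)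
    rw [pl_re p h, sc_re] at e
    have e2 : (p f ((t : ℂ) • g)).re = t * (p f g).re := by
      simp only [LinearMap.map_smulₛₗ, smul_eq_mul, conj_ofReal]
      simp
    rw [e2] at e
    linarith
  rw [discrim] at this
  linarith

lemma orth_sum (p : S →ₗ[ℂ] S →ₗ⋆[ℂ] ℂ) {n : ℕ} (f : Fin n → S)
    (h : ∀ i j, p (f i) (f j) = if i = j then 1 else 0) (c : Fin n → ℂ) :
    (p (∑ j, c j • f j) (∑ j, c j • f j)).re = ∑ j, ‖c j‖ ^ 2 := by
  have e : p (∑ j, c j • f j) (∑ j, c j • f j) = ∑ j, ((‖c j‖ ^ 2 : ℝ) : ℂ) := by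
    simp only [map_sum, map_smul, LinearMap.map_smulₛₗ, LinearMap.sum_apply, LinearMap.smul_apply,
      smul_eq_mul, h, mul_ite, mul_one, mul_zero, Finset.sum_ite_eq', Finset.mem_univ, if_true]
    refine Finset.sum_congr rfl fun j _ => ?_
    rw [← Complex.normSq_eq_norm_sq, Complex.normSq_eq_conj_mul_self]
  rw [e, ← ofReal_sum, ofReal_re]

lemma gs [FiniteDimensional ℂ S] (p : S →ₗ[ℂ] S →ₗ⋆[ℂ] ℂ) (h : ∀ f g, star (p f g) = p g f)
    (h0 : ∀ f, f ≠ 0 → 0 < (p f f).re) :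
    ∃ e : Fin (Module.finrank ℂ S) → S, ∀ i j, p (e i) (e j) = if i = j then 1 else 0 := by
  let c : InnerProductSpace.Core ℂ S :=
    { inner := fun x y => p y x
      conj_inner_symm := fun x y => h x y
      re_inner_nonneg := fun x => by
        by_cases e : x = 0
        · simp [e]
        · exact (h0 x e).le
      add_left := fun x y z => by simp
      smul_left := fun x y r => by simp
      definite := fun x e => by
        by_contra e'
        have := h0 x e'
        rw [show p x x = 0 from e] at this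
        simp at this }
  let _ := c.toNormedAddCommGroup
  let _ := InnerProductSpace.ofCore c.toCore
  refine ⟨stdOrthonormalBasis ℂ S, fun i j => ?_⟩
  have := orthonormal_iff_ite.1 (stdOrthonormalBasis ℂ S).orthonormal j i
  rw [if_congr eq_comm rfl rfl] at this
  exact this

end EndAbs

open EndAbs

theorem endAbs : EndAbsS := by
  intro S _ _ p0 p1 B Ho N0 N1 θ f0 hθ s0 s1 n0 n1 hB hres hcnt ho hlow hlim
  by_cases hr : ((N0 - N1 : ℕ) : Cardinal) ≤ Module.rank ℂ Ho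
  · obtain ⟨s, hs⟩ := exists_linearIndependent_of_le_rank hr
    exact ⟨fun j => s j, fun j => (s j).2, hs.map' Ho.subtype Ho.ker_subtype⟩
  exfalso
  rw [not_le] at hr
  have : FiniteDimensional ℂ Ho := Module.rank_lt_aleph0_iff.1 (hr.trans Cardinal.natCast_lt_aleph0)
  rw [← Module.finrank_eq_rank, Nat.cast_lt] at hr
  let b := Module.finBasis ℂ Ho
  let F : (Fin N0 → ℂ) →ₗ[ℂ] S := Fintype.linearCombination ℂ f0
  let L : (Fin N0 → ℂ) →ₗ[ℂ] (Fin (Module.finrank ℂ Ho) → ℂ) :=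
    LinearMap.pi fun i => (p0.flip (b i)).comp F
  have hV : N1 < Module.finrank ℂ (LinearMap.ker L) := by
    have e1 := L.finrank_range_add_finrank_ker
    have e2 := (LinearMap.range L).finrank_le
    simp only [Module.finrank_fin_fun] at e1 e2
    omega
  have hO : ∀ c ∈ LinearMap.ker L, ∀ g ∈ Ho, p0 (F c) g = 0 := fun c hc g hg => by
    have e : (p0 (F c)).comp Ho.subtype = 0 := b.ext fun i => congrFun (LinearMap.mem_ker.1 hc) i
    exact LinearMap.congr_fun e ⟨g, hg⟩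
  have key : ∀ η ∈ Ioc (0 : ℝ) 1, ∃ c ∈ LinearMap.ker L, ∑ j, ‖c j‖ ^ 2 = 1 ∧ ∃ f,
      (η : ℂ) • f - B f = F c ∧ θ * (p1 f f).re ≤ (p0 (B f) (B f)).re := fun η hη => by
    choose f hf using hres η hη
    let R : (Fin N0 → ℂ) →ₗ[ℂ] S := Fintype.linearCombination ℂ f
    have hR : ∀ c, (η : ℂ) • R c - B (R c) = F c := fun c => by
      simp only [R, F, Fintype.linearCombination_apply, map_sum, map_smul, Finset.smul_sum,
        ← Finset.sum_sub_distrib, ← hf, smul_sub, smul_comm (η : ℂ)]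
    by_contra! hc
    have h1 : ∀ c ∈ LinearMap.ker L, c ≠ 0 →
        (p0 (B (R c)) (B (R c))).re < θ * (p1 (R c) (R c)).re := fun c hk h0 => by
      have hp : 0 < ∑ j, ‖c j‖ ^ 2 := by
        obtain ⟨j, hj⟩ := Function.ne_iff.1 h0
        exact Finset.sum_pos' (fun _ _ => by positivity)
          ⟨j, Finset.mem_univ _, pow_pos (norm_pos_iff.2 hj) 2⟩
      set a := ∑ j, ‖c j‖ ^ 2 with ha
      have ht : (√a)⁻¹ ^ 2 * a = 1 := by rw [inv_pow, Real.sq_sqrt hp.le, inv_mul_cancel₀ hp.ne']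
      have ht0 : 0 < (√a)⁻¹ ^ 2 := by have := Real.sqrt_pos.2 hp; positivity
      have := hc ((((√a)⁻¹ : ℝ) : ℂ) • c) (Submodule.smul_mem _ _ hk) (by
        rw [← ht, ha, Finset.mul_sum]
        refine Finset.sum_congr rfl fun j _ => ?_
        rw [Pi.smul_apply, norm_smul, mul_pow, Complex.norm_real, Real.norm_eq_abs, sq_abs]) _ (hR _)
      rw [map_smul, map_smul, sc_re, sc_re, mul_left_comm] at this
      exact lt_of_mul_lt_mul_left this ht0.le
    let T := R.comp (LinearMap.ker L).subtype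
    obtain ⟨e, he⟩ := gs (S := LinearMap.ker L) ((p1.comp T).flip.comp T).flip
      (fun x y => s1 _ _) fun x hx => by
        have := h1 x x.2 fun e => hx (Subtype.ext e)
        exact (mul_pos_iff_of_pos_left hθ).1 ((n0 _).trans_lt this)
    refine hV.not_ge (hcnt _ (fun i => T (e i)) he fun c => ?_)
    rw [← orth_sum p1 _ he c]
    have e1 : ∑ j, c j • T (e j) = R (∑ j, c j • e j : LinearMap.ker L) := by
      rw [show R (∑ j, c j • e j : LinearMap.ker L) = T (∑ j, c j • e j) from rfl, map_sum]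
      simp only [map_smul]
    rw [e1]
    by_cases h0 : ((∑ j, c j • e j : LinearMap.ker L) : Fin N0 → ℂ) = 0
    · rw [h0]; simp
    · exact (h1 _ (Subtype.prop _) h0).le
  have hη : ∀ k : ℕ, 1 / ((k : ℝ) + 1) ∈ Ioc (0 : ℝ) 1 := fun k =>
    ⟨by positivity, by rw [div_le_one (by positivity)]; linarith [(k.cast_nonneg : (0 : ℝ) ≤ k)]⟩
  choose c hc hu f hf hθf using fun k => key _ (hη k)
  have hF : ∀ k, F (c k) = ∑ j, c k j • f0 j := fun k => Fintype.linearCombination_apply ..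
  have u1 : ∀ k, (p0 (F (c k)) (F (c k))).re = 1 := fun k => by rw [hF, orth_sum p0 _ ho, hu]
  have hA : ∀ k, (p0 (B (f k)) (B (f k))).re ≤ 1 / 4 := fun k => by
    have e1 := hlow (c k)
    rw [← hF, hu, mul_one] at e1
    have e2 := cs p1 s1 n1 (f k) (F (c k))
    have e3 : (p0 (B (f k)) (B (f k))).re =
        (p1 (f k) (F (c k))).re - 1 / ((k : ℝ) + 1) * (p1 (f k) (f k)).re := by
      rw [hB, ← hf k, map_sub, LinearMap.map_smulₛₗ, conj_ofReal, smul_eq_mul, sub_re, re_ofReal_mul,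
        neg_re]
      ring
    have e4 := mul_nonneg (hη k).1.le (n1 (f k))
    have e5 := n0 (B (f k))
    have e6 := mul_le_mul_of_nonneg_left e1 (n1 (f k))
    have e7 := hθf k
    nlinarith
  have hg : ∀ k : ℕ, ((1 / ((k : ℝ) + 1) : ℝ) : ℂ) • f k = F (c k) + B (f k) := fun k =>
    sub_eq_iff_eq_add.1 (hf k)
  have hb : ∀ k, |(p0 (F (c k)) (B (f k))).re| ≤ 1 / 2 := fun k => by
    have e := cs p0 s0 n0 (F (c k)) (B (f k))
    rw [u1, one_mul] at e
    exact abs_le_of_sq_le_sq' (by linarith [hA k]) (by norm_num) |> abs_le.2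
  obtain ⟨g', hg', h⟩ := hlim (fun k => 1 / ((k : ℝ) + 1))
    (fun k => ((1 / ((k : ℝ) + 1) : ℝ) : ℂ) • f k) c hη hu
    (fun k => by rw [map_smul, ← smul_sub, hf, hF])
    (fun k => by
      rw [hg, pl_re p0 s0, u1]
      linarith [hA k, (abs_le.1 (hb k)).2]) (by
      have t0 : Tendsto (fun k : ℕ => (1 / ((k : ℝ) + 1)) ^ 2 * (1 / 4 / θ)) atTop (𝓝 0) := by
        simpa using ((tendsto_one_div_add_atTop_nhds_zero_nat (𝕜 := ℝ)).pow 2).mul_const (1 / 4 / θ)
      refine squeeze_zero (fun k => n1 _) (fun k => ?_) t0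
      rw [sc_re]
      refine mul_le_mul_of_nonneg_left ?_ (sq_nonneg _)
      rw [le_div_iff₀ hθ]
      linarith [hA k, hθf k])
  obtain ⟨k, hk⟩ := h (1 / 4) (by norm_num)
  have e := cs p0 s0 n0 (F (c k)) (((1 / ((k : ℝ) + 1) : ℝ) : ℂ) • f k - g')
  rw [u1, one_mul, map_sub (p0 (F (c k))), hO _ (hc k) _ hg', sub_zero] at e
  have e2 : (p0 (F (c k)) (((1 / ((k : ℝ) + 1) : ℝ) : ℂ) • f k)).re =
      1 + (p0 (F (c k)) (B (f k))).re := by rw [hg, map_add, Complex.add_re, u1]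
  rw [e2] at e
  nlinarith [(abs_le.1 (hb k)).1]

end Pool.Agent.Lib.MP_813db1_ag.HS
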