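import Pool.Agent.Lib.MP_813db1_ag.HS.Stmt

/-! Holomorphic gauge, comparability of metrics at nearby points, volumes of ellipsoids. -/

namespace Pool.Agent.Lib.MP_813db1_ag.HS.FG

open MeasureTheory Complex Matrix Filter Topology Set Metric
open scoped ContDiff ComplexOrder MatrixOrder

set_option linter.unusedSectionVars false

variable {τ : Type} [Fintype τ] [DecidableEq τ]

theorem two_le : (2 : WithTop ℕ∞) ≤ ∞ := by
  rw [show (2 : WithTop ℕ∞) = ((2 : ℕ∞) : WithTop ℕ∞) from rfl]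
  exact WithTop.coe_le_coe.2 le_top

theorem lin_exp {F : Type} [NormedAddCommGroup F] [NormedSpace ℝ F] (A : V τ →L[ℝ] F) (v : V τ) :
    A v = ∑ k, ((v k).re • A (Pi.single k 1) + (v k).im • A (Pi.single k I)) := by
  have : v = ∑ k, ((v k).re • (Pi.single k 1 : V τ) + (v k).im • (Pi.single k I : V τ)) := by
    ext j
    simp [Finset.sum_apply, Pi.single_apply, Finset.sum_add_distrib]
  conv_lhs => rw [this]
  simp only [map_sum, map_add, map_smul]

/-- the antilinear part of the derivative. -/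
theorem dbar_eq (f : V τ → ℂ) (z v : V τ) :
    fderiv ℝ f z v + I * fderiv ℝ f z (I • v) = 2 * ∑ k, star (v k) * dzb f k z := by
  rw [lin_exp _ v, lin_exp _ (I • v), Finset.mul_sum, Finset.mul_sum, ← Finset.sum_add_distrib]
  refine Finset.sum_congr rfl fun k _ => ?_
  simp only [dzb, Pi.smul_apply, smul_eq_mul, real_smul]
  apply Complex.ext <;> simp <;> ring

theorem levi_eq {ψ : V τ → ℝ} {x : V τ} (h : ContDiffAt ℝ ∞ ψ x) (i j : τ) :
    levi (fun w => (ψ w : ℂ)) x i j =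
      ((fderiv ℝ (fderiv ℝ ψ) x (Pi.single i 1) (Pi.single j 1) : ℂ) +
        fderiv ℝ (fderiv ℝ ψ) x (Pi.single i I) (Pi.single j I) +
        I * (fderiv ℝ (fderiv ℝ ψ) x (Pi.single i 1) (Pi.single j I) -
          fderiv ℝ (fderiv ℝ ψ) x (Pi.single i I) (Pi.single j 1))) / 4 := by
  have h2 : ContDiffAt ℝ 2 ψ x := h.of_le two_le
  have e : dzb (fun w => (ψ w : ℂ)) j =ᶠ[𝓝 x] fun w =>
      ((fderiv ℝ ψ w (Pi.single j 1) : ℂ) + I * fderiv ℝ ψ w (Pi.single j I)) / 2 := by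
    filter_upwards [h2.eventually (by simp)] with w hw
    have := (ofRealCLM.hasFDerivAt.comp w (hw.differentiableAt (by simp)).hasFDerivAt).fderiv
    simp only [dzb]
    erw [this]
    simp
  have hd : HasFDerivAt (fderiv ℝ ψ) (fderiv ℝ (fderiv ℝ ψ) x) x :=
    ((h2.fderiv_right (m := 1) (by norm_num)).differentiableAt (by simp)).hasFDerivAt
  have h1 := fun u : V τ => ofRealCLM.hasFDerivAt.comp x
    ((ContinuousLinearMap.apply ℝ ℝ u).hasFDerivAt.comp x hd)
  have h3 := ((((h1 (Pi.single j 1)).add ((h1 (Pi.single j I)).const_mul I))).mul_const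
    (2 : ℂ)⁻¹).fderiv
  simp only [levi, dz, of_apply, e.fderiv_eq]
  erw [h3]
  simp
  linear_combination (-(1 : ℂ) / 4 *
    (fderiv ℝ (fderiv ℝ ψ) x (Pi.single i I) (Pi.single j I) : ℝ)) * I_mul_I

theorem taylor {D K : Set (V τ)} {ψ : V τ → ℝ} (hD : IsOpen D) (hK : IsCompact K) (hKD : K ⊆ D)
    (hψ : ∀ y ∈ D, ContDiffAt ℝ ∞ ψ y) {η : ℝ} (hη : 0 < η) : ∃ δ > 0, ∀ x ∈ K, ∀ v, ‖v‖ ≤ δ →
      |ψ (x + v) - ψ x - fderiv ℝ ψ x v - fderiv ℝ (fderiv ℝ ψ) x v v / 2| ≤ η * ‖v‖ ^ 2 := by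
  obtain ⟨δ0, d0, h0⟩ := hK.exists_cthickening_subset_open hD hKD
  have h2 : ∀ y ∈ D, ContDiffAt ℝ 2 ψ y := fun y hy => (hψ y hy).of_le two_le
  have h1 : ∀ y ∈ D, ContDiffAt ℝ 1 (fderiv ℝ ψ) y := fun y hy =>
    (h2 y hy).fderiv_right (m := 1) (by norm_num)
  have hc : ContinuousOn (fderiv ℝ (fderiv ℝ ψ)) (cthickening δ0 K) := fun y hy =>
    ((h1 y (h0 hy)).fderiv_right (m := 0) (by norm_num)).continuousAt.continuousWithinAt
  have hu' : UniformContinuousOn (fderiv ℝ (fderiv ℝ ψ)) (cthickening δ0 K) :=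
    hK.cthickening.uniformContinuousOn_of_continuous hc
  obtain ⟨δ1, d1, hu⟩ := (Metric.uniformContinuousOn_iff_le (β := V τ →L[ℝ] V τ →L[ℝ] ℝ)).1 hu' η hη
  refine ⟨min δ0 δ1, lt_min d0 d1, fun x hx v hv => ?_⟩
  have mem : ∀ w : V τ, ‖w‖ ≤ ‖v‖ → x + w ∈ cthickening δ0 K := fun w hw =>
    mem_cthickening_of_dist_le _ x _ _ hx (by simpa using hw.trans (hv.trans (min_le_left _ _)))
  set A := fderiv ℝ ψ x
  set B := fderiv ℝ (fderiv ℝ ψ) x
  have hx0 := mem 0 (by simp)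
  rw [add_zero] at hx0
  have sh : ∀ w : V τ, HasFDerivAt (fun u : V τ => x + u) (ContinuousLinearMap.id ℝ _) w :=
    fun w => (hasFDerivAt_id w).const_add x
  have F1 : ∀ w ∈ closedBall (0 : V τ) ‖v‖, ‖fderiv ℝ ψ (x + w) - A - B w‖ ≤ η * ‖v‖ := by
    intro w hw
    have := (convex_closedBall (0 : V τ) ‖v‖).norm_image_sub_le_of_norm_hasFDerivWithin_le
      (f := fun u => fderiv ℝ ψ (x + u) - B u) (f' := fun u => fderiv ℝ (fderiv ℝ ψ) (x + u) - B)
      (C := η) (fun u hu => ?_) (fun u hu' => ?_) (mem_closedBall_self (norm_nonneg v)) hw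
    · rw [mem_closedBall_zero_iff] at hw
      simp only [add_zero, map_zero, sub_zero] at this
      rw [sub_right_comm]
      exact this.trans (mul_le_mul_of_nonneg_left hw hη.le)
    · have := ((h1 _ (h0 (mem u (mem_closedBall_zero_iff.1 hu)))).differentiableAt
        (by simp)).hasFDerivAt.comp u (sh u)
      exact (this.sub B.hasFDerivAt).hasFDerivWithinAt
    · rw [mem_closedBall_zero_iff] at hu'
      rw [← dist_eq_norm]
      exact hu _ (mem u hu') _ hx0 (by simpa using hu'.trans (hv.trans (min_le_right _ _)))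
  have sy := (h2 x (hKD hx)).isSymmSndFDerivAt (by simp)
  have := (convex_closedBall (0 : V τ) ‖v‖).norm_image_sub_le_of_norm_hasFDerivWithin_le
    (f := fun u => ψ (x + u) - A u - B u u * 2⁻¹) (f' := fun u => fderiv ℝ ψ (x + u) - A - B u)
    (fun u hu => ?_) F1 (mem_closedBall_self (norm_nonneg v)) (mem_closedBall_zero_iff.2 le_rfl)
  · simp only [add_zero, map_zero, sub_zero, zero_mul, Real.norm_eq_abs] at this
    rw [show η * ‖v‖ ^ 2 = η * ‖v‖ * ‖v‖ by ring]
    convert this using 2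
    ring
  · have a1 := ((h2 _ (h0 (mem u (mem_closedBall_zero_iff.1 hu)))).differentiableAt
      (by simp)).hasFDerivAt.comp u (sh u)
    have a2 := (B.hasFDerivAt (x := u).clm_apply (hasFDerivAt_id u)).mul_const (2 : ℝ)⁻¹
    refine (((a1.sub A.hasFDerivAt).sub a2).congr_fderiv ?_).hasFDerivWithinAt
    ext w
    have := sy.eq u w
    simp only [B] at this ⊢
    simp [this]
    ring

/-- the holomorphic gauge. -/
theorem gauge {D K : Set (V τ)} {ψ : V τ → ℝ} (hD : IsOpen D) (hK : IsCompact K) (hKD : K ⊆ D)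
    (hψ : ∀ y ∈ D, ContDiffAt ℝ ∞ ψ y) {η : ℝ} (hη : 0 < η) : ∃ δ > 0, ∀ x ∈ K,
      ∃ q : V τ → ℂ, ContDiff ℂ ∞ q ∧ 2 * (q 0).re = ψ x ∧ ∀ v, ‖v‖ ≤ δ →
        |ψ (x + v) - 2 * (q v).re - nV (levi (fun w => (ψ w : ℂ)) x) v| ≤ η * ‖v‖ ^ 2 := by
  obtain ⟨δ, d0, h⟩ := taylor hD hK hKD hψ hη
  refine ⟨δ, d0, fun x hx => ?_⟩
  have hl := levi_eq (hψ x (hKD hx))
  set A := fderiv ℝ ψ x
  set B := fderiv ℝ (fderiv ℝ ψ) x
  refine ⟨fun v => (ψ x : ℂ) / 2 +
    ∑ k, ((A (Pi.single k 1) : ℂ) - I * A (Pi.single k I)) / 2 * v k +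
    ∑ j, ∑ k, ((B (Pi.single j 1) (Pi.single k 1) : ℂ) - B (Pi.single j I) (Pi.single k I) -
      I * (B (Pi.single j 1) (Pi.single k I) + B (Pi.single j I) (Pi.single k 1))) / 8 *
        (v j * v k), by fun_prop, by simp; ring, fun v hv => ?_⟩
  convert h x hx v hv using 2
  have e1 : A v = 2 * (∑ k, ((A (Pi.single k 1) : ℂ) - I * A (Pi.single k I)) / 2 * v k).re := by
    rw [lin_exp A v, re_sum, Finset.mul_sum]
    refine Finset.sum_congr rfl fun k _ => ?_
    simp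
    ring
  have e2 : B v v / 2 = 2 * (∑ j, ∑ k, ((B (Pi.single j 1) (Pi.single k 1) : ℂ) -
      B (Pi.single j I) (Pi.single k I) -
      I * (B (Pi.single j 1) (Pi.single k I) + B (Pi.single j I) (Pi.single k 1))) / 8 *
        (v j * v k)).re + nV (levi (fun w => (ψ w : ℂ)) x) v := by
    rw [lin_exp B v]
    simp only [nV, ipV, re_sum, Finset.mul_sum, ← Finset.sum_add_distrib, _root_.sum_apply,
      _root_.add_apply, _root_.smul_apply, Finset.sum_div]
    refine Finset.sum_congr rfl fun j _ => ?_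
    rw [lin_exp (B (Pi.single j 1)) v, lin_exp (B (Pi.single j I)) v]
    simp only [smul_eq_mul, Finset.mul_sum, ← Finset.sum_add_distrib, Finset.sum_div]
    refine Finset.sum_congr rfl fun k _ => ?_
    rw [hl]
    simp
    ring
  rw [e1, e2]
  simp only [add_re, div_ofNat_re, ofReal_re]
  ring

theorem nV_eq (H : Mat τ) (v : V τ) : nV H v = (star (star v) ⬝ᵥ H *ᵥ star v).re := by
  simp only [nV, ipV, star_star, dotProduct, mulVec, Finset.mul_sum, Pi.star_apply]
  congr 1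
  exact Finset.sum_congr rfl fun i _ => Finset.sum_congr rfl fun j _ => by ring

theorem nV_smul (H : Mat τ) (c : ℂ) (v : V τ) : nV H (c • v) = ‖c‖ ^ 2 * nV H v := by
  have : ipV H (c • v) (c • v) = ((‖c‖ ^ 2 : ℝ) : ℂ) * ipV H v v := by
    simp only [ipV, Finset.mul_sum, Pi.smul_apply, smul_eq_mul, star_mul']
    refine Finset.sum_congr rfl fun i _ => Finset.sum_congr rfl fun j _ => ?_
    rw [ofReal_pow, ← mul_conj' c]
    simp only [RCLike.star_def]
    ring
  rw [nV, this, re_ofReal_mul, nV]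

theorem nV_lin (a b : ℝ) (H B : Mat τ) (v : V τ) :
    nV ((a : ℂ) • H + (b : ℂ) • B) v = a * nV H v + b * nV B v := by
  simp only [nV, ← re_ofReal_mul, ← add_re, ipV, Finset.mul_sum, ← Finset.sum_add_distrib]
  congr 1
  refine Finset.sum_congr rfl fun i _ => Finset.sum_congr rfl fun j _ => ?_
  simp only [Matrix.add_apply, Matrix.smul_apply, smul_eq_mul]
  ring

theorem nV_nonneg {H : Mat τ} (h : H.PosSemidef) (v : V τ) : 0 ≤ nV H v := by
  rw [nV_eq]; exact h.re_dotProduct_nonneg _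

theorem nV_pos {H : Mat τ} (h : H.PosDef) {v : V τ} (hv : v ≠ 0) : 0 < nV H v := by
  rw [nV_eq]; exact h.re_dotProduct_pos (star_ne_zero.2 hv)

theorem nV_sub_le {H H' : Mat τ} {ω' : ℝ} (h : ∀ i j, ‖H i j - H' i j‖ ≤ ω') (v : V τ) :
    nV H v ≤ nV H' v + (Fintype.card τ : ℝ) ^ 2 * ω' * ‖v‖ ^ 2 := by
  rw [← sub_le_iff_le_add', nV, nV, ← sub_re, ipV, ipV, ← Finset.sum_sub_distrib]
  refine (re_le_norm _).trans ((norm_sum_le _ _).trans ?_)
  refine (Finset.sum_le_card_nsmul _ _ ((Fintype.card τ : ℝ) * (ω' * ‖v‖ ^ 2))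
    fun i _ => ?_).trans (le_of_eq (by simp; ring))
  rw [← Finset.sum_sub_distrib]
  refine (norm_sum_le _ _).trans ((Finset.sum_le_card_nsmul _ _ (ω' * ‖v‖ ^ 2)
    fun j _ => ?_).trans (le_of_eq (by simp)))
  rw [← sub_mul, ← sub_mul, norm_mul, norm_mul, norm_star, mul_assoc, sq]
  exact mul_le_mul (h i j) (mul_le_mul (norm_le_pi_norm v i) (norm_le_pi_norm v j)
    (norm_nonneg _) (norm_nonneg _)) (by positivity) ((norm_nonneg _).trans (h i j))

theorem det_pos {H : Mat τ} (h : H.PosDef) : 0 < H.det.re := (pos_iff.1 h.det_pos).1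

theorem cont_det {D : Set (V τ)} {H : V τ → Mat τ} (hH : SmM H D) :
    ContinuousOn (fun y => (H y).det.re) D := by
  have : ContinuousOn H D := continuousOn_pi.2 fun i => continuousOn_pi.2 fun j y hy =>
    (hH y hy i j).continuousAt.continuousWithinAt
  exact continuous_re.comp_continuousOn ((continuous_id.matrix_det).comp_continuousOn this)

theorem cont_nV {D : Set (V τ)} {H : V τ → Mat τ} (hH : SmM H D) :
    ContinuousOn (fun p : V τ × V τ => nV (H p.1) p.2) (D ×ˢ univ) := by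
  refine continuous_re.comp_continuousOn (continuousOn_finsetSum _ fun i _ =>
    continuousOn_finsetSum _ fun j _ => (ContinuousOn.mul ?_ (by fun_prop)).mul (by fun_prop))
  exact fun p hp => ((hH _ hp.1 i j).continuousAt.comp continuousAt_fst).continuousWithinAt

/-- comparability of the metric at nearby points. -/
theorem near {D K : Set (V τ)} {H : V τ → Mat τ} (hD : IsOpen D) (hK : IsCompact K) (hKD : K ⊆ D)
    (hH : SmM H D) (hp : ∀ y ∈ D, (H y).PosDef) : ∃ δ > 0, ∃ c > 0, ∃ K', IsCompact K' ∧ K' ⊆ D ∧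
      (∀ x ∈ K, ∀ v, ‖v‖ ≤ δ → x + v ∈ K') ∧ (∀ y ∈ K', ∀ v, c * ‖v‖ ^ 2 ≤ nV (H y) v) ∧
      ∀ y ∈ K', ∀ y' ∈ K', ‖y - y'‖ ≤ δ →
        (∀ v, nV (H y) v ≤ 2 * nV (H y') v) ∧ (H y).det.re ≤ 2 * (H y').det.re := by
  obtain ⟨δ0, d0, h0⟩ := hK.exists_cthickening_subset_open hD hKD
  have hK' : IsCompact (cthickening δ0 K) := hK.cthickening
  obtain ⟨c, c0, hc⟩ := (hK'.prod (isCompact_sphere (0 : V τ) 1)).exists_forall_le'
    ((cont_nV hH).mono (prod_mono h0 (subset_univ _))) (a := 0) fun p hp' =>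
      nV_pos (hp _ (h0 hp'.1)) (ne_zero_of_mem_unit_sphere ⟨p.2, hp'.2⟩)
  have hc' : ∀ y ∈ cthickening δ0 K, ∀ v, c * ‖v‖ ^ 2 ≤ nV (H y) v := by
    intro y hy v
    rcases eq_or_ne v 0 with rfl | hv
    · simpa using nV_nonneg (hp y (h0 hy)).posSemidef 0
    · have n0 : 0 < ‖v‖ := norm_pos_iff.2 hv
      have := hc (y, ((‖v‖⁻¹ : ℝ) : ℂ) • v) ⟨hy, by simp [norm_smul, n0.ne']⟩
      simp only [nV_smul, norm_real, norm_inv, norm_norm] at this
      rwa [inv_pow, ← div_eq_inv_mul, le_div_iff₀ (by positivity)] at this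
  obtain ⟨m, m0, hm⟩ := hK'.exists_forall_le' ((cont_det hH).mono h0) (a := 0)
    fun y hy => det_pos (hp y (h0 hy))
  obtain ⟨δ1, d1, h1⟩ := Metric.uniformContinuousOn_iff_le.1
    (hK'.uniformContinuousOn_of_continuous ((cont_det hH).mono h0)) m m0
  have hf : ContinuousOn (fun y (p : τ × τ) => H y p.1 p.2) (cthickening δ0 K) :=
    continuousOn_pi.2 fun p y hy => (hH y (h0 hy) _ _).continuousAt.continuousWithinAt
  obtain ⟨δ2, d2, h2⟩ := Metric.uniformContinuousOn_iff_le.1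
    (hK'.uniformContinuousOn_of_continuous hf) (c / ((Fintype.card τ : ℝ) ^ 2 + 1)) (by positivity)
  refine ⟨min δ0 (min δ1 δ2), by positivity, c, c0, _, hK', h0, fun x hx v hv =>
    mem_cthickening_of_dist_le _ x _ _ hx (by simpa using hv.trans (min_le_left _ _)), hc',
    fun y hy y' hy' hd => ⟨fun v => ?_, ?_⟩⟩
  · have a1 := h2 y hy y' hy' (by
      rw [dist_eq_norm]; exact hd.trans ((min_le_right _ _).trans (min_le_right _ _)))
    have a2 := nV_sub_le (H := H y) (H' := H y') (fun i j => by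
      rw [← dist_eq_norm]; exact (dist_le_pi_dist _ _ (i, j)).trans a1) v
    have a3 : (Fintype.card τ : ℝ) ^ 2 * (c / ((Fintype.card τ : ℝ) ^ 2 + 1)) ≤ c := by
      rw [← mul_div_assoc, div_le_iff₀ (by positivity)]; nlinarith
    have := hc' y' hy' v
    nlinarith [sq_nonneg ‖v‖]
  · have a1 := h1 y hy y' hy' (by
      rw [dist_eq_norm]; exact hd.trans ((min_le_right _ _).trans (min_le_left _ _)))
    have := hm y' hy'
    rw [Real.dist_eq] at a1
    linarith [(abs_le.1 a1).2]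

/-- a unitary frame. -/
theorem frame {H : Mat τ} (h : H.PosDef) : ∃ S : Mat τ,
    (∀ a, nV H a = ∑ i, ‖(S *ᵥ a) i‖ ^ 2) ∧ ∀ s : ℝ, 0 ≤ s → volume {v : V τ | ‖S *ᵥ v‖ ≤ s} =
      ENNReal.ofReal (s ^ (2 * Fintype.card τ) / H.det.re) * volume (ball (0 : V τ) 1) := by
  obtain ⟨S, hS⟩ := CStarAlgebra.nonneg_iff_eq_star_mul_self.mp h.posSemidef.transpose.nonneg
  have hd : H.det.re = normSq S.det := by
    rw [← det_transpose, hS, det_mul, star_eq_conjTranspose, det_conjTranspose, mul_comm]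
    simp [mul_conj]
  refine ⟨S, fun a => ?_, fun s hs => ?_⟩
  · have : ipV H a a = star (S *ᵥ a) ⬝ᵥ S *ᵥ a := by
      rw [star_mulVec, ← dotProduct_mulVec, mulVec_mulVec, ← star_eq_conjTranspose, ← hS]
      simp only [ipV, dotProduct, mulVec, transpose_apply, Finset.mul_sum, Pi.star_apply]
      rw [Finset.sum_comm]
      exact Finset.sum_congr rfl fun i _ => Finset.sum_congr rfl fun j _ => by ring
    rw [nV, this, dotProduct, re_sum]
    refine Finset.sum_congr rfl fun i _ => ?_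
    rw [Pi.star_apply, RCLike.star_def, mul_comm, mul_conj', ← ofReal_pow, ofReal_re]
  · have e : LinearMap.det ((Matrix.toLin' S).restrictScalars ℝ) = H.det.re := by
      rw [LinearMap.det_restrictScalars, LinearMap.det_toLin', Algebra.norm_complex_apply, hd]
    have p := det_pos h
    have := Measure.addHaar_preimage_linearMap (volume : Measure (V τ))
      (f := (Matrix.toLin' S).restrictScalars ℝ) (by rw [e]; exact p.ne') (closedBall 0 s)
    rw [Measure.addHaar_closedBall _ _ hs, e, abs_of_pos (inv_pos.2 p), ← mul_assoc,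
      ← ENNReal.ofReal_mul (inv_pos.2 p).le, Module.finrank_pi_fintype] at this
    rw [div_eq_inv_mul]
    convert this using 4
    · ext v; simp
    · simp [mul_comm]

/-- Cauchy-Schwarz for the antiholomorphic derivative. -/
theorem nV_dbar (hM : MatS) {H : V τ → Mat τ} {y : V τ} (h : (H y).PosDef) (U : V τ → V τ)
    (v : V τ) : nV (H y) (fun i => ∑ k, star (v k) * dzb (fun w => U w i) k y) ≤
      nV (H y) v * nD H U y ∧ 0 ≤ nD H U y := by
  let W : Mat τ := Matrix.of fun l j => star (dzb (fun w => U w j) l y)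
  have hB : (W * (H y)ᵀ * Wᴴ).PosSemidef := h.posSemidef.transpose.mul_mul_conjTranspose_same W
  have eB : ∀ l k, (W * (H y)ᵀ * Wᴴ) l k = ∑ i, ∑ j, H y i j * dzb (fun w => U w i) k y *
      star (dzb (fun w => U w j) l y) := by
    intro l k
    simp only [W, mul_apply, transpose_apply, conjTranspose_apply, of_apply, star_star,
      Finset.sum_mul]
    exact Finset.sum_congr rfl fun i _ => Finset.sum_congr rfl fun j _ => by ring
  have e1 : trm (H y) (W * (H y)ᵀ * Wᴴ) = nD H U y := by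
    rw [trm, nD, trace_mul_comm]
    congr 1
    simp only [trace, diag, mul_apply (M := (H y)⁻¹), eB, Finset.mul_sum]
    simp only [mul_assoc]
  have e2 : nV (W * (H y)ᵀ * Wᴴ) v =
      nV (H y) (fun i => ∑ k, star (v k) * dzb (fun w => U w i) k y) := by
    simp only [nV, ipV, eB, Finset.sum_mul, Finset.mul_sum, star_sum, star_mul', star_star]
    congr 1
    rw [Finset.sum_comm]
    simp only [← Finset.sum_product', Finset.univ_product_univ]
    refine Fintype.sum_equiv ⟨fun p => (p.2.2.1, p.2.2.2, p.2.1, p.1),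
      fun p => (p.2.2.2, p.2.2.1, p.1, p.2.1), fun _ => rfl, fun _ => rfl⟩ _ _ fun p => ?_
    simp only [Equiv.coe_fn_mk]
    ring
  have a1 := nV_nonneg (hM.le_trm τ _ _ h hB) v
  have a2 := nV_lin (trm (H y) (W * (H y)ᵀ * Wᴴ)) (-1) (H y) (W * (H y)ᵀ * Wᴴ) v
  rw [ofReal_neg, ofReal_one, neg_smul, one_smul, ← sub_eq_add_neg] at a2
  rw [← e2, ← e1]
  exact ⟨by linarith, hM.trm_nonneg τ _ _ h hB⟩

end Pool.Agent.Lib.MP_813db1_ag.HS.FG
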