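import Pool.Agent.Lib.MP_813db1_ag.HS.AY0
import Pool.Agent.Lib.MP_813db1_ag.HS.Green
import Pool.Agent.Lib.MP_813db1_ag.HS.RepB1
import Pool.Agent.Lib.MP_813db1_ag.HS.FGauge
import Pool.Agent.Lib.MP_caab05_ag.GB.Osg

/-! Limits of almost holomorphic sections. -/

namespace Pool.Agent.Lib.MP_813db1_ag.HS

open MeasureTheory Complex Matrix Filter Topology Set Metric
open scoped ContDiff ComplexOrder

namespace Comp

variable {ι X : Type} [Fintype ι] [DecidableEq ι] [TopologicalSpace X] {M : Atl ι X}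

omit [DecidableEq ι] in
/-- convergence of integrals whose integrands converge uniformly in the charts. -/
theorem conv [CompactSpace X] [MeasurableSpace X] [BorelSpace X] {μ : Measure X}
    [IsFiniteMeasure μ] (C : Cov M) {𝒰 : Filter ℕ} {J : ℕ → X → ℂ} {J' : X → ℂ}
    (hJ : ∀ k, Continuous (J k)) (hJ' : Continuous J') {E : Type} [NormedAddCommGroup E]
    (Φ : Fin C.n → V ι × E → ℂ) (p : Fin C.n → ℕ → V ι → E) (p' : Fin C.n → V ι → E)
    (h1 : ∀ b, ∀ z ∈ ball (0 : V ι) (2 * C.r b), ∀ q, ContinuousAt (Φ b) (z, q))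
    (h2 : ∀ b, ∀ z ∈ ball (0 : V ι) (2 * C.r b), ContinuousAt (p' b) z)
    (h3 : ∀ b, ∀ δ > 0, ∀ᶠ k in 𝒰, ∀ z ∈ closedBall (0 : V ι) (C.r b), ‖p b k z - p' b z‖ ≤ δ)
    (h4 : ∀ b, ∀ x ∈ (C.e b).source, (∀ k, J k x = Φ b (C.e b x, p b k (C.e b x))) ∧
      J' x = Φ b (C.e b x, p' b (C.e b x))) :
    Tendsto (fun k => ∫ x, J k x ∂μ) 𝒰 (𝓝 (∫ x, J' x ∂μ)) := by
  refine Metric.tendsto_nhds.2 fun ε hε => ?_
  have m0 : 0 < μ.real univ + 1 := by positivity
  have e0 := div_pos hε m0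
  have key : ∀ b, ∀ᶠ k in 𝒰, ∀ z ∈ closedBall (0 : V ι) (C.r b),
      dist (Φ b (z, p b k z)) (Φ b (z, p' b z)) < ε / (μ.real univ + 1) := fun b => by
    have s := closedBall_subset_ball (x := (0 : V ι)) (lt_two_mul_self (C.pos b))
    have k1 := (isCompact_closedBall (0 : V ι) (C.r b)).eventually_forall_of_forall_eventually
      (x₀ := (0 : E))
      (P := fun q z => dist (Φ b (z, p' b z + q)) (Φ b (z, p' b z)) < ε / (μ.real univ + 1))
      fun z hz => by
        have c1 : ContinuousAt (fun y : E × V ι => p' b y.2) (0, z) :=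
          (h2 b z (s hz)).comp_of_eq continuousAt_snd rfl
        have c2 := ((h1 b z (s hz) _).comp_of_eq
          (continuousAt_snd.prodMk (c1.add continuousAt_fst)) rfl).dist
          ((h1 b z (s hz) _).comp_of_eq (continuousAt_snd.prodMk c1) rfl)
        exact c2.eventually_lt continuousAt_const (by simpa using e0)
    obtain ⟨δ, d0, k2⟩ := Metric.eventually_nhds_iff.1 k1
    filter_upwards [h3 b (δ / 2) (half_pos d0)] with k hk z hz
    simpa using k2 (y := p b k z - p' b z)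
      (by rw [dist_zero_right]; linarith [hk z hz]) z hz
  filter_upwards [eventually_all.2 key] with k hk
  rw [dist_eq_norm, ← integral_sub (Green.intg (hJ k)) (Green.intg hJ')]
  refine (norm_integral_le_of_norm_le_const (C := ε / (μ.real univ + 1))
    (Eventually.of_forall fun x => ?_)).trans_lt ?_
  · obtain ⟨b, h5, h6⟩ := C.cover x
    rw [(h4 b x h5).1, (h4 b x h5).2, ← dist_eq_norm]
    exact (hk b _ (mem_closedBall_zero_iff.2 h6.le)).le
  · rw [div_mul_eq_mul_div, div_lt_iff₀ m0]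
    linarith

variable (hA : RepA' M) (hB : RepB' M) (hm : MatS) {a : ℕ} {g h : X → Mat ι} {σ : X → ℂ}
  {e e' : Ch ι X} {x : X}

include hA

theorem fd_loc (he : e ∈ M.A) (he' : e' ∈ M.A) (hx : x ∈ e.source) (hx' : x ∈ e'.source)
    (hσ : DifferentiableAt ℝ (M.rep a σ e') (e' x)) (v : V ι) :
    fderiv ℝ (M.rep a σ e) (e x) v = (jac (e' ∘ e.symm) (e x)).det ^ a *
      fderiv ℝ (M.rep a σ e') (e' x) (fderiv ℝ (e' ∘ e.symm) (e x) v) + M.rep a σ e' (e' x) *
        fderiv ℝ (fun w => (jac (e' ∘ e.symm) w).det ^ a) (e x) v := by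
  have an := M.hol e he e' he' x hx hx'
  have d1 := (RepB.an_sm (n := 1) an).differentiableAt one_ne_zero
  have d2 := (RepB.an_sm (n := 1) ((RepB.an_det an).fun_pow a)).differentiableAt one_ne_zero
  rw [← RepB.tr_pt (e' := e') hx] at hσ ⊢
  rw [EventuallyEq.fderiv_eq (RepB.rep_ev hA a σ he he' hx hx')]
  exact congrArg (· v) (d2.hasFDerivAt.fun_mul (hσ.hasFDerivAt.comp _ d1.hasFDerivAt)).fderiv

include hm

theorem ip0_rep (he : e ∈ M.A) (hx : x ∈ e.source) : σ x * star (σ x) * (wt a g h x : ℂ) =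
    M.rep a σ e (e x) * star (M.rep a σ e (e x)) *
      (Green.wtL a (M.repF g e) (M.repF h e) (e x) : ℂ) := by
  rw [rep_at σ hx, ← Green.wtL_rep' hA hm a g h he hx, star_mul']
  ring

include hB

theorem ip1_rep (he : e ∈ M.A) (hx : x ∈ e.source) (hσ : M.CkS 1 a σ) :
    ipV (h x) (M.shpX a h σ x) (M.shpX a h σ x) * (wt a g h x : ℂ) =
      ipV (M.repF h e (e x)) (shp (M.repF h e) (M.rep a σ e) (e x))
        (shp (M.repF h e) (M.rep a σ e) (e x)) *
        (Green.wtL a (M.repF g e) (M.repF h e) (e x) : ℂ) := by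
  rw [repF_at h hx, (hm.pull_pd ι _ (h x) (Green.tj_ne hA he hx)).2.2.2.2.2.2,
    hB.shp_rep a h σ e he x hx ((hσ e he _ (e.map_source hx)).differentiableAt one_ne_zero),
    Green.ipV_smul, ← Green.wtL_rep' hA hm a g h he hx]
  ring

/-- sections without energy are holomorphic. -/
theorem hol [CompactSpace X] [MeasurableSpace X] [BorelSpace X] {μ : Measure X}
    [IsFiniteMeasure μ] [μ.IsOpenPosMeasure] (hg : M.IsK g) (hh : M.IsK h) (hσ : M.CkS 1 a σ)
    (h0 : (M.ip1 μ a g h σ σ).re = 0) : M.HolS a σ := by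
  have c := Green.cont1 hA hB hm hg hh hσ hσ fun e he => (hh e he).1.1
  have w0 : ∀ x, 0 < wt a g h x := fun x => div_pos (div_pos (Green.det_pos (Green.pd hA hh x))
    (Green.det_pos (Green.pd hA hg x))) (pow_pos (Green.det_pos (Green.pd hA hh x)) a)
  have c' : Continuous fun x => nV (h x) (M.shpX a h σ x) * wt a g h x :=
    (continuous_re.comp c).congr fun x => re_mul_ofReal _ _
  have z := (integral_eq_zero_iff_of_nonneg (fun x => mul_nonneg
    (FG.nV_nonneg (Green.pd hA hh x).posSemidef _) (w0 x).le)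
    (c'.integrable_of_hasCompactSupport (HasCompactSupport.of_compactSpace _))).1
    ((integral_congr_ae (Eventually.of_forall fun x => (re_mul_ofReal _ _).symm)).trans
      ((reCLM.integral_comp_comm (Green.intg c)).trans h0))
  rw [c'.ae_eq_iff_eq μ continuous_zero] at z
  refine hA.holS_loc a σ fun x => ⟨_, M.ch_mem x, M.mem x, differentiableAt_of_dzb
    ((ckS_at hσ x).differentiableAt one_ne_zero) fun k => ?_⟩
  have s0 : shp (M.repF h (M.ch x)) (M.rep a σ (M.ch x)) (M.ch x x) = 0 := by_contra fun ne =>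
    (mul_pos (FG.nV_pos (Green.pd hA hh x) ne) (w0 x)).ne' (congrFun z x)
  have hp := (hh _ (M.ch_mem x)).2 _ ((M.ch x).map_source (M.mem x))
  have := Green.ipV_shp (T := M.rep a σ (M.ch x)) hp.1 (Green.det_ne hp) (Pi.single k 1)
  rw [s0] at this
  simpa [ipV, Pi.single_apply] using this.symm

end Comp

theorem comp (hA : RepA) (hB : RepB) (hm : MatS) (hc : CauS) (hv : VolS) : CompS := by
  intro ι X _ _ _ _ _ _ _ M g h μ C a B σ hg hh hμ hσ h1
  replace hA := hA ι X M
  replace hB := hB ι X M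
  have := ((hv ι X M g hg).2 μ hμ).fin
  have := ((hv ι X M g hg).2 μ hμ).pos
  have ex : ∀ x, ∃ s, Tendsto (fun k => σ k x) (hyperfilter ℕ) (𝓝 s) := fun x => by
    obtain ⟨c, -, k⟩ := Cov.SH.bound hA C a x
    obtain ⟨s, -, hs⟩ := (isCompact_closedBall (0 : ℂ) (c * B)).ultrafilter_le_nhds
      ((hyperfilter ℕ).map fun k => σ k x) (le_principal_iff.2 (mem_map.2
        (Eventually.of_forall fun j => mem_closedBall_zero_iff.2 (k _ _ (hσ j).sh))))
    exact ⟨s, hs⟩
  choose τ hτ using ex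
  have pt : ∀ e z, Tendsto (fun k => M.rep a (σ k) e z) (hyperfilter ℕ) (𝓝 (M.rep a τ e z)) :=
    fun e z => (hτ _).const_mul _
  have ul := fun b => hc.ultra ι _ (fun k => M.rep a (σ k) (C.e b)) (M.rep a τ (C.e b)) B
    (hyperfilter ℕ) isOpen_ball (fun k => hσ k b) fun z _ => pt _ z
  have un := fun b => (ul b).2 _ (isCompact_closedBall 0 (C.r b))
    (closedBall_subset_ball (lt_two_mul_self (C.pos b)))
  have t1 : M.CkS 1 a τ := hA.ckS_loc 1 a τ fun x => by
    obtain ⟨b, h2, h3⟩ := C.cover2 x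
    exact ⟨_, C.mem b, h2, (ul b).1 _ h3⟩
  have s1 : ∀ k, M.CkS 1 a (σ k) := fun k e he z hz => ((hσ k).ckS hA e he z hz).of_le one_le_two
  have cw : ∀ {E : Type} [TopologicalSpace E] b, ∀ z ∈ ball (0 : V ι) (2 * C.r b), ∀ q : E,
      ContinuousAt (fun y : V ι × E =>
        (Green.wtL a (M.repF g (C.e b)) (M.repF h (C.e b)) y.1 : ℂ)) (z, q) := fun b z hz q =>
    continuous_ofReal.continuousAt.comp ((Green.cont_wtL a (hg _ (C.mem b)) (hh _ (C.mem b))
      (C.ball_sub2 b hz)).comp_of_eq continuousAt_fst rfl)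
  have sm : M.SmF h := fun e he => (hh e he).1.1
  have c1 := Comp.conv (μ := μ) C (fun k => Green.cont1 hA hB hm hg hh (s1 k) (s1 k) sm)
    (Green.cont1 hA hB hm hg hh t1 t1 sm)
    (fun b y => ipV (M.repF h (C.e b) y.1) (fun i => ∑ j, (M.repF h (C.e b) y.1)⁻¹ j i * dzbL j y.2)
      (fun i => ∑ j, (M.repF h (C.e b) y.1)⁻¹ j i * dzbL j y.2) *
      (Green.wtL a (M.repF g (C.e b)) (M.repF h (C.e b)) y.1 : ℂ))
    (fun b k => fderiv ℝ (M.rep a (σ k) (C.e b))) (fun b => fderiv ℝ (M.rep a τ (C.e b)))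
    (fun b z hz q => by
      have d := (hh _ (C.mem b)).1.1.cd (C.ball_sub2 b hz)
      have d' := d.inv (Green.det_ne ((hh _ (C.mem b)).2 z (C.ball_sub2 b hz)))
      have u : ∀ i, ContinuousAt (fun y : V ι × (V ι →L[ℝ] ℂ) =>
          ∑ j, (M.repF h (C.e b) y.1)⁻¹ j i * dzbL j y.2) (z, q) := fun i =>
        tendsto_finsetSum _ fun j _ => ((d' j i).continuousAt.comp_of_eq continuousAt_fst rfl).mul
          ((dzbL j).continuous.continuousAt.comp continuousAt_snd)
      exact ContinuousAt.mul (tendsto_finsetSum _ fun i _ => tendsto_finsetSum _ fun j _ =>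
        (((d i j).continuousAt.comp_of_eq continuousAt_fst rfl).mul (u i)).mul (u j).star)
        (cw b z hz q))
    (fun b z hz => (((ul b).1 z hz).fderiv_right (m := 0) le_rfl).continuousAt)
    (fun b δ hδ => (un b δ hδ).mono fun k hk z hz => (hk z hz).2) fun b x hx =>
      ⟨fun k => by simpa only [← dzb_eq] using! Comp.ip1_rep hA hB hm (C.mem b) hx (s1 k),
        by simpa only [← dzb_eq] using! Comp.ip1_rep hA hB hm (C.mem b) hx t1⟩
  have ho := Comp.hol hA hB hm hg hh t1 (tendsto_nhds_unique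
    ((continuous_re.tendsto _).comp c1) (h1.mono_left Nat.hyperfilter_le_atTop))
  refine ⟨τ, hyperfilter ℕ, ho, fun e he z hz => RepB.an_sm
    (MP_caab05_ag.GB.osg _ _ _ _ e.open_target (ho e he) z hz), fun e he z hz v => ?_, ?_⟩
  · obtain ⟨x, hx, rfl⟩ : ∃ x ∈ e.source, e x = z := ⟨_, e.map_target hz, e.right_inv hz⟩
    obtain ⟨b, h2, h3⟩ := C.cover x
    have d : ∀ {s}, M.CkS 1 a s → DifferentiableAt ℝ (M.rep a s (C.e b)) (C.e b x) := fun hs =>
      (hs _ (C.mem b) _ ((C.e b).map_source h2)).differentiableAt one_ne_zero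
    have l : Tendsto (fun k => fderiv ℝ (M.rep a (σ k) (C.e b)) (C.e b x)) (hyperfilter ℕ)
        (𝓝 (fderiv ℝ (M.rep a τ (C.e b)) (C.e b x))) := Metric.tendsto_nhds.2 fun ε hε =>
      (un b _ (half_pos hε)).mono fun k hk => by
        rw [dist_eq_norm]
        linarith [(hk _ (mem_closedBall_zero_iff.2 h3.le)).2]
    simp only [Comp.fd_loc hA he (C.mem b) hx h2 (d (s1 _)), Comp.fd_loc hA he (C.mem b) hx h2 (d t1)]
    exact ((((ContinuousLinearMap.apply ℝ ℂ _).continuous.tendsto _).comp l).const_mul _).add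
      ((pt _ _).mul_const _)
  · have s0 : ∀ k, M.CkS 0 a fun x => σ k x - τ x := fun k e he z hz =>
      rep_sub (M := M) e ▸ ((s1 k e he z hz).sub (t1 e he z hz)).of_le zero_le_one
    have c0 := Comp.conv (μ := μ) C (fun k => Green.cont0 hA hm hg hh (s0 k) (s0 k))
      (continuous_const (y := 0)) (fun b y => y.2 * star y.2 *
        (Green.wtL a (M.repF g (C.e b)) (M.repF h (C.e b)) y.1 : ℂ))
      (fun b k z => M.rep a (σ k) (C.e b) z - M.rep a τ (C.e b) z) (fun _ _ => 0)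
      (fun b z hz q => (continuousAt_snd.mul continuousAt_snd.star).mul (cw b z hz q))
      (fun _ _ _ => continuousAt_const)
      (fun b δ hδ => (un b δ hδ).mono fun k hk z hz => by simpa using (hk z hz).1) fun b x hx =>
        ⟨fun k => (Comp.ip0_rep hA hm (σ := fun x => σ k x - τ x) (C.mem b) hx).trans
          (by rw [rep_sub]), by simp⟩
    rw [integral_zero] at c0
    exact (continuous_re.tendsto _).comp c0

end Pool.Agent.Lib.MP_813db1_ag.HS
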