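import Pool.Agent.Lib.MP_813db1_ag.HS.Stmt

/-! The pointwise estimate behind the energy inequality. -/

namespace Pool.Agent.Lib.MP_813db1_ag.HS.En

open Complex Matrix
open scoped ComplexOrder Kronecker

variable {τ : Type} [Fintype τ] [DecidableEq τ]

theorem kr (hm : MatS) (τ : Type) [Fintype τ] [DecidableEq τ] (A : ℝ) : ∃ m > 0, ∀ g h : Mat τ,
    g.PosDef → h.PosDef → Bd A g → Bd A g⁻¹ → Bd A h → Bd A h⁻¹ → ∀ T : τ → τ → ℂ,
    m * ‖Function.uncurry T‖ ^ 2 ≤ (∑ i, ∑ k, ∑ j, ∑ l, g i k * h j l * T i j * star (T k l)).re := by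
  obtain ⟨m, m0, hm⟩ := hm.nv (τ × τ) (A * A)
  have b : ∀ g h : Mat τ, Bd A g → Bd A h → Bd (A * A) (g ⊗ₖ h) := fun g h a b p q => by
    rw [kroneckerMap_apply, norm_mul]
    exact mul_le_mul (a _ _) (b _ _) (norm_nonneg _) ((norm_nonneg _).trans (a p.1 q.1))
  refine ⟨m, m0, fun g h hg hh a1 a2 a3 a4 T => ((hm _ (hg.kronecker hh) (b _ _ a1 a3)
    (by rw [inv_kronecker]; exact b _ _ a2 a4) _).1.trans_eq ?_)⟩
  simp only [nV, ipV, Fintype.sum_prod_type, kroneckerMap_apply, Function.uncurry_apply_pair]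
  exact congrArg _ (Finset.sum_congr rfl fun i _ => Finset.sum_comm)

theorem sum4 {F : τ → τ → τ → τ → ℂ} {B : ℝ} (h : ∀ i k j l, ‖F i k j l‖ ≤ B) :
    |(∑ i, ∑ k, ∑ j, ∑ l, F i k j l).re| ≤ (Fintype.card τ : ℝ) ^ 4 * B := by
  refine (abs_re_le_norm _).trans ((norm_sum_le_of_le _ fun i _ => norm_sum_le_of_le _ fun k _ =>
    norm_sum_le_of_le _ fun j _ => norm_sum_le_of_le _ fun l _ => h i k j l).trans_eq ?_)
  simp only [Finset.sum_const, Finset.card_univ, nsmul_eq_mul]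
  ring

theorem am {P m x s r a n β : ℝ} (m0 : 0 < m) (hx : |x| ≤ P * (r * s)) (ha : m * s ^ 2 ≤ a)
    (hn : m * r ^ 2 ≤ n) (hβ : P ^ 2 / m ^ 2 ≤ β) : 2 * |x| ≤ a + β * n := by
  have b0 : 0 ≤ β := le_trans (by positivity) hβ
  rw [div_le_iff₀ (by positivity)] at hβ
  have h1 : m * (2 * (P * (r * s))) ≤ m * (m * s ^ 2 + β * (m * r ^ 2)) := by
    nlinarith [sq_nonneg (m * s - P * r), mul_le_mul_of_nonneg_right hβ (sq_nonneg r)]
  have h2 := le_of_mul_le_mul_left h1 m0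
  nlinarith [mul_le_mul_of_nonneg_left hn b0]

theorem pw (hm : MatS) (τ : Type) [Fintype τ] [DecidableEq τ] (L A M : ℝ) : ∃ b0 : ℝ,
    ∀ (h Λ : Mat τ) (θ β : ℝ) (u : V τ) (T S : τ → τ → ℂ) (e1 e2 : τ → τ → τ → τ → ℂ),
    h.PosDef → Bd A h → Bd A h⁻¹ → ((L : ℂ) • h - Λ).PosSemidef → 0 ≤ θ → θ ≤ 1 → b0 ≤ β →
    (∀ i k j l, ‖e1 i k j l‖ ≤ θ * M) → (∀ i k j l, ‖e2 i k j l‖ ≤ M) →
    0 ≤ (∑ i, ∑ k, ∑ j, ∑ l, h⁻¹ k i * h j l * T i j * star (T k l)).re ∧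
    0 ≤ β * nV h u + (∑ k, ∑ l, ∑ i, ∑ j, h⁻¹ k l * h i j * S k i * star (S l j)).re ∧
    θ ^ 2 * (∑ i, ∑ k, ∑ j, ∑ l, h⁻¹ k i * h j l * T i j * star (T k l)).re ≤
      2 * (∑ i, ∑ k, ∑ j, ∑ l, ((θ : ℂ) ^ 2 * (h⁻¹ k i * h j l) * T i j * star (T k l) +
        e1 i k j l * u j * star (T k l) -
        β * ((θ : ℂ) ^ 2 * (h⁻¹ k i * h j l) * Λ i k * u j * star (u l)) -
        e2 i k j l * u j * star (S i l) -
        (θ : ℂ) ^ 2 * (h⁻¹ k i * h j l) * S k j * star (S i l))).re +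
      2 * (|L| * Fintype.card τ + 2) * (β * nV h u +
        (∑ k, ∑ l, ∑ i, ∑ j, h⁻¹ k l * h i j * S k i * star (S l j)).re) := by
  obtain ⟨m1, p1, k1⟩ := kr hm τ A
  obtain ⟨m2, p2, k2⟩ := hm.nv τ A
  have m0 := lt_min p1 p2
  refine ⟨((Fintype.card τ : ℝ) ^ 4 * M) ^ 2 / min m1 m2 ^ 2,
    fun h Λ θ β u T S e1 e2 hh a1 a2 hΛ θ0 θ1 hβ b1 b2 => ?_⟩
  have b0 : 0 ≤ β := le_trans (by positivity) hβ
  have hu : IsUnit h.det := (isUnit_iff_isUnit_det _).1 hh.isUnit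
  have hi := nonsing_inv_nonsing_inv h hu
  have mo : ∀ {c x y : ℝ}, min m1 m2 ≤ c → c * x ^ 2 ≤ y → min m1 m2 * x ^ 2 ≤ y := fun e e' =>
    (mul_le_mul_of_nonneg_right e (sq_nonneg _)).trans e'
  have ta := mo (min_le_left _ _) (k1 h⁻¹ᵀ h hh.inv.transpose hh (fun i j => a2 j i)
    (by rw [← transpose_nonsing_inv, hi]; exact fun i j => a1 j i) a1 a2 T)
  have td := mo (min_le_left _ _) (k1 h⁻¹ h hh.inv hh a2 (by rwa [hi]) a1 a2 S)
  have tn := mo (min_le_right _ _) (k2 h hh a1 a2 u).1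
  simp only [transpose_apply] at ta
  have x1 := sum4 (F := fun i k j l => e1 i k j l * u j * star (T k l))
    (B := M * (‖u‖ * (θ * ‖Function.uncurry T‖))) fun i k j l => by
      rw [norm_mul, norm_mul, norm_star]
      refine (mul_le_mul (mul_le_mul (b1 i k j l) (norm_le_pi_norm u j) (norm_nonneg _)
        ((norm_nonneg _).trans (b1 i k j l))) (norm_le_pi_norm (Function.uncurry T) (k, l))
        (norm_nonneg _) (mul_nonneg ((norm_nonneg _).trans (b1 i k j l))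
          (norm_nonneg _))).trans_eq (by ring)
  have x2 := sum4 (F := fun i k j l => e2 i k j l * u j * star (S i l))
    (B := M * (‖u‖ * ‖Function.uncurry S‖)) fun i k j l => by
      rw [norm_mul, norm_mul, norm_star]
      refine (mul_le_mul (mul_le_mul (b2 i k j l) (norm_le_pi_norm u j) (norm_nonneg _)
        ((norm_nonneg _).trans (b2 i k j l))) (norm_le_pi_norm (Function.uncurry S) (i, l))
        (norm_nonneg _) (mul_nonneg ((norm_nonneg _).trans (b2 i k j l))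
          (norm_nonneg _))).trans_eq (by ring)
  rw [← mul_assoc] at x1 x2
  have y1 := am m0 x1 ((by rw [mul_pow]; ring : _ = _).trans_le
    (mul_le_mul_of_nonneg_left ta (sq_nonneg θ))) tn hβ
  have y2 := am m0 x2 td tn hβ
  have t0 := hm.trm_nonneg τ h _ hh hΛ
  have t1 := (hm.real τ h _ hh.1 hΛ.1).1
  rw [Matrix.sub_mul, Matrix.smul_mul, mul_nonsing_inv h hu, trace_sub, trace_smul, trace_one,
    smul_eq_mul] at t1
  have hn : ipV h u u = nV h u := by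
    refine (conj_eq_iff_re.1 ?_).symm
    simp only [ipV, map_sum, map_mul]
    rw [Finset.sum_comm]
    refine Finset.sum_congr rfl fun i _ => Finset.sum_congr rfl fun j _ => ?_
    rw [← hh.1.apply i j]
    simp only [star_def, conj_conj]
    ring
  have s3 : ∑ i, ∑ k, ∑ j, ∑ l, β * ((θ : ℂ) ^ 2 * (h⁻¹ k i * h j l) * Λ i k * u j * star (u l)) =
      ((β * θ ^ 2 * (L * Fintype.card τ - trm h ((L : ℂ) • h - Λ)) * nV h u : ℝ) : ℂ) := by
    push_cast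
    rw [← hn, ← t1, sub_sub_cancel]
    simp only [trace, diag, mul_apply, ipV, mul_assoc, Finset.sum_mul]
    simp only [Finset.mul_sum]
    refine Finset.sum_congr rfl fun i _ => Finset.sum_congr rfl fun k _ =>
      Finset.sum_congr rfl fun j _ => Finset.sum_congr rfl fun l _ => by ring
  have s1 : ∑ i, ∑ k, ∑ j, ∑ l, (θ : ℂ) ^ 2 * (h⁻¹ k i * h j l) * T i j * star (T k l) =
      ((θ ^ 2 : ℝ) : ℂ) * ∑ i, ∑ k, ∑ j, ∑ l, h⁻¹ k i * h j l * T i j * star (T k l) := by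
    simp only [Finset.mul_sum, mul_assoc, ofReal_pow]
  have s5 : ∑ i, ∑ k, ∑ j, ∑ l, (θ : ℂ) ^ 2 * (h⁻¹ k i * h j l) * S k j * star (S i l) =
      ((θ ^ 2 : ℝ) : ℂ) * ∑ k, ∑ l, ∑ i, ∑ j, h⁻¹ k l * h i j * S k i * star (S l j) := by
    rw [Finset.sum_comm]
    simp only [Finset.mul_sum, mul_assoc, ofReal_pow]
  simp only [Finset.sum_sub_distrib, Finset.sum_add_distrib, s1, s3, s5, sub_re, add_re, ofReal_re,
    re_ofReal_mul]
  have a0 := le_trans (by positivity) ta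
  have d0 := le_trans (by positivity) td
  have n0 := mul_nonneg b0 (le_trans (by positivity) tn)
  have q : θ ^ 2 ≤ 1 := pow_le_one₀ θ0 θ1
  have l0 : 0 ≤ |L| * Fintype.card τ := by positivity
  have l1 : θ ^ 2 * (L * Fintype.card τ - trm h ((L : ℂ) • h - Λ)) ≤ |L| * Fintype.card τ := by
    nlinarith [mul_le_mul_of_nonneg_right (le_abs_self L) (Nat.cast_nonneg (Fintype.card τ)),
      sq_nonneg θ]
  refine ⟨a0, add_nonneg n0 d0, ?_⟩
  nlinarith [mul_le_mul_of_nonneg_left l1 n0, mul_le_mul_of_nonneg_left q d0, mul_nonneg l0 d0,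
    neg_abs_le (∑ i, ∑ k, ∑ j, ∑ l, e1 i k j l * u j * star (T k l)).re,
    le_abs_self (∑ i, ∑ k, ∑ j, ∑ l, e2 i k j l * u j * star (S i l)).re]

end Pool.Agent.Lib.MP_813db1_ag.HS.En
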