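import Pool.Agent.Lib.MP_813db1_ag.HS.En_A
import Pool.Agent.Lib.MP_813db1_ag.HS.En_B

/-! The holomorphic derivative is controlled by the antiholomorphic one. -/

namespace Pool.Agent.Lib.MP_813db1_ag.HS

open MeasureTheory Complex Matrix Filter Topology Set Metric
open scoped ContDiff ComplexOrder ENNReal Manifold

theorem En.bdd {τ σ : Type} [Fintype τ] [Fintype σ] {K : Set (V τ)} (hK : IsCompact K)
    (F : σ → V τ → ℂ) (h : ∀ s, ∀ y ∈ K, ContinuousAt (F s) y) :
    ∃ M, ∀ y ∈ K, ∀ s, ‖F s y‖ ≤ M := by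
  obtain ⟨M, hM⟩ := hK.exists_bound_of_continuousOn (f := fun y s => F s y)
    (continuousOn_pi.2 fun s y hy => (h s y hy).continuousWithinAt)
  exact ⟨M, fun y hy s => (norm_le_pi_norm (fun s => F s y) s).trans (hM y hy)⟩

theorem en (hm : MatS) : EnS := by
  intro τ _ _ L
  have C0 : 0 ≤ 2 * (|L| * Fintype.card τ + 2) := by positivity
  refine ⟨_, C0, fun D K H ψ hD hK hKD hH hψ => ?_⟩
  obtain ⟨K', hK', h1, h2⟩ := exists_compact_between hK hD hKD
  obtain ⟨θ, θ0, θ1, θb⟩ := exists_contMDiffMap_zero_one_of_isClosed 𝓘(ℝ, V τ) (n := 1)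
    (isOpen_interior (s := K')).isClosed_compl hK.isClosed (disjoint_compl_left_iff_subset.2 h1)
  have hθ : ∀ y, ContDiffAt ℝ 1 (fun w => (θ w : ℂ)) y := fun y =>
    (ofRealCLM.contDiff.comp θ.contMDiff.contDiff).contDiffAt
  have hH1 : ∀ y ∈ D, ∀ i j, ContDiffAt ℝ 1 (fun w => H w i j) y := fun y hy i j =>
    (hH y hy i j).of_le (by simp)
  have hH2 : ∀ y ∈ D, ∀ i j, ContDiffAt ℝ 1 (fun w => (H w)⁻¹ i j) y := fun y hy =>
    En.cd_inv (hH1 y hy) (hψ y hy).1.det_pos.ne'
  have hg : ∀ y ∈ D, ∀ i k j l, ContDiffAt ℝ 1 (fun w => (H w)⁻¹ k i * H w j l) y :=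
    fun y hy i k j l => (hH2 y hy k i).mul (hH1 y hy j l)
  have hc : ∀ i k j l, ∀ y ∈ D, ContDiffAt ℝ 1
      (fun w => (θ w : ℂ) ^ 2 * ((H w)⁻¹ k i * H w j l)) y := fun i k j l y hy =>
    ((hθ y).pow 2).mul (hg y hy i k j l)
  have h01 : (0 : WithTop ℕ∞) + 1 ≤ 1 := by simp
  obtain ⟨A1, a1⟩ := En.bdd hK' (fun (p : τ × τ) w => H w p.1 p.2) fun p y hy =>
    (hH1 y (h2 hy) _ _).continuousAt
  obtain ⟨A2, a2⟩ := En.bdd hK' (fun (p : τ × τ) w => (H w)⁻¹ p.1 p.2) fun p y hy =>
    (hH2 y (h2 hy) _ _).continuousAt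
  obtain ⟨M1, m1⟩ := En.bdd hK' (fun (p : τ × τ × τ × τ) y =>
    2 * dz (fun w => (θ w : ℂ)) p.1 y * ((H y)⁻¹ p.2.1 p.1 * H y p.2.2.1 p.2.2.2) +
      θ y * dz (fun w => (H w)⁻¹ p.2.1 p.1 * H w p.2.2.1 p.2.2.2) p.1 y) fun p y hy =>
    ((continuousAt_const.mul (contDiffAt_dz (hθ y) h01 _).continuousAt).mul
      (hg y (h2 hy) _ _ _ _).continuousAt).add
      ((hθ y).continuousAt.mul (contDiffAt_dz (hg y (h2 hy) _ _ _ _) h01 _).continuousAt)
  obtain ⟨M2, m2⟩ := En.bdd hK' (fun (p : τ × τ × τ × τ) => dzb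
    (fun w => (θ w : ℂ) ^ 2 * ((H w)⁻¹ p.2.1 p.1 * H w p.2.2.1 p.2.2.2)) p.2.1) fun p y hy =>
    (contDiffAt_dzb (hc _ _ _ _ y (h2 hy)) h01 _).continuousAt
  obtain ⟨b0, hb⟩ := En.pw hm τ L (max A1 A2) (max M1 M2)
  filter_upwards [tendsto_natCast_atTop_atTop.eventually_ge_atTop b0] with b hb0 U hU
  have hUj : ∀ j, ∀ y ∈ D, ContDiffAt ℝ 2 (fun w => U w j) y := fun j y hy =>
    contDiffAt_pi.1 (hU.contDiffAt (hD.mem_nhds hy)) j
  have key := fun i k j l => En.key (i := i) (k := k) (f := fun w => U w j) (g := fun w => U w l)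
    (p := fun w => (ψ w : ℂ)) (β := (b : ℝ)) hK' h2 (hc i k j l)
    (fun y hy => by rw [θ0 fun h => hy (interior_subset h)]; simp)
    (fun y hy => (hUj j y hy).of_le (by simp)) (hUj l)
    (fun y hy => ofRealCLM.contDiff.contDiffAt.comp y ((hψ y hy).2.1.of_le
      (WithTop.coe_le_coe.2 le_top : ((2 : ℕ∞) : WithTop ℕ∞) ≤ _)))
    (fun y => conj_ofReal _) (conj_ofReal _)
  set P : V τ → ℂ := fun y => ∑ i, ∑ k, ∑ j, ∑ l, En.Psi
    (fun w => (θ w : ℂ) ^ 2 * ((H w)⁻¹ k i * H w j l)) (fun w => U w j) (fun w => U w l)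
    (fun w => (ψ w : ℂ)) (b : ℝ) i k y with hP
  set B : V τ → ℝ := fun y => (b * nV (H y) (U y) + nD H U y) * Real.exp (-b * ψ y) with hB
  have i3 := fun i k j => integrable_finset_sum Finset.univ fun l _ => (key i k j l).1
  have i2 := fun i k => integrable_finset_sum Finset.univ fun j _ => i3 i k j
  have i1 := fun i => integrable_finset_sum Finset.univ fun k _ => i2 i k
  have iP : Integrable P (volume.restrict K') := integrable_finset_sum _ fun i _ => i1 i
  have P0 : ∫ y in K', P y = 0 := by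
    rw [integral_finset_sum _ fun i _ => i1 i]
    refine Finset.sum_eq_zero fun i _ => ?_
    rw [integral_finset_sum _ fun k _ => i2 i k]
    refine Finset.sum_eq_zero fun k _ => ?_
    rw [integral_finset_sum _ fun j _ => i3 i k j]
    refine Finset.sum_eq_zero fun j _ => ?_
    rw [integral_finset_sum _ fun l _ => (key i k j l).1]
    exact Finset.sum_eq_zero fun l _ => (key i k j l).2
  have iB : Integrable B (volume.restrict K') := by
    refine ContinuousOn.integrableOn_compact hK' fun y hy => ContinuousAt.continuousWithinAt ?_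
    have hy := h2 hy
    have d : ∀ j k, ContinuousAt (dzb (fun w => U w j) k) y := fun j k =>
      (differentiableAt_dzb (hUj j y hy) k).continuousAt
    refine ((continuousAt_const.mul (continuous_re.continuousAt.comp ?_)).add
      (continuous_re.continuousAt.comp ?_)).mul
      (continuousAt_const.mul (hψ y hy).2.1.continuousAt).rexp
    · exact tendsto_finset_sum _ fun i _ => tendsto_finset_sum _ fun j _ =>
        ((hH1 y hy i j).continuousAt.mul (hUj i y hy).continuousAt).mul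
          (hUj j y hy).continuousAt.star
    · exact tendsto_finset_sum _ fun k _ => tendsto_finset_sum _ fun l _ =>
        tendsto_finset_sum _ fun i _ => tendsto_finset_sum _ fun j _ =>
        ((hg y hy l k i j).continuousAt.mul (d i k)).mul (d j l).star
  have pw := fun y (hy : y ∈ K') => hb (H y) (levi (fun w => (ψ w : ℂ)) y) (θ y) b (U y)
    (fun i j => dz (fun w => U w j) i y - (b : ℝ) * dz (fun w => (ψ w : ℂ)) i y * U y j)
    (fun k j => dzb (fun w => U w j) k y)
    (fun i k j l => dz (fun w => (θ w : ℂ) ^ 2 * ((H w)⁻¹ k i * H w j l)) i y)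
    (fun i k j l => dzb (fun w => (θ w : ℂ) ^ 2 * ((H w)⁻¹ k i * H w j l)) k y)
    (hψ y (h2 hy)).1 (fun i j => le_max_of_le_left (a1 y hy (i, j)))
    (fun i j => le_max_of_le_right (a2 y hy (i, j))) (hψ y (h2 hy)).2.2.1 (θb y).1 (θb y).2 hb0
    (fun i k j l => by
      have d := (hθ y).differentiableAt one_ne_zero
      refine le_trans (le_of_eq ?_) (mul_le_mul_of_nonneg_left
        (le_max_of_le_left (m1 y hy (i, k, j, l))) (θb y).1)
      rw [show ∀ x : ℂ, θ y * ‖x‖ = ‖θ y * x‖ from fun x => by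
        rw [norm_mul, norm_real, Real.norm_of_nonneg (θb y).1]]
      simp only [sq]
      rw [dz_mul (d.fun_mul d) ((hg y (h2 hy) i k j l).differentiableAt one_ne_zero), dz_mul d d]
      congr 1
      ring)
    fun i k j l => le_max_of_le_right (m2 y hy (i, k, j, l))
  have B0 : ∀ y ∈ K', 0 ≤ B y := fun y hy => mul_nonneg (pw y hy).2.1 (Real.exp_pos _).le
  have pw' : ∀ y ∈ K', θ y ^ 2 * (∑ i, ∑ k, ∑ j, ∑ l, (H y)⁻¹ k i * H y j l *
      (dz (fun w => U w j) i y - (b : ℝ) * dz (fun w => (ψ w : ℂ)) i y * U y j) *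
      star (dz (fun w => U w l) k y - (b : ℝ) * dz (fun w => (ψ w : ℂ)) k y * U y l)).re *
        Real.exp (-b * ψ y) ≤ 2 * (P y).re + 2 * (|L| * Fintype.card τ + 2) * B y := fun y hy => by
    refine (mul_le_mul_of_nonneg_right (pw y hy).2.2 (Real.exp_pos _).le).trans_eq ?_
    have e : cexp (-((b : ℝ) : ℂ) * ψ y) = (Real.exp (-b * ψ y) : ℝ) := by push_cast; rfl
    simp only [hP, hB, En.Psi, ← Finset.sum_mul, e, re_mul_ofReal, nD]
    ring
  have iG := (iP.re.const_mul 2).add (iB.const_mul (2 * (|L| * Fintype.card τ + 2)))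
  have ae : ∀ {F : V τ → ℝ}, (∀ y ∈ K', 0 ≤ F y) → 0 ≤ᵐ[volume.restrict K'] F := fun h =>
    (ae_restrict_iff' hK'.measurableSet).2 (Eventually.of_forall h)
  calc _ ≤ ∫⁻ y in K, ENNReal.ofReal (2 * (P y).re + 2 * (|L| * Fintype.card τ + 2) * B y) :=
        setLIntegral_mono' hK.measurableSet fun y hy => ENNReal.ofReal_le_ofReal (by
          have := pw' y (interior_subset (h1 hy))
          rwa [θ1 hy, Pi.one_apply, one_pow, one_mul, ofReal_natCast] at this)
    _ ≤ ∫⁻ y in K', ENNReal.ofReal (2 * (P y).re + 2 * (|L| * Fintype.card τ + 2) * B y) :=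
        lintegral_mono_set (h1.trans interior_subset)
    _ = ENNReal.ofReal (2 * (|L| * Fintype.card τ + 2) * ∫ y in K', B y) := by
        refine (ofReal_integral_eq_lintegral_ofReal iG (ae fun y hy => le_trans (mul_nonneg
          (mul_nonneg (sq_nonneg _) (pw y hy).1) (Real.exp_pos _).le) (pw' y hy))).symm.trans ?_
        simp only [Pi.add_apply]
        rw [integral_add (iP.re.const_mul 2) (iB.const_mul _), integral_const_mul,
          integral_const_mul, integral_re iP, P0]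
        simp
    _ ≤ _ := by
        rw [ENNReal.ofReal_mul C0, ofReal_integral_eq_lintegral_ofReal iB (ae B0)]
        exact mul_le_mul_right (lintegral_mono_set h2) _

end Pool.Agent.Lib.MP_813db1_ag.HS
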