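import Pool.Agent.Lib.MP_813db1_ag.HS.Stmt2
import Pool.Agent.Lib.MP_813db1_ag.HS.Weight_A

/-! Compactness of quasi-plurisubharmonic functions. -/

namespace Pool.Agent.Lib.MP_813db1_ag.HS

open MeasureTheory Complex Matrix Filter Topology Set Metric
open scoped ContDiff ComplexOrder

namespace Weight

theorem tr_pull {ι : Type} [Fintype ι] [DecidableEq ι] (J G B : Mat ι) (L : ℝ)
    (h : ((L : ℂ) • G + B).PosSemidef) :
    -(L * (trace (pull J G)).re) ≤ (trace (pull J B)).re := by
  have h1 := (h.mul_mul_conjTranspose_same Jᵀ).trace_nonneg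
  have e : Jᵀ * ((L : ℂ) • G + B) * Jᵀᴴ = (L : ℂ) • pull J G + pull J B := by
    rw [Matrix.mul_add, Matrix.add_mul, Matrix.mul_smul, Matrix.smul_mul]
    rfl
  rw [e, trace_add, trace_smul, smul_eq_mul] at h1
  have h2 := (Complex.le_def.1 h1).1
  rw [add_re, re_ofReal_mul, zero_re] at h2
  linarith

end Weight

open Weight in
theorem weight (ha : RepA) (hb : RepB) (hv : VolS) (_hm : MatS) : WeightS := by
  intro ι X _ _ _ _ _ _ _ _ M g μ L hg hμ
  have a := ha ι X M
  have b := hb ι X M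
  have v := (hv ι X M g hg).2 μ hμ
  have := v.fin
  have := v.pos
  have hc : ∀ ψ, M.Ck ∞ ψ → Continuous ψ := fun ψ h =>
    a.cont ψ fun e he z hz => (h e he z hz).of_le (by simp)
  have key := glob μ {f | ∃ ψ m, M.Ck ∞ ψ ∧ (∀ x, ((L : ℂ) • g x + M.ddc ψ x).PosSemidef) ∧
      (∀ x, ψ x ≤ m) ∧ f = fun x => m - ψ x}
    (by
      rintro _ ⟨ψ, m, h1, -, -, rfl⟩
      exact (continuous_const.sub (hc ψ h1)).integrable_of_hasCompactSupport
        (HasCompactSupport.of_compactSpace _))
    (by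
      rintro _ ⟨ψ, m, -, -, h1, rfl⟩ x
      exact sub_nonneg.2 (h1 x)) fun x => ?_
  · obtain ⟨B, hB⟩ := key
    exact ⟨B, fun ψ h1 h2 x0 h3 => hB _ ⟨ψ, ψ x0, h1, h2, h3, rfl⟩ x0 (sub_self _)⟩
  obtain ⟨e, he, hx, h0⟩ := a.center x
  obtain ⟨t, ht, hT⟩ := nhds_basis_closedBall.mem_iff.1
    (e.open_target.mem_nhds (h0 ▸ e.map_source hx))
  have hK := isCompact_closedBall (0 : V ι) t
  have sm := (hg e he).1.1
  obtain ⟨C, hC⟩ := hK.exists_bound_of_continuousOn
    (f := fun z => L * (trace (M.repF g e z)).re) fun z hz =>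
      (continuousAt_const.mul (continuous_re.continuousAt.comp
        (sm.tr (hT hz)).continuousAt)).continuousWithinAt
  have cD : ContinuousOn (fun z => (M.repF g e z).det.re) (closedBall (0 : V ι) t) := fun z hz =>
    (continuous_re.continuousAt.comp (sm.det (hT hz)).continuousAt).continuousWithinAt
  obtain ⟨D, hD⟩ := hK.exists_bound_of_continuousOn cD
  have C0 := (norm_nonneg _).trans (hC 0 (mem_closedBall_self ht.le))
  have D0 := (norm_nonneg _).trans (hD 0 (mem_closedBall_self ht.le))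
  obtain ⟨s, hs, hs', K, K0, hL⟩ := loc (ι := ι) (half_pos ht) C0
  have hS : ball (0 : V ι) s ⊆ closedBall 0 t :=
    ball_subset_closedBall.trans (closedBall_subset_closedBall (by linarith))
  refine ⟨e.source ∩ e ⁻¹' ball 0 s, e.isOpen_inter_preimage isOpen_ball,
    ⟨hx, by simp [h0, hs]⟩, D * K, by positivity, ?_⟩
  rintro _ ⟨ψ, m, h1, h2, h3, rfl⟩ y hy
  have d : ∀ z ∈ closedBall (0 : V ι) t, ContDiffAt ℝ 2 (fn ψ e) z := fun z hz =>
    (h1 e he z (hT hz)).of_le (by norm_cast)
  have d' : ∀ z ∈ closedBall (0 : V ι) t, ContDiffAt ℝ 2 (fun z => ψ (e.symm z)) z :=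
    fun z hz => contDiffAt_ofReal.1 (d z hz)
  have h4 := hL (fun z => ψ (e.symm z)) m (fun _ => h3 _)
    (by rwa [mul_div_cancel₀ _ two_ne_zero]) (by
      rw [mul_div_cancel₀ _ two_ne_zero]
      intro z hz
      have h5 := b.ddc_rep ψ e he _ (e.map_target (hT hz)) (by
        rw [e.right_inv (hT hz)]; exact d z hz)
      rw [e.right_inv (hT hz)] at h5
      refine le_trans ?_ ((tr_pull _ _ _ L (h2 (e.symm z))).trans_eq
        (congrArg (fun A => (trace A).re) h5))
      exact neg_le_neg ((le_abs_self _).trans (hC z hz))) (e y) hy.2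
  rw [e.left_inv hy.1] at h4
  have c1 : ContinuousOn (fun z => m - ψ (e.symm z)) (closedBall (0 : V ι) t) :=
    continuousOn_const.sub fun z hz => (d' z hz).continuousAt.continuousWithinAt
  rw [v.intR e he _ measurableSet_ball (hS.trans hT), mul_assoc]
  refine le_trans ?_ (mul_le_mul_of_nonneg_left h4 D0)
  rw [← integral_const_mul]
  exact setIntegral_mono_on (((cD.mul c1).integrableOn_compact hK).mono_set hS)
    (((continuousOn_const.mul c1).integrableOn_compact hK).mono_set hS) measurableSet_ball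
    fun z hz => mul_le_mul_of_nonneg_right ((le_abs_self _).trans (hD z (hS hz)))
      (sub_nonneg.2 (h3 _))

end Pool.Agent.Lib.MP_813db1_ag.HS
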