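import Pool.Agent.Lib.MP_813db1_ag.HS.StmtAY
import Pool.Agent.Lib.MP_813db1_ag.HS.Calc

/-! Algebra of sections, of their Hoelder bounds and of the operator `box`. -/

namespace Pool.Agent.Lib.MP_813db1_ag.HS

open Complex Matrix Filter Topology Set Metric
open scoped ContDiff ComplexOrder

variable {ι X : Type} [Fintype ι] [DecidableEq ι] [TopologicalSpace X]

/-! ### the local operator -/

section Local

variable {a : ℕ} {H : V ι → Mat ι} {F G : V ι → ℂ} {z : V ι}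

theorem boxL_eq (h : ContDiffAt ℝ 2 F z) : boxL a H F z =
    ∑ i, ∑ j, leviL i j (fderiv ℝ (fderiv ℝ F) z) * (H z)⁻¹ j i -
      a * ∑ i, ∑ j, (H z)⁻¹ j i * dz (lg H) i z * dzbL j (fderiv ℝ F z) := by
  simp only [boxL, lapL, trace, diag, Matrix.mul_apply, levi_eq h, dzb_eq]

theorem boxL_congr (h : F =ᶠ[𝓝 z] G) : boxL a H F z = boxL a H G z := by
  simp only [boxL, lapL, levi_congr h, dzb_congr h]

theorem boxL_zero : boxL a H (fun _ => 0) z = 0 := by
  rw [boxL_eq contDiffAt_const]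
  have e : fderiv ℝ (fun _ : V ι => (0 : ℂ)) = fun _ => 0 := funext fun _ => by simp
  simp [e]

omit [DecidableEq ι] in
theorem fderiv2_add (hF : ContDiffAt ℝ 2 F z) (hG : ContDiffAt ℝ 2 G z) :
    fderiv ℝ (fderiv ℝ fun w => F w + G w) z =
      fderiv ℝ (fderiv ℝ F) z + fderiv ℝ (fderiv ℝ G) z := by
  have e : (fderiv ℝ fun w => F w + G w) =ᶠ[𝓝 z] fun w => fderiv ℝ F w + fderiv ℝ G w := by
    filter_upwards [c2_ev hF, c2_ev hG] with w a b using fderiv_fun_add a b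
  rw [e.fderiv_eq, fderiv_fun_add ((c2_fderiv hF).differentiableAt one_ne_zero)
    ((c2_fderiv hG).differentiableAt one_ne_zero)]

theorem levi_add' (hF : ContDiffAt ℝ 2 F z) (hG : ContDiffAt ℝ 2 G z) :
    levi (fun w => F w + G w) z = levi F z + levi G z := by
  ext i j
  rw [Matrix.add_apply, levi_eq (hF.add hG), levi_eq hF, levi_eq hG, fderiv2_add hF hG, map_add]

theorem levi_cmul' (c : ℂ) (hF : ContDiffAt ℝ 2 F z) :
    levi (fun w => c * F w) z = c • levi F z := by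
  ext i j
  have e : dzb (fun w => c * F w) j =ᶠ[𝓝 z] fun w => c * dzb F j w := by
    filter_upwards [c2_ev hF] with w hw using dzb_cmul c hw j
  change dz (dzb (fun w => c * F w) j) i z = c * dz (dzb F j) i z
  rw [dz_congr e, dz_cmul c (differentiableAt_dzb hF j)]

theorem boxL_add (hF : ContDiffAt ℝ 2 F z) (hG : ContDiffAt ℝ 2 G z) :
    boxL a H (fun w => F w + G w) z = boxL a H F z + boxL a H G z := by
  simp only [boxL, lapL, levi_add' hF hG, dzb_add (hF.differentiableAt two_ne_zero)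
    (hG.differentiableAt two_ne_zero), Matrix.add_mul, trace_add, mul_add, Finset.sum_add_distrib]
  ring

theorem boxL_cmul (c : ℂ) (hF : ContDiffAt ℝ 2 F z) :
    boxL a H (fun w => c * F w) z = c * boxL a H F z := by
  simp only [boxL, lapL, levi_cmul' c hF, dzb_cmul c (hF.differentiableAt two_ne_zero),
    Matrix.smul_mul, trace_smul, smul_eq_mul, mul_sub, Finset.mul_sum]
  congr 1
  refine Finset.sum_congr rfl fun i _ => Finset.sum_congr rfl fun j _ => by ring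

theorem boxL_bound (a : ℕ) (H : V ι → Mat ι) (z : V ι) : ∃ c ≥ (0 : ℝ), ∀ (F : V ι → ℂ) (B : ℝ),
    ContDiffAt ℝ 2 F z → ‖fderiv ℝ F z‖ ≤ B → ‖fderiv ℝ (fderiv ℝ F) z‖ ≤ B →
    ‖boxL a H F z‖ ≤ c * B := by
  refine ⟨∑ i, ∑ j, ‖(H z)⁻¹ j i‖ + a * ∑ i, ∑ j, ‖(H z)⁻¹ j i * dz (lg H) i z‖, by positivity,
    fun F B h h1 h2 => ?_⟩
  rw [boxL_eq h, add_mul, mul_assoc, Finset.sum_mul, Finset.sum_mul]
  refine (norm_sub_le _ _).trans (add_le_add ?_ ?_)
  · refine norm_sum_le_of_le _ fun i _ => ?_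
    rw [Finset.sum_mul]
    refine norm_sum_le_of_le _ fun j _ => ?_
    rw [norm_mul, mul_comm]
    exact mul_le_mul_of_nonneg_left ((norm_leviL i j _).trans (by linarith)) (norm_nonneg _)
  · rw [norm_mul, Complex.norm_natCast]
    refine mul_le_mul_of_nonneg_left (norm_sum_le_of_le _ fun i _ => ?_) (Nat.cast_nonneg a)
    rw [Finset.sum_mul]
    refine norm_sum_le_of_le _ fun j _ => ?_
    rw [norm_mul]
    exact mul_le_mul_of_nonneg_left (((dzbL j).le_of_opNorm_le (norm_dzbL j) _).trans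
      (by linarith)) (norm_nonneg _)

omit [DecidableEq ι] in
/-- a real linear contraction of the values, such as the real part. -/
theorem Hol2.clm {M : ℝ} {U : Set (V ι)} (h : Hol2 M F U) (A : ℂ →L[ℝ] ℂ) (hA : ‖A‖ ≤ 1) :
    Hol2 M (fun z => A (F z)) U := by
  have n1 : ‖ContinuousLinearMap.compL ℝ (V ι) ℂ ℂ A‖ ≤ 1 :=
    ContinuousLinearMap.opNorm_le_bound _ zero_le_one fun Q =>
      (A.opNorm_comp_le Q).trans (mul_le_mul_of_nonneg_right hA (norm_nonneg _))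
  have e1 : ∀ Q : V ι →L[ℝ] ℂ, ContinuousLinearMap.compL ℝ (V ι) ℂ ℂ A Q = A.comp Q := fun _ => rfl
  generalize ContinuousLinearMap.compL ℝ (V ι) ℂ ℂ A = A1 at n1 e1
  have d : ∀ z ∈ U, HasFDerivAt (fun w => A1 (fderiv ℝ F w))
      (A1.comp (fderiv ℝ (fderiv ℝ F) z)) z :=
    fun z hz => A1.hasFDerivAt.comp z (h.hol1'.1 z hz).hasFDerivAt
  have b : ∀ Q : V ι →L[ℝ] V ι →L[ℝ] ℂ, ‖A1.comp Q‖ ≤ 1 * ‖Q‖ := fun Q =>
    (A1.opNorm_comp_le Q).trans (mul_le_mul_of_nonneg_right n1 (norm_nonneg _))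
  have b' : ∀ P Q : V ι →L[ℝ] V ι →L[ℝ] ℂ, ‖A1.comp P - A1.comp Q‖ ≤ 1 * ‖P - Q‖ := fun P Q => by
    rw [← ContinuousLinearMap.comp_sub]
    exact b _
  have k := (hol_iff.1 h.2.2.2).map (Φ := fun Q => A1.comp Q) zero_le_one zero_le_one b b'
  have k1 := h.2.1.clm A hA
  have k2 := h.2.2.1.clm A1 n1
  rw [one_mul] at k k1 k2
  refine hol2_of (F := fun w => A1 (fderiv ℝ F w))
    (fun z hz => A.contDiff.contDiffAt.comp z (h.1 z hz)) k1
    ⟨fun z hz => (d z hz).differentiableAt, k2,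
      (hol_iff.2 k).congr fun z hz => (d z hz).fderiv⟩ fun z hz => ?_
  filter_upwards [c2_ev (h.1 z hz)] with w hw
  rw [e1]
  exact (A.hasFDerivAt.comp w hw.hasFDerivAt).fderiv

omit [DecidableEq ι] in
theorem Hol2.re {M : ℝ} {U : Set (V ι)} (h : Hol2 M F U) : Hol2 M (fun z => ((F z).re : ℂ)) U :=
  h.clm (ofRealCLM.comp reCLM) (ContinuousLinearMap.opNorm_le_bound _ zero_le_one fun w => by
    simpa using Complex.abs_re_le_norm w)

end Local

/-! ### sections -/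

variable {M : Atl ι X} {C : Cov M} {a : ℕ} {t B B' : ℝ} {σ τ : X → ℂ}

theorem rep_add (e : Ch ι X) :
    M.rep a (fun x => σ x + τ x) e = fun z => M.rep a σ e z + M.rep a τ e z :=
  funext fun _ => mul_add _ _ _

theorem rep_sub (e : Ch ι X) :
    M.rep a (fun x => σ x - τ x) e = fun z => M.rep a σ e z - M.rep a τ e z :=
  funext fun _ => mul_sub _ _ _

theorem rep_neg (e : Ch ι X) : M.rep a (fun x => -σ x) e = fun z => -M.rep a σ e z :=
  funext fun _ => mul_neg _ _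

theorem rep_cmul (c : ℂ) (e : Ch ι X) :
    M.rep a (fun x => c * σ x) e = fun z => c * M.rep a σ e z :=
  funext fun _ => mul_left_comm _ _ _

theorem rep_zero (e : Ch ι X) : M.rep a (fun _ => 0) e = fun _ => 0 :=
  funext fun _ => mul_zero _

theorem rep_sum {κ : Type} (S : Finset κ) (F : κ → X → ℂ) (e : Ch ι X) :
    M.rep a (fun x => ∑ j ∈ S, F j x) e = fun z => ∑ j ∈ S, M.rep a (F j) e z :=
  funext fun _ => Finset.mul_sum _ _ _

theorem rep_fun (σ : X → ℂ) (e : Ch ι X) : M.rep 0 σ e = fun z => σ (e.symm z) :=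
  funext fun _ => by simp [Atl.rep]

theorem rep_real (u : X → ℝ) (e : Ch ι X) : M.rep 0 (fun x => (u x : ℂ)) e = fn u e :=
  rep_fun _ _

theorem rep_at (σ : X → ℂ) {e : Ch ι X} {x : X} (hx : x ∈ e.source) :
    M.rep a σ e (e x) = (tj e (M.ch x) x).det ^ a * σ x := by
  simp only [Atl.rep, e.left_inv hx]

theorem rep_fac (hA : RepA' M) {e : Ch ι X} (he : e ∈ M.A) {x : X} (hx : x ∈ e.source) :
    (tj e (M.ch x) x).det ^ a ≠ 0 :=
  pow_ne_zero _ (hA.tj_det e he _ (M.ch_mem x) x hx (M.mem x))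

theorem rep_inj (hA : RepA' M) {e : Ch ι X} (he : e ∈ M.A) {x : X} (hx : x ∈ e.source)
    (h : M.rep a σ e (e x) = M.rep a τ e (e x)) : σ x = τ x := by
  rw [rep_at σ hx, rep_at τ hx] at h
  exact mul_left_cancel₀ (rep_fac hA he hx) h

theorem rep_congr {e : Ch ι X} {x : X} (hx : x ∈ e.source) (h : σ =ᶠ[𝓝 x] τ) :
    M.rep a σ e =ᶠ[𝓝 (e x)] M.rep a τ e := by
  have c : Tendsto e.symm (𝓝 (e x)) (𝓝 x) := e.tendsto_symm hx
  filter_upwards [c.eventually h] with z hz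
  simp only [Atl.rep, hz]

theorem repF_add (P Q : X → Mat ι) (e : Ch ι X) :
    M.repF (fun x => P x + Q x) e = fun z => M.repF P e z + M.repF Q e z :=
  funext fun _ => by simp only [Atl.repF, pull, Matrix.mul_add, Matrix.add_mul]

theorem repF_sub (P Q : X → Mat ι) (e : Ch ι X) :
    M.repF (fun x => P x - Q x) e = fun z => M.repF P e z - M.repF Q e z :=
  funext fun _ => by simp only [Atl.repF, pull, Matrix.mul_sub, Matrix.sub_mul]

theorem repF_smul (c : ℂ) (P : X → Mat ι) (e : Ch ι X) :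
    M.repF (fun x => c • P x) e = fun z => c • M.repF P e z :=
  funext fun _ => by simp only [Atl.repF, pull, Matrix.mul_smul, Matrix.smul_mul]

theorem repF_at (P : X → Mat ι) {e : Ch ι X} {x : X} (hx : x ∈ e.source) :
    M.repF P e (e x) = pull (tj e (M.ch x) x) (P x) := by
  simp only [Atl.repF, e.left_inv hx]

namespace Cov

omit [DecidableEq ι] in
theorem ball_sub2 (C : Cov M) (b : Fin C.n) : ball (0 : V ι) (2 * C.r b) ⊆ (C.e b).target :=
  ((ball_subset_ball (by linarith [C.pos b])).trans ball_subset_closedBall).trans (C.sub b)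

omit [DecidableEq ι] in
theorem cover2 (C : Cov M) (x : X) :
    ∃ b, x ∈ (C.e b).source ∧ C.e b x ∈ ball (0 : V ι) (2 * C.r b) := by
  obtain ⟨b, h1, h2⟩ := C.cover x
  exact ⟨b, h1, mem_ball_zero_iff.2 (by linarith [C.pos b])⟩

omit [DecidableEq ι] in
theorem zero_mem (C : Cov M) (b : Fin C.n) : (0 : V ι) ∈ ball (0 : V ι) (2 * C.r b) :=
  mem_ball_self (by linarith [C.pos b])

theorem sh_iff : C.SH a B σ ↔ C.SHT a 1 B σ := forall_congr' fun _ => hol_iff

theorem SHT.mono (h : C.SHT a t B σ) (hB : B ≤ B') : C.SHT a t B' σ := fun b => (h b).mono hB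

theorem SH.mono (h : C.SH a B σ) (hB : B ≤ B') : C.SH a B' σ := fun b => (h b).mono hB

theorem SH2.mono (h : C.SH2 a B σ) (hB : B ≤ B') : C.SH2 a B' σ := fun b => (h b).mono hB

theorem SHT.congr (h : C.SHT a t B σ) (e : ∀ x, τ x = σ x) : C.SHT a t B τ := funext e ▸ h

theorem SH.congr (h : C.SH a B σ) (e : ∀ x, τ x = σ x) : C.SH a B τ := funext e ▸ h

theorem SH2.congr (h : C.SH2 a B σ) (e : ∀ x, τ x = σ x) : C.SH2 a B τ := funext e ▸ h

theorem SHT.add (ht : 0 ≤ t) (h : C.SHT a t B σ) (h' : C.SHT a t B' τ) :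
    C.SHT a t (B + B') fun x => σ x + τ x := fun b => rep_add (M := M) _ ▸ (h b).add ht (h' b)

theorem SHT.sub (ht : 0 ≤ t) (h : C.SHT a t B σ) (h' : C.SHT a t B' τ) :
    C.SHT a t (B + B') fun x => σ x - τ x := fun b => rep_sub (M := M) _ ▸ (h b).sub ht (h' b)

theorem SHT.neg (h : C.SHT a t B σ) : C.SHT a t B fun x => -σ x :=
  fun b => rep_neg (M := M) _ ▸ (h b).neg

theorem SHT.cmul (ht : 0 ≤ t) (h : C.SHT a t B σ) (c : ℂ) :
    C.SHT a t (‖c‖ * B) fun x => c * σ x := fun b => rep_cmul (M := M) c _ ▸ (h b).const_mul ht c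

theorem SHT.sum {κ : Type} (S : Finset κ) {F : κ → X → ℂ} {D : κ → ℝ} (ht : 0 ≤ t)
    (h : ∀ j ∈ S, C.SHT a t (D j) (F j)) : C.SHT a t (∑ j ∈ S, D j) fun x => ∑ j ∈ S, F j x :=
  fun b => rep_sum (M := M) S F _ ▸ HolT.sum S ht fun j hj => h j hj b

theorem SH.add (h : C.SH a B σ) (h' : C.SH a B' τ) : C.SH a (B + B') fun x => σ x + τ x :=
  fun b => rep_add (M := M) _ ▸ (h b).add (h' b)

theorem SH.sub (h : C.SH a B σ) (h' : C.SH a B' τ) : C.SH a (B + B') fun x => σ x - τ x :=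
  fun b => rep_sub (M := M) _ ▸ (h b).sub (h' b)

theorem SH.neg (h : C.SH a B σ) : C.SH a B fun x => -σ x := fun b => rep_neg (M := M) _ ▸ (h b).neg

theorem SH.cmul (h : C.SH a B σ) (c : ℂ) : C.SH a (‖c‖ * B) fun x => c * σ x :=
  fun b => rep_cmul (M := M) c _ ▸ (h b).const_mul c

theorem SH.zero (hB : 0 ≤ B) : C.SH a B fun _ => 0 :=
  fun _ => rep_zero (M := M) _ ▸ Hol.const 0 (by simpa using hB)

theorem SH.sht (ht : 1 ≤ t) (h : C.SH a B σ) : C.SHT a t (t * B) σ := fun b => (h b).holT ht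

theorem SHT.sh (ht : 1 ≤ t) (h : C.SHT a t B σ) : C.SH a B σ := fun b => (h b).hol ht

theorem SH2.sh (h : C.SH2 a B σ) : C.SH a B σ := fun b => (h b).2.1

theorem SH2.add (h : C.SH2 a B σ) (h' : C.SH2 a B' τ) : C.SH2 a (B + B') fun x => σ x + τ x :=
  fun b => rep_add (M := M) _ ▸ (h b).add (h' b)

theorem SH2.sub (h : C.SH2 a B σ) (h' : C.SH2 a B' τ) : C.SH2 a (B + B') fun x => σ x - τ x :=
  fun b => rep_sub (M := M) _ ▸ (h b).sub (h' b)

theorem SH2.neg (h : C.SH2 a B σ) : C.SH2 a B fun x => -σ x :=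
  fun b => rep_neg (M := M) _ ▸ (h b).neg

theorem SH2.cmul (h : C.SH2 a B σ) (c : ℂ) : C.SH2 a (8 * ‖c‖ * B) fun x => c * σ x :=
  fun b => rep_cmul (M := M) c _ ▸ (h b).const_mul c

theorem SH2.zero (hB : 0 ≤ B) : C.SH2 a B fun _ => 0 :=
  fun _ => rep_zero (M := M) _ ▸ Hol2.const 0 (by simpa using hB)

theorem SH2.sum {κ : Type} (S : Finset κ) {F : κ → X → ℂ} {D : κ → ℝ}
    (h : ∀ j ∈ S, C.SH2 a (D j) (F j)) : C.SH2 a (∑ j ∈ S, D j) fun x => ∑ j ∈ S, F j x :=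
  fun b => rep_sum (M := M) S F _ ▸ Hol2.sum S fun j hj => h j hj b

theorem SH2.of_forall (h : ∀ ε > 0, C.SH2 a (B + ε) σ) : C.SH2 a B σ :=
  fun b => Hol2.of_forall fun ε hε => h ε hε b

theorem SH2.re (h : C.SH2 0 B σ) : C.SH2 0 B fun x => ((σ x).re : ℂ) := fun b => by
  have := (h b).re
  rw [rep_fun] at this ⊢
  exact this

theorem SH2.ckS (hA : RepA' M) (h : C.SH2 a B σ) : M.CkS 2 a σ :=
  hA.ckS_loc 2 a σ fun x => by
    obtain ⟨b, h1, h2⟩ := C.cover2 x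
    exact ⟨C.e b, C.mem b, h1, (h b).1 _ h2⟩

theorem SH2.ck (hA : RepA' M) {u : X → ℝ} (h : C.SH2 0 B fun x => (u x : ℂ)) : M.Ck 2 u :=
  fun e he z hz => rep_real (M := M) u e ▸ h.ckS hA e he z hz

/-- absorption of one half of the norm. -/
theorem SH2.absorb (h0 : C.SH2 a B' σ) (h : ∀ N, C.SH2 a N σ → C.SH2 a (B + N / 2) σ) :
    C.SH2 a (2 * B) σ := by
  have k : ∀ n : ℕ, C.SH2 a (2 * B + |B' - 2 * B| * (1 / 2) ^ n) σ := fun n => by
    induction n with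
    | zero => exact h0.mono (by simpa using sub_le_iff_le_add'.1 (le_abs_self (B' - 2 * B)))
    | succ n ih => exact (h _ ih).mono (le_of_eq (by ring))
  refine SH2.of_forall fun ε hε => ?_
  have lim := (tendsto_pow_atTop_nhds_zero_of_lt_one (r := (1 / 2 : ℝ)) (by norm_num)
    (by norm_num)).const_mul |B' - 2 * B|
  rw [mul_zero] at lim
  obtain ⟨n, hn⟩ := (lim.eventually (gt_mem_nhds hε)).exists
  exact (k n).mono (by linarith)

theorem SH.bound (hA : RepA' M) (C : Cov M) (a : ℕ) (x : X) :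
    ∃ c ≥ (0 : ℝ), ∀ σ B, C.SH a B σ → ‖σ x‖ ≤ c * B := by
  obtain ⟨b, h1, h2⟩ := C.cover2 x
  refine ⟨‖(tj (C.e b) (M.ch x) x).det ^ a‖⁻¹, by positivity, fun σ B h => ?_⟩
  have := (h b).1 _ h2
  rw [rep_at σ h1, norm_mul] at this
  rwa [le_inv_mul_iff₀ (norm_pos_iff.2 (rep_fac hA (C.mem b) h1))]

theorem SH.eq_zero (hA : RepA' M) (h : C.SH a 0 σ) (x : X) : σ x = 0 := by
  obtain ⟨c, -, hc⟩ := SH.bound hA C a x
  simpa using hc σ 0 h

end Cov

theorem ckS_at {k : WithTop ℕ∞} (h : M.CkS k a σ) (x : X) :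
    ContDiffAt ℝ k (M.rep a σ (M.ch x)) (M.ch x x) :=
  h _ (M.ch_mem x) _ ((M.ch x).map_source (M.mem x))

theorem ckS_add {k : WithTop ℕ∞} (h : M.CkS k a σ) (h' : M.CkS k a τ) :
    M.CkS k a fun x => σ x + τ x :=
  fun e he z hz => rep_add (M := M) e ▸ (h e he z hz).add (h' e he z hz)

theorem ckS_cmul {k : WithTop ℕ∞} (c : ℂ) (h : M.CkS k a σ) : M.CkS k a fun x => c * σ x :=
  fun e he z hz => rep_cmul (M := M) c e ▸ contDiffAt_const.mul (h e he z hz)

variable {h : X → Mat ι}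

theorem box_add (hσ : M.CkS 2 a σ) (hτ : M.CkS 2 a τ) (x : X) :
    M.box a h (fun y => σ y + τ y) x = M.box a h σ x + M.box a h τ x := by
  simp only [Atl.box, rep_add]
  exact boxL_add (ckS_at hσ x) (ckS_at hτ x)

theorem box_cmul (c : ℂ) (hσ : M.CkS 2 a σ) (x : X) :
    M.box a h (fun y => c * σ y) x = c * M.box a h σ x := by
  simp only [Atl.box, rep_cmul]
  exact boxL_cmul c (ckS_at hσ x)

theorem box_sub (hσ : M.CkS 2 a σ) (hτ : M.CkS 2 a τ) (x : X) :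
    M.box a h (fun y => σ y - τ y) x = M.box a h σ x - M.box a h τ x := by
  have e : (fun y => σ y - τ y) = fun y => σ y + (-1) * τ y := funext fun _ => by ring
  rw [e, box_add hσ (ckS_cmul _ hτ), box_cmul _ hτ]
  ring

theorem box_congr {x : X} (e : σ =ᶠ[𝓝 x] τ) : M.box a h σ x = M.box a h τ x :=
  boxL_congr (rep_congr (M.mem x) e)

theorem box_zero' (x : X) : M.box a h (fun _ => 0) x = 0 := by
  simp only [Atl.box, rep_zero]
  exact boxL_zero

theorem box_sum {κ : Type} (S : Finset κ) {F : κ → X → ℂ} (hF : ∀ j ∈ S, M.CkS 2 a (F j)) :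
    M.CkS 2 a (fun y => ∑ j ∈ S, F j y) ∧
      ∀ x, M.box a h (fun y => ∑ j ∈ S, F j y) x = ∑ j ∈ S, M.box a h (F j) x := by
  classical
  induction S using Finset.induction_on with
  | empty =>
    simp only [Finset.sum_empty]
    exact ⟨fun e _ z _ => rep_zero (M := M) e ▸ contDiffAt_const, box_zero'⟩
  | insert j S hj ih =>
    simp only [Finset.sum_insert hj]
    have h1 := hF j (Finset.mem_insert_self _ _)
    have h2 := ih fun k hk => hF k (Finset.mem_insert_of_mem hk)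
    exact ⟨ckS_add h1 h2.1, fun x => by rw [box_add h1 h2.1, h2.2]⟩

theorem box_bound (hA : RepA' M) (hB : RepB' M) (hh : M.IsK h) (C : Cov M) (a : ℕ) (x : X) :
    ∃ c ≥ (0 : ℝ), ∀ σ B, C.SH2 a B σ → ‖M.box a h σ x‖ ≤ c * B := by
  obtain ⟨b, h1, h2⟩ := C.cover2 x
  obtain ⟨c, hc, k⟩ := boxL_bound a (M.repF h (C.e b)) (C.e b x)
  refine ⟨‖(tj (C.e b) (M.ch x) x).det ^ a‖⁻¹ * c, by positivity, fun σ B hσ => ?_⟩
  have := k _ B ((hσ b).1 _ h2) ((hσ b).2.2.1.1 _ h2) ((hσ b).2.2.2.1 _ h2)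
  rw [← hB.box_rep a h σ hh _ (C.mem b) x h1 ((hσ b).1 _ h2), rep_at _ h1, norm_mul] at this
  rwa [mul_assoc, le_inv_mul_iff₀ (norm_pos_iff.2 (rep_fac hA (C.mem b) h1))]

end Pool.Agent.Lib.MP_813db1_ag.HS
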