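import Pool.Agent.Lib.MP_813db1_ag.HS.Stmt2
import Pool.Agent.Lib.MP_813db1_ag.HS.Calc

/-! Change of charts: the algebraic part. -/

namespace Pool.Agent.Lib.MP_813db1_ag.HS.RepA

open MeasureTheory Complex Matrix Filter Topology Set Metric
open scoped ContDiff ComplexOrder

variable {ι : Type} [Fintype ι] [DecidableEq ι]

/-! Matrices. -/

theorem pull_one (B : Mat ι) : pull 1 B = B := by
  simp [pull]

omit [DecidableEq ι] in
theorem map_star_mul (A B : Mat ι) : (A * B).map star = A.map star * B.map star :=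
  Matrix.map_mul (f := starRingEnd ℂ)

omit [DecidableEq ι] in
theorem pull_mul (A B C : Mat ι) : pull (A * B) C = pull B (pull A C) := by
  simp only [pull, map_star_mul, transpose_mul, Matrix.mul_assoc]

theorem det_map_star (J : Mat ι) : (J.map star).det = star J.det :=
  ((starRingEnd ℂ).map_det J).symm

theorem det_pull (J H : Mat ι) : (pull J H).det = (‖J.det‖ ^ 2 : ℝ) * H.det := by
  rw [pull, det_mul, det_mul, det_transpose, det_map_star, mul_right_comm, star_def, mul_conj,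
    normSq_eq_norm_sq]

theorem pull_mul_inv {J : Mat ι} (hJ : J.det ≠ 0) (B H : Mat ι) :
    pull J B * (pull J H)⁻¹ = Jᵀ * (B * H⁻¹) * Jᵀ⁻¹ := by
  have h : IsUnit (J.map star).det := by
    rw [det_map_star]
    exact (star_ne_zero.2 hJ).isUnit
  simp only [pull, Matrix.mul_inv_rev, Matrix.mul_assoc, mul_nonsing_inv_cancel_left _ _ h]

theorem pull_mul_inv_mul {J : Mat ι} (hJ : J.det ≠ 0) (B H B' : Mat ι) :
    pull J (B * H⁻¹ * B') = pull J B * (pull J H)⁻¹ * pull J B' := by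
  have h : IsUnit Jᵀ.det := by
    rw [det_transpose]
    exact hJ.isUnit
  rw [pull_mul_inv hJ]
  simp only [pull, Matrix.mul_assoc, nonsing_inv_mul_cancel_left _ _ h]

theorem trace_pull {J : Mat ι} (hJ : J.det ≠ 0) (B H : Mat ι) :
    trace (pull J B * (pull J H)⁻¹) = trace (B * H⁻¹) := by
  have h : IsUnit Jᵀ.det := by
    rw [det_transpose]
    exact hJ.isUnit
  rw [pull_mul_inv hJ, trace_mul_cycle, nonsing_inv_mul _ h, Matrix.one_mul]

theorem jac_equiv {Θ : V ι → V ι} {w : V ι} (h : (jac Θ w).det ≠ 0) :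
    ∃ L : V ι ≃L[ℂ] V ι, fderiv ℂ Θ w = L := by
  have e : jac Θ w = LinearMap.toMatrix' (fderiv ℂ Θ w : V ι →ₗ[ℂ] V ι) := by
    ext p i
    simp [jac, LinearMap.toMatrix'_apply]
  rw [e, LinearMap.det_toMatrix'] at h
  exact ⟨_, ((fderiv ℂ Θ w).coe_toContinuousLinearEquivOfDetNeZero h).symm⟩

/-! Charts. -/

variable {X : Type} [TopologicalSpace X]

omit [Fintype ι] [DecidableEq ι] in
/-- points near `e x` come from both charts. -/
theorem ev_src {e e' : Ch ι X} {x : X} (hx : x ∈ e.source) (hx' : x ∈ e'.source) :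
    ∀ᶠ w in 𝓝 (e x), w ∈ e.target ∧ e.symm w ∈ e'.source := by
  refine Eventually.and (e.open_target.mem_nhds (e.map_source hx)) ?_
  refine (e.continuousAt_symm (e.map_source hx)).eventually_mem ?_
  rw [e.left_inv hx]
  exact e'.open_source.mem_nhds hx'

omit [Fintype ι] [DecidableEq ι] in
theorem tr_apply {e : Ch ι X} (e' : Ch ι X) {x : X} (hx : x ∈ e.source) :
    (e' ∘ e.symm) (e x) = e' x := by
  rw [Function.comp_apply, e.left_inv hx]

variable (M : Atl ι X)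

theorem tj_self : ∀ e ∈ M.A, ∀ x ∈ e.source, tj e e x = 1 := fun e _ x hx =>
  (jac_congr ((ev_src hx hx).mono fun _ h => e.right_inv h.1)).trans (jac_id (e x))

theorem tj_mul : ∀ e ∈ M.A, ∀ e' ∈ M.A, ∀ e'' ∈ M.A, ∀ x ∈ e.source, x ∈ e'.source →
    x ∈ e''.source → tj e e'' x = tj e' e'' x * tj e e' x := by
  intro e he e' he' e'' he'' x hx hx' hx''
  have h1 := (M.hol e' he' e'' he'' x hx' hx'').differentiableAt
  rw [tj, tj, tj]
  rw [← tr_apply e' hx] at h1 ⊢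
  rw [← jac_comp h1 (M.hol e he e' he' x hx hx').differentiableAt]
  exact jac_congr ((ev_src hx hx').mono fun w h => congrArg e'' (e'.left_inv h.2).symm)

theorem tj_det : ∀ e ∈ M.A, ∀ e' ∈ M.A, ∀ x ∈ e.source, x ∈ e'.source →
    (tj e e' x).det ≠ 0 := by
  intro e he e' he' x hx hx' h
  have h1 := congrArg det (tj_mul M e he e' he' e he x hx hx' hx)
  rw [tj_self M e he x hx, det_one, det_mul, h, mul_zero] at h1
  exact one_ne_zero h1

omit [Fintype ι] in
theorem tj_ev {e e' : Ch ι X} {x : X} (hx : x ∈ e.source) :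
    (fun z => tj e e' (e.symm z)) =ᶠ[𝓝 (e x)] jac (e' ∘ e.symm) :=
  (ev_src hx hx).mono fun _ h => congrArg (jac (e' ∘ e.symm)) (e.right_inv h.1)

theorem tj_an : ∀ e ∈ M.A, ∀ e' ∈ M.A, ∀ x ∈ e.source, x ∈ e'.source → ∀ p i,
    AnalyticAt ℂ (fun z => tj e e' (e.symm z) p i) (e x) := fun e he e' he' x hx hx' p i =>
  (analyticAt_jac (M.hol e he e' he' x hx hx') p i).congr
    ((tj_ev hx).mono fun _ h => (congrFun (congrFun h p) i).symm)

theorem rep_apply (m : ℕ) (σ : X → ℂ) {e : Ch ι X} {x : X} (hx : x ∈ e.source) :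
    M.rep m σ e (e x) = (tj e (M.ch x) x).det ^ m * σ x := by
  rw [Atl.rep, e.left_inv hx]

theorem repF_apply (B : X → Mat ι) {e : Ch ι X} {x : X} (hx : x ∈ e.source) :
    M.repF B e (e x) = pull (tj e (M.ch x) x) (B x) := by
  rw [Atl.repF, e.left_inv hx]

theorem rep_self : ∀ m σ x, M.rep m σ (M.ch x) (M.ch x x) = σ x := fun m σ x => by
  rw [rep_apply M m σ (M.mem x), tj_self M _ (M.ch_mem x) x (M.mem x), det_one, one_pow, one_mul]

theorem repF_self : ∀ B x, M.repF B (M.ch x) (M.ch x x) = B x := fun B x => by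
  rw [repF_apply M B (M.mem x), tj_self M _ (M.ch_mem x) x (M.mem x), pull_one]

theorem rep_tr : ∀ m σ, ∀ e ∈ M.A, ∀ e' ∈ M.A, ∀ x ∈ e.source, x ∈ e'.source →
    M.rep m σ e (e x) = (tj e e' x).det ^ m * M.rep m σ e' (e' x) := by
  intro m σ e he e' he' x hx hx'
  rw [rep_apply M m σ hx, rep_apply M m σ hx',
    tj_mul M e he e' he' _ (M.ch_mem x) x hx hx' (M.mem x), det_mul]
  ring

theorem repF_tr : ∀ B, ∀ e ∈ M.A, ∀ e' ∈ M.A, ∀ x ∈ e.source, x ∈ e'.source →
    M.repF B e (e x) = pull (tj e e' x) (M.repF B e' (e' x)) := by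
  intro B e he e' he' x hx hx'
  rw [repF_apply M B hx, repF_apply M B hx',
    tj_mul M e he e' he' _ (M.ch_mem x) x hx hx' (M.mem x), pull_mul]

theorem herm : ∀ B, M.ClF B → ∀ x, (B x).IsHermitian := fun B h x =>
  repF_self M B x ▸ (h _ (M.ch_mem x)).2.1 _ ((M.ch x).map_source (M.mem x))

theorem glue_sec : ∀ m (F : Ch ι X → V ι → ℂ) (S : Set (Ch ι X)), S ⊆ M.A →
    (∀ x, ∃ e ∈ S, x ∈ e.source) →
    (∀ e ∈ S, ∀ e' ∈ S, ∀ x ∈ e.source, x ∈ e'.source →
      F e (e x) = (tj e e' x).det ^ m * F e' (e' x)) →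
    ∃ σ, ∀ e ∈ S, ∀ z ∈ e.target, M.rep m σ e z = F e z := by
  intro m F S hS hc hF
  choose s hs hx using hc
  refine ⟨fun x => (tj (M.ch x) (s x) x).det ^ m * F (s x) (s x x), fun e he z hz => ?_⟩
  have h := e.map_target hz
  have h1 := hF e he _ (hs _) _ h (hx _)
  rw [e.right_inv hz] at h1
  rw [h1, Atl.rep, tj_mul M e (hS he) _ (M.ch_mem _) _ (hS (hs _)) _ h (M.mem _) (hx _), det_mul]
  ring

theorem glue_form : ∀ (F : Ch ι X → V ι → Mat ι),
    (∀ e ∈ M.A, ∀ e' ∈ M.A, ∀ x ∈ e.source, x ∈ e'.source →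
      F e (e x) = pull (tj e e' x) (F e' (e' x))) →
    ∃ B, ∀ e ∈ M.A, ∀ z ∈ e.target, M.repF B e z = F e z := by
  intro F hF
  refine ⟨fun x => F (M.ch x) (M.ch x x), fun e he z hz => ?_⟩
  have h1 := hF e he _ (M.ch_mem _) _ (e.map_target hz) (M.mem _)
  rw [e.right_inv hz] at h1
  exact h1.symm

theorem repF_mul : ∀ B H B', ∀ e ∈ M.A, ∀ z ∈ e.target,
    M.repF (fun x => B x * (H x)⁻¹ * B' x) e z =
      M.repF B e z * (M.repF H e z)⁻¹ * M.repF B' e z := fun _ _ _ e he _ hz =>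
  pull_mul_inv_mul (tj_det M e he _ (M.ch_mem _) _ (e.map_target hz) (M.mem _)) _ _ _

theorem trace_rep : ∀ h B, ∀ e ∈ M.A, ∀ x ∈ e.source,
    trace (M.repF B e (e x) * (M.repF h e (e x))⁻¹) = trace (B x * (h x)⁻¹) := by
  intro h B e he x hx
  rw [repF_apply M B hx, repF_apply M h hx,
    trace_pull (tj_det M e he _ (M.ch_mem x) x hx (M.mem x))]

theorem trm_rep : ∀ h B, ∀ e ∈ M.A, ∀ x ∈ e.source,
    trm (M.repF h e (e x)) (M.repF B e (e x)) = trm (h x) (B x) := fun h B e he x hx =>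
  congrArg re (trace_rep M h B e he x hx)

theorem rat_rep : ∀ h g, ∀ e ∈ M.A, ∀ x ∈ e.source,
    (M.repF h e (e x)).det.re / (M.repF g e (e x)).det.re = rat h g x := by
  intro h g e he x hx
  rw [repF_apply M h hx, repF_apply M g hx, det_pull, det_pull, re_ofReal_mul, re_ofReal_mul]
  exact mul_div_mul_left _ _ (pow_ne_zero 2 (norm_ne_zero_iff.2
    (tj_det M e he _ (M.ch_mem x) x hx (M.mem x))))

omit [DecidableEq ι] in
theorem cont : ∀ u, M.Ck 0 u → Continuous u := by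
  refine fun u h => continuous_iff_continuousAt.2 fun x => ?_
  have hx := M.mem x
  have h1 := (h _ (M.ch_mem x) _ ((M.ch x).map_source hx)).continuousAt
  refine (continuous_re.continuousAt.comp (h1.comp ((M.ch x).continuousAt hx))).congr ?_
  filter_upwards [(M.ch x).open_source.mem_nhds hx] with y hy
  simp [fn, (M.ch x).left_inv hy]

omit [DecidableEq ι] in
/-- a chart followed by a local biholomorphism is a chart. -/
theorem trans_mem {e : Ch ι X} (he : e ∈ M.A) (f : OpenPartialHomeomorph (V ι) (V ι))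
    (h1 : ∀ z ∈ f.source, AnalyticAt ℂ f z) (h2 : ∀ z ∈ f.source, AnalyticAt ℂ f.symm (f z)) :
    e.trans f ∈ M.A := by
  refine M.max _ fun x hx => ⟨?_, ?_⟩
  · exact (h1 _ hx.2).comp_of_eq (M.hol _ (M.ch_mem x) e he x (M.mem x) hx.1)
      (tr_apply e (M.mem x))
  · exact (M.hol e he _ (M.ch_mem x) x hx.1 (M.mem x)).comp_of_eq (h2 _ hx.2) (f.left_inv hx.2)

theorem newChart : ∀ e ∈ M.A, ∀ x ∈ e.source, ∀ (Θ : V ι → V ι) (O : Set (V ι)),
    AnalyticAt ℂ Θ 0 → Θ 0 = e x → (jac Θ 0).det ≠ 0 → O ∈ 𝓝 (0 : V ι) →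
    ∃ e' ∈ M.A, x ∈ e'.source ∧ e' x = 0 ∧ e'.target ⊆ O ∧ e'.source ⊆ e.source ∧
      ∀ w ∈ e'.target, e (e'.symm w) = Θ w ∧ tj e' e (e'.symm w) = jac Θ w := by
  intro e he x hx Θ O hΘ h0 hd hO
  obtain ⟨L, hL⟩ := jac_equiv hd
  have hs : HasStrictFDerivAt Θ (L : V ι →L[ℂ] V ι) 0 := hL ▸ hΘ.hasStrictFDerivAt
  have hc : ContinuousAt (fun w => (jac Θ w).det) 0 :=
    (Continuous.matrix_det continuous_id).continuousAt.comp (f := jac Θ)
      (continuousAt_pi.2 fun p => continuousAt_pi.2 fun i => (analyticAt_jac hΘ p i).continuousAt)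
  obtain ⟨U, hU, hUo, hU0⟩ := _root_.eventually_nhds_iff.1
    ((hΘ.eventually_analyticAt.and (hc.eventually_ne hd)).and (q := fun w => w ∈ O) hO)
  let Q := (hs.toOpenPartialHomeomorph Θ).restrOpen U hUo
  have q0 : (0 : V ι) ∈ Q.source := ⟨hs.mem_toOpenPartialHomeomorph_source, hU0⟩
  have q1 : ∀ w ∈ (e.trans Q.symm).target, e ((e.trans Q.symm).symm w) = Θ w :=
    fun w hw => e.right_inv hw.2
  refine ⟨e.trans Q.symm, trans_mem M he _ (fun z hz => ?_) fun z hz => ?_,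
    ⟨hx, show e x ∈ Q.target from h0 ▸ Q.map_source q0⟩, ?_, fun w hw => (hU w hw.1.2).2,
    fun y hy => hy.1, fun w hw => ⟨q1 w hw, ?_⟩⟩
  · have h1 := (hU _ (Q.map_target hz).2).1
    obtain ⟨L', hL'⟩ := jac_equiv h1.2
    exact Q.analyticAt_symm hz h1.1 hL'
  · exact (hU _ (Q.map_target hz).2).1.1
  · change Q.symm (e x) = 0
    rw [← h0]
    exact Q.left_inv q0
  · rw [tj, (e.trans Q.symm).right_inv hw]
    exact jac_congr (Filter.mem_of_superset ((e.trans Q.symm).open_target.mem_nhds hw) q1)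

theorem center : ∀ x, ∃ e ∈ M.A, x ∈ e.source ∧ e x = 0 := by
  intro x
  obtain ⟨e, he, h1, h2, -⟩ := newChart M _ (M.ch_mem x) x (M.mem x) (fun w => w + M.ch x x) univ
    (analyticAt_id.add analyticAt_const) (zero_add _) (by
      rw [show jac (fun w => w + M.ch x x) 0 = jac id 0 by simp [jac], jac_id, det_one]
      exact one_ne_zero) univ_mem
  exact ⟨e, he, h1, h2⟩

end Pool.Agent.Lib.MP_813db1_ag.HS.RepA
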