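import Pool.Agent.Lib.MP_813db1_ag.HS.Stmt2
import Pool.Agent.Lib.MP_813db1_ag.HS.Mat

/-! Intersection numbers along the family of twisted metrics. -/

namespace Pool.Agent.Lib.MP_813db1_ag.HS

open MeasureTheory Complex Matrix Filter Topology Set Metric
open scoped ContDiff ComplexOrder

namespace IntL

theorem prod_ge {κ : Type} (S : Finset κ) (x : κ → ℝ) (hx : ∀ i, 0 ≤ x i) :
    1 + ∑ i ∈ S, x i + ((∑ i ∈ S, x i) ^ 2 - ∑ i ∈ S, x i ^ 2) / 2 ≤ ∏ i ∈ S, (1 + x i) := by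
  classical
  induction S using Finset.induction_on with
  | empty => simp
  | insert j S hj ih =>
    rw [Finset.sum_insert hj, Finset.sum_insert hj, Finset.prod_insert hj]
    have h1 : ∑ i ∈ S, x i ^ 2 ≤ (∑ i ∈ S, x i) ^ 2 :=
      Finset.sum_sq_le_sq_sum_of_nonneg fun i _ => hx i
    have h2 := mul_le_mul_of_nonneg_left ih (add_nonneg zero_le_one (hx j))
    have h3 := mul_nonneg (hx j) (sub_nonneg.2 h1)
    nlinarith

variable {ι : Type} [Fintype ι] [DecidableEq ι]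

theorem eig {H G : Mat ι} (hH : H.PosDef) (hG : G.PosSemidef) : ∃ d : ι → ℝ, (∀ i, 0 ≤ d i) ∧
    trm H G = ∑ i, d i ∧ trm H (G * H⁻¹ * G) = ∑ i, d i ^ 2 ∧
    ∀ t : ℝ, (1 + (t : ℂ) • (G * H⁻¹)).det.re = ∏ i, (1 + t * d i) := by
  obtain ⟨T, d, hT, hd, rfl, rfl⟩ := Mat.sim hH hG
  have hT' : IsUnit Tᴴ.det := by rw [det_conjTranspose]; exact hT.star
  have e0 : Tᴴ * diagonal (fun i => (d i : ℂ)) * T * (Tᴴ * T)⁻¹ =
      Tᴴ * diagonal (fun i => (d i : ℂ)) * Tᴴ⁻¹ := by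
    rw [Matrix.mul_inv_rev, mul_assoc _ T, mul_nonsing_inv_cancel_left _ _ hT]
  refine ⟨d, hd, Mat.trm_diag hT d, ?_, fun t => ?_⟩
  · have e : Tᴴ * diagonal (fun i => (d i : ℂ)) * T * (Tᴴ * T)⁻¹ *
        (Tᴴ * diagonal (fun i => (d i : ℂ)) * T) =
        Tᴴ * diagonal (fun i => ((d i ^ 2 : ℝ) : ℂ)) * T := by
      rw [e0, mul_assoc, mul_assoc Tᴴ _ T, nonsing_inv_mul_cancel_left _ _ hT', ← mul_assoc,
        mul_assoc Tᴴ, diagonal_mul_diagonal]
      simp only [pow_two, ofReal_mul]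
    rw [e, Mat.trm_diag hT]
  · have e : 1 + (t : ℂ) • (Tᴴ * diagonal (fun i => (d i : ℂ)) * Tᴴ⁻¹) =
        Tᴴ * diagonal (fun i => ((1 + t * d i : ℝ) : ℂ)) * Tᴴ⁻¹ := by
      have : diagonal (fun i => ((1 + t * d i : ℝ) : ℂ)) =
          1 + (t : ℂ) • diagonal (fun i => (d i : ℂ)) := by
        rw [← diagonal_one, ← diagonal_smul, diagonal_add]
        congr 1
        funext i
        simp
      rw [this, mul_add, add_mul, mul_one, mul_nonsing_inv _ hT', Matrix.mul_smul, Matrix.smul_mul]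
    rw [e0, e, det_mul, det_mul, mul_right_comm, ← det_mul, mul_nonsing_inv _ hT', det_one, one_mul,
      det_diagonal, ← ofReal_prod, ofReal_re]

theorem det_bounds {H G : Mat ι} (hH : H.PosDef) (hG : G.PosSemidef) {t : ℝ} (ht : 0 ≤ t) :
    1 + t * trm H G + t ^ 2 * ((trm H G ^ 2 - trm H (G * H⁻¹ * G)) / 2) ≤
      (1 + (t : ℂ) • (G * H⁻¹)).det.re ∧
    (t * trm H G ≤ 1 →
      (1 + (t : ℂ) • (G * H⁻¹)).det.re ≤ 1 + t * trm H G + t ^ 2 * trm H G ^ 2) := by
  obtain ⟨d, hd, h1, h2, h3⟩ := eig hH hG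
  rw [h1, h2, h3]
  have hx : ∀ i, 0 ≤ t * d i := fun i => mul_nonneg ht (hd i)
  refine ⟨le_trans (le_of_eq ?_) (prod_ge Finset.univ _ hx), fun h => ?_⟩
  · simp only [mul_pow, ← Finset.mul_sum]
    ring
  · have a1 : ∏ i, (1 + t * d i) ≤ Real.exp (t * ∑ i, d i) := by
      rw [Finset.mul_sum, Real.exp_sum]
      exact Finset.prod_le_prod (fun i _ => by linarith [hx i])
        fun i _ => by linarith [Real.add_one_le_exp (t * d i)]
    have a0 : 0 ≤ t * ∑ i, d i := mul_nonneg ht (Finset.sum_nonneg fun i _ => hd i)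
    have a2 := (abs_le.1 (Real.abs_exp_sub_one_sub_id_le (x := t * ∑ i, d i)
      (by rwa [abs_of_nonneg a0]))).2
    rw [mul_pow] at a2
    linarith

theorem det_add {H G : Mat ι} (hH : H.PosDef) (t : ℝ) :
    (H + (t : ℂ) • G).det.re = (1 + (t : ℂ) • (G * H⁻¹)).det.re * H.det.re := by
  have hu : IsUnit H.det := (isUnit_iff_isUnit_det _).1 hH.isUnit
  have e : H + (t : ℂ) • G = (1 + (t : ℂ) • (G * H⁻¹)) * H := by
    rw [add_mul, one_mul, Matrix.smul_mul, nonsing_inv_mul_cancel_right _ _ hu]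
  rw [e, det_mul, (Mat.det' hH).2, re_mul_ofReal, ofReal_re]

theorem trm_ric {H G : Mat ι} (hH : H.PosDef) (ε : ℝ) :
    trm H (((ε : ℂ) • G - H) * H⁻¹ * G) = ε * trm H (G * H⁻¹ * G) - trm H G := by
  have hu : IsUnit H.det := (isUnit_iff_isUnit_det _).1 hH.isUnit
  simp only [trm, sub_mul, Matrix.smul_mul, mul_nonsing_inv _ hu, one_mul, trace_sub, trace_smul,
    smul_eq_mul, sub_re, re_ofReal_mul]

theorem expand (p : Polynomial ℝ) (ε : ℝ) : ∃ r : Polynomial ℝ, ∀ t, p.eval (ε + t) =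
    p.eval ε + t * p.derivative.eval ε + t ^ 2 * (p.derivative.derivative.eval ε / 2) +
      t ^ 3 * r.eval t := by
  set q := Polynomial.taylor ε p with hq
  have k : ∀ (f : Polynomial ℝ) (t : ℝ), f.eval t = f.divX.eval t * t + f.coeff 0 := fun f t => by
    conv_lhs => rw [← f.divX_mul_X_add]
    simp
  have c0 : q.coeff 0 = p.eval ε := Polynomial.taylor_coeff_zero ε p
  have c1 : q.coeff 1 = p.derivative.eval ε := Polynomial.taylor_coeff_one ε p
  have c2 : q.coeff 2 = p.derivative.derivative.eval ε / 2 := by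
    have h := congrFun (Polynomial.factorial_smul_hasseDeriv (R := ℝ) 2) p
    simp only [LinearMap.smul_apply, Function.iterate_succ, Function.iterate_zero,
      Function.comp_apply, id] at h
    rw [hq, Polynomial.taylor_coeff, ← h]
    simp
  refine ⟨q.divX.divX.divX, fun t => ?_⟩
  rw [add_comm ε t, ← Polynomial.taylor_eval, ← hq, k q, k q.divX, k q.divX.divX]
  simp only [Polynomial.coeff_divX, zero_add, one_add_one_eq_two, c0, c1, c2]
  ring

theorem coeffs (p : Polynomial ℝ) {ε A B K t0 : ℝ} (h0 : 0 < t0)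
    (h : ∀ t ∈ Ioc 0 t0, p.eval ε + t * A + t ^ 2 * (B / 2) ≤ p.eval (ε + t) ∧
      p.eval (ε + t) ≤ p.eval ε + t * A + t ^ 2 * K) :
    A = p.derivative.eval ε ∧ B ≤ p.derivative.derivative.eval ε := by
  obtain ⟨r, hr⟩ := expand p ε
  set c1 := p.derivative.eval ε
  set c2 := p.derivative.derivative.eval ε
  have lim : ∀ f : ℝ → ℝ, Continuous f → (∀ t ∈ Ioc 0 t0, 0 ≤ f t) → 0 ≤ f 0 := fun f hf hp =>
    ge_of_tendsto (hf.continuousWithinAt (s := Ioi 0) (x := 0))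
      (mem_of_superset (Ioc_mem_nhdsGT h0) hp)
  have hc := r.continuous
  have a1 := lim (fun t => c1 + t * (c2 / 2) + t ^ 2 * r.eval t - (A + t * (B / 2))) (by fun_prop)
    fun t ht => by
      have := (h t ht).1
      rw [hr] at this
      refine nonneg_of_mul_nonneg_right ?_ ht.1
      nlinarith
  have a2 := lim (fun t => A + t * K - (c1 + t * (c2 / 2) + t ^ 2 * r.eval t)) (by fun_prop)
    fun t ht => by
      have := (h t ht).2
      rw [hr] at this
      refine nonneg_of_mul_nonneg_right ?_ ht.1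
      nlinarith
  have e : A = c1 := by nlinarith
  have a3 := lim (fun t => c2 / 2 + t * r.eval t - B / 2) (by fun_prop) fun t ht => by
    have := (h t ht).1
    rw [hr, e] at this
    refine nonneg_of_mul_nonneg_right ?_ (pow_pos ht.1 2)
    nlinarith
  exact ⟨e, by nlinarith⟩

theorem core {X : Type} [TopologicalSpace X] [CompactSpace X] [MeasurableSpace X] [BorelSpace X]
    (μ : Measure X) [IsFiniteMeasure μ] (p : Polynomial ℝ) {ε n : ℝ} (hε : 0 < ε) (hn : 0 ≤ n)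
    {a b w c r : X → ℝ} {D : ℝ → X → ℝ} (ha : Continuous a) (hb : Continuous b)
    (hw : Continuous w) (hc : Continuous c) (hr : Continuous r)
    (hD : ∀ t, Continuous fun x => D t x * w x) (hw0 : ∀ x, 0 ≤ w x) (han : ∀ x, ε * a x ≤ n)
    (hD0 : ∀ x, D 0 x = 1)
    (hb1 : ∀ t ≥ 0, ∀ x, 1 + t * a x + t ^ 2 * ((a x ^ 2 - b x) / 2) ≤ D t x ∧
      (t * a x ≤ 1 → D t x ≤ 1 + t * a x + t ^ 2 * a x ^ 2))
    (hp : ∀ t, p.eval (ε + t) = ∫ x, D t x * w x ∂μ) (hV : 0 < p.eval ε)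
    (hG : ∫ x, (c x + (ε * b x - a x) - r x) * w x ∂μ = 0) :
    ∫ x, w x ∂μ = p.eval ε ∧ ∫ x, a x * w x ∂μ = p.derivative.eval ε ∧
      ∫ x, c x * w x ∂μ - ∫ x, r x * w x ∂μ ≤ p.derivative.eval ε -
        ε * (p.derivative.eval ε ^ 2 / p.eval ε - p.derivative.derivative.eval ε) := by
  have hi : ∀ f : X → ℝ, Continuous f → Integrable f μ := fun f hf =>
    hf.integrable_of_hasCompactSupport (HasCompactSupport.of_compactSpace f)
  have lin : ∀ (α β γ δ : ℝ), ∫ x, (α + β * a x + γ * a x ^ 2 + δ * b x) * w x ∂μ =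
      α * ∫ x, w x ∂μ + β * ∫ x, a x * w x ∂μ + γ * ∫ x, a x ^ 2 * w x ∂μ +
        δ * ∫ x, b x * w x ∂μ := by
    intro α β γ δ
    rw [← integral_const_mul, ← integral_const_mul, ← integral_const_mul, ← integral_const_mul,
      ← integral_add (hi _ (by fun_prop)) (hi _ (by fun_prop)),
      ← integral_add (hi _ (by fun_prop)) (hi _ (by fun_prop)),
      ← integral_add (hi _ (by fun_prop)) (hi _ (by fun_prop))]
    congr 1
    funext x
    ring
  have h0 : ∫ x, w x ∂μ = p.eval ε := by simpa [hD0] using (hp 0).symm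
  set A := ∫ x, a x * w x ∂μ
  set K := ∫ x, a x ^ 2 * w x ∂μ
  set B := ∫ x, b x * w x ∂μ
  obtain ⟨h1, h2⟩ := coeffs p (ε := ε) (A := A) (B := K - B) (K := K) (t0 := ε / (n + 1))
    (by positivity) fun t ht => by
      have e1 := lin 1 t (t ^ 2 / 2) (-(t ^ 2 / 2))
      have e2 := lin 1 t (t ^ 2) 0
      have i1 : ∫ x, (1 + t * a x + t ^ 2 / 2 * a x ^ 2 + -(t ^ 2 / 2) * b x) * w x ∂μ ≤
          ∫ x, D t x * w x ∂μ := integral_mono (hi _ (by fun_prop)) (hi _ (hD t)) fun x =>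
        mul_le_mul_of_nonneg_right (by linarith [(hb1 t ht.1.le x).1]) (hw0 x)
      have i2 : ∫ x, D t x * w x ∂μ ≤
          ∫ x, (1 + t * a x + t ^ 2 * a x ^ 2 + 0 * b x) * w x ∂μ :=
        integral_mono (hi _ (hD t)) (hi _ (by fun_prop)) fun x => by
          refine mul_le_mul_of_nonneg_right ?_ (hw0 x)
          have k1 := (le_div_iff₀ (by positivity)).1 ht.2
          have k2 : ε * (t * a x) ≤ ε * 1 := by nlinarith [han x, ht.1]
          linarith [(hb1 t ht.1.le x).2 (le_of_mul_le_mul_left k2 hε)]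
      rw [hp t, ← h0]
      constructor <;> linarith
  refine ⟨h0, h1, ?_⟩
  have cs : A ^ 2 / p.eval ε ≤ K := by
    have e1 := lin ((A / p.eval ε) ^ 2) (-(2 * (A / p.eval ε))) 1 0
    have i1 : 0 ≤ ∫ x, ((A / p.eval ε) ^ 2 + -(2 * (A / p.eval ε)) * a x + 1 * a x ^ 2 +
        0 * b x) * w x ∂μ := integral_nonneg fun x =>
      mul_nonneg (by nlinarith [sq_nonneg (A / p.eval ε - a x)]) (hw0 x)
    rw [e1, h0] at i1
    have e2 : (A / p.eval ε) ^ 2 * p.eval ε = A ^ 2 / p.eval ε := by field_simp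
    have e3 : A / p.eval ε * A = A ^ 2 / p.eval ε := by ring
    linarith
  have g1 : ∫ x, (c x + (ε * b x - a x) - r x) * w x ∂μ =
      ∫ x, c x * w x ∂μ - ∫ x, r x * w x ∂μ +
        ∫ x, (0 + -1 * a x + 0 * a x ^ 2 + ε * b x) * w x ∂μ := by
    rw [← integral_sub (hi _ (by fun_prop)) (hi _ (by fun_prop)),
      ← integral_add (hi _ (by fun_prop)) (hi _ (by fun_prop))]
    congr 1
    funext x
    ring
  rw [hG, lin] at g1
  rw [← h1]
  nlinarith

end IntL

open IntL in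
theorem intS (ha : RepA) (hb : RepB) (hc : RepC) (hv : VolS) (hi : InvS) (hg : GreenS)
    (hs : SchwS) (hp : PolyS) : IntS := by
  intro ι X _ _ _ _ _ _ _ M g μ u p hK hμ hN hu hpv hpos hm
  have A := ha ι X M
  have B := hb ι X M
  have C := hc ι X M
  have := ((hv ι X M g hK).2 μ hμ).fin
  have ct : ∀ f, M.Ck ∞ f → Continuous f := fun f hf =>
    A.cont f fun e he z hz => (hf e he z hz).of_le (by simp)
  have gc := ((A.isK_iff g).1 hK).1
  have gp := ((A.isK_iff g).1 hK).2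
  have key : ∀ ε ∈ Ioc (0 : ℝ) 1,
      (∀ t : ℝ, p.eval (ε + t) = ∫ x, (1 + (t : ℂ) • (g x * (M.hm g ε (u ε) x)⁻¹)).det.re *
        Real.exp (u ε x) ∂μ) ∧
      ∫ x, Real.exp (u ε x) ∂μ = p.eval ε ∧
      ∫ x, trm (M.hm g ε (u ε) x) (g x) * Real.exp (u ε x) ∂μ = p.derivative.eval ε ∧
      ∫ x, M.clX g (M.hm g ε (u ε)) x * Real.exp (u ε x) ∂μ -
        ∫ x, M.rqX g x (M.hm g ε (u ε) x)⁻¹ * Real.exp (u ε x) ∂μ ≤ p.derivative.eval ε -
        ε * (p.derivative.eval ε ^ 2 / p.eval ε - p.derivative.derivative.eval ε) := by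
    intro ε hε
    obtain ⟨u1, hk, hr⟩ := hu ε hε
    have sw := hs ι X M g ε (u ε) hK hN hε.1 (hu ε hε)
    set h := M.hm g ε (u ε) with hh
    have hc' := ((A.isK_iff h).1 hk).1
    have hp' := ((A.isK_iff h).1 hk).2
    have e1 : ∀ (t : ℝ) x, rat (fun y => h y + (t : ℂ) • g y) g x =
        (1 + (t : ℂ) • (g x * (h x)⁻¹)).det.re * Real.exp (u ε x) := fun t x => by
      rw [← hr x, rat, rat, det_add (hp' x), mul_div_assoc]
    have e2 : ∀ t : ℝ, p.eval (ε + t) =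
        ∫ x, (1 + (t : ℂ) • (g x * (h x)⁻¹)).det.re * Real.exp (u ε x) ∂μ := fun t => by
      have k1 := A.clF_add _ _ (A.clF_smul (ε + t) g gc) (A.clF_smul (-1) _ (B.ric_cl g hK))
      have k2 := hi ι X M g _ μ (u ε) hK hμ k1 u1
      have k3 : (fun y => ((ε + t : ℝ) : ℂ) • g y + ((-1 : ℝ) : ℂ) • M.ricF g y + M.ddc (u ε) y) =
          fun y => h y + (t : ℂ) • g y := by
        funext y
        rw [hh, Atl.hm]
        push_cast
        module
      have k4 : (fun y => ((ε + t : ℝ) : ℂ) • g y + ((-1 : ℝ) : ℂ) • M.ricF g y) =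
          fun y => ((ε + t : ℝ) : ℂ) • g y - M.ricF g y := by
        funext y
        push_cast
        module
      rw [k3, k4] at k2
      rw [hpv, Atl.vol, ← k2]
      simp only [e1]
    have a1 : M.Ck ∞ fun x => trm (h x) (g x) :=
      A.ck_trm h g hk fun e he => (hK e he).1.1
    have one : M.Ck 1 fun _ => (1 : ℝ) := fun e he z hz => contDiffAt_const
    obtain ⟨lc, -, gr⟩ := hg.real ι X M g h μ _ _ hK hk hμ
      (fun e he z hz => (a1 e he z hz).of_le (WithTop.coe_le_coe.2 (le_top : (2 : ℕ∞) ≤ ⊤))) one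
    have e3 : ∀ x, M.lap h (fun y => trm (h y) (g y)) x = M.clX g h x +
        (ε * trm (h x) (g x * (h x)⁻¹ * g x) - trm (h x) (g x)) - M.rqX g x (h x)⁻¹ := fun x => by
      rw [(C.cl g h hK hk x).1, (sw x).1, trm_ric (hp' x)]
    have e4 : ∀ x, M.grad h (fun y => trm (h y) (g y)) (fun _ => 1) x = 0 := fun x => by
      have : M.dfn (fun _ => (1 : ℝ)) x = 0 := by
        funext i
        have : fn (ι := ι) (fun _ : X => (1 : ℝ)) (M.ch x) = fun _ => ((1 : ℝ) : ℂ) := rfl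
        simp [Atl.dfn, this, dz]
      simp [Atl.grad, grL, this]
    have c1 := ct _ (C.ck g h hK hk).1
    have c2 := ct _ (C.ck g h hK hk).2
    have c3 := ct _ a1
    have c4 : Continuous fun x => trm (h x) (g x * (h x)⁻¹ * g x) := by
      have : (fun x => trm (h x) (g x * (h x)⁻¹ * g x)) = fun x =>
          (M.lap h (fun y => trm (h y) (g y)) x - M.clX g h x + M.rqX g x (h x)⁻¹ +
            trm (h x) (g x)) / ε := by
        funext x
        rw [e3, eq_div_iff hε.1.ne']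
        ring
      rw [this]
      exact (((lc.sub c1).add c2).add c3).div_const ε
    refine ⟨e2, core μ p hε.1 (Nat.cast_nonneg _) c3 c4 (ct _ u1).rexp c1 c2 (fun t => ?_)
      (fun x => (Real.exp_pos _).le) (fun x => (sw x).2) (fun x => by simp)
      (fun t ht x => det_bounds (hp' x) (gp x).posSemidef ht) e2 (hpos ε hε.1) ?_⟩
    · simp only [← e1]
      exact ct _ (A.ck_rat _ g (fun e he =>
        (A.clF_add _ _ hc' (A.clF_smul t g gc) e he).1) hK)
    · rw [← gr]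
      simp only [e3, e4, hr, one_mul, add_zero]
  obtain ⟨p1, p2, p3, p4, p5⟩ := hp p hpos
  have ev : ∀ᶠ ε in 𝓝[>] (0 : ℝ), ε ∈ Ioc (0 : ℝ) 1 := Ioc_mem_nhdsGT one_pos
  have dn : ∀ ε (f : X → ℝ), ∫ x, f x * M.den μ g ε (u ε) x ∂μ =
      (∫ x, f x * Real.exp (u ε x) ∂μ) / p.eval ε := fun ε f => by
    rw [← integral_div, hpv]
    simp only [Atl.den, mul_div_assoc]
  have dn' : ∀ ε (f : X → ℝ), ∫ x, ε * f x * M.den μ g ε (u ε) x ∂μ =
      ε * (∫ x, f x * Real.exp (u ε x) ∂μ) / p.eval ε := fun ε f => by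
    rw [dn, ← integral_const_mul]
    simp only [mul_assoc]
  have lim : Tendsto (fun ε => ε * p.derivative.eval ε / p.eval ε -
      (ε * p.derivative.eval ε / p.eval ε) ^ 2 +
      ε ^ 2 * p.derivative.derivative.eval ε / p.eval ε) (𝓝[>] 0) (𝓝 0) := by
    convert (p3.sub (p3.pow 2)).add p4 using 2
    ring
  have bd : ∀ ε ∈ Ioc (0 : ℝ) 1,
      0 ≤ ∫ x, ε * M.clX g (M.hm g ε (u ε)) x * M.den μ g ε (u ε) x ∂μ ∧
      ∫ x, ε * M.rqX g x (M.hm g ε (u ε) x)⁻¹ * M.den μ g ε (u ε) x ∂μ ≤ 0 ∧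
      ∫ x, ε * M.clX g (M.hm g ε (u ε)) x * M.den μ g ε (u ε) x ∂μ -
        ∫ x, ε * M.rqX g x (M.hm g ε (u ε) x)⁻¹ * M.den μ g ε (u ε) x ∂μ ≤
      ε * p.derivative.eval ε / p.eval ε - (ε * p.derivative.eval ε / p.eval ε) ^ 2 +
        ε ^ 2 * p.derivative.derivative.eval ε / p.eval ε := by
    intro ε hε
    have hk := (hu ε hε).2.1
    have hV := hpos ε hε.1
    have h0 := hε.1
    rw [dn', dn']
    refine ⟨div_nonneg (mul_nonneg h0.le (integral_nonneg fun x =>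
      mul_nonneg (C.cl g _ hK hk x).2 (Real.exp_pos _).le)) hV.le,
      div_nonpos_of_nonpos_of_nonneg (mul_nonpos_of_nonneg_of_nonpos h0.le (integral_nonpos fun x =>
        mul_nonpos_of_nonpos_of_nonneg (C.rq_nonpos g hK hN x _
          (((A.isK_iff _).1 hk).2 x).inv.posSemidef) (Real.exp_pos _).le)) hV.le, ?_⟩
    rw [← sub_div, ← mul_sub]
    refine (div_le_div_of_nonneg_right (mul_le_mul_of_nonneg_left (key ε hε).2.2.2 h0.le)
      hV.le).trans (le_of_eq ?_)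
    field_simp
    ring
  refine ⟨hu, hm, fun ε hε => hpv ε ▸ hpos ε hε.1, fun ε hε => ?_, ⟨_, p1, ?_⟩, ?_, ?_, ?_,
    fun t ht => ?_⟩
  · have := dn ε fun _ => 1
    simp only [one_mul] at this
    rw [this, (key ε hε).2.1, div_self (hpos ε hε.1).ne']
  · simpa only [hpv] using p2
  · refine p3.congr' (ev.mono fun ε hε => ?_)
    simp only
    rw [dn', (key ε hε).2.2.1]
  · exact tendsto_of_tendsto_of_tendsto_of_le_of_le' tendsto_const_nhds lim
      (ev.mono fun ε hε => (bd ε hε).1) (ev.mono fun ε hε => by linarith [bd ε hε |>.2.1, bd ε hε |>.2.2])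
  · have l2 := lim.neg
    rw [neg_zero] at l2
    exact tendsto_of_tendsto_of_tendsto_of_le_of_le' l2 tendsto_const_nhds
      (ev.mono fun ε hε => by linarith [bd ε hε |>.1, bd ε hε |>.2.2])
      (ev.mono fun ε hε => (bd ε hε).2.1)
  · refine (p5 t ht).congr' (ev.mono fun ε hε => ?_)
    simp only
    rw [dn, ← (key ε hε).1 (t * ε)]
    congr 2
    ring

end Pool.Agent.Lib.MP_813db1_ag.HS
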