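import Pool.Agent.Lib.MP_813db1_ag.HS.Stmt2

/-! The Schwarz lemma and the volume polynomial. -/

namespace Pool.Agent.Lib.MP_813db1_ag.HS

open MeasureTheory Complex Matrix Filter Topology Set Metric
open scoped ContDiff ComplexOrder

namespace Schw

variable {ι : Type} [Fintype ι] [DecidableEq ι]

theorem trm_neg (H B : Mat ι) : trm H (-B) = -trm H B := by
  simp [trm]

theorem trm_lin (H A B : Mat ι) (c : ℝ) : trm H ((c : ℂ) • A - B) = c * trm H A - trm H B := by
  simp [trm, sub_mul]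

variable {X : Type} [TopologicalSpace X]

theorem ck_le {M : Atl ι X} {u : X → ℝ} (h : M.Ck ∞ u) (k : ℕ) : M.Ck k u :=
  fun e he z hz => (h e he z hz).of_le (by exact_mod_cast le_top)

theorem clF_sub {M : Atl ι X} (A : RepA' M) (B : RepB' M) {g : X → Mat ι} (hg : M.IsK g) (s : ℝ) :
    M.ClF fun y => (s : ℂ) • g y - M.ricF g y := by
  have h := A.clF_add _ _ (A.clF_smul s g ((A.isK_iff g).1 hg).1)
    (A.clF_smul (-1) _ (B.ric_cl g hg))
  convert h using 2 with y
  simp [sub_eq_add_neg]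

theorem rat_eq (hm : MatS) (G R : Mat ι) (hG : G.PosDef) (s : ℝ) :
    ((s : ℂ) • G - R).det.re / G.det.re =
      ∑ k ∈ Finset.range (Fintype.card ι + 1), ((G⁻¹ * R).charpoly.coeff k).re * s ^ k := by
  obtain ⟨h1, h2⟩ := hm.det ι G hG
  have hu : IsUnit G.det := by
    rw [h2]
    exact isUnit_iff_ne_zero.2 (by exact_mod_cast h1.ne')
  have e1 : (s : ℂ) • G - R = G * (Matrix.scalar ι (s : ℂ) - G⁻¹ * R) := by
    rw [mul_sub, ← Matrix.mul_assoc, Matrix.mul_nonsing_inv _ hu, Matrix.one_mul]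
    congr 1
    rw [Matrix.scalar_apply, ← Matrix.smul_eq_mul_diagonal]
  rw [e1, Matrix.det_mul, ← Matrix.eval_charpoly,
    Polynomial.eval_eq_sum_range' (n := Fintype.card ι + 1)
      (by rw [Matrix.charpoly_natDegree_eq_dim]; omega)]
  rw [h2, Complex.re_ofReal_mul, Complex.ofReal_re, mul_div_cancel_left₀ _ h1.ne', Complex.re_sum]
  refine Finset.sum_congr rfl fun k _ => ?_
  rw [← Complex.ofReal_pow, Complex.re_mul_ofReal]

theorem coeff_cont {Y : Type} [TopologicalSpace Y] (n : ℕ) (c : ℕ → Y → ℝ)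
    (h : ∀ s : ℝ, Continuous fun x => ∑ k ∈ Finset.range (n + 1), c k x * s ^ k) (k : ℕ)
    (hk : k < n + 1) : Continuous (c k) := by
  have key : ∀ x, c k x = ∑ j ∈ Finset.range (n + 1),
      (∑ k ∈ Finset.range (n + 1), c k x * (j : ℝ) ^ k) *
        (Lagrange.basis (Finset.range (n + 1)) (fun j : ℕ => (j : ℝ)) j).coeff k := by
    intro x
    set q : Polynomial ℝ := ∑ k ∈ Finset.range (n + 1), Polynomial.C (c k x) * Polynomial.X ^ k
      with hq
    have hd : q.degree < (Finset.range (n + 1)).card := by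
      rw [Finset.card_range]
      refine (Polynomial.degree_lt_iff_coeff_zero _ _).2 fun m hm => ?_
      simp [hq, Polynomial.coeff_X_pow]
      omega
    have e := Lagrange.eq_interpolate (v := fun j : ℕ => (j : ℝ))
      (fun a _ b _ hab => Nat.cast_injective hab) hd
    have e2 : q.coeff k = c k x := by
      simp [hq, Polynomial.coeff_X_pow, hk]
    rw [← e2, e, Lagrange.interpolate_apply, Polynomial.finsetSum_coeff]
    refine Finset.sum_congr rfl fun j _ => ?_
    rw [Polynomial.coeff_C_mul]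
    simp [hq, Polynomial.eval_finsetSum]
  rw [show c k = _ from funext key]
  exact continuous_finsetSum _ fun j _ => (h j).mul continuous_const

end Schw

open Schw

theorem schw (ha : RepA) (hb : RepB) (hc : RepC) (hm : MatS) : SchwS := by
  intro ι X _ _ _ _ M g ε u hg hs hε hsol x
  have A := ha _ _ M
  have B := hb _ _ M
  have C := hc _ _ M
  obtain ⟨hu, hh, hr⟩ := hsol
  have hric : ∀ x, M.ricF (M.hm g ε u) x = (ε : ℂ) • g x - M.hm g ε u x := by
    intro x
    rw [B.ric_rat _ g hh hg x]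
    have : (fun y => Real.log (rat (M.hm g ε u) g y)) = u := by
      funext y
      rw [hr, Real.log_exp]
    rw [this, Atl.hm]
    abel
  refine ⟨hric x, ?_⟩
  set h := M.hm g ε u with hdef
  have hS : M.Ck ∞ fun y => trm (h y) (g y) := A.ck_trm h g hh fun e he => (hg e he).1.1
  have hcont : Continuous fun y => trm (h y) (g y) := A.cont _ (ck_le hS 0)
  obtain ⟨x0, -, hx0⟩ := isCompact_univ.exists_isMaxOn ⟨x, mem_univ x⟩ hcont.continuousOn
  have hmax : ∀ y, trm (h y) (g y) ≤ trm (h x0) (g x0) := fun y => hx0 (mem_univ y)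
  have hp : (h x0).PosDef := ((A.isK_iff h).1 hh).2 x0
  have gp : (g x0).PosDef := ((A.isK_iff g).1 hg).2 x0
  have h1 := hm.trm_nonneg ι _ _ hp (B.max _ x0 (ck_le hS 2) hmax)
  rw [trm_neg] at h1
  obtain ⟨h2, h3⟩ := C.cl g h hg hh x0
  have h4 := C.rq_nonpos g hg hs x0 _ hp.inv.posSemidef
  have hu' : IsUnit (h x0).det := (Matrix.isUnit_iff_isUnit_det _).1 hp.isUnit
  have h5 : M.ricF h x0 * (h x0)⁻¹ * g x0 = (ε : ℂ) • (g x0 * (h x0)⁻¹ * g x0) - g x0 := by
    rw [hric x0, sub_mul, sub_mul, Matrix.mul_nonsing_inv _ hu', Matrix.one_mul,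
      Matrix.smul_mul, Matrix.smul_mul]
  rw [h5, trm_lin, Atl.lap] at h2
  have h6 := (hm.sq ι _ _ hp gp.posSemidef).1
  have h7 := hm.trm_nonneg ι _ _ hp gp.posSemidef
  have hn : (0 : ℝ) ≤ Fintype.card ι := Nat.cast_nonneg _
  have h8 : ε * trm (h x0) (g x0) ≤ Fintype.card ι := by
    rcases h7.eq_or_lt with h0 | h0
    · rw [← h0, mul_zero]
      exact hn
    · have h9 : ε * trm (h x0) (g x0 * (h x0)⁻¹ * g x0) ≤ trm (h x0) (g x0) := by linarith
      have h10 := mul_le_mul_of_nonneg_left h9 hn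
      have h11 := mul_le_mul_of_nonneg_left h6 hε.le
      refine le_of_mul_le_mul_right ?_ h0
      nlinarith
  exact (mul_le_mul_of_nonneg_left (hmax x) hε.le).trans h8

theorem volP (ha : RepA) (hb : RepB) (hv : VolS) (hi : InvS) (hm : MatS) : VolPS := by
  intro ι X _ _ _ _ _ _ _ _ M g μ hg hμ
  have A := ha _ _ M
  have B := hb _ _ M
  have W := (hv ι X M g hg).2 μ hμ
  have := W.fin
  have := W.pos
  have gp : ∀ x, (g x).PosDef := ((A.isK_iff g).1 hg).2
  set c : ℕ → X → ℝ := fun k x => (((g x)⁻¹ * M.ricF g x).charpoly.coeff k).re with hcdef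
  have hrat : ∀ (s : ℝ) x, rat (fun y => (s : ℂ) • g y - M.ricF g y) g x =
      ∑ k ∈ Finset.range (Fintype.card ι + 1), c k x * s ^ k := fun s x =>
    rat_eq hm _ _ (gp x) s
  have hcr : ∀ F, M.ClF F → Continuous (rat F g) := fun F hF =>
    A.cont _ (ck_le (A.ck_rat F g (fun e he => (hF e he).1) hg) 0)
  have hcc : ∀ k < Fintype.card ι + 1, Continuous (c k) := coeff_cont _ c fun s => by
    rw [← show rat (fun y => (s : ℂ) • g y - M.ricF g y) g = _ from funext (hrat s)]
    exact hcr _ (clF_sub A B hg s)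
  have hint : ∀ f : X → ℝ, Continuous f → Integrable f μ := fun f hf =>
    hf.integrable_of_hasCompactSupport (HasCompactSupport.of_compactSpace f)
  have hz : ∀ k, Fintype.card ι < k → ∀ x, c k x = 0 := by
    intro k hk x
    simp only [hcdef]
    rw [Polynomial.coeff_eq_zero_of_natDegree_lt (by rwa [Matrix.charpoly_natDegree_eq_dim]),
      Complex.zero_re]
  set p : Polynomial ℝ := ∑ k ∈ Finset.range (Fintype.card ι + 1),
    Polynomial.C (∫ x, c k x ∂μ) * Polynomial.X ^ k with hp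
  have hev : ∀ s, p.eval s = M.vol μ g s := by
    intro s
    rw [Atl.vol, show rat (fun y => (s : ℂ) • g y - M.ricF g y) g = _ from funext (hrat s),
      integral_finsetSum _ fun k hk => (hint _ (hcc k (Finset.mem_range.1 hk))).mul_const _]
    simp [hp, Polynomial.eval_finsetSum, integral_mul_const]
  have hco : ∀ k, p.coeff k = ∫ x, c k x ∂μ := by
    intro k
    by_cases hk : k ≤ Fintype.card ι
    · simp [hp, Polynomial.coeff_X_pow, hk]
    · simp [hp, Polynomial.coeff_X_pow, hk, hz k (not_le.1 hk)]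
  refine ⟨p, hev, hco, ?_, ?_⟩
  · refine p.natTrailingDegree_le_natDegree.trans (Polynomial.natDegree_le_iff_coeff_eq_zero.2 ?_)
    intro k hk
    simp [hco, hz k hk]
  · intro hsol s hs
    obtain ⟨u, hu, hh, -⟩ := hsol (min s 1) ⟨lt_min hs one_pos, min_le_right _ _⟩
    rw [hev, Atl.vol, ← hi ι X M g _ μ u hg hμ (clF_sub A B hg s) hu]
    have hcl := A.clF_add _ _ (clF_sub A B hg s) (B.ddc_cl u hu)
    have hpos : ∀ x, 0 < rat (fun y => (s : ℂ) • g y - M.ricF g y + M.ddc u y) g x := by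
      intro x
      have e : (s : ℂ) • g x - M.ricF g x + M.ddc u x =
          M.hm g (min s 1) u x + ((s - min s 1 : ℝ) : ℂ) • g x := by
        rw [Atl.hm, Complex.ofReal_sub, sub_smul]
        abel
      have hpd : ((s : ℂ) • g x - M.ricF g x + M.ddc u x).PosDef := by
        rw [e]
        refine (((A.isK_iff _).1 hh).2 x).add_posSemidef ((gp x).posSemidef.smul ?_)
        exact_mod_cast sub_nonneg.2 (min_le_left s 1)
      exact div_pos (hm.det ι _ hpd).1 (hm.det ι _ (gp x)).1
    obtain ⟨x⟩ := ‹Nonempty X›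
    exact (hcr _ hcl).integral_pos_of_hasCompactSupport_nonneg_nonzero
      (HasCompactSupport.of_compactSpace _) (fun x => (hpos x).le) (hpos x).ne'

end Pool.Agent.Lib.MP_813db1_ag.HS
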