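import Pool.Agent.Lib.MP_813db1_ag.HS.Peak_A

/-! Peak functions with disjoint supports. -/

namespace Pool.Agent.Lib.MP_813db1_ag.HS

open MeasureTheory Complex Matrix Filter Topology Set Metric
open scoped ContDiff ComplexOrder

namespace Peak

variable {τ : Type} [Fintype τ] [DecidableEq τ]

omit [DecidableEq τ] in
theorem bump (τ : Type) [Fintype τ] : ∃ D ≥ (0 : ℝ), ∀ (z : V τ) (ρ : ℝ), 0 < ρ →
    ∃ χ : V τ → ℂ, ContDiff ℝ ∞ χ ∧ (∀ y, ‖y - z‖ ≤ ρ → χ y = 1) ∧
      (∀ y, 2 * ρ ≤ ‖y - z‖ → χ y = 0) ∧ ∀ y, ‖fderiv ℝ χ y‖ ≤ D / ρ := by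
  let b : ContDiffBump (0 : V τ) := ⟨1, 2, one_pos, one_lt_two⟩
  have hb : ContDiff ℝ ∞ fun x => ((b x : ℝ) : ℂ) := ofRealCLM.contDiff.comp b.contDiff
  have hs : HasCompactSupport fun x => ((b x : ℝ) : ℂ) :=
    b.hasCompactSupport.comp_left (g := fun t : ℝ => (t : ℂ)) ofReal_zero
  obtain ⟨D, hD⟩ := (hb.continuous_fderiv (by simp)).bounded_above_of_compact_support
    (hs.fderiv ℝ)
  have hD0 : 0 ≤ D := le_trans (ContinuousLinearMap.opNorm_nonneg _) (hD 0)
  refine ⟨D, hD0, fun z ρ hρ => ⟨fun y => ((b (ρ⁻¹ • (y - z)) : ℝ) : ℂ), ?_, ?_, ?_, ?_⟩⟩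
  · exact hb.comp (by fun_prop)
  · intro y hy
    have : ρ⁻¹ • (y - z) ∈ closedBall (0 : V τ) b.rIn := by
      rw [mem_closedBall_zero_iff, norm_smul, Real.norm_of_nonneg (by positivity),
        inv_mul_le_iff₀ hρ]
      simpa [b] using hy
    simp only [b.one_of_mem_closedBall this, ofReal_one]
  · intro y hy
    have : b.rOut ≤ dist (ρ⁻¹ • (y - z)) 0 := by
      rw [dist_zero_right, norm_smul, Real.norm_of_nonneg (by positivity), le_inv_mul_iff₀ hρ]
      simp only [b]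
      linarith
    simp only [b.zero_of_le_dist this, ofReal_zero]
  · intro y
    have h1 : HasFDerivAt (fun y : V τ => ρ⁻¹ • (y - z)) (ρ⁻¹ • ContinuousLinearMap.id ℝ (V τ)) y :=
      ((hasFDerivAt_id y).sub_const z).const_smul ρ⁻¹
    have h2 := ((hb.differentiable (by simp) (ρ⁻¹ • (y - z))).hasFDerivAt.comp y h1).fderiv
    have e : (fun y : V τ => ((b (ρ⁻¹ • (y - z)) : ℝ) : ℂ)) =
        (fun x => ((b x : ℝ) : ℂ)) ∘ fun y : V τ => ρ⁻¹ • (y - z) := rfl
    rw [e, h2]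
    refine (ContinuousLinearMap.opNorm_comp_le _ _).trans ?_
    rw [div_eq_mul_inv]
    refine mul_le_mul (hD _) ?_ (norm_nonneg _) hD0
    rw [norm_smul, Real.norm_of_nonneg (by positivity)]
    exact mul_le_of_le_one_right (by positivity) ContinuousLinearMap.norm_id_le

theorem dzb_mul_hol {χ E : V τ → ℂ} {y : V τ} (hχ : DifferentiableAt ℝ χ y)
    (hE : DifferentiableAt ℂ E y) (k : τ) :
    ‖dzb (fun w => χ w * E w) k y‖ ≤ ‖fderiv ℝ χ y‖ * ‖E y‖ := by
  have h1 := (hχ.hasFDerivAt.mul (hE.hasFDerivAt.restrictScalars ℝ)).fderiv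
  have e : (fun w => χ w * E w) = χ * E := rfl
  have e2 : (Pi.single k I : V τ) = I • (Pi.single k 1 : V τ) := by
    rw [← Pi.single_smul, smul_eq_mul, mul_one]
  have e3 : fderiv ℂ E y (Pi.single k I) = I * fderiv ℂ E y (Pi.single k 1) := by
    rw [e2, map_smul, smul_eq_mul]
  have h2 : dzb (fun w => χ w * E w) k y =
      (fderiv ℝ χ y (Pi.single k 1) + I * fderiv ℝ χ y (Pi.single k I)) / 2 * E y := by
    rw [dzb, e, h1]
    simp only [_root_.add_apply, _root_.smul_apply, ContinuousLinearMap.coe_restrictScalars',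
      smul_eq_mul, e3]
    linear_combination (χ y * fderiv ℂ E y (Pi.single k 1) / 2) * I_mul_I
  rw [h2, norm_mul]
  refine mul_le_mul_of_nonneg_right ?_ (norm_nonneg _)
  have a1 := (fderiv ℝ χ y).le_opNorm (Pi.single k 1)
  have a2 := (fderiv ℝ χ y).le_opNorm (Pi.single k I)
  rw [Pi.norm_single] at a1 a2
  simp only [norm_one, norm_I, mul_one] at a1 a2
  have a3 := norm_add_le (fderiv ℝ χ y (Pi.single k 1)) (I * fderiv ℝ χ y (Pi.single k I))
  rw [norm_mul, norm_I, one_mul] at a3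
  rw [norm_div, Complex.norm_ofNat]
  linarith

theorem shp_le {H : V τ → Mat τ} {F : V τ → ℂ} {y : V τ} {L X : ℝ} (hX : 0 ≤ X)
    (hL : Bd L (H y)⁻¹) (hF : ∀ k, ‖dzb F k y‖ ≤ X) :
    ‖shp H F y‖ ≤ Fintype.card τ * |L| * X := by
  refine (pi_norm_le_iff_of_nonneg (by positivity)).2 fun i => ?_
  refine (norm_sum_le _ _).trans ?_
  rw [mul_assoc, ← nsmul_eq_mul, ← Finset.card_univ]
  refine Finset.sum_le_card_nsmul _ _ _ fun j _ => ?_
  rw [norm_mul]
  exact mul_le_mul ((hL j i).trans (le_abs_self L)) (hF j) (norm_nonneg _) (abs_nonneg L)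

/-- one peak function. -/
theorem single {L θ c c1 C1 D R s : ℝ} (hθ : 0 < θ) (hc : 0 < c) (hc1 : 0 < c1) (hC1 : 0 ≤ C1)
    (hD : 0 ≤ D) (hR : 1 ≤ R) (hs : 0 < s)
    (hb : ∀ (z : V τ) (ρ : ℝ), 0 < ρ → ∃ χ : V τ → ℂ, ContDiff ℝ ∞ χ ∧
      (∀ y, ‖y - z‖ ≤ ρ → χ y = 1) ∧ (∀ y, 2 * ρ ≤ ‖y - z‖ → χ y = 0) ∧
      ∀ y, ‖fderiv ℝ χ y‖ ≤ D / ρ)
    (hRR : (Fintype.card τ * |L| * D) ^ 2 / c * Real.exp (-c1 * R) *
      (2 * R) ^ Module.finrank ℝ (V τ) ≤ θ * Real.exp (-C1))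
    {H : V τ → Mat τ} {ψ : V τ → ℝ} {z : V τ} {q : V τ → ℂ} (hq : ContDiff ℂ ∞ q)
    (hψ : ContinuousOn ψ (closedBall z (2 * (R / s))))
    (hy : ∀ y ∈ closedBall z (2 * (R / s)), Bd L (H y)⁻¹ ∧
      (∀ v : V τ, c * ‖v‖ ^ 2 ≤ nV (H y) v ∧ c * nV (H y) v ≤ ‖v‖ ^ 2) ∧
      c1 * ‖y - z‖ ^ 2 ≤ ψ y - 2 * (q y).re ∧ ψ y - 2 * (q y).re ≤ C1 * ‖y - z‖ ^ 2) :
    ∃ F : V τ → ℂ, ContDiff ℝ ∞ F ∧ tsupport F ⊆ closedBall z (2 * (R / s)) ∧
      0 < ∫ y, ‖F y‖ ^ 2 * Real.exp (-s ^ 2 * ψ y) ∧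
      ∫ y, nV (H y) (shp H F y) * Real.exp (-s ^ 2 * ψ y) ≤
        θ * s ^ 2 * ∫ y, ‖F y‖ ^ 2 * Real.exp (-s ^ 2 * ψ y) := by
  have hρ : 0 < R / s := by positivity
  obtain ⟨χ, hχ, h1, h0, hdχ⟩ := hb z (R / s) hρ
  set E : V τ → ℂ := fun y => exp (((s ^ 2 : ℝ) : ℂ) * q y) with hE
  have hEc : ContDiff ℂ ∞ E := (contDiff_const.mul hq).cexp
  have hEn : ∀ y, ‖E y‖ ^ 2 * Real.exp (-s ^ 2 * ψ y) =
      Real.exp (-(s ^ 2 * (ψ y - 2 * (q y).re))) := by
    intro y
    rw [hE, Complex.norm_exp, re_ofReal_mul, ← Real.exp_nat_mul, ← Real.exp_add]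
    congr 1
    push_cast
    ring
  have hFc : ContDiff ℝ ∞ fun y => χ y * E y := hχ.mul (hEc.restrict_scalars ℝ)
  have hts : tsupport (fun y => χ y * E y) ⊆ closedBall z (2 * (R / s)) := by
    refine closure_minimal (fun y hy => ?_) isClosed_closedBall
    by_contra hn
    rw [mem_closedBall, dist_eq_norm, not_le] at hn
    exact hy (by simp only [h0 y hn.le, zero_mul])
  set om := (volume : Measure (V τ)).real (closedBall 0 1) with hom
  have hom0 : 0 < om := ENNReal.toReal_pos (measure_closedBall_pos _ _ one_pos).ne'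
    measure_closedBall_lt_top.ne
  set d := Module.finrank ℝ (V τ)
  have hden : Real.exp (-C1) * ((1 / s) ^ d * om) ≤
      ∫ y, ‖χ y * E y‖ ^ 2 * Real.exp (-s ^ 2 * ψ y) := by
    have hsub : closedBall z (1 / s) ⊆ closedBall z (2 * (R / s)) := by
      refine closedBall_subset_closedBall ?_
      rw [← mul_div_assoc]
      gcongr
      linarith
    have hi : IntegrableOn (fun y => ‖χ y * E y‖ ^ 2 * Real.exp (-s ^ 2 * ψ y))
        (closedBall z (2 * (R / s))) :=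
      ContinuousOn.integrableOn_compact (isCompact_closedBall _ _)
        ((hFc.continuous.norm.pow 2).continuousOn.mul (continuousOn_const.mul hψ).rexp)
    rw [← setIntegral_eq_integral_of_forall_compl_eq_zero (s := closedBall z (2 * (R / s)))
      (fun y hy => by
        have : χ y * E y = 0 := image_eq_zero_of_notMem_tsupport
          (f := fun y => χ y * E y) fun h => hy (hts h)
        simp [this])]
    refine le_trans ?_ (setIntegral_mono_set hi
      (Eventually.of_forall fun y => by positivity) hsub.eventuallyLE)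
    rw [hom, ← Measure.addHaar_real_closedBall' _ z (by positivity)]
    refine setIntegral_ge_of_const_le_real measurableSet_closedBall measure_closedBall_lt_top.ne
      (fun y hy' => ?_) (hi.mono_set hsub)
    have a1 : ‖y - z‖ ≤ 1 / s := by rwa [mem_closedBall, dist_eq_norm] at hy'
    rw [h1 y (a1.trans (by gcongr)), one_mul, hEn]
    refine Real.exp_le_exp.2 (neg_le_neg ?_)
    calc _ ≤ s ^ 2 * (C1 * ‖y - z‖ ^ 2) := by gcongr; exact (hy y (hsub hy')).2.2.2
      _ ≤ s ^ 2 * (C1 * (1 / s) ^ 2) := by gcongr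
      _ = C1 := by field_simp
  have hdz : ∀ y k, ‖dzb (fun y => χ y * E y) k y‖ ≤ ‖fderiv ℝ χ y‖ * ‖E y‖ := fun y k =>
    dzb_mul_hol (hχ.differentiable (by simp) y) (hEc.differentiable (by simp) y) k
  have hz : ∀ y, fderiv ℝ χ y = 0 → nV (H y) (shp H (fun y => χ y * E y) y) = 0 := by
    intro y h
    have : shp H (fun y => χ y * E y) y = 0 := by
      funext i
      refine Finset.sum_eq_zero fun j _ => ?_
      have := hdz y j
      rw [h, norm_zero, zero_mul, norm_le_zero_iff] at this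
      rw [this, mul_zero]
    simp [this, nV, ipV]
  have hnum : ∫ y, nV (H y) (shp H (fun y => χ y * E y) y) * Real.exp (-s ^ 2 * ψ y) ≤
      (Fintype.card τ * |L| * D) ^ 2 / c * s ^ 2 * Real.exp (-c1 * R) *
        ((2 * (R / s)) ^ d * om) := by
    rw [← setIntegral_eq_integral_of_forall_compl_eq_zero (s := closedBall z (2 * (R / s)))
      (fun y hy => by
        have : χ =ᶠ[𝓝 y] fun _ => 0 := by
          filter_upwards [isClosed_closedBall.isOpen_compl.mem_nhds hy] with w hw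
          rw [mem_compl_iff, mem_closedBall, dist_eq_norm, not_le] at hw
          exact h0 w hw.le
        rw [hz y (by rw [this.fderiv_eq]; simp), zero_mul]),
      hom, ← Measure.addHaar_real_closedBall' _ z (by positivity)]
    refine (Real.le_norm_self _).trans
      (norm_setIntegral_le_of_norm_le_const measure_closedBall_lt_top fun y hy' => ?_)
    obtain ⟨a1, a2, a3, -⟩ := hy y hy'
    by_cases hin : ‖y - z‖ < R / s
    · have : χ =ᶠ[𝓝 y] fun _ => 1 := by
        filter_upwards [isOpen_ball.mem_nhds (show y ∈ ball z (R / s) by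
          rwa [mem_ball, dist_eq_norm])] with w hw
        rw [mem_ball, dist_eq_norm] at hw
        exact h1 w hw.le
      rw [hz y (by rw [this.fderiv_eq]; simp), zero_mul, norm_zero]
      positivity
    have b1 : ‖fderiv ℝ χ y‖ ≤ D * s := (hdχ y).trans (by
      rw [div_div_eq_mul_div]
      exact div_le_self (by positivity) hR)
    have b2 := shp_le (X := D * s * ‖E y‖) (by positivity) a1 fun k => (hdz y k).trans (by gcongr)
    obtain ⟨b3, b4⟩ := a2 (shp H (fun y => χ y * E y) y)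
    have b5 : 0 ≤ nV (H y) (shp H (fun y => χ y * E y) y) := le_trans (by positivity) b3
    have b6 : nV (H y) (shp H (fun y => χ y * E y) y) ≤
        (Fintype.card τ * |L| * (D * s * ‖E y‖)) ^ 2 / c := by
      rw [le_div_iff₀' hc]
      exact b4.trans (by gcongr)
    have b7 : ‖E y‖ ^ 2 * Real.exp (-s ^ 2 * ψ y) ≤ Real.exp (-c1 * R) := by
      rw [hEn, neg_mul]
      refine Real.exp_le_exp.2 (neg_le_neg ?_)
      rw [not_lt] at hin
      calc c1 * R ≤ c1 * R ^ 2 := by gcongr; nlinarith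
        _ = s ^ 2 * (c1 * (R / s) ^ 2) := by field_simp
        _ ≤ s ^ 2 * (c1 * ‖y - z‖ ^ 2) := by gcongr
        _ ≤ _ := by gcongr
    rw [Real.norm_of_nonneg (by positivity)]
    calc _ ≤ (Fintype.card τ * |L| * (D * s * ‖E y‖)) ^ 2 / c * Real.exp (-s ^ 2 * ψ y) := by
          gcongr
      _ = (Fintype.card τ * |L| * D) ^ 2 / c * s ^ 2 *
          (‖E y‖ ^ 2 * Real.exp (-s ^ 2 * ψ y)) := by ring
      _ ≤ _ := by gcongr
  refine ⟨fun y => χ y * E y, hFc, hts, lt_of_lt_of_le (by positivity) hden, hnum.trans ?_⟩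
  calc _ = ((Fintype.card τ * |L| * D) ^ 2 / c * Real.exp (-c1 * R) * (2 * R) ^ d) *
        (s ^ 2 * ((1 / s) ^ d * om)) := by
        rw [show 2 * (R / s) = 2 * R * (1 / s) by ring, mul_pow (2 * R)]
        ring
    _ ≤ θ * Real.exp (-C1) * (s ^ 2 * ((1 / s) ^ d * om)) := by gcongr
    _ = θ * s ^ 2 * (Real.exp (-C1) * ((1 / s) ^ d * om)) := by ring
    _ ≤ _ := by gcongr

omit [DecidableEq τ] in
theorem cover {K : Set (V τ)} (hK : IsCompact K) {ρ : ℝ} (hρ : 0 < ρ) :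
    ∃ (M : ℕ) (x : Fin M → V τ), (∀ j, x j ∈ K) ∧
      (∀ i j, i ≠ j → Disjoint (closedBall (x i) ρ) (closedBall (x j) ρ)) ∧
      volume.real K ≤ M * ((5 * ρ) ^ Module.finrank ℝ (V τ) *
        (volume : Measure (V τ)).real (closedBall 0 1)) := by
  obtain ⟨t, htK, htf, hcov⟩ := hK.finite_cover_balls hρ
  obtain ⟨u, hut, hdis, hen⟩ := Vitali.exists_disjoint_subfamily_covering_enlargement_closedBall
    t id (fun _ => ρ) ρ (fun _ _ => le_rfl) 5 (by norm_num)
  have huf := (htf.subset hut).toFinset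
  set S := (htf.subset hut).toFinset with hS
  have hSu : ∀ a, a ∈ S ↔ a ∈ u := fun a => Set.Finite.mem_toFinset _
  refine ⟨S.card, fun j => (S.equivFin.symm j : V τ),
    fun j => htK (hut ((hSu _).1 (S.equivFin.symm j).2)), fun i j hij => ?_, ?_⟩
  · refine hdis ((hSu _).1 (S.equivFin.symm i).2) ((hSu _).1 (S.equivFin.symm j).2) fun h => ?_
    exact hij (S.equivFin.symm.injective (Subtype.ext h))
  · have h1 : K ⊆ ⋃ a ∈ S, closedBall a (5 * ρ) := by
      intro y hy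
      obtain ⟨a, ha, hya⟩ := mem_iUnion₂.1 (hcov hy)
      obtain ⟨b, hb, hab⟩ := hen a ha
      exact mem_iUnion₂.2 ⟨b, (hSu b).2 hb, hab (ball_subset_closedBall hya)⟩
    refine (measureReal_mono h1 ?_).trans ((measureReal_biUnion_finset_le _ _).trans ?_)
    · exact (S.isCompact_biUnion fun a _ => isCompact_closedBall _ _).measure_lt_top.ne
    · rw [← nsmul_eq_mul]
      exact Finset.sum_le_card_nsmul _ _ _ fun a _ =>
        (Measure.addHaar_real_closedBall' _ a (by positivity)).le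

omit [DecidableEq τ] in
theorem half {O : Set (V τ)} (hO : IsOpen O) (hv : volume O ≠ ⊤) :
    ∃ K ⊆ O, IsCompact K ∧ (volume O).toReal ≤ 2 * volume.real K := by
  by_cases h0 : volume O = 0
  · exact ⟨∅, empty_subset _, isCompact_empty, by simp [h0]⟩
  obtain ⟨K, hKO, hK, hlt⟩ := hO.exists_lt_isCompact (ENNReal.half_lt_self h0 hv)
  refine ⟨K, hKO, hK, ?_⟩
  have := ENNReal.toReal_mono hK.measure_lt_top.ne hlt.le
  rw [ENNReal.toReal_div, ENNReal.toReal_ofNat] at this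
  rw [measureReal_def]
  linarith

theorem exists_R (A θ c : ℝ) (d : ℕ) (hθ : 0 < θ) (hc : 0 < c) :
    ∃ R ≥ (1 : ℝ), A * Real.exp (-c * R) * (2 * R) ^ d ≤ θ := by
  have h := (tendsto_rpow_mul_exp_neg_mul_atTop_nhds_zero d c hc).const_mul (A * 2 ^ d)
  rw [mul_zero] at h
  obtain ⟨R, h1, h2⟩ := ((eventually_ge_atTop 1).and (h.eventually (ge_mem_nhds hθ))).exists
  refine ⟨R, h1, le_trans (le_of_eq ?_) h2⟩
  rw [Real.rpow_natCast, mul_pow]
  ring

end Peak

open Peak in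
theorem peak (hm : MatS) : PeakS := by
  intro τ _ _ L θ hθ
  obtain ⟨c, hc, hnv⟩ := hm.nv τ L
  obtain ⟨D, hD, hb⟩ := bump τ
  obtain ⟨R, hR, hRR⟩ := exists_R ((Fintype.card τ * |L| * D) ^ 2 / c)
    (θ * Real.exp (-(1 / c + c / 4))) (c / 4) (Module.finrank ℝ (V τ)) (by positivity)
    (by positivity)
  set om := (volume : Measure (V τ)).real (closedBall 0 1) with hom
  have hom0 : 0 < om := ENNReal.toReal_pos (measure_closedBall_pos _ _ one_pos).ne'
    measure_closedBall_lt_top.ne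
  have hd : Module.finrank ℝ (V τ) = 2 * Fintype.card τ := by
    simp [Module.finrank_pi_fintype, mul_comm]
  refine ⟨1 / (2 * (10 * R) ^ Module.finrank ℝ (V τ) * om), by positivity, ?_⟩
  intro O H ψ hO hv _ hy
  obtain ⟨K, hKO, hK, hvol⟩ := half hO hv
  have hH := fun y (h : y ∈ O) => hnv (H y) (hy y h).1 (hy y h).2.1 (hy y h).2.2.1
  obtain ⟨δ, hδ, hq⟩ := local_q hm hc hO hK hKO (fun y h => (hy y h).2.2.2.1)
    (fun y h => (hy y h).2.2.2.2.1) (fun y h => (hy y h).2.2.2.2.2) hH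
  have ht : Tendsto (fun b : ℕ => √(b : ℝ)) atTop atTop :=
    Real.tendsto_sqrt_atTop.comp tendsto_natCast_atTop_atTop
  filter_upwards [ht.eventually_ge_atTop (2 * R / δ), ht.eventually_gt_atTop 0] with b hb1 hs
  have hs2 : √(b : ℝ) ^ 2 = b := Real.sq_sqrt (Nat.cast_nonneg b)
  generalize √(b : ℝ) = s at hb1 hs hs2
  have hρ : 2 * (R / s) ≤ δ := by
    rw [← mul_div_assoc, div_le_iff₀ hs]
    rwa [div_le_iff₀' hδ] at hb1
  obtain ⟨M, x, hxK, hdis, hM⟩ := cover hK (show 0 < 2 * (R / s) by positivity)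
  have hsub : ∀ j, closedBall (x j) (2 * (R / s)) ⊆ O := fun j =>
    (closedBall_subset_closedBall hρ).trans (hq _ (hxK j)).1
  have hF : ∀ j, ∃ F : V τ → ℂ, ContDiff ℝ ∞ F ∧ tsupport F ⊆ closedBall (x j) (2 * (R / s)) ∧
      0 < ∫ y, ‖F y‖ ^ 2 * Real.exp (-s ^ 2 * ψ y) ∧
      ∫ y, nV (H y) (shp H F y) * Real.exp (-s ^ 2 * ψ y) ≤
        θ * s ^ 2 * ∫ y, ‖F y‖ ^ 2 * Real.exp (-s ^ 2 * ψ y) := by
    intro j
    obtain ⟨q, hqc, hqe⟩ := (hq _ (hxK j)).2
    exact single hθ hc (by positivity) (by positivity) hD hR hs hb hRR hqc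
      (fun y h => (hy y (hsub j h)).2.2.2.1.continuousAt.continuousWithinAt)
      fun y h => ⟨(hy y (hsub j h)).2.2.1, hH y (hsub j h),
        hqe y (closedBall_subset_closedBall hρ h)⟩
  choose F hF1 hF2 hF3 hF4 using hF
  rw [← hs2]
  refine ⟨M, F, ?_, fun j => ⟨hF1 j, (isCompact_closedBall _ _).of_isClosed_subset
    (isClosed_tsupport _) (hF2 j), (hF2 j).trans (hsub j), hF3 j, hF4 j⟩,
    fun i j hij => (hdis i j hij).mono (hF2 i) (hF2 j)⟩
  rw [← pow_mul, ← hd]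
  calc _ ≤ 1 / (2 * (10 * R) ^ Module.finrank ℝ (V τ) * om) *
        (2 * (M * ((5 * (2 * (R / s))) ^ Module.finrank ℝ (V τ) * om))) *
        s ^ Module.finrank ℝ (V τ) := by
        gcongr
        exact hvol.trans (by gcongr)
    _ = M := by
        rw [show 5 * (2 * (R / s)) = 10 * R / s by ring, div_pow]
        field_simp

end Pool.Agent.Lib.MP_813db1_ag.HS
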