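import Pool.Agent.Lib.MP_813db1_ag.HS.StmtF
import Pool.Agent.Lib.MP_813db1_ag.HS.Calc2
import Pool.Agent.Lib.MP_813db1_ag.HS.FGauge

/-! Many peak sections on the tube. -/

set_option autoImplicit false

namespace Pool.Agent.Lib.MP_813db1_ag.HS

open MeasureTheory Complex Matrix Filter Topology Set Metric
open scoped ContDiff ComplexOrder ENNReal

namespace PeakX

section Loc

variable {τ : Type} [Fintype τ] [DecidableEq τ] {H : V τ → Mat τ} {F : V τ → ℂ} {D : Set (V τ)}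

theorem shp_zero (H : V τ → Mat τ) {y : V τ} (h : y ∉ tsupport F) : shp H F y = 0 := by
  ext i
  simp only [shp, dzb_congr (notMem_tsupport_iff_eventuallyEq.1 h)]
  simp [dzb]

omit [DecidableEq τ] in
theorem nV_zero (A : Mat τ) : nV A 0 = 0 := by simp [nV, ipV]

omit [DecidableEq τ] in
theorem good {φ : V τ → ℝ} (hD : IsOpen D) (hc : HasCompactSupport F) (hs : tsupport F ⊆ D)
    (h : ContinuousOn φ D) (h0 : ∀ y ∉ tsupport F, φ y = 0) : Continuous φ ∧ Integrable φ := by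
  have s : Function.support φ ⊆ tsupport F := fun y hy => by_contra fun k => hy (h0 y k)
  have c := h.continuous_of_tsupport_subset hD ((closure_minimal s (isClosed_tsupport F)).trans hs)
  exact ⟨c, c.integrable_of_hasCompactSupport (HasCompactSupport.intro hc h0)⟩

theorem cont_w (hH : KOn H D) (b : ℕ) :
    ContinuousOn (fun y => Real.exp (-b * Real.log (H y).det.re)) D :=
  (continuousOn_const.mul ((FG.cont_det hH.1.1).log fun y hy => (FG.det_pos (hH.2 y hy)).ne')).rexp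

theorem goodP (hD : IsOpen D) (hH : KOn H D) (hF : ContDiff ℝ ∞ F) (hc : HasCompactSupport F)
    (hs : tsupport F ⊆ D) (b : ℕ) :
    Continuous (fun y => ‖F y‖ ^ 2 * Real.exp (-b * Real.log (H y).det.re)) ∧
      Integrable fun y => ‖F y‖ ^ 2 * Real.exp (-b * Real.log (H y).det.re) :=
  good hD hc hs ((hF.continuous.norm.pow 2).continuousOn.mul (cont_w hH b)) fun y hy => by
    simp [image_eq_zero_of_notMem_tsupport hy]

theorem goodR (hD : IsOpen D) (hH : KOn H D) (hF : ContDiff ℝ ∞ F) (hc : HasCompactSupport F)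
    (hs : tsupport F ⊆ D) (b : ℕ) :
    Continuous (fun y => nV (H y) (shp H F y) * Real.exp (-b * Real.log (H y).det.re)) ∧
      Integrable fun y => nV (H y) (shp H F y) * Real.exp (-b * Real.log (H y).det.re) := by
  have i := hH.1.1.inv fun y hy => (hH.2 y hy).det_pos.ne'
  have c : ContinuousOn (shp H F) D := continuousOn_pi.2 fun i' =>
    continuousOn_finsetSum _ fun j _ y hy => ((i y hy j i').continuousAt.mul
      (contDiffAt_dzb_top hF.contDiffAt j).continuousAt).continuousWithinAt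
  exact good hD hc hs (((FG.cont_nV hH.1.1).comp (continuousOn_id.prodMk c)
    fun y hy => ⟨hy, trivial⟩).mul (cont_w hH b)) fun y hy => by
      rw [shp_zero H hy, nV_zero, zero_mul]

theorem nV_sum {Q : ℕ} (H : V τ → Mat τ) {G : Fin Q → V τ → ℂ} (hG : ∀ j, ContDiff ℝ ∞ (G j))
    (hd : ∀ i j, i ≠ j → Disjoint (tsupport (G i)) (tsupport (G j))) (d : Fin Q → ℂ) (y : V τ) :
    nV (H y) (shp H (fun w => ∑ j, d j * G j w) y) = ∑ j, ‖d j‖ ^ 2 * nV (H y) (shp H (G j) y) := by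
  have df : ∀ j, DifferentiableAt ℝ (G j) y := fun j => (hG j).differentiable (by simp) y
  have e : shp H (fun w => ∑ j, d j * G j w) y = ∑ j, d j • shp H (G j) y := by
    ext i
    simp only [shp, dzb_sum _ fun j _ => (df j).const_mul (d j), dzb_cmul _ (df _),
      Finset.sum_apply, Pi.smul_apply, smul_eq_mul, Finset.mul_sum]
    rw [Finset.sum_comm]
    exact Finset.sum_congr rfl fun _ _ => Finset.sum_congr rfl fun _ _ => by ring
  rw [e]
  by_cases h : ∃ j, y ∈ tsupport (G j)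
  · obtain ⟨j, hj⟩ := h
    have z : ∀ i, i ≠ j → shp H (G i) y = 0 := fun i k =>
      shp_zero H (disjoint_right.1 (hd i j k) hj)
    rw [Finset.sum_eq_single j (fun i _ k => by rw [z i k, smul_zero]) (by simp),
      Finset.sum_eq_single j (fun i _ k => by rw [z i k, nV_zero, mul_zero]) (by simp), FG.nV_smul]
  · have z : ∀ i, shp H (G i) y = 0 := fun i => shp_zero H fun k => h ⟨i, k⟩
    simp [z, nV_zero]

end Loc

variable {ι X : Type} [Fintype ι] [DecidableEq ι] [TopologicalSpace X] [T2Space X]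
  [CompactSpace X] [MeasurableSpace X] [BorelSpace X] {M : Atl ι X} {g : X → Mat ι}
  {μ : Measure X} {ε : ℝ} {u : X → ℝ} {C : Cov M} {s : Finset ι} {a0 : Fin C.n} {N : ℕ}
  {y1 : V {i // i ∉ s}} {δ B : ℝ} {W : Set X} {Yc : X → V {i // i ∉ s}} {mu : ℕ → X → ℂ} {b : ℕ}
  {F : V {i // i ∉ s} → ℂ}

omit [T2Space X] [CompactSpace X] [BorelSpace X] in
theorem ip0_self (a : ℕ) (h : X → Mat ι) (σ : X → ℂ) :
    M.ip0 μ a g h σ σ = ((∫ x, ‖σ x‖ ^ 2 * wt a g h x ∂μ : ℝ) : ℂ) := by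
  rw [Atl.ip0, ← integral_complex_ofReal]
  refine integral_congr_ae (Eventually.of_forall fun x => ?_)
  simp only [RCLike.star_def, mul_conj, normSq_eq_norm_sq]
  exact (ofReal_mul _ _).symm

theorem lower (hd : DictS) (he : ExtS) (hv : VolS) (hG : GreenS) (hr : RowsS) (hu : UBasS)
    (hg : M.IsK g) (hμ : M.IsVol g μ) (hP : C.Prod g s) (e0 : 0 < ε) (hS : M.Sol g ε u)
    (hT : TubeX C g s μ a0 N y1 δ B W Yc mu) (hN : N ∣ b + 1) (hF : ContDiff ℝ ∞ F)
    (hc : HasCompactSupport F) (hs : tsupport F ⊆ ball y1 δ) :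
    (volume (ball (0 : V {i // i ∈ s}) (C.r a0))).toReal * (ε⁻¹ ^ (s.card * b) *
      ∫ y, ‖F y‖ ^ 2 * Real.exp (-b * Real.log (C.trv s (M.hm g ε u) a0 y).det.re)) ≤
    ∫ x, ‖W.indicator (fun x => F (Yc x) * mu (b + 1) x) x‖ ^ 2 *
      wt (b + 1) g (M.hm g ε u) x ∂μ := by
  obtain ⟨x1, -, x3, -⟩ := he ι X M g μ ε u C s a0 N y1 δ B W Yc mu b F hg hP e0 hS hT hN hF hc hs
  have r0 := C.pos a0
  have b4 : ball (0 : V ι) (C.r a0) ⊆ ball 0 (4 * C.r a0) := ball_subset_ball (by linarith)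
  have := ((hv ι X M g hg).2 μ hμ).fin
  obtain ⟨c1, -, -, c4⟩ := hG.cont ι X M g (M.hm g ε u) (b + 1)
    (W.indicator fun x => F (Yc x) * mu (b + 1) x) (W.indicator fun x => F (Yc x) * mu (b + 1) x)
    hg hS.2.1
  have k0 : M.CkS 0 (b + 1) (W.indicator fun x => F (Yc x) * mu (b + 1) x) :=
    fun e he z hz => (x1 e he z hz).of_le zero_le
  have c2 : Continuous fun x => ‖W.indicator (fun x => F (Yc x) * mu (b + 1) x) x‖ ^ 2 *
      wt (b + 1) g (M.hm g ε u) x := by
    refine (continuous_re.comp (c1 k0 k0)).congr fun x => ?_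
    simp only [Function.comp, RCLike.star_def, mul_conj, normSq_eq_norm_sq, ← ofReal_mul, ofReal_re]
  obtain ⟨p1, p2⟩ := goodP isOpen_ball ((hu ι X M g C s ε u hg hP e0 hS).2.1.kon a0) hF hc
    (hs.trans (hT.sub.trans (ball_subset_ball (by linarith)))) b
  have rg := hr.rows ι X M C s 1 g hg one_pos fun a z hz => by
    simpa using hP.1 a z (C.sub a (ball_subset_closedBall hz))
  have bx := hd.box ι X M g μ C s a0 (C.r a0) (ball y1 δ) (fun x =>
    ‖W.indicator (fun x => F (Yc x) * mu (b + 1) x) x‖ ^ 2 * wt (b + 1) g (M.hm g ε u) x)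
    (fun y => ε⁻¹ ^ (s.card * b) * (‖F y‖ ^ 2 *
      Real.exp (-b * Real.log (C.trv s (M.hm g ε u) a0 y).det.re))) hg hμ r0 (by linarith)
    measurableSet_ball hT.sub (continuous_const.mul p1).continuousOn (fun z hz hy => by
      have e : glue s (zp s z) (yp s z) = z := by
        funext i
        by_cases h : i ∈ s <;> simp [zp, yp, glue, h]
      obtain ⟨w1, w2⟩ := hT.box (zp s z) (yp s z)
        (((hr.norm ι s _ r0).1 _ _).1 (by rw [e]; exact mem_ball_zero_iff.1 hz)).1 hy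
      rw [e] at w1 w2
      have := (x3 _ w1).1
      rw [w2] at this
      rw [indicator_of_mem w1, w2, (rg.ent a0 z (b4 hz)).2.2.2.2.2.2, ofReal_one, one_pow, one_mul,
        this, twt]
      ring)
  have nn : ∀ x, 0 ≤ ‖W.indicator (fun x => F (Yc x) * mu (b + 1) x) x‖ ^ 2 *
      wt (b + 1) g (M.hm g ε u) x := fun x => mul_nonneg (sq_nonneg _) (c4 x).le
  rw [setLIntegral_eq_of_support_subset (s := ball y1 δ) (fun y hy => hs (by_contra fun k => hy (by
      simp [image_eq_zero_of_notMem_tsupport k]))), ← ofReal_integral_eq_lintegral_ofReal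
    (p2.const_mul _) (Eventually.of_forall fun y => by positivity), integral_const_mul] at bx
  rw [← ENNReal.ofReal_le_ofReal_iff (integral_nonneg nn), ENNReal.ofReal_mul ENNReal.toReal_nonneg,
    ENNReal.ofReal_toReal measure_ball_lt_top.ne, ← bx, ofReal_integral_eq_lintegral_ofReal
      (c2.integrable_of_hasCompactSupport (HasCompactSupport.of_compactSpace _))
      (Eventually.of_forall nn)]
  exact setLIntegral_le_lintegral _ _

theorem upper (he : ExtS) (hv : VolS) (hG : GreenS) (hr : RowsS) (hu : UBasS)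
    (hg : M.IsK g) (hμ : M.IsVol g μ) (hP : C.Prod g s) (e0 : 0 < ε) (hS : M.Sol g ε u)
    (hT : TubeX C g s μ a0 N y1 δ B W Yc mu) (hN : N ∣ b + 1) (hF : ContDiff ℝ ∞ F)
    (hc : HasCompactSupport F) (hs : tsupport F ⊆ ball y1 δ) {Gm : ℝ} (G0 : 0 ≤ Gm)
    (hGm : ∀ y ∈ ball y1 δ, (C.trv s g a0 y).det.re⁻¹ ≤ Gm) :
    (M.ip1 μ (b + 1) g (M.hm g ε u) (W.indicator fun x => F (Yc x) * mu (b + 1) x)
      (W.indicator fun x => F (Yc x) * mu (b + 1) x)).re ≤ |B| * (Gm * ε⁻¹ ^ (s.card * b) *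
      ∫ y, nV (C.trv s (M.hm g ε u) a0 y) (shp (C.trv s (M.hm g ε u) a0) F y) *
        Real.exp (-b * Real.log (C.trv s (M.hm g ε u) a0 y).det.re)) := by
  obtain ⟨x1, -, x3, x4⟩ := he ι X M g μ ε u C s a0 N y1 δ B W Yc mu b F hg hP e0 hS hT hN hF hc hs
  have r0 := C.pos a0
  have b4 : ball y1 δ ⊆ ball 0 (4 * C.r a0) := hT.sub.trans (ball_subset_ball (by linarith))
  have := ((hv ι X M g hg).2 μ hμ).fin
  have kh := (hu ι X M g C s ε u hg hP e0 hS).2.1.kon a0
  have rg := hr.rows ι X M C s 1 g hg one_pos fun a z hz => by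
    simpa using hP.1 a z (C.sub a (ball_subset_closedBall hz))
  obtain ⟨p1, p2⟩ := goodR isOpen_ball kh hF hc (hs.trans b4) b
  have n1 : ∀ y, 0 ≤ nV (C.trv s (M.hm g ε u) a0 y) (shp (C.trv s (M.hm g ε u) a0) F y) *
      Real.exp (-b * Real.log (C.trv s (M.hm g ε u) a0 y).det.re) := fun y => by
    by_cases k : y ∈ tsupport F
    · exact mul_nonneg (FG.nV_nonneg (kh.2 y (b4 (hs k))).posSemidef _) (Real.exp_pos _).le
    · rw [shp_zero _ k, nV_zero, zero_mul]
  generalize W.indicator (fun x => F (Yc x) * mu (b + 1) x) = σ at *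
  obtain ⟨-, c1, -, c4⟩ := hG.cont ι X M g (M.hm g ε u) (b + 1) σ σ hg hS.2.1
  have k1 : M.CkS 1 (b + 1) σ := fun e he z hz => (x1 e he z hz).of_le (by simp)
  have c2 := (c1 k1 k1 _ fun e he => (hS.2.1 e he).1.1).integrable_of_hasCompactSupport (μ := μ)
    (HasCompactSupport.of_compactSpace _)
  have key : ∀ x, 0 ≤ (ipV (M.hm g ε u x) (M.shpX (b + 1) (M.hm g ε u) σ x)
      (M.shpX (b + 1) (M.hm g ε u) σ x) * (wt (b + 1) g (M.hm g ε u) x : ℂ)).re ∧
      ENNReal.ofReal (ipV (M.hm g ε u x) (M.shpX (b + 1) (M.hm g ε u) σ x)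
        (M.shpX (b + 1) (M.hm g ε u) σ x) * (wt (b + 1) g (M.hm g ε u) x : ℂ)).re ≤
      W.indicator (fun x => ENNReal.ofReal (Gm * ε⁻¹ ^ (s.card * b) *
        (nV (C.trv s (M.hm g ε u) a0 (Yc x)) (shp (C.trv s (M.hm g ε u) a0) F (Yc x)) *
          Real.exp (-b * Real.log (C.trv s (M.hm g ε u) a0 (Yc x)).det.re)))) x := by
    intro x
    rw [re_mul_ofReal, ← nV]
    by_cases k : x ∈ W
    · have d0 := FG.det_pos ((rg.kon a0).2 _ (b4 (hT.maps x k)))
      have e := (eq_inv_mul_iff_mul_eq₀ d0.ne').2 (x3 x k).2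
      have n2 := mul_nonneg (show 0 ≤ ε⁻¹ ^ (s.card * b) by positivity) (n1 (Yc x))
      rw [indicator_of_mem k, e, twt, mul_left_comm _ (ε⁻¹ ^ _), mul_assoc Gm]
      exact ⟨mul_nonneg (inv_nonneg.2 d0.le) n2, ENNReal.ofReal_le_ofReal
        (mul_le_mul_of_nonneg_right (hGm _ (hT.maps x k)) n2)⟩
    · rw [x4 x k, nV_zero, zero_mul]
      simp
  have i0 : 0 ≤ ∫ y, nV (C.trv s (M.hm g ε u) a0 y) (shp (C.trv s (M.hm g ε u) a0) F y) *
      Real.exp (-b * Real.log (C.trv s (M.hm g ε u) a0 y).det.re) := integral_nonneg fun y => n1 y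
  rw [Atl.ip1, ← RCLike.re_to_complex, ← integral_re c2,
    ← ENNReal.ofReal_le_ofReal_iff (by positivity),
    ofReal_integral_eq_lintegral_ofReal c2.re (Eventually.of_forall fun x => (key x).1),
    ENNReal.ofReal_mul (abs_nonneg B), ← integral_const_mul, ofReal_integral_eq_lintegral_ofReal
      (p2.const_mul _) (Eventually.of_forall fun y => mul_nonneg (by positivity) (n1 y))]
  refine (lintegral_mono fun x => (key x).2).trans ?_
  rw [lintegral_indicator hT.opn.measurableSet]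
  exact (hT.meas _ (continuous_const.mul p1).measurable.ennreal_ofReal).trans
    (mul_le_mul' (ENNReal.ofReal_le_ofReal (le_abs_self B)) (setLIntegral_le_lintegral _ _))

end PeakX

open PeakX

theorem peakX (hd : DictS) (hg : GoodS) (he : ExtS) (hp : PeakS) (hm : MatS) (hv : VolS)
    (hG : GreenS) (hr : RowsS) (hu : UBasS) : PeakXS := by
  intro ι X _ _ _ _ _ _ _ _ M g μ u C s a0 N y1 δ B W Yc mu hK hμ hsn hF hP hT
  obtain ⟨L, c, c0, hL⟩ := hg ι X M g μ u C s a0 y1 δ hK hμ hsn hF hP hT.δpos hT.sub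
  have r0 := C.pos a0
  have b4 : ball y1 δ ⊆ ball 0 (4 * C.r a0) := hT.sub.trans (ball_subset_ball (by linarith))
  have kg := (hr.rows ι X M C s 1 g hK one_pos fun a z hz => by
    simpa using hP.1 a z (C.sub a (ball_subset_closedBall hz))).kon a0
  have cb : closedBall (0 : V {i // i ∉ s}) (C.r a0) ⊆ ball 0 (4 * C.r a0) :=
    closedBall_subset_ball (by linarith)
  obtain ⟨Gm, hGm⟩ := (isCompact_closedBall _ _).exists_bound_of_continuousOn
    (((FG.cont_det kg.1.1).inv₀ fun y hy => (FG.det_pos (kg.2 y hy)).ne').mono cb)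
  have G0 : 0 ≤ Gm := (norm_nonneg _).trans (hGm 0 (mem_closedBall_self r0.le))
  obtain ⟨vs, hvs⟩ : ∃ vs, vs = (volume (ball (0 : V {i // i ∈ s}) (C.r a0))).toReal := ⟨_, rfl⟩
  have v0 : 0 < vs := hvs ▸ ENNReal.toReal_pos (measure_ball_pos _ _ r0).ne' measure_ball_lt_top.ne
  obtain ⟨θ, hθ⟩ : ∃ θ, θ = vs / (16 * (|B| * Gm + 1)) := ⟨_, rfl⟩
  have θ0 : 0 < θ := by rw [hθ]; positivity
  obtain ⟨c1, c10, hc⟩ := hp {i // i ∉ s} L θ θ0
  refine ⟨c1 * c, by positivity, ?_⟩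
  filter_upwards [hL, Ioc_mem_nhdsGT one_pos] with ε ⟨O, o1, o2, o3, o4⟩ hε
  have hS := hF.sol ε hε
  obtain ⟨-, u2, u3⟩ := hu ι X M g C s ε (u ε) hK hP hε.1 hS
  have kh := u2.kon a0
  filter_upwards [hc O (C.trv s (M.hm g ε (u ε)) a0)
    (fun y => Real.log (C.trv s (M.hm g ε (u ε)) a0 y).det.re) o1
    ((measure_mono o2).trans_lt measure_ball_lt_top).ne (kh.1.1.mono (o2.trans b4)) fun y hy => by
      have m := b4 (o2 hy)
      have pH := kh.2 y m
      have pG := (kg.2 y m).posSemidef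
      have e : levi (fun w => (Real.log (C.trv s (M.hm g ε (u ε)) a0 w).det.re : ℂ)) y =
          C.trv s (M.hm g ε (u ε)) a0 y - (ε : ℂ) • C.trv s g a0 y := by
        rw [← neg_sub, ← (u3 a0 y m).2, ric, neg_neg]
      refine ⟨pH, (o4 y hy).1, (o4 y hy).2.1,
        (reCLM.contDiff.contDiffAt.comp y (kh.1.1.det m)).log (FG.det_pos pH).ne', ?_, ?_⟩
      · have := ((hm.le_trm _ _ _ pH pG).smul (zero_le_real.2 hε.1.le)).add
          (pH.posSemidef.smul (zero_le_real.2 (sub_nonneg.2 (o4 y hy).2.2)))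
        rw [e]
        convert this using 1
        ext i j
        simp only [Matrix.sub_apply, Matrix.add_apply, Matrix.smul_apply, smul_eq_mul]
        push_cast
        ring
      · rw [e, sub_sub_cancel]
        exact pG.smul (zero_le_real.2 hε.1.le)] with b ⟨Q, F, q1, q2, q3⟩ hN
  have κ0 : 0 < ε⁻¹ ^ (s.card * b) := pow_pos (inv_pos.2 hε.1) _
  have lo := fun j => hvs ▸ lower hd he hv hG hr hu hK hμ hP hε.1 hS hT hN (q2 j).1 (q2 j).2.1
    ((q2 j).2.2.1.trans o2)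
  obtain ⟨n, hn⟩ : ∃ n : Fin Q → ℝ, ∀ j, n j = ∫ x, ‖W.indicator (fun x => F j (Yc x) *
    mu (b + 1) x) x‖ ^ 2 * wt (b + 1) g (M.hm g ε (u ε)) x ∂μ := ⟨_, fun _ => rfl⟩
  simp only [← hn] at lo
  have n0 : ∀ j, 0 < n j := fun j => (mul_pos v0 (mul_pos κ0 (q2 j).2.2.2.1)).trans_le (lo j)
  have na : ∀ j, ‖(((√(n j))⁻¹ : ℝ) : ℂ)‖ ^ 2 = (n j)⁻¹ := fun j => by
    rw [norm_real, Real.norm_eq_abs, sq_abs, inv_pow, Real.sq_sqrt (n0 j).le]
  have adm : ∀ d : Fin Q → ℂ, ContDiff ℝ ∞ (fun w => ∑ j, d j * F j w) ∧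
      HasCompactSupport (fun w => ∑ j, d j * F j w) ∧
      tsupport (fun w => ∑ j, d j * F j w) ⊆ ball y1 δ := fun d => by
    have z : ∀ w ∉ ⋃ j, tsupport (F j), ∑ j, d j * F j w = 0 := fun w hw =>
      Finset.sum_eq_zero fun j _ => by
        rw [image_eq_zero_of_notMem_tsupport fun k => hw (mem_iUnion.2 ⟨j, k⟩), mul_zero]
    have k : IsCompact (⋃ j, tsupport (F j)) := isCompact_iUnion fun j => (q2 j).2.1
    exact ⟨ContDiff.sum fun j _ => contDiff_const.mul (q2 j).1, HasCompactSupport.intro k z,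
      (closure_minimal (Function.support_subset_iff'.2 z) k.isClosed).trans
        (iUnion_subset fun j => (q2 j).2.2.1.trans o2)⟩
  refine ⟨Q, fun j => W.indicator fun x => ((√(n j))⁻¹ : ℝ) * F j (Yc x) * mu (b + 1) x, ?_,
    fun j => ?_, fun i j => ?_, fun d => ?_⟩
  · rw [Fintype.card_subtype_compl, Fintype.card_coe] at q1
    exact le_trans (by gcongr) q1
  · have := he ι X M g μ ε (u ε) C s a0 N y1 δ B W Yc mu b (fun w => ((√(n j))⁻¹ : ℝ) * F j w) hK hP
      hε.1 hS hT hN (contDiff_const.mul (q2 j).1) (q2 j).2.1.mul_left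
      (tsupport_mul_subset_right.trans ((q2 j).2.2.1.trans o2))
    exact ⟨this.1, this.2.1⟩
  · split_ifs with k
    · subst k
      rw [ip0_self, ← ofReal_one, ← inv_mul_cancel₀ (n0 i).ne']
      congr 1
      conv_rhs => rw [← na, hn, ← integral_const_mul]
      refine integral_congr_ae (Eventually.of_forall fun x => ?_)
      by_cases w : x ∈ W
      · simp only [indicator_of_mem w, norm_mul, ← hn]
        ring
      · simp [indicator_of_notMem w]
    · refine integral_eq_zero_of_ae (Eventually.of_forall fun x => ?_)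
      by_cases w : x ∈ W
      · by_cases t : Yc x ∈ tsupport (F i)
        · simp [indicator_of_mem w,
            image_eq_zero_of_notMem_tsupport (disjoint_left.1 (q3 i j k) t)]
        · simp [indicator_of_mem w, image_eq_zero_of_notMem_tsupport t]
      · simp [indicator_of_notMem w]
  · obtain ⟨a1, a2, a3⟩ := adm fun j => d j * ((√(n j))⁻¹ : ℝ)
    have e : (fun x => ∑ j, d j * W.indicator (fun x => ((√(n j))⁻¹ : ℝ) * F j (Yc x) *
        mu (b + 1) x) x) = W.indicator fun x =>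
          (∑ j, d j * ((√(n j))⁻¹ : ℝ) * F j (Yc x)) * mu (b + 1) x := by
      funext x
      by_cases w : x ∈ W
      · simp only [indicator_of_mem w, Finset.sum_mul, mul_assoc]
      · simp [indicator_of_notMem w]
    rw [e]
    refine (upper he hv hG hr hu hK hμ hP hε.1 hS hT hN a1 a2 a3 G0 fun y hy =>
      (le_abs_self _).trans (hGm y (ball_subset_closedBall (hT.sub hy)))).trans ?_
    simp only [nV_sum _ (fun j => (q2 j).1) q3, Finset.sum_mul, mul_assoc (‖_‖ ^ 2)]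
    rw [integral_finsetSum _ fun j _ => ((goodR isOpen_ball kh (q2 j).1 (q2 j).2.1
      ((q2 j).2.2.1.trans (o2.trans b4)) b).2.const_mul _), Finset.mul_sum, Finset.mul_sum,
      Finset.mul_sum]
    refine Finset.sum_le_sum fun j _ => ?_
    rw [integral_const_mul, norm_mul, mul_pow, na]
    have h1 := (q2 j).2.2.2.2
    have h2 := lo j
    have h3 := n0 j
    have h4 := (q2 j).2.2.2.1
    generalize ∫ y, nV (C.trv s (M.hm g ε (u ε)) a0 y) _ * _ = R at *
    generalize ∫ y, ‖F j y‖ ^ 2 * _ = P at *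
    generalize ε⁻¹ ^ (s.card * b) = κ at *
    have h5 : (n j)⁻¹ * (vs * (κ * P)) ≤ 1 := by rwa [inv_mul_le_iff₀ h3, mul_one]
    have h6 : |B| * Gm * θ ≤ vs / 16 := by
      rw [hθ, ← mul_div_assoc, div_le_div_iff₀ (by positivity) (by norm_num)]
      nlinarith
    calc |B| * (Gm * κ * (‖d j‖ ^ 2 * (n j)⁻¹ * R))
        ≤ |B| * (Gm * κ * (‖d j‖ ^ 2 * (n j)⁻¹ * (θ * b * P))) := by gcongr
      _ = |B| * Gm * θ * ((n j)⁻¹ * (κ * P) * (b * ‖d j‖ ^ 2)) := by ring
      _ ≤ vs / 16 * ((n j)⁻¹ * (κ * P) * (b * ‖d j‖ ^ 2)) := by gcongr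
      _ = (n j)⁻¹ * (vs * (κ * P)) * (b / 16 * ‖d j‖ ^ 2) := by ring
      _ ≤ b / 16 * ‖d j‖ ^ 2 := mul_le_of_le_one_left (by positivity) h5

end Pool.Agent.Lib.MP_813db1_ag.HS
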