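import Pool.Agent.Lib.MP_813db1_ag.HS.StmtF
import Pool.Agent.Lib.MP_813db1_ag.HS.RepB1
import Pool.Agent.Lib.MP_813db1_ag.HS.Calc2

/-! Being basic is a local property of sections. -/

namespace Pool.Agent.Lib.MP_813db1_ag.HS

open MeasureTheory Complex Matrix Filter Topology Set Metric
open scoped ContDiff ComplexOrder

namespace BasLoc

variable {ι : Type} [Fintype ι] [DecidableEq ι]

/-- the logarithm of the determinant of a form with constant rows is basic -/
theorem dz_lg_zero {G : V ι → Mat ι} {U : Set (V ι)} {s : Finset ι} {c : ℂ} (hU : IsOpen U)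
    (hG : KOn G U) (hr : ∀ w ∈ U, Rows s c (G w)) {z : V ι} (hz : z ∈ U) {i : ι} (hi : i ∈ s) :
    dz (lg G) i z = 0 := by
  have e : dM G i z = 0 := by
    ext p q
    rw [dM, of_apply, hG.1.2.2 z hz p q i, dz_congr (g := fun _ => if i = q then c else 0)
      ((hU.eventually_mem hz).mono fun w hw => hr w hw i hi q), dz_const]
    rfl
  rw [dz_lg (fun p q => (hG.1.1 z hz p q).differentiableAt (by simp))
    ((hU.eventually_mem hz).mono fun w hw => hG.1.2.1 w hw) (hG.2 z hz).det_pos.ne', e,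
    Matrix.zero_mul, trace_zero]

/-- sums against a flat column of a block matrix -/
theorem sum_blk {s : Finset ι} {J : Mat ι} (hJ : Blk s J) {i : ι} (hi : i ∈ s) {d : ι → ℂ}
    (hd : ∀ p ∈ s, d p = 0) (f : ℂ → ℂ) (hf : f 0 = 0) : ∑ p, f (J p i) * d p = 0 :=
  Finset.sum_eq_zero fun p _ => by
    by_cases hp : p ∈ s
    · rw [hd p hp, mul_zero]
    · rw [hJ p i (iff_of_false hp (not_not.2 hi)), hf, zero_mul]

variable {X : Type} [TopologicalSpace X] {M : Atl ι X}

/-- the Jacobian determinant of a change of product charts is basic -/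
theorem dz_det_zero (ha : RepA' M) {g : X → Mat ι} (hg : M.IsK g) {C : Cov M} {s : Finset ι}
    (hC : C.Prod g s) {a b : Fin C.n} {x : X} (hx : x ∈ (C.e a).source)
    (hx' : x ∈ (C.e b).source) {i : ι} (hi : i ∈ s) :
    dz (fun w => (jac (C.e b ∘ (C.e a).symm) w).det) i (C.e a x) = 0 := by
  have h := M.hol _ (C.mem a) _ (C.mem b) x hx hx'
  have h0 := ha.tj_det _ (C.mem a) _ (C.mem b) x hx hx'
  have hs : ∀ p q, ContDiffAt ℝ 2 (fun w => M.repF g (C.e b) w p q)
      ((C.e b ∘ (C.e a).symm) (C.e a x)) := by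
    rw [RepB.tr_pt hx]; exact RepB.k_sm hg (C.mem b) hx' 2
  have hp : (M.repF g (C.e b) ((C.e b ∘ (C.e a).symm) (C.e a x))).det.re ≠ 0 := by
    rw [RepB.tr_pt hx]; exact RepB.k_det hg (C.mem b) hx'
  have l := (RepB.sm_lg hs hp).differentiableAt two_ne_zero
  have e1 := dz_congr (RepB.lg_loc h h0 hs hp (RepB.repF_ev ha g (C.mem a) (C.mem b) hx hx')) i
  rw [dz_add ((RepB.sm_lm (n := 1) (RepB.an_det h) h0).differentiableAt one_ne_zero)
      (l.comp _ ((RepB.an_sm (n := 1) h).differentiableAt one_ne_zero)),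
    RepB.dz_lm (RepB.an_det h) h0, dz_comp l h.differentiableAt,
    dz_lg_zero (C.e a).open_target (hg _ (C.mem a)) (hC.1 a) ((C.e a).map_source hx) hi,
    sum_blk (J := jac (C.e b ∘ (C.e a).symm) (C.e a x)) (hC.2 a b x hx hx') hi (fun p hp => by
      rw [RepB.tr_pt hx]
      exact dz_lg_zero (C.e b).open_target (hg _ (C.mem b)) (hC.1 b) ((C.e b).map_source hx') hp)
      (fun t => t) rfl, add_zero] at e1
  exact (div_eq_zero_iff.1 e1.symm).resolve_right h0

end BasLoc

open BasLoc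

theorem basLoc (hA : RepA) : BasLocS := by
  intro ι X _ _ _ M g C s a σ hg hC hσ b z hz i hi c
  have ha := hA ι X M
  obtain ⟨x, hx, rfl⟩ : ∃ x ∈ (C.e b).source, C.e b x = z :=
    have := C.sub b (ball_subset_closedBall hz)
    ⟨_, (C.e b).map_target this, (C.e b).right_inv this⟩
  obtain ⟨k, hx', -, hd, h1⟩ := hσ x
  have h := M.hol _ (C.mem b) _ (C.mem k) x hx hx'
  have h0 := ha.tj_det _ (C.mem b) _ (C.mem k) x hx hx'
  have hB : Blk s (jac (C.e k ∘ (C.e b).symm) (C.e b x)) := hC.2 b k x hx hx'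
  rw [← RepB.tr_pt (e' := C.e k) hx] at hd h1
  have dφ := (RepB.an_sm (n := 1) h).differentiableAt one_ne_zero
  have aD := (RepB.an_det h).fun_pow a
  have dD := (RepB.an_sm (n := 1) aD).differentiableAt one_ne_zero
  have e := RepB.rep_ev ha a σ (C.mem b) (C.mem k) hx hx'
  have e1 := dz_congr e i
  have e2 := dzb_congr e i
  have k1 := dz_comp hd h.differentiableAt i
  have k2 := dzb_comp hd h.differentiableAt i
  rw [sum_blk hB hi (fun p hp => by rw [dz, h1 p hp, h1 p hp]; simp) (fun t => t) rfl] at k1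
  rw [sum_blk hB hi (fun p hp => by rw [dzb, h1 p hp, h1 p hp]; simp) star (star_zero _)] at k2
  have m1 := dz_mul dD (hd.comp _ dφ) i
  have m2 := dzb_mul dD (hd.comp _ dφ) i
  rw [k1, RepB.dz_pow (RepB.an_det h) h0, dz_det_zero ha hg hC hx hx' hi] at m1
  rw [k2, dzb_hol aD.differentiableAt] at m2
  rw [fderiv_single, e1.trans m1, e2.trans m2]
  simp

end Pool.Agent.Lib.MP_813db1_ag.HS
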