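import Pool.Agent.Lib.MP_813db1_ag.HS.Stmt2
import Pool.Agent.Lib.MP_813db1_ag.HS.Calc

/-! Forms whose flat rows are constant. -/

namespace Pool.Agent.Lib.MP_813db1_ag.HS

open MeasureTheory Complex Matrix Filter Topology Set Metric
open scoped ContDiff ComplexOrder ENNReal

noncomputable section

namespace RowsH

variable {ι : Type} [Fintype ι] [DecidableEq ι] (s : Finset ι)

/-- the block matrix with blocks `c` and `T`. -/
def emb (c : ℂ) (T : Mat {i // i ∉ s}) : Mat ι :=
  (fromBlocks (c • (1 : Mat {i // i ∈ s})) 0 0 T).submatrix (Equiv.sumCompl (· ∈ s)).symm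
    (Equiv.sumCompl (· ∈ s)).symm

theorem emb_apply (c : ℂ) (T : Mat {i // i ∉ s}) (i j : ι) : emb s c T i j =
    if hi : i ∈ s then (if i = j then c else 0) else if hj : j ∈ s then 0 else
      T ⟨i, hi⟩ ⟨j, hj⟩ := by
  by_cases hi : i ∈ s <;> by_cases hj : j ∈ s
  · simp [emb, Equiv.sumCompl_symm_apply_of_pos (p := (· ∈ s)) hi,
      Equiv.sumCompl_symm_apply_of_pos (p := (· ∈ s)) hj, hi, one_apply]
  · have : i ≠ j := fun e => hj (e ▸ hi)
    simp [emb, Equiv.sumCompl_symm_apply_of_pos (p := (· ∈ s)) hi,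
      Equiv.sumCompl_symm_apply_of_neg (p := (· ∈ s)) hj, hi, this]
  · simp [emb, Equiv.sumCompl_symm_apply_of_neg (p := (· ∈ s)) hi,
      Equiv.sumCompl_symm_apply_of_pos (p := (· ∈ s)) hj, hi, hj]
  · simp [emb, Equiv.sumCompl_symm_apply_of_neg (p := (· ∈ s)) hi,
      Equiv.sumCompl_symm_apply_of_neg (p := (· ∈ s)) hj, hi, hj]

theorem emb_rows (c : ℂ) (T : Mat {i // i ∉ s}) : Rows s c (emb s c T) := fun i hi j => by
  rw [emb_apply, dif_pos hi]

theorem emb_blk (c : ℂ) (T : Mat {i // i ∉ s}) : Blk s (emb s c T) := fun p i h => by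
  rw [emb_apply]
  by_cases hp : p ∈ s
  · rw [dif_pos hp, if_neg fun e : p = i => h.1 hp (e ▸ hp)]
  · rw [dif_neg hp, dif_pos (by tauto)]

theorem emb_sub (c : ℂ) (T : Mat {i // i ∉ s}) :
    (emb s c T).submatrix Subtype.val Subtype.val = T := by
  ext i j
  rw [submatrix_apply, emb_apply, dif_neg i.2, dif_neg j.2]

theorem eq_emb {c : ℂ} {H : Mat ι} (h : Rows s c H) (h' : Blk s H) :
    H = emb s c (H.submatrix Subtype.val Subtype.val) := by
  ext i j
  rw [emb_apply]
  by_cases hi : i ∈ s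
  · rw [dif_pos hi, h i hi]
  by_cases hj : j ∈ s
  · rw [dif_neg hi, dif_pos hj, h' i j (by tauto)]
  · rw [dif_neg hi, dif_neg hj, submatrix_apply]

theorem emb_mul (c d : ℂ) (T T' : Mat {i // i ∉ s}) :
    emb s c T * emb s d T' = emb s (c * d) (T * T') := by
  simp [emb, submatrix_mul_equiv, fromBlocks_multiply, smul_smul, mul_comm]

theorem emb_one : emb s 1 1 = 1 := by
  simp [emb]

theorem det_emb (c : ℂ) (T : Mat {i // i ∉ s}) : (emb s c T).det = c ^ s.card * T.det := by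
  simp [emb, det_submatrix_equiv_self, det_fromBlocks_zero₂₁]

theorem trace_emb (c : ℂ) (T : Mat {i // i ∉ s}) : trace (emb s c T) = s.card * c + trace T := by
  have : trace (emb s c T) = trace (fromBlocks (c • (1 : Mat {i // i ∈ s})) 0 0 T) :=
    Fintype.sum_equiv (Equiv.sumCompl (· ∈ s)).symm _ _ fun _ => rfl
  rw [this]
  simp [trace, Fintype.sum_sum_type]

theorem inv_emb {c : ℂ} {T : Mat {i // i ∉ s}} (hc : c ≠ 0) (hT : T.det ≠ 0) :
    (emb s c T)⁻¹ = emb s c⁻¹ T⁻¹ :=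
  inv_eq_right_inv (by rw [emb_mul, mul_inv_cancel₀ hc, mul_nonsing_inv _ (Ne.isUnit hT), emb_one])

theorem det_sub {c : ℂ} {H : Mat ι} (h : Rows s c H) (h' : Blk s H) (h0 : H.det ≠ 0) :
    (H.submatrix Subtype.val Subtype.val : Mat {i // i ∉ s}).det ≠ 0 := fun e => h0 (by
  rw [eq_emb s h h', det_emb, e, mul_zero])

/-- the projection to the transversal part. -/
def ypL : V ι →L[ℝ] V {i // i ∉ s} := ContinuousLinearMap.pi fun i => ContinuousLinearMap.proj i.1

/-- the inclusion of the transversal part. -/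
def glL : V {i // i ∉ s} →L[ℝ] V ι := ContinuousLinearMap.pi fun i =>
  if h : i ∈ s then 0 else ContinuousLinearMap.proj (R := ℝ) (φ := fun _ => ℂ) ⟨i, h⟩

theorem glL_apply (y : V {i // i ∉ s}) : glL s y = glue s 0 y := by
  funext i
  by_cases h : i ∈ s <;> simp [glL, glue, h]

theorem yp_single (i : ι) (c : ℂ) :
    ypL s (Pi.single i c) = if h : i ∈ s then 0 else Pi.single ⟨i, h⟩ c := by
  funext j
  have e : ypL s (Pi.single i c) j = (Pi.single i c : V ι) j.1 := rfl
  rw [e]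
  by_cases h : i ∈ s
  · rw [dif_pos h, Pi.single_eq_of_ne fun e : j.1 = i => j.2 (e ▸ h)]
    rfl
  · simp only [dif_neg h, Pi.single_apply, Subtype.ext_iff]

theorem gl_single (k : {i // i ∉ s}) (c : ℂ) : glL s (Pi.single k c) = Pi.single k.1 c := by
  funext j
  rw [glL_apply, glue]
  by_cases h : j ∈ s
  · rw [dif_pos h, Pi.single_eq_of_ne fun e : j = k.1 => k.2 (e ▸ h)]
    rfl
  · simp only [dif_neg h, Pi.single_apply, Subtype.ext_iff]

theorem norm_glue {R : ℝ} (hR : 0 < R) (z : V {i // i ∈ s}) (y : V {i // i ∉ s}) :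
    ‖glue s z y‖ < R ↔ ‖z‖ < R ∧ ‖y‖ < R := by
  simp only [pi_norm_lt_iff hR]
  refine ⟨fun h => ⟨fun i => ?_, fun i => ?_⟩, fun h i => ?_⟩
  · simpa only [glue, dif_pos i.2] using h i.1
  · simpa only [glue, dif_neg i.2] using h i.1
  · by_cases hi : i ∈ s
    · simpa only [glue, dif_pos hi] using h.1 ⟨i, hi⟩
    · simpa only [glue, dif_neg hi] using h.2 ⟨i, hi⟩

theorem gl_mem {R : ℝ} {y : V {i // i ∉ s}} (h : y ∈ ball 0 R) : glue s 0 y ∈ ball 0 R := by
  have hR := pos_of_mem_ball h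
  rw [mem_ball_zero_iff] at h ⊢
  exact (norm_glue s hR _ _).2 ⟨by simpa using hR, h⟩

theorem yp_mem {R : ℝ} {z : V ι} (h : z ∈ ball 0 R) : yp s z ∈ ball 0 R := by
  have hR := pos_of_mem_ball h
  rw [mem_ball_zero_iff, pi_norm_lt_iff hR] at h ⊢
  exact fun i => h i.1

theorem const (R : ℝ) (F : V ι → ℂ) (h : ∀ z ∈ ball (0 : V ι) R, DifferentiableAt ℝ F z ∧
    ∀ i ∈ s, ∀ c : ℂ, fderiv ℝ F z (Pi.single i c) = 0) (z : V ι) (hz : z ∈ ball (0 : V ι) R) :
    F z = F (glue s 0 (yp s z)) := by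
  set w := glue s 0 (yp s z)
  have e : z - w = ∑ i ∈ s, Pi.single i (z i) := by
    funext j
    by_cases hj : j ∈ s <;> simp [w, glue, yp, hj, Finset.sum_apply, Pi.single_apply]
  have d : ∀ t ∈ Icc (0 : ℝ) 1,
      HasDerivWithinAt (fun t : ℝ => F (w + t • (z - w))) 0 (Icc 0 1) t := fun t ht => by
    have m : w + t • (z - w) ∈ ball (0 : V ι) R :=
      (convex_ball 0 R).add_smul_sub_mem (gl_mem s (yp_mem s hz)) hz ht
    have a := (h _ m).1.hasFDerivAt.comp_hasDerivAt t
      (((hasDerivAt_id t).smul_const (z - w)).const_add w)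
    rw [one_smul, show fderiv ℝ F _ (z - w) = 0 by
      rw [e, map_sum]
      exact Finset.sum_eq_zero fun i hi => by rw [← e]; exact (h _ m).2 i hi _] at a
    exact a.hasDerivWithinAt
  have := (convex_Icc (0 : ℝ) 1).norm_image_sub_le_of_norm_hasDerivWithin_le (C := 0) d
    (fun _ _ => norm_zero.le) (left_mem_Icc.2 zero_le_one) (right_mem_Icc.2 zero_le_one)
  simpa [sub_eq_zero] using this

theorem fd_yp {f : V {i // i ∉ s} → ℂ} {z : V ι} (h : DifferentiableAt ℝ f (yp s z)) (v : V ι) :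
    fderiv ℝ (fun w => f (yp s w)) z v = fderiv ℝ f (yp s z) (ypL s v) := by
  have := (HasFDerivAt.comp z (f := ypL s) h.hasFDerivAt (ypL s).hasFDerivAt).fderiv
  exact congrArg (· v) this

theorem der1 {f : V {i // i ∉ s} → ℂ} {z : V ι} (h : DifferentiableAt ℝ f (yp s z)) (i : ι) :
    dz (fun w => f (yp s w)) i z = (if h : i ∈ s then 0 else dz f ⟨i, h⟩ (yp s z)) ∧
      dzb (fun w => f (yp s w)) i z = if h : i ∈ s then 0 else dzb f ⟨i, h⟩ (yp s z) := by
  simp only [dz, dzb, fd_yp s h, yp_single]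
  by_cases hi : i ∈ s <;> simp [hi]

theorem der2 {f : V {i // i ∉ s} → ℂ} {z : V ι} (h : ContDiffAt ℝ 2 f (yp s z)) :
    levi (fun w => f (yp s w)) z = emb s 0 (levi f (yp s z)) := by
  ext i j
  have e : dzb (fun w => f (yp s w)) j =ᶠ[𝓝 z]
      fun w => if h : j ∈ s then 0 else dzb f ⟨j, h⟩ (yp s w) :=
    ((ypL s).continuous.continuousAt.eventually (eventually_diff h)).mono fun w hw =>
      (der1 s hw j).2
  rw [levi, of_apply, dz_congr e, emb_apply]
  by_cases hj : j ∈ s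
  · simp [hj, dz_const]
  · simp only [dif_neg hj]
    rw [(der1 s (differentiableAt_dzb h _) i).1]
    by_cases hi : i ∈ s <;> simp [hi, levi]

theorem dz_gl {f : V ι → ℂ} {y : V {i // i ∉ s}} (h : DifferentiableAt ℝ f (glue s 0 y))
    (k : {i // i ∉ s}) : dz (fun w => f (glue s 0 w)) k y = dz f k.1 (glue s 0 y) := by
  rw [← glL_apply] at h
  have := (HasFDerivAt.comp y (f := glL s) h.hasFDerivAt (glL s).hasFDerivAt).fderiv
  simp only [← glL_apply, dz]
  rw [show (fun w => f (glL s w)) = f ∘ glL s from rfl, this]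
  simp only [ContinuousLinearMap.comp_apply, gl_single]

theorem kon {G : V ι → Mat ι} {R : ℝ} (h : KOn G (ball 0 R)) :
    KOn (fun y : V {i // i ∉ s} => (G (glue s 0 y)).submatrix Subtype.val Subtype.val)
      (ball 0 R) := by
  refine ⟨⟨fun y hy i j => ?_, fun y hy => (h.1.2.1 _ (gl_mem s hy)).submatrix _,
    fun y hy i j k => ?_⟩, fun y hy => (h.2 _ (gl_mem s hy)).submatrix Subtype.val_injective⟩
  · have a := h.1.1 _ (gl_mem s hy) i.1 j.1
    rw [← glL_apply] at a
    simp only [← glL_apply]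
    exact a.comp y (glL s).contDiff.contDiffAt
  · have d := fun a b => (h.1.1 _ (gl_mem s hy) a b).differentiableAt (by simp)
    simp only [submatrix_apply]
    rw [dz_gl s (d i.1 j.1), dz_gl s (d k.1 j.1)]
    exact h.1.2.2 _ (gl_mem s hy) _ _ _

theorem bas {G : V ι → Mat ι} {U : Set (V ι)} {c : ℂ} (hU : IsOpen U) (h : ClOn G U)
    (hr : ∀ z ∈ U, Rows s c (G z)) {z : V ι} (hz : z ∈ U) (k j : ι) {i : ι} (hi : i ∈ s) (a : ℂ) :
    fderiv ℝ (fun w => G w k j) z (Pi.single i a) = 0 := by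
  have e : ∀ k j, dz (fun w => G w k j) i z = 0 := fun k j => by
    rw [h.2.2 z hz, dz_congr (g := fun _ => if i = j then c else 0)
      (eventually_of_mem (hU.mem_nhds hz) fun w hw => hr w hw i hi j), dz_const]
  have e' : dzb (fun w => G w k j) i z = 0 := by
    rw [dzb_congr (g := fun w => star (G w j k))
      (eventually_of_mem (hU.mem_nhds hz) fun w hw => ((h.2.1 w hw).apply k j).symm), dzb_star, e,
      star_zero]
  rw [fderiv_single, e, e', zero_mul, zero_mul, add_zero]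

theorem blk {c : ℂ} {H : Mat ι} (h : Rows s c H) (h' : H.IsHermitian) : Blk s H := fun p i e => by
  by_cases hp : p ∈ s
  · rw [h p hp, if_neg fun a : p = i => e.1 hp (a ▸ hp)]
  · have hi : i ∈ s := by tauto
    rw [← h'.apply, h i hi, if_neg fun a : i = p => hp (a ▸ hi), star_zero]

theorem lint (I : Fintype {i // i ∈ s}) (R : ℝ) (hR : 0 < R) (f : V {i // i ∉ s} → ℝ≥0∞)
    (hf : Measurable f) : ∫⁻ w in ball (0 : V ι) R, f (yp s w) =
      volume (ball (0 : V {i // i ∈ s}) R) * ∫⁻ y in ball (0 : V {i // i ∉ s}) R, f y := by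
  obtain rfl : I = Subtype.fintype _ := Subsingleton.elim _ _
  let I : Fintype {i // i ∈ s} := Subtype.fintype _
  have p := volume_preserving_piEquivPiSubtypeProd (fun _ : ι => ℂ) (· ∈ s)
  have e : ball (0 : V ι) R = MeasurableEquiv.piEquivPiSubtypeProd (fun _ : ι => ℂ) (· ∈ s) ⁻¹'
      (ball (0 : V {i // i ∈ s}) R ×ˢ ball (0 : V {i // i ∉ s}) R) := by
    ext w
    simp only [mem_preimage, mem_prod, mem_ball_zero_iff, pi_norm_lt_iff hR]
    refine ⟨fun h => ⟨fun i => h i.1, fun i => h i.1⟩, fun h i => ?_⟩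
    by_cases hi : i ∈ s
    · exact h.1 ⟨i, hi⟩
    · exact h.2 ⟨i, hi⟩
  have a := p.setLIntegral_comp_preimage_emb (MeasurableEquiv.measurableEmbedding _)
    (fun q => f q.2) (ball (0 : V {i // i ∈ s}) R ×ˢ ball (0 : V {i // i ∉ s}) R)
  rw [e]
  refine a.trans ?_
  rw [Measure.volume_eq_prod, ← Measure.prod_restrict,
    lintegral_prod (fun q => f q.2) (hf.comp measurable_snd).aemeasurable]
  simp only [lintegral_const, Measure.restrict_apply_univ, mul_comm]

theorem rowsS : RowsS where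
  rows ι X _ _ _ M C s c B hB hc hr := by
    have K : ∀ a, KOn (M.repF B (C.e a)) (ball 0 (4 * C.r a)) := fun a => by
      have k := hB _ (C.mem a)
      have u : ball 0 (4 * C.r a) ⊆ (C.e a).target := ball_subset_closedBall.trans (C.sub a)
      exact ⟨⟨fun z hz => k.1.1 z (u hz), fun z hz => k.1.2.1 z (u hz),
        fun z hz => k.1.2.2 z (u hz)⟩, fun z hz => k.2 z (u hz)⟩
    refine ⟨fun i j a z hz k hk d => bas s isOpen_ball (K a).1 (hr a) hz i j hk d,
      fun a => kon s (K a), fun a z hz => ?_⟩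
    have b := blk s (hr a z hz) ((K a).1.2.1 z hz)
    have t : (M.repF B (C.e a) z).submatrix Subtype.val Subtype.val = C.trv s B a (yp s z) := by
      ext i j
      exact const s _ (fun w => M.repF B (C.e a) w i.1 j.1) (fun w hw =>
        ⟨((K a).1.1 w hw _ _).differentiableAt (by simp),
          fun k hk d => bas s isOpen_ball (K a).1 (hr a) hw _ _ hk d⟩) z hz
    have n := det_sub s (hr a z hz) b ((K a).2 z hz).det_pos.ne'
    have e := eq_emb s (hr a z hz) b
    have e' := congrArg (·⁻¹) e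
    simp only [inv_emb s (ofReal_ne_zero.2 hc.ne') n] at e'
    rw [t] at e e'
    exact ⟨hr a z hz, e' ▸ emb_rows s _ _, b, e' ▸ emb_blk s _ _, t, by rw [e', emb_sub],
      by rw [e, det_emb]⟩
  const ι _ _ s R F h z hz := const s R F h z hz
  der ι _ _ s f z := ⟨fun h i => der1 s h i, fun h => by
    rw [der2 s h]
    exact ⟨emb_rows s _ _, emb_blk s _ _, emb_sub s _ _⟩⟩
  norm ι _ _ s R hR := ⟨norm_glue s hR, lint s _ R hR⟩
  tr ι _ _ s H G c d hc h0 h1 h2 h3 h4 := by
    conv_lhs => rw [eq_emb s h1 h2, eq_emb s h3 h4, inv_emb s hc (det_sub s h1 h2 h0), emb_mul,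
      trace_emb, ← div_eq_mul_inv]

end RowsH

theorem rows (_ha : RepA) (_hm : MatS) : RowsS := RowsH.rowsS

end

end Pool.Agent.Lib.MP_813db1_ag.HS
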