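import Pool.Agent.Lib.MP_813db1_ag.HS.StmtF
import Pool.Agent.Lib.MP_813db1_ag.HS.Rows
import Pool.Agent.Lib.MP_813db1_ag.HS.RepB1

/-! The dictionary between basic sections and functions on the transversals. -/

namespace Pool.Agent.Lib.MP_813db1_ag.HS

open MeasureTheory Complex Matrix Filter Topology Set Metric
open scoped ContDiff ComplexOrder ENNReal

namespace Dict

variable {ι : Type} [Fintype ι] [DecidableEq ι] (s : Finset ι)

theorem sumT (f : ι → ℂ) (h : ∀ j ∈ s, f j = 0) : ∑ j, f j = ∑ j : {i // i ∉ s}, f j.1 := by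
  rw [← Finset.sum_compl_add_sum s, Finset.sum_eq_zero h, add_zero]
  exact Finset.sum_subtype _ (fun _ => Finset.mem_compl) f

theorem ip_glue (B : Mat ι) (u v : V {i // i ∉ s}) : ipV B (glue s 0 u) (glue s 0 v) =
    ipV (B.submatrix Subtype.val Subtype.val) u v := by
  rw [ipV, ipV, sumT s _ fun i hi => by simp [glue, hi]]
  refine Finset.sum_congr rfl fun i _ => ?_
  rw [sumT s _ fun j hj => by simp [glue, hj]]
  exact Finset.sum_congr rfl fun j _ => by simp [glue, i.2, j.2]

theorem shp_glue {H : V ι → Mat ι} {T : V {i // i ∉ s} → Mat {i // i ∉ s}} {f : V ι → ℂ}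
    {F : V {i // i ∉ s} → ℂ} {z : V ι} (hb : Blk s (H z)⁻¹)
    (ht : (H z)⁻¹.submatrix Subtype.val Subtype.val = (T (yp s z))⁻¹)
    (hF : DifferentiableAt ℝ F (yp s z)) (e : ∀ᶠ w in 𝓝 z, f w = F (yp s w)) :
    shp H f z = glue s 0 (shp T F (yp s z)) := by
  funext i
  have d : ∀ j, dzb f j z = if h : j ∈ s then 0 else dzb F ⟨j, h⟩ (yp s z) := fun j =>
    (dzb_congr e j).trans (RowsH.der1 s hF j).2
  rw [shp, sumT s _ fun j hj => by rw [d, dif_pos hj, mul_zero], glue]
  split_ifs with hi
  · exact Finset.sum_eq_zero fun j _ => by rw [hb j i (iff_of_false j.2 (not_not.2 hi)), zero_mul]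
  · exact Finset.sum_congr rfl fun j _ => by rw [d, dif_neg j.2, ← ht, submatrix_apply]

theorem nD_glue {H : V ι → Mat ι} {T : V {i // i ∉ s} → Mat {i // i ∉ s}} {U : V ι → V ι}
    {u : V {i // i ∉ s} → V {i // i ∉ s}} {z : V ι}
    (h1 : (H z).submatrix Subtype.val Subtype.val = T (yp s z))
    (h2 : (H z)⁻¹.submatrix Subtype.val Subtype.val = (T (yp s z))⁻¹)
    (hu : ∀ i, DifferentiableAt ℝ (fun w => u w i) (yp s z))
    (e : ∀ᶠ w in 𝓝 z, U w = glue s 0 (u (yp s w))) : nD H U z = nD T u (yp s z) := by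
  have d : ∀ i k, dzb (fun w => U w i) k z = if hi : i ∈ s then 0 else if hk : k ∈ s then 0 else
      dzb (fun w => u w ⟨i, hi⟩) ⟨k, hk⟩ (yp s z) := fun i k => by
    rw [dzb_congr (g := fun w => glue s 0 (u (yp s w)) i) (e.mono fun w h => congrFun h i)]
    by_cases hi : i ∈ s
    · simp only [glue, dif_pos hi, Pi.zero_apply, dzb_const]
    · simp only [glue, dif_neg hi]
      exact (RowsH.der1 s (hu _) k).2
  simp only [nD, d, ← h2]
  rw [← h1, sumT s _ fun k hk => by simp [hk]]
  refine congrArg _ (Finset.sum_congr rfl fun k _ => ?_)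
  rw [sumT s _ fun l hl => by simp [hl]]
  refine Finset.sum_congr rfl fun l _ => ?_
  rw [sumT s _ fun i hi => by simp [hi]]
  refine Finset.sum_congr rfl fun i _ => ?_
  rw [sumT s _ fun j hj => by simp [hj]]
  exact Finset.sum_congr rfl fun j _ => by simp [i.2, j.2, k.2, l.2]

end Dict

theorem dict (ha : RepA) (hb : RepB) (hv : VolS) (hm : MatS) : DictS where
  pt ι X _ _ _ M g h C s c b σ F k z hg hh hc hR hz hF he := by
    have A := ha ι X M
    have zt := C.sub k (ball_subset_closedBall hz)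
    have xs := (C.e k).map_target zt
    have xz := (C.e k).right_inv zt
    have J0 := A.tj_det _ (C.mem k) _ (M.ch_mem _) _ xs (M.mem _)
    have F2 : ContDiffAt ℝ 2 F (yp s z) := hF.of_le (by norm_cast)
    have r2 : ContDiffAt ℝ 2 (M.rep (b + 1) σ (C.e k)) (C.e k ((C.e k).symm z)) := by
      rw [xz]
      exact (F2.comp z (RowsH.ypL s).contDiff.contDiffAt).congr_of_eventuallyEq he
    have s1 := (hb ι X M).shp_rep (b + 1) h σ _ (C.mem k) _ xs (r2.differentiableAt two_ne_zero)
    have s2 := (hb ι X M).nD_rep (b + 1) h σ hh _ (C.mem k) _ xs r2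
    rw [xz] at s1 s2
    have ev : ∀ᶠ w in 𝓝 z, shp (M.repF h (C.e k)) (M.rep (b + 1) σ (C.e k)) w =
        glue s 0 (shp (C.trv s h k) F (yp s w)) := by
      filter_upwards [isOpen_ball.mem_nhds hz, he.eventually_nhds,
        (RowsH.ypL s).continuous.continuousAt.eventually (eventually_diff F2)] with w a1 a2 a3
      obtain ⟨-, -, -, b1, -, b2, -⟩ := hR.ent k w a1
      exact Dict.shp_glue s b1 b2 a3 a2
    obtain ⟨-, -, -, -, t1, t2, t3⟩ := hR.ent k z hz
    have K := hR.kon k
    have ym := RowsH.yp_mem s hz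
    have T0 := K.2 _ ym
    rw [Dict.nD_glue s t1 t2 (RepB.shp_diff (fun i j => (K.1.1 _ ym i j).of_le (by simp))
      T0.det_pos.ne' F2) ev] at s2
    rw [ev.self_of_nhds] at s1
    have f0 : F (yp s z) = _ * σ _ := he.self_of_nhds.symm
    set x := (C.e k).symm z
    set J := tj (C.e k) (M.ch x) x
    have rp : ∀ B, M.repF B (C.e k) z = pull J (B x) := fun _ => rfl
    have D0 : 0 < ‖J.det‖ ^ 2 := by positivity
    have g0 := RepB.pos_det (((A.isK_iff g).1 hg).2 x)
    have h0 := RepB.pos_det (((A.isK_iff h).1 hh).2 x)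
    have T1 := RepB.pos_det T0
    have t4 := congrArg re t3
    rw [rp, RepB.det_pull, re_ofReal_mul, ← ofReal_pow, re_ofReal_mul] at t4
    have W : ∀ y : ℝ, (M.repF g (C.e k) z).det.re * (y * wt (b + 1) g h x) =
        (‖J.det‖ ^ 2) ^ (b + 1) * y * twt c s.card b (C.trv s h k (yp s z)) := fun y => by
      rw [rp, RepB.det_pull, re_ofReal_mul, wt, rat, twt, neg_mul, Real.exp_neg, ← Real.log_pow,
        Real.exp_log (pow_pos T1 _), pow_mul, inv_pow, inv_pow, ← mul_inv, ← mul_pow, ← t4, mul_pow]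
      field_simp
      ring
    refine ⟨?_, fun B => ?_, by rw [W, s2]⟩
    · rw [W, f0, norm_mul, norm_pow, mul_pow, pow_right_comm]
    · rw [W, nV, nV, ← Dict.ip_glue, rp, (hm.pull_pd ι J (B x) J0).2.2.2.2.2.2, s1]
      congr 1
      rw [← re_ofReal_mul]
      congr 1
      simp only [ipV, Finset.mul_sum, Pi.smul_apply, smul_eq_mul, star_mul', star_pow, ofReal_pow,
        ← mul_conj', mul_pow, RCLike.star_def]
      exact Finset.sum_congr rfl fun i _ => Finset.sum_congr rfl fun j _ => by ring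
  bas ι X _ _ _ M C s a σ k h1 h2 := by
    have sm := fun z (hz : z ∈ ball (0 : V ι) (4 * C.r k)) =>
      h1 _ (C.mem k) z (C.sub k (ball_subset_closedBall hz))
    refine ⟨fun y hy => ?_, fun z hz => ⟨RowsH.yp_mem s hz,
      eventually_of_mem (isOpen_ball.mem_nhds hz) fun w hw => RowsH.const s _ _
        (fun w hw => ⟨(sm w hw).differentiableAt (by simp), h2 k w hw⟩) w hw⟩⟩
    have a := sm _ (RowsH.gl_mem s hy)
    rw [← RowsH.glL_apply] at a
    unfold Cov.tS
    simp only [← RowsH.glL_apply]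
    exact a.comp y (RowsH.glL s).contDiff.contDiffAt
  box ι X _ _ _ _ _ _ _ M g μ C s k R S Φ φ hg hμ R0 R4 hS SR hφ he := by
    have sub : ball (0 : V ι) R ⊆ (C.e k).target :=
      (ball_subset_ball R4).trans (ball_subset_closedBall.trans (C.sub k))
    have my : MeasurableSet (yp s ⁻¹' S) := (RowsH.ypL s).continuous.measurable hS
    have mf : Measurable (S.indicator fun y => ENNReal.ofReal (φ y)) := by
      classical
      rw [← piecewise_eq_indicator]
      exact (ENNReal.continuous_ofReal.comp_continuousOn hφ).measurable_piecewise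
        continuousOn_const hS
    rw [((hv ι X M g hg).2 μ hμ).lint _ (C.mem k) _ (measurableSet_ball.inter my)
      (inter_subset_left.trans sub), setLIntegral_congr_fun (measurableSet_ball.inter my)
      (g := fun z => ENNReal.ofReal (φ (yp s z))) fun z hz => by
        simp only [← he z hz.1 hz.2, ENNReal.ofReal_mul
          (RepB.pos_det ((hg _ (C.mem k)).2 z (sub hz.1))).le],
      ← inter_eq_left.2 SR, ← Measure.restrict_restrict hS, ← lintegral_indicator hS,
      ← RowsH.lint s _ R R0 _ mf, inter_eq_left.2 SR, inter_comm, ← Measure.restrict_restrict my,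
      ← lintegral_indicator my]
    rfl

end Pool.Agent.Lib.MP_813db1_ag.HS
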