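import Pool.Agent.Lib.MP_813db1_ag.HS.StmtF
import Pool.Agent.Lib.MP_813db1_ag.HS.RepB1
import Pool.Agent.Lib.MP_813db1_ag.HS.Rows
import Pool.Agent.Lib.MP_813db1_ag.HS.FGauge

/-! Functions with compact support on the transversal of the tube extend to basic sections. -/

namespace Pool.Agent.Lib.MP_813db1_ag.HS

open MeasureTheory Matrix Filter Topology Set Metric
open scoped ContDiff ComplexOrder

namespace ExtX

section loc

variable {τ : Type} [Fintype τ] [DecidableEq τ]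

theorem twt_pull (c : ℝ) (m b : ℕ) {J H : Mat τ} (hJ : J.det ≠ 0) (hH : H.PosDef) :
    (‖J.det‖ ^ 2) ^ b * twt c m b (pull J H) = twt c m b H := by
  have d : 0 < ‖J.det‖ ^ 2 := by positivity
  rw [twt, twt, RepB.det_pull, Complex.re_ofReal_mul, Real.log_mul d.ne' (RepB.pos_det hH).ne',
    mul_add, Real.exp_add, neg_mul, Real.exp_neg, Real.exp_nat_mul, Real.exp_log d]
  field_simp

theorem shp_cmul (H : V τ → Mat τ) (c : ℂ) {F : V τ → ℂ} {y : V τ} (h : DifferentiableAt ℝ F y) :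
    shp H (fun w => c * F w) y = c • shp H F y := by
  funext i
  simp only [shp, dzb_cmul c h, Pi.smul_apply, smul_eq_mul, Finset.mul_sum, mul_left_comm]

omit [DecidableEq τ] in
theorem pull_lin (J A B C : Mat τ) (c : ℂ) :
    pull J (c • A - B + C) = c • pull J A - pull J B + pull J C := by
  simp only [pull, mul_add, add_mul, mul_sub, sub_mul, Matrix.mul_smul, Matrix.smul_mul]

end loc

variable {ι X : Type} [Fintype ι] [DecidableEq ι] [TopologicalSpace X] {M : Atl ι X}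

omit [Fintype ι] [DecidableEq ι] in
theorem near {e : Ch ι X} {x : X} (hx : x ∈ e.source) {P : X → Prop} (h : ∀ᶠ x' in 𝓝 x, P x') :
    ∀ᶠ w in 𝓝 (e x), e (e.symm w) = w ∧ P (e.symm w) := by
  filter_upwards [e.open_target.mem_nhds (e.map_source hx), (e.tendsto_symm hx).eventually h]
    with w a b
  exact ⟨e.right_inv a, b⟩

theorem rep_zero {e : Ch ι X} {x : X} (hx : x ∈ e.source) (a : ℕ) {σ : X → ℂ}
    (h : ∀ᶠ x' in 𝓝 x, σ x' = 0) : M.rep a σ e =ᶠ[𝓝 (e x)] fun _ => 0 :=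
  (near hx h).mono fun w hw => by rw [Atl.rep, hw.2, mul_zero]

omit [DecidableEq ι] in
theorem tgt (C : Cov M) (k : Fin C.n) {z : V ι} (hz : z ∈ ball (0 : V ι) (4 * C.r k)) :
    z ∈ (C.e k).target := C.sub k (ball_subset_closedBall hz)

omit [DecidableEq ι] in
theorem big (C : Cov M) (k : Fin C.n) {κ : Type} [Fintype κ] {z : V κ} (hz : ‖z‖ < C.r k) :
    z ∈ ball (0 : V κ) (4 * C.r k) := by
  rw [mem_ball_zero_iff]
  linarith [C.pos k]

end ExtX

open ExtX in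
theorem extX (ha : RepA) (hm : MatS) (hu : UBasS) (hd : DictS) (hl : BasLocS) : ExtS := by
  intro ι X _ _ _ _ _ _ _ M g μ ε u C s a0 N y1 δ B W Yc mu b F hg hP hε hS hT hN hF hc hs
  obtain ⟨U1, U2, U3⟩ := hu ι X M g C s ε u hg hP hε hS
  have Rg : Rows' C s 1 g := RowsH.rowsS.rows ι X M C s 1 g hg one_pos fun a z hz => by
    rw [Complex.ofReal_one]
    exact hP.1 a z (tgt C a hz)
  obtain ⟨σ, hσ⟩ : ∃ σ, σ = W.indicator fun x => F (Yc x) * mu (b + 1) x := ⟨_, rfl⟩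
  rw [← hσ]
  have out : ∀ x ∉ W, ∀ᶠ x' in 𝓝 x, σ x' = 0 := fun x hx => by
    filter_upwards [(hT.cpt _ hc hs).isOpen_compl.mem_nhds fun h => hx h.1] with x' h
    by_cases w : x' ∈ W
    · rw [hσ, indicator_of_mem w, image_eq_zero_of_notMem_tsupport fun t => h ⟨w, t⟩, zero_mul]
    · rw [hσ, indicator_of_notMem w]
  have ins : ∀ x ∈ W, ∀ k, x ∈ (C.e k).source → ∀ (φ : V {i // i ∉ s} → V {i // i ∉ s}) (c : ℂ),
      AnalyticAt ℂ φ (yp s (C.e k x)) → (∀ᶠ x' in 𝓝 x, Yc x' = φ (yp s (C.e k x'))) →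
      (∀ᶠ x' in 𝓝 x, M.rep (b + 1) (mu (b + 1)) (C.e k) (C.e k x') =
        c * (jac φ (yp s (C.e k x'))).det ^ (b + 1)) →
      ContDiffAt ℝ ∞ (fun y => (jac φ y).det ^ (b + 1) * (c * F (φ y))) (yp s (C.e k x)) ∧
      ∀ᶠ w in 𝓝 (C.e k x), M.rep (b + 1) σ (C.e k) w =
        (jac φ (yp s w)).det ^ (b + 1) * (c * F (φ (yp s w))) := fun x hx k hk φ c h1 h2 h3 => by
    refine ⟨((RepB.an_sm (RepB.an_det h1)).pow _).mul
      (contDiffAt_const.mul (hF.contDiffAt.comp _ (RepB.an_sm h1))), ?_⟩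
    filter_upwards [near hk ((h2.and h3).and (hT.opn.mem_nhds hx))] with w ⟨e, ⟨e1, e2⟩, e3⟩
    rw [e] at e1 e2
    rw [Atl.rep] at e2 ⊢
    rw [hσ, indicator_of_mem e3, e1]
    linear_combination F (φ (yp s w)) * e2
  have all : ∀ x, ∃ k, x ∈ (C.e k).source ∧ ‖C.e k x‖ < C.r k ∧ ∃ F' : V {i // i ∉ s} → ℂ,
      ContDiffAt ℝ ∞ F' (yp s (C.e k x)) ∧
      M.rep (b + 1) σ (C.e k) =ᶠ[𝓝 (C.e k x)] fun w => F' (yp s w) := fun x => by
    obtain ⟨k, k1, k2⟩ := C.cover x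
    refine ⟨k, k1, k2, ?_⟩
    by_cases w : x ∈ W
    · obtain ⟨φ, p1, -, p3, p4⟩ := hT.loc k x w k1 k2
      obtain ⟨c, -, c2⟩ := p4 _ hN
      exact ⟨_, ins x w k k1 φ c p1 p3 c2⟩
    · exact ⟨fun _ => 0, contDiffAt_const, rep_zero k1 _ (out x w)⟩
  have sm : ∀ {F' : V {i // i ∉ s} → ℂ} {z : V ι}, ContDiffAt ℝ ∞ F' (yp s z) →
      ContDiffAt ℝ ∞ (fun w => F' (yp s w)) z := fun h =>
    h.comp _ (RowsH.ypL s).contDiff.contDiffAt
  refine ⟨(ha ι X M).ckS_loc ⊤ _ _ fun x => ?_, hl ι X M g C s _ σ hg hP fun x => ?_,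
    fun x hx => ?_, fun x hx => ?_⟩
  · obtain ⟨k, k1, -, F', f1, f2⟩ := all x
    exact ⟨_, C.mem k, k1, (sm f1).congr_of_eventuallyEq f2⟩
  · obtain ⟨k, k1, k2, F', f1, f2⟩ := all x
    refine ⟨k, k1, mem_ball_zero_iff.1 (big C k k2),
      ((sm f1).congr_of_eventuallyEq f2).differentiableAt (by simp), fun i hi c => ?_⟩
    rw [f2.fderiv_eq, RowsH.fd_yp s (f1.differentiableAt (by simp)), RowsH.yp_single, dif_pos hi,
      map_zero]
  · obtain ⟨k, k1, k2⟩ := C.cover x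
    obtain ⟨φ, p1, p2, p3, p4⟩ := hT.loc k x hx k1 k2
    obtain ⟨c, c1, c2⟩ := p4 _ hN
    obtain ⟨f1, f2⟩ := ins x hx k k1 φ c p1 p3 c2
    have z4 := big C k k2
    have y4 := RowsH.yp_mem s z4
    obtain ⟨d1, d2, -⟩ := hd.pt ι X M g _ C s ε b σ _ k _ hg hS.2.1 hε U2 z4 f1 f2
    replace d2 := d2 (M.hm g ε u)
    rw [(U2.ent k _ z4).2.2.2.2.1] at d2
    rw [(Rg.ent k _ z4).2.2.2.2.2.2, (C.e k).left_inv k1] at d1 d2
    have e0 : Yc x = φ (yp s (C.e k x)) := p3.self_of_nhds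
    have w4 := big C a0 (mem_ball_zero_iff.1 (hT.sub (hT.maps x hx)))
    rw [hσ, indicator_of_mem hx] at d1
    rw [e0] at w4 d1 ⊢
    generalize yp s (C.e k x) = y at *
    have e1 := p2.self_of_nhds.1
    have g0 := (Rg.kon a0).2 _ w4
    have j0 : (jac φ y).det ≠ 0 := fun h => by
      have := RepB.pos_det ((Rg.kon k).2 _ y4)
      rw [e1, RepB.det_pull, h] at this
      simp at this
    have e2 : C.trv s (M.hm g ε u) k y = pull (jac φ y) (C.trv s (M.hm g ε u) a0 (φ y)) := by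
      have l2 : ContDiffAt ℝ 2 (fun w => (u ((C.e a0).symm (glue s 0 w)) : ℂ)) (φ y) := by
        have := hS.1 _ (C.mem a0) _ (tgt C a0 (RowsH.gl_mem s w4))
        rw [← RowsH.glL_apply] at this
        simpa only [Function.comp_def, RowsH.glL_apply, fn] using
          (this.comp _ (RowsH.glL s).contDiff.contDiffAt).of_le FG.two_le
      rw [(U3 k y y4).1, (U3 a0 _ w4).1, pull_lin, ← e1, ← levi_comp l2 p1,
        ← RepB.ric_loc p1 j0 (fun i j => ((Rg.kon a0).1.1 _ w4 i j).of_le FG.two_le)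
          (RepB.pos_det g0).ne' (p2.mono fun _ h => h.1)]
      congr 1
      refine levi_congr (p2.mono fun w h => ?_)
      exact congrArg _ (h.2 u (fun e he z hz => (hS.1 e he z hz).of_le (by simp)) U1).symm
    have t := twt_pull ε s.card b j0 ((U2.kon a0).2 _ w4)
    have e3 := RepB.shp_loc (H := C.trv s (M.hm g ε u) k) (a := b + 1) p1 j0
      (F' := fun y => c * F y) ((hF.differentiable (by simp) _).const_mul c)
      (Eventually.of_forall fun _ => rfl) e2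
    rw [shp_cmul _ c (hF.differentiable (by simp) _)] at e3
    have e4 : ∀ v, nV (C.trv s (M.hm g ε u) k y) v =
        nV (C.trv s (M.hm g ε u) a0 (φ y)) (jac φ y *ᵥ v) := fun v => by
      rw [e2, nV, (hm.pull_pd _ _ _ j0).2.2.2.2.2.2, nV]
    rw [e4, e3, FG.nV_smul, FG.nV_smul] at d2
    rw [← e2] at t
    rw [e1, RepB.det_pull, Complex.ofReal_one, one_pow, one_mul, Complex.re_ofReal_mul] at d1 d2
    rw [norm_mul (_ ^ _), norm_mul c] at d1
    rw [norm_pow, c1] at d1 d2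
    have j1 : ‖(jac φ y).det‖ ^ 2 ≠ 0 := by positivity
    rw [← t]
    constructor
    · apply mul_left_cancel₀ j1
      linear_combination d1
    · apply mul_left_cancel₀ j1
      linear_combination d2
  · funext i
    simp only [Atl.shpX, shp, dzb_congr (rep_zero (M.mem x) _ (out x hx)), dzb_const, mul_zero,
      Finset.sum_const_zero, Pi.zero_apply]

end Pool.Agent.Lib.MP_813db1_ag.HS
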