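import Pool.Agent.Lib.MP_813db1_ag.HS.Stmt
import Pool.Agent.Lib.MP_813db1_ag.HS.Calc

/-! The range of a parallel projector with vanishing sectional curvature is flat. -/

namespace Pool.Agent.Lib.MP_813db1_ag.HS

open MeasureTheory Complex Matrix Filter Topology Set Metric
open scoped ContDiff ComplexOrder

noncomputable section

namespace Flat

variable {ι : Type} [Fintype ι] [DecidableEq ι]

/-- the curvature form on four vectors. -/
def T (R : ι → ι → ι → ι → ℂ) (x y u w : V ι) : ℂ :=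
  ∑ i, ∑ j, ∑ k, ∑ l, R i j k l * x i * star (y j) * u k * star (w l)

omit [DecidableEq ι] in
theorem T_s1 {R : ι → ι → ι → ι → ℂ} (h : ∀ i j k l, R i j k l = R k j i l) (x y u w : V ι) :
    T R x y u w = T R u y x w := by
  unfold T
  calc ∑ i, ∑ j, ∑ k, ∑ l, R i j k l * x i * star (y j) * u k * star (w l)
      = ∑ j, ∑ i, ∑ k, ∑ l, R i j k l * x i * star (y j) * u k * star (w l) := Finset.sum_comm
    _ = ∑ j, ∑ k, ∑ i, ∑ l, R i j k l * x i * star (y j) * u k * star (w l) :=
        Finset.sum_congr rfl fun _ _ => Finset.sum_comm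
    _ = ∑ k, ∑ j, ∑ i, ∑ l, R i j k l * x i * star (y j) * u k * star (w l) := Finset.sum_comm
    _ = _ := by
        refine Finset.sum_congr rfl fun k _ => Finset.sum_congr rfl fun j _ =>
          Finset.sum_congr rfl fun i _ => Finset.sum_congr rfl fun l _ => ?_
        rw [h i j k l]; ring

omit [DecidableEq ι] in
theorem T_s2 {R : ι → ι → ι → ι → ℂ} (h : ∀ i j k l, R i j k l = R i l k j) (x y u w : V ι) :
    T R x y u w = T R x w u y := by
  unfold T
  refine Finset.sum_congr rfl fun i _ => ?_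
  calc ∑ j, ∑ k, ∑ l, R i j k l * x i * star (y j) * u k * star (w l)
      = ∑ k, ∑ j, ∑ l, R i j k l * x i * star (y j) * u k * star (w l) := Finset.sum_comm
    _ = ∑ k, ∑ l, ∑ j, R i j k l * x i * star (y j) * u k * star (w l) :=
        Finset.sum_congr rfl fun _ _ => Finset.sum_comm
    _ = ∑ l, ∑ k, ∑ j, R i j k l * x i * star (y j) * u k * star (w l) := Finset.sum_comm
    _ = _ := by
        refine Finset.sum_congr rfl fun l _ => Finset.sum_congr rfl fun k _ =>
          Finset.sum_congr rfl fun j _ => ?_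
        rw [h i j k l]; ring

omit [DecidableEq ι] in
theorem T_eq (R : ι → ι → ι → ι → ℂ) (x y u w : V ι) : T R x y u w =
    ∑ k, ∑ l, (x ⬝ᵥ ((Matrix.of fun i j => R i j k l) *ᵥ star y)) * u k * star (w l) := by
  unfold T
  calc ∑ i, ∑ j, ∑ k, ∑ l, R i j k l * x i * star (y j) * u k * star (w l)
      = ∑ i, ∑ k, ∑ j, ∑ l, R i j k l * x i * star (y j) * u k * star (w l) :=
        Finset.sum_congr rfl fun _ _ => Finset.sum_comm
    _ = ∑ k, ∑ i, ∑ j, ∑ l, R i j k l * x i * star (y j) * u k * star (w l) := Finset.sum_comm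
    _ = ∑ k, ∑ i, ∑ l, ∑ j, R i j k l * x i * star (y j) * u k * star (w l) :=
        Finset.sum_congr rfl fun _ _ => Finset.sum_congr rfl fun _ _ => Finset.sum_comm
    _ = ∑ k, ∑ l, ∑ i, ∑ j, R i j k l * x i * star (y j) * u k * star (w l) :=
        Finset.sum_congr rfl fun _ _ => Finset.sum_comm
    _ = _ := by
        refine Finset.sum_congr rfl fun k _ => Finset.sum_congr rfl fun l _ => ?_
        simp only [dotProduct, mulVec, Matrix.of_apply, Pi.star_apply, Finset.mul_sum,
          Finset.sum_mul]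
        refine Finset.sum_congr rfl fun i _ => Finset.sum_congr rfl fun j _ => ?_
        ring

omit [DecidableEq ι] in
theorem T_c {R : ι → ι → ι → ι → ℂ} {P : Mat ι}
    (h : ∀ k l, P * (Matrix.of fun i j => R i j k l) = (Matrix.of fun i j => R i j k l) * Pᴴ)
    (x y u w : V ι) : T R (x ᵥ* P) y u w = T R x (y ᵥ* P) u w := by
  rw [T_eq, T_eq]
  refine Finset.sum_congr rfl fun k _ => Finset.sum_congr rfl fun l _ => ?_
  rw [star_vecMul, mulVec_mulVec, ← h, ← mulVec_mulVec, dotProduct_mulVec x P]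

theorem alg {R : ι → ι → ι → ι → ℂ} {P : Mat ι} (h1 : ∀ i j k l, R i j k l = R k j i l)
    (h2 : ∀ i j k l, R i j k l = R i l k j) (hP : P * P = P)
    (h : ∀ k l, P * (Matrix.of fun i j => R i j k l) = (Matrix.of fun i j => R i j k l) * Pᴴ)
    (h0 : ∀ a b c d, T R (a ᵥ* P) (b ᵥ* P) (c ᵥ* P) (d ᵥ* P) = 0) (k l : ι) :
    P * (Matrix.of fun i j => R i j k l) = 0 := by
  have e : ∀ x y u w, T R (x ᵥ* P) y u w = T R (x ᵥ* P) (y ᵥ* P) u w := fun x y u w => by
    rw [← T_c h, vecMul_vecMul, hP]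
  have z : ∀ x y u w, T R (x ᵥ* P) y u w = 0 := fun x y u w => by
    rw [e, T_s1 h1, ← T_c h, e, T_s2 h2, e]
    exact h0 _ _ _ _
  ext i j
  have := z (Pi.single i 1) (Pi.single j 1) (Pi.single k 1) (Pi.single l 1)
  rw [T_eq, Finset.sum_eq_single k (fun b _ hb => by simp [Pi.single_eq_of_ne hb]) (by simp),
    Finset.sum_eq_single l (fun b _ hb => by simp [Pi.single_eq_of_ne hb]) (by simp),
    ← dotProduct_mulVec, mulVec_mulVec] at this
  simpa [Pi.star_single] using this

theorem sm_det {n : WithTop ℕ∞} {G : V ι → Mat ι} {z : V ι}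
    (h : ∀ i j, ContDiffAt ℝ n (fun w => G w i j) z) : ContDiffAt ℝ n (fun w => (G w).det) z := by
  simp only [Matrix.det_apply']
  exact ContDiffAt.sum fun σ _ => contDiffAt_const.mul (contDiffAt_prod fun i _ => h _ _)

theorem sm_inv {n : WithTop ℕ∞} {G : V ι → Mat ι} {z : V ι}
    (h : ∀ i j, ContDiffAt ℝ n (fun w => G w i j) z) (hd : (G z).det ≠ 0) (i j : ι) :
    ContDiffAt ℝ n (fun w => (G w)⁻¹ i j) z := by
  have h2 : ContDiffAt ℝ n (fun w => ((G w).updateRow j (Pi.single i 1)).det) z := by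
    refine sm_det fun p q => ?_
    by_cases e : p = j
    · subst e
      simp only [updateRow_self]
      exact contDiffAt_const
    · simp only [updateRow_ne e]
      exact h p q
  have := ((sm_det h).inv hd).mul h2
  refine this.congr_of_eventuallyEq (Eventually.of_forall fun w => ?_)
  simp only [Matrix.inv_def, Matrix.smul_apply, adjugate_apply, Ring.inverse_eq_inv', smul_eq_mul,
    Pi.inv_apply]

theorem sm_gam {G : V ι → Mat ι} {z : V ι} (h : ∀ i j, ContDiffAt ℝ ∞ (fun w => G w i j) z)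
    (hd : (G z).det ≠ 0) (k i j : ι) : ContDiffAt ℝ ∞ (fun w => gam G k w i j) z := by
  simp only [gam, Matrix.mul_apply, dM, Matrix.of_apply]
  exact ContDiffAt.sum fun a _ => (contDiffAt_dz_top (h i a) k).mul (sm_inv h hd a j)

theorem dMb_mul {A B : V ι → Mat ι} {z : V ι} (hA : ∀ i j, DifferentiableAt ℝ (fun w => A w i j) z)
    (hB : ∀ i j, DifferentiableAt ℝ (fun w => B w i j) z) (l : ι) :
    dMb (fun w => A w * B w) l z = dMb A l z * B z + A z * dMb B l z := by
  ext i j
  simp only [dMb, Matrix.of_apply, Matrix.mul_apply, Matrix.add_apply]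
  rw [← Finset.sum_add_distrib]
  refine (dzb_sum (F := fun a w => A w i a * B w a j) _
    (fun a _ => (hA i a).mul (hB a j)) l).trans ?_
  exact Finset.sum_congr rfl fun a _ => dzb_mul (hA i a) (hB a j) l

theorem comm (hc : CurvS) {G p : V ι → Mat ι} {U : Set (V ι)} (hU : IsOpen U) (hG : KOn G U)
    (hp : SmM p U) (hh : ∀ z ∈ U, (p z).IsHermitian)
    (hd : ∀ z ∈ U, ∀ k, dM p k z = gam G k z * p z) {z : V ι} (hz : z ∈ U) (k l : ι) :
    p z * (G z)⁻¹ * (Matrix.of fun i j => curv G z i j k l) =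
      (Matrix.of fun i j => curv G z i j k l) * (p z * (G z)⁻¹)ᴴ := by
  have hdet : ∀ w ∈ U, (G w).det ≠ 0 := fun w hw => (hG.2 w hw).det_pos.ne'
  have hn := hU.mem_nhds hz
  have hst : ∀ i j, (fun w => star (p w j i)) =ᶠ[𝓝 z] fun w => p w i j := fun i j =>
    mem_of_superset hn fun w hw => (hh w hw).apply i j
  have hb : ∀ l, dMb p l z = p z * (gam G l z)ᴴ := fun l => by
    have : dMb p l z = (dM p l z)ᴴ := by
      ext i j
      simp only [dMb, dM, Matrix.of_apply, conjTranspose_apply]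
      rw [← dzb_star]
      exact (dzb_congr (hst i j) l).symm
    rw [this, hd z hz l, conjTranspose_mul, (hh z hz).eq]
  have hX : ∀ k l, dMb (dM p k) l z = -(Matrix.of fun i j => curv G z i j k l) * (G z)⁻¹ * p z +
      gam G k z * (p z * (gam G l z)ᴴ) := fun k l => by
    have e : dMb (dM p k) l z = dMb (fun w => gam G k w * p w) l z := by
      ext i j
      refine dzb_congr (mem_of_superset hn fun w hw => ?_) l
      exact congrFun (congrFun (hd w hw k) i) j
    rw [e, dMb_mul (fun i j => (sm_gam (hG.1.1 z hz) (hdet z hz) k i j).differentiableAt (by simp))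
      (fun i j => (hp z hz i j).differentiableAt (by simp)), hb,
      hc.dbar_gam ι G U hU hG.1.1 hdet z hz]
  have hs : (dMb (dM p l) k z)ᴴ = dMb (dM p k) l z := by
    ext i j
    simp only [dMb, dM, Matrix.of_apply, conjTranspose_apply]
    rw [← dz_star, ← dz_dzb_comm ((hp z hz i j).of_le (by norm_cast))]
    refine dz_congr ?_ k
    exact (dzb_eventuallyEq (hst i j) l).mono fun w e => (dzb_star _ l w).symm.trans e
  have hR : (Matrix.of fun i j => curv G z i j l k)ᴴ = Matrix.of fun i j => curv G z i j k l := by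
    ext i j
    exact (hc.sym ι G U hU hG z hz j i l k).2.2
  have hGi : (G z)⁻¹ᴴ = (G z)⁻¹ := (hG.2 z hz).isHermitian.inv.eq
  rw [hX, hX] at hs
  simp only [conjTranspose_add, conjTranspose_mul, conjTranspose_neg, hR, hGi, (hh z hz).eq,
    conjTranspose_conjTranspose, Matrix.mul_assoc, Matrix.neg_mul, add_left_inj,
    neg_inj] at hs
  rw [conjTranspose_mul, hGi, (hh z hz).eq, Matrix.mul_assoc, hs]

end Flat

theorem flat (hc : CurvS) (hr : RoyS) (_hm : MatS) : FlatS := by
  intro ι _ _ G p U hU hG hp hs h z hz k l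
  have hpos := hG.2 z hz
  obtain ⟨hh, hi, h0, -⟩ := h z hz
  have hu : IsUnit (G z).det := hpos.det_pos.ne'.isUnit
  have hGi : (G z)⁻¹ᴴ = (G z)⁻¹ := hpos.isHermitian.inv.eq
  have hη : ((G z)⁻¹ * p z * (G z)⁻¹).PosSemidef := by
    have := hpos.inv.posSemidef.conjTranspose_mul_mul_same (p z * (G z)⁻¹)
    rw [conjTranspose_mul, hGi, hh.eq] at this
    have e : (G z)⁻¹ * p z * (G z)⁻¹ * (p z * (G z)⁻¹) =
        (G z)⁻¹ * (p z * (G z)⁻¹ * p z) * (G z)⁻¹ := by simp only [Matrix.mul_assoc]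
    rwa [e, hi] at this
  have sy := hc.sym ι G U hU hG z hz
  have ro := (hr ι (curv G z) _ (fun i j k l => (sy i j k l).1) (fun i j k l => (sy i j k l).2.1)
    (fun i j k l => (sy i j k l).2.2) (hs z hz) hη).2 h0
  have e : ∀ a : V ι, (a ᵥ* G z) ᵥ* ((G z)⁻¹ * p z * (G z)⁻¹) = a ᵥ* (p z * (G z)⁻¹) := fun a => by
    rw [vecMul_vecMul, ← Matrix.mul_assoc, ← Matrix.mul_assoc, Matrix.mul_nonsing_inv _ hu,
      Matrix.one_mul]
  refine Flat.alg (fun i j k l => (sy i j k l).1) (fun i j k l => (sy i j k l).2.1) ?_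
    (Flat.comm hc hU hG hp (fun w hw => (h w hw).1) (fun w hw => (h w hw).2.2.2) hz) ?_ k l
  · rw [← Matrix.mul_assoc, hi]
  · intro a b c d
    have := ro (a ᵥ* G z) (b ᵥ* G z) (c ᵥ* G z) (d ᵥ* G z)
    rw [e, e, e, e] at this
    exact this

end

end Pool.Agent.Lib.MP_813db1_ag.HS
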