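import Pool.Agent.Lib.MP_813db1_ag.HS.Frame_Calc

/-! A parallel unitary frame of a parallel flat subbundle. -/

namespace Pool.Agent.Lib.MP_813db1_ag.HS

open Complex Matrix Filter Topology Set Metric
open scoped ContDiff ComplexOrder MatrixOrder

namespace Frame

variable {ι σ : Type} [Fintype ι] [DecidableEq ι] [Fintype σ] [DecidableEq σ]

theorem psd {G q : Mat ι} (hG : G.PosDef) (hq : q.IsHermitian) (h : q * G⁻¹ * q = q) :
    q.PosSemidef := by
  have := hG.inv.posSemidef.conjTranspose_mul_mul_same q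
  rwa [hq.eq, h] at this

theorem ex0 {G p : Mat ι} (hG : G.PosDef) (hp : p.IsHermitian) (h : p * G⁻¹ * p = p)
    (ht : trace (p * G⁻¹) = Fintype.card σ) :
    ∃ E : Matrix σ ι ℂ, E * (p * G⁻¹) = E ∧ E * G * Eᴴ = 1 := by
  obtain ⟨T, d, hT, -, rfl, rfl⟩ := Mat.sim hG (psd hG hp h)
  have hT' : IsUnit Tᴴ.det := by rw [det_conjTranspose]; exact hT.star
  have e : Tᴴ * diagonal (fun i => (d i : ℂ)) * T * (Tᴴ * T)⁻¹ =
      Tᴴ * diagonal (fun i => (d i : ℂ)) * Tᴴ⁻¹ := by
    rw [Matrix.mul_inv_rev, mul_assoc _ T, mul_nonsing_inv_cancel_left _ _ hT]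
  rw [e] at h ht ⊢
  have hd : ∀ i, (d i : ℂ) = if (d i : ℂ) = 1 then 1 else 0 := fun i => by
    have a := congrArg (fun M => (Tᴴ⁻¹ * M * T⁻¹) i i) h
    simp only [mul_assoc, nonsing_inv_mul_cancel_left _ _ hT', mul_nonsing_inv _ hT, mul_one,
      diagonal_mul_diagonal, diagonal_apply_eq] at a
    split_ifs with c
    · exact c
    · exact by_contra fun n => c (mul_left_cancel₀ n (a.trans (mul_one _).symm))
  rw [trace_mul_cycle, nonsing_inv_mul _ hT', one_mul, trace_diagonal,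
    Finset.sum_congr rfl fun i _ => hd i, Finset.sum_boole, Nat.cast_inj,
    ← Fintype.card_subtype] at ht
  let f : σ → ι := fun a => (Fintype.equivOfCardEq ht.symm a).1
  have f1 : ∀ a, (d (f a) : ℂ) = 1 := fun a => (Fintype.equivOfCardEq ht.symm a).2
  have f2 : Function.Injective f :=
    Subtype.val_injective.comp (Fintype.equivOfCardEq ht.symm).injective
  have k : ∀ (A B : Mat ι), A.submatrix f id * B = (A * B).submatrix f id := fun A B => rfl
  refine ⟨Tᴴ⁻¹.submatrix f id, ?_, ?_⟩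
  · rw [k, mul_assoc, nonsing_inv_mul_cancel_left _ _ hT']
    ext a j
    simp only [submatrix_apply, diagonal_mul, f1, one_mul]
  · rw [k, nonsing_inv_mul_cancel_left _ _ hT', conjTranspose_submatrix, conjTranspose_nonsing_inv,
      conjTranspose_conjTranspose, ← submatrix_one f f2, ← mul_nonsing_inv _ hT]
    rfl

theorem alg {G p : Mat ι} (hG : G.PosDef) (hp : p.IsHermitian) (h : p * G⁻¹ * p = p)
    (ht : trace (p * G⁻¹) = Fintype.card σ) {E : Matrix σ ι ℂ} (h1 : E * (p * G⁻¹) = E)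
    (h2 : E * G * Eᴴ = 1) : p = G * (Eᴴ * E) * G := by
  have u := (isUnit_iff_isUnit_det _).1 hG.isUnit
  have a1 : E * p = E * G := by
    rw [← nonsing_inv_mul_cancel_right G p u, ← Matrix.mul_assoc, h1]
  have a2 : p * Eᴴ = G * Eᴴ := by
    have := congrArg conjTranspose a1
    rwa [conjTranspose_mul, conjTranspose_mul, hp.eq, hG.1.eq] at this
  have a3 : p * (Eᴴ * E) = G * (Eᴴ * E) := by rw [← Matrix.mul_assoc, a2, Matrix.mul_assoc]
  have a4 : Eᴴ * E * p = Eᴴ * E * G := by rw [Matrix.mul_assoc, a1, Matrix.mul_assoc]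
  have a5 : Eᴴ * E * G * (Eᴴ * E) = Eᴴ * E := by
    rw [← Matrix.mul_assoc, Matrix.mul_assoc Eᴴ, Matrix.mul_assoc Eᴴ, h2, Matrix.mul_one]
  have a6 : trace (G * (Eᴴ * E)) = Fintype.card σ := by
    rw [← Matrix.mul_assoc, trace_mul_cycle, h2, trace_one]
  have a7 : (Eᴴ * E).IsHermitian := isHermitian_conjTranspose_mul_self E
  generalize Eᴴ * E = N at a3 a4 a5 a6 a7
  have hq : (p - G * N * G).IsHermitian := by
    refine hp.sub ?_
    have := isHermitian_conjTranspose_mul_mul G a7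
    rwa [hG.1.eq] at this
  have e : (p - G * N * G) * G⁻¹ = p * G⁻¹ - G * N := by
    rw [sub_mul, mul_nonsing_inv_cancel_right _ _ u]
  have hq' : (p - G * N * G).PosSemidef := by
    refine psd hG hq ?_
    have b : G⁻¹ * (G * N * G) = N * G := by
      rw [mul_assoc G, nonsing_inv_mul_cancel_left _ _ u]
    rw [e]
    linear_combination (norm := noncomm_ring) h - p * b - a3 * G - G * a4 + G * a5 * G
  have := Mat.le_trm hG hq'
  rw [trm, e, trace_sub, ht, a6, sub_self, zero_re, ofReal_zero, zero_smul] at this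
  exact sub_eq_zero.1 (le_antisymm this hq'.nonneg)

omit [DecidableEq ι] [DecidableEq σ] in
theorem ipsum (G : Mat ι) (E : Matrix σ ι ℂ) (v w : V ι) :
    ipV (G * (Eᴴ * E) * G) v w = ∑ a, ipV G v (E a) * ipV G (E a) w := by
  simp only [Mat.ip_eq]
  rw [← mulVec_mulVec, ← mulVec_mulVec, ← mulVec_mulVec, dotProduct_mulVec, dotProduct_mulVec]
  refine Finset.sum_congr rfl fun a _ => ?_
  rw [dotProduct_mulVec v]
  rfl

/-- the projector with constant image. -/
noncomputable def pT (P P0 : Mat ι) : Mat ι := (P + (P0 - 1))⁻¹ * P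

theorem pT_alg {P P0 : Mat ι} (h : P * P = P) (h0 : P0 * P0 = P0) (u : IsUnit (P + (P0 - 1)).det) :
    (P + (P0 - 1)) * pT P P0 = P ∧ pT P P0 * P = pT P P0 ∧ P * pT P P0 = P ∧
      pT P P0 * P0 = P0 ∧ P0 * pT P P0 = pT P P0 := by
  have a : (P + (P0 - 1)) * P0 = P * P0 := by linear_combination (norm := noncomm_ring) h0
  have b : P * (P + (P0 - 1)) = P * P0 := by linear_combination (norm := noncomm_ring) h
  have c : pT P P0 = P0 * (P + (P0 - 1))⁻¹ := by
    rw [pT, ← nonsing_inv_mul_cancel_left _ (P0 * _) u, ← mul_assoc _ P0, a, ← b,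
      mul_nonsing_inv_cancel_right _ _ u]
  refine ⟨mul_nonsing_inv_cancel_left _ _ u, by rw [pT, mul_assoc, h], ?_, ?_, ?_⟩
  · rw [c, ← mul_assoc, ← b, mul_nonsing_inv_cancel_right _ _ u]
  · rw [pT, mul_assoc, ← a, nonsing_inv_mul_cancel_left _ _ u]
  · rw [c, ← mul_assoc, h0]

end Frame

open HS.Frame in
theorem frame (hf : FrobS) (hc : CurvS) : FrameS := by
  intro ι σ _ _ _ _ G p U z0 hU hz0 hG hp h
  obtain ⟨⟨sG, hH, -⟩, hG⟩ := hG
  have uG : ∀ z ∈ U, IsUnit (G z).det := fun z hz => (isUnit_iff_isUnit_det _).1 (hG z hz).isUnit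
  have ev : ∀ {W : Set (V ι)} {F H : V ι → Mat ι}, IsOpen W → (∀ z ∈ W, F z = H z) → ∀ z ∈ W,
      ∀ c k, Dg c F k z = Dg c H k z :=
    fun hW e z hz c k => Dg_congr (eventually_of_mem (hW.mem_nhds hz) e)
  obtain ⟨P, hP⟩ : ∃ P : V ι → Mat ι, P = fun z => p z * (G z)⁻¹ := ⟨_, rfl⟩
  have PG : ∀ z ∈ U, P z * G z = p z := fun z hz => by
    rw [hP]; exact nonsing_inv_mul_cancel_right _ _ (uG z hz)
  have PP : ∀ z ∈ U, P z * P z = P z := fun z hz => by
    simp only [hP]; rw [← mul_assoc, (h z hz).2.1]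
  have sP : ∀ z ∈ U, Sm P z := fun z hz => hP ▸ Sm.mul (hp z hz) (Sm.inv (sG z hz) (uG z hz))
  have dG : ∀ z ∈ U, ∀ k, Dg (-I) G k z = gam G k z * G z := fun z hz k => by
    rw [gam, nonsing_inv_mul_cancel_right _ _ (uG z hz), dM_eq]
  have ct : ∀ {F : V ι → Mat ι}, (∀ z ∈ U, (F z).IsHermitian) → ∀ z ∈ U, ∀ k,
      Dg I F k z = (Dg (-I) F k z)ᴴ := fun hF z hz k => by
    rw [← ev hU (fun w hw => (hF w hw).eq) z hz, Dg_ct, star_def, conj_I]
  have dbG : ∀ z ∈ U, ∀ k, Dg I G k z = G z * (gam G k z)ᴴ := fun z hz k => by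
    rw [ct hH z hz, dG z hz, conjTranspose_mul, (hH z hz).eq]
  have dP : ∀ z ∈ U, ∀ k, Dg (-I) P k z = gam G k z * P z - P z * gam G k z ∧ Dg I P k z = 0 := by
    intro z hz k
    have a := fun c => ev hU PG z hz c k
    have b := (h z hz).2.2.2.1 k
    rw [dM_eq] at b
    simp only [Dg_mul (sP z hz) (sG z hz)] at a
    have a1 := a (-I)
    have a2 := a I
    rw [b, dG z hz, ← PG z hz] at a1
    rw [ct (fun w hw => (h w hw).1) z hz, b, dbG z hz, conjTranspose_mul, (h z hz).1.eq,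
      ← PG z hz] at a2
    have c := (hG z hz).isUnit
    constructor <;> refine c.mul_right_cancel ?_
    · linear_combination (norm := noncomm_ring) a1
    · linear_combination (norm := noncomm_ring) a2
  have sS : ∀ z ∈ U, Sm (fun w => P w + (P z0 - 1)) z := fun z hz => (sP z hz).add (Sm.const _)
  have hW : ∀ᶠ z in 𝓝 z0, z ∈ U ∧ IsUnit (P z + (P z0 - 1)).det := by
    refine (hU.eventually_mem hz0).and ?_
    simp only [isUnit_iff_ne_zero]
    refine (sS z0 hz0).det.continuousAt.eventually_ne (IsUnit.ne_zero ?_)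
    refine isUnit_det_of_left_inverse (B := P z0 + (P z0 - 1)) ?_
    linear_combination (norm := noncomm_ring) 4 • PP z0 hz0
  obtain ⟨W, hWU, hW, hz0'⟩ := _root_.eventually_nhds_iff.1 hW
  obtain ⟨T, hT⟩ : ∃ T : V ι → Mat ι, T = fun z => pT (P z) (P z0) := ⟨_, rfl⟩
  have aT : ∀ z ∈ W, (P z + (P z0 - 1)) * T z = P z ∧ T z * P z = T z ∧ P z * T z = P z ∧
      T z * P z0 = P z0 ∧ P z0 * T z = T z := fun z hz => by
    rw [hT]; exact pT_alg (PP z (hWU z hz).1) (PP z0 hz0) (hWU z hz).2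
  have sT : ∀ z ∈ W, Sm T z := fun z hz => by
    rw [hT]; exact ((sS z (hWU z hz).1).inv (hWU z hz).2).mul (sP z (hWU z hz).1)
  have dT : ∀ z ∈ W, ∀ k, Dg (-I) T k z = T z * gam G k z * T z - T z * gam G k z ∧
      Dg I T k z = 0 := by
    intro z hz k
    obtain ⟨hz', u⟩ := hWU z hz
    obtain ⟨-, b2, b3, -, b5⟩ := aT z hz
    have a1 := ev hW (fun w hw => (aT w hw).1) z hz I k
    have a2 := ev hW (fun w hw => (aT w hw).2.1) z hz (-I) k
    have a3 := ev hW (fun w hw => (aT w hw).2.2.2.1) z hz (-I) k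
    rw [Dg_mul (sS z hz') (sT z hz), Dg_add (sP z hz') (Sm.const _), Dg_const, (dP z hz' k).2,
      add_zero, zero_mul, zero_add] at a1
    rw [Dg_mul (sT z hz) (sP z hz'), (dP z hz' k).1] at a2
    rw [Dg_mul (sT z hz) (Sm.const _), Dg_const, mul_zero, add_zero] at a3
    constructor
    · generalize Dg (-I) T k z = Y at a2 a3
      linear_combination (norm := noncomm_ring) a2 * T z - a2 - Y * b3 - Y * b5 + a3 * T z -
        T z * gam G k z * b3 + b2 * gam G k z * T z - b2 * gam G k z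
    · rw [← nonsing_inv_mul_cancel_left _ (Dg I T k z) u, a1, mul_zero]
  have sA : ∀ z ∈ W, ∀ k, Sm (gam G k) z := fun z hz k =>
    Sm.gam (sG z (hWU z hz).1) (uG z (hWU z hz).1) k
  have hA : ∀ k i j, AnalyticAt ℂ (fun w => (T w * gam G k w) i j) z0 := fun k =>
    an hW (fun z hz => ⟨(sT z hz).mul (sA z hz k), fun l => by
      have hz' := (hWU z hz).1
      have a := hc.dbar_gam ι G U hU sG (fun w hw => (uG w hw).ne_zero) z hz' k l
      have b := (h z hz').2.2.2.2 k l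
      rw [dMb_eq] at a
      rw [show p z * (G z)⁻¹ = P z by rw [hP]] at b
      rw [Dg_mul (sT z hz) (sA z hz k), (dT z hz l).2, a, ← (aT z hz).2.1, zero_mul, zero_add,
        neg_mul, mul_neg, mul_assoc, ← mul_assoc (P z), b, zero_mul, mul_zero, neg_zero]⟩) hz0'
  choose x x1 x2 x3 using ode hf (A := fun k w => T w * gam G k w) hA (by
    filter_upwards [hW.mem_nhds hz0'] with z hz k l
    have a := hc.flat ι G U hU sG (fun w hw => (uG w hw).ne_zero) z (hWU z hz).1 k l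
    rw [dM_eq, dM_eq] at a
    rw [Dg_mul (sT z hz) (sA z hz l), Dg_mul (sT z hz) (sA z hz k), (dT z hz k).1, (dT z hz l).1]
    linear_combination (norm := noncomm_ring) T z * a)
  obtain ⟨X, hX⟩ : ∃ X : V ι → Mat ι, X = fun z => of fun i => x (P z0 i) z := ⟨_, rfl⟩
  have X0 : X z0 = P z0 := by
    rw [hX]; ext i j; exact congrFun (x2 _) j
  have dX : ∀ᶠ z in 𝓝 z0, z ∈ W ∧ (∀ i j, AnalyticAt ℂ (fun w => X w i j) z) ∧
      ∀ k, Dg (-I) X k z = -(X z * (T z * gam G k z)) := by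
    filter_upwards [hW.mem_nhds hz0', eventually_all.2 fun i => x3 (P z0 i),
      eventually_all.2 fun i => (x1 (P z0 i)).eventually_analyticAt] with z a b c
    have d : ∀ i j, AnalyticAt ℂ (fun w => X w i j) z := fun i j => by
      rw [hX]; exact analyticAt_pi_iff.1 (c i) j
    refine ⟨a, d, fun k => ?_⟩
    rw [((Dg_an d).2 k).2, hX]
    ext i j
    have := congrFun (b i k) j
    simp only [of_apply, fderiv_apply (c i).differentiableAt]
    exact this
  have XT : ∀ᶠ z in 𝓝 z0, X z * T z = X z := by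
    have := const (F := fun z => X z * T z - X z) (z0 := z0) (dX.mono fun z ⟨a, b, c⟩ => by
      have s := (Dg_an b).1
      refine ⟨(s.mul (sT z a)).sub s, fun k => ?_⟩
      simp only [Dg_sub (s.mul (sT z a)) s, Dg_mul s (sT z a), c, dT z a k, ((Dg_an b).2 k).1]
      constructor <;> noncomm_ring)
    refine this.mono fun z hz => sub_eq_zero.1 (hz.trans ?_)
    obtain ⟨-, b2, -, b4, b5⟩ := aT z0 hz0'
    rw [X0, b5, ← b2, b4, sub_self]
  have dX' : ∀ᶠ z in 𝓝 z0, ∀ k, Dg (-I) X k z = -(X z * gam G k z) := by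
    filter_upwards [dX, XT] with z a b k
    rw [a.2.2, ← mul_assoc, b]
  have XG := const (F := fun z => X z * G z * (X z)ᴴ) (z0 := z0) ((dX.and dX').mono
    fun z ⟨⟨a, b, _⟩, c⟩ => by
      have s := (Dg_an b).1
      have a' := (hWU z a).1
      refine ⟨(s.mul (sG z a')).mul s.ct, fun k => ?_⟩
      simp only [Dg_mul (s.mul (sG z a')) s.ct, Dg_mul s (sG z a'), Dg_ct, star_neg, star_def,
        conj_I, neg_neg, c, dG z a', dbG z a', ((Dg_an b).2 k).1, conjTranspose_neg,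
        conjTranspose_mul, conjTranspose_zero]
      constructor <;> noncomm_ring)
  obtain ⟨E, E1, E2⟩ := ex0 (hG z0 hz0) (h z0 hz0).1 (h z0 hz0).2.1 (h z0 hz0).2.2.1
  rw [show p z0 * (G z0)⁻¹ = P z0 by rw [hP]] at E1
  refine ⟨fun a z => E a ᵥ* X z, fun a => analyticAt_pi_iff.2 fun j =>
    Finset.analyticAt_fun_sum _ fun i _ => analyticAt_const.fun_mul (dX.self_of_nhds.2.1 i j), ?_⟩
  filter_upwards [dX, XT, dX', XG] with z ⟨a, b, _⟩ c d e
  have a' := (hWU z a).1
  have g : E * X z * G z * (E * X z)ᴴ = 1 := by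
    calc _ = E * (X z * G z * (X z)ᴴ) * Eᴴ := by simp only [conjTranspose_mul, Matrix.mul_assoc]
      _ = E * P z0 * G z0 * (E * P z0)ᴴ := by
        simp only [e, X0, conjTranspose_mul, Matrix.mul_assoc]
      _ = 1 := by rw [E1, E2]
  refine ⟨fun i j => ?_, fun v w => ?_, fun i k => ?_⟩
  · rw [Mat.ip_eq, dotProduct_mulVec]
    exact congrFun (congrFun g i) j
  · rw [alg (hG z a') (h z a').1 (h z a').2.1 (h z a').2.2.1 ?_ g, ipsum]
    · rfl
    · rw [show p z * (G z)⁻¹ = P z by rw [hP], Matrix.mul_assoc, ← c, mul_assoc, (aT z a).2.1]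
  · rw [(vm (differentiableAt_const _) fun i j => (b i j).differentiableAt).2,
      ← ((Dg_an b).2 k).2, d, vecMul_vecMul, vecMul_neg]
    simp

end Pool.Agent.Lib.MP_813db1_ag.HS
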