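import Pool.Agent.Lib.MP_813db1_ag.HS.Stmt
import Pool.Agent.Lib.MP_caab05_ag.GB.Osg

/-! The holomorphic Frobenius theorem for total differential equations. -/

namespace Pool.Agent.Lib.MP_813db1_ag.HS

open Filter Topology Set Metric Asymptotics
open scoped ContDiff

namespace Frob

/-- continuous paths. -/
abbrev CI (X : Type) [TopologicalSpace X] : Type := C(Icc (0 : ℝ) 1, X)

variable {X Y : Type} [NormedAddCommGroup X] [NormedSpace ℂ X] [NormedAddCommGroup Y]
  [NormedSpace ℂ Y]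

/-- pointwise application. -/
noncomputable def appL : CI (X →L[ℂ] Y) →L[ℂ] CI X →L[ℂ] CI Y :=
  LinearMap.mkContinuous₂
    (LinearMap.mk₂ ℂ (fun (A : CI (X →L[ℂ] Y)) (h : CI X) =>
        (⟨fun s => A s (h s), A.continuous.clm_apply h.continuous⟩ : CI Y))
      (fun A B h => by ext s; simp) (fun c A h => by ext s; simp)
      (fun A h k => by ext s; simp) (fun c A h => by ext s; simp)) 1 fun A h => by
    rw [ContinuousMap.norm_le _ (by positivity)]
    intro s
    rw [one_mul]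
    exact ((A s).le_opNorm _).trans
      (mul_le_mul (A.norm_coe_le_norm s) (h.norm_coe_le_norm s) (norm_nonneg _)
        ((norm_nonneg _).trans (A.norm_coe_le_norm s)))

lemma appL_apply (A : CI (X →L[ℂ] Y)) (h : CI X) (s : Icc (0 : ℝ) 1) : appL A h s = A s (h s) :=
  rfl

/-- composition operator. -/
noncomputable def nem {X Y : Type} [TopologicalSpace X] [NormedAddCommGroup Y] (g : X → Y)
    (y : CI X) : CI Y := ContinuousMap.mkD (fun s => g (y s)) 0

omit [NormedSpace ℂ X] in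
lemma mem_ball_of {a : X} {r : ℝ} {y : CI X} (hy : y ∈ ball (ContinuousMap.const _ a) r)
    (s : Icc (0 : ℝ) 1) : y s ∈ ball a r := by
  rw [mem_ball_iff_norm] at hy ⊢
  exact ((y - ContinuousMap.const _ a).norm_coe_le_norm s).trans_lt hy

omit [NormedSpace ℂ X] [NormedSpace ℂ Y] in
lemma nem_apply {g : X → Y} {a : X} {r : ℝ} (hg : ContinuousOn g (ball a r)) {y : CI X}
    (hy : y ∈ ball (ContinuousMap.const _ a) r) (s : Icc (0 : ℝ) 1) : nem g y s = g (y s) :=
  ContinuousMap.mkD_apply_of_continuous (hg.comp_continuous y.continuous (mem_ball_of hy))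

lemma nem_diff {g : X → Y} {a : X} (hg : ContDiffAt ℂ 2 g a) : ∃ r > 0,
    (∀ x ∈ ball a r, DifferentiableAt ℂ g x) ∧ ContinuousOn (fderiv ℂ g) (ball a r) ∧
    ContinuousOn (nem (fderiv ℂ g)) (ball (ContinuousMap.const _ a) r) ∧
    ∀ y ∈ ball (ContinuousMap.const (Icc (0 : ℝ) 1) a) r,
      HasFDerivAt (nem g) (appL (nem (fderiv ℂ g) y)) y := by
  obtain ⟨K, t, ht, hK⟩ := (hg.fderiv_right (m := 1) (by norm_num)).exists_lipschitzOnWith
  have hd : ∀ᶠ x in 𝓝 a, DifferentiableAt ℂ g x :=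
    (hg.eventually (by simp)).mono fun x hx => hx.differentiableAt (by simp)
  obtain ⟨r, hr, h⟩ := Metric.eventually_nhds_iff_ball.1 (hd.and ht)
  have hL : LipschitzOnWith K (fderiv ℂ g) (ball a r) := hK.mono fun x hx => (h x hx).2
  have hc : ContinuousOn g (ball a r) := fun x hx => (h x hx).1.continuousAt.continuousWithinAt
  refine ⟨r, hr, fun x hx => (h x hx).1, hL.continuousOn, ?_, fun y hy => ?_⟩
  · refine (LipschitzOnWith.of_dist_le_mul (K := K) fun y hy z hz => ?_).continuousOn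
    rw [ContinuousMap.dist_le (by positivity)]
    intro s
    rw [nem_apply hL.continuousOn hy, nem_apply hL.continuousOn hz]
    exact (hL.dist_le_mul _ (mem_ball_of hy s) _ (mem_ball_of hz s)).trans
      (mul_le_mul_of_nonneg_left (ContinuousMap.dist_apply_le_dist s) K.2)
  · rw [hasFDerivAt_iff_isLittleO]
    have h1 : (fun z : CI X => ‖z - y‖ ^ 2) =o[𝓝 y] fun z => z - y :=
      isLittleO_pow_sub_sub y (by norm_num)
    refine IsBigO.trans_isLittleO (IsBigO.of_bound K ?_) h1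
    filter_upwards [isOpen_ball.mem_nhds hy] with z hz
    rw [Real.norm_of_nonneg (by positivity), ContinuousMap.norm_le _ (by positivity)]
    intro s
    have hzy : ‖z s - y s‖ ≤ ‖z - y‖ := (z - y).norm_coe_le_norm s
    simp only [ContinuousMap.sub_apply, appL_apply]
    rw [nem_apply hc hy, nem_apply hc hz, nem_apply hL.continuousOn hy]
    have h2 := ((convex_ball a r).inter (convex_closedBall (y s) ‖z - y‖)).norm_image_sub_le_of_norm_fderiv_le'
      (𝕜 := ℂ) (f := g) (φ := fderiv ℂ g (y s)) (C := K * ‖z - y‖) (x := y s) (y := z s)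
      (fun x hx => (h x hx.1).1) (fun x hx => by
        rw [← dist_eq_norm]
        exact (hL.dist_le_mul _ hx.1 _ (mem_ball_of hy s)).trans
          (mul_le_mul_of_nonneg_left hx.2 K.2))
      ⟨mem_ball_of hy s, mem_closedBall_self (norm_nonneg _)⟩
      ⟨mem_ball_of hz s, mem_closedBall_iff_norm.2 hzy⟩
    refine h2.trans ?_
    rw [sq, ← mul_assoc]
    exact mul_le_mul_of_nonneg_left hzy (by positivity)

omit [NormedSpace ℂ Y] in
lemma ci_cont (β : CI Y) : Continuous fun s : ℝ => β (projIcc 0 1 zero_le_one s) :=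
  β.continuous.comp continuous_projIcc

/-- the primitive vanishing at `0`. -/
noncomputable def Jl : CI Y →L[ℂ] CI Y := LinearMap.mkContinuous
  { toFun := fun β => ⟨fun τ => ∫ s in (0 : ℝ)..τ, β (projIcc 0 1 zero_le_one s),
      (intervalIntegral.continuous_primitive (fun _ _ => (ci_cont β).intervalIntegrable _ _)
        0).comp continuous_subtype_val⟩
    map_add' := fun β γ => by
      ext τ
      simpa using intervalIntegral.integral_add ((ci_cont β).intervalIntegrable _ _)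
        ((ci_cont γ).intervalIntegrable _ _)
    map_smul' := fun c β => by
      ext τ
      simp } 1 fun β => by
  rw [one_mul, ContinuousMap.norm_le _ (norm_nonneg _)]
  intro τ
  refine (intervalIntegral.norm_integral_le_of_norm_le_const (C := ‖β‖)
    fun s _ => β.norm_coe_le_norm _).trans ?_
  rw [sub_zero, abs_of_nonneg τ.2.1]
  exact mul_le_of_le_one_right (norm_nonneg _) τ.2.2

lemma Jl_apply (β : CI Y) (τ : Icc (0 : ℝ) 1) :
    Jl β τ = ∫ s in (0 : ℝ)..τ, β (projIcc 0 1 zero_le_one s) := rfl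

lemma prim [CompleteSpace Y] (β : CI Y) : ∃ α : ℝ → Y, α 0 = 0 ∧
    (∀ τ : Icc (0 : ℝ) 1, α τ = Jl β τ) ∧ ∀ τ : Icc (0 : ℝ) 1, HasDerivAt α (β τ) τ := by
  refine ⟨fun τ => ∫ s in (0 : ℝ)..τ, β (projIcc 0 1 zero_le_one s), by simp, fun τ => rfl,
    fun τ => ?_⟩
  refine ((ci_cont β).integral_hasStrictDerivAt 0 τ).hasDerivAt.congr_deriv ?_
  rw [projIcc_val]

/-- the ray `s ↦ s • z`. -/
noncomputable def ray : X →L[ℂ] CI X := LinearMap.mkContinuous
  { toFun := fun z => ⟨fun s => ((s : ℝ) : ℂ) • z, by fun_prop⟩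
    map_add' := fun z w => by ext s; simp
    map_smul' := fun c z => by ext s; simp [smul_comm c] } 1 fun z => by
  rw [one_mul, ContinuousMap.norm_le _ (norm_nonneg _)]
  intro s
  change ‖((s : ℝ) : ℂ) • z‖ ≤ ‖z‖
  rw [norm_smul, Complex.norm_real, Real.norm_of_nonneg s.2.1]
  exact mul_le_of_le_one_left (norm_nonneg _) s.2.2

lemma ray_apply (z : X) (s : Icc (0 : ℝ) 1) : ray z s = ((s : ℝ) : ℂ) • z := rfl

/-- the path `s ↦ (z, s • z, y s)`. -/
noncomputable def pth : (X × Y) × CI Y →L[ℂ] CI (X × X × Y) :=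
  ((ContinuousLinearMap.inl ℂ X (X × Y)).compLeftContinuous ℂ _).comp
      ((ContinuousLinearMap.const ℂ (Icc (0 : ℝ) 1)).comp
        ((ContinuousLinearMap.fst ℂ _ _).comp (ContinuousLinearMap.fst ℂ _ _))) +
    (((ContinuousLinearMap.inr ℂ X (X × Y)).comp (ContinuousLinearMap.inl ℂ X Y)).compLeftContinuous
        ℂ _).comp (ray.comp
        ((ContinuousLinearMap.fst ℂ _ _).comp (ContinuousLinearMap.fst ℂ _ _))) +
    (((ContinuousLinearMap.inr ℂ X (X × Y)).comp (ContinuousLinearMap.inr ℂ X Y)).compLeftContinuous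
        ℂ _).comp (ContinuousLinearMap.snd ℂ _ _)

lemma pth_apply (w : (X × Y) × CI Y) (s : Icc (0 : ℝ) 1) :
    pth w s = (w.1.1, ((s : ℝ) : ℂ) • w.1.1, w.2 s) := by
  simp [pth, ray_apply]

/-- the integrability condition propagates the equation along rays. -/
lemma ray_eq [CompleteSpace Y] {G : X × Y → X →L[ℂ] Y} {S : Set (X × Y)} {M : ℝ}
    (hG : ∀ p ∈ S, DifferentiableAt ℂ G p ∧ ‖fderiv ℂ G p‖ ≤ M ∧
      ∀ u v, fderiv ℂ G p (u, G p u) v = fderiv ℂ G p (v, G p v) u)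
    (z v : X) (x : Y) (y η β γ : CI Y)
    (hS : ∀ s : Icc (0 : ℝ) 1, (((s : ℝ) : ℂ) • z, y s) ∈ S)
    (hy : ∀ s, y s = x + Jl β s) (hβ : ∀ s, β s = G (((s : ℝ) : ℂ) • z, y s) z)
    (hη : ∀ s, η s = Jl γ s)
    (hγ : ∀ s, γ s = fderiv ℂ G (((s : ℝ) : ℂ) • z, y s) (((s : ℝ) : ℂ) • v, η s) z +
      G (((s : ℝ) : ℂ) • z, y s) v) (s : Icc (0 : ℝ) 1) :
    η s = ((s : ℝ) : ℂ) • G (((s : ℝ) : ℂ) • z, y s) v := by
  obtain ⟨a, a0, a1, a2⟩ := prim β
  obtain ⟨b, b0, b1, b2⟩ := prim γ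
  have ha : ∀ s : Icc (0 : ℝ) 1, x + a s = y s := fun s => by rw [a1, hy]
  have hb : ∀ s : Icc (0 : ℝ) 1, b s = η s := fun s => by rw [b1, hη]
  set W : ℝ → Y := fun t => b t - (t : ℂ) • G ((t : ℂ) • z, x + a t) v with hW
  have hWd : ∀ s : Icc (0 : ℝ) 1,
      HasDerivAt W (fderiv ℂ G (((s : ℝ) : ℂ) • z, y s) (0, W s) z) s := by
    intro s
    obtain ⟨g1, -, g3⟩ := hG _ (hS s)
    have hc : HasDerivAt (fun t : ℝ => (t : ℂ)) 1 (s : ℝ) := Complex.ofRealCLM.hasDerivAt
    have h1 : HasDerivAt (fun t : ℝ => ((t : ℂ) • z, x + a t)) (z, β s) (s : ℝ) :=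
      (by simpa using hc.smul_const z : HasDerivAt (fun t : ℝ => (t : ℂ) • z) z (s : ℝ)).prodMk
        ((a2 s).const_add x)
    have g1' : HasFDerivAt (fun p => G p v) ((ContinuousLinearMap.apply ℂ Y v).comp
        (fderiv ℂ G (((s : ℝ) : ℂ) • z, y s))) (((s : ℝ) : ℂ) • z, x + a s) := by
      rw [ha]
      exact (ContinuousLinearMap.apply ℂ Y v).hasFDerivAt.comp _ g1.hasFDerivAt
    have h2 := (g1'.restrictScalars ℝ).comp_hasDerivAt (s : ℝ) h1
    have h3 := (b2 s).sub (hc.smul h2)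
    refine h3.congr_deriv ?_
    have e1 : ((0 : X), W s) = (((s : ℝ) : ℂ) • v, η s) -
        ((s : ℝ) : ℂ) • (v, G (((s : ℝ) : ℂ) • z, y s) v) := by
      simp [hW, hb, ha]
    rw [e1, map_sub, map_smul, sub_apply, smul_apply,
      ← g3, hγ, hβ]
    simp [ha]
  have h0 := eq_zero_of_abs_deriv_le_mul_abs_self_of_eq_zero_right (f := W) (a := 0) (b := 1)
    (K := M * ‖z‖) (f' := fun t => fderiv ℂ G ((t : ℂ) • z, x + a t) (0, W t) z)
    (fun t ht => (hWd ⟨t, ht⟩).continuousAt.continuousWithinAt)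
    (fun t ht => by
      have := hWd ⟨t, Ico_subset_Icc_self ht⟩
      rw [← ha] at this
      exact this.hasDerivWithinAt)
    (by simp [hW, b0]) (fun t ht => by
      have h1 := (hG _ (hS ⟨t, Ico_subset_Icc_self ht⟩)).2.1
      rw [← ha] at h1
      have h2 : ‖((0 : X), W t)‖ = ‖W t‖ := by simp
      refine (ContinuousLinearMap.le_opNorm₂ _ _ _).trans ?_
      rw [h2, mul_right_comm]
      gcongr) s s.2
  rw [← hb, ← ha]
  exact sub_eq_zero.1 h0

/-- the Frobenius theorem in Banach spaces. -/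
theorem frobB [CompleteSpace X] [CompleteSpace Y] (G : X × Y → X →L[ℂ] Y) (x0 : Y)
    (hG : ContDiffAt ℂ 2 G (0, x0))
    (hint : ∀ᶠ p in 𝓝 ((0, x0) : X × Y),
      ∀ u v, fderiv ℂ G p (u, G p u) v = fderiv ℂ G p (v, G p v) u) :
    ∃ Ψ : X × Y → Y, ContDiffAt ℂ 1 Ψ (0, x0) ∧ ∀ᶠ p in 𝓝 ((0, x0) : X × Y),
      Ψ (0, p.2) = p.2 ∧ ∀ v, fderiv ℂ Ψ p (v, 0) = G (p.1, Ψ p) v := by
  let g : X × X × Y → Y := fun q => G q.2 q.1
  have cg : ContDiffAt ℂ 2 g (0, 0, x0) :=
    (hG.comp ((0 : X), (0 : X), x0) contDiffAt_snd).clm_apply contDiffAt_fst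
  have dg : ∀ q : X × X × Y, DifferentiableAt ℂ G q.2 → ∀ d : X × X × Y,
      fderiv ℂ g q d = fderiv ℂ G q.2 d.2 q.1 + G q.2 d.1 := fun q hq d => by
    have := ((hq.hasFDerivAt.comp q hasFDerivAt_snd).clm_apply hasFDerivAt_fst).fderiv
    rw [show fderiv ℂ g q = _ from this]
    simp [add_comm]
  obtain ⟨r, hr, g1, g2, g3, g4⟩ := nem_diff cg
  have gc : ContinuousOn g (ball (0, 0, x0) r) := fun x hx =>
    (g1 x hx).continuousAt.continuousWithinAt
  have hd : ∀ᶠ p in 𝓝 ((0, x0) : X × Y), DifferentiableAt ℂ G p :=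
    (hG.eventually (by simp)).mono fun x hx => hx.differentiableAt (by simp)
  have hM : ∀ᶠ p in 𝓝 ((0, x0) : X × Y), ‖fderiv ℂ G p‖ ≤ ‖fderiv ℂ G (0, x0)‖ + 1 :=
    ((hG.fderiv_right (m := 1) (by norm_num)).continuousAt.norm.eventually
      (gt_mem_nhds (lt_add_one _))).mono fun _ h => h.le
  obtain ⟨ρ, hρ, hS⟩ := Metric.eventually_nhds_iff_ball.1 (hd.and (hM.and hint))
  let c : Y →L[ℂ] CI Y := ContinuousLinearMap.const ℂ (Icc (0 : ℝ) 1)
  have hc : ∀ z τ, c z τ = z := fun _ _ => rfl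
  let w0 : (X × Y) × CI Y := ((0, x0), c x0)
  have p0 : pth w0 = ContinuousMap.const _ ((0 : X), (0 : X), x0) := by
    ext1 s
    simp [pth_apply, w0, hc]
  let l : (X × Y) × CI Y →L[ℂ] CI Y := ContinuousLinearMap.snd ℂ _ _ -
    c.comp ((ContinuousLinearMap.snd ℂ _ _).comp (ContinuousLinearMap.fst ℂ _ _))
  let Φ : (X × Y) × CI Y → CI Y := fun w => l w - Jl (nem g (pth w))
  have cN : ContDiffAt ℂ 1 (nem g) (pth w0) := by
    rw [p0]
    exact contDiffAt_one_iff.2 ⟨fun y => appL (nem (fderiv ℂ g) y), _, ball_mem_nhds _ hr,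
      appL.continuous.comp_continuousOn g3, g4⟩
  have cF : ContDiffAt ℂ 1 Φ w0 := l.contDiff.contDiffAt.sub
    ((Jl (Y := Y)).contDiff.contDiffAt.comp _
      (cN.comp _ (pth (X := X) (Y := Y)).contDiff.contDiffAt))
  have dF : ∀ w, pth w ∈ ball (ContinuousMap.const _ ((0 : X), (0 : X), x0)) r →
      HasFDerivAt Φ (l - Jl.comp ((appL (nem (fderiv ℂ g) (pth w))).comp pth)) w := fun w hw =>
    l.hasFDerivAt.sub ((Jl (Y := Y)).hasFDerivAt.comp _
      ((g4 _ hw).comp _ (pth (X := X) (Y := Y)).hasFDerivAt))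
  have m0 : pth w0 ∈ ball (ContinuousMap.const _ ((0 : X), (0 : X), x0)) r := by
    rw [p0]; exact mem_ball_self hr
  have e2 : fderiv ℂ Φ w0 ∘L .inr ℂ _ _ = ContinuousLinearMap.id ℂ _ := by
    rw [(dF _ m0).fderiv]
    ext1 a
    have : appL (nem (fderiv ℂ g) (pth w0)) (pth (0, a)) = 0 := by
      ext s
      rw [appL_apply, nem_apply g2 m0, p0, ContinuousMap.const_apply,
        dg _ (hS _ (mem_ball_self hρ)).1]
      simp [pth_apply]
    simp [l, this]
  have iv : (fderiv ℂ Φ w0 ∘L .inr ℂ _ _).IsInvertible := by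
    rw [e2]; exact ⟨ContinuousLinearEquiv.refl ℂ _, rfl⟩
  set ψ := cF.implicitFunction (by simp) iv with hψ
  have c1 : ContDiffAt ℂ 1 ψ (0, x0) := cF.contDiffAt_implicitFunction _ iv
  have c2 : ψ (0, x0) = c x0 := cF.implicitFunction_apply_self _ iv
  have F0 : Φ w0 = 0 := by
    have : nem g (pth w0) = 0 := by
      ext s
      rw [nem_apply gc m0, p0]
      simp [g]
    simp only [Φ, this]
    simp [l, w0]
  have c3 : ∀ᶠ u in 𝓝 ((0 : X), x0), Φ (u, ψ u) = 0 := by
    rw [← F0]; exact cF.eventually_apply_implicitFunction _ iv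
  have c4 : ∀ᶠ u in 𝓝 ((0 : X), x0),
      pth (u, ψ u) ∈ ball (ContinuousMap.const _ ((0 : X), (0 : X), x0)) (min r ρ) := by
    have h1 : ContinuousAt (fun u => pth (u, ψ u)) ((0 : X), x0) :=
      pth.continuous.continuousAt.comp (continuousAt_id.prodMk c1.continuousAt)
    refine h1.eventually_mem ?_
    rw [c2]
    change ball _ _ ∈ 𝓝 (pth w0)
    rw [p0]
    exact ball_mem_nhds _ (lt_min hr hρ)
  have c5 : ∀ᶠ u in 𝓝 ((0 : X), x0), DifferentiableAt ℂ ψ u :=
    (c1.eventually (by simp)).mono fun x hx => hx.differentiableAt (by simp)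
  have key : ∀ u : X × Y, Φ (u, ψ u) = 0 → ∀ s, ψ u s = u.2 + Jl (nem g (pth (u, ψ u))) s := by
    intro u hu s
    have := congrArg (fun w : CI Y => w s) hu
    simp [Φ, l, hc] at this
    rw [← sub_eq_zero, ← this]
    abel
  let one : Icc (0 : ℝ) 1 := ⟨1, zero_le_one, le_rfl⟩
  let ev : CI Y →L[ℂ] Y := ContinuousMap.evalCLM ℂ one
  have t0 : Tendsto (fun p : X × Y => ((0 : X), p.2)) (𝓝 (0, x0)) (𝓝 (0, x0)) :=
    (continuous_const.prodMk continuous_snd).tendsto' _ _ rfl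
  refine ⟨fun u => ev (ψ u), ev.contDiff.contDiffAt.comp _ c1, ?_⟩
  filter_upwards [c3.eventually_nhds, c4, c5, t0.eventually (c3.and c4)] with u h3 h4 h5 h6
  have h4r := ball_subset_ball (min_le_left r ρ) h4
  refine ⟨?_, fun v => ?_⟩
  · have : nem g (pth ((0, u.2), ψ (0, u.2))) = 0 := by
      ext s
      rw [nem_apply gc (ball_subset_ball (min_le_left r ρ) h6.2), pth_apply]
      simp [g]
    have h := key _ h6.1 one
    rw [this] at h
    simpa [ev] using h
  · have hS' : ∀ s : Icc (0 : ℝ) 1, (((s : ℝ) : ℂ) • u.1, ψ u s) ∈ ball ((0 : X), x0) ρ := by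
      intro s
      have := mem_ball_of (ball_subset_ball (min_le_right r ρ) h4) s
      rw [pth_apply, mem_ball, Prod.dist_eq] at this
      exact (le_max_right _ _).trans_lt this
    have d1 := (dF _ h4r).comp u ((hasFDerivAt_id u).prodMk h5.hasFDerivAt)
    have d2 : HasFDerivAt (Φ ∘ fun u => (id u, ψ u)) (0 : X × Y →L[ℂ] CI Y) u :=
      (hasFDerivAt_const (0 : CI Y) u).congr_of_eventuallyEq h3
    have d3 := congrArg (fun L : X × Y →L[ℂ] CI Y => L (v, 0)) (d1.unique d2)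
    have h := ray_eq hS u.1 v u.2 (ψ u) (fderiv ℂ ψ u (v, 0)) (nem g (pth (u, ψ u)))
      (appL (nem (fderiv ℂ g) (pth (u, ψ u))) (pth ((v, 0), fderiv ℂ ψ u (v, 0)))) hS'
      (key u h3.self_of_nhds) (fun s => by rw [nem_apply gc h4r, pth_apply])
      (fun s => by
        have := congrArg (fun w : CI Y => w s) d3
        simpa [l, sub_eq_zero] using this)
      (fun s => by
        rw [appL_apply, nem_apply g2 h4r, pth_apply, pth_apply, dg _ (hS _ (hS' s)).1]) one
    rw [show fderiv ℂ (fun u => ev (ψ u)) u = _ from (ev.hasFDerivAt.comp _ h5.hasFDerivAt).fderiv]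
    simpa [one, ev] using h

end Frob

open Frob in
theorem frob : FrobS := by
  intro σ κ _ _ _ F x0 hF hint
  let P : σ → V κ →L[ℂ] V σ →L[ℂ] V κ := fun i =>
    ContinuousLinearMap.smulRightL ℂ (V σ) (V κ) (ContinuousLinearMap.proj i)
  let G : V σ × V κ → V σ →L[ℂ] V κ := fun p => ∑ i, P i (F i p)
  have hGa : ∀ p u, G p u = ∑ i, u i • F i p := fun p u => by simp [G, P]
  have cG : ContDiffAt ℂ 2 G (0, x0) :=
    ContDiffAt.sum fun i _ => (P i).contDiff.contDiffAt.comp _ (hF i).contDiffAt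
  have hd : ∀ᶠ p in 𝓝 ((0, x0) : V σ × V κ), ∀ i, DifferentiableAt ℂ (F i) p :=
    eventually_all.2 fun i => (hF i).eventually_analyticAt.mono fun _ h => h.differentiableAt
  obtain ⟨Ψ, h1, h2⟩ := frobB G x0 cG (by
    filter_upwards [hd, hint] with p hp hq u v
    have d : ∀ w v, fderiv ℂ G p w v = ∑ i, v i • fderiv ℂ (F i) p w := fun w v => by
      have := (HasFDerivAt.fun_sum (u := Finset.univ) fun i _ =>
        (P i).hasFDerivAt.comp p (hp i).hasFDerivAt).fderiv
      rw [show fderiv ℂ G p = _ from this]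
      simp [P]
    have e : ∀ u : V σ, (u, G p u) = ∑ i, u i • ((Pi.single i 1 : V σ), F i p) := fun u => by
      rw [hGa]
      refine Prod.ext ?_ ?_
      · simp only [Prod.fst_sum, Prod.smul_fst]
        ext j
        simp [Pi.single_apply]
      · simp [Prod.snd_sum]
    rw [d, d, e u, e v]
    simp only [map_sum, map_smul, Finset.smul_sum]
    rw [Finset.sum_comm]
    refine Finset.sum_congr rfl fun i _ => Finset.sum_congr rfl fun j _ => ?_
    rw [hq i j, smul_comm])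
  refine ⟨Ψ, ?_, h2.mono fun p hp => ⟨hp.1, fun i => ?_⟩⟩
  · have hD : ∀ᶠ p in 𝓝 ((0, x0) : V σ × V κ), DifferentiableAt ℂ Ψ p :=
      (h1.eventually (by simp)).mono fun x hx => hx.differentiableAt (by simp)
    obtain ⟨r, hr, h⟩ := Metric.eventually_nhds_iff_ball.1 hD
    exact Pool.Agent.Lib.MP_caab05_ag.GB.osg _ _ Ψ _ isOpen_ball
      (fun p hp => (h p hp).differentiableWithinAt) _ (mem_ball_self hr)
  · rw [hp.2, hGa]
    simp [Pi.single_apply]

end Pool.Agent.Lib.MP_813db1_ag.HS
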