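import Pool.Agent.Lib.MP_813db1_ag.HS.StmtF

/-! A large set on which the transversal metric is controlled. -/

namespace Pool.Agent.Lib.MP_813db1_ag.HS

open MeasureTheory Complex Matrix Filter Topology Set Metric
open scoped ContDiff ComplexOrder ENNReal

noncomputable section

namespace Good

variable {ι X : Type} [Fintype ι] [DecidableEq ι] [TopologicalSpace X] {M : Atl ι X} {C : Cov M}
  {s : Finset ι} {g h : X → Mat ι}

omit [Fintype ι] in
theorem yp_glue (y : V {i // i ∉ s}) : yp s (glue s 0 y) = y := by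
  funext i
  simp [yp, glue, i.2]

theorem yp_mem {R : ℝ} {z : V ι} (hz : z ∈ ball 0 R) : yp s z ∈ ball 0 R := by
  have hR := pos_of_mem_ball hz
  rw [mem_ball_zero_iff, pi_norm_lt_iff hR] at hz ⊢
  exact fun i => hz i.1

theorem gl_mem {R : ℝ} {y : V {i // i ∉ s}} (hy : y ∈ ball 0 R) : glue s 0 y ∈ ball 0 R := by
  have hR := pos_of_mem_ball hy
  rw [mem_ball_zero_iff, pi_norm_lt_iff hR] at hy ⊢
  intro i
  by_cases hi : i ∈ s
  · simpa [glue, hi] using hR
  · simpa [glue, hi] using hy ⟨i, hi⟩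

omit [Fintype ι] in
theorem cont_gl : Continuous fun y : V {i // i ∉ s} => glue s 0 y := by
  refine continuous_pi fun i => ?_
  by_cases hi : i ∈ s
  · simp only [glue, dif_pos hi]
    exact continuous_const
  · simp only [glue, dif_neg hi]
    exact continuous_apply _

theorem cont_det {τ : Type} [Fintype τ] [DecidableEq τ] {D : Set (V τ)} {H : V τ → Mat τ}
    (hH : SmM H D) : ContinuousOn (fun y => (H y).det.re) D := by
  have : ContinuousOn H D := continuousOn_pi.2 fun i => continuousOn_pi.2 fun j y hy =>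
    (hH y hy i j).continuousAt.continuousWithinAt
  exact continuous_re.comp_continuousOn ((continuous_id.matrix_det).comp_continuousOn this)

omit [DecidableEq ι] in
theorem tgt (a : Fin C.n) {z : V ι} (hz : z ∈ ball (0 : V ι) (4 * C.r a)) : z ∈ (C.e a).target :=
  C.sub a (ball_subset_closedBall hz)

theorem form (hA : RepA' M) (hR : RowsS) {c d : ℝ} (hc : 0 < c) (Rh : Rows' C s c h)
    (Rg : Rows' C s d g) (a : Fin C.n) {z : V ι} (hz : z ∈ ball (0 : V ι) (4 * C.r a)) :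
    trm (h ((C.e a).symm z)) (g ((C.e a).symm z)) =
      s.card * (d / c) + trm (C.trv s h a (yp s z)) (C.trv s g a (yp s z)) := by
  obtain ⟨h1, -, h2, -, h3, -, h4⟩ := Rh.ent a z hz
  obtain ⟨g1, -, g2, -, g3, -, -⟩ := Rg.ent a z hz
  have hc' : (c : ℂ) ≠ 0 := ofReal_ne_zero.2 hc.ne'
  have hd : (M.repF h (C.e a) z).det ≠ 0 := by
    rw [h4]
    exact mul_ne_zero (pow_ne_zero _ hc') ((Rh.kon a).2 _ (yp_mem hz)).det_pos.ne'
  rw [← hA.trm_rep h g _ (C.mem a) _ ((C.e a).map_target (tgt a hz)),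
    (C.e a).right_inv (tgt a hz), trm, hR.tr ι s _ _ c d hc' hd h1 h2 g1 g2, h3, g3, trm, add_re,
    ← ofReal_natCast, ← ofReal_div, ← ofReal_mul, ofReal_re]

theorem det_re {c : ℝ} (Rh : Rows' C s c h) (a : Fin C.n) {z : V ι}
    (hz : z ∈ ball (0 : V ι) (4 * C.r a)) :
    (M.repF h (C.e a) z).det.re = c ^ s.card * (C.trv s h a (yp s z)).det.re := by
  rw [(Rh.ent a z hz).2.2.2.2.2.2, ← ofReal_pow, re_ofReal_mul]

theorem rat_eq (hA : RepA' M) {c : ℝ} (Rh : Rows' C s c h) (Rg : Rows' C s 1 g) (a : Fin C.n)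
    {z : V ι} (hz : z ∈ ball (0 : V ι) (4 * C.r a)) : rat h g ((C.e a).symm z) =
      c ^ s.card * (C.trv s h a (yp s z)).det.re / (C.trv s g a (yp s z)).det.re := by
  rw [← hA.rat_rep h g _ (C.mem a) _ ((C.e a).map_target (tgt a hz)),
    (C.e a).right_inv (tgt a hz), det_re Rh a hz, det_re Rg a hz, one_pow, one_mul]

theorem cont_trm (hA : RepA' M) (hh : M.IsK h) (hg : M.IsK g) :
    Continuous fun x => trm (h x) (g x) :=
  hA.cont _ fun e he z hz =>
    (hA.ck_trm h g hh (fun e he => (hg e he).1.1) e he z hz).of_le (by simp)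

end Good

open Good

theorem good (hd : DictS) (hM : MatS) (hA : RepA) (hV : VolS) (hR : RowsS) (hU : UBasS)
    (hD : DenS) (hS : SmoS) : GoodS := by
  intro ι X _ _ _ _ _ _ _ _ M g μ u C s a0 y1 δ hg hμ _ hF hP hδ hsub
  have A := hA ι X M
  have := ((hV ι X M g hg).2 μ hμ).fin
  have hr := C.pos a0
  have r4 : C.r a0 ≤ 4 * C.r a0 := by linarith
  have b4 : ball (0 : V {i // i ∉ s}) (C.r a0) ⊆ ball 0 (4 * C.r a0) := ball_subset_ball r4
  have Rg : Rows' C s 1 g := hR.rows ι X M C s 1 g hg one_pos fun a z hz => by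
    simpa using hP.1 a z (tgt a hz)
  obtain ⟨B, hB0, hB⟩ := hD ι X M g μ u s.card hg hμ hF
  obtain ⟨L0, hL0⟩ := (hS ι X M C 0).1 g hg
  obtain ⟨g0, g0p, hg0⟩ := (isCompact_closedBall (0 : V {i // i ∉ s}) (C.r a0)).exists_forall_le'
    ((cont_det (Rg.kon a0).1.1).mono (closedBall_subset_ball (by linarith))) (a := 0)
    fun y hy => (hM.det _ _ ((Rg.kon a0).2 y (closedBall_subset_ball (by linarith) hy))).1
  obtain ⟨v, vp, hv⟩ := hF.ord
  have f1 : volume (ball (0 : V {i // i ∈ s}) (C.r a0)) ≠ ⊤ := measure_ball_lt_top.ne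
  have f2 : volume (ball y1 δ) ≠ ⊤ := measure_ball_lt_top.ne
  obtain ⟨vs, hvs⟩ : ∃ vs, vs = (volume (ball (0 : V {i // i ∈ s}) (C.r a0))).toReal := ⟨_, rfl⟩
  obtain ⟨w, hw⟩ : ∃ w, w = (volume (ball y1 δ)).toReal := ⟨_, rfl⟩
  have vsp : 0 < vs := hvs ▸ ENNReal.toReal_pos (measure_ball_pos _ _ hr).ne' f1
  have wp : 0 < w := hw ▸ ENNReal.toReal_pos (measure_ball_pos _ _ hδ).ne' f2
  obtain ⟨q, hq⟩ : ∃ q, q = g0 * vs * w := ⟨_, rfl⟩
  have qp : 0 < q := by rw [hq]; positivity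
  obtain ⟨Λ, hΛ⟩ : ∃ Λ, Λ = 8 * B / q + 1 := ⟨_, rfl⟩
  have Λp : 0 < Λ := by rw [hΛ]; positivity
  have hBΛ : B / Λ ≤ q / 8 := by
    rw [div_le_iff₀ Λp, hΛ, mul_add, show q / 8 * (8 * B / q) = B by field_simp]
    linarith
  obtain ⟨κ, hκ⟩ : ∃ κ, κ = Real.exp (-Λ) * (v / 2) * g0 := ⟨_, rfl⟩
  have κp : 0 < κ := by rw [hκ]; positivity
  have κi : 0 < κ⁻¹ := inv_pos.2 κp
  have a0' := abs_nonneg L0
  obtain ⟨L, hL⟩ := hM.ell' {i // i ∉ s} (|L0| + Λ + κ⁻¹) (by positivity)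
  refine ⟨L, w / 2, half_pos wp, ?_⟩
  have t1 : Tendsto (fun ε => 2 * Real.exp Λ * (∫ x, ε * trm (M.hm g ε (u ε) x) (g x) *
      M.den μ g ε (u ε) x ∂μ - s.card)) (𝓝[>] 0) (𝓝 0) := by
    simpa using (hF.tr.sub_const (s.card : ℝ)).const_mul (2 * Real.exp Λ)
  filter_upwards [Ioc_mem_nhdsGT (zero_lt_one' ℝ), hv.eventually (lt_mem_nhds (half_lt_self vp)),
    t1.eventually (gt_mem_nhds (show 0 < q / 4 by positivity))] with ε hε e1 e2
  have S := hF.sol ε hε
  have Rh : Rows' C s ε (M.hm g ε (u ε)) := (hU ι X M g C s ε (u ε) hg hP hε.1 S).2.1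
  obtain ⟨-, B1, B2, -⟩ := hB ε hε
  have one := hF.one ε hε
  have volp := hF.vpos ε hε
  generalize hh : M.hm g ε (u ε) = h at *
  have hK : M.IsK h := hh ▸ S.2.1
  have dr : ∀ x, M.den μ g ε (u ε) x = rat h g x / M.vol μ g ε := fun x => by
    rw [← hh, S.2.2 x, Atl.den]
  have dc : Continuous (M.den μ g ε (u ε)) :=
    (Real.continuous_exp.comp (A.cont _ fun e he z hz => (S.1 e he z hz).of_le (by simp))).div_const _
  have dp : ∀ x, 0 < M.den μ g ε (u ε) x := fun x => div_pos (Real.exp_pos _) volp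
  generalize M.den μ g ε (u ε) = D at *
  have pd := fun x => ((A.isK_iff h).1 hK).2 x
  have pg := fun x => ((A.isK_iff g).1 hg).2 x
  have F1 : ∀ a, ∀ z ∈ ball (0 : V ι) (4 * C.r a),
      ε * trm (h ((C.e a).symm z)) (g ((C.e a).symm z)) - s.card =
        ε * trm (C.trv s h a (yp s z)) (C.trv s g a (yp s z)) := fun a z hz => by
    rw [form A hR hε.1 Rh Rg a hz]
    have := hε.1.ne'
    field_simp
    ring
  have T0 : ∀ a, ∀ y ∈ ball (0 : V {i // i ∉ s}) (4 * C.r a),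
      0 ≤ ε * trm (C.trv s h a y) (C.trv s g a y) := fun a y hy =>
    mul_nonneg hε.1.le (hM.trm_nonneg _ _ _ ((Rh.kon a).2 y hy) ((Rg.kon a).2 y hy).posSemidef)
  have n1 : ∀ x, 0 ≤ trm (g x) (h x) / Λ := fun x =>
    div_nonneg (hM.trm_nonneg _ _ _ (pg x) (pd x).posSemidef) Λp.le
  have n2 : ∀ x, 0 ≤ |Real.log (D x)| / Λ := fun x => by positivity
  have n3 : ∀ x, 0 ≤ 2 * Real.exp Λ * (ε * trm (h x) (g x) * D x - s.card * D x) := fun x => by
    obtain ⟨a, ha, ha'⟩ := C.cover x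
    have hz : C.e a x ∈ ball (0 : V ι) (4 * C.r a) :=
      mem_ball_zero_iff.2 (by linarith [C.pos a])
    have := F1 a _ hz
    rw [(C.e a).left_inv ha] at this
    rw [← sub_mul, this]
    exact mul_nonneg (by positivity) (mul_nonneg (T0 a _ (yp_mem hz)) (dp x).le)
  have c1 := cont_trm A hg hK
  have c2 : Continuous fun x => |Real.log (D x)| := (dc.log fun x => (dp x).ne').abs
  have c3 : Continuous fun x => ε * trm (h x) (g x) * D x :=
    (continuous_const.mul (cont_trm A hK hg)).mul dc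
  have ig : ∀ f : X → ℝ, Continuous f → Integrable f μ := fun f hf =>
    hf.integrable_of_hasCompactSupport (HasCompactSupport.of_compactSpace f)
  obtain ⟨Ξ, hΞ⟩ : ∃ Ξ : X → ℝ, Ξ = fun x => trm (g x) (h x) / Λ + |Real.log (D x)| / Λ +
    2 * Real.exp Λ * (ε * trm (h x) (g x) * D x - s.card * D x) := ⟨_, rfl⟩
  have c4 : Continuous fun x => ε * trm (h x) (g x) * D x - s.card * D x :=
    c3.sub (continuous_const.mul dc)
  have Ξc : Continuous Ξ := hΞ ▸ ((c1.div_const _).add (c2.div_const _)).add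
    (continuous_const.mul c4)
  have Ξ0 : ∀ x, 0 ≤ Ξ x := fun x => by
    rw [hΞ]
    exact add_nonneg (add_nonneg (n1 x) (n2 x)) (n3 x)
  have ΞI : ∫ x, Ξ x ∂μ ≤ q / 2 := by
    have j1 : Integrable (fun x => trm (g x) (h x) / Λ) μ := ig _ (c1.div_const _)
    have j2 : Integrable (fun x => |Real.log (D x)| / Λ) μ := ig _ (c2.div_const _)
    have j3 : Integrable (fun x => trm (g x) (h x) / Λ + |Real.log (D x)| / Λ) μ := j1.add j2
    have j4 : Integrable (fun x => 2 * Real.exp Λ * (ε * trm (h x) (g x) * D x - s.card * D x)) μ :=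
      (ig _ c4).const_mul _
    have j5 : Integrable (fun x => (s.card : ℝ) * D x) μ := (ig _ dc).const_mul _
    simp only [hΞ]
    rw [integral_add j3 j4, integral_add j1 j2, integral_div, integral_div, integral_const_mul,
      integral_sub (ig _ c3) j5, integral_const_mul, one, mul_one]
    have i1 := div_le_div_of_nonneg_right B1 Λp.le
    have i2 := div_le_div_of_nonneg_right B2 Λp.le
    linarith
  have Ξb : ∀ z ∈ ball (0 : V ι) (4 * C.r a0),
      Ξ ((C.e a0).symm z) = Ξ ((C.e a0).symm (glue s 0 (yp s z))) := fun z hz => by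
    have hz' : glue s 0 (yp s z) ∈ ball (0 : V ι) (4 * C.r a0) := gl_mem (yp_mem hz)
    simp only [hΞ, dr, form A hR hε.1 Rh Rg a0 hz, form A hR hε.1 Rh Rg a0 hz',
      form A hR one_pos Rg Rh a0 hz, form A hR one_pos Rg Rh a0 hz', rat_eq A Rh Rg a0 hz,
      rat_eq A Rh Rg a0 hz', yp_glue]
  have Ξt : ContinuousOn (fun y => Ξ ((C.e a0).symm (glue s 0 y))) (ball y1 δ) :=
    Ξc.comp_continuousOn ((C.e a0).continuousOn_symm.comp cont_gl.continuousOn
      fun y hy => tgt a0 (gl_mem (b4 (hsub hy))))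
  obtain ⟨O, hO⟩ : ∃ O, O = ball y1 δ ∩ (fun y => Ξ ((C.e a0).symm (glue s 0 y))) ⁻¹' Iio 1 :=
    ⟨_, rfl⟩
  have Oo : IsOpen O := hO ▸ Ξt.isOpen_inter_preimage isOpen_ball isOpen_Iio
  have Os : O ⊆ ball y1 δ := hO ▸ inter_subset_left
  refine ⟨O, Oo, Os, ?_, fun y hy => ?_⟩
  · have Sm : MeasurableSet (ball y1 δ \ O) := measurableSet_ball.diff Oo.measurableSet
    have k1 := hd.box ι X M g μ C s a0 (C.r a0) (ball y1 δ \ O) Ξ
      (fun y => (C.trv s g a0 y).det.re * Ξ ((C.e a0).symm (glue s 0 y))) hg hμ hr r4 Sm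
      (sdiff_subset.trans hsub)
      (((cont_det (Rg.kon a0).1.1).mono ((sdiff_subset.trans hsub).trans b4)).mul
        (Ξt.mono sdiff_subset))
      fun z hz _ => by
        rw [det_re Rg a0 (ball_subset_ball r4 hz), one_pow, one_mul, Ξb z (ball_subset_ball r4 hz)]
    have k2 : ENNReal.ofReal g0 * volume (ball y1 δ \ O) ≤ ∫⁻ y in ball y1 δ \ O,
        ENNReal.ofReal ((C.trv s g a0 y).det.re * Ξ ((C.e a0).symm (glue s 0 y))) := by
      rw [← setLIntegral_const]
      refine setLIntegral_mono' Sm fun y hy => ENNReal.ofReal_le_ofReal ?_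
      have p1 := hg0 y (ball_subset_closedBall (hsub hy.1))
      have p2 : 1 ≤ Ξ ((C.e a0).symm (glue s 0 y)) := by
        by_contra hc
        exact hy.2 (hO ▸ ⟨hy.1, not_le.1 hc⟩)
      exact p1.trans (le_mul_of_one_le_right (g0p.le.trans p1) p2)
    have k3 : volume (ball (0 : V {i // i ∈ s}) (C.r a0)) *
        (ENNReal.ofReal g0 * volume (ball y1 δ \ O)) ≤ ENNReal.ofReal (q / 2) := by
      refine (mul_le_mul_right k2 _).trans (k1 ▸ (setLIntegral_le_lintegral _ _).trans ?_)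
      rw [← ofReal_integral_eq_lintegral_ofReal (ig _ Ξc) (Eventually.of_forall Ξ0)]
      exact ENNReal.ofReal_le_ofReal ΞI
    have k4 := ENNReal.toReal_mono ENNReal.ofReal_ne_top k3
    rw [ENNReal.toReal_mul, ENNReal.toReal_mul, ENNReal.toReal_ofReal g0p.le,
      ENNReal.toReal_ofReal (by positivity), ← hvs, hq] at k4
    have k5 : (volume (ball y1 δ \ O)).toReal ≤ w / 2 := by
      refine le_of_mul_le_mul_left (a := g0 * vs) ?_ (by positivity)
      linarith
    have k6 : w = (volume O).toReal + (volume (ball y1 δ \ O)).toReal := by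
      rw [hw, ← ENNReal.toReal_add (ne_top_of_le_ne_top f2 (measure_mono Os))
        (ne_top_of_le_ne_top f2 (measure_mono sdiff_subset)),
        ← measure_union disjoint_sdiff_right Sm, union_sdiff_cancel Os]
    linarith
  · have hy1 : y ∈ ball (0 : V {i // i ∉ s}) (C.r a0) := hsub (Os hy)
    have hy4 := b4 hy1
    have hz : glue s 0 y ∈ ball (0 : V ι) (4 * C.r a0) := gl_mem hy4
    have hz2 : glue s 0 y ∈ ball (0 : V ι) (2 * C.r a0) :=
      gl_mem (ball_subset_ball (by linarith) hy1)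
    have lt1 : Ξ ((C.e a0).symm (glue s 0 y)) < 1 := by
      rw [hO] at hy
      exact hy.2
    obtain ⟨x, hx⟩ : ∃ x, x = (C.e a0).symm (glue s 0 y) := ⟨_, rfl⟩
    have G1 := F1 a0 _ hz
    have G2 := form A hR one_pos Rg Rh a0 hz
    have G3 := rat_eq A Rh Rg a0 hz
    rw [yp_glue, ← hx] at G1 G2 G3
    rw [← hx, hΞ] at lt1
    simp only at lt1
    have m1 : trm (g x) (h x) < Λ := (div_lt_one Λp).1 (by linarith [n2 x, n3 x])
    have m2 : |Real.log (D x)| < Λ := (div_lt_one Λp).1 (by linarith [n1 x, n3 x])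
    have m3 : 2 * Real.exp Λ * (ε * trm (h x) (g x) * D x - s.card * D x) < 1 := by
      linarith [n1 x, n2 x]
    have m4 : Real.exp (-Λ) ≤ D x := by
      rw [← Real.exp_log (dp x)]
      exact Real.exp_le_exp.2 (abs_lt.1 m2).1.le
    have m5 : 1 ≤ Real.exp Λ * D x := by
      have := mul_le_mul_of_nonneg_left m4 (Real.exp_pos Λ).le
      rwa [← Real.exp_add, add_neg_cancel, Real.exp_zero] at this
    have gp := hg0 y (ball_subset_closedBall hy1)
    have m6 : κ ≤ (C.trv s h a0 y).det.re := by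
      have εp : 0 < ε ^ s.card := pow_pos hε.1 _
      have e : (C.trv s h a0 y).det.re =
          D x * (M.vol μ g ε / ε ^ s.card) * (C.trv s g a0 y).det.re := by
        have := (g0p.trans_le gp).ne'
        rw [dr, G3]
        field_simp
      rw [e, hκ]
      have := (dp x).le
      gcongr
    obtain ⟨-, -, -, -, s1, s2, -⟩ := Rg.ent a0 _ hz
    rw [yp_glue] at s1 s2
    have bl : L0 ≤ |L0| + Λ + κ⁻¹ := by linarith [le_abs_self L0]
    have := hL _ _ ((Rg.kon a0).2 y hy4) ((Rh.kon a0).2 y hy4)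
      (fun i j => s1 ▸ (((hL0 a0).1 i.1 j.1).1 _ hz2).trans bl)
      (fun i j => s2 ▸ (((hL0 a0).2.1 i.1 j.1).1 _ hz2).trans bl)
      (by
        have : 0 ≤ (s.card : ℝ) * (ε / 1) := mul_nonneg (by positivity) (by simpa using hε.1.le)
        linarith)
      (((inv_le_comm₀ (by positivity) κp).2 (by linarith)).trans m6)
    refine ⟨this.1, this.2, ?_⟩
    rw [← sub_mul, G1] at m3
    nlinarith [T0 a0 y hy4, mul_le_mul_of_nonneg_left m5 (T0 a0 y hy4)]

end

end Pool.Agent.Lib.MP_813db1_ag.HS
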