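import Pool.Agent.Lib.MP_813db1_ag.HS.Stmt2

/-! A cover by product charts. -/

namespace Pool.Agent.Lib.MP_813db1_ag.HS

open MeasureTheory Complex Matrix Filter Topology Set Metric
open scoped ContDiff ComplexOrder

namespace PCov

variable {ι : Type} [Fintype ι] [DecidableEq ι]

omit [DecidableEq ι] in
theorem pull_apply (J H : Mat ι) (i j : ι) :
    pull J H i j = ∑ q, ∑ r, J q i * H q r * star (J r j) := by
  simp only [pull, mul_apply, transpose_apply, map_apply, Finset.sum_mul]
  exact Finset.sum_comm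

/-- a matrix that preserves the projector and the shape of the metric is block diagonal. -/
theorem blk (s : Finset ι) (J G : Mat ι) (hG : G.PosDef) (h1 : Rows s 1 G)
    (h2 : Rows s 1 (pull J G)) (h3 : pull J (ind s) = ind s) : Blk s J := by
  have e3 : ∀ i, ∑ q, (if q ∈ s then J q i * star (J q i) else 0) = if i ∈ s then 1 else 0 := by
    intro i
    have := congrFun (congrFun h3 i) i
    rw [pull_apply, ind, diagonal_apply_eq] at this
    rw [← this]
    refine Finset.sum_congr rfl fun q _ => ?_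
    rw [Finset.sum_eq_single q (fun r _ hr => by rw [diagonal_apply_ne _ hr.symm]; simp)
      (by simp), diagonal_apply_eq]
    split_ifs <;> simp
  intro p i hpi
  by_cases hi : i ∈ s
  · have hp : p ∉ s := fun h => hpi.1 h hi
    let v : V ι := fun q => if q ∈ s then 0 else star (J q i)
    have hv : star v ⬝ᵥ G *ᵥ v = 0 := by
      have e2 := h2 i hi i
      have e4 := e3 i
      rw [if_pos rfl, pull_apply] at e2
      rw [if_pos hi] at e4
      rw [← sub_self (1 : ℂ)]
      nth_rw 1 [← e2]
      rw [← e4, ← Finset.sum_sub_distrib, dotProduct]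
      refine Finset.sum_congr rfl fun q _ => ?_
      by_cases hq : q ∈ s
      · rw [Finset.sum_eq_single q (fun r _ hr => by rw [h1 q hq, if_neg hr.symm]; simp)
          (by simp), h1 q hq]
        simp [v, hq]
      · rw [if_neg hq, sub_zero, mulVec, dotProduct, Finset.mul_sum]
        refine Finset.sum_congr rfl fun r _ => ?_
        by_cases hr : r ∈ s
        · have : G q r = 0 := by
            rw [← hG.isHermitian.apply, h1 r hr, if_neg (fun h : r = q => hq (h ▸ hr)),
              star_zero]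
          simp [this]
        · simp [v, hq, hr, mul_assoc]
    have h0 : v = 0 := by
      by_contra h
      exact (hG.dotProduct_mulVec_pos h).ne' hv
    simpa [v, hp] using congrFun h0 p
  · have hp : p ∈ s := hpi.2 hi
    have e4 := e3 i
    rw [if_neg hi, Finset.sum_eq_zero_iff_of_nonneg fun q _ => by
      split_ifs
      exacts [mul_star_self_nonneg _, le_rfl]] at e4
    simpa [hp] using e4 p (Finset.mem_univ _)

theorem conj_pull (hm : MatS) (J G P : Mat ι) (hJ : J.det ≠ 0) :
    J.map star * ((pull J G)⁻¹ * pull J P * (pull J G)⁻¹) * Jᵀ = G⁻¹ * P * G⁻¹ := by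
  have h1 : IsUnit (Jᵀ).det := by rwa [det_transpose, isUnit_iff_ne_zero]
  have h2 : IsUnit (J.map star).det := by
    rw [isUnit_iff_ne_zero, show J.map star = Jᴴᵀ from rfl, det_transpose, det_conjTranspose]
    exact star_ne_zero.2 hJ
  rw [(hm.pull_pd ι J G hJ).2.2.2.2.1, pull]
  simp only [Matrix.mul_assoc]
  rw [nonsing_inv_mul _ h1, nonsing_inv_mul_cancel_left _ _ h1, mul_nonsing_inv_cancel_left _ _ h2,
    mul_nonsing_inv_cancel_left _ _ h2, Matrix.mul_one]

end PCov

open PCov in
theorem pcov (ha : RepA) (hc : RepC) (hf : FlatS) (hr : FrameS) (hp : ProdLocS) (hv : CovS)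
    (hm : MatS) : PCovS := by
  intro ι X _ _ _ _ M g p m hg hs ⟨hsm, hpt, hpar⟩ hle
  obtain ⟨s, -, rfl⟩ := Finset.exists_subset_card_eq (s := (Finset.univ : Finset ι)) hle
  have A := ha _ _ M
  obtain ⟨C, hC⟩ := hv ι X M
    (fun e => ∀ z ∈ e.target, M.repF p e z = ind s ∧ Rows s 1 (M.repF g e z)) fun x => by
    have he := M.ch_mem x
    have hx := M.mem x
    generalize M.ch x = e at he hx
    have h1 : ∀ z ∈ e.target, (M.repF p e z).IsHermitian ∧
        M.repF p e z * (M.repF g e z)⁻¹ * M.repF p e z = M.repF p e z ∧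
        trace (M.repF p e z * (M.repF g e z)⁻¹) = Fintype.card {i // i ∈ s} ∧
        rq (M.repF g e) z ((M.repF g e z)⁻¹ * M.repF p e z * (M.repF g e z)⁻¹) = 0 := by
      intro z hz
      have hy := e.map_target hz
      have hJ := A.tj_det e he _ (M.ch_mem _) _ hy (M.mem _)
      obtain ⟨p1, -, p3, p4⟩ := hpt (e.symm z)
      refine ⟨(hm.pull_pd ι _ _ hJ).2.2.1 p1, ?_, ?_, ?_⟩
      · rw [← A.repF_mul p g p e he z hz, funext fun y => (hpt y).2.1]
      · have := A.trace_rep g p e he _ hy
        rw [e.right_inv hz] at this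
        rw [this, p3, Fintype.card_coe]
      · have := (hc _ _ M).rq_rep g hg e he _ hy
        rw [e.right_inv hz] at this
        rw [this, ← p4]
        exact congrArg _ (conj_pull hm _ _ _ hJ)
    have h2 := hf ι _ _ _ e.open_target (hg e he) (hsm e he) (hs e he)
      fun z hz => ⟨(h1 z hz).1, (h1 z hz).2.1, (h1 z hz).2.2.2, hpar e he z hz⟩
    obtain ⟨f, f1, f2⟩ := hr ι {i // i ∈ s} _ _ _ (e x) e.open_target (e.map_source hx) (hg e he)
      (hsm e he) fun z hz => ⟨(h1 z hz).1, (h1 z hz).2.1, (h1 z hz).2.2.1, hpar e he z hz, h2 z hz⟩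
    obtain ⟨Θ, t1, t2, t3, t4⟩ :=
      hp ι s _ _ _ (e x) f e.open_target (e.map_source hx) (hg e he) f1 f2
    obtain ⟨e', he', hx', h0, hO, hS, hw⟩ := A.newChart e he x hx Θ _ t1 t2 t3 t4
    refine ⟨e', he', fun w hw' => ?_, hx', h0⟩
    have h3 : ∀ B, M.repF B e' w = pull (jac Θ w) (M.repF B e (Θ w)) := fun B => by
      have := A.repF_tr B e' he' e he _ (e'.map_target hw') (hS (e'.map_target hw'))
      rwa [e'.right_inv hw', (hw w hw').1, (hw w hw').2] at this
    rw [h3, h3]
    exact hO hw'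
  refine ⟨s, C, rfl, fun a z hz => (hC a z hz).2, fun a b x hxa hxb => ?_⟩
  have ka := hC a _ ((C.e a).map_source hxa)
  have kb := hC b _ ((C.e b).map_source hxb)
  refine blk s _ _ ((hg _ (C.mem b)).2 _ ((C.e b).map_source hxb)) kb.2 ?_ ?_
  · rw [← A.repF_tr g _ (C.mem a) _ (C.mem b) x hxa hxb]
    exact ka.2
  · have := A.repF_tr p _ (C.mem a) _ (C.mem b) x hxa hxb
    rw [ka.1, kb.1] at this
    exact this.symm

end Pool.Agent.Lib.MP_813db1_ag.HS
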