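import Pool.Agent.Lib.MP_813db1_ag.HS.Stmt2
import Pool.Agent.Lib.MP_813db1_ag.HS.Calc2
import Pool.Agent.Lib.MP_813db1_ag.HS.Mat

/-! The limit form is a parallel flat projector. -/

namespace Pool.Agent.Lib.MP_813db1_ag.HS

open MeasureTheory Complex Matrix Filter Topology Set Metric
open scoped ContDiff ComplexOrder

namespace Par

variable {ι : Type} [Fintype ι] [DecidableEq ι]

theorem spec (hm : MatS) {G P : Mat ι} (hG : G.PosDef) (hP : P.PosSemidef) {m : ℕ}
    (h : ∀ t : ℝ, 0 ≤ t → ((G + (t : ℂ) • P).det / G.det).re = (1 + t) ^ m) :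
    P * G⁻¹ * P = P ∧ trace (P * G⁻¹) = m := by
  have hr := (hm.real ι G P hG.1 hP.1).1
  have h0 : G.det ≠ 0 := hG.det_pos.ne'
  obtain ⟨T, d, hT, hd, rfl, rfl⟩ := Mat.sim hG hP
  have hT' : IsUnit Tᴴ.det := by rw [det_conjTranspose]; exact hT.star
  have k : ∀ t : ℝ, 0 ≤ t → ∏ i, (1 + d i * t) = (1 + t) ^ m := fun t ht => by
    rw [← h t ht]
    have e : Tᴴ * T + (t : ℂ) • (Tᴴ * diagonal (fun i => (d i : ℂ)) * T) =
        Tᴴ * diagonal (fun i => ((1 + d i * t : ℝ) : ℂ)) * T := by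
      have : diagonal (fun i => ((1 + d i * t : ℝ) : ℂ)) =
          1 + (t : ℂ) • diagonal (fun i => (d i : ℂ)) := by
        rw [← diagonal_one, ← diagonal_smul, diagonal_add]
        congr 1
        funext i
        simp [mul_comm]
      rw [this, mul_add, add_mul, mul_one, Matrix.mul_smul, Matrix.smul_mul]
    rw [e, det_mul, det_mul, mul_right_comm, ← det_mul, mul_div_cancel_left₀ _ h0, det_diagonal,
      ← ofReal_prod, ofReal_re]
  have kp : ∏ i, (1 + Polynomial.C (d i) * Polynomial.X) = (1 + Polynomial.X) ^ m := by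
    refine Polynomial.eq_of_infinite_eval_eq _ _ ((Ici_infinite (0 : ℝ)).mono fun t ht => ?_)
    simpa [Polynomial.eval_prod] using k t ht
  have d01 : ∀ i, d i = 0 ∨ d i = 1 := fun i => by
    refine or_iff_not_imp_left.2 fun hi => ?_
    have := congrArg (Polynomial.eval (-(d i)⁻¹)) kp
    rw [Polynomial.eval_prod, Finset.prod_eq_zero (Finset.mem_univ i) (by simp [hi])] at this
    have h2 : 1 + -(d i)⁻¹ = 0 := eq_zero_of_pow_eq_zero (n := m) (by simpa using this.symm)
    field_simp at h2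
    linarith
  refine ⟨?_, ?_⟩
  · rw [Matrix.mul_inv_rev, mul_assoc _ T, mul_nonsing_inv_cancel_left _ _ hT, mul_assoc,
      mul_assoc Tᴴ _ T, nonsing_inv_mul_cancel_left _ _ hT', ← mul_assoc, mul_assoc Tᴴ,
      diagonal_mul_diagonal]
    refine (congrArg (fun D => Tᴴ * Matrix.diagonal D * T) (funext fun i => ?_)).trans
      (mul_assoc _ _ _)
    rcases d01 i with e | e <;> simp [e]
  · rw [hr, Mat.trm_diag hT]
    have l2 : Real.log 2 ≠ 0 := (Real.log_pos one_lt_two).ne'
    have := congrArg Real.log (k 1 zero_le_one)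
    rw [Real.log_prod fun i _ => by linarith [hd i], Real.log_pow, one_add_one_eq_two,
      Finset.sum_congr rfl (g := fun i => d i * Real.log 2) fun i _ => by
        rcases d01 i with e | e <;> simp [e, one_add_one_eq_two], ← Finset.sum_mul] at this
    rw [mul_right_cancel₀ l2 this, ofReal_natCast]

theorem unif {E F : Type} [PseudoMetricSpace E] [NormedAddCommGroup F] [ProperSpace F] {K : Set E}
    (hK : IsCompact K) (φ : E × F → ℝ) (hφ : ContinuousOn φ (K ×ˢ univ)) (L : ℝ) {δ : ℝ}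
    (hδ : 0 < δ) : ∃ C, ∀ z ∈ K, ∀ a b : F, ‖a‖ ≤ L → ‖b‖ ≤ L →
      |φ (z, a) - φ (z, b)| ≤ δ + |C| * ‖a - b‖ := by
  have hS := hK.prod (isCompact_closedBall (0 : F) L)
  have hc := hφ.mono (prod_mono (Subset.refl K) (subset_univ (closedBall (0 : F) L)))
  obtain ⟨η, hη, h⟩ := Metric.uniformContinuousOn_iff.1 (hS.uniformContinuousOn_of_continuous hc) δ hδ
  obtain ⟨R, hR⟩ := hS.exists_bound_of_continuousOn hc
  refine ⟨2 * R / η, fun z hz a b ha hb => ?_⟩
  have m1 : (z, a) ∈ K ×ˢ closedBall (0 : F) L := ⟨hz, mem_closedBall_zero_iff.2 ha⟩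
  have m2 : (z, b) ∈ K ×ˢ closedBall (0 : F) L := ⟨hz, mem_closedBall_zero_iff.2 hb⟩
  rcases lt_or_ge ‖a - b‖ η with l | l
  · have := h _ m1 _ m2 (by simpa [Prod.dist_eq, dist_eq_norm, hη] using l)
    rw [Real.dist_eq] at this
    exact this.le.trans (le_add_of_nonneg_right (by positivity))
  · have a1 := hR _ m1
    have a2 := hR _ m2
    rw [Real.norm_eq_abs] at a1 a2
    have a3 := mul_le_mul (le_abs_self (2 * R / η)) l hη.le (abs_nonneg _)
    rw [div_mul_cancel₀ _ hη.ne'] at a3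
    linarith [abs_sub (φ (z, a)) (φ (z, b))]

theorem loc {K : Set (V ι)} (hK : IsCompact K) (φ : V ι × Mat ι → ℝ)
    (hφ : ContinuousOn φ (K ×ˢ univ)) {Q : ℕ → V ι → Mat ι} {P : V ι → Mat ι} {L : ℝ} (hL : 0 ≤ L)
    (hQ : ∀ j, SmM (Q j) K) (hP : SmM P K) (bQ : ∀ j, ∀ z ∈ K, Bd L (Q j z))
    (bP : ∀ z ∈ K, Bd L (P z)) {𝒰 : Filter ℕ}
    (h : ∀ i k, Tendsto (fun j => ∫ z in K, ‖(Q j z - P z) i k‖) 𝒰 (𝓝 0)) :
    Tendsto (fun j => ∫ z in K, |φ (z, Q j z) - φ (z, P z)|) 𝒰 (𝓝 0) := by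
  have nb : ∀ A : Mat ι, Bd L A → ‖fun i k => A i k‖ ≤ L := fun A hA =>
    (pi_norm_le_iff_of_nonneg hL).2 fun i => (pi_norm_le_iff_of_nonneg hL).2 fun k => hA i k
  have it : ∀ j i k, IntegrableOn (fun z => ‖(Q j z - P z) i k‖) K := fun j i k =>
    ContinuousOn.integrableOn_compact hK fun z hz =>
      (((hQ j).sub hP z hz i k).continuousAt.norm).continuousWithinAt
  have fin : IsFiniteMeasure (volume.restrict K) := isFiniteMeasure_restrict.2 hK.measure_ne_top
  refine (NormedAddGroup.tendsto_nhds_zero).2 fun δ hδ => ?_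
  have v0 : 0 ≤ volume.real K := measureReal_nonneg
  obtain ⟨C, hC⟩ := unif (F := ι → ι → ℂ) hK φ hφ L
    (show 0 < δ / (2 * (volume.real K + 1)) by positivity)
  have t : Tendsto (fun j => |C| * ∑ i, ∑ k, ∫ z in K, ‖(Q j z - P z) i k‖) 𝒰 (𝓝 0) := by
    simpa using (tendsto_finsetSum Finset.univ fun i _ =>
      tendsto_finsetSum Finset.univ fun k _ => h i k).const_mul |C|
  filter_upwards [t.eventually_lt_const (half_pos hδ)] with j hj
  rw [Real.norm_of_nonneg (integral_nonneg fun z => abs_nonneg _)]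
  have i2 : IntegrableOn (fun z => ∑ i, ∑ k, ‖(Q j z - P z) i k‖) K :=
    integrable_finsetSum _ fun i _ => integrable_finsetSum _ fun k _ => it j i k
  calc _ ≤ ∫ z in K, (δ / (2 * (volume.real K + 1)) + |C| * ∑ i, ∑ k, ‖(Q j z - P z) i k‖) := by
        refine integral_mono_of_nonneg (Eventually.of_forall fun z => abs_nonneg _)
          ((integrable_const _).add (i2.const_mul _))
          (ae_restrict_of_forall_mem hK.measurableSet fun z hz => ?_)
        refine (hC z hz _ _ (nb _ (bQ j z hz)) (nb _ (bP z hz))).trans ?_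
        refine add_le_add le_rfl (mul_le_mul_of_nonneg_left ?_ (abs_nonneg _))
        refine (pi_norm_le_iff_of_nonneg (by positivity)).2 fun i =>
          (pi_norm_le_iff_of_nonneg (by positivity)).2 fun k => ?_
        exact (Finset.single_le_sum (f := fun k => ‖(Q j z - P z) i k‖) (fun _ _ => norm_nonneg _)
          (Finset.mem_univ k)).trans (Finset.single_le_sum
            (f := fun i => ∑ k, ‖(Q j z - P z) i k‖) (fun _ _ => by positivity) (Finset.mem_univ i))
    _ < δ := by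
        rw [integral_add (integrable_const _) (i2.const_mul _), integral_const_mul,
          integral_finsetSum _ fun i _ => integrable_finsetSum _ fun k _ => it j i k]
        simp only [integral_finsetSum _ fun k _ => it j _ k, integral_const,
          measureReal_restrict_apply_univ, smul_eq_mul]
        have : volume.real K * (δ / (2 * (volume.real K + 1))) ≤ δ / 2 := by
          rw [mul_div_assoc', div_le_div_iff₀ (by positivity) two_pos]
          nlinarith
        linarith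

omit [DecidableEq ι] in
theorem bdd {K : Set (V ι)} (hK : IsCompact K) {G : V ι → Mat ι} (hG : SmM G K) :
    ∃ L, ∀ z ∈ K, Bd L (G z) := by
  obtain ⟨L, hL⟩ := hK.exists_bound_of_continuousOn (f := fun z i k => G z i k)
    fun z hz => (continuousAt_pi.2 fun i => continuousAt_pi.2 fun k =>
      (hG z hz i k).continuousAt).continuousWithinAt
  exact ⟨L, fun z hz i k => (norm_le_pi_norm _ k).trans ((norm_le_pi_norm _ i).trans (hL z hz))⟩

omit [DecidableEq ι] in
theorem cat {G : V ι → Mat ι} {U : Set (V ι)} (hG : SmM G U) {z : V ι} (hz : z ∈ U) :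
    ContinuousAt G z :=
  continuousAt_pi.2 fun i => continuousAt_pi.2 fun k => (hG z hz i k).continuousAt

theorem flat {G P : V ι → Mat ι} {U : Set (V ι)} (hU : IsOpen U) (hG : KOn G U) (hP : SmM P U)
    (hh : ∀ z ∈ U, (P z).IsHermitian) (hd : ∀ z ∈ U, ∀ k, dM P k z = gam G k z * P z) (t : ℝ)
    {z : V ι} (hz : z ∈ U) : ∀ᶠ w in 𝓝 z,
      (G w + (t : ℂ) • P w).det / (G w).det = (G z + (t : ℂ) • P z).det / (G z).det := by
  have h0 : ∀ w ∈ U, (G w).det ≠ 0 := fun w hw => (hG.2 w hw).det_pos.ne'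
  have e : ∀ w, (G w + (t : ℂ) • P w).det / (G w).det = ((G w + (t : ℂ) • P w) * (G w)⁻¹).det :=
    fun w => by rw [det_mul, det_nonsing_inv, Ring.inverse_eq_inv', div_eq_mul_inv]
  have dH : ∀ w ∈ U, DfM (fun w => G w + (t : ℂ) • P w) w := fun w hw =>
    (hG.1.1.df hw).add ((hP.df hw).smul (differentiableAt_const _))
  have dN : ∀ w ∈ U, DfM (fun w => (G w + (t : ℂ) • P w) * (G w)⁻¹) w := fun w hw =>
    (dH w hw).mul ((hG.1.1.df hw).inv (h0 w hw))
  have z1 : ∀ w ∈ U, ∀ k, dz (fun w => ((G w + (t : ℂ) • P w) * (G w)⁻¹).det) k w = 0 := by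
    intro w hw k
    have a : dM G k w = gam G k w * G w := by
      rw [gam, nonsing_inv_mul_cancel_right _ _ (h0 w hw).isUnit]
    have b : dM (fun w => (G w + (t : ℂ) • P w) * (G w)⁻¹) k w =
        gam G k w * ((G w + (t : ℂ) • P w) * (G w)⁻¹) -
          (G w + (t : ℂ) • P w) * (G w)⁻¹ * gam G k w := by
      rw [dM_mul (dH w hw) ((hG.1.1.df hw).inv (h0 w hw)), dM_inv (hG.1.1.df hw) (h0 w hw),
        dM_add (hG.1.1.df hw) ((hP.df hw).smul (differentiableAt_const _)),
        dM_csmul _ (hP.df hw), hd w hw, mul_assoc (G w)⁻¹, ← gam, a, ← Matrix.mul_smul, ← mul_add,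
        mul_neg, sub_eq_add_neg]
      simp only [mul_assoc]
    rw [dz_det (dN w hw), b, mul_sub, trace_sub, ← mul_assoc, trace_mul_cycle, mul_adjugate,
      ← mul_assoc, adjugate_mul, sub_self]
  obtain ⟨r, hr, hb⟩ := Metric.isOpen_iff.1 hU z hz
  filter_upwards [ball_mem_nhds z hr] with w hw
  rw [e, e]
  refine isOpen_ball.is_const_of_fderiv_eq_zero (𝕜 := ℝ)
    (f := fun w => ((G w + (t : ℂ) • P w) * (G w)⁻¹).det) (convex_ball z r).isPreconnected
    (fun y hy => (dN y (hb hy)).det.differentiableWithinAt) (fun y hy => ?_) hw (mem_ball_self hr)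
  ext v
  have re : ∀ᶠ w in 𝓝 y, star ((G w + (t : ℂ) • P w) * (G w)⁻¹).det =
      ((G w + (t : ℂ) • P w) * (G w)⁻¹).det := by
    filter_upwards [hU.mem_nhds (hb hy)] with w hw
    have h1 : ((t : ℂ) • P w).IsHermitian := by
      rw [IsHermitian, conjTranspose_smul, (hh w hw).eq, star_def, conj_ofReal]
    rw [← e, star_div₀, ← det_conjTranspose, ← det_conjTranspose, (hG.1.2.1 w hw).eq,
      ((hG.1.2.1 w hw).add h1).eq]
  rw [fderiv_eq_dz]
  simp only [dzb_real re, z1 y (hb hy), star_zero, zero_mul, add_zero, Finset.sum_const_zero]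
  rfl

theorem rq_smul (G : V ι → Mat ι) (z : V ι) (c : ℝ) (η : Mat ι) :
    rq G z ((c : ℂ) • η) = c * (c * rq G z η) := by
  simp only [rq, ← re_ofReal_mul, Finset.mul_sum, Matrix.smul_apply, smul_eq_mul]
  congr 1
  refine Finset.sum_congr rfl fun i _ => Finset.sum_congr rfl fun j _ =>
    Finset.sum_congr rfl fun k _ => Finset.sum_congr rfl fun l _ => by ring

theorem rq_cont {G : V ι → Mat ι} {U : Set (V ι)} (hG : KOn G U) :
    ContinuousOn (fun q : V ι × Mat ι => rq G q.1 ((G q.1)⁻¹ * q.2 * (G q.1)⁻¹)) (U ×ˢ univ) := by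
  rintro ⟨z, B⟩ ⟨hz, -⟩
  have hI := hG.1.1.inv fun w hw => (hG.2 w hw).det_pos.ne'
  have c1 : ContinuousAt (fun q : V ι × Mat ι => (G q.1)⁻¹ * q.2 * (G q.1)⁻¹) (z, B) :=
    have := (cat hI hz).comp (f := Prod.fst) (x := (z, B)) continuousAt_fst
    (this.mul continuousAt_snd).mul this
  have c2 := fun i k => continuousAt_pi.1 (continuousAt_pi.1 c1 i) k
  have c3 : ∀ i j k l, ContinuousAt (fun w => curv G w i j k l) z := fun i j k l =>
    ((contDiffAt_dz_top (contDiffAt_dzb_top (hG.1.1 z hz i j) l) k).neg.add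
      (ContDiffAt.sum fun p _ => ContDiffAt.sum fun q _ => ((hI z hz q p).mul
        (contDiffAt_dz_top (hG.1.1 z hz i q) k)).mul
          (contDiffAt_dzb_top (hG.1.1 z hz p j) l))).continuousAt
  refine ContinuousAt.continuousWithinAt (continuous_re.continuousAt.comp ?_)
  exact tendsto_finsetSum _ fun i _ => tendsto_finsetSum _ fun j _ =>
    tendsto_finsetSum _ fun k _ => tendsto_finsetSum _ fun l _ => ((c2 j i).mul (c2 l k)).mul
      ((c3 i j k l).comp (f := Prod.fst) (x := (z, B)) continuousAt_fst)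

variable {X : Type} [TopologicalSpace X]

/-- functions of a form that are continuous in every chart. -/
def Inv (M : Atl ι X) (Φ : X → Mat ι → ℝ) : Prop :=
  ∀ e ∈ M.A, ∃ φ : V ι × Mat ι → ℝ, ContinuousOn φ (e.target ×ˢ univ) ∧
    ∀ B : X → Mat ι, ∀ x ∈ e.source, φ (e x, M.repF B e (e x)) = Φ x (B x)

theorem Inv.cont {M : Atl ι X} {Φ : X → Mat ι → ℝ} (h : Inv M Φ) {B : X → Mat ι} (hB : M.SmF B) :
    Continuous fun x => Φ x (B x) := by
  refine continuous_iff_continuousAt.2 fun x => ?_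
  obtain ⟨φ, h1, h2⟩ := h _ (M.ch_mem x)
  have c1 := (M.ch x).continuousAt (M.mem x)
  have m1 := (M.ch x).map_source (M.mem x)
  refine ((h1.continuousAt (x := (M.ch x x, M.repF B (M.ch x) (M.ch x x)))
    (prod_mem_nhds ((M.ch x).open_target.mem_nhds m1) univ_mem)).comp
      (f := fun y => (M.ch x y, M.repF B (M.ch x) (M.ch x y)))
      (c1.prodMk ((cat (hB _ (M.ch_mem x)) m1).comp c1))).congr ?_
  filter_upwards [(M.ch x).open_source.mem_nhds (M.mem x)] with y hy using h2 B y hy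

variable [CompactSpace X] [MeasurableSpace X] [BorelSpace X]

omit [Fintype ι] [DecidableEq ι] in
theorem intg {μ : Measure X} [IsFiniteMeasure μ] {f : X → ℝ} (hf : Continuous f) :
    Integrable f μ :=
  (BoundedContinuousFunction.mkOfCompact ⟨f, hf⟩).integrable μ

omit [Fintype ι] [DecidableEq ι] in
theorem wlim {μ : Measure X} [IsFiniteMeasure μ] {F G w : ℕ → X → ℝ} {B : ℝ} {𝒰 : Filter ℕ}
    (hF : ∀ j, Continuous (F j)) (hG : ∀ j, Continuous (G j)) (hw : ∀ j, Continuous (w j))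
    (hB : ∀ j x, |w j x| ≤ B) (h : Tendsto (fun j => ∫ x, |F j x - G j x| ∂μ) 𝒰 (𝓝 0)) :
    Tendsto (fun j => ∫ x, F j x * w j x ∂μ - ∫ x, G j x * w j x ∂μ) 𝒰 (𝓝 0) := by
  refine squeeze_zero_norm (fun j => ?_) (by simpa using h.mul_const B)
  rw [← integral_sub (intg ((hF j).fun_mul (hw j))) (intg ((hG j).fun_mul (hw j))), ← integral_mul_const]
  refine norm_integral_le_of_norm_le (intg (((hF j).sub (hG j)).abs.mul continuous_const))
    (Eventually.of_forall fun x => ?_)
  rw [← sub_mul, Real.norm_eq_abs, abs_mul]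
  exact mul_le_mul_of_nonneg_left (hB j x) (abs_nonneg _)

theorem glob [T2Space X] (hm : MatS) {M : Atl ι X} (A : RepA' M) {g p : X → Mat ι}
    {μ : Measure X} (W : VolA' M g μ) (hg : M.IsK g) {Φ : X → Mat ι → ℝ} (hΦ : Inv M Φ)
    {q : ℕ → X → Mat ι} {L : ℝ} (hq : ∀ j, M.SmF (q j)) (hp : M.SmF p)
    (h1 : ∀ j x, (q j x).PosSemidef ∧ trm (g x) (q j x) ≤ L) {𝒰 : Filter ℕ}
    (h : ∀ e ∈ M.A, ∀ K, IsCompact K → K ⊆ e.target → ∀ i k, Tendsto (fun j => ∫ z in K,
      ‖(M.repF (q j) e z - M.repF p e z) i k‖) 𝒰 (𝓝 0)) :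
    Tendsto (fun j => ∫ x, |Φ x (q j x) - Φ x (p x)| ∂μ) 𝒰 (𝓝 0) := by
  have := W.fin
  choose K hK k1 k2 using fun x =>
    exists_compact_subset (M.ch x).open_target ((M.ch x).map_source (M.mem x))
  have ms : ∀ x, MeasurableSet ((M.ch x).source ∩ M.ch x ⁻¹' K x) := fun x => by
    rw [← (M.ch x).symm_image_eq_source_inter_preimage (k2 x)]
    exact ((hK x).image_of_continuousOn ((M.ch x).continuousOn_symm.mono (k2 x))).measurableSet
  obtain ⟨t, -, ht⟩ := isCompact_univ.elim_nhds_subcover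
    (fun x => (M.ch x).source ∩ M.ch x ⁻¹' K x) fun x _ =>
      inter_mem ((M.ch x).open_source.mem_nhds (M.mem x))
        ((M.ch x).continuousAt (M.mem x) (mem_interior_iff_mem_nhds.1 (k1 x)))
  have key : ∀ x, Tendsto (fun j => ∫ y in (M.ch x).source ∩ M.ch x ⁻¹' K x,
      |Φ y (q j y) - Φ y (p y)| ∂μ) 𝒰 (𝓝 0) := fun x => by
    have he := M.ch_mem x
    obtain ⟨φ, f1, f2⟩ := hΦ _ he
    have sG := (hg _ he).1.1.mono (k2 x)
    obtain ⟨L1, b1⟩ := bdd (hK x) sG
    obtain ⟨L2, b2⟩ := bdd (hK x) ((hp _ he).mono (k2 x))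
    have := loc (hK x) (fun a => (M.repF g (M.ch x) a.1).det.re * φ a) (L := max
      (max L L1 * max L L1) L2) (fun a ha => (continuous_re.continuousAt.comp
        ((sG.det ha.1).continuousAt.comp continuousAt_fst)).continuousWithinAt.mul
          (f1.mono (prod_mono (k2 x) Subset.rfl) a ha))
      (le_max_of_le_left (mul_self_nonneg _)) (fun j => (hq j _ he).mono (k2 x))
      ((hp _ he).mono (k2 x)) (fun j z hz i k => le_max_of_le_left ?_)
      (fun z hz i k => le_max_of_le_right (b2 z hz i k)) (h _ he _ (hK x) (k2 x))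
    · refine this.congr fun j => ?_
      rw [W.intR _ he _ (hK x).measurableSet (k2 x)]
      refine setIntegral_congr_fun (hK x).measurableSet fun z hz => ?_
      have a := (M.ch x).map_target (k2 x hz)
      have b := (M.ch x).right_inv (k2 x hz)
      dsimp only
      rw [← f2 (q j) _ a, ← f2 p _ a, b, ← mul_sub, abs_mul,
        abs_of_pos (hm.det ι _ ((hg _ he).2 z (k2 x hz))).1]
    · have a := (M.ch x).map_target (k2 x hz)
      have b := A.trm_rep g (q j) _ he _ a
      rw [(M.ch x).right_inv (k2 x hz)] at b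
      exact Mat.bd_le ((hg _ he).2 z (k2 x hz))
        ((hm.pull_pd ι _ _ (A.tj_det _ he _ (M.ch_mem _) _ a (M.mem _))).2.1 (h1 j _).1)
        (fun i k => le_max_of_le_right (b1 z hz i k)) (le_max_of_le_left (b ▸ (h1 j _).2)) i k
  refine squeeze_zero (fun j => integral_nonneg fun x => abs_nonneg _) (fun j => ?_)
    (by simpa using tendsto_finsetSum t fun x _ => key x)
  have hf := intg (μ := μ) ((hΦ.cont (hq j)).fun_sub (hΦ.cont hp)).abs
  simp only [← integral_indicator (ms _)]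
  rw [← integral_finsetSum _ fun a _ => hf.indicator (ms a)]
  refine integral_mono hf (integrable_finsetSum _ fun a _ => hf.indicator (ms a)) fun x => ?_
  obtain ⟨a, ha, hx⟩ := mem_iUnion₂.1 (ht (mem_univ x))
  exact (indicator_of_mem hx _).symm.le.trans (Finset.single_le_sum
    (f := fun a => ((M.ch a).source ∩ M.ch a ⁻¹' K a).indicator
      (fun x => |Φ x (q j x) - Φ x (p x)|) x)
    (fun a _ => indicator_nonneg (fun y _ => abs_nonneg _) x) ha)

omit [CompactSpace X] [MeasurableSpace X] [BorelSpace X] in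
theorem inv_det (hm : MatS) {M : Atl ι X} (A : RepA' M) {g : X → Mat ι} (hg : M.IsK g) (t : ℝ) :
    Inv M fun x B => ((g x + (t : ℂ) • B).det / (g x).det).re := fun e he => by
  refine ⟨fun a => ((M.repF g e a.1 + (t : ℂ) • a.2).det / (M.repF g e a.1).det).re,
    fun a ha => ?_, fun B x hx => ?_⟩
  · have c := (cat (hg e he).1.1 ha.1).comp (f := Prod.fst) (x := a) continuousAt_fst
    have cd : Continuous fun B : Mat ι => B.det := continuous_id.matrix_det
    have c1 : ContinuousAt (fun a : V ι × Mat ι => M.repF g e a.1 + (t : ℂ) • a.2) a :=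
      c.add (continuousAt_snd.fun_const_smul _)
    have c2 : ContinuousAt (fun a : V ι × Mat ι => (M.repF g e a.1 + (t : ℂ) • a.2).det) a :=
      cd.continuousAt.tendsto.comp c1
    have c3 : ContinuousAt (fun a : V ι × Mat ι => (M.repF g e a.1).det) a :=
      cd.continuousAt.tendsto.comp c
    exact ContinuousAt.continuousWithinAt (continuous_re.continuousAt.tendsto.comp
      (c2.div c3 ((hg e he).2 _ ha.1).det_pos.ne'))
  · have hJ := A.tj_det e he _ (M.ch_mem x) x hx (M.mem x)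
    have e1 : ∀ J G B : Mat ι, pull J G + (t : ℂ) • pull J B = pull J (G + (t : ℂ) • B) :=
      fun J G B => by simp only [pull, mul_add, add_mul, Matrix.mul_smul, Matrix.smul_mul]
    simp only [Atl.repF, e.left_inv hx, e1, (hm.pull_pd ι _ _ hJ).2.2.2.1]
    rw [mul_div_mul_left _ _ (by simpa using hJ)]

omit [CompactSpace X] [MeasurableSpace X] [BorelSpace X] in
theorem inv_rq (hm : MatS) {M : Atl ι X} (A : RepA' M) (C : RepC' M) {g : X → Mat ι}
    (hg : M.IsK g) : Inv M fun x B => M.rqX g x ((g x)⁻¹ * B * (g x)⁻¹) := fun e he => by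
  refine ⟨_, rq_cont (hg e he), fun B x hx => ?_⟩
  have hJ := A.tj_det e he _ (M.ch_mem x) x hx (M.mem x)
  have u1 : IsUnit (tj e (M.ch x) x)ᵀ.det := by rw [det_transpose]; exact hJ.isUnit
  have u2 : IsUnit ((tj e (M.ch x) x).map star).det := by
    rw [Mat.det_star]; exact hJ.isUnit.star
  rw [C.rq_rep g hg e he x hx]
  congr 1
  simp only [Atl.repF, e.left_inv hx, (hm.pull_pd ι _ _ hJ).2.2.2.2.1]
  simp only [pull, mul_assoc, mul_nonsing_inv_cancel_left _ _ u2,
    nonsing_inv_mul_cancel_left _ _ u1, nonsing_inv_mul _ u1, mul_one]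

end Par

open Par in
theorem par (ha : RepA) (_hb : RepB) (hc : RepC) (hv : VolS) (hd : DenS) (hu : CutS) (h1 : Par1S)
    (hs : SchwS) (hm : MatS) : ParS := by
  intro ι X _ _ _ _ _ _ _ _ M g μ u m hg hμ hn hF
  have A := ha ι X M
  have C := hc ι X M
  have W := (hv ι X M g hg).2 μ hμ
  have := W.fin
  have := W.pos
  obtain ⟨B, hB0, hB⟩ := hd ι X M g μ u m hg hμ hF
  obtain ⟨ε, χ, hε, hε0, hχ, c1, c2, c3, c4⟩ := hu ι X M g μ u m hg hμ hn hF
  have hU : (hyperfilter ℕ : Filter ℕ) ≤ atTop := Nat.hyperfilter_le_atTop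
  have hK : ∀ j, M.IsK (M.hm g (ε j) (u (ε j))) := fun j => (hF.sol _ (hε j)).2.1
  have sw := fun j x => (hs ι X M g _ _ hg hn (hε j).1 (hF.sol _ (hε j)) x).2
  obtain ⟨p, p1, p2, p3, p4⟩ := h1 ι X M g μ (fun j => M.hm g (ε j) (u (ε j))) ε χ
    (max B (Fintype.card ι)) (hyperfilter ℕ) hg hμ (fun j => ⟨hK j, (hε j).1,
      fun x => le_max_of_le_right (sw j x), le_max_of_le_left (hB _ (hε j)).2.2.1, hχ j⟩)
    (c1.mono_left hU) (c2.mono_left hU) (c3.mono_left hU)
  have gp := ((A.isK_iff g).1 hg).2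
  have gu : ∀ x, IsUnit (g x).det := fun x => (gp x).det_pos.ne'.isUnit
  have c0 : ∀ v, M.Ck ∞ v → Continuous v := fun v hv =>
    A.cont v fun e he z hz => (hv e he z hz).of_le bot_le
  set q : ℕ → X → Mat ι := fun j x => (ε j : ℂ) • (g x * (M.hm g (ε j) (u (ε j)) x)⁻¹ * g x)
    with hq
  have q1 : ∀ j, M.SmF (q j) := fun j e he z hz i k => by
    have := ((((hg e he).1.1.mul ((hK j e he).1.1.inv fun w hw =>
      ((hK j e he).2 w hw).det_pos.ne')).mul (hg e he).1.1).smul
        (f := fun _ => (ε j : ℂ)) fun _ _ => contDiffAt_const) z hz i k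
    refine this.congr_of_eventuallyEq ?_
    filter_upwards [e.open_target.mem_nhds hz] with w hw
    rw [← A.repF_mul _ _ _ e he w hw]
    simp only [hq, Atl.repF, pull, Matrix.mul_smul, Matrix.smul_mul]
  have q2 : ∀ j x, (q j x).PosSemidef ∧ trm (g x) (q j x) ≤ Fintype.card ι := fun j x => by
    refine ⟨PosSemidef.smul ?_ (zero_le_real.2 (hε j).1.le), ?_⟩
    · have := (((A.isK_iff _).1 (hK j)).2 x).inv.posSemidef.conjTranspose_mul_mul_same (g x)
      rwa [(gp x).1.eq] at this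
    · refine le_of_eq_of_le ?_ (sw j x)
      rw [trm, trm, hq, Matrix.smul_mul, mul_nonsing_inv_cancel_right _ _ (gu x), trace_smul,
        smul_eq_mul, re_ofReal_mul]
  have key : ∀ t : ℝ, 0 ≤ t → ∀ x, ((g x + (t : ℂ) • p x).det / (g x).det).re = (1 + t) ^ m := by
    intro t ht x
    have I := inv_det hm A hg t
    have lc : IsLocallyConstant fun x => ((g x + (t : ℂ) • p x).det / (g x).det).re := by
      refine (IsLocallyConstant.iff_eventually_eq _).2 fun x => ?_
      have he := M.ch_mem x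
      have f := flat (M.ch x).open_target (hg _ he) (p1 _ he) (fun z hz =>
        (hm.pull_pd ι _ _ (A.tj_det _ he _ (M.ch_mem _) _ ((M.ch x).map_target hz)
          (M.mem _))).2.2.1 (p2 _).1) (p3 _ he) t ((M.ch x).map_source (M.mem x))
      filter_upwards [((M.ch x).continuousAt (M.mem x)).eventually f,
        (M.ch x).open_source.mem_nhds (M.mem x)] with y h1 h2
      have hJ := A.tj_det _ he _ (M.ch_mem y) y h2 (M.mem y)
      have e1 : ∀ J G B : Mat ι, pull J G + (t : ℂ) • pull J B = pull J (G + (t : ℂ) • B) :=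
        fun J G B => by simp only [pull, mul_add, add_mul, Matrix.mul_smul, Matrix.smul_mul]
      rw [A.repF_self, A.repF_self] at h1
      simp only [Atl.repF, (M.ch x).left_inv h2, e1, (hm.pull_pd ι _ _ hJ).2.2.2.1] at h1
      rw [mul_div_mul_left _ _ (by simpa using hJ)] at h1
      rw [h1]
    have T1 := wlim (fun j => I.cont (q1 j)) (fun _ => I.cont p1)
      (w := fun j => M.den μ g (ε j) (u (ε j))) (B := B)
      (fun j => (Real.continuous_exp.comp (c0 _ (hF.sol _ (hε j)).1)).div_const _)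
      (fun j y => by
        exact (abs_of_pos (div_pos (Real.exp_pos _) (hF.vpos _ (hε j)))).trans_le
          ((hB _ (hε j)).1 y)) (glob hm A W hg I q1 p1 q2 p4)
    have T2 := ((hF.det t ht).comp (tendsto_nhdsWithin_iff.2
      ⟨hε0, Eventually.of_forall fun j => (hε j).1⟩)).mono_left hU
    have T3 := T2.sub T1
    rw [sub_zero] at T3
    refine tendsto_nhds_unique tendsto_const_nhds (T3.congr fun j => ?_)
    have e : ∀ y, ((g y + (t : ℂ) • q j y).det / (g y).det) =
        (1 + ((t * ε j : ℝ) : ℂ) • (g y * (M.hm g (ε j) (u (ε j)) y)⁻¹)).det := fun y => by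
      rw [div_eq_iff (gu y).ne_zero, ← det_mul, add_mul, one_mul, hq, smul_smul, ofReal_mul,
        Matrix.smul_mul]
    simp only [e, Function.comp_apply, sub_sub_cancel, lc.apply_eq_of_preconnectedSpace _ x,
      integral_const_mul, hF.one _ (hε j), mul_one]
  have I := inv_rq hm A C hg
  have cF := I.cont p1
  have F0 : ∀ x, M.rqX g x ((g x)⁻¹ * p x * (g x)⁻¹) ≤ 0 := fun x => by
    refine C.rq_nonpos g hg hn x _ ?_
    have := (p2 x).conjTranspose_mul_mul_same (g x)⁻¹
    rwa [(gp x).1.inv.eq] at this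
  obtain ⟨R, hR⟩ := isCompact_univ.exists_bound_of_continuousOn cF.continuousOn
  have cχ := fun j => c0 _ (hχ j).1
  have T1 := wlim (fun j => I.cont (q1 j)) (fun _ => cF) cχ (B := 1)
    (fun j y => by rw [abs_of_nonneg ((hχ j).2 y).1]; exact ((hχ j).2 y).2)
    (glob hm A W hg I q1 p1 q2 p4)
  have T2 := wlim (fun _ => continuous_const) cχ (fun _ => cF) (fun _ y => hR y trivial)
    ((c1.mono_left hU).congr fun j => integral_congr_ae (Eventually.of_forall fun y =>
      (abs_of_nonneg (sub_nonneg.2 ((hχ j).2 y).2)).symm))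
  have T3 := (((hε0.mul c4).mono_left hU).sub T1).add T2
  have z0 : ∫ x, M.rqX g x ((g x)⁻¹ * p x * (g x)⁻¹) ∂μ = 0 := by
    rw [mul_zero, sub_zero, add_zero] at T3
    refine tendsto_nhds_unique tendsto_const_nhds (T3.congr fun j => ?_)
    have e : ∀ y, M.rqX g y ((g y)⁻¹ * q j y * (g y)⁻¹) * χ j y =
        ε j * (χ j y * (ε j * M.rqX g y (M.hm g (ε j) (u (ε j)) y)⁻¹)) := fun y => by
      rw [hq, Matrix.mul_smul, Matrix.smul_mul, mul_assoc (g y), nonsing_inv_mul_cancel_left _ _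
        (gu y), mul_nonsing_inv_cancel_right _ _ (gu y), Atl.rqX, rq_smul, Atl.rqX]
      ring
    simp only [e, integral_const_mul, one_mul, mul_comm (χ j _) (M.rqX g _ _)]
    ring
  have z1 : (fun x => -M.rqX g x ((g x)⁻¹ * p x * (g x)⁻¹)) = 0 :=
    (cF.neg.ae_eq_iff_eq μ continuous_zero).1 ((integral_eq_zero_iff_of_nonneg
      (fun x => neg_nonneg.2 (F0 x)) (intg cF.neg)).1 (by rw [integral_neg, z0, neg_zero]))
  refine ⟨p, p1, fun x => ?_, p3⟩
  obtain ⟨s1, s2⟩ := spec hm (gp x) (p2 x) fun t ht => key t ht x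
  exact ⟨(p2 x).1, s1, s2, neg_eq_zero.1 (congrFun z1 x)⟩

end Pool.Agent.Lib.MP_813db1_ag.HS
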