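import Pool.Agent.Lib.MP_813db1_ag.HS.Par1_A
import Pool.Agent.Lib.MP_813db1_ag.HS.Stmt2

/-! The limit of the cut off forms is parallel. -/

namespace Pool.Agent.Lib.MP_813db1_ag.HS

open MeasureTheory Complex Matrix Filter Topology Set Metric
open scoped ContDiff ComplexOrder

noncomputable section

namespace Par1

variable {ι : Type} [Fintype ι]

/-- the sum of the norms of the entries. -/
def tot (A : Mat ι) : ℝ := ∑ u : ι × ι, ‖A u.1 u.2‖

theorem tot_nonneg (A : Mat ι) : 0 ≤ tot A := Finset.sum_nonneg fun _ _ => norm_nonneg _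

theorem bd_tot (A : Mat ι) : Bd (tot A) A := fun i j =>
  Finset.single_le_sum (f := fun u : ι × ι => ‖A u.1 u.2‖) (fun _ _ => norm_nonneg _)
    (Finset.mem_univ (i, j))

theorem cont_tot {Y : Type} [TopologicalSpace Y] {A : Y → Mat ι} {U : Set Y}
    (h : ∀ i j, ContinuousOn (fun z => A z i j) U) : ContinuousOn (fun z => tot (A z)) U :=
  continuousOn_finsetSum _ fun u _ => (h u.1 u.2).norm

theorem lim_tot {A : ℕ → V ι → Mat ι} {K : Set (V ι)} {𝒰 : Filter ℕ} (hK : IsCompact K)
    (h : ∀ n i j, ContinuousOn (fun z => A n z i j) K)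
    (t : ∀ i j, Tendsto (fun n => ∫ z in K, ‖A n z i j‖) 𝒰 (𝓝 0)) :
    Tendsto (fun n => ∫ z in K, tot (A n z)) 𝒰 (𝓝 0) := by
  have := tendsto_finsetSum Finset.univ fun (u : ι × ι) _ => t u.1 u.2
  rw [Finset.sum_const_zero] at this
  exact this.congr fun n => (integral_finsetSum _ fun (u : ι × ι) _ =>
    (h n u.1 u.2).norm.integrableOn_compact hK).symm

theorem bd_mul {L T : ℝ} {A B : Mat ι} (hA : Bd L A) (hB : Bd T B) :
    Bd (Fintype.card ι * (L * T)) (A * B) := fun i j => by
  rw [mul_apply, ← nsmul_eq_mul, ← Finset.card_univ]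
  refine (norm_sum_le _ _).trans (Finset.sum_le_card_nsmul _ _ _ fun k _ => ?_)
  rw [norm_mul]
  exact mul_le_mul (hA i k) (hB k j) (norm_nonneg _) ((norm_nonneg _).trans (hA i k))

theorem bd_pull {L T : ℝ} {J A : Mat ι} (hJ : Bd L J) (hA : Bd T A) :
    Bd ((Fintype.card ι * L) ^ 2 * T) (pull J A) := fun i j =>
  (bd_mul (bd_mul (A := Jᵀ) (fun i j => hJ j i) hA) (B := J.map star)
    (fun i j => (norm_star _).trans_le (hJ i j)) i j).trans (le_of_eq (by ring))

theorem psdLim {U : Set (V ι)} (hU : IsOpen U) {q : ℕ → V ι → Mat ι} {p : V ι → Mat ι}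
    {𝒰 : Filter ℕ} [𝒰.NeBot] (hp : ∀ i j, ContinuousOn (fun z => p z i j) U)
    (hc : ∀ n, ContinuousOn (fun z => tot (q n z - p z)) U) (hq : ∀ n, ∀ z ∈ U, (q n z).PosSemidef)
    (t : ∀ K, IsCompact K → K ⊆ U → Tendsto (fun n => ∫ z in K, tot (q n z - p z)) 𝒰 (𝓝 0)) :
    ∀ z ∈ U, (p z).PosSemidef := by
  have key : ∀ (F : V ι → ℝ) (C : ℝ), ContinuousOn F U →
      (∀ n, ∀ z ∈ U, F z ≤ C * tot (q n z - p z)) → ∀ z ∈ U, F z ≤ 0 := fun F C h1 h2 =>
    lim0 (ν := volume) (𝒰 := 𝒰) hU h1 fun K hK hKU => ⟨fun n z => C * tot (q n z - p z),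
      fun n => ⟨(((hc n).mono hKU).integrableOn_compact hK).const_mul C,
        fun z hz => h2 n z (hKU hz)⟩, by
          simpa only [integral_const_mul, mul_zero] using (t K hK hKU).const_mul C⟩
  intro z hz
  have h1 : (p z).IsHermitian := IsHermitian.ext fun i j => sub_eq_zero.1 (norm_le_zero_iff.1
    (key (fun w => ‖star (p w j i) - p w i j‖) 2 ((hp j i).star.sub (hp i j)).norm
      (fun n w hw => by
        have e : star (p w j i) - p w i j = (q n w - p w) i j - star ((q n w - p w) j i) := by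
          rw [Matrix.sub_apply, Matrix.sub_apply, star_sub, (hq n w hw).1.apply]
          ring
        rw [e]
        refine (norm_sub_le _ _).trans ?_
        rw [norm_star]
        linarith [bd_tot (q n w - p w) i j, bd_tot (q n w - p w) j i]) z hz))
  refine PosSemidef.of_dotProduct_mulVec_nonneg h1 fun x => Complex.nonneg_iff.2
    ⟨?_, (h1.im_star_dotProduct_mulVec_self x).symm⟩
  rw [← Mat.nv_eq, ← neg_nonpos]
  refine key (fun w => -nV (p w) (star x)) (Fintype.card ι ^ 2 * ‖star x‖ ^ 2) ?_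
    (fun n w hw => ?_) z hz
  · exact (continuous_re.comp_continuousOn (continuousOn_finsetSum _ fun i _ =>
      continuousOn_finsetSum _ fun j _ =>
        ((hp i j).mul continuousOn_const).mul continuousOn_const)).neg
  · have e1 := (Mat.nv_lin 1 (q n w) (p w) (star x)).2
    have e2 := (le_abs_self _).trans (Mat.nv_le (bd_tot (q n w - p w)) (star x))
    rw [ofReal_one, one_smul] at e1
    rw [abs_of_nonneg (tot_nonneg _)] at e2
    linarith [Mat.nv_mono (hq n w hw) (star x)]

variable [DecidableEq ι] {X : Type} [TopologicalSpace X] [MeasurableSpace X] {M : Atl ι X}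
  {g : X → Mat ι} {μ : Measure X} {e : Ch ι X}

omit [MeasurableSpace X] in
theorem cdet (hg : M.IsK g) (he : e ∈ M.A) :
    ContinuousOn (fun z => (M.repF g e z).det.re) e.target := fun _ hz =>
  (continuous_re.continuousAt.comp ((hg e he).1.1.det hz).continuousAt).continuousWithinAt

theorem tr1 [CompactSpace X] [BorelSpace X] (hv : VolA' M g μ) (hg : M.IsK g) (he : e ∈ M.A)
    {K : Set (V ι)} (hK : IsCompact K) (hKU : K ⊆ e.target) : ∃ C ≥ (0 : ℝ), ∀ f : X → ℝ,
      Continuous f → (∀ x, 0 ≤ f x) → ∫ z in K, f (e.symm z) ≤ C * ∫ x, f x ∂μ := by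
  obtain ⟨c, hc, h⟩ := hK.exists_forall_le' ((cdet hg he).mono hKU) (a := 0)
    fun z hz => (Mat.det' ((hg e he).2 z (hKU hz))).1
  refine ⟨c⁻¹, by positivity, fun f hf h0 => ?_⟩
  have := hv.fin
  have cf : ContinuousOn (fun z => f (e.symm z)) K :=
    hf.comp_continuousOn (e.continuousOn_symm.mono hKU)
  rw [le_inv_mul_iff₀ hc, ← integral_const_mul]
  refine le_trans ?_ (setIntegral_le_integral (s := e.source ∩ e ⁻¹' K)
    (hf.integrable_of_hasCompactSupport (HasCompactSupport.of_compactSpace f)) (ae_of_all _ h0))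
  rw [hv.intR e he K hK.measurableSet hKU]
  exact setIntegral_mono_on ((cf.integrableOn_compact hK).const_mul c)
    ((((cdet hg he).mono hKU).mul cf).integrableOn_compact hK) hK.measurableSet
    fun z hz => mul_le_mul_of_nonneg_right (h z hz) (h0 _)

theorem tr2 (hv : VolA' M g μ) (hg : M.IsK g) (he : e ∈ M.A) {ψ : ℕ → V ι → ℝ} {𝒰 : Filter ℕ}
    (hc : ∀ n, ContinuousOn (ψ n) e.target) (h0 : ∀ n z, 0 ≤ ψ n z)
    (t : ∀ S, IsCompact S → S ⊆ e.target → Tendsto (fun n => ∫ z in S, ψ n z) 𝒰 (𝓝 0))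
    {K : Set X} (hK : IsCompact K) (hKU : K ⊆ e.source) :
    Tendsto (fun n => ∫ x in K, ψ n (e x) ∂μ) 𝒰 (𝓝 0) := by
  have hS : IsCompact (e '' K) := hK.image_of_continuousOn (e.continuousOn.mono hKU)
  have hSU : e '' K ⊆ e.target := by
    rintro _ ⟨x, hx, rfl⟩
    exact e.map_source (hKU hx)
  have eK : e.source ∩ e ⁻¹' (e '' K) = K := Subset.antisymm
    (fun x ⟨h1, y, h2, h3⟩ => e.injOn (hKU h2) h1 h3 ▸ h2) fun x hx => ⟨hKU hx, x, hx, rfl⟩
  obtain ⟨C, hC⟩ := hS.exists_bound_of_continuousOn ((cdet hg he).mono hSU)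
  have t' := (t _ hS hSU).const_mul C
  rw [mul_zero] at t'
  refine squeeze_zero (fun n => integral_nonneg fun x => h0 n _) (fun n => ?_) t'
  have := hv.intR e he _ hS.measurableSet hSU fun x => ψ n (e x)
  rw [eK] at this
  rw [this, ← integral_const_mul]
  refine integral_mono_of_nonneg ((ae_restrict_iff' hS.measurableSet).2 (ae_of_all _ fun z hz =>
    mul_nonneg (Mat.det' ((hg e he).2 z (hSU hz))).1.le (h0 n _)))
    ((((hc n).mono hSU).integrableOn_compact hS).const_mul C)
    ((ae_restrict_iff' hS.measurableSet).2 (ae_of_all _ fun z hz => ?_))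
  change _ * ψ n (e (e.symm z)) ≤ _
  rw [e.right_inv (hSU hz)]
  exact mul_le_mul_of_nonneg_right ((le_abs_self _).trans (hC z hz)) (h0 n _)

end Par1

open Par1 in
theorem par1 (ha : RepA) (hb : RepB) (hv : VolS) (hl : ParLimS) (h2 : CL2S) (hc : RepC) :
    Par1S := by
  intro ι X _ _ _ _ _ _ _ M g μ h ε χ B 𝒰 hg hμ hh t1 t2 t3
  have A := ha ι X M
  have Bb := hb ι X M
  have C := hc ι X M
  have W := (hv ι X M g hg).2 μ hμ
  have := W.fin
  have := W.pos
  have ct : ∀ u, M.Ck ∞ u → Continuous u := fun u hu =>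
    A.cont u fun e he z hz => (hu e he z hz).of_le (by simp)
  have pg := ((A.isK_iff g).1 hg).2
  have ph := fun j => ((A.isK_iff _).1 (hh j).1).2
  set q : ℕ → X → Mat ι := fun j x => (ε j : ℂ) • (g x * (h j x)⁻¹ * g x) with hq
  have qe : ∀ j, ∀ e ∈ M.A, ∀ z ∈ e.target, M.repF (q j) e z =
      (ε j : ℂ) • (M.repF g e z * (M.repF (h j) e z)⁻¹ * M.repF g e z) := fun j e he z hz => by
    rw [← A.repF_mul g (h j) g e he z hz]
    simp only [Atl.repF, pull, hq, Matrix.mul_smul, Matrix.smul_mul]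
  have sq : ∀ j, ∀ e ∈ M.A, ∀ i k, ContinuousOn (fun z => M.repF (q j) e z i k) e.target :=
    fun j e he i k => (cont (SmM.smul (f := fun _ => (ε j : ℂ)) (fun _ _ => contDiffAt_const)
      (((hg e he).1.1.mul (((hh j).1 e he).1.1.inv fun z hz =>
        kdet (((hh j).1 e he).2 z hz))).mul (hg e he).1.1)) i k).congr
          fun z hz => congrFun₂ (qe j e he z hz) i k
  have ca : ∀ j, Continuous fun x => trm (g x) (h j x) := fun j =>
    ct _ (A.ck_trm g (h j) hg fun e he => ((hh j).1 e he).1.1)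
  have cχ : ∀ j, Continuous (χ j) := fun j => ct _ (hh j).2.2.2.2.1
  have c2 : ∀ j, Continuous (M.grad g (χ j) (χ j)) := fun j =>
    ct _ (Bb.ck_lap g _ _ hg (hh j).2.2.2.2.1 (hh j).2.2.2.2.1).2
  have c3 : ∀ j, Continuous fun x => χ j x * (ε j * M.clX g (h j) x) := fun j =>
    (cχ j).mul (continuous_const.mul (ct _ (C.ck g (h j) hg (hh j).1).1))
  have n3 : ∀ j x, 0 ≤ M.clX g (h j) x := fun j x => (C.cl g (h j) hg (hh j).1 x).2
  have ex : ∀ e : Ch ι X, ∃ p : V ι → Mat ι, e ∈ M.A → SmM p e.target ∧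
      (∀ z ∈ e.target, ∀ k, dM p k z = gam (M.repF g e) k z * p z) ∧
      ∀ K, IsCompact K → K ⊆ e.target → ∀ i k,
        Tendsto (fun j => ∫ z in K, ‖(M.repF (q j) e z - p z) i k‖) 𝒰 (𝓝 0) := by
    intro e
    by_cases he : e ∈ M.A
    swap
    · exact ⟨0, fun h => absurd h he⟩
    obtain ⟨p, p1, p2, p3⟩ := loc hl h2 e.open_target (H := fun j => M.repF (h j) e)
      (c := fun j z => χ j (e.symm z)) (a := fun j z => trm (g (e.symm z)) (h j (e.symm z)))
      (b := fun j z => M.grad g (χ j) (χ j) (e.symm z) +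
        χ j (e.symm z) * (ε j * M.clX g (h j) (e.symm z))) (ε := ε) (B := B) (𝒰 := 𝒰) (hg e he)
      (fun j => ⟨(hh j).1 e he, (hh j).2.1, (ca j).comp_continuousOn e.continuousOn_symm,
        ((c2 j).add (c3 j)).comp_continuousOn e.continuousOn_symm, fun z hz => by
          have hx := e.map_target hz
          have d := (hh j).2.2.2.2.1 e he z hz
          have e1 := A.trm_rep (h j) g e he _ hx
          have e2 := A.trm_rep g (h j) e he _ hx
          have e3 := C.cl_rep g (h j) hg (hh j).1 e he _ hx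
          have e4 := Bb.grad_rep g (χ j) (χ j) e he _ hx
          rw [e.right_inv hz] at e1 e2 e3 e4
          refine ⟨d, ((hh j).2.2.2.2.2 _).1, ((hh j).2.2.2.2.2 _).2, ?_, ?_, e2.symm, ?_⟩
          · rw [e1]
            exact (hh j).2.2.1 _
          · rw [e3]
            exact n3 j _
          · rw [e3]
            exact congrArg (·.re + _) (e4 (d.differentiableAt (by simp))
              (d.differentiableAt (by simp))).symm⟩)
      fun K hK hKU => by
        obtain ⟨c, c0, hc⟩ := tr1 W hg he hK hKU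
        have k1 : ∀ j x, 0 ≤ 1 - χ j x := fun j x => sub_nonneg.2 ((hh j).2.2.2.2.2 x).2
        have k2 : ∀ j x, 0 ≤ M.grad g (χ j) (χ j) x + χ j x * (ε j * M.clX g (h j) x) :=
          fun j x => add_nonneg (Bb.grad_nonneg g _ x (pg x))
            (mul_nonneg ((hh j).2.2.2.2.2 x).1 (mul_nonneg (hh j).2.1.le (n3 j x)))
        refine ⟨⟨c * B, fun j => (hc _ (ca j) fun x => Mat.trm_nonneg (pg x)
          (ph j x).posSemidef).trans (mul_le_mul_of_nonneg_left (hh j).2.2.2.1 c0)⟩,
          squeeze_zero (fun j => integral_nonneg fun z => k1 j _)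
            (fun j => hc (fun x => 1 - χ j x) (continuous_const.sub (cχ j)) (k1 j))
            (by simpa only [mul_zero] using t1.const_mul c),
          squeeze_zero (fun j => integral_nonneg fun z => k2 j _)
            (fun j => hc _ ((c2 j).add (c3 j)) (k2 j)) ?_⟩
        have := (t2.add t3).const_mul c
        rw [add_zero, mul_zero] at this
        exact this.congr fun j => congrArg _ (integral_add
          ((c2 j).integrable_of_hasCompactSupport (HasCompactSupport.of_compactSpace _))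
          ((c3 j).integrable_of_hasCompactSupport (HasCompactSupport.of_compactSpace _))).symm
    exact ⟨p, fun _ => ⟨p1, p2, fun K hK hKU i k => (p3 K hK hKU i k).congr fun j =>
      setIntegral_congr_fun hK.measurableSet fun z hz => by rw [qe j e he z (hKU hz)]⟩⟩
  choose F hF using ex
  have cF : ∀ e ∈ M.A, ∀ i k, ContinuousOn (fun z => F e z i k) e.target :=
    fun e he => cont (hF e he).1
  have cT : ∀ e ∈ M.A, ∀ j, ContinuousOn (fun z => tot (M.repF (q j) e z - F e z)) e.target :=
    fun e he j => cont_tot fun i k => (sq j e he i k).sub (cF e he i k)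
  have lT : ∀ e ∈ M.A, ∀ K, IsCompact K → K ⊆ e.target →
      Tendsto (fun j => ∫ z in K, tot (M.repF (q j) e z - F e z)) 𝒰 (𝓝 0) :=
    fun e he K hK hKU => lim_tot hK (fun j i k => ((sq j e he i k).sub (cF e he i k)).mono hKU)
      ((hF e he).2.2 K hK hKU)
  obtain ⟨p, hp⟩ := A.glue_form F fun e he e' he' x hx hx' => by
    have cJ : ∀ i k, ContinuousOn (fun y => tj e e' y i k) (e.source ∩ e'.source) := fun i k =>
      ContinuousOn.congr (f := fun y => tj e e' (e.symm (e y)) i k) (fun y hy =>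
        ((A.tj_an e he e' he' y hy.1 hy.2 i k).continuousAt.comp
          (e.continuousAt hy.1)).continuousWithinAt) fun y hy => by
            simp only [e.left_inv hy.1]
    have m1 : MapsTo e (e.source ∩ e'.source) e.target := fun y hy => e.map_source hy.1
    have m2 : MapsTo e' (e.source ∩ e'.source) e'.target := fun y hy => e'.map_source hy.2
    have u1 := e.continuousOn.mono (inter_subset_left (t := e'.source))
    have u2 := e'.continuousOn.mono (inter_subset_right (s := e.source))
    ext i k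
    refine sub_eq_zero.1 (norm_le_zero_iff.1 (lim0 (ν := μ) (𝒰 := 𝒰)
      (e.open_source.inter e'.open_source)
      (F := fun y => ‖F e (e y) i k - pull (tj e e' y) (F e' (e' y)) i k‖) ?_
      (fun K hK hKU => ?_) x ⟨hx, hx'⟩))
    · refine (((cF e he i k).comp u1 m1).sub ?_).norm
      simp only [pull, mul_apply, transpose_apply, map_apply]
      exact continuousOn_finsetSum _ fun a _ => (continuousOn_finsetSum _ fun b _ =>
        (cJ b i).mul ((cF e' he' b a).comp u2 m2)).mul (cJ a k).star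
    obtain ⟨L, -, hL⟩ := ex_bd hK fun i k => (cJ i k).mono hKU
    have i1 := fun j => (((cT e he j).comp u1 m1).mono hKU).integrableOn_compact (μ := μ) hK
    have i2 := fun j => (((cT e' he' j).comp u2 m2).mono hKU).integrableOn_compact (μ := μ) hK
    refine ⟨fun j y => tot (M.repF (q j) e (e y) - F e (e y)) +
      (Fintype.card ι * L) ^ 2 * tot (M.repF (q j) e' (e' y) - F e' (e' y)),
      fun j => ⟨(i1 j).add ((i2 j).const_mul _), fun y hy => ?_⟩, ?_⟩
    · have e1 : F e (e y) i k - pull (tj e e' y) (F e' (e' y)) i k =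
          pull (tj e e' y) (M.repF (q j) e' (e' y) - F e' (e' y)) i k -
            (M.repF (q j) e (e y) - F e (e y)) i k := by
        rw [A.repF_tr (q j) e he e' he' y (hKU hy).1 (hKU hy).2]
        simp only [pull, Matrix.mul_sub, Matrix.sub_mul, Matrix.sub_apply]
        ring
      rw [e1]
      exact (norm_sub_le _ _).trans ((add_le_add (bd_pull (hL y hy) (bd_tot _) i k)
        (bd_tot _ i k)).trans (add_comm _ _).le)
    · have := (tr2 W hg he (cT e he) (fun _ _ => tot_nonneg _) (lT e he) hK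
        fun y hy => (hKU hy).1).add ((tr2 W hg he' (cT e' he') (fun _ _ => tot_nonneg _)
          (lT e' he') hK fun y hy => (hKU hy).2).const_mul ((Fintype.card ι * L) ^ 2))
      rw [mul_zero, add_zero] at this
      refine this.congr fun j => ?_
      rw [← integral_const_mul]
      exact (integral_add (i1 j) ((i2 j).const_mul _)).symm
  have ev : ∀ e ∈ M.A, ∀ z ∈ e.target, M.repF p e =ᶠ[𝓝 z] F e := fun e he z hz =>
    (e.open_target.eventually_mem hz).mono (hp e he)
  refine ⟨p, fun e he z hz i k => ((hF e he).1 z hz i k).congr_of_eventuallyEq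
    ((ev e he z hz).mono fun _ h => congrFun₂ h i k), fun x => ?_, fun e he z hz k => ?_,
    fun e he K hK hKU i k => ((hF e he).2.2 K hK hKU i k).congr fun j =>
      setIntegral_congr_fun hK.measurableSet fun z hz => by rw [hp e he z (hKU hz)]⟩
  · have he := M.ch_mem x
    have hz := (M.ch x).map_source (M.mem x)
    rw [← A.repF_self p x, hp _ he _ hz]
    refine psdLim (M.ch x).open_target (𝒰 := 𝒰) (cF _ he) (cT _ he) (fun j z hz => ?_)
      (lT _ he) _ hz
    rw [qe j _ he z hz]
    exact (psd ((hg _ he).2 z hz) (((hh j).1 _ he).2 z hz)).smul (by exact_mod_cast (hh j).2.1.le)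
  · rw [dM_congr (ev e he z hz), (hF e he).2.1 z hz k, hp e he z hz]

end

end Pool.Agent.Lib.MP_813db1_ag.HS
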