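import Mathlib

/-! Averages over balls. -/

namespace Pool.Agent.Lib.MP_813db1_ag.HS.ParLim

open MeasureTheory Filter Topology Set Metric

variable {E F : Type} [NormedAddCommGroup E] [NormedSpace ℝ E] [FiniteDimensional ℝ E]
  [MeasurableSpace E] [BorelSpace E] [NormedAddCommGroup F] [NormedSpace ℝ F]
  (μ : Measure E) [μ.IsAddHaarMeasure] {r δ : ℝ} {x : E} {f : E → F} {C U : Set E}

/-- the average over a ball. -/
noncomputable def av (r : ℝ) (f : E → F) (x : E) : F :=
  (μ.real (ball 0 r))⁻¹ • ∫ z in ball x r, f z ∂μ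

omit [BorelSpace E] in
theorem vol_pos (hr : 0 < r) : 0 < μ.real (ball (0 : E) r) :=
  ENNReal.toReal_pos (measure_ball_pos μ 0 hr).ne' measure_ball_lt_top.ne

omit [NormedSpace ℝ E] [FiniteDimensional ℝ E] in
theorem vol_eq (x : E) (r : ℝ) : μ.real (ball x r) = μ.real (ball (0 : E) r) := by
  rw [measureReal_def, measureReal_def, Measure.addHaar_ball_center]

theorem av_le {M : ℝ} (hr : 0 < r) (h : ∀ z ∈ ball x r, ‖f z‖ ≤ M) : ‖av μ r f x‖ ≤ M := by
  have p := vol_pos μ hr
  rw [av, norm_smul, Real.norm_of_nonneg (inv_pos.2 p).le, inv_mul_le_iff₀ p, mul_comm,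
    ← vol_eq μ x]
  exact norm_setIntegral_le_of_norm_le_const measure_ball_lt_top h

omit [NormedSpace ℝ E] [FiniteDimensional ℝ E] in
theorem av_le_int (hC : IsCompact C) (hf : ContinuousOn f C) (h : ball x r ⊆ C) :
    ‖av μ r f x‖ ≤ (μ.real (ball 0 r))⁻¹ * ∫ z in C, ‖f z‖ ∂μ := by
  rw [av, norm_smul, Real.norm_of_nonneg (inv_nonneg.2 measureReal_nonneg)]
  exact mul_le_mul_of_nonneg_left ((norm_integral_le_integral_norm _).trans
    (setIntegral_mono_set (hf.norm.integrableOn_compact hC) (.of_forall fun _ => norm_nonneg _)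
      h.eventuallyLE)) (inv_nonneg.2 measureReal_nonneg)

omit [NormedSpace ℝ E] [FiniteDimensional ℝ E] in
theorem av_shift (f : E → F) (x : E) (r : ℝ) :
    ∫ z in ball x r, f z ∂μ = ∫ y in ball 0 r, f (x + y) ∂μ := by
  rw [← (measurePreserving_add_left μ x).setIntegral_preimage_emb (measurableEmbedding_addLeft x),
    preimage_add_ball, sub_self]

omit [NormedSpace ℝ F] in
theorem shift_cont (hf : ContinuousOn f C) (h : ∀ y ∈ closedBall (0 : E) r, x + y ∈ C) :
    IntegrableOn (fun y => f (x + y)) (ball 0 r) μ :=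
  ((hf.comp (continuous_const_add x).continuousOn h).integrableOn_compact
    (isCompact_closedBall 0 r)).mono_set ball_subset_closedBall

theorem av_deriv (hU : IsOpen U) (hf : ContDiffOn ℝ 1 f U) (h : closedBall x δ ⊆ U) (hr : r < δ) :
    HasFDerivAt (av μ r f) (av μ r (fderiv ℝ f) x) x := by
  have hD := hf.continuousOn_fderiv_of_isOpen hU le_rfl
  obtain ⟨M, hM⟩ := (isCompact_closedBall x δ).exists_bound_of_continuousOn (hD.mono h)
  have k : ∀ x' ∈ ball x (δ - r), ∀ y ∈ closedBall (0 : E) r, x' + y ∈ closedBall x δ :=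
    fun x' a y b => by
      have := dist_triangle (x' + y) x' x
      rw [dist_self_add_left] at this
      rw [mem_closedBall_zero_iff] at b
      exact mem_closedBall.2 (by linarith [mem_ball.1 a])
  have hs : ball x (δ - r) ∈ 𝓝 x := ball_mem_nhds x (sub_pos.2 hr)
  have := (hasFDerivAt_integral_of_dominated_of_fderiv_le (μ := μ.restrict (ball 0 r)) (𝕜 := ℝ)
    (F := fun x' y => f (x' + y)) (F' := fun x' y => fderiv ℝ f (x' + y)) (bound := fun _ => M) hs
    (eventually_of_mem hs fun x' a =>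
      (shift_cont μ (hf.continuousOn.mono h) (k x' a)).aestronglyMeasurable)
    (shift_cont μ (hf.continuousOn.mono h) (k x (mem_of_mem_nhds hs)))
    (shift_cont μ (hD.mono h) (k x (mem_of_mem_nhds hs))).aestronglyMeasurable
    (ae_restrict_of_forall_mem measurableSet_ball fun y b x' a =>
      hM _ (k x' a y (ball_subset_closedBall b)))
    (integrableOn_const measure_ball_lt_top.ne)
    (ae_restrict_of_forall_mem measurableSet_ball fun y b x' a =>
      (hasFDerivAt_comp_add_right y).2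
        ((hf.contDiffAt (hU.mem_nhds (h (k x' a y (ball_subset_closedBall b))))).differentiableAt
        one_ne_zero).hasFDerivAt)).const_smul (μ.real (ball (0 : E) r))⁻¹
  rw [av, av_shift, show av μ r f = _ from funext fun x' => by rw [av, av_shift]]
  exact this

theorem poin_one [CompleteSpace F] (hU : IsOpen U) (hf : ContDiffOn ℝ 1 f U) {K : Set E} (hK : IsCompact K)
    (h : cthickening δ K ⊆ U) {y : E} (hy : ‖y‖ ≤ δ) :
    ∫⁻ x in K, ‖f (x + y) - f x‖ₑ ∂μ ≤ ‖y‖ₑ * ∫⁻ z in cthickening δ K, ‖fderiv ℝ f z‖ₑ ∂μ := by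
  have k : ∀ x ∈ K, ∀ t ∈ Icc (0 : ℝ) 1, x + t • y ∈ cthickening δ K := fun x a t b =>
    mem_cthickening_of_dist_le _ x _ _ a (by
      rw [dist_self_add_left, norm_smul, Real.norm_of_nonneg b.1]
      nlinarith [norm_nonneg y, b.1, b.2])
  calc ∫⁻ x in K, ‖f (x + y) - f x‖ₑ ∂μ
      ≤ ∫⁻ x in K, (∫⁻ t in Icc (0 : ℝ) 1, ‖y‖ₑ * ‖fderiv ℝ f (x + t • y)‖ₑ) ∂μ := by
        refine setLIntegral_mono' hK.measurableSet fun x a => ?_
        have := enorm_sub_le_lintegral_deriv_of_contDiffOn_Icc (f := fun t : ℝ => f (x + t • y))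
          (hf.comp (by fun_prop) fun t b => h (k x a t b)) zero_le_one
        rw [one_smul, zero_smul, add_zero] at this
        refine this.trans (setLIntegral_mono' measurableSet_Icc fun t b => ?_)
        have d : HasDerivAt (fun t : ℝ => f (x + t • y)) (fderiv ℝ f (x + t • y) y) t :=
          ((hf.contDiffAt (hU.mem_nhds (h (k x a t b)))).differentiableAt
            one_ne_zero).hasFDerivAt.comp_hasDerivAt t
            (by simpa using ((hasDerivAt_id t).smul_const y).const_add x)
        rw [d.deriv, mul_comm]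
        exact ContinuousLinearMap.le_opENorm _ _
    _ = ∫⁻ t in Icc (0 : ℝ) 1, (∫⁻ x in K, ‖y‖ₑ * ‖fderiv ℝ f (x + t • y)‖ₑ ∂μ) :=
        lintegral_lintegral_swap (Measurable.aemeasurable (Measurable.const_mul
          ((measurable_fderiv ℝ f).comp (by fun_prop)).enorm _))
    _ ≤ ∫⁻ _ in Icc (0 : ℝ) 1, ‖y‖ₑ * ∫⁻ z in cthickening δ K, ‖fderiv ℝ f z‖ₑ ∂μ := by
        refine setLIntegral_mono' measurableSet_Icc fun t b => ?_
        rw [lintegral_const_mul' _ _ enorm_ne_top,
          ← (measurePreserving_add_right μ (t • y)).setLIntegral_comp_preimage_emb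
            (measurableEmbedding_addRight _) _ (cthickening δ K)]
        exact mul_le_mul_right (lintegral_mono_set fun x a => k x a t b) _
    _ = _ := by simp

theorem poin [CompleteSpace F] (hU : IsOpen U) (hf : ContDiffOn ℝ 1 f U) {K : Set E}
    (hK : IsCompact K) (h : cthickening δ K ⊆ U) (hr : 0 < r) (hδ : r < δ) :
    ∫ x in K, ‖f x - av μ r f x‖ ∂μ ≤ r * ∫ z in cthickening δ K, ‖fderiv ℝ f z‖ ∂μ := by
  have p := vol_pos μ hr
  have k : ∀ x ∈ K, ∀ y ∈ closedBall (0 : E) r, x + y ∈ U := fun x a y b =>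
    h (mem_cthickening_of_dist_le _ x _ _ a (by
      rw [dist_self_add_left]
      exact (mem_closedBall_zero_iff.1 b).trans hδ.le))
  have hK' : K ⊆ U := (self_subset_cthickening K).trans h
  have hD := (hf.continuousOn_fderiv_of_isOpen hU le_rfl).mono h
  have c : ContinuousOn (fun x => f x - av μ r f x) K := (hf.continuousOn.mono hK').sub fun x a =>
    (av_deriv μ hU hf ((closedBall_subset_cthickening a δ).trans h)
      hδ).continuousAt.continuousWithinAt
  rw [← ENNReal.ofReal_le_ofReal_iff (mul_nonneg hr.le (integral_nonneg fun _ => norm_nonneg _)),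
    ENNReal.ofReal_mul hr.le, ofReal_integral_norm_eq_lintegral_enorm (c.integrableOn_compact hK),
    ofReal_integral_norm_eq_lintegral_enorm (hD.integrableOn_compact hK.cthickening)]
  calc ∫⁻ x in K, ‖f x - av μ r f x‖ₑ ∂μ
      ≤ ∫⁻ x in K, (μ (ball 0 r))⁻¹ * (∫⁻ y in ball 0 r, ‖f (x + y) - f x‖ₑ ∂μ) ∂μ := by
        refine setLIntegral_mono' hK.measurableSet fun x a => ?_
        have e : av μ r f x - f x =
            (μ.real (ball (0 : E) r))⁻¹ • ∫ y in ball 0 r, (f (x + y) - f x) ∂μ := by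
          rw [integral_sub (shift_cont μ hf.continuousOn (k x a))
            (integrableOn_const measure_ball_lt_top.ne), setIntegral_const, smul_sub,
            inv_smul_smul₀ p.ne', av, av_shift]
        rw [enorm_sub_rev, e, enorm_smul, Real.enorm_of_nonneg (inv_pos.2 p).le,
          ENNReal.ofReal_inv_of_pos p, ofReal_measureReal measure_ball_lt_top.ne]
        exact mul_le_mul_right (enorm_integral_le_lintegral_enorm _) _
    _ = (μ (ball 0 r))⁻¹ * ∫⁻ y in ball 0 r, (∫⁻ x in K, ‖f (x + y) - f x‖ₑ ∂μ) ∂μ := by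
        rw [lintegral_const_mul' _ _ (ENNReal.inv_ne_top.2 (measure_ball_pos μ 0 hr).ne'),
          lintegral_lintegral_swap]
        rw [Measure.prod_restrict]
        exact (ContinuousOn.enorm ((hf.continuousOn.comp continuous_add.continuousOn fun z a =>
          k _ a.1 _ (ball_subset_closedBall a.2)).sub (hf.continuousOn.comp continuousOn_fst
          fun z a => hK' a.1))).aemeasurable (hK.measurableSet.prod measurableSet_ball)
    _ ≤ (μ (ball 0 r))⁻¹ * ∫⁻ _ in ball (0 : E) r,
          ENNReal.ofReal r * (∫⁻ z in cthickening δ K, ‖fderiv ℝ f z‖ₑ ∂μ) ∂μ := by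
        refine mul_le_mul_right (setLIntegral_mono' measurableSet_ball fun y b => ?_) _
        have b' := (mem_ball_zero_iff.1 b).le
        exact (poin_one μ hU hf hK h (b'.trans hδ.le)).trans
          (mul_le_mul_left (by rw [← ofReal_norm]; exact ENNReal.ofReal_le_ofReal b') _)
    _ = _ := by
        rw [setLIntegral_const, mul_comm, mul_assoc, ENNReal.mul_inv_cancel
          (measure_ball_pos μ 0 hr).ne' measure_ball_lt_top.ne, mul_one]

theorem av_err [CompleteSpace F] {Γ : E → E →L[ℝ] F →L[ℝ] F} {D : E → E →L[ℝ] F} {B η : ℝ}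
    (hC : IsCompact C) (hf : ContinuousOn f C) (hD : ContinuousOn D C) (hΓ : ContinuousOn Γ C)
    (hr : 0 < r) (h : ball x r ⊆ C) (hB : ∀ z ∈ C, ‖f z‖ ≤ B)
    (hη : ∀ z ∈ ball x r, ‖Γ z - Γ x‖ ≤ η) :
    ‖av μ r D x - (Γ x).flip (av μ r f x)‖ ≤
      (μ.real (ball 0 r))⁻¹ * (∫ z in C, ‖D z - (Γ z).flip (f z)‖ ∂μ) + η * B := by
  have c1 : ContinuousOn (fun z => (Γ z).flip (f z)) C :=
    ((ContinuousLinearMap.flipₗᵢ ℝ E F F).continuous.comp_continuousOn hΓ).clm_apply hf
  have c2 : ContinuousOn (fun z => (Γ x).flip (f z)) C := continuousOn_const.clm_apply hf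
  have i : ∀ {g : E → E →L[ℝ] F}, ContinuousOn g C → IntegrableOn g (ball x r) μ :=
    fun hg => (hg.integrableOn_compact hC).mono_set h
  have e : av μ r D x - (Γ x).flip (av μ r f x) = av μ r (fun z => D z - (Γ z).flip (f z)) x +
      av μ r (fun z => (Γ z).flip (f z) - (Γ x).flip (f z)) x := by
    rw [av, av, av, av, map_smul, ← (Γ x).flip.integral_comp_comm
      ((hf.integrableOn_compact hC).mono_set h), integral_sub (i hD) (i c1),
      integral_sub (i c1) (i c2), ← smul_add, ← smul_sub, sub_add_sub_cancel]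
  rw [e]
  refine (norm_add_le _ _).trans (add_le_add (av_le_int μ hC (hD.sub c1) h)
    (av_le μ hr fun z a => ?_))
  have : (Γ z).flip (f z) - (Γ x).flip (f z) = (Γ z - Γ x).flip (f z) := by ext; simp
  rw [this]
  exact (ContinuousLinearMap.le_opNorm _ _).trans (mul_le_mul
    ((ContinuousLinearMap.opNorm_flip _).trans_le (hη z a)) (hB z (h a)) (norm_nonneg _)
    ((norm_nonneg (Γ z - Γ x)).trans (hη z a)))

end Pool.Agent.Lib.MP_813db1_ag.HS.ParLim
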