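import Pool.Agent.Lib.MP_813db1_ag.HS.Stmt
import Pool.Agent.Lib.MP_813db1_ag.HS.ParLim_A

/-! Limits of almost parallel sections. -/

namespace Pool.Agent.Lib.MP_813db1_ag.HS

open MeasureTheory Filter Topology Set Metric
open scoped ContDiff

namespace ParLim

variable {E F : Type} [NormedAddCommGroup E] [NormedSpace ℝ E] [FiniteDimensional ℝ E]
  [MeasurableSpace E] [BorelSpace E] [NormedAddCommGroup F] [NormedSpace ℝ F]
  [FiniteDimensional ℝ F] (μ : Measure E) [μ.IsAddHaarMeasure] {U K : Set E}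
  {Γ : E → E →L[ℝ] F →L[ℝ] F} {s : ℕ → E → F} {l : Filter ℕ}

omit [FiniteDimensional ℝ E] [MeasurableSpace E] [BorelSpace E] [FiniteDimensional ℝ F] in
theorem flip_le (A : E →L[ℝ] F →L[ℝ] F) (y : F) : ‖A.flip y‖ ≤ ‖A‖ * ‖y‖ :=
  (A.flip.le_opNorm y).trans_eq (by rw [A.opNorm_flip])

omit [FiniteDimensional ℝ E] [MeasurableSpace E] [BorelSpace E] [FiniteDimensional ℝ F] in
theorem flip_cont {f : E → F} (hΓ : ContinuousOn Γ U) (hf : ContinuousOn f U) :
    ContinuousOn (fun z => (Γ z).flip (f z)) U :=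
  ((ContinuousLinearMap.flipₗᵢ ℝ E F F).continuous.comp_continuousOn hΓ).clm_apply hf

omit [FiniteDimensional ℝ F] in
theorem err_op {e : ℕ → E → E →L[ℝ] F} (hK : IsCompact K) (he : ∀ j, ContinuousOn (e j) K)
    (h : ∀ v, Tendsto (fun j => ∫ z in K, ‖e j z v‖ ∂μ) l (𝓝 0)) :
    Tendsto (fun j => ∫ z in K, ‖e j z‖ ∂μ) l (𝓝 0) := by
  obtain ⟨C, -, hC⟩ := (Module.finBasis ℝ E).exists_opNorm_le (F := F)
  have i : ∀ j v, IntegrableOn (fun z => ‖e j z v‖) K μ := fun j v =>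
    ((he j).clm_apply continuousOn_const).norm.integrableOn_compact hK
  have t := (tendsto_finsetSum Finset.univ fun k _ => h (Module.finBasis ℝ E k)).const_mul C
  rw [Finset.sum_const_zero, mul_zero] at t
  refine squeeze_zero (fun j => integral_nonneg fun _ => norm_nonneg _) (fun j => ?_) t
  rw [← integral_finsetSum _ fun k _ => i j _, ← integral_const_mul]
  exact integral_mono ((he j).norm.integrableOn_compact hK)
    ((integrable_finsetSum _ fun k _ => i j _).const_mul C) fun z =>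
    hC (Finset.sum_nonneg fun _ _ => norm_nonneg _) fun k =>
      Finset.single_le_sum (f := fun k => ‖e j z (Module.finBasis ℝ E k)‖)
        (fun _ _ => norm_nonneg _) (Finset.mem_univ k)

theorem est (hU : IsOpen U) (hΓ : ContinuousOn Γ U) (hs : ∀ j, ContDiffOn ℝ 1 (s j) U)
    (hB : ∀ K, IsCompact K → K ⊆ U → ∃ B, ∀ j, ∀ z ∈ K, ‖s j z‖ ≤ B)
    (he : ∀ K, IsCompact K → K ⊆ U →
      Tendsto (fun j => ∫ z in K, ‖fderiv ℝ (s j) z - (Γ z).flip (s j z)‖ ∂μ) l (𝓝 0))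
    (hK : IsCompact K) (h : K ⊆ U) : ∃ B, ∀ η > 0, ∀ᶠ a in (𝓝[>] (0 : ℝ)).curry l,
      (∀ x ∈ K, HasFDerivAt (av μ a.1 (s a.2)) (av μ a.1 (fderiv ℝ (s a.2)) x) x ∧
        ‖av μ a.1 (fderiv ℝ (s a.2)) x - (Γ x).flip (av μ a.1 (s a.2) x)‖ ≤ η ∧
        ‖av μ a.1 (s a.2) x‖ ≤ B) ∧ ∫ x in K, ‖s a.2 x - av μ a.1 (s a.2) x‖ ∂μ ≤ η := by
  obtain ⟨δ, hδ, hC⟩ := hK.exists_cthickening_subset_open hU h
  have cC : IsCompact (cthickening δ K) := hK.cthickening
  obtain ⟨B, hB⟩ := hB _ cC hC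
  obtain ⟨G, hG⟩ := cC.exists_bound_of_continuousOn (f := Γ) (hΓ.mono hC)
  refine ⟨B, fun η hη => eventually_curry_iff.2 ?_⟩
  obtain ⟨θ, hθ, hθ'⟩ : ∃ θ > 0, θ * B ≤ η / 2 := ⟨η / 2 / (|B| + 1), by positivity, by
    rw [div_mul_eq_mul_div, div_le_iff₀ (by positivity)]
    exact mul_le_mul_of_nonneg_left ((le_abs_self B).trans (by linarith)) (by positivity)⟩
  obtain ⟨ρ, hρ, hρ'⟩ := (Metric.uniformContinuousOn_iff (f := Γ)).1
    (cC.uniformContinuousOn_of_continuous (f := Γ) (hΓ.mono hC)) θ hθ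
  have t : Tendsto (fun r : ℝ => r * (1 + G * B * μ.real (cthickening δ K))) (𝓝[>] 0) (𝓝 0) :=
    tendsto_nhdsWithin_of_tendsto_nhds (Continuous.tendsto' (by fun_prop) _ _ (zero_mul _))
  filter_upwards [Ioo_mem_nhdsGT hδ, Ioo_mem_nhdsGT hρ, t.eventually_le_const hη] with r r1 r2 r3
  have t' := (he _ cC hC).const_mul (μ.real (ball (0 : E) r))⁻¹
  rw [mul_zero] at t'
  filter_upwards [t'.eventually_le_const (half_pos hη), (he _ cC hC).eventually_le_const one_pos]
    with j j1 j2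
  have c1 := (hs j).continuousOn.mono hC
  have c2 := ((hs j).continuousOn_fderiv_of_isOpen hU le_rfl).mono hC
  have c3 := flip_cont (hΓ.mono hC) c1
  refine ⟨fun x a => ?_, (poin μ hU (hs j) hK hC r1.1 r1.2).trans
    ((mul_le_mul_of_nonneg_left ?_ r1.1.le).trans r3)⟩
  · have b := closedBall_subset_cthickening a δ
    have b' : ball x r ⊆ cthickening δ K :=
      (ball_subset_closedBall.trans (closedBall_subset_closedBall r1.2.le)).trans b
    refine ⟨av_deriv μ hU (hs j) (b.trans hC) r1.2, (av_err μ cC c1 c2 (hΓ.mono hC) r1.1 b' (hB j)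
      (η := θ) fun z hz => ?_).trans (by linarith), av_le μ r1.1 fun z hz => hB j z (b' hz)⟩
    exact (dist_eq_norm (Γ z) (Γ x)).symm.trans_le
      (hρ' z (b' hz) x (self_subset_cthickening K a) ((mem_ball.1 hz).trans r2.2)).le
  · have i := (c2.sub c3).norm.integrableOn_compact (μ := μ) cC
    have i' : IntegrableOn (fun _ => G * B) (cthickening δ K) μ := integrableOn_const cC.measure_ne_top
    refine (setIntegral_mono_on (c2.norm.integrableOn_compact cC) (i.add i') cC.measurableSet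
      fun z hz => ?_).trans ?_
    · exact (norm_le_norm_sub_add _ _).trans (add_le_add_right ((flip_le _ _).trans
        (mul_le_mul (hG z hz) (hB j z hz) (norm_nonneg _) ((norm_nonneg (Γ z)).trans (hG z hz)))) _)
    · refine (integral_add i i').trans_le ?_
      rw [setIntegral_const, smul_eq_mul, mul_comm]
      exact add_le_add_left j2 _

theorem main (𝒰 : Ultrafilter ℕ) (hU : IsOpen U) (hΓ : ContDiffOn ℝ ∞ Γ U)
    (hs : ∀ j, ContDiffOn ℝ 1 (s j) U)
    (hB : ∀ K, IsCompact K → K ⊆ U → ∃ B, ∀ j, ∀ z ∈ K, ‖s j z‖ ≤ B)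
    (he : ∀ K, IsCompact K → K ⊆ U → ∀ v,
      Tendsto (fun j => ∫ z in K, ‖fderiv ℝ (s j) z v - Γ z v (s j z)‖ ∂μ) 𝒰 (𝓝 0)) :
    ∃ p : E → F, ContDiffOn ℝ ∞ p U ∧ (∀ z ∈ U, ∀ v, fderiv ℝ p z v = Γ z v (p z)) ∧
      ∀ K, IsCompact K → K ⊆ U → Tendsto (fun j => ∫ z in K, ‖s j z - p z‖ ∂μ) 𝒰 (𝓝 0) := by
  have cΓ := hΓ.continuousOn
  have hne : ((𝓝[>] (0 : ℝ)).curry (𝒰 : Filter ℕ)).NeBot := ⟨fun e => by
    have : ∀ᶠ _ in (𝓝[>] (0 : ℝ)).curry (𝒰 : Filter ℕ), False := by rw [e]; exact eventually_bot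
    exact (eventually_curry_iff.1 this).exists.elim fun _ k => k.exists.elim fun _ k => k⟩
  obtain ⟨𝒱, h𝒱⟩ := Ultrafilter.exists_le ((𝓝[>] (0 : ℝ)).curry (𝒰 : Filter ℕ))
  have H := fun K hK h => (est μ (K := K) hU cΓ hs hB (fun K hK h => err_op μ hK (fun j =>
    (((hs j).continuousOn_fderiv_of_isOpen hU le_rfl).sub
      (flip_cont cΓ (hs j).continuousOn)).mono h) (he K hK h)) hK h).imp
    fun B k η hη => h𝒱 (k η hη)
  have ex : ∀ x ∈ U, ∃ y, Tendsto (fun a : ℝ × ℕ => av μ a.1 (s a.2) x) 𝒱 (𝓝 y) := fun x a => by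
    obtain ⟨B, k⟩ := H {x} isCompact_singleton (singleton_subset_iff.2 a)
    obtain ⟨y, -, e⟩ := (isCompact_closedBall (0 : F) B).ultrafilter_le_nhds
      (𝒱.map fun a : ℝ × ℕ => av μ a.1 (s a.2) x) (le_principal_iff.2 (mem_map.2
        (mem_of_superset (k 1 one_pos) fun _ b => mem_closedBall_zero_iff.2 (b.1 x rfl).2.2)))
    exact ⟨y, e⟩
  choose! p hp using ex
  have loc : ∀ x ∈ U, (∀ η > 0, ∀ᶠ n : (ℝ × ℕ) × E in ↑𝒱 ×ˢ 𝓝 x,
      dist (p n.2) (av μ n.1.1 (s n.1.2) n.2) < η) ∧ HasFDerivAt p ((Γ x).flip (p x)) x :=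
    fun x a => by
    obtain ⟨δ, hδ, h⟩ := nhds_basis_closedBall.mem_iff.1 (hU.mem_nhds a)
    obtain ⟨B, k⟩ := H _ (isCompact_closedBall x δ) h
    obtain ⟨G, hG⟩ := (isCompact_closedBall x δ).exists_bound_of_continuousOn (f := Γ) (cΓ.mono h)
    have G0 := (norm_nonneg (Γ x)).trans (hG x (mem_closedBall_self hδ.le))
    have n := closedBall_mem_nhds x hδ
    have lip : ∀ᶠ b : ℝ × ℕ in 𝒱, ∀ y ∈ closedBall x δ,
        ‖av μ b.1 (s b.2) y - av μ b.1 (s b.2) x‖ ≤ (1 + G * B) * ‖y - x‖ :=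
      mem_of_superset (k 1 one_pos) fun b hb y hy =>
        (convex_closedBall x δ).norm_image_sub_le_of_norm_hasFDerivWithin_le
          (fun z hz => (hb.1 z hz).1.hasFDerivWithinAt) (fun z hz => (norm_le_norm_sub_add _ _).trans
            (add_le_add (hb.1 z hz).2.1 ((flip_le _ _).trans
              (mul_le_mul (hG z hz) (hb.1 z hz).2.2 (norm_nonneg _) G0))))
          (mem_closedBall_self hδ.le) hy
    have u : ∀ η > 0, ∀ᶠ n : (ℝ × ℕ) × E in ↑𝒱 ×ˢ 𝓝 x,
        dist (p n.2) (av μ n.1.1 (s n.1.2) n.2) < η := fun η hη => by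
      have t : Tendsto (fun y => (1 + G * B) * ‖y - x‖) (𝓝 x) (𝓝 0) :=
        Continuous.tendsto' (by fun_prop) _ _ (by simp)
      have η3 : 0 < η / 3 := by positivity
      filter_upwards [(lip.and (Metric.tendsto_nhds.1 (hp x a) _ η3)).prod_mk
        ((t.eventually_lt_const η3).and n)] with b hb
      have e1 := hb.1.1 _ hb.2.2
      have e2 := le_of_tendsto ((hp _ (h hb.2.2)).sub (hp x a)).norm (lip.mono fun c hc => hc _ hb.2.2)
      have e3 := dist_triangle4 (p b.2) (p x) (av μ b.1.1 (s b.1.2) x) (av μ b.1.1 (s b.1.2) b.2)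
      rw [← dist_eq_norm] at e1 e2
      rw [dist_comm (p x), dist_comm (av μ b.1.1 (s b.1.2) x) (av μ b.1.1 (s b.1.2) b.2)] at e3
      linarith [hb.1.2, hb.2.1]
    refine ⟨u, hasFDerivAt_of_tendstoUniformlyOnFilter (l := 𝒱)
      (f := fun b : ℝ × ℕ => av μ b.1 (s b.2)) (f' := fun b => av μ b.1 (fderiv ℝ (s b.2)))
      (g' := fun y => (Γ y).flip (p y)) (Metric.tendstoUniformlyOnFilter_iff.2 fun η hη => ?_)
      ((Eventually.prod_mk (k 1 one_pos) n).mono fun b hb => (hb.1.1 _ hb.2).1)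
      (eventually_of_mem (hU.mem_nhds a) hp)⟩
    filter_upwards [Eventually.prod_mk (k _ (half_pos hη)) n, u (η / 2 / (G + 1)) (by positivity)]
      with b hb hb'
    refine (dist_triangle _ ((Γ b.2).flip (av μ b.1.1 (s b.1.2) b.2)) _).trans_lt ?_
    rw [dist_eq_norm, dist_comm, dist_eq_norm, ← map_sub]
    have e1 := flip_le (Γ b.2) (p b.2 - av μ b.1.1 (s b.1.2) b.2)
    rw [dist_eq_norm, lt_div_iff₀ (by positivity)] at hb'
    have e2 := mul_le_mul_of_nonneg_right (hG _ hb.2)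
      (norm_nonneg (p b.2 - av μ b.1.1 (s b.1.2) b.2))
    nlinarith [(hb.1.1 _ hb.2).2.1, norm_nonneg (p b.2 - av μ b.1.1 (s b.1.2) b.2)]
  have dp : DifferentiableOn ℝ p U := fun x a => (loc x a).2.differentiableAt.differentiableWithinAt
  refine ⟨p, contDiffOn_infty.2 fun n => ?_, fun z a v => by rw [(loc z a).2.fderiv]; rfl,
    fun K hK h => ?_⟩
  · induction n with
    | zero => exact contDiffOn_zero.2 dp.continuousOn
    | succ n ih =>
      rw [Nat.cast_succ]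
      refine (contDiffOn_succ_iff_fderiv_of_isOpen hU).2 ⟨dp, fun e => absurd e (by simp), ?_⟩
      have c : ContDiffOn ℝ n (fun x => (Γ x).flip) U :=
        contDiffOn_clm_apply.2 fun y => contDiffOn_clm_apply.2 fun v =>
          ((contDiffOn_infty.1 hΓ n).clm_apply contDiffOn_const).clm_apply contDiffOn_const
      exact (c.clm_apply ih).congr fun x a => (loc x a).2.fderiv
  have tu : TendstoUniformlyOn (fun b : ℝ × ℕ => av μ b.1 (s b.2)) p 𝒱 K :=
    (tendstoLocallyUniformlyOn_iff_tendstoUniformlyOn_of_compact hK).1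
      (tendstoLocallyUniformlyOn_iff_filter.2 fun x a =>
        (Metric.tendstoUniformlyOnFilter_iff.2 (loc x (h a)).1).mono_right nhdsWithin_le_nhds)
  obtain ⟨B, k⟩ := H K hK h
  have e : (𝒰 : Filter ℕ) = map Prod.snd (𝒱 : Filter (ℝ × ℕ)) := (𝒰.unique fun A hA =>
    h𝒱 ((eventually_curry_iff (p := fun a => a.2 ∈ A)).2 (.of_forall fun _ => hA))).symm
  rw [e, tendsto_map'_iff]
  refine Metric.tendsto_nhds.2 fun η hη => ?_
  have m : 0 ≤ μ.real K := measureReal_nonneg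
  filter_upwards [k _ (half_pos hη), Metric.tendstoUniformlyOn_iff.1 tu (η / 2 / (μ.real K + 1))
    (by positivity)] with b hb hb'
  have c1 := (hs b.2).continuousOn.mono h
  have c2 : ContinuousOn (av μ b.1 (s b.2)) K := fun x a => (hb.1 x a).1.continuousAt.continuousWithinAt
  have i := (c1.sub c2).norm.integrableOn_compact (μ := μ) hK
  have i' : IntegrableOn (fun _ => η / 2 / (μ.real K + 1)) K μ := integrableOn_const hK.measure_ne_top
  rw [Real.dist_0_eq_abs, Function.comp_apply, abs_of_nonneg (integral_nonneg fun _ => norm_nonneg _)]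
  refine (setIntegral_mono_on ((c1.sub (dp.continuousOn.mono h)).norm.integrableOn_compact hK)
    (i.add i') hK.measurableSet fun z hz => ?_).trans_lt ?_
  · refine (norm_sub_le_norm_sub_add_norm_sub _ _ _).trans (add_le_add_right ?_ _)
    rw [← dist_eq_norm, dist_comm]
    exact (hb' z hz).le
  · refine (integral_add i i').trans_lt ?_
    rw [setIntegral_const, smul_eq_mul]
    have : μ.real K * (η / 2 / (μ.real K + 1)) < η / 2 := by
      rw [← mul_div_assoc, div_lt_iff₀ (by positivity)]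
      nlinarith
    exact (add_lt_add_of_le_of_lt hb.2 this).trans_eq (add_halves η)

end ParLim

theorem parLim : ParLimS := fun _ _ _ _ _ _ _ _ 𝒰 => ParLim.main volume 𝒰

end Pool.Agent.Lib.MP_813db1_ag.HS
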