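import Pool.Agent.Lib.MP_813db1_ag.HS.Stmt

/-! Limits of a positive polynomial at the origin. -/

set_option autoImplicit false

namespace Pool.Agent.Lib.MP_813db1_ag.HS

open Filter Topology Set Polynomial

namespace Poly

theorem eul (m : ℕ) (q : ℝ[X]) :
    X * derivative (X ^ m * q) = X ^ m * (C (m : ℝ) * q + X * derivative q) := by
  rcases m with _ | m
  · simp
  · rw [derivative_mul, derivative_X_pow, Nat.add_sub_cancel]
    ring

theorem lim (q : ℝ[X]) : Tendsto (fun s => q.eval s) (𝓝[>] 0) (𝓝 (q.eval 0)) :=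
  (q.continuous.tendsto 0).mono_left nhdsWithin_le_nhds

theorem ratio (m : ℕ) (q q1 : ℝ[X]) (h : q.eval 0 ≠ 0) (f : ℝ → ℝ) (c : ℝ)
    (hf : ∀ s, f s = (X ^ m * q1).eval s) (hc : q1.eval 0 = c * q.eval 0) :
    Tendsto (fun s => f s / (X ^ m * q).eval s) (𝓝[>] 0) (𝓝 c) := by
  have := (lim q1).div (lim q) h
  rw [hc, mul_div_cancel_right₀ _ h] at this
  refine this.congr' (eventually_nhdsWithin_of_forall fun s hs => ?_)
  have : s ^ m ≠ 0 := pow_ne_zero _ (ne_of_gt hs)
  simp only [Pi.div_apply, hf, eval_mul, eval_pow, eval_X]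
  rw [mul_div_mul_left _ _ this]

end Poly

theorem poly : PolyS := by
  intro p hp
  have p0 : p ≠ 0 := fun e => by simpa [e] using hp 1 one_pos
  have c0 : p.coeff p.natTrailingDegree ≠ 0 := coeff_natTrailingDegree_ne_zero.2 p0
  obtain ⟨q, e⟩ : X ^ p.natTrailingDegree ∣ p :=
    X_pow_dvd_iff.2 fun d hd => coeff_eq_zero_of_lt_natTrailingDegree hd
  generalize p.natTrailingDegree = m at *
  subst e
  have e0 : (X ^ m * q).coeff m = q.eval 0 := by
    rw [coeff_X_pow_mul', if_pos le_rfl, Nat.sub_self, coeff_zero_eq_eval_zero]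
  rw [e0] at c0 ⊢
  have l1 : Tendsto (fun s => (X ^ m * q).eval s / s ^ m) (𝓝[>] 0) (𝓝 (q.eval 0)) := by
    refine (Poly.lim q).congr' (eventually_nhdsWithin_of_forall fun s hs => ?_)
    have : s ^ m ≠ 0 := pow_ne_zero _ (ne_of_gt hs)
    simp only [eval_mul, eval_pow, eval_X]
    rw [mul_div_cancel_left₀ _ this]
  refine ⟨lt_of_le_of_ne (ge_of_tendsto l1 (eventually_nhdsWithin_of_forall fun s hs =>
    (div_pos (hp s hs) (pow_pos hs m)).le)) c0.symm, l1, ?_, ?_, fun t _ => ?_⟩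
  · refine Poly.ratio m q (C (m : ℝ) * q + X * derivative q) c0 _ _ (fun s => ?_) (by simp)
    rw [← Poly.eul, eval_mul, eval_X]
  · refine Poly.ratio m q (C (m : ℝ) * (C (m : ℝ) * q + X * derivative q) +
      X * derivative (C (m : ℝ) * q + X * derivative q) - (C (m : ℝ) * q + X * derivative q)) c0 _ _
      (fun s => ?_) (by simp; ring)
    rw [mul_sub, ← Poly.eul, ← Poly.eul]
    generalize derivative (X ^ m * q) = r
    simp
    ring
  · refine Poly.ratio m q (C ((1 + t) ^ m) * q.comp (C (1 + t) * X)) c0 _ _ (fun s => ?_) (by simp)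
    simp [mul_pow]
    ring

end Pool.Agent.Lib.MP_813db1_ag.HS
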