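import Pool.Agent.Lib.MP_813db1_ag.HS.Stmt
import Pool.Agent.Lib.MP_caab05_ag.GB.Osg

/-! Product coordinates from a parallel unitary frame. -/

namespace Pool.Agent.Lib.MP_813db1_ag.HS

open Complex Matrix Filter Topology Set Metric
open scoped ContDiff ComplexOrder

noncomputable section

namespace ProdLoc

variable {ι : Type} [Fintype ι] [DecidableEq ι]

theorem decomp (T : V ι →L[ℝ] ℂ) (v : V ι) :
    T v = ∑ m, ((T (Pi.single m 1) - I * T (Pi.single m I)) / 2 * v m +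
      (T (Pi.single m 1) + I * T (Pi.single m I)) / 2 * star (v m)) := by
  have hv : v = ∑ m, ((v m).re • (Pi.single m 1 : V ι) + (v m).im • (Pi.single m I : V ι)) := by
    ext j
    simp only [Finset.sum_apply, Pi.add_apply, Pi.smul_apply, Pi.single_apply]
    rw [Finset.sum_eq_single j]
    · simp
    · intro b _ hb
      simp [Ne.symm hb]
    · simp
  conv_lhs => rw [hv, map_sum]
  refine Finset.sum_congr rfl fun m _ => ?_
  rw [map_add, map_smul, map_smul, real_smul, real_smul]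
  have h1 : v m = (v m).re + (v m).im * I := (re_add_im _).symm
  have h2 : star (v m) = (v m).re - (v m).im * I := by
    apply Complex.ext <;> simp
  rw [h2]
  generalize ((v m).re : ℂ) = a at *
  generalize ((v m).im : ℂ) = b at *
  rw [h1]
  linear_combination (b * T (Pi.single m I)) * I_mul_I

theorem cdecomp {W : Type} [NormedAddCommGroup W] [NormedSpace ℂ W] (T : V ι →L[ℂ] W)
    (v : V ι) : T v = ∑ m, v m • T (Pi.single m 1) := by
  have hv : v = ∑ m, v m • (Pi.single m 1 : V ι) := by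
    ext j
    simp [Finset.sum_apply, Pi.single_apply]
  conv_lhs => rw [hv, map_sum]
  simp only [map_smul]

theorem dzb_herm {G : V ι → Mat ι} {z : V ι} (h : ∀ᶠ w in 𝓝 z, (G w).IsHermitian) (k l m : ι) :
    dzb (fun w => G w k l) m z = star (dz (fun w => G w l k) m z) := by
  have e : (fun w => G w k l) =ᶠ[𝓝 z] fun w => star (G w l k) :=
    h.mono fun w hw => (hw.apply k l).symm
  unfold dzb dz
  rw [e.fderiv_eq, fderiv_star]
  simp

/-- the covector dual to `e`. -/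
def al (G : V ι → Mat ι) (e : V ι → V ι) (k : ι) (z : V ι) : ℂ := ∑ l, G z k l * star (e z l)

omit [DecidableEq ι] in
theorem ipV_eq (G : V ι → Mat ι) (e : V ι → V ι) (z v : V ι) :
    ipV (G z) v (e z) = ∑ k, v k * al G e k z := by
  unfold ipV al
  refine Finset.sum_congr rfl fun k _ => ?_
  rw [Finset.mul_sum]
  exact Finset.sum_congr rfl fun l _ => by ring

theorem al_deriv {G : V ι → Mat ι} {U : Set (V ι)} {z : V ι} {e : V ι → V ι} (hU : IsOpen U)
    (hG : KOn G U) (hz : z ∈ U) (he : DifferentiableAt ℂ e z)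
    (hp : ∀ k, fderiv ℂ e z (Pi.single k 1) + e z ᵥ* gam G k z = 0) (k : ι) :
    ∃ D : V ι →L[ℂ] ℂ, HasFDerivAt (al G e k) D z ∧
      ∀ m, D (Pi.single m 1) = ∑ l, dz (fun w => G w k l) m z * star (e z l) := by
  set c : ι → ℂ := fun m => ∑ l, dz (fun w => G w k l) m z * star (e z l) with hc
  have hH : ∀ᶠ w in 𝓝 z, (G w).IsHermitian :=
    Filter.eventually_of_mem (hU.mem_nhds hz) fun w hw => hG.1.2.1 w hw
  have hdet : IsUnit (G z).det := (Matrix.isUnit_iff_isUnit_det _).1 (hG.2 z hz).isUnit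
  refine ⟨∑ m, c m • ContinuousLinearMap.proj m, ?_, fun m => ?_⟩
  swap
  · simp [Pi.single_apply, hc]
  have hg : ∀ l, HasFDerivAt (fun w => G w k l) (fderiv ℝ (fun w => G w k l) z) z := fun l =>
    ((hG.1.1 z hz k l).differentiableAt (by simp)).hasFDerivAt
  have he' : ∀ l, HasFDerivAt (fun w => e w l)
      (((ContinuousLinearMap.proj l : V ι →L[ℂ] ℂ) ∘L fderiv ℂ e z).restrictScalars ℝ) z := fun l =>
    ((ContinuousLinearMap.proj l : V ι →L[ℂ] ℂ).hasFDerivAt.comp z he.hasFDerivAt).restrictScalars ℝ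
  have h1 := HasFDerivAt.fun_sum (u := Finset.univ) fun l _ => (hg l).mul (he' l).star
  refine hasFDerivAt_of_restrictScalars ℝ h1 ?_
  ext1 v
  have key : ∀ m, ∑ l, fderiv ℂ e z (Pi.single m 1) l * G z l k =
      -∑ l, e z l * dz (fun w => G w l k) m z := by
    intro m
    have h2 : fderiv ℂ e z (Pi.single m 1) = -(e z ᵥ* gam G m z) := eq_neg_of_add_eq_zero_left (hp m)
    have h3 : fderiv ℂ e z (Pi.single m 1) ᵥ* G z = -(e z ᵥ* dM G m z) := by
      rw [h2, Matrix.neg_vecMul, Matrix.vecMul_vecMul, gam, Matrix.mul_assoc,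
        Matrix.nonsing_inv_mul _ hdet, Matrix.mul_one]
    have h4 := congrFun h3 k
    simpa [Matrix.vecMul, dotProduct, dM] using h4
  have hv : ∀ l, fderiv ℝ (fun w => G w k l) z v = ∑ m, (dz (fun w => G w k l) m z * v m +
      star (dz (fun w => G w l k) m z) * star (v m)) := by
    intro l
    rw [decomp]
    refine Finset.sum_congr rfl fun m _ => ?_
    rw [← dzb_herm hH]
    rfl
  have hw : ∑ l, G z k l * star (fderiv ℂ e z v l) =
      -∑ m, ∑ l, star (e z l) * (star (dz (fun w => G w l k) m z) * star (v m)) := by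
    have h5 : ∑ l, G z k l * star (fderiv ℂ e z v l) =
        star (∑ m, v m * ∑ l, fderiv ℂ e z (Pi.single m 1) l * G z l k) := by
      simp only [Finset.mul_sum]
      rw [Finset.sum_comm, star_sum]
      refine Finset.sum_congr rfl fun l _ => ?_
      rw [cdecomp (fderiv ℂ e z) v, ← (hG.1.2.1 z hz).apply k l, ← star_mul']
      congr 1
      simp only [Finset.sum_apply, Pi.smul_apply, smul_eq_mul, Finset.mul_sum]
      exact Finset.sum_congr rfl fun m _ => by ring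
    rw [h5]
    simp only [key, star_sum, star_mul', star_neg, mul_neg, Finset.sum_neg_distrib, Finset.mul_sum]
    congr 1
    exact Finset.sum_congr rfl fun m _ => Finset.sum_congr rfl fun l _ => by ring
  have hl : ((∑ m, c m • ContinuousLinearMap.proj m : V ι →L[ℂ] ℂ).restrictScalars ℝ) v =
      ∑ m, c m * v m := by simp
  rw [hl]
  simp only [_root_.sum_apply, _root_.add_apply, _root_.smul_apply,
    ContinuousLinearMap.comp_apply, smul_eq_mul, Finset.sum_add_distrib]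
  have h6 : ∀ l, ((starL' ℝ : ℂ ≃L[ℝ] ℂ) : ℂ →L[ℝ] ℂ)
      ((((ContinuousLinearMap.proj l : V ι →L[ℂ] ℂ) ∘L fderiv ℂ e z).restrictScalars ℝ) v) =
      star (fderiv ℂ e z v l) := fun l => rfl
  simp only [h6, hw, hv, Finset.mul_sum, mul_add, Finset.sum_add_distrib, hc, Finset.sum_mul]
  rw [Finset.sum_comm (f := fun l m => star (e z l) * (star (dz (fun w => G w l k) m z) * star (v m))),
    Finset.sum_comm (f := fun l m => star (e z l) * (dz (fun w => G w k l) m z * v m))]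
  have h7 : ∑ m, ∑ l, dz (fun w => G w k l) m z * star (e z l) * v m =
      ∑ m, ∑ l, star (e z l) * (dz (fun w => G w k l) m z * v m) :=
    Finset.sum_congr rfl fun m _ => Finset.sum_congr rfl fun l _ => by ring
  rw [h7]
  ring

theorem comm {G : V ι → Mat ι} {z : V ι} (D : V ι →L[ℂ] V ι) (x y : V ι) (hp : ∀ k, D (Pi.single k 1) + x ᵥ* gam G k z = 0) :
    D y = fun m => -∑ q, (∑ k, ∑ n, y k * x n * dz (fun w => G w n q) k z) * (G z)⁻¹ q m := by
  rw [cdecomp D y]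
  ext m
  have h : ∀ k, D (Pi.single k 1) = -(x ᵥ* gam G k z) := fun k => eq_neg_of_add_eq_zero_left (hp k)
  simp only [h, Finset.sum_apply, Pi.smul_apply, Pi.neg_apply, smul_eq_mul, Matrix.vecMul,
    dotProduct, gam, Matrix.mul_apply, dM, Matrix.of_apply, Finset.mul_sum, Finset.sum_mul, mul_neg,
    Finset.sum_neg_distrib]
  congr 1
  symm
  rw [Finset.sum_comm]
  refine Finset.sum_congr rfl fun k _ => ?_
  rw [Finset.sum_comm]
  exact Finset.sum_congr rfl fun n _ => Finset.sum_congr rfl fun q _ => by ring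

variable {σ : Type} [Fintype σ] [DecidableEq σ]

omit [DecidableEq σ] in
theorem pot (hf : FrobS) (A : ι → V ι → V σ) (z0 : V ι) (hA : ∀ k, AnalyticAt ℂ (A k) z0)
    (hs : ∀ᶠ z in 𝓝 z0, ∀ k m,
      fderiv ℂ (A k) z (Pi.single m 1) = fderiv ℂ (A m) z (Pi.single k 1)) :
    ∃ Z : V ι → V σ, AnalyticAt ℂ Z z0 ∧ Z z0 = 0 ∧
      ∀ᶠ z in 𝓝 z0, ∀ k, fderiv ℂ Z z (Pi.single k 1) = A k z := by
  have ha : ∀ p : V ι × V σ, HasFDerivAt (fun p : V ι × V σ => z0 + p.1)
      (ContinuousLinearMap.fst ℂ (V ι) (V σ)) p := fun p => hasFDerivAt_fst.const_add z0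
  have ht : Tendsto (fun p : V ι × V σ => z0 + p.1) (𝓝 (0, 0)) (𝓝 z0) := by
    simpa using (ha (0, 0)).continuousAt.tendsto
  have hd : ∀ᶠ z in 𝓝 z0, ∀ k, DifferentiableAt ℂ (A k) z :=
    eventually_all.2 fun k => (hA k).eventually_analyticAt.mono fun z hz => hz.differentiableAt
  obtain ⟨Ψ, hΨ, hP⟩ := hf ι σ (fun k p => A k (z0 + p.1)) 0
    (fun k => AnalyticAt.comp_of_eq (hA k) (analyticAt_const.add analyticAt_fst) (by simp))
    (by
      filter_upwards [ht.eventually hs, ht.eventually hd] with p h1 h2 i j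
      have e : ∀ k, fderiv ℂ (fun p : V ι × V σ => A k (z0 + p.1)) p =
          fderiv ℂ (A k) (z0 + p.1) ∘L ContinuousLinearMap.fst ℂ (V ι) (V σ) := fun k =>
        ((h2 k).hasFDerivAt.comp p (ha p)).fderiv
      rw [e, e]
      exact h1 j i)
  have hb : ∀ z : V ι, HasFDerivAt (fun z : V ι => ((z - z0, 0) : V ι × V σ))
      (ContinuousLinearMap.inl ℂ (V ι) (V σ)) z := fun z =>
    ((hasFDerivAt_id z).sub_const z0).prodMk (hasFDerivAt_const 0 z)
  have hu : Tendsto (fun z : V ι => ((z - z0, 0) : V ι × V σ)) (𝓝 z0) (𝓝 (0, 0)) := by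
    simpa using (hb z0).continuousAt.tendsto
  refine ⟨fun z => Ψ (z - z0, 0), AnalyticAt.comp_of_eq hΨ
    ((analyticAt_id.sub analyticAt_const).prod analyticAt_const) (by simp), ?_, ?_⟩
  · simpa using hP.self_of_nhds.1
  · filter_upwards [hu.eventually hP, hu.eventually hΨ.eventually_analyticAt] with z h1 h2 k
    have e : fderiv ℂ (fun z => Ψ (z - z0, 0)) z =
        fderiv ℂ Ψ (z - z0, 0) ∘L ContinuousLinearMap.inl ℂ (V ι) (V σ) :=
      (h2.differentiableAt.hasFDerivAt.comp z (hb z)).fderiv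
    rw [e]
    simpa using h1.2 k

omit [DecidableEq ι] in
theorem flow (hf : FrobS) (e : σ → V ι → V ι) (z0 : V ι) (he : ∀ a, AnalyticAt ℂ (e a) z0)
    (hs : ∀ᶠ z in 𝓝 z0, ∀ a b, fderiv ℂ (e b) z (e a z) = fderiv ℂ (e a) z (e b z)) :
    ∃ Ψ : V σ × V ι → V ι, AnalyticAt ℂ Ψ (0, z0) ∧ ∀ᶠ p in 𝓝 ((0, z0) : V σ × V ι),
      Ψ (0, p.2) = p.2 ∧ ∀ a, fderiv ℂ Ψ p (Pi.single a 1, 0) = e a (Ψ p) := by
  have ht : Tendsto (fun p : V σ × V ι => p.2) (𝓝 (0, z0)) (𝓝 z0) := continuous_snd.tendsto _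
  have hd : ∀ᶠ z in 𝓝 z0, ∀ a, DifferentiableAt ℂ (e a) z :=
    eventually_all.2 fun k => (he k).eventually_analyticAt.mono fun z hz => hz.differentiableAt
  refine hf σ ι (fun a p => e a p.2) z0
    (fun a => AnalyticAt.comp_of_eq (he a) analyticAt_snd rfl) ?_
  filter_upwards [ht.eventually hs, ht.eventually hd] with p h1 h2 i j
  have h : ∀ k, fderiv ℂ (fun p : V σ × V ι => e k p.2) p =
      fderiv ℂ (e k) p.2 ∘L ContinuousLinearMap.snd ℂ (V σ) (V ι) := fun k =>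
    ((h2 k).hasFDerivAt.comp p hasFDerivAt_snd).fderiv
  rw [h, h]
  exact h1 i j

omit [DecidableEq ι] in
theorem shift {e : σ → V ι → V ι} {z0 : V ι} {Z : V ι → V σ} {Ψ : V σ × V ι → V ι}
    (hZ : AnalyticAt ℂ Z z0) (hΨ : AnalyticAt ℂ Ψ (0, z0))
    (hP : ∀ᶠ p in 𝓝 ((0, z0) : V σ × V ι),
      Ψ (0, p.2) = p.2 ∧ ∀ a, fderiv ℂ Ψ p (Pi.single a 1, 0) = e a (Ψ p))
    (h : ∀ᶠ z in 𝓝 z0, ∀ b, fderiv ℂ Z z (e b z) = Pi.single b 1) :
    ∀ᶠ p in 𝓝 ((0, z0) : V σ × V ι), Z (Ψ p) = p.1 + Z p.2 := by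
  have ht : Tendsto Ψ (𝓝 (0, z0)) (𝓝 z0) := by
    have h1 := hΨ.continuousAt.tendsto
    rwa [show Ψ (0, z0) = z0 from hP.self_of_nhds.1] at h1
  obtain ⟨ε, hε, H⟩ := Metric.eventually_nhds_iff_ball.1
    ((hP.and hΨ.eventually_analyticAt).and (ht.eventually (h.and hZ.eventually_analyticAt)))
  refine Metric.eventually_nhds_iff_ball.2 ⟨ε, hε, fun p hp => ?_⟩
  rw [← ball_prod_same] at hp H
  have hd : ∀ t ∈ ball (0 : V σ) ε,
      HasFDerivAt (fun t => Z (Ψ (t, p.2)) - t) (0 : V σ →L[ℂ] V σ) t := by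
    intro t ht
    obtain ⟨⟨h1, h2⟩, h3, h4⟩ := H (t, p.2) ⟨ht, hp.2⟩
    have h0 : HasFDerivAt (fun t => Ψ (t, p.2))
        (fderiv ℂ Ψ (t, p.2) ∘L ContinuousLinearMap.inl ℂ (V σ) (V ι)) t :=
      HasFDerivAt.comp (f := fun t => (t, p.2)) t h2.differentiableAt.hasFDerivAt
        (hasFDerivAt_prodMk_left t p.2)
    have h5 := (HasFDerivAt.comp (f := fun t => Ψ (t, p.2)) t h4.differentiableAt.hasFDerivAt
      h0).sub (hasFDerivAt_id t)
    refine h5.congr_fderiv ?_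
    ext1 v
    rw [cdecomp (_ - _) v]
    simp [h1.2, h3]
  have h6 := isOpen_ball.is_const_of_fderiv_eq_zero (𝕜 := ℂ) (convex_ball _ _).isPreconnected
    (fun t ht => (hd t ht).differentiableAt.differentiableWithinAt)
    (fun t ht => (hd t ht).fderiv) hp.1 (mem_ball_self hε)
  have h7 : Ψ (0, p.2) = p.2 := (H p hp).1.1.1
  simp only [h7, sub_zero] at h6
  rw [← h6]
  simp

theorem exL (s : Finset ι) (A : V ι →L[ℂ] V {i // i ∈ s}) (x : {i // i ∈ s} → V ι)
    (h : ∀ b, A (x b) = Pi.single b 1) :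
    ∃ L : V {i // i ∉ s} →L[ℂ] V ι, Function.Injective L ∧ ∀ y, A (L y) = 0 := by
  have h1 : LinearMap.range (A : V ι →ₗ[ℂ] V {i // i ∈ s}) = ⊤ := by
    refine LinearMap.range_eq_top.2 fun t => ⟨∑ b, t b • x b, ?_⟩
    ext a
    simp [h, Finset.sum_apply, Pi.single_apply]
  have h2 := LinearMap.finrank_range_add_finrank_ker (A : V ι →ₗ[ℂ] V {i // i ∈ s})
  rw [h1, finrank_top, Module.finrank_fintype_fun_eq_card, Module.finrank_fintype_fun_eq_card] at h2
  have h3 : Module.finrank ℂ (V {i // i ∉ s}) =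
      Module.finrank ℂ (LinearMap.ker (A : V ι →ₗ[ℂ] V {i // i ∈ s})) := by
    rw [Module.finrank_fintype_fun_eq_card, Fintype.card_subtype_compl]
    omega
  let φ := LinearEquiv.ofFinrankEq _ _ h3
  refine ⟨LinearMap.toContinuousLinearMap ((LinearMap.ker _).subtype ∘ₗ φ.toLinearMap), ?_,
    fun y => (φ y).2⟩
  exact Subtype.val_injective.comp φ.injective

theorem pull_apply (Θ : V ι → V ι) (w : V ι) (B : Mat ι) (i j : ι) :
    pull (jac Θ w) B i j =
      ipV B (fderiv ℂ Θ w (Pi.single i 1)) (fderiv ℂ Θ w (Pi.single j 1)) := by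
  simp only [pull, ipV, jac, Matrix.mul_apply, Matrix.transpose_apply, Matrix.map_apply,
    Matrix.of_apply, Finset.sum_mul]
  rw [Finset.sum_comm]
  exact Finset.sum_congr rfl fun p _ => Finset.sum_congr rfl fun q _ => by ring

omit [DecidableEq ι] in
theorem ipV_star {H : Mat ι} (h : H.IsHermitian) (a b : V ι) : ipV H a b = star (ipV H b a) := by
  simp only [ipV, star_sum, star_mul', star_star]
  rw [Finset.sum_comm]
  exact Finset.sum_congr rfl fun p _ => Finset.sum_congr rfl fun q _ => by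
    rw [h.apply q p]
    ring

/-- the analytic part: flow box coordinates adapted to a potential. -/
theorem box (s : Finset ι) {e : {i // i ∈ s} → V ι → V ι} {z0 : V ι} {Z : V ι → V {i // i ∈ s}}
    {Ψ : V {i // i ∈ s} × V ι → V ι} (hZ : AnalyticAt ℂ Z z0) (hZ0 : Z z0 = 0)
    (hΨ : AnalyticAt ℂ Ψ (0, z0)) (hP : ∀ᶠ p in 𝓝 ((0, z0) : V {i // i ∈ s} × V ι),
      Ψ (0, p.2) = p.2 ∧ ∀ a, fderiv ℂ Ψ p (Pi.single a 1, 0) = e a (Ψ p))
    (h : ∀ᶠ z in 𝓝 z0, ∀ b, fderiv ℂ Z z (e b z) = Pi.single b 1) :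
    ∃ Θ : V ι → V ι, AnalyticAt ℂ Θ 0 ∧ Θ 0 = z0 ∧ (jac Θ 0).det ≠ 0 ∧ ∀ᶠ w in 𝓝 (0 : V ι),
      (∀ a : {i // i ∈ s}, fderiv ℂ Θ w (Pi.single a.1 1) = e a (Θ w)) ∧
      ∀ v, fderiv ℂ Z (Θ w) (fderiv ℂ Θ w v) = zp s v := by
  obtain ⟨L, hL, hL0⟩ := exL s (fderiv ℂ Z z0) (fun b => e b z0) h.self_of_nhds
  let zL : V ι →L[ℂ] V {i // i ∈ s} :=
    ContinuousLinearMap.pi fun i => ContinuousLinearMap.proj i.1
  let yL : V ι →L[ℂ] V {i // i ∉ s} :=
    ContinuousLinearMap.pi fun i => ContinuousLinearMap.proj i.1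
  let N : V ι →L[ℂ] V ι := L ∘L yL
  let X : V ι → V ι := fun w => z0 + N w
  let Y : V ι → V {i // i ∈ s} × V ι := fun w => (zL w - Z (X w), X w)
  have hX0 : X 0 = z0 := by simp [X]
  have hY0 : Y 0 = (0, z0) := by simp [Y, hX0, hZ0]
  have hXa : AnalyticAt ℂ X 0 := analyticAt_const.add (N.analyticAt 0)
  have hYa : AnalyticAt ℂ Y 0 := ((zL.analyticAt 0).sub (hZ.comp_of_eq hXa hX0)).prod hXa
  have hT : AnalyticAt ℂ (fun w => Ψ (Y w)) 0 := hΨ.comp_of_eq hYa hY0
  have hT0 : Ψ (Y 0) = z0 := by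
    rw [hY0]
    exact hP.self_of_nhds.1
  have tX : Tendsto X (𝓝 0) (𝓝 z0) := hX0 ▸ hXa.continuousAt.tendsto
  have tY : Tendsto Y (𝓝 0) (𝓝 (0, z0)) := hY0 ▸ hYa.continuousAt.tendsto
  have tT : Tendsto (fun w => Ψ (Y w)) (𝓝 0) (𝓝 z0) := by
    have h1 := hT.continuousAt.tendsto
    rwa [hT0] at h1
  have hD : ∀ᶠ w in 𝓝 (0 : V ι), ∀ v, fderiv ℂ (fun w => Ψ (Y w)) w v =
      fderiv ℂ Ψ (Y w) (zL v - fderiv ℂ Z (X w) (N v), N v) := by
    filter_upwards [tX.eventually hZ.eventually_analyticAt, tY.eventually hΨ.eventually_analyticAt]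
      with w h1 h2 v
    have h3 : HasFDerivAt X N w := N.hasFDerivAt.const_add z0
    have h4 : HasFDerivAt Y ((zL - fderiv ℂ Z (X w) ∘L N).prod N) w :=
      (zL.hasFDerivAt.sub (h1.differentiableAt.hasFDerivAt.comp w h3)).prodMk h3
    have h5 : HasFDerivAt (fun w => Ψ (Y w)) _ w := h2.differentiableAt.hasFDerivAt.comp w h4
    rw [h5.fderiv]
    rfl
  have hE : (fun w => Z (Ψ (Y w))) =ᶠ[𝓝 0] zL := by
    filter_upwards [tY.eventually (shift hZ hΨ hP h)] with w hw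
    rw [hw]
    simp [Y]
  have hB : ∀ᶠ w in 𝓝 (0 : V ι), ∀ v,
      fderiv ℂ Z (Ψ (Y w)) (fderiv ℂ (fun w => Ψ (Y w)) w v) = zp s v := by
    filter_upwards [hE.eventuallyEq_nhds, tT.eventually hZ.eventually_analyticAt,
      hT.eventually_analyticAt] with w h1 h2 h3 v
    have h4 : HasFDerivAt (fun w => Z (Ψ (Y w))) _ w :=
      HasFDerivAt.comp (f := fun w => Ψ (Y w)) w h2.differentiableAt.hasFDerivAt
        h3.differentiableAt.hasFDerivAt
    have h5 := h4.fderiv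
    rw [h1.fderiv_eq, zL.fderiv] at h5
    exact (congrArg (fun T : V ι →L[ℂ] V {i // i ∈ s} => T v) h5).symm
  refine ⟨fun w => Ψ (Y w), hT, hT0, fun hd => ?_, ?_⟩
  · obtain ⟨v, hv0, hv⟩ := Matrix.exists_mulVec_eq_zero_iff.2 hd
    have h1 : fderiv ℂ (fun w => Ψ (Y w)) 0 v = 0 := by
      refine (cdecomp _ v).trans (Eq.trans ?_ hv)
      ext q
      simp [jac, Matrix.mulVec, dotProduct, Finset.sum_apply, mul_comm]
    have h2 : zL v = 0 := by
      have h3 := hB.self_of_nhds v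
      rw [h1, map_zero] at h3
      exact h3.symm
    have h4 : ∀ u, fderiv ℂ Ψ (0, z0) (0, u) = u := by
      intro u
      have h5 : HasFDerivAt (fun x => Ψ (0, x))
          (fderiv ℂ Ψ (0, z0) ∘L ContinuousLinearMap.inr ℂ _ (V ι)) z0 :=
        HasFDerivAt.comp (f := fun x => ((0 : V {i // i ∈ s}), x)) z0
          hΨ.differentiableAt.hasFDerivAt (hasFDerivAt_prodMk_right 0 z0)
      have h6 : (fun x => Ψ (0, x)) =ᶠ[𝓝 z0] id :=
        ((Continuous.prodMk_right (0 : V {i // i ∈ s})).tendsto z0).eventually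
          (hP.mono fun p hp => hp.1)
      have h7 := h5.fderiv
      rw [h6.fderiv_eq, fderiv_id] at h7
      simpa using (congrArg (fun T : V ι →L[ℂ] V ι => T u) h7).symm
    have h8 : fderiv ℂ Z z0 (N v) = 0 := hL0 _
    rw [hD.self_of_nhds v, hX0, hY0, h2, h8, sub_zero, h4] at h1
    have h9 : yL v = 0 := hL (h1.trans (map_zero L).symm)
    refine hv0 (funext fun i => ?_)
    by_cases hi : i ∈ s
    · exact congrFun h2 ⟨i, hi⟩
    · exact congrFun h9 ⟨i, hi⟩
  · filter_upwards [hD, hB, tY.eventually hP] with w h1 h2 h3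
    refine ⟨fun a => ?_, h2⟩
    have h4 : yL (Pi.single a.1 1) = 0 := by
      ext i
      have : i.1 ≠ a.1 := fun hi => i.2 (hi ▸ a.2)
      simp [yL, this]
    have h5 : N (Pi.single a.1 1) = 0 := by simp [N, h4]
    have h6 : zL (Pi.single a.1 1) = Pi.single a 1 := by
      ext i
      change (Pi.single a.1 1 : V ι) i.1 = _
      simp only [Pi.single_apply, Subtype.val_inj]
    rw [h1, h5, h6, map_zero, sub_zero, h3.2]

end ProdLoc

open ProdLoc in
theorem prodLoc (hf : FrobS) : ProdLocS := by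
  intro ι _ _ s G p U z0 e hU hz0 hG he H
  have hUz : ∀ᶠ z in 𝓝 z0, z ∈ U := hU.mem_nhds hz0
  have hd : ∀ᶠ z in 𝓝 z0, ∀ a, DifferentiableAt ℂ (e a) z :=
    eventually_all.2 fun k => (he k).eventually_analyticAt.mono fun z hz => hz.differentiableAt
  let A : ι → V ι → V {i // i ∈ s} := fun k z a => al G (e a) k z
  have hA : ∀ᶠ z in 𝓝 z0, ∀ k, DifferentiableAt ℂ (A k) z ∧ ∀ m, fderiv ℂ (A k) z (Pi.single m 1) =
      fun a => ∑ l, dz (fun w => G w k l) m z * star (e a z l) := by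
    filter_upwards [hUz, hd, H] with z h1 h2 h3 k
    choose D hD hD' using fun a => al_deriv hU hG h1 (h2 a) (h3.2.2 a) k
    have h4 : HasFDerivAt (A k) (ContinuousLinearMap.pi D) z := hasFDerivAt_pi.2 hD
    refine ⟨h4.differentiableAt, fun m => ?_⟩
    rw [h4.fderiv]
    exact funext fun a => hD' a m
  have hAa : ∀ k, AnalyticAt ℂ (A k) z0 := by
    intro k
    obtain ⟨O, hO, hO', hO''⟩ := _root_.eventually_nhds_iff.1 hA
    exact Pool.Agent.Lib.MP_caab05_ag.GB.osg _ _ (A k) O hO'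
      (fun z hz => (hO z hz k).1.differentiableWithinAt) z0 hO''
  obtain ⟨Z, hZ, hZ0, hZd⟩ := pot hf A z0 hAa (by
    filter_upwards [hA, hUz] with z h1 h2 k m
    rw [(h1 k).2, (h1 m).2]
    exact funext fun a => Finset.sum_congr rfl fun l _ => by rw [hG.1.2.2 z h2 k l m])
  obtain ⟨Ψ, hΨ, hP⟩ := flow hf e z0 he (by
    filter_upwards [H, hUz] with z h1 h2 a b
    rw [comm _ _ _ (h1.2.2 b), comm _ _ _ (h1.2.2 a)]
    ext m
    congr 1
    refine Finset.sum_congr rfl fun q _ => ?_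
    congr 1
    rw [Finset.sum_comm]
    exact Finset.sum_congr rfl fun k _ => Finset.sum_congr rfl fun n _ => by
      rw [hG.1.2.2 z h2 k q n]
      ring)
  have hI : ∀ᶠ z in 𝓝 z0, ∀ v a, fderiv ℂ Z z v a = ipV (G z) v (e a z) := by
    filter_upwards [hZd] with z h1 v a
    rw [cdecomp _ v, ipV_eq]
    simp [h1, A, Finset.sum_apply]
  obtain ⟨Θ, hΘ, hΘ0, hdet, hT⟩ := box s hZ hZ0 hΨ hP (by
    filter_upwards [hI, H] with z h1 h2 b
    ext a
    rw [h1, h2.1, Pi.single_apply]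
    simp only [eq_comm])
  refine ⟨Θ, hΘ, hΘ0, hdet, ?_⟩
  have tT : Tendsto Θ (𝓝 0) (𝓝 z0) := hΘ0 ▸ hΘ.continuousAt.tendsto
  filter_upwards [hT, tT.eventually hI, tT.eventually H, tT.eventually hUz] with w h1 h2 h3 h4
  have h5 : ∀ j (a : {i // i ∈ s}), ipV (G (Θ w)) (fderiv ℂ Θ w (Pi.single j 1)) (e a (Θ w)) =
      if a.1 = j then 1 else 0 := by
    intro j a
    rw [← h2, h1.2]
    simp [zp, Pi.single_apply]
  have h6 : ∀ j (a : {i // i ∈ s}), ipV (G (Θ w)) (e a (Θ w)) (fderiv ℂ Θ w (Pi.single j 1)) =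
      if a.1 = j then 1 else 0 := by
    intro j a
    rw [ipV_star (hG.1.2.1 _ h4), h5]
    split_ifs <;> simp
  refine ⟨?_, fun i hi j => ?_⟩
  · ext i j
    rw [pull_apply, h3.2.1]
    simp only [h5, h6, ind, Matrix.diagonal_apply]
    by_cases hi : i ∈ s
    · rw [Finset.sum_eq_single ⟨i, hi⟩]
      · simp [hi]
      · intro b _ hb
        have : b.1 ≠ i := fun h => hb (Subtype.ext h)
        simp [this]
      · simp
    · rw [Finset.sum_eq_zero]
      · simp [hi]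
      · intro b _
        have : b.1 ≠ i := fun h => hi (h ▸ b.2)
        simp [this]
  · rw [pull_apply, h1.1 ⟨i, hi⟩, h6]

end

end Pool.Agent.Lib.MP_813db1_ag.HS
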