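import Pool.Agent.Lib.MP_813db1_ag.HS.Stmt

/-! The zero set of a nonzero holomorphic function is a null set. -/

namespace Pool.Agent.Lib.MP_813db1_ag.HS

open MeasureTheory Complex Filter Topology Set Metric

namespace Sub

variable {τ : Type} [Fintype τ]

/-- At almost every zero the derivative vanishes. -/
theorem ae_fderiv {U : Set (V τ)} (hU : IsOpen U) {g : V τ → ℂ} (hg : AnalyticOnNhd ℂ g U) :
    ∀ᵐ x ∂(volume : Measure (V τ)), x ∈ U → g x = 0 → ∀ v, (∃ i : τ, v i ≠ 0) →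
      fderiv ℂ g x v = 0 := by
  have hs : MeasurableSet (U \ (U ∩ g ⁻¹' {0}ᶜ)) :=
    hU.measurableSet.diff
      (hg.continuousOn.isOpen_inter_preimage hU isOpen_compl_singleton).measurableSet
  have h0 : ∀ x ∈ U \ (U ∩ g ⁻¹' {0}ᶜ), g x = 0 := fun x hx => by
    by_contra h
    exact hx.2 ⟨hx.1, h⟩
  have hA : ApproximatesLinearOn (fun x (_ : τ) => g x) (0 : V τ →L[ℝ] V τ)
      (U \ (U ∩ g ⁻¹' {0}ᶜ)) 0 := by
    intro x hx y hy
    have e : (fun _ : τ => g x) - (fun _ : τ => g y) - (0 : V τ →L[ℝ] V τ) (x - y) = 0 := by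
      ext i
      simp [h0 x hx, h0 y hy]
    rw [e]
    simp
  have h1 := hA.norm_fderiv_sub_le volume hs
    (fun x => ContinuousLinearMap.pi fun _ : τ => (fderiv ℂ g x).restrictScalars ℝ)
    (fun x hx => (hasFDerivAt_pi.2 fun _ =>
      (hg x hx.1).differentiableAt.hasFDerivAt.restrictScalars ℝ).hasFDerivWithinAt)
  rw [ae_restrict_iff' hs] at h1
  filter_upwards [h1] with x hx hxU hx0 v hv
  obtain ⟨i, -⟩ := hv
  have h2 := hx ⟨hxU, fun h => h.2 hx0⟩
  rw [sub_zero, nonpos_iff_eq_zero, nnnorm_eq_zero] at h2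
  exact congrFun (DFunLike.congr_fun h2 v) i

end Sub

theorem zero : ZeroS := by
  intro τ _ U f hU hc hf ⟨z₀, hz₀, hne⟩
  classical
  by_contra hvol
  have hg : ∀ (n : ℕ) (m : Fin n → τ), AnalyticOnNhd ℂ
      (fun z => iteratedFDeriv ℂ n f z fun j => Pi.single (m j) 1) U := fun n m x hx =>
    ((ContinuousMultilinearMap.apply ℂ (fun _ : Fin n => V τ) ℂ
      fun j => Pi.single (m j) 1).analyticAt _).comp (hf.iteratedFDeriv n x hx)
  have h1 : ∀ᵐ x ∂(volume : Measure (V τ)), ∀ (n : ℕ) (m : Fin n → τ), x ∈ U →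
      (iteratedFDeriv ℂ n f x fun j => Pi.single (m j) 1) = 0 → ∀ v, (∃ i : τ, v i ≠ 0) →
      fderiv ℂ (fun z => iteratedFDeriv ℂ n f z fun j => Pi.single (m j) 1) x v = 0 :=
    ae_all_iff.2 fun n => ae_all_iff.2 fun m => Sub.ae_fderiv hU (hg n m)
  obtain ⟨x, ⟨hxU, hx0⟩, hx⟩ := Measure.exists_mem_of_measure_ne_zero_of_ae hvol
    (ae_restrict_of_ae h1)
  have h2 : ∀ (n : ℕ) (m : Fin n → τ),
      (iteratedFDeriv ℂ n f x fun j => Pi.single (m j) 1) = 0 := by
    intro n
    induction n with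
    | zero => intro m; simpa using hx0
    | succ n ih =>
      intro m
      rw [iteratedFDeriv_succ_apply_left, ← fderiv_continuousMultilinear_apply_const_apply
        (hf.iteratedFDeriv n x hxU).differentiableAt]
      exact hx n (Fin.tail m) hxU (ih _) _ ⟨m 0, by simp⟩
  have h3 : ∀ n : ℕ, iteratedFDeriv ℂ n f x = 0 := fun n => by
    refine ContinuousMultilinearMap.toMultilinearMap_injective
      (Module.Basis.ext_multilinear (fun _ => Pi.basisFun ℂ τ) fun m => ?_)
    simpa using h2 n m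
  obtain ⟨p, r, hp⟩ := hf x hxU
  have h4 : f =ᶠ[𝓝 x] 0 := by
    filter_upwards [Metric.eball_mem_nhds x hp.r_pos] with y hy
    have hy' : y - x ∈ Metric.eball (0 : V τ) r := by
      simpa [edist_eq_enorm_sub] using hy
    have h5 := hp.hasSum_iteratedFDeriv hy'
    simp only [h3, zero_apply, smul_zero, add_sub_cancel] at h5
    exact h5.unique hasSum_zero
  exact hne (hf.eqOn_zero_of_preconnected_of_eventuallyEq_zero hc hxU h4 hz₀)

end Pool.Agent.Lib.MP_813db1_ag.HS
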