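import Pool.Agent.Lib.MP_813db1_ag.HS.Sub_Calc
import Pool.Agent.Lib.MP_813db1_ag.HS.Sub_Zero

/-! Curvature of holomorphic subbundles. -/

namespace Pool.Agent.Lib.MP_813db1_ag.HS

open Complex Matrix Filter Topology Set
open scoped ContDiff ComplexOrder MatrixOrder

namespace Sub

section alg

variable {m n : Type} [Fintype m] [DecidableEq m] [Fintype n] [DecidableEq n]

theorem fac {A : Matrix n n ℂ} (hA : A.PosSemidef) : ∃ S : Matrix n n ℂ, A = Sᴴ * S :=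
  CStarAlgebra.nonneg_iff_eq_star_mul_self.1 hA.nonneg

theorem tr_nonneg {A B : Matrix n n ℂ} (hA : A.PosSemidef) (hB : B.PosSemidef) :
    0 ≤ (trace (A * B)).re := by
  obtain ⟨S, rfl⟩ := fac hA
  rw [Matrix.mul_assoc, trace_mul_comm]
  exact (Complex.nonneg_iff.1 (hB.mul_mul_conjTranspose_same S).trace_nonneg).1

theorem schur {H : Matrix n n ℂ} (hH : H.PosDef) {X : Matrix m n ℂ} (hM : (X * H * Xᴴ).PosDef) :
    (H - H * Xᴴ * (X * H * Xᴴ)⁻¹ * X * H).PosSemidef := by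
  have h1 := hH.posSemidef.mul_mul_conjTranspose_same (1 - H * Xᴴ * (X * H * Xᴴ)⁻¹ * X)
  have hu : IsUnit (X * H * Xᴴ).det := (isUnit_iff_isUnit_det _).1 hM.isUnit
  have h2 : ((X * H * Xᴴ)⁻¹)ᴴ = (X * H * Xᴴ)⁻¹ := hM.inv.1
  have h3 := Matrix.nonsing_inv_mul _ hu
  generalize (X * H * Xᴴ)⁻¹ = N at h1 h2 h3 ⊢
  have h4 : N * (X * (H * (Xᴴ * (N * (X * H))))) = N * (X * H) := by
    have := congrArg (fun Y => Y * (N * (X * H))) h3
    simpa only [Matrix.mul_assoc, Matrix.one_mul] using this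
  convert h1 using 1
  simp only [conjTranspose_sub, conjTranspose_mul, conjTranspose_one, conjTranspose_conjTranspose,
    h2, hH.1.eq, Matrix.sub_mul, Matrix.mul_sub, Matrix.one_mul, Matrix.mul_one, Matrix.mul_assoc,
    h4]
  abel

theorem gram {H S : Matrix n n ℂ} (hH : H.PosSemidef) (hS : S.PosSemidef) {P : Matrix m m ℂ}
    (hP : P.PosSemidef) (N : n → Matrix m n ℂ) :
    0 ≤ (∑ k, ∑ l, trace (P * (N k * S * (N l)ᴴ)) * H l k).re := by
  obtain ⟨B, rfl⟩ := fac hH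
  have e : ∑ k, ∑ l, trace (P * (N k * S * (N l)ᴴ)) * (Bᴴ * B) l k =
      ∑ a, trace (P * ((∑ k, B a k • N k) * S * (∑ k, B a k • N k)ᴴ)) := by
    simp only [conjTranspose_sum, conjTranspose_smul, Matrix.sum_mul, Matrix.mul_sum,
      Matrix.smul_mul, Matrix.mul_smul, trace_sum, trace_smul, smul_eq_mul, Matrix.mul_apply,
      conjTranspose_apply, Finset.mul_sum]
    symm
    rw [Finset.sum_comm]
    conv_rhs => rw [Finset.sum_comm]
    refine Finset.sum_congr rfl fun l _ => ?_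
    rw [Finset.sum_comm]
    refine Finset.sum_congr rfl fun k _ => Finset.sum_congr rfl fun a _ => ?_
    ring
  rw [e, Complex.re_sum]
  exact Finset.sum_nonneg fun a _ => tr_nonneg hP (hS.mul_mul_conjTranspose_same _)

omit [DecidableEq m] in
theorem second {H : Matrix n n ℂ} (hH : H.PosDef) (X Xk Xl : Matrix m n ℂ)
    (Pk Pl Q : Matrix n n ℂ) (N : Matrix m m ℂ) :
    trace ((((Xk * Plᴴ + X * Q) * Xᴴ + X * Plᴴ * (0 : Matrix n m ℂ)) +
      ((Xk * H + X * Pk) * Xlᴴ + X * H * (0 : Matrix n m ℂ))) * N +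
      (X * Plᴴ * Xᴴ + X * H * Xlᴴ) *
        -(N * ((Xk * H + X * Pk) * Xᴴ + X * H * (0 : Matrix n m ℂ)) * N)) =
    trace (N * ((Xk + X * Pk * H⁻¹) * (H - H * Xᴴ * N * X * H) * (Xl + X * Pl * H⁻¹)ᴴ)) -
      trace (N * (X * (-Q + Pk * H⁻¹ * Plᴴ) * Xᴴ)) := by
  have hu : IsUnit H.det := (isUnit_iff_isUnit_det _).1 hH.isUnit
  have h2 : (H⁻¹)ᴴ = H⁻¹ := hH.inv.1
  have h3 : ∀ Y : Matrix n m ℂ, H⁻¹ * (H * Y) = Y := fun Y =>
    Matrix.nonsing_inv_mul_cancel_left _ _ hu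
  have h4 : ∀ Y : Matrix n m ℂ, H * (H⁻¹ * Y) = Y := fun Y =>
    Matrix.mul_nonsing_inv_cancel_left _ _ hu
  have e1 : (Xk * H + X * Pk) * Xᴴ = (Xk + X * Pk * H⁻¹) * H * Xᴴ := by
    simp only [Matrix.add_mul, Matrix.mul_assoc, h3]
  have e2 : X * Plᴴ * Xᴴ + X * H * Xlᴴ = X * H * (Xl + X * Pl * H⁻¹)ᴴ := by
    simp only [conjTranspose_add, conjTranspose_mul, h2, Matrix.mul_add, Matrix.mul_assoc, h4]
    abel
  have e3 : (Xk * Plᴴ + X * Q) * Xᴴ + (Xk * H + X * Pk) * Xlᴴ =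
      (Xk + X * Pk * H⁻¹) * H * (Xl + X * Pl * H⁻¹)ᴴ - X * (-Q + Pk * H⁻¹ * Plᴴ) * Xᴴ := by
    simp only [conjTranspose_add, conjTranspose_mul, h2, Matrix.mul_add, Matrix.add_mul,
      Matrix.mul_assoc, h3, h4, Matrix.mul_neg, Matrix.neg_mul]
    abel
  simp only [Matrix.mul_zero, add_zero]
  rw [e1, e2, e3]
  generalize Xk + X * Pk * H⁻¹ = Nk
  generalize (Xl + X * Pl * H⁻¹)ᴴ = Nl
  generalize X * (-Q + Pk * H⁻¹ * Plᴴ) * Xᴴ = R
  have e4 : trace (X * H * Nl * (N * (Nk * H * Xᴴ) * N)) =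
      trace (N * (Nk * (H * Xᴴ * N * X * H) * Nl)) := by
    rw [trace_mul_comm]
    simp only [Matrix.mul_assoc]
  simp only [trace_add, Matrix.mul_neg, trace_neg, e4, Matrix.sub_mul, Matrix.mul_sub, trace_sub,
    trace_mul_comm _ N]
  abel

end alg

variable {τ : Type} [Fintype τ]

theorem gram_eq {q : ℕ} (H : Mat τ) (x : Fin q → V τ) :
    (Matrix.of fun a b => ipV H (x a) (x b)) = Matrix.of x * H * (Matrix.of x)ᴴ := by
  ext a b
  simp only [ipV, Matrix.of_apply, Matrix.mul_apply, conjTranspose_apply, Finset.sum_mul]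
  rw [Finset.sum_comm]
  exact Finset.sum_congr rfl fun j _ => Finset.sum_congr rfl fun i _ => by ring

end Sub

open HS.Sub in
theorem sub (hc : CurvS) (_hm : MatS) : SubS := by
  intro τ _ _ q U H ξ ρ hU hK hξ z hz
  simp only [gram_eq]
  obtain ⟨X, hX⟩ : ∃ X : V τ → Matrix (Fin q) τ ℂ, ∀ w, X w = Matrix.of fun a => ξ a w :=
    ⟨_, fun _ => rfl⟩
  simp only [← hX]
  have hXa : ∀ w ∈ U, ∀ a i, AnalyticAt ℂ (fun w => X w a i) w := fun w hw a i => by
    simp only [hX, Matrix.of_apply]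
    exact analyticAt_pi_iff.1 (hξ a w hw) i
  have hpsd : ∀ w ∈ U, (X w * H w * (X w)ᴴ).PosSemidef := fun w hw =>
    (hK.2 w hw).posSemidef.mul_mul_conjTranspose_same _
  have hUn : ∀ w ∈ U, ∀ᶠ y in 𝓝 w, y ∈ U := fun w hw => hU.mem_nhds hw
  have hXs : ∀ a i, ContDiffAt ℝ ∞ (fun w => X w a i) z := fun a i =>
    ((hXa z hz a i).contDiffAt (n := ∞)).restrict_scalars ℝ
  refine ⟨?_, (Complex.nonneg_iff.1 (hpsd z hz).det_nonneg).1, fun hli => ?_⟩
  · refine reCLM.contDiff.contDiffAt.comp z (f := fun w => (X w * H w * (X w)ᴴ).det) ?_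
    simp only [Matrix.det_apply', Matrix.mul_apply, conjTranspose_apply]
    refine ContDiffAt.sum fun s _ => contDiffAt_const.mul (contDiffAt_prod fun a _ =>
      ContDiffAt.sum fun j _ => (ContDiffAt.sum fun i _ => (hXs _ _).mul (hK.1.1 z hz i j)).mul ?_)
    exact (conjCLE : ℂ →L[ℝ] ℂ).contDiff.contDiffAt.comp z (hXs _ _)
  have hM : (X z * H z * (X z)ᴴ).PosDef := by
    refine (hK.2 z hz).mul_mul_conjTranspose_same (Matrix.vecMul_injective_iff.2 ?_)
    rw [hX]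
    exact hli
  refine ⟨(Complex.pos_iff.1 hM.det_pos).1, fun hρ hric => ?_⟩
  have dX : ∀ w ∈ U, Df X w := fun w hw a i =>
    (hXa w hw a i).differentiableAt.restrictScalars ℝ
  have dH : ∀ w ∈ U, Df H w := fun w hw i j => (hK.1.1 w hw i j).differentiableAt (by simp)
  have dM' : ∀ w ∈ U, Df (fun w => X w * H w * (X w)ᴴ) w := fun w hw =>
    ((dX w hw).mul (dH w hw)).mul (dX w hw).ct
  have hX0 : ∀ w ∈ U, ∀ l, DM I X l w = 0 := fun w hw l => by
    ext a i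
    exact dd_hol_zero (hXa w hw a i).differentiableAt
  have hX1 : ∀ l a i, AnalyticAt ℂ (fun w => DM (-I) X l w a i) z := fun l a i => by
    have h1 : AnalyticAt ℂ (fun w => fderiv ℂ (fun w => X w a i) w (Pi.single l 1)) z :=
      ((ContinuousLinearMap.apply ℂ ℂ (Pi.single l 1 : V τ)).analyticAt _).comp
        (hXa z hz a i).fderiv
    refine h1.congr ((hUn z hz).mono fun w hw => ?_)
    exact (dd_hol_one (hXa w hw a i).differentiableAt).symm
  have dX1 : ∀ l, Df (DM (-I) X l) z := fun l a i =>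
    (hX1 l a i).differentiableAt.restrictScalars ℝ
  have hX2 : ∀ k l, DM I (DM (-I) X l) k z = 0 := fun k l => by
    ext a i
    exact dd_hol_zero (hX1 l a i).differentiableAt
  have dH1 : ∀ l, Df (DM I H l) z := fun l i j => diff_dd (hK.1.1 z hz i j)
  have sI : star I = -I := by simp
  have sI' : star (-I) = I := by simp
  have hHb : ∀ l, DM I H l z = (DM (-I) H l z)ᴴ := fun l => by
    rw [← sI, ← DM_ct (dH z hz)]
    exact DM_congr ((hUn z hz).mono fun w hw => (hK.1.2.1 w hw).eq.symm)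
  have hb : ∀ w ∈ U, ∀ l, DM I (fun w => X w * H w * (X w)ᴴ) l w =
      X w * DM I H l w * (X w)ᴴ + X w * H w * (DM (-I) X l w)ᴴ := fun w hw l => by
    rw [DM_mul ((dX w hw).mul (dH w hw)) (dX w hw).ct, DM_mul (dX w hw) (dH w hw),
      DM_ct (dX w hw), sI, hX0 w hw, Matrix.zero_mul, zero_add]
  have hdet : (X z * H z * (X z)ᴴ).det ≠ 0 := hM.det_pos.ne'
  have hpd : ∀ᶠ w in 𝓝 z, (X w * H w * (X w)ᴴ).PosDef := by
    filter_upwards [hUn z hz, (dM' z hz).det.continuousAt.eventually_ne hdet] with w hw h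
    exact (hpsd w hw).posDef_iff_isUnit.2 ((isUnit_iff_isUnit_det _).2 (Ne.isUnit h))
  have hlev : ∀ k l, levi (fun w => (Real.log (X w * H w * (X w)ᴴ).det.re : ℂ)) z k l =
      trace ((X z * H z * (X z)ᴴ)⁻¹ * ((DM (-I) X k z + X z * DM (-I) H k z * (H z)⁻¹) *
        (H z - H z * (X z)ᴴ * (X z * H z * (X z)ᴴ)⁻¹ * X z * H z) *
        (DM (-I) X l z + X z * DM (-I) H l z * (H z)⁻¹)ᴴ)) -
      trace ((X z * H z * (X z)ᴴ)⁻¹ * (X z * (Matrix.of fun i j => curv H z i j k l) * (X z)ᴴ)) := by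
    intro k l
    have e1 : dd I (fun w => (Real.log (X w * H w * (X w)ᴴ).det.re : ℂ)) l =ᶠ[𝓝 z] fun w =>
        trace ((X w * DM I H l w * (X w)ᴴ + X w * H w * (DM (-I) X l w)ᴴ) *
          (X w * H w * (X w)ᴴ)⁻¹) := by
      filter_upwards [hUn z hz, hpd] with w hw h
      rw [dd_log (dM' w hw) ((hUn w hw).mono hpsd) h, hb w hw]
    have d1 := ((dX z hz).mul (dH1 l)).mul (dX z hz).ct
    have d2 := ((dX z hz).mul (dH z hz)).mul (dX1 l).ct
    have e2 : (Matrix.of fun i j => curv H z i j k l) =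
        -DM (-I) (DM I H l) k z + DM (-I) H k z * (H z)⁻¹ * (DM (-I) H l z)ᴴ := by
      rw [← hHb]
      ext i j
      simp only [curv, dz_eq, dzb_eq, Matrix.of_apply, Matrix.add_apply, Matrix.neg_apply,
        Matrix.mul_apply, Finset.sum_mul, DM]
      congr 1
      exact Finset.sum_congr rfl fun p _ => Finset.sum_congr rfl fun r _ => by ring
    rw [levi, Matrix.of_apply, dz_eq, dzb_eq, dd_congr e1,
      dd_trace ((d1.add d2).mul ((dM' z hz).inv hdet)), DM_mul (d1.add d2) ((dM' z hz).inv hdet),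
      DM_inv (dM' z hz) hdet, DM_add d1 d2, DM_mul ((dX z hz).mul (dH1 l)) (dX z hz).ct,
      DM_mul ((dX z hz).mul (dH z hz)) (dX1 l).ct,
      DM_mul ((dX z hz).mul (dH z hz)) (dX z hz).ct, DM_mul (dX z hz) (dH1 l),
      DM_mul (dX z hz) (dH z hz), DM_ct (dX z hz), DM_ct (dX1 l), sI', hX0 z hz, hX2,
      conjTranspose_zero, e2, hHb]
    exact second (hK.2 z hz) _ _ _ _ _ _ _
  have hsum : ∑ k, ∑ l, trace ((X z * H z * (X z)ᴴ)⁻¹ *
      (X z * (Matrix.of fun i j => curv H z i j k l) * (X z)ᴴ)) * (H z)⁻¹ l k =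
      trace ((X z * H z * (X z)ᴴ)⁻¹ * (X z * ric H z * (X z)ᴴ)) := by
    have e : ric H z = ∑ k, ∑ l, (H z)⁻¹ l k • (Matrix.of fun i j => curv H z i j k l) := by
      ext i j
      simp only [Matrix.sum_apply, Matrix.smul_apply, Matrix.of_apply, smul_eq_mul]
      rw [hc.ric_eq τ H U hU hK z hz]
      refine Finset.sum_congr rfl fun k _ => Finset.sum_congr rfl fun l _ => ?_
      rw [(hc.sym τ H U hU hK z hz i j k l).1, (hc.sym τ H U hU hK z hz k j i l).2.1]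
    rw [e]
    simp only [Matrix.sum_mul, Matrix.mul_sum, Matrix.smul_mul, Matrix.mul_smul, trace_sum,
      trace_smul, smul_eq_mul]
    exact Finset.sum_congr rfl fun k _ => Finset.sum_congr rfl fun l _ => mul_comm _ _
  have hS := schur (hK.2 z hz) hM
  have hg := gram (hK.2 z hz).inv.posSemidef hS hM.inv.posSemidef
    fun k => DM (-I) X k z + X z * DM (-I) H k z * (H z)⁻¹
  have hu : IsUnit (H z).det := (isUnit_iff_isUnit_det _).1 (hK.2 z hz).isUnit
  have h5 := tr_nonneg hρ (hS.mul_mul_conjTranspose_same (H z)⁻¹)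
  have h6 : (H z)⁻¹ * (H z - H z * (X z)ᴴ * (X z * H z * (X z)ᴴ)⁻¹ * X z * H z) * ((H z)⁻¹)ᴴ =
      (H z)⁻¹ - (X z)ᴴ * (X z * H z * (X z)ᴴ)⁻¹ * X z := by
    rw [(hK.2 z hz).inv.1.eq]
    generalize (X z * H z * (X z)ᴴ)⁻¹ = N
    simp only [Matrix.mul_sub, Matrix.sub_mul, Matrix.mul_assoc, Matrix.mul_nonsing_inv _ hu,
      Matrix.nonsing_inv_mul_cancel_left _ _ hu, Matrix.mul_one]
  have h7 : trace ((X z * H z * (X z)ᴴ)⁻¹ * (X z * (ρ - H z) * (X z)ᴴ)) =
      trace (ρ * ((X z)ᴴ * (X z * H z * (X z)ᴴ)⁻¹ * X z)) - q := by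
    rw [Matrix.mul_sub, Matrix.sub_mul, Matrix.mul_sub, trace_sub,
      Matrix.nonsing_inv_mul _ (Ne.isUnit hdet), trace_one, Fintype.card_fin]
    congr 1
    generalize (X z * H z * (X z)ᴴ)⁻¹ = N
    rw [Matrix.mul_assoc (X z), ← Matrix.mul_assoc N, trace_mul_comm]
    simp only [Matrix.mul_assoc]
  rw [h6, Matrix.mul_sub, trace_sub, Complex.sub_re] at h5
  rw [lapL, trace]
  simp only [diag_apply, Matrix.mul_apply (M := levi _ z), hlev, sub_mul, Finset.sum_sub_distrib]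
  rw [hsum, hric, h7, Complex.sub_re, Complex.sub_re, Complex.natCast_re, trm]
  linarith

end Pool.Agent.Lib.MP_813db1_ag.HS
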