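import Pool.Agent.Lib.MP_813db1_ag.HS.UBas_Loc

/-! The twisted Kaehler-Einstein potentials do not depend on the flat coordinates. -/

namespace Pool.Agent.Lib.MP_813db1_ag.HS

open MeasureTheory Complex Matrix Filter Topology Set Metric
open scoped ContDiff ComplexOrder

namespace UBas

variable {ι X : Type} [Fintype ι] [DecidableEq ι] [TopologicalSpace X] {M : Atl ι X}
  {g : X → Mat ι} {ε : ℝ} {u : X → ℝ}

theorem hm_rep (hb : RepB' M) (hg : M.IsK g) (hu : M.Ck ∞ u) {e : Ch ι X} (he : e ∈ M.A)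
    {z : V ι} (hz : z ∈ e.target) : M.repF (M.hm g ε u) e z =
      ((ε : ℂ) • M.repF g e z - ric (M.repF g e) z) + levi (fn u e) z := by
  have h1 := hb.ddc_rep u e he (e.symm z) (e.map_target hz)
  rw [e.right_inv hz] at h1
  rw [← h1 (two (hu e he z hz)), ← hb.ric_rep g hg e he z hz]
  simp only [Atl.repF, Atl.hm, pull, mul_add, add_mul, mul_sub, sub_mul, mul_smul_comm,
    smul_mul_assoc]

theorem lg_rep (ha : RepA' M) (hm : MatS) (hg : M.IsK g) (hS : M.Sol g ε u) {e : Ch ι X}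
    (he : e ∈ M.A) {z : V ι} (hz : z ∈ e.target) :
    lg (M.repF (M.hm g ε u) e) z = fn u e z + lg (M.repF g e) z := by
  have h1 := ha.rat_rep (M.hm g ε u) g e he (e.symm z) (e.map_target hz)
  have h2 := (hm.det ι _ ((hg e he).2 z hz)).1
  rw [e.right_inv hz, hS.2.2, div_eq_iff h2.ne'] at h1
  rw [lg, lg, fn, h1, Real.log_mul (Real.exp_ne_zero _) h2.ne', Real.log_exp, ofReal_add]

theorem lg_bas (hm : MatS) (hg : M.IsK g) {C : Cov M} {s : Finset ι} {c : ℝ}
    (hR : Rows' C s c g) (a : Fin C.n) {z : V ι} (hz : z ∈ ball (0 : V ι) (4 * C.r a)) :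
    ContDiffAt ℝ ∞ (lg (M.repF g (C.e a))) z ∧ ∀ i ∈ s, dM (M.repF g (C.e a)) i z = 0 ∧
      dMb (M.repF g (C.e a)) i z = 0 ∧ dz (lg (M.repF g (C.e a))) i z = 0 ∧
      dzb (lg (M.repF g (C.e a))) i z = 0 := by
  have ht := C.sub a (ball_subset_closedBall hz)
  have hK := hg _ (C.mem a)
  have h2 := hm.det ι _ (hK.2 z ht)
  refine ⟨(hK.1.1.cd ht).lg h2.1.ne', fun i hi => ?_⟩
  have d1 : dM (M.repF g (C.e a)) i z = 0 := by
    ext p q
    simp only [dM_apply, dz, hR.bas p q a z hz i hi, Matrix.zero_apply]; simp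
  have d2 : dMb (M.repF g (C.e a)) i z = 0 := by
    ext p q
    simp only [dMb_apply, dzb, hR.bas p q a z hz i hi, Matrix.zero_apply]; simp
  have hh := ((C.e a).open_target.eventually_mem ht).mono hK.1.2.1
  have h0 : (M.repF g (C.e a) z).det ≠ 0 := by rw [h2.2]; exact ofReal_ne_zero.2 h2.1.ne'
  refine ⟨d1, d2, ?_, ?_⟩
  · rw [dz_lg (hK.1.1.df ht) hh h0, d1, zero_mul, trace_zero]
  · rw [dzb_lg (hK.1.1.df ht) hh h0, d2, zero_mul, trace_zero]

theorem grad_zero [CompactSpace X] (ha : RepA' M) (hb : RepB' M) (hx : MaxS) (hm : MatS)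
    (hg : M.IsK g) {C : Cov M} {s : Finset ι} (hP : C.Prod g s) (hR : Rows' C s 1 g)
    (hS : M.Sol g ε u) (a : Fin C.n) {z : V ι} (hz : z ∈ (C.e a).target) :
    ∀ i ∈ s, dz (fn u (C.e a)) i z = 0 := by
  let F : Fin C.n → V ι → ℝ := fun a w => ∑ i ∈ s, ‖dz (fn u (C.e a)) i w‖ ^ 2
  have hu := hS.1
  have tr : ∀ a b, ∀ x ∈ (C.e a).source, x ∈ (C.e b).source → F a (C.e a x) = F b (C.e b x) := by
    intro a b x h1 h2
    have e : fn u (C.e a) =ᶠ[𝓝 (C.e a x)] fn u (C.e b) ∘ (C.e b ∘ (C.e a).symm) := by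
      have : ∀ᶠ w in 𝓝 (C.e a x), (C.e a).symm w ∈ (C.e b).source :=
        ((C.e a).continuousAt_symm ((C.e a).map_source h1)).eventually
          ((C.e b).open_source.eventually_mem (by rwa [(C.e a).left_inv h1]))
      exact this.mono fun w hw => by simp only [fn, Function.comp, (C.e b).left_inv hw]
    have p : (C.e b ∘ (C.e a).symm) (C.e a x) = C.e b x := by
      simp only [Function.comp, (C.e a).left_inv h1]
    have d : DifferentiableAt ℝ (fn u (C.e b)) ((C.e b ∘ (C.e a).symm) (C.e a x)) := by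
      rw [p]; exact (hu _ (C.mem b) _ ((C.e b).map_source h2)).differentiableAt (by simp)
    simp only [F, dz_congr e, dz_comp d
      (M.hol _ (C.mem a) _ (C.mem b) x h1 h2).differentiableAt, p]
    exact unit_sum s _ _ _ (hP.2 a b x h1 h2) (hP.1 a _ ((C.e a).map_source h1))
      (hP.1 b _ ((C.e b).map_source h2)) (ha.repF_tr g _ (C.mem a) _ (C.mem b) x h1 h2) _
  choose κ hκ hκ' using C.cover
  let Φ : X → ℝ := fun x => F (κ x) (C.e (κ x) x)
  have hΦ : ∀ a, ∀ x ∈ (C.e a).source, Φ x = F a (C.e a x) := fun a x h => tr _ a x (hκ x) h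
  have hΦ' : ∀ a, ∀ w ∈ (C.e a).target, Φ ((C.e a).symm w) = F a w := fun a w h => by
    rw [hΦ a _ ((C.e a).map_target h), (C.e a).right_inv h]
  have cont : Continuous Φ := continuous_iff_continuousAt.2 fun x => by
    have c : ContinuousAt (F (κ x)) (C.e (κ x) x) := tendsto_finsetSum _ fun i _ =>
      ((contDiffAt_dz_top (hu _ (C.mem _) _ ((C.e _).map_source (hκ x))) i).continuousAt.norm.pow 2)
    exact (c.comp ((C.e _).continuousAt (hκ x))).congr
      (((C.e _).open_source.eventually_mem (hκ x)).mono fun y hy => (hΦ _ y hy).symm)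
  obtain ⟨x, -, hmax⟩ := isCompact_univ.exists_isMaxOn ⟨(C.e a).symm z, trivial⟩ cont.continuousOn
  have hx0 : Φ x ≤ 0 := by
    have ht := (C.e _).map_source (hκ x)
    have hB : C.e (κ x) x ∈ ball (0 : V ι) (4 * C.r (κ x)) := by
      have := C.pos (κ x)
      have := hκ' x
      rw [mem_ball_zero_iff]; linarith
    have ev := (C.e _).open_target.eventually_mem ht
    have evB := isOpen_ball.eventually_mem hB
    have hH := hS.2.1 _ (C.mem (κ x))
    have hG := hg _ (C.mem (κ x))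
    have b := lg_bas hm hg hR _ hB
    have dG := hG.1.1.df ht
    have dL : DfM (levi (lg (M.repF g (C.e (κ x))))) (C.e (κ x) x) := fun i j =>
      (contDiffAt_levi_top b.1 i j).differentiableAt (by simp)
    have dS : DfM (fun w => (ε : ℂ) • M.repF g (C.e (κ x)) w) (C.e (κ x) x) :=
      DfM.smul (differentiableAt_const _) dG
    refine loc_max hx hm s (fun w => u ((C.e (κ x)).symm w)) (M.repF (M.hm g ε u) (C.e (κ x)))
      (fun w => (ε : ℂ) • M.repF g (C.e (κ x)) w - -levi (lg (M.repF g (C.e (κ x)))) w)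
      (lg (M.repF g (C.e (κ x)))) (hu _ (C.mem _) _ ht) (ev.mono hH.1.2.1) (hH.2 _ ht)
      (dS.sub dL.neg) (ev.mono fun w hw => hm_rep hb hg hu (C.mem _) hw)
      (ev.mono fun w hw => lg_rep ha hm hg hS (C.mem _) hw) (b.1.differentiableAt (by simp))
      (fun i hi => ?_) (fun i hi => (b.2 i hi).2.2)
      (ev.mono fun w hw => (hΦ' _ w hw).symm.trans_le (hmax (mem_univ _)))
    have e1 : dz (lg (M.repF g (C.e (κ x)))) i =ᶠ[𝓝 (C.e (κ x) x)] fun _ => 0 :=
      evB.mono fun w hw => ((lg_bas hm hg hR _ hw).2 i hi).2.2.1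
    have e2 : dzb (lg (M.repF g (C.e (κ x)))) i =ᶠ[𝓝 (C.e (κ x) x)] fun _ => 0 :=
      evB.mono fun w hw => ((lg_bas hm hg hR _ hw).2 i hi).2.2.2
    rw [dM_sub dS dL.neg, dMb_sub dS dL.neg, dM_csmul _ dG, dMb_csmul _ dG, dM_neg, dMb_neg,
      dM_levi b.1, dMb_levi b.1, levi_congr e1, levi_congr e2, levi_const, (b.2 i hi).1,
      (b.2 i hi).2.1]
    simp
  intro i hi
  have h1 : F a z ≤ 0 := (hΦ' a z hz).symm.trans_le ((hmax (mem_univ _)).trans hx0)
  have h2 := (Finset.sum_eq_zero_iff_of_nonneg fun i _ => by positivity).1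
    (le_antisymm h1 (Finset.sum_nonneg fun i _ => by positivity)) i hi
  simpa using h2

end UBas

open UBas in
theorem ubas (ha : RepA) (hb : RepB) (hr : RowsS) (hx : MaxS) (hm : MatS) : UBasS := by
  intro ι X _ _ _ _ M g C s ε u hg hP hε hS
  have sub : ∀ a, ∀ z ∈ ball (0 : V ι) (4 * C.r a), z ∈ (C.e a).target := fun a z hz =>
    C.sub a (ball_subset_closedBall hz)
  have hR : Rows' C s 1 g := hr.rows ι X M C s 1 g hg one_pos fun a z hz => by
    simpa using hP.1 a z (sub a z hz)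
  have h1 : ∀ a, ∀ z ∈ ball (0 : V ι) (4 * C.r a), ContDiffAt ℝ 2 (fn u (C.e a)) z ∧
      ∀ i ∈ s, dz (fn u (C.e a)) i z = 0 ∧ dzb (fn u (C.e a)) i z = 0 := fun a z hz =>
    ⟨two (hS.1 _ (C.mem a) _ (sub a z hz)), fun i hi => by
      have := grad_zero (ha _ _ M) (hb _ _ M) hx hm hg hP hR hS a (sub a z hz) i hi
      exact ⟨this, (dzb_ofReal (fun w => u ((C.e a).symm w)) i z).trans
        ((congrArg star this).trans (star_zero _))⟩⟩
  have h2 : ∀ a, ∀ z ∈ ball (0 : V ι) (4 * C.r a), ContDiffAt ℝ 2 (lg (M.repF g (C.e a))) z ∧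
      ∀ i ∈ s, dz (lg (M.repF g (C.e a))) i z = 0 ∧ dzb (lg (M.repF g (C.e a))) i z = 0 :=
    fun a z hz => ⟨two (lg_bas hm hg hR a hz).1, fun i hi => ((lg_bas hm hg hR a hz).2 i hi).2.2⟩
  have hH : Rows' C s ε (M.hm g ε u) := hr.rows ι X M C s ε _ hS.2.1 hε fun a z hz i hi j => by
    have ev := isOpen_ball.eventually_mem hz
    have r1 := rows_levi s (h1 a z hz).1 (ev.mono fun w hw i hi => ((h1 a w hw).2 i hi).1) i hi j
    have r2 := rows_levi s (h2 a z hz).1 (ev.mono fun w hw i hi => ((h2 a w hw).2 i hi).1) i hi j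
    rw [hm_rep (hb _ _ M) hg hS.1 (C.mem a) (sub a z hz),
      show ric (M.repF g (C.e a)) z = -levi (lg (M.repF g (C.e a))) z from rfl]
    simp only [Matrix.add_apply, Matrix.sub_apply, Matrix.smul_apply, Matrix.neg_apply, r1, r2,
      hP.1 a z (sub a z hz) i hi j]
    simp
  refine ⟨fun a z hz i hi c => ?_, hH, fun a y hy => ?_⟩
  · rw [fderiv_single, ((h1 a z hz).2 i hi).1, ((h1 a z hz).2 i hi).2]; simp
  have ev := isOpen_ball.eventually_mem hy
  have l1 := levi_trv hr s (h1 a) hy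
  have l2 := levi_trv hr s (h2 a) hy
  have e1 : (fun w => lg (M.repF g (C.e a)) (glue s 0 w)) =ᶠ[𝓝 y] lg (C.trv s g a) :=
    ev.mono fun w hw => by
      simp only [lg, (hR.ent a _ (glue_mem hr s hw)).2.2.2.2.2.2, yp_glue, ofReal_one, one_pow,
        one_mul]
  have e2 : lg (C.trv s (M.hm g ε u) a) =ᶠ[𝓝 y] fun w => (fn u (C.e a) (glue s 0 w) +
      lg (M.repF g (C.e a)) (glue s 0 w)) - (Real.log (ε ^ s.card) : ℂ) :=
    ev.mono fun w hw => by
      have p := (hm.det _ _ ((hH.kon a).2 w hw)).1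
      simp only [← lg_rep (ha _ _ M) hm hg hS (C.mem a) (sub a _ (glue_mem hr s hw))]
      simp only [lg, (hH.ent a _ (glue_mem hr s hw)).2.2.2.2.2.2, yp_glue]
      rw [← ofReal_pow, re_ofReal_mul, Real.log_mul (pow_pos hε _).ne' p.ne']
      push_cast
      ring
  have k1 : C.trv s (M.hm g ε u) a y = (ε : ℂ) • C.trv s g a y - ric (C.trv s g a) y +
      levi (fun w => fn u (C.e a) (glue s 0 w)) y := by
    rw [Cov.trv, hm_rep (hb _ _ M) hg hS.1 (C.mem a) (sub a _ (glue_mem hr s hy)), ← l1.2,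
      show ric (C.trv s g a) y = -levi (lg (C.trv s g a)) y from rfl, ← levi_congr e1, ← l2.2]
    rfl
  refine ⟨k1, ?_⟩
  rw [k1, show ric (C.trv s (M.hm g ε u) a) y = -levi (lg (C.trv s (M.hm g ε u) a)) y from rfl,
    levi_congr e2, levi_sub (l1.1.add l2.1) contDiffAt_const, levi_add l1.1 l2.1, levi_const,
    levi_congr e1, show ric (C.trv s g a) y = -levi (lg (C.trv s g a)) y from rfl]
  abel

end Pool.Agent.Lib.MP_813db1_ag.HS
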