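import Pool.Agent.Lib.MP_813db1_ag.HS.AYAll
import Pool.Agent.Lib.MP_813db1_ag.HS.Main
import Pool.Agent.Lib.MP_813db1_ag.HS.Sec
import Pool.Agent.Lib.MP_813db1_ag.HS.Poly
import Pool.Agent.Lib.MP_813db1_ag.HS.EndAbs
import Pool.Agent.Lib.MP_813db1_ag.HS.ParLim
import Pool.Agent.Lib.MP_813db1_ag.HS.Frob
import Pool.Agent.Lib.MP_813db1_ag.HS.Flat
import Pool.Agent.Lib.MP_813db1_ag.HS.Frame
import Pool.Agent.Lib.MP_813db1_ag.HS.ProdLoc
import Pool.Agent.Lib.MP_813db1_ag.HS.Sub
import Pool.Agent.Lib.MP_813db1_ag.HS.Peak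
import Pool.Agent.Lib.MP_813db1_ag.HS.Count
import Pool.Agent.Lib.MP_813db1_ag.HS.Schw
import Pool.Agent.Lib.MP_813db1_ag.HS.Int
import Pool.Agent.Lib.MP_813db1_ag.HS.Weight
import Pool.Agent.Lib.MP_813db1_ag.HS.Den
import Pool.Agent.Lib.MP_813db1_ag.HS.Par1
import Pool.Agent.Lib.MP_813db1_ag.HS.Par
import Pool.Agent.Lib.MP_813db1_ag.HS.PCov
import Pool.Agent.Lib.MP_813db1_ag.HS.Rows
import Pool.Agent.Lib.MP_813db1_ag.HS.UBas
import Pool.Agent.Lib.MP_813db1_ag.HS.BK
import Pool.Agent.Lib.MP_813db1_ag.HS.BasicX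
import Pool.Agent.Lib.MP_813db1_ag.HS.BasLoc
import Pool.Agent.Lib.MP_813db1_ag.HS.Comp
import Pool.Agent.Lib.MP_813db1_ag.HS.Dict
import Pool.Agent.Lib.MP_813db1_ag.HS.Good
import Pool.Agent.Lib.MP_813db1_ag.HS.ExtX
import Pool.Agent.Lib.MP_813db1_ag.HS.PeakX
import Pool.Agent.Lib.MP_813db1_ag.HS.CntX
import Pool.Agent.Lib.MP_813db1_ag.HS.E.TubeX

/-! All steps together. -/

namespace Pool.Agent.Lib.MP_813db1_ag.HS.All

open AY

theorem invS : InvS := inv repA' repB' divS' curvS' volS'

theorem schwS : SchwS := schw repA' repB' repC' mat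

theorem rowsS : RowsS := rows repA' mat

theorem ubasS : UBasS := ubas repA' repB' rowsS maxS mat

theorem smoS : SmoS := smo repA' curvS' mat

theorem denS : DenS := den repA' repB' volS' (weight repA' repB' volS' mat) greenS mat

theorem parS : ParS :=
  par repA' repB' repC' volS' denS (cut repA' repB' repC' volS' greenS denS)
    (par1 repA' repB' volS' parLim (cl2 mat) repC') schwS mat

theorem pcovS : PCovS :=
  pcov repA' repC' (flat curvS' roy mat) (frame frob curvS') (prodLoc frob) covS mat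

theorem tubeXS : TubeXS :=
  tubeX mat curvS' repA' repB' (pou repA' repB') volS' greenS rowsS ubasS (sub curvS' mat) zero

theorem dictS : DictS := dict repA' repB' volS' mat

theorem peakXS : PeakXS :=
  peakX dictS (good dictS mat repA' volS' rowsS ubasS denS smoS)
    (extX repA' mat ubasS dictS (basLoc repA')) (peak mat) mat volS' greenS rowsS ubasS

theorem cntXS : CntXS :=
  cntX mat repA' volS' greenS rowsS ubasS schwS (bk repA' repB' divS' curvS' mat volS' greenS)
    dictS (count mat)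

theorem secS : SecS :=
  sec mat rowsS repA' repB' volS' greenS smoS lin2S ubasS
    (basicX repA' repB' divS' curvS' mat volS') (comp repA' repB' mat cau volS') endAbs tubeXS
    peakXS cntXS

theorem mainS : MainS :=
  main (maxAtl repA') repA' repC' volS' nefS (volP repA' repB' volS' invS mat)
    (intS repA' repB' repC' volS' invS greenS schwS poly) parS pcovS secS

end Pool.Agent.Lib.MP_813db1_ag.HS.All
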