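import Pool.Agent.Lib.MP_813db1_ag.HS.StmtF
import Pool.Agent.Lib.MP_813db1_ag.HS.Green
import Pool.Agent.Lib.MP_813db1_ag.HS.UBas
import Pool.Agent.Lib.MP_813db1_ag.HS.RepB1

/-! Solutions of the resolvent equation with basic data are basic. -/

namespace Pool.Agent.Lib.MP_813db1_ag.HS

open MeasureTheory Complex Matrix Filter Topology Set Metric
open scoped ContDiff ComplexOrder

noncomputable section

namespace BasicX

open Green UBas

variable {ι : Type} [Fintype ι] [DecidableEq ι] {H H' : V ι → Mat ι} {F : V ι → ℂ} {z : V ι}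
  {φ : V ι → V ι} {s : Finset ι} {i : ι}

theorem boxL_eq (a : ℕ) (H : V ι → Mat ι) (F : V ι → ℂ) : boxL a H F = fun z =>
    ∑ k, ∑ j, (H z)⁻¹ j k * (levi F z k j - a * (dz (lg H) k z * dzb F j z)) := by
  funext z
  rw [boxL, lapL_eq]
  simp only [Finset.mul_sum, ← Finset.sum_sub_distrib, levi_apply]
  exact Finset.sum_congr rfl fun k _ => Finset.sum_congr rfl fun j _ => by ring

omit [DecidableEq ι] in
theorem df (h : ContDiffAt ℝ ∞ F z) : DifferentiableAt ℝ F z := h.differentiableAt (by simp)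

theorem dz_box (a : ℕ) (hH : CdM ∞ H z) (hp : (H z).PosDef) (hF : ContDiffAt ℝ ∞ F z)
    (b1 : dM H i z = 0) (b2 : ∀ᶠ w in 𝓝 z, dz (lg H) i w = 0) :
    dz (boxL a H F) i z = boxL a H (dz F i) z := by
  have hi := dM_inv (hH.df (by simp)) (det_ne hp) i
  rw [b1, Matrix.mul_zero, Matrix.zero_mul, neg_zero] at hi
  have hl := hH.lg (det_pos hp).ne'
  have c1 := fun j k => df (hH.inv (det_ne hp) j k)
  have c2 := fun k j => df (contDiffAt_levi_top hF k j)
  have c3 := fun k => df (contDiffAt_dz_top hl k)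
  have c4 := fun j => df (contDiffAt_dzb_top hF j)
  have c5 := fun k j => (c2 k j).fun_sub (((c3 k).fun_mul (c4 j)).const_mul (a : ℂ))
  rw [boxL_eq, boxL_eq, dz_sum _ fun k _ => DifferentiableAt.fun_sum fun j _ =>
    (c1 j k).fun_mul (c5 k j)]
  refine Finset.sum_congr rfl fun k _ => ?_
  rw [dz_sum _ fun j _ => (c1 j k).fun_mul (c5 k j)]
  refine Finset.sum_congr rfl fun j _ => ?_
  rw [dz_mul (c1 j k) (c5 k j), dz_sub (c2 k j) (((c3 k).fun_mul (c4 j)).const_mul _),
    dz_cmul _ ((c3 k).fun_mul (c4 j)), dz_mul (c3 k) (c4 j), dz_dz_comm (two hl), dz_congr b2,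
    dz_const, dz_dzb_comm (two hF), ← dM_apply, hi, ← dM_apply (levi F), dM_levi hF]
  simp

theorem dzb_box (a : ℕ) (hH : CdM ∞ H z) (hp : (H z).PosDef) (hF : ContDiffAt ℝ ∞ F z)
    (b1 : dMb H i z = 0) (b2 : ∀ᶠ w in 𝓝 z, dzb (lg H) i w = 0) :
    dzb (boxL a H F) i z = boxL a H (dzb F i) z := by
  have hi := dMb_inv (hH.df (by simp)) (det_ne hp) i
  rw [b1, Matrix.mul_zero, Matrix.zero_mul, neg_zero] at hi
  have hl := hH.lg (det_pos hp).ne'
  have c1 := fun j k => df (hH.inv (det_ne hp) j k)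
  have c2 := fun k j => df (contDiffAt_levi_top hF k j)
  have c3 := fun k => df (contDiffAt_dz_top hl k)
  have c4 := fun j => df (contDiffAt_dzb_top hF j)
  have c5 := fun k j => (c2 k j).fun_sub (((c3 k).fun_mul (c4 j)).const_mul (a : ℂ))
  rw [boxL_eq, boxL_eq, dzb_sum _ fun k _ => DifferentiableAt.fun_sum fun j _ =>
    (c1 j k).fun_mul (c5 k j)]
  refine Finset.sum_congr rfl fun k _ => ?_
  rw [dzb_sum _ fun j _ => (c1 j k).fun_mul (c5 k j)]
  refine Finset.sum_congr rfl fun j _ => ?_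
  rw [dzb_mul (c1 j k) (c5 k j), dzb_sub (c2 k j) (((c3 k).fun_mul (c4 j)).const_mul _),
    dzb_cmul _ ((c3 k).fun_mul (c4 j)), dzb_mul (c3 k) (c4 j), ← dz_dzb_comm (two hl), dz_congr b2,
    dz_const, dzb_dzb_comm (two hF), ← dMb_apply, hi, ← dMb_apply (levi F), dMb_levi hF]
  simp

/-! ### the Jacobians of the changes of product charts -/

theorem col {J A B : Mat ι} (hJ : Blk s J) (hA : Rows s 1 A) (hB : Rows s 1 B) (e : A = pull J B)
    (hi : i ∈ s) (k : ι) : ∑ p, J p i * star (J p k) = if i = k then 1 else 0 := by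
  rw [← hA i hi k, e, pull, Matrix.mul_assoc, Matrix.mul_apply]
  refine Finset.sum_congr rfl fun p _ => ?_
  by_cases hp : p ∈ s
  · simp [Matrix.mul_apply, hB p hp]
  · rw [transpose_apply, hJ p i (by simp [hp, hi]), zero_mul, zero_mul]

theorem row {J A B : Mat ι} (hJ : Blk s J) (hA : Rows s 1 A) (hB : Rows s 1 B) (e : A = pull J B)
    (p q : ι) : ∑ i ∈ s, star (J p i) * J q i = if p = q ∧ p ∈ s then 1 else 0 := by
  by_cases hp : p ∈ s
  swap
  · rw [if_neg fun h => hp h.2]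
    exact Finset.sum_eq_zero fun i hi => by rw [hJ p i (by simp [hp, hi]), star_zero, zero_mul]
  by_cases hq : q ∈ s
  swap
  · rw [if_neg fun h : p = q ∧ p ∈ s => hq (h.1 ▸ hp)]
    exact Finset.sum_eq_zero fun i hi => by rw [hJ q i (by simp [hq, hi]), mul_zero]
  let Js : Matrix s s ℂ := J.submatrix Subtype.val Subtype.val
  have u1 : Jsᴴ * Js = 1 := by
    ext j i
    rw [Matrix.mul_apply, one_apply, if_congr (Subtype.ext_iff.trans eq_comm) rfl rfl,
      ← col hJ hA hB e i.2 j, ← Finset.sum_subset (Finset.subset_univ s) fun p _ hp => by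
        rw [hJ p i (by simp [hp]), zero_mul], ← Finset.sum_coe_sort s]
    exact Finset.sum_congr rfl fun p _ => mul_comm _ _
  have u2 : Js * Jsᴴ = 1 := mul_eq_one_comm.1 u1
  have := congrFun₂ u2 ⟨q, hq⟩ ⟨p, hp⟩
  rw [Matrix.mul_apply, one_apply] at this
  rw [← Finset.sum_coe_sort s, if_congr (and_iff_left hp) rfl rfl,
    ← if_congr (Subtype.ext_iff.trans eq_comm : (⟨q, hq⟩ : s) = ⟨p, hp⟩ ↔ p = q) rfl rfl, ← this]
  exact Finset.sum_congr rfl fun p _ => mul_comm _ _

/-- the Jacobian is block diagonal and preserves the flat rows. -/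
def Uni (s : Finset ι) (J : Mat ι) : Prop :=
  Blk s J ∧ ∃ A B, Rows s 1 A ∧ Rows s 1 B ∧ A = pull J B

theorem dz_jac (h : AnalyticAt ℂ φ z) (hu : ∀ᶠ w in 𝓝 z, Uni s (jac φ w)) (hi : i ∈ s) (p j : ι) :
    dz (fun w => jac φ w p i) j z = 0 := by
  by_cases hp : p ∈ s
  swap
  · exact (dz_congr (hu.mono fun w hw => hw.1 p i (by simp [hp, hi])) j).trans (dz_const 0 j z)
  have d := fun p k => df (cdM_jac h p k)
  have e : ∀ k ∈ s, ∑ p, jac φ z p k * star (dz (fun w => jac φ w p i) j z) = 0 := fun k _ => by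
    have := dz_congr (f := fun w => ∑ p, jac φ w p i * star (jac φ w p k))
      (hu.mono fun w ⟨h1, _, _, h2, h3, h4⟩ => col h1 h2 h3 h4 hi k) j
    rw [dz_const, dz_sum _ fun p _ => (d p i).fun_mul (d p k).star] at this
    rw [← star_zero ℂ, ← this, star_sum]
    refine Finset.sum_congr rfl fun p _ => ?_
    rw [dz_mul (d p i) (d p k).star, dz_star, dzb_hol (analyticAt_jac h p k).differentiableAt]
    simp [mul_comm]
  obtain ⟨h1, _, _, h2, h3, h4⟩ := hu.self_of_nhds
  have := unit_sum s _ _ _ h1 h2 h3 h4 fun p => star (dz (fun w => jac φ w p i) j z)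
  rw [Finset.sum_eq_zero fun k hk => by rw [e k hk, norm_zero, zero_pow two_ne_zero]] at this
  simpa using (Finset.sum_eq_zero_iff_of_nonneg fun _ _ => sq_nonneg _).1 this.symm p hp

theorem jac_const (h : AnalyticAt ℂ φ z) (hu : ∀ᶠ w in 𝓝 z, Uni s (jac φ w)) (hi : i ∈ s) :
    ∀ᶠ w in 𝓝 z, ∀ p, jac φ w p i = jac φ z p i := by
  obtain ⟨r, hr, hb⟩ := Metric.eventually_nhds_iff_ball.1
    (h.eventually_analyticAt.and hu.eventually_nhds)
  filter_upwards [ball_mem_nhds z hr] with w hw p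
  refine isOpen_ball.is_const_of_fderiv_eq_zero (𝕜 := ℝ) (convex_ball z r).isPreconnected
    (fun y hy => (df (cdM_jac (hb y hy).1 p i)).differentiableWithinAt) (fun y hy => ?_) hw
    (mem_ball_self hr)
  ext1 v
  rw [fderiv_eq_dz]
  simp [dz_jac (hb y hy).1 (hb y hy).2 hi,
    dzb_hol (analyticAt_jac (hb y hy).1 p i).differentiableAt]

theorem dz_det_jac (h : AnalyticAt ℂ φ z) (hu : ∀ᶠ w in 𝓝 z, Uni s (jac φ w)) (hi : i ∈ s) :
    dz (fun w => (jac φ w).det) i z = 0 := by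
  have : dM (jac φ) i z = 0 := by
    ext p k
    have e : ∀ l, (fun w => jac φ w p l) =ᶠ[𝓝 z] dz (fun w => φ w p) l := fun l =>
      h.eventually_analyticAt.mono fun w hw => jac_eq_dz hw.differentiableAt p l
    rw [dM_apply, dz_congr (e k), dz_dz_comm (contDiffAt_pi.1 (RepB.an_sm h) p), ← dz_congr (e i),
      dz_jac h hu hi, Matrix.zero_apply]
  rw [dz_det ((cdM_jac (n := 1) h).df one_ne_zero), this, Matrix.mul_zero, trace_zero]

theorem dz_law {F' : V ι → ℂ} {a : ℕ} (h : AnalyticAt ℂ φ z) (h0 : (jac φ z).det ≠ 0)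
    (hu : ∀ᶠ w in 𝓝 z, Uni s (jac φ w)) (hF : ContDiffAt ℝ 2 F' (φ z))
    (e : ∀ᶠ w in 𝓝 z, F w = (jac φ w).det ^ a * F' (φ w)) (hi : i ∈ s) :
    (∀ᶠ w in 𝓝 z, dz F i w = (jac φ w).det ^ a * ∑ p, jac φ z p i * dz F' p (φ w)) ∧
    ∀ᶠ w in 𝓝 z, dzb F i w =
      (jac φ w).det ^ a * ∑ p, (jac φ z).map star p i * dzb F' p (φ w) := by
  rw [← eventually_and]
  filter_upwards [h.eventually_analyticAt, hu.eventually_nhds, e.eventually_nhds,
    jac_const h hu hi, h.continuousAt.eventually (eventually_diff hF),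
    (RepB.an_det h).continuousAt.eventually_ne h0] with w k1 k2 k3 k4 k5 k6
  have d1 := df (RepB.an_sm ((RepB.an_det k1).fun_pow a))
  have d2 := k5.comp w ((RepB.an_sm (n := 1) k1).differentiableAt one_ne_zero)
  constructor
  · rw [dz_congr k3]
    refine (dz_mul d1 d2 i).trans ?_
    rw [RepB.dz_pow (RepB.an_det k1) k6, dz_det_jac k1 k2 hi, dz_comp k5 k1.differentiableAt]
    simp [k4]
  · rw [RepB.dzb_loc k1 k5 k3]
    simp [vecMul, dotProduct, k4, mul_comm]

/-! ### the vector field -/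

/-- the vector field whose divergence is the energy density. -/
def fld (a : ℕ) (s : Finset ι) (H : V ι → Mat ι) (T : ι → V ι → ℂ) (z : V ι) : V ι :=
  ∑ i ∈ s, (ex a H z * star (T i z)) • shp H (T i) z

theorem shp_sum (H : V ι → Mat ι) (c : V ι) {T : ι → V ι → ℂ}
    (hT : ∀ p, DifferentiableAt ℝ (T p) z) :
    shp H (fun y => ∑ p, c p * T p y) z = ∑ p, c p • shp H (T p) z := by
  funext k
  simp only [shp, dzb_sum _ fun p _ => (hT p).const_mul (c p), fun p => dzb_cmul (c p) (hT p),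
    Finset.sum_apply, Pi.smul_apply, smul_eq_mul, Finset.mul_sum]
  rw [Finset.sum_comm]
  exact Finset.sum_congr rfl fun p _ => Finset.sum_congr rfl fun j _ => by ring

theorem fld_law {a : ℕ} {T T' : ι → V ι → ℂ} {U : Mat ι} (h : AnalyticAt ℂ φ z)
    (h0 : (jac φ z).det ≠ 0) (hp : (H z).PosDef) (hp' : (H' (φ z)).PosDef)
    (e' : H z = pull (jac φ z) (H' (φ z))) (hT : ∀ p, DifferentiableAt ℝ (T' p) (φ z))
    (hU : ∀ p q, ∑ i ∈ s, star (U p i) * U q i = if p = q ∧ p ∈ s then 1 else 0)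
    (e : ∀ i ∈ s, ∀ᶠ w in 𝓝 z, T i w = (jac φ w).det ^ a * ∑ p, U p i * T' p (φ w)) :
    jac φ z *ᵥ fld a s H T z = ((‖(jac φ z).det‖ ^ 2 : ℝ) : ℂ) • fld a s H' T' (φ z) := by
  have e1 : ex a H z * star ((jac φ z).det ^ a) * (jac φ z).det ^ a =
      ((‖(jac φ z).det‖ ^ 2 : ℝ) : ℂ) * ex a H' (φ z) := by
    have h2 : star (jac φ z).det ≠ 0 := star_ne_zero.2 h0
    have h3 : ((H' (φ z)).det.re : ℂ) ≠ 0 := ofReal_ne_zero.2 (det_pos hp').ne'
    rw [ex_eq a (det_pos hp), ex_eq a (det_pos hp'), e', RepB.det_pull, re_ofReal_mul, ofReal_div,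
      ofReal_pow, ofReal_mul, nsq, star_pow, ofReal_div, ofReal_pow, mul_pow, mul_pow]
    field_simp
  have e2 : ∀ i ∈ s, jac φ z *ᵥ ((ex a H z * star (T i z)) • shp H (T i) z) =
      (((‖(jac φ z).det‖ ^ 2 : ℝ) : ℂ) * ex a H' (φ z)) • ∑ p, ∑ q,
        (star (U p i) * U q i) • star (T' p (φ z)) • shp H' (T' q) (φ z) := fun i hi => by
    rw [mulVec_smul, RepB.shp_loc (F' := fun y => ∑ p, U p i * T' p y) h h0
      (DifferentiableAt.fun_sum fun p _ => (hT p).const_mul _) (e i hi) e',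
      shp_sum H' (fun p => U p i) hT, (e i hi).self_of_nhds, ← e1, star_mul', star_sum]
    simp only [Finset.smul_sum, smul_smul, Finset.mul_sum, Finset.sum_smul, Finset.sum_mul,
      star_mul']
    rw [Finset.sum_comm]
    exact Finset.sum_congr rfl fun p _ => Finset.sum_congr rfl fun q _ => by congr 1; ring
  rw [fld, mulVec_sum, Finset.sum_congr rfl e2, ← Finset.smul_sum, Finset.sum_comm, fld, mul_smul,
    Finset.sum_congr rfl fun p _ => Finset.sum_comm]
  simp only [← Finset.sum_smul, hU, ite_smul, one_smul, zero_smul, ite_and, Finset.sum_ite_eq,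
    Finset.mem_univ, if_true]
  simp only [mul_smul, ← Finset.smul_sum]
  rw [← Finset.sum_filter, Finset.filter_mem_eq_inter, Finset.univ_inter]

theorem cd_fld (a : ℕ) {T : ι → V ι → ℂ} (hH : CdM 1 H z) (hp : (H z).PosDef)
    (hT : ∀ i, ContDiffAt ℝ 2 (T i) z) (i j : ι) :
    ContDiffAt ℝ 1 (fun w => ((ex a H w * star (T i w)) • shp H (T i) w) j) z :=
  ((cd_ex a hH (det_pos hp).ne').mul (cd_star ((hT i).of_le one_le_two))).mul
    (cd_shp hH (det_ne hp) (hT i) le_rfl j)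

theorem fld_div (hc : CurvS) (a : ℕ) {η : ℝ} {T : ι → V ι → ℂ} {U : Set (V ι)} (hU : IsOpen U)
    (hH : KOn H U) (hz : z ∈ U) (hT : ∀ i, ContDiffAt ℝ 2 (T i) z)
    (e : ∀ i ∈ s, boxL a H (T i) z = η * T i z) :
    (∑ j, dz (fun w => fld a s H T w j) j z).re = (H z).det.re / (H z).det.re ^ a *
      ∑ i ∈ s, (η * ‖T i z‖ ^ 2 + nV (H z) (shp H (T i) z)) := by
  have d := fun i j => (cd_fld a ((hH.1.1.cd2 hz).of_le one_le_two) (hH.2 z hz) hT i
    j).differentiableAt one_ne_zero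
  simp only [fld, Finset.sum_apply, fun j => dz_sum s (fun i _ => d i j) j]
  rw [Finset.sum_comm, re_sum, Finset.mul_sum]
  refine Finset.sum_congr rfl fun i hi => ?_
  rw [div_sec hc a hU hH hz (hT i) ((hT i).of_le one_le_two), ex_eq a (det_pos (hH.2 z hz)),
    re_ofReal_mul, e i hi, mul_assoc, ← nsq, ← ofReal_mul, add_re, ofReal_re, nV]

end BasicX

open BasicX Green UBas in
theorem basicX (ha : RepA) (hb : RepB) (hd : DivS) (hc : CurvS) (hm : MatS) (hv : VolS) :
    BasicS := by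
  intro ι X _ _ _ _ _ _ _ M g h μ C s c η a σ hg hh hμ hP hR hη hσ hB
  have ha := ha ι X M
  have hb := hb ι X M
  have hV := (hv ι X M g hg).2 μ hμ
  have := hV.fin
  have := hV.pos
  have c1 : ∀ k, ∀ z ∈ (C.e k).target, ∀ i, ContDiffAt ℝ 2 (dz (M.rep a σ (C.e k)) i) z :=
    fun k z hz i => two (contDiffAt_dz_top (hσ _ (C.mem k) z hz) i)
  have c2 : ∀ k, ∀ z ∈ (C.e k).target, ∀ i, ContDiffAt ℝ 2 (dzb (M.rep a σ (C.e k)) i) z :=
    fun k z hz i => two (contDiffAt_dzb_top (hσ _ (C.mem k) z hz) i)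
  have c3 : ∀ k, ∀ z ∈ (C.e k).target, ∀ T : ι → V ι → ℂ, (∀ i, ContDiffAt ℝ 2 (T i) z) →
      ∀ j, ContDiffAt ℝ 1 (fun w => fld a s (M.repF h (C.e k)) T w j) z := fun k z hz T hT j => by
    simp only [fld, Finset.sum_apply]
    exact ContDiffAt.sum fun i _ => cd_fld a (((hh _ (C.mem k)).1.1.cd2 hz).of_le one_le_two)
      ((hh _ (C.mem k)).2 z hz) hT i j
  obtain ⟨d, hd1, hd2, hd3⟩ := hd ι X M g μ (range C.e) (fun e => e.target)
    (fun e z => fld a s (M.repF h e) (dz (M.rep a σ e)) z +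
      fld a s (M.repF h e) (dzb (M.rep a σ e)) z) hg hμ (range_subset_iff.2 C.mem)
    (fun e _ => ⟨e.open_target, subset_rfl⟩)
    (fun x => (C.cover x).elim fun k hk => ⟨_, ⟨k, rfl⟩, hk.1, (C.e k).map_source hk.1⟩)
    (by
      rintro _ ⟨k, rfl⟩ z hz
      exact contDiffAt_pi.2 fun j => (c3 k z hz _ (c1 k z hz) j).add (c3 k z hz _ (c2 k z hz) j))
    (by
      rintro _ ⟨k, rfl⟩ _ ⟨l, rfl⟩ x hx hx' hz hz'
      have h1 := M.hol _ (C.mem k) _ (C.mem l) x hx hx'
      have h0 := ha.tj_det _ (C.mem k) _ (C.mem l) x hx hx'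
      have hu : ∀ᶠ w in 𝓝 (C.e k x), Uni s (jac (C.e l ∘ (C.e k).symm) w) := by
        filter_upwards [RepB.ev hx hx', RepB.repF_ev ha g (C.mem k) (C.mem l) hx hx'] with w k1 k2
        have := hP.2 k l _ ((C.e k).map_target k1.1) k1.2
        rw [tj, (C.e k).right_inv k1.1] at this
        exact ⟨this, _, _, hP.1 k w k1.1, hP.1 l _ ((C.e l).map_source k1.2), k2⟩
      obtain ⟨u1, _, _, u2, u3, u4⟩ := hu.self_of_nhds
      have hz2 : (C.e l ∘ (C.e k).symm) (C.e k x) ∈ (C.e l).target := by rwa [RepB.tr_pt hx]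
      have law := fun i hi => dz_law (i := i) h1 h0 hu (two (hσ _ (C.mem l) _ hz2))
        (RepB.rep_ev ha a σ (C.mem k) (C.mem l) hx hx') hi
      have e' := (RepB.repF_ev ha h (C.mem k) (C.mem l) hx hx').self_of_nhds
      rw [mulVec_add, smul_add, ← RepB.tr_pt (e' := C.e l) hx, tj,
        fld_law h1 h0 ((hh _ (C.mem k)).2 _ hz) ((hh _ (C.mem l)).2 _ hz2) e'
          (fun p => (c1 l _ hz2 p).differentiableAt two_ne_zero) (row u1 u2 u3 u4)
          fun i hi => (law i hi).1,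
        fld_law h1 h0 ((hh _ (C.mem k)).2 _ hz) ((hh _ (C.mem l)).2 _ hz2) e'
          (fun p => (c2 l _ hz2 p).differentiableAt two_ne_zero) (fun p q => by
            have := congrArg star (row u1 u2 u3 u4 p q)
            rw [star_sum, apply_ite star, star_one, star_zero] at this
            simpa only [star_mul', map_apply] using this)
          fun i hi => (law i hi).2])
  have key : ∀ k, ∀ z ∈ ball (0 : V ι) (4 * C.r k), ∃ A > (0 : ℝ), ∃ B ≥ (0 : ℝ),
      (d ((C.e k).symm z)).re = A * (η * ∑ i ∈ s, (‖dz (M.rep a σ (C.e k)) i z‖ ^ 2 +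
        ‖dzb (M.rep a σ (C.e k)) i z‖ ^ 2) + B) := fun k z hz => by
    have ht := C.sub k (ball_subset_closedBall hz)
    have hK := hh _ (C.mem k)
    have hF := hσ _ (C.mem k) z ht
    have ev := isOpen_ball.eventually_mem hz
    have e1 : (M.rep a (fun x => (η : ℂ) * σ x - M.box a h σ x) (C.e k)) =ᶠ[𝓝 z] fun w =>
        η * M.rep a σ (C.e k) w - boxL a (M.repF h (C.e k)) (M.rep a σ (C.e k)) w :=
      ((C.e k).open_target.eventually_mem ht).mono fun w hw => by
        have := hb.box_rep a h σ hh _ (C.mem k) _ ((C.e k).map_target hw)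
        rw [(C.e k).right_inv hw] at this
        simp only [← this (two (hσ _ (C.mem k) w hw)), Atl.rep]
        ring
    have dB : DifferentiableAt ℝ (boxL a (M.repF h (C.e k)) (M.rep a σ (C.e k))) z := by
      rw [boxL_eq]
      exact DifferentiableAt.fun_sum fun i _ => DifferentiableAt.fun_sum fun j _ =>
        (df ((hK.1.1.cd ht).inv (det_ne (hK.2 z ht)) j i)).fun_mul
          ((df (contDiffAt_levi_top hF i j)).fun_sub (((df (contDiffAt_dz_top
            (lg_bas hm hh hR k hz).1 i)).fun_mul (df (contDiffAt_dzb_top hF j))).const_mul _))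
    have b1 : ∀ i ∈ s, boxL a (M.repF h (C.e k)) (dz (M.rep a σ (C.e k)) i) z =
        η * dz (M.rep a σ (C.e k)) i z := fun i hi => by
      have := dz_congr e1 i
      rw [dz_sub ((df hF).const_mul _) dB, dz_cmul _ (df hF), dz_box a (hK.1.1.cd ht) (hK.2 z ht) hF
        ((lg_bas hm hh hR k hz).2 i hi).1 (ev.mono fun w hw =>
          ((lg_bas hm hh hR k hw).2 i hi).2.2.1), dz, hB k z hz i hi, hB k z hz i hi] at this
      linear_combination this
    have b2 : ∀ i ∈ s, boxL a (M.repF h (C.e k)) (dzb (M.rep a σ (C.e k)) i) z =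
        η * dzb (M.rep a σ (C.e k)) i z := fun i hi => by
      have := dzb_congr e1 i
      rw [dzb_sub ((df hF).const_mul _) dB, dzb_cmul _ (df hF), dzb_box a (hK.1.1.cd ht)
        (hK.2 z ht) hF ((lg_bas hm hh hR k hz).2 i hi).2.1 (ev.mono fun w hw =>
          ((lg_bas hm hh hR k hw).2 i hi).2.2.2), dzb, hB k z hz i hi, hB k z hz i hi] at this
      linear_combination this
    have e2 := hd3 _ ⟨k, rfl⟩ _ ((C.e k).map_target ht) (by rwa [(C.e k).right_inv ht])
    rw [(C.e k).right_inv ht] at e2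
    simp only [Pi.add_apply, fun j => dz_add
      ((c3 k z ht _ (c1 k z ht) j).differentiableAt one_ne_zero)
      ((c3 k z ht _ (c2 k z ht) j).differentiableAt one_ne_zero) j, Finset.sum_add_distrib] at e2
    have e3 := congrArg re e2
    rw [add_re, fld_div hc a (C.e k).open_target hK ht (c1 k z ht) b1,
      fld_div hc a (C.e k).open_target hK ht (c2 k z ht) b2, re_ofReal_mul] at e3
    have p1 := det_pos (hK.2 z ht)
    have p2 := det_pos ((hg _ (C.mem k)).2 z ht)
    refine ⟨_, div_pos (div_pos p1 (pow_pos p1 a)) p2, _, add_nonneg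
      (Finset.sum_nonneg (s := s) fun i _ => hm.nv_mono ι _ (shp (M.repF h (C.e k))
        (dz (M.rep a σ (C.e k)) i) z) (hK.2 z ht).posSemidef)
      (Finset.sum_nonneg (s := s) fun i _ => hm.nv_mono ι _ (shp (M.repF h (C.e k))
        (dzb (M.rep a σ (C.e k)) i) z) (hK.2 z ht).posSemidef), ?_⟩
    rw [div_mul_eq_mul_div, eq_div_iff p2.ne', mul_comm, ← e3]
    simp only [Finset.sum_add_distrib, ← Finset.mul_sum]
    ring
  have pos : ∀ x, 0 ≤ (d x).re := fun x => by
    obtain ⟨k, h1, h2⟩ := C.cover x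
    obtain ⟨A, hA, B, hB', e⟩ := key k (C.e k x) (by
      have := C.pos k
      rw [mem_ball_zero_iff]; linarith)
    rw [(C.e k).left_inv h1] at e
    rw [e]
    positivity
  have cr : Continuous fun x => (d x).re := continuous_re.comp hd1
  have h0 : ∫ x, (d x).re ∂μ = 0 := (reCLM.integral_comp_comm (intg hd1)).trans (congrArg re hd2)
  have h1 := (cr.ae_eq_iff_eq μ continuous_zero).1 ((integral_eq_zero_iff_of_nonneg pos
    (cr.integrable_of_hasCompactSupport (HasCompactSupport.of_compactSpace _))).1 h0)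
  intro k z hz i hi c
  obtain ⟨A, hA, B, hB', e⟩ := key k z hz
  rw [show (d ((C.e k).symm z)).re = 0 from congrFun h1 _] at e
  have e1 := (mul_eq_zero.1 e.symm).resolve_left hA.ne'
  have e2 := Finset.single_le_sum (f := fun i => ‖dz (M.rep a σ (C.e k)) i z‖ ^ 2 +
    ‖dzb (M.rep a σ (C.e k)) i z‖ ^ 2) (fun _ _ => by positivity) hi
  have e3 : ‖dz (M.rep a σ (C.e k)) i z‖ ^ 2 + ‖dzb (M.rep a σ (C.e k)) i z‖ ^ 2 ≤ 0 := by
    by_contra hn
    have := mul_pos hη ((not_le.1 hn).trans_le e2)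
    linarith
  have e4 : dz (M.rep a σ (C.e k)) i z = 0 := by
    simpa using le_antisymm ((le_add_of_nonneg_right (sq_nonneg _)).trans e3) (sq_nonneg _)
  have e5 : dzb (M.rep a σ (C.e k)) i z = 0 := by
    simpa using le_antisymm ((le_add_of_nonneg_left (sq_nonneg _)).trans e3) (sq_nonneg _)
  rw [fderiv_single, e4, e5, zero_mul, zero_mul, add_zero]

end

end Pool.Agent.Lib.MP_813db1_ag.HS
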