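import Pool.Agent.Lib.MP_813db1_ag.HS.Stmt
import Pool.Agent.Lib.MP_813db1_ag.HS.Cal_Alg

/-! Pointwise estimates for the Calabi computation. -/

namespace Pool.Agent.Lib.MP_813db1_ag.HS.Cal

open Matrix
open scoped ComplexOrder Kronecker

variable {ι κ : Type} [Fintype ι] [DecidableEq ι] [Fintype κ] [DecidableEq κ]

/-- uniformly positive matrices. -/
def Gd (L : ℝ) (M : Mat ι) : Prop := M.PosDef ∧ Bd L M ∧ Bd L M⁻¹

theorem Gd.inv {L : ℝ} {M : Mat ι} (h : Gd L M) : Gd L M⁻¹ :=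
  ⟨h.1.inv, h.2.2, by
    rw [nonsing_inv_nonsing_inv _ ((isUnit_iff_isUnit_det _).1 h.1.isUnit)]
    exact h.2.1⟩

theorem Gd.tr {L : ℝ} {M : Mat ι} (h : Gd L M) : Gd L Mᵀ :=
  ⟨h.1.transpose, fun i j => h.2.1 j i, by
    rw [← transpose_nonsing_inv]
    exact fun i j => h.2.2 j i⟩

omit [Fintype ι] [DecidableEq ι] [Fintype κ] [DecidableEq κ] in
theorem bd_kron {a b : ℝ} {A : Mat ι} {B : Mat κ} (h : Bd a A) (h' : Bd b B) :
    Bd (a * b) (A ⊗ₖ B) := fun i j => by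
  rw [kroneckerMap_apply, norm_mul]
  exact mul_le_mul (h _ _) (h' _ _) (norm_nonneg _) ((norm_nonneg _).trans (h i.1 i.1))

theorem Gd.kron {a b : ℝ} {A : Mat ι} {B : Mat κ} (h : Gd a A) (h' : Gd b B) :
    Gd (a * b) (A ⊗ₖ B) :=
  ⟨h.1.kronecker h'.1, bd_kron h.2.1 h'.2.1, by
    rw [inv_kronecker]
    exact bd_kron h.2.2 h'.2.2⟩

omit [DecidableEq ι] in
theorem bd_mul {a b : ℝ} {A B : Mat ι} (h : Bd a A) (h' : Bd b B) :
    Bd (Fintype.card ι * (a * b)) (A * B) := fun i j => by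
  rw [Matrix.mul_apply]
  refine (norm_sum_le _ _).trans ((Finset.sum_le_card_nsmul _ _ (a * b) fun m _ => ?_).trans ?_)
  · rw [norm_mul]
    exact mul_le_mul (h _ _) (h' _ _) (norm_nonneg _) ((norm_nonneg _).trans (h i i))
  · simp

omit [Fintype ι] [DecidableEq ι] in
theorem bd_sub {a b : ℝ} {A B : Mat ι} (h : Bd a A) (h' : Bd b B) : Bd (a + b) (A - B) :=
  fun i j => (norm_sub_le _ _).trans (add_le_add (h i j) (h' i j))

omit [Fintype ι] in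
theorem bd_one : Bd 1 (1 : Mat ι) := fun i j => by
  rw [Matrix.one_apply]
  split_ifs <;> simp

omit [DecidableEq ι] in
theorem bd_act {t p : ℝ} {T : ι → Mat ι} {P : Mat ι} (h : ∀ k, Bd t (T k)) (h' : Bd p P) (m : ι) :
    Bd (Fintype.card ι * (t * p) + Fintype.card ι * (p * t) + Fintype.card ι * (p * t))
      (act T P m) := by
  rw [act_apply]
  refine bd_sub (bd_sub (bd_mul (h m) h') (bd_mul h' (h m))) fun i j => ?_
  rw [Matrix.sum_apply]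
  refine (norm_sum_le _ _).trans ((Finset.sum_le_card_nsmul _ _ (p * t) fun k _ => ?_).trans ?_)
  · rw [Matrix.smul_apply, norm_smul]
    exact mul_le_mul (h' _ _) (h _ _ _) (norm_nonneg _) ((norm_nonneg _).trans (h' i i))
  · simp

omit [DecidableEq ι] in
theorem ipV_le {L : ℝ} {M : Mat ι} (h : Bd L M) (v w : V ι) :
    ‖ipV M v w‖ ≤ Fintype.card ι * (Fintype.card ι * (L * ‖v‖ * ‖w‖)) := by
  rw [ipV]
  refine (norm_sum_le _ _).trans ((Finset.sum_le_card_nsmul _ _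
    (Fintype.card ι * (L * ‖v‖ * ‖w‖)) fun i _ => ?_).trans (by simp))
  refine (norm_sum_le _ _).trans ((Finset.sum_le_card_nsmul _ _
    (L * ‖v‖ * ‖w‖) fun j _ => ?_).trans (by simp))
  have h0 : 0 ≤ L := (norm_nonneg _).trans (h i j)
  rw [norm_mul, norm_mul, norm_star]
  gcongr
  exacts [h i j, norm_le_pi_norm v i, norm_le_pi_norm w j]

omit [DecidableEq ι] [DecidableEq κ] in
theorem ipV_kron (A : Mat ι) (B : Mat κ) (v w : ι → V κ) :
    ipV (A ⊗ₖ B) (fun x => v x.1 x.2) (fun x => w x.1 x.2) =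
      ∑ k, ∑ l, A k l * ipV B (v k) (w l) := by
  simp only [ipV, Fintype.sum_prod_type, kroneckerMap_apply, Finset.mul_sum, mul_assoc]
  exact Finset.sum_congr rfl fun k _ => Finset.sum_comm

/-- a tensor as a vector. -/
def fl (T : ι → Mat ι) : V (ι × ι × ι) := fun x => T x.1 x.2.1 x.2.2

omit [DecidableEq ι] in
theorem bd_fl (T : ι → Mat ι) (k : ι) : Bd ‖fl T‖ (T k) :=
  fun i j => norm_le_pi_norm (fl T) (k, i, j)

omit [DecidableEq ι] in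
theorem fl_le {t : ℝ} (ht : 0 ≤ t) {T : ι → Mat ι} (h : ∀ k, Bd t (T k)) : ‖fl T‖ ≤ t :=
  (pi_norm_le_iff_of_nonneg ht).2 fun x => h x.1 x.2.1 x.2.2

omit [DecidableEq ι] in
theorem ip_eq (H K : Mat ι) (T T' : ι → Mat ι) :
    ip H K T' T = ipV (Kᵀ ⊗ₖ (Kᵀ ⊗ₖ H)) (fl T) (fl T') := by
  have e := ipV_kron Kᵀ (Kᵀ ⊗ₖ H) (fun k x => T k x.1 x.2) (fun k x => T' k x.1 x.2)
  rw [ip_apply]
  refine Eq.trans ?_ e.symm
  refine Finset.sum_congr rfl fun k _ => Finset.sum_congr rfl fun l _ => ?_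
  rw [ipV_kron Kᵀ H (T k) (T' l), transpose_apply]
  congr 1
  simp only [trace, diag_apply, Matrix.mul_apply, ipV, transpose_apply, conjTranspose_apply,
    Finset.sum_mul, Finset.mul_sum]
  refine Finset.sum_congr rfl fun i _ => Finset.sum_congr rfl fun j _ => ?_
  rw [Finset.sum_comm]
  refine Finset.sum_congr rfl fun p _ => Finset.sum_congr rfl fun q _ => ?_
  ring

theorem est (hm : MatS) (ι : Type) [Fintype ι] [DecidableEq ι] (L : ℝ) (hL : 0 ≤ L) :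
    ∃ C ≥ 0, ∀ (H ρ : Mat ι) (G ρ' : ι → Mat ι) (X Z : ι → ι → Mat ι), Gd L H → Bd L ρ →
      (∀ k, Bd L (ρ' k)) → 0 ≤ (ip H H⁻¹ G G).re ∧
      (∀ k i j, ‖(G k * H) i j‖ ^ 2 ≤ C * (ip H H⁻¹ G G).re) ∧ ∃ Y ≥ 0,
      Y - C * ((ip H H⁻¹ G G).re + 1) ≤ (ip H H⁻¹ G (fun k => (G k * ρ - ρ' k) * H⁻¹) +
        ip H H⁻¹ (fun k => (G k * ρ - ρ' k) * H⁻¹) G + ip H H⁻¹ (act G (1 - ρ * H⁻¹)) G +
        ∑ p, ∑ q, H⁻¹ q p * ip H H⁻¹ (Z p) (Z q) +
        ∑ p, ∑ q, H⁻¹ q p * ip H H⁻¹ (X q) (X p)).re ∧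
      (grL H (fun i => ip H H⁻¹ G (X i) + ip H H⁻¹ (Z i) G)
        (fun i => ip H H⁻¹ G (X i) + ip H H⁻¹ (Z i) G)).re ≤ C * (ip H H⁻¹ G G).re * Y := by
  obtain ⟨c, hc, h3⟩ := hm.nv (ι × ι × ι) (L * (L * L))
  obtain ⟨d, hd, h4⟩ := hm.nv (ι × ι × ι × ι) (L * (L * (L * L)))
  obtain ⟨N, hN⟩ : ∃ N : ℝ, N = Fintype.card ι := ⟨_, rfl⟩
  have N0 : 0 ≤ N := hN ▸ Nat.cast_nonneg _
  obtain ⟨A, A0, hA⟩ : ∃ A : ℝ, 0 ≤ A ∧ ∀ H : Mat ι, Gd L H → ∀ T T' : ι → Mat ι,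
      ‖ip H H⁻¹ T' T‖ ≤ A * ‖fl T‖ * ‖fl T'‖ := by
    refine ⟨Fintype.card (ι × ι × ι) * (Fintype.card (ι × ι × ι) * (L * (L * L))), by positivity,
      fun H h T T' => ?_⟩
    rw [ip_eq]
    exact (ipV_le (h.inv.tr.kron (h.inv.tr.kron h)).2.1 _ _).trans (le_of_eq (by ring))
  obtain ⟨B, hB⟩ : ∃ B, B = 2 * A * N * L * (N * L + L) + 3 * A * N * (1 + N * (L * L)) := ⟨_, rfl⟩
  have B0 : 0 ≤ B := by rw [hB]; positivity
  have p1 : 0 ≤ (N * L) ^ 2 / c := by positivity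
  have p2 : 0 ≤ B * (1 / c + 1) := by positivity
  have p3 : 0 ≤ 2 * N ^ 2 * L * A ^ 2 / (c * d) := by positivity
  refine ⟨(N * L) ^ 2 / c + B * (1 / c + 1) + 2 * N ^ 2 * L * A ^ 2 / (c * d), by positivity,
    fun H ρ G ρ' X Z h hρ hρ' => ?_⟩
  have g3 := h.inv.tr.kron (h.inv.tr.kron h)
  have g4 := h.inv.tr.kron g3
  have g5 := h.inv.kron g3
  obtain ⟨s, hs⟩ : ∃ s, s = (ip H H⁻¹ G G).re := ⟨_, rfl⟩
  obtain ⟨t, ht⟩ : ∃ t, t = ‖fl G‖ := ⟨_, rfl⟩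
  have t0 : 0 ≤ t := ht ▸ norm_nonneg _
  have k1 : c * t ^ 2 ≤ s := by
    rw [hs, ht, ip_eq]
    exact (h3 _ g3.1 g3.2.1 g3.2.2 _).1
  have s0 : 0 ≤ s := le_trans (by positivity) k1
  have k2 : t ^ 2 ≤ s / c := by rwa [le_div_iff₀' hc]
  have bG : ∀ k, Bd t (G k) := ht ▸ bd_fl G
  rw [← hs]
  refine ⟨s0, fun k i j => ?_, ?_⟩
  · have := bd_mul (bG k) h.2.1 i j
    rw [← hN] at this
    calc _ ≤ (N * (t * L)) ^ 2 := by gcongr
      _ = (N * L) ^ 2 * t ^ 2 := by ring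
      _ ≤ (N * L) ^ 2 * (s / c) := by gcongr
      _ = (N * L) ^ 2 / c * s := by ring
      _ ≤ _ := by gcongr; linarith
  obtain ⟨x, hx⟩ : ∃ x, x = ‖fun a : ι × ι × ι × ι => fl (X a.1) a.2‖ := ⟨_, rfl⟩
  obtain ⟨y, hy⟩ : ∃ y, y = ‖fun a : ι × ι × ι × ι => fl (Z a.1) a.2‖ := ⟨_, rfl⟩
  have x0 : 0 ≤ x := hx ▸ norm_nonneg _
  have y0 : 0 ≤ y := hy ▸ norm_nonneg _
  have k3 : d * x ^ 2 ≤ (∑ p, ∑ q, H⁻¹ q p * ip H H⁻¹ (X q) (X p)).re := by
    have := (h4 _ g4.1 g4.2.1 g4.2.2 fun a => fl (X a.1) a.2).1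
    rw [nV, ipV_kron _ _ (fun p => fl (X p)) (fun p => fl (X p)), ← hx] at this
    simpa only [ip_eq, transpose_apply] using this
  have k4 : d * y ^ 2 ≤ (∑ p, ∑ q, H⁻¹ q p * ip H H⁻¹ (Z p) (Z q)).re := by
    have := (h4 _ g5.1 g5.2.1 g5.2.2 fun a => fl (Z a.1) a.2).1
    rw [nV, ipV_kron _ _ (fun p => fl (Z p)) (fun p => fl (Z p)), ← hy, Finset.sum_comm] at this
    simpa only [ip_eq] using this
  refine ⟨d * (x ^ 2 + y ^ 2), by positivity, ?_, ?_⟩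
  · have w1 : ‖fl fun k => (G k * ρ - ρ' k) * H⁻¹‖ ≤ N * ((N * (t * L) + L) * L) :=
      fl_le (by positivity) fun k => hN ▸ bd_mul (bd_sub (bd_mul (bG k) hρ) (hρ' k)) h.2.2
    have w2 : ‖fl (act G (1 - ρ * H⁻¹))‖ ≤ N * (t * (1 + N * (L * L))) +
        N * ((1 + N * (L * L)) * t) + N * ((1 + N * (L * L)) * t) :=
      fl_le (by positivity) fun k => hN ▸ bd_act bG (bd_sub bd_one (bd_mul hρ h.2.2)) k
    have a1 := (Complex.abs_re_le_norm _).trans (hA H h (fun k => (G k * ρ - ρ' k) * H⁻¹) G)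
    have a2 := (Complex.abs_re_le_norm _).trans (hA H h G fun k => (G k * ρ - ρ' k) * H⁻¹)
    have a3 := (Complex.abs_re_le_norm _).trans (hA H h G (act G (1 - ρ * H⁻¹)))
    rw [← ht] at a1 a2 a3
    have b1 : A * t * ‖fl fun k => (G k * ρ - ρ' k) * H⁻¹‖ ≤
        A * N * L * (N * L + L) * (t ^ 2 + 1) := by
      calc _ ≤ A * t * (N * ((N * (t * L) + L) * L)) := by gcongr
        _ = A * N * L * (N * L * t ^ 2 + L * t) := by ring
        _ ≤ A * N * L * (N * L * (t ^ 2 + 1) + L * (t ^ 2 + 1)) := by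
          gcongr
          · linarith
          · nlinarith [sq_nonneg (t - 1)]
        _ = _ := by ring
    have b2 : A * t * ‖fl (act G (1 - ρ * H⁻¹))‖ ≤
        3 * A * N * (1 + N * (L * L)) * (t ^ 2 + 1) := by
      calc _ ≤ A * t * (N * (t * (1 + N * (L * L))) +
            N * ((1 + N * (L * L)) * t) + N * ((1 + N * (L * L)) * t)) := by gcongr
        _ = 3 * A * N * (1 + N * (L * L)) * t ^ 2 := by ring
        _ ≤ _ := by gcongr; linarith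
    have b3 : B * (t ^ 2 + 1) ≤ B * (1 / c + 1) * (s + 1) := by
      rw [mul_assoc]
      gcongr
      have : s / c = 1 / c * s := by ring
      have : 0 ≤ 1 / c := by positivity
      nlinarith
    have b4 : B * (1 / c + 1) * (s + 1) ≤
        ((N * L) ^ 2 / c + B * (1 / c + 1) + 2 * N ^ 2 * L * A ^ 2 / (c * d)) * (s + 1) := by
      gcongr
      linarith
    have b5 : B * (t ^ 2 + 1) = 2 * (A * N * L * (N * L + L) * (t ^ 2 + 1)) +
        3 * A * N * (1 + N * (L * L)) * (t ^ 2 + 1) := by rw [hB]; ring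
    simp only [Complex.add_re]
    have c1 := neg_le_of_abs_le a1
    have c2 := neg_le_of_abs_le a2
    have c3 := neg_le_of_abs_le a3
    rw [mul_right_comm] at c1
    linarith
  · have u : ‖fun i => ip H H⁻¹ G (X i) + ip H H⁻¹ (Z i) G‖ ≤ A * t * (x + y) := by
      refine (pi_norm_le_iff_of_nonneg (by positivity)).2 fun i => ?_
      have u1 : ‖fl (X i)‖ ≤ x := (pi_norm_le_iff_of_nonneg x0).2 fun a =>
        hx ▸ norm_le_pi_norm (fun a : ι × ι × ι × ι => fl (X a.1) a.2) (i, a)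
      have u2 : ‖fl (Z i)‖ ≤ y := (pi_norm_le_iff_of_nonneg y0).2 fun a =>
        hy ▸ norm_le_pi_norm (fun a : ι × ι × ι × ι => fl (Z a.1) a.2) (i, a)
      have a1 := hA H h (X i) G
      have a2 := hA H h G (Z i)
      rw [← ht] at a1 a2
      calc _ ≤ A * ‖fl (X i)‖ * t + A * t * ‖fl (Z i)‖ := (norm_add_le _ _).trans (add_le_add a1 a2)
        _ ≤ A * x * t + A * t * y := by gcongr
        _ = _ := by ring
    have v := (Complex.re_le_norm _).trans (ipV_le h.inv.tr.2.1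
      (fun i => ip H H⁻¹ G (X i) + ip H H⁻¹ (Z i) G) fun i => ip H H⁻¹ G (X i) + ip H H⁻¹ (Z i) G)
    rw [← hN] at v
    refine v.trans ?_
    calc _ ≤ N * (N * (L * (A * t * (x + y)) * (A * t * (x + y)))) := by gcongr
      _ = N ^ 2 * L * A ^ 2 * (t ^ 2 * (x + y) ^ 2) := by ring
      _ ≤ N ^ 2 * L * A ^ 2 * (s / c * (2 * (x ^ 2 + y ^ 2))) := by
        gcongr
        nlinarith [sq_nonneg (x - y)]
      _ = 2 * N ^ 2 * L * A ^ 2 / (c * d) * s * (d * (x ^ 2 + y ^ 2)) := by field_simp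
      _ ≤ _ := by gcongr; linarith

end Pool.Agent.Lib.MP_813db1_ag.HS.Cal
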