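import Pool.Agent.Lib.MP_813db1_ag.HS.StmtF
import Pool.Agent.Lib.MP_813db1_ag.HS.Green
import Pool.Agent.Lib.MP_813db1_ag.HS.FGauge

/-! The count of low energy basic sections: pointwise facts. -/

namespace Pool.Agent.Lib.MP_813db1_ag.HS

open MeasureTheory Complex Matrix Filter Topology Set Metric
open scoped ContDiff ComplexOrder ENNReal

namespace CntX

section loc

variable {ι : Type} [Fintype ι] [DecidableEq ι] {H : V ι → Mat ι} {z : V ι}

theorem shp_sum {Q : ℕ} (c : Fin Q → ℂ) {F : Fin Q → V ι → ℂ}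
    (h : ∀ j, DifferentiableAt ℝ (F j) z) :
    shp H (fun w => ∑ j, c j * F j w) z = ∑ j, c j • shp H (F j) z := by
  funext i
  have e : ∀ l, dzb (fun w => ∑ j, c j * F j w) l z = ∑ j, c j * dzb (F j) l z := fun l => by
    rw [dzb_sum _ fun j _ => (h j).const_mul (c j)]
    exact Finset.sum_congr rfl fun j _ => dzb_cmul _ (h j) _
  simp only [shp, Finset.sum_apply, Pi.smul_apply, smul_eq_mul, e, Finset.mul_sum]
  rw [Finset.sum_comm]
  exact Finset.sum_congr rfl fun j _ => Finset.sum_congr rfl fun l _ => by ring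

theorem nD_smul (c : ℂ) {U : V ι → V ι} (h : ∀ i, DifferentiableAt ℝ (fun w => U w i) z) :
    nD H (fun w => c • U w) z = ‖c‖ ^ 2 * nD H U z := by
  have e : ∀ i k, dzb (fun w => (c • U w) i) k z = c * dzb (fun w => U w i) k z := fun i k =>
    dzb_cmul c (h i) k
  rw [nD, nD, ← re_ofReal_mul, Green.nsq]
  simp only [e, Finset.mul_sum, star_mul']
  exact congrArg re (Finset.sum_congr rfl fun _ _ => Finset.sum_congr rfl fun _ _ =>
    Finset.sum_congr rfl fun _ _ => Finset.sum_congr rfl fun _ _ => by ring)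

omit [DecidableEq ι] in
theorem ipV_sum {Q : ℕ} (B : Mat ι) (c : Fin Q → ℂ) (v : Fin Q → V ι) :
    ipV B (∑ j, c j • v j) (∑ j, c j • v j) = ∑ i, ∑ j, c i * star (c j) * ipV B (v i) (v j) := by
  have l : ∀ (w : V ι), ipV B (∑ j, c j • v j) w = ∑ j, c j * ipV B (v j) w := fun w => by
    simp only [ipV, Finset.sum_apply, Pi.smul_apply, smul_eq_mul, Finset.mul_sum, Finset.sum_mul]
    rw [Finset.sum_congr rfl fun _ _ => Finset.sum_comm, Finset.sum_comm]
    exact Finset.sum_congr rfl fun _ _ => Finset.sum_congr rfl fun _ _ =>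
      Finset.sum_congr rfl fun _ _ => by ring
  have r : ∀ (w : V ι), ipV B w (∑ j, c j • v j) = ∑ j, star (c j) * ipV B w (v j) := fun w => by
    simp only [ipV, Finset.sum_apply, Pi.smul_apply, smul_eq_mul, Finset.mul_sum, star_sum,
      star_mul']
    rw [Finset.sum_congr rfl fun _ _ => Finset.sum_comm, Finset.sum_comm]
    exact Finset.sum_congr rfl fun _ _ => Finset.sum_congr rfl fun _ _ =>
      Finset.sum_congr rfl fun _ _ => by ring
  simp only [l, r, Finset.mul_sum, mul_assoc]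

theorem psd (hM : MatS) {A G : Mat ι} {ε T : ℝ} (hA : A.PosDef) (hG : G.PosSemidef) (hε : 0 ≤ ε)
    (hT : ε * trm A G ≤ T) : ((T : ℂ) • A - (ε : ℂ) • G).PosSemidef := by
  have h1 := (hM.le_trm ι A G hA hG).smul (a := (ε : ℂ)) (by exact_mod_cast hε)
  have h2 := hA.posSemidef.smul (a := ((T - ε * trm A G : ℝ) : ℂ)) (by exact_mod_cast sub_nonneg.2 hT)
  convert h1.add h2 using 1
  push_cast
  module

theorem nV_le (hM : MatS) {A G : Mat ι} {ε : ℝ} (hA : A.PosDef) (hG : G.PosSemidef) (hε : 0 ≤ ε)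
    (v : V ι) : ε * nV G v ≤ ε * trm A G * nV A v := by
  have h := FG.nV_nonneg (psd hM hA hG hε le_rfl) v
  have e := FG.nV_lin (ε * trm A G) (-ε) A G v
  rw [ofReal_neg, neg_smul, ← sub_eq_add_neg] at e
  linarith

theorem cont_trm {G : V ι → Mat ι} {U : Set (V ι)} (hH : KOn H U) (hG : KOn G U) :
    ContinuousOn (fun y => trm (H y) (G y)) U := fun y hy =>
  (continuous_re.continuousAt.comp ((hG.1.1.cd hy).mul ((hH.1.1.cd hy).inv
    (hH.2 y hy).det_pos.ne')).tr.continuousAt).continuousWithinAt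

theorem twt_pos {c : ℝ} (hc : 0 < c) (m b : ℕ) (A : Mat ι) : 0 < twt c m b A :=
  mul_pos (pow_pos (inv_pos.2 hc) _) (Real.exp_pos _)

end loc

variable {ι X : Type} [Fintype ι] [DecidableEq ι] [TopologicalSpace X] {M : Atl ι X}
  {g h : X → Mat ι} {C : Cov M} {s : Finset ι} {ε : ℝ}

omit [DecidableEq ι] in
theorem tgt (C : Cov M) (k : Fin C.n) {z : V ι} (hz : z ∈ ball (0 : V ι) (4 * C.r k)) :
    z ∈ (C.e k).target := C.sub k (ball_subset_closedBall hz)

theorem t_eq (ha : RepA' M) (hr : RowsS) (hh : M.IsK h) (hε : 0 < ε) (Rg : Rows' C s 1 g)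
    (Rh : Rows' C s ε h) (k : Fin C.n) {z : V ι} (hz : z ∈ ball (0 : V ι) (4 * C.r k)) :
    ε * trm (h ((C.e k).symm z)) (g ((C.e k).symm z)) - s.card =
      ε * trm (C.trv s h k (yp s z)) (C.trv s g k (yp s z)) := by
  have ht := tgt C k hz
  have e1 := ha.trm_rep h g _ (C.mem k) _ ((C.e k).map_target ht)
  rw [(C.e k).right_inv ht] at e1
  obtain ⟨a1, -, a3, -, a5, -⟩ := Rg.ent k z hz
  obtain ⟨b1, -, b3, -, b5, -⟩ := Rh.ent k z hz
  have e2 := hr.tr ι s _ _ _ _ (ofReal_ne_zero.2 hε.ne') ((hh _ (C.mem k)).2 z ht).det_pos.ne'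
    b1 b3 a1 a3
  rw [a5, b5] at e2
  rw [← e1, trm, e2, add_re, ← ofReal_div, ← ofReal_natCast, ← ofReal_mul, ofReal_re, trm]
  field_simp
  ring

theorem t_nonneg (hM : MatS) (ha : RepA' M) (hr : RowsS) (hh : M.IsK h) (hε : 0 < ε)
    (Rg : Rows' C s 1 g) (Rh : Rows' C s ε h) (x : X) : 0 ≤ ε * trm (h x) (g x) - s.card := by
  obtain ⟨k, h1, h2⟩ := C.cover x
  have hz : C.e k x ∈ ball (0 : V ι) (4 * C.r k) := mem_ball_zero_iff.2 (by linarith [C.pos k])
  have hy : yp s (C.e k x) ∈ ball (0 : V {i // i ∉ s}) (4 * C.r k) :=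
    mem_ball_zero_iff.2 (lt_of_le_of_lt ((pi_norm_le_iff_of_nonneg (norm_nonneg _)).2
      fun i => norm_le_pi_norm _ i.1) (mem_ball_zero_iff.1 hz))
  have e := t_eq ha hr hh hε Rg Rh k hz
  rw [(C.e k).left_inv h1] at e
  rw [e]
  exact mul_nonneg hε.le (hM.trm_nonneg _ _ _ ((Rh.kon k).2 _ hy) ((Rg.kon k).2 _ hy).posSemidef)

theorem ptw (hM : MatS) (ha : RepA' M) (hr : RowsS) (hd : DictS) (hg : M.IsK g) (hh : M.IsK h)
    (hε : 0 < ε) (Rg : Rows' C s 1 g) (Rh : Rows' C s ε h) {b : ℕ} {σ : X → ℂ}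
    (h1 : M.CkS ∞ (b + 1) σ) (h2 : C.BasL s (M.rep (b + 1) σ)) (x : X) :
    ε * (nV (g x) (M.shpX (b + 1) h σ x) * wt (b + 1) g h x) ≤
      (ε * trm (h x) (g x) - s.card) * (nV (h x) (M.shpX (b + 1) h σ x) * wt (b + 1) g h x) := by
  obtain ⟨k, x1, x2⟩ := C.cover x
  have hz : C.e k x ∈ ball (0 : V ι) (4 * C.r k) := mem_ball_zero_iff.2 (by linarith [C.pos k])
  obtain ⟨p1, p2⟩ := hd.bas ι X M C s (b + 1) σ k h1 h2
  obtain ⟨hy, p3⟩ := p2 _ hz
  have q := (hd.pt ι X M g h C s ε b σ _ k _ hg hh hε Rh hz (p1 _ hy) p3).2.1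
  have qg := q g
  have qh := q h
  have e := t_eq ha hr hh hε Rg Rh k hz
  rw [(Rg.ent k _ hz).2.2.2.2.1] at qg
  rw [(Rh.ent k _ hz).2.2.2.2.1] at qh
  rw [(C.e k).left_inv x1] at qg qh e
  have hD := FG.det_pos ((hg _ (C.mem k)).2 _ (tgt C k hz))
  have i1 := nV_le hM ((Rh.kon k).2 _ hy) ((Rg.kon k).2 _ hy).posSemidef hε.le
    (shp (C.trv s h k) (C.tS s (b + 1) σ k) (yp s (C.e k x)))
  have i2 := mul_le_mul_of_nonneg_right i1 (twt_pos hε s.card b (C.trv s h k (yp s (C.e k x)))).le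
  refine le_of_mul_le_mul_left ?_ hD
  rw [mul_left_comm, qg, mul_left_comm (M.repF g (C.e k) (C.e k x)).det.re, qh, e]
  linarith

theorem cont_e (hG : GreenS) (hg : M.IsK g) (hh : M.IsK h) {a : ℕ} {σ : X → ℂ} (h1 : M.CkS ∞ a σ)
    {B : X → Mat ι} (hB : M.IsK B) :
    Continuous fun x => nV (B x) (M.shpX a h σ x) * wt a g h x := by
  have k1 : M.CkS 1 a σ := fun e he z hz => (h1 e he z hz).of_le (by exact_mod_cast le_top)
  have := continuous_re.comp ((hG.cont ι X M g h a σ σ hg hh).2.1 k1 k1 B fun e he => (hB e he).1.1)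
  refine this.congr fun x => ?_
  simp only [Function.comp, nV, mul_re, ofReal_re, ofReal_im, mul_zero, sub_zero]

theorem shpX_sum {a Q : ℕ} (c : Fin Q → ℂ) {f : Fin Q → X → ℂ} (h1 : ∀ j, M.CkS ∞ a (f j)) (x : X) :
    M.shpX a h (fun x => ∑ j, c j * f j x) x = ∑ j, c j • M.shpX a h (f j) x := by
  have e : M.rep a (fun x => ∑ j, c j * f j x) (M.ch x) = fun w => ∑ j, c j * M.rep a (f j) (M.ch x) w :=
    funext fun w => by simp only [Atl.rep, Finset.mul_sum, mul_left_comm]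
  rw [Atl.shpX, e]
  exact shp_sum c fun j =>
    (h1 j _ (M.ch_mem x) _ ((M.ch x).map_source (M.mem x))).differentiableAt (by simp)

variable [T2Space X] [CompactSpace X] [MeasurableSpace X] [BorelSpace X] {μ : Measure X}

omit [T2Space X] in
theorem intg [IsFiniteMeasure μ] {f : X → ℝ} (hf : Continuous f) : Integrable f μ :=
  hf.integrable_of_hasCompactSupport (HasCompactSupport.of_compactSpace f)

omit [T2Space X] in
theorem e_sum [IsFiniteMeasure μ] (hG : GreenS) (hg : M.IsK g) (hh : M.IsK h) {a Q : ℕ}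
    {f : Fin Q → X → ℂ} (h1 : ∀ j, M.CkS ∞ a (f j))
    (h2 : ∀ i j, M.ip1 μ a g h (f i) (f j) = if i = j then 1 else 0) (c : Fin Q → ℂ) :
    ∫ x, nV (h x) (M.shpX a h (fun x => ∑ j, c j * f j x) x) * wt a g h x ∂μ = ∑ j, ‖c j‖ ^ 2 := by
  have k1 : ∀ j, M.CkS 1 a (f j) := fun j e he z hz =>
    (h1 j e he z hz).of_le (by exact_mod_cast le_top)
  have hi : ∀ i j, Integrable (fun x => c i * star (c j) *
      (ipV (h x) (M.shpX a h (f i) x) (M.shpX a h (f j) x) * (wt a g h x : ℂ))) μ := fun i j =>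
    (Green.intg ((hG.cont ι X M g h a (f i) (f j) hg hh).2.1 (k1 i) (k1 j) h
      fun e he => (hh e he).1.1)).const_mul _
  have e : ∀ x, nV (h x) (M.shpX a h (fun x => ∑ j, c j * f j x) x) * wt a g h x =
      RCLike.re (∑ i, ∑ j, c i * star (c j) *
        (ipV (h x) (M.shpX a h (f i) x) (M.shpX a h (f j) x) * (wt a g h x : ℂ))) := fun x => by
    simp only [← mul_assoc, ← Finset.sum_mul]
    rw [← ipV_sum, ← shpX_sum c h1 x]
    simp only [nV, RCLike.re_to_complex, mul_re, ofReal_re, ofReal_im, mul_zero, sub_zero]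
  simp only [e]
  rw [integral_re (integrable_finsetSum _ fun i _ => integrable_finsetSum _ fun j _ => hi i j),
    integral_finsetSum _ fun i _ => integrable_finsetSum _ fun j _ => hi i j]
  simp only [integral_finsetSum _ fun j _ => hi _ j, integral_const_mul]
  simp only [Atl.ip1] at h2
  simp only [h2, mul_ite, mul_one, mul_zero, Finset.sum_ite_eq, Finset.mem_univ, if_true,
    ← Green.nsq, RCLike.re_to_complex, re_sum, ofReal_re]

end CntX

end Pool.Agent.Lib.MP_813db1_ag.HS
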