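import Pool.Agent.Lib.MP_813db1_ag.HS.Stmt

/-! Uniform Hoelder bounds for families, difference quotients and limits. -/

namespace Pool.Agent.Lib.MP_813db1_ag.HS.Dq

open MeasureTheory Complex Matrix Filter Topology Set Metric
open scoped ContDiff ComplexOrder

variable {ι : Type} [Fintype ι] {κ : Type}
variable {W W' : Type} [NormedAddCommGroup W] [NormedAddCommGroup W']

/-- uniform Hoelder bound for a family. -/
def UH (F : κ → V ι → W) (U : Set (V ι)) : Prop := ∃ M, 0 ≤ M ∧ ∀ k, Hol M (F k) U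

theorem hol_mono {M M' : ℝ} {f : V ι → W} {U U' : Set (V ι)} (h : Hol M f U) (hM : M ≤ M')
    (hU : U' ⊆ U) : Hol M' f U' :=
  ⟨fun z hz => (h.1 z (hU hz)).trans hM, fun z hz w hw => (h.2 z (hU hz) w (hU hw)).trans
    (mul_le_mul_of_nonneg_right hM (Real.sqrt_nonneg _))⟩

theorem UH.of {F : κ → V ι → W} {U : Set (V ι)} {M : ℝ} (h : ∀ k, Hol M (F k) U) : UH F U :=
  ⟨max M 0, le_max_right _ _, fun k => hol_mono (h k) (le_max_left _ _) subset_rfl⟩

theorem UH.mono {F : κ → V ι → W} {U U' : Set (V ι)} (h : UH F U) (hU : U' ⊆ U) : UH F U' :=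
  h.imp fun _ h => ⟨h.1, fun k => hol_mono (h.2 k) le_rfl hU⟩

theorem UH.congr {F G : κ → V ι → W} {U : Set (V ι)} (h : UH F U)
    (e : ∀ k, ∀ z ∈ U, G k z = F k z) : UH G U := by
  obtain ⟨M, h0, h⟩ := h
  refine ⟨M, h0, fun k => ⟨fun z hz => ?_, fun z hz w hw => ?_⟩⟩
  · rw [e k z hz]; exact (h k).1 z hz
  · rw [e k z hz, e k w hw]; exact (h k).2 z hz w hw

theorem UH.add {F G : κ → V ι → W} {U : Set (V ι)} (h : UH F U) (h' : UH G U) :
    UH (fun k z => F k z + G k z) U := by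
  obtain ⟨M, h0, h⟩ := h
  obtain ⟨N, h0', h'⟩ := h'
  refine ⟨M + N, by positivity, fun k => ⟨fun z hz => ?_, fun z hz w hw => ?_⟩⟩
  · exact (norm_add_le _ _).trans (add_le_add ((h k).1 z hz) ((h' k).1 z hz))
  · rw [add_sub_add_comm, add_mul]
    exact (norm_add_le _ _).trans (add_le_add ((h k).2 z hz w hw) ((h' k).2 z hz w hw))

theorem UH.const (c : W) (U : Set (V ι)) : UH (fun (_ : κ) (_ : V ι) => c) U :=
  ⟨‖c‖, norm_nonneg _, fun _ => ⟨fun _ _ => le_rfl, fun _ _ _ _ => by simp; positivity⟩⟩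

theorem UH.sum {α : Type} (S : Finset α) {F : α → κ → V ι → W} {U : Set (V ι)}
    (h : ∀ a, UH (F a) U) : UH (fun k z => ∑ a ∈ S, F a k z) U := by
  classical
  induction S using Finset.induction_on with
  | empty => simpa using UH.const (0 : W) U
  | insert a S ha ih => simpa only [Finset.sum_insert ha] using (h a).add ih

theorem UH.clm [NormedSpace ℝ W] [NormedSpace ℝ W'] (T : W →L[ℝ] W') {F : κ → V ι → W}
    {U : Set (V ι)} (h : UH F U) : UH (fun k z => T (F k z)) U := by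
  obtain ⟨M, h0, h⟩ := h
  refine ⟨‖T‖ * M, by positivity, fun k => ⟨fun z hz => ?_, fun z hz w hw => ?_⟩⟩
  · exact T.le_opNorm_of_le ((h k).1 z hz)
  · rw [← map_sub, mul_assoc]
    exact T.le_opNorm_of_le ((h k).2 z hz w hw)

theorem mul_est {a b c d : ℂ} {M N s : ℝ} (h1 : ‖a‖ ≤ M) (h2 : ‖d‖ ≤ N) (h3 : ‖a - c‖ ≤ M * s)
    (h4 : ‖b - d‖ ≤ N * s) : ‖a * b - c * d‖ ≤ 2 * M * N * s := by
  rw [show a * b - c * d = a * (b - d) + (a - c) * d by ring]
  refine (norm_add_le _ _).trans ?_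
  rw [norm_mul, norm_mul]
  have := mul_le_mul h1 h4 (norm_nonneg _) ((norm_nonneg _).trans h1)
  have := mul_le_mul h3 h2 (norm_nonneg _) ((norm_nonneg _).trans h3)
  linarith

theorem UH.ext {χ G : κ → V ι → ℂ} {U B : Set (V ι)} (h : UH χ U)
    (h0 : ∀ k, ∀ z ∈ U, z ∉ B → χ k z = 0) (h' : UH G B) : UH (fun k z => χ k z * G k z) U := by
  obtain ⟨M, hM, h⟩ := h
  obtain ⟨N, hN, h'⟩ := h'
  have key : ∀ k, ∀ z ∈ U, ∀ w ∈ U, z ∈ B → w ∉ B →
      ‖χ k z * G k z - χ k w * G k w‖ ≤ 2 * M * N * √‖z - w‖ := fun k z hz w hw hzB hwB => by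
    have h1 := (h k).2 z hz w hw
    rw [h0 k w hw hwB, sub_zero] at h1
    rw [h0 k w hw hwB, zero_mul, sub_zero, norm_mul]
    have := mul_le_mul h1 ((h' k).1 z hzB) (norm_nonneg _) (by positivity)
    have : 0 ≤ M * N * √‖z - w‖ := by positivity
    linarith
  refine ⟨2 * M * N, by positivity, fun k => ⟨fun z hz => ?_, fun z hz w hw => ?_⟩⟩
  · by_cases hB : z ∈ B
    · rw [norm_mul]
      have := mul_le_mul ((h k).1 z hz) ((h' k).1 z hB) (norm_nonneg _) hM
      have : 0 ≤ M * N := by positivity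
      linarith
    · beta_reduce; rw [h0 k z hz hB, zero_mul, norm_zero]; positivity
  · by_cases hzB : z ∈ B <;> by_cases hwB : w ∈ B
    · exact mul_est ((h k).1 z hz) ((h' k).1 w hwB) ((h k).2 z hz w hw) ((h' k).2 z hzB w hwB)
    · exact key k z hz w hw hzB hwB
    · rw [norm_sub_rev, norm_sub_rev z]; exact key k w hw z hz hwB hzB
    · beta_reduce; rw [h0 k z hz hzB, h0 k w hw hwB]; simp; positivity

theorem UH.mul {F G : κ → V ι → ℂ} {U : Set (V ι)} (h : UH F U) (h' : UH G U) :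
    UH (fun k z => F k z * G k z) U := h.ext (fun _ _ hz hz' => (hz' hz).elim) h'

theorem UH.sub {F G : κ → V ι → ℂ} {U : Set (V ι)} (h : UH F U) (h' : UH G U) :
    UH (fun k z => F k z - G k z) U :=
  (h.add ((UH.const (-1) U).mul h')).congr fun _ _ _ => by ring

theorem UH.smooth {g : V ι → ℂ} (hg : ContDiff ℝ ∞ g) {K : Set (V ι)} (hK : IsCompact K)
    (h0 : ∀ z, z ∉ K → g z = 0) : UH (fun _ : κ => g) univ := by
  have hc : HasCompactSupport g := HasCompactSupport.intro hK h0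
  obtain ⟨C, hC⟩ := hg.lipschitzWith_of_hasCompactSupport hc (by simp)
  obtain ⟨B, hB⟩ := hc.exists_bound_of_continuous hg.continuous
  have hB0 : 0 ≤ B := (norm_nonneg _).trans (hB 0)
  refine ⟨2 * B + C, by positivity, fun _ => ⟨fun z _ => ?_, fun z _ w _ => ?_⟩⟩
  · have := hB z
    have := C.2
    change _ ≤ 2 * B + C.1
    linarith
  · have h1 : ‖g z - g w‖ ≤ C * ‖z - w‖ := by
      simpa only [dist_eq_norm] using hC.dist_le_mul z w
    have h2 : ‖g z - g w‖ ≤ 2 * B := (norm_sub_le _ _).trans (by linarith [hB z, hB w])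
    have h3 := Real.mul_self_sqrt (norm_nonneg (z - w))
    have h4 := Real.sqrt_nonneg ‖z - w‖
    have h5 : (0 : ℝ) ≤ C := C.2
    rcases le_total 1 √‖z - w‖ with h | h
    · nlinarith
    · have : ‖z - w‖ ≤ √‖z - w‖ := by nlinarith
      nlinarith

variable [NormedSpace ℝ W]

theorem dq_hol {g : V ι → W} {z0 e : V ι} {r M τ : ℝ}
    (hd : ∀ z ∈ ball z0 (2 * r), DifferentiableAt ℝ g z) (hM : Hol M (fderiv ℝ g) (ball z0 (2 * r)))
    (hτ : τ ≠ 0) (he : ‖τ • e‖ ≤ r) :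
    Hol (M * ‖e‖) (fun z => τ⁻¹ • (g (z + τ • e) - g z)) (ball z0 r) := by
  have mem : ∀ z ∈ ball z0 r, ∀ a ∈ closedBall (0 : V ι) r, z + a ∈ ball z0 (2 * r) :=
    fun z hz a ha => by
      rw [mem_ball, dist_eq_norm] at hz ⊢
      rw [mem_closedBall_zero_iff] at ha
      rw [add_sub_right_comm]
      linarith [norm_add_le (z - z0) a]
  have r0 : 0 ≤ r := (norm_nonneg _).trans he
  have der : ∀ z ∈ ball z0 r, ∀ a ∈ closedBall (0 : V ι) r,
      HasFDerivAt (fun a => g (z + a)) (fderiv ℝ g (z + a)) a := fun z hz a ha =>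
    (hasFDerivAt_comp_add_left z).2 (hd _ (mem z hz a ha)).hasFDerivAt
  have fin : ∀ (x : W) (C : ℝ), ‖x‖ ≤ C * ‖τ • e - 0‖ → ‖τ⁻¹ • x‖ ≤ C * ‖e‖ := fun x C h => by
    rw [sub_zero, norm_smul] at h
    rw [norm_smul, norm_inv, inv_mul_le_iff₀ (norm_pos_iff.2 hτ)]
    linarith
  refine ⟨fun z hz => fin _ _ ?_, fun z hz w hw => ?_⟩
  · simpa using (convex_closedBall (0 : V ι) r).norm_image_sub_le_of_norm_hasFDerivWithin_le
      (fun a ha => (der z hz a ha).hasFDerivWithinAt) (fun a ha => hM.1 _ (mem z hz a ha))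
      (mem_closedBall_self r0) (mem_closedBall_zero_iff.2 he)
  · rw [← smul_sub, mul_right_comm]
    refine fin _ _ ?_
    have := (convex_closedBall (0 : V ι) r).norm_image_sub_le_of_norm_hasFDerivWithin_le
      (C := M * √‖z - w‖)
      (fun a ha => ((der z hz a ha).sub (der w hw a ha)).hasFDerivWithinAt)
      (fun a ha => by simpa using hM.2 _ (mem z hz a ha) _ (mem w hw a ha))
      (mem_closedBall_self r0) (mem_closedBall_zero_iff.2 he)
    simp only [Pi.sub_apply, add_zero] at this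
    rwa [sub_sub_sub_comm]

theorem closure [FiniteDimensional ℝ W] (𝒰 : Ultrafilter κ) {F : κ → V ι → W} {h : V ι → W}
    {z0 : V ι} {r N : ℝ} (hd : ∀ k, ∀ z ∈ ball z0 r, DifferentiableAt ℝ (F k) z)
    (hN : ∀ k, Hol N (fderiv ℝ (F k)) (ball z0 r))
    (ht : ∀ z ∈ ball z0 r, Tendsto (fun k => F k z) 𝒰 (𝓝 (h z))) :
    (∀ z ∈ ball z0 r, DifferentiableAt ℝ h z ∧
      Tendsto (fun k => fderiv ℝ (F k) z) 𝒰 (𝓝 (fderiv ℝ h z))) ∧
      Hol N (fderiv ℝ h) (ball z0 r) := by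
  have key : ∀ z ∈ ball z0 r, DifferentiableAt ℝ h z ∧
      Tendsto (fun k => fderiv ℝ (F k) z) 𝒰 (𝓝 (fderiv ℝ h z)) := fun z hz => by
    haveI : ProperSpace (V ι →L[ℝ] W) := FiniteDimensional.proper_real _
    obtain ⟨D, -, hD⟩ := (isCompact_closedBall (0 : V ι →L[ℝ] W) N).ultrafilter_le_nhds'
      (𝒰.map fun k => fderiv ℝ (F k) z)
      (Ultrafilter.mem_map.2 (univ_mem' fun k => mem_closedBall_zero_iff.2 ((hN k).1 z hz)))
    have hD : Tendsto (fun k => fderiv ℝ (F k) z) 𝒰 (𝓝 D) := hD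
    have N0 : 0 ≤ N := by
      obtain ⟨k, -⟩ := 𝒰.nonempty_of_mem (univ_mem (f := (𝒰 : Filter κ)))
      exact (norm_nonneg _).trans ((hN k).1 z hz)
    have est : ∀ y ∈ ball z0 r, ‖h y - h z - D (y - z)‖ ≤ N * √‖y - z‖ * ‖y - z‖ := fun y hy => by
      refine le_of_tendsto' (((ht y hy).sub (ht z hz)).sub
        ((ContinuousLinearMap.apply ℝ W (y - z)).continuous.continuousAt.tendsto.comp hD)).norm
        fun k => ?_
      refine ((convex_ball z0 r).inter (convex_closedBall z ‖y - z‖)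
        ).norm_image_sub_le_of_norm_fderiv_le' (fun x hx => hd k x hx.1) (fun x hx => ?_)
        ⟨hz, mem_closedBall_self (norm_nonneg _)⟩ ⟨hy, mem_closedBall_iff_norm.2 le_rfl⟩
      exact ((hN k).2 x hx.1 z hz).trans (mul_le_mul_of_nonneg_left
        (Real.sqrt_le_sqrt (mem_closedBall_iff_norm.1 hx.2)) N0)
    have hF : HasFDerivAt h D z := by
      rw [hasFDerivAt_iff_isLittleO, Asymptotics.isLittleO_iff]
      intro c hc
      have h1 : Tendsto (fun y : V ι => N * √‖y - z‖) (𝓝 z) (𝓝 0) := by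
        have : Continuous fun y : V ι => N * √‖y - z‖ := by fun_prop
        simpa using this.tendsto z
      filter_upwards [isOpen_ball.mem_nhds hz, h1.eventually (ge_mem_nhds hc)] with y hy hy'
      exact (est y hy).trans (mul_le_mul_of_nonneg_right hy' (norm_nonneg _))
    exact ⟨hF.differentiableAt, by rw [hF.fderiv]; exact hD⟩
  refine ⟨key, fun z hz => ?_, fun z hz w hw => ?_⟩
  · exact le_of_tendsto' (key z hz).2.norm fun k => (hN k).1 z hz
  · exact le_of_tendsto' ((key z hz).2.sub (key w hw).2).norm fun k => (hN k).2 z hz w hw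

theorem psd_near [DecidableEq ι] {A0 : Mat ι} (h : A0.PosDef) :
    ∃ δ > 0, ∀ H : Mat ι, H.IsHermitian → Bd δ (H - A0) → H.PosSemidef := by
  obtain ⟨c, hc, h1⟩ := (isCompact_sphere (0 : V ι) 1).exists_forall_le'
    (f := fun x => (star x ⬝ᵥ (A0 *ᵥ x)).re) (a := 0)
    (by simp only [dotProduct, mulVec]; fun_prop) fun x hx =>
      (Complex.pos_iff.1 (h.dotProduct_mulVec_pos (by rintro rfl; simp at hx))).1
  refine ⟨c / ((Fintype.card ι : ℝ) ^ 2 + 1), by positivity, fun H hH hb =>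
    .of_dotProduct_mulVec_nonneg hH fun x => ?_⟩
  have key : ∀ y ∈ sphere (0 : V ι) 1, 0 ≤ star y ⬝ᵥ (H *ᵥ y) := fun y hy => by
    refine Complex.nonneg_iff.2 ⟨?_, (hH.im_star_dotProduct_mulVec_self y).symm⟩
    have e : star y ⬝ᵥ (H *ᵥ y) = star y ⬝ᵥ (A0 *ᵥ y) + star y ⬝ᵥ ((H - A0) *ᵥ y) := by
      rw [← dotProduct_add, ← add_mulVec, add_sub_cancel]
    have hy1 : ∀ i, ‖y i‖ ≤ 1 := fun i => (norm_le_pi_norm y i).trans (by simpa using hy.le)
    have h2 : ‖star y ⬝ᵥ ((H - A0) *ᵥ y)‖ ≤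
        ∑ _i : ι, ∑ _j : ι, c / ((Fintype.card ι : ℝ) ^ 2 + 1) := by
      refine norm_sum_le_of_le _ fun i _ => ?_
      rw [norm_mul, Pi.star_apply, norm_star]
      refine (mul_le_of_le_one_left (norm_nonneg _) (hy1 i)).trans ?_
      refine norm_sum_le_of_le _ fun j _ => ?_
      rw [norm_mul]
      exact (mul_le_of_le_one_right (norm_nonneg _) (hy1 j)).trans (hb i j)
    simp only [Finset.sum_const, Finset.card_univ, nsmul_eq_mul] at h2
    have h3 : (Fintype.card ι : ℝ) * (Fintype.card ι * (c / ((Fintype.card ι : ℝ) ^ 2 + 1))) ≤ c := by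
      rw [← mul_assoc, ← mul_div_assoc, div_le_iff₀ (by positivity)]
      nlinarith
    have h4 := (abs_le.1 ((Complex.abs_re_le_norm _).trans (h2.trans h3))).1
    have h5 := h1 y hy
    rw [e, add_re]
    linarith
  by_cases hx : x = 0
  · simp [hx]
  · have n0 : ‖x‖ ≠ 0 := norm_ne_zero_iff.2 hx
    have := key ((‖x‖⁻¹ : ℝ) • x) (by simp [norm_smul, n0])
    have e : star x ⬝ᵥ (H *ᵥ x) = ((‖x‖ ^ 2 : ℝ) : ℂ) *
        (star ((‖x‖⁻¹ : ℝ) • x) ⬝ᵥ (H *ᵥ ((‖x‖⁻¹ : ℝ) • x))) := by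
      have : (‖x‖ : ℂ) ≠ 0 := by exact_mod_cast n0
      rw [star_smul, mulVec_smul, smul_dotProduct, dotProduct_smul]
      simp only [star_trivial, real_smul]
      push_cast
      field_simp
    rw [e]
    exact mul_nonneg (Complex.zero_le_real.2 (sq_nonneg _)) this

end Pool.Agent.Lib.MP_813db1_ag.HS.Dq
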