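import Pool.Agent.Lib.MP_813db1_ag.HS.Stmt
import Pool.Agent.Lib.MP_813db1_ag.HS.Calc

/-! Weighted integration by parts, one term at a time. -/

namespace Pool.Agent.Lib.MP_813db1_ag.HS.En

open MeasureTheory Complex Matrix Filter Topology Set Metric
open scoped ContDiff ComplexOrder ENNReal

variable {ι : Type} [Fintype ι] [DecidableEq ι] {f g : V ι → ℂ} {z : V ι} {i k : ι}

theorem hd_exp (β x : ℂ) : HasDerivAt (fun x => cexp (-β * x)) (cexp (-β * x) * -β) x := by
  simpa using ((hasDerivAt_id x).const_mul (-β)).cexp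

theorem cd_star {n : WithTop ℕ∞} (hf : ContDiffAt ℝ n f z) :
    ContDiffAt ℝ n (fun w => star (f w)) z :=
  conjCLE.contDiff.contDiffAt.comp z hf

theorem int_fd {D K : Set (V ι)} (hK : IsCompact K) (hKD : K ⊆ D)
    (hf : ∀ z ∈ D, ContDiffAt ℝ 1 f z) (h0 : ∀ z ∉ K, f z = 0) (v : V ι) :
    IntegrableOn (fun z => fderiv ℝ f z v) K ∧ ∫ z in K, fderiv ℝ f z v = 0 := by
  have he : ∀ z ∉ K, f =ᶠ[𝓝 z] fun _ => 0 := fun z hz => by
    filter_upwards [hK.isClosed.isOpen_compl.mem_nhds hz] with w hw using h0 w hw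
  have hc : ContDiff ℝ 1 f := contDiff_iff_contDiffAt.2 fun z => by
    by_cases hz : z ∈ K
    · exact hf z (hKD hz)
    · exact contDiffAt_const.congr_of_eventuallyEq (he z hz)
  have hs : HasCompactSupport f := HasCompactSupport.intro hK h0
  have hi : Integrable (fun z => fderiv ℝ f z v) :=
    ((hc.continuous_fderiv (by norm_num)).clm_apply continuous_const).integrable_of_hasCompactSupport
      (hs.fderiv_apply ℝ v)
  refine ⟨hi.integrableOn, ?_⟩
  rw [setIntegral_eq_integral_of_forall_compl_eq_zero fun z hz => by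
    rw [(he z hz).fderiv_eq]; simp]
  have := integral_mul_fderiv_eq_neg_fderiv_mul_of_integrable (μ := volume) (f := fun _ => (1 : ℂ))
    (g := f) (v := v) (by simp) (by simpa using hi)
    (by simpa using hc.continuous.integrable_of_hasCompactSupport hs)
    (fun _ _ => differentiableAt_const _) (fun z _ => hc.differentiable (by norm_num) z)
  simpa using this

theorem int_dz {D K : Set (V ι)} (hK : IsCompact K) (hKD : K ⊆ D)
    (hf : ∀ z ∈ D, ContDiffAt ℝ 1 f z) (h0 : ∀ z ∉ K, f z = 0) :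
    IntegrableOn (dz f k) K ∧ ∫ z in K, dz f k z = 0 := by
  obtain ⟨a1, a2⟩ := int_fd hK hKD hf h0 (Pi.single k 1)
  obtain ⟨b1, b2⟩ := int_fd hK hKD hf h0 (Pi.single k I)
  refine ⟨(a1.sub (b1.const_mul I)).div_const 2, ?_⟩
  simp only [dz]
  rw [integral_div, integral_sub a1 (b1.const_mul I), integral_const_mul, a2, b2]
  simp

theorem int_dzb {D K : Set (V ι)} (hK : IsCompact K) (hKD : K ⊆ D)
    (hf : ∀ z ∈ D, ContDiffAt ℝ 1 f z) (h0 : ∀ z ∉ K, f z = 0) :
    IntegrableOn (dzb f k) K ∧ ∫ z in K, dzb f k z = 0 := by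
  obtain ⟨a1, a2⟩ := int_fd hK hKD hf h0 (Pi.single k 1)
  obtain ⟨b1, b2⟩ := int_fd hK hKD hf h0 (Pi.single k I)
  refine ⟨(a1.add (b1.const_mul I)).div_const 2, ?_⟩
  simp only [dzb]
  rw [integral_div, integral_add a1 (b1.const_mul I), integral_const_mul, a2, b2]
  simp

/-- the integrand of the double integration by parts. -/
noncomputable def Psi (c f g p : V ι → ℂ) (β : ℂ) (i k : ι) (y : V ι) : ℂ :=
  (c y * (dz f i y - β * dz p i y * f y) * star (dz g k y - β * dz p k y * g y) +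
    dz c i y * f y * star (dz g k y - β * dz p k y * g y) -
    β * (c y * levi p y i k * f y * star (g y)) -
    dzb c k y * f y * star (dzb g i y) - c y * dzb f k y * star (dzb g i y)) * cexp (-β * p y)

theorem key {D K : Set (V ι)} (hK : IsCompact K) (hKD : K ⊆ D) {c p : V ι → ℂ} {β : ℂ}
    (hc : ∀ z ∈ D, ContDiffAt ℝ 1 c z) (h0 : ∀ z ∉ K, c z = 0)
    (hf : ∀ z ∈ D, ContDiffAt ℝ 1 f z) (hg : ∀ z ∈ D, ContDiffAt ℝ 2 g z)
    (hp : ∀ z ∈ D, ContDiffAt ℝ 2 p z) (hr : ∀ z, star (p z) = p z) (hβ : star β = β) :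
    IntegrableOn (Psi c f g p β i k) K ∧ ∫ z in K, Psi c f g p β i k z = 0 := by
  have h12 : (1 : WithTop ℕ∞) + 1 ≤ 2 := by norm_num
  have h21 : (1 : WithTop ℕ∞) ≤ 2 := by norm_num
  have hw : ∀ z ∈ D, ContDiffAt ℝ 1 (fun w => cexp (-β * p w)) z := fun z hz =>
    (contDiffAt_const.mul ((hp z hz).of_le h21)).cexp
  have hδ : ∀ z ∈ D, ContDiffAt ℝ 1 (fun w => dz g k w - β * dz p k w * g w) z := fun z hz =>
    (contDiffAt_dz (hg z hz) h12 k).sub ((contDiffAt_const.mul (contDiffAt_dz (hp z hz) h12 k)).mul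
      ((hg z hz).of_le h21))
  obtain ⟨a1, a2⟩ := int_dz (k := i) (f := fun w => c w * f w *
      star (dz g k w - β * dz p k w * g w) * cexp (-β * p w)) hK hKD
    (fun z hz => (((hc z hz).mul (hf z hz)).mul (cd_star (hδ z hz))).mul (hw z hz))
    (fun z hz => by simp [h0 z hz])
  obtain ⟨b1, b2⟩ := int_dzb (k := k) (f := fun w => c w * f w * star (dzb g i w) *
      cexp (-β * p w)) hK hKD
    (fun z hz => (((hc z hz).mul (hf z hz)).mul (cd_star (contDiffAt_dzb (hg z hz) h12 i))).mul (hw z hz))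
    (fun z hz => by simp [h0 z hz])
  have e : EqOn (fun z => dz (fun w => c w * f w * star (dz g k w - β * dz p k w * g w) *
      cexp (-β * p w)) i z - dzb (fun w => c w * f w * star (dzb g i w) * cexp (-β * p w)) k z)
      (Psi c f g p β i k) K := fun z hz => by
    have hz := hKD hz
    have d : ∀ {F : V ι → ℂ}, ContDiffAt ℝ 1 F z → DifferentiableAt ℝ F z := fun h =>
      h.differentiableAt (by norm_num)
    have dc := d (hc z hz)
    have df := d (hf z hz)
    have dg := d ((hg z hz).of_le h21)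
    have dp := d ((hp z hz).of_le h21)
    have dpk := d (contDiffAt_dz (hp z hz) h12 k)
    have s1 : star (dz p k z) = dzb p k z := by rw [← dzb_star]; simp only [hr]
    have s2 : star (dzb (dz p k) i z) = levi p z i k := by
      rw [← dz_star]
      simp only [← dzb_star, hr, levi, Matrix.of_apply]
    simp only [Psi]
    rw [dz_mul ((dc.fun_mul df).fun_mul (d (cd_star (hδ z hz)))) (d (hw z hz)),
      dz_mul (dc.fun_mul df) (d (cd_star (hδ z hz))), dz_mul dc df, dz_star,
      dz_hol_comp (hd_exp β _) dp,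
      dzb_sub (d (contDiffAt_dz (hg z hz) h12 k)) ((dpk.const_mul β).fun_mul dg),
      dzb_mul (dpk.const_mul β) dg, dzb_cmul β dpk,
      dzb_mul ((dc.fun_mul df).fun_mul (d (cd_star (contDiffAt_dzb (hg z hz) h12 i)))) (d (hw z hz)),
      dzb_mul (dc.fun_mul df) (d (cd_star (contDiffAt_dzb (hg z hz) h12 i))), dzb_mul dc df,
      dzb_star, dzb_hol_comp (hd_exp β _) dp, dz_dzb_comm (hg z hz)]
    simp only [star_sub, star_add, star_mul', hβ, s1, s2]
    ring
  refine ⟨(a1.sub b1).congr_fun e hK.measurableSet, ?_⟩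
  rw [← setIntegral_congr_fun hK.measurableSet e, integral_sub a1 b1, a2, b2, sub_zero]

theorem cd_det {n : WithTop ℕ∞} {G : V ι → Mat ι}
    (h : ∀ i j, ContDiffAt ℝ n (fun w => G w i j) z) : ContDiffAt ℝ n (fun w => (G w).det) z := by
  simp only [Matrix.det_apply']
  exact ContDiffAt.sum fun σ _ => contDiffAt_const.mul (contDiffAt_prod fun i _ => h _ _)

theorem cd_inv {n : WithTop ℕ∞} {G : V ι → Mat ι}
    (h : ∀ i j, ContDiffAt ℝ n (fun w => G w i j) z) (hd : (G z).det ≠ 0) (i j : ι) :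
    ContDiffAt ℝ n (fun w => (G w)⁻¹ i j) z := by
  simp only [Matrix.inv_def, Ring.inverse_eq_inv', Matrix.smul_apply, smul_eq_mul,
    Matrix.adjugate_apply]
  refine ((cd_det h).inv hd).mul (cd_det fun a b => ?_)
  simp only [Matrix.updateRow_apply]
  split_ifs
  · exact contDiffAt_const
  · exact h _ _

end Pool.Agent.Lib.MP_813db1_ag.HS.En
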