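import Pool.Agent.Lib.MP_813db1_ag.HS.FGauge

/-! The mean value formula with a `dbar` error term. -/

namespace Pool.Agent.Lib.MP_813db1_ag.HS.FG

open MeasureTheory Complex Matrix Filter Topology Set Metric
open scoped ContDiff ComplexOrder

set_option linter.unusedSectionVars false

variable {τ : Type} [Fintype τ] [DecidableEq τ]

theorem cs {α : Type} [MeasurableSpace α] (μ : Measure α) {f : α → ENNReal}
    (hf : AEMeasurable f μ) : (∫⁻ x, f x ∂μ) ^ 2 ≤ μ univ * ∫⁻ x, f x ^ 2 ∂μ := by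
  have := ENNReal.lintegral_mul_le_Lp_mul_Lq μ Real.HolderConjugate.two_two
    (f := fun _ => 1) aemeasurable_const hf
  simp only [Pi.mul_apply, one_mul, lintegral_const, ENNReal.rpow_two, one_pow] at this
  refine (pow_le_pow_left' this 2).trans (le_of_eq ?_)
  have e : ∀ a : ENNReal, (a ^ (1 / 2 : ℝ)) ^ 2 = a := fun a => by
    rw [← ENNReal.rpow_natCast, ← ENNReal.rpow_mul]; norm_num
  rw [mul_pow, e, e]

theorem cs' {α : Type} [MeasurableSpace α] (μ : Measure α) {f : α → ℂ}
    (hf : AEStronglyMeasurable f μ) : ‖∫ x, f x ∂μ‖ₑ ^ 2 ≤ μ univ * ∫⁻ x, ‖f x‖ₑ ^ 2 ∂μ :=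
  (pow_le_pow_left' (enorm_integral_le_lintegral_enorm f) 2).trans (cs μ hf.enorm)

theorem intg {E : Set (V τ)} (hE : IsCompact E) {f : ℝ → V τ → ℂ} {a b : ℝ}
    (h : ContinuousOn (Function.uncurry f) (uIcc a b ×ˢ E)) : Integrable (Function.uncurry f)
      ((volume.restrict (uIoc a b)).prod (volume.restrict E)) := by
  rw [Measure.prod_restrict]
  exact (h.integrableOn_compact (isCompact_uIcc.prod hE)).mono_set
    (prod_mono uIoc_subset_uIcc le_rfl)

theorem rot (c : Circle) : MeasurePreserving fun v : V τ => (c : ℂ) • v :=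
  volume_preserving_pi fun _ => (rotation c).measurePreserving

theorem mv {E : Set (V τ)} (hE : IsCompact E) (h1 : ∀ c : ℂ, ‖c‖ ≤ 1 → ∀ v ∈ E, c • v ∈ E)
    {g : V τ → ℂ} (hg : ∀ v ∈ E, ContDiffAt ℝ 1 g v) :
    ‖(∫ v in E, g v) - (volume E).toReal • g 0‖ₑ ^ 2 ≤ volume E * ∫⁻ r in Ioc (0 : ℝ) 1,
      ∫⁻ v in E, ‖fderiv ℝ g (r • v) v + I * fderiv ℝ g (r • v) (I • v)‖ₑ ^ 2 := by
  have hm := hE.measurableSet
  have hD : ContinuousOn (fderiv ℝ g) E := fun v hv =>
    ((hg v hv).fderiv_right (m := 0) (by norm_num)).continuousAt.continuousWithinAt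
  have hd : ∀ v ∈ E, HasFDerivAt g (fderiv ℝ g v) v := fun v hv =>
    ((hg v hv).differentiableAt (by simp)).hasFDerivAt
  have h2 : ∀ r ∈ uIcc (0 : ℝ) 1, ∀ v ∈ E, r • v ∈ E := fun r hr v hv => by
    rw [uIcc_of_le zero_le_one] at hr
    exact h1 r (by rw [norm_real, Real.norm_of_nonneg hr.1]; exact hr.2) v hv
  have cD : ContinuousOn (fun p : ℝ × V τ => fderiv ℝ g (p.1 • p.2)) (uIcc 0 1 ×ˢ E) :=
    hD.comp (by fun_prop) fun p hp => h2 _ hp.1 _ hp.2
  have c1 : ContinuousOn (Function.uncurry fun (r : ℝ) (v : V τ) => fderiv ℝ g (r • v) v)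
      (uIcc 0 1 ×ˢ E) := cD.clm_apply continuousOn_snd
  have c2 : ContinuousOn (Function.uncurry fun (r : ℝ) (v : V τ) => fderiv ℝ g (r • v) (I • v))
      (uIcc 0 1 ×ˢ E) := cD.clm_apply (by fun_prop)
  have sl : ∀ {f : ℝ → V τ → ℂ} {s : Set ℝ}, ContinuousOn (Function.uncurry f) (s ×ˢ E) →
      (∀ r ∈ s, ContinuousOn (f r) E) ∧ ∀ v ∈ E, ContinuousOn (fun r => f r v) s := fun h =>
    ⟨fun r hr => h.comp (Continuous.prodMk_right r).continuousOn fun v hv => ⟨hr, hv⟩,
      fun v hv => h.comp (Continuous.prodMk_left v).continuousOn fun r hr => ⟨hr, hv⟩⟩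
  have e1 : ∀ v ∈ E, g v - g 0 = ∫ r in (0 : ℝ)..1, fderiv ℝ g (r • v) v := by
    intro v hv
    rw [intervalIntegral.integral_eq_sub_of_hasDerivAt (f := fun r : ℝ => g (r • v))
      (fun r hr => ?_) ((sl c1).2 v hv).intervalIntegrable]
    · simp
    · have := (hd _ (h2 r hr v hv)).comp_hasDerivAt r ((hasDerivAt_id r).smul_const v)
      rw [one_smul] at this
      exact this
  have e2 : ∀ r ∈ Ioc (0 : ℝ) 1, ∫ v in E, fderiv ℝ g (r • v) (I • v) = 0 := by
    intro r hr
    have hr' : r ∈ uIcc (0 : ℝ) 1 := by rw [uIcc_of_le zero_le_one]; exact Ioc_subset_Icc_self hr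
    have n1 : ∀ θ : ℝ, ‖exp (θ * I)‖ ≤ 1 := fun θ => (norm_exp_ofReal_mul_I θ).le
    have c3 : ContinuousOn (Function.uncurry fun (θ : ℝ) (v : V τ) =>
        fderiv ℝ g (r • exp (θ * I) • v) (I • exp (θ * I) • v)) (uIcc 0 (2 * Real.pi) ×ˢ E) :=
      ((sl c2).1 r hr').comp (f := fun p : ℝ × V τ => exp (p.1 * I) • p.2) (by fun_prop)
        fun p hp => h1 _ (n1 _) _ hp.2
    have a1 : ∀ θ : ℝ, ∫ v in E, fderiv ℝ g (r • exp (θ * I) • v) (I • exp (θ * I) • v) =
        ∫ v in E, fderiv ℝ g (r • v) (I • v) := by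
      intro θ
      have := (rot (τ := τ) (Circle.exp θ)).setIntegral_preimage_emb
        (Homeomorph.smulOfNeZero _ (Circle.exp θ).coe_ne_zero).measurableEmbedding
        (fun v => fderiv ℝ g (r • v) (I • v)) E
      rw [← this]
      congr 2
      ext v
      refine ⟨h1 _ (by simp) v, fun hv => ?_⟩
      have := h1 ((Circle.exp θ)⁻¹ : Circle) (by simp) _ hv
      rwa [smul_smul, ← Circle.coe_mul, inv_mul_cancel, Circle.coe_one, one_smul] at this
    have a2 : ∀ v ∈ E, r • ∫ θ in (0 : ℝ)..2 * Real.pi,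
        fderiv ℝ g (r • exp (θ * I) • v) (I • exp (θ * I) • v) = 0 := by
      intro v hv
      rw [← intervalIntegral.integral_smul, intervalIntegral.integral_eq_sub_of_hasDerivAt
        (f := fun θ : ℝ => g (r • exp (θ * I) • v)) (f' := fun θ : ℝ =>
          r • fderiv ℝ g (r • exp (θ * I) • v) (I • exp (θ * I) • v)) (fun θ _ => ?_)
        (((sl c3).2 v hv).const_smul r).intervalIntegrable]
      · simp
      · have := (hd _ (h2 r hr' _ (h1 _ (n1 θ) v hv))).comp_hasDerivAt θ
          (((((hasDerivAt_id (θ : ℂ)).mul_const I).cexp.comp_ofReal).smul_const v).const_smul r)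
        refine HasDerivAt.congr_deriv this ?_
        rw [← map_smul, smul_smul I]
        simp [mul_comm]
    have a3 := intervalIntegral_integral_swap (intg hE c3)
    rw [setIntegral_congr_fun hm (g := fun _ => 0)
      fun v hv => (smul_eq_zero.1 (a2 v hv)).resolve_left hr.1.ne'] at a3
    simpa [a1] using a3
  have c4 : ContinuousOn (Function.uncurry fun (r : ℝ) (v : V τ) =>
      fderiv ℝ g (r • v) v + I * fderiv ℝ g (r • v) (I • v)) (uIcc 0 1 ×ˢ E) :=
    c1.add (continuousOn_const.mul c2)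
  have e3 : (∫ v in E, g v) - (volume E).toReal • g 0 = ∫ r in Ioc (0 : ℝ) 1, ∫ v in E,
      (fderiv ℝ g (r • v) v + I * fderiv ℝ g (r • v) (I • v)) := by
    have gi : IntegrableOn g E := ContinuousOn.integrableOn_compact hE fun v hv =>
      (hg v hv).continuousAt.continuousWithinAt
    rw [← Measure.real, ← setIntegral_const, ← integral_sub gi
      (continuousOn_const.integrableOn_compact hE), setIntegral_congr_fun hm e1,
      ← intervalIntegral_integral_swap (intg hE c1), intervalIntegral.integral_of_le zero_le_one]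
    refine setIntegral_congr_fun measurableSet_Ioc fun r hr => ?_
    have hr' : r ∈ uIcc (0 : ℝ) 1 := by rw [uIcc_of_le zero_le_one]; exact Ioc_subset_Icc_self hr
    rw [integral_add (((sl c1).1 r hr').integrableOn_compact hE)
      ((((sl c2).1 r hr').integrableOn_compact hE).const_mul I), integral_const_mul, e2 r hr]
    simp
  have i4 := intg hE c4
  rw [uIoc_of_le zero_le_one] at i4
  rw [e3, ← lintegral_const_mul' _ _ hE.measure_lt_top.ne]
  refine (cs' _ i4.integral_prod_left.aestronglyMeasurable).trans ?_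
  simp only [MeasurableSet.univ, Measure.restrict_apply, univ_inter, Real.volume_Ioc, sub_zero,
    ENNReal.ofReal_one, one_mul]
  refine setLIntegral_mono' measurableSet_Ioc fun r hr => ?_
  have hr' : r ∈ uIcc (0 : ℝ) 1 := by rw [uIcc_of_le zero_le_one]; exact Ioc_subset_Icc_self hr
  simpa using cs' (volume.restrict E) (((sl c4).1 r hr').aestronglyMeasurable hm)

end Pool.Agent.Lib.MP_813db1_ag.HS.FG
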