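import Pool.Agent.Lib.MP_813db1_ag.HS.Mat
import Pool.Agent.Lib.MP_caab05_ag.GB.Osg

/-! Matrix calculus for the parallel frame. -/

namespace Pool.Agent.Lib.MP_813db1_ag.HS

open Complex Matrix Filter Topology Set Metric
open scoped ContDiff ComplexOrder

noncomputable section

namespace Frame

variable {ι : Type} [Fintype ι] [DecidableEq ι] {F H : V ι → Mat ι} {z : V ι} {c : ℂ} {k : ι}

/-- both Wirtinger derivatives at once. -/
def Dg (c : ℂ) (F : V ι → Mat ι) (k : ι) (z : V ι) : Mat ι := of fun i j =>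
  (fderiv ℝ (fun w => F w i j) z (Pi.single k 1) +
    c * fderiv ℝ (fun w => F w i j) z (Pi.single k I)) / 2

/-- entrywise smoothness at a point. -/
def Sm (F : V ι → Mat ι) (z : V ι) : Prop := ∀ i j, ContDiffAt ℝ ∞ (fun w => F w i j) z

omit [Fintype ι] in
theorem dMb_eq : dMb F = Dg I F := rfl

omit [Fintype ι] in
theorem dM_eq : dM F = Dg (-I) F := by
  funext k z
  ext i j
  simp only [dM, Dg, dz, of_apply, neg_mul, sub_eq_add_neg]

omit [DecidableEq ι] in
theorem Sm.df (h : Sm F z) (i j : ι) : DifferentiableAt ℝ (fun w => F w i j) z :=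
  (h i j).differentiableAt (by simp)

omit [DecidableEq ι] in
theorem Sm.const (A : Mat ι) : Sm (fun _ => A) z := fun _ _ => contDiffAt_const

omit [DecidableEq ι] in
theorem Sm.add (h : Sm F z) (h' : Sm H z) : Sm (fun w => F w + H w) z :=
  fun i j => (h i j).add (h' i j)

omit [DecidableEq ι] in
theorem Sm.sub (h : Sm F z) (h' : Sm H z) : Sm (fun w => F w - H w) z :=
  fun i j => (h i j).sub (h' i j)

omit [DecidableEq ι] in
theorem Sm.mul (h : Sm F z) (h' : Sm H z) : Sm (fun w => F w * H w) z :=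
  fun i j => ContDiffAt.sum fun l _ => (h i l).mul (h' l j)

omit [DecidableEq ι] in
theorem Sm.ct (h : Sm F z) : Sm (fun w => (F w)ᴴ) z :=
  fun i j => conjCLE.contDiff.contDiffAt.comp z (h j i)

theorem Sm.det (h : Sm F z) : ContDiffAt ℝ ∞ (fun w => (F w).det) z := by
  simp only [det_apply']
  exact ContDiffAt.sum fun s _ => contDiffAt_const.mul (contDiffAt_prod fun i _ => h _ _)

theorem Sm.inv (h : Sm F z) (hd : IsUnit (F z).det) : Sm (fun w => (F w)⁻¹) z := fun i j => by
  simp only [Matrix.inv_def, Ring.inverse_eq_inv', Matrix.smul_apply, smul_eq_mul, adjugate_apply]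
  refine (h.det.inv hd.ne_zero).mul (Sm.det fun a b => ?_)
  simp only [updateRow_apply]
  split_ifs
  exacts [contDiffAt_const, h a b]

theorem Sm.Dg (h : Sm F z) (c : ℂ) (k : ι) : Sm (Dg c F k) z := fun i j => by
  have := (h i j).fderiv_right (m := ∞) le_rfl
  exact ((this.clm_apply contDiffAt_const).add
    (contDiffAt_const.mul (this.clm_apply contDiffAt_const))).div_const _

theorem Sm.gam (h : Sm F z) (hd : IsUnit (F z).det) (k : ι) : Sm (gam F k) z := by
  have := (h.Dg (-I) k).mul (h.inv hd)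
  rwa [← dM_eq] at this

omit [Fintype ι] in
theorem Dg_congr (h : F =ᶠ[𝓝 z] H) : Dg c F k z = Dg c H k z := by
  ext i j
  have : (fun w => F w i j) =ᶠ[𝓝 z] fun w => H w i j := h.mono fun w hw => congrFun (congrFun hw i) j
  simp only [Dg, of_apply, this.fderiv_eq]

omit [Fintype ι] in
theorem Dg_const (A : Mat ι) : Dg c (fun _ => A) k z = 0 := by
  ext i j
  simp [Dg]

theorem Dg_add (h : Sm F z) (h' : Sm H z) :
    Dg c (fun w => F w + H w) k z = Dg c F k z + Dg c H k z := by
  ext i j
  simp only [Dg, of_apply, Matrix.add_apply, fderiv_fun_add (h.df i j) (h'.df i j),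
    _root_.add_apply]
  ring

theorem Dg_sub (h : Sm F z) (h' : Sm H z) :
    Dg c (fun w => F w - H w) k z = Dg c F k z - Dg c H k z := by
  ext i j
  simp only [Dg, of_apply, Matrix.sub_apply, fderiv_fun_sub (h.df i j) (h'.df i j),
    _root_.sub_apply]
  ring

theorem Dg_mul (h : Sm F z) (h' : Sm H z) :
    Dg c (fun w => F w * H w) k z = Dg c F k z * H z + F z * Dg c H k z := by
  ext i j
  simp only [Dg, of_apply, Matrix.add_apply, mul_apply]
  rw [fderiv_fun_sum fun l _ => (h.df i l).fun_mul (h'.df l j)]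
  simp only [fderiv_fun_mul (h.df i _) (h'.df _ j), _root_.sum_apply,
    _root_.add_apply, _root_.smul_apply, smul_eq_mul, Finset.mul_sum,
    ← Finset.sum_add_distrib, Finset.sum_div]
  exact Finset.sum_congr rfl fun l _ => by ring

theorem Dg_ct : Dg c (fun w => (F w)ᴴ) k z = (Dg (star c) F k z)ᴴ := by
  ext i j
  simp only [Dg, of_apply, conjTranspose_apply, fderiv_star]
  simp

theorem lin (L : V ι →L[ℝ] ℂ) (v : V ι) :
    L v = ∑ k, ((v k).re * L (Pi.single k 1) + (v k).im * L (Pi.single k I)) := by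
  have : v = ∑ k, ((v k).re • (Pi.single k 1 : V ι) + (v k).im • (Pi.single k I : V ι)) := by
    funext j
    simp [Finset.sum_apply, Pi.single_apply, Finset.sum_add_distrib]
  conv_lhs => rw [this]
  simp only [map_sum, map_add, map_smul, real_smul]

theorem const {z0 : V ι}
    (h : ∀ᶠ z in 𝓝 z0, Sm F z ∧ ∀ k, Dg (-I) F k z = 0 ∧ Dg I F k z = 0) :
    ∀ᶠ z in 𝓝 z0, F z = F z0 := by
  obtain ⟨r, hr, h⟩ := Metric.eventually_nhds_iff_ball.1 h
  filter_upwards [ball_mem_nhds z0 hr] with z hz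
  ext i j
  refine isOpen_ball.is_const_of_fderiv_eq_zero (𝕜 := ℝ) (f := fun w => F w i j)
    (convex_ball z0 r).isPreconnected
    (fun w hw => ((h w hw).1.df i j).differentiableWithinAt) (fun w hw => ?_) hz (mem_ball_self hr)
  ext v
  rw [lin]
  refine Finset.sum_eq_zero fun k _ => ?_
  have a := congrFun (congrFun ((h w hw).2 k).1 i) j
  have b := congrFun (congrFun ((h w hw).2 k).2 i) j
  simp only [Dg, of_apply, Matrix.zero_apply] at a b
  linear_combination ((v k).re + I * (v k).im) * a + ((v k).re - I * (v k).im) * b +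
    (v k).im * fderiv ℝ (fun w => F w i j) w (Pi.single k I) * I_mul_I

theorem an {W : Set (V ι)} (hW : IsOpen W) (h : ∀ z ∈ W, Sm F z ∧ ∀ k, Dg I F k z = 0)
    (hz : z ∈ W) (i j : ι) : AnalyticAt ℂ (fun w => F w i j) z := by
  refine MP_caab05_ag.GB.osg _ _ _ W hW (fun w hw => DifferentiableAt.differentiableWithinAt ?_)
    z hz
  refine (differentiableAt_iff_restrictScalars ℝ ((h w hw).1.df i j)).2
    ⟨∑ k, fderiv ℝ (fun w => F w i j) w (Pi.single k 1) • ContinuousLinearMap.proj k, ?_⟩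
  ext v
  rw [lin (fderiv ℝ _ _)]
  simp only [ContinuousLinearMap.coe_restrictScalars', _root_.sum_apply,
    _root_.smul_apply, ContinuousLinearMap.proj_apply, smul_eq_mul]
  refine Finset.sum_congr rfl fun k _ => ?_
  have b := congrFun (congrFun ((h w hw).2 k) i) j
  simp only [Dg, of_apply, Matrix.zero_apply] at b
  linear_combination 2 * I * (v k).im * b -
    (v k).im * fderiv ℝ (fun w => F w i j) w (Pi.single k I) * I_mul_I -
    fderiv ℝ (fun w => F w i j) w (Pi.single k 1) * re_add_im (v k)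

theorem Dg_an (h : ∀ i j, AnalyticAt ℂ (fun w => F w i j) z) : Sm F z ∧ ∀ k, Dg I F k z = 0 ∧
    Dg (-I) F k z = of fun i j => fderiv ℂ (fun w => F w i j) z (Pi.single k 1) := by
  refine ⟨fun i j => (h i j).contDiffAt.restrict_scalars ℝ, fun k => ?_⟩
  have e : (Pi.single k I : V ι) = I • (Pi.single k 1 : V ι) := by
    rw [← Pi.single_smul, smul_eq_mul, mul_one]
  constructor <;> ext i j <;>
    simp only [Dg, of_apply, (h i j).differentiableAt.fderiv_restrictScalars ℝ, e,
      ContinuousLinearMap.coe_restrictScalars', map_smul, smul_eq_mul, Matrix.zero_apply]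
  · linear_combination fderiv ℂ (fun w => F w i j) z (Pi.single k 1) / 2 * I_mul_I
  · linear_combination -fderiv ℂ (fun w => F w i j) z (Pi.single k 1) / 2 * I_mul_I

omit [DecidableEq ι] in
theorem vm {X : Type} [NormedAddCommGroup X] [NormedSpace ℂ X] {e : X → V ι} {A : X → Mat ι}
    {x : X} (he : DifferentiableAt ℂ e x) (hA : ∀ i j, DifferentiableAt ℂ (fun y => A y i j) x) :
    DifferentiableAt ℂ (fun y => e y ᵥ* A y) x ∧ ∀ v, fderiv ℂ (fun y => e y ᵥ* A y) x v =
      fderiv ℂ e x v ᵥ* A x + e x ᵥ* of fun i j => fderiv ℂ (fun y => A y i j) x v := by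
  have h1 : ∀ i, DifferentiableAt ℂ (fun y => e y i) x := differentiableAt_pi.1 he
  have h2 : ∀ j, DifferentiableAt ℂ (fun y => (e y ᵥ* A y) j) x := fun j =>
    DifferentiableAt.fun_sum fun i _ => (h1 i).fun_mul (hA i j)
  refine ⟨differentiableAt_pi.2 h2, fun v => funext fun j => ?_⟩
  rw [fderiv_pi h2, ContinuousLinearMap.pi_apply]
  simp only [vecMul, dotProduct, Pi.add_apply, of_apply]
  rw [fderiv_fun_sum fun i _ => (h1 i).fun_mul (hA i j)]
  simp only [fderiv_fun_mul (h1 _) (hA _ j), _root_.sum_apply,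
    _root_.add_apply, _root_.smul_apply, smul_eq_mul,
    ← Finset.sum_add_distrib, fderiv_apply he, ContinuousLinearMap.comp_apply,
    ContinuousLinearMap.proj_apply]
  exact Finset.sum_congr rfl fun l _ => by ring

theorem ode (hf : FrobS) {A : ι → V ι → Mat ι} {z0 : V ι}
    (hA : ∀ k i j, AnalyticAt ℂ (fun w => A k w i j) z0)
    (hi : ∀ᶠ z in 𝓝 z0, ∀ k l,
      Dg (-I) (A l) k z - Dg (-I) (A k) l z = A k z * A l z - A l z * A k z) (x0 : V ι) :
    ∃ e : V ι → V ι, AnalyticAt ℂ e z0 ∧ e z0 = x0 ∧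
      ∀ᶠ z in 𝓝 z0, ∀ k, fderiv ℂ e z (Pi.single k 1) = -(e z ᵥ* A k z) := by
  have t1 : AnalyticAt ℂ (fun p : V ι × V ι => z0 + p.1) (0, x0) :=
    analyticAt_const.add analyticAt_fst
  have t2 : Tendsto (fun p : V ι × V ι => z0 + p.1) (𝓝 (0, x0)) (𝓝 z0) := by
    simpa using t1.continuousAt.tendsto
  have hA' : ∀ᶠ z in 𝓝 z0, ∀ k i j, AnalyticAt ℂ (fun w => A k w i j) z := by
    simp only [eventually_all]
    exact fun k i j => (hA k i j).eventually_analyticAt
  refine (hf ι ι (fun k p => -(p.2 ᵥ* A k (z0 + p.1))) x0 (fun k => ?_) ?_).elim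
    fun Ψ ⟨h1, h2⟩ => ?_
  rotate_right
  · have s1 : AnalyticAt ℂ (fun z : V ι => (z - z0, x0)) z0 := by fun_prop
    have s2 : Tendsto (fun z : V ι => (z - z0, x0)) (𝓝 z0) (𝓝 (0, x0)) := by
      simpa using s1.continuousAt.tendsto
    refine ⟨fun z => Ψ (z - z0, x0), h1.comp_of_eq s1 (by simp), ?_, ?_⟩
    · simpa using h2.self_of_nhds.1
    · filter_upwards [s2.eventually h2, s2.eventually h1.eventually_analyticAt] with z a b k
      have := HasFDerivAt.comp (f := fun z : V ι => (z - z0, x0)) z b.differentiableAt.hasFDerivAt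
        (((hasFDerivAt_id z).sub_const z0).prodMk (hasFDerivAt_const x0 z))
      have e := a.2 k
      simp only [add_sub_cancel] at e
      rw [← e]
      exact congrArg (fun L : V ι →L[ℂ] V ι => L (Pi.single k 1)) this.fderiv
  · refine (analyticAt_pi_iff.2 fun j => ?_).neg
    refine Finset.analyticAt_fun_sum _ fun i _ => AnalyticAt.fun_mul
      (analyticAt_pi_iff.1 analyticAt_snd i) ?_
    exact (hA k i j).comp_of_eq t1 (by simp)
  · filter_upwards [t2.eventually hi, t2.eventually hA'] with p a b k l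
    have key : ∀ k l u, fderiv ℂ (fun p : V ι × V ι => -(p.2 ᵥ* A l (z0 + p.1))) p
        (Pi.single k 1, u) = -(u ᵥ* A l (z0 + p.1) + p.2 ᵥ* Dg (-I) (A l) k (z0 + p.1)) := by
      intro k l u
      have d : ∀ i j, HasFDerivAt (fun p : V ι × V ι => A l (z0 + p.1) i j) _ p := fun i j =>
        HasFDerivAt.comp (f := fun p : V ι × V ι => z0 + p.1) p
          (b l i j).differentiableAt.hasFDerivAt (hasFDerivAt_fst.const_add z0)
      rw [fderiv_fun_neg, _root_.neg_apply,
        (vm differentiableAt_snd fun i j => (d i j).differentiableAt).2, ((Dg_an (b l)).2 k).2,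
        fderiv_snd]
      simp only [(d _ _).fderiv]
      rfl
    rw [key, key, neg_vecMul, neg_vecMul, vecMul_vecMul, vecMul_vecMul, ← vecMul_neg, ← vecMul_neg,
      ← vecMul_add, ← vecMul_add]
    congr 2
    linear_combination (norm := abel1) a k l

end Frame

end

end Pool.Agent.Lib.MP_813db1_ag.HS
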