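import Pool.Agent.Lib.MP_813db1_ag.HS.Stmt2
import Pool.Agent.Lib.MP_813db1_ag.HS.Calc2

/-! Green's formulas: the local computations. -/

namespace Pool.Agent.Lib.MP_813db1_ag.HS

open MeasureTheory Complex Matrix Filter Topology Set Metric
open scoped ContDiff ComplexOrder

noncomputable section

namespace Green

variable {ι : Type} [Fintype ι] [DecidableEq ι] {H : V ι → Mat ι} {F T : V ι → ℂ} {z : V ι}
  {U : Set (V ι)}

/-- the power `1 - a` of the determinant. -/
def ex (a : ℕ) (H : V ι → Mat ι) (w : V ι) : ℂ := cexp ((1 - a) * lg H w)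

theorem ex_eq (a : ℕ) (h : 0 < (H z).det.re) :
    ex a H z = (((H z).det.re / (H z).det.re ^ a : ℝ) : ℂ) := by
  have e : (1 - (a : ℂ)) * lg H z =
      ((Real.log (H z).det.re - a * Real.log (H z).det.re : ℝ) : ℂ) := by
    rw [lg]; push_cast; ring
  rw [ex, e, ← ofReal_exp, Real.exp_sub, Real.exp_nat_mul, Real.exp_log h]

theorem cd_ex (a : ℕ) {n : WithTop ℕ∞} (hH : CdM n H z) (h : (H z).det.re ≠ 0) :
    ContDiffAt ℝ n (ex a H) z := (contDiffAt_const.mul (hH.lg h)).cexp

theorem dz_ex (a : ℕ) (h : DifferentiableAt ℝ (lg H) z) (k : ι) :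
    dz (ex a H) k z = ex a H z * (1 - a) * dz (lg H) k z := by
  have e : HasDerivAt (fun c : ℂ => cexp ((1 - a) * c)) (cexp ((1 - a) * lg H z) * (1 - a))
      (lg H z) := by
    simpa using ((hasDerivAt_id (lg H z)).const_mul (1 - (a : ℂ))).cexp
  exact dz_hol_comp e h k

theorem cd_shp {m n : WithTop ℕ∞} (hH : CdM m H z) (h : (H z).det ≠ 0) (hF : ContDiffAt ℝ n F z)
    (hm : m + 1 ≤ n) (i : ι) : ContDiffAt ℝ m (fun w => shp H F w i) z :=
  ContDiffAt.sum fun j _ => (hH.inv h j i).mul (contDiffAt_dzb hF hm j)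

omit [DecidableEq ι] in
theorem cd_star {n : WithTop ℕ∞} (h : ContDiffAt ℝ n F z) :
    ContDiffAt ℝ n (fun w => star (F w)) z := conjCLE.contDiff.contDiffAt.comp z h

theorem ipV_shp (hH : (H z).IsHermitian) (h : (H z).det ≠ 0) (s : V ι) :
    ipV (H z) s (shp H T z) = ∑ i, s i * star (dzb T i z) := by
  refine Finset.sum_congr rfl fun i _ => ?_
  have e : ∀ j, star (shp H T z j) = ∑ k, (H z)⁻¹ j k * star (dzb T k z) := fun j => by
    rw [shp, star_sum]
    refine Finset.sum_congr rfl fun k _ => ?_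
    rw [star_mul', hH.inv.apply j k]
  have e2 := congrFun (congrArg (· *ᵥ fun k => star (dzb T k z)) (mul_nonsing_inv _ h.isUnit)) i
  rw [one_mulVec, ← mulVec_mulVec] at e2
  rw [← e2]
  simp only [e, mulVec, dotProduct, Finset.mul_sum]
  exact Finset.sum_congr rfl fun j _ => Finset.sum_congr rfl fun k _ => by ring

theorem lapL_eq (H : V ι → Mat ι) (F : V ι → ℂ) (z : V ι) :
    lapL H F z = ∑ i, ∑ j, (H z)⁻¹ j i * dz (dzb F j) i z := by
  simp only [lapL, trace, diag, mul_apply, levi_apply]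
  exact Finset.sum_congr rfl fun i _ => Finset.sum_congr rfl fun j _ => mul_comm _ _

theorem det_ne (h : (H z).PosDef) : (H z).det ≠ 0 := h.det_pos.ne'

theorem det_pos {A : Mat ι} (h : A.PosDef) : 0 < A.det.re := (Complex.pos_iff.1 h.det_pos).1

theorem div_shp (hc : CurvS) (hU : IsOpen U) (hH : KOn H U) (hz : z ∈ U)
    (hF : ContDiffAt ℝ 2 F z) : ∑ i, dz (fun w => shp H F w i) i z =
      lapL H F z - ∑ i, ∑ j, (H z)⁻¹ j i * dz (lg H) i z * dzb F j z := by
  have hi := (hH.1.1.df hz).inv (det_ne (hH.2 z hz))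
  have e : ∀ i, dz (fun w => shp H F w i) i z = ∑ j, (dz (fun w => (H w)⁻¹ j i) i z * dzb F j z +
      (H z)⁻¹ j i * dz (dzb F j) i z) := fun i => by
    simp only [shp]
    rw [dz_sum _ fun j _ => (hi j i).fun_mul (differentiableAt_dzb hF j)]
    exact Finset.sum_congr rfl fun j _ => dz_mul (hi j i) (differentiableAt_dzb hF j) i
  simp only [e, Finset.sum_add_distrib]
  rw [lapL_eq, Finset.sum_comm, Finset.sum_comm (f := fun i j => (H z)⁻¹ j i * dz (lg H) i z *
    dzb F j z)]
  simp only [← Finset.sum_mul, hc.div ι H U hU hH z hz, neg_mul, Finset.sum_neg_distrib]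
  ring

theorem div_sec (hc : CurvS) (a : ℕ) (hU : IsOpen U) (hH : KOn H U) (hz : z ∈ U)
    (hF : ContDiffAt ℝ 2 F z) (hT : ContDiffAt ℝ 1 T z) :
    ∑ i, dz (fun w => ((ex a H w * star (T w)) • shp H F w) i) i z =
      ex a H z * (boxL a H F z * star (T z) + ipV (H z) (shp H F z) (shp H T z)) := by
  have hp := hH.2 z hz
  have hd := hH.1.1.cd2 hz
  have d1 : DifferentiableAt ℝ (lg H) z := (hd.lg (det_pos hp).ne').differentiableAt two_ne_zero
  have d2 : DifferentiableAt ℝ (ex a H) z :=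
    (cd_ex a hd (det_pos hp).ne').differentiableAt two_ne_zero
  have d3 : DifferentiableAt ℝ (fun w => star (T w)) z := (hT.differentiableAt one_ne_zero).star
  have d4 := fun i => (cd_shp (m := 1) (hd.of_le one_le_two) (det_ne hp) hF le_rfl i).differentiableAt
    one_ne_zero
  have e : ∀ i, dz (fun w => ((ex a H w * star (T w)) • shp H F w) i) i z =
      ex a H z * ((1 - a) * star (T z) * (dz (lg H) i z * shp H F z i) +
        shp H F z i * star (dzb T i z) + star (T z) * dz (fun w => shp H F w i) i z) := fun i => by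
    simp only [Pi.smul_apply, smul_eq_mul]
    rw [dz_mul (d2.fun_mul d3) (d4 i), dz_mul d2 d3, dz_ex a d1, dz_star]
    ring
  have e2 : ∑ i, dz (lg H) i z * shp H F z i =
      ∑ i, ∑ j, (H z)⁻¹ j i * dz (lg H) i z * dzb F j z := by
    simp only [shp, Finset.mul_sum]
    exact Finset.sum_congr rfl fun i _ => Finset.sum_congr rfl fun j _ => by ring
  simp only [e, ← Finset.mul_sum, Finset.sum_add_distrib]
  rw [div_shp hc hU hH hz hF, ipV_shp hp.1 (det_ne hp), e2, boxL]
  ring

theorem cd_lapL (hH : CdM 0 H z) (h : (H z).det ≠ 0) (hF : ContDiffAt ℝ 2 F z) :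
    ContDiffAt ℝ 0 (lapL H F) z :=
  CdM.tr (CdM.mul (fun i j => contDiffAt_levi hF (by norm_num) i j) (hH.inv h))

theorem cd_boxL (a : ℕ) (hH : CdM 1 H z) (h : (H z).PosDef) (hF : ContDiffAt ℝ 2 F z) :
    ContDiffAt ℝ 0 (boxL a H F) z := by
  have h0 : CdM 0 H z := hH.of_le zero_le_one
  exact (cd_lapL h0 (det_ne h) hF).sub (contDiffAt_const.mul (ContDiffAt.sum fun i _ =>
    ContDiffAt.sum fun j _ => ((h0.inv (det_ne h) j i).mul
      (contDiffAt_dz (hH.lg (det_pos h).ne') (by norm_num) i)).mul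
      (contDiffAt_dzb hF (by norm_num) j)))

omit [DecidableEq ι] in
theorem cd_ipV {B : V ι → Mat ι} {s t : V ι → V ι} (hB : CdM 0 B z)
    (hs : ∀ i, ContDiffAt ℝ 0 (fun w => s w i) z) (ht : ∀ i, ContDiffAt ℝ 0 (fun w => t w i) z) :
    ContDiffAt ℝ 0 (fun w => ipV (B w) (s w) (t w)) z :=
  ContDiffAt.sum fun i _ => ContDiffAt.sum fun j _ => ((hB i j).mul (hs i)).mul (cd_star (ht j))

theorem cd_grL (hH : CdM 0 H z) (h : (H z).det ≠ 0) (hF : ContDiffAt ℝ 1 F z)
    (hT : ContDiffAt ℝ 1 T z) :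
    ContDiffAt ℝ 0 (fun w => grL (H w) (fun i => dz F i w) fun i => dz T i w) z :=
  ContDiffAt.sum fun i _ => ContDiffAt.sum fun j _ => ((hH.inv h j i).mul
    (contDiffAt_dz hF (by norm_num) i)).mul (cd_star (contDiffAt_dz hT (by norm_num) j))

theorem cont_nD {s : V ι → V ι} (hH : CdM 0 H z) (h : (H z).det ≠ 0)
    (hs : ∀ i, ContDiffAt ℝ 1 (fun w => s w i) z) : ContinuousAt (nD H s) z := by
  refine continuous_re.continuousAt.comp (ContDiffAt.continuousAt (𝕜 := ℝ) (n := 0) ?_)
  exact ContDiffAt.sum fun k _ => ContDiffAt.sum fun l _ => ContDiffAt.sum fun i _ =>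
    ContDiffAt.sum fun j _ => (((hH.inv h k l).mul (hH i j)).mul
      (contDiffAt_dzb (hs i) (by norm_num) k)).mul (cd_star (contDiffAt_dzb (hs j) (by norm_num) l))

omit [DecidableEq ι] in
theorem ipV_smul (B : Mat ι) (c d : ℂ) (s t : V ι) :
    ipV B (c • s) (d • t) = c * star d * ipV B s t := by
  simp only [ipV, Pi.smul_apply, smul_eq_mul, star_mul', Finset.mul_sum]
  exact Finset.sum_congr rfl fun i _ => Finset.sum_congr rfl fun j _ => by ring

theorem grL_re {A : Mat ι} (hA : A.IsHermitian) (s t : V ι) :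
    (∑ i, (∑ j, A⁻¹ j i * star (s j)) * t i).re = (grL A s t).re := by
  rw [← conj_re, grL, Finset.sum_comm]
  congr 1
  simp only [Finset.sum_mul, map_sum, map_mul]
  refine Finset.sum_congr rfl fun i _ => Finset.sum_congr rfl fun j _ => ?_
  rw [← hA.inv.apply i j]
  simp

theorem nsq (c : ℂ) : ((‖c‖ ^ 2 : ℝ) : ℂ) = c * star c := by
  rw [← normSq_eq_norm_sq, ← mul_conj]; rfl

/-! ### the derivative of the determinant -/

theorem div_adj (hc : CurvS) {B : V ι → Mat ι} (hU : IsOpen U) (hB : ClOn B U) (hz : z ∈ U)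
    (hF : ContDiffAt ℝ 2 F z) :
    ∑ i, dz (fun w => ((B w).adjugateᵀ *ᵥ fun j => dzb F j w) i) i z =
      trace ((B z).adjugate * levi F z) := by
  have hi := (hB.1.df hz).adjugate
  have e : ∀ i, dz (fun w => ((B w).adjugateᵀ *ᵥ fun j => dzb F j w) i) i z =
      ∑ j, (dz (fun w => (B w).adjugate j i) i z * dzb F j z +
        (B z).adjugate j i * dz (dzb F j) i z) := fun i => by
    simp only [mulVec, dotProduct, transpose_apply]
    rw [dz_sum _ fun j _ => (hi j i).fun_mul (differentiableAt_dzb hF j)]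
    exact Finset.sum_congr rfl fun j _ => dz_mul (hi j i) (differentiableAt_dzb hF j) i
  simp only [e, Finset.sum_add_distrib]
  rw [Finset.sum_comm]
  simp only [← Finset.sum_mul, hc.adj ι B U hU hB z hz, zero_mul, Finset.sum_const_zero, zero_add]
  rw [Finset.sum_comm]
  rfl

theorem adj_pull (J B : Mat ι) (β : V ι) :
    J *ᵥ ((pull J B).adjugateᵀ *ᵥ (β ᵥ* J.map star)) =
      ((‖J.det‖ ^ 2 : ℝ) : ℂ) • (B.adjugateᵀ *ᵥ β) := by
  have e : (J.map star).det = star J.det := by
    rw [← det_transpose, ← det_conjTranspose]; rfl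
  rw [pull, adjugate_mul_distrib, adjugate_mul_distrib, transpose_mul, transpose_mul,
    ← adjugate_transpose J, transpose_transpose, ← mulVec_transpose, mulVec_mulVec, mulVec_mulVec,
    ← Matrix.mul_assoc, ← Matrix.mul_assoc, mul_adjugate, Matrix.mul_assoc, ← transpose_mul,
    mul_adjugate, e, nsq]
  simp [smul_mulVec, smul_smul, mul_comm]

open Polynomial in
/-- the determinant of a pencil. -/
def pen (B L : Mat ι) : ℂ[X] := ((X : ℂ[X]) • L.map C + B.map C : Matrix ι ι ℂ[X]).det

omit [Fintype ι] [DecidableEq ι] in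
open Polynomial in
theorem pen_entry (B L : Mat ι) (t : ℂ) (i j : ι) :
    (((X : ℂ[X]) • L.map C + B.map C : Matrix ι ι ℂ[X]) i j).eval t = (B + t • L) i j := by
  simp only [Matrix.add_apply, Matrix.smul_apply, map_apply, smul_eq_mul, eval_add, eval_mul,
    eval_X, eval_C]
  ring

open Polynomial in
theorem pen_eval (B L : Mat ι) (t : ℂ) : (pen B L).eval t = (B + t • L).det := by
  simp only [pen, det_apply', eval_finsetSum, eval_mul, eval_prod, eval_intCast]
  refine Finset.sum_congr rfl fun σ _ => congrArg _ (Finset.prod_congr rfl fun i _ => ?_)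
  exact pen_entry B L t _ _

open Polynomial in
theorem pen_deriv (B L : Mat ι) (t : ℂ) :
    (derivative (pen B L)).eval t = trace ((B + t • L).adjugate * L) := by
  have e2 : ∀ i, ((B + t • L).adjugate * L) i i = ∑ σ : Equiv.Perm ι,
      ((Equiv.Perm.sign σ : ℤ) : ℂ) *
        ((∏ j ∈ Finset.univ.erase i, (B + t • L) (σ j) j) * L (σ i) i) := by
    intro i
    have := congrFun (cramer_eq_adjugate_mulVec (B + t • L) fun r => L r i) i
    rw [cramer_apply, det_apply'] at this
    refine this.symm.trans (Finset.sum_congr rfl fun σ _ => ?_)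
    rw [← Finset.prod_erase_mul _ _ (Finset.mem_univ i), updateCol_self,
      Finset.prod_congr rfl fun j hj => updateCol_ne (Finset.ne_of_mem_erase hj)]
  simp only [trace, diag, e2]
  rw [Finset.sum_comm]
  simp only [pen, det_apply', derivative_sum, derivative_mul, derivative_intCast, zero_mul,
    zero_add, derivative_prod_finset, eval_finsetSum, eval_mul, eval_prod, eval_intCast,
    Finset.mul_sum]
  refine Finset.sum_congr rfl fun σ _ => Finset.sum_congr rfl fun i _ => congrArg _ ?_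
  congr 1
  · exact Finset.prod_congr rfl fun j _ => pen_entry B L t _ _
  · simp

open Polynomial in
theorem poly_const {Y : Type} [MeasurableSpace Y] (μ : Measure Y) (p : Y → ℂ[X]) (n : ℕ)
    (hn : ∀ y, (p y).natDegree ≤ n) (hi : ∀ t : ℝ, Integrable (fun y => (p y).eval (t : ℂ)) μ)
    (h0 : ∀ t : ℝ, ∫ y, (derivative (p y)).eval (t : ℂ) ∂μ = 0) :
    ∫ y, (p y).eval 1 ∂μ = ∫ y, (p y).eval 0 ∂μ := by
  let s := Finset.range (n + 1)
  let v : ℕ → ℂ := fun k => k
  let b := Lagrange.basis s v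
  have hp : ∀ y, p y = ∑ k ∈ s, C ((p y).eval (v k)) * b k := fun y =>
    Lagrange.eq_interpolate (fun _ _ _ _ h => Nat.cast_injective h) (by
      rw [Finset.card_range]
      exact degree_le_natDegree.trans_lt (by exact_mod_cast Nat.lt_succ_of_le (hn y)))
  have hi' : ∀ k, Integrable (fun y => (p y).eval (v k)) μ := fun k => by simpa using hi k
  let q : ℂ[X] := ∑ k ∈ s, C (∫ y, (p y).eval (v k) ∂μ) * b k
  have key : ∀ (D : ℂ[X] →ₗ[ℂ] ℂ), ∫ y, D (p y) ∂μ = D q := fun D => by
    have e : ∀ y, D (p y) = ∑ k ∈ s, (p y).eval (v k) * D (b k) := fun y => by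
      conv_lhs => rw [hp y]
      simp only [map_sum, ← smul_eq_C_mul, map_smul, smul_eq_mul]
    simp only [e]
    rw [integral_finsetSum _ fun k _ => (hi' k).mul_const _]
    simp only [q, map_sum, ← smul_eq_C_mul, map_smul, smul_eq_mul, integral_mul_const]
  have hq : derivative q = 0 := by
    refine eq_zero_of_infinite_isRoot _ (Set.infinite_of_injective_forall_mem
      (f := fun t : ℝ => (t : ℂ)) ofReal_injective fun t => ?_)
    exact (key ((leval (t : ℂ)).comp derivative)).symm.trans (h0 t)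
  have h1 := key (leval 1)
  have h2 := key (leval 0)
  simp only [leval_apply] at h1 h2
  rw [h1, h2, eq_C_of_derivative_eq_zero hq, eval_C, eval_C]

end Green

end

end Pool.Agent.Lib.MP_813db1_ag.HS
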