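import Pool.Agent.Lib.MP_813db1_ag.HS.AY0

/-! Successive approximation. -/

namespace Pool.Agent.Lib.MP_813db1_ag.HS

open Complex Filter Topology Set Metric

theorem iter (hA : RepA) (hc : CauS) : IterS := by
  intro ι X _ _ _ M C a Φ t K B0 ht hK hB h0 hstep hcont
  have hA := hA ι X M
  have hKB := mul_nonneg hK hB
  have hp : ∀ k : ℕ, (0 : ℝ) < (1 / 2) ^ k := fun k => by positivity
  have hp1 : ∀ k : ℕ, ((1 : ℝ) / 2) ^ k ≤ 1 := fun k => pow_le_one₀ (by norm_num) (by norm_num)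
  let P : ℕ → (X → ℂ) → Prop := fun k v =>
    C.SH2 a (2 * K * B0 * (1 - (1 / 2) ^ k)) v ∧ C.SHT a t (B0 * (1 / 2) ^ k) (Φ v)
  have big : ∀ k v, P k v → C.SH2 a (2 * K * B0) v := fun k v h =>
    h.1.mono (by nlinarith [mul_nonneg hKB (hp k).le])
  have step : ∀ k v, P k v → ∃ v', P (k + 1) v' ∧
      C.SH2 a (K * B0 * (1 / 2) ^ k) fun x => v' x - v x := fun k v h => by
    obtain ⟨w, w1, w2⟩ := hstep v _ (mul_nonneg hB (hp k).le)
      (mul_le_of_le_one_right hB (hp1 k)) (big k v h) h.2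
    exact ⟨fun x => v x + w x, ⟨(h.1.add w1).mono (le_of_eq (by ring)),
      w2.mono (le_of_eq (by ring))⟩, (w1.congr fun x => by ring).mono (le_of_eq (by ring))⟩
  have p0 : P 0 fun _ => 0 := ⟨Cov.SH2.zero (by simp), by simpa using h0⟩
  choose! nx hn1 hn2 using step
  let S : ℕ → X → ℂ := fun k => Nat.rec (fun _ => 0) nx k
  have hS : ∀ k, P k (S k) := fun k => by
    induction k with
    | zero => exact p0
    | succ k ih => exact hn1 k _ ih
  have hd : ∀ k n, C.SH2 a (2 * K * B0 * ((1 / 2) ^ k - (1 / 2) ^ (k + n)))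
      fun x => S (k + n) x - S k x := fun k n => by
    induction n with
    | zero => exact (Cov.SH2.zero (by simp)).congr fun x => sub_self _
    | succ n ih =>
      exact ((ih.add (hn2 (k + n) _ (hS (k + n)))).congr fun x => by
        change nx (k + n) (S (k + n)) x - S k x = _
        ring).mono (le_of_eq (by ring))
  have hd' : ∀ k j, k ≤ j → C.SH2 a (2 * K * B0 * (1 / 2) ^ k) fun x => S j x - S k x :=
    fun k j h => by
      obtain ⟨n, rfl⟩ := Nat.exists_eq_add_of_le h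
      exact (hd k n).mono (by nlinarith [mul_nonneg hKB (hp (k + n)).le])
  have lim : ∀ c : ℝ, Tendsto (fun k : ℕ => c * (1 / 2 : ℝ) ^ k) atTop (𝓝 0) := fun c => by
    simpa using (tendsto_pow_atTop_nhds_zero_of_lt_one (r := (1 / 2 : ℝ)) (by norm_num)
      (by norm_num)).const_mul c
  have cau : ∀ x, ∃ y, Tendsto (fun k => S k x) atTop (𝓝 y) := fun x => by
    obtain ⟨c, -, hc⟩ := Cov.SH.bound hA C a x
    refine cauchySeq_tendsto_of_complete (cauchySeq_of_le_tendsto_0'
      (fun k => c * (2 * K * B0) * (1 / 2 : ℝ) ^ k) (fun k j h => ?_) (lim _))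
    rw [dist_comm, dist_eq_norm, mul_assoc]
    exact hc _ _ (hd' k j h).sh
  choose G hG using cau
  have key : ∀ k, C.SH2 a (2 * K * B0 * (1 / 2) ^ k) fun x => G x - S k x := fun k b => by
    rw [rep_sub]
    refine (hc.lim ι _ (fun k => M.rep a (S k) (C.e b)) (M.rep a G (C.e b)) _ isOpen_ball (lim _)
      (fun k => (big k _ (hS k) b).1) (fun k j h => ?_) fun z _ => (hG _).const_mul _).2 k
    rw [← rep_sub]
    exact hd' k j h b
  have hG2 : C.SH2 a (2 * K * B0) G :=
    ((key 0).congr fun x => (sub_zero _).symm).mono (by simp)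
  refine ⟨G, hG2, fun x => norm_le_zero_iff.1 (le_of_forall_pos_le_add fun ε hε => ?_)⟩
  obtain ⟨δ, hδ, k1⟩ := hcont G x hG2 (ε / 2) (by positivity)
  obtain ⟨c, -, hc'⟩ := Cov.SH.bound hA C a x
  obtain ⟨k, k2, k3⟩ := (((lim (2 * K * B0)).eventually (gt_mem_nhds hδ)).and
    ((lim (c * B0)).eventually (gt_mem_nhds (half_pos hε)))).exists
  have a1 := k1 _ (big k _ (hS k)) ((key k).mono k2.le)
  have a2 := hc' _ _ ((hS k).2.sh ht)
  have a3 := norm_add_le (Φ G x - Φ (S k) x) (Φ (S k) x)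
  rw [sub_add_cancel] at a3
  rw [← mul_assoc] at a2
  linarith

end Pool.Agent.Lib.MP_813db1_ag.HS
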