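import Pool.Agent.Lib.MP_813db1_ag.HS.Calc2
import Pool.Agent.Lib.MP_813db1_ag.HS.Mat

/-! The limit of the cut off forms: the local part. -/

namespace Pool.Agent.Lib.MP_813db1_ag.HS

open MeasureTheory Complex Matrix Filter Topology Set Metric
open scoped ContDiff ComplexOrder

noncomputable section

namespace Par1

section Meas

variable {Y : Type} [MeasurableSpace Y] {ν : Measure Y} {𝒰 : Filter ℕ}

theorem lim0 [TopologicalSpace Y] [T2Space Y] [LocallyCompactSpace Y] [OpensMeasurableSpace Y]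
    [ν.IsOpenPosMeasure] [IsFiniteMeasureOnCompacts ν] [𝒰.NeBot] {O : Set Y} (hO : IsOpen O)
    {F : Y → ℝ} (hF : ContinuousOn F O)
    (h : ∀ K, IsCompact K → K ⊆ O → ∃ φ : ℕ → Y → ℝ,
      (∀ j, IntegrableOn (φ j) K ν ∧ ∀ y ∈ K, F y ≤ φ j y) ∧
        Tendsto (fun j => ∫ y in K, φ j y ∂ν) 𝒰 (𝓝 0)) : ∀ y ∈ O, F y ≤ 0 := by
  intro y hy
  by_contra hn
  rw [not_le] at hn
  have hW : IsOpen (O ∩ F ⁻¹' Ioi (F y / 2)) := hF.isOpen_inter_preimage hO isOpen_Ioi
  obtain ⟨K, hK, h1, h2⟩ := exists_compact_subset hW ⟨hy, half_lt_self hn⟩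
  obtain ⟨φ, h3, h4⟩ := h K hK fun w hw => (h2 hw).1
  have p : 0 < ν.real K := ENNReal.toReal_pos
    ((isOpen_interior.measure_pos ν ⟨y, h1⟩).trans_le (measure_mono interior_subset)).ne'
    hK.measure_lt_top.ne
  have q : ν.real K * (F y / 2) ≤ 0 := ge_of_tendsto' h4 fun j => by
    have := setIntegral_mono_on (μ := ν) (f := fun _ => F y / 2)
      (integrableOn_const hK.measure_lt_top.ne) (h3 j).1 hK.measurableSet
      fun w hw => (le_of_lt (h2 hw).2).trans ((h3 j).2 w hw)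
    rwa [setIntegral_const, smul_eq_mul] at this
  nlinarith

theorem sq0 {K : Set Y} (hK : MeasurableSet K) {y a b : ℕ → Y → ℝ} {A : ℝ}
    (h : ∀ j, IntegrableOn (a j) K ν ∧ IntegrableOn (b j) K ν ∧ ∫ z in K, a j z ∂ν ≤ A ∧
      ∀ z ∈ K, 0 ≤ y j z ∧ 0 ≤ a j z ∧ 0 ≤ b j z ∧ y j z ^ 2 ≤ a j z * b j z)
    (hb : Tendsto (fun j => ∫ z in K, b j z ∂ν) 𝒰 (𝓝 0)) :
    Tendsto (fun j => ∫ z in K, y j z ∂ν) 𝒰 (𝓝 0) := by
  have hA : 0 ≤ A := (setIntegral_nonneg hK fun z hz => ((h 0).2.2.2 z hz).2.1).trans (h 0).2.2.1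
  refine tendsto_order.2 ⟨fun c hc => Eventually.of_forall fun j =>
    hc.trans_le (setIntegral_nonneg hK fun z hz => ((h j).2.2.2 z hz).1), fun c hc => ?_⟩
  obtain ⟨t, ht, h1⟩ : ∃ t > 0, t * A < c / 2 := ⟨c / 2 / (A + 1), by positivity, by
    rw [div_mul_eq_mul_div, div_lt_iff₀ (by positivity)]; nlinarith⟩
  filter_upwards [hb.eventually (gt_mem_nhds (show 0 < t * (c / 2) by positivity))] with j hj
  obtain ⟨i1, i2, i3, i4⟩ := h j
  have e : ∫ z in K, y j z ∂ν ≤ ∫ z in K, (t * a j z + t⁻¹ * b j z) ∂ν := by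
    refine integral_mono_of_nonneg ((ae_restrict_iff' hK).2 (ae_of_all _ fun z hz => (i4 z hz).1))
      ((i1.const_mul t).add (i2.const_mul t⁻¹)) ((ae_restrict_iff' hK).2 (ae_of_all _ fun z hz => ?_))
    obtain ⟨k1, k2, k3, k4⟩ := i4 z hz
    have k5 : a j z * b j z = (t * a j z) * (t⁻¹ * b j z) := by field_simp
    have u1 : 0 ≤ t * a j z := by positivity
    have u2 : 0 ≤ t⁻¹ * b j z := by positivity
    exact (abs_le_of_sq_le_sq' (by nlinarith) (by linarith)).2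
  rw [integral_add (i1.const_mul t) (i2.const_mul t⁻¹), integral_const_mul, integral_const_mul] at e
  have e2 : t⁻¹ * ∫ z in K, b j z ∂ν < c / 2 := by rwa [inv_mul_lt_iff₀ ht]
  nlinarith [mul_le_mul_of_nonneg_left i3 ht.le]

end Meas

variable {ι : Type} [Fintype ι] [DecidableEq ι]

/-- a vector of entries as a matrix. -/
def toM (p : ι × ι → ℂ) : Mat ι := Matrix.of fun i l => p (i, l)

/-- the connection. -/
def gm (γ : ι → Mat ι) (v : V ι) (P : Mat ι) : Mat ι :=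
  ∑ k, (v k • (γ k * P) + star (v k) • (P * (γ k)ᴴ))

omit [DecidableEq ι] in
theorem gm_apply (γ : ι → Mat ι) (v : V ι) (P : Mat ι) (i l : ι) : gm γ v P i l =
    ∑ k, (v k * ∑ m, γ k i m * P m l + star (v k) * ∑ m, P i m * star (γ k l m)) := by
  simp only [gm, Matrix.sum_apply, Matrix.add_apply, Matrix.smul_apply, smul_eq_mul, mul_apply,
    conjTranspose_apply]

omit [DecidableEq ι] in
theorem ex_gm (γ : ι → Mat ι) : ∃ Γ : V ι →L[ℝ] (ι × ι → ℂ) →L[ℝ] (ι × ι → ℂ),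
    ∀ v p a, Γ v p a = gm γ v (toM p) a.1 a.2 := by
  refine ⟨(LinearMap.mk₂ ℝ (fun v p (a : ι × ι) => gm γ v (toM p) a.1 a.2) ?_ ?_ ?_
    ?_).toContinuousBilinearMap, fun _ _ _ => rfl⟩
  · intro v w p
    ext a
    simp only [gm_apply, Pi.add_apply, star_add, ← Finset.sum_add_distrib]
    exact Finset.sum_congr rfl fun k _ => by ring
  · intro c v p
    ext a
    simp only [gm_apply, Pi.smul_apply, real_smul, star_mul', Finset.mul_sum (a := (c : ℂ)),
      star_def, conj_ofReal]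
    exact Finset.sum_congr rfl fun k _ => by ring
  · intro v p q
    ext a
    simp only [gm_apply, Pi.add_apply, toM, of_apply, mul_add, add_mul, Finset.sum_add_distrib]
    ring
  · intro c v p
    ext a
    simp only [gm_apply, Pi.smul_apply, real_smul, toM, of_apply, Finset.mul_sum, mul_add]
    exact Finset.sum_congr rfl fun k _ => by
      congr 1 <;> exact Finset.sum_congr rfl fun m _ => by ring

theorem gm_single (γ : ι → Mat ι) (k : ι) (c : ℂ) (P : Mat ι) :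
    gm γ (Pi.single k c) P = c • (γ k * P) + star c • (P * (γ k)ᴴ) := by
  rw [gm, Finset.sum_eq_single k (fun m _ h => by simp [Pi.single_eq_of_ne h]) (by simp),
    Pi.single_eq_same]

theorem fder {S : V ι → Mat ι} {z : V ι} (hS : ∀ᶠ w in 𝓝 z, (S w).IsHermitian)
    (γ : ι → Mat ι) (v : V ι) (i l : ι) : fderiv ℝ (fun w => S w i l) z v - gm γ v (S z) i l =
      ∑ k, (v k * (dM S k z - γ k * S z) i l + star (v k) * star ((dM S k z - γ k * S z) l i)) := by
  rw [fderiv_eq_dz, gm, Matrix.sum_apply, ← Finset.sum_sub_distrib]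
  refine Finset.sum_congr rfl fun k _ => ?_
  rw [← conjTranspose_apply, conjTranspose_sub, conjTranspose_mul, hS.self_of_nhds.eq,
    ← dMb_eq_conjT hS, ← dM_apply, ← dMb_apply]
  simp only [Matrix.add_apply, Matrix.smul_apply, Matrix.sub_apply, smul_eq_mul]
  ring

theorem psd {G H : Mat ι} (hG : G.PosDef) (hH : H.PosDef) : (G * H⁻¹ * G).PosSemidef := by
  have := hH.inv.posSemidef.mul_mul_conjTranspose_same G
  rwa [hG.1.eq] at this

theorem bdQ {G H : Mat ι} (hG : G.PosDef) (hH : H.PosDef) {ε L : ℝ} (hε : 0 < ε) (h1 : Bd L G)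
    (h2 : ε * trm H G ≤ L) : Bd (L * L) ((ε : ℂ) • (G * H⁻¹ * G)) := by
  refine Mat.bd_le hG ((psd hG hH).smul (by exact_mod_cast hε.le)) h1 ?_
  rw [trm, Matrix.smul_mul, Matrix.mul_assoc, mul_nonsing_inv _ ((isUnit_iff_isUnit_det _).1 hG.isUnit), Matrix.mul_one,
    trace_smul, smul_eq_mul, re_ofReal_mul]
  exact h2

theorem grd (L : ℝ) : ∃ C ≥ (0 : ℝ), ∀ G : Mat ι, G.PosDef → Bd L G → Bd L G⁻¹ → ∀ (a : V ι) k,
    ‖a k‖ ^ 2 ≤ C * (grL G a a).re := by
  obtain ⟨c, hc, h⟩ := Mat.nv ι L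
  refine ⟨c⁻¹, by positivity, fun G hG h1 h2 a k => ?_⟩
  have := (h (G⁻¹)ᵀ hG.inv.transpose (fun i j => h2 j i) (fun i j => by
    rw [← transpose_nonsing_inv, nonsing_inv_nonsing_inv _ ((isUnit_iff_isUnit_det _).1 hG.isUnit)]
    exact h1 j i) a).1
  rw [le_inv_mul_iff₀ hc]
  refine le_trans ?_ this
  gcongr
  exact norm_le_pi_norm a k

omit [DecidableEq ι] in
theorem ex_bd {Y : Type} [TopologicalSpace Y] {K : Set Y} (hK : IsCompact K) {G : Y → Mat ι}
    (h : ∀ i j, ContinuousOn (fun z => G z i j) K) : ∃ L ≥ (0 : ℝ), ∀ z ∈ K, Bd L (G z) := by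
  obtain ⟨L, hL⟩ := hK.exists_bound_of_continuousOn
    (f := fun z (a : ι × ι) => G z a.1 a.2) (continuousOn_pi.2 fun a => h a.1 a.2)
  exact ⟨max L 0, le_max_right _ _, fun z hz i j =>
    ((norm_le_pi_norm (fun a : ι × ι => G z a.1 a.2) (i, j)).trans (hL z hz)).trans (le_max_left _ _)⟩

theorem gr_nonneg {G : Mat ι} (hG : G.PosDef) (a : V ι) : 0 ≤ (grL G a a).re :=
  Mat.nv_mono hG.inv.transpose.posSemidef a

theorem kdet {G : Mat ι} (hG : G.PosDef) : G.det ≠ 0 := hG.det_pos.ne'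

theorem est (h2 : CL2S) {L : ℝ} (hL : 0 ≤ L) : ∃ C ≥ (0 : ℝ), ∀ (G H : V ι → Mat ι)
    (U : Set (V ι)) (c : V ι → ℝ) (ε : ℝ), IsOpen U → KOn G U → KOn H U → ∀ z ∈ U, Bd L (G z) →
    Bd L (G z)⁻¹ → DifferentiableAt ℝ (fun w => (c w : ℂ)) z → 0 ≤ c z → c z ≤ 1 → 0 < ε →
    ε * trm (H z) (G z) ≤ L → 0 ≤ clT G H z → ∀ k i l,
    ‖(dM (fun w => (c w : ℂ) • (ε : ℂ) • (G w * (H w)⁻¹ * G w)) k z -
      gam G k z * ((c z : ℂ) • (ε : ℂ) • (G z * (H z)⁻¹ * G z))) i l‖ ^ 2 ≤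
      (1 + trm (G z) (H z)) * (C * ((grL (G z) (fun i => dz (fun w => (c w : ℂ)) i z)
        fun i => dz (fun w => (c w : ℂ)) i z).re + c z * (ε * clT G H z))) := by
  obtain ⟨C1, p1, q1⟩ := grd (ι := ι) L
  obtain ⟨C2, p2, q2⟩ := h2 ι L
  refine ⟨2 * C1 * (L * L) ^ 2 + 2 * C2 * L, by positivity,
    fun G H U c ε hU hG hH z hz b1 b2 hc c0 c1 hε ht hcl k i l => ?_⟩
  have dQ : DfM (fun w => G w * (H w)⁻¹ * G w) z :=
    ((hG.1.1.df hz).mul ((hH.1.1.df hz).inv (kdet (hH.2 z hz)))).mul (hG.1.1.df hz)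
  have e1 := q1 _ (hG.2 z hz) b1 b2 (fun i => dz (fun w => (c w : ℂ)) i z) k
  have e2 := q2 G H U hU hG hH z hz b1 b2 k i l
  have e3 := bdQ (hG.2 z hz) (hH.2 z hz) hε b1 ht i l
  have e4 := gr_nonneg (hG.2 z hz) fun i => dz (fun w => (c w : ℂ)) i z
  have e5 := Mat.trm_nonneg (hG.2 z hz) (hH.2 z hz).posSemidef
  have e6 := Mat.trm_nonneg (hH.2 z hz) (hG.2 z hz).posSemidef
  rw [dM_smul hc (DfM.smul (differentiableAt_const _) dQ), dM_csmul _ dQ]
  set Q := G z * (H z)⁻¹ * G z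
  set D := dM (fun w => G w * (H w)⁻¹ * G w) k z
  set x := dz (fun w => (c w : ℂ)) k z
  have e : (x • (ε : ℂ) • Q + (c z : ℂ) • (ε : ℂ) • D - gam G k z * ((c z : ℂ) • (ε : ℂ) • Q)) i l =
      x * ((ε : ℂ) • Q) i l + ((c z * ε : ℝ) : ℂ) * (D - gam G k z * Q) i l := by
    simp only [Matrix.mul_smul, Matrix.sub_apply, Matrix.add_apply, Matrix.smul_apply, smul_eq_mul]
    push_cast
    ring
  have e7 := norm_add_le (x * ((ε : ℂ) • Q) i l) (((c z * ε : ℝ) : ℂ) * (D - gam G k z * Q) i l)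
  rw [norm_mul, norm_mul, norm_real, Real.norm_of_nonneg (by positivity)] at e7
  rw [e]
  refine (pow_le_pow_left₀ (norm_nonneg _) e7 2).trans ?_
  set g := (grL (G z) (fun i => dz (fun w => (c w : ℂ)) i z)
        fun i => dz (fun w => (c w : ℂ)) i z).re
  set a := trm (G z) (H z)
  set y := ‖((ε : ℂ) • Q) i l‖
  set w := ‖(D - gam G k z * Q) i l‖
  have f1 : (‖x‖ * y) ^ 2 ≤ C1 * g * (L * L) ^ 2 := by
    rw [mul_pow]
    gcongr
  have f0 : 0 ≤ c z * (ε * clT G H z) := by positivity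
  have f2 : (c z * ε * w) ^ 2 ≤ C2 * L * a * (c z * (ε * clT G H z)) :=
    calc (c z * ε * w) ^ 2 = c z * (c z * ε ^ 2 * w ^ 2) := by ring
      _ ≤ 1 * (c z * ε ^ 2 * (C2 * a * trm (H z) (G z) * clT G H z)) := by gcongr
      _ = C2 * (ε * trm (H z) (G z)) * a * (c z * (ε * clT G H z)) := by ring
      _ ≤ _ := by gcongr
  set b := c z * (ε * clT G H z)
  have f3 : 0 ≤ C1 * (L * L) ^ 2 := by positivity
  have f4 : 0 ≤ C2 * L := by positivity
  nlinarith [sq_nonneg (‖x‖ * y - c z * ε * w), mul_nonneg f3 f0, mul_nonneg f4 e4,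
    mul_nonneg f4 f0, mul_nonneg (mul_nonneg f3 e4) e5, mul_nonneg (mul_nonneg f3 f0) e5,
    mul_nonneg (mul_nonneg f4 e4) e5]

omit [DecidableEq ι] in
theorem cont {G : V ι → Mat ι} {U : Set (V ι)} (hG : SmM G U) (i j : ι) :
    ContinuousOn (fun z => G z i j) U := fun z hz => (hG z hz i j).continuousAt.continuousWithinAt

theorem loc (hl : ParLimS) (h2 : CL2S) {U : Set (V ι)} (hU : IsOpen U) {G : V ι → Mat ι}
    {H : ℕ → V ι → Mat ι} {c a b : ℕ → V ι → ℝ} {ε : ℕ → ℝ} {B : ℝ} {𝒰 : Ultrafilter ℕ}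
    (hG : KOn G U) (hH : ∀ j, KOn (H j) U ∧ 0 < ε j ∧ ContinuousOn (a j) U ∧
      ContinuousOn (b j) U ∧ ∀ z ∈ U, ContDiffAt ℝ ∞ (fun w => (c j w : ℂ)) z ∧ 0 ≤ c j z ∧
        c j z ≤ 1 ∧ ε j * trm (H j z) (G z) ≤ B ∧ 0 ≤ clT G (H j) z ∧ a j z = trm (G z) (H j z) ∧
        b j z = (grL (G z) (fun i => dz (fun w => (c j w : ℂ)) i z)
          fun i => dz (fun w => (c j w : ℂ)) i z).re + c j z * (ε j * clT G (H j) z))
    (hK : ∀ K, IsCompact K → K ⊆ U → (∃ A, ∀ j, ∫ z in K, a j z ≤ A) ∧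
      Tendsto (fun j => ∫ z in K, (1 - c j z)) 𝒰 (𝓝 0) ∧
      Tendsto (fun j => ∫ z in K, b j z) 𝒰 (𝓝 0)) :
    ∃ p : V ι → Mat ι, SmM p U ∧ (∀ z ∈ U, ∀ k, dM p k z = gam G k z * p z) ∧
      ∀ K, IsCompact K → K ⊆ U → ∀ i k, Tendsto (fun j => ∫ z in K,
        ‖((ε j : ℂ) • (G z * (H j z)⁻¹ * G z) - p z) i k‖) 𝒰 (𝓝 0) := by
  have dG : ∀ z ∈ U, (G z).det ≠ 0 := fun z hz => kdet (hG.2 z hz)
  have sG := hG.1.1
  have sI := sG.inv dG
  have sγ : ∀ k, SmM (gam G k) U := fun k => (sG.dM k).mul sI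
  set Q : ℕ → V ι → Mat ι := fun j w => (ε j : ℂ) • (G w * (H j w)⁻¹ * G w) with hQ
  have sQ : ∀ j, SmM (Q j) U := fun j => SmM.smul (fun _ _ => contDiffAt_const)
    ((sG.mul ((hH j).1.1.1.inv fun z hz => kdet ((hH j).1.2 z hz))).mul sG)
  set S : ℕ → V ι → Mat ι := fun j w => (c j w : ℂ) • Q j w with hS
  have sS : ∀ j, SmM (S j) U := fun j => SmM.smul (fun z hz => ((hH j).2.2.2.2 z hz).1) (sQ j)
  have hS' : ∀ j, ∀ z ∈ U, (S j z).IsHermitian := fun j z hz =>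
    (((psd (hG.2 z hz) ((hH j).1.2 z hz)).smul (a := (ε j : ℂ))
      (by exact_mod_cast (hH j).2.1.le)).smul (a := (c j z : ℂ))
        (by exact_mod_cast ((hH j).2.2.2.2 z hz).2.1)).1
  have bd : ∀ K, IsCompact K → K ⊆ U → ∃ L ≥ (0 : ℝ), B ≤ L ∧ ∀ z ∈ K, Bd L (G z) ∧ Bd L (G z)⁻¹ ∧
      ∀ j, Bd (L * L) (Q j z) := fun K hK hKU => by
    obtain ⟨L1, p1, q1⟩ := ex_bd hK fun i j => (cont sG i j).mono hKU
    obtain ⟨L2, p2, q2⟩ := ex_bd hK fun i j => (cont sI i j).mono hKU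
    have k1 : ∀ z ∈ K, Bd (max B (max L1 L2)) (G z) := fun z hz i j =>
      (q1 z hz i j).trans (le_max_of_le_right (le_max_left _ _))
    exact ⟨max B (max L1 L2), le_max_of_le_right (le_max_of_le_left p1), le_max_left _ _,
      fun z hz => ⟨k1 z hz, fun i j => (q2 z hz i j).trans (le_max_of_le_right (le_max_right _ _)),
        fun j => bdQ (hG.2 z (hKU hz)) ((hH j).1.2 z (hKU hz)) (hH j).2.1 (k1 z hz)
          (((hH j).2.2.2.2 z (hKU hz)).2.2.2.1.trans (le_max_left _ _))⟩⟩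
  choose Γ hΓ using fun z => ex_gm fun k => gam G k z
  set s : ℕ → V ι → ι × ι → ℂ := fun j z u => S j z u.1 u.2 with hs
  have cs : ∀ j, ∀ z ∈ U, ContDiffAt ℝ ∞ (s j) z := fun j z hz =>
    contDiffAt_pi.2 fun u => sS j z hz u.1 u.2
  refine (hl ι (ι × ι) U Γ s 𝒰 hU ?_
    (fun j z hz => ((cs j z hz).of_le (by simp)).contDiffWithinAt) ?_ ?_).elim
      fun p ⟨p1, p2, p3⟩ => ?_
  rotate_right
  · have cp : ∀ z ∈ U, ContDiffAt ℝ ∞ p z := fun z hz => p1.contDiffAt (hU.mem_nhds hz)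
    refine ⟨fun z => toM (p z), fun z hz i l => contDiffAt_pi.1 (cp z hz) (i, l),
      fun z hz k => ?_, fun K hK' hKU i l => ?_⟩
    · ext i l
      have e : ∀ v, fderiv ℝ (fun w => toM (p w) i l) z v =
          gm (fun k => gam G k z) v (toM (p z)) i l := fun v => by
        rw [← hΓ z v (p z) (i, l), ← p2 z hz v]
        exact congrArg (· v) (fderiv_apply ((cp z hz).differentiableAt (by simp)) (i, l))
      rw [dM_apply, dz, e, e, gm_single, gm_single, star_one, star_I]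
      simp only [Matrix.add_apply, Matrix.smul_apply, smul_eq_mul]
      linear_combination (-(gam G k z * toM (p z)) i l / 2 +
        (toM (p z) * (gam G k z)ᴴ) i l / 2) * I_mul_I
    · obtain ⟨L, hL, -, q⟩ := bd K hK' hKU
      have i1 : ∀ j, IntegrableOn (fun z => ‖s j z - p z‖) K := fun j =>
        ContinuousOn.integrableOn_compact hK' fun z hz => ((cs j z (hKU hz)).continuousAt.sub
          (cp z (hKU hz)).continuousAt).norm.continuousWithinAt
      have i2 : ∀ j, IntegrableOn (fun z => 1 - c j z) K := fun j =>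
        ContinuousOn.integrableOn_compact hK' fun z hz => (continuousAt_const.sub
          (contDiffAt_ofReal.1 ((hH j).2.2.2.2 z (hKU hz)).1).continuousAt).continuousWithinAt
      have t := (p3 K hK' hKU).add ((hK K hK' hKU).2.1.const_mul (L * L))
      rw [mul_zero, add_zero] at t
      refine squeeze_zero (fun j => integral_nonneg fun z => norm_nonneg _) (fun j => ?_) t
      rw [← integral_const_mul, ← integral_add (i1 j) ((i2 j).const_mul _)]
      refine integral_mono_of_nonneg (ae_of_all _ fun z => norm_nonneg _)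
        ((i1 j).add ((i2 j).const_mul _))
        ((ae_restrict_iff' hK'.measurableSet).2 (ae_of_all _ fun z hz => ?_))
      have e : (Q j z - toM (p z)) i l = (s j z - p z) (i, l) + Q j z i l * ((1 - c j z : ℝ) : ℂ) := by
        simp only [hs, hS, toM, Matrix.sub_apply, Pi.sub_apply, Matrix.smul_apply, smul_eq_mul,
          of_apply]
        push_cast
        ring
      have c1 := sub_nonneg.2 ((hH j).2.2.2.2 z (hKU hz)).2.2.1
      change ‖(Q j z - toM (p z)) i l‖ ≤ _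
      rw [e]
      refine (norm_add_le _ _).trans (add_le_add (norm_le_pi_norm _ _) ?_)
      rw [norm_mul, norm_real, Real.norm_of_nonneg c1]
      exact mul_le_mul_of_nonneg_right ((q z hz).2.2 j i l) c1
  · refine contDiffOn_clm_apply.2 fun v => contDiffOn_clm_apply.2 fun q =>
      contDiffOn_pi.2 fun u z hz => ContDiffAt.contDiffWithinAt ?_
    simp only [hΓ, gm]
    have : CdM ∞ (fun z => ∑ k, (v k • (gam G k z * toM q) + star (v k) • (toM q * (gam G k z)ᴴ)))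
        z := fun i l => by
      simp only [Matrix.sum_apply]
      exact ContDiffAt.sum fun k _ => ((CdM.smul contDiffAt_const (((sγ k).cd hz).mul
        (CdM.const _))).add (CdM.smul contDiffAt_const ((CdM.const _).mul
          ((sγ k).cd hz).conjT))) i l
    exact this u.1 u.2
  · intro K hK' hKU
    obtain ⟨L, hL, -, q⟩ := bd K hK' hKU
    refine ⟨L * L, fun j z hz => (pi_norm_le_iff_of_nonneg (by positivity)).2 fun u => ?_⟩
    obtain ⟨-, c0, c1, -⟩ := (hH j).2.2.2.2 z (hKU hz)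
    change ‖(c j z : ℂ) * Q j z u.1 u.2‖ ≤ _
    rw [norm_mul, norm_real, Real.norm_of_nonneg c0]
    exact (mul_le_of_le_one_left (norm_nonneg _) c1).trans ((q z hz).2.2 j u.1 u.2)
  · intro K hK' hKU v
    obtain ⟨L, hL, hB, q⟩ := bd K hK' hKU
    obtain ⟨C, hC, hE⟩ := est (ι := ι) h2 hL
    obtain ⟨⟨A, hA⟩, -, t⟩ := hK K hK' hKU
    set N : ℝ := (Fintype.card ι * (2 * ‖v‖)) ^ 2 * C with hN
    have t' := t.const_mul N
    rw [mul_zero] at t'
    have ia : ∀ j, IntegrableOn (a j) K := fun j =>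
      ((hH j).2.2.1.mono hKU).integrableOn_compact hK'
    have i1 : IntegrableOn (fun _ : V ι => (1 : ℝ)) K := integrableOn_const hK'.measure_lt_top.ne
    refine sq0 (a := fun j z => 1 + a j z) (b := fun j z => N * b j z) (A := (∫ _ in K, 1) + A)
      hK'.measurableSet (fun j => ⟨i1.add (ia j),
        (((hH j).2.2.2.1.mono hKU).integrableOn_compact hK').const_mul N, ?_, fun z hz => ?_⟩)
      (by simpa only [integral_const_mul] using t')
    · rw [integral_add i1 (ia j)]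
      linarith [hA j]
    have hz' := hKU hz
    obtain ⟨d0, c0, c1, d1, d2, d3, d4⟩ := (hH j).2.2.2.2 z hz'
    have hε := (hH j).2.1
    have e := hE G (H j) U (c j) (ε j) hU hG (hH j).1 z hz' (q z hz).1 (q z hz).2.1
      (d0.differentiableAt (by simp)) c0 c1 hε (d1.trans hB) d2
    rw [← d3, ← d4] at e
    have a0 : 0 ≤ a j z := d3 ▸ Mat.trm_nonneg (hG.2 z hz') ((hH j).1.2 z hz').posSemidef
    have b0 : 0 ≤ b j z := d4 ▸ add_nonneg (gr_nonneg (hG.2 z hz') _) (by positivity)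
    refine ⟨norm_nonneg _, by positivity, by positivity, ?_⟩
    have r0 : 0 ≤ (1 + a j z) * (C * b j z) := by positivity
    have e' : ∀ k i l, ‖(dM (S j) k z - gam G k z * S j z) i l‖ ≤ √((1 + a j z) * (C * b j z)) :=
      fun k i l => Real.le_sqrt_of_sq_le (e k i l)
    have f : ‖fderiv ℝ (s j) z v - Γ z v (s j z)‖ ≤
        Fintype.card ι * (2 * ‖v‖) * √((1 + a j z) * (C * b j z)) := by
      refine (pi_norm_le_iff_of_nonneg (by positivity)).2 fun u => ?_
      have g1 : fderiv ℝ (s j) z v u = fderiv ℝ (fun w => S j w u.1 u.2) z v :=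
        (congrArg (· v) (fderiv_apply ((cs j z hz').differentiableAt (by simp)) u)).symm
      rw [Pi.sub_apply, g1, hΓ, show toM (s j z) = S j z from rfl,
        fder ((hU.eventually_mem hz').mono (hS' j))]
      refine (norm_sum_le _ _).trans ((Finset.sum_le_card_nsmul _ _
        (2 * ‖v‖ * √((1 + a j z) * (C * b j z))) fun k _ => ?_).trans (le_of_eq ?_))
      · refine (norm_add_le _ _).trans ?_
        rw [norm_mul, norm_mul, norm_star, norm_star]
        have := norm_le_pi_norm v k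
        linarith [mul_le_mul this (e' k u.1 u.2) (norm_nonneg _) (norm_nonneg _),
          mul_le_mul this (e' k u.2 u.1) (norm_nonneg _) (norm_nonneg _)]
      · rw [Finset.card_univ, nsmul_eq_mul, mul_assoc (Fintype.card ι : ℝ)]
    refine (pow_le_pow_left₀ (norm_nonneg _) f 2).trans (le_of_eq ?_)
    rw [mul_pow, Real.sq_sqrt r0, hN]
    ring

end Par1

end

end Pool.Agent.Lib.MP_813db1_ag.HS
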