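import Pool.Agent.Lib.MP_813db1_ag.HS.Stmt

/-! Second order Taylor expansion split into a pluriharmonic and a Levi part. -/

namespace Pool.Agent.Lib.MP_813db1_ag.HS.Peak

open MeasureTheory Complex Matrix Filter Topology Set Metric
open scoped ContDiff ComplexOrder

variable {τ : Type} [Fintype τ] [DecidableEq τ]

theorem two_le : (2 : WithTop ℕ∞) ≤ ∞ := WithTop.coe_le_coe.2 (le_top : (2 : ℕ∞) ≤ ⊤)

theorem decomp (v : V τ) :
    v = ∑ k, ((v k).re • (Pi.single k (1 : ℂ) : V τ) + (v k).im • (Pi.single k I : V τ)) := by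
  funext j
  rw [Finset.sum_apply, Finset.sum_eq_single j]
  · simp
  · intro k _ hk
    simp [Pi.single_eq_of_ne (Ne.symm hk)]
  · simp

theorem lin_eq {W : Type} [NormedAddCommGroup W] [NormedSpace ℝ W] (l : V τ →L[ℝ] W) (v : V τ) :
    l v = ∑ k, ((v k).re • l (Pi.single k 1) + (v k).im • l (Pi.single k I)) := by
  conv_lhs => rw [decomp v]
  simp [map_sum]

theorem bil_eq (B : V τ →L[ℝ] V τ →L[ℝ] ℝ) (v : V τ) :
    B v v = ∑ k, ∑ l, ((v k).re * (v l).re * B (Pi.single k 1) (Pi.single l 1) +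
      (v k).re * (v l).im * B (Pi.single k 1) (Pi.single l I) +
      (v k).im * (v l).re * B (Pi.single k I) (Pi.single l 1) +
      (v k).im * (v l).im * B (Pi.single k I) (Pi.single l I)) := by
  rw [lin_eq B v, _root_.sum_apply]
  refine Finset.sum_congr rfl fun k _ => ?_
  rw [_root_.add_apply, _root_.smul_apply,
    _root_.smul_apply, lin_eq (B _) v, lin_eq (B _) v, Finset.smul_sum,
    Finset.smul_sum, ← Finset.sum_add_distrib]
  refine Finset.sum_congr rfl fun l _ => ?_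
  simp only [smul_eq_mul]
  ring

theorem levi_eq {ψ : V τ → ℝ} {z : V τ} (h : ContDiffAt ℝ ∞ ψ z) (i j : τ) :
    levi (fun w => (ψ w : ℂ)) z i j =
      (((fderiv ℝ (fderiv ℝ ψ) z (Pi.single i 1) (Pi.single j 1) +
        fderiv ℝ (fderiv ℝ ψ) z (Pi.single i I) (Pi.single j I) : ℝ) : ℂ) +
      I * ((fderiv ℝ (fderiv ℝ ψ) z (Pi.single i 1) (Pi.single j I) -
        fderiv ℝ (fderiv ℝ ψ) z (Pi.single i I) (Pi.single j 1) : ℝ) : ℂ)) / 4 := by
  have h2 : ContDiffAt ℝ 2 ψ z := h.of_le two_le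
  have hd : DifferentiableAt ℝ (fderiv ℝ ψ) z :=
    (h2.fderiv_right (m := 1) (by norm_num)).differentiableAt (by norm_num)
  have hev : ∀ᶠ w in 𝓝 z, DifferentiableAt ℝ ψ w :=
    (h2.eventually (by simp)).mono fun w hw => hw.differentiableAt (by norm_num)
  have he : dzb (fun w => (ψ w : ℂ)) j =ᶠ[𝓝 z] fun w =>
      (((fderiv ℝ ψ w (Pi.single j 1) : ℝ) : ℂ) + I * ((fderiv ℝ ψ w (Pi.single j I) : ℝ) : ℂ)) / 2 := by
    filter_upwards [hev] with w hw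
    have := (ofRealCLM.hasFDerivAt.comp w hw.hasFDerivAt).fderiv
    unfold dzb
    have e : (fun w => (ψ w : ℂ)) = ofRealCLM ∘ ψ := rfl
    rw [e, this]
    simp
  have h1 : ∀ u : V τ, HasFDerivAt (fun w => ((fderiv ℝ ψ w u : ℝ) : ℂ))
      (ofRealCLM.comp ((ContinuousLinearMap.apply ℝ ℝ u).comp (fderiv ℝ (fderiv ℝ ψ) z))) z :=
    fun u => ofRealCLM.hasFDerivAt.comp z
      ((ContinuousLinearMap.apply ℝ ℝ u).hasFDerivAt.comp z hd.hasFDerivAt)
  have h3 := (((h1 (Pi.single j 1)).add ((h1 (Pi.single j I)).const_mul I)).mul_const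
    (2 : ℂ)⁻¹).fderiv
  simp only [levi, Matrix.of_apply, dz]
  rw [he.fderiv_eq]
  simp only [div_eq_mul_inv (_ : ℂ) 2]
  have e : (fun w => (((fderiv ℝ ψ w (Pi.single j 1) : ℝ) : ℂ) +
      I * ((fderiv ℝ ψ w (Pi.single j I) : ℝ) : ℂ)) * (2 : ℂ)⁻¹) = fun w =>
      ((fun w => ((fderiv ℝ ψ w (Pi.single j 1) : ℝ) : ℂ)) +
      fun w => I * ((fderiv ℝ ψ w (Pi.single j I) : ℝ) : ℂ)) w * (2 : ℂ)⁻¹ := rfl
  rw [e, h3]
  simp
  linear_combination (-(1 / 4 : ℂ) *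
    ((fderiv ℝ (fderiv ℝ ψ) z (Pi.single i I) (Pi.single j I) : ℝ) : ℂ)) * I_mul_I

theorem exists_q {ψ : V τ → ℝ} {z : V τ} (h : ContDiffAt ℝ ∞ ψ z) :
    ∃ q : V τ → ℂ, ContDiff ℂ ∞ q ∧ ∀ y, ψ z + fderiv ℝ ψ z (y - z) +
      fderiv ℝ (fderiv ℝ ψ) z (y - z) (y - z) / 2 - 2 * (q y).re =
        nV (levi (fun w => (ψ w : ℂ)) z) (y - z) := by
  set l := fderiv ℝ ψ z
  set B := fderiv ℝ (fderiv ℝ ψ) z with hB
  refine ⟨fun y => ((ψ z / 2 : ℝ) : ℂ) +
    ∑ k, (((l (Pi.single k 1) / 2 : ℝ) : ℂ) - I * ((l (Pi.single k I) / 2 : ℝ) : ℂ)) * (y k - z k) +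
    ∑ k, ∑ m, ((((B (Pi.single k 1) (Pi.single m 1) - B (Pi.single k I) (Pi.single m I)) / 8 : ℝ) : ℂ) -
      I * (((B (Pi.single k I) (Pi.single m 1) + B (Pi.single k 1) (Pi.single m I)) / 8 : ℝ) : ℂ)) *
        (y k - z k) * (y m - z m), by fun_prop, fun y => ?_⟩
  have hv : ∀ k, y k - z k = (y - z) k := fun k => rfl
  simp only [hv]
  generalize y - z = v
  rw [lin_eq l v, bil_eq B v]
  simp only [nV, ipV, add_re, re_sum, ofReal_re, mul_add, Finset.mul_sum, Finset.sum_div]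
  have e1 : ∑ k, ((v k).re • l (Pi.single k 1) + (v k).im • l (Pi.single k I)) =
      ∑ k, 2 * ((((l (Pi.single k 1) / 2 : ℝ) : ℂ) - I * ((l (Pi.single k I) / 2 : ℝ) : ℂ)) *
        v k).re := by
    refine Finset.sum_congr rfl fun k _ => ?_
    simp only [smul_eq_mul, mul_re, sub_re, ofReal_re, I_re, I_im, ofReal_im, sub_im, mul_im]
    ring
  rw [e1]
  have e2 : ∀ a b c d e : ℝ, d - e = c → a + b + d - (2 * (a / 2) + b + e) = c := by
    intro a b c d e h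
    linarith
  apply e2
  rw [← Finset.sum_sub_distrib]
  refine Finset.sum_congr rfl fun k _ => ?_
  rw [← Finset.sum_sub_distrib]
  refine Finset.sum_congr rfl fun m _ => ?_
  rw [levi_eq h, ← hB]
  simp only [mul_re, sub_re, ofReal_re, I_re, I_im, ofReal_im, sub_im, mul_im, div_ofNat_re,
    div_ofNat_im, add_re, add_im, star_def, conj_re, conj_im]
  ring

omit [DecidableEq τ] in
theorem taylor {ψ : V τ → ℝ} {z : V τ} {δ ε : ℝ}
    (h : ∀ y ∈ closedBall z δ, ContDiffAt ℝ ∞ ψ y)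
    (hε : ∀ y ∈ closedBall z δ, ‖fderiv ℝ (fderiv ℝ ψ) y - fderiv ℝ (fderiv ℝ ψ) z‖ ≤ ε)
    {y : V τ} (hy : y ∈ closedBall z δ) :
    |ψ y - (ψ z + fderiv ℝ ψ z (y - z) + fderiv ℝ (fderiv ℝ ψ) z (y - z) (y - z) / 2)| ≤
      ε * ‖y - z‖ ^ 2 := by
  set l := fderiv ℝ ψ z
  set B := fderiv ℝ (fderiv ℝ ψ) z with hB
  have hδ : 0 ≤ δ := dist_nonneg.trans hy
  have hz : z ∈ closedBall z δ := mem_closedBall_self hδ
  have hε0 : 0 ≤ ε := le_trans (ContinuousLinearMap.opNorm_nonneg _) (hε z hz)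
  have hd : ∀ w ∈ closedBall z δ, DifferentiableAt ℝ (fderiv ℝ ψ) w := fun w hw =>
    (((h w hw).of_le two_le).fderiv_right (m := 1)
      (by norm_num)).differentiableAt (by norm_num)
  have hG : ∀ w ∈ closedBall z δ, ‖fderiv ℝ ψ w - l - B (w - z)‖ ≤ ε * ‖w - z‖ := by
    intro w hw
    have := (convex_closedBall z δ).norm_image_sub_le_of_norm_hasFDerivWithin_le'
      (f := fderiv ℝ ψ) (f' := fderiv ℝ (fderiv ℝ ψ)) (φ := B)
      (fun x hx => (hd x hx).hasFDerivAt.hasFDerivWithinAt) hε hz hw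
    exact this
  set v := y - z with hv
  have hmem : ∀ t ∈ Icc (0 : ℝ) 1, z + t • v ∈ closedBall z δ := fun t ht =>
    (convex_closedBall z δ).add_smul_sub_mem hz hy ht
  have hder : ∀ t ∈ Icc (0 : ℝ) 1, HasDerivWithinAt
      (fun t : ℝ => ψ (z + t • v) - (t * l v + t ^ 2 * (B v v / 2)))
      (fderiv ℝ ψ (z + t • v) v - (l v + t * B v v)) (Icc 0 1) t := by
    intro t ht
    have h1 : HasDerivAt (fun t : ℝ => z + t • v) v t := by
      simpa using ((hasDerivAt_id t).smul_const v).const_add z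
    have h2 := ((h _ (hmem t ht)).differentiableAt (by simp)).hasFDerivAt.comp_hasDerivAt t h1
    have h3 : HasDerivAt (fun t : ℝ => t * l v + t ^ 2 * (B v v / 2)) (l v + t * B v v) t := by
      refine (((hasDerivAt_id t).mul_const (l v)).add
        ((hasDerivAt_pow 2 t).mul_const (B v v / 2))).congr_deriv ?_
      simp
      ring
    exact (h2.sub h3).hasDerivWithinAt
  have hb : ∀ t ∈ Ico (0 : ℝ) 1, ‖fderiv ℝ ψ (z + t • v) v - (l v + t * B v v)‖ ≤ ε * ‖v‖ ^ 2 := by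
    intro t ht
    have h1 := hG _ (hmem t (Ico_subset_Icc_self ht))
    rw [add_sub_cancel_left] at h1
    have h2 : fderiv ℝ ψ (z + t • v) v - (l v + t * B v v) =
        (fderiv ℝ ψ (z + t • v) - l - B (t • v)) v := by
      simp
      ring
    rw [h2]
    refine (ContinuousLinearMap.le_opNorm _ _).trans ?_
    have h3 : ‖t • v‖ ≤ ‖v‖ := by
      rw [norm_smul, Real.norm_of_nonneg ht.1]
      exact mul_le_of_le_one_left (norm_nonneg _) ht.2.le
    calc _ ≤ ε * ‖t • v‖ * ‖v‖ := by gcongr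
      _ ≤ ε * ‖v‖ * ‖v‖ := by gcongr
      _ = _ := by ring
  have := norm_image_sub_le_of_norm_deriv_le_segment_01' hder hb
  simp only [one_smul, zero_smul, add_zero, one_mul, one_pow, zero_mul, ne_eq, OfNat.ofNat_ne_zero,
    not_false_eq_true, zero_pow, sub_zero, Real.norm_eq_abs] at this
  have e : z + v = y := by simp [hv]
  rw [e] at this
  convert this using 2
  ring

omit [DecidableEq τ] in
theorem nV_sub (A B : Mat τ) (c : ℝ) (v : V τ) : nV (A - (c : ℂ) • B) v = nV A v - c * nV B v := by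
  simp only [nV, ipV, Matrix.sub_apply, Matrix.smul_apply, smul_eq_mul, sub_mul, mul_assoc,
    Finset.sum_sub_distrib, sub_re, ← Finset.mul_sum, re_ofReal_mul]

omit [DecidableEq τ] in
theorem unif {W : Type} [NormedAddCommGroup W] {K : Set (V τ)} (hK : IsCompact K) {f : V τ → W}
    (hf : ∀ a ∈ K, ContinuousAt f a) {ε : ℝ} (hε : 0 < ε) :
    ∃ δ > 0, ∀ z ∈ K, ∀ w, dist z w < δ → ‖f w - f z‖ ≤ ε := by
  obtain ⟨δ, hδ, hu⟩ := Metric.mem_uniformity_dist.1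
    (hK.uniformContinuousAt_of_continuousAt f hf (Metric.dist_mem_uniformity hε))
  refine ⟨δ, hδ, fun z hz w hw => ?_⟩
  rw [← dist_eq_norm, dist_comm]
  exact le_of_lt (hu hw hz)

/-- the local two sided quadratic bound. -/
theorem local_q (hm : MatS) {O K : Set (V τ)} {H : V τ → Mat τ} {ψ : V τ → ℝ} {c : ℝ} (hc : 0 < c)
    (hO : IsOpen O) (hK : IsCompact K) (hKO : K ⊆ O) (hψ : ∀ y ∈ O, ContDiffAt ℝ ∞ ψ y)
    (h1 : ∀ y ∈ O, (levi (fun w => (ψ w : ℂ)) y - (1 / 2 : ℂ) • H y).PosSemidef)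
    (h2 : ∀ y ∈ O, (H y - levi (fun w => (ψ w : ℂ)) y).PosSemidef)
    (hH : ∀ y ∈ O, ∀ v : V τ, c * ‖v‖ ^ 2 ≤ nV (H y) v ∧ c * nV (H y) v ≤ ‖v‖ ^ 2) :
    ∃ δ > 0, ∀ z ∈ K, closedBall z δ ⊆ O ∧ ∃ q : V τ → ℂ, ContDiff ℂ ∞ q ∧
      ∀ y ∈ closedBall z δ, c / 4 * ‖y - z‖ ^ 2 ≤ ψ y - 2 * (q y).re ∧
        ψ y - 2 * (q y).re ≤ (1 / c + c / 4) * ‖y - z‖ ^ 2 := by
  obtain ⟨δ1, hδ1, hth⟩ := hK.exists_cthickening_subset_open hO hKO
  have hcont : ∀ a ∈ K, ContinuousAt (fderiv ℝ (fderiv ℝ ψ)) a := fun a ha =>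
    ((((hψ a (hKO ha)).of_le two_le).fderiv_right (m := 1)
      (by norm_num)).fderiv_right (m := 0) (by norm_num)).continuousAt
  obtain ⟨δ2, hδ2, hu⟩ := unif (W := V τ →L[ℝ] V τ →L[ℝ] ℝ) hK hcont
    (show 0 < c / 4 by positivity)
  refine ⟨min δ1 (δ2 / 2), by positivity, fun z hz => ?_⟩
  have hsub : closedBall z (min δ1 (δ2 / 2)) ⊆ O :=
    ((closedBall_subset_closedBall (min_le_left _ _)).trans
      (closedBall_subset_cthickening hz δ1)).trans hth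
  obtain ⟨q, hq, hqe⟩ := exists_q (hψ z (hKO hz))
  refine ⟨hsub, q, hq, fun y hy => ?_⟩
  have ht := taylor (ε := c / 4) (fun w hw => hψ w (hsub hw)) (fun w hw => by
    have h3 : dist z w < δ2 := by
      rw [dist_comm]
      exact (mem_closedBall.1 hw).trans_lt ((min_le_right _ _).trans_lt (by linarith))
    exact hu z hz w h3) hy
  have a1 := hm.nv_mono τ _ (y - z) (h1 z (hKO hz))
  have a2 := hm.nv_mono τ _ (y - z) (h2 z (hKO hz))
  have e1 : (1 / 2 : ℂ) = ((1 / 2 : ℝ) : ℂ) := by simp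
  rw [e1, nV_sub] at a1
  have e2 := nV_sub (H z) (levi (fun w => (ψ w : ℂ)) z) 1 (y - z)
  rw [ofReal_one, one_smul] at e2
  rw [e2] at a2
  obtain ⟨a3, a4⟩ := hH z (hKO hz) (y - z)
  have a5 : nV (H z) (y - z) ≤ 1 / c * ‖y - z‖ ^ 2 := by
    rw [one_div, ← div_eq_inv_mul, le_div_iff₀ hc]
    linarith
  have a6 := hqe y
  obtain ⟨a7, a8⟩ := abs_le.1 ht
  constructor <;> linarith

end Pool.Agent.Lib.MP_813db1_ag.HS.Peak
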