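import Pool.Agent.Lib.MP_813db1_ag.HS.Defs

/-! Statements of the local steps of the proof. -/

namespace Pool.Agent.Lib.MP_813db1_ag.HS

open MeasureTheory Complex Matrix Filter Topology Set Metric
open scoped ContDiff ComplexOrder ENNReal

/-! ### matrices and algebra -/

structure MatS : Prop where
  trm_nonneg : ∀ (ι : Type) [Fintype ι] [DecidableEq ι] (H B : Mat ι), H.PosDef → B.PosSemidef →
    0 ≤ trm H B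
  le_trm : ∀ (ι : Type) [Fintype ι] [DecidableEq ι] (H B : Mat ι), H.PosDef → B.PosSemidef →
    ((trm H B : ℂ) • H - B).PosSemidef
  sq : ∀ (ι : Type) [Fintype ι] [DecidableEq ι] (H B : Mat ι), H.PosDef → B.PosSemidef →
    trm H B ^ 2 ≤ Fintype.card ι * trm H (B * H⁻¹ * B) ∧ trm H (B * H⁻¹ * B) ≤ trm H B ^ 2
  det : ∀ (ι : Type) [Fintype ι] [DecidableEq ι] (H : Mat ι), H.PosDef →
    0 < H.det.re ∧ H.det = (H.det.re : ℂ)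
  real : ∀ (ι : Type) [Fintype ι] [DecidableEq ι] (H B : Mat ι), H.IsHermitian → B.IsHermitian →
    trace (B * H⁻¹) = (trm H B : ℂ) ∧ B.det = (B.det.re : ℂ)
  ell : ∀ (ι : Type) [Fintype ι] [DecidableEq ι] (L : ℝ), ∃ C, ∀ G H : Mat ι, G.PosDef → H.PosDef →
    Bd L G → Bd L G⁻¹ → trm H G ≤ L → H.det.re ≤ L → Bd C H ∧ Bd C H⁻¹
  ell' : ∀ (ι : Type) [Fintype ι] [DecidableEq ι] (L : ℝ), 0 < L → ∃ C, ∀ G H : Mat ι, G.PosDef →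
    H.PosDef → Bd L G → Bd L G⁻¹ → trm G H ≤ L → L⁻¹ ≤ H.det.re → Bd C H ∧ Bd C H⁻¹
  nv : ∀ (ι : Type) [Fintype ι] [DecidableEq ι] (L : ℝ), ∃ c > 0, ∀ H : Mat ι, H.PosDef →
    Bd L H → Bd L H⁻¹ → ∀ v : V ι, c * ‖v‖ ^ 2 ≤ nV H v ∧ c * nV H v ≤ ‖v‖ ^ 2
  nv_mono : ∀ (ι : Type) [Fintype ι] [DecidableEq ι] (H : Mat ι) (v : V ι), H.PosSemidef →
    0 ≤ nV H v
  pd : ∀ (ι : Type) [Fintype ι] [DecidableEq ι] (H : Mat ι), H.IsHermitian →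
    (∀ v : V ι, v ≠ 0 → 0 < nV H v) → H.PosDef
  dom : ∀ (ι : Type) [Fintype ι] [DecidableEq ι] (L : ℝ), ∃ C, ∀ G B : Mat ι, G.PosDef →
    B.IsHermitian → Bd L G → Bd L G⁻¹ → Bd L B → ((C : ℂ) • G + B).PosDef ∧ ((C : ℂ) • G - B).PosDef
  pull_pd : ∀ (ι : Type) [Fintype ι] [DecidableEq ι] (J H : Mat ι), J.det ≠ 0 →
    (H.PosDef → (pull J H).PosDef) ∧ (H.PosSemidef → (pull J H).PosSemidef) ∧
    (H.IsHermitian → (pull J H).IsHermitian) ∧ (pull J H).det = (‖J.det‖ ^ 2 : ℝ) * H.det ∧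
    (pull J H)⁻¹ = (J.map star)⁻¹ * H⁻¹ * (Jᵀ)⁻¹ ∧ (∀ B, trm (pull J H) (pull J B) = trm H B) ∧
    ∀ v w, ipV (pull J H) v w = ipV H (J *ᵥ v) (J *ᵥ w)

/-- Royden's lemma and its equality case. -/
def RoyS : Prop := ∀ (ι : Type) [Fintype ι] [DecidableEq ι] (R : ι → ι → ι → ι → ℂ) (η : Mat ι),
  (∀ i j k l, R i j k l = R k j i l) → (∀ i j k l, R i j k l = R i l k j) →
  (∀ i j k l, star (R i j k l) = R j i l k) →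
  (∀ v : V ι, (∑ i, ∑ j, ∑ k, ∑ l, R i j k l * v i * star (v j) * v k * star (v l)).re ≤ 0) →
  η.PosSemidef → (∑ i, ∑ j, ∑ k, ∑ l, η j i * η l k * R i j k l).re ≤ 0 ∧
    ((∑ i, ∑ j, ∑ k, ∑ l, η j i * η l k * R i j k l).re = 0 →
      ∀ a b c d : V ι, ∑ i, ∑ j, ∑ k, ∑ l, R i j k l * (a ᵥ* η) i * star ((b ᵥ* η) j) *
        (c ᵥ* η) k * star ((d ᵥ* η) l) = 0)

def PolyS : Prop := ∀ p : Polynomial ℝ, (∀ s > 0, 0 < p.eval s) →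
  0 < p.coeff p.natTrailingDegree ∧
  Tendsto (fun s => p.eval s / s ^ p.natTrailingDegree) (𝓝[>] 0) (𝓝 (p.coeff p.natTrailingDegree)) ∧
  Tendsto (fun s => s * p.derivative.eval s / p.eval s) (𝓝[>] 0) (𝓝 p.natTrailingDegree) ∧
  Tendsto (fun s => s ^ 2 * p.derivative.derivative.eval s / p.eval s) (𝓝[>] 0)
    (𝓝 (p.natTrailingDegree * (p.natTrailingDegree - 1))) ∧
  ∀ t : ℝ, 0 ≤ t → Tendsto (fun s => p.eval ((1 + t) * s) / p.eval s) (𝓝[>] 0)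
    (𝓝 ((1 + t) ^ p.natTrailingDegree))

/-- Buser's proof of the Bieberbach theorem. -/
def BiebS : Prop := ∀ (σ Γ : Type) [Fintype σ] [DecidableEq σ] [Group Γ]
  (A : Γ →* Matrix.unitaryGroup σ ℂ) (t : Γ → V σ),
  (∀ γ δ, t (γ * δ) = t γ + (A γ : Mat σ) *ᵥ t δ) → (∀ R, {γ | ‖t γ‖ ≤ R}.Finite) →
  (∀ u : V σ, ∀ η > 0, ∃ γ, ∃ c : ℝ, 0 < c ∧ Bd η ((A γ : Mat σ) - 1) ∧ ‖u - c • t γ‖ ≤ η) →
  Submodule.span ℝ (t '' {γ | A γ = 1}) = ⊤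

/-- the abstract form of the low energy count. -/
def EndAbsS : Prop := ∀ (S : Type) [AddCommGroup S] [Module ℂ S] (p0 p1 : S →ₗ[ℂ] S →ₗ⋆[ℂ] ℂ)
  (B : S →ₗ[ℂ] S) (Ho : Submodule ℂ S) (N0 N1 : ℕ) (θ : ℝ) (f0 : Fin N0 → S), 0 < θ →
  (∀ f g, star (p0 f g) = p0 g f) → (∀ f g, star (p1 f g) = p1 g f) →
  (∀ f, 0 ≤ (p0 f f).re) → (∀ f, 0 ≤ (p1 f f).re) → (∀ f g, p0 (B f) g = -p1 f g) →
  (∀ η ∈ Ioc (0 : ℝ) 1, ∀ j, ∃ f, (η : ℂ) • f - B f = f0 j) →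
  (∀ (M : ℕ) (f : Fin M → S), (∀ i j, p1 (f i) (f j) = if i = j then 1 else 0) →
    (∀ c : Fin M → ℂ, (p0 (B (∑ j, c j • f j)) (B (∑ j, c j • f j))).re ≤ θ * ∑ j, ‖c j‖ ^ 2) →
    M ≤ N1) →
  (∀ i j, p0 (f0 i) (f0 j) = if i = j then 1 else 0) →
  (∀ c : Fin N0 → ℂ, (p1 (∑ j, c j • f0 j) (∑ j, c j • f0 j)).re ≤ θ / 4 * ∑ j, ‖c j‖ ^ 2) →
  (∀ (η : ℕ → ℝ) (g : ℕ → S) (c : ℕ → Fin N0 → ℂ), (∀ k, η k ∈ Ioc (0 : ℝ) 1) →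
    (∀ k, ∑ j, ‖c k j‖ ^ 2 = 1) → (∀ k, (η k : ℂ) • g k - B (g k) = (η k : ℂ) • ∑ j, c k j • f0 j) →
    (∀ k, (p0 (g k) (g k)).re ≤ 4) → Tendsto (fun k => (p1 (g k) (g k)).re) atTop (𝓝 0) →
    ∃ g' ∈ Ho, ∀ δ > 0, ∃ k, (p0 (g k - g') (g k - g')).re < δ) →
  ∃ s : Fin (N0 - N1) → S, (∀ j, s j ∈ Ho) ∧ LinearIndependent ℂ s

/-! ### Schauder theory -/

def HeatS : Prop := ∀ (ι : Type) [Fintype ι] [DecidableEq ι] (L : ℝ), ∃ C, ∀ A : Mat ι, A.PosDef →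
  Bd L A → Bd L A⁻¹ → ∀ (f : V ι → ℂ) (M B : ℝ), (∀ z, ‖f z‖ ≤ B) →
  (∀ z w, ‖f z - f w‖ ≤ M * √‖z - w‖) → ∃ P : ℝ → V ι → ℂ,
    ContDiffOn ℝ ∞ (fun q : ℝ × V ι => P q.1 q.2) (Ioi 0 ×ˢ univ) ∧
    ∀ s > 0, ∀ z, HasDerivAt (fun s' => P s' z) (trace (levi (P s) z * A)) s ∧
      ‖P s z - f z‖ ≤ C * M * s ^ (1 / 4 : ℝ) ∧ ‖P s z‖ ≤ B ∧
      (∀ w, ‖P s z - P s w‖ ≤ M * √‖z - w‖) ∧
      ‖fderiv ℝ (P s) z‖ ≤ C * M * s ^ (-1 / 4 : ℝ) ∧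
      ‖fderiv ℝ (fderiv ℝ (P s)) z‖ ≤ C * M * s ^ (-3 / 4 : ℝ) ∧
      ∀ w, ‖fderiv ℝ (fderiv ℝ (P s)) z - fderiv ℝ (fderiv ℝ (P s)) w‖ ≤
        C * M * s ^ (-5 / 4 : ℝ) * ‖z - w‖

def ResS : Prop := ∀ (ι : Type) [Fintype ι] [DecidableEq ι] (L : ℝ), ∃ C, ∀ A : Mat ι, A.PosDef →
  Bd L A → Bd L A⁻¹ → ∀ t ≥ (1 : ℝ), ∀ (f : V ι → ℂ) (M : ℝ), HolT t M f univ →
  ∃ v, Hol2T t (C * M) v univ ∧ ∀ z, (t : ℂ) ^ 4 * v z - trace (levi v z * A) = f z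

/-- maximum principles. -/
structure MaxS : Prop where
  loc : ∀ (ι : Type) [Fintype ι] [DecidableEq ι] (f : V ι → ℝ) (z : V ι), ContDiffAt ℝ 2 f z →
    IsLocalMax f z → (-levi (fun w => (f w : ℂ)) z).PosSemidef
  uni : ∀ (ι : Type) [Fintype ι] [DecidableEq ι] (A : V ι → Mat ι) (L lam B : ℝ) (v : V ι → ℂ),
    0 < lam → (∀ z, (A z).PosSemidef ∧ Bd L (A z)) → (∀ z, ContDiffAt ℝ 2 v z) →
    (∀ z, ‖v z‖ ≤ B) → (∀ z, (lam : ℂ) * v z = trace (levi v z * A z)) → ∀ z, v z = 0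

def PertS : Prop := ∀ (ι : Type) [Fintype ι] [DecidableEq ι] (L : ℝ), ∃ η > 0, ∃ C, ∃ t0 ≥ (1 : ℝ),
  ∀ (A0 : Mat ι) (A : V ι → Mat ι), A0.PosDef → Bd L A0 → Bd L A0⁻¹ →
  (∀ z, (A z).PosSemidef ∧ Bd η (A z - A0)) → (∀ i j z w, ‖A z i j - A w i j‖ ≤ L * √‖z - w‖) →
  ∀ t ≥ t0, ∀ (f : V ι → ℂ) (M : ℝ), HolT t M f univ →
    (∃ v, Hol2T t (C * M) v univ ∧ ∀ z, (t : ℂ) ^ 4 * v z - trace (levi v z * A z) = f z) ∧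
    ∀ (v : V ι → ℂ) (B : ℝ), (∀ z, ContDiffAt ℝ 2 v z) → (∀ z, ‖v z‖ ≤ B) →
      (∀ z, (t : ℂ) ^ 4 * v z - trace (levi v z * A z) = f z) → Hol2T t (C * M) v univ

structure CauS : Prop where
  lim : ∀ (ι : Type) [Fintype ι] [DecidableEq ι] (U : Set (V ι)) (F : ℕ → V ι → ℂ) (G : V ι → ℂ)
    (ε : ℕ → ℝ), IsOpen U → Tendsto ε atTop (𝓝 0) → (∀ k, ∀ z ∈ U, ContDiffAt ℝ 2 (F k) z) →
    (∀ k j, k ≤ j → Hol2 (ε k) (fun z => F j z - F k z) U) →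
    (∀ z ∈ U, Tendsto (fun k => F k z) atTop (𝓝 (G z))) →
    (∀ z ∈ U, ContDiffAt ℝ 2 G z) ∧ ∀ k, Hol2 (ε k) (fun z => G z - F k z) U
  ultra : ∀ (ι : Type) [Fintype ι] [DecidableEq ι] (U : Set (V ι)) (F : ℕ → V ι → ℂ) (G : V ι → ℂ)
    (B : ℝ) (𝒰 : Ultrafilter ℕ), IsOpen U → (∀ k, Hol2 B (F k) U) →
    (∀ z ∈ U, Tendsto (fun k => F k z) 𝒰 (𝓝 (G z))) → (∀ z ∈ U, ContDiffAt ℝ 1 G z) ∧
      ∀ K, IsCompact K → K ⊆ U → ∀ δ > 0, ∀ᶠ k in 𝒰, ∀ z ∈ K,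
        ‖F k z - G z‖ ≤ δ ∧ ‖fderiv ℝ (F k) z - fderiv ℝ G z‖ ≤ δ
  interp : ∀ (ι : Type) [Fintype ι] [DecidableEq ι] (R δ : ℝ), 0 < R → 0 < δ → ∃ C ≥ 0,
    ∀ (f : V ι → ℂ) (M P : ℝ), 0 ≤ P → Hol2 M f (ball 0 R) →
    ∫ z in ball (0 : V ι) R, ‖f z‖ ^ 2 ≤ P ^ 2 → Hol (δ * M + C * P) f (ball 0 R)

/-- calculus of the classes `Hk`. -/
structure HkS : Prop where
  mono : ∀ (ι : Type) [Fintype ι] [DecidableEq ι] (k : ℕ) (f : V ι → ℂ) (U : Set (V ι)), IsOpen U →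
    Hk (k + 1) f U → Hk k f U
  loc : ∀ (ι : Type) [Fintype ι] [DecidableEq ι] (k : ℕ) (f : V ι → ℂ) (U : Set (V ι)),
    (∀ z ∈ U, ∃ U', z ∈ U' ∧ Hk k f U') → Hk k f U
  subset : ∀ (ι : Type) [Fintype ι] [DecidableEq ι] (k : ℕ) (f : V ι → ℂ) (U U' : Set (V ι)),
    U' ⊆ U → Hk k f U → Hk k f U'
  congr : ∀ (ι : Type) [Fintype ι] [DecidableEq ι] (k : ℕ) (f g : V ι → ℂ) (U : Set (V ι)),
    IsOpen U → (∀ z ∈ U, f z = g z) → Hk k f U → Hk k g U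
  add : ∀ (ι : Type) [Fintype ι] [DecidableEq ι] (k : ℕ) (f g : V ι → ℂ) (U : Set (V ι)),
    IsOpen U → Hk k f U → Hk k g U → Hk k (fun z => f z + g z) U
  mul : ∀ (ι : Type) [Fintype ι] [DecidableEq ι] (k : ℕ) (f g : V ι → ℂ) (U : Set (V ι)),
    IsOpen U → Hk k f U → Hk k g U → Hk k (fun z => f z * g z) U
  sum : ∀ (ι κ : Type) [Fintype ι] [DecidableEq ι] (S : Finset κ) (k : ℕ) (f : κ → V ι → ℂ)
    (U : Set (V ι)), IsOpen U → (∀ j ∈ S, Hk k (f j) U) → Hk k (fun z => ∑ j ∈ S, f j z) U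
  of_smooth : ∀ (ι : Type) [Fintype ι] [DecidableEq ι] (k : ℕ) (f : V ι → ℂ) (U : Set (V ι)),
    IsOpen U → (∀ z ∈ U, ContDiffAt ℝ ∞ f z) → Hk k f U
  comp : ∀ (ι : Type) [Fintype ι] [DecidableEq ι] (k : ℕ) (f : V ι → ℂ) (Φ : ℂ → ℂ)
    (U : Set (V ι)), IsOpen U → (∀ z ∈ U, ContDiffAt ℝ ∞ Φ (f z)) → Hk k f U →
    Hk k (fun z => Φ (f z)) U
  smooth : ∀ (ι : Type) [Fintype ι] [DecidableEq ι] (f : V ι → ℂ) (U : Set (V ι)), IsOpen U →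
    (∀ k, Hk k f U) → ∀ z ∈ U, ContDiffAt ℝ ∞ f z
  cdiff : ∀ (ι : Type) [Fintype ι] [DecidableEq ι] (k : ℕ) (f : V ι → ℂ) (U : Set (V ι)),
    IsOpen U → Hk k f U → ∀ z ∈ U, ContDiffAt ℝ k f z
  two : ∀ (ι : Type) [Fintype ι] [DecidableEq ι] (f : V ι → ℂ) (U : Set (V ι)), IsOpen U →
    (Hk 2 f U ↔ ∀ z ∈ U, ∃ r > 0, ∃ M, Hol2 M f (ball z r))
  dz : ∀ (ι : Type) [Fintype ι] [DecidableEq ι] (k : ℕ) (f : V ι → ℂ) (U : Set (V ι)) (i : ι),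
    IsOpen U → Hk (k + 1) f U → Hk k (dz f i) U ∧ Hk k (dzb f i) U
  inv : ∀ (ι : Type) [Fintype ι] [DecidableEq ι] (k : ℕ) (G : V ι → Mat ι) (U : Set (V ι)),
    IsOpen U → (∀ i j, Hk k (fun z => G z i j) U) → Hk k (fun z => (G z).det) U ∧
      ((∀ z ∈ U, (G z).det ≠ 0) → ∀ i j, Hk k (fun z => (G z)⁻¹ i j) U)

/-- the difference quotient step. -/
def DqS : Prop := ∀ (ι : Type) [Fintype ι] [DecidableEq ι] (U : Set (V ι)) (v : V ι → ℂ)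
  (z0 e : V ι) (A0 : Mat ι), IsOpen U → z0 ∈ U → A0.PosDef → Hk 2 v U →
  (∀ ω' > 0, ∃ r > 0, ∃ τ0 > 0, ∃ M, ∀ τ : ℝ, τ ≠ 0 → |τ| < τ0 → ∃ A : V ι → Mat ι,
    (∀ z ∈ ball z0 r, (A z).IsHermitian ∧ Bd ω' (A z - A0)) ∧ HolM M A (ball z0 r) ∧
    Hol M (fun z => trace (levi (dq v e τ) z * A z)) (ball z0 r)) →
  ∃ r > 0, Hk 2 (fun z => fderiv ℝ v z e) (ball z0 r)

def RegLS : Prop := ∀ (ι : Type) [Fintype ι] [DecidableEq ι] (U : Set (V ι)) (k : ℕ)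
  (A : V ι → Mat ι) (v f : V ι → ℂ), IsOpen U → (∀ z ∈ U, (A z).PosDef) →
  (∀ i j, Hk k (fun z => A z i j) U) → Hk k f U → Hk 2 v U →
  (∀ z ∈ U, trace (levi v z * A z) = f z) → Hk (k + 2) v U

def RegBS : Prop := ∀ (ι : Type) [Fintype ι] [DecidableEq ι] (U : Set (V ι)) (a : ℕ) (c : ℂ)
  (H : V ι → Mat ι) (v f : V ι → ℂ), IsOpen U → KOn H U → (∀ z ∈ U, ContDiffAt ℝ ∞ f z) →
  Hk 2 v U → (∀ z ∈ U, c * v z - boxL a H v z = f z) → ∀ z ∈ U, ContDiffAt ℝ ∞ v z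

def RegNS : Prop := ∀ (ι : Type) [Fintype ι] [DecidableEq ι] (U : Set (V ι)) (G : V ι → Mat ι)
  (u F : V ι → ℝ), IsOpen U → SmM G U → (∀ z ∈ U, (G z).IsHermitian) →
  (∀ z ∈ U, ContDiffAt ℝ ∞ F z) → Hk 2 (fun z => (u z : ℂ)) U →
  (∀ z ∈ U, (G z + levi (fun w => (u w : ℂ)) z).PosDef ∧
    Real.log (G z + levi (fun w => (u w : ℂ)) z).det.re = u z + F z) →
  ∀ z ∈ U, ContDiffAt ℝ ∞ u z

def NlS : Prop := ∀ (ι : Type) [Fintype ι] [DecidableEq ι] (L : ℝ), ∃ r0 > 0, ∃ C ≥ 0,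
  ∀ (U : Set (V ι)) (H B B' : V ι → Mat ι) (r d : ℝ), r ≤ r0 → (∀ z ∈ U, (H z).PosDef ∧
    (B z).IsHermitian ∧ (B' z).IsHermitian) → HolM L H U → HolM L (fun z => (H z)⁻¹) U →
  HolM r B U → HolM r B' U → HolM d (fun z => B z - B' z) U → 0 ≤ r → 0 ≤ d →
  (∀ z ∈ U, (H z + B z).PosDef) ∧ Hol (C * r * d) (fun z => nl (H z) (B z) - nl (H z) (B' z)) U

/-! ### local Kaehler geometry -/

structure CurvS : Prop where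
  sym : ∀ (ι : Type) [Fintype ι] [DecidableEq ι] (G : V ι → Mat ι) (U : Set (V ι)), IsOpen U →
    KOn G U → ∀ z ∈ U, ∀ i j k l, curv G z i j k l = curv G z k j i l ∧
      curv G z i j k l = curv G z i l k j ∧ star (curv G z i j k l) = curv G z j i l k
  ric_eq : ∀ (ι : Type) [Fintype ι] [DecidableEq ι] (G : V ι → Mat ι) (U : Set (V ι)), IsOpen U →
    KOn G U → ∀ z ∈ U, ∀ k l, ric G z k l = ∑ i, ∑ j, (G z)⁻¹ j i * curv G z i j k l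
  dbar_gam : ∀ (ι : Type) [Fintype ι] [DecidableEq ι] (G : V ι → Mat ι) (U : Set (V ι)),
    IsOpen U → SmM G U → (∀ z ∈ U, (G z).det ≠ 0) → ∀ z ∈ U, ∀ k l,
    dMb (gam G k) l z = -(Matrix.of fun i j => curv G z i j k l) * (G z)⁻¹
  flat : ∀ (ι : Type) [Fintype ι] [DecidableEq ι] (G : V ι → Mat ι) (U : Set (V ι)),
    IsOpen U → SmM G U → (∀ z ∈ U, (G z).det ≠ 0) → ∀ z ∈ U, ∀ k l,
    dM (gam G l) k z - dM (gam G k) l z = gam G k z * gam G l z - gam G l z * gam G k z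
  dlg : ∀ (ι : Type) [Fintype ι] [DecidableEq ι] (G : V ι → Mat ι) (U : Set (V ι)), IsOpen U →
    SmM G U → (∀ z ∈ U, (G z).PosDef) → ∀ z ∈ U, ContDiffAt ℝ ∞ (lg G) z ∧
      (∀ v, fderiv ℝ (lg G) z v =
        trace ((Matrix.of fun i j => fderiv ℝ (fun w => G w i j) z v) * (G z)⁻¹)) ∧
      ∀ k, dz (lg G) k z = trace (gam G k z)
  div : ∀ (ι : Type) [Fintype ι] [DecidableEq ι] (G : V ι → Mat ι) (U : Set (V ι)), IsOpen U →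
    KOn G U → ∀ z ∈ U, ∀ j,
    ∑ i, dz (fun w => (G w)⁻¹ j i) i z = -∑ i, (G z)⁻¹ j i * dz (lg G) i z
  levi_cl : ∀ (ι : Type) [Fintype ι] [DecidableEq ι] (u : V ι → ℝ) (U : Set (V ι)), IsOpen U →
    (∀ z ∈ U, ContDiffAt ℝ ∞ u z) → ClOn (levi fun w => (u w : ℂ)) U
  ric_cl : ∀ (ι : Type) [Fintype ι] [DecidableEq ι] (G : V ι → Mat ι) (U : Set (V ι)), IsOpen U →
    SmM G U → (∀ z ∈ U, (G z).PosDef) → ClOn (ric G) U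
  adj : ∀ (ι : Type) [Fintype ι] [DecidableEq ι] (B : V ι → Mat ι) (U : Set (V ι)), IsOpen U →
    ClOn B U → ∀ z ∈ U, ∀ j, ∑ i, dz (fun w => (B w).adjugate j i) i z = 0

/-- the Chern-Lu formula. -/
def CLS : Prop := ∀ (ι : Type) [Fintype ι] [DecidableEq ι] (G H : V ι → Mat ι) (U : Set (V ι)),
  IsOpen U → KOn G U → KOn H U → ∀ z ∈ U,
  ContDiffAt ℝ ∞ (fun w => trm (H w) (G w)) z ∧
  (lapL H (fun w => (trm (H w) (G w) : ℂ)) z).re =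
    clT G H z + trm (H z) (ric H z * (H z)⁻¹ * G z) - rq G z (H z)⁻¹ ∧ 0 ≤ clT G H z ∧
  (grL (H z) (fun i => dz (fun w => (trm (H w) (G w) : ℂ)) i z)
    (fun i => dz (fun w => (trm (H w) (G w) : ℂ)) i z)).re ≤ trm (H z) (G z) * clT G H z

/-- the covariant derivative of `G H⁻¹ G` is controlled by the Chern-Lu term. -/
def CL2S : Prop := ∀ (ι : Type) [Fintype ι] [DecidableEq ι] (L : ℝ), ∃ C ≥ 0,
  ∀ (G H : V ι → Mat ι) (U : Set (V ι)), IsOpen U → KOn G U → KOn H U → ∀ z ∈ U,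
  Bd L (G z) → Bd L (G z)⁻¹ → ∀ k i j,
    ‖(dM (fun w => G w * (H w)⁻¹ * G w) k z - gam G k z * (G z * (H z)⁻¹ * G z)) i j‖ ^ 2 ≤
      C * trm (G z) (H z) * trm (H z) (G z) * clT G H z

/-- the Calabi computation. -/
def CalS : Prop := ∀ (ι : Type) [Fintype ι] [DecidableEq ι] (L : ℝ), ∃ C ≥ 0,
  ∀ (H ρ : V ι → Mat ι) (U : Set (V ι)), IsOpen U → KOn H U → SmM ρ U →
  (∀ w ∈ U, ric H w = ρ w - H w) → ∀ z ∈ U, Bd L (H z) → Bd L (H z)⁻¹ → Bd L (ρ z) →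
  (∀ k, Bd L (dM ρ k z) ∧ Bd L (dMb ρ k z)) → ContDiffAt ℝ ∞ (cal H) z ∧ 0 ≤ cal H z ∧
    (∀ k i j, ‖dM H k z i j‖ ^ 2 ≤ C * cal H z) ∧ ∃ Y ≥ 0,
    Y - C * (cal H z + 1) ≤ (lapL H (fun w => (cal H w : ℂ)) z).re ∧
    (grL (H z) (fun i => dz (fun w => (cal H w : ℂ)) i z)
      (fun i => dz (fun w => (cal H w : ℂ)) i z)).re ≤ C * cal H z * Y

def C3S : Prop := ∀ (ι : Type) [Fintype ι] [DecidableEq ι] (r L : ℝ), 0 < r → ∃ C,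
  ∀ (H ρ : V ι → Mat ι), KOn H (ball 0 (4 * r)) → SmM ρ (ball 0 (4 * r)) →
  (∀ w ∈ ball (0 : V ι) (4 * r), ric H w = ρ w - H w) →
  (∀ z ∈ closedBall (0 : V ι) (3 * r), Bd L (H z) ∧ Bd L (H z)⁻¹ ∧ Bd L (ρ z) ∧
    ∀ k, Bd L (dM ρ k z) ∧ Bd L (dMb ρ k z)) →
  HolM C H (ball 0 (2 * r)) ∧ HolM C (fun z => (H z)⁻¹) (ball 0 (2 * r))

/-- limits of almost parallel sections. -/
def ParLimS : Prop := ∀ (ι κ : Type) [Fintype ι] [DecidableEq ι] [Fintype κ] (U : Set (V ι))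
  (Γ : V ι → V ι →L[ℝ] (κ → ℂ) →L[ℝ] (κ → ℂ)) (s : ℕ → V ι → κ → ℂ) (𝒰 : Ultrafilter ℕ),
  IsOpen U → ContDiffOn ℝ ∞ Γ U → (∀ j, ContDiffOn ℝ 1 (s j) U) →
  (∀ K, IsCompact K → K ⊆ U → ∃ B, ∀ j, ∀ z ∈ K, ‖s j z‖ ≤ B) →
  (∀ K, IsCompact K → K ⊆ U → ∀ v,
    Tendsto (fun j => ∫ z in K, ‖fderiv ℝ (s j) z v - Γ z v (s j z)‖) 𝒰 (𝓝 0)) →
  ∃ p : V ι → κ → ℂ, ContDiffOn ℝ ∞ p U ∧ (∀ z ∈ U, ∀ v, fderiv ℝ p z v = Γ z v (p z)) ∧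
    ∀ K, IsCompact K → K ⊆ U → Tendsto (fun j => ∫ z in K, ‖s j z - p z‖) 𝒰 (𝓝 0)

/-- holomorphic total differential equations. -/
def FrobS : Prop := ∀ (σ κ : Type) [Fintype σ] [DecidableEq σ] [Fintype κ]
  (F : σ → V σ × V κ → V κ) (x0 : V κ), (∀ i, AnalyticAt ℂ (F i) (0, x0)) →
  (∀ᶠ p in 𝓝 ((0, x0) : V σ × V κ), ∀ i j,
    fderiv ℂ (F j) p (Pi.single i 1, F i p) = fderiv ℂ (F i) p (Pi.single j 1, F j p)) →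
  ∃ Ψ : V σ × V κ → V κ, AnalyticAt ℂ Ψ (0, x0) ∧ ∀ᶠ p in 𝓝 ((0, x0) : V σ × V κ),
    Ψ (0, p.2) = p.2 ∧ ∀ i, fderiv ℂ Ψ p (Pi.single i 1, 0) = F i (p.1, Ψ p)

/-- the range of a parallel projector with vanishing sectional curvature is flat. -/
def FlatS : Prop := ∀ (ι : Type) [Fintype ι] [DecidableEq ι] (G p : V ι → Mat ι) (U : Set (V ι)),
  IsOpen U → KOn G U → SmM p U → (∀ z ∈ U, ∀ v, hsc G z v ≤ 0) →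
  (∀ z ∈ U, (p z).IsHermitian ∧ p z * (G z)⁻¹ * p z = p z ∧ rq G z ((G z)⁻¹ * p z * (G z)⁻¹) = 0 ∧
    ∀ k, dM p k z = gam G k z * p z) →
  ∀ z ∈ U, ∀ k l, p z * (G z)⁻¹ * (Matrix.of fun i j => curv G z i j k l) = 0

/-- a parallel unitary frame of a parallel flat subbundle. -/
def FrameS : Prop := ∀ (ι σ : Type) [Fintype ι] [DecidableEq ι] [Fintype σ] [DecidableEq σ]
  (G p : V ι → Mat ι) (U : Set (V ι)) (z0 : V ι), IsOpen U → z0 ∈ U → KOn G U → SmM p U →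
  (∀ z ∈ U, (p z).IsHermitian ∧ p z * (G z)⁻¹ * p z = p z ∧
    trace (p z * (G z)⁻¹) = Fintype.card σ ∧ (∀ k, dM p k z = gam G k z * p z) ∧
    ∀ k l, p z * (G z)⁻¹ * (Matrix.of fun i j => curv G z i j k l) = 0) →
  ∃ e : σ → V ι → V ι, (∀ a, AnalyticAt ℂ (e a) z0) ∧ ∀ᶠ z in 𝓝 z0,
    (∀ a b, ipV (G z) (e a z) (e b z) = if a = b then 1 else 0) ∧
    (∀ v w, ipV (p z) v w = ∑ a, ipV (G z) v (e a z) * ipV (G z) (e a z) w) ∧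
    ∀ a k, fderiv ℂ (e a) z (Pi.single k 1) + e a z ᵥ* gam G k z = 0

/-- product coordinates. -/
def ProdLocS : Prop := ∀ (ι : Type) [Fintype ι] [DecidableEq ι] (s : Finset ι)
  (G p : V ι → Mat ι) (U : Set (V ι)) (z0 : V ι) (e : {i // i ∈ s} → V ι → V ι), IsOpen U →
  z0 ∈ U → KOn G U → (∀ a, AnalyticAt ℂ (e a) z0) → (∀ᶠ z in 𝓝 z0,
    (∀ a b, ipV (G z) (e a z) (e b z) = if a = b then 1 else 0) ∧
    (∀ v w, ipV (p z) v w = ∑ a, ipV (G z) v (e a z) * ipV (G z) (e a z) w) ∧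
    ∀ a k, fderiv ℂ (e a) z (Pi.single k 1) + e a z ᵥ* gam G k z = 0) →
  ∃ Θ : V ι → V ι, AnalyticAt ℂ Θ 0 ∧ Θ 0 = z0 ∧ (jac Θ 0).det ≠ 0 ∧
    ∀ᶠ w in 𝓝 (0 : V ι), pull (jac Θ w) (p (Θ w)) = ind s ∧ Rows s 1 (pull (jac Θ w) (G (Θ w)))

/-- commuting Killing fields which preserve a positively curved volume form are independent. -/
def RankS : Prop := ∀ (τ : Type) [Fintype τ] [DecidableEq τ] (q : ℕ) (O : Set (V τ))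
  (G : V τ → Mat τ) (ψ : V τ → ℝ) (ξ : Fin q → V τ → V τ), IsOpen O → O.Nonempty →
  (∀ y ∈ O, (G y).PosDef ∧ ContDiffAt ℝ ∞ ψ y ∧ (levi (fun w => (ψ w : ℂ)) y).PosDef) →
  (∀ j, AnalyticOnNhd ℂ (ξ j) O) →
  (∀ y ∈ O, ∀ c : Fin q → ℝ, ∑ j, c j • ξ j y = 0 →
    (∑ j, c j • jac (ξ j) y)ᵀ * G y + G y * (∑ j, c j • jac (ξ j) y).map star = 0) →
  (∀ y ∈ O, ∀ i j, fderiv ℂ (ξ j) y (ξ i y) = fderiv ℂ (ξ i) y (ξ j y)) →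
  (∀ y ∈ O, ∀ c : Fin q → ℝ, ∑ j, c j • ξ j y = 0 → ∑ j, c j • fderiv ℂ (ξ j) y = 0 → c = 0) →
  (∀ y ∈ O, ∀ j, fderiv ℝ ψ y (ξ j y) + 2 * (trace (jac (ξ j) y)).re = 0) →
  ∃ y ∈ O, LinearIndependent ℂ fun j => ξ j y

/-- curvature of holomorphic subbundles. -/
def SubS : Prop := ∀ (τ : Type) [Fintype τ] [DecidableEq τ] (q : ℕ) (U : Set (V τ))
  (H : V τ → Mat τ) (ξ : Fin q → V τ → V τ) (ρ : Mat τ), IsOpen U → KOn H U →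
  (∀ j, AnalyticOnNhd ℂ (ξ j) U) → ∀ z ∈ U,
  ContDiffAt ℝ ∞ (fun w => (Matrix.of fun a b => ipV (H w) (ξ a w) (ξ b w)).det.re) z ∧
  0 ≤ (Matrix.of fun a b => ipV (H z) (ξ a z) (ξ b z)).det.re ∧
  ((LinearIndependent ℂ fun j => ξ j z) →
    0 < (Matrix.of fun a b => ipV (H z) (ξ a z) (ξ b z)).det.re ∧
    (ρ.PosSemidef → ric H z = ρ - H z → q - trm (H z) ρ ≤ (lapL H (fun w =>
      (Real.log (Matrix.of fun a b => ipV (H w) (ξ a w) (ξ b w)).det.re : ℂ)) z).re))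

def ZeroS : Prop := ∀ (τ : Type) [Fintype τ] (U : Set (V τ)) (f : V τ → ℂ), IsOpen U →
  IsPreconnected U → AnalyticOnNhd ℂ f U → (∃ z ∈ U, f z ≠ 0) → volume {z ∈ U | f z = 0} = 0

/-- isometries are controlled by their first jet. -/
def J2S : Prop := ∀ (τ : Type) [Fintype τ] [DecidableEq τ] (G G' : V τ → Mat τ) (r r' : ℝ),
  KOn G (ball 0 (4 * r)) → KOn G' (ball 0 (4 * r')) → ∃ C ≥ 0, ∀ (y : V τ) (ρ : ℝ)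
  (φ ψ : V τ → V τ), ball y ρ ⊆ ball 0 (3 * r) → AnalyticOnNhd ℂ φ (ball y ρ) →
  AnalyticOnNhd ℂ ψ (ball y ρ) →
  (∀ w ∈ ball y ρ, ‖φ w‖ ≤ 3 * r' ∧ ‖ψ w‖ ≤ 3 * r' ∧ G w = pull (jac φ w) (G' (φ w)) ∧
    G w = pull (jac ψ w) (G' (ψ w))) →
  ∀ w ∈ ball y ρ, ‖fderiv ℂ φ w‖ ≤ C ∧ ‖φ w - ψ w‖ + ‖fderiv ℂ φ w - fderiv ℂ ψ w‖ ≤
    C * (‖φ y - ψ y‖ + ‖fderiv ℂ φ y - fderiv ℂ ψ y‖)

/-- Killing fields are determined by their first jet. -/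
def KJetS : Prop := ∀ (τ : Type) [Fintype τ] [DecidableEq τ] (G : V τ → Mat τ) (R : ℝ)
  (ξ : V τ → V τ) (y0 : V τ), KOn G (ball 0 R) → AnalyticOnNhd ℂ ξ (ball 0 R) →
  (∀ y ∈ ball (0 : V τ) R, ∀ p q, fderiv ℝ (fun w => G w p q) y (ξ y) +
    ((jac ξ y)ᵀ * G y + G y * (jac ξ y).map star) p q = 0) →
  y0 ∈ ball (0 : V τ) R → ξ y0 = 0 → fderiv ℂ ξ y0 = 0 → ∀ y ∈ ball (0 : V τ) R, ξ y = 0

/-- peak functions. -/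
def PeakS : Prop := ∀ (τ : Type) [Fintype τ] [DecidableEq τ] (L θ : ℝ), 0 < θ → ∃ c0 > 0,
  ∀ (O : Set (V τ)) (H : V τ → Mat τ) (ψ : V τ → ℝ), IsOpen O → volume O ≠ ⊤ → SmM H O →
  (∀ y ∈ O, (H y).PosDef ∧ Bd L (H y) ∧ Bd L (H y)⁻¹ ∧ ContDiffAt ℝ ∞ ψ y ∧
    (levi (fun w => (ψ w : ℂ)) y - (1 / 2 : ℂ) • H y).PosSemidef ∧
    (H y - levi (fun w => (ψ w : ℂ)) y).PosSemidef) →
  ∀ᶠ b : ℕ in atTop, ∃ (M : ℕ) (F : Fin M → V τ → ℂ),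
    c0 * (volume O).toReal * (b : ℝ) ^ Fintype.card τ ≤ M ∧
    (∀ j, ContDiff ℝ ∞ (F j) ∧ HasCompactSupport (F j) ∧ tsupport (F j) ⊆ O ∧
      0 < ∫ y, ‖F j y‖ ^ 2 * Real.exp (-b * ψ y) ∧
      ∫ y, nV (H y) (shp H (F j) y) * Real.exp (-b * ψ y) ≤
        θ * b * ∫ y, ‖F j y‖ ^ 2 * Real.exp (-b * ψ y)) ∧
    ∀ i j, i ≠ j → Disjoint (tsupport (F i)) (tsupport (F j))

/-- the holomorphic derivative is controlled by the antiholomorphic one. -/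
def EnS : Prop := ∀ (τ : Type) [Fintype τ] [DecidableEq τ] (L : ℝ), ∃ C ≥ 0,
  ∀ (D K : Set (V τ)) (H : V τ → Mat τ) (ψ : V τ → ℝ), IsOpen D → IsCompact K → K ⊆ D → SmM H D →
  (∀ y ∈ D, (H y).PosDef ∧ ContDiffAt ℝ ∞ ψ y ∧
    ((L : ℂ) • H y - levi (fun w => (ψ w : ℂ)) y).PosSemidef ∧
    ((L : ℂ) • H y + levi (fun w => (ψ w : ℂ)) y).PosSemidef) →
  ∀ᶠ b : ℕ in atTop, ∀ U : V τ → V τ, ContDiffOn ℝ 2 U D →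
    ∫⁻ y in K, ENNReal.ofReal ((∑ i, ∑ k, ∑ j, ∑ l, (H y)⁻¹ k i * H y j l *
      (dz (fun w => U w j) i y - b * dz (fun w => (ψ w : ℂ)) i y * U y j) *
      star (dz (fun w => U w l) k y - b * dz (fun w => (ψ w : ℂ)) k y * U y l)).re *
        Real.exp (-b * ψ y)) ≤
      ENNReal.ofReal C * ∫⁻ y in D, ENNReal.ofReal ((b * nV (H y) (U y) + nD H U y) *
        Real.exp (-b * ψ y))

/-- the count of low energy vector fields. -/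
def CountS : Prop := ∀ (τ : Type) [Fintype τ] [DecidableEq τ] (L κ : ℝ), 0 < κ → ∃ C ≥ 0,
  ∀ (D O K : Set (V τ)) (H : V τ → Mat τ) (ψ : V τ → ℝ), IsOpen D → IsOpen O → IsCompact K →
  K ⊆ O → O ⊆ D → SmM H D → (∀ y ∈ D, (H y).PosDef ∧ ContDiffAt ℝ ∞ ψ y ∧
    ((L : ℂ) • H y - levi (fun w => (ψ w : ℂ)) y).PosSemidef ∧
    ((L : ℂ) • H y + levi (fun w => (ψ w : ℂ)) y).PosSemidef) →
  ∀ᶠ b : ℕ in atTop, ∀ (M : ℕ) (U : Fin M → V τ → V τ), (∀ j, ContDiffOn ℝ 2 (U j) D) →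
    (∀ c : Fin M → ℂ, ∫⁻ y in D, ENNReal.ofReal (nV (H y) (∑ j, c j • U j y) *
      Real.exp (-b * ψ y)) ≤ ENNReal.ofReal (∑ j, ‖c j‖ ^ 2)) →
    ∑ j, ∫⁻ y in K, ENNReal.ofReal (nV (H y) (U j y) * Real.exp (-b * ψ y)) ≤
      ENNReal.ofReal (C * (b : ℝ) ^ Fintype.card τ) * (∫⁻ y in O, ENNReal.ofReal (H y).det.re) +
      ENNReal.ofReal κ * ∑ j, ∫⁻ y in D, ENNReal.ofReal ((nV (H y) (U j y) + nD H (U j) y / b) *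
        Real.exp (-b * ψ y))

end Pool.Agent.Lib.MP_813db1_ag.HS
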