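import Pool.Agent.Lib.MP_813db1_ag.HS.Stmt2
import Pool.Agent.Lib.MP_813db1_ag.HS.E.Basic

/-! Part E: passage between product covers and product atlases. -/

namespace Pool.Agent.Lib.MP_813db1_ag.HS

open MeasureTheory Complex Matrix Filter Topology Set Metric
open scoped ContDiff ComplexOrder ENNReal

noncomputable section

variable {ι X : Type} [Fintype ι] [DecidableEq ι] [TopologicalSpace X]

/-- the flat factor -/
abbrev ZZ (s : Finset ι) : Type := EuclideanSpace ℂ {i // i ∈ s}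

/-- the transversal factor -/
abbrev YY (s : Finset ι) : Type := V {i // i ∉ s}

omit [Fintype ι] in
lemma zp_glue (s : Finset ι) (z : V {i // i ∈ s}) (y : YY s) : zp s (glue s z y) = z := by
  funext i; simp [zp, glue, i.2]

omit [Fintype ι] in
lemma yp_glue (s : Finset ι) (z : V {i // i ∈ s}) (y : YY s) : yp s (glue s z y) = y := by
  funext i; simp [yp, glue, i.2]

omit [Fintype ι] in
lemma glue_zp_yp (s : Finset ι) (w : V ι) : glue s (zp s w) (yp s w) = w := by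
  funext i; by_cases h : i ∈ s <;> simp [zp, yp, glue, h]

lemma norm_glue_lt (s : Finset ι) {R : ℝ} (hR : 0 < R) (z : V {i // i ∈ s}) (y : YY s) :
    ‖glue s z y‖ < R ↔ ‖z‖ < R ∧ ‖y‖ < R := by
  simp only [pi_norm_lt_iff hR]
  refine ⟨fun h => ⟨fun i => ?_, fun i => ?_⟩, fun h i => ?_⟩
  · simpa [glue, i.2] using h i.1
  · simpa [glue, i.2] using h i.1
  · by_cases hi : i ∈ s
    · simpa [glue, hi] using h.1 ⟨i, hi⟩
    · simpa [glue, hi] using h.2 ⟨i, hi⟩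

lemma norm_lt_iff (s : Finset ι) {R : ℝ} (hR : 0 < R) (w : V ι) :
    ‖w‖ < R ↔ ‖zp s w‖ < R ∧ ‖yp s w‖ < R := by
  rw [← norm_glue_lt s hR, glue_zp_yp]

/-- the splitting of the model space -/
def split (s : Finset ι) : V ι ≃L[ℂ] ZZ s × YY s :=
  LinearEquiv.toContinuousLinearEquiv
    { toFun := fun w => (WithLp.toLp 2 (zp s w), yp s w)
      invFun := fun p => glue s (WithLp.ofLp p.1) p.2
      map_add' := fun _ _ => rfl
      map_smul' := fun _ _ => rfl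
      left_inv := fun w => glue_zp_yp s w
      right_inv := fun p => by simp [zp_glue, yp_glue] }

lemma split_apply (s : Finset ι) (w : V ι) : split s w = (WithLp.toLp 2 (zp s w), yp s w) := rfl

lemma split_symm_apply (s : Finset ι) (p : ZZ s × YY s) :
    (split s).symm p = glue s (WithLp.ofLp p.1) p.2 := rfl

/-- the real part of a Hermitian form -/
def rb {τ : Type} [Fintype τ] [DecidableEq τ] (G : Mat τ) : E.Bil (V τ) :=
  LinearMap.toContinuousLinearMap (LinearMap.toContinuousLinearMap.toLinearMap ∘ₗ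
    LinearMap.mk₂ ℝ (fun u v : V τ => (ipV G u v).re)
      (fun u u' v => by simp [ipV, mul_add, add_mul, Finset.sum_add_distrib])
      (fun c u v => by
        have : ipV G (c • u) v = c * ipV G u v := by
          simp [ipV, Finset.mul_sum, mul_assoc, mul_left_comm]
        simp [this])
      (fun u v v' => by simp [ipV, mul_add, Finset.sum_add_distrib])
      (fun c u v => by
        have : ipV G u (c • v) = c * ipV G u v := by
          simp [ipV, Finset.mul_sum, mul_assoc, mul_left_comm]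
        simp [this]))

lemma rb_apply {τ : Type} [Fintype τ] [DecidableEq τ] (G : Mat τ) (u v : V τ) :
    rb G u v = (ipV G u v).re := rfl

namespace Cov

variable {M : Atl ι X} (C : Cov M) (s : Finset ι)

/-- the product chart -/
def pch (a : Fin C.n) : OpenPartialHomeomorph X (ZZ s × YY s) :=
  ((C.e a).symm.restrOpen (ball 0 (3 * C.r a)) isOpen_ball).symm.transHomeomorph
    (split s).toHomeomorph

lemma pch_apply (a : Fin C.n) (x : X) :
    C.pch s a x = (WithLp.toLp 2 (zp s (C.e a x)), yp s (C.e a x)) := rfl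

lemma pch_symm (a : Fin C.n) (p : ZZ s × YY s) :
    (C.pch s a).symm p = (C.e a).symm (glue s (WithLp.ofLp p.1) p.2) := rfl

lemma r3 (a : Fin C.n) : 0 < 3 * C.r a := by have := C.pos a; positivity

lemma ball_sub (a : Fin C.n) {c : ℝ} (hc : c ≤ 4) : ball (0 : V ι) (c * C.r a) ⊆ (C.e a).target :=
  (ball_subset_closedBall.trans (closedBall_subset_closedBall
    (mul_le_mul_of_nonneg_right hc (C.pos a).le))).trans (C.sub a)

lemma mem_pch (a : Fin C.n) (x : X) :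
    x ∈ (C.pch s a).source ↔ x ∈ (C.e a).source ∧ ‖C.e a x‖ < 3 * C.r a := by
  simp [pch]

lemma pch_target (a : Fin C.n) : (C.pch s a).target =
    {z : ZZ s | ‖WithLp.ofLp z‖ < 3 * C.r a} ×ˢ ball (0 : YY s) (3 * C.r a) := by
  ext p
  have h : p ∈ (C.pch s a).target ↔ glue s (WithLp.ofLp p.1) p.2 ∈ (C.e a).target ∧
      ‖glue s (WithLp.ofLp p.1) p.2‖ < 3 * C.r a := by
    simp [pch, split_symm_apply]
  rw [h, mem_prod, mem_ofPred_eq, mem_ball_zero_iff, ← norm_glue_lt s (C.r3 a)]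
  exact ⟨fun h => h.2, fun h => ⟨C.ball_sub a (by norm_num) (mem_ball_zero_iff.2 h), h⟩⟩

/-- the two properties of a product cover which need a proof -/
structure PData (g : X → Mat ι) : Prop where
  met : ∀ a, E.Met (fun y => rb (C.trv s g a y)) (ball 0 (3 * C.r a))
  trans : ∀ a b x, x ∈ (C.pch s a).source → x ∈ (C.pch s b).source →
    ∃ (γ : E.Mot (ZZ s)) (φ : YY s → YY s),
      E.LIso (fun y => rb (C.trv s g a y)) (fun y => rb (C.trv s g b y)) φ (C.pch s a x).2 ∧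
      ∀ᶠ x' in 𝓝 x, C.pch s b x' = (γ (C.pch s a x').1, φ (C.pch s a x').2)

/-- the product atlas of a product cover -/
def pa {g : X → Mat ι} (h : C.PData s g) : E.PAtlas X (ZZ s) (YY s) where
  ι := Fin C.n
  fin := inferInstance
  e := C.pch s
  A := fun a => {z | ‖WithLp.ofLp z‖ < 3 * C.r a}
  yc := fun _ => 0
  yr := fun a => 3 * C.r a
  A_open := fun _ => isOpen_lt (by fun_prop) continuous_const
  A_conn := fun a => by
    have h1 : {z : ZZ s | ‖WithLp.ofLp z‖ < 3 * C.r a} =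
        WithLp.toLp 2 '' ball (0 : V {i // i ∈ s}) (3 * C.r a) := by
      ext z
      refine ⟨fun hz => ⟨_, mem_ball_zero_iff.2 hz, rfl⟩, ?_⟩
      rintro ⟨w, hw, rfl⟩
      exact mem_ball_zero_iff.1 hw
    rw [h1]
    exact (isConnected_ball (C.r3 a)).image _ (by fun_prop)
  yr_pos := C.r3
  tgt := C.pch_target s
  cover := fun x => by
    obtain ⟨a, h1, h2⟩ := C.cover x
    exact ⟨a, (C.mem_pch s a x).2 ⟨h1, by have := C.pos a; linarith⟩⟩
  g := fun a y => rb (C.trv s g a y)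
  met := h.met
  trans := h.trans

/-- an invariant family of commuting, volume preserving holomorphic fields on the transversals -/
structure KillX (g : X → Mat ι) (q : ℕ) (ξ : Fin C.n → Fin q → YY s → YY s) : Prop where
  pos : 0 < q
  an : ∀ a j, AnalyticOnNhd ℂ (ξ a j) (ball 0 (3 * C.r a))
  comm : ∀ a i j, ∀ y ∈ ball (0 : YY s) (3 * C.r a),
    fderiv ℂ (ξ a j) y (ξ a i y) = fderiv ℂ (ξ a i) y (ξ a j y)
  vol : ∀ a j, ∀ y ∈ ball (0 : YY s) (3 * C.r a),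
    fderiv ℝ (fun w => Real.log (C.trv s g a w).det.re) y (ξ a j y) +
      2 * (trace (jac (ξ a j) y)).re = 0
  bas : ∀ u : X → ℝ, M.Ck 1 u → C.BasL s (fn u) → ∀ a j, ∀ y ∈ ball (0 : YY s) (3 * C.r a),
    fderiv ℝ (fun w => u ((C.e a).symm (glue s 0 w))) y (ξ a j y) = 0
  ind : ∀ a (O : Set (YY s)), IsOpen O → O.Nonempty → O ⊆ ball 0 (3 * C.r a) →
    ∃ y ∈ O, LinearIndependent ℝ fun j => ξ a j y
  cov : ∀ a b, ∀ x ∈ (C.e a).source, x ∈ (C.e b).source → ‖C.e a x‖ < 3 * C.r a →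
    ‖C.e b x‖ < 3 * C.r b → ∃ (φ : YY s → YY s) (T : Matrix (Fin q) (Fin q) ℝ),
      AnalyticAt ℂ φ (yp s (C.e a x)) ∧ T.det ≠ 0 ∧
      (∀ᶠ x' in 𝓝 x, yp s (C.e b x') = φ (yp s (C.e a x'))) ∧
      ∀ᶠ w in 𝓝 (yp s (C.e a x)), ∀ j, fderiv ℂ φ w (ξ a j w) = ∑ i, T j i • ξ b i (φ w)

end Cov

/-- a tube without the volume bound -/
structure TubeX0 {M : Atl ι X} (C : Cov M) (g : X → Mat ι) (s : Finset ι) (a0 : Fin C.n) (N : ℕ)
    (y1 : YY s) (δ : ℝ) (W : Set X) (Yc : X → YY s) (mu : ℕ → X → ℂ) : Prop where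
  Npos : 0 < N
  δpos : 0 < δ
  sub : ball y1 δ ⊆ ball 0 (C.r a0)
  opn : IsOpen W
  maps : ∀ x ∈ W, Yc x ∈ ball y1 δ
  loc : ∀ b, ∀ x ∈ W, x ∈ (C.e b).source → ‖C.e b x‖ < C.r b →
    ∃ φ : YY s → YY s, AnalyticAt ℂ φ (yp s (C.e b x)) ∧
      (∀ᶠ w in 𝓝 (yp s (C.e b x)), C.trv s g b w = pull (jac φ w) (C.trv s g a0 (φ w)) ∧
        ∀ u : X → ℝ, M.Ck 1 u → C.BasL s (fn u) →
          u ((C.e a0).symm (glue s 0 (φ w))) = u ((C.e b).symm (glue s 0 w))) ∧
      (∀ᶠ x' in 𝓝 x, Yc x' = φ (yp s (C.e b x'))) ∧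
      ∀ a, N ∣ a → ∃ u : ℂ, ‖u‖ = 1 ∧ ∀ᶠ x' in 𝓝 x,
        M.rep a (mu a) (C.e b) (C.e b x') = u * (jac φ (yp s (C.e b x'))).det ^ a
  cpt : ∀ K, IsCompact K → K ⊆ ball y1 δ → IsClosed {x | x ∈ W ∧ Yc x ∈ K}
  box : ∀ z y, ‖z‖ < C.r a0 → y ∈ ball y1 δ →
    (C.e a0).symm (glue s z y) ∈ W ∧ Yc ((C.e a0).symm (glue s z y)) = y

end

/-- product covers give product atlases -/
def AtlS : Prop := ∀ (ι X : Type) [Fintype ι] [DecidableEq ι] [TopologicalSpace X] (M : Atl ι X)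
  (g : X → Mat ι) (C : Cov M) (s : Finset ι), M.IsK g → C.Prod g s → C.PData s g

/-- the fields in matrix language -/
def KBrS : Prop := ∀ (ι X : Type) [Fintype ι] [DecidableEq ι] [TopologicalSpace X] (M : Atl ι X)
  (g : X → Mat ι) (C : Cov M) (s : Finset ι) (h : C.PData s g) (Ψ : Fin C.n → ZZ s → YY s → X)
  (q : ℕ) (ξ : Fin C.n → Fin q → YY s → YY s), M.IsK g → C.Prod g s → E.Dev (C.pa s h) Ψ →
  E.Fields (C.pa s h) Ψ q ξ → C.KillX s g q ξ

/-- real independence gives complex independence -/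
def CplxS : Prop := ∀ (τ : Type) [Fintype τ] [DecidableEq τ] (q : ℕ) (ψ : V τ → ℝ)
  (ξ : Fin q → V τ → V τ) (y : V τ), ContDiffAt ℝ ∞ ψ y → (∀ j, AnalyticAt ℂ (ξ j) y) →
  (∀ᶠ w in 𝓝 y, (∀ i j, fderiv ℂ (ξ j) w (ξ i w) = fderiv ℂ (ξ i) w (ξ j w)) ∧
    ∀ j, fderiv ℝ ψ w (ξ j w) + 2 * (trace (jac (ξ j) w)).re = 0) →
  (levi (fun w => (ψ w : ℂ)) y).PosDef → (LinearIndependent ℝ fun j => ξ j y) →
  LinearIndependent ℂ fun j => ξ j y

/-- integration of the Laplacian of the logarithm of a section of a flat line bundle -/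
def CocS : Prop := ∀ (ι X : Type) [Fintype ι] [DecidableEq ι] [TopologicalSpace X] [T2Space X]
  [CompactSpace X] [MeasurableSpace X] [BorelSpace X] (M : Atl ι X) (g h : X → Mat ι)
  (μ : Measure X) (C : Cov M) (D : Fin C.n → V ι → ℝ) (f : X → ℝ), M.IsK g → M.IsK h →
  M.IsVol g μ → Continuous f →
  (∀ a, ∀ z ∈ ball (0 : V ι) (3 * C.r a), ContDiffAt ℝ ∞ (D a) z ∧ 0 ≤ D a z) →
  (∀ a, volume {z ∈ ball (0 : V ι) (3 * C.r a) | D a z = 0} = 0) →
  (∀ a b, ∀ x ∈ (C.e a).source, x ∈ (C.e b).source → ‖C.e a x‖ < 3 * C.r a →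
    ‖C.e b x‖ < 3 * C.r b → ∃ c > 0, ∀ᶠ x' in 𝓝 x, D a (C.e a x') = c * D b (C.e b x')) →
  (∀ a, ∀ x ∈ (C.e a).source, ‖C.e a x‖ < 3 * C.r a → D a (C.e a x) ≠ 0 →
    f x ≤ (lapL (M.repF h (C.e a)) (fun w => (Real.log (D a w) : ℂ)) (C.e a x)).re) →
  ∫ x, f x * rat h g x ∂μ ≤ 0

/-- basic forms transform by the transversal part of the change of charts -/
def TrvS : Prop := ∀ (ι X : Type) [Fintype ι] [DecidableEq ι] [TopologicalSpace X] (M : Atl ι X)
  (g B : X → Mat ι) (C : Cov M) (s : Finset ι) (c : ℝ) (a b : Fin C.n) (x : X)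
  (φ : YY s → YY s), C.Prod g s → Rows' C s c B → x ∈ (C.e a).source → x ∈ (C.e b).source →
  ‖C.e a x‖ < 4 * C.r a → ‖C.e b x‖ < 4 * C.r b → AnalyticAt ℂ φ (yp s (C.e a x)) →
  (∀ᶠ x' in 𝓝 x, yp s (C.e b x') = φ (yp s (C.e a x'))) →
  (jac φ (yp s (C.e a x))).det ≠ 0 ∧ ∀ᶠ x' in 𝓝 x, C.trv s B a (yp s (C.e a x')) =
    pull (jac φ (yp s (C.e a x'))) (C.trv s B b (yp s (C.e b x')))

/-- the fields are generically independent over the complex numbers -/
def GenS : Prop := ∀ (ι X : Type) [Fintype ι] [DecidableEq ι] [TopologicalSpace X] [T2Space X]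
  [CompactSpace X] [ConnectedSpace X] (M : Atl ι X) (g : X → Mat ι) (C : Cov M) (s : Finset ι)
  (ε : ℝ) (u : X → ℝ) (q : ℕ) (ξ : Fin C.n → Fin q → YY s → YY s) (x0 : X), M.IsK g →
  C.Prod g s → 0 < ε → M.Sol g ε u → ε * trm (M.hm g ε u x0) (g x0) < s.card + 1 →
  C.KillX s g q ξ → ∀ a, volume {z ∈ ball (0 : V ι) (3 * C.r a) |
    ¬ LinearIndependent ℂ fun j => ξ a j (yp s z)} = 0

/-- the Bochner argument -/
def BochS : Prop := ∀ (ι X : Type) [Fintype ι] [DecidableEq ι] [TopologicalSpace X] [T2Space X]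
  [CompactSpace X] [ConnectedSpace X] [MeasurableSpace X] [BorelSpace X] (M : Atl ι X)
  (g : X → Mat ι) (μ : Measure X) (u : ℝ → X → ℝ) (C : Cov M) (s : Finset ι) (q : ℕ)
  (ξ : Fin C.n → Fin q → YY s → YY s), M.IsK g → M.IsVol g μ → Fam M g μ u s.card → C.Prod g s →
  ¬ C.KillX s g q ξ

/-- the tube in matrix language -/
def TBrS : Prop := ∀ (ι X : Type) [Fintype ι] [DecidableEq ι] [TopologicalSpace X] [T2Space X]
  (M : Atl ι X) (g : X → Mat ι) (C : Cov M) (s : Finset ι) (h : C.PData s g)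
  (Ψ : Fin C.n → ZZ s → YY s → X) (N : ℕ) (c : Fin C.n → ℂ) (a0 : Fin C.n) (y1 : YY s) (δ R : ℝ),
  M.IsK g → C.Prod g s → E.Dev (C.pa s h) Ψ → E.Tube (C.pa s h) Ψ N c a0 y1 δ R →
  closedBall y1 δ ⊆ ball 0 (C.r a0) → ∃ W Yc mu, TubeX0 C g s a0 N y1 δ W Yc mu

/-- the volume bound on a smaller tube -/
def TMeasS : Prop := ∀ (ι X : Type) [Fintype ι] [DecidableEq ι] [TopologicalSpace X] [T2Space X]
  [CompactSpace X] [MeasurableSpace X] [BorelSpace X] (M : Atl ι X) (g : X → Mat ι)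
  (μ : Measure X) (C : Cov M) (s : Finset ι) (a0 : Fin C.n) (N : ℕ) (y1 : YY s) (δ : ℝ)
  (W : Set X) (Yc : X → YY s) (mu : ℕ → X → ℂ), M.IsK g → M.IsVol g μ → C.Prod g s →
  TubeX0 C g s a0 N y1 δ W Yc mu →
  ∃ B, TubeX C g s μ a0 N y1 (δ / 2) B {x | x ∈ W ∧ Yc x ∈ ball y1 (δ / 2)} Yc mu

end Pool.Agent.Lib.MP_813db1_ag.HS
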