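import Pool.Agent.Lib.MP_813db1_ag.HS.Stmt2

/-! Statements of the intermediate steps of part F. -/

namespace Pool.Agent.Lib.MP_813db1_ag.HS

open MeasureTheory Complex Matrix Filter Topology Set Metric
open scoped ContDiff ComplexOrder

noncomputable section

/-- the transversal weight. -/
def twt {τ : Type} [Fintype τ] [DecidableEq τ] (c : ℝ) (m b : ℕ) (H : Mat τ) : ℝ :=
  c⁻¹ ^ (m * b) * Real.exp (-b * Real.log H.det.re)

/-- a section read on the transversal of a product chart. -/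
def Cov.tS {ι X : Type} [Fintype ι] [DecidableEq ι] [TopologicalSpace X] {M : Atl ι X} (C : Cov M)
    (s : Finset ι) (a : ℕ) (σ : X → ℂ) (k : Fin C.n) (y : V {i // i ∉ s}) : ℂ :=
  M.rep a σ (C.e k) (glue s 0 y)

end

/-- the dictionary between basic sections and functions on the transversals. -/
structure DictS : Prop where
  pt : ∀ (ι X : Type) [Fintype ι] [DecidableEq ι] [TopologicalSpace X] (M : Atl ι X)
    (g h : X → Mat ι) (C : Cov M) (s : Finset ι) (c : ℝ) (b : ℕ) (σ : X → ℂ)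
    (F : V {i // i ∉ s} → ℂ) (k : Fin C.n) (z : V ι), M.IsK g → M.IsK h → 0 < c → Rows' C s c h →
    z ∈ ball (0 : V ι) (4 * C.r k) → ContDiffAt ℝ ∞ F (yp s z) →
    (∀ᶠ w in 𝓝 z, M.rep (b + 1) σ (C.e k) w = F (yp s w)) →
    (M.repF g (C.e k) z).det.re *
        (‖σ ((C.e k).symm z)‖ ^ 2 * wt (b + 1) g h ((C.e k).symm z)) =
      ‖F (yp s z)‖ ^ 2 * twt c s.card b (C.trv s h k (yp s z)) ∧
    (∀ B : X → Mat ι, (M.repF g (C.e k) z).det.re * (nV (B ((C.e k).symm z))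
        (M.shpX (b + 1) h σ ((C.e k).symm z)) * wt (b + 1) g h ((C.e k).symm z)) =
      nV ((M.repF B (C.e k) z).submatrix Subtype.val Subtype.val)
        (shp (C.trv s h k) F (yp s z)) * twt c s.card b (C.trv s h k (yp s z))) ∧
    (M.repF g (C.e k) z).det.re *
        (M.nDX (b + 1) h σ ((C.e k).symm z) * wt (b + 1) g h ((C.e k).symm z)) =
      nD (C.trv s h k) (shp (C.trv s h k) F) (yp s z) * twt c s.card b (C.trv s h k (yp s z))
  bas : ∀ (ι X : Type) [Fintype ι] [DecidableEq ι] [TopologicalSpace X] (M : Atl ι X) (C : Cov M)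
    (s : Finset ι) (a : ℕ) (σ : X → ℂ) (k : Fin C.n), M.CkS ∞ a σ → C.BasL s (M.rep a σ) →
    (∀ y ∈ ball (0 : V {i // i ∉ s}) (4 * C.r k), ContDiffAt ℝ ∞ (C.tS s a σ k) y) ∧
    ∀ z ∈ ball (0 : V ι) (4 * C.r k), yp s z ∈ ball (0 : V {i // i ∉ s}) (4 * C.r k) ∧
      ∀ᶠ w in 𝓝 z, M.rep a σ (C.e k) w = C.tS s a σ k (yp s w)
  box : ∀ (ι X : Type) [Fintype ι] [DecidableEq ι] [TopologicalSpace X] [T2Space X]
    [CompactSpace X] [MeasurableSpace X] [BorelSpace X] (M : Atl ι X) (g : X → Mat ι)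
    (μ : Measure X) (C : Cov M) (s : Finset ι) (k : Fin C.n) (R : ℝ) (S : Set (V {i // i ∉ s}))
    (Φ : X → ℝ) (φ : V {i // i ∉ s} → ℝ), M.IsK g → M.IsVol g μ → 0 < R → R ≤ 4 * C.r k →
    MeasurableSet S → S ⊆ ball 0 R → ContinuousOn φ S →
    (∀ z ∈ ball (0 : V ι) R, yp s z ∈ S →
      (M.repF g (C.e k) z).det.re * Φ ((C.e k).symm z) = φ (yp s z)) →
    ∫⁻ x in (C.e k).source ∩ C.e k ⁻¹' (ball 0 R ∩ yp s ⁻¹' S), ENNReal.ofReal (Φ x) ∂μ =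
      volume (ball (0 : V {i // i ∈ s}) R) * ∫⁻ y in S, ENNReal.ofReal (φ y)

/-- being basic is a local property of sections. -/
def BasLocS : Prop := ∀ (ι X : Type) [Fintype ι] [DecidableEq ι] [TopologicalSpace X] (M : Atl ι X)
  (g : X → Mat ι) (C : Cov M) (s : Finset ι) (a : ℕ) (σ : X → ℂ), M.IsK g → C.Prod g s →
  (∀ x, ∃ k, x ∈ (C.e k).source ∧ ‖C.e k x‖ < 4 * C.r k ∧
    DifferentiableAt ℝ (M.rep a σ (C.e k)) (C.e k x) ∧
    ∀ i ∈ s, ∀ c : ℂ, fderiv ℝ (M.rep a σ (C.e k)) (C.e k x) (Pi.single i c) = 0) →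
  C.BasL s (M.rep a σ)

/-- a large set on which the transversal metric is controlled. -/
def GoodS : Prop := ∀ (ι X : Type) [Fintype ι] [DecidableEq ι] [TopologicalSpace X] [T2Space X]
  [CompactSpace X] [ConnectedSpace X] [MeasurableSpace X] [BorelSpace X] (M : Atl ι X)
  (g : X → Mat ι) (μ : Measure X) (u : ℝ → X → ℝ) (C : Cov M) (s : Finset ι) (a0 : Fin C.n)
  (y1 : V {i // i ∉ s}) (δ : ℝ), M.IsK g → M.IsVol g μ → M.SemiNeg g → Fam M g μ u s.card →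
  C.Prod g s → 0 < δ → ball y1 δ ⊆ ball 0 (C.r a0) → ∃ L : ℝ, ∃ c > (0 : ℝ),
  ∀ᶠ ε in 𝓝[>] (0 : ℝ), ∃ O, IsOpen O ∧ O ⊆ ball y1 δ ∧ c ≤ (volume O).toReal ∧ ∀ y ∈ O,
    Bd L (C.trv s (M.hm g ε (u ε)) a0 y) ∧ Bd L (C.trv s (M.hm g ε (u ε)) a0 y)⁻¹ ∧
    ε * trm (C.trv s (M.hm g ε (u ε)) a0 y) (C.trv s g a0 y) ≤ 1 / 2

/-- functions with compact support on the transversal of the tube extend to basic sections. -/
def ExtS : Prop := ∀ (ι X : Type) [Fintype ι] [DecidableEq ι] [TopologicalSpace X] [T2Space X]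
  [CompactSpace X] [MeasurableSpace X] [BorelSpace X] (M : Atl ι X) (g : X → Mat ι)
  (μ : Measure X) (ε : ℝ) (u : X → ℝ) (C : Cov M) (s : Finset ι) (a0 : Fin C.n) (N : ℕ)
  (y1 : V {i // i ∉ s}) (δ B : ℝ) (W : Set X) (Yc : X → V {i // i ∉ s}) (mu : ℕ → X → ℂ) (b : ℕ)
  (F : V {i // i ∉ s} → ℂ), M.IsK g → C.Prod g s → 0 < ε → M.Sol g ε u →
  TubeX C g s μ a0 N y1 δ B W Yc mu → N ∣ b + 1 → ContDiff ℝ ∞ F → HasCompactSupport F →
  tsupport F ⊆ ball y1 δ →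
  M.CkS ∞ (b + 1) (W.indicator fun x => F (Yc x) * mu (b + 1) x) ∧
  C.BasL s (M.rep (b + 1) (W.indicator fun x => F (Yc x) * mu (b + 1) x)) ∧
  (∀ x ∈ W, (C.trv s g a0 (Yc x)).det.re *
      (‖F (Yc x) * mu (b + 1) x‖ ^ 2 * wt (b + 1) g (M.hm g ε u) x) =
      ‖F (Yc x)‖ ^ 2 * twt ε s.card b (C.trv s (M.hm g ε u) a0 (Yc x)) ∧
    (C.trv s g a0 (Yc x)).det.re * (nV (M.hm g ε u x) (M.shpX (b + 1) (M.hm g ε u)
      (W.indicator fun x => F (Yc x) * mu (b + 1) x) x) * wt (b + 1) g (M.hm g ε u) x) =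
      nV (C.trv s (M.hm g ε u) a0 (Yc x)) (shp (C.trv s (M.hm g ε u) a0) F (Yc x)) *
        twt ε s.card b (C.trv s (M.hm g ε u) a0 (Yc x))) ∧
  ∀ x ∉ W, M.shpX (b + 1) (M.hm g ε u) (W.indicator fun x => F (Yc x) * mu (b + 1) x) x = 0

end Pool.Agent.Lib.MP_813db1_ag.HS
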