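import Pool.Agent.Lib.MP_813db1_ag.HS.Stmt

/-! Wirtinger calculus for rectangular matrices of functions. -/

namespace Pool.Agent.Lib.MP_813db1_ag.HS

open Complex Matrix Filter Topology Set
open scoped ContDiff ComplexOrder

noncomputable section

namespace Sub

variable {τ : Type} [Fintype τ] [DecidableEq τ]

/-- both Wirtinger derivatives. -/
def dd (c : ℂ) (f : V τ → ℂ) (k : τ) (z : V τ) : ℂ :=
  (fderiv ℝ f z (Pi.single k 1) + c * fderiv ℝ f z (Pi.single k I)) / 2

theorem dz_eq (f : V τ → ℂ) (k : τ) : dz f k = dd (-I) f k := by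
  funext z
  rw [dz, dd]
  ring

theorem dzb_eq (f : V τ → ℂ) (k : τ) : dzb f k = dd I f k := rfl

variable {c : ℂ} {f g : V τ → ℂ} {k : τ} {z : V τ}

theorem dd_congr (h : f =ᶠ[𝓝 z] g) : dd c f k z = dd c g k z := by
  rw [dd, dd, h.fderiv_eq]

theorem dd_const (a : ℂ) : dd c (fun _ => a) k z = 0 := by
  simp [dd]

theorem dd_add (hf : DifferentiableAt ℝ f z) (hg : DifferentiableAt ℝ g z) :
    dd c (fun w => f w + g w) k z = dd c f k z + dd c g k z := by
  simp only [dd, fderiv_fun_add hf hg, _root_.add_apply]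
  ring

theorem dd_mul (hf : DifferentiableAt ℝ f z) (hg : DifferentiableAt ℝ g z) :
    dd c (fun w => f w * g w) k z = dd c f k z * g z + f z * dd c g k z := by
  simp only [dd, fderiv_fun_mul hf hg, _root_.add_apply,
    _root_.smul_apply, smul_eq_mul]
  ring

theorem dd_sum {σ : Type} (s : Finset σ) {F : σ → V τ → ℂ}
    (hF : ∀ i ∈ s, DifferentiableAt ℝ (F i) z) :
    dd c (fun w => ∑ i ∈ s, F i w) k z = ∑ i ∈ s, dd c (F i) k z := by
  simp only [dd, fderiv_fun_sum hF, _root_.sum_apply, Finset.mul_sum,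
    ← Finset.sum_add_distrib, Finset.sum_div]

theorem dd_prod {σ : Type} [DecidableEq σ] (s : Finset σ) {F : σ → V τ → ℂ}
    (hF : ∀ i ∈ s, DifferentiableAt ℝ (F i) z) :
    dd c (fun w => ∏ i ∈ s, F i w) k z = ∑ i ∈ s, (∏ j ∈ s.erase i, F j z) * dd c (F i) k z := by
  have h := (HasFDerivAt.finsetProd (u := s) fun i hi => (hF i hi).hasFDerivAt).fderiv
  simp only [dd, h, _root_.sum_apply, _root_.smul_apply, smul_eq_mul,
    Finset.mul_sum, ← Finset.sum_add_distrib, Finset.sum_div]
  exact Finset.sum_congr rfl fun i _ => by ring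

theorem dd_star (hf : DifferentiableAt ℝ f z) :
    dd c (fun w => star (f w)) k z = star (dd (star c) f k z) := by
  have h : fderiv ℝ (fun w => star (f w)) z =
      (conjCLE : ℂ →L[ℝ] ℂ).comp (fderiv ℝ f z) :=
    ((conjCLE : ℂ →L[ℝ] ℂ).hasFDerivAt.comp z hf.hasFDerivAt).fderiv
  rw [dd, dd, h]
  simp

theorem dd_hol (hf : DifferentiableAt ℂ f z) :
    dd c f k z = (1 + c * I) / 2 * fderiv ℂ f z (Pi.single k 1) := by
  have e : (Pi.single k I : V τ) = I • Pi.single k 1 := by
    rw [← Pi.single_smul, smul_eq_mul, mul_one]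
  rw [dd, hf.fderiv_restrictScalars ℝ, ContinuousLinearMap.coe_restrictScalars', e, map_smul,
    smul_eq_mul]
  ring

theorem dd_hol_zero (hf : DifferentiableAt ℂ f z) : dd I f k z = 0 := by
  rw [dd_hol hf]
  simp

theorem dd_hol_one (hf : DifferentiableAt ℂ f z) :
    dd (-I) f k z = fderiv ℂ f z (Pi.single k 1) := by
  rw [dd_hol hf]
  simp

theorem dd_comp {φ : ℂ → ℂ} {a : ℂ} (hφ : HasDerivAt φ a (f z)) (hf : DifferentiableAt ℝ f z) :
    dd c (fun w => φ (f w)) k z = a * dd c f k z := by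
  have h : fderiv ℝ (fun w => φ (f w)) z = _ :=
    ((hφ.hasFDerivAt.restrictScalars ℝ).comp z hf.hasFDerivAt).fderiv
  simp only [dd, h]
  simp
  ring

theorem diff_dd (hf : ContDiffAt ℝ ∞ f z) : DifferentiableAt ℝ (dd c f k) z := by
  have h : DifferentiableAt ℝ (fderiv ℝ f) z :=
    (hf.fderiv_right (m := ∞) (by simp)).differentiableAt (by simp)
  unfold dd
  fun_prop

/-! ### matrices -/

variable {m n p : Type}

/-- entrywise derivative. -/
def DM (c : ℂ) (A : V τ → Matrix m n ℂ) (k : τ) (z : V τ) : Matrix m n ℂ :=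
  Matrix.of fun i j => dd c (fun w => A w i j) k z

/-- entrywise differentiability. -/
def Df (A : V τ → Matrix m n ℂ) (z : V τ) : Prop :=
  ∀ i j, DifferentiableAt ℝ (fun w => A w i j) z

omit [DecidableEq τ] in
theorem Df.mul [Fintype n] {A : V τ → Matrix m n ℂ} {B : V τ → Matrix n p ℂ} (hA : Df A z)
    (hB : Df B z) : Df (fun w => A w * B w) z := fun i j => by
  simp only [Matrix.mul_apply]
  exact DifferentiableAt.fun_sum fun l _ => (hA i l).mul (hB l j)

omit [DecidableEq τ] in
theorem Df.add {A B : V τ → Matrix m n ℂ} (hA : Df A z) (hB : Df B z) :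
    Df (fun w => A w + B w) z := fun i j => (hA i j).add (hB i j)

omit [DecidableEq τ] in
theorem Df.ct {A : V τ → Matrix m n ℂ} (hA : Df A z) : Df (fun w => (A w)ᴴ) z := fun i j =>
  (conjCLE : ℂ →L[ℝ] ℂ).differentiableAt.comp z (hA j i)

omit [DecidableEq τ] in
theorem Df.congr {A B : V τ → Matrix m n ℂ} (hA : Df A z) (h : ∀ᶠ w in 𝓝 z, B w = A w) :
    Df B z := fun i j =>
  (hA i j).congr_of_eventuallyEq (h.mono fun w hw => by simp only [hw])

theorem DM_congr {A B : V τ → Matrix m n ℂ} (h : ∀ᶠ w in 𝓝 z, A w = B w) :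
    DM c A k z = DM c B k z := by
  ext i j
  exact dd_congr (h.mono fun w hw => by simp only [hw])

theorem DM_const (A : Matrix m n ℂ) : DM c (fun _ : V τ => A) k z = 0 := by
  ext i j
  exact dd_const _

theorem DM_add {A B : V τ → Matrix m n ℂ} (hA : Df A z) (hB : Df B z) :
    DM c (fun w => A w + B w) k z = DM c A k z + DM c B k z := by
  ext i j
  exact dd_add (hA i j) (hB i j)

theorem DM_mul [Fintype n] {A : V τ → Matrix m n ℂ} {B : V τ → Matrix n p ℂ} (hA : Df A z)
    (hB : Df B z) : DM c (fun w => A w * B w) k z = DM c A k z * B z + A z * DM c B k z := by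
  ext i j
  simp only [DM, Matrix.mul_apply, Matrix.add_apply, Matrix.of_apply]
  rw [dd_sum (F := fun l w => A w i l * B w l j) _ fun l _ => (hA i l).mul (hB l j),
    ← Finset.sum_add_distrib]
  exact Finset.sum_congr rfl fun l _ => dd_mul (hA i l) (hB l j)

theorem DM_ct {A : V τ → Matrix m n ℂ} (hA : Df A z) :
    DM c (fun w => (A w)ᴴ) k z = (DM (star c) A k z)ᴴ := by
  ext i j
  exact dd_star (hA j i)

theorem dd_trace [Fintype n] {A : V τ → Matrix n n ℂ} (hA : Df A z) :
    dd c (fun w => trace (A w)) k z = trace (DM c A k z) :=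
  dd_sum (F := fun i w => A w i i) _ fun i _ => hA i i

variable [Fintype n] [DecidableEq n]

omit [DecidableEq τ] in
theorem Df.det {A : V τ → Matrix n n ℂ} (hA : Df A z) :
    DifferentiableAt ℝ (fun w => (A w).det) z := by
  simp only [Matrix.det_apply']
  exact DifferentiableAt.fun_sum fun s _ => (differentiableAt_const _).mul
    (HasFDerivAt.finsetProd fun i _ => (hA (s i) i).hasFDerivAt).differentiableAt

theorem dd_det {A : V τ → Matrix n n ℂ} (hA : Df A z) :
    dd c (fun w => (A w).det) k z = trace (DM c A k z * (A z).adjugate) := by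
  have hp : ∀ s : Equiv.Perm n, DifferentiableAt ℝ (fun w => ∏ i, A w (s i) i) z := fun s =>
    (HasFDerivAt.finsetProd fun i _ => (hA (s i) i).hasFDerivAt).differentiableAt
  have e : ∀ i, ((A z).adjugate * DM c A k z) i i =
      ((A z).updateCol i fun j => DM c A k z j i).det := fun i => by
    rw [← Matrix.cramer_apply, Matrix.cramer_eq_adjugate_mulVec]
    rfl
  rw [trace_mul_comm, trace]
  simp only [diag_apply, e, Matrix.det_apply']
  rw [dd_sum (F := fun (s : Equiv.Perm n) w => ((Equiv.Perm.sign s : ℤ) : ℂ) * ∏ i, A w (s i) i) _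
    fun s _ => (differentiableAt_const _).mul (hp s), Finset.sum_comm]
  refine Finset.sum_congr rfl fun s _ => ?_
  rw [dd_mul (differentiableAt_const _) (hp s), dd_const, zero_mul, zero_add,
    dd_prod (F := fun i w => A w (s i) i) _ fun i _ => hA (s i) i, Finset.mul_sum]
  refine Finset.sum_congr rfl fun i _ => ?_
  rw [← Finset.prod_erase_mul _ _ (Finset.mem_univ i), Matrix.updateCol_self]
  congr 2
  exact Finset.prod_congr rfl fun j hj => (Matrix.updateCol_ne (Finset.ne_of_mem_erase hj)).symm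

omit [DecidableEq τ] in
theorem Df.inv {A : V τ → Matrix n n ℂ} (hA : Df A z) (h : (A z).det ≠ 0) :
    Df (fun w => (A w)⁻¹) z := fun i j => by
  simp only [Matrix.inv_def, Ring.inverse_eq_inv', Matrix.smul_apply, smul_eq_mul,
    Matrix.adjugate_apply]
  refine (hA.det.inv h).mul (Df.det (A := fun w => (A w).updateRow j (Pi.single i 1)) ?_)
  intro a b
  simp only [Matrix.updateRow_apply]
  split_ifs
  · exact differentiableAt_const _
  · exact hA a b

theorem DM_inv {A : V τ → Matrix n n ℂ} (hA : Df A z) (h : (A z).det ≠ 0) :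
    DM c (fun w => (A w)⁻¹) k z = -((A z)⁻¹ * DM c A k z * (A z)⁻¹) := by
  have h1 : ∀ᶠ w in 𝓝 z, A w * (A w)⁻¹ = 1 :=
    (hA.det.continuousAt.eventually_ne h).mono fun w hw => Matrix.mul_nonsing_inv _ (Ne.isUnit hw)
  have h2 := DM_mul (c := c) (k := k) hA (hA.inv h)
  rw [DM_congr h1, DM_const] at h2
  have h3 := congrArg (fun X => (A z)⁻¹ * X) h2
  simp only [Matrix.mul_zero, Matrix.mul_add, Matrix.nonsing_inv_mul_cancel_left _ _ (Ne.isUnit h),
    ← Matrix.mul_assoc (A z)⁻¹ (DM c A k z)] at h3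
  exact (neg_eq_of_add_eq_zero_right h3.symm).symm

/-- the derivative of `log det`. -/
theorem dd_log {A : V τ → Matrix n n ℂ} (hA : Df A z) (hp : ∀ᶠ w in 𝓝 z, (A w).PosSemidef)
    (h : (A z).PosDef) :
    dd c (fun w => (Real.log (A w).det.re : ℂ)) k z = trace (DM c A k z * (A z)⁻¹) := by
  have h0 := h.det_pos
  have h1 : (fun w => (Real.log (A w).det.re : ℂ)) =ᶠ[𝓝 z] fun w => Complex.log (A w).det := by
    filter_upwards [hp] with w hw
    obtain ⟨h2, h3⟩ := Complex.nonneg_iff.1 hw.det_nonneg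
    rw [Complex.ofReal_log h2]
    congr 1
    exact Complex.ext rfl h3
  have h2 : (A z).det ∈ slitPlane := Or.inl (Complex.pos_iff.1 h0).1
  rw [dd_congr h1, dd_comp (f := fun w => (A w).det) (Complex.hasDerivAt_log h2) hA.det, dd_det hA,
    Matrix.inv_def, Ring.inverse_eq_inv', Matrix.mul_smul, trace_smul, smul_eq_mul]

end Sub

end

end Pool.Agent.Lib.MP_813db1_ag.HS
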