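import Mathlib

/-! Kaehler metrics in charts, curvature, numerical dimension and pluricanonical sections. -/

namespace Pool.Agent.Lib.MP_813db1_ag.HS

open MeasureTheory Complex Matrix
open scoped ContDiff ComplexOrder

noncomputable section

variable {ι : Type} [Fintype ι] [DecidableEq ι]

/-- the Wirtinger derivative `∂ f / ∂ z_k`. -/
def dz (f : (ι → ℂ) → ℂ) (k : ι) (z : ι → ℂ) : ℂ :=
  (fderiv ℝ f z (Pi.single k 1) - I * fderiv ℝ f z (Pi.single k I)) / 2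

/-- the Wirtinger derivative `∂ f / ∂ conj z_k`. -/
def dzb (f : (ι → ℂ) → ℂ) (k : ι) (z : ι → ℂ) : ℂ :=
  (fderiv ℝ f z (Pi.single k 1) + I * fderiv ℝ f z (Pi.single k I)) / 2

/-- the complex Hessian `∂² f / ∂ z_i ∂ conj z_j`. -/
def levi (f : (ι → ℂ) → ℂ) (z : ι → ℂ) : Matrix ι ι ℂ := Matrix.of fun i j => dz (dzb f j) i z

/-- the complex Jacobian matrix `∂ φ_p / ∂ z_i`. -/
def jac (φ : (ι → ℂ) → ι → ℂ) (z : ι → ℂ) : Matrix ι ι ℂ :=
  Matrix.of fun p i => fderiv ℂ φ z (Pi.single i 1) p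

/-- the curvature tensor `R_{i jbar k lbar}` of the Hermitian metric with matrix `G`. -/
def curv (G : (ι → ℂ) → Matrix ι ι ℂ) (z : ι → ℂ) (i j k l : ι) : ℂ :=
  -dz (dzb (fun w => G w i j) l) k z +
    ∑ p, ∑ q, (G z)⁻¹ q p * dz (fun w => G w i q) k z * dzb (fun w => G w p j) l z

/-- the Ricci form `- ∂ ∂bar log det G`. -/
def ric (G : (ι → ℂ) → Matrix ι ι ℂ) (z : ι → ℂ) : Matrix ι ι ℂ :=
  -levi (fun w => (Real.log (G w).det.re : ℂ)) z

/-- `R(v, vbar, v, vbar)`, the numerator of the holomorphic sectional curvature. -/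
def hsc (G : (ι → ℂ) → Matrix ι ι ℂ) (z v : ι → ℂ) : ℝ :=
  (∑ i, ∑ j, ∑ k, ∑ l, curv G z i j k l * v i * star (v j) * v k * star (v l)).re

/-- a Kaehler metric, given by its matrix `g_{i jbar}` in each chart of the atlas. -/
structure Kahler (ι X : Type) [Fintype ι] [DecidableEq ι] [TopologicalSpace X]
    [ChartedSpace (ι → ℂ) X] where
  g : OpenPartialHomeomorph X (ι → ℂ) → (ι → ℂ) → Matrix ι ι ℂ
  smooth : ∀ e ∈ atlas (ι → ℂ) X, ∀ i j, ContDiffOn ℝ ∞ (fun z => g e z i j) e.target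
  pos : ∀ e ∈ atlas (ι → ℂ) X, ∀ z ∈ e.target, (g e z).PosDef
  closed : ∀ e ∈ atlas (ι → ℂ) X, ∀ z ∈ e.target, ∀ i j k,
    dz (fun w => g e w i j) k z = dz (fun w => g e w k j) i z
  trans : ∀ e ∈ atlas (ι → ℂ) X, ∀ e' ∈ atlas (ι → ℂ) X, ∀ x ∈ e.source, x ∈ e'.source →
    g e (e x) = (jac (e' ∘ e.symm) (e x))ᵀ * g e' (e' x) * (jac (e' ∘ e.symm) (e x)).map star

variable {X : Type} [TopologicalSpace X] [ChartedSpace (ι → ℂ) X]

/-- the holomorphic sectional curvature is nowhere positive. -/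
def Kahler.SemiNeg (K : Kahler ι X) : Prop :=
  ∀ e ∈ atlas (ι → ℂ) X, ∀ z ∈ e.target, ∀ v, hsc (K.g e) z v ≤ 0

/-- `μ` is the volume measure: it has density `det g` in each chart. -/
def Kahler.IsVol [MeasurableSpace X] (K : Kahler ι X) (μ : Measure X) : Prop :=
  ∀ e ∈ atlas (ι → ℂ) X, μ.restrict e.source = Measure.map e.symm
    ((volume.restrict e.target).withDensity fun z => ENNReal.ofReal (K.g e z).det.re)

/-- the `k`-th elementary symmetric function of the eigenvalues of `-Ric` with respect to `g`,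
that is `binomial(n, k) (-Ric)^k ∧ ω^(n-k) / ω^n`. -/
def Kahler.mixed (K : Kahler ι X) (k : ℕ) (x : X) : ℝ :=
  (((K.g (chartAt (ι → ℂ) x) (chartAt (ι → ℂ) x x))⁻¹ *
    ric (K.g (chartAt (ι → ℂ) x)) (chartAt (ι → ℂ) x x)).charpoly.coeff (Fintype.card ι - k)).re

/-- the numerical dimension: the largest `k` with `c_1(K_X)^k · [ω]^(n-k) ≠ 0`. -/
def Kahler.numDim [MeasurableSpace X] (K : Kahler ι X) : ℕ :=
  sSup {k | k ≤ Fintype.card ι ∧ ∃ μ : Measure X, K.IsVol μ ∧ ∫ x, K.mixed k x ∂μ ≠ 0}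

/-- `s` is a holomorphic section of the `m`-th power of the canonical bundle: `s e` is the
coefficient of `(dz_1 ∧ ... ∧ dz_n)^m` in the chart `e`. -/
def IsPluri (m : ℕ) (s : OpenPartialHomeomorph X (ι → ℂ) → (ι → ℂ) → ℂ) : Prop :=
  (∀ e ∈ atlas (ι → ℂ) X, DifferentiableOn ℂ (s e) e.target) ∧
    ∀ e ∈ atlas (ι → ℂ) X, ∀ e' ∈ atlas (ι → ℂ) X, ∀ x ∈ e.source, x ∈ e'.source →
      s e (e x) = (jac (e' ∘ e.symm) (e x)).det ^ m * s e' (e' x)

/-- the sections `s j` are linearly independent. -/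
def Indep {M : ℕ} (s : Fin M → OpenPartialHomeomorph X (ι → ℂ) → (ι → ℂ) → ℂ) : Prop :=
  ∀ c : Fin M → ℂ, (∀ e ∈ atlas (ι → ℂ) X, ∀ z ∈ e.target, ∑ j, c j * s j e z = 0) → c = 0

end

end Pool.Agent.Lib.MP_813db1_ag.HS
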