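import Pool.Agent.Lib.MP_813db1_ag.HS.Stmt2
import Pool.Agent.Lib.MP_813db1_ag.HS.Calc2

/-! Local lemmas for the proof that the potentials are basic. -/

namespace Pool.Agent.Lib.MP_813db1_ag.HS

open MeasureTheory Complex Matrix Filter Topology Set Metric
open scoped ContDiff ComplexOrder

namespace UBas

variable {ι : Type} [Fintype ι] [DecidableEq ι] {f : V ι → ℂ} {z : V ι}

omit [DecidableEq ι] in
theorem two (h : ContDiffAt ℝ ∞ f z) : ContDiffAt ℝ 2 f z := h.of_le (by norm_cast)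

theorem dM_levi (h : ContDiffAt ℝ ∞ f z) (k : ι) : dM (levi f) k z = levi (dz f k) z := by
  ext p q
  have e : dz (dzb f q) k =ᶠ[𝓝 z] dzb (dz f k) q :=
    ((two h).eventually (by simp)).mono fun w hw => dz_dzb_comm hw k q
  exact (dz_dz_comm (two (contDiffAt_dzb_top h q)) k p).trans (dz_congr e p)

theorem dMb_levi (h : ContDiffAt ℝ ∞ f z) (k : ι) : dMb (levi f) k z = levi (dzb f k) z := by
  ext p q
  have e : dzb (dzb f q) k =ᶠ[𝓝 z] dzb (dzb f k) q :=
    ((two h).eventually (by simp)).mono fun w hw => dzb_dzb_comm hw k q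
  exact (dz_dzb_comm (two (contDiffAt_dzb_top h q)) p k).symm.trans (dz_congr e p)

theorem levi_sq (h : ContDiffAt ℝ 2 f z) : levi (fun w => f w * star (f w)) z =
    star (f z) • levi f z + vecMulVec (star fun j => dzb f j z) (fun j => dzb f j z) +
      vecMulVec (fun j => dz f j z) (star fun j => dz f j z) +
      f z • levi (fun w => star (f w)) z := by
  ext p q
  have hs : ContDiffAt ℝ 2 (fun w => star (f w)) z := conjCLE.contDiff.contDiffAt.comp z h
  rw [levi_mul h hs, dz_star, dzb_star]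
  simp only [Matrix.add_apply, Matrix.smul_apply, vecMulVec_apply, Pi.star_apply, smul_eq_mul]
  ring

theorem loc_max (hx : MaxS) (hm : MatS) (s : Finset ι) (φ : V ι → ℝ) (H K : V ι → Mat ι)
    (l : V ι → ℂ) (hφ : ContDiffAt ℝ ∞ (fun w => (φ w : ℂ)) z)
    (hp : ∀ᶠ w in 𝓝 z, (H w).IsHermitian) (hpd : (H z).PosDef) (hK : DfM K z)
    (e1 : H =ᶠ[𝓝 z] fun w => K w + levi (fun w => (φ w : ℂ)) w)
    (e2 : lg H =ᶠ[𝓝 z] fun w => φ w + l w) (hl : DifferentiableAt ℝ l z)
    (b1 : ∀ i ∈ s, dM K i z = 0 ∧ dMb K i z = 0) (b2 : ∀ i ∈ s, dz l i z = 0 ∧ dzb l i z = 0)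
    (hmax : IsLocalMax (fun w => ∑ i ∈ s, ‖dz (fun w => (φ w : ℂ)) i w‖ ^ 2) z) :
    ∑ i ∈ s, ‖dz (fun w => (φ w : ℂ)) i z‖ ^ 2 ≤ 0 := by
  have hb : ∀ i, dzb (fun w => (φ w : ℂ)) i = fun w => star (dz (fun w => (φ w : ℂ)) i w) :=
    fun i => funext fun w => dzb_ofReal φ i w
  set f : V ι → ℂ := fun w => (φ w : ℂ) with hf
  have hL : DfM (levi f) z := fun i j => (contDiffAt_levi_top hφ i j).differentiableAt (by simp)
  have hH : DfM H z := fun i j => ((hK.add hL) i j).congr_of_eventuallyEq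
    (e1.mono fun w hw => by simp only [hw])
  have h0 : (H z).det ≠ 0 := hpd.isUnit.map detMonoidHom |>.ne_zero
  have hd : DifferentiableAt ℝ f z := hφ.differentiableAt (by simp)
  have t1 : ∀ i ∈ s, trace (levi (dz f i) z * (H z)⁻¹) = dz f i z := fun i hi => by
    have := dz_lg hH hp h0 i
    rw [dz_congr e2, dM_congr e1, dM_add hK hL, (b1 i hi).1, zero_add, dM_levi hφ] at this
    rw [← this]
    exact (dz_add hd hl i).trans (by rw [(b2 i hi).1, add_zero])
  have t2 : ∀ i ∈ s, trace (levi (fun w => star (dz f i w)) z * (H z)⁻¹) = star (dz f i z) :=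
    fun i hi => by
    have := dzb_lg hH hp h0 i
    rw [dzb_congr e2, dMb_congr e1, dMb_add hK hL, (b1 i hi).2, zero_add, dMb_levi hφ, hb] at this
    rw [← this]
    exact (dzb_add hd hl i).trans (by rw [(b2 i hi).2, add_zero, hb])
  have eF : (fun w => ((∑ i ∈ s, ‖dz f i w‖ ^ 2 : ℝ) : ℂ)) =
      fun w => ∑ i ∈ s, dz f i w * star (dz f i w) := by
    funext w
    push_cast
    exact Finset.sum_congr rfl fun i _ => (mul_conj' _).symm
  have c1 : ∀ i, ContDiffAt ℝ 2 (dz f i) z := fun i => two (contDiffAt_dz_top hφ i)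
  have c2 : ∀ i, ContDiffAt ℝ 2 (fun w => dz f i w * star (dz f i w)) z := fun i =>
    (c1 i).mul (conjCLE.contDiff.contDiffAt.comp z (c1 i))
  have c3 : ContDiffAt ℝ 2 (fun w => ∑ i ∈ s, ‖dz f i w‖ ^ 2) z := by
    rw [← contDiffAt_ofReal, eF]
    exact ContDiffAt.sum fun i _ => c2 i
  have key := hm.trm_nonneg ι _ _ hpd (hx.loc ι _ z c3 hmax)
  rw [eF, levi_sum s fun i _ => c2 i, trm, neg_mul, trace_neg, neg_re, Finset.sum_mul, trace_sum,
    re_sum] at key
  have : ∑ i ∈ s, 2 * ‖dz f i z‖ ^ 2 ≤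
      ∑ i ∈ s, (trace (levi (fun w => dz f i w * star (dz f i w)) z * (H z)⁻¹)).re := by
    refine Finset.sum_le_sum fun i hi => ?_
    have p1 := hm.trm_nonneg ι _ _ hpd
      (posSemidef_vecMulVec_star_self fun j => dzb (dz f i) j z)
    have p2 := hm.trm_nonneg ι _ _ hpd
      (posSemidef_vecMulVec_self_star fun j => dz (dz f i) j z)
    rw [levi_sq (c1 i)]
    simp only [add_mul, trace_add, smul_mul_assoc, trace_smul, t1 i hi, t2 i hi, add_re,
      smul_eq_mul, mul_comm (star (dz f i z))]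
    rw [show dz f i z * star (dz f i z) = ((‖dz f i z‖ ^ 2 : ℝ) : ℂ) by
      push_cast; exact mul_conj' _, ofReal_re]
    simp only [trm] at p1 p2
    linarith
  rw [← Finset.mul_sum] at this
  linarith

theorem unit_sum (s : Finset ι) (J A B : Mat ι) (hJ : Blk s J) (hA : Rows s 1 A) (hB : Rows s 1 B)
    (e : A = pull J B) (d : V ι) :
    ∑ i ∈ s, ‖∑ p, J p i * d p‖ ^ 2 = ∑ i ∈ s, ‖d i‖ ^ 2 := by
  have sub : ∀ i ∈ s, ∀ F : ι → ℂ, ∑ p, J p i * F p = ∑ p : s, J p i * F p := fun i hi F => by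
    rw [Finset.sum_coe_sort s fun p => J p i * F p]
    refine (Finset.sum_subset (Finset.subset_univ s) fun p _ hp => ?_).symm
    rw [hJ p i (by simp [hp, hi]), zero_mul]
  let Js : Matrix s s ℂ := J.submatrix Subtype.val Subtype.val
  have u1 : Jsᴴ * Js = 1 := by
    ext j i
    have := hA i i.2 j
    rw [e, pull, Matrix.mul_assoc, Matrix.mul_apply] at this
    simp only [transpose_apply] at this
    rw [sub i i.2] at this
    rw [Matrix.mul_apply, one_apply, if_congr (Subtype.ext_iff.trans eq_comm) rfl rfl, ← this]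
    refine Finset.sum_congr rfl fun p _ => ?_
    simp [Js, Matrix.mul_apply, hB p p.2, mul_comm]
  have u2 : Js * Jsᴴ = 1 := mul_eq_one_comm.1 u1
  have nn : ∀ a : s → ℂ, ((∑ i, ‖a i‖ ^ 2 : ℝ) : ℂ) = a ⬝ᵥ star a := fun a => by
    push_cast
    exact Finset.sum_congr rfl fun i _ => (mul_conj' _).symm
  have := nn ((fun p : s => d p) ᵥ* Js)
  rw [star_vecMul, dotProduct_mulVec, vecMul_vecMul, u2, vecMul_one, ← nn, ofReal_inj,
    Finset.sum_coe_sort s fun p => ‖d p‖ ^ 2] at this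
  rw [← this, ← Finset.sum_coe_sort s]
  refine Finset.sum_congr rfl fun i _ => ?_
  rw [sub i i.2]
  simp [Js, vecMul, dotProduct, mul_comm]

omit [Fintype ι] in
theorem yp_glue (s : Finset ι) (a : V {i // i ∈ s}) (y : V {i // i ∉ s}) :
    yp s (glue s a y) = y := by
  funext i
  simp [yp, glue, i.2]

theorem contDiff_glue (s : Finset ι) : ContDiff ℝ 2 fun y : V {i // i ∉ s} => glue s 0 y := by
  refine contDiff_pi.2 fun i => ?_
  by_cases h : i ∈ s
  · simp only [glue, dif_pos h]; exact contDiff_const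
  · simp only [glue, dif_neg h]; exact contDiff_apply ℝ ℂ _

theorem glue_mem (hr : RowsS) (s : Finset ι) {R : ℝ} {y : V {i // i ∉ s}}
    (hy : y ∈ ball (0 : V {i // i ∉ s}) R) : glue s 0 y ∈ ball (0 : V ι) R := by
  have h0 : 0 < R := pos_of_mem_ball hy
  rw [mem_ball_zero_iff] at hy ⊢
  exact ((hr.norm ι s R h0).1 0 y).2 ⟨by simpa using h0, hy⟩

theorem levi_trv (hr : RowsS) (s : Finset ι) {R : ℝ}
    (h : ∀ z ∈ ball (0 : V ι) R, ContDiffAt ℝ 2 f z ∧ ∀ i ∈ s, dz f i z = 0 ∧ dzb f i z = 0)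
    {y : V {i // i ∉ s}} (hy : y ∈ ball (0 : V {i // i ∉ s}) R) :
    ContDiffAt ℝ 2 (fun w => f (glue s 0 w)) y ∧
    (levi f (glue s 0 y)).submatrix Subtype.val Subtype.val = levi (fun w => f (glue s 0 w)) y := by
  have hz := glue_mem hr s hy
  have c : ContDiffAt ℝ 2 (fun w => f (glue s 0 w)) y :=
    (h _ hz).1.comp y (contDiff_glue s).contDiffAt
  refine ⟨c, ?_⟩
  have e : f =ᶠ[𝓝 (glue s 0 y)] fun w => f (glue s 0 (yp s w)) :=
    (isOpen_ball.eventually_mem hz).mono (hr.const ι s R f fun w hw =>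
      ⟨(h w hw).1.differentiableAt two_ne_zero, fun i hi c => by
        rw [fderiv_single, ((h w hw).2 i hi).1, ((h w hw).2 i hi).2]; simp⟩)
  have := ((hr.der ι s (fun w => f (glue s 0 w)) (glue s 0 y)).2 (by rwa [yp_glue])).2.2
  rw [levi_congr e, this, yp_glue]

theorem rows_levi (s : Finset ι) (h : ContDiffAt ℝ 2 f z)
    (h0 : ∀ᶠ w in 𝓝 z, ∀ i ∈ s, dz f i w = 0) : Rows s 0 (levi f z) := fun i hi j => by
  have e : dz f i =ᶠ[𝓝 z] fun _ => 0 := h0.mono fun w hw => hw i hi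
  rw [levi_apply, dz_dzb_comm h, dzb_congr e, dzb_const, ite_self]

end UBas

end Pool.Agent.Lib.MP_813db1_ag.HS
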